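import Pool.Agent.Lib.D4C.Iface

/-! At every place some addition law is large. -/

namespace D4C

open MvPolynomial

namespace T83

variable {L : Type} [Field L]

theorem one_le_hv (v : AbsoluteValue L ℝ) (A : Finset L) : 1 ≤ hv v A :=
  Finset.prod_induction _ (fun t : ℝ => 1 ≤ t) (fun _ _ => one_le_mul_of_one_le_of_one_le) le_rfl
    fun _ _ => le_max_left _ _

theorem le_hv (v : AbsoluteValue L ℝ) {A : Finset L} {a : L} (h : a ∈ A) : v a ≤ hv v A := by
  classical
  unfold hv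
  rw [← Finset.mul_prod_erase A _ h]
  exact (le_max_right 1 _).trans (le_mul_of_one_le_right (by positivity) (one_le_hv v _))

theorem v_aeval_le {τ : Type} (v : AbsoluteValue L ℝ) {A : Finset L} {G : MvPolynomial τ L}
    (hG : ∀ d ∈ G.support, coeff d G ∈ A) {w : τ → L} (hw : ∀ s, v (w s) ≤ 1) :
    v (aeval w G) ≤ G.support.card * hv v A := by
  conv_lhs => rw [G.as_sum, map_sum]
  refine (v.sum_le _ _).trans ?_
  rw [← nsmul_eq_mul]
  refine Finset.sum_le_card_nsmul _ _ _ fun d hd => ?_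
  rw [aeval_monomial, map_mul, Finsupp.prod, map_prod]
  refine (mul_le_of_le_one_right (v.nonneg _) ?_).trans (le_hv v (hG d hd))
  exact Finset.prod_le_one (fun _ _ => v.nonneg _) fun s _ => by
    rw [map_pow]; exact pow_le_one₀ (v.nonneg _) (hw s)

variable {σ : Type} [Fintype σ]

theorem le_sn (v : AbsoluteValue L ℝ) (x : σ → L) (i : σ) : v (x i) ≤ sn v x :=
  le_ciSup (Finite.bddAbove_range fun i => v (x i)) i

theorem exists_sn (v : AbsoluteValue L ℝ) {x : σ → L} (hx : x ≠ 0) :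
    ∃ i, x i ≠ 0 ∧ sn v x = v (x i) := by
  obtain ⟨k, hk⟩ := Function.ne_iff.1 hx
  have : Nonempty σ := ⟨k⟩
  obtain ⟨i, hi⟩ := exists_eq_ciSup_of_finite (f := fun i => v (x i))
  refine ⟨i, fun h => ?_, hi.symm⟩
  have := le_sn v x k
  rw [sn, ← hi, h, map_zero] at this
  exact absurd (v.pos hk) (not_lt.2 this)

variable [DecidableEq σ] (B : Pkg L σ)

theorem unit_law (i j : σ) : ∃ G : Fin B.nl × σ → MvPolynomial (σ ⊕ σ) L, ∀ x y : σ → L,
    Zr B.I x → Zr B.I y → x i = 1 → y j = 1 →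
    ∑ s, aeval (Sum.elim x y) (G s) * ev2 (B.A s.1) x y s.2 = 1 := by
  let b : Ideal (MvPolynomial (σ ⊕ σ) L) :=
    { carrier := {P | ∀ x y : σ → L, Zr B.I x → Zr B.I y → x i = 1 → y j = 1 →
        aeval (Sum.elim x y) P = 0}
      add_mem' := fun h h' x y a b c d => by rw [map_add, h x y a b c d, h' x y a b c d, add_zero]
      zero_mem' := fun _ _ _ _ _ _ => map_zero _
      smul_mem' := fun _ _ h x y a b c d => by rw [smul_eq_mul, map_mul, h x y a b c d, mul_zero] }
  have top : Ideal.span (Set.range fun s : Fin B.nl × σ => B.A s.1 s.2) ⊔ b = ⊤ := by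
    by_contra hne
    obtain ⟨m, hm, hle⟩ := Ideal.exists_le_maximal _ hne
    let _ := Ideal.Quotient.field m
    let π := Ideal.Quotient.mkₐ L m
    have hb : ∀ P ∈ b, π P = 0 := fun P h => Ideal.Quotient.eq_zero_iff_mem.2 (hle (le_sup_right (b := b) h))
    have z : ∀ e : σ → σ ⊕ σ, (∀ x y : σ → L, Zr B.I x → Zr B.I y → Zr B.I (Sum.elim x y ∘ e)) →
        Zr B.I fun k => π (X (e k)) := fun e he F hF => by
      rw [aeval_map_alg]
      refine hb _ fun x y a b _ _ => ?_
      rw [← aeval_map_alg]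
      simpa [Function.comp_def] using he x y a b F hF
    have nz : ∀ (e : σ → σ ⊕ σ) (k : σ), X (e k) - 1 ∈ b → (fun k => π (X (e k))) ≠ 0 :=
      fun e k h h0 => by
        have := hb _ h
        rw [map_sub, map_one, show π (X (e k)) = 0 from congrFun h0 k, zero_sub, neg_eq_zero] at this
        exact one_ne_zero this
    obtain ⟨a, ha⟩ := B.complete _ _ _ (z Sum.inl fun x y a _ => a) (z Sum.inr fun x y _ b => b)
      (nz _ i fun x y _ _ c _ => by simp [c]) (nz _ j fun x y _ _ _ d => by simp [d])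
    refine ha (funext fun l => ?_)
    rw [ev2_map]
    have : ev2 (B.A a) (fun k => X (Sum.inl k)) (fun k => X (Sum.inr k)) l = B.A a l := by
      unfold ev2
      rw [show Sum.elim (fun k => X (Sum.inl k)) (fun k => X (Sum.inr k)) =
        (X : σ ⊕ σ → MvPolynomial (σ ⊕ σ) L) from funext fun s => by cases s <;> rfl,
        aeval_X_left_apply]
    show π _ = 0
    rw [this]
    exact Ideal.Quotient.eq_zero_iff_mem.2 (hle (le_sup_left (b := b)
      (Ideal.subset_span ⟨(a, l), rfl⟩)))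
  obtain ⟨s, hs, t, ht, e⟩ := Submodule.mem_sup.1 ((Ideal.eq_top_iff_one _).1 top)
  obtain ⟨G, rfl⟩ := Ideal.mem_span_range_iff_exists_fun.1 hs
  refine ⟨G, fun x y a b c d => ?_⟩
  have := congrArg (aeval (Sum.elim x y)) e
  rw [map_add, ht x y a b c d, add_zero, map_sum, map_one] at this
  simpa only [map_mul, ev2] using this

end T83

open T83 in
theorem st_LAW : St_LAW := by
  intro L σ _ _ _ B
  classical
  choose G hG using unit_law B
  refine ⟨∑ i, ∑ j, ∑ s, (G i j s).support.card, Finset.univ.biUnion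
    fun t : σ × σ × (Fin B.nl × σ) => (G t.1 t.2.1 t.2.2).coeffs, fun v x y hx hy x0 y0 => ?_⟩
  set A := Finset.univ.biUnion fun t : σ × σ × (Fin B.nl × σ) => (G t.1 t.2.1 t.2.2).coeffs
  obtain ⟨i, xi, ei⟩ := exists_sn v x0
  obtain ⟨j, yj, ej⟩ := exists_sn v y0
  have : Nonempty (Fin B.nl) := ⟨(B.complete L x y hx hy x0 y0).choose⟩
  obtain ⟨a, ha⟩ := Finite.exists_max fun a => sn v (ev2 (B.A a) x y)
  refine ⟨a, ?_⟩
  have h1 := hG i j ((x i)⁻¹ • x) ((y j)⁻¹ • y) (hx.smul B.hom _) (hy.smul B.hom _)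
    (by simp [xi]) (by simp [yj])
  have h2 : x i ^ B.β * y j ^ B.β = ∑ s, aeval (Sum.elim ((x i)⁻¹ • x) ((y j)⁻¹ • y)) (G i j s) *
      ev2 (B.A s.1) x y s.2 := by
    rw [← mul_one (_ * _), ← h1, Finset.mul_sum]
    refine Finset.sum_congr rfl fun s _ => ?_
    rw [B.ev2_smul, Pi.smul_apply, smul_eq_mul, mul_left_comm, ← mul_assoc (_ * _), inv_pow,
      inv_pow, ← mul_inv, mul_inv_cancel₀ (mul_ne_zero (pow_ne_zero _ xi) (pow_ne_zero _ yj)),
      one_mul]
  have hw : ∀ s, v (Sum.elim ((x i)⁻¹ • x) ((y j)⁻¹ • y) s) ≤ 1 := by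
    rintro (k | k)
    · simpa [inv_mul_le_iff₀ (v.pos xi)] using (le_sn v x k).trans ei.le
    · simpa [inv_mul_le_iff₀ (v.pos yj)] using (le_sn v y k).trans ej.le
  have M0 : 0 ≤ sn v (ev2 (B.A a) x y) := (v.nonneg _).trans (le_sn v _ i)
  have H0 : 0 ≤ hv v A := zero_le_one.trans (one_le_hv v A)
  rw [ei, ej, ← map_pow, ← map_pow, ← map_mul, h2]
  refine (v.sum_le _ _).trans (le_trans (Finset.sum_le_sum (g := fun s =>
    ((G i j s).support.card : ℝ) * hv v A * sn v (ev2 (B.A a) x y)) fun s _ => ?_) ?_)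
  · rw [map_mul]
    refine mul_le_mul (v_aeval_le v (fun d hd => Finset.mem_biUnion.2 ⟨(i, j, s), by simp,
      coeff_mem_coeffs d (mem_support_iff.1 hd)⟩) hw) ((le_sn v _ _).trans (ha _)) (v.nonneg _)
      (by positivity)
  · rw [← Finset.sum_mul, ← Finset.sum_mul, ← Nat.cast_sum]
    gcongr
    exact (Finset.single_le_sum (f := fun j => ∑ s, (G i j s).support.card)
      (fun _ _ => Nat.zero_le _) (Finset.mem_univ j)).trans (Finset.single_le_sum
      (f := fun i => ∑ j, ∑ s, (G i j s).support.card) (fun _ _ => Nat.zero_le _) (Finset.mem_univ i))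

end D4C
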