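import Pool.Agent.Lib.D4C.BlueA

/-! d4c56: calculus of multihomogeneous forms. -/

set_option linter.unusedSectionVars false

namespace D4C.T1

open MvPolynomial

variable {κ σ L : Type} [Field L] [DecidableEq κ]

/-- block weight -/
def bwt (κ σ : Type) [DecidableEq κ] : κ × σ → κ → ℕ := fun s => Pi.single s.1 1

theorem weight_bwt (d : κ × σ →₀ ℕ) (i : κ) : Finsupp.weight (bwt κ σ) d i = (d.curry i).degree := by
  induction d using Finsupp.induction_linear with
  | zero =>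
    have : (0 : κ × σ →₀ ℕ).curry i = 0 := Finsupp.ext fun _ => rfl
    simp [this]
  | add f g hf hg =>
    have : (f + g).curry i = f.curry i + g.curry i := Finsupp.ext fun _ => rfl
    rw [map_add, Pi.add_apply, hf, hg, this, map_add]
  | single s n =>
    rw [Finsupp.weight_single, Finsupp.curry_single]
    by_cases h : s.1 = i
    · subst h; simp [bwt]
    · simp [bwt, Finsupp.single_eq_of_ne (Ne.symm h), Pi.single_eq_of_ne (Ne.symm h)]

theorem mh_iff {δ : κ → ℕ} {F : MvPolynomial (κ × σ) L} :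
    MH δ F ↔ F.IsWeightedHomogeneous (bwt κ σ) δ := by
  constructor
  · intro h d hd
    funext i
    rw [weight_bwt]; exact h d (mem_support_iff.2 hd) i
  · intro h d hd i
    rw [← weight_bwt, h (mem_support_iff.1 hd)]

theorem wh_aeval {τ τ' M N : Type} [AddCommMonoid M] [AddCommMonoid N] {u : τ → M} {w : τ' → N}
    (φ : M →+ N) {F : MvPolynomial τ L} {m : M} (hF : F.IsWeightedHomogeneous u m)
    {x : τ → MvPolynomial τ' L} (hx : ∀ s, (x s).IsWeightedHomogeneous w (φ (u s))) :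
    (aeval x F).IsWeightedHomogeneous w (φ m) := by
  classical
  rw [F.as_sum, map_sum]
  refine IsWeightedHomogeneous.sum _ _ _ fun d hd => ?_
  rw [aeval_monomial, ← hF (mem_support_iff.1 hd), Finsupp.weight_apply, Finsupp.sum, map_sum,
    algebraMap_eq]
  refine IsWeightedHomogeneous.C_mul ?_ _
  refine IsWeightedHomogeneous.prod _ _ _ fun s _ => ?_
  rw [map_nsmul]
  exact (hx s).pow _

theorem MH.mul {δ δ' : κ → ℕ} {F G : MvPolynomial (κ × σ) L} (h : MH δ F) (h' : MH δ' G) :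
    MH (δ + δ') (F * G) := mh_iff.2 ((mh_iff.1 h).mul (mh_iff.1 h'))

theorem mh_prod {ι : Type} (s : Finset ι) {δ : ι → κ → ℕ} {F : ι → MvPolynomial (κ × σ) L}
    (h : ∀ j ∈ s, MH (δ j) (F j)) : MH (∑ j ∈ s, δ j) (∏ j ∈ s, F j) :=
  mh_iff.2 (IsWeightedHomogeneous.prod _ _ _ fun j hj => mh_iff.1 (h j hj))

theorem mh_sum {ι : Type} (s : Finset ι) {δ : κ → ℕ} {F : ι → MvPolynomial (κ × σ) L}
    (h : ∀ j ∈ s, MH δ (F j)) : MH δ (∑ j ∈ s, F j) :=
  mh_iff.2 (IsWeightedHomogeneous.sum _ _ _ fun j hj => mh_iff.1 (h j hj))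

theorem MH.smul {δ : κ → ℕ} {F : MvPolynomial (κ × σ) L} (h : MH δ F) (c : L) : MH δ (c • F) := by
  rw [smul_eq_C_mul]; exact mh_iff.2 ((mh_iff.1 h).C_mul c)

theorem mh_X (i : κ) (s : σ) : MH (Pi.single i 1) (X (i, s) : MvPolynomial (κ × σ) L) :=
  mh_iff.2 (isWeightedHomogeneous_X L (bwt κ σ) (i, s))

theorem mh_aeval {τ : Type} {F : MvPolynomial τ L} {n : ℕ} (hF : F.IsHomogeneous n) {δ : κ → ℕ}
    {x : τ → MvPolynomial (κ × σ) L} (hx : ∀ s, MH δ (x s)) : MH (n • δ) (aeval x F) := by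
  have := wh_aeval (w := bwt κ σ) (multiplesHom _ δ) hF (x := x) (fun s => by
    simpa using mh_iff.1 (hx s))
  exact mh_iff.2 (by simpa using this)

theorem mh_rename {F : MvPolynomial σ L} {n : ℕ} (hF : F.IsHomogeneous n) (i : κ) :
    MH (Pi.single i n) (rename (Prod.mk i) F) := by
  have := mh_aeval hF (mh_X (L := L) (σ := σ) i)
  rw [← Pi.single_smul', smul_eq_mul, mul_one] at this
  rw [rename_eq_aeval]
  exact this

theorem mh_prod_rename [Fintype κ] {F : κ → MvPolynomial σ L} {n : κ → ℕ}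
    (hF : ∀ i, (F i).IsHomogeneous (n i)) : MH n (∏ i, rename (Prod.mk i) (F i)) := by
  have := mh_prod Finset.univ (fun i _ => mh_rename (hF i) i)
  rwa [Finset.univ_sum_single] at this

theorem evB_rename {R : Type} [CommRing R] [Algebra L R] (x : κ → σ → R) (i : κ)
    (F : MvPolynomial σ L) : evB x (rename (Prod.mk i) F) = aeval (x i) F := by
  unfold evB; rw [aeval_rename]; rfl

theorem evB_map {R R' : Type} [CommRing R] [Algebra L R] [CommRing R'] [Algebra L R']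
    (f : R →ₐ[L] R') (x : κ → σ → R) (F : MvPolynomial (κ × σ) L) :
    evB (fun i a => f (x i a)) F = f (evB x F) := aeval_map_alg f _ F

theorem evB_monomial [Fintype κ] [Fintype σ] {R : Type} [CommRing R] [Algebra L R]
    (x : κ → σ → R) (d : κ × σ →₀ ℕ) (c : L) :
    evB x (monomial d c) = algebraMap L R c * ∏ i, ∏ a, x i a ^ d (i, a) := by
  unfold evB
  rw [aeval_monomial, Finsupp.prod_fintype _ _ (by simp), Fintype.prod_prod_type]

theorem evB_smul [Fintype κ] [Fintype σ] {R : Type} [CommRing R] [Algebra L R] {δ : κ → ℕ}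
    {F : MvPolynomial (κ × σ) L} (h : MH δ F) (c : κ → R) (x : κ → σ → R) :
    evB (fun i => c i • x i) F = (∏ i, c i ^ δ i) * evB x F := by
  have e : ∀ y : κ → σ → R, evB y F = ∑ d ∈ F.support, evB y (monomial d (coeff d F)) := fun y => by
    unfold evB; rw [← map_sum, ← F.as_sum]
  rw [e, e, Finset.mul_sum]
  refine Finset.sum_congr rfl fun d hd => ?_
  rw [evB_monomial, evB_monomial, mul_left_comm, ← Finset.prod_mul_distrib]
  congr 1
  refine Finset.prod_congr rfl fun i _ => ?_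
  simp only [Pi.smul_apply, smul_eq_mul, mul_pow, Finset.prod_mul_distrib]
  rw [Finset.prod_pow_eq_pow_sum, ← h d hd i, Finsupp.degree_eq_sum]
  rfl

theorem Dop_monomial [Fintype κ] (Dm : κ → (σ →₀ ℕ) → MvPolynomial σ L) (μ : κ × σ →₀ ℕ) (c : L) :
    Dop Dm (monomial μ c) = c • ∏ i, rename (Prod.mk i) (Dm i (μ.curry i)) := by
  have : (monomial μ c : MvPolynomial (κ × σ) L) = c • basisMonomials (κ × σ) L μ := by
    simp [smul_monomial]
  rw [this, map_smul, Dop, Module.Basis.constr_basis]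

theorem Dop_eq [Fintype κ] (Dm : κ → (σ →₀ ℕ) → MvPolynomial σ L) (F : MvPolynomial (κ × σ) L) :
    Dop Dm F = ∑ μ ∈ F.support, coeff μ F • ∏ i, rename (Prod.mk i) (Dm i (μ.curry i)) := by
  conv_lhs => rw [F.as_sum, map_sum]
  exact Finset.sum_congr rfl fun μ _ => Dop_monomial Dm μ _

theorem mh_Dop [Fintype κ] {Dm : κ → (σ →₀ ℕ) → MvPolynomial σ L} {n : κ → ℕ}
    (h : ∀ i γ, (Dm i γ).IsHomogeneous (n i)) (F : MvPolynomial (κ × σ) L) : MH n (Dop Dm F) := by
  rw [Dop_eq]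
  exact mh_sum _ fun μ _ => MH.smul (mh_prod_rename fun i => h i _) _

theorem evB_Dop [Fintype κ] [Fintype σ] {R : Type} [CommRing R] [Algebra L R]
    {Dm : κ → (σ →₀ ℕ) → MvPolynomial σ L} {n : κ → ℕ} {x u : κ → σ → R} {E : κ → R}
    (h : ∀ i γ, γ.degree = n i → aeval (x i) (Dm i γ) = E i * ∏ a, u i a ^ γ a)
    {F : MvPolynomial (κ × σ) L} (hF : MH n F) : evB x (Dop Dm F) = (∏ i, E i) * evB u F := by
  have e : evB u F = ∑ d ∈ F.support, evB u (monomial d (coeff d F)) := by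
    unfold evB; rw [← map_sum, ← F.as_sum]
  rw [Dop_eq, e, Finset.mul_sum]
  unfold evB
  rw [map_sum]
  refine Finset.sum_congr rfl fun d hd => ?_
  have := evB_monomial u d (coeff d F)
  unfold evB at this
  rw [this, map_smul, map_prod, Algebra.smul_def, mul_left_comm, ← Finset.prod_mul_distrib]
  congr 1
  refine Finset.prod_congr rfl fun i _ => ?_
  exact (evB_rename x i _).trans (h i _ (hF d hd i))

variable [Fintype σ] [DecidableEq σ] {B : Pkg L σ} {g : ℕ}

theorem om_hom (C : Chart B g) (n : ℕ) (α : Fin g → Fin (n + 1)) :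
    (om C n α).IsHomogeneous (C.dg * (g * n)) := by
  have h1 : ∑ a, (α a).val ≤ g * n := by
    calc ∑ a, (α a).val ≤ ∑ _a : Fin g, n := Finset.sum_le_sum fun a _ => Nat.lt_succ_iff.1 (α a).2
      _ = g * n := by simp
  have h2 := (C.den_hom.pow (g * n - ∑ a, (α a).val)).mul
    (IsHomogeneous.prod Finset.univ (fun a => C.num a ^ (α a).val) (fun a => C.dg * (α a).val)
      fun a _ => (C.num_hom a).pow _)
  rw [← Finset.mul_sum, ← mul_add, Nat.sub_add_cancel h1] at h2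
  exact h2

/-- degrees of `Wv` -/
def wd (B : Pkg L σ) {k : ℕ} (i : Fin (k + 1)) : Fin (k + 1) → ℕ :=
  if i = 0 then Pi.single 0 1 else Pi.single i B.β + Pi.single 0 B.β

theorem mh_Wv {k : ℕ} (Λ : Fin (k + 1) → Fin B.nl) (i : Fin (k + 1)) (s : σ) :
    MH (wd B i) (Wv B Λ i s) := by
  unfold wd Wv
  split_ifs with h
  · exact mh_X 0 s
  · let φ : ℕ × ℕ →+ (Fin (k + 1) → ℕ) :=
      (AddMonoidHom.single (fun _ => ℕ) i).coprod (AddMonoidHom.single (fun _ => ℕ) 0)
    have := wh_aeval (w := bwt (Fin (k + 1)) σ) φ (B.A_hom (Λ i) s)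
      (x := Sum.elim (fun s => X (i, s)) fun s => X (0, B.π s)) (fun t => by
        cases t with
        | inl t => simpa [φ, bw] using mh_iff.1 (mh_X (L := L) i t)
        | inr t => simpa [φ, bw] using mh_iff.1 (mh_X (L := L) (0 : Fin (k + 1)) (B.π t)))
    exact mh_iff.2 this

theorem mh_GU (C : Chart B g) {k : ℕ} (T d : ℕ) (Λ : Fin (k + 1) → Fin B.nl)
    (α : ∀ i : Fin (k + 1), Fin g → Fin (dd T d i + 1)) : MH (nn C k T d) (GU C T d Λ α) := by
  have := mh_prod Finset.univ (fun i _ => mh_aeval (om_hom C (dd T d i) (α i)) (mh_Wv Λ i))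
  unfold GU
  convert this using 1
  funext j
  rw [Finset.sum_apply, Fin.sum_univ_succ]
  refine Fin.cases ?_ (fun j => ?_) j
  · simp [nn, wd, dd, mul_comm]
  · simp [nn, wd, dd, mul_comm, Pi.single_apply]

theorem evB_Wv {R : Type} [CommRing R] [Algebra L R] {k : ℕ} (Λ : Fin (k + 1) → Fin B.nl)
    (u : Fin (k + 1) → σ → R) (i : Fin (k + 1)) : (fun s => evB u (Wv B Λ i s)) =
      if i = 0 then u 0 else ev2 (B.A (Λ i)) (u i) (u 0 ∘ B.π) := by
  unfold Wv evB
  split_ifs with h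
  · funext s; simp
  · rw [← ev2_map]; simp [Function.comp_def]

theorem evB_GU {R : Type} [CommRing R] [Algebra L R] (C : Chart B g) {k : ℕ} (T d : ℕ)
    (Λ : Fin (k + 1) → Fin B.nl) (α : ∀ i : Fin (k + 1), Fin g → Fin (dd T d i + 1))
    {u w : Fin (k + 1) → σ → R} (h0 : w 0 = u 0) {lam : Fin (k + 1) → R}
    (h : ∀ i, i ≠ 0 → ev2 (B.A (Λ i)) (u i) (u 0 ∘ B.π) = lam i • w i) :
    evB u (GU C T d Λ α) = (∏ i ∈ Finset.univ.erase 0, lam i ^ (C.dg * (g * (T * d)))) *
      ∏ i, aeval (w i) (om C (dd T d i) (α i)) := by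
  have e : ∀ i, evB u (aeval (Wv B Λ i) (om C (dd T d i) (α i))) =
      (if i = 0 then 1 else lam i ^ (C.dg * (g * (T * d)))) *
        aeval (w i) (om C (dd T d i) (α i)) := fun i => by
    have := evB_Wv Λ u i
    unfold evB at this ⊢
    rw [← aeval_map_alg, this]
    split_ifs with hi
    · subst hi; rw [h0, one_mul]
    · rw [h i hi, aeval_smul_hom (om_hom C _ _)]; simp [dd, hi]
  unfold GU
  unfold evB at e ⊢
  rw [map_prod, Finset.prod_congr rfl fun i _ => e i, Finset.prod_mul_distrib]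
  congr 1
  rw [← Finset.mul_prod_erase _ _ (Finset.mem_univ (0 : Fin (k + 1))), if_pos rfl, one_mul]
  exact Finset.prod_congr rfl fun i hi => if_neg (Finset.ne_of_mem_erase hi)

theorem evB_eL {R : Type} [CommRing R] [Algebra L R] (C : Chart B g) {k : ℕ} (T d : ℕ)
    (κ : Fin (k + 1) → ℕ) (s : ∀ i : Fin (k + 1), Fin (4 ^ (g * κ i)) → σ →₀ ℕ)
    (Dm : Fin (k + 1) → (σ →₀ ℕ) → MvPolynomial σ L) {x u w : Fin (k + 1) → σ → R}
    {E : Fin (k + 1) → R}
    (hE : ∀ i γ, γ.degree = nn C k T d i → aeval (x i) (Dm i γ) = E i * ∏ a, u i a ^ γ a)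
    (h0 : w 0 = u 0) (Λ : Fin (k + 1) → Fin B.nl) {lam : Fin (k + 1) → R}
    (h : ∀ i, i ≠ 0 → ev2 (B.A (Λ i)) (u i) (u 0 ∘ B.π) = lam i • w i) (ω : Idx g k T d κ) :
    evB x (eL C T d κ s Dm Λ ω) = (∏ i, ∏ a, x i a ^ s i (ω.1 i) a) * (∏ i, E i) *
      (∏ i ∈ Finset.univ.erase 0, lam i ^ (C.dg * (g * (T * d)))) *
      ∏ i, aeval (w i) (om C (dd T d i) (ω.2 i)) := by
  have e1 := evB_Dop hE (mh_GU C T d Λ ω.2)
  rw [evB_GU C T d Λ ω.2 h0 h] at e1
  have e2 : ∀ i, evB x (rename (Prod.mk i) (monomial (s i (ω.1 i)) (1 : L))) =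
      ∏ a, x i a ^ s i (ω.1 i) a := fun i => by
    rw [evB_rename, aeval_monomial, map_one, one_mul, Finsupp.prod_fintype _ _ (by simp)]
  unfold eL
  unfold evB at e1 e2 ⊢
  rw [map_mul, map_prod, e1, Finset.prod_congr rfl fun i _ => e2 i]
  ring

end D4C.T1
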