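import Pool.Agent.Lib.D4C.B_TN
import Pool.Agent.Lib.D4C.B_LAW
import Pool.Agent.Lib.D4C.T1a

/-! Degrees and norms of the reduced forms of step B. -/

namespace D4C

open MvPolynomial

namespace T27

section bd
variable {κ σ L : Type} [Field L] {a b : κ → ℕ} {F G : MvPolynomial (κ × σ) L}

theorem bd_mono (h : BD a F) (hab : a ≤ b) : BD b F := fun d hd i => (h d hd i).trans (hab i)

theorem bd_sum {ι : Type} (s : Finset ι) {F : ι → MvPolynomial (κ × σ) L}
    (h : ∀ j ∈ s, BD b (F j)) : BD b (∑ j ∈ s, F j) := by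
  classical
  intro d hd i
  obtain ⟨j, hj, hd⟩ := Finset.mem_biUnion.1 (support_sum hd)
  exact h j hj d hd i

theorem bd_mul (h : BD a F) (k : BD b G) : BD (a + b) (F * G) := by
  classical
  intro d hd i
  obtain ⟨x, hx, y, hy, rfl⟩ := Finset.mem_add.1 (support_mul F G hd)
  have : (x + y).curry i = x.curry i + y.curry i := Finsupp.ext fun _ => rfl
  rw [this, map_add]
  exact add_le_add (h x hx i) (k y hy i)

theorem bd_C (c : L) : BD 0 (C c : MvPolynomial (κ × σ) L) := by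
  classical
  intro d hd i
  have : d = 0 := by
    by_contra h
    exact mem_support_iff.1 hd (by rw [coeff_C, if_neg (Ne.symm h)])
  subst this
  have : (0 : κ × σ →₀ ℕ).curry i = 0 := Finsupp.ext fun _ => rfl
  simp [this]

theorem bd_prod {ι : Type} (s : Finset ι) {b : ι → κ → ℕ} {F : ι → MvPolynomial (κ × σ) L}
    (h : ∀ j ∈ s, BD (b j) (F j)) : BD (∑ j ∈ s, b j) (∏ j ∈ s, F j) := by
  classical
  induction s using Finset.induction_on with
  | empty => simpa using bd_C (κ := κ) (σ := σ) (1 : L)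
  | insert j s hj ih =>
    rw [Finset.sum_insert hj, Finset.prod_insert hj]
    exact bd_mul (h j (Finset.mem_insert_self _ _)) (ih fun i hi => h i (Finset.mem_insert_of_mem hi))

theorem bd_pow (h : BD a F) (n : ℕ) : BD (n • a) (F ^ n) := by
  simpa using bd_prod (Finset.range n) (b := fun _ => a) (F := fun _ => F) fun _ _ => h

theorem bd_aeval {τ : Type} [Fintype τ] {x : τ → MvPolynomial (κ × σ) L} {r : τ → κ → ℕ}
    (hx : ∀ s, BD (r s) (x s)) {P : MvPolynomial τ L}
    (hP : ∀ d ∈ P.support, ∑ s, d s • r s ≤ b) : BD b (aeval x P) := by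
  rw [aeval_def, eval₂_eq']
  refine bd_sum _ fun d hd => bd_mono (bd_mul (bd_C _)
    (bd_prod _ fun s _ => bd_pow (hx s) (d s))) ?_
  rw [zero_add]
  exact hP d hd

theorem bd_X [DecidableEq κ] (i : κ) (s : σ) :
    BD (Pi.single i 1) (X (i, s) : MvPolynomial (κ × σ) L) := fun d hd j => (T1.mh_X i s d hd j).le

end bd

section toA
variable {L : Type} [Field L] {K m D1 : ℕ} {A : Finset L} (i : Fin K)

theorem toA_eq {q : ZT L m} (h : q.natDegree ≤ D1) : toA i q = ∑ l ∈ Finset.range (D1 + 1),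
    aeval (fun j => (X (i, some j) : AA L K m)) (q.coeff l) * X (i, none) ^ l :=
  Polynomial.eval₂_eq_sum_range' _ (Nat.lt_succ_of_le h) _

theorem bd_toA {q : ZT L m} (h : SmQ D1 A q) : BD (Pi.single i (2 * D1)) (toA i q) := by
  rw [toA_eq i h.1]
  refine bd_sum _ fun l hl => bd_mono (bd_mul (bd_aeval (b := Pi.single i D1)
    (fun j => bd_X i (some j)) fun d hd => ?_) (bd_pow (bd_X i none) l)) ?_
  · rw [← Finset.sum_smul, ← Pi.single_smul', smul_eq_mul, mul_one, ← Finsupp.degree_eq_sum]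
    exact Pi.single_le_single.2 ((le_totalDegree hd).trans (h.2 l).1)
  · rw [← Pi.single_smul', smul_eq_mul, mul_one, ← Pi.single_add]
    have := Finset.mem_range.1 hl
    exact Pi.single_le_single.2 (by omega)

theorem l1_toA (hL1 : St_L1) (v : AbsoluteValue L ℝ) {q : ZT L m} (h : SmQ D1 A q) :
    l1 v (toA i q) ≤ (D1 + 1) ^ (m + 1) * hv v A := by
  obtain ⟨h1, h2, -, -, -⟩ := hL1 L v (Fin K × Option (Fin m))
  obtain ⟨-, -, -, -, h5, h6⟩ := hL1 L v (Fin m)
  rw [toA_eq i h.1]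
  refine (Finset.le_sum_of_subadditive (l1 v) (by simp [l1]) (fun F G => (h1 F G).1) _ _).trans ?_
  refine (Finset.sum_le_card_nsmul _ _ ((D1 + 1) ^ m * hv v A) fun l _ => ?_).trans_eq ?_
  · refine (h1 _ _).2.trans ?_
    rw [X_pow_eq_monomial, h2, map_one, mul_one]
    have := h5 _ (fun j => (i, some j)) (q.coeff l)
    rw [rename_eq_aeval] at this
    exact this.trans (by simpa using h6 D1 A _ (h.2 l))
  · rw [Finset.card_range, nsmul_eq_mul]; push_cast; ring

theorem toA_zv (j : Fin (m + 1)) : toA i (zv L m j) = 1 ∨ ∃ s, toA i (zv L m j) = X (i, s) := by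
  induction j using Fin.lastCases with
  | last => left; simp [zv]
  | cast j =>
    refine Or.inr ⟨some j, ?_⟩
    simp only [zv, Fin.snoc_castSucc]
    exact (Polynomial.aevalTower_C _ _ _).trans (aeval_X _ _)

variable {σ : Type} [Fintype σ] {W : Raw L σ m} {k : MvPolynomial (Fin (m + 1) ⊕ σ) L} {n r0 : ℕ}

omit [Fintype σ] in
theorem toA_phiOf : toA i (phiOf W k) = aeval (fun s => toA i (Sum.elim (zv L m) W.φ s)) k :=
  comp_aeval_apply _ _ _

theorem bd_phiOf (hW : ∀ a, SmQ D1 A (W.φ a))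
    (hk : ∀ ε ∈ k.support, (fl ε).degree = n ∧ (fr ε).degree = r0) :
    BD (Pi.single i (n + 2 * D1 * r0)) (toA i (phiOf W k)) := by
  rw [toA_phiOf]
  refine bd_aeval (r := Sum.elim (fun _ => Pi.single i 1) fun _ => Pi.single i (2 * D1))
    (fun s => ?_) fun d hd => ?_
  · rcases s with j | a
    · rcases toA_zv (L := L) i j with h | ⟨s, h⟩
      · simpa [h] using bd_mono (b := Pi.single i 1) (bd_C (σ := Option (Fin m)) (1 : L)) zero_le
      · simpa [h] using bd_X i s
    · exact bd_toA i (hW a)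
  · obtain ⟨h1, h2⟩ := hk d hd
    rw [Finsupp.degree_eq_sum] at h1 h2
    rw [Fintype.sum_sum_type]
    simp only [Sum.elim_inl, Sum.elim_inr, ← Finset.sum_smul]
    rw [show ∑ j, d (Sum.inl j) = n from h1, show ∑ a, d (Sum.inr a) = r0 from h2,
      ← Pi.single_smul', ← Pi.single_smul', ← Pi.single_add, smul_eq_mul, smul_eq_mul, mul_one,
      mul_comm r0]

theorem l1_phiOf (hL1 : St_L1) (hGAU : St_GAU) (v : AbsoluteValue L ℝ) {M : ℝ} (hM : 0 ≤ M)
    (hW : ∀ a, l1 v (toA i (W.φ a)) ≤ M)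
    (hk : ∀ ε ∈ k.support, (fl ε).degree = n ∧ (fr ε).degree = r0) :
    l1 v (toA i (phiOf W k)) ≤ l1 v k * M ^ r0 := by
  obtain ⟨h1, h2, -, -, -⟩ := hL1 L v (Fin K × Option (Fin m))
  rw [toA_phiOf]
  refine hGAU L _ v (fun f a => l1 v f ≤ a) (fun _ _ _ h k => h.trans k)
    (fun f f' _ _ h k => (h1 f f').1.trans (add_le_add h k))
    (fun f f' _ _ h k ha _ => (h1 f f').2.trans
      (mul_le_mul h k (Finset.sum_nonneg fun _ _ => v.nonneg _) ha))
    (fun c => (h2 0 c).le) _ _ (Sum.elim (fun _ => 1) fun _ => M) k _ (fun s => ?_) (fun s => ?_)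
    fun d hd => ?_
  · rcases s with j | a
    · exact zero_le_one
    · exact hM
  · rcases s with j | a
    · rcases toA_zv (L := L) i j with h | ⟨s, h⟩
      · simpa [h] using (h2 0 1).le
      · simpa [h, X] using (h2 (Finsupp.single (i, s) 1) 1).le
    · exact hW a
  · have h2 := (hk d hd).2
    rw [Finsupp.degree_eq_sum] at h2
    rw [Finsupp.prod_fintype _ _ (by simp), Fintype.prod_sum_type]
    simp only [Sum.elim_inl, Sum.elim_inr, one_pow, Finset.prod_const_one, one_mul,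
      Finset.prod_pow_eq_pow_sum]
    rw [show ∑ a, d (Sum.inr a) = r0 from h2]

end toA

end T27

open T27 in
theorem st_APB (hTN : St_TN) (hL1 : St_L1) (hGAU : St_GAU) : St_APB := by
  intro σ _ _ m D1
  refine ⟨(m + 1) * (D1 + 1) ^ Fintype.card σ + (D1 + 1) ^ (m + 1),
    Nat.succ_le_of_lt (by positivity), fun L _ B e D => ?_⟩
  set c : ℕ := (m + 1) * (D1 + 1) ^ Fintype.card σ + (D1 + 1) ^ (m + 1) with hc
  have hc1 : (1 : ℝ) ≤ c := by exact_mod_cast Nat.succ_le_of_lt (by positivity : 0 < c)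
  have hh : ∀ (v : AbsoluteValue L ℝ) (A : Finset L), 0 ≤ hv v A := fun v A =>
    zero_le_one.trans (T83.one_le_hv v A)
  have h0 : ∀ (v : AbsoluteValue L ℝ) (A : Finset L), 0 ≤ c * hv v A := fun v A =>
    mul_nonneg c.cast_nonneg (hh v A)
  have p1 : ∀ (V : Lv B m e D D1) (r0 n : ℕ) (K : (σ →₀ ℕ) → MvPolynomial (Fin (m + 1) ⊕ σ) L),
      IsRed V.W.ξ V.W.H e D r0 n K → ∀ (v : AbsoluteValue L ℝ) ν, ν.degree = r0 + e * n →
        l1 v (K ν) ≤ (c * hv v V.A) ^ n := fun V r0 n K hK v => by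
    refine hK.norm v _ (one_le_mul_of_one_le_of_one_le hc1 (T83.one_le_hv v _)) fun ν hν => ?_
    refine (Finset.sum_le_card_nsmul _ _ _ fun j _ =>
      (hL1 L v σ).2.2.2.2.2 D1 V.A _ (V.small.H ν j hν)).trans ?_
    rw [Finset.card_univ, Fintype.card_fin, nsmul_eq_mul, ← mul_assoc]
    refine mul_le_mul_of_nonneg_right ?_ (hh v _)
    exact_mod_cast Nat.le_add_right _ _
  refine ⟨p1, fun K V r0 n Kb F hK hF => ⟨?_, fun v => ?_⟩⟩
  · rw [GB, T51.Tn_eq]
    refine bd_sum _ fun μ hμ => ?_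
    rw [smul_eq_C_mul]
    refine bd_mono (bd_mul (bd_C _) (bd_prod _ fun i _ =>
      bd_phiOf i (V i).small.φ ((hK i).deg _ (hF μ hμ i)))) ?_
    rw [zero_add, Finset.univ_sum_single]
  · obtain ⟨h1, h2, -, -, -⟩ := hL1 L v (Fin K × Option (Fin m))
    refine (hTN L (Fin K) σ (AA L K m)).2.2.2.2.2.2.2 v (fun f a => l1 v f ≤ a)
      (fun _ _ _ h k => h.trans k) (fun f f' _ _ h k => (h1 f f').1.trans (add_le_add h k))
      (fun f f' _ _ h k ha _ => (h1 f f').2.trans
        (mul_le_mul h k (Finset.sum_nonneg fun _ _ => v.nonneg _) ha))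
      (fun c => (h2 0 c).le) _ _ _ F hF (fun i => pow_nonneg (h0 v _) _) fun i γ hγ => ?_
    refine (l1_phiOf i hL1 hGAU v (h0 v (V i).A) (fun a => (l1_toA i hL1 v ((V i).small.φ a)).trans
      (mul_le_mul_of_nonneg_right ?_ (hh v _))) ((hK i).deg γ hγ)).trans ?_
    · exact_mod_cast Nat.le_add_left _ _
    · rw [pow_add]
      exact mul_le_mul_of_nonneg_right (p1 _ _ _ _ (hK i) v γ hγ) (pow_nonneg (h0 v _) _)

end D4C
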