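import Pool.Agent.Lib.D4C.BlueE

/-! Series in separate blocks of variables. -/

namespace D4C

namespace T80

variable {κ ρ L : Type}

/-- the inclusion of the block `i` -/
def eb (ρ : Type) (i : κ) : ρ ↪ κ × ρ := ⟨Prod.mk i, Prod.mk_right_injective i⟩

theorem blk_eq [Finite ρ] [Field L] (i : κ) (p : PS ρ L) :
    blk i p = MvPowerSeries.rename (eb ρ i) p :=
  (MvPowerSeries.rename_eq_subst (eb ρ i) p).symm

theorem sum_emb [Fintype κ] (x : κ → ρ →₀ ℕ) (i : κ) (a : ρ) :
    ∑ j, (x j).embDomain (eb ρ j) (i, a) = x i a := by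
  rw [Finset.sum_eq_single i (fun j _ hj => Finsupp.embDomain_of_notMem_range _ _ _ ?_) (by simp)]
  · exact Finsupp.embDomain_apply_self (eb ρ i) (x i) a
  · rintro ⟨b, hb⟩
    exact hj (congrArg Prod.fst hb)

end T80

theorem st_BLK : St_BLK := by
  classical
  intro κ ρ L _ _ _ _
  refine ⟨fun i => ⟨MvPowerSeries.rename (T80.eb ρ i), MvPowerSeries.rename_injective _,
    fun p => (T80.blk_eq i p).symm, fun a => MvPowerSeries.rename_X _ a,
    fun p => MvPowerSeries.constantCoeff_rename _ p⟩, fun p J => ?_⟩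
  rw [MvPowerSeries.coeff_prod, Finset.sum_eq_single (Finsupp.equivFunOnFinite.symm
    fun i => (J.curry i).embDomain (T80.eb ρ i))]
  · refine Finset.prod_congr rfl fun i _ => ?_
    rw [T80.blk_eq]
    exact MvPowerSeries.coeff_embDomain_rename _ _ _
  · intro l hl hne
    by_contra h0
    have h1 : ∀ i, ∃ x : ρ →₀ ℕ, x.embDomain (T80.eb ρ i) = l i := by
      intro i
      by_contra h
      refine h0 (Finset.prod_eq_zero (Finset.mem_univ i) ?_)
      rw [T80.blk_eq]
      refine MvPowerSeries.coeff_rename_eq_zero _ _ ?_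
      rintro ⟨x, hx⟩
      exact h ⟨x, by rw [Finsupp.embDomain_eq_mapDomain, hx]⟩
    choose x hx using h1
    refine hne (Finsupp.ext fun i => ?_)
    rw [← hx i, Finsupp.equivFunOnFinite_symm_apply_apply]
    congr 1
    ext a
    rw [Finsupp.curry_apply, ← (Finset.mem_finsuppAntidiag.1 hl).1, Finsupp.finsetSum_apply,
      ← T80.sum_emb x i a]
    exact Finset.sum_congr rfl fun j _ => by rw [hx j]
  · intro h
    refine absurd (Finset.mem_finsuppAntidiag.2 ⟨?_, Finset.subset_univ _⟩) h
    ext ⟨i, a⟩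
    rw [Finsupp.finsetSum_apply]
    exact (T80.sum_emb (fun j => J.curry j) i a).trans (Finsupp.curry_apply J i a)

end D4C
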