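import Pool.Agent.Lib.D4C.Iface

namespace D4C

open MvPolynomial

namespace T51

/-- a nonzero vector over the fraction field of a valuation ring is a multiple of a unimodular
vector -/
theorem exists_uni {σ O K : Type} [Fintype σ] [CommRing O] [IsDomain O] [ValuationRing O]
    [Field K] [Algebra O K] [IsFractionRing O K] (x : σ → K) (hx : x ≠ 0) :
    ∃ (y : σ → O) (c : K), c ≠ 0 ∧ Uni y ∧ (fun i => algebraMap O K (y i)) = c • x := by
  obtain ⟨k0, hk0⟩ := Function.ne_iff.mp hx
  have : Nonempty σ := ⟨k0⟩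
  obtain ⟨k, hk⟩ := Finite.exists_max fun i => ValuationRing.valuation O K (x i)
  have hxk : x k ≠ 0 := by
    intro h
    have h1 := hk k0
    rw [h, map_zero, le_zero_iff, map_eq_zero] at h1
    exact hk0 h1
  have hy : ∀ i, ∃ y : O, algebraMap O K y = (x k)⁻¹ * x i := fun i => by
    rw [← ValuationRing.mem_integer_iff, Valuation.mem_integer_iff, map_mul, map_inv₀]
    have h0 : ValuationRing.valuation O K (x k) ≠ 0 := by rwa [Ne, map_eq_zero]
    rw [inv_mul_le_iff₀ (zero_lt_iff.mpr h0), mul_one]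
    exact hk i
  choose y hy using hy
  refine ⟨y, (x k)⁻¹, inv_ne_zero hxk, ⟨k, ?_⟩, funext hy⟩
  have h1 : y k = 1 := IsFractionRing.injective O K (by rw [hy, inv_mul_cancel₀ hxk, map_one])
  rw [h1]
  exact isUnit_one

end T51

theorem st_RED : St_RED := by
  intro L σ _ _ _ B O K _ _ _ _ _ _ _ _ _
  have hinj : Function.Injective (IsScalarTower.toAlgHom L O K) := IsFractionRing.injective O K
  refine ⟨B.map_injective _ hinj, fun p => ?_⟩
  obtain ⟨x, hx⟩ := Pkg.exists_rep p
  obtain ⟨y, c, hc, hy, hyx⟩ := T51.exists_uni (O := O) x (uni_iff_ne_zero.mp hx.uni)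
  have h1 : B.Rep p fun i => IsScalarTower.toAlgHom L O K (y i) := by
    have := hx.smul (isUnit_iff_ne_zero.mpr hc)
    rw [← hyx] at this
    exact this
  have hz : Zr B.I y := fun F hF => hinj (by
    rw [← aeval_map_alg, map_zero]
    exact h1.zr F hF)
  exact ⟨B.pt y hy hz, ((Pkg.rep_pt y hy hz).map _).eq h1 (Par.refl _)⟩

end D4C
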