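import Pool.Agent.Lib.D4C.BlueF
import Pool.Agent.Lib.D4C.B_RED

namespace D4C

open MvPolynomial

namespace T51

section val

variable {K σ : Type} [Field K] [Fintype σ]

theorem eqF_iff {r s : ℕ} {O : ValuationSubring K} {φ : K} (h : φ ≠ 0) {a : Fin r → σ → K}
    {b : Fin s → σ → K} : EqF O φ a b ↔ LeF O φ a b ∧ LeF O φ⁻¹ b a := by
  have h0 : 0 < O.valuation φ := zero_lt_iff.mpr ((map_ne_zero _).mpr h)
  unfold EqF LeF
  rw [map_inv₀, inv_mul_le_iff₀ h0, le_antisymm_iff]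

theorem val_const {k : Type} [Field k] [Algebra k K] {O : ValuationSubring K} (h : Ov k O) {c : k}
    (hc : c ≠ 0) : O.valuation (algebraMap k K c) = 1 := by
  refine le_antisymm ((O.valuation_le_one_iff _).mpr (h c)) ?_
  have h1 := (O.valuation_le_one_iff _).mpr (h c⁻¹)
  rwa [map_inv₀, map_inv₀, inv_le_one₀ (zero_lt_iff.mpr
    ((map_ne_zero _).mpr ((map_ne_zero _).mpr hc)))] at h1

theorem gv_eq_one {O : ValuationSubring K} {x : σ → K} (h : ∀ i, x i ∈ O)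
    (h1 : ∃ i, O.valuation (x i) = 1) : gv O x = 1 := by
  obtain ⟨i, hi⟩ := h1
  exact le_antisymm (Finset.sup_le fun j _ => (O.valuation_le_one_iff _).mpr (h j))
    (hi.ge.trans (Finset.le_sup (f := fun i => O.valuation (x i)) (Finset.mem_univ i)))

theorem gv_ne_zero {O : ValuationSubring K} {x : σ → K} (h : x ≠ 0) : gv O x ≠ 0 := by
  obtain ⟨i, hi⟩ := Function.ne_iff.mp h
  exact ((zero_lt_iff.mpr ((map_ne_zero O.valuation).mpr hi)).trans_le
    (Finset.le_sup (f := fun i => O.valuation (x i)) (Finset.mem_univ i))).ne'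

theorem exists_eqF (hG : St_GV) {r s : ℕ} (O : ValuationSubring K) {φ : K} (h : φ ≠ 0)
    {a : Fin r → σ → K} {b : Fin s → σ → K} (ha : ∀ i, a i ≠ 0) (hb : ∀ j, b j ≠ 0) :
    ∃ t : K, t ≠ 0 ∧ EqF O (φ * t) a b := by
  choose l hl hl' _ using fun i => hG.att K σ O (a i) (ha i)
  choose m hm hm' _ using fun j => hG.att K σ O (b j) (hb j)
  have h1 : ∏ i, a i (l i) ≠ 0 := Finset.prod_ne_zero_iff.mpr fun i _ => hl i
  refine ⟨φ⁻¹ * ((∏ j, b j (m j)) / ∏ i, a i (l i)), mul_ne_zero (inv_ne_zero h)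
    (div_ne_zero (Finset.prod_ne_zero_iff.mpr fun j _ => hm j) h1), ?_⟩
  unfold EqF
  simp only [hl', hm']
  rw [mul_inv_cancel_left₀ h, ← map_prod, ← map_prod, ← map_mul, div_mul_cancel₀ _ h1]

end val

section plc

variable {k k' K Ω : Type} [Field k] [Field k'] [Field K] [Field Ω] [Algebra k K] [Algebra k Ω]

/-- restriction of a place to a subfield -/
def Plc.res (P : Plc k K Ω) (k' : Type) [Field k'] [Algebra k k'] [Algebra k' K]
    [IsScalarTower k k' K] : Plc k k' Ω where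
  O := P.O.comap (algebraMap k' K)
  mem := fun a => by
    rw [ValuationSubring.mem_comap, ← IsScalarTower.algebraMap_apply]
    exact P.mem a
  ψ := P.ψ.comp (((algebraMap k' K).comp (P.O.comap (algebraMap k' K)).subtype).codRestrict P.O
    fun b => b.2)
  alg := fun a => by
    rw [← P.alg a]
    exact congrArg P.ψ (Subtype.ext (IsScalarTower.algebraMap_apply k k' K a).symm)
  ker := fun b => by
    rw [RingHom.comp_apply, P.ker]
    refine not_congr ⟨fun h => ?_, fun h => h.map _⟩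
    obtain ⟨c, hc⟩ := h.exists_right_inv
    have h1 : algebraMap k' K b * c = 1 := congrArg Subtype.val hc
    have h0 : (b : k') ≠ 0 := fun h0 => by
      rw [h0, map_zero, zero_mul] at h1
      exact zero_ne_one h1
    have h2 : (b : k')⁻¹ ∈ P.O.comap (algebraMap k' K) := by
      rw [ValuationSubring.mem_comap, map_inv₀, ← eq_inv_of_mul_eq_one_right h1]
      exact c.2
    exact IsUnit.of_mul_eq_one (⟨_, h2⟩ : P.O.comap (algebraMap k' K))
      (Subtype.ext (mul_inv_cancel₀ h0))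

variable {L σ : Type} [Field L] [Fintype σ] [DecidableEq σ] {B : Pkg L σ} [Algebra L K]

theorem exists_rep_plc (P : Plc k K Ω) (p : B.Pt K) : ∃ x : σ → P.O,
    (B.Rep p fun i => (x i : K)) ∧ (fun i => P.ψ (x i)) ≠ 0 ∧ gv P.O (fun i => (x i : K)) = 1 := by
  obtain ⟨x, hx⟩ := Pkg.exists_rep p
  obtain ⟨y, c, hc, ⟨i, hi⟩, hyx⟩ := exists_uni (O := P.O) x (uni_iff_ne_zero.mp hx.uni)
  refine ⟨y, ?_, fun h => (P.ker _).mp (congrFun h i) hi,
    gv_eq_one (fun j => (y j).2) ⟨i, (P.O.valuation_eq_one_iff _).mp hi⟩⟩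
  have := hx.smul (isUnit_iff_ne_zero.mpr hc)
  rw [← hyx] at this
  exact this

theorem gv_rep (hG : St_GV) {p : B.Pt K} {x y : σ → K} (hx : B.Rep p x) (hy : B.Rep p y) :
    ∃ t : K, t ≠ 0 ∧ ∀ O : ValuationSubring K, gv O y = O.valuation t * gv O x := by
  obtain ⟨t, rfl⟩ := (hx.par hy).exists_smul hx.uni
  exact ⟨t, hy.uni.isUnit_of_smul.ne_zero, fun O => hG.smul K σ O t x⟩

theorem eqF_rep (hG : St_GV) {r s : ℕ} {p : Fin r → B.Pt K} {q : Fin s → B.Pt K}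
    {a a' : Fin r → σ → K} {b b' : Fin s → σ → K} (ha : ∀ i, B.Rep (p i) (a i))
    (ha' : ∀ i, B.Rep (p i) (a' i)) (hb : ∀ j, B.Rep (q j) (b j)) (hb' : ∀ j, B.Rep (q j) (b' j)) :
    ∃ t : K, t ≠ 0 ∧ ∀ (O : ValuationSubring K) (φ : K), EqF O φ a b → EqF O (φ * t) a' b' := by
  choose l hl hl' using fun i => gv_rep hG (ha' i) (ha i)
  choose m hm hm' using fun j => gv_rep hG (hb j) (hb' j)
  refine ⟨(∏ i, l i) * ∏ j, m j, mul_ne_zero (Finset.prod_ne_zero_iff.mpr fun i _ => hl i)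
    (Finset.prod_ne_zero_iff.mpr fun j _ => hm j), fun O φ h => ?_⟩
  unfold EqF at h ⊢
  simp only [hl', Finset.prod_mul_distrib] at h
  simp only [hm', Finset.prod_mul_distrib, map_mul, map_prod, ← h]
  ac_rfl

end plc

end T51

open T51 in
theorem st_CA (hGSP : St_GSP) (hRHO : St_RHO) (hPL : St_PL2) (hTVR : St_TVR) (hSS : St_SS1)
    (hG : St_GV) : St_CA := by
  intro κ σ _ _ _ _ _ B F Ω₀ K _ _ _ _ _ _ _ _ _ _ _ hC x y z φ hφ h1 h2
  have hxK : B.Rep (B.map (IsScalarTower.toAlgHom κ F K) x) fun i => algebraMap F K (B.rp x i) :=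
    (B.rep_rp x).map _
  obtain ⟨P0, x', hx1, hx2, hx3⟩ := hGSP Ω₀ K Ω₀ σ _ _ (uni_iff_ne_zero.mp hxK.uni)
    (uni_iff_ne_zero.mp B.o_uni) h1
  obtain ⟨ρ, -, hρ2, hρ3, -⟩ := hRHO κ σ B Ω₀ K Ω₀ P0
  have hρx : ρ (B.map (IsScalarTower.toAlgHom κ F K) x) = 0 := by
    have h3 : Uni fun i => (x' i : K) := uni_iff_ne_zero.mpr fun h => hx1 (funext fun i => by
      rw [show x' i = 0 from Subtype.ext (congrFun h i), map_zero]; rfl)
    exact (hρ3 _ x' (hxK.of_par h3 hx2.symm) hx1).eq Pkg.rep_zero hx3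
  have hρ : ∀ c, ρ (B.tr K x c) = c := fun c => by
    rw [Pkg.tr, map_add, hρx, zero_add, hρ2]
    exact Pkg.map_id' c
  choose a ha1 ha2 ha3 using fun i => exists_rep_plc P0 (B.tr K x (![y + z, 0] i))
  choose b hb1 hb2 hb3 using fun i => exists_rep_plc P0 (B.tr K x (![y, z] i))
  obtain ⟨t, ht, ht'⟩ := eqF_rep hG (fun i => B.rep_rp _) ha1 (fun i => B.rep_rp _) hb1
  have h3 : ∀ v : ValuationSubring K, Ov Ω₀ v →
      EqF v (φ * t) (fun i l => (a i l : K)) fun i l => (b i l : K) := fun v hv => ht' v φ (h2 v hv)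
  have hφ' : φ * t ≠ 0 := mul_ne_zero hφ ht
  generalize φ * t = φ' at h3 hφ'
  have h4 : P0.O.valuation φ' = 1 := by
    have := h3 P0.O P0.mem
    unfold EqF at this
    simpa only [ha3, hb3, Finset.prod_const_one, mul_one] using this
  have h5 : φ' ∈ P0.O := (P0.O.valuation_le_one_iff _).mp h4.le
  have h6 : P0.ψ ⟨φ', h5⟩ ≠ 0 := fun h =>
    (P0.ker _).mp h ((P0.O.valuation_eq_one_iff ⟨φ', h5⟩).mpr h4)
  have ha4 : ∀ i, B.Rep (B.map (IsScalarTower.toAlgHom κ Ω₀ K) (![y + z, 0] i))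
      fun l => algebraMap Ω₀ K (P0.ψ (a i l)) := fun i => by
    have := hρ3 _ _ (ha1 i) (ha2 i)
    rw [hρ] at this
    exact this.map _
  have hb4 : ∀ i, B.Rep (B.map (IsScalarTower.toAlgHom κ Ω₀ K) (![y, z] i))
      fun l => algebraMap Ω₀ K (P0.ψ (b i l)) := fun i => by
    have := hρ3 _ _ (hb1 i) (hb2 i)
    rw [hρ] at this
    exact this.map _
  obtain ⟨u, hu, hu'⟩ := gv_rep hG (x := fun i => algebraMap κ K (B.o i))
    (by rw [Matrix.cons_val_one, Matrix.cons_val_zero, map_zero]; exact Pkg.rep_zero) (ha4 1)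
  -- the relation for normalised coordinates
  have key : ∀ V : ValuationSubring K, Ov κ V →
      EqF V (φ' * (algebraMap Ω₀ K (P0.ψ ⟨φ', h5⟩) * u)⁻¹)
        ![fun l => (a 0 l : K), fun l => (a 1 l : K), fun l => algebraMap Ω₀ K (P0.ψ (b 0 l)),
          fun l => algebraMap Ω₀ K (P0.ψ (b 1 l))]
        ![fun l => (b 0 l : K), fun l => (b 1 l : K), fun l => algebraMap Ω₀ K (P0.ψ (a 0 l))] := by
    intro V0 hV0
    obtain ⟨P1, hP1⟩ := hPL.min κ K V0 hV0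
    refine (hG.mono K σ _ _ _ _ _ _ _ hP1).2 ?_
    obtain ⟨Q, hQ, -, hQ'⟩ := hTVR κ F Ω₀ K hC (Plc.res P1 Ω₀)
    obtain ⟨s, hs, hs'⟩ := exists_eqF hG Q.O hφ' (fun i => uni_iff_ne_zero.mp (ha1 i).uni)
      fun i => uni_iff_ne_zero.mp (hb1 i).uni
    obtain ⟨c, hc⟩ := hQ' s
    have hc0 : c ≠ 0 := fun h => by
      rw [h, map_zero, map_zero, map_eq_zero] at hc
      exact hs hc
    have hc1 : φ' * algebraMap Ω₀ K c ≠ 0 := mul_ne_zero hφ' ((map_ne_zero _).mpr hc0)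
    have hW : EqF Q.O (φ' * algebraMap Ω₀ K c) (fun i l => (a i l : K)) fun i l => (b i l : K) := by
      unfold EqF at hs' ⊢
      rwa [map_mul, ← hc, ← map_mul]
    have hv : ∀ v : ValuationSubring K, Ov Ω₀ v →
        EqF v (φ' * algebraMap Ω₀ K c) (fun i l => (a i l : K)) fun i l => (b i l : K) :=
      fun v hv => by
        have := h3 v hv
        unfold EqF at this ⊢
        rwa [map_mul, val_const hv hc0, mul_one]
    have hV : ∀ V : ValuationSubring K, (∀ c : Ω₀, algebraMap Ω₀ K c ∈ V ↔ c ∈ (Plc.res P1 Ω₀).O) →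
        EqF V (φ' * algebraMap Ω₀ K c) (fun i l => (a i l : K)) fun i l => (b i l : K) :=
      fun V hV => (eqF_iff hc1).mpr
        ⟨hSS κ σ B F Ω₀ K hC _ Q.O V (Plc.res P1 Ω₀).mem hQ hV ∅ (by simp) 2 2 x _ _ _ _ _ ha1 hb1
          (fun v hv' _ => ((eqF_iff hc1).mp (hv v hv')).1) ((eqF_iff hc1).mp hW).1,
        hSS κ σ B F Ω₀ K hC _ Q.O V (Plc.res P1 Ω₀).mem hQ hV ∅ (by simp) 2 2 x _ _ _ _ _ hb1 ha1
          (fun v hv' _ => ((eqF_iff hc1).mp (hv v hv')).2) ((eqF_iff hc1).mp hW).2⟩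
    have e1 := hV P1.O fun c => Iff.rfl
    have hψ : ∀ c : Ω₀, P0.ψ ⟨algebraMap Ω₀ K c, P0.mem c⟩ = c := P0.alg
    have e2 := hV (P0.comp (Plc.res P1 Ω₀).O) fun c => by
      rw [Plc.mem_comp]
      exact ⟨fun ⟨h, h'⟩ => hψ c ▸ h', fun h => ⟨P0.mem c, (hψ c).symm ▸ h⟩⟩
    have e3 := ((hG.comp Ω₀ K Ω₀ σ 2 2 P0 (Plc.res P1 Ω₀).O
      (⟨φ', h5⟩ * ⟨algebraMap Ω₀ K c, P0.mem c⟩) a b ha2 hb2).2 (by
        rw [map_mul, hψ]; exact mul_ne_zero h6 hc0)).mp e2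
    rw [map_mul, hψ] at e3
    have e4 := (hG.ext Ω₀ K σ 2 2 (algebraMap Ω₀ K) P1.O _ _ _).2.mpr e3
    have e5 : gv P1.O (fun i => algebraMap κ K (B.o i)) = 1 := by
      obtain ⟨i, hi⟩ := Function.ne_iff.mp B.o_ne
      exact gv_eq_one (fun j => P1.mem _) ⟨i, val_const P1.mem hi⟩
    unfold EqF at e1 e4 ⊢
    simp only [Fin.prod_univ_two, map_mul, hu', e5, mul_one] at e1 e4
    simp only [Fin.prod_univ_four, Fin.prod_univ_three, Matrix.cons_val, map_mul, map_inv₀]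
    have n1 : P1.O.valuation (algebraMap Ω₀ K (P0.ψ ⟨φ', h5⟩)) ≠ 0 :=
      (map_ne_zero _).mpr ((map_ne_zero _).mpr h6)
    have n2 : P1.O.valuation u ≠ 0 := (map_ne_zero _).mpr hu
    rw [← e1, mul_assoc _ _ (gv P1.O fun l => algebraMap Ω₀ K (P0.ψ (b 1 l))), ← e4]
    field_simp
  obtain ⟨t', ht0, ht1⟩ := eqF_rep hG (B := B)
    (p := ![B.map (IsScalarTower.toAlgHom κ F K) x + B.map (IsScalarTower.toAlgHom κ Ω₀ K) y +
      B.map (IsScalarTower.toAlgHom κ Ω₀ K) z, B.map (IsScalarTower.toAlgHom κ F K) x,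
      B.map (IsScalarTower.toAlgHom κ Ω₀ K) y, B.map (IsScalarTower.toAlgHom κ Ω₀ K) z])
    (q := ![B.map (IsScalarTower.toAlgHom κ F K) x + B.map (IsScalarTower.toAlgHom κ Ω₀ K) y,
      B.map (IsScalarTower.toAlgHom κ F K) x + B.map (IsScalarTower.toAlgHom κ Ω₀ K) z,
      B.map (IsScalarTower.toAlgHom κ Ω₀ K) y + B.map (IsScalarTower.toAlgHom κ Ω₀ K) z])
    (a := ![fun l => (a 0 l : K), fun l => (a 1 l : K), fun l => algebraMap Ω₀ K (P0.ψ (b 0 l)),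
      fun l => algebraMap Ω₀ K (P0.ψ (b 1 l))])
    (b := ![fun l => (b 0 l : K), fun l => (b 1 l : K), fun l => algebraMap Ω₀ K (P0.ψ (a 0 l))])
    (fun i => by
      fin_cases i
      · simpa [Pkg.tr, add_assoc] using ha1 0
      · simpa [Pkg.tr] using ha1 1
      · exact hb4 0
      · exact hb4 1)
    (fun i => B.rep_rp _)
    (fun i => by
      fin_cases i
      · exact hb1 0
      · exact hb1 1
      · simpa using ha4 0)
    (fun i => B.rep_rp _)
  exact ⟨_, mul_ne_zero (mul_ne_zero hφ' (inv_ne_zero (mul_ne_zero ((map_ne_zero _).mpr h6) hu)))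
    ht0, fun O hO => ht1 O _ (key O hO)⟩

end D4C
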