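import Pool.Agent.Lib.D4C.BlueF
import Pool.Agent.Lib.PK1.FF33

/-! The cube class is trivial on the curve over the big constant field. -/

namespace D4C

open Pool.Agent.Lib.MP_e06174_ag Pool.Agent.Lib.PK1

namespace T87

section val

variable {K σ : Type} [Field K] [Fintype σ] {r s : ℕ} {O : ValuationSubring K} {φ t : K}
  {a : Fin r → σ → K} {b : Fin s → σ → K}

lemma val_one (h : t ≠ 0) (h1 : t ∈ O) (h2 : t⁻¹ ∈ O) : O.valuation t = 1 := by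
  have h3 := (O.valuation_le_one_iff _).2 h2
  rw [map_inv₀, inv_le_one₀ (zero_lt_iff.2 (by simpa using h))] at h3
  exact le_antisymm ((O.valuation_le_one_iff _).2 h1) h3

lemma val_ov {k : Type} [Field k] [Algebra k K] (h : Ov k O) {c : k} (hc : c ≠ 0) :
    O.valuation (algebraMap k K c) = 1 :=
  val_one (by simpa using hc) (h c) (by simpa using h c⁻¹)

lemma eqF_mul (h : O.valuation t = 1) : EqF O (φ * t) a b ↔ EqF O φ a b := by
  unfold EqF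
  rw [map_mul, h, mul_one]

lemma eqF_iff (h : φ ≠ 0) : EqF O φ a b ↔ LeF O φ a b ∧ LeF O φ⁻¹ b a := by
  unfold EqF LeF
  rw [map_inv₀, inv_mul_le_iff₀ (zero_lt_iff.2 (by simpa using h))]
  exact le_antisymm_iff

lemma eqF_symm (h : φ ≠ 0) (e : EqF O φ a b) : EqF O φ⁻¹ b a := by
  rw [eqF_iff (inv_ne_zero h), inv_inv]
  exact ((eqF_iff h).1 e).symm

lemma eqF_perm (τ : Equiv.Perm (Fin s)) : EqF O φ a (fun j => b (τ j)) ↔ EqF O φ a b := by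
  unfold EqF
  rw [Equiv.prod_comp τ fun j => gv O (b j)]

lemma leF_perm (τ : Equiv.Perm (Fin s)) : LeF O φ a (fun j => b (τ j)) ↔ LeF O φ a b := by
  unfold LeF
  rw [Equiv.prod_comp τ fun j => gv O (b j)]

lemma exists_prod (hGV : St_GV) (O : ValuationSubring K) (ha : ∀ i, a i ≠ 0) :
    ∃ w : K, w ≠ 0 ∧ ∏ i, gv O (a i) = O.valuation w := by
  choose l h1 h2 _ using fun i => hGV.att K σ O (a i) (ha i)
  exact ⟨∏ i, a i (l i), Finset.prod_ne_zero_iff.2 fun i _ => h1 i, by simp [h2]⟩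

end val

section place

variable {k K : Type} [Field k] [Field K] [Algebra k K]

lemma O_ne_top (Q : Place k K) : Q.O ≠ ⊤ := fun h => by
  obtain ⟨t, h0, h1⟩ := Q.exists_ord_eq (-1)
  have := (Place.mem_O.1 (h ▸ trivial : t ∈ Q.O)).le h0
  omega

lemma val_of_ord (Q : Place k K) {t : K} (h : t ≠ 0) (h0 : Q.ord t = 0) : Q.O.valuation t = 1 :=
  val_one h (Place.mem_O.2 (Place.ge_of_le h0.ge)) (Place.mem_O.2 (Place.ge_of_le (by simp [h0])))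

lemma exists_plc [IsAlgClosed k] (hPL : St_PL2) {ξ : K} (hξ : IsCoord k ξ) (Q : Place k K) :
    ∃ P : Plc k K k, P.O = Q.O := by
  obtain ⟨P, hP⟩ := hPL.min k K Q.O fun c => Place.mem_O.2 (Place.ge_const c)
  obtain ⟨Q', hQ'⟩ := FF.exists_place hξ P.O
    (fun h => O_ne_top Q (top_le_iff.1 (h ▸ hP))) P.mem
  obtain rfl : Q' = Q := Place.ext_of_ge fun t ht =>
    Place.mem_O.1 (hP (hQ' ▸ Place.mem_O.2 ht))
  exact ⟨P, hQ'.symm⟩

lemma comp_le {Ω : Type} [Field Ω] [Algebra k Ω] (P : Plc k K Ω) (w : ValuationSubring Ω) :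
    P.comp w ≤ P.O := fun t ht => ((P.mem_comp w t).1 ht).1

lemma comp_const (P : Plc k K k) (w : ValuationSubring k) (c : k) :
    algebraMap k K c ∈ P.comp w ↔ c ∈ w := by
  rw [P.mem_comp]
  exact ⟨fun ⟨_, h⟩ => by rwa [P.alg] at h, fun h => ⟨P.mem c, by rwa [P.alg]⟩⟩

lemma exists_reg [IsAlgClosed k] {ξ : K} (hξ : IsCoord k ξ) (T : Finset (Place k K)) :
    ∃ g : K, (∀ c : k, g ≠ algebraMap k K c) ∧ ∀ Q ∈ T, Q.Ge 0 g := by
  have hfin : {c : k | ∃ Q ∈ T, Q.At ξ c}.Finite := by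
    have : {c : k | ∃ Q ∈ T, Q.At ξ c} = ⋃ Q ∈ T, {c | Q.At ξ c} := by ext; simp
    rw [this]
    exact T.finite_toSet.biUnion fun Q _ =>
      Set.Subsingleton.finite fun _ h _ h' => Place.At.unique h h'
  obtain ⟨c, hc⟩ := hfin.exists_notMem
  refine ⟨(ξ - algebraMap k K c)⁻¹, fun e h => ?_, fun Q hQ => Place.ge_of_le ?_⟩
  · refine (FF.coord_inv (FF.coord_sub hξ c)).trans ?_
    rw [h]
    exact isAlgebraic_algebraMap e
  · have := (Place.not_ge_iff.1 fun h => hc ⟨Q, hQ, h⟩).2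
    rw [Place.ord_inv]
    omega

end place

variable {κ σ : Type} [Field κ] [CharZero κ] [IsAlgClosed κ] [Fintype σ] [DecidableEq σ]
  {B : Pkg κ σ} {F Ω₀ K : Type} [Field F] [Field Ω₀] [IsAlgClosed Ω₀] [Field K]
  [Algebra κ F] [Algebra κ Ω₀] [Algebra κ K] [Algebra F K] [Algebra Ω₀ K] [IsScalarTower κ F K]
  [IsScalarTower κ Ω₀ K]

theorem main (hCX : St_CX) (hCBW : St_CBW) (hSS : St_SS1) (hPL : St_PL2) (hGV : St_GV)
    (C : Cmp κ F Ω₀ K) {D : Place κ F →₀ ℤ} (hD0 : ∀ Q, 0 ≤ D Q)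
    (hD1 : ∀ f ∈ LL D, ∃ c : κ, f = algebraMap κ F c) {r : ℕ} {x : B.Pt F}
    {c d : Fin r → B.Pt Ω₀} {a b : Fin r → σ → K} {φ : K} (hφ : φ ≠ 0)
    (ha : ∀ i, B.Rep (B.tr K x (c i)) (a i)) (hb : ∀ i, B.Rep (B.tr K x (d i)) (b i))
    (hG : Good Ω₀ D φ a b) (T : Plc κ Ω₀ κ → Prop)
    (hT : ∀ P, T P → ∃ τ : Equiv.Perm (Fin r), ∀ i, ∃ e, B.Red P (c i) e ∧ B.Red P (d (τ i)) e)
    (h0 : ∃ P, T P) (h1 : ∀ g : Ω₀, (∀ e : κ, g ≠ algebraMap κ Ω₀ e) → ∃ P, g ∉ P.O ∧ T P)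
    (v : ValuationSubring K) (hv : Ov Ω₀ v) : EqF v φ a b := by
  classical
  obtain ⟨ξ, hξ⟩ := C.coord
  obtain ⟨hx1, hx2, hx3⟩ := hCX κ F Ω₀ K C
  have hξ' := (hx1 ξ hξ).1
  have ha0 (i) : a i ≠ 0 := uni_iff_ne_zero.1 (ha i).uni
  have hb0 (i) : b i ≠ 0 := uni_iff_ne_zero.1 (hb i).uni
  have hO (Q' : Place Ω₀ K) : Ov Ω₀ Q'.O := fun e => Place.mem_O.2 (Place.ge_const e)
  have cbw (P : Plc κ Ω₀ κ) (hP : T P) : ∃ (Q : Plc F K F) (c₀ : Ω₀), IsGauss κ F P.O Q.O ∧ c₀ ≠ 0 ∧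
      EqF Q.O (φ * algebraMap Ω₀ K c₀) a b ∧
      (∀ Q₀ : Place κ F, EqF (Q.comp Q₀.O) (φ * algebraMap Ω₀ K c₀) a b ∧
        (∀ c' : Ω₀, algebraMap Ω₀ K c' ∈ Q.comp Q₀.O ↔ c' ∈ P.O) ∧
        ∀ f : F, algebraMap F K f ∈ Q.comp Q₀.O ↔ Q₀.Ge 0 f) ∧
      ∀ V : ValuationSubring K, (∀ c' : Ω₀, algebraMap Ω₀ K c' ∈ V ↔ c' ∈ P.O) →
        (∀ Q₀ : Place κ F, (∀ f : F, algebraMap F K f ∈ V ↔ Q₀.Ge 0 f) → D Q₀ = 0) →
        EqF V (φ * algebraMap Ω₀ K c₀) a b := by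
    obtain ⟨τ, hτ⟩ := hT P hP
    have := hCBW κ σ B F Ω₀ K C D hD0 hD1 r x c (fun i => d (τ i)) a (fun i => b (τ i)) φ hφ ha
      (fun i => hb (τ i)) (fun v u h h' => (leF_perm τ).2 (hG v u h h')) P hτ
    simpa only [eqF_perm] using this
  have step (Q' : Place Ω₀ K) (Pv : Plc Ω₀ K Ω₀) (e : Pv.O = Q'.O) (P : Plc κ Ω₀ κ) (hP : T P)
      (h : ∀ Q₀ : Place κ F, (∀ f : F, algebraMap F K f ∈ Pv.comp P.O ↔ Q₀.Ge 0 f) → D Q₀ = 0) :
      EqF Q'.O φ a b := by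
    obtain ⟨-, c₀, -, hc₀, -, -, h3⟩ := cbw P hP
    have := (hGV.mono K σ r r _ _ _ a b (e ▸ comp_le Pv P.O)).2 (h3 _ (comp_const Pv P.O) h)
    exact (eqF_mul (val_ov (hO Q') hc₀)).1 this
  have caseA (Q' : Place Ω₀ K) (Q : Place κ F) (hQ : ∀ f, Q'.ord (algebraMap F K f) = Q.ord f)
      (hD : D Q = 0) : EqF Q'.O φ a b := by
    obtain ⟨Pv, e⟩ := exists_plc hPL hξ' Q'
    obtain ⟨P, hP⟩ := h0
    have hge (n : ℤ) (f : F) : Q'.Ge n (algebraMap F K f) ↔ Q.Ge n f := by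
      rw [Place.ge_iff', Place.ge_iff', hQ, map_eq_zero]
    refine step Q' Pv e P hP fun Q₀ hQ₀ => ?_
    obtain rfl : Q = Q₀ := Place.ext_of_ge fun f hf => (hQ₀ f).1 <| by
      obtain ⟨t, ht⟩ := FF.exists_at hξ hf
      have hm : algebraMap F K f ∈ Pv.O := e ▸ Place.mem_O.2 ((hge 0 f).2 hf)
      refine (Pv.mem_comp _ _).2 ⟨hm, ?_⟩
      have h2 : Pv.ψ (⟨_, hm⟩ - ⟨_, Pv.mem (algebraMap κ Ω₀ t)⟩) = 0 := by
        rw [Pv.ker, ← mem_nonunits_iff, ← IsLocalRing.mem_maximalIdeal,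
          ValuationSubring.valuation_lt_one_iff]
        change Pv.O.valuation (algebraMap F K f - algebraMap Ω₀ K (algebraMap κ Ω₀ t)) < 1
        rw [e, ← IsScalarTower.algebraMap_apply, IsScalarTower.algebraMap_apply κ F K, ← map_sub]
        exact (Valuation.isEquiv_valuation_valuationSubring _).lt_one_iff_lt_one.1
          (Place.ge_one_iff.1 ((hge 1 _).2 ht))
      rw [map_sub, sub_eq_zero, Pv.alg] at h2
      rw [h2]
      exact P.mem t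
    exact hD
  have caseB (Q' : Place Ω₀ K) (hQ : ∀ f, Q'.ord (algebraMap F K f) = 0) : EqF Q'.O φ a b := by
    obtain ⟨Pv, e⟩ := exists_plc hPL hξ' Q'
    obtain ⟨g, hg, hg'⟩ := exists_reg hξ D.support
    have hm (f : F) : algebraMap F K f ∈ Pv.O := e ▸ Place.mem_O.2 (Place.ge_of_le (hQ f).ge)
    obtain ⟨P, hP, hP'⟩ := h1 (Pv.ψ ⟨_, hm g⟩) fun t ht => by
      have h2 : Pv.ψ ⟨_, hm (g - algebraMap κ F t)⟩ = 0 := by
        have : (⟨_, hm (g - algebraMap κ F t)⟩ : Pv.O) =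
            ⟨_, hm g⟩ - ⟨_, Pv.mem (algebraMap κ Ω₀ t)⟩ := Subtype.ext <| by
          simp [← IsScalarTower.algebraMap_apply]
        rw [this, map_sub, ht, Pv.alg]
        exact sub_self _
      refine (Pv.ker _).1 h2 (IsUnit.of_mul_eq_one ⟨_, hm (g - algebraMap κ F t)⁻¹⟩ ?_)
      apply Subtype.ext
      change algebraMap F K _ * algebraMap F K _ = 1
      rw [← map_mul, mul_inv_cancel₀ (sub_ne_zero.2 (hg t)), map_one]
    refine step Q' Pv e P hP' fun Q₀ hQ₀ => ?_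
    by_contra hD
    exact hP ((Pv.mem_comp _ _).1 ((hQ₀ g).2 (hg' Q₀ (Finsupp.mem_support_iff.2 hD)))).2
  have caseC (Q' : Place Ω₀ K) (Q : Place κ F) (hQ : ∀ f, Q'.ord (algebraMap F K f) = Q.ord f) :
      EqF Q'.O φ a b := by
    obtain ⟨wa, ha1, ha2⟩ := exists_prod hGV Q'.O ha0
    obtain ⟨wb, hb1, hb2⟩ := exists_prod hGV Q'.O hb0
    obtain ⟨u, hu, hu'⟩ := Q.exists_ord_eq (Q'.ord (wb / (φ * wa)))
    have hu0 : algebraMap F K u ≠ 0 := by simpa using hu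
    have hw := div_ne_zero hb1 (mul_ne_zero hφ ha1)
    have e1 : EqF Q'.O (φ * algebraMap F K u) a b := by
      have := val_of_ord Q' (div_ne_zero hu0 hw) (by rw [Q'.ord_div hu0 hw, hQ, hu', sub_self])
      unfold EqF
      rw [ha2, hb2, ← map_mul, ← mul_one (Q'.O.valuation wb), ← this, ← map_mul]
      congr 1
      field_simp
    have sep (Q₁ : Place κ F) : ∃ f : F, Q.Ge 0 f ∧ (Q₁.Ge 0 f → Q = Q₁) := by
      by_cases h : Q = Q₁
      · exact ⟨0, by simp, fun _ => h⟩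
      · by_contra! h2
        exact h (Place.ext_of_ge fun f hf => (h2 f hf).1)
    choose f hf hf' using sep
    let X := (D.support ∪ (FF.finite_support hξ u).toFinset).image f
    have e2 (v : ValuationSubring K) (hv : Ov Ω₀ v) (hX : ∀ t ∈ X, algebraMap F K t ∈ v) :
        EqF v (φ * algebraMap F K u) a b := by
      by_cases ht : v = ⊤
      · exact (hGV.mono K σ r r _ _ _ a b (ht ▸ le_top)).2 e1
      obtain ⟨Q'', rfl⟩ := FF.exists_place hξ' v ht hv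
      rcases hx3 Q'' with ⟨Q₁, hQ₁⟩ | hQ₁
      · by_cases hm : Q₁ ∈ D.support ∪ (FF.finite_support hξ u).toFinset
        · have h2 := Place.mem_O.1 (hX _ (Finset.mem_image_of_mem f hm))
          rw [Place.ge_iff', hQ₁, map_eq_zero, ← Place.ge_iff'] at h2
          obtain rfl := hf' Q₁ h2
          obtain rfl := (hx2 Q).unique hQ hQ₁
          exact e1
        · simp only [Finset.mem_union, Finsupp.mem_support_iff, Set.Finite.mem_toFinset,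
            Set.mem_ofPred_eq, not_or, not_not] at hm
          exact (eqF_mul (val_of_ord Q'' hu0 ((hQ₁ u).trans hm.2))).2 (caseA Q'' Q₁ hQ₁ hm.1)
      · exact (eqF_mul (val_of_ord Q'' hu0 (hQ₁ u))).2 (caseB Q'' hQ₁)
    obtain ⟨P, hP⟩ := h0
    obtain ⟨W, c₀, hW, hc₀, e3, e4, -⟩ := cbw P hP
    obtain ⟨e4, e5, e6⟩ := e4 Q
    have hψ : φ * algebraMap Ω₀ K c₀ * algebraMap F K u ≠ 0 :=
      mul_ne_zero (mul_ne_zero hφ (by simpa using hc₀)) hu0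
    have hXV : ∀ t ∈ X, algebraMap F K t ∈ W.comp Q.O := fun t ht => by
      obtain ⟨Q₁, -, rfl⟩ := Finset.mem_image.1 ht
      exact (e6 _).2 (hf Q₁)
    have e7 (v : ValuationSubring K) (hv : Ov Ω₀ v) (hX : ∀ t ∈ X, algebraMap F K t ∈ v) :=
      (eqF_iff hψ).1 (mul_right_comm φ _ _ ▸ (eqF_mul (val_ov hv hc₀)).2 (e2 v hv hX))
    have e8 := (eqF_iff hψ).1 ((eqF_mul (val_ov hW.triv hu)).2 e3)
    have e9 : EqF (W.comp Q.O) (φ * algebraMap Ω₀ K c₀ * algebraMap F K u) a b := (eqF_iff hψ).2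
      ⟨hSS κ σ B F Ω₀ K C P.O W.O _ P.mem hW e5 X hXV r r x c d a b _ ha hb
        (fun v h h' => (e7 v h h').1) e8.1,
      hSS κ σ B F Ω₀ K C P.O W.O _ P.mem hW e5 X hXV r r x d c b a _ hb ha
        (fun v h h' => (e7 v h h').2) e8.2⟩
    obtain ⟨w, hw1, hw2⟩ := exists_prod hGV (W.comp Q.O) hb0
    have e10 : (W.comp Q.O).valuation (algebraMap F K u) = 1 := by
      unfold EqF at e4 e9
      rw [map_mul, mul_right_comm, e4] at e9
      exact mul_left_cancel₀ (by rw [hw2]; simpa using hw1) (e9.trans (mul_one _).symm)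
    have h2 := ((e6 u).1 ((ValuationSubring.valuation_le_one_iff _ _).1 e10.le)).le hu
    have h3 := ((e6 u⁻¹).1 ((ValuationSubring.valuation_le_one_iff _ _).1
      (by rw [map_inv₀, map_inv₀, e10, inv_one]))).le (inv_ne_zero hu)
    rw [Place.ord_inv] at h3
    exact (eqF_mul (val_of_ord Q' hu0 (by rw [hQ]; omega))).1 e1
  have all (Q' : Place Ω₀ K) : EqF Q'.O φ a b := by
    rcases hx3 Q' with ⟨Q, hQ⟩ | hQ
    · exact caseC Q' Q hQ
    · exact caseB Q' hQ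
  by_cases ht : v = ⊤
  · obtain ⟨Q', -⟩ := FF.exists_pole hξ'
    exact (hGV.mono K σ r r _ _ _ a b (ht ▸ le_top)).2 (all Q')
  · obtain ⟨Q', rfl⟩ := FF.exists_place hξ' v ht hv
    exact all Q'

end T87

theorem st_CB3 (hRRX : St_RRX) (hCX : St_CX) (hCBW : St_CBW) (hSS : St_SS1) (hPL : St_PL2)
    (hRHO : St_RHO) (hGV : St_GV) : St_CB3 := by
  intro κ σ _ _ _ _ _ B F Ω₀ K _ _ _ _ _ _ _ _ _ _ _ C x y z h0 h1
  obtain ⟨D, hD0, hD1, hD⟩ := hRRX κ F Ω₀ K C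
  have ha (c : Fin 2 → B.Pt Ω₀) (i) := B.rep_rp (B.tr K x (c i))
  obtain ⟨φ, hφ, h⟩ := hD σ 2 _ _ (fun i => uni_iff_ne_zero.1 (ha ![y + z, 0] i).uni)
    fun i => uni_iff_ne_zero.1 (ha ![y, z] i).uni
  have h0' : ∃ P : Plc κ Ω₀ κ, B.Red P z 0 ∨ B.Red P y 0 := h0.imp fun _ => Or.inl
  have key (P : Plc κ Ω₀ κ) (hP : B.Red P z 0 ∨ B.Red P y 0) : ∃ τ : Equiv.Perm (Fin 2),
      (∀ i, ∃ e, B.Red P (![y + z, 0] i) e ∧ B.Red P (![y, z] (τ i)) e) ∧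
      ∀ i, ∃ e, B.Red P (![y, z] i) e ∧ B.Red P (![y + z, 0] (τ i)) e := by
    obtain ⟨ρ, hρ, -⟩ := hRHO κ σ B κ Ω₀ κ P
    simp only [hρ] at hP ⊢
    rcases hP with hP | hP
    · exact ⟨1, by simp [Fin.forall_fin_two, hP]⟩
    · exact ⟨Equiv.swap 0 1, by simp [Fin.forall_fin_two, hP]⟩
  rcases h with h | h
  · exact ⟨φ, hφ, T87.main hCX hCBW hSS hPL hGV C hD0 hD1 hφ (ha _) (ha _) h _
      (fun P hP => (key P hP).imp fun _ h => h.1) h0' h1⟩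
  · exact ⟨φ⁻¹, inv_ne_zero hφ, fun v hv => T87.eqF_symm hφ (T87.main hCX hCBW hSS hPL hGV C hD0 hD1
      hφ (ha _) (ha _) h _ (fun P hP => (key P hP).imp fun _ h => h.2) h0' h1 v hv)⟩

end D4C
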