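import Pool.Agent.Lib.D4C.BlueF

namespace D4C

namespace T50

theorem sp_trans {k k' K Ω σ : Type} [Field k] [Field k'] [Field K] [Field Ω] [Algebra k k']
    [Algebra k K] [Algebra k' K] [Algebra k Ω] {P : Plc k' K k'} {P' : Plc k k' Ω}
    {Q : Plc k K Ω} (hO : Q.O = P.comp P'.O)
    (hψ : ∀ (a : Q.O) (h : (a : K) ∈ P.O) (h' : P.ψ ⟨a, h⟩ ∈ P'.O),
      Q.ψ a = P'.ψ ⟨P.ψ ⟨a, h⟩, h'⟩)
    {x : σ → K} {w : σ → k'} {y : σ → Ω} (hw : w ≠ 0) (h1 : P.Sp x w) (h2 : P'.Sp w y) :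
    Q.Sp x y := by
  obtain ⟨x', a1, a2, a3⟩ := h1
  obtain ⟨w', b1, b2, b3⟩ := h2
  obtain ⟨c, hc⟩ := (a3.trans (uni_iff_ne_zero.mpr hw) b2.symm).exists_smul
    (uni_iff_ne_zero.mpr a1)
  have hm : ∀ i, algebraMap k' K c * (x' i : K) ∈ P.O := fun i =>
    P.O.mul_mem _ _ (P.mem c) (x' i).2
  have he : ∀ i, P.ψ ⟨_, hm i⟩ = (w' i : k') := by
    intro i
    have e1 : (⟨_, hm i⟩ : P.O) = ⟨algebraMap k' K c, P.mem c⟩ * x' i := rfl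
    rw [e1, map_mul, P.alg]
    exact (congrFun hc i).symm
  have hq : ∀ i, algebraMap k' K c * (x' i : K) ∈ Q.O := by
    intro i
    rw [hO, Plc.mem_comp]
    exact ⟨hm i, by rw [he]; exact (w' i).2⟩
  have hv : (fun i => Q.ψ ⟨_, hq i⟩) = fun i => P'.ψ (w' i) := by
    funext i
    rw [hψ ⟨_, hq i⟩ (hm i) (by rw [he]; exact (w' i).2)]
    exact congrArg P'.ψ (Subtype.ext (he i))
  refine ⟨fun i => ⟨_, hq i⟩, ?_, fun i j => ?_, ?_⟩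
  · rw [hv]; exact b1
  · have := a2 i j
    simp only at this ⊢
    rw [mul_assoc, mul_assoc, this]
  · rw [hv]; exact b3

theorem sp_const {k K Ω σ : Type} [Field k] [Field K] [Field Ω] [Algebra k K] [Algebra k Ω]
    (P : Plc k K Ω) {a : σ → k} (ha : a ≠ 0) {x : σ → K}
    (hx : Par (fun i => algebraMap k K (a i)) x) : P.Sp x fun i => algebraMap k Ω (a i) := by
  have hv : (fun i => P.ψ ⟨algebraMap k K (a i), P.mem _⟩) = fun i => algebraMap k Ω (a i) :=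
    funext fun i => P.alg _
  refine ⟨fun i => ⟨algebraMap k K (a i), P.mem _⟩, ?_, hx, ?_⟩
  · rw [hv]
    exact uni_iff_ne_zero.mp ((uni_iff_ne_zero.mpr ha).map (algebraMap k Ω))
  · rw [hv]
    exact Par.refl _

theorem sp_par {k K Ω σ : Type} [Field k] [Field K] [Field Ω] [Algebra k K] [Algebra k Ω]
    {P : Plc k K Ω} {x : σ → K} {y y' : σ → Ω} (h : P.Sp x y) (hy : y ≠ 0) (hp : Par y y') :
    P.Sp x y' := by
  obtain ⟨x', a1, a2, a3⟩ := h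
  exact ⟨x', a1, a2, a3.trans (uni_iff_ne_zero.mpr hy) hp⟩

end T50

theorem st_CBT (hG : St_GSP) (hP : St_PL2) : St_CBT := by
  intro κ σ _ _ _ _ B k₁ Ω₀ _ _ _ _ _ _ _ y z hy hz
  have ho1 : (fun i => algebraMap κ k₁ (B.o i)) ≠ 0 := uni_iff_ne_zero.mp Pkg.o_uni
  have ho0 : (fun i => algebraMap κ κ (B.o i)) ≠ 0 := uni_iff_ne_zero.mp Pkg.o_uni
  have hpar0 : Par (fun i => algebraMap κ κ (B.o i)) (B.rp (0 : B.Pt κ)) :=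
    Pkg.rep_zero.par (B.rep_rp _)
  have hyn : B.rp y ≠ 0 := uni_iff_ne_zero.mp (B.rep_rp y).uni
  obtain ⟨Pz, hPz⟩ := hG k₁ Ω₀ k₁ σ (B.rp z) _ (uni_iff_ne_zero.mp (B.rep_rp z).uni) ho1 hz
  have hA : ∀ P' : Plc κ k₁ κ, ∃ Q : Plc κ Ω₀ κ, Q.O = Pz.comp P'.O ∧ B.Red Q z 0 := by
    intro P'
    obtain ⟨Q, hO, hψ⟩ := hP.trans κ k₁ Ω₀ κ Pz P'
    exact ⟨Q, hO, T50.sp_par (T50.sp_trans hO hψ ho1 hPz
      (T50.sp_const P' B.o_ne (Par.refl _))) ho0 hpar0⟩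
  refine ⟨?_, fun g hg => ?_⟩
  · obtain ⟨P', _⟩ := hP.min κ k₁ ⊤ (fun a => ValuationSubring.mem_top _)
    obtain ⟨Q, _, hQ⟩ := hA P'
    exact ⟨Q, hQ⟩
  by_cases hk : ∃ c : k₁, g = algebraMap k₁ Ω₀ c
  · obtain ⟨c, rfl⟩ := hk
    obtain ⟨P', hP'⟩ := hP.inf κ k₁ c (fun d hd => hg d (by
      rw [hd, ← IsScalarTower.algebraMap_apply]))
    obtain ⟨Q, hO, hQ⟩ := hA P'
    refine ⟨Q, fun hm => hP' ?_, Or.inl hQ⟩
    rw [hO, Plc.mem_comp] at hm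
    obtain ⟨h1, h2⟩ := hm
    rwa [Pz.alg] at h2
  · obtain ⟨Pg, hPg⟩ := hP.inf k₁ Ω₀ g (fun c hc => hk ⟨c, hc⟩)
    obtain ⟨Py, hPy⟩ := hG κ k₁ κ σ (B.rp y) B.o hyn B.o_ne hy
    obtain ⟨Q, hO, hψ⟩ := hP.trans κ k₁ Ω₀ κ Pg Py
    refine ⟨Q, fun hm => hPg ?_, Or.inr ?_⟩
    · rw [hO, Plc.mem_comp] at hm
      exact hm.1
    · have h1 : Pg.Sp (B.rp (B.map (IsScalarTower.toAlgHom κ k₁ Ω₀) y)) (B.rp y) :=
        T50.sp_const Pg hyn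
          (((B.rep_rp y).map (IsScalarTower.toAlgHom κ k₁ Ω₀)).par (B.rep_rp _))
      exact T50.sp_par (T50.sp_trans hO hψ hyn h1 hPy) B.o_ne hpar0

end D4C
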