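import Pool.Agent.Lib.D4C.BlueF
import Pool.Agent.Lib.PK1.FF33

/-! Row CBW: degeneration of the auxiliary function along a place where both families agree. -/

set_option linter.unusedSectionVars false

namespace D4C

open MvPolynomial Pool.Agent.Lib.MP_e06174_ag

namespace T28

section gvs

variable {K σ : Type} [Field K] [Fintype σ] (O : ValuationSubring K)

theorem le_gv (x : σ → K) (i : σ) : O.valuation (x i) ≤ gv O x :=
  Finset.le_sup (f := fun i => O.valuation (x i)) (Finset.mem_univ i)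

theorem gv_le_one {x : σ → K} (h : ∀ i, x i ∈ O) : gv O x ≤ 1 :=
  Finset.sup_le fun i _ => (O.valuation_le_one_iff _).2 (h i)

theorem gv_eq_one {x : σ → K} (h : ∀ i, x i ∈ O) {j : σ} (hj : O.valuation (x j) = 1) :
    gv O x = 1 := le_antisymm (gv_le_one O h) (hj ▸ le_gv O x j)

theorem gv_ne_zero {x : σ → K} (h : x ≠ 0) : gv O x ≠ 0 := by
  obtain ⟨i, hi⟩ := Function.ne_iff.1 h
  intro h0
  have := le_gv O x i
  rw [h0, le_zero_iff] at this
  exact hi (by simpa using this)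

theorem val_one {c : K} (h : c ∈ O) (h' : c⁻¹ ∈ O) (hc : c ≠ 0) : O.valuation c = 1 := by
  refine le_antisymm ((O.valuation_le_one_iff _).2 h) ?_
  have := (O.valuation_le_one_iff _).2 h'
  rwa [map_inv₀, inv_le_one₀ (zero_lt_iff.2 (by simpa using hc))] at this

theorem val_lt_one {c : K} (h : c⁻¹ ∉ O) : O.valuation c < 1 := by
  by_contra hc
  push Not at hc
  apply h
  rw [← O.valuation_le_one_iff, map_inv₀]
  exact inv_le_one_of_one_le₀ hc

theorem inv_not_mem {c : K} (hc : c ≠ 0) (h : O.valuation c < 1) : c⁻¹ ∉ O := by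
  intro h'
  rw [← O.valuation_le_one_iff, map_inv₀, inv_le_one₀ (zero_lt_iff.2 (by simpa using hc))] at h'
  exact absurd h (not_lt.2 h')

theorem self_le {r : ℕ} {h : K} {g : Fin r → σ → K} (hg : ∀ i, g i ≠ 0) :
    (LeF O h g g ↔ O.valuation h ≤ 1) ∧ (EqF O h g g ↔ O.valuation h = 1) := by
  have h0 : ∏ i, gv O (g i) ≠ 0 := Finset.prod_ne_zero_iff.2 fun i _ => gv_ne_zero O (hg i)
  refine ⟨?_, mul_eq_right₀ h0⟩
  unfold LeF
  exact mul_le_iff_le_one_left (zero_lt_iff.2 h0)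

theorem rescale (hGV : St_GV) {r : ℕ} (lam mu : Fin r → K) (hmu : ∀ i, mu i ≠ 0)
    (a b : Fin r → σ → K) (φ : K) :
    (LeF O φ (fun i => lam i • a i) (fun i => mu i • b i) ↔
      LeF O (φ * ((∏ i, lam i) / ∏ i, mu i)) a b) ∧
    (EqF O φ (fun i => lam i • a i) (fun i => mu i • b i) ↔
      EqF O (φ * ((∏ i, lam i) / ∏ i, mu i)) a b) := by
  have h0 : O.valuation (∏ i, mu i) ≠ 0 :=
    (map_ne_zero _).2 (Finset.prod_ne_zero_iff.2 fun i _ => hmu i)
  have e1 : O.valuation φ * ∏ i, gv O (lam i • a i) =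
      O.valuation (∏ i, mu i) * (O.valuation (φ * ((∏ i, lam i) / ∏ i, mu i)) * ∏ i, gv O (a i)) := by
    simp only [hGV.smul, Finset.prod_mul_distrib, ← map_prod, map_mul, map_div₀]
    field_simp
  have e2 : ∏ i, gv O (mu i • b i) = O.valuation (∏ i, mu i) * ∏ i, gv O (b i) := by
    simp only [hGV.smul, Finset.prod_mul_distrib, ← map_prod]
  unfold LeF EqF
  rw [e1, e2]
  exact ⟨mul_le_mul_iff_right₀ (zero_lt_iff.2 h0), mul_right_inj' h0⟩

variable {κ : Type} [Field κ] [Algebra κ K] {O}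

theorem aeval_mem (hO : Ov κ O) {τ : Type} {z : τ → K} (hz : ∀ t, z t ∈ O)
    (G : MvPolynomial τ κ) : aeval z G ∈ O := by
  induction G using MvPolynomial.induction_on with
  | C c => rw [aeval_C]; exact hO c
  | add p q hp hq => rw [map_add]; exact add_mem hp hq
  | mul_X p t hp => rw [map_mul, aeval_X]; exact mul_mem hp (hz t)

theorem aeval_sub_lt (hO : Ov κ O) {τ : Type} {z z' : τ → K} (hz : ∀ t, z t ∈ O)
    (hz' : ∀ t, z' t ∈ O) (h : ∀ t, O.valuation (z t - z' t) < 1) (G : MvPolynomial τ κ) :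
    O.valuation (aeval z G - aeval z' G) < 1 := by
  induction G using MvPolynomial.induction_on with
  | C c => simp
  | add p q hp hq =>
    rw [map_add, map_add, add_sub_add_comm]
    exact Valuation.map_add_lt _ hp hq
  | mul_X p t hp =>
    rw [map_mul, map_mul, aeval_X, aeval_X, show aeval z p * z t - aeval z' p * z' t =
      (aeval z p - aeval z' p) * z t + aeval z' p * (z t - z' t) by ring]
    refine Valuation.map_add_lt _ ?_ ?_
    · rw [map_mul]
      exact mul_lt_one_of_lt_of_le hp ((O.valuation_le_one_iff _).2 (hz t))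
    · rw [map_mul, mul_comm]
      exact mul_lt_one_of_lt_of_le (h t) ((O.valuation_le_one_iff _).2 (aeval_mem hO hz' p))

theorem elim_mem {x y : σ → K} (hx : ∀ i, x i ∈ O) (hy : ∀ i, y i ∈ O) (t : σ ⊕ σ) :
    Sum.elim x y t ∈ O := by
  cases t with
  | inl i => exact hx i
  | inr i => exact hy i

end gvs

section plc

variable {k K Ω : Type} [Field k] [Field K] [Field Ω] [Algebra k K] [Algebra k Ω]

theorem val_psi (P : Plc k K Ω) (b : P.O) : P.O.valuation (b : K) = 1 ↔ P.ψ b ≠ 0 := by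
  rw [Ne, P.ker, not_not, ValuationSubring.valuation_eq_one_iff]

theorem psi_aeval {κ : Type} [Field κ] [Algebra κ k] [Algebra κ K] [Algebra κ Ω]
    [IsScalarTower κ k K] [IsScalarTower κ k Ω] (P : Plc k K Ω) {τ : Type} (z : τ → P.O)
    (G : MvPolynomial τ κ) : ∃ b : P.O, (b : K) = aeval (fun t => (z t : K)) G ∧
      P.ψ b = aeval (fun t => P.ψ (z t)) G := by
  induction G using MvPolynomial.induction_on with
  | C c =>
    refine ⟨⟨_, P.mem (algebraMap κ k c)⟩, ?_, ?_⟩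
    · rw [aeval_C, IsScalarTower.algebraMap_apply κ k K]
    · rw [P.alg, aeval_C, IsScalarTower.algebraMap_apply κ k Ω]
  | add p q hp hq =>
    obtain ⟨b, h1, h2⟩ := hp
    obtain ⟨b', h1', h2'⟩ := hq
    exact ⟨b + b', by simp [h1, h1'], by simp [h2, h2']⟩
  | mul_X p t hp =>
    obtain ⟨b, h1, h2⟩ := hp
    exact ⟨b * z t, by simp [h1], by simp [h2]⟩

end plc

section main

variable {κ σ : Type} [Field κ] [Fintype σ] [DecidableEq σ] {B : Pkg κ σ} {F Ω₀ K : Type}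
  [Field F] [Field Ω₀] [Field K] [Algebra κ F] [Algebra κ Ω₀] [Algebra κ K] [Algebra F K]
  [Algebra Ω₀ K] [IsScalarTower κ F K] [IsScalarTower κ Ω₀ K]

/-- coordinates in the valuation ring with a common reduction -/
theorem reps (P : Plc κ Ω₀ κ) {c d : B.Pt Ω₀} {e : B.Pt κ} (hc : B.Red P c e) (hd : B.Red P d e) :
    ∃ cr dr : σ → P.O, (B.Rep c fun l => (cr l : Ω₀)) ∧ (B.Rep d fun l => (dr l : Ω₀)) ∧
      (B.Rep e fun l => P.ψ (cr l)) ∧ ∀ l, P.ψ (dr l) = P.ψ (cr l) := by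
  have key : ∀ c : B.Pt Ω₀, B.Red P c e → ∃ cr : σ → P.O, (B.Rep c fun l => (cr l : Ω₀)) ∧
      B.Rep e fun l => P.ψ (cr l) := by
    rintro c ⟨x, h0, h1, h2⟩
    refine ⟨x, (B.rep_rp c).of_par (uni_iff_ne_zero.2 fun h => h0 ?_) h1.symm,
      (B.rep_rp e).of_par (uni_iff_ne_zero.2 h0) h2.symm⟩
    funext l
    have : x l = 0 := Subtype.ext (congrFun h l)
    simp [this]
  obtain ⟨x, hx, hx'⟩ := key c hc
  obtain ⟨y, hy, hy'⟩ := key d hd
  obtain ⟨t, ht⟩ := (hy'.par hx').exists_smul hy'.uni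
  have ht0 : t ≠ 0 := by
    rintro rfl
    exact uni_iff_ne_zero.1 hx'.uni (by rw [ht, zero_smul])
  refine ⟨x, fun l => ⟨_, P.mem t⟩ * y l, hx, ?_, hx', fun l => ?_⟩
  · exact hy.smul (c := algebraMap κ Ω₀ t) (isUnit_iff_ne_zero.2 (by simpa using ht0))
  · rw [map_mul, P.alg]
    exact (congrFun ht l).symm

/-- a law evaluated in the Gauss ring -/
theorem law (P : Plc κ Ω₀ κ) (Q : Plc F K F) (hG : IsGauss κ F P.O Q.O)
    (hψ : ∀ (c : P.O) (h : algebraMap Ω₀ K c ∈ Q.O), Q.ψ ⟨_, h⟩ = algebraMap κ F (P.ψ c))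
    (A : σ → MvPolynomial (σ ⊕ σ) κ) (xr : σ → F) (cr : σ → P.O) :
    ∃ a' : σ → Q.O, (fun l => (a' l : K)) =
        ev2 A (fun l => algebraMap F K (xr l)) (fun l => algebraMap Ω₀ K (cr l)) ∧
      (fun l => Q.ψ (a' l)) = ev2 A xr fun l => algebraMap κ F (P.ψ (cr l)) := by
  let z : σ ⊕ σ → Q.O := Sum.elim (fun l => ⟨_, Q.mem (xr l)⟩)
    fun l => ⟨_, (hG.ovr _).2 (cr l).2⟩
  choose a' h1 h2 using fun l => psi_aeval (κ := κ) Q z (A l)
  refine ⟨a', funext fun l => ?_, funext fun l => ?_⟩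
  · rw [h1, ev2]
    congr 2
    funext t
    cases t <;> rfl
  · rw [h2, ev2]
    congr 2
    funext t
    cases t with
    | inl i => exact Q.alg (xr i)
    | inr i => exact hψ _ _

/-- normal form of the two families -/
theorem norm (hGV : St_GV) (P : Plc κ Ω₀ κ) (Q : Plc F K F) (hG : IsGauss κ F P.O Q.O)
    (hψ : ∀ (c : P.O) (h : algebraMap Ω₀ K c ∈ Q.O), Q.ψ ⟨_, h⟩ = algebraMap κ F (P.ψ c))
    {r : ℕ} {x : B.Pt F} {c d : Fin r → B.Pt Ω₀} {a b : Fin r → σ → K}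
    (ha : ∀ i, B.Rep (B.tr K x (c i)) (a i)) (hb : ∀ i, B.Rep (B.tr K x (d i)) (b i))
    {cr dr : Fin r → σ → P.O} (hc : ∀ i, B.Rep (c i) fun l => (cr i l : Ω₀))
    (hd : ∀ i, B.Rep (d i) fun l => (dr i l : Ω₀)) (he : ∀ i l, P.ψ (dr i l) = P.ψ (cr i l))
    {xr : σ → F} (hx : B.Rep x xr) (m : Fin r → Fin B.nl)
    (hm : ∀ i, (ev2 (B.A (m i)) xr fun l => algebraMap κ F (P.ψ (cr i l))) ≠ 0) :
    ∃ (a' b' : Fin r → σ → Q.O) (t : K), t ≠ 0 ∧
      (∀ i, (fun l => (a' i l : K)) = ev2 (B.A (m i)) (fun l => algebraMap F K (xr l))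
        fun l => algebraMap Ω₀ K (cr i l)) ∧
      (∀ i, (fun l => (b' i l : K)) = ev2 (B.A (m i)) (fun l => algebraMap F K (xr l))
        fun l => algebraMap Ω₀ K (dr i l)) ∧
      (∀ i, (fun l => Q.ψ (a' i l)) ≠ 0) ∧
      ((fun i l => Q.ψ (b' i l)) = fun i l => Q.ψ (a' i l)) ∧
      ∀ (v : ValuationSubring K) (φ : K),
        (LeF v φ a b ↔ LeF v (φ * t) (fun i l => (a' i l : K)) fun i l => (b' i l : K)) ∧
        (EqF v φ a b ↔ EqF v (φ * t) (fun i l => (a' i l : K)) fun i l => (b' i l : K)) := by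
  choose a' ha1 ha2 using fun i => law P Q hG hψ (B.A (m i)) xr (cr i)
  choose b' hb1 hb2 using fun i => law P Q hG hψ (B.A (m i)) xr (dr i)
  have hab : ∀ i, (fun l => Q.ψ (b' i l)) = fun l => Q.ψ (a' i l) := fun i => by
    rw [ha2, hb2]; simp only [he]
  have key : ∀ (p : B.Pt Ω₀) (pr : σ → P.O) (u : σ → K) (u' : σ → Q.O) (n : Fin B.nl),
      B.Rep (B.tr K x p) u → (B.Rep p fun l => (pr l : Ω₀)) →
      (fun l => (u' l : K)) = ev2 (B.A n) (fun l => algebraMap F K (xr l))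
        (fun l => algebraMap Ω₀ K (pr l)) → (fun l => Q.ψ (u' l)) ≠ 0 →
      ∃ s : K, s ≠ 0 ∧ u = s • fun l => (u' l : K) := by
    intro p pr u u' n hu hp h1 h2
    have h3 : Uni fun l => (u' l : K) := uni_iff_ne_zero.2 fun h => h2 (by
      funext l
      have : u' l = 0 := Subtype.ext (congrFun h l)
      simp [this])
    have h4 : B.Rep (B.tr K x p) fun l => (u' l : K) := by
      rw [h1] at h3 ⊢
      exact (hx.map (IsScalarTower.toAlgHom κ F K)).add
        (hp.map (IsScalarTower.toAlgHom κ Ω₀ K)) h3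
    obtain ⟨s, hs⟩ := (h4.par hu).exists_smul h3
    refine ⟨s, ?_, hs⟩
    rintro rfl
    exact uni_iff_ne_zero.1 hu.uni (by rw [hs, zero_smul])
  have hne : ∀ i, (fun l => Q.ψ (a' i l)) ≠ 0 := fun i => by rw [ha2]; exact hm i
  choose lam hl0 hl using fun i => key _ _ _ _ _ (ha i) (hc i) (ha1 i) (hne i)
  choose mu hm0 hmu using fun i => key _ _ _ _ _ (hb i) (hd i) (hb1 i) (by rw [hab]; exact hne i)
  refine ⟨a', b', (∏ i, lam i) / ∏ i, mu i, div_ne_zero (Finset.prod_ne_zero_iff.2 fun i _ => hl0 i)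
    (Finset.prod_ne_zero_iff.2 fun i _ => hm0 i), ha1, hb1, hne, funext hab, fun v φ => ?_⟩
  rw [funext hl, funext hmu]
  exact rescale v hGV lam mu hm0 _ _ φ

theorem gv_unit (Q : Plc F K F) {u : σ → Q.O} (h : (fun l => Q.ψ (u l)) ≠ 0) :
    (gv Q.O fun l => (u l : K)) = 1 := by
  obtain ⟨l, hl⟩ := Function.ne_iff.1 h
  exact gv_eq_one _ (fun l => (u l).2) ((val_psi Q _).2 hl)

theorem eqF_unit (Q : Plc F K F) {r : ℕ} {a' b' : Fin r → σ → Q.O}
    (h : ∀ i, (fun l => Q.ψ (a' i l)) ≠ 0)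
    (h' : (fun i l => Q.ψ (b' i l)) = fun i l => Q.ψ (a' i l)) (φ : K) :
    EqF Q.O φ (fun i l => (a' i l : K)) (fun i l => (b' i l : K)) ↔ Q.O.valuation φ = 1 := by
  have h2 : ∀ i, (fun l => Q.ψ (b' i l)) ≠ 0 := fun i => by rw [congrFun h' i]; exact h i
  simp only [EqF, gv_unit Q (h _), gv_unit Q (h2 _), Finset.prod_const_one, mul_one]

theorem exists_sep {Q Q' : Place κ F} (h : Q ≠ Q') : ∃ f : F, Q.Ge 0 f ∧ ¬ Q'.Ge 0 f := by
  by_contra hn
  push Not at hn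
  exact h (Place.ext_of_ge hn)

end main

end T28

open T28 in
theorem st_CBW (hGV : St_GV) (hTVR : St_TVR) (hSS1 : St_SS1) (hNRM : St_NRM) (hCORE : St_CORE) :
    St_CBW := by
  intro κ σ _ _ _ _ _ B F Ω₀ K _ _ _ _ _ _ _ _ _ _ hC D hD hLL r x c d a b φ hφ ha hb hgood P hred
  classical
  obtain ⟨Q, hG, hψ, hval⟩ := hTVR κ F Ω₀ K hC P
  choose e hce hde using hred
  choose cr dr hc hd her he using fun i => reps P (hce i) (hde i)
  have hin : ∀ V : ValuationSubring K, (∀ c' : Ω₀, algebraMap Ω₀ K c' ∈ V ↔ c' ∈ P.O) → Ov κ V :=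
    fun V hV t => by rw [IsScalarTower.algebraMap_apply κ Ω₀ K]; exact (hV _).2 (P.mem t)
  -- first normal form
  have hlaw : ∀ i, ∃ m, (ev2 (B.A m) (B.rp x) fun l => algebraMap κ F (P.ψ (cr i l))) ≠ 0 :=
    fun i => by
      obtain ⟨m, hm⟩ := (B.rep_rp x).exists_add ((her i).map (Algebra.ofId κ F))
      exact ⟨m, uni_iff_ne_zero.1 hm.uni⟩
  choose m hm using hlaw
  obtain ⟨a', b', t, ht, -, -, hne, hab, hn⟩ := norm hGV P Q hG hψ ha hb hc hd he (B.rep_rp x) m hm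
  obtain ⟨c₁, hc₁⟩ := hval (φ * t)
  have hc0 : c₁ ≠ 0 := by
    rintro rfl
    simp [hφ, ht] at hc₁
  have hc0' : algebraMap Ω₀ K c₁⁻¹ ≠ 0 := by simpa using hc0
  set φ₀ := φ * algebraMap Ω₀ K c₁⁻¹ with hφ₀
  have hv1 : Q.O.valuation (φ₀ * t) = 1 := by
    rw [hφ₀, mul_right_comm, map_mul, hc₁, ← map_mul, ← map_mul, mul_inv_cancel₀ hc0, map_one,
      map_one]
  have hW : EqF Q.O φ₀ a b := (hn _ _).2.2 ((eqF_unit Q hne hab _).2 hv1)
  have hcu : ∀ v : ValuationSubring K, Ov Ω₀ v → ∀ u : K, LeF v (φ * u) a b →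
      LeF v (φ₀ * u) a b := fun v hv u h => by
    have h1 : v.valuation (algebraMap Ω₀ K c₁⁻¹) = 1 :=
      val_one v (hv _) (by rw [← map_inv₀]; exact hv _) hc0'
    unfold LeF at h ⊢
    rwa [hφ₀, mul_right_comm, map_mul, h1, mul_one]
  have hΩ : ∀ (Q₀ : Place κ F) (c' : Ω₀), algebraMap Ω₀ K c' ∈ Q.comp Q₀.O ↔ c' ∈ P.O := by
    intro Q₀ c'
    rw [Plc.mem_comp]
    refine ⟨fun ⟨h, _⟩ => (hG.ovr _).1 h, fun h => ⟨(hG.ovr _).2 h, ?_⟩⟩
    rw [hψ ⟨c', h⟩]
    exact Place.mem_O.2 (Place.ge_const _)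
  have hF : ∀ (Q₀ : Place κ F) (f : F), algebraMap F K f ∈ Q.comp Q₀.O ↔ Q₀.Ge 0 f := by
    intro Q₀ f
    rw [Plc.mem_comp, ← Place.mem_O]
    exact ⟨fun ⟨h, h'⟩ => by rwa [Q.alg] at h', fun h => ⟨Q.mem f, by rwa [Q.alg]⟩⟩
  let φ₁ : Q.O := ⟨φ₀ * t, (Q.O.valuation_le_one_iff _).1 hv1.le⟩
  have hψ1 : Q.ψ φ₁ ≠ 0 := (val_psi Q φ₁).1 hv1
  have hne' : ∀ i, (fun l => Q.ψ (b' i l)) ≠ 0 := fun i => by rw [congrFun hab i]; exact hne i
  have hmem : Q.ψ φ₁ ∈ LL D := by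
    intro Q₀
    obtain ⟨u, hu0, hu⟩ := Q₀.exists_ord_eq (D Q₀)
    have huO : Q₀.Ge 0 u := Place.ge_of_le (hu ▸ hD Q₀)
    have hsep : ∀ Q' : Place κ F, ∃ f : F, Q₀.Ge 0 f ∧ (Q₀ ≠ Q' → ¬ Q'.Ge 0 f) := fun Q' => by
      by_cases h : Q₀ = Q'
      · exact ⟨0, Place.ge_zero _, fun h' => absurd h h'⟩
      · obtain ⟨f, h1, h2⟩ := exists_sep h
        exact ⟨f, h1, fun _ => h2⟩
    choose fs hfs1 hfs2 using hsep
    have h1 : LeF (Q.comp Q₀.O) (φ₀ * algebraMap F K u) a b := by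
      refine hSS1 κ σ B F Ω₀ K hC P.O Q.O _ P.mem hG (hΩ Q₀) (insert u (D.support.image fs)) ?_
        r r x c d a b _ ha hb ?_ ?_
      · intro f hf
        rw [hF]
        rcases Finset.mem_insert.1 hf with rfl | hf
        · exact huO
        · obtain ⟨Q', -, rfl⟩ := Finset.mem_image.1 hf
          exact hfs1 Q'
      · intro v hv hX
        have huv := hX u (Finset.mem_insert_self _ _)
        refine hcu v hv _ (hgood v u hv ⟨huv, fun Q' hQ' => ?_⟩)
        by_cases h : Q₀ = Q'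
        · subst h
          exact Place.ge_of_le hu.ge
        · by_cases h0 : D Q' = 0
          · rw [h0]; exact (hQ' u).1 huv
          · exact absurd ((hQ' _).1 (hX _ (Finset.mem_insert_of_mem (Finset.mem_image_of_mem fs
              (Finsupp.mem_support_iff.2 h0))))) (hfs2 Q' h)
      · unfold LeF
        rw [← hW, map_mul, mul_right_comm]
        exact mul_le_of_le_one_right' ((Q.O.valuation_le_one_iff _).2 (Q.mem u))
    have h2 := (hn _ _).1.1 h1
    rw [mul_right_comm] at h2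
    have h3 := (hGV.comp F K F σ r r Q Q₀.O (φ₁ * ⟨_, Q.mem u⟩) a' b' hne hne').1.1 h2
    rw [hab, (self_le _ hne).1, ValuationSubring.valuation_le_one_iff, Place.mem_O, map_mul,
      Q.alg, Algebra.algebraMap_self_apply] at h3
    have h4 := h3.le (mul_ne_zero hψ1 hu0)
    rw [Q₀.ord_mul hψ1 hu0] at h4
    exact Place.ge_of_le (by omega)
  have hconst : ∀ (Q₀ : Place κ F) (γ : κ), γ ≠ 0 → Q₀.O.valuation (algebraMap κ F γ) = 1 :=
    fun Q₀ γ hγ => val_one _ (Place.mem_O.2 (Place.ge_const _))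
      (by rw [← map_inv₀]; exact Place.mem_O.2 (Place.ge_const _)) (by simpa using hγ)
  have hE : ∀ Q₀ : Place κ F, EqF (Q.comp Q₀.O) φ₀ a b := fun Q₀ => by
    obtain ⟨γ, hγ⟩ := hLL _ hmem
    refine (hn _ _).2.2 (((hGV.comp F K F σ r r Q Q₀.O φ₁ a' b' hne hne').2 hψ1).2 ?_)
    rw [hab, (self_le _ hne).2, hγ]
    exact hconst Q₀ γ (by rintro rfl; exact hψ1 (by rw [hγ, map_zero]))
  refine ⟨Q, c₁⁻¹, hG, inv_ne_zero hc0, hW, fun Q₀ => ⟨hE Q₀, hΩ Q₀, hF Q₀⟩, fun V hV hVD => ?_⟩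
  -- second normal form, adapted to `V`
  clear hψ1 hmem hne' hn hab hne
  clear φ₁
  clear hv1 hc₁ ht hm
  clear a' b' t m
  have hx0 : (fun l => algebraMap F K (B.rp x l)) ≠ 0 :=
    uni_iff_ne_zero.1 ((B.rep_rp x).uni.map (algebraMap F K))
  obtain ⟨i0, hi0, -, hi⟩ := hGV.att K σ V _ hx0
  have hi0' : B.rp x i0 ≠ 0 := by simpa using hi0
  set xr : σ → F := (B.rp x i0)⁻¹ • B.rp x with hxr
  have hx : B.Rep x xr := (B.rep_rp x).smul (isUnit_iff_ne_zero.2 (inv_ne_zero hi0'))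
  have hxV : ∀ l, algebraMap F K (xr l) ∈ V := fun l => by
    have := hi l
    rwa [← map_div₀, div_eq_inv_mul] at this
  have hx1 : (gv V fun l => algebraMap F K (xr l)) = 1 :=
    gv_eq_one V hxV (j := i0) (by simp [hxr, hi0'])
  have hcr : ∀ i, (gv P.O fun l => (cr i l : Ω₀)) = 1 := fun i => by
    obtain ⟨l, hl⟩ := Function.ne_iff.1 (uni_iff_ne_zero.1 (her i).uni)
    exact gv_eq_one _ (fun l => (cr i l).2) ((val_psi P _).2 hl)
  choose m j hm1 hm2 hm3 using fun i =>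
    hNRM κ σ B F Ω₀ K P.O Q.O V P.mem hG hV x (c i) xr _ hx (hc i) hx1 (hcr i)
  have hm : ∀ i, (ev2 (B.A (m i)) xr fun l => algebraMap κ F (P.ψ (cr i l))) ≠ 0 := fun i => by
    obtain ⟨u, h1, h2⟩ := law P Q hG hψ (B.A (m i)) xr (cr i)
    rw [← h2]
    have h3 := hm3 i
    rw [← h1] at h3
    exact Function.ne_iff.2 ⟨j i, (val_psi Q _).1 h3⟩
  obtain ⟨a', b', t, ht, ha1, hb1, hne, hab, hn⟩ := norm hGV P Q hG hψ ha hb hc hd he hx m hm
  have hne' : ∀ i, (fun l => Q.ψ (b' i l)) ≠ 0 := fun i => by rw [congrFun hab i]; exact hne i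
  have hv1 : Q.O.valuation (φ₀ * t) = 1 := (eqF_unit Q hne hab _).1 ((hn _ _).2.1 hW)
  let φ₁ : Q.O := ⟨φ₀ * t, (Q.O.valuation_le_one_iff _).1 hv1.le⟩
  have hψ1 : Q.ψ φ₁ ≠ 0 := (val_psi Q φ₁).1 hv1
  obtain ⟨γ, hγ⟩ : ∃ γ : κ, Q.ψ φ₁ = algebraMap κ F γ := hLL _ fun Q₀ => by
    have h3 := ((hGV.comp F K F σ r r Q Q₀.O φ₁ a' b' hne hne').2 hψ1).1 ((hn _ _).2.1 (hE Q₀))
    rw [hab, (self_le _ hne).2] at h3
    exact (Place.mem_O.1 ((Q₀.O.valuation_le_one_iff _).1 h3.le)).mono (by have := hD Q₀; omega)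
  have hγ0 : γ ≠ 0 := by rintro rfl; exact hψ1 (by rw [hγ, map_zero])
  have hκV := hin V hV
  have hmax : ∀ p : Ω₀, Q.O.valuation (algebraMap Ω₀ K p) < 1 →
      V.valuation (algebraMap Ω₀ K p) < 1 := fun p hp => by
    by_cases h0 : p = 0
    · simp [h0]
    · have h1 := inv_not_mem Q.O (by simpa using h0) hp
      refine val_lt_one V fun h => h1 ?_
      rw [← map_inv₀] at h ⊢
      exact (hG.ovr _).2 ((hV _).1 h)
  have hav : ∀ (v : ValuationSubring K), Ov κ v → (∀ l, algebraMap F K (xr l) ∈ v) →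
      (∀ p : P.O, algebraMap Ω₀ K p ∈ v) → ∀ i l, (a' i l : K) ∈ v ∧ (b' i l : K) ∈ v :=
    fun v h1 h2 h3 i l => ⟨by
      rw [congrFun (ha1 i) l]; exact aeval_mem h1 (elim_mem h2 fun l => h3 _) _, by
      rw [congrFun (hb1 i) l]; exact aeval_mem h1 (elim_mem h2 fun l => h3 _) _⟩
  have hPV : ∀ p : P.O, algebraMap Ω₀ K p ∈ V := fun p => (hV _).2 p.2
  have haj : ∀ i, V.valuation (a' i (j i) : K) = 1 := fun i => by
    rw [congrFun (ha1 i) (j i)]; exact hm2 i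
  have hbj : ∀ i, V.valuation (b' i (j i) : K) = 1 := fun i => by
    have h1 : V.valuation ((b' i (j i) : K) - a' i (j i)) < 1 := by
      rw [congrFun (ha1 i) (j i), congrFun (hb1 i) (j i)]
      refine aeval_sub_lt hκV (elim_mem hxV fun l => hPV _) (elim_mem hxV fun l => hPV _)
        (fun s => ?_) _
      cases s with
      | inl l => simp
      | inr l =>
        change V.valuation (algebraMap Ω₀ K (dr i l) - algebraMap Ω₀ K (cr i l)) < 1
        rw [← map_sub]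
        refine hmax _ (lt_of_le_of_ne ((Q.O.valuation_le_one_iff _).2
          ((hG.ovr _).2 (dr i l - cr i l).2)) fun h => ?_)
        have h2 := (val_psi Q ⟨_, (hG.ovr _).2 (dr i l - cr i l).2⟩).1 h
        rw [hψ, map_sub, he, sub_self, map_zero] at h2
        exact h2 rfl
    rw [← haj i] at h1 ⊢
    exact Valuation.map_eq_of_sub_lt _ h1
  refine (hn _ _).2.2 ?_
  unfold EqF
  simp only [fun i => gv_eq_one V (fun l => (hav V hκV hxV hPV i l).1) (haj i),
    fun i => gv_eq_one V (fun l => (hav V hκV hxV hPV i l).2) (hbj i), Finset.prod_const_one,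
    mul_one]
  have hγV : V.valuation (algebraMap κ K γ) = 1 :=
    val_one V (hκV _) (by rw [← map_inv₀]; exact hκV _) (by simpa using hγ0)
  suffices h : V.valuation (φ₀ * t - algebraMap κ K γ) < 1 by
    rw [← hγV] at h ⊢
    exact Valuation.map_eq_of_sub_lt _ h
  by_cases h0 : φ₀ * t - algebraMap κ K γ = 0
  · simp [h0]
  obtain ⟨p, hp⟩ := hval (φ₀ * t - algebraMap κ K γ)
  have hp0 : algebraMap Ω₀ K p ≠ 0 := fun h => h0 (by simpa [h] using hp)
  have hp1 : Q.O.valuation (algebraMap Ω₀ K p) < 1 := by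
    rw [← hp, IsScalarTower.algebraMap_apply κ F K]
    refine lt_of_le_of_ne ((Q.O.valuation_le_one_iff _).2 (φ₁ - ⟨_, Q.mem _⟩).2) fun h => ?_
    have h2 := (val_psi Q (φ₁ - ⟨_, Q.mem (algebraMap κ F γ)⟩)).1 h
    rw [map_sub, Q.alg, hγ] at h2
    exact h2 (sub_self _)
  have hsep : ∀ Q' : Place κ F, ∃ f : F, algebraMap F K f ∈ V ∧ (D Q' ≠ 0 → ¬ Q'.Ge 0 f) := by
    intro Q'
    by_contra hcon
    push Not at hcon
    obtain ⟨ξ, hξ⟩ := hC.coord
    obtain ⟨Q'', hQ''⟩ := Pool.Agent.Lib.PK1.FF.exists_place hξ (V.comap (algebraMap F K))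
      (fun h => by
        obtain ⟨f, hf0, hf⟩ := Q'.exists_ord_eq (-1)
        have h1 : f ∈ V.comap (algebraMap F K) := h ▸ ValuationSubring.mem_top f
        have := (hcon f h1).2.le hf0
        omega)
      (fun t => by
        change algebraMap F K _ ∈ V
        rw [← IsScalarTower.algebraMap_apply]; exact hκV t)
    have h1 : ∀ f : F, algebraMap F K f ∈ V ↔ Q''.Ge 0 f := fun f => by
      rw [← Place.mem_O, hQ'']; rfl
    have h2 : Q'' = Q' := Place.ext_of_ge fun f hf => (hcon f ((h1 f).2 hf)).2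
    exact (hcon 0 (by simp)).1 (h2 ▸ hVD Q'' h1)
  choose fs hfs1 hfs2 using hsep
  set s : K := ∏ i, (a' i (j i) : K) with hs
  have hsV : V.valuation s = 1 := by simp only [hs, map_prod, haj, Finset.prod_const_one]
  have hz : s * (φ₀ * t - algebraMap κ K γ) / algebraMap Ω₀ K p ∈ V := by
    refine hCORE κ F Ω₀ K hC P.O Q.O V P.mem hG (fun c' h => (hV _).2 h)
      (Finset.univ.image xr ∪ D.support.image fs) ?_ _ ?_ ?_
    · intro f hf
      rcases Finset.mem_union.1 hf with hf | hf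
      · obtain ⟨l, -, rfl⟩ := Finset.mem_image.1 hf
        exact hxV l
      · obtain ⟨Q', -, rfl⟩ := Finset.mem_image.1 hf
        exact hfs1 Q'
    · rw [mul_div_assoc]
      refine mul_mem (prod_mem fun i _ => (a' i (j i)).2) ?_
      rw [← ValuationSubring.valuation_le_one_iff, map_div₀, hp, div_self (by simpa using hp0)]
    · intro v hv hX
      have hκv : Ov κ v := fun t => by rw [IsScalarTower.algebraMap_apply κ Ω₀ K]; exact hv _
      have hab' := hav v hκv (fun l => hX _ (Finset.mem_union_left _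
        (Finset.mem_image_of_mem xr (Finset.mem_univ l)))) fun p => hv _
      have h1 : LeF v (φ * algebraMap F K 1) a b := by
        refine hgood v 1 hv ⟨by simp, fun Q' hQ' => ?_⟩
        by_cases h0 : D Q' = 0
        · rw [h0]; exact Place.ge_one
        · exact absurd ((hQ' _).1 (hX _ (Finset.mem_union_right _ (Finset.mem_image_of_mem fs
            (Finsupp.mem_support_iff.2 h0))))) (hfs2 Q' h0)
      have h2 := hcu v hv _ h1
      rw [map_one, mul_one] at h2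
      have h3 : s * (φ₀ * t) ∈ v := by
        rw [← ValuationSubring.valuation_le_one_iff, map_mul, mul_comm, hs, map_prod]
        refine le_trans (mul_le_mul_right (Finset.prod_le_prod' fun i _ =>
          le_gv v (fun l => (a' i l : K)) (j i)) _) (le_trans ((hn _ _).1.1 h2) ?_)
        exact Finset.prod_le_one' fun i _ => gv_le_one v fun l => (hab' i l).2
      rw [div_eq_mul_inv, ← map_inv₀, mul_sub]
      exact mul_mem (sub_mem h3 (mul_mem (prod_mem fun i _ => (hab' i _).1) (hκv γ))) (hv _)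
  rw [← ValuationSubring.valuation_le_one_iff, map_div₀, map_mul, hsV, one_mul,
    div_le_one₀ (zero_lt_iff.2 (by simpa using hp0))] at hz
  exact lt_of_le_of_lt hz (hmax p hp1)

end D4C
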