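import Pool.Agent.Lib.D4C.Iface

namespace D4C

open MvPolynomial

namespace T51

section lam

variable {k Ω τ : Type} [Field k] [Field Ω] [Algebra k Ω]

/-- a linear functional applied to all coefficients -/
noncomputable def lam (f : Ω →ₗ[k] k) (H : MvPolynomial τ Ω) : MvPolynomial τ k :=
  ∑ d ∈ H.support, monomial d (f (coeff d H))

theorem coeff_lam (f : Ω →ₗ[k] k) (H : MvPolynomial τ Ω) (d : τ →₀ ℕ) :
    coeff d (lam f H) = f (coeff d H) := by
  classical
  unfold lam
  rw [coeff_sum]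
  simp only [coeff_monomial]
  rw [Finset.sum_ite_eq']
  split_ifs with h
  · rfl
  · rw [notMem_support_iff.mp h, map_zero]

theorem lam_add (f : Ω →ₗ[k] k) (H H' : MvPolynomial τ Ω) : lam f (H + H') = lam f H + lam f H' :=
  MvPolynomial.ext _ _ fun d => by simp only [coeff_lam, coeff_add, map_add]

theorem lam_zero (f : Ω →ₗ[k] k) : lam f (0 : MvPolynomial τ Ω) = 0 :=
  MvPolynomial.ext _ _ fun d => by simp only [coeff_lam, coeff_zero, map_zero]

theorem lam_C (f : Ω →ₗ[k] k) (c : Ω) : lam f (C c : MvPolynomial τ Ω) = C (f c) := by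
  classical
  refine MvPolynomial.ext _ _ fun d => ?_
  simp only [coeff_lam, coeff_C]
  split_ifs <;> simp

theorem lam_mul (f : Ω →ₗ[k] k) (H : MvPolynomial τ Ω) (G : MvPolynomial τ k) :
    lam f (H * MvPolynomial.map (algebraMap k Ω) G) = lam f H * G := by
  classical
  refine MvPolynomial.ext _ _ fun d => ?_
  simp only [coeff_lam, coeff_mul, map_sum, coeff_map]
  refine Finset.sum_congr rfl fun p _ => ?_
  rw [mul_comm, ← Algebra.smul_def, map_smul, smul_eq_mul, mul_comm]

theorem lam_mem (f : Ω →ₗ[k] k) {q : Ideal (MvPolynomial τ k)} {F : MvPolynomial τ Ω}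
    (hF : F ∈ ext q Ω) : lam f F ∈ q := by
  have : ∀ H, lam f (H * F) ∈ q := by
    induction hF using Submodule.span_induction with
    | mem G hG =>
      obtain ⟨G, hG, rfl⟩ := hG
      intro H
      rw [lam_mul]
      exact q.mul_mem_left _ hG
    | zero => intro H; rw [mul_zero, lam_zero]; exact q.zero_mem
    | add a b _ _ ha hb => intro H; rw [mul_add, lam_add]; exact q.add_mem (ha H) (hb H)
    | smul a b _ hb => intro H; rw [smul_eq_mul, ← mul_assoc]; exact hb _
  simpa using this 1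

theorem lam_aeval {ι : Type} (f : Ω →ₗ[k] k) (g : ι → MvPolynomial τ k) (P : MvPolynomial ι Ω) :
    lam f (aeval (fun i => MvPolynomial.map (algebraMap k Ω) (g i)) P) = aeval g (lam f P) := by
  induction P using MvPolynomial.induction_on with
  | C c => rw [aeval_C, algebraMap_eq, lam_C, lam_C, aeval_C, algebraMap_eq]
  | add p q hp hq => rw [map_add, lam_add, lam_add, map_add, hp, hq]
  | mul_X p i hp =>
    rw [map_mul, aeval_X, lam_mul, hp, ← map_X (algebraMap k Ω) i, lam_mul, map_mul, aeval_X]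

theorem eq_zero_of_lam {P : MvPolynomial τ Ω} (h : ∀ f : Ω →ₗ[k] k, lam f P = 0) : P = 0 :=
  MvPolynomial.ext _ _ fun d => (Module.forall_dual_apply_eq_zero_iff k _).mp fun f => by
    rw [← coeff_lam, h f, coeff_zero]

/-- an ideal is the contraction of its extension -/
theorem map_mem_ext_iff {q : Ideal (MvPolynomial τ k)} {G : MvPolynomial τ k} :
    MvPolynomial.map (algebraMap k Ω) G ∈ ext q Ω ↔ G ∈ q := by
  refine ⟨fun h => ?_, fun h => Ideal.mem_map_of_mem _ h⟩
  obtain ⟨f, hf⟩ : ∃ f : Ω →ₗ[k] k, f 1 ≠ 0 := by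
    by_contra! hn
    exact one_ne_zero ((Module.forall_dual_apply_eq_zero_iff k (1 : Ω)).mp hn)
  have h1 := lam_mem f h
  rw [← one_mul (MvPolynomial.map (algebraMap k Ω) G), lam_mul, ← C_1, lam_C] at h1
  have h2 := q.mul_mem_left (C (f 1)⁻¹) h1
  rwa [← mul_assoc, ← C_mul, inv_mul_cancel₀ hf, C_1, one_mul] at h2

/-- algebraic independence modulo an ideal survives extension of the base field -/
theorem algInd_ext {ι : Type} {q : Ideal (MvPolynomial τ k)} {g : ι → MvPolynomial τ k}
    (h : AlgebraicIndependent k fun i => Ideal.Quotient.mk q (g i)) :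
    AlgebraicIndependent Ω fun i =>
      Ideal.Quotient.mk (ext q Ω) (MvPolynomial.map (algebraMap k Ω) (g i)) := by
  rw [algebraicIndependent_iff] at h ⊢
  intro P hP
  have h1 := (aeval_map_alg (Ideal.Quotient.mkₐ Ω (ext q Ω))
    (fun i => MvPolynomial.map (algebraMap k Ω) (g i)) P).symm.trans hP
  refine eq_zero_of_lam (k := k) fun f => h _ ?_
  have h2 := lam_mem f (Ideal.Quotient.eq_zero_iff_mem.mp h1)
  rw [lam_aeval] at h2
  exact (aeval_map_alg (Ideal.Quotient.mkₐ k q) g _).trans (Ideal.Quotient.eq_zero_iff_mem.mpr h2)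

end lam

variable {k σ : Type} [Field k]

theorem exists_basis (q : Ideal (MvPolynomial σ k)) [q.IsPrime] :
    ∃ (ι : Type) (g : ι → MvPolynomial σ k),
      IsTranscendenceBasis k fun i => Ideal.Quotient.mk q (g i) := by
  obtain ⟨ι, x, hx⟩ := @exists_isTranscendenceBasis' k (MvPolynomial σ k ⧸ q) _ _ _
    ((faithfulSMul_iff_algebraMap_injective k (MvPolynomial σ k ⧸ q)).mpr (algebraMap k _).injective)
  choose g hg using fun i => Ideal.Quotient.mk_surjective (x i)
  exact ⟨ι, g, by simpa only [hg] using hx⟩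

theorem cd_ext (q : Ideal (MvPolynomial σ k)) [q.IsPrime] (Ω : Type) [Field Ω] [Algebra k Ω]
    [(ext q Ω).IsPrime] : cd (ext q Ω) = cd q := by
  obtain ⟨ι, g, hg⟩ := exists_basis q
  have hi := algInd_ext (Ω := Ω) hg.1
  unfold cd
  rw [← hg.cardinalMk_eq_trdeg]
  refine (IsTranscendenceBasis.cardinalMk_eq_trdeg
    (hi.isTranscendenceBasis_iff_isAlgebraic.mpr ?_)).symm
  set S := Algebra.adjoin k (Set.range fun i => Ideal.Quotient.mk q (g i))
  set S' := Algebra.adjoin Ω (Set.range fun i =>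
    Ideal.Quotient.mk (ext q Ω) (MvPolynomial.map (algebraMap k Ω) (g i)))
  let ψ : (MvPolynomial σ k ⧸ q) →+* (MvPolynomial σ Ω ⧸ ext q Ω) :=
    Ideal.quotientMap _ (MvPolynomial.map (algebraMap k Ω)) Ideal.le_comap_map
  have hψ : ∀ G, ψ (Ideal.Quotient.mk q G) =
      Ideal.Quotient.mk (ext q Ω) (MvPolynomial.map (algebraMap k Ω) G) := fun G => rfl
  have hinj : Function.Injective ψ := Ideal.quotientMap_injective' fun G hG => map_mem_ext_iff.mp hG
  have hS : ∀ a ∈ S, ψ a ∈ S' := fun a ha => by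
    induction ha using Algebra.adjoin_induction with
    | mem a ha =>
      obtain ⟨i, rfl⟩ := ha
      exact Algebra.subset_adjoin ⟨i, rfl⟩
    | algebraMap c =>
      have : ψ (algebraMap k _ c) = algebraMap Ω _ (algebraMap k Ω c) := by
        change ψ (Ideal.Quotient.mk q (C c)) = Ideal.Quotient.mk _ (C _)
        rw [hψ, map_C]
      rw [this]
      exact S'.algebraMap_mem _
    | add a b _ _ ha hb => rw [map_add]; exact add_mem ha hb
    | mul a b _ _ ha hb => rw [map_mul]; exact mul_mem ha hb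
  let ψ0 : S →+* S' := (ψ.comp S.subtype).codRestrict S' fun a => hS a a.2
  have hinj0 : Function.Injective ψ0 := fun a b h =>
    Subtype.ext (hinj (congrArg Subtype.val h))
  have alg : ∀ a, IsAlgebraic S' (ψ a) := fun a =>
    (hg.isAlgebraic.isAlgebraic a).ringHom_of_comp_eq ψ0 ψ hinj0 rfl
  refine ⟨fun a => ?_⟩
  obtain ⟨F, rfl⟩ := Ideal.Quotient.mk_surjective a
  induction F using MvPolynomial.induction_on with
  | C c => exact isAlgebraic_algebraMap (⟨_, S'.algebraMap_mem c⟩ : S')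
  | add p q hp hq => rw [map_add]; exact hp.add hq
  | mul_X p i hp =>
    rw [map_mul]
    refine hp.mul ?_
    rw [← map_X (algebraMap k Ω) i, ← hψ]
    exact alg _

theorem cd_lt_aleph0 [Finite σ] (q : Ideal (MvPolynomial σ k)) : cd q < Cardinal.aleph0 :=
  trdeg_lt_aleph0_of_finiteType

theorem cd_succ_le {q q' : Ideal (MvPolynomial σ k)} [q.IsPrime] [q'.IsPrime] (h : q < q') :
    cd q' + 1 ≤ cd q := by
  obtain ⟨ι, g, hg⟩ := exists_basis q'
  obtain ⟨a, ha', ha⟩ := SetLike.exists_of_lt h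
  let π : (MvPolynomial σ k ⧸ q) →ₐ[k] (MvPolynomial σ k ⧸ q') := Ideal.Quotient.factorₐ k h.le
  have hπ : ∀ G, π (Ideal.Quotient.mk q G) = Ideal.Quotient.mk q' G := fun G => rfl
  have h1 : AlgebraicIndependent k fun i => Ideal.Quotient.mk q (g i) :=
    AlgebraicIndependent.of_comp π hg.1
  have h2 : AlgebraicIndependent k fun o : Option ι =>
      o.elim (Ideal.Quotient.mk q a) fun i => Ideal.Quotient.mk q (g i) := by
    rw [h1.option_iff_transcendental]
    intro alg
    obtain ⟨r, hr, c, hc⟩ := alg.exists_nonzero_dvd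
      (mem_nonZeroDivisors_of_ne_zero fun h0 => ha (Ideal.Quotient.eq_zero_iff_mem.mp h0))
    obtain ⟨P, hP⟩ : ∃ P : MvPolynomial ι k,
        aeval (fun i => Ideal.Quotient.mk q (g i)) P = r.1 := by
      exact (Algebra.adjoin_range_eq_range_aeval k _).le r.2
    have h3 : π r.1 = 0 := by
      rw [show r.1 = Ideal.Quotient.mk q a * c from hc, map_mul, hπ,
        Ideal.Quotient.eq_zero_iff_mem.mpr ha', zero_mul]
    rw [← hP, ← aeval_map_alg] at h3
    have h4 : P = 0 := algebraicIndependent_iff.mp hg.1 P h3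
    exact hr (Subtype.ext (by rw [← hP, h4, map_zero]; rfl))
  have h3 := h2.cardinalMk_le_trdeg
  rw [Cardinal.mk_option, hg.cardinalMk_eq_trdeg] at h3
  exact h3

end T51

open T51 in
theorem st_DIM : St_DIM := by
  intro k σ _ _ q hq
  refine ⟨Cardinal.lt_aleph0.mp (cd_lt_aleph0 q), fun Ω _ _ h => cd_ext q Ω, fun q' hq' h => ?_⟩
  refine lt_of_lt_of_le ?_ (cd_succ_le h)
  obtain ⟨n, hn⟩ := Cardinal.lt_aleph0.mp (cd_lt_aleph0 q')
  rw [hn]
  exact_mod_cast Nat.lt_succ_self n

end D4C
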