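import Pool.Agent.Lib.D4C.Iface

namespace D4C

open MvPolynomial

namespace T51

variable {k σ Ω : Type} [Field k] [Field Ω] [Algebra k Ω]

attribute [local instance] MvPolynomial.gradedAlgebra in
theorem isHom_loc (x : σ → Ω) : IsHom (loc k x) := by
  rw [isHom_iff]
  apply Ideal.homogeneous_span
  rintro F ⟨⟨n, hn⟩, _⟩
  exact ⟨n, hn⟩

theorem zr_loc (x : σ → Ω) : Zr (loc k x) x := by
  intro F hF
  have : loc k x ≤ RingHom.ker (aeval x : MvPolynomial σ k →ₐ[k] Ω) :=
    Ideal.span_le.mpr fun G hG => hG.2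
  exact this hF

theorem mem_loc_iff (x : σ → Ω) (F : MvPolynomial σ k) :
    F ∈ loc k x ↔ ∀ n, aeval x (homogeneousComponent n F) = 0 := by
  refine ⟨fun h n => zr_loc x _ (isHom_loc x F h n), fun h => ?_⟩
  rw [← sum_homogeneousComponent F]
  exact Ideal.sum_mem _ fun n _ =>
    Ideal.subset_span ⟨⟨n, homogeneousComponent_isHomogeneous n F⟩, h n⟩

/-- the generic point of the cone over a point -/
noncomputable def cone (k : Type) [Field k] {R : Type} [CommRing R] [Algebra k R] (y : σ → R) :
    MvPolynomial σ k →ₐ[k] Polynomial R := aeval fun i => Polynomial.X * Polynomial.C (y i)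

theorem coeff_cone {R : Type} [CommRing R] [Algebra k R] (y : σ → R) (F : MvPolynomial σ k)
    (n : ℕ) : (cone k y F).coeff n = aeval y (homogeneousComponent n F) := by
  have key : ∀ m, cone k y (homogeneousComponent m F) =
      Polynomial.X ^ m * Polynomial.C (aeval y (homogeneousComponent m F)) := fun m => by
    have h1 := aeval_smul_hom (homogeneousComponent_isHomogeneous m F) (Polynomial.X : Polynomial R)
      (fun i => Polynomial.C (y i))
    have h2 := aeval_map_alg ((Polynomial.CAlgHom : R →ₐ[R] Polynomial R).restrictScalars k) y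
      (homogeneousComponent m F)
    exact h1.trans (congrArg (Polynomial.X ^ m * ·) h2)
  conv_lhs => rw [← sum_homogeneousComponent F, map_sum, Polynomial.finsetSum_coeff]
  simp only [key, Polynomial.X_pow_mul, Polynomial.coeff_C_mul_X_pow]
  rw [Finset.sum_ite_eq]
  split_ifs with h
  · rfl
  · rw [homogeneousComponent_eq_zero n F (by simpa using h), map_zero]

theorem loc_eq_ker {R : Type} [CommRing R] [Algebra k R] (f : R →ₐ[k] Ω)
    (hf : Function.Injective f) (x : σ → Ω) (y : σ → R) (c : Ω) (hc : c ≠ 0)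
    (h : (fun i => f (y i)) = c • x) : loc k x = RingHom.ker (cone k y) := by
  ext F
  rw [mem_loc_iff, RingHom.mem_ker, Polynomial.ext_iff]
  refine forall_congr' fun n => ?_
  rw [coeff_cone, Polynomial.coeff_zero, ← map_eq_zero_iff f hf, ← aeval_map_alg, h,
    aeval_smul_hom (homogeneousComponent_isHomogeneous n F), mul_eq_zero,
    or_iff_right (pow_ne_zero n hc)]

theorem prime_loc (x : σ → Ω) : (loc k x).IsPrime := by
  rw [loc_eq_ker (AlgHom.id k Ω) Function.injective_id x x 1 one_ne_zero (one_smul _ _).symm]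
  exact RingHom.ker_isPrime _

theorem pgen_loc {x : σ → Ω} (hx : x ≠ 0) : PGen (loc k x) x :=
  ⟨hx, fun F n hF => ⟨fun h => Ideal.subset_span ⟨⟨n, hF⟩, h⟩, zr_loc x F⟩⟩

theorem cd_loc {x : σ → Ω} (hx : x ≠ 0) : cd (loc k x) = Algebra.trdeg k
    (IntermediateField.adjoin k (Set.range fun ij : σ × σ => x ij.1 / x ij.2)) + 1 := by
  obtain ⟨j, hj⟩ := Function.ne_iff.mp hx
  have hj : x j ≠ 0 := hj
  set K := IntermediateField.adjoin k (Set.range fun ij : σ × σ => x ij.1 / x ij.2) with hK
  let y : σ → K := fun i => ⟨x i / x j, IntermediateField.subset_adjoin _ _ ⟨(i, j), rfl⟩⟩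
  have h1 : loc k x = RingHom.ker (cone k y) :=
    loc_eq_ker K.val Subtype.val_injective x y (x j)⁻¹ (inv_ne_zero hj)
      (funext fun i => div_eq_inv_mul _ _)
  set A := (cone k y).range
  have hA : ∀ i, IsAlgebraic A (Polynomial.X * Polynomial.C (y i)) := fun i =>
    isAlgebraic_algebraMap (⟨_, X i, aeval_X _ i⟩ : A)
  have hX : IsAlgebraic A (Polynomial.X : Polynomial K) := by
    have := hA j
    rwa [show y j = 1 from Subtype.ext (div_self hj), map_one, mul_one] at this
  have hy : ∀ i, IsAlgebraic A (Polynomial.C (y i)) := fun i =>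
    IsAlgebraic.of_mul (mem_nonZeroDivisors_of_ne_zero Polynomial.X_ne_zero) hX (hA i)
  have hinv : ∀ c : K, IsAlgebraic A (Polynomial.C c) → IsAlgebraic A (Polynomial.C c⁻¹) :=
    fun c hc => by
      by_cases h0 : c = 0
      · rwa [h0, inv_zero, ← h0]
      · refine IsAlgebraic.of_mul (mem_nonZeroDivisors_of_ne_zero (Polynomial.C_ne_zero.mpr h0))
          hc ?_
        rw [← map_mul, mul_inv_cancel₀ h0, map_one]
        exact isAlgebraic_one
  have hC : ∀ (c : Ω) (hc : c ∈ K), IsAlgebraic A (Polynomial.C (⟨c, hc⟩ : K)) := fun c hc => by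
    induction hc using IntermediateField.adjoin_induction with
    | mem c hc =>
      obtain ⟨⟨a, b⟩, rfl⟩ := hc
      have h2 := (hy a).mul (hinv _ (hy b))
      rw [← map_mul] at h2
      refine (congrArg (fun t => IsAlgebraic A (Polynomial.C t)) (Subtype.ext ?_)).mp h2
      change x a / x j * (x b / x j)⁻¹ = x a / x b
      rw [inv_div, div_mul_div_cancel₀ hj]
    | algebraMap c => exact isAlgebraic_algebraMap (algebraMap k A c)
    | add a b ha hb h2 h3 =>
      have := h2.add h3
      rwa [← map_add] at this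
    | inv a ha h2 => exact hinv _ h2
    | mul a b ha hb h2 h3 =>
      have := h2.mul h3
      rwa [← map_mul] at this
  have alg : Algebra.IsAlgebraic A (Polynomial K) := ⟨fun p => by
    induction p using Polynomial.induction_on' with
    | add p q hp hq => exact hp.add hq
    | monomial n c =>
      rw [← Polynomial.C_mul_X_pow_eq_monomial]
      exact (hC c.1 c.2).mul (hX.pow n)⟩
  have e1 : Algebra.trdeg k A + Algebra.trdeg A (Polynomial K) = Algebra.trdeg k (Polynomial K) :=
    trdeg_add_eq k A
  have e2 : Algebra.trdeg k K + Algebra.trdeg K (Polynomial K) = Algebra.trdeg k (Polynomial K) :=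
    trdeg_add_eq k K
  rw [trdeg_eq_zero (R := A), add_zero] at e1
  rw [Polynomial.trdeg_of_isDomain] at e2
  rw [e2, ← e1, h1]
  exact (Ideal.quotientKerEquivRange (cone k y)).trdeg_eq

end T51

open T51 in
theorem st_LOC : St_LOC := fun _ _ _ _ _ _ _ x hx =>
  ⟨isHom_loc x, prime_loc x, pgen_loc hx, zr_loc x, cd_loc hx⟩

end D4C
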