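import Pool.Agent.Lib.D4C.BlueF
import Pool.Agent.Lib.D4C.B_LOC
import Pool.Agent.Lib.D4C.B_DIM

/-! CEX: a curve through a point that is not contained in a given hypersurface. -/

namespace D4C

open MvPolynomial

namespace T7

/-- an affine curve through a rational point avoiding a nonzero function -/
theorem exists_curve {κ R : Type} [Field κ] [Infinite κ] [CommRing R] [IsDomain R] [Algebra κ R]
    [Algebra.FiniteType κ R] (ev : R →ₐ[κ] κ) (g : R) (hg : g ≠ 0) :
    ∃ P : Ideal R, P.IsPrime ∧ P ≤ RingHom.ker ev ∧ g ∉ P ∧ Algebra.trdeg κ (R ⧸ P) ≤ 1 := by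
  obtain ⟨s, φ, hinj, hint⟩ := exists_integral_inj_algHom_of_fg κ R
  let A := MvPolynomial (Fin s) κ
  let inst : Algebra A R := φ.toRingHom.toAlgebra
  have : IsScalarTower κ A R := IsScalarTower.of_algebraMap_eq fun c => (φ.commutes c).symm
  have : Algebra.IsIntegral A R := ⟨hint⟩
  have : FaithfulSMul A R := (faithfulSMul_iff_algebraMap_injective A R).mpr hinj
  obtain ⟨a0, ha0, ha0'⟩ := Submodule.exists_mem_ne_zero_of_ne_bot
    (Ideal.comap_ne_bot_of_integral_mem hg (Ideal.mem_span_singleton_self g)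
      (Algebra.IsIntegral.isIntegral (R := A) g))
  obtain ⟨b, hb⟩ : ∃ b : Fin s → κ, eval b a0 ≠ 0 := by
    by_contra hc
    push Not at hc
    exact ha0' (MvPolynomial.funext fun b => by rw [hc b, map_zero])
  let lam : A →ₐ[κ] Polynomial κ := aeval fun i =>
    Polynomial.C (ev (φ (X i))) + Polynomial.X * Polynomial.C (b i - ev (φ (X i)))
  have h0 : (Polynomial.aeval (0 : κ)).comp lam = ev.comp φ := by
    apply MvPolynomial.algHom_ext
    intro i
    simp [lam]
  have h1 : (Polynomial.aeval (1 : κ)).comp lam = aeval b := by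
    apply MvPolynomial.algHom_ext
    intro i
    simp [lam]
  let p : Ideal A := RingHom.ker lam
  have hp : p.IsPrime := RingHom.ker_isPrime _
  have hM : (RingHom.ker ev).IsPrime := RingHom.ker_isPrime _
  obtain ⟨P, hP1, hP2, hP3⟩ := Ideal.exists_ideal_le_liesOver_of_le (p := p)
    (q := (RingHom.ker ev).under A) (RingHom.ker ev) (by
      intro a ha
      have h2 := DFunLike.congr_fun h0 a
      rw [AlgHom.comp_apply, RingHom.mem_ker.mp ha, map_zero] at h2
      exact h2.symm)
  refine ⟨P, hP2, hP1, fun hgP => hb ?_, ?_⟩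
  · have h2 : a0 ∈ p := by
      rw [P.over_def p]
      exact (Ideal.span_singleton_le_iff_mem P).mpr hgP ha0
    have h3 := DFunLike.congr_fun h1 a0
    rw [AlgHom.comp_apply, RingHom.mem_ker.mp h2, map_zero] at h3
    exact h3.symm
  · have : Algebra.IsIntegral (A ⧸ p) (R ⧸ P) := ⟨fun x => by
      obtain ⟨x, rfl⟩ := Ideal.Quotient.mk_surjective x
      have h2 : IsIntegral A (Ideal.Quotient.mk P x) :=
        (Algebra.IsIntegral.isIntegral (R := A) x).map (Ideal.Quotient.mkₐ A P)
      exact h2.tower_top⟩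
    rw [← trdeg_add_eq κ (A ⧸ p), trdeg_eq_zero (R := A ⧸ p), add_zero,
      ← Polynomial.trdeg_of_isDomain (R := κ)]
    exact trdeg_le_of_injective (Ideal.kerLiftAlg lam) (Ideal.kerLiftAlg_injective lam)

theorem trdeg_frac (κ R : Type) [Field κ] [CommRing R] [IsDomain R] [Algebra κ R] :
    Algebra.trdeg κ (FractionRing R) = Algebra.trdeg κ R := by
  have : Algebra.IsAlgebraic R (FractionRing R) := IsLocalization.isAlgebraic _ (nonZeroDivisors R)
  rw [← trdeg_add_eq κ R (A := FractionRing R), trdeg_eq_zero (R := R), add_zero]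

end T7

theorem st_CEX : St_CEX := by
  intro κ σ _ _ _ I o G d hI hhom ho hz hG hGI hGo
  obtain ⟨P, hP, hPo, hGP, hd⟩ := T7.exists_curve (Ideal.Quotient.liftₐ I (aeval o) hz)
    (Ideal.Quotient.mk I G) fun h => hGI (Ideal.Quotient.eq_zero_iff_mem.mp h)
  let Ω := FractionRing ((MvPolynomial σ κ ⧸ I) ⧸ P)
  let ψ : MvPolynomial σ κ →ₐ[κ] Ω := (IsScalarTower.toAlgHom κ _ Ω).comp
    ((Ideal.Quotient.mkₐ κ P).comp (Ideal.Quotient.mkₐ κ I))
  let x : σ → Ω := fun i => ψ (X i)
  have hx : ∀ F, aeval x F = 0 ↔ Ideal.Quotient.mk I F ∈ P := fun F => by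
    have e : aeval x F = ψ F := (DFunLike.congr_fun (aeval_unique ψ) F).symm
    rw [← Ideal.Quotient.eq_zero_iff_mem, e]
    exact map_eq_zero_iff (algebraMap ((MvPolynomial σ κ ⧸ I) ⧸ P) Ω)
      (IsFractionRing.injective ((MvPolynomial σ κ ⧸ I) ⧸ P) Ω)
  have hxo : ∀ F, aeval x F = 0 → aeval o F = 0 := fun F h => hPo ((hx F).mp h)
  have hx0 : x ≠ 0 := fun h => ho (funext fun i => by
    have := hxo (X i) (by rw [aeval_X, h]; rfl)
    rwa [aeval_X] at this)
  have hle : loc κ x ≤ loc κ o := fun F hF =>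
    (T51.mem_loc_iff o F).mpr fun n => hxo _ ((T51.mem_loc_iff x F).mp hF n)
  have hGx : G ∉ loc κ x := fun h => hGP ((hx G).mp (T51.zr_loc x G h))
  have h1 := T51.prime_loc (k := κ) x
  have h2 := T51.prime_loc (k := κ) o
  refine ⟨loc κ x, h1, T51.isHom_loc x, le_antisymm ?_ ?_, fun F hF => ?_,
    fun F hF => T51.zr_loc o F (hle hF), hGx⟩
  · rw [T51.cd_loc hx0, ← one_add_one_eq_two]
    refine add_le_add_left ((trdeg_le_of_injective (IntermediateField.val _)
      Subtype.val_injective).trans ?_) _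
    exact (T7.trdeg_frac κ _).trans_le hd
  · refine le_trans ?_ (T51.cd_succ_le (hle.lt_of_ne fun e => hGx ?_))
    · rw [T51.cd_loc ho, ← one_add_one_eq_two]
      exact add_le_add_left le_add_self _
    · rw [e]
      exact Ideal.subset_span ⟨⟨d, hG⟩, hGo⟩
  · refine (T51.mem_loc_iff x F).mpr fun n => (hx _).mpr ?_
    rw [Ideal.Quotient.eq_zero_iff_mem.mpr (hhom F hF n)]
    exact P.zero_mem

end D4C
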