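import Pool.Agent.Lib.D4C.Iface

/-! An abelian subvariety is defined over a finite extension. -/

namespace D4C

open MvPolynomial TensorProduct

namespace T83

/-- vanishing can be tested after extending scalars -/
theorem zr_tensor {k κ σ R : Type} [Field k] [Field κ] [Algebra k κ] [CommRing R] [Algebra k R]
    {I : Ideal (MvPolynomial σ k)} {x : σ → R} :
    Zr (ext I κ) (fun i => ((1 : κ) ⊗ₜ[k] x i : κ ⊗[k] R)) ↔ Zr I x := by
  rw [zr_ext]
  refine ⟨fun h F hF => ?_, fun h =>
    Zr.map (Algebra.TensorProduct.includeRight (R := k) (A := κ) (B := R)) h⟩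
  apply Algebra.TensorProduct.includeRight_injective (A := κ) (algebraMap k κ).injective
  rw [map_zero, ← aeval_map_alg]
  exact h F hF

/-- contraction of an extended ideal -/
theorem comap_ext {k κ σ : Type} [Field k] [Field κ] [Algebra k κ]
    (I : Ideal (MvPolynomial σ k)) :
    (ext I κ).comap (MvPolynomial.map (algebraMap k κ)) = I := by
  refine le_antisymm (fun F hF => ?_) Ideal.le_comap_map
  have h0 : Zr I fun i => Ideal.Quotient.mkₐ k I (X i) := fun G hG => by
    rw [aeval_map_alg, aeval_X_left_apply]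
    exact Ideal.Quotient.eq_zero_iff_mem.2 hG
  have h1 := zr_tensor.2 h0 _ hF
  rw [aeval_map_tower] at h1
  have h2 := aeval_map_alg (Algebra.TensorProduct.includeRight (R := k) (A := κ))
    (fun i => Ideal.Quotient.mkₐ k I (X i)) F
  have h3 := Algebra.TensorProduct.includeRight_injective (A := κ) (algebraMap k κ).injective
    ((h2.symm.trans h1).trans (map_zero _).symm)
  rw [aeval_map_alg, aeval_X_left_apply] at h3
  exact Ideal.Quotient.eq_zero_iff_mem.1 h3

theorem gprime_desc {k κ σ : Type} [Field k] [Field κ] [Algebra k κ] [Algebra.IsAlgebraic k κ]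
    (I : Ideal (MvPolynomial σ k))
    (h : ∀ (Ω : Type) [Field Ω] [Algebra κ Ω], (ext (ext I κ) Ω).IsPrime)
    (Ω : Type) [Field Ω] [Algebra k Ω] : (ext I Ω).IsPrime := by
  let f : κ →ₐ[k] AlgebraicClosure Ω := IsAlgClosed.lift
  let _ : Algebra κ (AlgebraicClosure Ω) := f.toRingHom.toAlgebra
  have : IsScalarTower k κ (AlgebraicClosure Ω) :=
    IsScalarTower.of_algebraMap_eq fun x => (f.commutes x).symm
  have h1 := h (AlgebraicClosure Ω)
  rw [ext_ext, ← ext_ext (L' := Ω)] at h1
  rw [← comap_ext (κ := AlgebraicClosure Ω) (ext I Ω)]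
  exact Ideal.comap_isPrime _ _

theorem map_hc {k κ σ : Type} [Field k] [Field κ] (f : k →+* κ) (n : ℕ) (F : MvPolynomial σ k) :
    MvPolynomial.map f (homogeneousComponent n F) =
      homogeneousComponent n (MvPolynomial.map f F) := by
  ext d
  simp only [coeff_map, coeff_homogeneousComponent]
  split_ifs <;> simp

end T83

open T83 in
theorem st_DESC : St_DESC := by
  intro L κ σ _ _ _ _ _ _ B J hJ
  classical
  obtain ⟨S, hS⟩ := (IsNoetherian.noetherian J : J.FG)
  let L' := IntermediateField.adjoin L ((S.biUnion coeffs : Finset κ) : Set κ)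
  let J' : Ideal (MvPolynomial σ L') := J.comap (MvPolynomial.map (algebraMap L' κ))
  have hE : ext J' κ = J := by
    refine le_antisymm Ideal.map_comap_le ?_
    rw [← hS, Ideal.span_le]
    intro F hF
    obtain ⟨G, rfl⟩ : F ∈ Set.range (MvPolynomial.map (algebraMap L' κ)) := by
      rw [mem_range_map_iff_coeffs_subset]
      exact fun c hc => ⟨⟨c, IntermediateField.subset_adjoin _ _
        (Finset.mem_coe.2 (Finset.mem_biUnion.2 ⟨F, hF, hc⟩))⟩, rfl⟩
    exact Ideal.mem_map_of_mem _ (show MvPolynomial.map _ G ∈ J from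
      hS ▸ Ideal.subset_span hF)
  refine ⟨L', IntermediateField.finiteDimensional_adjoin fun x _ =>
    (Algebra.IsAlgebraic.isAlgebraic x).isIntegral, J', ⟨?_, fun F hF n => ?_, fun Ω _ _ => ?_,
      fun F hF => ?_, fun R _ _ x hx => ?_, fun R _ _ x y hx hy a => ?_⟩, hE⟩
  · have h : ext (ext B.I L') κ ≤ J := (ext_ext B.I κ).le.trans hJ.le
    exact fun F hF => h (Ideal.mem_map_of_mem _ hF)
  · show MvPolynomial.map (algebraMap L' κ) _ ∈ J
    rw [map_hc]
    exact hJ.hom _ hF n
  · have : Algebra.IsAlgebraic L' κ := Algebra.IsAlgebraic.tower_top (K := L) L'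
    exact gprime_desc (κ := κ) J' (hE.symm ▸ hJ.gprime) Ω
  · apply (algebraMap L' κ).injective
    have h := hJ.o_mem _ hF
    rw [aeval_map_tower] at h
    rw [map_zero, ← h]
    exact (aeval_map_alg (Algebra.ofId L' κ) _ F).symm
  · have h := hJ.neg_mem (κ ⊗[L'] R) _ (hE ▸ zr_tensor.2 hx)
    rw [← hE] at h
    exact zr_tensor.1 h
  · have h := hJ.add_mem (κ ⊗[L'] R) _ _ (hE ▸ zr_tensor.2 hx) (hE ▸ zr_tensor.2 hy) a
    rw [← hE] at h
    refine (zr_tensor (κ := κ)).1 ?_
    have e : ∀ i, (B.bc κ).A a i = MvPolynomial.map (algebraMap L' κ) ((B.bc L').A a i) :=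
      fun i => by
        show MvPolynomial.map _ _ = MvPolynomial.map _ (MvPolynomial.map _ _)
        rw [MvPolynomial.map_map, ← IsScalarTower.algebraMap_eq]
    rw [funext e, ev2_ext] at h
    have h2 := ev2_map (Algebra.TensorProduct.includeRight (R := L') (A := κ)) ((B.bc L').A a) x y
    exact h2 ▸ h

end D4C
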