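import Pool.Agent.Lib.D4C.T83Maj
import Pool.Agent.Lib.D4C.B_DESC

/-! A chart at the origin exists after a finite extension. -/

namespace D4C

open MvPolynomial

namespace T83

section zt
variable {R S S' : Type} [CommRing R] [CommRing S] [Algebra R S] [CommRing S'] [Algebra R S']
  {m : ℕ}

theorem evZT_C (z : Fin m → S) (t : S) (p : MvPolynomial (Fin m) R) :
    evZT z t (Polynomial.C p) = aeval z p := Polynomial.aevalTower_C _ _ _

theorem evZT_X (z : Fin m → S) (t : S) : evZT (R := R) z t Polynomial.X = t :=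
  Polynomial.aevalTower_X _ _

theorem zt_ext {f g : ZT R m →ₐ[R] S} (h1 : ∀ j, f (Polynomial.C (X j)) = g (Polynomial.C (X j)))
    (h2 : f Polynomial.X = g Polynomial.X) : f = g :=
  Polynomial.algHom_ext' (MvPolynomial.algHom_ext h1) h2

theorem map_evZT (f : S →ₐ[R] S') (z : Fin m → S) (t : S) (q : ZT R m) :
    f (evZT z t q) = evZT (fun j => f (z j)) (f t) q :=
  AlgHom.congr_fun (zt_ext (f := f.comp (evZT z t)) (g := evZT (fun j => f (z j)) (f t))
    (fun j => by simp [evZT_C]) (by simp [evZT_X])) q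

theorem evZT_of_dvd {z : Fin m → S} {t : S} {P a b : ZT R m} (h : evZT z t P = 0)
    (k : P ∣ a - b) : evZT z t a = evZT z t b := by
  obtain ⟨c, hc⟩ := k
  rw [← sub_eq_zero, ← map_sub, hc, map_mul, h, zero_mul]

end zt

variable {L σ : Type} [Field L]

theorem hom_ev {τ : Type} {F : MvPolynomial (σ ⊕ σ) L} {m n a b : ℕ}
    (hF : F.IsWeightedHomogeneous (bw σ) (m, n)) {x y : σ → MvPolynomial τ L}
    (hx : ∀ i, (x i).IsHomogeneous a) (hy : ∀ i, (y i).IsHomogeneous b) :
    (aeval (Sum.elim x y) F).IsHomogeneous (m * a + n * b) := by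
  classical
  have key : ∀ d : σ ⊕ σ →₀ ℕ, (d.prod fun s k => (Sum.elim x y s) ^ k).IsHomogeneous
      ((Finsupp.weight (bw σ) d).1 * a + (Finsupp.weight (bw σ) d).2 * b) := by
    intro d
    induction d using Finsupp.induction_linear with
    | zero => simpa using isHomogeneous_one τ L
    | add f g hf hg =>
      rw [Finsupp.prod_add_index' (by simp) (by intros; rw [pow_add]), map_add, Prod.fst_add,
        Prod.snd_add, add_mul, add_mul, add_add_add_comm]
      exact hf.mul hg
    | single s k =>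
      rw [Finsupp.prod_single_index (by simp), Finsupp.weight_single]
      cases s
      · simpa [bw, mul_comm] using (hx _).pow k
      · simpa [bw, mul_comm] using (hy _).pow k
  rw [F.as_sum, map_sum]
  refine IsHomogeneous.sum _ _ _ fun d hd => ?_
  have := key d
  rw [hF (mem_support_iff.mp hd)] at this
  rw [aeval_monomial]
  exact this.C_mul _

theorem uni_of_unit {R : Type} [CommRing R] [Algebra L R] [IsLocalRing R] {F : MvPolynomial σ L}
    {e : ℕ} (he : 1 ≤ e) (hF : F.IsHomogeneous e) {w : σ → R} (h : IsUnit (aeval w F)) :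
    Uni w := by
  by_contra hn
  have e0 : (fun i => res L R (w i)) = (0 : IsLocalRing.ResidueField R) • fun i => res L R (w i) :=
    funext fun i => by
      rw [zero_smul]
      exact (IsLocalRing.residue_eq_zero_iff _).2 fun k => hn ⟨i, k⟩
  have := (h.map (res L R)).ne_zero
  rw [← aeval_map_alg, e0, aeval_smul_hom hF, zero_pow (by omega), zero_mul] at this
  exact this rfl

theorem unit_of_res {R : Type} [CommRing R] [Algebra L R] [IsLocalRing R] {a : R}
    (h : res L R a ≠ 0) : IsUnit a := by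
  by_contra hn
  exact h ((IsLocalRing.residue_eq_zero_iff _).2 hn)

/-- the constant coefficient -/
noncomputable def ccA (ρ L : Type) [Field L] : MvPowerSeries ρ L →ₐ[L] L :=
  { MvPowerSeries.constantCoeff with commutes' := fun r => by simp [MvPowerSeries.algebraMap_apply] }

theorem ccA_apply {ρ : Type} (f : MvPowerSeries ρ L) :
    ccA ρ L f = MvPowerSeries.constantCoeff f := rfl

variable [Fintype σ] [DecidableEq σ]

theorem chart_core (B : Pkg L σ) {g e : ℕ} (he : 1 ≤ e) (ξ : Fin (g + 1) → MvPolynomial σ L)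
    (η : MvPolynomial σ L) (P θ : ZT L g) (φ : σ → ZT L g) (Δ : MvPolynomial (Fin g) L)
    (hξ : ∀ j, (ξ j).IsHomogeneous e) (hη : η.IsHomogeneous e)
    (h1 : ∀ (R : Type) [CommRing R] [Algebra L R] (z : Fin g → R) (t : R), evZT z t P = 0 →
      Zr B.I (fun i => evZT z t (φ i)) ∧
      (∀ j, aeval (fun i => evZT z t (φ i)) (ξ j.castSucc) = z j * evZT z t θ) ∧
      aeval (fun i => evZT z t (φ i)) (ξ (Fin.last g)) = evZT z t θ ∧
      (IsUnit (aeval z Δ) → IsUnit (evZT z t θ) ∧ IsUnit (evZT z t P.derivative)))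
    (h2 : ∀ (R : Type) [CommRing R] [Algebra L R] (x : σ → R) (z : Fin g → R) (t : R), Zr B.I x →
      IsUnit (aeval x (ξ (Fin.last g))) →
      (∀ j, aeval x (ξ j.castSucc) = z j * aeval x (ξ (Fin.last g))) →
      aeval x η = t * aeval x (ξ (Fin.last g)) →
      evZT z t P = 0 ∧ Par (fun i => evZT z t (φ i)) x)
    (z0 : Fin g → L) (t0 : L) (hP : evZT z0 t0 P = 0) (hΔ : aeval z0 Δ ≠ 0) :
    Nonempty (Chart B g) := by
  obtain ⟨bz, bξ, bl, bu⟩ := h1 L z0 t0 hP
  obtain ⟨θu, Pu⟩ := bu hΔ.isUnit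
  set b : σ → L := fun i => evZT z0 t0 (φ i) with hb
  set θ0 := evZT z0 t0 θ
  have rb := B.rep_pt b (uni_of_unit he (hξ _) (bl ▸ θu)) bz
  set pb := B.pt b (uni_of_unit he (hξ _) (bl ▸ θu)) bz
  obtain ⟨c, hc⟩ := (Pkg.rep_zero (B := B)).exists_add rb
  obtain ⟨c', hc'⟩ := rb.exists_add rb.neg
  rw [zero_add] at hc
  rw [add_neg_cancel] at hc'
  obtain ⟨μ, hμ⟩ := (rb.par hc).exists_smul rb.uni
  obtain ⟨lam, hl⟩ := (Pkg.rep_zero.par hc').exists_smul Pkg.rep_zero.uni
  have μ0 : μ ≠ 0 := (hμ ▸ hc.uni).isUnit_of_smul.ne_zero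
  have l0 : lam ≠ 0 := (hl ▸ hc'.uni).isUnit_of_smul.ne_zero
  let T : σ → MvPolynomial σ L := ev2 (B.A c) X fun i => C (b i)
  have hT : ∀ i, (T i).IsHomogeneous B.β := fun i => by
    have := hom_ev (B.A_hom c i) (isHomogeneous_X L) fun i => isHomogeneous_C σ (b i)
    rwa [mul_one, mul_zero, add_zero] at this
  have eT : ∀ (R : Type) [CommRing R] [Algebra L R] (x : σ → R) (F : MvPolynomial σ L),
      aeval x (aeval T F) = aeval (ev2 (B.A c) x fun i => algebraMap L R (b i)) F := by
    intro R _ _ x F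
    rw [← aeval_map_alg, ← ev2_map]
    simp
  let sh : ZT L g →ₐ[L] ZT L g := evZT (fun j => Polynomial.C (C (z0 j) + X j))
    (Polynomial.X + Polynomial.C (C t0))
  set u := evZT z0 t0 P.derivative
  have cR : ∀ k, constantCoeff ((sh P).coeff k) =
      (Polynomial.taylor t0 (P.map (aeval z0).toRingHom)).coeff k := fun k => by
    have := AlgHom.congr_fun (zt_ext
      (f := (Polynomial.mapAlgHom (aeval fun _ => (0 : L))).comp sh)
      (g := (Polynomial.aeval (Polynomial.X + Polynomial.C t0)).comp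
        (Polynomial.mapAlgHom (aeval z0))) (fun j => by simp [sh, evZT_C])
      (by simp [sh, evZT_X])) P
    rw [Polynomial.taylor_apply, Polynomial.comp_eq_aeval]
    refine Eq.trans ?_ (congrArg (Polynomial.coeff · k) this)
    simp
  obtain ⟨η0, e0, e1, bd⟩ := bounded_root (Polynomial.X - Polynomial.C (C u⁻¹) * sh P)
    (by
      rw [Polynomial.coeff_sub, Polynomial.coeff_C_mul, map_sub, map_mul, cR,
        Polynomial.taylor_coeff_zero, ← evZT_eq, hP]
      simp)
    (by
      rw [Polynomial.coeff_sub, Polynomial.coeff_C_mul, map_sub, map_mul, cR,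
        Polynomial.taylor_coeff_one, Polynomial.derivative_map, ← evZT_eq]
      simpa [sub_eq_zero] using (inv_mul_cancel₀ Pu.ne_zero).symm)
  let zs : Fin g → MvPowerSeries (Fin g) L := fun j => algebraMap L _ (z0 j) + MvPowerSeries.X j
  let ts : MvPowerSeries (Fin g) L := η0 + algebraMap L _ t0
  have es : ∀ q, evZT MvPowerSeries.X η0 (sh q) = evZT zs ts q := fun q => by
    rw [map_evZT]
    simp [evZT_C, evZT_X, zs, ts]
  have sP : evZT zs ts P = 0 := by
    rw [map_sub, map_mul, evZT_X, evZT_C, es, sub_eq_self, aeval_C] at e1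
    exact ((inv_ne_zero Pu.ne_zero).isUnit.map _).mul_right_eq_zero.1 e1
  obtain ⟨yz, yξ, yl, -⟩ := h1 _ zs ts sP
  set y : σ → MvPowerSeries (Fin g) L := fun i => evZT zs ts (φ i) with hy
  have cy : (fun i => ccA (Fin g) L (y i)) = b := funext fun i => by
    rw [hy, map_evZT]
    simp [zs, ts, ccA_apply, e0, hb, MvPowerSeries.algebraMap_apply]
  have un : ∀ w : σ → MvPowerSeries (Fin g) L, Uni (fun i => ccA (Fin g) L (w i)) → Uni w :=
    fun w ⟨i, h⟩ => ⟨i, MvPowerSeries.isUnit_iff_constantCoeff.2 h⟩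
  have ry := B.rep_pt y (un _ (cy ▸ rb.uni)) yz
  have rs := rb.map (Algebra.ofId L (MvPowerSeries (Fin g) L))
  let τ0 := ev2 (B.A c') y ((fun i => Algebra.ofId L _ (b i)) ∘ B.π)
  have cτ : (fun i => ccA (Fin g) L (τ0 i)) = lam • fun i => algebraMap L L (B.o i) := by
    rw [← hl, ← ev2_map, cy]
    congr 1
  have rτ := (ry.add rs.neg (un τ0 (cτ ▸ hl ▸ hc'.uni))).smul
    ((inv_ne_zero l0).isUnit.map (algebraMap L (MvPowerSeries (Fin g) L)))
  obtain ⟨cb, A, hA⟩ := bd σ fun i => algebraMap L _ lam⁻¹ *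
    ev2 (B.A c') (fun i => sh (φ i)) (fun i => algebraMap L _ (b (B.π i))) i
  have near : ∀ (R : Type) [CommRing R] [Algebra L R] [IsLocalRing R] (p : B.Pt R) (x : σ → R),
      B.map (res L R) p = 0 → B.Rep p x → ∃ z t, evZT z t P = 0 ∧
        B.Rep (p + B.map (Algebra.ofId L R) pb) (fun i => evZT z t (φ i)) ∧
        res L R t = algebraMap L _ (aeval b η / θ0) ∧ IsUnit (evZT z t P.derivative) ∧
        IsUnit (aeval x (aeval T (ξ (Fin.last g)))) ∧
        ∀ j, aeval x (aeval T (ξ j.castSucc)) = z j * aeval x (aeval T (ξ (Fin.last g))) := by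
    intro R _ _ _ p x hp hx
    obtain ⟨ν, hν⟩ := (Pkg.rep_zero.par (hp ▸ hx.map (res L R))).exists_smul Pkg.rep_zero.uni
    have ν0 : ν ≠ 0 := (hν ▸ (hx.map (res L R)).uni).isUnit_of_smul.ne_zero
    simp only [eT]
    set x' := ev2 (B.A c) x fun i => algebraMap L R (b i) with hx'
    have ex : ∀ F : MvPolynomial σ L, F.IsHomogeneous e → res L R (aeval x' F) =
        (ν ^ B.β * algebraMap L _ μ) ^ e * algebraMap L _ (aeval b F) := fun F hF => by
      have k1 := ev2_map (Algebra.ofId L (IsLocalRing.ResidueField R)) (B.A c)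
        (fun i => algebraMap L L (B.o i)) b
      have k2 := B.ev2_smul c ν 1 (fun i => algebraMap L (IsLocalRing.ResidueField R) (B.o i))
        fun i => algebraMap L _ (b i)
      rw [one_smul] at k2
      rw [← aeval_map_alg, hx', ← ev2_map, hν]
      simp only [AlgHom.commutes]
      rw [k2]
      erw [k1]
      rw [hμ, ← Algebra.ofId_apply _ (aeval b F), ← aeval_map_alg, ← aeval_smul_hom hF]
      congr 2
      funext i
      simp [Algebra.ofId_apply, mul_assoc]
    have n0 : (ν ^ B.β * algebraMap L _ μ) ^ e ≠ 0 :=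
      pow_ne_zero _ (mul_ne_zero (pow_ne_zero _ ν0) ((_root_.map_ne_zero _).2 μ0))
    have t0' : algebraMap L (IsLocalRing.ResidueField R) θ0 ≠ 0 :=
      (_root_.map_ne_zero _).2 θu.ne_zero
    have hU : IsUnit (aeval x' (ξ (Fin.last g))) := unit_of_res (L := L) (by
      rw [ex _ (hξ _), bl]
      exact mul_ne_zero n0 t0')
    have rx := hx.add (rb.map (Algebra.ofId L R)) (a := c) (uni_of_unit he (hξ _) hU)
    obtain ⟨U, hU'⟩ := id hU
    have dv : ∀ a : R, a = a * ↑U⁻¹ * aeval x' (ξ (Fin.last g)) := fun a => by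
      rw [← hU', Units.inv_mul_cancel_right]
    have rv : ∀ F : MvPolynomial σ L, F.IsHomogeneous e →
        res L R (aeval x' F * ↑U⁻¹) = algebraMap L _ (aeval b F / θ0) := fun F hF => by
      have := congrArg (res L R) (dv (aeval x' F))
      rw [map_mul _ _ (aeval x' _), ex _ hF, ex _ (hξ _), bl, mul_left_comm] at this
      rw [map_div₀, eq_div_iff t0', mul_left_cancel₀ n0 this]
    obtain ⟨k1, k2⟩ := h2 R x' (fun j => aeval x' (ξ j.castSucc) * ↑U⁻¹) (aeval x' η * ↑U⁻¹)
      rx.zr hU (fun j => dv _) (dv _)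
    obtain ⟨-, -, k3, k4⟩ := h1 R _ _ k1
    obtain ⟨k5, k6⟩ := k4 (unit_of_res (L := L) (by
      rw [← aeval_map_alg]
      simp only [rv _ (hξ _), bξ, mul_div_cancel_right₀ _ θu.ne_zero]
      erw [aeval_map_alg (Algebra.ofId L _)]
      exact (_root_.map_ne_zero _).2 hΔ))
    exact ⟨_, _, k1, rx.of_par (uni_of_unit he (hξ _) (k3 ▸ k5)) k2.symm, rv _ hη, k6, hU,
      fun j => dv _⟩
  refine ⟨⟨B.β * e, fun a => aeval T (ξ a.castSucc) - C (z0 a) * aeval T (ξ (Fin.last g)),
    aeval T (ξ (Fin.last g)), fun a => ((hξ _).aeval T hT).sub (((hξ _).aeval T hT).C_mul _),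
    (hξ _).aeval T hT, ?_, _, rτ.zr, fun i => ?_, fun a => ?_, ?_, cb, A, fun v J i => ?_⟩⟩
  · rw [eT]
    erw [hμ]
    rw [aeval_smul_hom (hξ _), bl]
    exact mul_ne_zero (pow_ne_zero _ μ0) θu.ne_zero
  · rw [← ccA_apply, Pi.smul_apply, smul_eq_mul, map_mul, AlgHom.commutes]
    erw [congrFun cτ i]
    simp [l0]
  · obtain ⟨w, hw⟩ := rτ.law_eq_smul rs (by rw [neg_add_cancel_right]; exact ry) c
    rw [map_sub, map_mul, eT, eT, aeval_C]
    erw [hw]
    rw [aeval_smul_hom (hξ _), aeval_smul_hom (hξ _), yξ, yl]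
    simp only [zs]
    ring
  · intro R _ _ _ p q x y' hp hq hx hy' h
    obtain ⟨z, t, a1, a2, a3, a4, a5, a6⟩ := near R p x hp hx
    obtain ⟨z', t', b1, b2, b3, -, b5, b6⟩ := near R q y' hq hy'
    obtain rfl : z = z' := funext fun j => by
      have := h j
      rw [map_sub, map_sub, map_mul, map_mul, a6, b6, aeval_C, aeval_C] at this
      apply (a5.mul b5).mul_right_cancel
      linear_combination this
    rw [evZT_eq] at a1 b1 a4
    obtain rfl : t = t' := IsLocalRing.eq_of_eval_eq_zero_of_not_isUnit_sub a1 b1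
      (fun k => (k.map (res L R)).ne_zero (by rw [map_sub, a3, b3, sub_self]))
      (by rwa [Polynomial.derivative_map])
    exact add_right_cancel (a2.eq b2 (Par.refl _))
  · refine le_trans (le_of_eq ?_) (hA v J i)
    rw [map_mul, AlgHom.commutes, ← congrFun (ev2_map _ _ _ _) i]
    simp only [es, AlgHom.commutes]
    rfl

end T83

open T83 in
theorem st_CHART (hH : St_HSOP) (hD : St_DATA) : St_CHART := by
  intro L σ _ _ _ _ B g hg
  have pr : B.I.IsPrime := comap_ext (κ := L) B.I ▸ (have := B.gprime L; Ideal.comap_isPrime _ _)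
  obtain ⟨e, D, ξ, hs, -, -⟩ := hH L σ B.I ⊤ g 0 1 pr B.hom (fun _ _ _ => trivial) hg le_rfl
    fun q' hq _ h => absurd (top_le_iff.1 h) hq.ne_top
  obtain ⟨W, rfl, ok, Δ0, irr, par⟩ := hD L σ B.I g e D ξ pr B.hom hs
  obtain ⟨z0, hz⟩ : ∃ z0 : Fin g → L, aeval z0 W.Δ ≠ 0 := by
    by_contra! h
    exact Δ0 (MvPolynomial.funext fun x => by simpa using h x)
  have mon := ok.monic.map (aeval z0 : MvPolynomial (Fin g) L →ₐ[L] L).toRingHom
  obtain ⟨t0, ht⟩ := IsAlgClosed.exists_aeval_eq_zero (AlgebraicClosure L) _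
    (show (W.P.map (aeval z0 : MvPolynomial (Fin g) L →ₐ[L] L).toRingHom).degree ≠ 0 by
      rw [ok.monic.degree_map]
      exact fun h => irr.not_isUnit ((ok.monic.degree_le_zero_iff_eq_one.1 h.le) ▸ isUnit_one))
  let F := IntermediateField.adjoin L {t0}
  let mp : ZT L g → ZT F g := Polynomial.map (MvPolynomial.map (algebraMap L F))
  have em : ∀ (R : Type) [CommRing R] [Algebra L R] [Algebra F R] [IsScalarTower L F R]
      (z : Fin g → R) (t : R) (q : ZT L g), evZT z t (mp q) = evZT z t q := by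
    intro R _ _ _ _ z t q
    rw [evZT_eq, evZT_eq, Polynomial.map_map]
    congr 2
    exact RingHom.ext fun p => aeval_map_tower z p
  refine ⟨F, IntermediateField.adjoin.finiteDimensional ⟨_, mon, ht⟩,
    chart_core (B.bc F) hs.e_pos (fun j => MvPolynomial.map (algebraMap L F) (W.ξ j))
      (MvPolynomial.map (algebraMap L F) W.η) (mp W.P) (mp W.θ) (fun i => mp (W.φ i))
      (MvPolynomial.map (algebraMap L F) W.Δ) (fun j => (ok.ξ_hom j).map _) (ok.η_hom.map _)
      (fun R _ _ z t h => ?_) (fun R _ _ x z t a1 a2 a3 a4 => ?_) (fun j => algebraMap L F (z0 j))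
      ⟨t0, IntermediateField.mem_adjoin_simple_self L t0⟩ ?_ ?_⟩
  · let _ : Algebra L R := ((algebraMap F R).comp (algebraMap L F)).toAlgebra
    have : IsScalarTower L F R := IsScalarTower.of_algebraMap_eq' rfl
    have hd : (mp W.P).derivative = mp W.P.derivative := Polynomial.derivative_map _ _
    simp only [hd, em, aeval_map_tower] at h ⊢
    have k := fun j => evZT_of_dvd h (ok.ξ_eq j)
    simp only [← aeval_map_alg, map_mul] at k
    refine ⟨zr_ext.2 fun G hG => ?_, fun j => ?_, ?_, fun hu => ⟨?_, ?_⟩⟩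
    · rw [aeval_map_alg, evZT_of_dvd h (b := 0) (by simpa using ok.mem G hG), map_zero]
    · simpa [zv, evZT_C] using k j.castSucc
    · simpa [zv] using k (Fin.last g)
    · rw [← evZT_C z t, ← evZT_of_dvd h ok.θ_inv, map_mul] at hu
      exact isUnit_of_mul_isUnit_left hu
    · rw [← evZT_C z t, ← evZT_of_dvd h ok.sep, map_mul] at hu
      exact isUnit_of_mul_isUnit_left hu
  · let _ : Algebra L R := ((algebraMap F R).comp (algebraMap L F)).toAlgebra
    have : IsScalarTower L F R := IsScalarTower.of_algebraMap_eq' rfl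
    simp only [em, aeval_map_tower] at a2 a3 a4 ⊢
    exact par R x z t (zr_ext.1 a1) a2 a3 a4
  · rw [em]
    apply F.val.toRingHom.injective
    refine (map_evZT F.val _ _ _).trans (Eq.trans ?_ (ht.trans (map_zero _).symm))
    exact AlgHom.congr_fun (zt_ext (g := (Polynomial.aeval t0).comp
      (Polynomial.mapAlgHom (aeval z0))) (fun j => by simp [evZT_C]) (by simp [evZT_X])) W.P
  · rw [aeval_map_tower]
    erw [aeval_map_alg (Algebra.ofId L F)]
    exact (_root_.map_ne_zero _).2 hz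

end D4C
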