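import Pool.Agent.Lib.D4C.Iface

namespace D4C

open MvPolynomial

namespace T51

variable {κ σ R : Type} [Field κ] [CommRing R] [Algebra κ R]

/-- decomposition of a polynomial along a basis of the coefficient algebra -/
theorem exists_decomp (F : MvPolynomial σ R) : ∃ (ι : Type) (b : ι → R) (s : Finset ι)
    (G : ι → MvPolynomial σ κ), LinearIndependent κ b ∧
    F = ∑ i ∈ s, C (b i) * MvPolynomial.map (algebraMap κ R) (G i) := by
  classical
  let b := Module.Basis.ofVectorSpace κ R
  refine ⟨_, b, F.support.biUnion fun d => (b.repr (coeff d F)).support,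
    fun i => ∑ d ∈ F.support, monomial d (b.repr (coeff d F) i), b.linearIndependent, ?_⟩
  simp only [map_sum, map_monomial, Finset.mul_sum, C_mul_monomial]
  rw [Finset.sum_comm]
  conv_lhs => rw [F.as_sum]
  refine Finset.sum_congr rfl fun d hd => ?_
  rw [← map_sum]
  refine congrArg (monomial d) ?_
  conv_lhs => rw [← b.linearCombination_repr (coeff d F), Finsupp.linearCombination_apply]
  rw [Finsupp.sum_of_support_subset _
    (Finset.subset_biUnion_of_mem (fun d => (b.repr (coeff d F)).support) hd) _ (by simp)]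
  refine Finset.sum_congr rfl fun i _ => ?_
  rw [Algebra.smul_def, mul_comm]

theorem eval_map_alg (y : σ → R) (G : MvPolynomial σ κ) :
    eval y (MvPolynomial.map (algebraMap κ R) G) = aeval y G := by
  rw [eval_map, aeval_def]

theorem eval_decomp {ι : Type} (b : ι → R) (s : Finset ι) (G : ι → MvPolynomial σ κ) (y : σ → κ) :
    eval (fun i => algebraMap κ R (y i)) (∑ i ∈ s, C (b i) * MvPolynomial.map (algebraMap κ R) (G i))
      = ∑ i ∈ s, aeval y (G i) • b i := by
  rw [map_sum]
  refine Finset.sum_congr rfl fun i _ => ?_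
  rw [map_mul, eval_C, eval_map_alg, Algebra.smul_def, mul_comm]
  exact congrArg (· * b i) (aeval_map_alg (Algebra.ofId κ R) y (G i))

theorem mem_of_vanish [IsAlgClosed κ] [Fintype σ] {J : Ideal (MvPolynomial σ κ)}
    (hJ : J.IsRadical) {G : MvPolynomial σ κ} (h : ∀ y : σ → κ, Zr J y → aeval y G = 0) :
    G ∈ J := by
  rw [← hJ.radical, ← vanishingIdeal_zeroLocus_eq_radical (K := κ)]
  exact fun y hy => h y hy

/-- a polynomial that vanishes at all points over the closed field lies in the extended ideal -/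
theorem mem_map_of_vanish [IsAlgClosed κ] [Fintype σ] {J : Ideal (MvPolynomial σ κ)}
    (hJ : J.IsRadical) {F : MvPolynomial σ R}
    (h : ∀ y : σ → κ, Zr J y → eval (fun i => algebraMap κ R (y i)) F = 0) :
    F ∈ J.map (MvPolynomial.map (algebraMap κ R)) := by
  obtain ⟨ι, b, s, G, hb, rfl⟩ := exists_decomp (κ := κ) F
  refine Ideal.sum_mem _ fun i hi => Ideal.mul_mem_left _ _ (Ideal.mem_map_of_mem _ ?_)
  refine mem_of_vanish hJ fun y hy => ?_
  have h1 := h y hy
  rw [eval_decomp] at h1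
  exact linearIndependent_iff'.mp hb s _ h1 i hi

theorem eval_eq_zero_of_mem_map {J : Ideal (MvPolynomial σ κ)} {F : MvPolynomial σ R}
    (h : F ∈ J.map (MvPolynomial.map (algebraMap κ R))) {y : σ → R} (hy : Zr J y) :
    eval y F = 0 := by
  have : J.map (MvPolynomial.map (algebraMap κ R)) ≤ RingHom.ker (eval y) := by
    rw [Ideal.map_le_iff_le_comap]
    intro G hG
    rw [Ideal.mem_comap, RingHom.mem_ker, eval_map_alg]
    exact hy G hG
  exact this h

end T51

theorem st_VAN : St_VAN := fun _ _ _ _ _ _ _ _ _ hJ _ h _ hy =>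
  T51.eval_eq_zero_of_mem_map (T51.mem_map_of_vanish hJ h) hy

open T51 in
theorem st_IRR : St_IRR := by
  intro κ σ _ _ _ q hq Ω _ _
  have hr : q.IsRadical := hq.isRadical
  have pt : ∀ G : MvPolynomial σ κ, G ∉ q → ∃ y : σ → κ, Zr q y ∧ aeval y G ≠ 0 := fun G hG => by
    by_contra! hn
    exact hG (mem_of_vanish hr hn)
  have zr : ∀ y : σ → κ, Zr q y → Zr q fun i => algebraMap κ Ω (y i) := fun y hy =>
    hy.map (Algebra.ofId κ Ω)
  have key : ∀ F : MvPolynomial σ Ω, F ∉ ext q Ω → ∃ G : MvPolynomial σ κ, G ∉ q ∧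
      ∀ y : σ → κ, aeval y G ≠ 0 → eval (fun i => algebraMap κ Ω (y i)) F ≠ 0 := fun F hF => by
    obtain ⟨ι, b, s, G, hb, rfl⟩ := exists_decomp (κ := κ) F
    obtain ⟨i, hi, hG⟩ : ∃ i ∈ s, G i ∉ q := by
      by_contra! hn
      exact hF (Ideal.sum_mem _ fun i hi =>
        Ideal.mul_mem_left _ _ (Ideal.mem_map_of_mem _ (hn i hi)))
    refine ⟨G i, hG, fun y hy h1 => hy ?_⟩
    rw [eval_decomp] at h1
    exact linearIndependent_iff'.mp hb s _ h1 i hi
  refine ⟨fun h => ?_, fun {F F'} h => ?_⟩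
  · obtain ⟨y, hy, _⟩ := pt 1 ((Ideal.ne_top_iff_one q).mp hq.ne_top)
    have h1 : (1 : MvPolynomial σ Ω) ∈ ext q Ω := h ▸ Submodule.mem_top
    have := eval_eq_zero_of_mem_map h1 (zr y hy)
    rw [map_one] at this
    exact one_ne_zero this
  · by_contra! hn
    obtain ⟨G, hG, h1⟩ := key F hn.1
    obtain ⟨G', hG', h2⟩ := key F' hn.2
    obtain ⟨y, hy, h3⟩ := pt (G * G') fun h4 => (hq.mem_or_mem h4).elim hG hG'
    rw [map_mul] at h3
    have := eval_eq_zero_of_mem_map h (zr y hy)
    rw [map_mul] at this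
    exact mul_ne_zero (h1 y (left_ne_zero_of_mul h3)) (h2 y (right_ne_zero_of_mul h3)) this

end D4C
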