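import Pool.Agent.Lib.D4C.BlueF
import Pool.Agent.Lib.D4C.B_VAN
import Pool.Agent.Lib.D4C.B_DIM
import Pool.Agent.Lib.D4C.B_LOC
import Pool.Agent.Lib.PK1.FF33

namespace D4C

open MvPolynomial Pool.Agent.Lib.MP_e06174_ag

namespace T95

variable {κ σ Ω₀ Ω : Type} [Field κ] [Field Ω₀] [Field Ω] [Algebra κ Ω₀] [Algebra κ Ω]
  [Algebra Ω₀ Ω] [IsScalarTower κ Ω₀ Ω]

theorem exists_X_notMem {q : Ideal (MvPolynomial σ κ)} (h : cd q = 2) :
    ∃ i, X i ∉ q := by
  by_contra! hn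
  have halg : Algebra.IsAlgebraic κ (MvPolynomial σ κ ⧸ q) := ⟨fun a => by
    obtain ⟨G, rfl⟩ := Ideal.Quotient.mk_surjective a
    induction G using MvPolynomial.induction_on with
    | C c => exact isAlgebraic_algebraMap (R := κ) (A := MvPolynomial σ κ ⧸ q) c
    | add a b ha hb => rw [map_add]; exact ha.add hb
    | mul_X a i _ =>
      rw [map_mul, Ideal.Quotient.eq_zero_iff_mem.mpr (hn i), mul_zero]; exact isAlgebraic_zero⟩
  have h0 : cd q = 0 := trdeg_eq_zero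
  rw [h0] at h
  exact absurd h (by norm_num)

theorem frac_of_rat (k : Type) [Field k] [Algebra k Ω] (y : σ → Ω) {a : Ω} (ha : a ∈ rat k y) :
    ∃ r s : MvPolynomial σ k, aeval y s ≠ 0 ∧ a * aeval y s = aeval y r := by
  have hle : rat k y ≤ IntermediateField.adjoin k (Set.range y) := by
    refine IntermediateField.adjoin_le_iff.mpr ?_
    rintro _ ⟨ij, rfl⟩
    exact div_mem (IntermediateField.subset_adjoin _ _ ⟨_, rfl⟩)
      (IntermediateField.subset_adjoin _ _ ⟨_, rfl⟩)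
  obtain ⟨r, s, rfl⟩ := (IntermediateField.mem_adjoin_range_iff k y a).mp (hle ha)
  by_cases hs : aeval y s = 0
  · exact ⟨0, 1, by simp, by simp [hs]⟩
  · exact ⟨r, s, hs, div_mul_cancel₀ _ hs⟩

theorem rat_le (y : σ → Ω) {a : Ω} (ha : a ∈ rat κ y) : a ∈ rat Ω₀ y := by
  have hle : rat κ y ≤ (rat Ω₀ y).restrictScalars κ := by
    refine IntermediateField.adjoin_le_iff.mpr ?_
    rintro _ ⟨ij, rfl⟩
    exact IntermediateField.subset_adjoin Ω₀ _ ⟨ij, rfl⟩
  exact hle ha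

theorem gen_base {q : Ideal (MvPolynomial σ κ)} {y : σ → Ω}
    (hy : ∀ G : MvPolynomial σ Ω₀, aeval y G = 0 ↔ G ∈ ext q Ω₀) (G : MvPolynomial σ κ) :
    aeval y G = 0 ↔ G ∈ q := by
  rw [← T51.map_mem_ext_iff (Ω := Ω₀), ← hy, aeval_map_algebraMap]

/-- linear disjointness inside the big field -/
theorem ld_big {q : Ideal (MvPolynomial σ κ)} {y : σ → Ω}
    (hy : ∀ G : MvPolynomial σ Ω₀, aeval y G = 0 ↔ G ∈ ext q Ω₀) {ι : Type} (f : ι → Ω)
    (hf : ∀ i, f i ∈ rat κ y) (h : LinearIndependent κ f) : LinearIndependent Ω₀ f := by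
  classical
  rw [linearIndependent_iff'] at h ⊢
  intro s c hc i hi
  choose r d hd hr using fun i => frac_of_rat κ y (hf i)
  have hD : (∏ j ∈ s, aeval y (d j)) ≠ 0 := Finset.prod_ne_zero_iff.mpr fun j _ => hd j
  have key : ∀ j ∈ s, aeval y (r j * ∏ l ∈ s.erase j, d l) = f j * ∏ l ∈ s, aeval y (d l) := by
    intro j hj
    rw [map_mul, map_prod, ← hr j, ← Finset.mul_prod_erase s _ hj, mul_assoc]
  have h1 : (∑ j ∈ s, C (c j) * MvPolynomial.map (algebraMap κ Ω₀)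
      (r j * ∏ l ∈ s.erase j, d l)) ∈ ext q Ω₀ := by
    rw [← hy, map_sum]
    have : ∀ j ∈ s, aeval y (C (c j) * MvPolynomial.map (algebraMap κ Ω₀)
        (r j * ∏ l ∈ s.erase j, d l)) = (c j • f j) * ∏ l ∈ s, aeval y (d l) := by
      intro j hj
      rw [map_mul, aeval_C, aeval_map_algebraMap, key j hj, Algebra.smul_def, mul_assoc]
    rw [Finset.sum_congr rfl this, ← Finset.sum_mul, hc, zero_mul]
  refine (Module.forall_dual_apply_eq_zero_iff κ (c i)).mp fun φ => ?_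
  have h2 := T51.lam_mem φ h1
  have h3 : ∀ t : Finset ι, T51.lam φ (∑ j ∈ t, C (c j) * MvPolynomial.map (algebraMap κ Ω₀)
      (r j * ∏ l ∈ s.erase j, d l)) = ∑ j ∈ t, C (φ (c j)) * (r j * ∏ l ∈ s.erase j, d l) := by
    intro t
    induction t using Finset.induction_on with
    | empty => simpa using T51.lam_zero φ
    | insert a t ha ih =>
      rw [Finset.sum_insert ha, Finset.sum_insert ha, T51.lam_add, ih, T51.lam_mul, T51.lam_C]
  rw [h3, ← gen_base hy, map_sum] at h2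
  have h4 : ∀ j ∈ s, aeval y (C (φ (c j)) * (r j * ∏ l ∈ s.erase j, d l)) =
      (φ (c j) • f j) * ∏ l ∈ s, aeval y (d l) := by
    intro j hj
    rw [map_mul, aeval_C, key j hj, Algebra.smul_def, mul_assoc]
  rw [Finset.sum_congr rfl h4, ← Finset.sum_mul] at h2
  exact h s (fun j => φ (c j)) ((mul_eq_zero.mp h2).resolve_right hD) i hi

theorem pgen_of_map {k E : Type} [Field k] [Field E] [Algebra k E] [Algebra k Ω]
    (j : E →ₐ[k] Ω) {q : Ideal (MvPolynomial σ k)} {y : σ → Ω}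
    (hy : ∀ G : MvPolynomial σ k, aeval y G = 0 ↔ G ∈ q) {i₀ : σ} (h₀ : y i₀ ≠ 0) (x : σ → E)
    (hx : ∀ i, j (x i) = y i / y i₀) : PGen q x := by
  refine ⟨fun h => ?_, fun G n hG => ?_⟩
  · have := hx i₀
    rw [h, Pi.zero_apply, map_zero, div_self h₀] at this
    exact zero_ne_one this
  · have h1 : (fun i => j (x i)) = (y i₀)⁻¹ • y := by
      funext i
      rw [hx, Pi.smul_apply, smul_eq_mul, div_eq_inv_mul]
    rw [← hy, ← map_eq_zero_iff j j.toRingHom.injective, ← aeval_map_alg, h1, aeval_smul_hom hG,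
      mul_eq_zero, or_iff_right (pow_ne_zero n (inv_ne_zero h₀))]

/-- the inclusion of the small function field into the big one -/
noncomputable def incl (κ Ω₀ : Type) [Field κ] [Field Ω₀] [Algebra κ Ω₀] [Algebra κ Ω]
    [Algebra Ω₀ Ω] [IsScalarTower κ Ω₀ Ω] (y : σ → Ω) : rat κ y →+* rat Ω₀ y :=
  (rat κ y).val.toRingHom.codRestrict (rat Ω₀ y) fun a => rat_le y a.2

end T95

open T95 in
theorem st_CMP (hG : St_GPT) : St_CMP := by
  intro κ σ Ω₀ _ _ _ _ _ q hq hh hc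
  obtain ⟨i₁, hi₁⟩ := exists_X_notMem hc
  obtain ⟨Ω, _, _, _, y, hy0, hy⟩ := hG.ex Ω₀ σ (ext q Ω₀) (st_IRR κ σ q hq Ω₀)
    ⟨i₁, fun h => hi₁ ((T51.map_mem_ext_iff (Ω := Ω₀)).mp (by rwa [map_X]))⟩
  let _ : Algebra κ Ω := ((algebraMap Ω₀ Ω).comp (algebraMap κ Ω₀)).toAlgebra
  have _ : IsScalarTower κ Ω₀ Ω := IsScalarTower.of_algebraMap_eq fun _ => rfl
  obtain ⟨i₀, h₀⟩ := Function.ne_iff.mp hy0
  have h₀' : y i₀ ≠ 0 := h₀
  let _ : Algebra (rat κ y) (rat Ω₀ y) := (incl κ Ω₀ y).toAlgebra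
  have hyκ := gen_base hy
  let x : σ → rat κ y := fun i => ⟨y i / y i₀, IntermediateField.subset_adjoin κ _ ⟨(i, i₀), rfl⟩⟩
  refine ⟨rat κ y, rat Ω₀ y, inferInstance, inferInstance, inferInstance, inferInstance,
    inferInstance, inferInstance, IsScalarTower.of_algebraMap_eq fun _ => Subtype.ext rfl,
    inferInstance, x, ⟨?_, ?_, ?_⟩, pgen_of_map (rat κ y).val hyκ h₀' x fun _ => rfl,
    pgen_of_map (rat Ω₀ y).val hy h₀' _ fun _ => rfl⟩
  · have h1 := (st_LOC κ σ Ω y hy0).2.2.2.2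
    rw [(hG.eq κ σ Ω q y hh ⟨hy0, fun G _ _ => hyκ G⟩).1, hc] at h1
    have h2 : Algebra.trdeg κ (rat κ y) = 1 := by
      have h3 : Algebra.trdeg κ (rat κ y) + 1 = 1 + 1 := h1.symm.trans one_add_one_eq_two.symm
      exact Cardinal.add_one_inj.mp h3
    have _ : Algebra.EssFiniteType κ (rat κ y) := IntermediateField.essFiniteType_iff.2
      (IntermediateField.fg_adjoin_of_finite (Set.finite_range _))
    exact Pool.Agent.Lib.PK1.FF.exists_coord h2
  · intro ι f hf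
    have h1 : LinearIndependent κ fun i => (f i : Ω) :=
      hf.map' (rat κ y).val.toLinearMap (LinearMap.ker_eq_bot.mpr Subtype.val_injective)
    exact LinearIndependent.of_comp (rat Ω₀ y).val.toLinearMap (ld_big hy _ (fun i => (f i).2) h1)
  · intro a
    obtain ⟨r, s, hrs⟩ := (IntermediateField.mem_adjoin_range_iff Ω₀ _ a.1).mp a.2
    let z : σ × σ → rat Ω₀ y := fun ij => algebraMap (rat κ y) (rat Ω₀ y)
      ⟨y ij.1 / y ij.2, IntermediateField.subset_adjoin κ _ ⟨ij, rfl⟩⟩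
    have hz : ∀ G : MvPolynomial (σ × σ) Ω₀,
        aeval z G ∈ Algebra.adjoin Ω₀ (Set.range (algebraMap (rat κ y) (rat Ω₀ y))) := by
      intro G
      have h1 : aeval z G ∈ Algebra.adjoin Ω₀ (Set.range z) := by
        rw [Algebra.adjoin_range_eq_range_aeval]; exact ⟨G, rfl⟩
      refine Algebra.adjoin_mono ?_ h1
      rintro _ ⟨ij, rfl⟩
      exact ⟨_, rfl⟩
    have hv : ∀ G : MvPolynomial (σ × σ) Ω₀,
        ((aeval z G : rat Ω₀ y) : Ω) = aeval (fun ij : σ × σ => y ij.1 / y ij.2) G := fun G =>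
      (aeval_map_alg (rat Ω₀ y).val z G).symm
    by_cases hs : aeval z s = 0
    · refine ⟨0, zero_mem _, 1, one_mem _, one_ne_zero, Subtype.ext ?_⟩
      rw [hrs, ← hv s, hs]
      simp
    · refine ⟨_, hz r, _, hz s, hs, Subtype.ext ?_⟩
      rw [hrs, ← hv r, ← hv s]
      rfl

end D4C
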