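import Pool.Agent.Lib.D4C.BlueE

/-! Counting exponents. -/

namespace D4C

namespace T58

theorem count_exp {σ : Type} [Fintype σ] (m n r0 : ℕ) (b : Fin m → ℕ)
    (Q : (Fin (m + 1) ⊕ σ →₀ ℕ) → Prop)
    (hQ : ∀ ε, Q ε → (fl ε).degree = n ∧ (fr ε).degree = r0 ∧
      ∀ i : Fin m, ε (Sum.inl i.castSucc) < b i) :
    ∃ s : Finset (Fin (m + 1) ⊕ σ →₀ ℕ), (∀ ε, ε ∈ s ↔ Q ε) ∧
      s.card ≤ (∏ i, b i) * (r0 + 1) ^ Fintype.card σ := by
  classical
  let φ : (Fin (m + 1) ⊕ σ →₀ ℕ) → (Fin m → ℕ) × (σ → ℕ) := fun ε =>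
    (fun i => ε (Sum.inl i.castSucc), fun a => ε (Sum.inr a))
  let T : Finset ((Fin m → ℕ) × (σ → ℕ)) := (Fintype.piFinset fun i => Finset.range (b i)) ×ˢ
    Fintype.piFinset fun _ => Finset.range (r0 + 1)
  have h1 : Set.MapsTo φ {ε | Q ε} T := fun ε hε => by
    obtain ⟨-, h2, h3⟩ := hQ ε hε
    simp only [T, φ, Finset.coe_product, Set.mem_prod, Finset.mem_coe, Fintype.mem_piFinset,
      Finset.mem_range]
    exact ⟨h3, fun a => Nat.lt_succ_of_le (h2 ▸ Finsupp.le_degree a (fr ε))⟩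
  have h2 : Set.InjOn φ {ε | Q ε} := fun ε hε ε' hε' h => by
    have a1 : ∀ i : Fin m, ε (Sum.inl i.castSucc) = ε' (Sum.inl i.castSucc) :=
      congrFun (congrArg Prod.fst h)
    have a2 : ∀ a, ε (Sum.inr a) = ε' (Sum.inr a) := congrFun (congrArg Prod.snd h)
    have a3 := (hQ ε hε).1.trans (hQ ε' hε').1.symm
    rw [Finsupp.degree_eq_sum, Finsupp.degree_eq_sum, Fin.sum_univ_castSucc,
      Fin.sum_univ_castSucc] at a3
    simp only [fl, Finsupp.comapDomain_apply, a1, add_right_inj] at a3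
    ext (i | a)
    · induction i using Fin.lastCases with
      | last => exact a3
      | cast i => exact a1 i
    · exact a2 a
  have h3 : {ε | Q ε}.Finite := Set.Finite.of_injOn h1 h2 T.finite_toSet
  refine ⟨h3.toFinset, fun ε => h3.mem_toFinset, ?_⟩
  refine (Finset.card_le_card_of_injOn φ (by simpa using h1) (by simpa using h2)).trans_eq ?_
  simp [T]

end T58

theorem st_CNB : St_CNB := by
  intro σ _
  refine ⟨fun m n r0 => ?_, fun g n r0 m0 => ?_⟩
  · simpa using T58.count_exp (σ := σ) m n r0 (fun _ => n + 1)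
      (fun ε => (fl ε).degree = n ∧ (fr ε).degree = r0) fun ε h =>
        ⟨h.1, h.2, fun i => Nat.lt_succ_of_le (h.1 ▸ Finsupp.le_degree i.castSucc (fl ε))⟩
  · have h := T58.count_exp (σ := σ) (g + 2) n r0 (Fin.cons m0 (Fin.cons m0 fun _ => n + 1))
      (fun ε => (fl ε).degree = n ∧ (fr ε).degree = r0 ∧ o2 ε < m0) fun ε h =>
        ⟨h.1, h.2.1, fun i => by
          have h3 := h.2.2
          unfold o2 at h3
          refine Fin.cases ?_ (fun j => Fin.cases ?_ (fun l => ?_) j) i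
          · exact lt_of_le_of_lt (Nat.le_add_right _ _) h3
          · exact lt_of_le_of_lt (Nat.le_add_left _ _) h3
          · exact Nat.lt_succ_of_le (h.1 ▸ Finsupp.le_degree _ (fl ε))⟩
    simpa [Fin.prod_univ_succ, ← mul_assoc, ← sq] using h

end D4C
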