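import Pool.Agent.Lib.D4C.BlueA

namespace D4C

theorem T51.card_idx (g k T d : ℕ) (κ : Fin (k + 1) → ℕ) :
    Fintype.card (Idx g k T d κ) = ∏ i, (4 ^ κ i * (dd T d i + 1)) ^ g := by
  simp only [Idx, Fintype.card_prod, Fintype.card_pi, Fintype.card_fin, Finset.prod_const,
    Finset.card_univ, mul_pow, Finset.prod_mul_distrib, ← pow_mul, mul_comm g]

theorem st_CNT : St_CNT := by
  intro g m c b b' s hg hc
  set K := (s + 1) ^ c * (b * (b * b' + 1) ^ m) with hK
  refine ⟨2 * K ^ (g + 1) + 1, fun T hT d κ δ hd hδ => ⟨?_, fun i0 hi hT1 => ?_⟩⟩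
  · have hT1 : 1 ≤ T := by omega
    have h1 : ∀ i, (s * d * 4 ^ κ i + 1) ^ c * (b * (b * δ i + 1) ^ m) ≤
        K * T ^ m * (4 ^ κ i * d) ^ g := fun i => by
      have h0 : 1 ≤ d * 4 ^ κ i := Nat.mul_pos hd (by positivity)
      have h2 : s * d * 4 ^ κ i + 1 ≤ (s + 1) * (4 ^ κ i * d) := by nlinarith
      have h3 : b * δ i + 1 ≤ (b * b' + 1) * (T * (4 ^ κ i * d)) := by
        have h4 := Nat.mul_le_mul_left b (hδ i)
        have h5 : 1 ≤ T * (d * 4 ^ κ i) := Nat.mul_pos hT1 h0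
        nlinarith
      refine (Nat.mul_le_mul (Nat.pow_le_pow_left h2 c)
        (Nat.mul_le_mul_left b (Nat.pow_le_pow_left h3 m))).trans (le_of_eq ?_)
      rw [hK, ← hg]
      simp only [mul_pow, pow_add]
      ring
    have h2 : T ^ (g * g) * ∏ i, (4 ^ κ i * d) ^ g ≤ Fintype.card (Idx g g T d κ) := by
      rw [T51.card_idx, Fin.prod_univ_succ, Fin.prod_univ_succ, mul_left_comm]
      refine Nat.mul_le_mul (Nat.pow_le_pow_left (Nat.mul_le_mul_left _ (by simp [dd])) _) ?_
      have e : T ^ (g * g) = ∏ _i : Fin g, T ^ g := by simp [← pow_mul]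
      rw [e, ← Finset.prod_mul_distrib]
      refine Finset.prod_le_prod' fun i _ => ?_
      rw [← mul_pow]
      refine Nat.pow_le_pow_left ?_ _
      rw [dd, if_neg (Fin.succ_ne_zero i)]
      nlinarith [Nat.zero_le (4 ^ κ i.succ)]
    refine le_trans ?_ h2
    refine (Nat.mul_le_mul_left 2 (Finset.prod_le_prod' fun i _ => h1 i)).trans ?_
    rw [Finset.prod_mul_distrib, Finset.prod_const, Finset.card_univ, Fintype.card_fin, ← mul_assoc,
      mul_pow, ← mul_assoc, ← pow_mul]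
    refine Nat.mul_le_mul_right _ ?_
    calc 2 * K ^ (g + 1) * T ^ (m * (g + 1)) ≤ T * T ^ (m * (g + 1)) :=
          Nat.mul_le_mul_right _ (by omega)
      _ = T ^ (m * (g + 1) + 1) := by ring
      _ ≤ T ^ (g * g) := Nat.pow_le_pow_right hT1 (by subst hg; nlinarith)
  · rw [T51.card_idx, Nat.cast_prod, Real.log_prod fun i _ => by positivity]
    have hX : (1 : ℝ) ≤ T * d := by exact_mod_cast Nat.mul_pos hT1 hd
    have hY : (1 : ℝ) ≤ 4 ^ i0 := one_le_pow₀ (by norm_num)
    have h1 : ∀ i, Real.log (((4 ^ κ i * (dd T d i + 1)) ^ g : ℕ) : ℝ) ≤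
        g * (2 * (T * d * 4 ^ i0)) := fun i => by
      push_cast
      rw [Real.log_pow, Real.log_mul (by positivity) (by positivity)]
      refine mul_le_mul_of_nonneg_left ?_ (Nat.cast_nonneg _)
      have h2 : Real.log (4 ^ κ i) ≤ 4 ^ i0 :=
        (Real.log_le_self (by positivity)).trans (pow_le_pow_right₀ (by norm_num) (hi i))
      have h3 : Real.log ((dd T d i : ℝ) + 1) ≤ T * d := by
        refine (Real.log_le_sub_one_of_pos (by positivity)).trans ?_
        rw [add_sub_cancel_right, dd]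
        split_ifs
        · exact_mod_cast Nat.le_mul_of_pos_left d hT1
        · exact_mod_cast le_rfl
      nlinarith
    refine (Finset.sum_le_card_nsmul _ _ _ fun i _ => h1 i).trans ?_
    rw [Finset.card_univ, Fintype.card_fin, nsmul_eq_mul]
    push_cast
    have hg0 : (0 : ℝ) ≤ g := Nat.cast_nonneg _
    have hZ : (0 : ℝ) ≤ T * d * 4 ^ i0 := by positivity
    nlinarith [mul_nonneg hg0 hZ, mul_nonneg (mul_nonneg hg0 hg0) hZ]

end D4C
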