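import Pool.Agent.Lib.D4C.BlueU

/-! codimension two passes to the small field -/

open MvPolynomial Filter

namespace D4C

namespace T23

variable {L σ : Type} [Field L] [Fintype σ] [DecidableEq σ] (B : Pkg L σ) {r : ℕ}
  (f : Fin r → MvPolynomial σ L)

theorem alg_pullF {R S : Type} [CommRing R] [CommRing S] [Algebra L R] [Algebra L S]
    (ψ : MvPolynomial σ R →ₐ[L] S) (v : σ → R) (u : Fin B.nl × Fin r) :
    ψ (pullF B f v u) = aeval (ev2 (B.A u.1) (fun s => ψ (X s)) fun s => ψ (C (v s))) (f u.2) := by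
  rw [pullF, ← aeval_map_alg, ev2_map]

theorem map_pullF {R S : Type} [CommRing R] [CommRing S] [Algebra L R] [Algebra L S]
    (φ : R →+* S) (h : ∀ a, φ (algebraMap L R a) = algebraMap L S a) (v : σ → R)
    (u : Fin B.nl × Fin r) :
    MvPolynomial.map φ (pullF B f v u) = pullF B f (fun s => φ (v s)) u := by
  have := alg_pullF B f (mapAlgHom (σ := σ) { φ with commutes' := h }) v u
  simpa [pullF] using this

theorem pullF_hom {e : ℕ} (hf : ∀ i, (f i).IsHomogeneous e) {R : Type} [CommRing R] [Algebra L R]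
    (v : σ → R) (u : Fin B.nl × Fin r) : (pullF B f v u).IsHomogeneous (B.β * e) := by
  refine (hf u.2).aeval _ fun s => ?_
  rw [ev2, (B.A u.1 s).as_sum, map_sum]
  refine IsHomogeneous.sum _ _ _ fun d hd => ?_
  have h1 := congrArg Prod.fst (B.A_hom u.1 s (mem_support_iff.mp hd))
  rw [Finsupp.weight_apply, Finsupp.sum, Prod.fst_sum] at h1
  rw [aeval_monomial, ← zero_add B.β]
  refine IsHomogeneous.mul (isHomogeneous_C _ _) ?_
  rw [← show _ = B.β from h1]
  refine IsHomogeneous.prod _ _ _ fun t _ => ?_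
  cases t with
  | inl t => simpa [bw] using (isHomogeneous_X R t).pow (d (Sum.inl t))
  | inr t => simpa [bw] using (isHomogeneous_C σ (v t)).pow (d (Sum.inr t))

theorem cd_zero {k : Type} [Field k] {q : Ideal (MvPolynomial σ k)} (hq : q.IsPrime)
    (h : ∀ i, X i ∈ q) : cd q = 0 := by
  have : Algebra.IsAlgebraic k (MvPolynomial σ k ⧸ q) := ⟨fun a => by
    obtain ⟨G, rfl⟩ := Ideal.Quotient.mk_surjective a
    have : Ideal.Quotient.mkₐ k q = (Algebra.ofId k _).comp (aeval fun _ => 0) :=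
      algHom_ext fun i => by simpa using Ideal.Quotient.eq_zero_iff_mem.mpr (h i)
    rw [show Ideal.Quotient.mk q G = _ from congr($this G)]
    exact isAlgebraic_algebraMap _⟩
  exact trdeg_eq_zero

theorem exists_hom (hLOC : St_LOC) (hDIM : St_DIM) {k : Type} [Field k]
    {q' : Ideal (MvPolynomial σ k)} (hq : q'.IsPrime) (h : ∃ i, X i ∉ q') :
    ∃ (q : Ideal (MvPolynomial σ k)) (m : ℕ), q.IsPrime ∧ IsHom q ∧ cd q = (m + 1 : ℕ) ∧
      cd q' ≤ cd q ∧ ∀ G ∈ q', ∀ n, G.IsHomogeneous n → G ∈ q := by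
  let Ω := FractionRing (MvPolynomial σ k ⧸ q')
  let x : σ → Ω := fun i => algebraMap (MvPolynomial σ k ⧸ q') Ω (Ideal.Quotient.mk q' (X i))
  have hx (G : MvPolynomial σ k) : aeval x G = 0 ↔ G ∈ q' := by
    have : aeval x = (IsScalarTower.toAlgHom k _ Ω).comp (Ideal.Quotient.mkₐ k q') :=
      algHom_ext fun i => by simp [x]
    rw [this, ← Ideal.Quotient.eq_zero_iff_mem]
    exact map_eq_zero_iff _ (IsFractionRing.injective (MvPolynomial σ k ⧸ q') Ω)
  obtain ⟨i, hi⟩ := h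
  obtain ⟨h1, h2, h3, -, h4⟩ := hLOC k σ Ω x fun h0 =>
    hi ((hx _).mp (by simpa using congrFun h0 i))
  obtain ⟨⟨n, hn⟩, -, h5⟩ := hDIM k σ _ h2
  have hle : loc k x ≤ q' := Ideal.span_le.mpr fun G hG => (hx G).mp hG.2
  refine ⟨loc k x, n - 1, h2, h1, ?_, ?_, fun G hG n hn => (h3.2 G n hn).mp ((hx G).mpr hG)⟩
  · rw [hn, Nat.sub_add_cancel]
    rw [Nat.one_le_iff_ne_zero]
    rintro rfl
    simp [h4] at hn
  · exact hle.eq_or_lt.elim (fun e => (congrArg cd e).ge) fun e => (h5 q' hq e).le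

end T23

open T23

theorem st_COD (hDOWN : St_DOWN) (hLOC : St_LOC) (hDIM : St_DIM) (hRATL : St_RATL)
    (_hLOS : St_LOS) (hSUBF : St_SUBF) : St_COD := by
  intro L σ _ _ _ _ B r e f hf U x L' F _ _ _ _ _ _ _ B' g x' y hD hg hC κ _ _ v hv q' hq h1 h2
  by_cases h0 : ∀ i, X i ∈ q'
  · rw [cd_zero hq h0]
    exact_mod_cast (by omega : 0 + 2 ≤ g + 1 + 1)
  push Not at h0
  obtain ⟨q, m, q1, q2, q3, q4, q5⟩ := exists_hom hLOC hDIM hq h0
  obtain ⟨yr, hy, hv⟩ := hv
  obtain ⟨s, hs⟩ := (IsNoetherian.noetherian B'.I : B'.I.FG)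
  let _ : Algebra L (Ul U L') := ((algebraMap L' (Ul U L')).comp (algebraMap L L')).toAlgebra
  have hd := hDOWN U L' σ κ q m q1 q2 q3 (s ⊕ Fin B.nl × Fin r)
    (Sum.elim (fun G => MvPolynomial.map (algebraMap L' κ) G.1) (pullF B f v))
    (Sum.elim (fun G => MvPolynomial.map (algebraMap L' (ℕ → L')) G.1)
      (pullF B f fun s n => yr n s)) (by
      rintro (G | u)
      · have hG : MvPolynomial.map (algebraMap L' κ) G.1 ∈ ext B'.I κ :=
          Ideal.mem_map_of_mem _ (hs ▸ Ideal.subset_span G.2)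
        rw [Sum.elim_inl, ← sum_homogeneousComponent (MvPolynomial.map _ _)]
        exact sum_mem fun n _ => q5 _ (h1 (B'.hom.ext _ hG n)) n
          (homogeneousComponent_isHomogeneous n _)
      · exact q5 _ (h2 u) _ (pullF_hom B f hf v u)) (by
      rintro (G | u)
      · rw [Sum.elim_inl, Sum.elim_inl, MvPolynomial.map_map, MvPolynomial.map_map]
        rfl
      · rw [Sum.elim_inr, Sum.elim_inr, map_pullF B f (toU U (L := L')).toRingHom fun _ => rfl,
          map_pullF B f (algebraMap κ (Ul U L')) fun a => by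
            rw [IsScalarTower.algebraMap_apply L L' κ, ← IsScalarTower.algebraMap_apply]; rfl]
        exact congrArg (fun w => pullF B f w u) hv.symm)
  obtain ⟨n, n1, n2, n3, n4⟩ := (hd.and (hD.eq.and (hy.and hC))).exists
  obtain ⟨Ω, _, _, _, _, w, w0, w1, w2⟩ := n1 F
  let _ : Algebra L Ω := ((algebraMap F Ω).comp (algebraMap L F)).toAlgebra
  have : IsScalarTower L F Ω := IsScalarTower.of_algebraMap_eq' rfl
  have : IsScalarTower L L' Ω := IsScalarTower.of_algebraMap_eq fun a => by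
    rw [IsScalarTower.algebraMap_apply L' F Ω, ← IsScalarTower.algebraMap_apply L L' F]
    rfl
  have hz : Zr B'.I w := fun G hG => by
    have : B'.I ≤ RingHom.ker (aeval w : MvPolynomial σ L' →ₐ[L'] Ω) := by
      rw [← hs, Ideal.span_le]
      intro G hG
      have h3 := w1 (Sum.inl ⟨G, hG⟩)
      rwa [Sum.elim_inl, MvPolynomial.map_map,
        show (lv L' n).comp (algebraMap L' (ℕ → L')) = RingHom.id _ from rfl,
        MvPolynomial.map_id] at h3
    exact this hG
  let b' := B'.pt w (uni_iff_ne_zero.mpr w0) hz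
  have hb' : B'.Rep b' w := Pkg.rep_pt _ _ _
  let ι := IsScalarTower.toAlgHom L L' Ω
  let b₁ := b' - B'.map (IsScalarTower.toAlgHom L' F Ω) (B'.map (Algebra.ofId L' F) (x' n))
  obtain ⟨w₁, hw₁⟩ := Pkg.exists_rep b₁
  obtain ⟨a, ha⟩ := (hD.sub.rep hb').exists_add (n3.map ι)
  have h3 : B.map (Algebra.ofId L Ω) (x n) + hD.sub.hom Ω b₁ =
      hD.sub.hom Ω b' + B.map ι (y n) := by
    have h4 : B.map (Algebra.ofId L Ω) (x n) = B.map ι (B.map (Algebra.ofId L L') (x n)) := by
      rw [Pkg.map_map]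
      congr 2
      exact Subsingleton.elim _ _
    obtain ⟨t, ht⟩ := Pkg.exists_rep (x' n)
    have h5 : hD.sub.hom Ω (B'.map (IsScalarTower.toAlgHom L' F Ω)
        (B'.map (Algebra.ofId L' F) (x' n))) = B.map ι (hD.sub.hom L' (x' n)) :=
      (hD.sub.rep ((ht.map _).map _)).eq ((hD.sub.rep ht).map ι) (by
        convert Par.refl _ using 2 with i
        exact IsScalarTower.algebraMap_apply L' F Ω _)
    rw [h4, n2, map_add, map_sub, h5]
    abel
  have h6 := n4 Ω (hD.sub.hom Ω b₁) w₁ _ (hD.sub.rep hw₁) (zr_ext.mpr hw₁.zr) (h3 ▸ ha) fun i => by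
    have h7 := w1 (Sum.inr (a, i))
    rw [Sum.elim_inr, map_pullF B f (lv L' n) fun _ => rfl] at h7
    have h8 := alg_pullF B f ((aeval w : MvPolynomial σ L' →ₐ[L'] Ω).restrictScalars L)
      (yr n) (a, i)
    simp only [AlgHom.coe_restrictScalars', aeval_X, aeval_C] at h8
    exact h8.symm.trans h7
  have h7 := hRATL L' σ B' F Ω (B'.map (Algebra.ofId L' F) (x' n)) b₁ w₁ w hw₁
    (by rw [add_sub_cancel]; exact hb')
  rw [(hSUBF L σ B L' F B' (g + 1) hD.sub hg).2] at h6
  exact (add_le_add_left (q4.trans (q3.le.trans (w2.trans h7))) 2).trans h6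

end D4C
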