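import Pool.Agent.Lib.D4C.T83W

/-! Reduction modulo monic equations. -/

namespace D4C

open MvPolynomial T83

theorem T83.exists_rem {L : Type} [Field L] {m D1 : ℕ} {P : ZT L m} {A : Finset L} (hP : P.Monic)
    (hs : SmQ D1 A P) (k : ℕ) : ∃ r : ZT L m, P ∣ Polynomial.X ^ k - r ∧
      r.natDegree ≤ P.natDegree ∧ (∀ l, (r.coeff l).totalDegree ≤ D1 * k) ∧
      ∀ v : AbsoluteValue L ℝ, ∑ l ∈ Finset.range (P.natDegree + 1), l1 v (r.coeff l) ≤
        ((D1 + 1) ^ (m + 1) * hv v A) ^ k := by
  induction k with
  | zero =>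
    refine ⟨1, by simp, by simp, fun l => ?_, fun v => ?_⟩
    · rw [Polynomial.coeff_one]
      split_ifs <;> simp
    · simp [Finset.sum_range_succ', Polynomial.coeff_one, l1_zero, l1_one]
  | succ k ih =>
    obtain ⟨r, h1, h2, h3, h4⟩ := ih
    set N := P.natDegree
    refine ⟨Polynomial.X * (r - Polynomial.C (r.coeff N) * P), ?_, ?_, fun l => ?_, fun v => ?_⟩
    · have : Polynomial.X ^ (k + 1) - Polynomial.X * (r - Polynomial.C (r.coeff N) * P) =
          Polynomial.X * (Polynomial.X ^ k - r) + Polynomial.X * Polynomial.C (r.coeff N) * P := by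
        ring
      rw [this]
      exact (h1.mul_left _).add (dvd_mul_left _ _)
    · refine Polynomial.natDegree_le_iff_coeff_eq_zero.2 fun l hl => ?_
      obtain ⟨l, rfl⟩ : ∃ j, l = j + 1 := ⟨l - 1, by omega⟩
      rw [Polynomial.coeff_X_mul, Polynomial.coeff_sub, Polynomial.coeff_C_mul]
      rcases (Nat.lt_succ_iff.1 hl).eq_or_lt with e | e
      · rw [← e, hP.coeff_natDegree, mul_one, sub_self]
      · rw [Polynomial.coeff_eq_zero_of_natDegree_lt e,
          Polynomial.coeff_eq_zero_of_natDegree_lt (h2.trans_lt e), mul_zero, sub_zero]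
    · rcases l with _ | l
      · simp
      · rw [Polynomial.coeff_X_mul, Polynomial.coeff_sub, Polynomial.coeff_C_mul]
        refine (totalDegree_sub _ _).trans (max_le ((h3 l).trans (by nlinarith))
          ((totalDegree_mul _ _).trans (add_le_add (h3 N) (hs.2 l).1)))
    · have H1 := one_le_hv v A
      have D0 : (1 : ℝ) ≤ (D1 + 1) ^ m := one_le_pow₀ (by simp)
      set S := ((D1 + 1 : ℝ) ^ (m + 1) * hv v A) ^ k
      have S0 : 0 ≤ S := by positivity
      have a1 : l1 v (r.coeff N) ≤ S := (Finset.single_le_sum (f := fun l => l1 v (r.coeff l))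
        (fun l _ => l1_nonneg v _) (Finset.self_mem_range_succ N)).trans (h4 v)
      have a2 : ∑ l ∈ Finset.range N, l1 v (r.coeff l) ≤ S := by
        have := h4 v
        rw [Finset.sum_range_succ] at this
        linarith [l1_nonneg v (r.coeff N)]
      rw [Finset.sum_range_succ', Polynomial.coeff_X_mul_zero, l1_zero, add_zero]
      refine (Finset.sum_le_sum (g := fun l => l1 v (r.coeff l) + S * ((D1 + 1) ^ m * hv v A))
        fun l _ => ?_).trans ?_
      · rw [Polynomial.coeff_X_mul, Polynomial.coeff_sub, Polynomial.coeff_C_mul]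
        refine (l1_sub v _ _).trans (add_le_add le_rfl ((l1_mul v _ _).trans
          (mul_le_mul a1 ?_ (l1_nonneg v _) S0)))
        simpa using l1_smp v (hs.2 l)
      · rw [Finset.sum_add_distrib, Finset.sum_const, Finset.card_range, nsmul_eq_mul, pow_succ _ k]
        change _ ≤ S * _
        rw [pow_succ _ m]
        have a3 : (N : ℝ) ≤ D1 := by exact_mod_cast hs.1
        have a4 := one_le_mul_of_one_le_of_one_le D0 H1
        have a5 := mul_le_mul_of_nonneg_right a3 (mul_nonneg S0 (zero_le_one.trans a4))
        nlinarith [mul_le_mul_of_nonneg_left a4 S0]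

theorem st_REDU : St_REDU := by
  intro L _ K m D1 P A h
  classical
  choose r h1 h2 h3 h4 using fun i => exists_rem (h i).1 (h i).2
  let M : (Fin K × Option (Fin m) →₀ ℕ) → AA L K m := fun d =>
    ∏ i, toA i (r i (d (i, none))) * ∏ j, X (i, some j) ^ d (i, some j)
  let red : AA L K m →ₗ[L] AA L K m := (basisMonomials _ L).constr L M
  have e : ∀ G, red G = ∑ d ∈ G.support, coeff d G • M d := fun G => by
    conv_lhs => rw [G.as_sum, map_sum]
    refine Finset.sum_congr rfl fun d _ => ?_
    rw [← Module.Basis.constr_basis (basisMonomials _ L) L M d, ← map_smul]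
    simp [smul_monomial, red]
  have le : ∀ {G : AA L K m} {b}, BD b G → ∀ d ∈ G.support, ∀ x, d x ≤ b x.1 := fun hG d hd x =>
    (Finsupp.le_degree x.2 (d.curry x.1)).trans (hG d hd x.1)
  refine ⟨red, fun R _ _ f hf G => ?_, fun G b hG => ⟨fun d hd i => ?_, fun v => ?_⟩⟩
  · conv_rhs => rw [G.as_sum]
    rw [e, map_sum, map_sum]
    refine Finset.sum_congr rfl fun d _ => ?_
    rw [monomial_eq, ← smul_eq_C_mul, map_smul, map_smul, Finsupp.prod_fintype _ _ (by simp),
      Fintype.prod_prod_type, map_prod, map_prod]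
    refine congrArg _ (Finset.prod_congr rfl fun i _ => ?_)
    obtain ⟨c, hc⟩ := h1 i (d (i, none))
    have := congrArg (fun q => f (toA i q)) hc
    simp only [map_mul, hf, zero_mul, map_sub, sub_eq_zero, map_pow] at this
    rw [Fintype.prod_option, map_mul, map_mul, map_pow, ← this, toA, evZT_X]
  · have key : ∀ (o : Option (Fin m)) (a n : ℕ), (o ≠ none → a = 1) →
        (∀ d ∈ G.support, a * (D1 * d (i, none)) + (1 - a) * D1 + a * b i ≤ n) → (o = none → a = 0) →
        d (i, o) ≤ n := fun o a n ha hn ha' => by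
      have : red G ∈ WS L (Pi.single (i, o) 1) n := by
        rw [e]
        refine Submodule.sum_mem _ fun d hd => Submodule.smul_mem _ _ (WS_mono _ ?_
          (SetLike.prod_mem_graded _ (fun i' => (if i' = i then a else 0) * (D1 * d (i', none)) +
            (if i' = i then 1 - a else 0) * D1 + ∑ j, d (i', some j) • (Pi.single (i, o) 1 :
              Fin K × Option (Fin m) → ℕ) (i', some j)) _ fun i' _ => SetLike.mul_mem_graded
            (toA_mem i' ((h2 _ _).trans (h i').2.1) (h3 _ _) (fun j => ?_) ?_)
            (SetLike.prod_pow_mem_graded _ _ _ _ fun j _ => X_mem_WS le_rfl)))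
        · refine le_trans ?_ (hn d hd)
          rw [Finset.sum_eq_single i (fun i' _ hi => by simp [hi]) (by simp), if_pos rfl, if_pos rfl]
          refine add_le_add le_rfl ?_
          rcases o with _ | j
          · simp
          · simpa [ha, Pi.single_apply] using le hG d hd (i, some j)
        · rcases o with _ | o <;> simp [Pi.single_apply, ha]
          split_ifs <;> simp_all
        · rcases o with _ | o <;> simp [Pi.single_apply, ha']
      simpa [Finsupp.weight_single_one_apply] using this hd
    refine ⟨key none 0 _ (by simp) (by simp) (by simp), fun j =>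
      key (some j) 1 _ (by simp) (fun d hd => ?_) (by simp)⟩
    have : _ ≤ D1 * b i := Nat.mul_le_mul_left D1 (le hG d hd (i, none))
    simp only [add_mul]
    omega
  · rw [e, l1.eq_1 v G, Finset.sum_mul]
    refine (l1_sum v _ _).trans (Finset.sum_le_sum fun d hd => (l1_smul v _ _).trans
      (mul_le_mul_of_nonneg_left ((l1_prod v _ _).trans (Finset.prod_le_prod
        (fun i _ => l1_nonneg v _) fun i _ => (l1_mul v _ _).trans ?_)) (v.nonneg _)))
    have := l1_prod v Finset.univ fun j => (X (i, some j) ^ d (i, some j) : AA L K m)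
    simp only [l1_X_pow, Finset.prod_const_one] at this
    refine (mul_le_of_le_one_right (l1_nonneg v _) this).trans (((l1_toA v i (h2 _ _)).trans
      (h4 i _ v)).trans (pow_le_pow_right₀ ?_ (le hG d hd (i, none))))
    exact one_le_mul_of_one_le_of_one_le (one_le_pow₀ (by simp)) (one_le_hv v _)

end D4C
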