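import Pool.Agent.Lib.D4C.B_EXP
import Pool.Agent.Lib.D4C.B_REDU

/-! Construction of the auxiliary form. -/

namespace D4C

open MvPolynomial T83

theorem st_CONS (hS : St_SIEG) (hL : St_LG) : St_CONS := by
  intro L σ _ _ _ _ B g C m D1 c2 A2
  classical
  obtain ⟨c1, b1, A1, h1, hE⟩ := st_EXP L σ B g C m D1
  obtain ⟨C0, hC, hS⟩ := hS L
  obtain ⟨c3, k1, k2, k3⟩ : ∃ c3 : ℕ, c1 ≤ c3 ∧ c2 ≤ c3 ∧ (D1 + 1) ^ (m + 1) ≤ c3 :=
    ⟨c1 + c2 + (D1 + 1) ^ (m + 1), by omega, by omega, by omega⟩
  have c31 : (1 : ℝ) ≤ c3 := by exact_mod_cast h1.trans k1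
  have hA0 : ∀ A : Finset L, 0 ≤ hA A := fun A =>
    Finset.sum_nonneg fun _ _ => Height.zero_le_logHeight₁ _
  obtain ⟨u, hu, u0⟩ : ∃ u, u = Module.finrank ℚ L * Real.log c3 + hA (A1 ∪ A2) ∧ 0 ≤ u :=
    ⟨_, rfl, by have := hA0 (A1 ∪ A2); have := Real.log_nonneg c31; positivity⟩
  refine ⟨(D1 + 1) * (b1 + 1), C0 * ((2 * b1 + 1) * (u + 1) + 1), by positivity,
    fun K c E S μ ι P φ A w δ n I _ e _ hι hφ hP hw hn he hc => ?_⟩
  obtain ⟨G, hG, hG'⟩ := hE K c μ ι φ A hι hφ
  obtain ⟨red, hr, hr'⟩ := st_REDU L K m D1 P A hP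
  let Row := ∀ i, (Fin c → Fin (n i + 1)) × Fin ((D1 + 1) * (b1 + 1)) ×
    (Fin m → Fin ((D1 + 1) * (b1 + 1) * δ i + 1))
  let Jr : Row → Fin K × Fin c →₀ ℕ := fun ρ =>
    Finsupp.equivFunOnFinite.symm fun x => (ρ x.1).1 x.2
  let dr : Row → Fin K × Option (Fin m) →₀ ℕ := fun ρ =>
    Finsupp.equivFunOnFinite.symm fun x => x.2.elim (ρ x.1).2.1 fun j => (ρ x.1).2.2 j
  let M : Row → I → L := fun ρ ω =>
    if wt w (Jr ρ) < S then coeff (dr ρ) (red (G (Jr ρ) (e ω))) else 0
  have X0 : 0 ≤ ∑ i, δ i * hA (A i) := Finset.sum_nonneg fun i _ => by have := hA0 (A i); positivity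
  have I0 : 0 < Fintype.card I := lt_of_lt_of_le (by positivity) hc
  refine (hS Row I M
    ((2 * b1 + 1) * (u + 1) * (E + S + ∑ i, δ i + ∑ i, δ i * hA (A i))) (by positivity)
    (by simpa [Row] using hc) I0 fun ρ => ?_).elim fun cf ⟨f0, f1, f2⟩ => ?_
  swap
  · refine ⟨cf, f0, f2.trans ?_, fun z t η hη q J hJ => ?_⟩
    · rw [mul_assoc C0]
      refine mul_le_mul_of_nonneg_left ?_ hC
      have := Real.log_natCast_nonneg (Fintype.card I)
      have : 0 ≤ (2 * b1 + 1) * (u + 1) * (Real.log (Fintype.card I) + 1) := by positivity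
      have : (0 : ℝ) ≤ E + S + ∑ i, δ i := by positivity
      nlinarith
    · rw [hG, ← hr _ (evA z η) fun i => ?_]
      · suffices h : red (G J (∑ ω, cf ω • e ω)) = 0 by rw [h, map_zero, map_zero]
        ext d
        simp only [map_sum, map_smul, coeff_sum, coeff_smul, coeff_zero, smul_eq_mul]
        by_cases h : ∃ ω, d ∈ (red (G J (e ω))).support
        · obtain ⟨ω, h⟩ := h
          have h2 := (hr' _ _ (hG' _ δ (he ω).1 J).1).1 d h
          have h3 : ∀ i j, J (i, j) < n i + 1 := fun i j => by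
            have : J (i, j) * w i ≤ wt w J := by
              rw [wt, Finsupp.weight_apply, Finsupp.sum_fintype _ _ (by simp)]
              exact Finset.single_le_sum (f := fun x : Fin K × Fin c => J x * w x.1)
                (fun _ _ => Nat.zero_le _) (Finset.mem_univ (i, j))
            have := hn i
            have := hw i
            nlinarith
          let ρ : Row := fun i => (fun j => ⟨J (i, j), h3 i j⟩, ⟨d (i, none), by
            have := (h2 i).1; nlinarith⟩, fun j => ⟨d (i, some j), by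
            have := (h2 i).2 j; nlinarith [Nat.zero_le ((D1 + 1) * δ i)]⟩)
          have e1 : Jr ρ = J := Finsupp.ext fun _ => rfl
          have e2 : dr ρ = d := Finsupp.ext fun ⟨i, o⟩ => by cases o <;> rfl
          simpa [M, e1, e2, hJ, mul_comm] using f1 ρ
        · exact Finset.sum_eq_zero fun ω _ => by
            rw [notMem_support_iff.1 fun k => h ⟨ω, k⟩, mul_zero]
      · have := congrArg (MvPowerSeries.rename (Prod.mk i)) (hη i).2
        rw [map_evZT, map_zero] at this
        rw [toA, map_evZT]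
        simpa [evA, blk_eq] using this
  · by_cases h0 : M ρ = 0
    · rw [h0, Height.logHeight_zero]
      positivity
    have hJ : wt w (Jr ρ) < S := by
      by_contra k
      exact h0 (funext fun ω => if_neg k)
    have hd : (Jr ρ).degree ≤ S := by
      refine le_trans ?_ hJ.le
      rw [wt, Finsupp.weight_apply, Finsupp.degree_apply]
      exact Finset.sum_le_sum fun x _ => Nat.le_mul_of_pos_right _ (hw x.1)
    have := hL L I Empty Unit Unit (M ρ) 1 (fun _ => 1) (fun _ => 0) (fun _ => 0)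
      (c3 ^ (E + S + 2 * b1 * ∑ i, δ i)) (Option (Fin K)) (fun o => o.elim (A1 ∪ A2) A)
      (fun o => o.elim (E + S + 2 * b1 * ∑ i, δ i) fun i => 2 * b1 * δ i) 1 h0 one_ne_zero
      (fun _ => one_ne_zero) (one_le_pow₀ c31) one_ne_zero fun v => ?_
    · simp only [Finset.univ_eq_empty, Finset.sum_empty, add_zero, Height.logHeight_one, mul_zero,
        Fintype.sum_option, Option.elim, Real.log_pow, Nat.cast_mul, mul_assoc,
        ← Finset.mul_sum] at this
      refine this.trans ?_
      have : (0 : ℝ) ≤ ∑ i, δ i := by positivity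
      push_cast at this ⊢
      calc _ = (E + S + 2 * b1 * ∑ i, (δ i : ℝ)) * u + 2 * b1 * ∑ i, δ i * hA (A i) := by
            rw [hu]; ring
        _ ≤ _ := by
          generalize ∑ i, (δ i : ℝ) = x, ∑ i, δ i * hA (A i) = y at *
          have : (0 : ℝ) ≤ 2 * b1 * (E + S) * (u + 1) + (E + S) + x * u + (2 * b1 + 1) * x +
            (2 * b1 + 1) * u * y + y := by positivity
          nlinarith
    · obtain ⟨ω, -, k⟩ := exists_sn v h0
      have H := fun i => zero_le_one.trans (one_le_hv v (A i))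
      have H1 := one_le_hv v (A1 ∪ A2)
      have key : ∀ (a : ℕ) (A' : Finset L), a ≤ c3 → A' ⊆ A1 ∪ A2 →
          a * hv v A' ≤ c3 * hv v (A1 ∪ A2) := fun a A' h k => mul_le_mul (by exact_mod_cast h)
        (hv_mono v k) (zero_le_one.trans (one_le_hv v _)) (Nat.cast_nonneg _)
      have nn : ∀ (a : ℕ) (A' : Finset L), 0 ≤ a * hv v A' := fun a A' =>
        mul_nonneg (Nat.cast_nonneg _) (zero_le_one.trans (one_le_hv v _))
      have s1 : sn v (1 : Unit → L) = 1 := by simp [sn]
      obtain ⟨g1, g2⟩ := hG' _ δ (he ω).1 (Jr ρ)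
      have a1 : v (M ρ ω) ≤ l1 v (red (G (Jr ρ) (e ω))) := by
        simpa [M, hJ] using sum_le_l1 v (red (G (Jr ρ) (e ω))) {dr ρ}
      simp only [k, s1, Finset.univ_eq_empty, Finset.prod_empty, mul_one, map_one,
        Fintype.prod_option, Option.elim]
      rw [← mul_assoc, ← mul_pow]
      have M1 := one_le_mul_of_one_le_of_one_le c31 H1
      have a2 := ((he ω).2 v).trans (pow_le_pow_left₀ (nn _ _) (key _ _ k2 Finset.subset_union_right) E)
      have a3 := (pow_le_pow_left₀ (nn _ _) (key _ _ k1 Finset.subset_union_left) _).trans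
        (pow_le_pow_right₀ M1 (Nat.add_le_add_right hd (b1 * ∑ i, δ i)))
      have a4 : ((D1 + 1) ^ (m + 1) : ℝ) ≤ c3 * hv v (A1 ∪ A2) := by
        simpa [hv] using key _ ∅ k3 (by simp)
      generalize c3 * hv v (A1 ∪ A2) = N at *
      refine a1.trans (((hr' _ _ g1).2 v).trans ((mul_le_mul ((g2 v).trans
        (mul_le_mul_of_nonneg_right (mul_le_mul a2 a3 (pow_nonneg (nn _ _) _) (by positivity))
          (Finset.prod_nonneg fun i _ => pow_nonneg (H i) _)))
        (Finset.prod_le_prod (fun i _ => by have := H i; positivity) fun i _ => pow_le_pow_left₀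
          (by have := H i; positivity) (mul_le_mul_of_nonneg_right a4 (H i)) _)
        (Finset.prod_nonneg fun i _ => by have := H i; positivity)
        (mul_nonneg (by positivity) (Finset.prod_nonneg fun i _ => pow_nonneg (H i) _))).trans_eq ?_))
      simp only [mul_pow, Finset.prod_mul_distrib, two_mul, add_mul, pow_add]
      rw [Finset.prod_pow_eq_pow_sum, ← Finset.mul_sum]
      ring

end D4C
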