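import Pool.Agent.Lib.D4C.BlueF

/-! Block CORE: transfer of integrality from the generic fibre and the Gauss valuation. -/

namespace D4C

open MvPolynomial Pool.Agent.Lib.MP_e06174_ag

namespace T82

lemma lift_int {R S K : Type} [CommRing R] [CommRing S] [CommRing K] (φ : R →+* K) (ψ : S →+* K)
    {a : K} {P : Polynomial S} (hm : P.Monic) (h0 : Polynomial.eval₂ ψ a P = 0)
    (hc : ∀ i, ψ (P.coeff i) ∈ Set.range φ) : φ.IsIntegralElem a := by
  obtain ⟨Q, h1, -, h2⟩ := Polynomial.lifts_and_natDegree_eq_and_monic (f := φ) (p := P.map ψ)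
    ((Polynomial.lifts_iff_coeff_lifts _).2 fun i => by rw [Polynomial.coeff_map]; exact hc i)
    (hm.map ψ)
  exact ⟨Q, h2, by rw [Polynomial.eval₂_eq_eval_map, h1, ← Polynomial.eval₂_eq_eval_map, h0]⟩

lemma mem_of_int {S K : Type} [CommRing S] [Field K] (v : ValuationSubring K) (ψ : S →+* K)
    {a : K} {P : Polynomial S} (hm : P.Monic) (h0 : Polynomial.eval₂ ψ a P = 0)
    (hc : ∀ i, ψ (P.coeff i) ∈ v) : a ∈ v := by
  have h : IsIntegral v a := lift_int (algebraMap v K) ψ hm h0 fun i => ⟨⟨_, hc i⟩, rfl⟩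
  obtain ⟨y, rfl⟩ := IsIntegrallyClosed.isIntegral_iff.1 h
  exact y.2

lemma aeval_mem {k K ι : Type} [Field k] [Field K] [Algebra k K] (v : ValuationSubring K)
    {t : ι → K} (ht : ∀ i, t i ∈ v) {p : MvPolynomial ι k}
    (hp : ∀ m, algebraMap k K (p.coeff m) ∈ v) : aeval t p ∈ v := by
  rw [aeval_def, eval₂_eq]
  exact sum_mem fun m _ => mul_mem (hp m) (prod_mem fun i _ => pow_mem (ht i) _)

lemma aeval_eq_sum {k K ι : Type} [Field k] [Field K] [Algebra k K] (t : ι → K)
    (p : MvPolynomial ι k) {U : Finset (ι →₀ ℕ)} (hU : p.support ⊆ U) :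
    aeval t p = ∑ m ∈ U, algebraMap k K (p.coeff m) * aeval t (monomial m (1 : k)) := by
  rw [← Finset.sum_subset hU fun m _ hm => by rw [notMem_support_iff.1 hm, map_zero, zero_mul]]
  conv_lhs => rw [p.as_sum, map_sum]
  exact Finset.sum_congr rfl fun m _ => by simp [aeval_monomial]

lemma mono_li {k K ι : Type} [Field k] [Field K] [Algebra k K] {t : ι → K}
    (ht : Function.Injective (aeval t : MvPolynomial ι k →ₐ[k] K)) :
    LinearIndependent k fun m : ι →₀ ℕ => aeval t (monomial m (1 : k)) :=
  (basisMonomials ι k).linearIndependent.map' (aeval t : MvPolynomial ι k →ₐ[k] K).toLinearMap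
    (LinearMap.ker_eq_bot.2 ht)

section Noether

variable {κ F : Type} [Field κ] [Field F] [Algebra κ F]

/-- Noether normalisation inside a subalgebra -/
lemma exists_t (U : Subalgebra κ F) (Y : Finset F) (hY : ∀ f ∈ Y, f ∈ U) :
    ∃ (s : ℕ) (t : Fin s → F), (∀ i, t i ∈ U) ∧
      Function.Injective (aeval t : MvPolynomial (Fin s) κ →ₐ[κ] F) ∧
      ∀ f ∈ Y, (aeval t : MvPolynomial (Fin s) κ →ₐ[κ] F).toRingHom.IsIntegralElem f := by
  let R := Algebra.adjoin κ (Y : Set F)
  have : Algebra.FiniteType κ R := (Subalgebra.fg_iff_finiteType _).1 (Subalgebra.fg_adjoin_finset Y)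
  obtain ⟨s, g, h1, h2⟩ := exists_integral_inj_algHom_of_fg κ R
  have e : (aeval fun i => (g (X i) : F)) = R.val.comp g := by
    ext i; simp
  refine ⟨s, fun i => g (X i), fun i => Algebra.adjoin_le hY (g (X i)).2, ?_, fun f hf => ?_⟩
  · rw [e]; exact Subtype.val_injective.comp h1
  · rw [e]
    obtain ⟨P, hP, h0⟩ := h2 ⟨f, Algebra.subset_adjoin hf⟩
    refine ⟨P, hP, ?_⟩
    have := congrArg R.val.toRingHom h0
    rw [Polynomial.hom_eval₂, map_zero] at this
    exact this

/-- a basis over the field of the parameters -/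
lemma exists_e {ξ : F} (hξ : FiniteDimensional (IntermediateField.adjoin κ {ξ}) F) {s : ℕ}
    {t : Fin s → F} (ht : Function.Injective (aeval t : MvPolynomial (Fin s) κ →ₐ[κ] F))
    (hi : (aeval t : MvPolynomial (Fin s) κ →ₐ[κ] F).toRingHom.IsIntegralElem ξ ∨
      (aeval t : MvPolynomial (Fin s) κ →ₐ[κ] F).toRingHom.IsIntegralElem ξ⁻¹) :
    ∃ (n : ℕ) (e : Fin n → F), (LinearIndependent κ fun ml : (Fin s →₀ ℕ) × Fin n =>
      aeval t (monomial ml.1 (1 : κ)) * e ml.2) ∧
      ∀ f : F, ∃ (q : MvPolynomial (Fin s) κ) (p : Fin n → MvPolynomial (Fin s) κ), q ≠ 0 ∧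
        aeval t q * f = ∑ l, aeval t (p l) * e l := by
  let B := MvPolynomial (Fin s) κ
  let : Algebra B F := (aeval t : B →ₐ[κ] F).toRingHom.toAlgebra
  have : IsScalarTower κ B F := IsScalarTower.of_algebraMap_eq fun c =>
    ((aeval t : B →ₐ[κ] F).commutes c).symm
  have : FaithfulSMul B F := (faithfulSMul_iff_algebraMap_injective B F).2 ht
  let E := FractionRing B
  let : Algebra E F := FractionRing.liftAlgebra B F
  have : IsScalarTower B E F := FractionRing.isScalarTower_liftAlgebra B F
  have : IsScalarTower κ E F := IsScalarTower.of_algebraMap_eq fun c => by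
    rw [IsScalarTower.algebraMap_apply κ B E, ← IsScalarTower.algebraMap_apply B E F,
      ← IsScalarTower.algebraMap_apply κ B F]
  have hint : IsIntegral E ξ := by
    rcases hi with h | h
    · exact IsIntegral.tower_top (R := B) h
    · have : IsIntegral E ξ⁻¹ := IsIntegral.tower_top (R := B) h
      simpa using this.inv
  let E' := IntermediateField.adjoin E {ξ}
  have : FiniteDimensional E E' := IntermediateField.adjoin.finiteDimensional hint
  have hle : IntermediateField.adjoin κ {ξ} ≤ E'.restrictScalars κ :=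
    IntermediateField.adjoin_simple_le_iff.2 (IntermediateField.mem_adjoin_simple_self E ξ)
  let : Algebra (IntermediateField.adjoin κ {ξ}) E' :=
    (IntermediateField.inclusion hle).toRingHom.toAlgebra
  have : IsScalarTower (IntermediateField.adjoin κ {ξ}) E' F :=
    IsScalarTower.of_algebraMap_eq fun _ => rfl
  have : Module.Finite E' F :=
    Module.Finite.of_restrictScalars_finite (IntermediateField.adjoin κ {ξ}) E' F
  have : Module.Finite E F := Module.Finite.trans E' F
  let b := Module.finBasis E F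
  refine ⟨_, b, ?_, fun f => ?_⟩
  · exact linearIndependent_smul (basisMonomials (Fin s) κ).linearIndependent
      (b.linearIndependent.restrict_scalars' B)
  · obtain ⟨q, hq⟩ := IsLocalization.exist_integer_multiples_of_finite (nonZeroDivisors B)
      (fun l => b.repr f l)
    choose p hp using hq
    refine ⟨q, p, nonZeroDivisors.coe_ne_zero q, ?_⟩
    change (q : B) • f = ∑ l, p l • b l
    conv_lhs => rw [← b.sum_repr f, Finset.smul_sum]
    exact Finset.sum_congr rfl fun l _ => by
      rw [← smul_assoc, ← hp, IsScalarTower.algebraMap_smul]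

end Noether

section Gauss

variable {κ F Ω₀ K : Type} [Field κ] [Field F] [Field Ω₀] [Field K] [Algebra κ F] [Algebra F K]
  [Algebra Ω₀ K] {w : ValuationSubring Ω₀} {W : ValuationSubring K}

lemma gauss_le (h : IsGauss κ F w W) {ι : Type} {f : ι → F} (hf : LinearIndependent κ f)
    (U : Finset ι) (c : ι → Ω₀) {i : ι} (hi : i ∈ U) :
    W.valuation (algebraMap Ω₀ K (c i)) ≤
      W.valuation (∑ j ∈ U, algebraMap Ω₀ K (c j) * algebraMap F K (f j)) := by
  let e := U.equivFin.symm
  have h1 := h.val _ (fun j => f (e j)) (fun j => c (e j))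
    (hf.comp (fun j => (e j : ι)) (Subtype.val_injective.comp e.injective))
  rw [← Finset.sum_coe_sort U, ← e.sum_comp, h1]
  have h2 := Finset.le_sup (f := fun j => W.valuation (algebraMap Ω₀ K (c (e j))))
    (Finset.mem_univ (e.symm ⟨i, hi⟩))
  simp only [Equiv.apply_symm_apply] at h2
  exact h2

end Gauss

end T82

theorem st_CORE : St_CORE := by
  intro κ F Ω₀ K _ _ _ _ _ _ _ _ _ _ _ _ _ hC w W V hw hG hV X hX a haW ha
  classical
  obtain ⟨ξ, hξ⟩ := hC.coord
  let U : Subalgebra κ F :=
    { V.toSubring.comap (algebraMap F K) with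
      algebraMap_mem' := fun c => by
        change algebraMap F K (algebraMap κ F c) ∈ V
        rw [← IsScalarTower.algebraMap_apply, IsScalarTower.algebraMap_apply κ Ω₀ K]
        exact hV _ (hw c) }
  obtain ⟨ξ', h1, h2⟩ : ∃ ξ', ξ' ∈ U ∧ (ξ' = ξ ∨ ξ' = ξ⁻¹) := by
    rcases V.mem_or_inv_mem (algebraMap F K ξ) with h | h
    · exact ⟨ξ, h, Or.inl rfl⟩
    · exact ⟨ξ⁻¹, by rw [← map_inv₀] at h; exact h, Or.inr rfl⟩
  obtain ⟨s, t, htU, ht, hint⟩ := T82.exists_t U (insert ξ' X) fun f hf => by
    rcases Finset.mem_insert.1 hf with rfl | hf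
    · exact h1
    · exact hX f hf
  obtain ⟨n, e, he, hspan⟩ := T82.exists_e hξ.fin ht (by
    have := hint _ (Finset.mem_insert_self _ _)
    rcases h2 with rfl | rfl
    · exact Or.inl this
    · exact Or.inr this)
  let t' : Fin s → K := fun i => algebraMap F K (t i)
  have hmap : ∀ p : MvPolynomial (Fin s) κ,
      algebraMap F K (aeval t p) = aeval t' (MvPolynomial.map (algebraMap κ Ω₀) p) := fun p => by
    rw [aeval_map_algebraMap, ← aeval_algebraMap_apply]; rfl
  have hmon : ∀ m : Fin s →₀ ℕ, aeval t' (monomial m (1 : Ω₀)) =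
      algebraMap F K (aeval t (monomial m (1 : κ))) := fun m => by
    rw [hmap, map_monomial, (algebraMap κ Ω₀).map_one]
  let A := MvPolynomial (Fin s) Ω₀
  have ht' : Function.Injective (aeval t' : A →ₐ[Ω₀] K) := by
    rw [injective_iff_map_eq_zero]
    intro p hp
    rw [T82.aeval_eq_sum t' p le_rfl] at hp
    simp only [hmon, ← Algebra.smul_def] at hp
    ext m
    by_cases hm : m ∈ p.support
    · exact linearIndependent_iff'.1 (hC.ld _ _ (T82.mono_li ht)) _ _ hp m hm
    · exact notMem_support_iff.1 hm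
  let : Algebra A K := (aeval t' : A →ₐ[Ω₀] K).toRingHom.toAlgebra
  have hA : ∀ p : A, algebraMap A K p = aeval t' p := fun _ => rfl
  have : FaithfulSMul A K := (faithfulSMul_iff_algebraMap_injective A K).2 ht'
  let E := FractionRing A
  let : Algebra E K := FractionRing.liftAlgebra A K
  have : IsScalarTower A E K := FractionRing.isScalarTower_liftAlgebra A K
  have hE : ∀ p : A, algebraMap E K (algebraMap A E p) = aeval t' p := fun p =>
    (IsScalarTower.algebraMap_apply A E K p).symm
  -- the basis spans `K` over the fraction field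
  let e' : Fin n → K := fun l => algebraMap F K (e l)
  let S := Submodule.span E (Set.range e')
  have hF : ∀ f : F, algebraMap F K f ∈ S := fun f => by
    obtain ⟨q, p, hq, h⟩ := hspan f
    have hq' : algebraMap A E (MvPolynomial.map (algebraMap κ Ω₀) q) ≠ 0 := fun h0 => hq
      (MvPolynomial.map_injective _ (algebraMap κ Ω₀).injective
        ((IsFractionRing.injective A E (h0.trans (map_zero _).symm)).trans (map_zero _).symm))
    rw [← S.smul_mem_iff hq', Algebra.smul_def, hE, ← hmap, ← map_mul, h, map_sum]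
    refine sum_mem fun l _ => ?_
    rw [map_mul, hmap, ← hE, ← Algebra.smul_def]
    exact S.smul_mem _ (Submodule.subset_span ⟨l, rfl⟩)
  have hmul : ∀ x ∈ S, ∀ y ∈ S, x * y ∈ S := fun x hx y hy => by
    refine Submodule.span_induction₂ (p := fun x y _ _ => x * y ∈ S) ?_ ?_ ?_ ?_ ?_ ?_ ?_ hx hy
    · rintro _ _ ⟨i, rfl⟩ ⟨j, rfl⟩
      rw [← map_mul]; exact hF _
    · intro y _; rw [zero_mul]; exact S.zero_mem
    · intro y _; rw [mul_zero]; exact S.zero_mem
    · intro x y z _ _ _ h h'; rw [add_mul]; exact S.add_mem h h'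
    · intro x y z _ _ _ h h'; rw [mul_add]; exact S.add_mem h h'
    · intro r x y _ _ h; rw [smul_mul_assoc]; exact S.smul_mem r h
    · intro r x y _ _ h; rw [mul_smul_comm]; exact S.smul_mem r h
  have hone : (1 : K) ∈ S := by simpa using hF 1
  let S' : Subalgebra E K := S.toSubalgebra hone fun x y hx hy => hmul x hx y hy
  have hadj : ∀ x ∈ Algebra.adjoin Ω₀ (Set.range (algebraMap F K)), x ∈ S' := fun x hx => by
    induction hx using Algebra.adjoin_induction with
    | mem x hx => obtain ⟨f, rfl⟩ := hx; exact hF f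
    | algebraMap c =>
      have := S'.algebraMap_mem (algebraMap A E (C c))
      rwa [hE, aeval_C] at this
    | add x y _ _ h h' => exact S'.add_mem h h'
    | mul x y _ _ h h' => exact S'.mul_mem h h'
  have hall : ∀ b : K, b ∈ S := fun b => by
    obtain ⟨p, hp, q, hq, -, rfl⟩ := hC.gen b
    rw [div_eq_mul_inv]
    exact hmul _ (hadj p hp) _ ((IsIntegral.of_mem_of_fg S'
      (Submodule.fg_span (Set.finite_range e')) q (hadj q hq)).inv_mem (hadj q hq))
  -- elements of `W` have coordinates in `W`
  have htW : ∀ m : Fin s →₀ ℕ, W.valuation (aeval t' (monomial m (1 : Ω₀))) ≤ 1 := fun m => by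
    rw [hmon]; exact (W.valuation_le_one_iff _).2 (hG.triv _)
  have L1 : ∀ b ∈ W, ∃ c : Fin n → E, (∀ l, algebraMap E K (c l) ∈ W) ∧
      b = ∑ l, c l • e' l := fun b hb => by
    obtain ⟨c, hc⟩ := (Submodule.mem_span_range_iff_exists_fun E).1 (hall b)
    refine ⟨c, fun l => ?_, hc.symm⟩
    obtain ⟨q, hq⟩ := IsLocalization.exist_integer_multiples_of_finite (nonZeroDivisors A) c
    choose p hp using hq
    have hp' : ∀ l, aeval t' (p l) = aeval t' (q : A) * algebraMap E K (c l) := fun l => by
      rw [← hE, hp, Algebra.smul_def, map_mul, hE]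
    let Us := Finset.univ.biUnion fun l => (p l).support
    have hsum : aeval t' (q : A) * b = ∑ ml ∈ Us ×ˢ Finset.univ,
        algebraMap Ω₀ K ((p ml.2).coeff ml.1) *
          algebraMap F K (aeval t (monomial ml.1 (1 : κ)) * e ml.2) := by
      rw [Finset.sum_product_right, ← hc, Finset.mul_sum]
      refine Finset.sum_congr rfl fun l _ => ?_
      rw [Algebra.smul_def, ← mul_assoc, ← hp', T82.aeval_eq_sum t' (p l)
        (Finset.subset_biUnion_of_mem (fun l => (p l).support) (Finset.mem_univ l)),
        Finset.sum_mul]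
      exact Finset.sum_congr rfl fun m _ => by rw [map_mul, hmon, mul_assoc]
    have hq0 : aeval t' (q : A) ≠ 0 := fun h0 =>
      nonZeroDivisors.coe_ne_zero q (ht' (h0.trans (map_zero _).symm))
    have hle : W.valuation (aeval t' (p l)) ≤ W.valuation (aeval t' (q : A)) := by
      rw [T82.aeval_eq_sum t' (p l) le_rfl]
      refine W.valuation.map_sum_le fun m hm => ?_
      have h3 := T82.gauss_le hG he (Us ×ˢ Finset.univ) (fun ml => (p ml.2).coeff ml.1)
        (i := (m, l)) (Finset.mem_product.2
          ⟨Finset.mem_biUnion.2 ⟨l, Finset.mem_univ l, hm⟩, Finset.mem_univ l⟩)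
      rw [← hsum, map_mul] at h3
      rw [map_mul]
      exact (mul_le_of_le_one_right' (htW m)).trans
        (h3.trans (mul_le_of_le_one_right' ((W.valuation_le_one_iff _).2 hb)))
    rw [hp', map_mul] at hle
    rw [← W.valuation_le_one_iff]
    exact (mul_le_iff_le_one_right (zero_lt_iff.2 ((map_ne_zero _).2 hq0))).1 hle
  -- integrality over the two rings
  let W₀ : ValuationSubring E := W.comap (algebraMap E K)
  have i1 : IsIntegral W₀ a := by
    refine isIntegral_of_smul_mem_submodule (Submodule.span W₀ (Set.range e')) ?_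
      (Submodule.fg_span (Set.finite_range e')) a ?_
    · intro h0
      obtain ⟨c, -, hc⟩ := L1 1 W.one_mem
      refine one_ne_zero (hc.trans (Finset.sum_eq_zero fun l _ => ?_))
      rw [(Submodule.span_eq_bot.1 h0) _ ⟨l, rfl⟩, smul_zero]
    · intro x hx
      induction hx using Submodule.span_induction with
      | mem x hx =>
        obtain ⟨j, rfl⟩ := hx
        obtain ⟨c, h3, hc⟩ := L1 (a * e' j) (mul_mem haW (hG.triv _))
        rw [smul_eq_mul, hc]
        exact sum_mem fun l _ => Submodule.smul_mem _ (⟨c l, h3 l⟩ : W₀)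
          (Submodule.subset_span ⟨l, rfl⟩)
      | zero => rw [smul_zero]; exact zero_mem _
      | add x y _ _ h h' => rw [smul_add]; exact add_mem h h'
      | smul r x _ h => rw [smul_comm]; exact Submodule.smul_mem _ r h
  have i2 : IsIntegral A a := by
    have h3 : a ∈ (integralClosure (Subring.closure (Set.range (algebraMap A K))) K).toSubring := by
      rw [← iInf_valuationSubring_superset, Subring.mem_iInf]
      rintro ⟨v, hv⟩
      refine ha v (fun c => ?_) fun f hf => ?_
      · have := hv ⟨C c, rfl⟩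
        rwa [hA, aeval_C] at this
      · obtain ⟨P, hP, h0⟩ := hint f (Finset.mem_insert_of_mem hf)
        have h4 := congrArg (algebraMap F K) h0
        rw [Polynomial.hom_eval₂, map_zero] at h4
        exact T82.mem_of_int v _ hP h4 fun i => hv ⟨_, (hmap _).symm⟩
    obtain ⟨P, hP, h0⟩ := h3
    refine T82.lift_int (algebraMap A K) _ hP h0 fun i => ?_
    exact (Subring.closure_le (t := (algebraMap A K).range)).2 le_rfl (P.coeff i).2
  have m1 := minpoly.isIntegrallyClosed_eq_field_fractions' E i1
  have m2 := minpoly.isIntegrallyClosed_eq_field_fractions' E i2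
  refine T82.mem_of_int V (algebraMap A K) (minpoly.monic i2) (minpoly.aeval A a) fun i => ?_
  have h6 : aeval t' ((minpoly A a).coeff i) ∈ W := by
    rw [← hE, ← Polynomial.coeff_map, ← m2, m1, Polynomial.coeff_map]
    exact ((minpoly W₀ a).coeff i).2
  refine T82.aeval_mem V htU fun m => hV _ ((hG.ovr _).1 ?_)
  by_cases hm : m ∈ ((minpoly A a).coeff i).support
  · have h7 := T82.gauss_le hG (T82.mono_li ht) _ (fun m => ((minpoly A a).coeff i).coeff m) hm
    simp only [← hmon] at h7
    rw [← T82.aeval_eq_sum t' _ le_rfl] at h7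
    exact (W.valuation_le_one_iff _).1 (h7.trans ((W.valuation_le_one_iff _).2 h6))
  · rw [notMem_support_iff.1 hm, map_zero]; exact W.zero_mem

end D4C
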