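import Pool.Agent.Lib.D4C.T39a
import Pool.Agent.Lib.D4C.B_VAN
import Pool.Agent.Lib.D4C.B_DIM
import Pool.Agent.Lib.D4C.B_LOC

/-! Row GEN of the d4c56 blueprint: the abelian subvariety generated by a subvariety. -/

namespace D4C

open MvPolynomial Pointwise

namespace T32

open T39

variable {κ σ : Type} [Field κ]

theorem hom_left {A : MvPolynomial (σ ⊕ σ) κ} {m n : ℕ}
    (hA : A.IsWeightedHomogeneous (bw σ) (m, n)) (t : σ → κ) :
    (aeval (Sum.elim X fun i => C (t i)) A : MvPolynomial σ κ).IsHomogeneous m := by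
  classical
  have key : ∀ d : σ ⊕ σ →₀ ℕ, (d.prod fun s k =>
      (Sum.elim X (fun i => C (t i)) s : MvPolynomial σ κ) ^ k).IsHomogeneous
        (Finsupp.weight (bw σ) d).1 := by
    intro d
    induction d using Finsupp.induction_linear with
    | zero => simpa using isHomogeneous_one σ κ
    | add f g hf hg =>
      rw [Finsupp.prod_add_index' (by simp) (by intros; rw [pow_add]), map_add]
      exact hf.mul hg
    | single s k =>
      rw [Finsupp.prod_single_index (by simp), Finsupp.weight_single]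
      cases s with
      | inl i => simpa [bw] using isHomogeneous_X_pow (R := κ) i k
      | inr i => simpa [bw] using (isHomogeneous_C σ (t i)).pow k
  rw [A.as_sum, map_sum]
  refine IsHomogeneous.sum _ _ _ fun d hd => ?_
  have h1 := key d
  rw [hA (mem_support_iff.mp hd)] at h1
  rw [aeval_monomial]
  simpa using (isHomogeneous_C σ (coeff d A)).mul h1

variable [Fintype σ] [DecidableEq σ] {B : Pkg κ σ}

theorem eval_law {R : Type} [CommRing R] [Algebra κ R] (a : Fin B.nl) (F : MvPolynomial σ κ)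
    (x y : σ → R) : eval y (aeval (ev2 (B.A a) (fun i => C (x i)) X) F) =
      aeval (ev2 (B.A a) x y) F := by
  have h1 := aeval_map_alg ((aeval y : MvPolynomial σ R →ₐ[R] R).restrictScalars κ)
    (ev2 (B.A a) (fun i => C (x i)) X) F
  rw [← ev2_map] at h1
  simpa using h1.symm

theorem aeval_law {R : Type} [CommRing R] [Algebra κ R] (a : Fin B.nl) (F : MvPolynomial σ κ)
    (x : σ → R) (t : σ → κ) : aeval x (aeval (ev2 (B.A a) X fun i => C (t i)) F :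
      MvPolynomial σ κ) = aeval (ev2 (B.A a) x fun i => algebraMap κ R (t i)) F := by
  have h1 := aeval_map_alg (aeval x : MvPolynomial σ κ →ₐ[κ] R)
    (ev2 (B.A a) X fun i => C (t i)) F
  rw [← ev2_map] at h1
  simp only [aeval_X, aeval_C] at h1
  exact h1.symm

theorem add_cone2 [Infinite κ] (S T : Set (B.Pt κ)) {R : Type} [CommRing R] [Algebra κ R]
    {x y : σ → R} (hx : Zr (vanishingIdeal κ (cone B S)) x)
    (hy : Zr (vanishingIdeal κ (cone B T)) y) (a : Fin B.nl) :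
    Zr (vanishingIdeal κ (cone B (S + T))) (ev2 (B.A a) x y) := by
  intro F hF
  rw [← eval_law]
  refine eval_eq_zero_of_van _ _ ?_ hy
  rintro t ⟨q, hq, ht⟩
  rw [eval_law, ← aeval_law]
  refine hx _ (mem_vanishingIdeal_iff.mpr ?_)
  rintro s ⟨p, hp, hs⟩
  obtain ⟨w, hw⟩ := Pkg.exists_rep (p + q)
  obtain ⟨c, hc⟩ := hs.law_eq_smul ht hw a
  rw [aeval_law]
  simp only [Algebra.algebraMap_self, RingHom.id_apply]
  rw [hc]
  exact (zr_cone ⟨_, Set.add_mem_add hp hq, hw⟩).smul (isHom_cone _) c F hF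

theorem neg_cone2 (S : Set (B.Pt κ)) {R : Type} [CommRing R] [Algebra κ R] {x : σ → R}
    (hx : Zr (vanishingIdeal κ (cone B S)) x) :
    Zr (vanishingIdeal κ (cone B (-S))) (x ∘ B.π) := by
  intro F hF
  rw [← aeval_rename]
  refine hx _ (mem_vanishingIdeal_iff.mpr ?_)
  rintro t ⟨p, hp, ht⟩
  rw [aeval_rename]
  exact zr_cone ⟨-p, Set.neg_mem_neg.mpr hp, ht.neg⟩ F hF

/-- `P` is a generic point of the closure of `S` -/
def Gen (S : Set (B.Pt κ)) {Ω : Type} [Field Ω] [Algebra κ Ω] (P : B.Pt Ω) : Prop :=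
  ∃ w, B.Rep P w ∧ PGen (vanishingIdeal κ (cone B S)) w

omit [Fintype σ] [DecidableEq σ] in
theorem zr_of_pgen {J : Ideal (MvPolynomial σ κ)} (hJ : IsHom J) {Ω : Type} [Field Ω]
    [Algebra κ Ω] {w : σ → Ω} (h : PGen J w) : Zr J w :=
  zr_of_forms hJ fun F hF n hn => (h.2 F n hn).mpr hF

theorem form_rep {R : Type} [CommRing R] [Algebra κ R] {p : B.Pt R} {x y : σ → R}
    (hx : B.Rep p x) (hy : B.Rep p y) {F : MvPolynomial σ κ} {n : ℕ} (hF : F.IsHomogeneous n)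
    (h : aeval x F = 0) : aeval y F = 0 := by
  obtain ⟨c, rfl⟩ := (hx.par hy).exists_smul hx.uni
  rw [aeval_smul_hom hF, h, mul_zero]

theorem Gen.neg [Infinite κ] {S : Set (B.Pt κ)} {Ω : Type} [Field Ω] [Algebra κ Ω] {P : B.Pt Ω}
    (h : Gen S P) : Gen (-S) (-P) := by
  obtain ⟨w, hw, hg⟩ := h
  refine ⟨_, hw.neg, uni_iff_ne_zero.mp hw.neg.uni, fun F n hF => ⟨fun h0 => ?_,
    neg_cone2 S (zr_of_pgen (isHom_cone _) hg) F⟩⟩
  rw [← aeval_rename] at h0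
  have h1 := mem_vanishingIdeal_iff.mp ((hg.2 _ n hF.rename_isHomogeneous).mp h0)
  refine mem_vanishingIdeal_iff.mpr ?_
  rintro x ⟨p, hp, hx⟩
  obtain ⟨t, ht⟩ := Pkg.exists_rep (-p)
  have h2 := h1 t ⟨_, Set.mem_neg.mp hp, ht⟩
  rw [aeval_rename] at h2
  exact form_rep (neg_neg p ▸ ht.neg) hx hF h2

theorem Gen.prime [Infinite κ] {S : Set (B.Pt κ)} {Ω : Type} [Field Ω] [Algebra κ Ω] {P : B.Pt Ω}
    (h : Gen S P) : (vanishingIdeal κ (cone B S)).IsPrime := by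
  obtain ⟨w, -, hg⟩ := h
  rw [le_antisymm (le_of_pgen (isHom_cone S) (T51.pgen_loc hg.1) (zr_of_pgen (isHom_cone S) hg))
    (le_of_pgen (T51.isHom_loc w) hg (T51.zr_loc w))]
  exact T51.prime_loc w

omit [Fintype σ] [DecidableEq σ] in
theorem pgen_map {q : Ideal (MvPolynomial σ κ)} {Ω Ω' : Type} [Field Ω] [Algebra κ Ω] [Field Ω']
    [Algebra κ Ω'] (f : Ω →ₐ[κ] Ω') {x : σ → Ω} (h : PGen q x) : PGen q fun i => f (x i) :=
  ⟨uni_iff_ne_zero.mp ((uni_iff_ne_zero.mpr h.1).map f), fun F n hF => by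
    rw [aeval_map_alg, map_eq_zero, h.2 F n hF]⟩

/-- adding a generic point of `q` -/
theorem Gen.step [IsAlgClosed κ] {q : Ideal (MvPolynomial σ κ)} (hq : q.IsPrime) (hB : B.I ≤ q)
    (hX : ∃ i, X i ∉ q) {Q : Set (B.Pt κ)} (hQ : vanishingIdeal κ (cone B Q) = q)
    {S : Set (B.Pt κ)} {Ω : Type} [Field Ω] [Algebra κ Ω] {P : B.Pt Ω} (h : Gen S P) :
    ∃ (Ω' : Type) (_ : Field Ω') (_ : Algebra κ Ω') (f : Ω →ₐ[κ] Ω') (p : B.Pt Ω'),
      (∃ x, B.Rep p x ∧ PGen q x) ∧ Gen (S + Q) (B.map f P + p) := by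
  obtain ⟨w, hw, hg⟩ := h
  have hp := st_IRR κ σ q hq Ω
  let A := MvPolynomial σ Ω ⧸ ext q Ω
  let Ω' := FractionRing A
  let g : MvPolynomial σ Ω →ₐ[Ω] Ω' :=
    (IsScalarTower.toAlgHom Ω A Ω').comp (Ideal.Quotient.mkₐ Ω (ext q Ω))
  let y : σ → Ω' := fun i => g (X i)
  have hy : ∀ H : MvPolynomial σ Ω, aeval y H = 0 ↔ H ∈ ext q Ω := fun H => by
    rw [aeval_map_alg, aeval_X_left_apply, ← Ideal.Quotient.eq_zero_iff_mem]
    exact map_eq_zero_iff _ (IsFractionRing.injective A Ω')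
  have hy' : ∀ F : MvPolynomial σ κ, aeval y F = 0 ↔ F ∈ q := fun F => by
    rw [← aeval_map_tower (L' := Ω), hy, T51.map_mem_ext_iff]
  have hyz : Zr q y := fun F hF => (hy' F).mpr hF
  have hy0 : y ≠ 0 := fun h0 => by
    obtain ⟨i, hi⟩ := hX
    exact hi ((hy' _).mp (by rw [aeval_X, h0]; rfl))
  let f : Ω →ₐ[κ] Ω' := IsScalarTower.toAlgHom κ Ω Ω'
  have hr := Pkg.rep_pt (B := B) y (uni_iff_ne_zero.mpr hy0) fun F hF => hyz F (hB hF)
  obtain ⟨b, hb⟩ := (hw.map f).exists_add hr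
  refine ⟨Ω', inferInstance, inferInstance, f, _, ⟨y, hr, hy0, fun F _ _ => hy' F⟩, _, hb,
    uni_iff_ne_zero.mp hb.uni, fun F n hF => ⟨fun h0 => ?_,
      add_cone2 S Q ((zr_of_pgen (isHom_cone _) hg).map f) (hQ ▸ hyz) b F⟩⟩
  refine mem_vanishingIdeal_iff.mpr ?_
  rintro x ⟨_, ⟨s, hs, t, ht, rfl⟩, hx⟩
  obtain ⟨xs, hxs⟩ := Pkg.exists_rep s
  obtain ⟨xt, hxt⟩ := Pkg.exists_rep t
  obtain ⟨a, ha⟩ := hxs.exists_add hxt
  refine form_rep ha hx hF ?_
  obtain ⟨c, hc⟩ := (hw.map f).law_eq_smul hr hb a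
  have h1 : aeval y (aeval (ev2 (B.A a) (fun i => C (w i)) X) F : MvPolynomial σ Ω) = 0 := by
    have h2 := aeval_map_alg ((aeval y : MvPolynomial σ Ω →ₐ[Ω] Ω').restrictScalars κ)
      (ev2 (B.A a) (fun i => C (w i)) X) F
    rw [← ev2_map] at h2
    simp only [AlgHom.restrictScalars_apply, aeval_X, aeval_C] at h2
    rw [← h2]
    exact (congrArg (aeval · F) hc).trans (by rw [aeval_smul_hom hF, h0, mul_zero])
  have h3 := T51.eval_eq_zero_of_mem_map ((hy _).mp h1)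
    (Zr.map (Algebra.ofId κ Ω) (hQ ▸ zr_cone ⟨t, ht, hxt⟩ : Zr q xt))
  rw [eval_law] at h3
  have h4 := (hg.2 _ _ (hF.aeval _ fun i => hom_left (B.A_hom a i) xt)).mp
    ((aeval_law a F w xt).trans h3)
  exact (aeval_law a F xs xt).symm.trans (zr_cone ⟨s, hs, hxs⟩ _ h4)

end T32

open T32 T39 in
theorem st_GEN : St_GEN := by
  intro κ σ _ _ _ _ B q hq hh hB hX
  let Q : Set (B.Pt κ) := {p | ∃ x, B.Rep p x ∧ Zr q x}
  have hQ : vanishingIdeal κ (cone B Q) = q := by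
    refine le_antisymm (fun F hF => ?_) fun F hF => mem_vanishingIdeal_iff.mpr ?_
    · obtain ⟨i, hi⟩ := hX
      refine (hq.mem_or_mem (T51.mem_of_vanish hq.isRadical fun y hy => ?_)).resolve_left hi
      rw [map_mul, aeval_X]
      by_cases h0 : y = 0
      · rw [h0, Pi.zero_apply, zero_mul]
      · have hr := Pkg.rep_pt (B := B) y (uni_iff_ne_zero.mpr h0) fun F hF => hy F (hB hF)
        rw [zr_cone (T := Q) ⟨_, ⟨y, hr, hy⟩, hr⟩ F hF, mul_zero]
    · rintro x ⟨p, ⟨y, hy, hy'⟩, hx⟩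
      exact zr_rep hh hy hx hy' F hF
  obtain ⟨p0, hp0⟩ : Q.Nonempty := by
    by_contra h0
    apply hq.ne_top
    rw [← hQ, eq_top_iff]
    rintro F -
    refine mem_vanishingIdeal_iff.mpr ?_
    rintro x ⟨p, hp, -⟩
    exact absurd ⟨p, hp⟩ h0
  have key : ∀ j : ℕ, ∃ (Ω : Type) (_ : Field Ω) (_ : Algebra κ Ω) (p p' : Fin j → B.Pt Ω),
      (∀ i, ∃ x, B.Rep (p i) x ∧ PGen q x) ∧ (∀ i, ∃ x, B.Rep (p' i) x ∧ PGen q x) ∧
      Gen (j • (Q - Q)) (∑ i, (p i - p' i)) := by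
    intro j
    induction j with
    | zero =>
      refine ⟨κ, inferInstance, inferInstance, Fin.elim0, Fin.elim0, fun i => i.elim0,
        fun i => i.elim0, B.o, Pkg.rep_zero, B.o_ne, fun F n hF => ⟨fun h0 => ?_,
          zr_cone ⟨0, by simp, Pkg.rep_zero⟩ F⟩⟩
      refine mem_vanishingIdeal_iff.mpr ?_
      rintro x ⟨p, hp, hx⟩
      rw [zero_nsmul, Set.mem_zero] at hp
      exact form_rep Pkg.rep_zero (hp ▸ hx) hF h0
    | succ j ih =>
      obtain ⟨Ω, _, _, p, p', h1, h2, h3⟩ := ih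
      obtain ⟨Ω1, _, _, f1, p1, h4, h5⟩ := h3.step hq hB hX hQ
      obtain ⟨Ω2, _, _, f2, p2, h6, h7⟩ := h5.neg.step hq hB hX hQ
      have h8 : ∀ r : B.Pt Ω1, (∃ x, B.Rep r x ∧ PGen q x) →
          ∃ x, B.Rep (B.map f2 r) x ∧ PGen q x := fun r ⟨x, hx, hx'⟩ =>
        ⟨_, hx.map f2, pgen_map f2 hx'⟩
      have h9 : ∀ r : B.Pt Ω, (∃ x, B.Rep r x ∧ PGen q x) →
          ∃ x, B.Rep (B.map f2 (B.map f1 r)) x ∧ PGen q x := fun r ⟨x, hx, hx'⟩ =>
        h8 _ ⟨_, hx.map f1, pgen_map f1 hx'⟩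
      refine ⟨Ω2, inferInstance, inferInstance,
        Fin.cons (B.map f2 p1) fun i => B.map f2 (B.map f1 (p i)),
        Fin.cons p2 fun i => B.map f2 (B.map f1 (p' i)),
        Fin.cases (h8 _ h4) fun i => h9 _ (h1 i), Fin.cases h6 fun i => h9 _ (h2 i), ?_⟩
      convert h7.neg using 1
      · rw [succ_nsmul, neg_add_rev, neg_neg, add_comm (-Q), add_assoc, ← sub_eq_add_neg]
      · simp only [Fin.sum_univ_succ, Fin.cons_zero, Fin.cons_succ, map_neg, map_add, map_sum,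
          map_sub]
        abel
  have hmono : ∀ i j : ℕ, i • (Q - Q) ⊆ (i + j) • (Q - Q) := fun i j => by
    induction j with
    | zero => exact subset_rfl
    | succ j ih =>
      rw [← add_assoc, succ_nsmul]
      exact fun r hr => ⟨r, ih hr, 0, ⟨p0, hp0, p0, hp0, sub_self _⟩, add_zero _⟩
  let J : ℕ → Ideal (MvPolynomial σ κ) := fun j => vanishingIdeal κ (cone B (j • (Q - Q)))
  have hJ : ∀ j, (J j).IsPrime := fun j => by
    obtain ⟨Ω, _, _, p, p', -, -, h⟩ := key j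
    exact h.prime
  have hanti : ∀ {S S' : Set (B.Pt κ)}, S ⊆ S' →
      vanishingIdeal κ (cone B S') ≤ vanishingIdeal κ (cone B S) := fun h =>
    vanishingIdeal_anti_mono fun x ⟨p, hp, hx⟩ => ⟨p, h hp, hx⟩
  choose n hn using fun j => (st_DIM κ σ (J j) (hJ j)).1
  obtain ⟨⟨N, hN⟩, -, hlt⟩ := st_DIM κ σ B.I (prime_I B)
  have hbd : ∀ j, n j ≤ N := fun j => by
    rcases (le_cone (B := B) (j • (Q - Q))).lt_or_eq with h | h
    · have := hlt _ (hJ j) h
      rw [hn, hN] at this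
      exact (Nat.cast_lt.mp this).le
    · have := hn j
      rw [show J j = B.I from h.symm, hN] at this
      exact (Nat.cast_inj.mp this).ge
  obtain ⟨j, hj⟩ : sSup (Set.range n) ∈ Set.range n :=
    Nat.sSup_mem (Set.range_nonempty n) ⟨N, by rintro _ ⟨j, rfl⟩; exact hbd j⟩
  have hst : ∀ i, J (j + i) = J j := fun i => by
    by_contra hne
    have h1 := (st_DIM κ σ _ (hJ (j + i))).2.2 _ (hJ j)
      (lt_of_le_of_ne (hanti (hmono j i)) hne)
    rw [hn, hn] at h1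
    have h2 : n (j + i) ≤ n j := hj ▸ le_csSup ⟨N, by rintro _ ⟨j, rfl⟩; exact hbd j⟩ ⟨_, rfl⟩
    exact (Nat.cast_lt.mp h1).not_ge h2
  let T : AddSubgroup (B.Pt κ) :=
    { carrier := {r | ∃ i : ℕ, r ∈ i • (Q - Q)}
      add_mem' := fun ⟨i, hi⟩ ⟨i', hi'⟩ => ⟨i + i', add_nsmul (Q - Q) i i' ▸ Set.add_mem_add hi hi'⟩
      zero_mem' := ⟨0, by simp⟩
      neg_mem' := fun ⟨i, hi⟩ => ⟨i, by
        rw [← neg_sub Q Q, neg_nsmul]
        exact Set.neg_mem_neg.mpr hi⟩ }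
  have hT : vanishingIdeal κ (cone B T) = J j := by
    refine le_antisymm (hanti fun r hr => ⟨j, hr⟩) fun F hF => mem_vanishingIdeal_iff.mpr ?_
    rintro x ⟨r, ⟨i, hi⟩, hx⟩
    rw [← hst i] at hF
    exact zr_cone ⟨r, add_comm i j ▸ hmono i j hi, hx⟩ F hF
  refine ⟨_, ⟨le_cone _, isHom_cone _, st_IRR κ σ _ (hT ▸ hJ j), o_cone T, neg_cone T,
    add_cone T⟩, fun Ω _ _ p p' x x' w hx hx' hz hz' hw => ?_, ?_⟩
  · obtain ⟨a, ha⟩ := hx.exists_add hx'.neg
    rw [← sub_eq_add_neg] at ha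
    refine zr_rep (isHom_cone _) ha hw fun F hF => ?_
    refine add_cone2 Q (-Q) (hQ ▸ hz) (neg_cone2 Q (hQ ▸ hz')) a F (hanti (fun r hr => ?_) hF)
    exact ⟨1, by rwa [one_nsmul, sub_eq_add_neg]⟩
  · obtain ⟨Ω, _, _, p, p', h1, h2, w, h3, h4⟩ := key j
    exact ⟨Ω, inferInstance, inferInstance, j, p, p', w, h1, h2, h3, hT ▸ h4⟩

end D4C
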