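import Pool.Agent.Lib.D4C.BlueF
import Pool.Agent.Lib.D4C.B_GEN

/-! Row CSUM of the d4c56 blueprint: every point is a sum of points on curves through the origin. -/

namespace D4C

open MvPolynomial Pointwise

namespace T81

open T32 T39

variable {κ σ : Type} [Field κ] [IsAlgClosed κ] [Fintype σ] [DecidableEq σ] {B : Pkg κ σ}

variable (B) in
/-- the rational points on the subvariety with ideal `q` -/
def pts (q : Ideal (MvPolynomial σ κ)) : Set (B.Pt κ) := {p | ∃ x, B.Rep p x ∧ Zr q x}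

theorem van_pts {q : Ideal (MvPolynomial σ κ)} (hq : q.IsPrime) (hh : IsHom q) (hB : B.I ≤ q)
    (hX : ∃ i, X i ∉ q) : vanishingIdeal κ (cone B (pts B q)) = q := by
  refine le_antisymm (fun F hF => ?_) fun F hF => mem_vanishingIdeal_iff.mpr ?_
  · obtain ⟨i, hi⟩ := hX
    refine (hq.mem_or_mem (T51.mem_of_vanish hq.isRadical fun y hy => ?_)).resolve_left hi
    rw [map_mul, aeval_X]
    by_cases h0 : y = 0
    · rw [h0, Pi.zero_apply, zero_mul]
    · have hr := Pkg.rep_pt (B := B) y (uni_iff_ne_zero.mpr h0) fun F hF => hy F (hB hF)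
      rw [zr_cone (T := pts B q) ⟨_, ⟨y, hr, hy⟩, hr⟩ F hF, mul_zero]
  · rintro x ⟨p, ⟨y, hy, hy'⟩, hx⟩
    exact zr_rep hh hy hx hy' F hF

omit [IsAlgClosed κ] in
theorem van_anti {S S' : Set (B.Pt κ)} (h : S ⊆ S') :
    vanishingIdeal κ (cone B S') ≤ vanishingIdeal κ (cone B S) :=
  vanishingIdeal_anti_mono fun _ ⟨p, hp, hx⟩ => ⟨p, h hp, hx⟩

variable (B) in
/-- a sum of points on curves through the origin is generic on the closure of `S` -/
def Fam (S : Set (B.Pt κ)) : Prop :=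
  0 ∈ S ∧ ∃ (j : ℕ) (q : Fin j → Ideal (MvPolynomial σ κ)),
    (∀ i, (q i).IsPrime ∧ IsHom (q i) ∧ cd (q i) = 2 ∧ B.I ≤ q i ∧ Zr (q i) B.o) ∧
    ∃ (Ω : Type) (_ : Field Ω) (_ : Algebra κ Ω) (p : Fin j → B.Pt Ω),
      (∀ i, B.On (q i) (p i)) ∧ Gen S (∑ i, p i)

omit [IsAlgClosed κ] in
theorem fam_zero : Fam B {0} := by
  refine ⟨rfl, 0, Fin.elim0, fun i => i.elim0, κ, inferInstance, inferInstance, Fin.elim0,
    fun i => i.elim0, B.o, Pkg.rep_zero, B.o_ne, fun F n hF => ⟨fun h0 => ?_,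
      zr_cone (B := B) (T := {0}) (x := B.o) ⟨0, rfl, Pkg.rep_zero⟩ F⟩⟩
  refine mem_vanishingIdeal_iff.mpr ?_
  rintro x ⟨p, hp, hx⟩
  rw [Set.mem_singleton_iff] at hp
  exact form_rep Pkg.rep_zero (hp ▸ hx) hF h0

theorem Fam.prime {S : Set (B.Pt κ)} (h : Fam B S) : (vanishingIdeal κ (cone B S)).IsPrime := by
  obtain ⟨-, j, q, -, Ω, _, _, p, -, h⟩ := h
  exact h.prime

theorem Fam.step (hC : St_CEX) {S : Set (B.Pt κ)} (h : Fam B S)
    (hne : vanishingIdeal κ (cone B S) ≠ B.I) :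
    ∃ S', Fam B S' ∧ vanishingIdeal κ (cone B S') < vanishingIdeal κ (cone B S) := by
  obtain ⟨h0, j, q, hq, Ω, _, _, p, hp, hg⟩ := h
  obtain ⟨G, d, hG, hGS, hGI⟩ : ∃ (G : MvPolynomial σ κ) (d : ℕ), G.IsHomogeneous d ∧
      G ∈ vanishingIdeal κ (cone B S) ∧ G ∉ B.I := by
    by_contra hn
    refine hne (le_antisymm (fun F hF => ?_) (le_cone S))
    rw [← sum_homogeneousComponent F]
    refine B.I.sum_mem fun n _ => ?_
    by_contra h1
    exact hn ⟨_, n, homogeneousComponent_isHomogeneous n F, isHom_cone S F hF n, h1⟩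
  obtain ⟨q', h1, h2, h3, h4, h5, h6⟩ := hC κ σ B.I B.o G d (prime_I B) B.hom B.o_ne B.o_mem hG hGI
    (zr_cone ⟨0, h0, Pkg.rep_zero⟩ G hGS)
  have hX : ∃ i, X i ∉ q' := by
    obtain ⟨i, hi⟩ := Function.ne_iff.mp B.o_ne
    exact ⟨i, fun h => hi (by simpa using h5 _ h)⟩
  have hQ := van_pts h1 h2 h4 hX
  have hz : (0 : B.Pt κ) ∈ pts B q' := ⟨B.o, Pkg.rep_zero, h5⟩
  obtain ⟨Ω', _, _, f, p', ⟨x, hx, hx'⟩, hg'⟩ := hg.step h1 h4 hX hQ
  have e1 : B.On q' p' := zr_rep h2 hx (B.rep_rp _) (zr_of_pgen h2 hx')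
  have e2 : ∀ i, B.On (q i) (B.map f (p i)) := fun i =>
    zr_rep (hq i).2.1 ((B.rep_rp (p i)).map f) (B.rep_rp _) (Zr.map f (hp i))
  have e3 : pts B q' ⊆ S + pts B q' := fun r hr => ⟨0, h0, r, hr, zero_add _⟩
  have e4 : S ⊆ S + pts B q' := fun r hr => ⟨r, hr, 0, hz, add_zero _⟩
  refine ⟨S + pts B q', ⟨e4 h0, j + 1, Fin.cons q' q,
    Fin.cases ⟨h1, h2, h3, h4, h5⟩ hq, Ω', inferInstance, inferInstance,
    Fin.cons p' fun i => B.map f (p i), Fin.cases e1 e2, ?_⟩,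
    lt_of_le_of_ne (van_anti e4) fun he => h6 ?_⟩
  · rw [add_comm (B.map f _)] at hg'
    simpa only [Fin.sum_univ_succ, Fin.cons_zero, Fin.cons_succ, map_sum] using hg'
  · rw [← hQ]
    exact van_anti e3 (he ▸ hGS)

theorem exists_fam (hC : St_CEX) : ∃ S, Fam B S ∧ vanishingIdeal κ (cone B S) = B.I := by
  obtain ⟨⟨N, hN⟩, -, hlt⟩ := st_DIM κ σ B.I (prime_I B)
  have key : ∀ (m : ℕ) (S : Set (B.Pt κ)), Fam B S →
      (N : Cardinal) ≤ cd (vanishingIdeal κ (cone B S)) + m →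
      ∃ S, Fam B S ∧ vanishingIdeal κ (cone B S) = B.I := by
    intro m
    induction m with
    | zero =>
      intro S hS h
      refine ⟨S, hS, by_contra fun hne => ?_⟩
      have := hlt _ hS.prime (lt_of_le_of_ne (le_cone S) (Ne.symm hne))
      rw [hN] at this
      rw [Nat.cast_zero, add_zero] at h
      exact this.not_ge h
    | succ m ih =>
      intro S hS h
      by_cases hne : vanishingIdeal κ (cone B S) = B.I
      · exact ⟨S, hS, hne⟩
      obtain ⟨S', hS', h'⟩ := hS.step hC hne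
      have := hS.prime
      have := hS'.prime
      refine ih S' hS' (h.trans ?_)
      rw [Nat.cast_succ, add_comm (m : Cardinal), ← add_assoc]
      exact add_le_add (T51.cd_succ_le h') le_rfl
  exact key N _ fam_zero le_add_self

end T81

open T32 T39 in
theorem st_CSUM (hC : St_CEX) (_hG : St_GPT) (hS : St_GSP) (hR : St_RHO) : St_CSUM := by
  intro κ σ _ _ _ _ B
  obtain ⟨S, ⟨-, j, q, hq, K, _, _, p, hp, w, hw, hg⟩, hI⟩ := T81.exists_fam (B := B) hC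
  refine ⟨j, q, hq, fun Ω _ _ _ r => ?_⟩
  rw [hI] at hg
  have h1 : loc κ (B.rp (∑ i, p i)) ≤ B.I :=
    le_of_pgen (T51.isHom_loc _) hg (zr_rep (T51.isHom_loc _) (B.rep_rp _) hw (T51.zr_loc _))
  obtain ⟨P, hP⟩ := hS κ K Ω σ (B.rp (∑ i, p i)) (B.rp r) (uni_iff_ne_zero.mp (B.rep_rp _).uni)
    (uni_iff_ne_zero.mp (B.rep_rp r).uni) fun F hF => (B.rep_rp r).zr F (h1 hF)
  obtain ⟨ρ, h2, -, -, h3⟩ := hR κ σ B κ K Ω P
  exact ⟨fun i => ρ (p i), fun i => h3 (q i) (p i) (hq i).2.1 (hp i),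
    ((h2 _ _).mp hP).symm.trans (map_sum ρ _ _)⟩

end D4C
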