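import Pool.Agent.Lib.D4C.BlueF

/-! the cube relation when the first point lies on a curve through the origin -/

open MvPolynomial

namespace D4C

namespace T23

theorem zr_loc {k σ K Ω : Type} [Field k] [Field K] [Field Ω] [Algebra k K] [Algebra k Ω]
    {q : Ideal (MvPolynomial σ k)} {v v' : σ → K} {w : σ → Ω} (hv : PGen q v) (h : Par v v')
    (h0 : v' ≠ 0) (hw : Zr q w) : Zr (loc k v') w := by
  obtain ⟨c, rfl⟩ := h.symm.exists_smul (uni_iff_ne_zero.mpr h0)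
  intro F hF
  have : loc k v' ≤ q := by
    rw [loc, Ideal.span_le]
    rintro G ⟨⟨n, hn⟩, hG⟩
    refine (hv.2 G n hn).mp ?_
    rw [aeval_smul_hom hn, hG, mul_zero]
  exact hw F (this hF)

variable {κ σ : Type} [Field κ] [Fintype σ] [DecidableEq σ] (B : Pkg κ σ)

theorem rp_ne {K : Type} [Field K] [Algebra κ K] (p : B.Pt K) : B.rp p ≠ 0 :=
  uni_iff_ne_zero.mp (B.rep_rp p).uni

theorem step (hGSP : St_GSP) (hRHO : St_RHO) (hSPEC : St_SPEC) (k K : Type) [Field k]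
    [IsAlgClosed k] [Field K] [Algebra κ k] [Algebra κ K] [Algebra k K] [IsScalarTower κ k K]
    (p : B.Pt K) (p₀ : B.Pt k) (h : Zr (loc k (B.rp p)) (B.rp p₀)) :
    ∃ ρ : B.Pt K →+ B.Pt k, ρ p = p₀ ∧ (∀ a, ρ (B.map (IsScalarTower.toAlgHom κ k K) a) = a) ∧
      ∀ a b c, B.Cube a b c → B.Cube (ρ a) (ρ b) (ρ c) := by
  obtain ⟨P, hP⟩ := hGSP k K k σ _ _ (rp_ne B p) (rp_ne B p₀) h
  obtain ⟨ρ, h1, h2, -⟩ := hRHO κ σ B k K k P
  refine ⟨ρ, (h1 _ _).mp hP, fun a => (h2 a).trans (Pkg.map_id' a), fun a b c habc => ?_⟩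
  refine hSPEC κ σ B k K k P _ _ _ _ _ _ (fun i => (h1 _ _).mpr ?_) (fun i => (h1 _ _).mpr ?_) habc
  · fin_cases i <;> simp
  · fin_cases i <;> simp

theorem generic (hGPT : St_GPT) (k : Type) [Field k] [Algebra κ k] :
    ∃ (K : Type) (_ : Field K) (_ : Algebra k K) (_ : IsAlgClosed K) (_ : Algebra κ K)
      (_ : IsScalarTower κ k K) (p : B.Pt K), PGen (ext B.I k) (B.rp p) := by
  obtain ⟨K, _, _, _, v, h0, hv⟩ := hGPT.ex k σ (ext B.I k) (B.gprime k) (by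
    obtain ⟨i, hi⟩ := B.o_uni (R := k)
    exact ⟨i, fun h => hi.ne_zero (by simpa using zr_ext.mpr (B.o_zr (R := k)) _ h)⟩)
  let _ : Algebra κ K := ((algebraMap k K).comp (algebraMap κ k)).toAlgebra
  have : IsScalarTower κ k K := IsScalarTower.of_algebraMap_eq' rfl
  have hz : Zr B.I v := zr_ext.mp fun F hF => (hv F).mpr hF
  let p := B.pt v (uni_iff_ne_zero.mpr h0) hz
  refine ⟨K, _, _, ‹_›, _, ‹_›, p, rp_ne B p, fun F n hn => ?_⟩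
  obtain ⟨c, hc⟩ := ((Pkg.rep_pt v _ hz).par (B.rep_rp p)).exists_smul (uni_iff_ne_zero.mpr h0)
  have hc0 : c ≠ 0 := by
    rintro rfl
    exact rp_ne B p (by rw [hc, zero_smul])
  rw [hc, aeval_smul_hom hn, mul_eq_zero, hv, or_iff_right (pow_ne_zero _ hc0)]

end T23

open T23

theorem st_CURVE (hGPT : St_GPT) (hCMP : St_CMP) (hCBT : St_CBT) (hCB3 : St_CB3) (hCA : St_CA)
    (hGSP : St_GSP) (hRHO : St_RHO) (hSPEC : St_SPEC) : St_CURVE := by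
  intro κ σ _ _ _ _ _ B q hq hh hc hI ho Ω _ _ _ x y z hx
  obtain ⟨k₁, _, _, _, _, _, y', hy⟩ := generic B hGPT Ω
  obtain ⟨Ω₀, _, _, _, _, _, z', hz⟩ := generic B hGPT k₁
  obtain ⟨F, K, _, _, _, _, _, _, _, _, xv, hC, h1, h2⟩ := hCMP κ σ Ω₀ q hq hh hc
  let x' := B.pt xv (uni_iff_ne_zero.mpr h1.1) fun G hG => (hGPT.eq κ σ F q xv hh h1).2 G (hI hG)
  have hx' : B.Rep x' xv := Pkg.rep_pt _ _ _
  have hy0 : PGen B.I (B.rp y') := ⟨hy.1, fun G n hn => by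
    rw [← aeval_map_tower (L' := Ω), hy.2 _ n (hn.map _)]
    exact ⟨hGPT.ctr κ Ω σ B.I G, Ideal.mem_map_of_mem _⟩⟩
  obtain ⟨t1, t2⟩ := hCBT κ σ B k₁ Ω₀ y' z' (zr_loc hy0 (Par.refl _) hy.1 B.o_mem)
    (zr_loc hz (Par.refl _) hz.1 (zr_ext.mpr B.o_zr))
  obtain ⟨φ, hφ, t3⟩ := hCB3 κ σ B F Ω₀ K hC x' _ z' t1 t2
  have c1 := hCA κ σ B F Ω₀ K hC x' _ z' φ hφ (zr_loc h2
    ((hx'.par (B.rep_rp x')).map (algebraMap F K))
    (uni_iff_ne_zero.mp ((B.rep_rp x').uni.map (algebraMap F K)))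
    (zr_ext.mpr (ho.map (Algebra.ofId κ Ω₀)))) t3
  let x₁ := B.map (IsScalarTower.toAlgHom κ Ω k₁) x
  let x₀ := B.map (IsScalarTower.toAlgHom κ k₁ Ω₀) x₁
  have hx₀ : Zr q (B.rp x₀) := by
    have h3 := ((B.rep_rp x).map (IsScalarTower.toAlgHom κ Ω k₁)).map
      (IsScalarTower.toAlgHom κ k₁ Ω₀)
    obtain ⟨c, hc⟩ := (h3.par (B.rep_rp x₀)).exists_smul h3.uni
    rw [hc]
    exact Zr.smul hh ((Zr.map _ hx).map _) c
  obtain ⟨ρ₁, a1, a2, a3⟩ := step B hGSP hRHO hSPEC Ω₀ K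
    (B.map (IsScalarTower.toAlgHom κ F K) x') x₀ (zr_loc h2
      ((hx'.map (IsScalarTower.toAlgHom κ F K)).par (B.rep_rp _)) (rp_ne B _) (zr_ext.mpr hx₀))
  have c2 := a3 _ _ _ c1
  rw [a1, a2, a2] at c2
  obtain ⟨ρ₂, b1, b2, b3⟩ := step B hGSP hRHO hSPEC k₁ Ω₀ z'
    (B.map (IsScalarTower.toAlgHom κ Ω k₁) z)
    (zr_loc hz (Par.refl _) hz.1 (zr_ext.mpr (B.rep_rp _).zr))
  have c3 := b3 _ _ _ c2
  rw [b1, b2, b2] at c3
  obtain ⟨ρ₃, d1, d2, d3⟩ := step B hGSP hRHO hSPEC Ω k₁ y' y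
    (zr_loc hy (Par.refl _) hy.1 (zr_ext.mpr (B.rep_rp _).zr))
  have c4 := d3 _ _ _ c3
  rwa [d1, d2, d2] at c4

end D4C
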