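import Pool.Agent.Lib.D4C.BlueF
import Pool.Agent.Lib.PK1.FF33

/-! Places in a constant field extension (adapted from Q22/CEXT). -/

open Pool.Agent.Lib.MP_e06174_ag IntermediateField TensorProduct
open scoped Classical

set_option linter.unusedVariables false
set_option linter.unusedSectionVars false

noncomputable section

namespace D4C

namespace T6

open Place Pool.Agent.Lib

section tens

variable {K F Ω : Type} [Field K] [Field F] [Algebra K F] [Field Ω] [Algebra K Ω]

variable (Ω) in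
/-- The span of the maximal ideal of a place. -/
def mP (P : Place K F) : Submodule Ω (Ω ⊗[K] F) :=
  Submodule.span Ω {u | ∃ z, P.Ge 1 z ∧ u = 1 ⊗ₜ z}

theorem tmul_mem (P : Place K F) (c : Ω) {z : F} (hz : P.Ge 1 z) : c ⊗ₜ z ∈ mP Ω P := by
  have := (mP Ω P).smul_mem c (Submodule.subset_span ⟨z, hz, rfl⟩)
  simpa [smul_tmul'] using this

theorem mul_mem_mP {P : Place K F} {u v : Ω ⊗[K] F} (hu : u ∈ mP Ω P) (hv : v ∈ mP Ω P) :
    u * v ∈ mP Ω P := by
  have : mP Ω P * mP Ω P ≤ mP Ω P := by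
    rw [mP, Submodule.span_mul_span, Submodule.span_le]
    rintro _ ⟨_, ⟨x, hx, rfl⟩, _, ⟨y, hy, rfl⟩, rfl⟩
    refine Submodule.subset_span ⟨x * y, hx.mul' hy (by omega), ?_⟩
    simp
  exact this (Submodule.mul_mem_mul hu hv)

theorem one_notMem (P : Place K F) : (1 : Ω ⊗[K] F) ∉ mP Ω P := by
  let m : Submodule K F :=
    { carrier := {z | P.Ge 1 z}
      add_mem' := fun ha hb => Ge.add ha hb
      zero_mem' := ge_zero _
      smul_mem' := fun c z hz => Ge.smul hz c }
  obtain ⟨l, h1, hl⟩ := Submodule.exists_le_ker_of_notMem (p := m) (v := 1)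
    (show ¬P.Ge 1 1 by simpa using not_ge_one_const (p := P) (one_ne_zero (α := K)))
  let L : Ω ⊗[K] F →ₗ[Ω] Ω := (AlgebraTensorModule.rid K Ω Ω).toLinearMap ∘ₗ l.baseChange Ω
  have hL : mP Ω P ≤ LinearMap.ker L := by
    rw [mP, Submodule.span_le]
    rintro _ ⟨z, hz, rfl⟩
    have : l z = 0 := hl hz
    simp [L, this]
  intro h
  have := hL h
  simp [L, Algebra.TensorProduct.one_def, h1] at this

variable [IsAlgClosed K] {t : F}

/-- Structure of the elements of the tensor product at a place. -/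
theorem str (h : IsCoord K t) (P : Place K F) {u : Ω ⊗[K] F} (hu : u ≠ 0) :
    ∃ (f : F) (c : Ω) (w : Ω ⊗[K] F), f ≠ 0 ∧ c ≠ 0 ∧ w ∈ mP Ω P ∧
      u = (1 ⊗ₜ f) * (algebraMap Ω _ c + w) := by
  let b := Module.Free.chooseBasis K Ω
  obtain ⟨g, rfl⟩ := TensorProduct.eq_repr_basis_left b u
  have hg : g.support.Nonempty := by
    rw [Finsupp.support_nonempty_iff]; rintro rfl; simp at hu
  obtain ⟨i, hi, hmin⟩ := Finset.exists_min_image g.support (fun i => P.ord (g i)) hg
  have hf : g i ≠ 0 := Finsupp.mem_support_iff.1 hi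
  have hge : ∀ j ∈ g.support, P.At (g j / g i) (P.cen (g j / g i)) := fun j hj =>
    h.at_cen (ge_of_le (by
      rw [P.ord_div (Finsupp.mem_support_iff.1 hj) hf]; have := hmin j hj; omega))
  refine ⟨g i, ∑ j ∈ g.support, P.cen (g j / g i) • b j,
    ∑ j ∈ g.support, b j ⊗ₜ (g j / g i - algebraMap K F (P.cen (g j / g i))), hf, ?_,
    Submodule.sum_mem _ fun j hj => tmul_mem P _ (hge j hj), ?_⟩
  · intro h0
    have h1 := linearIndependent_iff'.1 b.linearIndependent _ _ h0 i hi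
    have h2 := hge i hi
    rw [h1, div_self hf] at h2
    exact not_ge_one_const (p := P) (one_ne_zero (α := K)) (by simpa [At] using h2)
  · rw [map_sum, ← Finset.sum_add_distrib, Finset.mul_sum, Finsupp.sum]
    refine Finset.sum_congr rfl fun j hj => ?_
    rw [Algebra.TensorProduct.algebraMap_apply, Algebra.algebraMap_self, RingHom.id_apply,
      smul_tmul, ← tmul_add, ← Algebra.algebraMap_eq_smul_one, add_sub_cancel,
      Algebra.TensorProduct.tmul_mul_tmul, one_mul, mul_div_cancel₀ _ hf]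

end tens

section gen

variable {Ω E : Type} [Field Ω] [Field E] [Algebra Ω E]

/-- A place that vanishes on a multiplicatively closed subspace. -/
theorem exists_place [IsAlgClosed Ω] {x : E} (h : IsCoord Ω x) (N : Submodule Ω E)
    (hm : ∀ u ∈ N, ∀ v ∈ N, u * v ∈ N) (h1 : (1 : E) ∉ N) {y : E} (hy : y ∈ N) (hy0 : y ≠ 0) :
    ∃ Q : Place Ω E, ∀ u ∈ N, Q.Ge 1 u := by
  let R : Subring E :=
    { carrier := {u | ∀ v ∈ N, u * v ∈ N}
      mul_mem' := fun {a b} ha hb v hv => by rw [mul_assoc]; exact ha _ (hb v hv)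
      one_mem' := fun v hv => by rwa [one_mul]
      add_mem' := fun {a b} ha hb v hv => by rw [add_mul]; exact add_mem (ha v hv) (hb v hv)
      zero_mem' := fun v hv => by simp
      neg_mem' := fun {a} ha v hv => by rw [neg_mul]; exact neg_mem (ha v hv) }
  let I : Ideal R :=
    { carrier := {u | (u : E) ∈ N}
      add_mem' := fun ha hb => N.add_mem ha hb
      zero_mem' := N.zero_mem
      smul_mem' := fun c u hu => c.2 _ hu }
  obtain ⟨V, hV, hI⟩ := Ideal.image_subset_nonunits_valuationSubring I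
    ((Ideal.ne_top_iff_one I).2 h1)
  have hN : ∀ u ∈ N, u ∈ V.nonunits := fun u hu => hI ⟨⟨u, hm u hu⟩, hu, rfl⟩
  obtain ⟨Q, hQ⟩ := PK1.FF.exists_place h V (by
    rintro rfl
    have := hN y hy
    rw [ValuationSubring.mem_nonunits_iff_or] at this
    simp [hy0] at this)
    fun c => hV fun v hv => by rw [← Algebra.smul_def]; exact N.smul_mem c hv
  refine ⟨Q, fun u hu => ?_⟩
  have := hN u hu
  rw [ValuationSubring.mem_nonunits_iff_or, ← hQ, mem_O, not_ge_iff, ord_inv] at this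
  rcases this with rfl | h2
  · simp
  · exact ge_of_le (by omega)

end gen

variable {K F Ω E : Type} [Field K] [IsAlgClosed K] [Field F] [Algebra K F] [Field Ω]
  [IsAlgClosed Ω] [Algebra K Ω] [Field E] [Algebra (Ω ⊗[K] F) E] [IsFractionRing (Ω ⊗[K] F) E]
  [Algebra Ω E] [IsScalarTower Ω (Ω ⊗[K] F) E] [Algebra F E]
  (hι : ∀ z : F, algebraMap F E z = algebraMap (Ω ⊗[K] F) E (1 ⊗ₜ z)) {t : F}

theorem jinj : Function.Injective (algebraMap (Ω ⊗[K] F) E) := IsFractionRing.injective _ _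

theorem jne {u : Ω ⊗[K] F} (hu : u ≠ 0) : algebraMap (Ω ⊗[K] F) E u ≠ 0 :=
  (map_ne_zero_iff _ jinj).2 hu

theorem jc (c : Ω) : algebraMap (Ω ⊗[K] F) E (algebraMap Ω _ c) = algebraMap Ω E c :=
  (IsScalarTower.algebraMap_apply _ _ _ c).symm

theorem frac {x : E} (hx : x ≠ 0) : ∃ u v : Ω ⊗[K] F, u ≠ 0 ∧ v ≠ 0 ∧
    x = algebraMap _ E u / algebraMap _ E v := by
  obtain ⟨u, v, hv, rfl⟩ := IsFractionRing.div_surjective (A := Ω ⊗[K] F) x
  refine ⟨u, v, ?_, ?_, rfl⟩ <;> rintro rfl <;> simp at hx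

include hι

theorem jt (c : Ω) (z : F) :
    algebraMap (Ω ⊗[K] F) E (c ⊗ₜ z) = algebraMap Ω E c * algebraMap F E z := by
  rw [hι, ← jc (K := K) (F := F), ← map_mul]
  simp

theorem tow (c : K) : algebraMap F E (algebraMap K F c) = algebraMap Ω E (algebraMap K Ω c) := by
  rw [hι, ← jc (K := K) (F := F) (E := E), ← IsScalarTower.algebraMap_apply K Ω,
    Algebra.algebraMap_eq_smul_one c, tmul_smul, Algebra.algebraMap_eq_smul_one c,
    Algebra.TensorProduct.one_def]

theorem gen' (L : Subfield E) (h1 : ∀ z, algebraMap F E z ∈ L) (h2 : ∀ c, algebraMap Ω E c ∈ L)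
    (x : E) : x ∈ L := by
  have h3 : ∀ u, algebraMap (Ω ⊗[K] F) E u ∈ L := fun u => by
    induction u with
    | zero => simp
    | tmul c z => rw [jt hι]; exact mul_mem (h2 c) (h1 z)
    | add x y hx hy => rw [map_add]; exact add_mem hx hy
  obtain ⟨u, v, -, rfl⟩ := IsFractionRing.div_surjective (A := Ω ⊗[K] F) x
  exact div_mem (h3 u) (h3 v)

theorem ind (J : Type) (b : J → F) (hb : LinearIndependent K b) :
    LinearIndependent Ω fun j => algebraMap F E (b j) := by
  have := (Module.Flat.linearIndependent_one_tmul (S := Ω) hb).map'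
    (IsScalarTower.toAlgHom Ω (Ω ⊗[K] F) E).toLinearMap (LinearMap.ker_eq_bot.2 jinj)
  simp only [hι]
  exact this

theorem ne_const {s : F} (hs : ∀ c : K, s ≠ algebraMap K F c) (c : Ω) :
    algebraMap F E s ≠ algebraMap Ω E c := by
  have h1 : LinearIndependent K ![(1 : F), s] := by
    rw [LinearIndependent.pair_iff' one_ne_zero]
    intro a ha
    exact hs a (by rw [← ha, Algebra.algebraMap_eq_smul_one])
  have h2 := ind hι _ _ h1
  intro h
  have h4 : (fun j => algebraMap F E (![(1 : F), s] j)) = ![1, algebraMap F E s] := by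
    ext i; fin_cases i <;> simp
  rw [h4] at h2
  have h3 := (LinearIndependent.pair_iff' one_ne_zero).1 h2 c
  exact h3 (by rw [h, Algebra.algebraMap_eq_smul_one])

theorem coord {s : F} (h : IsCoord K s) : IsCoord Ω (algebraMap F E s) ∧
    Module.finrank Ω⟮algebraMap F E s⟯ E ≤ Module.finrank K⟮s⟯ F := by
  have := h.fin
  set L := Ω⟮algebraMap F E s⟯
  have hL : ∀ r : K⟮s⟯, algebraMap F E r ∈ L := by
    rintro ⟨r, hr⟩
    change algebraMap F E r ∈ L
    induction hr using adjoin_induction with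
    | mem x hx => rw [hx]; exact mem_adjoin_simple_self _ _
    | algebraMap c => rw [tow hι]; exact L.algebraMap_mem _
    | add x y _ _ hx hy => rw [map_add]; exact add_mem hx hy
    | inv x _ hx => rw [map_inv₀]; exact inv_mem hx
    | mul x y _ _ hx hy => rw [map_mul]; exact mul_mem hx hy
  let b := Module.finBasis K⟮s⟯ F
  let S := Submodule.span L (Set.range fun i => algebraMap F E (b i))
  have hS : ∀ z, algebraMap F E z ∈ S := fun z => by
    rw [← b.sum_repr z, map_sum]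
    refine sum_mem fun i _ => ?_
    rw [Algebra.smul_def, map_mul]
    exact S.smul_mem (⟨_, hL (b.repr z i)⟩ : L) (Submodule.subset_span ⟨i, rfl⟩)
  have hm : S * S ≤ S := by
    rw [Submodule.span_mul_span, Submodule.span_le]
    rintro _ ⟨_, ⟨i, rfl⟩, _, ⟨j, rfl⟩, rfl⟩
    simpa using hS (b i * b j)
  let A : Subalgebra L E := S.toSubalgebra (by simpa using hS 1)
    fun x y hx hy => hm (Submodule.mul_mem_mul hx hy)
  have hfin : FiniteDimensional L A := FiniteDimensional.span_of_finite L (Set.finite_range _)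
  let M := A.toIntermediateField fun x hx => A.inv_mem_of_algebraic (x := ⟨x, hx⟩)
    ((Algebra.IsAlgebraic.isAlgebraic (R := L) (⟨x, hx⟩ : A)).algHom A.val)
  have h2 : S = ⊤ := eq_top_iff.2 fun x _ => gen' hι M.toSubfield hS
    (fun c => M.algebraMap_mem ⟨_, L.algebraMap_mem c⟩) x
  refine ⟨⟨transcendental_of_ne_const (ne_const hι fun c hc =>
    h.trans (hc ▸ isAlgebraic_algebraMap c)), ?_⟩, ?_⟩
  · exact Module.finite_def.2 (h2 ▸ Submodule.fg_span (Set.finite_range _))
  · simpa using finrank_le_of_span_eq_top h2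

omit hι in
/-- `Q` is the place above `P`. -/
def Up (Q : Place Ω E) (P : Place K F) : Prop := ∀ z : F, Q.ord (algebraMap F E z) = P.ord z

/-- Orders at places above a given place come from the smaller field. -/
theorem up_ord (h : IsCoord K t) (P : Place K F) {x : E} (hx : x ≠ 0) : ∃ f : F, f ≠ 0 ∧
    ∀ Q : Place Ω E, (∀ z, P.Ge 1 z → Q.Ge 1 (algebraMap F E z)) →
      Q.ord x = Q.ord (algebraMap F E f) := by
  have key : ∀ u : Ω ⊗[K] F, u ≠ 0 → ∃ f : F, f ≠ 0 ∧
      ∀ Q : Place Ω E, (∀ z, P.Ge 1 z → Q.Ge 1 (algebraMap F E z)) →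
        Q.ord (algebraMap _ E u) = Q.ord (algebraMap F E f) := fun u hu => by
    obtain ⟨f, c, w, hf, hc, hw, rfl⟩ := str h P hu
    refine ⟨f, hf, fun Q hQ => ?_⟩
    have h1 : Q.Ge 1 (algebraMap _ E w) := by
      clear hu
      induction hw using Submodule.span_induction with
      | mem x hx => obtain ⟨z, hz, rfl⟩ := hx; rw [← hι]; exact hQ z hz
      | zero => simp
      | add x y _ _ hx hy => rw [map_add]; exact hx.add hy
      | smul a x _ hx =>
        rw [Algebra.smul_def, map_mul, jc]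
        exact (ge_const a).mul' hx (by simp)
    have h2 := ord_eq_zero_of_ge_sub_const (p := Q) (y := algebraMap Ω E c + algebraMap _ E w) hc
      (by simpa using h1)
    rw [map_mul, map_add, jc, ← hι, Q.ord_mul (by simpa using hf) h2.1, h2.2, add_zero]
  obtain ⟨u, v, hu, hv, rfl⟩ := frac (K := K) (F := F) (Ω := Ω) hx
  obtain ⟨f, hf, h1⟩ := key u hu
  obtain ⟨g, hg, h2⟩ := key v hv
  refine ⟨f / g, div_ne_zero hf hg, fun Q hQ => ?_⟩
  rw [Q.ord_div (jne hu) (jne hv), h1 Q hQ, h2 Q hQ, map_div₀,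
    Q.ord_div (by simpa using hf) (by simpa using hg)]

theorem resP (h : IsCoord K t) (Q : Place Ω E) :
    (∀ z, Q.ord (algebraMap F E z) = 0) ∨ ∃ P : Place K F, Up Q P := by
  let _ : Algebra K E := ((algebraMap F E).comp (algebraMap K F)).toAlgebra
  let Q' : Place K E := ⟨Q.v, fun c hc => by
    change Q.v (algebraMap F E (algebraMap K F c)) = 1
    rw [tow hι]; exact Q.triv _ (by simpa using hc), Q.surj⟩
  let ι : F →ₐ[K] E := { algebraMap F E with commutes' := fun _ => rfl }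
  rcases Q'.restrict ι with h1 | ⟨P, c, hc, h1⟩
  · exact .inl h1
  refine .inr ⟨P, fun z => ?_⟩
  have h2 : ∀ z, Q.ord (algebraMap F E z) = c * P.ord z := h1
  obtain ⟨π, h0, hπ⟩ := Q.exists_ord_eq_one
  obtain ⟨f, -, hf⟩ := up_ord hι h P h0
  have h3 := hf Q fun z hz => (Over.ge_one_iff (w := Q') (ι := ι) ⟨hc, h1⟩ z).2 hz
  rw [hπ, h2] at h3
  have := Int.eq_one_or_neg_one_of_mul_eq_one' h3.symm
  rw [h2, show (c : ℤ) = 1 by omega, one_mul]

theorem up_ge {Q : Place Ω E} {P : Place K F} (h : Up Q P) (n : ℤ) (z : F) :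
    Q.Ge n (algebraMap F E z) ↔ P.Ge n z := by
  rw [ge_iff', ge_iff', h z, map_eq_zero]

theorem up (h : IsCoord K t) (P : Place K F) : ∃! Q : Place Ω E, Up Q P := by
  obtain ⟨π, h0, hπ⟩ := P.exists_ord_eq_one
  let j := (IsScalarTower.toAlgHom Ω (Ω ⊗[K] F) E).toLinearMap
  have hmem : ∀ z, P.Ge 1 z → algebraMap F E z ∈ (mP Ω P).map j := fun z hz =>
    ⟨_, tmul_mem P 1 hz, (hι z).symm⟩
  obtain ⟨Q, hQ⟩ := exists_place (coord hι h).1 ((mP Ω P).map j)
    (by
      rintro _ ⟨u, hu, rfl⟩ _ ⟨v, hv, rfl⟩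
      exact ⟨u * v, mul_mem_mP hu hv, map_mul (algebraMap _ E) u v⟩)
    (by rintro ⟨u, hu, h1⟩; exact one_notMem P (jinj (h1.trans (map_one _).symm) ▸ hu))
    (hmem π (ge_of_le hπ.ge)) (by simpa using h0)
  have hU : Up Q P := by
    rcases resP hι h Q with h1 | ⟨P', h1⟩
    · have := (hQ _ (hmem π (ge_of_le hπ.ge))).le (by simpa using h0)
      rw [h1] at this; omega
    · rwa [ext_of_ge (p := P) (q := P') fun z hz => At.ge_zero (a := P.cen z)
        ((up_ge hι h1 1 _).1 (hQ _ (hmem _ (h.at_cen hz))))]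
  refine ⟨Q, hU, fun Q' hQ' => ext_ord fun x hx => ?_⟩
  obtain ⟨f, -, hf⟩ := up_ord hι h P hx
  rw [hf Q fun z => (up_ge hι hU 1 z).2, hf Q' fun z => (up_ge hι hQ' 1 z).2, hU, hQ']

end T6

open T6 in
theorem st_CX : St_CX := by
  intro κ F Ω K _ _ _ _ _ _ _ _ _ _ _ _ _ hC
  let φ : Ω ⊗[κ] F →ₐ[Ω] K := Algebra.TensorProduct.lift (Algebra.ofId Ω K)
    (IsScalarTower.toAlgHom κ F K) fun _ _ => Commute.all _ _
  have hφ : ∀ (c : Ω) (z : F), φ (c ⊗ₜ z) = algebraMap Ω K c * algebraMap F K z := fun c z => by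
    simp [φ]
  let _ : Algebra (Ω ⊗[κ] F) K := φ.toRingHom.toAlgebra
  have hm : ∀ u, algebraMap (Ω ⊗[κ] F) K u = φ u := fun _ => rfl
  have hι : ∀ z : F, algebraMap F K z = algebraMap (Ω ⊗[κ] F) K (1 ⊗ₜ z) := fun z => by
    rw [hm, hφ, map_one, one_mul]
  have : IsScalarTower Ω (Ω ⊗[κ] F) K := IsScalarTower.of_algebraMap_eq fun c =>
    (φ.commutes c).symm
  have hinj : Function.Injective φ := by
    let b := Module.Free.chooseBasis κ F
    have h1 := hC.ld _ b b.linearIndependent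
    refine LinearMap.injective_of_linearIndependent (f := φ.toLinearMap)
      (Algebra.TensorProduct.basis Ω b).span_eq ?_
    have e : φ.toLinearMap ∘ Algebra.TensorProduct.basis Ω b = fun i => algebraMap F K (b i) :=
      funext fun i => by simp [hφ]
    rwa [e]
  have hr : ∀ p ∈ Algebra.adjoin Ω (Set.range (algebraMap F K)), ∃ u, φ u = p := fun p hp =>
    (Algebra.adjoin_le (S := φ.range) (by rintro _ ⟨z, rfl⟩; exact ⟨_, (hι z).symm⟩)) hp
  have : FaithfulSMul (Ω ⊗[κ] F) K := (faithfulSMul_iff_algebraMap_injective _ _).2 hinj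
  have : IsFractionRing (Ω ⊗[κ] F) K := IsFractionRing.of_field _ _ fun a => by
    obtain ⟨p, hp, q, hq, -, rfl⟩ := hC.gen a
    obtain ⟨u, rfl⟩ := hr p hp
    obtain ⟨v, rfl⟩ := hr q hq
    exact ⟨u, v, rfl⟩
  obtain ⟨t, ht⟩ := hC.coord
  exact ⟨fun ξ h => coord hι h, fun Q => up hι ht Q, fun Q' => (resP hι ht Q').symm⟩

end D4C
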