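import Pool.Agent.Lib.D4C.Iface

/-! Row DATA of the d4c56 blueprint: presentations exist. -/

namespace D4C

open MvPolynomial

namespace T32

open IntermediateField in
/-- primitive element with coefficients in the ground field, denominators cleared -/
theorem prim {k A F ι : Type} [Field k] [CharZero k] [CommRing A] [IsDomain A] [Field F]
    [Algebra k A] [Algebra A F] [Algebra k F] [IsScalarTower k A F] [FaithfulSMul A F] [Fintype ι]
    (u : ι → F) (hu : ∀ i, IsIntegral A (u i)) :
    ∃ (c : ι → k) (K : Subfield F), (∀ i, u i ∈ K) ∧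
      (∀ a : Polynomial A, Polynomial.aeval (∑ i, c i • u i) a ∈ K) ∧
      ∀ y ∈ K, ∃ δ : A, δ ≠ 0 ∧ ∃ a : Polynomial A,
        algebraMap A F δ * y = Polynomial.aeval (∑ i, c i • u i) a := by
  classical
  let K0 := FractionRing A
  let _ : Algebra K0 F := FractionRing.liftAlgebra A F
  have : IsScalarTower A K0 F := FractionRing.isScalarTower_liftAlgebra A F
  have : IsScalarTower k K0 F := IsScalarTower.of_algebraMap_eq fun a => by
    rw [IsScalarTower.algebraMap_apply k A K0, ← IsScalarTower.algebraMap_apply A K0 F,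
      ← IsScalarTower.algebraMap_apply]
  have : CharZero K0 := charZero_of_injective_algebraMap (algebraMap k K0).injective
  let K : IntermediateField K0 F := adjoin K0 (Set.range u)
  have hfd : FiniteDimensional K0 K := finiteDimensional_adjoin (by
    rintro _ ⟨i, rfl⟩
    exact (hu i).tower_top)
  have hfin : Finite (IntermediateField K0 K) :=
    Field.finite_intermediateField_of_exists_primitive_element K0 K
      (Field.exists_primitive_element K0 K)
  let u' : ι → K := fun i => ⟨u i, subset_adjoin _ _ ⟨i, rfl⟩⟩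
  let W : {E : IntermediateField K0 K // E ≠ ⊤} → Subspace k (ι → k) := fun E =>
    { carrier := {c | ∑ i, algebraMap k K0 (c i) • u' i ∈ E.1}
      add_mem' := fun {a b} ha hb => by
        simp only [Set.mem_ofPred_eq, Pi.add_apply, map_add, add_smul,
          Finset.sum_add_distrib] at ha hb ⊢
        exact add_mem ha hb
      zero_mem' := by simp
      smul_mem' := fun r a ha => by
        simp only [Set.mem_ofPred_eq, Pi.smul_apply, smul_eq_mul, map_mul, mul_smul,
          ← Finset.smul_sum] at ha ⊢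
        exact E.1.smul_mem ha }
  have hW : ∀ E, W E ≠ ⊤ := by
    intro E hE
    apply E.2
    have h1 : ∀ i, u' i ∈ E.1 := fun i => by
      have h2 : Pi.single i (1 : k) ∈ W E := by rw [hE]; trivial
      change ∑ j, algebraMap k K0 ((Pi.single i (1 : k) : ι → k) j) • u' j ∈ E.1 at h2
      rw [Finset.sum_eq_single i (fun j _ hj => by simp [Pi.single_eq_of_ne hj]) (by simp)] at h2
      simpa using h2
    have h3 : K ≤ E.1.map K.val := adjoin_le_iff.mpr (by
      rintro _ ⟨i, rfl⟩
      exact ⟨u' i, h1 i, rfl⟩)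
    rw [eq_top_iff]
    intro y _
    obtain ⟨y', hy', h4⟩ := h3 y.2
    rwa [← show y' = y from Subtype.ext h4]
  obtain ⟨c, hc⟩ : ∃ c : ι → k, ∀ E, c ∉ W E := by
    by_contra hcon
    push Not at hcon
    obtain ⟨E, hE⟩ := Subspace.exists_eq_top_of_iUnion_eq_univ (p := W)
      (Set.eq_univ_of_forall fun c => Set.mem_iUnion.mpr (hcon c))
    exact hW E hE
  let t' : K := ∑ i, algebraMap k K0 (c i) • u' i
  have ht' : (t' : F) = ∑ i, c i • u i := by
    simp only [t', u', AddSubmonoidClass.coe_finsetSum, IntermediateField.coe_smul,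
      algebraMap_smul]
  have htop : K0⟮t'⟯ = ⊤ := by
    by_contra hne
    exact hc ⟨_, hne⟩ (mem_adjoin_simple_self K0 t')
  refine ⟨c, K.toSubfield, fun i => (u' i).2, fun a => ?_, fun y hy => ?_⟩
  · rw [← ht', ← Polynomial.aeval_map_algebraMap K0]
    have := Polynomial.aeval_algHom_apply K.val t' (a.map (algebraMap A K0))
    simp only [coe_val] at this
    rw [this]
    exact Subtype.property _
  · have h1 : (⟨y, hy⟩ : K) ∈ K0⟮t'⟯.toSubalgebra := by rw [htop]; trivial
    rw [adjoin_simple_toSubalgebra_of_isAlgebraic (Algebra.IsAlgebraic.isAlgebraic t'),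
      Algebra.adjoin_singleton_eq_range_aeval] at h1
    obtain ⟨p, hp⟩ := h1
    obtain ⟨b, hb, hb'⟩ := IsLocalization.integerNormalization_spec (nonZeroDivisors A) p
    refine ⟨b, nonZeroDivisors.ne_zero hb, IsLocalization.integerNormalization (nonZeroDivisors A) p,
      ?_⟩
    have h2 := Polynomial.aeval_algHom_apply K.val t' p
    have h3 : Polynomial.aeval t' p = ⟨y, hy⟩ := hp
    rw [h3] at h2
    simp only [coe_val] at h2
    rw [← ht', ← Polynomial.aeval_map_algebraMap K0, hb', ← algebraMap_smul K0 b p, map_smul, h2,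
      Algebra.smul_def, ← IsScalarTower.algebraMap_apply]

/-- common denominators -/
theorem common {A F : Type} [CommRing A] [IsDomain A] [Field F] [Algebra A F] (t : F)
    {T : Set F} (hT : T.Finite) (h : ∀ y ∈ T, ∃ δ : A, δ ≠ 0 ∧ ∃ a : Polynomial A,
      algebraMap A F δ * y = Polynomial.aeval t a) :
    ∃ δ : A, δ ≠ 0 ∧ ∀ y ∈ T, ∃ a : Polynomial A, algebraMap A F δ * y = Polynomial.aeval t a := by
  induction T, hT using Set.Finite.induction_on with
  | empty => exact ⟨1, one_ne_zero, by simp⟩
  | @insert y T _ _ ih =>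
    obtain ⟨δ, hδ, h1⟩ := ih fun y hy => h y (Set.mem_insert_of_mem _ hy)
    obtain ⟨δ', hδ', a', h2⟩ := h y (Set.mem_insert _ _)
    refine ⟨δ * δ', mul_ne_zero hδ hδ', ?_⟩
    rintro y' (rfl | hy')
    · exact ⟨Polynomial.C δ * a', by rw [map_mul, map_mul, Polynomial.aeval_C, ← h2, mul_assoc]⟩
    · obtain ⟨a, ha⟩ := h1 y' hy'
      refine ⟨Polynomial.C δ' * a, ?_⟩
      rw [map_mul, map_mul, Polynomial.aeval_C, ← ha]
      ring

/-- dehomogenising keeps algebraic independence -/
theorem inj_dehom {k F : Type} [Field k] [CommRing F] [Algebra k F] {m : ℕ} (y : Fin (m + 1) → F)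
    (z : Fin m → F) (hy : AlgebraicIndependent k y)
    (hz : ∀ j, y j.castSucc = z j * y (Fin.last m)) :
    Function.Injective (aeval z : MvPolynomial (Fin m) k →ₐ[k] F) := by
  rw [injective_iff_map_eq_zero]
  intro Q hQ
  have key : ∀ (R : Type) [CommRing R] [Algebra k R] (y : Fin (m + 1) → R) (z : Fin m → R),
      (∀ j, y j.castSucc = z j * y (Fin.last m)) →
      aeval y (∑ n ∈ Finset.range (Q.totalDegree + 1), rename Fin.castSucc
        (homogeneousComponent n Q) * X (Fin.last m) ^ (Q.totalDegree - n)) =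
      y (Fin.last m) ^ Q.totalDegree * aeval z Q := by
    intro R _ _ y z hz
    rw [show aeval z Q = aeval z (∑ n ∈ Finset.range (Q.totalDegree + 1),
      homogeneousComponent n Q) by rw [sum_homogeneousComponent], map_sum, map_sum, Finset.mul_sum]
    refine Finset.sum_congr rfl fun n hn => ?_
    have h1 : y ∘ Fin.castSucc = y (Fin.last m) • z := funext fun j => by
      simp [hz j, mul_comm]
    have h2 : n ≤ Q.totalDegree := Nat.lt_succ_iff.mp (Finset.mem_range.mp hn)
    rw [map_mul, map_pow, aeval_X, aeval_rename, h1,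
      aeval_smul_hom (homogeneousComponent_isHomogeneous n Q), mul_right_comm, ← pow_add,
      Nat.add_sub_cancel' h2]
  have h1 := key F y z hz
  rw [hQ, mul_zero] at h1
  have h2 := key (MvPolynomial (Fin m) k) (Fin.snoc (α := fun _ => MvPolynomial (Fin m) k) X 1) X
    (by simp)
  rw [(injective_iff_map_eq_zero _).mp hy _ h1] at h2
  simpa using h2.symm

theorem aeval_mono {k σ R : Type} [Field k] [CommRing R] [Algebra k R] (x : σ → R)
    (a b : σ →₀ ℕ) : aeval x (monomial (a + b) (1 : k)) =
      aeval x (monomial a (1 : k)) * aeval x (monomial b (1 : k)) := by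
  rw [← map_mul, monomial_mul, one_mul]

/-- integrality of the monomials of degree `e` over the parameters -/
theorem integral {k σ A F : Type} [Field k] [Fintype σ] [CommRing A] [Field F] [Algebra k A]
    [Algebra A F] [Algebra k F] [IsScalarTower k A F] {q : Ideal (MvPolynomial σ k)} {m e D : ℕ}
    {ξ : Fin (m + 1) → MvPolynomial σ k} (h : Hsop q m e D ξ) {x : σ → F} (hx : Zr q x)
    (hs : aeval x (ξ (Fin.last m)) ≠ 0) (w : Fin (m + 1) → A)
    (hw : ∀ j, aeval x (ξ j) = algebraMap A F (w j) * aeval x (ξ (Fin.last m)))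
    (γ : σ →₀ ℕ) (hγ : γ.degree = e) :
    IsIntegral A (aeval x (monomial γ (1 : k)) / aeval x (ξ (Fin.last m))) := by
  classical
  set s := aeval x (ξ (Fin.last m)) with hsdef
  let N : Submodule A F := Submodule.span A
    ((fun ν => aeval x (monomial ν (1 : k)) / s ^ D) '' {ν | ν.degree = e * D})
  have hN : ∀ H : MvPolynomial σ k, H.IsHomogeneous (e * D) → aeval x H / s ^ D ∈ N := by
    intro H hH
    rw [H.as_sum, map_sum, Finset.sum_div]
    refine N.sum_mem fun ν hν => ?_
    have h1 : aeval x (monomial ν (coeff ν H)) / s ^ D =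
        algebraMap k A (coeff ν H) • (aeval x (monomial ν (1 : k)) / s ^ D) := by
      rw [algebraMap_smul, Algebra.smul_def, aeval_monomial, aeval_monomial, map_one, one_mul,
        mul_div_assoc]
    rw [h1]
    refine N.smul_mem _ (Submodule.subset_span ⟨ν, ?_, rfl⟩)
    have := hH (mem_support_iff.mp hν)
    rwa [Set.mem_ofPred_eq, Finsupp.degree_eq_weight_one]
  refine isIntegral_of_smul_mem_submodule N ?_
    (Submodule.fg_span ((Finsupp.finite_of_degree_eq _).image _)) _ ?_
  · intro hb
    have h1 := hN _ ((h.hom (Fin.last m)).pow D)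
    rw [map_pow, ← hsdef, div_self (pow_ne_zero _ hs), hb] at h1
    exact one_ne_zero ((Submodule.mem_bot A).mp h1)
  · intro n hn
    induction hn using Submodule.span_induction with
    | mem n hn =>
      obtain ⟨ν, hν, rfl⟩ := hn
      obtain ⟨H, hH, hq⟩ := h.ns (γ + ν) (by rw [map_add, hγ, hν]; ring)
      have h1 := hx _ hq
      rw [map_sub, sub_eq_zero, aeval_mono, map_sum] at h1
      have h2 : (aeval x (monomial γ (1 : k)) / s) • (aeval x (monomial ν (1 : k)) / s ^ D) =
          ∑ j, w j • (aeval x (H j) / s ^ D) := by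
        rw [smul_eq_mul, div_mul_div_comm, h1, Finset.sum_div]
        refine Finset.sum_congr rfl fun j _ => ?_
        rw [map_mul, hw j, Algebra.smul_def]
        field_simp
      rw [h2]
      exact N.sum_mem fun j _ => N.smul_mem _ (hN _ (hH j))
    | zero => simp
    | add a b _ _ ha hb =>
      rw [smul_add]
      exact N.add_mem ha hb
    | smul r a _ ha =>
      rw [smul_comm]
      exact N.smul_mem _ ha

/-- the presentation attached to a point of a field -/
theorem core {k σ F : Type} [Field k] [CharZero k] [Fintype σ] [Field F] [Algebra k F]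
    {q : Ideal (MvPolynomial σ k)} {m e D : ℕ} {ξ : Fin (m + 1) → MvPolynomial σ k}
    (hq : IsHom q) (h : Hsop q m e D ξ) {x : σ → F} (hx : Zr q x)
    (hind : AlgebraicIndependent k fun j => aeval x (ξ j)) :
    ∃ W : Raw k σ m, W.ξ = ξ ∧ W.Ok q e D ∧ W.Δ ≠ 0 ∧ Irreducible W.P ∧
      ∀ (z : Fin m → F) (t : F), (∀ j, aeval x (ξ j.castSucc) = z j * aeval x (ξ (Fin.last m))) →
        aeval x W.η = t * aeval x (ξ (Fin.last m)) →
        evZT z t W.P = 0 ∧ Par (fun i => evZT z t (W.φ i)) x := by
  classical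
  set s := aeval x (ξ (Fin.last m)) with hsdef
  have hs : s ≠ 0 := hind.ne_zero (Fin.last m)
  let z : Fin m → F := fun j => aeval x (ξ j.castSucc) / s
  have hz : ∀ j, aeval x (ξ j.castSucc) = z j * s := fun j => (div_mul_cancel₀ _ hs).symm
  have hinj := inj_dehom _ z hind hz
  let A := MvPolynomial (Fin m) k
  let _ : Algebra A F := (aeval z : A →ₐ[k] F).toRingHom.toAlgebra
  have : IsScalarTower k A F := IsScalarTower.of_algebraMap_eq fun a =>
    ((aeval z : A →ₐ[k] F).commutes a).symm
  have : FaithfulSMul A F := (faithfulSMul_iff_algebraMap_injective A F).mpr hinj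
  have hev : ∀ (t : F) (a : ZT k m), evZT z t a = Polynomial.aeval t a := fun _ _ => rfl
  let w : Fin (m + 1) → A := Fin.snoc (α := fun _ => A) X 1
  have hw : ∀ j, aeval x (ξ j) = algebraMap A F (w j) * s := fun j => by
    induction j using Fin.lastCases with
    | last => simp [w, hsdef]
    | cast j =>
      rw [hz j]
      congr 1
      simp only [w, Fin.snoc_castSucc]
      exact (aeval_X z j).symm
  have hzv : ∀ j, zv k m j = Polynomial.C (w j) := fun j => by
    induction j using Fin.lastCases with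
    | last => simp [w, zv]
    | cast j => simp [w, zv]
  let ι := {γ : σ →₀ ℕ // γ.degree = e}
  have : Finite ι := Finsupp.finite_of_degree_eq e
  let _ : Fintype ι := Fintype.ofFinite ι
  let u : ι → F := fun γ => aeval x (monomial γ.1 (1 : k)) / s
  have hu : ∀ γ, IsIntegral A (u γ) := fun γ => integral h hx hs w hw γ.1 γ.2
  obtain ⟨c, K, hK1, hK2, hK3⟩ := prim (k := k) u hu
  set t := ∑ i, c i • u i with htdef
  have hti : IsIntegral A t := IsIntegral.sum _ fun i _ => by
    rw [← algebraMap_smul A]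
    exact (hu i).smul _
  let η : MvPolynomial σ k := ∑ i, c i • monomial i.1 1
  have hη : η.IsHomogeneous e := IsHomogeneous.sum _ _ _ fun i _ =>
    (homogeneousSubmodule σ k e).smul_mem _ (isHomogeneous_monomial _ i.2)
  have hηt : aeval x η = t * s := by
    rw [htdef, Finset.sum_mul, map_sum]
    refine Finset.sum_congr rfl fun i _ => ?_
    rw [map_smul, smul_mul_assoc, div_mul_cancel₀ _ hs]
  have hdvd : ∀ a : ZT k m, evZT z t a = 0 → minpoly A t ∣ a := fun a ha =>
    minpoly.isIntegrallyClosed_dvd hti ha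
  obtain ⟨i0, hi0⟩ : ∃ i, x i ≠ 0 := by
    by_contra hcon
    push Not at hcon
    apply hs
    have h1 : x = (0 : F) • x := funext fun i => by simp [hcon i]
    rw [hsdef, h1, aeval_smul_hom (h.hom _), zero_pow (by have := h.e_pos; omega), zero_mul]
  have hxK : ∀ i, x i / x i0 ∈ K := fun i => by
    have he : e = e - 1 + 1 := by have := h.e_pos; omega
    have h1 := hK1 ⟨Finsupp.single i0 (e - 1) + Finsupp.single i 1, by
      rw [map_add, Finsupp.degree_single, Finsupp.degree_single, ← he]⟩
    have h2 := hK1 ⟨Finsupp.single i0 (e - 1) + Finsupp.single i0 1, by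
      rw [map_add, Finsupp.degree_single, Finsupp.degree_single, ← he]⟩
    have h3 := K.div_mem h1 h2
    simp only [u, aeval_mono, ← X_pow_eq_monomial, map_pow, aeval_X, pow_one] at h3
    convert h3 using 1
    field_simp
  obtain ⟨δ, hδ, hφ⟩ := common t (Set.finite_range fun i => x i / x i0) (by
    rintro _ ⟨i, rfl⟩
    exact hK3 _ (hxK i))
  choose φ hφ using fun i => hφ _ ⟨i, rfl⟩
  have hne : ∀ {a : A}, a ≠ 0 → algebraMap A F a ≠ 0 := fun ha =>
    (map_ne_zero_iff _ (FaithfulSMul.algebraMap_injective A F)).mpr ha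
  set lam := algebraMap A F δ / x i0 with hlam
  have hlam0 : lam ≠ 0 := div_ne_zero (hne hδ) hi0
  have hφx : (fun i => evZT z t (φ i)) = lam • x := funext fun i => by
    rw [hev, ← hφ i, hlam, Pi.smul_apply, smul_eq_mul]
    ring
  have hcomp : ∀ G : MvPolynomial σ k, evZT z t (aeval φ G : ZT k m) = aeval (lam • x) G :=
    fun G => by rw [← hφx, aeval_map_alg]
  let θ : ZT k m := aeval φ (ξ (Fin.last m))
  have hθ : evZT z t θ = lam ^ e * s := by rw [hcomp, aeval_smul_hom (h.hom _)]
  have hθ0 : evZT z t θ ≠ 0 := by rw [hθ]; exact mul_ne_zero (pow_ne_zero _ hlam0) hs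
  have hmon := minpoly.monic hti
  have hsep : evZT z t (Polynomial.derivative (minpoly A t)) ≠ 0 := fun h0 => by
    have h1 := Polynomial.eq_zero_of_dvd_of_degree_lt (hdvd _ h0)
      (Polynomial.degree_derivative_lt hmon.ne_zero)
    have : CharZero A := charZero_of_injective_algebraMap (algebraMap k A).injective
    exact (minpoly.natDegree_pos hti).ne' (Polynomial.derivative_eq_zero.mp h1)
  obtain ⟨Δ, hΔ, hT⟩ := common t (T := insert (evZT z t θ)⁻¹ (insert
      (evZT z t (Polynomial.derivative (minpoly A t)))⁻¹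
      ((fun ν => evZT z t (aeval φ (monomial ν (1 : k)) : ZT k m) / evZT z t θ ^ D) ''
        {ν | ν.degree = e * D})))
    ((((Finsupp.finite_of_degree_eq _).image _).insert _).insert _) (by
      rintro _ (rfl | rfl | ⟨ν, _, rfl⟩)
      · exact hK3 _ (K.inv_mem (hK2 _))
      · exact hK3 _ (K.inv_mem (hK2 _))
      · exact hK3 _ (K.div_mem (hK2 _) (K.pow_mem (hK2 _) _)))
  obtain ⟨θ', hθ'⟩ := hT _ (Or.inl rfl)
  obtain ⟨π', hπ'⟩ := hT _ (Or.inr (Or.inl rfl))
  have hψ : ∀ ν : σ →₀ ℕ, ∃ a : ZT k m, ν.degree = e * D → algebraMap A F Δ *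
      (evZT z t (aeval φ (monomial ν (1 : k)) : ZT k m) / evZT z t θ ^ D) = evZT z t a := fun ν => by
    by_cases hν : ν.degree = e * D
    · obtain ⟨a, ha⟩ := hT _ (Or.inr (Or.inr ⟨ν, hν, rfl⟩))
      exact ⟨a, fun _ => ha⟩
    · exact ⟨0, fun h => absurd h hν⟩
  choose ψ hψ using hψ
  have hH : ∀ ν : σ →₀ ℕ, ∃ H : Fin (m + 1) → MvPolynomial σ k, ν.degree = e * (D + 1) →
      (∀ j, (H j).IsHomogeneous (e * D)) ∧ monomial ν 1 - ∑ j, ξ j * H j ∈ q := fun ν => by
    by_cases hν : ν.degree = e * (D + 1)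
    · obtain ⟨H, hH⟩ := h.ns ν hν
      exact ⟨H, fun _ => hH⟩
    · exact ⟨0, fun h => absurd h hν⟩
  choose H hH using hH
  have hP : evZT z t (minpoly A t) = 0 := minpoly.aeval A t
  have hC : ∀ a : A, evZT z t (Polynomial.C a) = algebraMap A F a := fun a => Polynomial.aeval_C t a
  have hX : evZT z t (Polynomial.X : ZT k m) = t := Polynomial.aeval_X (R := A) t
  have hmem : ∀ G ∈ q, minpoly A t ∣ (aeval φ G : ZT k m) := fun G hG =>
    hdvd _ (by rw [hcomp]; exact hx.smul hq lam G hG)
  refine ⟨⟨ξ, η, minpoly A t, φ, θ, θ', π', Δ, H, fun ν => ψ ν %ₘ minpoly A t⟩, rfl,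
    ⟨h.hom, hη, fun ν j hν => (hH ν hν).1 j, hmon, hmem, fun j => hdvd _ ?_, hdvd _ ?_,
      fun ν hν => hmem _ (hH ν hν).2, fun ν hν => hdvd _ ?_,
      fun ν _ => Polynomial.degree_modByMonic_lt _ hmon, hdvd _ ?_, hdvd _ ?_⟩, hΔ,
    minpoly.irreducible hti, fun z' t' hz' ht' => ?_⟩
  · rw [map_sub, map_mul, hcomp, aeval_smul_hom (h.hom _), hθ, hzv, hC, hw j]
    ring
  · rw [map_sub, map_mul, hcomp, aeval_smul_hom hη, hθ, hX, hηt]
    ring
  · have h1 : evZT z t (ψ ν %ₘ minpoly A t) = evZT z t (ψ ν) :=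
      Polynomial.aeval_modByMonic_eq_self_of_root (minpoly.aeval A t)
    rw [map_sub, map_mul, map_mul, map_pow, hC, h1, ← hψ ν hν]
    field_simp
    ring
  · rw [map_sub, map_mul, hC, hev t θ', ← hθ']
    field_simp
    ring
  · rw [map_sub, map_mul, hC, hev t π', ← hπ']
    field_simp
    ring
  · obtain rfl : z = z' := funext fun j => mul_right_cancel₀ hs ((hz j).symm.trans (hz' j))
    obtain rfl : t = t' := mul_right_cancel₀ hs (hηt.symm.trans ht')
    refine ⟨hP, ?_⟩
    rw [hφx]
    exact (par_smul lam x).symm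

end T32

theorem st_DATA : St_DATA := by
  intro k σ _ _ _ q m e D ξ hp hq h
  let A := MvPolynomial σ k ⧸ q
  let s : A := Ideal.Quotient.mk q (ξ (Fin.last m))
  have hs : s ≠ 0 := h.ind.ne_zero (Fin.last m)
  have hle := powers_le_nonZeroDivisors_of_noZeroDivisors hs
  let S := Localization.Away s
  have : IsDomain S := IsLocalization.isDomain_localization hle
  let F := FractionRing S
  let f : A →ₐ[k] S := IsScalarTower.toAlgHom k A S
  let g : S →ₐ[k] F := IsScalarTower.toAlgHom k S F
  have hf : Function.Injective f := IsLocalization.injective S hle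
  have hg : Function.Injective g := IsFractionRing.injective S F
  let x : σ → A := fun i => Ideal.Quotient.mk q (X i)
  have hx : ∀ G, aeval x G = Ideal.Quotient.mk q G := fun G =>
    congrArg (fun φ : MvPolynomial σ k →ₐ[k] A => φ G) (aeval_unique (Ideal.Quotient.mkₐ k q)).symm
  have hxz : Zr q x := fun G hG => by rw [hx]; exact Ideal.Quotient.eq_zero_iff_mem.mpr hG
  have hind : AlgebraicIndependent k fun j => aeval (fun i => g (f (x i))) (ξ j) := by
    simp only [aeval_map_alg, hx]
    exact (h.ind.map' hf).map' hg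
  obtain ⟨W, h1, h2, h3, h4, h5⟩ := T32.core hq h ((hxz.map f).map g) hind
  refine ⟨W, h1, h2, h3, h4, fun R _ _ y z t hy hu hz ht => ?_⟩
  let v : S := IsLocalization.Away.invSelf s
  have hv : v * f s = 1 := by rw [mul_comm]; exact IsLocalization.Away.mul_invSelf s
  let z0 : Fin m → S := fun j => f (aeval x (ξ j.castSucc)) * v
  let t0 : S := f (aeval x W.η) * v
  have hmap : ∀ {R' : Type} [CommRing R'] [Algebra k R'] (r : S →ₐ[k] R') (a : ZT k m),
      evZT (fun j => r (z0 j)) (r t0) a = r (evZT z0 t0 a) := fun r a => by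
    have : evZT (fun j => r (z0 j)) (r t0) = r.comp (evZT z0 t0) := by
      apply Polynomial.algHom_ext'
      · ext j
        simp [evZT]
      · simp [evZT]
    rw [this, AlgHom.comp_apply]
  have hs' : aeval x (ξ (Fin.last m)) = s := hx _
  obtain ⟨h6, h7⟩ := h5 (fun j => g (z0 j)) (g t0)
    (fun j => by simp only [aeval_map_alg, z0, hs', ← map_mul, mul_assoc, hv, mul_one])
    (by simp only [aeval_map_alg, t0, hs', ← map_mul, mul_assoc, hv, mul_one])
  let r0 : A →ₐ[k] R := Ideal.Quotient.liftₐ q (aeval y) hy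
  have hr0 : ∀ G, r0 (aeval x G) = aeval y G := fun G => by rw [hx]; rfl
  have hu' : IsUnit (r0 s) := by rw [← hs', hr0]; exact hu
  let r : S →ₐ[k] R := IsLocalization.liftAlgHom (M := Submonoid.powers s) (f := r0) (by
    rintro ⟨_, n, rfl⟩
    rw [map_pow]
    exact hu'.pow n)
  have hr : ∀ a, r (f a) = r0 a := fun a => IsLocalization.lift_eq _ a
  have hrv : aeval y (ξ (Fin.last m)) * r v = 1 := by
    rw [← hr0, hs', ← hr, ← map_mul, mul_comm, hv, map_one]
  have hz' : z = fun j => r (z0 j) := funext fun j => by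
    simp only [z0, map_mul, hr, hr0, hz j, mul_assoc, hrv, mul_one]
  have ht' : t = r t0 := by simp only [t0, map_mul, hr, hr0, ht, mul_assoc, hrv, mul_one]
  have hy' : y = fun i => r (f (x i)) := funext fun i => by
    rw [hr, ← aeval_X (R := k) x i, hr0, aeval_X]
  rw [hz', ht', hy']
  simp only [hmap] at h6 h7 ⊢
  refine ⟨by rw [hg (h6.trans (map_zero g).symm), map_zero], Par.map r fun i j => hg ?_⟩
  simpa only [map_mul] using h7 i j

end D4C
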