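import Pool.Agent.Lib.D4C.BlueF

/-! The theorem of the cube applied to doubling. -/

namespace D4C

namespace T46

theorem gv_perm {K σ : Type} [Field K] [Fintype σ] (O : ValuationSubring K) (x : σ → K)
    (π : Equiv.Perm σ) : gv O (x ∘ π) = gv O x := by
  refine le_antisymm (Finset.sup_le fun i _ => ?_) (Finset.sup_le fun i _ => ?_)
  · exact Finset.le_sup (f := fun i => O.valuation (x i)) (Finset.mem_univ (π i))
  · simpa [gv] using Finset.le_sup (f := fun i => O.valuation ((x ∘ π) i))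
      (Finset.mem_univ (π.symm i))

theorem ov_alg {L κ Ω : Type} [Field L] [Field κ] [Field Ω] [Algebra L κ] [Algebra L Ω]
    [Algebra κ Ω] [IsScalarTower L κ Ω] [Algebra.IsAlgebraic L κ] {O : ValuationSubring Ω}
    (h : Ov L O) : Ov κ O := fun a => by
  let _ : Algebra L O := ((algebraMap L Ω).codRestrict O h).toAlgebra
  have : IsScalarTower L O Ω := IsScalarTower.of_algebraMap_eq fun _ => rfl
  have h1 : IsIntegral L (algebraMap κ Ω a) :=
    (Algebra.IsAlgebraic.isAlgebraic a).isIntegral.algebraMap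
  obtain ⟨b, hb⟩ := IsIntegrallyClosed.isIntegral_iff.mp (h1.tower_top (A := O))
  exact hb ▸ b.2

theorem rp_eq {L σ K : Type} [Field L] [Fintype σ] [DecidableEq σ] {B : Pkg L σ} [Field K]
    [Algebra L K] {p : B.Pt K} {x : σ → K} (h : B.Rep p x) : ∃ t : K, t ≠ 0 ∧ B.rp p = t • x := by
  obtain ⟨t, ht⟩ := (h.par (B.rep_rp p)).exists_smul h.uni
  exact ⟨t, (ht ▸ (B.rep_rp p).uni : Uni (t • x)).isUnit_of_smul.ne_zero, ht⟩

end T46

theorem st_DBL (hC : St_CURVE) (hS : St_CSUM) (hB : St_SUBG) (hG : St_GV) : St_DBL := by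
  intro L σ _ _ _ _ B Ω _ _ _ p
  let κ := AlgebraicClosure L
  let _ : Algebra κ Ω := (IsAlgClosed.lift : κ →ₐ[L] Ω).toRingHom.toAlgebra
  have : IsScalarTower L κ Ω := IsScalarTower.of_algebraMap_eq fun a =>
    ((IsAlgClosed.lift : κ →ₐ[L] Ω).commutes a).symm
  have : CharZero κ := algebraRat.charZero κ
  obtain ⟨j, q, hq, hsum⟩ := hS κ σ (B.bc κ)
  obtain ⟨h0, hadd⟩ := hB κ σ (B.bc κ) Ω
  obtain ⟨x, hx, hp⟩ := hsum Ω (B.toBc κ p)
  have hcube : ∀ y z, (B.bc κ).Cube (B.toBc κ p) y z := by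
    rw [hp]
    exact Finset.sum_induction x (fun w => ∀ y z, (B.bc κ).Cube w y z) hadd h0 fun i _ y z =>
      hC κ σ (B.bc κ) (q i) (hq i).1 (hq i).2.1 (hq i).2.2.1 (hq i).2.2.2.1 (hq i).2.2.2.2 Ω _ y z
        (hx i)
  obtain ⟨c, hc, h⟩ := hcube (B.toBc κ p) (-B.toBc κ p)
  have r1 : (B.bc κ).Rep (B.toBc κ p) (B.rp p) := (B.rep_rp p).transfer
  have r3 : (B.bc κ).Rep (B.toBc κ (2 • p)) (B.rp (2 • p)) := (B.rep_rp _).transfer
  rw [two_nsmul p, map_add, ← two_nsmul p] at r3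
  obtain ⟨t1, n1, e1⟩ := T46.rp_eq r1
  obtain ⟨t2, n2, e2⟩ := T46.rp_eq r1.neg
  obtain ⟨t3, n3, e3⟩ := T46.rp_eq r3
  obtain ⟨t4, n4, e4⟩ := T46.rp_eq (Pkg.rep_zero (B := B.bc κ) (R := Ω))
  refine ⟨t3 * t4 * t4 / (c * t1 * t1 * t1 * t2), by positivity, fun O hO => ?_⟩
  have hO' : Ov κ O := T46.ov_alg hO
  have k := h O hO'
  obtain ⟨i, h2, h3, -⟩ := hG.att Ω σ O _ (uni_iff_ne_zero.1 ((B.bc κ).o_uni (R := Ω)))
  have h4 : O.valuation (algebraMap κ Ω ((B.bc κ).o i)) = 1 := by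
    refine le_antisymm ((O.valuation_le_one_iff _).2 (hO' _)) ?_
    have := (O.valuation_le_one_iff _).2 (hO' ((B.bc κ).o i)⁻¹)
    rwa [map_inv₀, map_inv₀, inv_le_one₀ ((Valuation.pos_iff _).2 h2)] at this
  simp only [EqF, Fin.prod_univ_succ, Fin.prod_univ_zero, Matrix.cons_val_zero,
    Matrix.cons_val_succ, mul_one, add_neg_cancel_right, add_neg_cancel, e1, e2, e3, e4, hG.smul,
    T46.gv_perm, h3, h4, map_div₀, map_mul] at k ⊢
  have nz : ∀ {t : Ω}, t ≠ 0 → O.valuation t ≠ 0 := fun h => (Valuation.ne_zero_iff _).2 h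
  rw [div_mul_eq_mul_div, div_eq_iff (mul_ne_zero (mul_ne_zero (mul_ne_zero (mul_ne_zero (nz hc)
    (nz n1)) (nz n1)) (nz n1)) (nz n2))]
  calc _ = O.valuation t3 * gv O (B.rp (2 • p)) * (O.valuation t4 * O.valuation t4) := by ac_rfl
    _ = _ := by rw [← k]; ac_rfl

end D4C
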