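import Pool.Agent.Lib.D4C.BlueU

/-! Row DECC: base change and composition of decompositions. -/

namespace D4C

open MvPolynomial Filter

namespace T84

variable {L σ : Type} [Field L] [Fintype σ] [DecidableEq σ]

theorem sub2_bc (B : Pkg L σ) (L' : Type) [Field L'] [Algebra L L'] : Sub2 B (B.bc L') :=
  ⟨le_rfl, rfl, rfl, fun a => ⟨a, rfl⟩, fun a => ⟨a, rfl⟩⟩

theorem sub2_trans {B : Pkg L σ} {L' L'' : Type} [Field L'] [Field L''] [Algebra L L']
    [Algebra L' L''] [Algebra L L''] [IsScalarTower L L' L''] {B' : Pkg L' σ} {B'' : Pkg L'' σ}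
    (h : Sub2 B B') (h' : Sub2 B' B'') : Sub2 B B'' := by
  have key : ∀ F : MvPolynomial (σ ⊕ σ) L, MvPolynomial.map (algebraMap L' L'')
      (MvPolynomial.map (algebraMap L L') F) = MvPolynomial.map (algebraMap L L'') F := fun F => by
    rw [MvPolynomial.map_map, ← IsScalarTower.algebraMap_eq]
  refine ⟨?_, ?_, h'.π_eq.trans h.π_eq, fun a'' => ?_, fun a => ?_⟩
  · rw [← ext_ext (L' := L') B.I L'']
    exact (Ideal.map_mono h.le).trans h'.le
  · rw [h'.o_eq, h.o_eq]
    funext i
    exact (IsScalarTower.algebraMap_apply L L' L'' _).symm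
  · obtain ⟨a', ha'⟩ := h'.law a''
    obtain ⟨a, ha⟩ := h.law a'
    exact ⟨a, by rw [ha', ha]; exact funext fun i => key _⟩
  · obtain ⟨a', ha'⟩ := h.law' a
    obtain ⟨a'', ha''⟩ := h'.law' a'
    exact ⟨a'', by rw [ha'', ha']; exact funext fun i => key _⟩

theorem lo_const {U : Ultrafilter ℕ} {H : ℕ → ℝ} (hH : Tendsto H U atTop) (c : ℝ) :
    Lo U H fun _ => c := fun ε hε => by
  filter_upwards [hH.eventually_ge_atTop (c / ε)] with n hn
  rw [div_le_iff₀ hε] at hn
  linarith

theorem htM_add (hT : St_HT) (B : Pkg L σ) (M : Type) [Field M] [NumberField M] [Algebra L M] :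
    ∃ C : ℝ, ∀ p q : B.Pt M, htM B (p + q) ≤ B.β * htM B p + B.β * htM B q + C := by
  obtain ⟨C, -, -, h, -⟩ := hT M σ (B.bc M)
  have key : ∀ p : B.Pt M, (B.bc M).ht (B.toBc M p) = htM B p := fun p => by
    obtain ⟨x, hx⟩ := Pkg.exists_rep p
    rw [htM_rep hx]
    exact Pkg.Rep.ht hx.transfer
  refine ⟨C, fun p q => ?_⟩
  have := h (B.toBc M p) (B.toBc M q)
  rwa [← map_add, key, key, key] at this

end T84

theorem st_DECC (hD : St_DECH) (hT : St_HT) (hE : St_HEXT) : St_DECC := by
  intro L σ _ _ _ _ B U x hx L' _ _ _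
  refine ⟨⟨fun n => B.toBc L' (B.map (Algebra.ofId L L') (x n)), T84.sub2_bc B L',
    Eventually.of_forall fun n => ?_, T84.lo_const hx _⟩, ?_⟩
  · obtain ⟨w, hw⟩ := Pkg.exists_rep (B.map (Algebra.ofId L L') (x n))
    rw [add_zero]
    exact hw.eq ((T84.sub2_bc B L').rep hw.transfer) (Par.refl _)
  · intro B' x' y L'' _ _ _ _ _ B'' x'' y' h h'
    let τ := IsScalarTower.toAlgHom L L' L''
    refine ⟨fun n => h.sub.hom L'' (y' n) + B.map τ (y n), T84.sub2_trans h.sub h'.sub, ?_, ?_⟩
    · filter_upwards [h.eq, h'.eq] with n e1 e2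
      have a1 : B.map (Algebra.ofId L L'') (x n) = B.map τ (B.map (Algebra.ofId L L') (x n)) := by
        rw [Pkg.map_map]
        exact congrArg (fun f => B.map f (x n)) (Subsingleton.elim _ _)
      have a2 : B.map τ (h.sub.hom L' (x' n)) =
          h.sub.hom L'' (B'.map (Algebra.ofId L' L'') (x' n)) := by
        obtain ⟨w, hw⟩ := Pkg.exists_rep (x' n)
        exact ((h.sub.rep hw).map τ).eq (h.sub.rep (hw.map (Algebra.ofId L' L''))) (Par.refl _)
      have a3 : h.sub.hom L'' (h'.sub.hom L'' (x'' n)) =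
          (T84.sub2_trans h.sub h'.sub).hom L'' (x'' n) := by
        obtain ⟨w, hw⟩ := Pkg.exists_rep (x'' n)
        exact (h.sub.rep (h'.sub.rep hw)).eq ((T84.sub2_trans h.sub h'.sub).rep hw) (Par.refl _)
      rw [a1, e1, map_add, a2, e2, map_add, a3, add_assoc]
    · obtain ⟨-, c, hc, hcc⟩ := hD L σ B U x L' B' x' y hx h
      obtain ⟨C, hC⟩ := T84.htM_add hT B L''
      have b1 : ∀ p : B'.Pt L'', htM B (h.sub.hom L'' p) = htM B' p := fun p => by
        obtain ⟨w, hw⟩ := Pkg.exists_rep p
        rw [htM_rep hw, htM_rep (h.sub.rep hw)]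
      have b2 : ∀ p : B.Pt L', htM B (B.map τ p) = Module.finrank L' L'' * htM B p := fun p => by
        obtain ⟨w, hw⟩ := Pkg.exists_rep p
        rw [htM_rep hw, htM_rep (hw.map τ)]
        exact hE L' L'' σ w
      intro ε hε
      have hβ : (0 : ℝ) < B.β := by exact_mod_cast B.β_pos
      have hd : (0 : ℝ) < Module.finrank L' L'' + 1 := by positivity
      filter_upwards [hcc, h'.small (ε / (3 * B.β * c)) (by positivity),
        h.small (ε / (3 * B.β * (Module.finrank L' L'' + 1))) (by positivity),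
        T84.lo_const hx C (ε / 3) (by positivity), hx.eventually_ge_atTop 0] with n c1 c2 c3 c4 c5
      refine (hC _ _).trans ?_
      rw [b1, b2]
      have d1 : B.β * htM B' (y' n) ≤ ε / 3 * B.ht (x n) := by
        have := c2.trans (mul_le_mul_of_nonneg_left c1.2 (by positivity))
        calc B.β * htM B' (y' n) ≤ B.β * (ε / (3 * B.β * c) * (c * B.ht (x n))) :=
              mul_le_mul_of_nonneg_left this hβ.le
          _ = ε / 3 * B.ht (x n) := by field_simp
      have d2 : B.β * (Module.finrank L' L'' * htM B (y n)) ≤ ε / 3 * B.ht (x n) := by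
        calc B.β * (Module.finrank L' L'' * htM B (y n))
            ≤ B.β * ((Module.finrank L' L'' + 1) *
              (ε / (3 * B.β * (Module.finrank L' L'' + 1)) * B.ht (x n))) := by
              refine mul_le_mul_of_nonneg_left ?_ hβ.le
              refine (mul_le_mul_of_nonneg_left c3 (by positivity)).trans ?_
              exact mul_le_mul_of_nonneg_right (by linarith) (by positivity)
          _ = ε / 3 * B.ht (x n) := by field_simp
      linarith

end D4C
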