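import Pool.Agent.Lib.D4C.BlueU

/-! Block DECH: heights in a decomposition are comparable. -/

namespace D4C

open MvPolynomial Filter

namespace T65

variable {L σ : Type} [Field L] [NumberField L] [Fintype σ] [DecidableEq σ] {B : Pkg L σ}
  {L' : Type} [Field L'] [NumberField L'] [Algebra L L']

omit [NumberField L] in
theorem ht_toBc (p : B.Pt L') : (B.bc L').ht (B.toBc L' p) = htM B p := by
  obtain ⟨x, hx⟩ := Pkg.exists_rep p
  have h1 : (B.bc L').Rep (B.toBc L' p) x := hx.transfer
  rw [h1.ht, htM_rep hx]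

theorem htM_map (hE : St_HEXT) (p : B.Pt L) :
    htM B (B.map (Algebra.ofId L L') p) = Module.finrank L L' * B.ht p := by
  obtain ⟨x, hx⟩ := Pkg.exists_rep p
  rw [htM_rep (hx.map (Algebra.ofId L L')), hx.ht]
  exact hE L L' σ x

omit [NumberField L] in
theorem htM_hom {B' : Pkg L' σ} (h : Sub2 B B') (p : B'.Pt L') :
    htM B (h.hom L' p) = B'.ht p := by
  obtain ⟨x, hx⟩ := Pkg.exists_rep p
  rw [htM_rep (h.rep hx), hx.ht]

omit [NumberField L] in
theorem htM_add (hT : St_HT) : ∃ C b : ℝ, 0 ≤ C ∧ 1 ≤ b ∧ ∀ p q : B.Pt L',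
    htM B (p + q) ≤ b * htM B p + b * htM B q + C ∧
    htM B (p - q) ≤ b * htM B p + b * htM B q + C := by
  obtain ⟨C, hC, hneg, hadd, -⟩ := hT L' σ (B.bc L')
  refine ⟨C, (B.bc L').β, hC, by exact_mod_cast (B.bc L').β_pos, fun p q => ⟨?_, ?_⟩⟩
  · have := hadd (B.toBc L' p) (B.toBc L' q)
    rwa [← map_add, ht_toBc, ht_toBc, ht_toBc] at this
  · have := hadd (B.toBc L' p) (-B.toBc L' q)
    rwa [hneg, ← sub_eq_add_neg, ← map_sub, ht_toBc, ht_toBc, ht_toBc] at this

end T65

theorem st_DECH (hT : St_HT) (hE : St_HEXT) : St_DECH := by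
  intro L σ _ _ _ _ B U x L' _ _ _ B' x' y hbig hD
  obtain ⟨C, b, hC, hb, hadd⟩ := T65.htM_add (B := B) (L' := L') hT
  have hd : (1 : ℝ) ≤ Module.finrank L L' := by
    have : Module.Finite L L' := Module.Finite.of_restrictScalars_finite ℚ L L'
    exact_mod_cast Module.finrank_pos (R := L) (M := L')
  have hb0 : 0 < b := by linarith
  have key : ∀ᶠ n in U, B.ht (x n) ≤ 2 * b * B'.ht (x' n) ∧
      B'.ht (x' n) ≤ (b * Module.finrank L L' + 1) * B.ht (x n) ∧ 0 ≤ B.ht (x n) ∧
      0 ≤ B'.ht (x' n) := by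
    filter_upwards [hD.eq, hD.small (1 / (4 * b)) (by positivity),
      hbig.eventually_ge_atTop (4 * C)] with n he hs hH
    have h1 := (hadd (hD.sub.hom L' (x' n)) (y n)).1
    have h2 := (hadd (B.map (Algebra.ofId L L') (x n)) (y n)).2
    rw [← he, T65.htM_map hE, T65.htM_hom] at h1
    have h3 : B.map (Algebra.ofId L L') (x n) - y n = hD.sub.hom L' (x' n) := by
      rw [he, add_sub_cancel_right]
    rw [h3, T65.htM_map hE, T65.htM_hom] at h2
    have h4 : b * htM B (y n) ≤ B.ht (x n) / 4 := by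
      refine (mul_le_mul_of_nonneg_left hs hb0.le).trans (le_of_eq ?_)
      field_simp
    have h5 : 0 ≤ B.ht (x n) := by linarith
    have h6 : B.ht (x n) ≤ Module.finrank L L' * B.ht (x n) := le_mul_of_one_le_left h5 hd
    refine ⟨by linarith, by linarith, h5, Height.logHeight_nonneg _⟩
  constructor
  · refine tendsto_atTop_mono' _ (f₁ := fun n => B.ht (x n) / (2 * b)) ?_
      (hbig.atTop_div_const (by positivity))
    filter_upwards [key] with n hn
    rw [div_le_iff₀ (by positivity)]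
    linarith [hn.1]
  · have hbd : 0 ≤ b * Module.finrank L L' := by positivity
    refine ⟨2 * b + (b * Module.finrank L L' + 1), by positivity, ?_⟩
    filter_upwards [key] with n hn
    obtain ⟨h1, h2, h3, h4⟩ := hn
    have h5 := mul_nonneg hbd h4
    have h6 := mul_nonneg hb0.le h3
    constructor <;> nlinarith

end D4C
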