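import Pool.Agent.Lib.D4C.B_TMN

/-! d4c56, block DER: derivations with prescribed values. -/

namespace D4C

open MvPolynomial

namespace T21u

theorem lift_gen {F Ω D : Type} [Field F] [Field Ω] [Algebra F Ω] [Algebra.IsSeparable F Ω]
    [CommRing D] (φ : F →+* D) (g : D →+* Ω) (hg : Function.Surjective g)
    (hn' : ∀ x y, g x = 0 → g y = 0 → x * y = 0) (hc : ∀ a, g (φ a) = algebraMap F Ω a) :
    ∃ ψ : Ω →+* D, (∀ a, g (ψ a) = a) ∧ ∀ a, ψ (algebraMap F Ω a) = φ a := by
  have hn : IsNilpotent (RingHom.ker g) := ⟨2, by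
    rw [pow_two, Ideal.zero_eq_bot, eq_bot_iff, Ideal.mul_le]
    exact fun x hx y hy => Ideal.mem_bot.mpr (hn' x y hx hy)⟩
  let _ : Algebra F D := φ.toAlgebra
  have : Algebra.FormallyEtale F Ω := Algebra.FormallyEtale.of_isSeparable F Ω
  let g' : D →ₐ[F] Ω := { g with commutes' := hc }
  let ψ := Algebra.FormallySmooth.liftOfSurjective (AlgHom.id F Ω) g' hg hn
  exact ⟨ψ.toRingHom, fun a =>
    Algebra.FormallySmooth.liftOfSurjective_apply (AlgHom.id F Ω) g' hg hn a, ψ.commutes⟩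

theorem nil_ker {Ω : Type} [Field Ω] (x y : DualNumber Ω) (hx : x.fst = 0) (hy : y.fst = 0) :
    x * y = 0 := by
  ext <;> simp [hx, hy]

end T21u

open T21u in
theorem st_DER : St_DER := by
  intro k Ω ι _ _ _ _ t ht c
  classical
  obtain ⟨s, hts, hs⟩ := exists_isTranscendenceBasis_superset ht.to_subtype_range
  let c' : Ω → Ω := Function.extend t c 0
  have hc' : ∀ i, c' (t i) = c i := fun i => ht.injective.extend_apply c 0 i
  let φ0 : MvPolynomial s k →ₐ[k] DualNumber Ω := aeval fun x => dn x.1 (c' x.1)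
  have h0 : ∀ y, (φ0 y).fst = aeval ((↑) : s → Ω) y := fun y => by
    have := aeval_map_alg (TrivSqZeroExt.fstHom k Ω Ω) (fun x : s => dn x.1 (c' x.1)) y
    simp only [TrivSqZeroExt.fstHom_apply, fst_dn] at this
    exact this.symm
  have hu : ∀ y : nonZeroDivisors (MvPolynomial s k), IsUnit (φ0 y) := fun y => by
    rw [TrivSqZeroExt.isUnit_iff_isUnit_fst, h0, isUnit_iff_ne_zero]
    exact fun h => nonZeroDivisors.ne_zero y.2 (hs.1.eq_zero_of_aeval_eq_zero _ h)
  let φ1 : FractionRing (MvPolynomial s k) →ₐ[k] DualNumber Ω := IsLocalization.liftAlgHom hu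
  have h1 : ∀ y, φ1 (algebraMap (MvPolynomial s k) _ y) = φ0 y := fun y =>
    IsLocalization.lift_eq hu y
  let e := hs.1.aevalEquivField
  have he : ∀ y, (e (algebraMap (MvPolynomial s k) _ y) : Ω) = aeval ((↑) : s → Ω) y :=
    fun y => hs.1.aevalEquivField_algebraMap_apply_coe y
  let F := IntermediateField.adjoin k (Set.range ((↑) : s → Ω))
  let φ : F →ₐ[k] DualNumber Ω := φ1.comp e.symm.toAlgHom
  have : Algebra.IsAlgebraic F Ω := hs.isAlgebraic_field
  have : CharZero F := algebraRat.charZero F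
  have hφ : ∀ a : F, (φ a).fst = algebraMap F Ω a := by
    have : ((TrivSqZeroExt.fstHom k Ω Ω).comp φ1).toRingHom = (F.val.comp e.toAlgHom).toRingHom :=
      IsLocalization.ringHom_ext (nonZeroDivisors (MvPolynomial s k)) (RingHom.ext fun y => by
        change (φ1 (algebraMap (MvPolynomial s k) _ y)).fst = (e (algebraMap _ _ y) : Ω)
        rw [h1, h0, he])
    intro a
    have h2 := RingHom.congr_fun this (e.symm a)
    change (φ1 (e.symm a)).fst = (e (e.symm a) : Ω) at h2
    rw [e.apply_symm_apply] at h2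
    exact h2
  obtain ⟨ψ, hψ, hψ'⟩ := lift_gen φ.toRingHom (TrivSqZeroExt.fstHom Ω Ω Ω).toRingHom
    (fun a => ⟨TrivSqZeroExt.inl a, rfl⟩) nil_ker hφ
  refine ⟨{ ψ with commutes' := fun r => ?_ }, hψ, fun i => ?_⟩
  · change ψ (algebraMap k Ω r) = _
    rw [IsScalarTower.algebraMap_apply k F Ω, hψ']
    exact φ.commutes r
  · let x : s := ⟨t i, hts ⟨i, rfl⟩⟩
    have h3 : t i = algebraMap F Ω (e (algebraMap (MvPolynomial s k) _ (X x))) := by
      change t i = (e (algebraMap (MvPolynomial s k) _ (X x)) : Ω)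
      rw [he, aeval_X]
    change (ψ (t i)).snd = c i
    rw [h3, hψ']
    change (φ1 (e.symm (e _))).snd = c i
    rw [e.symm_apply_apply, h1, aeval_X, snd_dn]
    exact hc' i

end D4C
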