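import Pool.Agent.Lib.D4C.B_DIM

namespace D4C

open MvPolynomial

namespace T51

variable {k σ : Type} [Field k]

attribute [local instance] MvPolynomial.gradedAlgebra in
theorem isHom_of_minimal {I p : Ideal (MvPolynomial σ k)} (hI : IsHom I)
    (hp : p ∈ I.minimalPrimes) : IsHom p := by
  rw [isHom_iff] at hI ⊢
  have h1 : I ≤ (p.homogeneousCore (homogeneousSubmodule σ k)).toIdeal := by
    rw [← hI.toIdeal_homogeneousCore_eq_self]
    exact Ideal.homogeneousCore_mono _ hp.1.2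
  exact Ideal.IsHomogeneous.iff_eq _ _ |>.mpr (le_antisymm (Ideal.toIdeal_homogeneousCore_le _ _)
    (hp.2 ⟨Ideal.IsPrime.homogeneousCore hp.1.1, h1⟩ (Ideal.toIdeal_homogeneousCore_le _ _)))

attribute [local instance] MvPolynomial.gradedAlgebra in
theorem isHom_sup_span {q : Ideal (MvPolynomial σ k)} (hq : IsHom q) {S : Set (MvPolynomial σ k)}
    (hS : ∀ F ∈ S, ∃ n, F.IsHomogeneous n) : IsHom (q ⊔ Ideal.span S) := by
  rw [isHom_iff] at hq ⊢
  exact hq.sup (Ideal.homogeneous_span _ _ hS)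

theorem exists_hom_notMem {I p : Ideal (MvPolynomial σ k)} (hI : IsHom I) (h : ¬ I ≤ p) :
    ∃ (F : MvPolynomial σ k) (n : ℕ), F.IsHomogeneous n ∧ F ∈ I ∧ F ∉ p := by
  obtain ⟨F, hF, hp⟩ := SetLike.not_le_iff_exists.mp h
  by_contra! hn
  apply hp
  rw [← sum_homogeneousComponent F]
  exact Ideal.sum_mem _ fun n _ => hn _ n (homogeneousComponent_isHomogeneous n F) (hI F hF n)

/-- graded prime avoidance -/
theorem hom_avoid (I : Ideal (MvPolynomial σ k)) (S : Finset (Ideal (MvPolynomial σ k)))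
    (h0 : ∃ (F : MvPolynomial σ k) (n : ℕ), 1 ≤ n ∧ F.IsHomogeneous n ∧ F ∈ I)
    (hS : ∀ p ∈ S, p.IsPrime ∧ IsHom p ∧
      ∃ (F : MvPolynomial σ k) (n : ℕ), 1 ≤ n ∧ F.IsHomogeneous n ∧ F ∈ I ∧ F ∉ p) :
    ∃ (F : MvPolynomial σ k) (n : ℕ), 1 ≤ n ∧ F.IsHomogeneous n ∧ F ∈ I ∧ ∀ p ∈ S, F ∉ p := by
  classical
  induction S using Finset.strongInduction with
  | H S ih =>
    rcases S.eq_empty_or_nonempty with rfl | hne
    · obtain ⟨F, n, h1, h2, h3⟩ := h0
      exact ⟨F, n, h1, h2, h3, by simp⟩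
    obtain ⟨p, hp⟩ := S.exists_minimal hne
    obtain ⟨F, n, hn, hF, hFI, hFS⟩ := ih (S.erase p) (Finset.erase_ssubset hp.1)
      fun p' hp' => hS p' (Finset.mem_of_mem_erase hp')
    by_cases hFp : F ∈ p
    swap
    · refine ⟨F, n, hn, hF, hFI, fun p' hp' => ?_⟩
      by_cases h : p' = p
      · rwa [h]
      · exact hFS p' (Finset.mem_erase.mpr ⟨h, hp'⟩)
    obtain ⟨hpp, -, a, da, hda, ha, haI, hap⟩ := hS p hp.1
    have hb : ∀ p' : S.erase p, ∃ (F : MvPolynomial σ k) (n : ℕ), F.IsHomogeneous n ∧ F ∈ p'.1 ∧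
        F ∉ p := fun p' => by
      obtain ⟨h1, h2⟩ := Finset.mem_erase.mp p'.2
      exact exists_hom_notMem (hS _ h2).2.1 fun h => h1 (le_antisymm h (hp.2 h2 h))
    choose b db hb hb1 hb2 using hb
    have hG : (a * ∏ p', b p').IsHomogeneous (da + ∑ p', db p') :=
      ha.mul (IsHomogeneous.prod _ _ _ fun p' _ => hb p')
    set G := a * ∏ p', b p' with hGd
    set d := da + ∑ p', db p'
    have hd : 1 ≤ d := le_add_right hda
    have hGp : G ∉ p := fun h => (hpp.mem_or_mem h).elim hap fun h => by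
      obtain ⟨p', -, h⟩ := Ideal.IsPrime.prod_mem_iff.mp h
      exact hb2 p' h
    refine ⟨F ^ d + G ^ n, n * d, Nat.mul_pos hn hd, (hF.pow d).add (mul_comm d n ▸ hG.pow n),
      I.add_mem (I.pow_mem_of_mem hFI d hd) (I.pow_mem_of_mem (I.mul_mem_right _ haI) n hn),
      fun p' hp' hm => ?_⟩
    by_cases h : p' = p
    · subst h
      exact hGp (hpp.mem_of_pow_mem n ((p'.add_mem_iff_right (p'.pow_mem_of_mem hFp d hd)).mp hm))
    · have h1 : p' ∈ S.erase p := Finset.mem_erase.mpr ⟨h, hp'⟩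
      have h2 : G ∈ p' := p'.mul_mem_left _
        (Ideal.prod_mem p' (Finset.mem_univ (⟨p', h1⟩ : S.erase p)) (hb1 ⟨p', h1⟩))
      exact hFS p' h1 ((hS p' hp').1.mem_of_pow_mem d
        ((p'.add_mem_iff_left (p'.pow_mem_of_mem h2 n hn)).mp hm))

theorem cd_anti {q q' : Ideal (MvPolynomial σ k)} (h : q ≤ q') : cd q' ≤ cd q :=
  trdeg_le_of_surjective (Ideal.Quotient.factorₐ k h) (Ideal.Quotient.factor_surjective h)

theorem cd_eq_zero {p : Ideal (MvPolynomial σ k)} [p.IsPrime] (h : ∀ i, X i ∈ p) : cd p = 0 := by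
  have : Algebra.IsAlgebraic k (MvPolynomial σ k ⧸ p) := ⟨fun a => by
    obtain ⟨F, rfl⟩ := Ideal.Quotient.mk_surjective a
    induction F using MvPolynomial.induction_on with
    | C c => exact isAlgebraic_algebraMap c
    | add p q hp hq => rw [map_add]; exact hp.add hq
    | mul_X F i _ =>
      rw [Ideal.Quotient.eq_zero_iff_mem.mpr (p.mul_mem_left F (h i))]
      exact isAlgebraic_zero⟩
  exact trdeg_eq_zero

theorem idealOfVars_prime : (idealOfVars σ k).IsPrime := by
  have : idealOfVars σ k = RingHom.ker (constantCoeff : MvPolynomial σ k →+* k) := by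
    ext F
    rw [← pow_one (idealOfVars σ k), mem_pow_idealOfVars_iff', RingHom.mem_ker]
    refine ⟨fun h => h 0 (by simp), fun h d hd => ?_⟩
    rwa [(Finsupp.degree_eq_zero_iff d).mp (Nat.lt_one_iff.mp hd)]
  rw [this]
  exact RingHom.ker_isPrime _

theorem mem_pow_vars {F : MvPolynomial σ k} {n d : ℕ} (hF : F.IsHomogeneous d) (h : n ≤ d) :
    F ∈ idealOfVars σ k ^ n := by
  rw [mem_pow_idealOfVars_iff]
  intro x hx
  have := hF (mem_support_iff.mp hx)
  rw [Finsupp.degree_eq_weight_one]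
  exact h.trans this.ge

theorem X_mem_of_cd {p : Ideal (MvPolynomial σ k)} [hp : p.IsPrime] (h : IsHom p) (h0 : cd p = 0)
    (i : σ) : X i ∈ p := by
  have := idealOfVars_prime (k := k) (σ := σ)
  have h1 : p ≤ idealOfVars σ k := by
    by_contra hn
    obtain ⟨F, n, hF, h2, h3⟩ := exists_hom_notMem h hn
    rcases Nat.eq_zero_or_pos n with rfl | hn
    · rw [← totalDegree_zero_iff_isHomogeneous, totalDegree_eq_zero_iff_eq_C] at hF
      rw [hF] at h2 h3
      have h4 : coeff 0 F ≠ 0 := fun h4 => h3 (by rw [h4, map_zero]; exact Ideal.zero_mem _)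
      exact hp.ne_top (Ideal.eq_top_of_isUnit_mem _ h2 ((isUnit_iff_ne_zero.mpr h4).map C))
    · exact h3 (pow_one (idealOfVars σ k) ▸ mem_pow_vars hF hn)
  rcases h1.eq_or_lt with h2 | h2
  · rw [h2]
    exact Ideal.subset_span ⟨i, rfl⟩
  · have h3 := cd_succ_le h2
    rw [h0] at h3
    simp at h3

variable [Fintype σ]

theorem exists_seq {q J : Ideal (MvPolynomial σ k)} {m r : ℕ} (hq : IsHom q) (hJ : IsHom J)
    (hm : cd q = (m + 1 : ℕ)) [q.IsPrime]
    (h : ∀ q' : Ideal (MvPolynomial σ k), q'.IsPrime → q ≤ q' → J ≤ q' →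
      cd q' + r ≤ (m + 1 : ℕ)) (i : ℕ) (hi : i ≤ m + 1) :
    ∃ (ξ : ℕ → MvPolynomial σ k) (e : ℕ → ℕ),
      (∀ j < i, 1 ≤ e j ∧ (ξ j).IsHomogeneous (e j) ∧ (j < r → ξ j ∈ J)) ∧
      ∀ q' : Ideal (MvPolynomial σ k), q'.IsPrime → q ≤ q' → (∀ j < i, ξ j ∈ q') →
        cd q' + i ≤ (m + 1 : ℕ) := by
  classical
  induction i with
  | zero =>
    refine ⟨0, 0, fun j hj => absurd hj (Nat.not_lt_zero j), fun q' _ h1 _ => ?_⟩
    rw [Nat.cast_zero, add_zero, ← hm]
    exact cd_anti h1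
  | succ i ih =>
    obtain ⟨ξ, e, h1, h2⟩ := ih (by omega)
    let I := q ⊔ Ideal.span (ξ '' {j | j < i})
    have hI : IsHom I := isHom_sup_span hq (by
      rintro _ ⟨j, hj, rfl⟩
      exact ⟨_, (h1 j hj).2.1⟩)
    have hle : ∀ q' : Ideal (MvPolynomial σ k), I ≤ q' ↔ q ≤ q' ∧ ∀ j < i, ξ j ∈ q' := fun q' => by
      rw [sup_le_iff, Ideal.span_le, Set.image_subset_iff]
      rfl
    let S := (I.finite_minimalPrimes_of_isNoetherianRing _).toFinset.filter
      fun p => cd p + i = (m + 1 : ℕ)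
    let J' : Ideal (MvPolynomial σ k) := if i < r then J else ⊤
    obtain ⟨F, n, hn, hF, hFJ, hFS⟩ := hom_avoid J' S
      ⟨0, 1, le_rfl, isHomogeneous_zero _ _ _, J'.zero_mem⟩ fun p hp => by
        obtain ⟨hp, hc⟩ := Finset.mem_filter.mp hp
        rw [Set.Finite.mem_toFinset] at hp
        have hpp : p.IsPrime := hp.1.1
        refine ⟨hpp, isHom_of_minimal hI hp, ?_⟩
        obtain ⟨s, hs⟩ : ∃ s, X s ∉ p := by
          by_contra! hn
          rw [cd_eq_zero hn, zero_add, Nat.cast_inj] at hc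
          omega
        obtain ⟨a, d, ha, haJ, hap⟩ : ∃ (a : MvPolynomial σ k) (d : ℕ), a.IsHomogeneous d ∧
            a ∈ J' ∧ a ∉ p := by
          by_cases hir : i < r
          · simp only [J', if_pos hir]
            refine exists_hom_notMem hJ fun hJp => ?_
            have h3 := h p hpp ((hle p).mp hp.1.2).1 hJp
            obtain ⟨c, hc'⟩ := Cardinal.lt_aleph0.mp (cd_lt_aleph0 p)
            rw [hc'] at h3 hc
            norm_cast at h3 hc
            omega
          · simp only [J', if_neg hir]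
            exact ⟨1, 0, isHomogeneous_one _ _, Submodule.mem_top,
              (Ideal.ne_top_iff_one p).mp hpp.ne_top⟩
        exact ⟨a * X s, d + 1, by omega, ha.mul (isHomogeneous_X k s), J'.mul_mem_right _ haJ,
          fun h3 => (hpp.mem_or_mem h3).elim hap hs⟩
    refine ⟨Function.update ξ i F, Function.update e i n, fun j hj => ?_, fun q' hq' h3 h4 => ?_⟩
    · rcases (Nat.lt_succ_iff.mp hj).eq_or_lt with rfl | hj
      · simp only [Function.update_self]
        exact ⟨hn, hF, fun hr => by simpa only [J', if_pos hr] using hFJ⟩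
      · simp only [Function.update_of_ne hj.ne]
        exact h1 j hj
    · have h5 : I ≤ q' := (hle q').mpr ⟨h3, fun j hj => by
        simpa only [Function.update_of_ne hj.ne] using h4 j (by omega)⟩
      have h6 : F ∈ q' := by simpa only [Function.update_self] using h4 i (by omega)
      obtain ⟨p, hp, hpq⟩ := Ideal.exists_minimalPrimes_le h5
      have hpp : p.IsPrime := hp.1.1
      have h7 := h2 p hpp ((hle p).mp hp.1.2).1 ((hle p).mp hp.1.2).2
      obtain ⟨c, hc⟩ := Cardinal.lt_aleph0.mp (cd_lt_aleph0 p)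
      obtain ⟨c', hc'⟩ := Cardinal.lt_aleph0.mp (cd_lt_aleph0 q')
      by_cases h8 : cd p + i = (m + 1 : ℕ)
      · have h9 : F ∉ p := hFS p (Finset.mem_filter.mpr ⟨(Set.Finite.mem_toFinset _).mpr hp, h8⟩)
        have h10 := cd_succ_le (hpq.lt_of_ne fun h0 => h9 (h0 ▸ h6))
        rw [hc'] at h10 ⊢
        rw [hc] at h10 h8
        norm_cast at h10 h8 ⊢
        omega
      · have h10 := cd_anti hpq
        rw [hc'] at h10 ⊢
        rw [hc] at h10 h8 h7
        norm_cast at h10 h8 h7 ⊢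
        omega

omit [Fintype σ] in
theorem hc_mul {ξ : MvPolynomial σ k} {e : ℕ} (hξ : ξ.IsHomogeneous e) (H : MvPolynomial σ k)
    (n : ℕ) : homogeneousComponent (e + n) (ξ * H) = ξ * homogeneousComponent n H := by
  conv_lhs => rw [← sum_homogeneousComponent H, Finset.mul_sum, map_sum]
  have : ∀ i, homogeneousComponent (e + n) (ξ * homogeneousComponent i H) =
      if n = i then ξ * homogeneousComponent i H else 0 := fun i => by
    rw [homogeneousComponent_of_mem (hξ.mul (homogeneousComponent_isHomogeneous i H))]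
    simp only [add_right_inj]
  simp only [this]
  rw [Finset.sum_ite_eq]
  split_ifs with h
  · rfl
  · rw [homogeneousComponent_eq_zero n H (by simpa using h), mul_zero]

/-- forms of large degree lie in the ideal of a system without common zero -/
theorem exists_red {ι : Type} [Fintype ι] {q : Ideal (MvPolynomial σ k)} (hq : IsHom q) {e : ℕ}
    {ξ : ι → MvPolynomial σ k} (hξ : ∀ j, (ξ j).IsHomogeneous e)
    (h : ∀ p : Ideal (MvPolynomial σ k), p.IsPrime → q ≤ p → (∀ j, ξ j ∈ p) → cd p = 0) :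
    ∃ E, ∀ (n : ℕ) (F : MvPolynomial σ k), E ≤ n → F.IsHomogeneous (e + n) →
      ∃ H : ι → MvPolynomial σ k, (∀ j, (H j).IsHomogeneous n) ∧ F - ∑ j, ξ j * H j ∈ q := by
  let I := q ⊔ Ideal.span (Set.range ξ)
  have hI : IsHom I := isHom_sup_span hq (by
    rintro _ ⟨j, rfl⟩
    exact ⟨_, hξ j⟩)
  have h1 : idealOfVars σ k ≤ I.radical := by
    rw [← Ideal.sInf_minimalPrimes]
    refine le_sInf fun p hp => Ideal.span_le.mpr ?_
    rintro _ ⟨i, rfl⟩
    have hpp : p.IsPrime := hp.1.1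
    exact X_mem_of_cd (isHom_of_minimal hI hp) (h p hpp (le_sup_left.trans hp.1.2) fun j =>
      hp.1.2 (Ideal.mem_sup_right (Ideal.subset_span ⟨j, rfl⟩))) i
  obtain ⟨E, hE⟩ := Ideal.exists_pow_le_of_le_radical_of_fg h1 (idealOfVars_fg σ k)
  refine ⟨E, fun n F hn hF => ?_⟩
  obtain ⟨a, ha, b, hb, hab⟩ := Submodule.mem_sup.mp (hE (mem_pow_vars hF (by omega)))
  obtain ⟨H, rfl⟩ := Ideal.mem_span_range_iff_exists_fun.mp hb
  refine ⟨fun j => homogeneousComponent n (H j), fun j => homogeneousComponent_isHomogeneous _ _, ?_⟩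
  have h2 := congrArg (homogeneousComponent (e + n)) hab
  rw [homogeneousComponent_eq_self hF, map_add, map_sum] at h2
  simp only [mul_comm (H _), hc_mul (hξ _)] at h2
  rw [← h2, add_sub_cancel_right]
  exact hq a ha _

theorem finite_of_red {ι : Type} [Fintype ι] {q : Ideal (MvPolynomial σ k)} {e E : ℕ} (he : 1 ≤ e)
    {ξ : ι → MvPolynomial σ k}
    (h : ∀ (n : ℕ) (F : MvPolynomial σ k), E ≤ n → F.IsHomogeneous (e + n) →
      ∃ H : ι → MvPolynomial σ k, (∀ j, (H j).IsHomogeneous n) ∧ F - ∑ j, ξ j * H j ∈ q) :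
    Module.Finite (Algebra.adjoin k (Set.range fun j => Ideal.Quotient.mk q (ξ j)))
      (MvPolynomial σ k ⧸ q) := by
  classical
  set S := Algebra.adjoin k (Set.range fun j => Ideal.Quotient.mk q (ξ j))
  obtain ⟨s, hs⟩ : (restrictTotalDegree σ k (e + E)).FG := Module.Finite.iff_fg.mp inferInstance
  let W := Submodule.span S (Ideal.Quotient.mk q '' s)
  have hW : ∀ F ∈ Submodule.span k (s : Set (MvPolynomial σ k)), Ideal.Quotient.mk q F ∈ W := by
    intro F hF
    induction hF using Submodule.span_induction with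
    | mem F hF => exact Submodule.subset_span ⟨F, hF, rfl⟩
    | zero => exact W.zero_mem
    | add a b _ _ ha hb => rw [map_add]; exact W.add_mem ha hb
    | smul c a _ ha =>
      rw [smul_eq_C_mul, map_mul]
      exact W.smul_mem (algebraMap k S c) ha
  have key : ∀ (d : ℕ) (F : MvPolynomial σ k), F.IsHomogeneous d → Ideal.Quotient.mk q F ∈ W := by
    intro d
    induction d using Nat.strong_induction_on with
    | h d ih =>
      intro F hF
      by_cases hd : d ≤ e + E
      · exact hW F (hs ▸ (mem_restrictTotalDegree _ _ _).mpr (hF.totalDegree_le.trans hd))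
      · obtain ⟨n, rfl⟩ : ∃ n, d = e + n := ⟨d - e, by omega⟩
        obtain ⟨H, hH, h1⟩ := h n F (by omega) hF
        rw [Ideal.Quotient.eq.mpr h1, map_sum]
        refine W.sum_mem fun j _ => ?_
        rw [map_mul]
        exact W.smul_mem (⟨_, Algebra.subset_adjoin ⟨j, rfl⟩⟩ : S) (ih n (by omega) _ (hH j))
  refine ⟨⟨s.image (Ideal.Quotient.mk q), eq_top_iff.mpr fun a _ => ?_⟩⟩
  obtain ⟨F, rfl⟩ := Ideal.Quotient.mk_surjective a
  rw [Finset.coe_image, ← sum_homogeneousComponent F, map_sum]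
  exact W.sum_mem fun n _ => key n _ (homogeneousComponent_isHomogeneous n F)

end T51

open T51 in
theorem st_HSOP : St_HSOP := by
  intro k σ _ _ q J m r N hq hq' hJ hm hN h
  obtain ⟨ξ, e, h1, h2⟩ := exists_seq hq' hJ hm h (m + 1) le_rfl
  let E := N * ∏ j : Fin (m + 1), e j
  have hE : 1 ≤ E := Nat.mul_pos hN (Finset.prod_pos fun j _ => (h1 j j.2).1)
  have hd : ∀ j : Fin (m + 1), ∃ c, 1 ≤ c ∧ e j * c = E := fun j => by
    obtain ⟨c, hc⟩ : e j ∣ E := (Finset.dvd_prod_of_mem _ (Finset.mem_univ j)).mul_left N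
    refine ⟨c, Nat.pos_of_ne_zero ?_, hc.symm⟩
    rintro rfl
    omega
  choose c hc hc' using hd
  have hξ : ∀ j : Fin (m + 1), (ξ j ^ c j).IsHomogeneous E := fun j =>
    hc' j ▸ (h1 j j.2).2.1.pow (c j)
  obtain ⟨D, hD⟩ := exists_red hq' hξ fun p hp h3 h4 => by
    have h5 := h2 p hp h3 fun j hj => hp.mem_of_pow_mem _ (h4 ⟨j, hj⟩)
    obtain ⟨c, hc⟩ := Cardinal.lt_aleph0.mp (cd_lt_aleph0 p)
    rw [hc] at h5 ⊢
    norm_cast at h5 ⊢
    omega
  refine ⟨E, D, fun j => ξ j ^ c j, ⟨hE, hξ, ?_, fun ν hν => ?_⟩, dvd_mul_right _ _,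
    fun j hj => J.pow_mem_of_mem ((h1 j j.2).2.2 hj) _ (hc j)⟩
  · have := finite_of_red hE hD
    refine (Algebra.IsAlgebraic.isTranscendenceBasis_of_le_trdeg_of_finite k _ ?_).1
    rw [Cardinal.mk_fin]
    exact hm.ge
  · exact hD (E * D) _ (Nat.le_mul_of_pos_left D hE)
      (isHomogeneous_monomial _ (by rw [hν]; ring))

end D4C
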