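import Pool.Agent.Lib.D4C.BlueU
import Pool.Agent.Lib.D4C.B_HSOP
import Pool.Agent.Lib.D4C.B_DATA
import Pool.Agent.Lib.D4C.B_LOC

/-! Row DOWN: a point of large transcendence degree at finite level. -/

namespace D4C

open MvPolynomial Filter

namespace T44

variable {L σ F Ω : Type} [Field L] [Field F] [Field Ω] [Algebra L F] [Algebra L Ω] [Algebra F Ω]
  [IsScalarTower L F Ω]

theorem aeval_mem_field (K : IntermediateField F Ω) {y : σ → Ω} (hy : ∀ i, y i ∈ K)
    (G : MvPolynomial σ L) : aeval y G ∈ K := by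
  induction G using MvPolynomial.induction_on with
  | C a =>
    rw [aeval_C, IsScalarTower.algebraMap_apply L F Ω]
    exact K.algebraMap_mem _
  | add p q hp hq =>
    rw [map_add]
    exact K.add_mem hp hq
  | mul_X p i hp =>
    rw [map_mul, aeval_X]
    exact K.mul_mem hp (hy i)

theorem evZT_of_dvd {m : ℕ} {P Q : ZT L m} {z : Fin m → Ω} {t : Ω} (h : evZT z t P = 0)
    (hd : P ∣ Q) : evZT z t Q = 0 := by
  obtain ⟨R, rfl⟩ := hd
  rw [map_mul, h, zero_mul]

theorem evZT_C {m : ℕ} (z : Fin m → Ω) (t : Ω) (p : MvPolynomial (Fin m) L) :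
    evZT z t (Polynomial.C p) = aeval z p := Polynomial.aevalTower_C _ _ _

theorem exists_root_ZT [IsAlgClosed Ω] {m : ℕ} {P : ZT L m} (hP : P.Monic) (hd : P.natDegree ≠ 0)
    (z : Fin m → Ω) : ∃ t, evZT z t P = 0 := by
  let f : MvPolynomial (Fin m) L →+* Ω := (aeval z : MvPolynomial (Fin m) L →ₐ[L] Ω)
  obtain ⟨t, ht⟩ := IsAlgClosed.exists_root (P.map f) (by
    rw [hP.degree_map]
    exact fun h => hd (Polynomial.natDegree_eq_zero_iff_degree_le_zero.mpr h.le))
  exact ⟨t, by rw [Polynomial.IsRoot.def, Polynomial.eval_map] at ht; exact ht⟩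

theorem level [Fintype σ] [IsAlgClosed Ω] {m e D : ℕ} (W : Raw L σ m)
    (hW : W.Ok (⊥ : Ideal (MvPolynomial σ L)) e D) (he : 1 ≤ e) (hd : W.P.natDegree ≠ 0)
    (hΔ : W.Δ ≠ 0) (z : Fin m → Ω) (hz : AlgebraicIndependent F z) :
    ∃ y : σ → Ω, y ≠ 0 ∧ (∀ G : MvPolynomial σ L, W.P ∣ aeval W.φ G → aeval y G = 0) ∧
      ((m + 1 : ℕ) : Cardinal) ≤ cd (loc F y) := by
  obtain ⟨t, ht⟩ := exists_root_ZT hW.monic hd z
  set y : σ → Ω := fun i => evZT z t (W.φ i) with hy
  have h1 : ∀ G : MvPolynomial σ L, aeval y G = evZT z t (aeval W.φ G) := fun G =>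
    aeval_map_alg (evZT z t) W.φ G
  have hθ : evZT z t W.θ ≠ 0 := by
    intro h
    have h2 := evZT_of_dvd ht hW.θ_inv
    rw [map_sub, map_mul, h, zero_mul, zero_sub, neg_eq_zero, evZT_C] at h2
    exact hΔ ((hz.restrictScalars (algebraMap L F).injective) (h2.trans (map_zero _).symm))
  have hξ : ∀ j, aeval y (W.ξ j) = evZT z t (zv L m j) * evZT z t W.θ := fun j => by
    have h2 := evZT_of_dvd ht (hW.ξ_eq j)
    rw [map_sub, map_mul, sub_eq_zero] at h2
    rw [h1, h2]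
  have hl : aeval y (W.ξ (Fin.last m)) = evZT z t W.θ := by
    rw [hξ, zv, Fin.snoc_last, map_one, one_mul]
  have hc : ∀ j, aeval y (W.ξ j.castSucc) = z j * evZT z t W.θ := fun j => by
    rw [hξ, zv, Fin.snoc_castSucc, evZT_C, aeval_X]
  have hy0 : y ≠ 0 := by
    intro h
    have h2 := aeval_smul_hom (hW.ξ_hom (Fin.last m)) (0 : Ω) y
    rw [zero_smul, zero_pow (by omega), zero_mul, ← h, hl] at h2
    exact hθ h2
  refine ⟨y, hy0, fun G hG => by rw [h1, evZT_of_dvd ht hG], ?_⟩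
  rw [T51.cd_loc hy0]
  set K := IntermediateField.adjoin F (Set.range fun ij : σ × σ => y ij.1 / y ij.2)
  obtain ⟨i, hi⟩ := Function.ne_iff.mp hy0
  have hi : y i ≠ 0 := hi
  have h3 : ∀ j, aeval ((y i)⁻¹ • y) (W.ξ j) ∈ K := fun j =>
    aeval_mem_field K (fun l => IntermediateField.subset_adjoin _ _
      ⟨(l, i), by simp only [Pi.smul_apply, smul_eq_mul]; rw [div_eq_inv_mul]⟩) _
  have h4 : ∀ j, z j ∈ K := fun j => by
    have h5 := K.div_mem (h3 j.castSucc) (h3 (Fin.last m))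
    rwa [aeval_smul_hom (hW.ξ_hom _), aeval_smul_hom (hW.ξ_hom _), hl, hc,
      mul_div_mul_left _ _ (pow_ne_zero _ (inv_ne_zero hi)), mul_div_cancel_right₀ _ hθ] at h5
  have h6 : AlgebraicIndependent F fun j => (⟨z j, h4 j⟩ : K) :=
    AlgebraicIndependent.of_comp K.val hz
  have h7 := h6.cardinalMk_le_trdeg
  rw [Cardinal.mk_fin] at h7
  rw [Nat.cast_succ]
  exact add_le_add_left h7 1

theorem exists_indep (F : Type) [Field F] (m : ℕ) : ∃ (Ω : Type) (_ : Field Ω) (_ : Algebra F Ω)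
    (_ : IsAlgClosed Ω) (z : Fin m → Ω), AlgebraicIndependent F z := by
  let Ω := AlgebraicClosure (FractionRing (MvPolynomial (Fin m) F))
  let f : MvPolynomial (Fin m) F →ₐ[F] Ω := IsScalarTower.toAlgHom F _ Ω
  have hf : Function.Injective f := by
    change Function.Injective (algebraMap (MvPolynomial (Fin m) F) Ω)
    rw [IsScalarTower.algebraMap_eq _ (FractionRing (MvPolynomial (Fin m) F)) Ω, RingHom.coe_comp]
    exact (RingHom.injective _).comp (IsFractionRing.injective _ _)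
  exact ⟨Ω, inferInstance, inferInstance, inferInstance, _,
    (algebraicIndependent_X (Fin m) F).map' hf⟩

end T44

open T44 in
theorem st_DOWN (hL : St_LIFT) (hO : St_LOS) : St_DOWN := by
  classical
  intro U L σ _ _ _ κ q m hq hq' hm ι _ g g' hg hg'
  have : CharZero κ := charZero_of_injective_algebraMap (algebraMap L κ).injective
  obtain ⟨e, D, ξ, hξ, -, -⟩ := st_HSOP κ σ q q m 0 1 hq hq' hq' hm le_rfl fun q' _ h _ => by
    rw [Nat.cast_zero, add_zero, ← hm]
    exact T51.cd_anti h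
  obtain ⟨W, -, hW, hΔ, hirr, -⟩ := st_DATA κ σ q m e D ξ hq hq' hξ
  obtain ⟨V, D1, A, hV, -, h1, h2⟩ := hL U L σ κ m e D q W hW
  have hd : W.P.natDegree ≠ 0 := (hW.monic.natDegree_pos_of_not_isUnit hirr.not_isUnit).ne'
  have h3 : ∀ᶠ n in U, ¬ MvPolynomial.map (lv L n) V.Δ = 0 := by
    rw [Ultrafilter.eventually_not, ← (hO U L).2.2.1]
    intro h
    have h4 : MvPolynomial.map (toU U).toRingHom V.Δ =
        MvPolynomial.map (algebraMap κ (Ul U L)) W.Δ := congrArg Raw.Δ hV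
    rw [h4] at h
    exact hΔ (map_injective _ (algebraMap κ (Ul U L)).injective (h.trans (map_zero _).symm))
  have h5 := eventually_all.mpr fun u => h2 (g u) (g' u) (hg u) (hg' u)
  filter_upwards [h1, h3, h5] with n h1 h3 h5 F _ _
  obtain ⟨Ω, _, _, _, z, hz⟩ := exists_indep F m
  let _ : Algebra L Ω := ((algebraMap F Ω).comp (algebraMap L F)).toAlgebra
  have hT : IsScalarTower L F Ω := IsScalarTower.of_algebraMap_eq' rfl
  obtain ⟨y, hy, h6, h7⟩ := level (F := F) (V.map (lv L n)) h1.1 hξ.e_pos (h1.2.2 ▸ hd) h3 z hz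
  exact ⟨Ω, inferInstance, inferInstance, inferInstance, hT, y, hy, fun u => h6 _ (h5 u), h7⟩

end D4C
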