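import Pool.Agent.Lib.D4C.T78a

/-! step A for one tuple of points -/

namespace D4C
open MvPolynomial Finset T78

namespace T78

/-- the geometric part: lowest form at the point against the expansion along the varieties -/
theorem low_link (hLOW : St_LOW) (hGLUE : St_GLUE) {L σ : Type} [Field L] [Fintype σ]
    [DecidableEq σ] {B : Pkg L σ} {g m c K : ℕ} (C : Chart B g) (w : Fin K → ℕ)
    (hw : ∀ i, 1 ≤ w i) (x : Fin K → B.Pt L) (μ : Fin K → Fin B.nl) (ι : Fin K → Fin c → Fin g)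
    (φ : Fin K → σ → ZT L m) (z : Fin K → Fin m → L) (η : Fin K → PS (Fin m) L)
    (th : Fin K → Fin g → PS (Fin m ⊕ Fin c) L)
    (h0 : ∀ i b, MvPowerSeries.constantCoeff (th i b) = 0)
    (hR : ∀ i, RepAt C (x i) (th i) (X1 C (μ i) (ι i) (φ i) (z i) (η i)))
    (hli : ∀ i, LinearIndependent L fun b => lin (th i b))
    (y0 : Fin K → σ → PS (Fin K × Fin g) L)
    (hy0 : ∀ i, RepAt C (x i) (fun b => MvPowerSeries.X (i, b)) (y0 i))
    (F : MvPolynomial (Fin K × σ) L) (δ : Fin K → ℕ) (hF : MH δ F) (ν : ℕ)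
    (Ψ : MvPolynomial (Fin K × Fin g) L) (hΨ : IsLow w (evB y0 F) ν Ψ) :
    Gam C μ ι φ z η F ≠ 0 ∧
      (∀ d, MvPowerSeries.coeff d (Gam C μ ι φ z η F) ≠ 0 → ν ≤ wt w d) ∧
      ∀ d, coeff d (linS (fun i b => lin (th i b)) Ψ) ≠ 0 →
        MvPowerSeries.coeff d (Gam C μ ι φ z η F) ≠ 0 := by
  obtain ⟨u, hu, hG⟩ := hGLUE L σ B g C (Fin K) (Fin m ⊕ Fin c) x th _ y0 h0 hR hy0 F δ hF
  have h1 := (hLOW (Fin K) (Fin g) (Fin m ⊕ Fin c) L w hw).2.2 _ ν Ψ th hΨ h0 hli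
  have h2 := (hLOW (Fin K) (Fin m ⊕ Fin c) (Fin m ⊕ Fin c) L w hw).2.1 _ u ν _ h1 hu
  rw [← hG] at h2
  change IsLow w (Gam C μ ι φ z η F) ν _ at h2
  obtain ⟨hne, hlow, hco⟩ := h2
  have key : ∀ d, coeff d (linS (fun i b => lin (th i b)) Ψ) ≠ 0 →
      MvPowerSeries.coeff d (Gam C μ ι φ z η F) ≠ 0 := fun d hd h => by
    have := hco d
    rw [coeff_C_mul, h, ite_self] at this
    exact mul_ne_zero hu hd this
  refine ⟨fun h => ?_, fun d hd => not_lt.mp fun h => hd (hlow d h), key⟩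
  obtain ⟨d, hd⟩ := ne_zero_iff.mp h1.1
  exact key d hd (by rw [h]; simp)

end T78

set_option maxHeartbeats 1600000 in
theorem st_EAF (hMUL : St_MUL) (hHT : St_HT) (hSEP : St_SEP) (hFDEG : St_FDEG) (hNV : St_NONVAN)
    (hUPP : St_UPP) (hCONS : St_CONS) (hORDA : St_ORDA) (hTOP : St_TOP) (hCNT : St_CNT)
    (hHF : St_HF) (hHENS : St_HENS) (hRANK : St_RANK) (hLOC2 : St_LOC2) (hGLUE : St_GLUE)
    (hLOW : St_LOW) (hHTM : St_HTM) (hTAU : St_TAU) : St_EAF := by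
  intro L σ _ _ _ _ B g m hdim hmg C e D D1 μ0 C1 hμ0 hC1
  classical
  obtain ⟨c, hc⟩ : ∃ c, m + c = g := ⟨g - m, by omega⟩
  have hg : 0 < g := by omega
  obtain ⟨N, r, cM, AM, hN, hmul⟩ := hMUL L σ B
  obtain ⟨CH, hCH, -, -, hht⟩ := hHT L σ B
  obtain ⟨c2, C2, A2, hc2, hfd⟩ := hFDEG L σ B g C g N r cM AM
  obtain ⟨C3, hC3, hupp⟩ := hUPP L σ B g C g c2 A2
  obtain ⟨b, C4, hC4, hcons⟩ := hCONS L σ B g C m D1 c2 A2
  obtain ⟨C7, hC7, hhf⟩ := hHF L c2 A2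
  obtain ⟨c', C6, hc', hC6, htop⟩ := hTOP L g m c (g + 1) hc
  obtain ⟨C0, hC0, hhtm⟩ := hHTM L σ B g m e D D1 C
  obtain ⟨bn, hbn⟩ : ∃ bn : ℕ, bn = C.dg * g * (1 + g * B.β + B.β) := ⟨_, rfl⟩
  obtain ⟨b', hb'⟩ : ∃ b' : ℕ, b' = 1 + bn + N * r := ⟨_, rfl⟩
  have hb'1 : (1 : ℝ) ≤ b' := by exact_mod_cast (by omega : 1 ≤ b')
  have hC1p : 0 < C1 := by linarith
  obtain ⟨Γ, hΓ⟩ : ∃ Γ : ℝ, Γ = c' * μ0 / C1 := ⟨_, rfl⟩
  have hΓp : 0 < Γ := by rw [hΓ]; positivity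
  obtain ⟨G, hG⟩ : ∃ G : ℝ, G = C.dg * g := ⟨_, rfl⟩
  have hG0 : 0 ≤ G := by rw [hG]; positivity
  obtain ⟨s, hs1, hs2⟩ : ∃ s : ℕ, 1 ≤ s ∧ 2 * G ≤ Γ / 8 * s := by
    obtain ⟨s, hs⟩ := exists_nat_ge (16 * G / Γ)
    refine ⟨s + 1, by omega, ?_⟩
    rw [div_le_iff₀ hΓp] at hs
    push_cast; nlinarith only [hs, hΓp]
  obtain ⟨T0, hT0⟩ := hCNT g m c b b' s hc (by omega)
  obtain ⟨T, hT1, hcnt⟩ : ∃ T, 1 ≤ T ∧ T0 ≤ T := ⟨max T0 1, le_max_right _ _, le_max_left _ _⟩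
  replace hcnt := hT0 T hcnt
  have hT1r : (1 : ℝ) ≤ T := by exact_mod_cast hT1
  have hs1r : (1 : ℝ) ≤ s := by exact_mod_cast hs1
  obtain ⟨s', hs'p, -, hs'⟩ := exists_small ((C6 * (3 * C0 * C1) + 1) * (b' * T + 1))
    (min 1 (Γ / 8)) (by positivity) (lt_min one_pos (by positivity))
  have hX0 : 0 ≤ s' * (b' * T + 1) := by positivity
  have hX1 : 0 ≤ C6 * (3 * C0 * C1) * (s' * (b' * T + 1)) := by positivity
  have cc2 : C6 * (3 * C0 * C1) * (s' * (b' * T + 1)) ≤ Γ / 8 := by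
    have := hs'.trans (min_le_right _ _); nlinarith only [this, hX0, hX1]
  have cc3 : s' * (b' * T + 1) ≤ 1 := by
    have := hs'.trans (min_le_left _ _); nlinarith only [this, hX0, hX1]
  obtain ⟨ρ0, D0, C5, hC5, horda⟩ := hORDA L σ B g C (g + 1) m D1 s' hs'p
  refine ⟨max ρ0 1, D0, 1 / (((g : ℝ) + 1) * T), by positivity, fun c0 hc0 => ?_⟩
  obtain ⟨a1, ha1⟩ : ∃ a1 : ℝ, a1 = C2 + s + (g + 1) * b' + 4 * (g + 1) ^ 2 + 1 := ⟨_, rfl⟩
  obtain ⟨a2, ha2⟩ : ∃ a2 : ℝ, a2 = (g + 1) * b' * C1 := ⟨_, rfl⟩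
  obtain ⟨a3, ha3⟩ : ∃ a3 : ℝ, a3 = C4 * a1 + C7 * (C2 + 4 * (g + 1) ^ 2) := ⟨_, rfl⟩
  obtain ⟨a5, ha5⟩ : ∃ a5 : ℝ, a5 = C4 * a1 + G * CH + (g + 1) * bn * CH +
    C3 * (C2 + (g + 1) * b' + 1 + 4 * (g + 1) ^ 2) := ⟨_, rfl⟩
  have ha1p : 0 ≤ a1 := by rw [ha1]; positivity
  have ha2p : 0 ≤ a2 := by rw [ha2]; positivity
  have ha3p : 0 ≤ a3 := by rw [ha3]; positivity
  have ha5p : 0 ≤ a5 := by rw [ha5]; positivity
  obtain ⟨ε, hε, hε1, hε2⟩ := exists_small (C1 * C5 * ((C4 + 1) * a2) + C4 * a2 * T)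
    (min (c0 / 4) (Γ / 8)) (by positivity) (lt_min (by positivity) (by positivity))
  have hY0 : 0 ≤ C1 * C5 * ((C4 + 1) * a2) * ε := by positivity
  have hY1 : 0 ≤ C4 * a2 * ε * T := by positivity
  have ee1 : C1 * C5 * ((C4 + 1) * a2) * ε ≤ c0 / 4 := by
    have := hε2.trans (min_le_left _ _); nlinarith only [this, hY0, hY1]
  have ee2 : C4 * a2 * ε * T ≤ Γ / 8 := by
    have := hε2.trans (min_le_right _ _); nlinarith only [this, hY0, hY1]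
  refine ⟨ε, 1 + 4 * (C1 * C5 * (a3 + b')) / c0 + 8 * (a5 * T + 2 * (C3 + C6)) / Γ, hε, ?_⟩
  intro x W z t a A κ hAt hSm hH0 hεA hgen hρ hcone
  by_contra hcon
  push Not at hcon
  have hZ0 : 0 ≤ 4 * (C1 * C5 * (a3 + b')) / c0 := by positivity
  have hZ1 : 0 ≤ 8 * (a5 * T + 2 * (C3 + C6)) / Γ := by positivity
  have hx1 : ∀ i, 1 ≤ B.ht (x i) := fun i => by
    have := hH0 i; linarith only [this, hZ0, hZ1]
  obtain ⟨H, hH⟩ : ∃ H : ℝ, H = B.ht (x 0) := ⟨_, rfl⟩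
  rw [← hH] at hcone
  have hHp : 0 < H := by rw [hH]; exact lt_of_lt_of_le one_pos (hx1 0)
  have hh1 : C1 * C5 * (a3 + b') ≤ c0 * H / 4 := by
    have h : 4 * (C1 * C5 * (a3 + b')) / c0 ≤ H := by have := hH0 0; rw [hH]; linarith only [this, hZ0, hZ1]
    rw [div_le_iff₀ hc0] at h; linarith only [h]
  have hh2 : a5 * T + 2 * (C3 + C6) ≤ Γ / 8 * H := by
    have h : 8 * (a5 * T + 2 * (C3 + C6)) / Γ ≤ H := by have := hH0 0; rw [hH]; linarith only [this, hZ0, hZ1]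
    rw [div_le_iff₀ hΓp] at h; linarith only [h]
  -- weights
  have hκ : ∀ i, κ i ≤ κ 0 := fun i => by
    rcases Fin.eq_zero_or_eq_succ i with rfl | ⟨j, rfl⟩
    · exact le_rfl
    · have h := hρ 0 j.succ (Fin.succ_pos j)
      have h1 : 4 ^ κ j.succ ≤ 4 ^ κ 0 :=
        le_trans (Nat.le_mul_of_pos_left _ (lt_of_lt_of_le one_pos (le_max_right _ _))) h
      exact (Nat.pow_le_pow_iff_right (by norm_num)).mp h1
  obtain ⟨w, hw⟩ : ∃ w : Fin (g + 1) → ℕ, w = fun i => 4 ^ (κ 0 - κ i) := ⟨_, rfl⟩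
  have hw1 : ∀ i, 1 ≤ w i := fun i => by rw [hw]; exact Nat.one_le_pow _ _ (by norm_num)
  have hwm : ∀ i, w i * 4 ^ κ i = 4 ^ κ 0 := fun i => by
    simp only [hw]; rw [← pow_add, Nat.sub_add_cancel (hκ i)]
  have hwr : ∀ i, (w i : ℝ) * 4 ^ κ i = 4 ^ κ 0 := fun i => by exact_mod_cast hwm i
  have hwρ : ∀ i j, i < j → ρ0 * w i ≤ w j := fun i j hij => by
    have h1 : ρ0 * 4 ^ κ j ≤ 4 ^ κ i :=
      le_trans (Nat.mul_le_mul_right _ (le_max_left _ _)) (hρ i j hij)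
    have h2 : ρ0 * w i * 4 ^ κ j ≤ w j * 4 ^ κ j := by
      rw [hwm j, ← hwm i]
      calc ρ0 * w i * 4 ^ κ j = w i * (ρ0 * 4 ^ κ j) := by ring
        _ ≤ _ := Nat.mul_le_mul_left _ h1
    exact Nat.le_of_mul_le_mul_right h2 (by positivity)
  have h4 : ∀ i, (0 : ℝ) < 4 ^ κ i := fun i => by positivity
  have hwH : ∀ i, (w i : ℝ) * H ≤ C1 * B.ht (x i) := fun i => by
    have h := (hcone i).2.1
    rw [← hwr i] at h
    apply le_of_mul_le_mul_left _ (h4 i)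
    linarith only [h]
  have hxH : ∀ i, B.ht (x i) ≤ C1 * H * w i := fun i => by
    have h := (hcone i).2.2
    rw [← hwr i] at h
    apply le_of_mul_le_mul_left _ (h4 i)
    linarith only [h]
  -- local data
  choose es sp hsp using fun i => hSEP L σ B g hdim (κ i) (x i)
  have hPT : ∀ i, evZT (z i) (t i) (Polynomial.derivative (W i).P) ≠ 0 := fun i h => by
    obtain ⟨q, hq⟩ := (hAt i).ok.sep
    have h1 := congrArg (evZT (z i) (t i)) hq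
    rw [map_sub, map_mul, map_mul, h, (hAt i).root, zero_mul, zero_mul, zero_sub, neg_eq_zero] at h1
    apply (hAt i).Δ_ne
    simpa [evZT] using h1
  choose η hη using fun i => hHENS L m (W i).P (z i) (t i) (hAt i).root (hPT i)
  choose ι hι hli using fun i => hRANK L σ B g m c hc C (W i) e D (x i) (z i) (t i) (a i) (hAt i)
  choose μ hμ using fun i => (hAt i).rep.exists_add (Pkg.rep_zero (B := B) (R := L))
  choose th γ hγ hth0 hthR hlin using fun i => hLOC2 L σ B g m c C (W i) e D (x i) (z i) (t i)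
    (a i) (μ i) (ι i) (η i) (hAt i) (hη i) (uni_iff_ne_zero.mp (hμ i).uni)
  have hy : ∀ i : Fin (g + 1), ∃ y, RepAt C (x i)
      (fun b => (MvPowerSeries.X (i, b) : PS (Fin (g + 1) × Fin g) L)) y := fun i => by
    obtain ⟨⟨q, hq⟩, -⟩ := (hTAU L σ B g C (Fin (g + 1) × Fin g) L).1
      (fun b => MvPowerSeries.X (i, b)) (fun b => by simp)
    obtain ⟨y, hy⟩ := Pkg.exists_rep (cst B (Fin (g + 1) × Fin g) (x i) + q)
    exact ⟨y, q, hq, hy⟩
  choose y0 hy0 using hy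
  obtain ⟨Λ, hΛ⟩ := exists_good κ x
  -- the degree
  obtain ⟨K0, hK0⟩ : ∃ K0 : ℝ, K0 = ∑ i, ((es i : ℝ) + 4 ^ κ i * (N * r)) * B.ht (x i) := ⟨_, rfl⟩
  obtain ⟨d, hNd, hd1, hesd, hK0d⟩ : ∃ d : ℕ, N ∣ d ∧ 1 ≤ d ∧ (∀ i, es i ≤ d) ∧
      K0 ≤ Γ / 8 * H * d := by
    obtain ⟨n0, hn0⟩ := exists_nat_ge (K0 / (Γ / 8 * H))
    have hle : n0 + 1 + ∑ i, es i ≤ N * (n0 + 1 + ∑ i, es i) := Nat.le_mul_of_pos_left _ hN
    refine ⟨N * (n0 + 1 + ∑ i, es i), dvd_mul_right _ _, by omega, fun i => ?_, ?_⟩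
    · have := single_le_sum (f := es) (fun _ _ => Nat.zero_le _) (mem_univ i); omega
    · rw [div_le_iff₀ (by positivity)] at hn0
      have : (n0 : ℝ) ≤ ((N * (n0 + 1 + ∑ i, es i) : ℕ) : ℝ) := by exact_mod_cast (by omega)
      have h8 : 0 < Γ / 8 * H := by positivity
      nlinarith only [this, h8, hn0]
  have hd1r : (1 : ℝ) ≤ d := by exact_mod_cast hd1
  choose n hn using fun i => dvd_nn C g T d N hNd i
  choose Dm hDm1 hDm2 hDm3 using fun i => hmul (κ i) (n i)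
  have hIs : ∀ i, IsMul B (κ i) (nn C g T d i) (Dm i) := fun i => by
    rw [hn i]; exact ⟨hDm2 i, hDm3 i⟩
  have hfd' := hfd T d κ es n sp Dm hN hT1 hd1 hκ (fun i => (hsp i).1) (fun i => (hn i).symm) hDm1
  obtain ⟨δ, hδ⟩ : ∃ δ : Fin (g + 1) → ℕ,
      δ = fun i => es i + 4 ^ κ i * (nn C g T d i + N * r) := ⟨_, rfl⟩
  rw [← hδ] at hfd'
  have hδ1 : ∀ i, 1 ≤ δ i := fun i => by
    have h1 := nn_pos C hg g T d hT1 hd1 i
    have : 0 < 4 ^ κ i * (nn C g T d i + N * r) := by positivity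
    simp only [hδ]; omega
  have hδb : ∀ i, δ i ≤ b' * (T * d * 4 ^ κ i) := fun i => by
    have h1 := nn_le C g T d hT1 i
    have h2 : 1 ≤ T * d := Nat.mul_pos hT1 hd1
    have h3 : 1 ≤ 4 ^ κ i := Nat.one_le_pow _ _ (by norm_num)
    have h5 : d ≤ T * d := Nat.le_mul_of_pos_left _ hT1
    have h6 : T * d ≤ T * d * 4 ^ κ i := Nat.le_mul_of_pos_right _ h3
    have h7 : N * r ≤ N * r * (T * d) := Nat.le_mul_of_pos_right _ h2
    have h8 := hesd i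
    rw [← hbn] at h1
    calc δ i = es i + 4 ^ κ i * (nn C g T d i + N * r) := by rw [hδ]
      _ ≤ T * d * 4 ^ κ i + 4 ^ κ i * (bn * (T * d) + N * r * (T * d)) :=
          Nat.add_le_add (by omega) (Nat.mul_le_mul_left _ (Nat.add_le_add h1 h7))
      _ = _ := by rw [hb']; ring
  obtain ⟨hcnt1, hcnt2⟩ := hcnt d κ δ hd1 hδb
  replace hcnt2 := hcnt2 (κ 0) hκ hT1
  obtain ⟨cf, hcf, hcfh, hvan⟩ := hcons (g + 1) c (C2 * (T * d * 4 ^ κ 0)) (s * d * 4 ^ κ 0) μ ι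
    (fun i => (W i).P) (fun i => (W i).φ) A w δ (fun i => s * d * 4 ^ κ i) (Idx g g T d κ)
    (eL C T d κ sp Dm Λ) hc2 hι (fun i a => (hSm i).φ a) (fun i => ⟨(hAt i).ok.monic, (hSm i).P⟩)
    hw1 (fun i => by rw [← hwm i]; exact le_of_eq (by ring)) (hfd' Λ) hcnt1
  obtain ⟨F, hF⟩ : ∃ F, F = ∑ ω, cf ω • eL C T d κ sp Dm Λ ω := ⟨_, rfl⟩
  rw [← hF] at hvan
  have hMH : MH δ F := fun d' hd' i => by
    rw [hF] at hd'
    obtain ⟨ω, -, hω⟩ := mem_biUnion.mp (support_sum hd')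
    exact (hfd' Λ ω).1 d' (support_smul hω) i
  have hf0 : evB y0 F ≠ 0 := fun h => hcf (hNV L σ B g hdim C g T d κ es δ sp Dm x Λ y0 hIs
    (fun i γ => ⟨_, (hDm1 i γ).1⟩) hsp hΛ (fun ω => (hfd' Λ ω).1) hy0 cf (hF ▸ h))
  obtain ⟨ν, Ψ, hΨ⟩ := (hLOW (Fin (g + 1)) (Fin g) (Fin g) L w hw1).1 _ hf0
  obtain ⟨hG1, hG2, hG3⟩ := low_link hLOW hGLUE C w hw1 x μ ι (fun i => (W i).φ) z η th hth0 hthR
    (fun i => by simp only [hlin]; exact hli i _ (hγ i)) y0 hy0 F δ hMH ν Ψ hΨ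
  -- sizes
  obtain ⟨S0, hS0⟩ : ∃ S0 : ℝ, S0 = d * 4 ^ κ 0 := ⟨_, rfl⟩
  have hQ1 : (1 : ℝ) ≤ 4 ^ κ 0 := one_le_pow₀ (by norm_num)
  have hS01 : 1 ≤ S0 := by rw [hS0]; exact one_le_mul_of_one_le_of_one_le hd1r hQ1
  have hdS : (d : ℝ) ≤ S0 := by rw [hS0]; exact le_mul_of_one_le_right (by positivity) hQ1
  have hS0p : 0 < S0 := lt_of_lt_of_le one_pos hS01
  have hSX : S0 ≤ T * S0 := le_mul_of_one_le_left hS0p.le hT1r
  have hXp : 0 < T * S0 := by positivity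
  have h4le : ∀ i, (4 : ℝ) ^ κ i ≤ 4 ^ κ 0 := fun i => pow_le_pow_right₀ (by norm_num) (hκ i)
  have hδr : ∀ i, (δ i : ℝ) ≤ b' * (T * d * 4 ^ κ i) := fun i => by exact_mod_cast hδb i
  have b1 : ∑ i, (δ i : ℝ) ≤ (g + 1) * b' * (T * S0) := by
    calc ∑ i, (δ i : ℝ) ≤ ∑ _i : Fin (g + 1), (b' : ℝ) * (T * S0) := sum_le_sum fun i _ => by
          refine (hδr i).trans ?_
          rw [hS0, ← mul_assoc (T : ℝ)]
          exact mul_le_mul_of_nonneg_left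
            (mul_le_mul_of_nonneg_left (h4le i) (by positivity)) (by positivity)
      _ = _ := by simp; ring
  have b2 : ∑ i, (δ i : ℝ) * hA (A i) ≤ a2 * ε * H * (T * S0) := by
    calc ∑ i, (δ i : ℝ) * hA (A i)
        ≤ ∑ _i : Fin (g + 1), (b' : ℝ) * C1 * ε * H * (T * S0) := sum_le_sum fun i _ => by
          have h1 := hx1 i
          calc (δ i : ℝ) * hA (A i) ≤ δ i * (ε * B.ht (x i)) :=
                mul_le_mul_of_nonneg_left (hεA i) (by positivity)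
            _ ≤ b' * (T * d * 4 ^ κ i) * (ε * B.ht (x i)) :=
                mul_le_mul_of_nonneg_right (hδr i) (by positivity)
            _ = b' * T * d * ε * (4 ^ κ i * B.ht (x i)) := by ring
            _ ≤ b' * T * d * ε * (C1 * (4 ^ κ 0 * H)) :=
                mul_le_mul_of_nonneg_left (hcone i).2.2 (by positivity)
            _ = _ := by rw [hS0]; ring
      _ = _ := by simp [ha2]; ring
  have b3 : Real.log (Fintype.card (Idx g g T d κ)) ≤ 4 * (g + 1) ^ 2 * (T * S0) := by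
    refine hcnt2.trans (le_of_eq ?_); rw [hS0]; ring
  have bE : ((C2 * (T * d * 4 ^ κ 0) : ℕ) : ℝ) = C2 * (T * S0) := by rw [hS0]; push_cast; ring
  have bS : ((s * d * 4 ^ κ 0 : ℕ) : ℝ) = s * S0 := by rw [hS0]; push_cast; ring
  have b4 : Height.logHeight cf ≤ (C4 * a1 + C4 * a2 * ε * H) * (T * S0) := by
    refine hcfh.trans ?_
    rw [bE, bS, Nat.cast_sum]
    have h1 : (s : ℝ) * S0 ≤ s * (T * S0) := mul_le_mul_of_nonneg_left hSX (by positivity)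
    have h2 : C2 * (T * S0) + s * S0 + ∑ i, (δ i : ℝ) + ∑ i, (δ i : ℝ) * hA (A i) +
        Real.log (Fintype.card (Idx g g T d κ)) + 1 ≤ (a1 + a2 * ε * H) * (T * S0) := by
      rw [ha1]; linarith only [h1, b1, b2, b3, hSX, hS01]
    calc _ ≤ C4 * ((a1 + a2 * ε * H) * (T * S0)) := mul_le_mul_of_nonneg_left h2 hC4
      _ = _ := by ring
  have b5 : hP F + ∑ i, (δ i : ℝ) * hA (A i) ≤ (a3 + (C4 + 1) * a2 * ε * H) * (T * S0) := by
    have h1 := hhf _ _ (eL C T d κ sp Dm Λ) cf (C2 * (T * d * 4 ^ κ 0)) hc2 hcf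
      fun ω v => (hfd' Λ ω).2 v
    rw [bE, ← hF] at h1
    have h2 : C7 * (C2 * (T * S0) + Real.log (Fintype.card (Idx g g T d κ))) ≤
        C7 * ((C2 + 4 * (g + 1) ^ 2) * (T * S0)) := mul_le_mul_of_nonneg_left (by linarith only [b3]) hC7
    rw [ha3]; linarith only [h1, h2, b2, b4]
  have b6 : ∀ i, (w i : ℝ) * δ i ≤ b' * (T * S0) := fun i => by
    calc (w i : ℝ) * δ i ≤ w i * (b' * (T * d * 4 ^ κ i)) :=
          mul_le_mul_of_nonneg_left (hδr i) (by positivity)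
      _ = b' * (T * (d * (w i * 4 ^ κ i))) := by ring
      _ = _ := by rw [hwr i, hS0]
  rcases horda c μ ι (fun i => (W i).P) (fun i => (W i).φ) A w δ z t η F (b' * (T * S0)) _ hι
    (fun i a => (hSm i).φ a) (fun i => ⟨(hAt i).ok.monic, (hSm i).P, hη i⟩) hw1 hwρ hMH
    (by positivity) hδ1 b6 le_rfl hG1 with ⟨i, Q, hQ, hQd, hQz, hQh⟩ | ⟨ν0, hν1, q, J, hqJ, hJ, hq⟩
  · exact num1 hc0 hC1 hC5 ha3p (by positivity) hb'1 hε.le hXp (by exact_mod_cast hw1 i) hHp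
      (hgen i Q hQ hQd hQz) (hwH i) b5 (Height.logHeight_nonneg _) hQh ee1 hh1
  have n1 : (s : ℝ) * S0 ≤ ν0 := by
    rw [← bS, ← hJ]
    exact_mod_cast not_lt.mp fun h => hqJ (hvan z t η hη q J h)
  have n2 : (ν : ℝ) ≤ ν0 + s' * (b' * (T * S0) + ν0) := by
    have h1 := hG2 _ hqJ
    rw [wt_comb, hJ] at h1
    have : (ν : ℝ) ≤ wt w q + ν0 := by exact_mod_cast h1
    linarith only [this, hq]
  obtain ⟨-, n3⟩ := htop w (fun i => tm C (a i) (W i).P (W i).φ (z i) (t i)) γ ι Ψ ν ν0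
    (μ0 * H / C1) (3 * C0 * C1 * H) hw1 hγ (by positivity) (by positivity) hΨ.1
    (fun d' hd' => by
      by_contra h
      exact mem_support_iff.mp hd' (by rw [hΨ.2.2 d', if_neg h]))
    (fun i => hli i _ (hγ i))
    (fun q' J' h => hν1 q' J' (hG3 _ (by simp only [hlin]; exact h)))
    (fun i b j => by
      have h1 := hhtm (W i) (A i) (x i) (z i) (t i) (a i) (hAt i) (hSm i) b j
      have h2 := hx1 i
      have h3 := hεA i
      have h5 : B.ht (x i) + hA (A i) + 1 ≤ 3 * (C1 * H * w i) := by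
        have := hxH i; nlinarith only [this, h2, h3, hε1]
      calc _ ≤ C0 * (3 * (C1 * H * w i)) := h1.trans (mul_le_mul_of_nonneg_left h5 hC0)
        _ = _ := by ring)
    (fun i l hl hk => by
      by_contra h
      push Not at h
      have h1 : μ0 * H / C1 * w i ≤ μ0 * B.ht (x i) := by
        rw [div_mul_eq_mul_div, div_le_iff₀ hC1p]
        have := mul_le_mul_of_nonneg_left (hwH i) hμ0.le
        linarith only [this]
      obtain ⟨j, hj⟩ := hcon i l hl (by linarith only [h, h1])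
      exact hj (hk j))
  have n4 := hupp T d (C2 * (T * d * 4 ^ κ 0)) κ δ w sp Dm x Λ y0 cf ν Ψ hc2 hw1 hIs hΛ hfd' hy0 (hF ▸ hΨ)
  rw [bE, Nat.cast_sum] at n4
  have u1 : ∑ i, (δ i : ℝ) * B.ht (x i) ≤ K0 + ∑ i, (nn C g T d i : ℝ) * B.ht (2 ^ κ i • x i) +
      (g + 1) * bn * CH * (T * S0) := by
    have : (g + 1) * bn * CH * (T * S0) = ∑ _i : Fin (g + 1), (bn : ℝ) * CH * (T * S0) := by
      simp; ring
    rw [this, hK0, ← sum_add_distrib, ← sum_add_distrib]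
    refine sum_le_sum fun i _ => ?_
    have h1 := (abs_le.mp (hht (κ i) (x i))).1
    have h2 : (nn C g T d i : ℝ) ≤ bn * (T * d) := by
      rw [hbn]; exact_mod_cast nn_le C g T d hT1 i
    have h3 : (nn C g T d i : ℝ) * (4 ^ κ i * B.ht (x i)) ≤
        nn C g T d i * (B.ht (2 ^ κ i • x i) + CH * 4 ^ κ i) :=
      mul_le_mul_of_nonneg_left (by linarith only [h1]) (by positivity)
    have h5 : (nn C g T d i : ℝ) * (CH * 4 ^ κ i) ≤ bn * (T * d) * (CH * 4 ^ κ 0) :=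
      mul_le_mul h2 (mul_le_mul_of_nonneg_left (h4le i) hCH) (by positivity) (by positivity)
    simp only [hδ, hS0]; push_cast; linarith only [h3, h5]
  rw [sum_nn C g T d fun i => B.ht (2 ^ κ i • x i)] at u1
  have u2 : (C.dg * g * d : ℝ) * B.ht (2 ^ κ 0 • x 0) ≤ G * (S0 * H) + G * CH * (T * S0) := by
    have h1 := (abs_le.mp (hht (κ 0) (x 0))).2
    have h2 : G * d * B.ht (2 ^ κ 0 • x 0) ≤ G * d * (4 ^ κ 0 * H + CH * 4 ^ κ 0) :=
      mul_le_mul_of_nonneg_left (by rw [hH]; linarith only [h1]) (by positivity)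
    have h3 : G * CH * S0 ≤ G * CH * (T * S0) := mul_le_mul_of_nonneg_left hSX (by positivity)
    rw [← hG]; rw [hS0] at h3 ⊢; linarith only [h2, h3]
  have u3 : ∑ i ∈ univ.erase (0 : Fin (g + 1)), ((C.dg * (g * (T * d)) : ℕ) : ℝ) *
      B.ht (2 ^ κ i • x i - 2 ^ κ 0 • x 0) ≤ G * (S0 * H) := by
    calc _ ≤ ∑ _i ∈ univ.erase (0 : Fin (g + 1)), ((C.dg * (g * (T * d)) : ℕ) : ℝ) *
          (1 / (((g : ℝ) + 1) * T) * (4 ^ κ 0 * H)) :=
          sum_le_sum fun i _ => mul_le_mul_of_nonneg_left (hcone i).1 (by positivity)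
      _ = (g / (g + 1)) * (G * (S0 * H)) := by
          rw [sum_const, card_erase_of_mem (mem_univ _), card_univ, Fintype.card_fin,
            Nat.add_sub_cancel, nsmul_eq_mul, hG, hS0]
          push_cast; field_simp
      _ ≤ 1 * (G * (S0 * H)) := mul_le_mul_of_nonneg_right
          ((div_le_one (by positivity)).mpr (le_add_of_nonneg_right zero_le_one)) (by positivity)
      _ = _ := one_mul _
  have u4 : C3 * (C2 * (T * S0) + ∑ i, (δ i : ℝ) + T * d + ν +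
      Real.log (Fintype.card (Idx g g T d κ))) ≤
      C3 * ((C2 + (g + 1) * b' + 1 + 4 * (g + 1) ^ 2) * (T * S0) + ν) := by
    apply mul_le_mul_of_nonneg_left _ hC3
    have : (T : ℝ) * d ≤ T * S0 := mul_le_mul_of_nonneg_left hdS (by positivity)
    linarith only [this, b1, b3]
  simp only [mul_sub, sum_sub_distrib] at n4
  refine num2 (Γ := Γ) (H := H) (ν0 := ν0) (ν := ν) (hΨ := hP Ψ) (K0 := K0) (a5 := a5)
    (a6 := C4 * a2) (h0 := 3 * C0 * C1) hΓp hHp hS01 hs1r hT1r hs'p.le (by positivity) hG0 ha5p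
    (by positivity) hε.le hC3 hC6 (by positivity) n1 n2 ?_ ?_ hs2 cc2 cc3 ee2 hh2
    (hK0d.trans (mul_le_mul_of_nonneg_left hdS (by positivity)))
  · refine le_trans (le_of_eq ?_) n3
    rw [hΓ]; ring
  · rw [ha5]; linarith only [n4, u1, u2, u3, u4, b4]

end D4C
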