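import Pool.Agent.Lib.D4C.BlueU

/-! Rows LOS and ULP: transfer to the ultrapower. -/

namespace D4C

open MvPolynomial Filter

namespace T10

variable {U : Ultrafilter ℕ} {L : Type} [Field L]

theorem toU_surj : Function.Surjective (toU U : (ℕ → L) → Ul U L) := fun a =>
  Filter.Germ.inductionOn a fun f => ⟨f, rfl⟩

theorem toU_eq_iff {f g : ℕ → L} : toU U f = toU U g ↔ ∀ᶠ n in U, f n = g n :=
  Filter.Germ.coe_eq

theorem toU_eq_zero {f : ℕ → L} : toU U f = 0 ↔ ∀ᶠ n in U, f n = 0 := by
  rw [← map_zero (toU U), toU_eq_iff]; rfl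

theorem toU_ne_zero {f : ℕ → L} : toU U f ≠ 0 ↔ ∀ᶠ n in U, f n ≠ 0 := by
  rw [Ne, toU_eq_zero, Ultrafilter.eventually_not]

theorem lv_apply (n : ℕ) (f : ℕ → L) : lv L n f = f n := rfl

theorem map_eq_zero_iff' {τ : Type} (q : MvPolynomial τ (ℕ → L)) :
    MvPolynomial.map (toU U).toRingHom q = 0 ↔ ∀ᶠ n in U, MvPolynomial.map (lv L n) q = 0 := by
  constructor
  · intro h
    have h1 : ∀ d ∈ q.support, ∀ᶠ n in U, coeff d q n = 0 := fun d _ => by
      have := congrArg (coeff d) h
      rw [coeff_map, coeff_zero] at this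
      exact toU_eq_zero.1 this
    filter_upwards [(eventually_all_finset q.support).2 h1] with n hn
    ext d
    rw [coeff_map, coeff_zero]
    by_cases hd : d ∈ q.support
    · exact hn d hd
    · rw [notMem_support_iff.1 hd, map_zero]
  · intro h
    ext d
    rw [coeff_map, coeff_zero]
    refine toU_eq_zero.2 (h.mono fun n hn => ?_)
    have := congrArg (coeff d) hn
    rwa [coeff_map, coeff_zero] at this

theorem exists_lift {τ R S : Type} [CommRing R] [CommRing S] (f : R →+* S) (p : MvPolynomial τ S)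
    (hp : ∀ d, ∃ r, f r = coeff d p) :
    ∃ q : MvPolynomial τ R, MvPolynomial.map f q = p ∧ q.support ⊆ p.support := by
  classical
  choose s hs using hp
  refine ⟨∑ d ∈ p.support, monomial d (s d), ?_, ?_⟩
  · rw [map_sum]
    simp only [map_monomial, hs]
    exact p.as_sum.symm
  · refine support_sum.trans fun d hd => ?_
    obtain ⟨d', hd', h⟩ := Finset.mem_biUnion.1 hd
    rwa [Finset.mem_singleton.1 (support_monomial_subset h)]

theorem mapZT_coeff {R S : Type} [CommRing R] [CommRing S] (f : R →+* S) (m : ℕ) (q : ZT R m)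
    (l : ℕ) : (mapZT f m q).coeff l = MvPolynomial.map f (q.coeff l) := Polynomial.coeff_map _ _

theorem mapZT_eq_zero_iff (m : ℕ) (q : ZT (ℕ → L) m) :
    mapZT (toU U).toRingHom m q = 0 ↔ ∀ᶠ n in U, mapZT (lv L n) m q = 0 := by
  constructor
  · intro h
    have h1 : ∀ l ∈ q.support, ∀ᶠ n in U, MvPolynomial.map (lv L n) (q.coeff l) = 0 := fun l _ => by
      rw [← map_eq_zero_iff', ← mapZT_coeff, h, Polynomial.coeff_zero]
    filter_upwards [(eventually_all_finset q.support).2 h1] with n hn
    refine Polynomial.ext fun l => ?_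
    rw [mapZT_coeff, Polynomial.coeff_zero]
    by_cases hl : l ∈ q.support
    · exact hn l hl
    · rw [Polynomial.notMem_support_iff.1 hl, map_zero]
  · intro h
    refine Polynomial.ext fun l => ?_
    rw [mapZT_coeff, Polynomial.coeff_zero, map_eq_zero_iff']
    exact h.mono fun n hn => by rw [← mapZT_coeff, hn, Polynomial.coeff_zero]

theorem exists_liftZT {R S : Type} [CommRing R] [CommRing S] (f : R →+* S) (m : ℕ) (p : ZT S m)
    (hp : ∀ l d, ∃ r, f r = coeff d (p.coeff l)) :
    ∃ q : ZT R m, mapZT f m q = p ∧ q.support ⊆ p.support ∧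
      ∀ l, (q.coeff l).support ⊆ (p.coeff l).support := by
  classical
  choose s hs hs' using fun l => exists_lift f (p.coeff l) (hp l)
  have hc : ∀ l, (∑ l ∈ p.support, Polynomial.monomial l (s l)).coeff l = s l := fun l => by
    rw [Polynomial.finsetSum_coeff]
    simp only [Polynomial.coeff_monomial, Finset.sum_ite_eq']
    split_ifs with hl
    · rfl
    · have := hs' l
      rw [Polynomial.notMem_support_iff.1 hl, support_zero, Finset.subset_empty,
        support_eq_empty] at this
      exact this.symm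
  refine ⟨∑ l ∈ p.support, Polynomial.monomial l (s l), Polynomial.ext fun l => ?_, fun l hl => ?_,
    fun l => ?_⟩
  · rw [mapZT_coeff, hc, hs]
  · rw [Polynomial.mem_support_iff, hc] at hl
    by_contra h
    have := hs' l
    rw [Polynomial.notMem_support_iff.1 h, support_zero, Finset.subset_empty,
      support_eq_empty] at this
    exact hl this
  · rw [hc]; exact hs' l

theorem aeval_pi {k τ : Type} [Field k] [Algebra k L] (x : ℕ → τ → L) (F : MvPolynomial τ k) :
    aeval (fun i n => x n i) F = fun n => aeval (x n) F :=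
  funext fun n => (aeval_map_alg (Pi.evalAlgHom k (fun _ => L) n) (fun i n => x n i) F).symm

section pts
variable {k σ : Type} [Field k] [Algebra k L] [Algebra k (Ul U L)]

/-- the algebra structure of the ultrapower over `k` is the one through the constants -/
def Tow (U : Ultrafilter ℕ) (k L : Type) [Field k] [Field L] [Algebra k L] [Algebra k (Ul U L)] :
    Prop := ∀ a : k, algebraMap k (Ul U L) a = algebraMap L (Ul U L) (algebraMap k L a)

theorem tow_self : Tow U L L := fun _ => rfl

/-- the class map as a map of `k`-algebras -/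
noncomputable def toUk (h : Tow U k L) : (ℕ → L) →ₐ[k] Ul U L :=
  { (toU U).toRingHom with commutes' := fun a => (h a).symm }

theorem aeval_toU (h : Tow U k L) {τ : Type} (x : ℕ → τ → L) (F : MvPolynomial τ k) :
    aeval (fun i => toU U fun n => x n i) F = toU U fun n => aeval (x n) F := by
  rw [← aeval_pi]
  exact aeval_map_alg (toUk h) (fun i n => x n i) F

theorem ev2_toU (h : Tow U k L) (A : σ → MvPolynomial (σ ⊕ σ) k) (x y : ℕ → σ → L) :
    ev2 A (fun i => toU U fun n => x n i) (fun i => toU U fun n => y n i) =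
      fun i => toU U fun n => ev2 A (x n) (y n) i := by
  funext i
  unfold ev2
  rw [← aeval_toU h]
  refine congrArg (fun t => aeval t (A i)) (funext fun s => ?_)
  cases s <;> rfl

theorem uni_toU [Fintype σ] {x : ℕ → σ → L} :
    Uni (fun i => toU U fun n => x n i) ↔ ∀ᶠ n in U, Uni (x n) := by
  simp only [Uni, isUnit_iff_ne_zero, toU_ne_zero]
  exact (Ultrafilter.eventually_exists_iff).symm

theorem par_toU [Fintype σ] {x y : ℕ → σ → L} :
    Par (fun i => toU U fun n => x n i) (fun i => toU U fun n => y n i) ↔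
      ∀ᶠ n in U, Par (x n) (y n) := by
  simp only [Par, ← map_mul, toU_eq_iff, eventually_all]
  rfl

theorem zr_toU (ht : Tow U k L) [Fintype σ] {I : Ideal (MvPolynomial σ k)} {x : ℕ → σ → L} :
    Zr I (fun i => toU U fun n => x n i) ↔ ∀ᶠ n in U, Zr I (x n) := by
  constructor
  · intro h
    obtain ⟨s, rfl⟩ := (isNoetherianRing_iff_ideal_fg _).1 inferInstance I
    have h1 : ∀ F ∈ s, ∀ᶠ n in U, aeval (x n) F = 0 := fun F hF => by
      have := h F (Ideal.subset_span hF)
      rwa [aeval_toU ht, toU_eq_zero] at this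
    filter_upwards [(eventually_all_finset s).2 h1] with n hn F hF
    have : Ideal.span (s : Set (MvPolynomial σ k)) ≤ RingHom.ker (aeval (x n)) :=
      Ideal.span_le.2 fun G hG => hn G hG
    exact this hF
  · intro h F hF
    rw [aeval_toU ht, toU_eq_zero]
    exact h.mono fun n hn => hn F hF

theorem exists_seq (xs : σ → Ul U L) : ∃ x : ℕ → σ → L, xs = fun i => toU U fun n => x n i := by
  choose f hf using fun i => toU_surj (xs i)
  exact ⟨fun n i => f i n, funext fun i => (hf i).symm⟩

end pts

end T10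

open T10 in
theorem st_LOS : St_LOS := fun _ _ _ =>
  ⟨toU_surj, fun _ => toU_eq_zero, fun _ => map_eq_zero_iff',
    fun _ p => exists_lift _ p fun _ => toU_surj _, mapZT_eq_zero_iff,
    fun m p => exists_liftZT _ m p fun _ _ => toU_surj _⟩

open T10 in
/-- points over the ultrapower (`St_ULP` with the compatibility of the algebra structures) -/
theorem T10.ulp {L σ : Type} [Field L] [Fintype σ] [DecidableEq σ] (B : Pkg L σ)
    (U : Ultrafilter ℕ) (M : Type) [Field M] [Algebra L M] [Algebra L (Ul U M)] (ht : Tow U L M) :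
    ∃ ul : (ℕ → B.Pt M) →+ B.Pt (Ul U M), Function.Surjective ul ∧
      (∀ p, ul p = 0 ↔ ∀ᶠ n in U, p n = 0) ∧ (∀ p xs, UlRep B U p xs ↔ B.Rep (ul p) xs) := by
  classical
  choose c hc using fun p : B.Pt M => Pkg.exists_rep p
  let ul0 : (ℕ → B.Pt M) → B.Pt (Ul U M) := fun p =>
    B.pt (fun i => toU U fun n => c (p n) i) (uni_toU.2 (.of_forall fun n => (hc (p n)).uni))
      ((zr_toU ht).2 (.of_forall fun n => (hc (p n)).zr))
  have h0 : ∀ p, B.Rep (ul0 p) fun i => toU U fun n => c (p n) i := fun p => Pkg.rep_pt _ _ _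
  have key : ∀ (p : ℕ → B.Pt M) (x : ℕ → σ → M),
      (∀ᶠ n in U, B.Rep (p n) (x n)) ↔ B.Rep (ul0 p) fun i => toU U fun n => x n i := by
    intro p x
    constructor
    · intro h
      exact (h0 p).of_par (uni_toU.2 (h.mono fun n hn => hn.uni))
        (par_toU.2 (h.mono fun n hn => (hc (p n)).par hn))
    · intro h
      filter_upwards [uni_toU.1 h.uni, par_toU.1 ((h0 p).par h)] with n h1 h2
      exact (hc (p n)).of_par h1 h2
  have ho : (fun i => toU U fun _ : ℕ => algebraMap L M (B.o i)) =
      fun i => algebraMap L (Ul U M) (B.o i) :=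
    funext fun i => (ht _).symm
  refine ⟨AddMonoidHom.mk' ul0 fun p q => ?_, fun P => ?_, fun p => ?_, fun p xs => ?_⟩
  · obtain ⟨a, ha⟩ := Ultrafilter.eventually_exists_iff.1
      (Eventually.of_forall (f := (U : Filter ℕ)) fun n => (hc (p n)).exists_add (hc (q n)))
    have h1 := (key (p + q) _).1 ha
    rw [← ev2_toU ht] at h1
    exact h1.eq ((h0 p).add (h0 q) h1.uni) (Par.refl _)
  · obtain ⟨xs, hxs⟩ := Pkg.exists_rep P
    obtain ⟨x, rfl⟩ := exists_seq xs
    refine ⟨fun n => if h : Uni (x n) ∧ Zr B.I (x n) then B.pt (x n) h.1 h.2 else 0,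
      ((key _ x).1 ?_).eq hxs (Par.refl _)⟩
    filter_upwards [uni_toU.1 hxs.uni, (zr_toU ht).1 hxs.zr] with n h1 h2
    rw [dif_pos ⟨h1, h2⟩]
    exact Pkg.rep_pt _ _ _
  · change ul0 p = 0 ↔ _
    constructor
    · intro h
      have h1 : B.Rep (ul0 p) _ := h ▸ Pkg.rep_zero
      rw [← ho] at h1
      exact ((key p fun _ i => algebraMap L M (B.o i)).2 h1).mono fun n hn =>
        hn.eq Pkg.rep_zero (Par.refl _)
    · intro h
      have h1 := (key p fun _ i => algebraMap L M (B.o i)).1
        (h.mono fun n hn => hn ▸ Pkg.rep_zero)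
      rw [ho] at h1
      exact h1.eq Pkg.rep_zero (Par.refl _)
  · constructor
    · rintro ⟨x, hx, rfl⟩
      exact (key p x).1 hx
    · intro h
      obtain ⟨x, rfl⟩ := exists_seq xs
      exact ⟨x, (key p x).2 h, rfl⟩

end D4C
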