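import Pool.Agent.Lib.D4C.BlueU

/-! d4c56, block TMN: naturality of the tangent matrix. -/

namespace D4C

open MvPolynomial

namespace T21u

/-- the map on dual numbers induced by an algebra map -/
def dmap {L S S' : Type} [Field L] [CommRing S] [CommRing S'] [Algebra L S] [Algebra L S']
    (h : S →ₐ[L] S') : DualNumber S →ₐ[L] DualNumber S' where
  toFun x := dn (h x.fst) (h x.snd)
  map_one' := by ext <;> simp [dn]
  map_mul' x y := by ext <;> simp [dn, mul_comm]
  map_zero' := by ext <;> simp [dn]
  map_add' x y := by ext <;> simp [dn]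
  commutes' r := by ext <;> simp [dn, TrivSqZeroExt.algebraMap_eq_inl']

theorem fst_dn {S : Type} [CommRing S] (a b : S) : (dn a b).fst = a := by simp [dn]

theorem snd_dn {S : Type} [CommRing S] (a b : S) : (dn a b).snd = b := by simp [dn]

theorem dn_eta {S : Type} [CommRing S] (x : DualNumber S) : dn x.fst x.snd = x :=
  TrivSqZeroExt.inl_fst_add_inr_snd_eq x

section
variable {L S S' : Type} [Field L] [CommRing S] [CommRing S'] [Algebra L S] [Algebra L S']
  (h : S →ₐ[L] S')

theorem dmap_apply (x : DualNumber S) : dmap h x = dn (h x.fst) (h x.snd) := rfl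

theorem dmap_dn (a b : S) : dmap h (dn a b) = dn (h a) (h b) := by
  rw [dmap_apply, fst_dn, snd_dn]

theorem snd_dmap (x : DualNumber S) : (dmap h x).snd = h x.snd := by rw [dmap_apply, snd_dn]

end

theorem evZT_nat {R R' S S' : Type} [CommRing R] [CommRing R'] [CommRing S] [CommRing S']
    [Algebra R S] [Algebra R' S'] (f : R →+* R') (h : S →+* S')
    (hf : ∀ r, h (algebraMap R S r) = algebraMap R' S' (f r)) {m : ℕ} (z : Fin m → S) (t : S)
    (Q : ZT R m) : h (evZT z t Q) = evZT (fun j => h (z j)) (h t) (mapZT f m Q) := by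
  have : h.comp (evZT (R := R) z t).toRingHom =
      (evZT (R := R') (fun j => h (z j)) (h t)).toRingHom.comp (mapZT f m) := by
    refine Polynomial.ringHom_ext' (MvPolynomial.ringHom_ext (fun r => ?_) fun j => ?_) ?_
    · simp [evZT, mapZT, hf]
    · simp [evZT, mapZT]
    · simp [evZT, mapZT]
  exact RingHom.congr_fun this Q

end T21u

open T21u in
theorem st_TMN : St_TMN := by
  intro L σ _ _ _ B g C a R R' S S' _ _ _ _ _ _ _ _ f h hf m z t
  have h1 : ∀ Q : ZT R m, h (evZT z t Q) = evZT (fun j => h (z j)) (h t) (mapZT f m Q) :=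
    fun Q => evZT_nat f (h : S →+* S') hf z t Q
  have h2 : ∀ (z : Fin m → DualNumber S) (t : DualNumber S) (Q : ZT R m),
      dmap h (evZT z t Q) = evZT (fun j => dmap h (z j)) (dmap h t) (mapZT f m Q) := by
    intro z t Q
    refine evZT_nat f (dmap h : DualNumber S →+* DualNumber S') (fun r => ?_) z t Q
    rw [TrivSqZeroExt.algebraMap_eq_inl', TrivSqZeroExt.algebraMap_eq_inl', ← hf]
    ext <;> simp [dmap_apply, dn]
  refine ⟨h1, fun P φ b j => ?_⟩
  have hd : mapZT f m (Polynomial.derivative P) = Polynomial.derivative (mapZT f m P) :=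
    (Polynomial.derivative_map P _).symm
  unfold tm
  rw [← snd_dmap, ← aeval_map_alg, ← ev2_map]
  simp only [h2, dmap_dn, map_neg, ← snd_dmap h (evZT _ _ _), apply_ite h, map_zero, map_one, h1,
    hd]

end D4C
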