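import Pool.Agent.Lib.D4C.B_SM
import Pool.Agent.Lib.D4C.B_LOS
import Pool.Agent.Lib.D4C.B_LOC
import Pool.Agent.Lib.D4C.B_TMN

/-! d4c56, block EAU: step A in the ultrapower. -/

namespace D4C

open MvPolynomial Filter

namespace T21u

theorem aeval_diagLaw {L σ R : Type} [Field L] [Fintype σ] [DecidableEq σ] (B : Pkg L σ)
    [CommRing R] [Algebra L R] (a : Fin B.nl) (x : σ → R) (s : σ) :
    aeval x (diagLaw B a s) = ev2 (B.A a) x (fun i => x (B.π i)) s := by
  have := ev2_map (aeval x : MvPolynomial σ L →ₐ[L] R) (B.A a) X fun i => X (B.π i)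
  simp only [aeval_X] at this
  exact (congrFun this s).symm

end T21u

open T21u in
theorem st_EAU (hS : St_SEQ) (hE : St_EA2) : St_EAU := by
  intro L σ _ _ _ _ B g m hg hm C U x hx xs hxs e D W hW
  obtain ⟨S, V, hU, hx', hV, hSW, -, -, -, hR⟩ := hS L σ B U x hx xs hxs m e D W hW
  subst hU hx'
  obtain ⟨xr, hxr, rfl⟩ := hxs
  obtain ⟨a, ha⟩ := Ultrafilter.eventually_exists_iff.mp
    (S.ok.mono fun n hn => (show ∃ a, At B (S.W n) S.e S.D (S.x n) (S.z n) (S.t n) a from by
      obtain ⟨h1, -, h3, h4, h5⟩ := hn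
      obtain ⟨a, ha⟩ := h5.exists_add h5.neg
      exact ⟨a, h1, h3, h4, h5, uni_iff_ne_zero.mp ha.uni⟩))
  obtain ⟨l, hl, hl1, i0, hl2⟩ := st_DIAG S.U L _ hx (Fin g)
    (fun n l => ∀ j, ∑ b, l b * tm C a (S.W n).P (S.W n).φ (S.z n) (S.t n) b j = 0)
    (fun n l c _ h j => by
      simp only [Pi.smul_apply, smul_eq_mul, mul_assoc]
      rw [← Finset.mul_sum, h j, mul_zero])
    (hE L σ B g m hg hm C S a ha)
  refine ⟨a, fun b => ⟨_, hl1 b⟩, ?_, fun h => ?_, fun j => ?_⟩
  · by_contra h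
    push Not at h
    have h1 : ∀ s, ∀ᶠ n in S.U, ev2 (B.A a) (xr n) (fun i => xr n (B.π i)) s = 0 := fun s => by
      have h2 := T51.zr_loc _ _ (h s)
      rw [aeval_def, eval₂_map] at h2
      have h3 : aeval (fun i => toU S.U fun n => xr n i) (diagLaw B a s) = 0 := h2
      rw [T10.aeval_toU T10.tow_self, T10.toU_eq_zero] at h3
      simpa only [aeval_diagLaw] using h3
    obtain ⟨n, h2, h3, h4⟩ := ((eventually_all.mpr h1).and (hxr.and ha)).exists
    obtain ⟨c, hc⟩ := (h3.par h4.rep).exists_smul h3.uni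
    apply h4.law
    have h5 : (fun i => evZT (S.z n) (S.t n) ((S.W n).φ (B.π i))) = c • fun i => xr n (B.π i) :=
      funext fun i => congrFun hc (B.π i)
    rw [hc, h5, B.ev2_smul, show ev2 (B.A a) (xr n) (fun i => xr n (B.π i)) = 0 from funext h2,
      smul_zero]
  · have h1 := congrArg Subtype.val (congrFun h i0)
    exact one_ne_zero (hl2.symm.trans h1)
  · rw [← hR, map_sum]
    let ev := evZT (R := sm S.U L fun n => B.ht (S.x n)) (fun j => toU S.U fun n => S.z n j)
      (toU S.U S.t)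
    let h : ZT (sm S.U L fun n => B.ht (S.x n)) m →ₐ[L] Ul S.U L :=
      { ev.toRingHom with
        commutes' := fun r => ev.commutes (algebraMap L (sm S.U L fun n => B.ht (S.x n)) r) }
    have e1 := fun b => (st_TMN L σ B g C a _ (Ul S.U L) _ (Ul S.U L) (algebraMap _ (Ul S.U L)) h
      ev.commutes m (fun i => Polynomial.C (X i)) Polynomial.X).2 W.P W.φ b j
    have e2 := fun b => (st_TMN L σ B g C a (ℕ → L) (Ul S.U L) (ℕ → L) (Ul S.U L)
      (toU S.U).toRingHom (toU S.U) (fun _ => rfl) m (fun j n => S.z n j) S.t).2 V.P V.φ b j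
    have e3 := fun n b => (st_TMN L σ B g C a (ℕ → L) L (ℕ → L) L (lv L n)
      (Pi.evalAlgHom L (fun _ => L) n) (fun _ => rfl) m (fun j n => S.z n j) S.t).2 V.P V.φ b j
    have hP : mapZT (toU S.U).toRingHom m V.P = mapZT (algebraMap _ (Ul S.U L)) m W.P :=
      congrArg Raw.P hV
    have hφ : (fun i => mapZT (toU S.U).toRingHom m (V.φ i)) =
        fun i => mapZT (algebraMap _ (Ul S.U L)) m (W.φ i) := congrArg Raw.φ hV
    have hz : (fun i => h (Polynomial.C (X i))) = fun j => toU S.U fun n => S.z n j :=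
      funext fun i => by simp [h, ev, evZT]
    have ht : h Polynomial.X = toU S.U S.t := by simp [h, ev, evZT]
    have e4 : ∀ b, ev (tm C a W.P W.φ (fun i => Polynomial.C (X i)) Polynomial.X b j) =
        toU S.U (tm C a V.P V.φ (fun j n => S.z n j) S.t b j) := fun b => by
      rw [e2, hP, hφ, ← hz, ← ht, ← e1]
      rfl
    have e5 : toU S.U (∑ b, (fun n => l n b) * tm C a V.P V.φ (fun j n => S.z n j) S.t b j) = 0 := by
      refine T10.toU_eq_zero.mpr (hl.mono fun n hn => ?_)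
      rw [← hn j, Finset.sum_apply]
      refine Finset.sum_congr rfl fun b _ => ?_
      rw [Pi.mul_apply, hSW n]
      exact congrArg (l n b * ·) (e3 n b)
    rw [← e5, map_sum]
    refine Finset.sum_congr rfl fun b _ => ?_
    rw [map_smul, Algebra.smul_def, map_mul, ← e4]
    rfl

end D4C
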