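import Pool.Agent.Lib.D4C.BlueE

/-! Step B along an ultrafilter from step B for one tuple. -/

namespace D4C

open MvPolynomial Filter

theorem st_EB2 (hF : St_EBF) (hC : St_CONE) (hH : St_HENS) : St_EB2 := by
  intro L σ _ _ _ _ B g hg C S ε hε
  obtain ⟨C1, hC1, hcone⟩ := hC L σ B
  obtain ⟨k, ρ, D0, θ, hθ, h1⟩ := hF L σ B g hg C S.e S.D S.D1 ε C1 S.e_pos hε hC1
  obtain ⟨c0, hc0, hgen⟩ := S.gen D0
  obtain ⟨ε', H0, hε', h2⟩ := h1 c0 hc0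
  by_contra hn
  rw [← Ultrafilter.eventually_not] at hn
  have hall := hn.and (S.ok.and ((S.big.eventually_ge_atTop H0).and ((S.small ε' hε').and hgen)))
  obtain ⟨n, κ, hn1, hκ, hh⟩ := hcone S.U S.x S.big k ρ θ hθ _ hall
  have hη : ∀ i, ∃ η, IsBranch (S.W (n i)).P (S.z (n i)) (S.t (n i)) η := fun i => by
    obtain ⟨hok, -, hr, hΔ, -⟩ := (hn1 i).2.1
    refine hH L _ _ _ _ hr fun h0 => hΔ ?_
    obtain ⟨c, hc⟩ := hok.sep
    have h3 := congrArg (evZT (S.z (n i)) (S.t (n i))) hc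
    rw [map_sub, map_mul, map_mul, h0, hr, zero_mul, zero_mul, zero_sub, neg_eq_zero] at h3
    simpa [evZT] using h3
  choose η hη using hη
  obtain ⟨i, hi⟩ := h2 (fun i => ⟨S.W (n i), S.z (n i), S.t (n i), S.A (n i), S.x (n i), η i,
    (hn1 i).2.1.1, (hn1 i).2.1.2.1, (hn1 i).2.1.2.2.1, (hn1 i).2.1.2.2.2.1, (hn1 i).2.1.2.2.2.2,
    hη i⟩) κ (fun i => (hn1 i).2.2.1) (fun i => (hn1 i).2.2.2.1) (fun i => (hn1 i).2.2.2.2) hκ hh
  exact (hn1 i).1 hi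

end D4C
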