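import Pool.Agent.Lib.D4C.BlueE

/-! Small kit for the assembly of step B. -/

namespace D4C

open MvPolynomial

namespace T39

theorem cnt (g b b1 r s : ℕ) : ∃ C1 : ℕ, 1 ≤ C1 ∧ ∀ M0 d kap m n r0 : ℕ, 1 ≤ d →
    m * (C1 * M0) ≤ d * 4 ^ kap → n ≤ b1 * (d * 4 ^ kap) → r0 ≤ r →
    2 * M0 ^ 2 * (m ^ 2 * (n + 1) ^ g * (r0 + 1) ^ s) * (b * (b * d + 1) ^ (g + 2)) ≤
      4 ^ ((g + 2) * kap) * (d + 1) ^ (2 * (g + 2)) := by
  set K := 2 * ((b1 + 1) ^ g * (r + 1) ^ s * (b * (b + 1) ^ (g + 2))) with hK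
  refine ⟨K + 1, Nat.le_add_left _ _, fun M0 d kap m n r0 hd hm hn hr => ?_⟩
  set q := 4 ^ kap with hq
  have hq1 : 1 ≤ q := Nat.one_le_pow _ _ (by norm_num)
  have h1 : 1 ≤ d * q := Nat.mul_pos hd hq1
  have h2 : n + 1 ≤ (b1 + 1) * (d * q) := by nlinarith
  have h3 : b * d + 1 ≤ (b + 1) * d := by nlinarith
  calc _ ≤ 2 * M0 ^ 2 * (m ^ 2 * ((b1 + 1) * (d * q)) ^ g * (r + 1) ^ s) *
        (b * ((b + 1) * d) ^ (g + 2)) := by gcongr
    _ = K * (m * M0) ^ 2 * ((d * q) ^ g * d ^ (g + 2)) := by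
      rw [hK, mul_pow (b1 + 1), mul_pow (b + 1)]; ring
    _ ≤ (m * ((K + 1) * M0)) ^ 2 * ((d * q) ^ g * d ^ (g + 2)) :=
      Nat.mul_le_mul_right _
        (by nlinarith [Nat.zero_le ((m * M0) ^ 2), Nat.zero_le (K ^ 2 * (m * M0) ^ 2)])
    _ ≤ (d * q) ^ 2 * ((d * q) ^ g * d ^ (g + 2)) := by gcongr
    _ = q ^ (g + 2) * d ^ (2 * (g + 2)) := by ring
    _ ≤ _ := by
      rw [mul_comm (g + 2) kap, pow_mul 4]
      gcongr
      exact d.le_succ

theorem logcard (G k d : ℕ) (kap : Fin (k + 1) → ℕ) (i0 : ℕ) (h : ∀ i, kap i ≤ i0) (hd : 1 ≤ d) :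
    Real.log (Fintype.card (Idx G k 1 d kap)) ≤ 2 * (k + 1) * G * (d * 4 ^ i0) := by
  have h0 : Fintype.card (Idx G k 1 d kap) = ∏ i, (4 ^ kap i * (dd 1 d i + 1)) ^ G := by
    simp only [Idx, Fintype.card_prod, Fintype.card_pi, Fintype.card_fin, Finset.prod_const,
      Finset.card_univ, mul_pow, Finset.prod_mul_distrib, ← pow_mul, mul_comm G]
  have h1 : Fintype.card (Idx G k 1 d kap) = ∏ i, (4 ^ kap i * (d + 1)) ^ G :=
    h0.trans (Finset.prod_congr rfl fun i _ => by simp [dd])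
  have h2 : ∀ i, Real.log (((4 ^ kap i * (d + 1)) ^ G : ℕ) : ℝ) ≤ 2 * G * (d * 4 ^ i0) := fun i => by
    have h3 : 4 ^ kap i * (d + 1) ≤ 2 * (d * 4 ^ i0) := by
      have := Nat.mul_le_mul (Nat.pow_le_pow_right (by norm_num : 0 < 4) (h i))
        (show d + 1 ≤ 2 * d by omega)
      nlinarith
    rw [Nat.cast_pow, Real.log_pow, mul_comm (2 : ℝ), mul_assoc]
    refine mul_le_mul_of_nonneg_left ((Real.log_le_self (Nat.cast_nonneg _)).trans ?_)
      (Nat.cast_nonneg _)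
    exact_mod_cast h3
  rw [h1, Nat.cast_prod, Real.log_prod fun i _ => by positivity]
  refine (Finset.sum_le_card_nsmul _ _ _ fun i _ => h2 i).trans_eq ?_
  rw [Finset.card_univ, Fintype.card_fin, nsmul_eq_mul]
  push_cast
  ring

theorem ln_le {L σ : Type} [Field L] (v : AbsoluteValue L ℝ) (f : (σ →₀ ℕ) → L)
    (P : MvPolynomial σ L) (n : ℕ) (M : ℝ) (hP : P.IsHomogeneous n)
    (hM : ∀ ν : σ →₀ ℕ, ν.degree = n → v (f ν) ≤ M) : v (Ln L f P) ≤ l1 v P * M := by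
  have h1 : ∀ (μ : σ →₀ ℕ) (c : L), Ln L f (monomial μ c) = c * f μ := fun μ c => by
    rw [show (monomial μ c : MvPolynomial σ L) = c • basisMonomials σ L μ by simp [smul_monomial],
      map_smul, Ln, Module.Basis.constr_basis, smul_eq_mul]
  conv_lhs => rw [P.as_sum, map_sum]
  rw [l1, Finset.sum_mul]
  refine (v.sum_le _ _).trans (Finset.sum_le_sum fun μ hμ => ?_)
  rw [h1, map_mul]
  refine mul_le_mul_of_nonneg_left (hM μ ?_) (v.nonneg _)
  rw [Finsupp.degree_eq_weight_one]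
  exact hP (mem_support_iff.mp hμ)

theorem exists_low {κ ρ L : Type} [Field L] (w : κ → ℕ) (f : PS (κ × ρ) L) (hf : f ≠ 0) :
    ∃ J, MvPowerSeries.coeff J f ≠ 0 ∧ ∀ J2, wt w J2 < wt w J → MvPowerSeries.coeff J2 f = 0 := by
  have h : {J | MvPowerSeries.coeff J f ≠ 0}.Nonempty := by
    by_contra hn
    exact hf (MvPowerSeries.ext fun J => by_contra fun h => hn ⟨J, h⟩)
  refine ⟨Function.argminOn (wt w) _ h, Function.argminOn_mem (wt w) _ h, fun J2 h2 => ?_⟩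
  by_contra hn
  exact Function.not_lt_argminOn (wt w) {J | MvPowerSeries.coeff J f ≠ 0} (a := J2) hn h2

theorem sum_wt {κ ρ : Type} [Fintype κ] [Fintype ρ] (w : κ → ℕ) (J : κ × ρ →₀ ℕ) :
    ∑ i, w i * (J.curry i).degree = wt w J := by
  rw [wt, Finsupp.weight_eq_sum, Fintype.sum_prod_type]
  refine Finset.sum_congr rfl fun i _ => ?_
  rw [Finsupp.degree_eq_sum, Finset.mul_sum]
  exact Finset.sum_congr rfl fun a _ => by rw [smul_eq_mul, mul_comm]; rfl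

/-- good laws exist -/
theorem exists_goodL {L σ : Type} [Field L] [Fintype σ] [DecidableEq σ] (B : Pkg L σ) {k : ℕ}
    (κ : Fin (k + 1) → ℕ) (x : Fin (k + 1) → B.Pt L) : ∃ Λ, GoodL B κ x Λ := by
  choose u hu using fun i => Pkg.exists_rep (2 ^ κ i • x i)
  choose Λ hΛ using fun i => Pkg.exists_law (hu i).uni (hu i).zr (hu 0).neg.uni (hu 0).neg.zr
  refine ⟨Λ, fun u' hu' i => ?_⟩
  obtain ⟨c, hc⟩ := ((hu i).par (hu' i)).exists_smul (hu i).uni
  obtain ⟨c', hc'⟩ := ((hu 0).neg.par (hu' 0).neg).exists_smul (hu 0).neg.uni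
  have h1 := (hc ▸ (hu' i).uni).isUnit_of_smul
  have h2 := (hc' ▸ (hu' 0).neg.uni).isUnit_of_smul
  rw [hc', hc, B.ev2_smul]
  exact uni_iff_ne_zero.mp ((hΛ i).smul ((h1.pow _).mul (h2.pow _)))

/-- division of a degree -/
theorem split_deg {e : ℕ} (he : 1 ≤ e) (D δ : ℕ) :
    ∃ r0 n, r0 + e * n = δ ∧ (e * D ≤ r0 ∨ n = 0) ∧ r0 ≤ e * (D + 1) ∧ n + r0 ≤ δ := by
  by_cases h : e * D ≤ δ
  · obtain ⟨t, rfl⟩ := Nat.exists_eq_add_of_le h
    have h1 := Nat.mod_add_div t e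
    have h2 := Nat.mod_lt t he
    have h3 : t / e ≤ e * (t / e) := Nat.le_mul_of_pos_left _ he
    exact ⟨e * D + t % e, t / e, by omega, Or.inl (by omega), by rw [mul_add]; omega, by omega⟩
  · exact ⟨δ, 0, rfl, Or.inr rfl, by rw [mul_add]; omega, by omega⟩

/-- the height terms of the main inequality of step B -/
theorem main_ineq {k : ℕ} (q H gap h2 hd en mm : Fin (k + 1) → ℝ) {a β d d' η θ CH C1 T0 R : ℝ}
    (ha : 0 ≤ a) (hβ : 0 ≤ β) (hd0 : 0 ≤ d) (hd' : 0 ≤ d') (hη : 0 ≤ η) (hCH : 0 ≤ CH)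
    (hC1 : 1 ≤ C1) (hT0 : 0 ≤ T0) (hq : ∀ i, 0 ≤ q i) (hq0 : ∀ i, q i ≤ q 0) (hH : ∀ i, 0 ≤ H i)
    (hgap : ∀ i, η * H i ≤ gap i) (hm0 : mm 0 = 0) (hmm : ∀ i, i ≠ 0 → d' * q i ≤ mm i)
    (hh2 : ∀ i, q i * H i - CH * q i ≤ h2 i) (hhd : ∀ i, hd i ≤ θ * (q 0 * H 0)) (hθ : k * θ ≤ 1)
    (hc1 : ∀ i, q 0 * H 0 ≤ C1 * (q i * H i)) (hc2 : ∀ i, q i * H i ≤ C1 * (q 0 * H 0))
    (hen : ∀ i, i ≠ 0 → en i ≤ q i * (β * (a * d) + T0))
    (hen0 : en 0 ≤ q 0 * (a * d + k * (β * (a * d)) + T0))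
    (key : ∑ i, mm i * gap i + ∑ i ∈ Finset.univ.erase 0, a * d * (β * h2 i + β * h2 0 - hd i) ≤
      R + ∑ i, en i * H i) :
    k * η * d' * (q 0 * H 0) / C1 ≤ R + 2 * a * d * (q 0 * H 0) + 2 * k * β * a * CH * (d * q 0) +
      (k + 1) * T0 * C1 * (q 0 * H 0) := by
  set Y := q 0 * H 0 with hY
  have hY0 : 0 ≤ Y := mul_nonneg (hq 0) (hH 0)
  have hC0 : 0 < C1 := by linarith
  have h1 : ∀ i ∈ Finset.univ.erase (0 : Fin (k + 1)), η * d' * Y / C1 +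
      a * d * (β * Y - 2 * β * CH * q 0 - θ * Y) - T0 * C1 * Y ≤
      mm i * gap i + a * d * (β * h2 i + β * h2 0 - hd i) - en i * H i := fun i hi => by
    have hi0 := Finset.ne_of_mem_erase hi
    have a1 : η * d' * Y / C1 ≤ mm i * gap i := by
      rw [div_le_iff₀ hC0]
      have b1 := mul_le_mul (hmm i hi0) (hgap i) (mul_nonneg hη (hH i))
        ((mul_nonneg hd' (hq i)).trans (hmm i hi0))
      have b2 := mul_le_mul_of_nonneg_left (hc1 i) (mul_nonneg hη hd')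
      nlinarith
    have a2 : en i * H i ≤ a * d * (β * (q i * H i)) + T0 * C1 * Y := by
      have b1 := mul_le_mul_of_nonneg_right (hen i hi0) (hH i)
      have b2 := mul_le_mul_of_nonneg_left (hc2 i) hT0
      nlinarith
    have a3 : β * (q i * H i) + (β * Y - 2 * β * CH * q 0 - θ * Y) ≤ β * h2 i + β * h2 0 - hd i := by
      have b1 := mul_le_mul_of_nonneg_left (hh2 i) hβ
      have b2 := mul_le_mul_of_nonneg_left (hh2 0) hβ
      have b3 := mul_le_mul_of_nonneg_left (hq0 i) (mul_nonneg hβ hCH)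
      have b4 := hhd i
      nlinarith
    have a4 := mul_le_mul_of_nonneg_left a3 (mul_nonneg ha hd0)
    nlinarith
  have h2' := Finset.card_nsmul_le_sum _ _ _ h1
  rw [Finset.card_erase_of_mem (Finset.mem_univ _), Finset.card_univ, Fintype.card_fin,
    Nat.add_sub_cancel, nsmul_eq_mul, Finset.sum_sub_distrib, Finset.sum_add_distrib] at h2'
  rw [← Finset.add_sum_erase _ (fun i => mm i * gap i) (Finset.mem_univ 0),
    ← Finset.add_sum_erase _ (fun i => en i * H i) (Finset.mem_univ 0), hm0, zero_mul,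
    zero_add] at key
  have h3 := mul_le_mul_of_nonneg_right hen0 (hH 0)
  have h4 := mul_le_mul_of_nonneg_right hθ (mul_nonneg (mul_nonneg ha hd0) hY0)
  have h5 := mul_le_mul_of_nonneg_left hC1 (mul_nonneg hT0 hY0)
  have h6 : k * η * d' * Y / C1 = k * (η * d' * Y / C1) := by ring
  have h7 : q 0 * (a * d + k * (β * (a * d)) + T0) * H 0 =
      (a * d + k * (β * (a * d)) + T0) * Y := by rw [hY]; ring
  nlinarith

end T39

end D4C
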