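import Pool.Agent.Lib.D4C.T91e
import Pool.Agent.Lib.D4C.T39e

/-! Step B for one tuple of points. -/

namespace D4C

open MvPolynomial

theorem st_EBF (hMUL : St_MUL) (hSEP : St_SEP) (hFDEG : St_FDEG) (hREDN : St_REDN)
    (hCNB : St_CNB) (hAPB : St_APB) (hSIEB : St_SIEB) (hVANB : St_VANB) (hNZB : St_NZB)
    (hPHB : St_PHB) (hIDX : St_IDX) (hKEYB : St_KEYB) (hHT : St_HT) : St_EBF := by
  intro L σ _ _ _ _ B g hdim C e D D1 η C1 he hη hC1
  obtain ⟨N, r, cM, AM, hN, hmul⟩ := hMUL L σ B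
  obtain ⟨cA, hcA, hapb⟩ := hAPB σ (g + 2) D1
  obtain ⟨hapb1, hapb2⟩ := hapb L B e D
  obtain ⟨b, hsie⟩ := hSIEB L σ B (g + 2) hdim C
  obtain ⟨CH, hCH, -, -, hht⟩ := hHT L σ B
  obtain ⟨n0, hn0⟩ : ∃ n0, n0 = C.dg * (g + 2) := ⟨_, rfl⟩
  obtain ⟨C', hC', hcnt⟩ := T39.cnt g b (B.β * n0 + 1) (e * (D + 1)) (Fintype.card σ)
  have hC0 : 0 < C1 := one_pos.trans_le hC1
  have hC'0 : (0 : ℝ) < C' := by exact_mod_cast hC'
  obtain ⟨M0, hM0⟩ := exists_nat_ge (C1 * C' * (2 * n0 + 1) / η)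
  have hM1 : (0 : ℝ) < M0 := lt_of_lt_of_le (by positivity) hM0
  obtain ⟨k, hk⟩ : ∃ k, k = M0 ^ 2 := ⟨_, rfl⟩
  have hk0 : (0 : ℝ) < k := by rw [hk, Nat.cast_pow]; positivity
  obtain ⟨c2, C2, A2, hc2, hfd⟩ := hFDEG L σ B (g + 2) C k N r cM AM
  obtain ⟨C8, hC8, hsi⟩ := hsie (cM + cA) AM
  obtain ⟨C10, hC10, hkey⟩ := hKEYB L σ B g C e D D1 k c2 A2
  obtain ⟨b0, hb0⟩ : ∃ b0, b0 = n0 + k * (B.β * n0) + B.β * n0 + 1 := ⟨_, rfl⟩
  obtain ⟨bS, hbS⟩ : ∃ bS, bS = b0 + (2 * D1 * (e * (D + 1)) + 1) := ⟨_, rfl⟩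
  have hbS1 : (1 : ℝ) ≤ bS := by exact_mod_cast (by omega : 1 ≤ bS)
  obtain ⟨s0, hs0, hs1⟩ : ∃ s0 : ℝ, 0 < s0 ∧ C10 * (3 * C1 * s0 * bS) ≤ 1 / 2 := by
    refine ⟨1 / (6 * C1 * bS * (C10 + 1)), by positivity, ?_⟩
    rw [show C10 * (3 * C1 * (1 / (6 * C1 * bS * (C10 + 1))) * bS) = C10 / (C10 + 1) / 2 by
      field_simp; ring]
    have : C10 / (C10 + 1) ≤ 1 := by rw [div_le_one (by positivity)]; linarith
    linarith
  obtain ⟨ρI, D0, CI, hCI, hidx⟩ := hIDX L (k + 1) (g + 2) D1 s0 hs0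
  refine ⟨k, max ρI 1, max D0 1, 1 / k, by positivity, fun c0 hc0 => ?_⟩
  have lA : 0 ≤ Real.log cA := Real.log_natCast_nonneg _
  have l2 : 0 ≤ Real.log c2 := Real.log_natCast_nonneg _
  have hA2 := T1.hA_nn A2
  obtain ⟨Cl, hCl⟩ : ∃ Cl : ℝ, Cl = 2 * (k + 1) * (g + 2 : ℕ) := ⟨_, rfl⟩
  obtain ⟨Ca, hCa⟩ : ∃ Ca : ℝ, Ca = C8 * (2 * b0 + 1 + (k + 1) * (b0 * C1) + Cl + 1) := ⟨_, rfl⟩
  obtain ⟨Cb, hCb⟩ : ∃ Cb : ℝ, Cb = Ca + C2 * hA A2 + (k + 1) * (b0 * C1) + Module.finrank ℚ L *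
    (Cl + C2 * Real.log c2 + (k + 1) * (b0 * Real.log cA)) + (k + 1) * (bS * C1) := ⟨_, rfl⟩
  obtain ⟨Cc, hCc⟩ : ∃ Cc : ℝ, Cc = k * (η + 2 * B.β * CH * n0 + 1) + 1 + Ca +
    C10 * (C2 + 1 + Cl + (k + 1) * (b0 * C1 + b0) + (k + 1) * 3) := ⟨_, rfl⟩
  have hCl0 : 0 ≤ Cl := by rw [hCl]; positivity
  have hCa0 : 0 ≤ Ca := by rw [hCa]; positivity
  have hCb0 : 0 ≤ Cb := by rw [hCb]; positivity
  have hCc0 : 0 ≤ Cc := by rw [hCc]; positivity
  obtain ⟨τ, hτ, hτ1, hτ2, hτ3⟩ : ∃ τ : ℝ, 0 < τ ∧ τ ≤ 1 ∧ τ * Cc ≤ 1 / 4 ∧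
      τ * (CI * (Cb + bS) * C1 + 1) ≤ c0 := by
    refine ⟨min (1 / (4 * (Cc + 1))) (c0 / (CI * (Cb + bS) * C1 + 1)), by positivity, ?_, ?_, ?_⟩
    · refine (min_le_left _ _).trans ?_
      rw [div_le_one (by positivity)]; linarith
    · refine (mul_le_mul_of_nonneg_right (min_le_left _ _) hCc0).trans ?_
      rw [div_mul_eq_mul_div, div_le_div_iff₀ (by positivity) (by positivity)]; linarith
    · exact (le_div_iff₀ (by positivity)).1 (min_le_right _ _)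
  refine ⟨τ, 1 / τ, hτ, fun V κ hH hε hgen hρ hcone => ?_⟩
  by_contra hbad
  push Not at hbad
  have hτh : ∀ i, 1 ≤ τ * B.ht (V i).x := fun i => by
    have := hH i
    rwa [div_le_iff₀ hτ, mul_comm] at this
  have hh0 : ∀ i, 0 < B.ht (V i).x := fun i => (one_div_pos.2 hτ).trans_le (hH i)
  have hh1 : ∀ i, 1 ≤ B.ht (V i).x := fun i =>
    (hτh i).trans (mul_le_of_le_one_left (hh0 i).le hτ1)
  have hκ : ∀ i, κ i ≤ κ 0 := fun i => by
    rcases Fin.eq_zero_or_eq_succ i with rfl | ⟨j, rfl⟩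
    · exact le_rfl
    · exact (Nat.pow_le_pow_iff_right (by norm_num)).1 ((Nat.le_mul_of_pos_left _
        (lt_max_of_lt_right one_pos)).trans (hρ 0 j.succ (Fin.succ_pos j)))
  have hw : ∀ i, 4 ^ (κ 0 - κ i) * 4 ^ κ i = 4 ^ κ 0 := fun i => by
    rw [← pow_add, Nat.sub_add_cancel (hκ i)]
  have hw1 : ∀ i, 1 ≤ 4 ^ (κ 0 - κ i) := fun i => Nat.one_le_pow _ _ (by norm_num)
  have hwR : ∀ i, ((4 ^ (κ 0 - κ i) : ℕ) : ℝ) * 4 ^ κ i = 4 ^ κ 0 := fun i => by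
    exact_mod_cast hw i
  choose es s hs using fun i => hSEP L σ B (g + 2) hdim (κ i) (V i).x
  obtain ⟨d', hd'⟩ := exists_nat_ge (∑ i, ((es i + N * r + 1 : ℕ) : ℝ) * B.ht (V i).x)
  obtain ⟨d, hd⟩ : ∃ d, d = N * d' := ⟨_, rfl⟩
  have hdi : ∀ i, ((es i + N * r + 1 : ℕ) : ℝ) * B.ht (V i).x ≤ d := fun i =>
    ((Finset.single_le_sum (f := fun i => ((es i + N * r + 1 : ℕ) : ℝ) * B.ht (V i).x)
      (fun i _ => mul_nonneg (Nat.cast_nonneg _) (hh0 i).le) (Finset.mem_univ i)).trans hd').trans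
      (by rw [hd]; exact_mod_cast Nat.le_mul_of_pos_left _ hN)
  have hdn : ∀ i, es i + N * r + 1 ≤ d := fun i => by
    exact_mod_cast (le_mul_of_one_le_right (Nat.cast_nonneg _) (hh1 i)).trans (hdi i)
  have hd1 : 1 ≤ d := le_trans (by omega) (hdn 0)
  have hdR : (1 : ℝ) ≤ d := by exact_mod_cast hd1
  obtain ⟨nb, hnb0, hnb1, hnb⟩ : ∃ nb : Fin (k + 1) → ℕ, nb 0 = n0 + k * (B.β * n0) ∧
      (∀ i, i ≠ 0 → nb i = B.β * n0) ∧ ∀ i, nn C k 1 d i = nb i * d := by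
    refine ⟨fun i => if i = 0 then n0 + k * (B.β * n0) else B.β * n0, if_pos rfl,
      fun i hi => if_neg hi, fun i => ?_⟩
    simp only [nn]
    split_ifs <;> rw [hn0] <;> ring
  have hnb2 : ∀ i, nb i + 1 ≤ b0 := fun i => by
    by_cases hi : i = 0
    · rw [hi, hnb0]; omega
    · rw [hnb1 i hi]; omega
  have hN' : ∀ i, N * (nb i * d') = nn C k 1 d i := fun i => by rw [hnb, hd]; ring
  choose Dm hDm1 hDm2 using fun i => hmul (κ i) (nb i * d')
  have hIM : ∀ i, IsMul B (κ i) (nn C k 1 d i) (Dm i) := fun i => hN' i ▸ hDm2 i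
  have hF := hfd 1 d κ es (fun i => nb i * d') s Dm hN le_rfl hd1 hκ (fun i => (hs i).1) hN' hDm1
  choose n r0 hnr hr1 hr2 using fun i =>
    T91.split e D (es i + 4 ^ κ i * (nn C k 1 d i + N * r)) he
  rw [← funext hnr] at hF
  have hp1 : ∀ i, 1 ≤ 4 ^ κ i := fun i => Nat.one_le_pow _ _ (by norm_num)
  have hpq : ∀ i, 4 ^ κ i ≤ 4 ^ κ 0 := fun i => Nat.pow_le_pow_right (by norm_num) (hκ i)
  have hδ0 : ∀ i, r0 i + e * n i ≤ nb i * (d * 4 ^ κ i) + (es i + N * r + 1) * 4 ^ κ i :=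
    fun i => by
      rw [hnr, hnb]
      have := Nat.le_mul_of_pos_right (es i) (hp1 i)
      nlinarith [hp1 i]
  have hδ : ∀ i, r0 i + e * n i ≤ (nb i + 1) * (d * 4 ^ κ i) := fun i =>
    (hδ0 i).trans (by
      have := Nat.mul_le_mul_right (4 ^ κ i) (hdn i)
      rw [add_mul (nb i), one_mul]; omega)
  have hnδ : ∀ i, n i + r0 i ≤ b0 * (d * 4 ^ κ i) := fun i => by
    have a1 := Nat.le_mul_of_pos_left (n i) he
    have a2 := (hδ i).trans (Nat.mul_le_mul_right _ (hnb2 i))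
    omega
  choose Kb hKb using fun i => hREDN L σ (g + 2) e D (r0 i) (n i) (V i).W.ξ (V i).W.H (hr1 i)
    (V i).ok.H_hom
  obtain ⟨mm, hm0, hm1⟩ : ∃ mm : Fin (k + 1) → ℕ, mm 0 = 0 ∧
      ∀ i, i ≠ 0 → mm i = d * 4 ^ κ i / (C' * M0) :=
    ⟨fun i => if i = 0 then 0 else _, if_pos rfl, fun i hi => if_neg hi⟩
  choose Es hEs1 hEs2 using fun j => (hCNB σ).2 g (n j) (r0 j) (mm j)
  obtain ⟨c, hc, hch, heq⟩ := hsi k d (2 * b0 * (d * 4 ^ κ 0)) κ n _ Es
    (fun j ε l γ => Ln L (fun ν => coeff ε (Kb j ν)) (monomial (s j l) 1 * Dm j γ))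
    (fun i => (V i).A) (by omega) hd1
    (fun j _ ε l γ v _ => by
      have a0 := T83.one_le_hv v AM
      have a1 := T39.ln_le v (fun ν => coeff ε (Kb j ν)) (monomial (s j l) 1 * Dm j γ)
        (r0 j + e * n j) ((cA * hv v (V j).A) ^ n j) (by
          rw [hnr, ← hN', ← mul_add]
          exact (isHomogeneous_monomial _ ((hs j).1 l)).mul (hDm1 j γ).1)
        fun ν hν => le_trans (by simpa using T83.sum_le_l1 v (Kb j ν) {ε})
          (hapb1 (V j) _ _ _ (hKb j) v ν hν)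
      have a2 : l1 v (monomial (s j l) 1 * Dm j γ) ≤ (cM * hv v AM) ^ (4 ^ κ j * (nb j * d' + r)) :=
        (T83.l1_mul v _ _).trans (by rw [T83.l1_monomial, map_one, one_mul]; exact (hDm1 j γ).2 v)
      have a3 : 4 ^ κ j * (nb j * d' + r) + n j ≤ 2 * b0 * (d * 4 ^ κ 0) := by
        have b1 : 4 ^ κ j * (nb j * d' + r) ≤ r0 j + e * n j := by
          rw [hnr, ← hN', ← mul_add]
          exact le_add_left (Nat.mul_le_mul_left _ (Nat.le_mul_of_pos_left _ hN))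
        have b2 := (hδ j).trans (Nat.mul_le_mul (hnb2 j) (Nat.mul_le_mul_left d (hpq j)))
        have b3 := (hnδ j).trans (Nat.mul_le_mul_left b0 (Nat.mul_le_mul_left d (hpq j)))
        rw [mul_assoc]; omega
      have a4 : (cA : ℝ) ≤ (cM + cA : ℕ) * hv v AM :=
        le_trans (by exact_mod_cast Nat.le_add_left _ _)
          (le_mul_of_one_le_right (Nat.cast_nonneg _) a0)
      have a5 : (1 : ℝ) ≤ (cM + cA : ℕ) * hv v AM := le_trans (by exact_mod_cast hcA) a4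
      have a6 := zero_le_one.trans (T83.one_le_hv v (V j).A)
      refine (a1.trans (mul_le_mul_of_nonneg_right a2 (by positivity))).trans ?_
      rw [mul_pow (cA : ℝ), ← mul_assoc]
      refine mul_le_mul_of_nonneg_right (le_trans ?_ (pow_le_pow_right₀ a5 a3)) (by positivity)
      rw [pow_add]
      refine mul_le_mul (pow_le_pow_left₀ (by positivity) (mul_le_mul_of_nonneg_right ?_
        (by positivity)) _) (pow_le_pow_left₀ (by positivity) a4 _) (by positivity) (by positivity)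
      exact_mod_cast Nat.le_add_right _ _)
    (fun j hj => by
      refine le_trans ?_ (hcnt M0 d (κ j) (mm j) (n j) (r0 j) hd1
        (by rw [hm1 j hj]; exact Nat.div_mul_le_self _ _) ?_ (hr2 j))
      · rw [← hk]
        exact Nat.mul_le_mul_right _ (Nat.mul_le_mul_left _ (hEs2 j))
      · have a1 := Nat.le_mul_of_pos_left (n j) he
        have a2 := hδ j
        rw [hnb1 j hj] at a2
        omega)
  obtain ⟨Λ, hΛ⟩ := T91.exists_good B κ fun i => (V i).x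
  have hMH : MH (fun i => r0 i + e * n i) (∑ ω, c ω • eL C 1 d κ s Dm Λ ω) :=
    T1.mh_sum _ fun ω _ => T1.MH.smul (hF Λ ω).1 _
  have hne : evV V (GB V Kb (∑ ω, c ω • eL C 1 d κ s Dm Λ ω)) ≠ 0 := fun h0 =>
    hc (hNZB L σ B (g + 2) hdim C e D D1 k 1 d κ es _ s Dm V Λ hIM (fun i γ => ⟨_, (hDm1 i γ).1⟩)
      hs hΛ (fun ω => (hF Λ ω).1) c (by
        rw [((hPHB L σ B (g + 2) e D D1).2 (k + 1) V).2 r0 n Kb _ hKb hMH, h0, mul_zero]))
  obtain ⟨J, hJ0, hJ1⟩ := T39.exists_low (fun i => 4 ^ (κ 0 - κ i)) _ hne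
  -- sizes
  obtain ⟨X0, hX⟩ : ∃ X0 : ℝ, X0 = d * 4 ^ κ 0 := ⟨_, rfl⟩
  obtain ⟨Y, hY⟩ : ∃ Y : ℝ, Y = τ * (X0 * B.ht (V 0).x) := ⟨_, rfl⟩
  have hdX : (d : ℝ) ≤ X0 := by
    rw [hX]; exact le_mul_of_one_le_right (by positivity) (one_le_pow₀ (by norm_num))
  have hX0 : 0 < X0 := lt_of_lt_of_le (by linarith) hdX
  have hXY : X0 ≤ Y := by
    rw [hY, mul_left_comm]; exact le_mul_of_one_le_right hX0.le (hτh 0)
  have hdY : (d : ℝ) ≤ Y := hdX.trans hXY
  have hpR : ∀ i, (4 : ℝ) ^ κ i ≤ 4 ^ κ 0 := fun i => by exact_mod_cast hpq i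
  have sz1 : ∀ (i) (t a : ℕ), t ≤ a * (d * 4 ^ κ i) → (t : ℝ) ≤ a * Y := fun i t a ht => by
    have a1 : (t : ℝ) ≤ a * (d * 4 ^ κ i) := by exact_mod_cast ht
    refine a1.trans (mul_le_mul_of_nonneg_left (le_trans ?_ hXY) (Nat.cast_nonneg _))
    rw [hX]; exact mul_le_mul_of_nonneg_left (hpR i) (by positivity)
  have sz2 : ∀ (i) (t a : ℕ), t ≤ a * (d * 4 ^ κ i) → t * hA (V i).A ≤ a * C1 * Y :=
    fun i t a ht => by
      have a1 : (t : ℝ) ≤ a * (d * 4 ^ κ i) := by exact_mod_cast ht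
      calc t * hA (V i).A ≤ a * (d * 4 ^ κ i) * (τ * B.ht (V i).x) :=
            mul_le_mul a1 (hε i) (T1.hA_nn _) (by positivity)
        _ = a * d * τ * (4 ^ κ i * B.ht (V i).x) := by ring
        _ ≤ a * d * τ * (C1 * (4 ^ κ 0 * B.ht (V 0).x)) :=
            mul_le_mul_of_nonneg_left (hcone i).2.2 (by positivity)
        _ = _ := by rw [hY, hX]; ring
  have sz3 : Real.log (Fintype.card (Idx (g + 2) k 1 d κ)) ≤ Cl * Y := by
    refine (T39.logcard (g + 2) k d κ (κ 0) hκ hd1).trans ?_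
    rw [← hCl, ← hX]; exact mul_le_mul_of_nonneg_left hXY hCl0
  have sz4 : ((C2 * (1 * d * 4 ^ κ 0) : ℕ) : ℝ) ≤ C2 * Y := sz1 0 _ _ (by rw [one_mul])
  have sz5 : ∀ i, B.ht (V i).x ≤ Y := fun i => le_trans (le_trans (le_mul_of_one_le_left
    (hh0 i).le (by exact_mod_cast Nat.le_add_left _ _)) (hdi i)) hdY
  have sz6 : ∀ i, ((e * n i : ℕ) : ℝ) * B.ht (V i).x ≤ nb i * d * 4 ^ κ i * B.ht (V i).x + Y :=
    fun i => by
      have a1 : ((e * n i : ℕ) : ℝ) ≤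
          nb i * (d * 4 ^ κ i) + ((es i + N * r + 1 : ℕ) : ℝ) * 4 ^ κ i := by
        exact_mod_cast (Nat.le_add_left _ _).trans (hδ0 i)
      have a2 := mul_le_mul_of_nonneg_right a1 (hh0 i).le
      have a3 := mul_le_mul (hdi i) (hpR i) (by positivity) (by positivity)
      rw [← hX] at a3
      linarith
  have hcY : Height.logHeight c ≤ Ca * Y := by
    refine hch.trans ?_
    rw [hCa, mul_assoc C8]
    refine mul_le_mul_of_nonneg_left ?_ hC8
    have a1 := sz1 0 (2 * b0 * (d * 4 ^ κ 0)) (2 * b0) le_rfl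
    have a2 := T91.sum_le fun i => sz2 i (n i) b0 ((Nat.le_add_right _ _).trans (hnδ i))
    push_cast at a1 ⊢
    linarith
  by_cases hlow : (wt (fun i => 4 ^ (κ 0 - κ i)) J : ℝ) ≤ s0 * (bS * X0)
  · have key := hkey d _ κ r0 n mm (fun i => 4 ^ (κ 0 - κ i)) s Dm V Kb c Λ J hc2 he hc hm0 hr2
      (fun i h0 => by
        have a1 := (hgen i (X 0) (X_ne_zero _) (by simp) (by simpa using congrFun h0 0)).trans
          (T91.hP_X _)
        exact absurd a1 (not_le.2 (mul_pos hc0 (hh0 i))))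
      hIM hΛ hKb hF
      (fun Λ' j hj ε h1 h2 h3 => hVANB L σ B (g + 2) C k d κ s Dm c j _ hj (hIM 0)
        (heq j hj ε ((hEs1 j ε).2 ⟨h1, h2, h3⟩)) Λ')
      hJ0 hJ1 hw1
    have hn1 : ((C.dg * ((g + 2) * (1 * d)) : ℕ) : ℝ) = n0 * d := by rw [hn0]; push_cast; ring
    rw [hn1] at key
    have fin := T91.final (P := X0 * B.ht (V 0).x) (Y := Y)
      (u := η / (C1 * (C' * M0)) + B.β * n0 - 1 / k * n0) (v := η + 2 * B.β * CH * n0 + 1)
      (u0 := n0 + k * (B.β * n0)) (Cr := C2 + 1 + Cl + (k + 1) * (b0 * C1 + b0) + (k + 1) * 3)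
      (s := 3 * C1 * s0 * bS) key
      (fun i hi => by
        have a1 : (d : ℝ) * 4 ^ κ i ≤ (mm i + 1) * (C' * M0) := by
          have b1 : 0 < C' * M0 := by exact_mod_cast mul_pos hC'0 hM1
          have b2 := Nat.lt_div_mul_add (a := d * 4 ^ κ i) b1
          rw [← hm1 i hi] at b2
          have b3 : d * 4 ^ κ i ≤ (mm i + 1) * (C' * M0) := by rw [add_mul, one_mul]; omega
          exact_mod_cast b3
        have a2 := sz6 i
        rw [hnb1 i hi, Nat.cast_mul B.β] at a2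
        rw [hX]
        exact T91.step hη hC0 (by positivity) (Nat.cast_nonneg _) (Nat.cast_nonneg _) hCH
          (Nat.cast_nonneg _) (Nat.cast_nonneg _) (hh0 i).le (by linarith [hbad i]) a1
          (hcone i).2.1 (sz5 i) (by linarith [(abs_le.1 (hht (κ i) (V i).x)).1])
          (by linarith [(abs_le.1 (hht (κ 0) (V 0).x)).1]) (hcone i).1 (hpR i) (hX ▸ hXY) a2)
      (by
        have a2 := sz6 0
        rw [hnb0] at a2
        rw [hm0, hX]
        push_cast at a2 ⊢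
        linarith)
      hcY
      (by
        have a1 := T91.sum_le (f := fun i => n i * (hA (V i).A + 1)) (b := (b0 * C1 + b0) * Y)
          fun i => by
            have b1 := (Nat.le_add_right _ _).trans (hnδ i)
            linarith [sz1 i _ _ b1, sz2 i _ _ b1]
        have a2 : ∑ i, (((J.curry i).degree : ℝ) + 1) * (B.ht (V i).x + hA (V i).A + 1) ≤
            ∑ i, (3 * C1 * B.ht (V 0).x * ((4 ^ (κ 0 - κ i) * (J.curry i).degree : ℕ) : ℝ) +
              3 * Y) := Finset.sum_le_sum fun i _ => by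
          have b1 : B.ht (V i).x + hA (V i).A + 1 ≤ 3 * B.ht (V i).x := by
            linarith [hh1 i, (hε i).trans (mul_le_of_le_one_left (hh0 i).le hτ1)]
          have b2 : B.ht (V i).x ≤ C1 * B.ht (V 0).x * (4 ^ (κ 0 - κ i) : ℕ) := by
            refine le_of_mul_le_mul_left ((hcone i).2.2.trans_eq ?_) (by positivity)
            rw [← hwR i]; ring
          have b3 := mul_le_mul_of_nonneg_left b2 (Nat.cast_nonneg (α := ℝ) (J.curry i).degree)
          refine (mul_le_mul_of_nonneg_left b1 (by positivity)).trans ?_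
          rw [Nat.cast_mul]
          linarith [sz5 i]
        rw [Finset.sum_add_distrib, ← Finset.mul_sum, ← Nat.cast_sum, T39.sum_wt,
          Finset.sum_const, Finset.card_univ, Fintype.card_fin, nsmul_eq_mul] at a2
        have a3 := mul_le_mul_of_nonneg_left hlow
          (by have := hh0 0; positivity : 0 ≤ 3 * C1 * B.ht (V 0).x)
        push_cast at a2 sz4 ⊢
        linarith)
      hC10
    rw [← hCc, hY] at fin
    have a1 : (k : ℝ) * (η / (C1 * (C' * M0)) + B.β * n0 - 1 / k * n0) - (n0 + k * (B.β * n0)) =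
        η * M0 / (C1 * C') - 2 * n0 := by
      have : (k : ℝ) = M0 ^ 2 := by exact_mod_cast hk
      rw [this]; field_simp; ring
    have a2 : 2 * n0 + 1 ≤ η * M0 / (C1 * C') := by
      rw [div_le_iff₀ hη] at hM0
      rw [le_div_iff₀ (by positivity)]; linarith
    rw [a1] at fin
    have a3 := mul_pos hX0 (hh0 0)
    have a4 := mul_le_mul_of_nonneg_right hτ2 a3.le
    have a5 := mul_le_mul_of_nonneg_right
      (by linarith : 1 / 2 ≤ η * M0 / (C1 * C') - 2 * n0 - C10 * (3 * C1 * s0 * bS)) a3.le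
    linarith
  · obtain ⟨hBD, hl1⟩ := hapb2 (k + 1) V r0 n Kb _ hKb hMH
    have hb : ∀ i, n i + 2 * D1 * r0 i + 1 ≤ bS * (d * 4 ^ κ i) := fun i => by
      have a1 := Nat.mul_le_mul_left (2 * D1) (hr2 i)
      have a2 := Nat.le_mul_of_pos_right (2 * D1 * (e * (D + 1)) + 1) (Nat.mul_pos hd1 (hp1 i))
      have a3 := hnδ i
      rw [hbS, add_mul b0]; omega
    have hG := T91.hP_red (fun h0 => hne (by rw [h0, map_zero])) hc hc2 hcA
      (fun ω => (hF Λ ω).2) hl1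
    obtain ⟨i, Q, hQ0, hQ1, hQ2, hQ3⟩ := hidx (fun i => 4 ^ (κ 0 - κ i)) (fun i => (V i).W.P)
      (fun i => (V i).A) (fun i => (V i).z) (fun i => (V i).t) (fun i => (V i).η) _
      (fun i => n i + 2 * D1 * r0 i + 1) (bS * X0) (Cb * Y) hw1
      (fun i j hij => by
        refine Nat.le_of_mul_le_mul_right ?_ (Nat.mul_pos (hp1 i) (hp1 j))
        have a1 := (Nat.mul_le_mul_right _ (le_max_left ρI 1)).trans (hρ i j hij)
        calc ρI * 4 ^ (κ 0 - κ i) * (4 ^ κ i * 4 ^ κ j)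
            = 4 ^ (κ 0 - κ i) * 4 ^ κ i * (ρI * 4 ^ κ j) := by ring
          _ ≤ 4 ^ (κ 0 - κ j) * 4 ^ κ j * 4 ^ κ i := by
            rw [hw, hw]; exact Nat.mul_le_mul_left _ a1
          _ = _ := by ring)
      (fun i => ⟨(V i).ok.monic, (V i).small.P, (V i).br⟩) (by positivity)
      (fun μ hμ i => (hBD μ hμ i).trans (Nat.le_succ _)) (fun i => Nat.le_add_left _ _)
      (fun i => by
        have a1 : ((n i + 2 * D1 * r0 i + 1 : ℕ) : ℝ) ≤ bS * (d * 4 ^ κ i) := by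
          exact_mod_cast hb i
        refine (mul_le_mul_of_nonneg_left a1 (Nat.cast_nonneg _)).trans_eq ?_
        rw [hX, ← hwR i]; ring)
      (by
        have a1 := T91.sum_le fun i => sz2 i _ _ (hnδ i)
        have a2 := T91.sum_le fun i => sz2 i _ _ (hb i)
        have a3 := T91.sum_le fun i => mul_le_mul_of_nonneg_right (sz1 i _ _ (hnδ i)) lA
        have a4 := mul_le_mul_of_nonneg_right sz4 hA2
        have a5 := mul_le_mul_of_nonneg_right sz4 l2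
        have a6 := mul_le_mul_of_nonneg_left (add_le_add (add_le_add sz3 a5) a3)
          (Nat.cast_nonneg (α := ℝ) (Module.finrank ℚ L))
        rw [hCb]
        linarith)
      hne
      (fun q hq => (not_le.1 hlow).le.trans (by
        exact_mod_cast not_lt.1 fun h => hq (hJ1 q h)))
    refine T91.alt hc0 (hh0 i) hX0 hbS1 hCI (Nat.cast_nonneg _) hCb0 hτ
      (hgen i Q hQ0 (hQ1.trans (le_max_left _ _)) hQ2) hQ3 le_rfl hXY hY ?_ hτ3
    refine le_of_mul_le_mul_left ?_ (by positivity : (0 : ℝ) < 4 ^ κ i)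
    rw [← mul_assoc, mul_comm _ ((4 ^ (κ 0 - κ i) : ℕ) : ℝ), hwR]
    exact (hcone i).2.1.trans_eq (by ring)

end D4C
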