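import Pool.Agent.Lib.D4C.BlueU

/-! The field of elements of small height in an ultrapower. -/

namespace D4C

open MvPolynomial Filter Height

namespace T20

section lo

variable {U : Ultrafilter ℕ} {H α β : ℕ → ℝ}

theorem lo_mono (h : Lo U H β) (hle : ∀ᶠ n in U, α n ≤ β n) : Lo U H α := fun ε hε =>
  ((h ε hε).and hle).mono fun _ hn => hn.2.trans hn.1

theorem lo_add (h : Lo U H α) (h' : Lo U H β) : Lo U H fun n => α n + β n := fun ε hε =>
  ((h (ε / 2) (half_pos hε)).and (h' (ε / 2) (half_pos hε))).mono fun _ hn => by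
    linarith [hn.1, hn.2]

theorem lo_const (hH : Tendsto H U atTop) (c : ℝ) : Lo U H fun _ => c := fun ε hε =>
  (hH.eventually_ge_atTop (c / ε)).mono fun _ hn => by
    rwa [div_le_iff₀ hε, mul_comm] at hn

theorem lo_sum (hH : Tendsto H U atTop) {ι : Type} (s : Finset ι) {a : ι → ℕ → ℝ}
    (h : ∀ i ∈ s, Lo U H (a i)) : Lo U H fun n => ∑ i ∈ s, a i n := by
  classical
  induction s using Finset.induction_on with
  | empty => simpa using lo_const hH 0
  | insert j s hj ih =>
    simp only [Finset.sum_insert hj]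
    exact lo_add (h j (Finset.mem_insert_self _ _))
      (ih fun i hi => h i (Finset.mem_insert_of_mem hi))

theorem lo_mul (hH : Tendsto H U atTop) (h : Lo U H α) {c : ℝ} (hc : 0 ≤ c) :
    Lo U H fun n => c * α n := by
  rcases hc.eq_or_lt with rfl | hc
  · simpa using lo_const hH 0
  · refine fun ε hε => (h (ε / c) (by positivity)).mono fun n hn => ?_
    calc c * α n ≤ c * (ε / c * H n) := mul_le_mul_of_nonneg_left hn hc.le
      _ = ε * H n := by field_simp

/-- change of the reference sequence -/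
theorem lo_trans {H' : ℕ → ℝ} (h : Lo U H' α) {c : ℝ} (hc : 0 < c)
    (hle : ∀ᶠ n in U, H' n ≤ c * H n) : Lo U H α := fun ε hε =>
  ((h (ε / c) (by positivity)).and hle).mono fun n hn =>
    calc α n ≤ ε / c * H' n := hn.1
      _ ≤ ε / c * (c * H n) := mul_le_mul_of_nonneg_left hn.2 (by positivity)
      _ = ε * H n := by field_simp

/-- choice of a sequence of small cost -/
theorem exists_lo (hH : Tendsto H U atTop) {A : Type} [Nonempty A] (P : ℕ → A → Prop) (h : A → ℝ)
    (h0 : ∀ a, 0 ≤ h a) (hP : ∀ ε : ℝ, 0 < ε → ∀ᶠ n in U, ∃ a, h a ≤ ε * H n ∧ P n a) :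
    ∃ a : ℕ → A, (∀ᶠ n in U, P n (a n)) ∧ Lo U H fun n => h (a n) := by
  have key : ∀ n, ∃ a, (∃ b, P n b) → P n a ∧ ∀ b, P n b → h a ≤ h b + 1 := by
    intro n
    by_cases hn : ∃ b, P n b
    · have hne : (h '' {b | P n b}).Nonempty := Set.Nonempty.image _ hn
      obtain ⟨_, ⟨a, ha, rfl⟩, h1⟩ := exists_lt_of_csInf_lt hne (lt_add_one _)
      refine ⟨a, fun _ => ⟨ha, fun b hb => h1.le.trans ?_⟩⟩
      have h2 : sInf (h '' {b | P n b}) ≤ h b :=
        csInf_le ⟨0, by rintro _ ⟨c, -, rfl⟩; exact h0 c⟩ ⟨b, hb, rfl⟩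
      linarith
    · exact ⟨Classical.arbitrary A, fun h' => absurd h' hn⟩
  choose a ha using key
  refine ⟨a, (hP 1 one_pos).mono fun n ⟨b, _, hb⟩ => (ha n ⟨b, hb⟩).1, fun ε hε => ?_⟩
  refine ((hP (ε / 2) (half_pos hε)).and (lo_const hH 1 (ε / 2) (half_pos hε))).mono ?_
  rintro n ⟨⟨b, hb, hb'⟩, h1⟩
  have := (ha n ⟨b, hb'⟩).2 b hb'
  linarith

end lo

section ul

variable {U : Ultrafilter ℕ} {L : Type} [Field L]

theorem toU_eq {f g : ℕ → L} : toU U f = toU U g ↔ ∀ᶠ n in U, f n = g n := Germ.coe_eq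

theorem toU_surj (a : Ul U L) : ∃ f : ℕ → L, toU U f = a :=
  Germ.inductionOn a fun f => ⟨f, rfl⟩

theorem toU_ne {f : ℕ → L} : toU U f ≠ 0 ↔ ∀ᶠ n in U, f n ≠ 0 := by
  rw [← map_zero (toU U), Ne, toU_eq, Ultrafilter.eventually_not]
  rfl

theorem toU_inv (f : ℕ → L) : toU U (fun n => (f n)⁻¹) = (toU U f)⁻¹ := rfl

end ul

section ht

variable {L : Type} [Field L] [AdmissibleAbsValues L] {ι : Type} [Fintype ι]

/-- the height of a vector is at most the sum of the heights of the coordinates -/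
theorem logHeight_le_sum (x : ι → L) : logHeight x ≤ ∑ i, logHeight₁ (x i) := by
  classical
  have h := logHeight_fun_prod_eq (x := fun i => ![x i, 1]) fun i => by simp
  simp only [logHeight₁_eq_logHeight]
  rw [← h]
  refine le_of_eq_of_le ?_ (logHeight_comp_le (fun i j => if j = i then (0 : Fin 2) else 1) _)
  congr 1
  funext i
  simp only [Function.comp_apply]
  rw [Finset.prod_eq_single i (fun j _ hj => by simp [hj]) (by simp)]
  simp

/-- the height of a ratio of two coordinates -/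
theorem logHeight₁_div_le (x : ι → L) (i j : ι) : logHeight₁ (x i / x j) ≤ logHeight x := by
  rw [logHeight₁_div_eq_logHeight]
  refine le_of_eq_of_le ?_ (logHeight_comp_le ![i, j] x)
  congr 1
  funext k
  fin_cases k <;> rfl

end ht

variable {U : Ultrafilter ℕ} {L : Type} [Field L] [NumberField L] {H : ℕ → ℝ}

/-- the classes of sequences of small height form a field -/
noncomputable def smF (U : Ultrafilter ℕ) (L : Type) [Field L] [NumberField L] (H : ℕ → ℝ)
    (hH : Tendsto H U atTop) : IntermediateField L (Ul U L) where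
  carrier := {a | ∃ f : ℕ → L, a = toU U f ∧ Lo U H fun n => logHeight₁ (f n)}
  mul_mem' := by
    rintro _ _ ⟨f, rfl, hf⟩ ⟨g, rfl, hg⟩
    exact ⟨f * g, (map_mul _ _ _).symm,
      lo_mono (lo_add hf hg) (Eventually.of_forall fun n => logHeight₁_mul_le _ _)⟩
  add_mem' := by
    rintro _ _ ⟨f, rfl, hf⟩ ⟨g, rfl, hg⟩
    exact ⟨f + g, (map_add _ _ _).symm, lo_mono (lo_add (lo_add (lo_const hH _) hf) hg)
      (Eventually.of_forall fun n => logHeight₁_add_le _ _)⟩
  algebraMap_mem' := fun c => ⟨fun _ => c, rfl, lo_const hH _⟩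
  inv_mem' := by
    rintro _ ⟨f, rfl, hf⟩
    exact ⟨fun n => (f n)⁻¹, (toU_inv f).symm, by simpa only [logHeight₁_inv] using hf⟩

theorem mem_sm (hH : Tendsto H U atTop) {f : ℕ → L} :
    toU U f ∈ sm U L H ↔ Lo U H fun n => logHeight₁ (f n) := by
  refine ⟨fun h => ?_, fun h => IntermediateField.subset_adjoin _ _ ⟨f, rfl, h⟩⟩
  have h1 : sm U L H ≤ smF U L H hH := IntermediateField.adjoin_le_iff.mpr fun _ h => h
  obtain ⟨g, hg, hg'⟩ := h1 h
  exact lo_mono hg' ((toU_eq.mp hg).mono fun n hn => by rw [hn])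

theorem diag (hH : Tendsto H U atTop) {ι : Type} [Fintype ι] (Φ : ℕ → (ι → L) → Prop)
    (hs : ∀ n l (c : L), c ≠ 0 → Φ n l → Φ n (c • l))
    (h : ∀ ε : ℝ, 0 < ε → ∀ᶠ n in U, ∃ l, l ≠ 0 ∧ logHeight l ≤ ε * H n ∧ Φ n l) :
    ∃ l : ℕ → ι → L, (∀ᶠ n in U, Φ n (l n)) ∧ (∀ i, (toU U fun n => l n i) ∈ sm U L H) ∧
      ∃ i, (toU U fun n => l n i) = 1 := by
  obtain ⟨l, hl, hl'⟩ := exists_lo hH (fun n (l : ι → L) => l ≠ 0 ∧ Φ n l) logHeight
    logHeight_nonneg fun ε hε => (h ε hε).mono fun n ⟨l, h1, h2, h3⟩ => ⟨l, h2, h1, h3⟩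
  obtain ⟨i, hi⟩ := Ultrafilter.eventually_exists_iff.mp
    (hl.mono fun n hn => Function.ne_iff.mp hn.1)
  refine ⟨fun n => (l n i)⁻¹ • l n, (hl.and hi).mono fun n hn => hs n _ _ (inv_ne_zero hn.2) hn.1.2,
    fun j => (mem_sm hH).mpr (lo_mono hl' (Eventually.of_forall fun n => ?_)), i, ?_⟩
  · simpa only [Pi.smul_apply, smul_eq_mul, inv_mul_eq_div] using logHeight₁_div_le (l n) j i
  · rw [← map_one (toU U), toU_eq]
    exact hi.mono fun n hn => inv_mul_cancel₀ hn

/-- evaluation as a sum over a larger set of exponents -/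
theorem aeval_eq_sum {R S τ : Type} [CommRing R] [CommRing S] [Algebra R S] [Fintype τ]
    (x : τ → S) (Q : MvPolynomial τ R) (T : Finset (τ →₀ ℕ)) (hT : Q.support ⊆ T) :
    aeval x Q = ∑ d : T, algebraMap R S (coeff d.1 Q) * ∏ s, x s ^ d.1 s := by
  rw [aeval_def, eval₂_eq', Finset.sum_coe_sort T
    fun d => algebraMap R S (coeff d Q) * ∏ s, x s ^ d s]
  exact Finset.sum_subset hT fun d _ hd => by rw [notMem_support_iff.mp hd, map_zero, zero_mul]

theorem logHeight_coeff_le {τ : Type} (Q : MvPolynomial τ L) (T : Finset (τ →₀ ℕ)) :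
    logHeight (fun d : T => coeff d.1 Q) ≤ hP Q := by
  rw [logHeight_eq_logHeight_restrict_support]
  exact logHeight_comp_le (fun d : Function.support fun d : T => coeff d.1 Q =>
    (⟨d.1.1, mem_support_iff.mpr d.2⟩ : Q.support)) fun d : Q.support => coeff d.1 Q

end T20

theorem st_SM : St_SM := fun _ _ _ _ _ hH _ => T20.mem_sm hH

theorem st_DIAG : St_DIAG := fun _ _ _ _ _ hH _ _ Φ hs h => T20.diag hH Φ hs h

open T20 in
theorem st_SMP : St_SMP := by
  intro σ _ U M _ _ H hH x hx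
  obtain ⟨i, hi⟩ := Function.ne_iff.mp hx
  constructor
  · intro h
    refine ⟨toU U fun n => x n i, fun j => ⟨toU U fun n => x n j / x n i, (mem_sm hH).mpr
      (lo_mono h (Eventually.of_forall fun n => logHeight₁_div_le (x n) j i))⟩, funext fun j => ?_⟩
    simp only [Pi.smul_apply, smul_eq_mul]
    rw [← map_mul, toU_eq]
    exact (toU_ne.mp hi).mono fun n hn => (mul_div_cancel₀ _ hn).symm
  · rintro ⟨c, y, hy⟩
    obtain ⟨c', rfl⟩ := toU_surj c
    choose y' hy' using fun j => toU_surj (y j).1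
    have h1 : ∀ j, ∀ᶠ n in U, x n j = c' n * y' j n := fun j => by
      have := congrFun hy j
      simp only [Pi.smul_apply, smul_eq_mul] at this
      rw [← hy', ← map_mul] at this
      exact toU_eq.mp this
    refine lo_mono (lo_sum hH Finset.univ fun j _ => (mem_sm hH).mp (hy' j ▸ (y j).2))
      (((eventually_all.mpr h1).and (toU_ne.mp hi)).mono fun n hn => ?_)
    have h2 : c' n ≠ 0 := fun h => hn.2 (by rw [hn.1 i, h, zero_mul])
    rw [show x n = c' n • fun j => y' j n from funext hn.1, logHeight_smul_eq_logHeight _ h2]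
    exact logHeight_le_sum _

open T20 in
theorem st_GENU : St_GENU := by
  intro U L _ _ H hH m z hz D0
  classical
  by_contra hc
  let T := (Finsupp.finite_of_degree_le (σ := Fin m) D0).toFinset
  obtain ⟨l, hl, hl', i, hi⟩ := diag hH (fun n (l : T → L) => ∑ d, l d * ∏ s, z n s ^ d.1 s = 0)
    (fun n l c _ h => by
      simp only [Pi.smul_apply, smul_eq_mul, mul_assoc, ← Finset.mul_sum, h, mul_zero])
    fun ε hε => by
      have h1 := Ultrafilter.eventually_not.mpr fun h => hc ⟨ε, hε, h⟩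
      refine h1.mono fun n hn => ?_
      push Not at hn
      obtain ⟨Q, hQ, hd, h0, hlt⟩ := hn
      have hT : Q.support ⊆ T := fun d hd' =>
        (Set.Finite.mem_toFinset _).mpr ((le_totalDegree hd').trans hd)
      refine ⟨fun d => coeff d.1 Q, fun h => ?_, (logHeight_coeff_le Q T).trans hlt.le, ?_⟩
      · obtain ⟨d, hd'⟩ := support_nonempty.mpr hQ
        exact mem_support_iff.mp hd' (congrFun h ⟨d, hT hd'⟩)
      · rw [aeval_eq_sum _ _ T hT] at h0
        exact h0
  let P : MvPolynomial (Fin m) (sm U L H) := ∑ d : T, monomial d.1 ⟨_, hl' d⟩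
  have h1 : aeval (fun j => toU U fun n => z n j) P = 0 := by
    have h2 : aeval (fun j => toU U fun n => z n j) P =
        toU U fun n => ∑ d, l n d * ∏ s, z n s ^ d.1 s := by
      rw [show (fun n => ∑ d, l n d * ∏ s, z n s ^ d.1 s) =
        ∑ d : T, (fun n => l n d) * ∏ s, (fun n => z n s) ^ d.1 s from funext fun n => by simp]
      simp only [P, map_sum, map_mul, map_prod, map_pow, aeval_monomial,
        Finsupp.prod_fintype _ _ fun _ => pow_zero _]
      rfl
    rw [h2, ← map_zero (toU U), toU_eq]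
    exact hl
  have h2 := congrArg (coeff i.1) (hz (h1.trans (map_zero _).symm))
  simp only [P, coeff_sum, coeff_monomial, Subtype.val_inj, Finset.sum_ite_eq', Finset.mem_univ,
    if_true, coeff_zero] at h2
  exact one_ne_zero (hi.symm.trans (congrArg Subtype.val h2))

open T20 in
theorem st_BILU : St_BILU := by
  intro U L _ _ H hH σ ι ι' _ _ _ d Γ x b c hΓ _ hc
  classical
  let T := (Finsupp.finite_of_degree_le (σ := σ) d).toFinset.filter fun ν => ν.degree = d
  have hT : ∀ u i, (Γ u i).support ⊆ T := fun u i ν hν => by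
    have h1 : ν.degree = d := by
      rw [Finsupp.degree_eq_weight_one]
      exact hΓ u i (mem_support_iff.mp hν)
    exact Finset.mem_filter.mpr ⟨(Set.Finite.mem_toFinset _).mpr h1.le, h1⟩
  choose A hA using fun a : ι × (T × ι') => toU_surj (coeff a.2.1.1 (Γ a.1 a.2.2)).1
  obtain ⟨C, hC⟩ := logHeight_eval_le' (K := L) (N := d) (p := fun ν : T => monomial ν.1 1)
    fun ν => isHomogeneous_monomial _ (Finset.mem_filter.mp ν.2).2
  have h1 : ∀ u, ∀ᶠ n in U, c n u =
      ∑ a : T × ι', A (u, a) n * ((∏ s, x n s ^ a.1.1 s) * b n a.2) := fun u => by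
    rw [← toU_eq, hc u, show (fun n => ∑ a : T × ι', A (u, a) n * ((∏ s, x n s ^ a.1.1 s) * b n a.2))
      = ∑ a : T × ι', A (u, a) * ((∏ s, (fun n => x n s) ^ a.1.1 s) * fun n => b n a.2) from
      funext fun n => by simp]
    simp only [map_sum, map_mul, map_prod, map_pow, hA, aeval_eq_sum _ _ T (hT u _),
      Finset.sum_mul, Fintype.sum_prod_type_right, mul_assoc]
    rfl
  refine lo_mono (lo_add (lo_const hH (totalWeight L * Real.log (Nat.card (T × ι')) + C))
    (lo_sum hH Finset.univ fun a _ => (mem_sm hH).mp (hA a ▸ (coeff a.2.1.1 (Γ a.1 a.2.2)).2)))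
    ((eventually_all.mpr h1).mono fun n hn => ?_)
  have h2 := logHeight_linearMap_apply_le (fun a => A a n)
    fun a : T × ι' => (∏ s, x n s ^ a.1.1 s) * b n a.2
  have h3 := logHeight_le_sum fun a => A a n
  have h4 := logHeight_mul_le (fun a : T × ι' => ∏ s, x n s ^ a.1.1 s) fun a => b n a.2
  have h5 := logHeight_comp_le (Prod.fst : T × ι' → T) fun ν => ∏ s, x n s ^ ν.1 s
  have h6 := logHeight_comp_le (Prod.snd : T × ι' → ι') (b n)
  have h7 := hC (x n)
  simp only [eval_monomial, one_mul, Finsupp.prod_fintype _ _ fun _ => pow_zero _] at h7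
  rw [← funext hn] at h2
  change logHeight (fun a : T × ι' => (∏ s, x n s ^ a.1.1 s) * b n a.2) ≤ _ at h4
  change logHeight (fun a : T × ι' => ∏ s, x n s ^ a.1.1 s) ≤ _ at h5
  change logHeight (fun a : T × ι' => b n a.2) ≤ _ at h6
  change logHeight (c n) ≤ _ at h2
  linarith

end D4C
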