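import Pool.Agent.Lib.D4C.BlueA

/-! d4c56 blueprint, shared tools and step B (writer 91). -/

set_option linter.unusedVariables false

namespace D4C

open MvPolynomial Filter

/-- `f` is a positive function of the place, compatible with powers, with `∑ log f = H` -/
structure Ad {L : Type} [Field L] [Height.AdmissibleAbsValues L] (f : AbsoluteValue L ℝ → ℝ)
    (H : ℝ) : Prop where
  pos : ∀ v, 0 < f v
  pow : ∀ (v w : AbsoluteValue L ℝ) (q : ℕ), 1 ≤ q → (∀ x, w x = v x ^ q) → f w = f v ^ q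
  fin : (Function.support fun v : Height.AdmissibleAbsValues.nonarchAbsVal (K := L) =>
    Real.log (f v.1)).Finite
  sum : ((Height.AdmissibleAbsValues.archAbsVal (K := L)).map fun v => Real.log (f v)).sum +
    ∑ᶠ v : Height.AdmissibleAbsValues.nonarchAbsVal (K := L), Real.log (f v.1) = H

/-- value of a monomial -/
def mon {σ R : Type} [Fintype σ] [CommRing R] (x : σ → R) (γ : σ →₀ ℕ) : R := ∏ a, x a ^ γ a

/-- left part of an exponent -/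
noncomputable def fl {α β : Type} (γ : α ⊕ β →₀ ℕ) : α →₀ ℕ :=
  γ.comapDomain Sum.inl Sum.inl_injective.injOn

/-- right part of an exponent -/
noncomputable def fr {α β : Type} (γ : α ⊕ β →₀ ℕ) : β →₀ ℕ :=
  γ.comapDomain Sum.inr Sum.inr_injective.injOn

/-- the linear map with given values on the monomials -/
noncomputable def Ln (L : Type) {σ R : Type} [Field L] [CommRing R] [Algebra L R]
    (T : (σ →₀ ℕ) → R) : MvPolynomial σ L →ₗ[L] R := (basisMonomials σ L).constr L T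

/-- the same block by block -/
noncomputable def Tn (L : Type) {κ σ R : Type} [Field L] [Fintype κ] [CommRing R] [Algebra L R]
    (T : κ → (σ →₀ ℕ) → R) : MvPolynomial (κ × σ) L →ₗ[L] R :=
  (basisMonomials (κ × σ) L).constr L fun μ => ∏ i, T i (μ.curry i)

/-- `K ν` writes the monomial `ν` of degree `r0 + e n` as a form of degree `n` in `ξ` and of
degree `r0` in the coordinates -/
structure IsRed {L σ : Type} [Field L] [Fintype σ] {m : ℕ} (ξ : Fin (m + 1) → MvPolynomial σ L)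
    (H : (σ →₀ ℕ) → Fin (m + 1) → MvPolynomial σ L) (e D r0 n : ℕ)
    (K : (σ →₀ ℕ) → MvPolynomial (Fin (m + 1) ⊕ σ) L) : Prop where
  deg : ∀ ν, ν.degree = r0 + e * n → ∀ ε ∈ (K ν).support, (fl ε).degree = n ∧ (fr ε).degree = r0
  norm : ∀ (v : AbsoluteValue L ℝ) (b : ℝ), 1 ≤ b →
    (∀ ν, ν.degree = e * (D + 1) → ∑ j, l1 v (H ν j) ≤ b) →
    ∀ ν, ν.degree = r0 + e * n → l1 v (K ν) ≤ b ^ n
  val : ∀ (R : Type) [CommRing R] [Algebra L R] (x : σ → R),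
    (∀ ν, ν.degree = e * (D + 1) → aeval x (monomial ν (1 : L) - ∑ j, ξ j * H ν j) = 0) →
    ∀ ν, ν.degree = r0 + e * n → mon x ν = aeval (Sum.elim (fun j => aeval x (ξ j)) x) (K ν)

/-- a rational point on a presented variety, with the branch through it -/
structure Lv {L σ : Type} [Field L] [Fintype σ] [DecidableEq σ] (B : Pkg L σ) (m e D D1 : ℕ) where
  W : Raw L σ m
  z : Fin m → L
  t : L
  A : Finset L
  x : B.Pt L
  η : PS (Fin m) L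
  ok : W.Ok B.I e D
  small : W.Small e D D1 A
  root : evZT z t W.P = 0
  Δ_ne : aeval z W.Δ ≠ 0
  rep : B.Rep x fun i => evZT z t (W.φ i)
  br : IsBranch W.P z t η

section lv
variable {L σ : Type} [Field L] [Fintype σ] [DecidableEq σ] {B : Pkg L σ} {m e D D1 : ℕ}

/-- expansion along the branch -/
noncomputable def Lv.ev (V : Lv B m e D D1) : ZT L m →ₐ[L] PS (Fin m) L :=
  evZT (fun j => MvPowerSeries.C (V.z j) + MvPowerSeries.X j) V.η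

/-- the formal point -/
noncomputable def Lv.X (V : Lv B m e D D1) : σ → PS (Fin m) L := fun a => V.ev (V.W.φ a)

open Classical in
/-- the constants, the parameters of the point and an inverse of the derivative -/
noncomputable def bigA {m : ℕ} (A : Finset L) (z : Fin m → L) (t p : L) : Finset L :=
  A ∪ Finset.univ.image z ∪ {t, p}

/-- the constants that govern the growth of the branch -/
noncomputable def Lv.A' (V : Lv B m e D D1) : Finset L :=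
  bigA V.A V.z V.t (evZT V.z V.t V.W.π' / aeval V.z V.W.Δ)

/-- the vector `(z, 1)` -/
def Lv.Z (V : Lv B m e D D1) : Fin (m + 1) → L := Fin.snoc (α := fun _ => L) V.z 1

/-- `ξ ↦ (z, 1)`, `X ↦ φ` -/
noncomputable def phiOf (W : Raw L σ m) : MvPolynomial (Fin (m + 1) ⊕ σ) L →ₐ[L] ZT L m :=
  aeval (Sum.elim (zv L m) W.φ)

/-- the reduced form of a polynomial in blocks -/
noncomputable def GB {K : ℕ} (V : Fin K → Lv B m e D D1)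
    (Kb : Fin K → (σ →₀ ℕ) → MvPolynomial (Fin (m + 1) ⊕ σ) L) :
    MvPolynomial (Fin K × σ) L →ₗ[L] AA L K m :=
  Tn L fun i γ => toA i (phiOf (V i).W (Kb i γ))

/-- expansion at all the points -/
noncomputable def evV {K : ℕ} (V : Fin K → Lv B m e D D1) : AA L K m →ₐ[L] PS (Fin K × Fin m) L :=
  evA (fun i => (V i).z) fun i => (V i).η

end lv

/-- order in the first two variables -/
def o2 {g : ℕ} {σ : Type} (ε : Fin (g + 2 + 1) ⊕ σ →₀ ℕ) : ℕ := ε (Sum.inl 0) + ε (Sum.inl 1)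

/-- the part of order at least `m0` in the first two variables -/
noncomputable def hiP {g : ℕ} {σ L : Type} [Field L] (m0 : ℕ)
    (k : MvPolynomial (Fin (g + 2 + 1) ⊕ σ) L) : MvPolynomial (Fin (g + 2 + 1) ⊕ σ) L :=
  ∑ ε ∈ k.support.filter fun ε => m0 ≤ o2 ε, monomial ε (coeff ε k)

section van
variable {L σ : Type} [Field L] [Fintype σ] [DecidableEq σ] {B : Pkg L σ} {g : ℕ}

/-- `F` is killed by the functional `f` in the block `j`, as a function of the block `0` on the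
variety and whatever is done in the other blocks -/
def VanAt (B : Pkg L σ) {k : ℕ} (F : MvPolynomial (Fin (k + 1) × σ) L) (j : Fin (k + 1))
    (f : (σ →₀ ℕ) → L) : Prop :=
  ∀ (Ω : Type) [Field Ω] [Algebra L Ω] (x0 : σ → Ω) (T : Fin (k + 1) → (σ →₀ ℕ) → Ω), x0 ≠ 0 →
    Zr B.I x0 → (∀ γ, T 0 γ = mon x0 γ) → (∀ γ, T j γ = algebraMap L Ω (f γ)) → Tn L T F = 0

/-- a chart monomial at the difference `V - U` -/
noncomputable def lawQ (C : Chart B g) (a : Fin B.nl) (n : ℕ) (α : Fin g → Fin (n + 1)) :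
    MvPolynomial (σ ⊕ σ) L :=
  aeval (ev2 (B.A a) (fun s => (X (Sum.inl s) : MvPolynomial (σ ⊕ σ) L))
    fun s => X (Sum.inr (B.π s))) (om C n α)

/-- the functional `f` in the left variables, evaluation at `u` in the right ones -/
noncomputable def Yv {R : Type} [CommRing R] [Algebra L R] (Q : MvPolynomial (σ ⊕ σ) L)
    (f : (σ →₀ ℕ) → R) (u : σ → R) : R :=
  ∑ γ ∈ Q.support, coeff γ Q • (f (fl γ) * mon u (fr γ))

/-- the equations of step B for the block `j` -/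
def EqB (C : Chart B g) {k : ℕ} (d : ℕ) (κ : Fin (k + 1) → ℕ) (c : Idx g k 1 d κ → L)
    (j : Fin (k + 1)) (Kf : Fin (4 ^ (g * κ j)) → (σ →₀ ℕ) → L) : Prop :=
  ∀ (a : Fin B.nl) (ω : Idx g k 1 d κ) (R : Type) [CommRing R] [Algebra L R] (u : σ → R),
    Zr B.I u → ∑ l : Fin (4 ^ (g * κ j)), ∑ αj : Fin g → Fin (dd 1 d j + 1),
      ∑ α0 : Fin g → Fin (dd 1 d (0 : Fin (k + 1)) + 1),
      c (Function.update ω.1 j l, Function.update (Function.update ω.2 j αj) 0 α0) •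
        (aeval u (om C (dd 1 d (0 : Fin (k + 1))) α0) *
          Yv (lawQ C a (dd 1 d j) αj) (fun γ => algebraMap L R (Kf l γ)) u) = 0

end van

/-! ### tools -/

/-- calculus of sums over all places -/
def St_AD : Prop := ∀ (L : Type) [Field L] [NumberField L],
  (∀ (ι : Type) [Fintype ι] (x : ι → L), x ≠ 0 → Ad (fun v => sn v x) (Height.logHeight x)) ∧
  (∀ A : Finset L, Ad (fun v => hv v A) (hA A)) ∧
  (∀ a : L, a ≠ 0 → Ad (fun v => v a) 0) ∧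
  (∀ (f g : AbsoluteValue L ℝ → ℝ) (a b : ℝ), Ad f a → Ad g b → Ad (fun v => f v * g v) (a + b)) ∧
  (∀ (f : AbsoluteValue L ℝ → ℝ) (a : ℝ) (n : ℕ), Ad f a → Ad (fun v => f v ^ n) (n * a)) ∧
  (∀ (ι : Type) (s : Finset ι) (f : ι → AbsoluteValue L ℝ → ℝ) (a : ι → ℝ),
    (∀ i ∈ s, Ad (f i) (a i)) → Ad (fun v => ∏ i ∈ s, f i v) (∑ i ∈ s, a i)) ∧
  (∀ (f g : AbsoluteValue L ℝ → ℝ) (a b n0 : ℝ), Ad f a → Ad g b → 1 ≤ n0 →
    (∀ v, f v ≤ n0 * g v) → a ≤ b + Module.finrank ℚ L * Real.log n0) ∧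
  ∀ (τ : Type) (P : MvPolynomial τ L) (g : AbsoluteValue L ℝ → ℝ) (b n0 : ℝ), P ≠ 0 → Ad g b →
    1 ≤ n0 → (∀ v, l1 v P ≤ n0 * g v) → hP P ≤ b + Module.finrank ℚ L * Real.log n0

/-- series in separate blocks -/
def St_BLK : Prop := ∀ (κ ρ L : Type) [Fintype κ] [DecidableEq κ] [Fintype ρ] [Field L],
  (∀ i : κ, ∃ f : PS ρ L →ₐ[L] PS (κ × ρ) L, Function.Injective f ∧ (∀ p, f p = blk i p) ∧
    (∀ a, f (MvPowerSeries.X a) = MvPowerSeries.X (i, a)) ∧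
    ∀ p, MvPowerSeries.constantCoeff (f p) = MvPowerSeries.constantCoeff p) ∧
  ∀ (p : κ → PS ρ L) (J : κ × ρ →₀ ℕ), MvPowerSeries.coeff J (∏ i, blk i (p i)) =
    ∏ i, MvPowerSeries.coeff (J.curry i) (p i)

/-- calculus of `Tn` -/
def St_TN : Prop := ∀ (L κ σ R : Type) [Field L] [Fintype κ] [DecidableEq κ] [Fintype σ]
  [CommRing R] [Algebra L R],
  (∀ (T : κ → (σ →₀ ℕ) → R) (f : κ → MvPolynomial σ L),
    Tn L T (∏ i, rename (Prod.mk i) (f i)) = ∏ i, Ln L (T i) (f i)) ∧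
  (∀ (T : κ → (σ →₀ ℕ) → R) (s : κ → MvPolynomial σ L) (Dm : κ → (σ →₀ ℕ) → MvPolynomial σ L)
    (G : MvPolynomial (κ × σ) L), Tn L T ((∏ i, rename (Prod.mk i) (s i)) *
      Tn L (fun i γ => rename (Prod.mk i) (Dm i γ)) G) =
      Tn L (fun i γ => Ln L (T i) (s i * Dm i γ)) G) ∧
  (∀ (x : κ → σ → R) (F : MvPolynomial (κ × σ) L), evB x F = Tn L (fun i => mon (x i)) F) ∧
  (∀ (x : σ → R) (F : MvPolynomial σ L), aeval x F = Ln L (mon x) F) ∧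
  (∀ (R' : Type) [CommRing R'] [Algebra L R'] (f : R →ₐ[L] R') (T : κ → (σ →₀ ℕ) → R)
    (F : MvPolynomial (κ × σ) L), f (Tn L T F) = Tn L (fun i γ => f (T i γ)) F) ∧
  (∀ (T T' : κ → (σ →₀ ℕ) → R) (a : κ → R) (δ : κ → ℕ) (F : MvPolynomial (κ × σ) L), MH δ F →
    (∀ i γ, γ.degree = δ i → T i γ = a i * T' i γ) → Tn L T F = (∏ i, a i) * Tn L T' F) ∧
  (∀ (T : κ → (σ →₀ ℕ) → R) (j : κ) (ι : Type) (s : Finset ι) (f : ι → (σ →₀ ℕ) → R) (y : ι → R)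
    (F : MvPolynomial (κ × σ) L),
    Tn L (Function.update T j fun γ => ∑ ε ∈ s, f ε γ * y ε) F =
      ∑ ε ∈ s, Tn L (Function.update T j (f ε)) F * y ε) ∧
  ∀ (v : AbsoluteValue L ℝ) (Bd : R → ℝ → Prop), (∀ f a b, Bd f a → a ≤ b → Bd f b) →
    (∀ f f' a b, Bd f a → Bd f' b → Bd (f + f') (a + b)) →
    (∀ f f' a b, Bd f a → Bd f' b → 0 ≤ a → 0 ≤ b → Bd (f * f') (a * b)) →
    (∀ c : L, Bd (algebraMap L R c) (v c)) →
    ∀ (T : κ → (σ →₀ ℕ) → R) (b : κ → ℝ) (δ : κ → ℕ) (F : MvPolynomial (κ × σ) L), MH δ F →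
      (∀ i, 0 ≤ b i) → (∀ i γ, γ.degree = δ i → Bd (T i γ) (b i)) →
      Bd (Tn L T F) (l1 v F * ∏ i, b i)

/-- coefficients of `Tn` of series in separate blocks -/
def St_TNC : Prop := ∀ (L κ σ ρ : Type) [Field L] [Fintype κ] [DecidableEq κ] [Fintype σ]
  [Fintype ρ] (f : κ → (σ →₀ ℕ) → PS ρ L) (F : MvPolynomial (κ × σ) L) (J : κ × ρ →₀ ℕ),
  MvPowerSeries.coeff J (Tn L (fun i γ => blk i (f i γ)) F) =
    Tn L (fun i γ => MvPowerSeries.coeff (J.curry i) (f i γ)) F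

/-- `Tn` of the basic forms when the block `0` is an evaluation -/
def St_TNG : Prop := ∀ (L σ R : Type) [Field L] [Fintype σ] [DecidableEq σ] [CommRing R]
  [Algebra L R] (B : Pkg L σ) (g : ℕ) (C : Chart B g) (k T0 d : ℕ) (Λ : Fin (k + 1) → Fin B.nl)
  (α : ∀ i : Fin (k + 1), Fin g → Fin (dd T0 d i + 1)),
  MH (nn C k T0 d) (GU C T0 d Λ α) ∧
  (∀ (a : Fin B.nl) (n : ℕ) (α' : Fin g → Fin (n + 1)), ∀ γ ∈ (lawQ C a n α').support,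
    (fl γ).degree = B.β * (C.dg * (g * n)) ∧ (fr γ).degree = B.β * (C.dg * (g * n))) ∧
  ∀ (T : Fin (k + 1) → (σ →₀ ℕ) → R) (t : R) (u : σ → R),
    (∀ γ, γ.degree = nn C k T0 d 0 → T 0 γ = t * mon u γ) →
    Tn L T (GU C T0 d Λ α) = t * aeval u (om C (dd T0 d 0) (α 0)) *
      ∏ i ∈ Finset.univ.erase 0, Yv (lawQ C (Λ i) (dd T0 d i) (α i)) (T i) u

/-- growth of the branch -/
def St_HENB : Prop := ∀ m D1 : ℕ, ∃ c N : ℕ, 1 ≤ c ∧ 1 ≤ N ∧ ∀ (L : Type) [Field L] (P : ZT L m)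
  (A : Finset L) (z : Fin m → L) (t p : L) (η : PS (Fin m) L), SmQ D1 A P → IsBranch P z t η →
  evZT z t (Polynomial.derivative P) * p = 1 → ∀ v : AbsoluteValue L ℝ,
    Maj v ((c * hv v (bigA A z t p)) ^ N)⁻¹ η ((c * hv v (bigA A z t p)) ^ N)

/-- product lemma -/
def St_PL : Prop := ∀ (L : Type) [Field L] [NumberField L] (ι : Type) [Fintype ι] (s : ℝ), 0 < s →
  ∃ (ρ D0 : ℕ) (C : ℝ), 0 ≤ C ∧ ∀ (w : ι → ℕ) (x : ι → L) (Φ : MvPolynomial ι L) (S HH : ℝ),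
    (∀ a, 1 ≤ w a) → (∀ a b, w a < w b → ρ * w a ≤ w b) → Φ ≠ 0 → 0 < S →
    (∀ a, (w a * degreeOf a Φ : ℝ) ≤ S) → hP Φ ≤ HH →
    (∀ J, coeff J (aeval (fun a => X a + MvPolynomial.C (x a)) Φ : MvPolynomial ι L) ≠ 0 →
      s * S ≤ (Finsupp.weight w J : ℕ)) →
    ∃ (a0 : ι) (Q : MvPolynomial ι L), Q ≠ 0 ∧ (∀ a ∈ Q.vars, w a = w a0) ∧ Q.totalDegree ≤ D0 ∧
      aeval x Q = 0 ∧ hP Q * S ≤ C * w a0 * (HH + S)

/-- elimination of one integral variable -/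
def St_ELIM : Prop := ∀ (L ι S : Type) [Field L] [CharZero L] [CommRing S] [IsDomain S]
  [Algebra L S] (Φ P : Polynomial (MvPolynomial ι L)) (ev : MvPolynomial ι L →ₐ[L] S) (t : S)
  (b : ℕ), P.Monic → Φ.natDegree ≤ b → Polynomial.eval₂ ev.toRingHom t P = 0 →
  Polynomial.eval₂ ev.toRingHom t Φ ≠ 0 →
  ∃ (c : MvPolynomial ι L) (j : ℕ), j ≤ P.natDegree ∧ ev c ≠ 0 ∧
    Polynomial.eval₂ ev.toRingHom t Φ ∣ ev c ∧
    (∀ (a : ι) (dΦ dP : ℕ), (∀ l, degreeOf a (Φ.coeff l) ≤ dΦ) →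
      (∀ l, degreeOf a (P.coeff l) ≤ dP) → degreeOf a c ≤ P.natDegree * dΦ + b * dP) ∧
    ∀ (v : AbsoluteValue L ℝ) (nΦ nP : ℝ), 0 < nΦ → 1 ≤ nP → (∀ l, l1 v (Φ.coeff l) ≤ nΦ) →
      (∀ l, l1 v (P.coeff l) ≤ nP) →
      l1 v c ≤ (P.natDegree + b).factorial * 2 ^ P.natDegree * nΦ ^ j * nP ^ b

/-- iteration of the Nullstellensatz identity -/
def St_REDN : Prop := ∀ (L σ : Type) [Field L] [Fintype σ] (m e D r0 n : ℕ)
  (ξ : Fin (m + 1) → MvPolynomial σ L) (H : (σ →₀ ℕ) → Fin (m + 1) → MvPolynomial σ L),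
  e * D ≤ r0 ∨ n = 0 → (∀ ν j, ν.degree = e * (D + 1) → (H ν j).IsHomogeneous (e * D)) →
  ∃ K, IsRed ξ H e D r0 n K

/-- counting exponents -/
def St_CNB : Prop := ∀ (σ : Type) [Fintype σ],
  (∀ m n r0 : ℕ, ∃ s : Finset (Fin (m + 1) ⊕ σ →₀ ℕ),
    (∀ ε, ε ∈ s ↔ (fl ε).degree = n ∧ (fr ε).degree = r0) ∧
    s.card ≤ (n + 1) ^ m * (r0 + 1) ^ Fintype.card σ) ∧
  ∀ g n r0 m0 : ℕ, ∃ s : Finset (Fin (g + 2 + 1) ⊕ σ →₀ ℕ),
    (∀ ε, ε ∈ s ↔ (fl ε).degree = n ∧ (fr ε).degree = r0 ∧ o2 ε < m0) ∧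
    s.card ≤ m0 ^ 2 * (n + 1) ^ g * (r0 + 1) ^ Fintype.card σ

/-! ### step B -/

/-- heights of the parameters of a point -/
def St_HTZ : Prop := ∀ (L σ : Type) [Field L] [NumberField L] [Fintype σ] [DecidableEq σ]
  (B : Pkg L σ) (m e D D1 : ℕ), ∃ C : ℝ, 0 ≤ C ∧ ∀ V : Lv B m e D D1,
    Height.logHeight V.Z ≤ e * B.ht V.x + C * (hA V.A + 1) ∧
    hA V.A' ≤ C * (B.ht V.x + hA V.A + 1) ∧
    evZT V.z V.t (Polynomial.derivative V.W.P) * (evZT V.z V.t V.W.π' / aeval V.z V.W.Δ) = 1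

/-- the formal point and the reduced forms -/
def St_PHB : Prop := ∀ (L σ : Type) [Field L] [Fintype σ] [DecidableEq σ] (B : Pkg L σ)
  (m e D D1 : ℕ),
  (∀ V : Lv B m e D D1, Zr B.I V.X ∧ Uni V.X ∧
    (∀ a, MvPowerSeries.constantCoeff (V.X a) = evZT V.z V.t (V.W.φ a)) ∧
    MvPowerSeries.constantCoeff (V.ev V.W.θ) ≠ 0 ∧
    ∀ r0 n K, IsRed V.W.ξ V.W.H e D r0 n K → ∀ γ, γ.degree = r0 + e * n →
      mon V.X γ = V.ev V.W.θ ^ n * V.ev (phiOf V.W (K γ))) ∧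
  ∀ (K : ℕ) (V : Fin K → Lv B m e D D1), (∀ i q, evV V (toA i q) = blk i ((V i).ev q)) ∧
    ∀ (r0 n : Fin K → ℕ) (Kb : Fin K → (σ →₀ ℕ) → MvPolynomial (Fin (m + 1) ⊕ σ) L)
      (F : MvPolynomial (Fin K × σ) L),
      (∀ i, IsRed (V i).W.ξ (V i).W.H e D (r0 i) (n i) (Kb i)) → MH (fun i => r0 i + e * n i) F →
      evB (fun i a => blk i ((V i).X a)) F =
        (∏ i, blk i ((V i).ev (V i).W.θ) ^ n i) * evV V (GB V Kb F)

/-- degrees and norms of the reduced forms -/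
def St_APB : Prop := ∀ (σ : Type) [Fintype σ] [DecidableEq σ] (m D1 : ℕ), ∃ c : ℕ, 1 ≤ c ∧
  ∀ (L : Type) [Field L] (B : Pkg L σ) (e D : ℕ),
  (∀ (V : Lv B m e D D1) (r0 n : ℕ) (K : (σ →₀ ℕ) → MvPolynomial (Fin (m + 1) ⊕ σ) L),
    IsRed V.W.ξ V.W.H e D r0 n K → ∀ (v : AbsoluteValue L ℝ) ν, ν.degree = r0 + e * n →
      l1 v (K ν) ≤ (c * hv v V.A) ^ n) ∧
  ∀ (K : ℕ) (V : Fin K → Lv B m e D D1) (r0 n : Fin K → ℕ)
    (Kb : Fin K → (σ →₀ ℕ) → MvPolynomial (Fin (m + 1) ⊕ σ) L) (F : MvPolynomial (Fin K × σ) L),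
    (∀ i, IsRed (V i).W.ξ (V i).W.H e D (r0 i) (n i) (Kb i)) → MH (fun i => r0 i + e * n i) F →
    BD (fun i => n i + 2 * D1 * r0 i) (GB V Kb F) ∧ ∀ v : AbsoluteValue L ℝ,
      l1 v (GB V Kb F) ≤ l1 v F * ∏ i, (c * hv v (V i).A) ^ (n i + r0 i)

/-- coefficients of a form of high order in the first two variables -/
def St_TRM : Prop := ∀ (σ : Type) [Fintype σ] [DecidableEq σ] (g D1 : ℕ), ∃ c N : ℕ, 1 ≤ c ∧
  ∀ (L : Type) [Field L] (B : Pkg L σ) (e D : ℕ) (V : Lv B (g + 2) e D D1) (n r0 m0 : ℕ)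
    (k : MvPolynomial (Fin (g + 2 + 1) ⊕ σ) L) (J : Fin (g + 2) →₀ ℕ) (v : AbsoluteValue L ℝ),
    ![V.z 0, V.z 1] ≠ 0 →
    (∀ ε ∈ k.support, (fl ε).degree = n ∧ (fr ε).degree = r0 ∧ m0 ≤ o2 ε) →
    v (MvPowerSeries.coeff J (V.ev (phiOf V.W k))) * sn v ![V.z 0, V.z 1] ^ J.degree *
        sn v V.Z ^ m0 ≤
      l1 v k * 2 ^ n * sn v ![V.z 0, V.z 1] ^ m0 * sn v V.Z ^ (n + J.degree) *
        (c * hv v V.A') ^ (N * (J.degree + r0))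

/-- the low parts can be dropped -/
def St_HIB : Prop := ∀ (L σ : Type) [Field L] [Fintype σ] [DecidableEq σ] (B : Pkg L σ)
  (g e D D1 k : ℕ) (V : Fin (k + 1) → Lv B (g + 2) e D D1) (r0 n mm : Fin (k + 1) → ℕ)
  (Kb : Fin (k + 1) → (σ →₀ ℕ) → MvPolynomial (Fin (g + 2 + 1) ⊕ σ) L)
  (F : MvPolynomial (Fin (k + 1) × σ) L),
  (∀ i, IsRed (V i).W.ξ (V i).W.H e D (r0 i) (n i) (Kb i)) → MH (fun i => r0 i + e * n i) F →
  mm 0 = 0 →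
  (∀ j, j ≠ 0 → ∀ ε, (fl ε).degree = n j → (fr ε).degree = r0 j → o2 ε < mm j →
    VanAt B F j fun γ => coeff ε (Kb j γ)) →
  evV V (GB V Kb F) = Tn L (fun i γ => blk i ((V i).ev (phiOf (V i).W (hiP (mm i) (Kb i γ))))) F

/-- solution of the equations of step B; `b` does not depend on the number of blocks -/
def St_SIEB : Prop := ∀ (L σ : Type) [Field L] [NumberField L] [Fintype σ] [DecidableEq σ]
  (B : Pkg L σ) (g : ℕ), B.IsDim g → ∀ C : Chart B g, ∃ b : ℕ, ∀ (c2 : ℕ) (A2 : Finset L),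
  ∃ C8 : ℝ, 0 ≤ C8 ∧ ∀ (k d E : ℕ) (κ n : Fin (k + 1) → ℕ) (τ : Type)
    (Es : Fin (k + 1) → Finset τ)
    (Kf : ∀ j : Fin (k + 1), τ → Fin (4 ^ (g * κ j)) → (σ →₀ ℕ) → L)
    (A : Fin (k + 1) → Finset L), 1 ≤ c2 → 1 ≤ d →
    (∀ j, j ≠ 0 → ∀ ε l γ (v : AbsoluteValue L ℝ), γ.degree = nn C k 1 d j →
      v (Kf j ε l γ) ≤ (c2 * hv v A2) ^ E * hv v (A j) ^ n j) →
    (∀ j, j ≠ 0 → 2 * k * (Es j).card * (b * (b * d + 1) ^ g) ≤
      4 ^ (g * κ j) * (d + 1) ^ (2 * g)) →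
    ∃ c : Idx g k 1 d κ → L, c ≠ 0 ∧ Height.logHeight c ≤ C8 * (E + d + ∑ j, n j * hA (A j) +
        Real.log (Fintype.card (Idx g k 1 d κ)) + 1) ∧
      ∀ j, j ≠ 0 → ∀ ε ∈ Es j, EqB C d κ c j (Kf j ε)

/-- the equations give the vanishing for every choice of laws -/
def St_VANB : Prop := ∀ (L σ : Type) [Field L] [CharZero L] [Fintype σ] [DecidableEq σ]
  (B : Pkg L σ) (g : ℕ) (C : Chart B g) (k d : ℕ) (κ : Fin (k + 1) → ℕ)
  (s : ∀ i : Fin (k + 1), Fin (4 ^ (g * κ i)) → σ →₀ ℕ)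
  (Dm : Fin (k + 1) → (σ →₀ ℕ) → MvPolynomial σ L) (c : Idx g k 1 d κ → L) (j : Fin (k + 1))
  (f : (σ →₀ ℕ) → L), j ≠ 0 → IsMul B (κ 0) (nn C k 1 d 0) (Dm 0) →
  EqB C d κ c j (fun l γ => Ln L f (monomial (s j l) 1 * Dm j γ)) →
  ∀ Λ, VanAt B (∑ ω, c ω • eL C 1 d κ s Dm Λ ω) j f

/-- comparison of the expansions for different laws -/
def St_RELB : Prop := ∀ (L σ : Type) [Field L] [Fintype σ] [DecidableEq σ] (B : Pkg L σ) (g : ℕ)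
  (C : Chart B g) (k T d : ℕ) (κ : Fin (k + 1) → ℕ)
  (s : ∀ i : Fin (k + 1), Fin (4 ^ (g * κ i)) → σ →₀ ℕ)
  (Dm : Fin (k + 1) → (σ →₀ ℕ) → MvPolynomial σ L) (ρ : Type) (x : Fin (k + 1) → B.Pt L)
  (y : Fin (k + 1) → σ → PS ρ L), (∀ i, IsMul B (κ i) (nn C k T d i) (Dm i)) →
  (∀ i, Zr B.I (y i) ∧ B.Rep (x i) fun a => MvPowerSeries.constantCoeff (y i a)) →
  ∃ (u w : Fin (k + 1) → σ → L) (lam : Fin (k + 1) → Fin B.nl → PS ρ L),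
    (∀ i, B.Rep (2 ^ κ i • x i) (u i)) ∧ (∀ i, B.Rep (2 ^ κ i • x i - 2 ^ κ 0 • x 0) (w i)) ∧
    (∀ i a, ev2 (B.A a) (u i) (u 0 ∘ B.π) = MvPowerSeries.constantCoeff (lam i a) • w i) ∧
    ∀ (c : Idx g k T d κ → L) (Λ Λ' : Fin (k + 1) → Fin B.nl),
      evB y (∑ ω, c ω • eL C T d κ s Dm Λ ω) *
          ∏ i ∈ Finset.univ.erase 0, lam i (Λ' i) ^ (C.dg * (g * (T * d))) =
        evB y (∑ ω, c ω • eL C T d κ s Dm Λ' ω) *
          ∏ i ∈ Finset.univ.erase 0, lam i (Λ i) ^ (C.dg * (g * (T * d)))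

/-- choice of the best laws at each place -/
def St_UPB : Prop := ∀ (L σ : Type) [Field L] [NumberField L] [Fintype σ] [DecidableEq σ]
  (B : Pkg L σ), ∃ C9 : ℝ, 0 ≤ C9 ∧ ∀ (ι : Type) [Fintype ι] (s : Finset ι) (n1 : ℕ)
    (p q : ι → B.Pt L) (u u' w : ι → σ → L) (lam : ι → Fin B.nl → L) (Λ0 : ι → Fin B.nl)
    (α : (ι → Fin B.nl) → L) (f g : AbsoluteValue L ℝ → ℝ) (a b n0 : ℝ),
    (∀ i, B.Rep (p i) (u i) ∧ B.Rep (q i) (u' i) ∧ B.Rep (p i + q i) (w i)) →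
    (∀ i l, ev2 (B.A l) (u i) (u' i) = lam i l • w i) → (∀ i ∈ s, lam i (Λ0 i) ≠ 0) → α Λ0 ≠ 0 →
    (∀ Λ, α Λ * ∏ i ∈ s, lam i (Λ0 i) ^ n1 = α Λ0 * ∏ i ∈ s, lam i (Λ i) ^ n1) →
    Ad f a → Ad g b → 1 ≤ n0 → (∀ v Λ, v (α Λ) * f v ≤ n0 * g v) →
    ∑ i ∈ s, n1 * (B.β * B.ht (p i) + B.β * B.ht (q i) - B.ht (p i + q i)) + a ≤
      b + Module.finrank ℚ L * Real.log n0 + C9 * (s.card * n1)

/-- the auxiliary form does not vanish at the formal point -/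
def St_NZB : Prop := ∀ (L σ : Type) [Field L] [CharZero L] [Fintype σ] [DecidableEq σ]
  (B : Pkg L σ) (g : ℕ), B.IsDim g → ∀ (C : Chart B g) (e D D1 k T d : ℕ)
  (κ es δ : Fin (k + 1) → ℕ) (s : ∀ i : Fin (k + 1), Fin (4 ^ (g * κ i)) → σ →₀ ℕ)
  (Dm : Fin (k + 1) → (σ →₀ ℕ) → MvPolynomial σ L) (V : Fin (k + 1) → Lv B g e D D1)
  (Λ : Fin (k + 1) → Fin B.nl),
  (∀ i, IsMul B (κ i) (nn C k T d i) (Dm i)) → (∀ i γ, ∃ n, (Dm i γ).IsHomogeneous n) →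
  (∀ i, Sep B (κ i) _ (es i) (V i).x (s i)) → GoodL B κ (fun i => (V i).x) Λ →
  (∀ ω, MH δ (eL C T d κ s Dm Λ ω)) → ∀ c : Idx g k T d κ → L,
  evB (fun i a => blk i ((V i).X a)) (∑ ω, c ω • eL C T d κ s Dm Λ ω) = 0 → c = 0

/-- the main inequality of step B -/
def St_KEYB : Prop := ∀ (L σ : Type) [Field L] [NumberField L] [Fintype σ] [DecidableEq σ]
  (B : Pkg L σ) (g : ℕ) (C : Chart B (g + 2)) (e D D1 k c2 : ℕ) (A2 : Finset L),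
  ∃ C10 : ℝ, 0 ≤ C10 ∧ ∀ (d E : ℕ) (κ r0 n mm w : Fin (k + 1) → ℕ)
    (s : ∀ i : Fin (k + 1), Fin (4 ^ ((g + 2) * κ i)) → σ →₀ ℕ)
    (Dm : Fin (k + 1) → (σ →₀ ℕ) → MvPolynomial σ L) (V : Fin (k + 1) → Lv B (g + 2) e D D1)
    (Kb : Fin (k + 1) → (σ →₀ ℕ) → MvPolynomial (Fin (g + 2 + 1) ⊕ σ) L)
    (c : Idx (g + 2) k 1 d κ → L) (Λ : Fin (k + 1) → Fin B.nl)
    (J : Fin (k + 1) × Fin (g + 2) →₀ ℕ), 1 ≤ c2 → 1 ≤ e → c ≠ 0 → mm 0 = 0 →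
    (∀ i, r0 i ≤ e * (D + 1)) → (∀ i, ![(V i).z 0, (V i).z 1] ≠ 0) →
    (∀ i, IsMul B (κ i) (nn C k 1 d i) (Dm i)) → GoodL B κ (fun i => (V i).x) Λ →
    (∀ i, IsRed (V i).W.ξ (V i).W.H e D (r0 i) (n i) (Kb i)) →
    (∀ Λ' ω, MH (fun i => r0 i + e * n i) (eL C 1 d κ s Dm Λ' ω) ∧
      ∀ v : AbsoluteValue L ℝ, l1 v (eL C 1 d κ s Dm Λ' ω) ≤ (c2 * hv v A2) ^ E) →
    (∀ Λ' j, j ≠ 0 → ∀ ε, (fl ε).degree = n j → (fr ε).degree = r0 j → o2 ε < mm j →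
      VanAt B (∑ ω, c ω • eL C 1 d κ s Dm Λ' ω) j fun γ => coeff ε (Kb j γ)) →
    MvPowerSeries.coeff J (evV V (GB V Kb (∑ ω, c ω • eL C 1 d κ s Dm Λ ω))) ≠ 0 →
    (∀ J', wt w J' < wt w J →
      MvPowerSeries.coeff J' (evV V (GB V Kb (∑ ω, c ω • eL C 1 d κ s Dm Λ ω))) = 0) →
    (∀ i, 1 ≤ w i) →
    ∑ i, mm i * (Height.logHeight (V i).Z - Height.logHeight ![(V i).z 0, (V i).z 1]) +
      ∑ i ∈ Finset.univ.erase 0, (C.dg * ((g + 2) * (1 * d)) : ℕ) *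
        (B.β * B.ht (2 ^ κ i • (V i).x) + B.β * B.ht (2 ^ κ 0 • (V 0).x) -
          B.ht (2 ^ κ i • (V i).x - 2 ^ κ 0 • (V 0).x)) ≤
      Height.logHeight c + ∑ i, (e * n i : ℕ) * B.ht (V i).x +
        C10 * (E + d + Real.log (Fintype.card (Idx (g + 2) k 1 d κ)) +
          ∑ i, n i * (hA (V i).A + 1) +
          ∑ i, ((J.curry i).degree + 1) * (B.ht (V i).x + hA (V i).A + 1))

/-- step B for one tuple of points -/
def St_EBF : Prop := ∀ (L σ : Type) [Field L] [NumberField L] [Fintype σ] [DecidableEq σ]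
  (B : Pkg L σ) (g : ℕ), B.IsDim (g + 2) → ∀ (C : Chart B (g + 2)) (e D D1 : ℕ) (η C1 : ℝ),
  1 ≤ e → 0 < η → 1 ≤ C1 → ∃ (k ρ D0 : ℕ) (θ : ℝ), 0 < θ ∧ ∀ c0 : ℝ, 0 < c0 →
  ∃ ε H0 : ℝ, 0 < ε ∧ ∀ (V : Fin (k + 1) → Lv B (g + 2) e D D1) (κ : Fin (k + 1) → ℕ),
    (∀ i, H0 ≤ B.ht (V i).x) → (∀ i, hA (V i).A ≤ ε * B.ht (V i).x) →
    (∀ i (Q : MvPolynomial (Fin (g + 2)) L), Q ≠ 0 → Q.totalDegree ≤ D0 → aeval (V i).z Q = 0 →
      c0 * B.ht (V i).x ≤ hP Q) →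
    (∀ i j, i < j → ρ * 4 ^ κ j ≤ 4 ^ κ i) →
    (∀ i, B.ht (2 ^ κ i • (V i).x - 2 ^ κ 0 • (V 0).x) ≤ θ * (4 ^ κ 0 * B.ht (V 0).x) ∧
      4 ^ κ 0 * B.ht (V 0).x ≤ C1 * (4 ^ κ i * B.ht (V i).x) ∧
      4 ^ κ i * B.ht (V i).x ≤ C1 * (4 ^ κ 0 * B.ht (V 0).x)) →
    ∃ i, Height.logHeight (V i).Z ≤
      Height.logHeight ![(V i).z 0, (V i).z 1] + η * B.ht (V i).x

/-- step B, with a chart -/
def St_EB2 : Prop := ∀ (L σ : Type) [Field L] [NumberField L] [Fintype σ] [DecidableEq σ]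
  (B : Pkg L σ) (g : ℕ), B.IsDim (g + 2) → ∀ (C : Chart B (g + 2)) (S : Seq B (g + 2)) (ε : ℝ),
  0 < ε → ∀ᶠ n in S.U, Height.logHeight (Fin.snoc (α := fun _ => L) (S.z n) 1) ≤
    Height.logHeight ![S.z n 0, S.z n 1] + ε * B.ht (S.x n)

end D4C
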