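import Pool.Agent.Lib.D4C.B_STR2
import Pool.Agent.Lib.D4C.B_SM
import Pool.Agent.Lib.D4C.B_DATA
import Pool.Agent.Lib.D4C.B_LOC
import Pool.Agent.Lib.D4C.BlueE

/-! step B in the ultrapower -/

namespace D4C

open MvPolynomial Filter

namespace T24

variable {L σ : Type} [Field L] [NumberField L] [Fintype σ] [DecidableEq σ]

omit [DecidableEq σ] in
theorem loc_eq {k Ω : Type} [Field k] [Field Ω] [Algebra k Ω] {q : Ideal (MvPolynomial σ k)}
    {x : σ → Ω} (hq : IsHom q) (h : PGen q x) : loc k x = q := by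
  obtain ⟨h1, -, h2, -⟩ := st_LOC k σ Ω x h.1
  exact le_antisymm
    (T48.le_of_hom h1 fun F n hF hm => (h.2 F n hF).mp ((h2.2 F n hF).mpr hm))
    (T48.le_of_hom hq fun F n hF hm => (h2.2 F n hF).mp ((h.2 F n hF).mpr hm))

omit [Fintype σ] [DecidableEq σ] in
theorem hsop_ne {k Ω : Type} [Field k] [Field Ω] [Algebra k Ω] {q : Ideal (MvPolynomial σ k)}
    {x : σ → Ω} (hq : q.IsPrime) (h : PGen q x) {m e D : ℕ}
    {ξ : Fin (m + 1) → MvPolynomial σ k} (hξ : Hsop q m e D ξ) (j : Fin (m + 1)) :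
    aeval x (ξ j) ≠ 0 := fun h0 => by
  have : Nontrivial (MvPolynomial σ k ⧸ q) := Ideal.Quotient.nontrivial_iff.mpr hq.ne_top
  exact hξ.ind.ne_zero j (Ideal.Quotient.eq_zero_iff_mem.mpr ((h.2 _ _ (hξ.hom j)).mp h0))

theorem core (hS : St_SEQ) (B : Pkg L σ) (m : ℕ) (U : Ultrafilter ℕ) (x : ℕ → B.Pt L)
    (hx : Tendsto (fun n => B.ht (x n)) U atTop) (xs : σ → Ul U L) (hxs : UlRep B U x xs)
    (hp : PGen (ext B.I (sm U L fun n => B.ht (x n))) xs) (e D : ℕ)
    (ξ : Fin (m + 1) → MvPolynomial σ (sm U L fun n => B.ht (x n)))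
    (hξ : Hsop (ext B.I (sm U L fun n => B.ht (x n))) m e D ξ) :
    ∃ (S : Seq B m) (w : ℕ → L), S.U = U ∧ S.x = x ∧ (∀ᶠ n in U, w n ≠ 0) ∧
      (∀ j, aeval xs (ξ j) = toU U fun n => (w n • Fin.snoc (α := fun _ => L) (S.z n) 1) j) ∧
      Lo U (fun n => B.ht (x n))
        fun n => e * B.ht (x n) - Height.logHeight (Fin.snoc (α := fun _ => L) (S.z n) 1) := by
  have hq := loc_eq B.hom.ext hp
  obtain ⟨W, rfl, h1, h2, h3, h4⟩ := st_DATA _ σ _ m e D ξ (B.gprime _) B.hom.ext hξ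
  obtain ⟨S, V, hU, hX, -, -, h5, h6, -⟩ := hS L σ B U x hx xs hxs m e D W
    (by rw [hq]; exact ⟨hξ, h1, h2, h3, h4⟩)
  obtain ⟨w, hw⟩ := T20.toU_surj (aeval xs (W.ξ (Fin.last m)))
  have hw0 : ∀ᶠ n in U, w n ≠ 0 := T20.toU_ne.mp (hw ▸ h5)
  have hb (j) : aeval xs (W.ξ j) =
      toU U fun n => (w n • Fin.snoc (α := fun _ => L) (S.z n) 1) j := by
    refine Fin.lastCases ?_ (fun j => ?_) j
    · rw [← hw]; congr 1; funext n; simp
    · rw [h6, ← hw, ← map_mul]; congr 1; funext n; simp [mul_comm]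
  refine ⟨S, w, hU, hX, hw0, hb, ?_⟩
  obtain ⟨y, hy, rfl⟩ := hxs
  choose Γ hΓ hΓ' using fun s : σ => hξ.ns (Finsupp.single s (e * (D + 1)))
    (Finsupp.degree_single _ _)
  have key := st_BILU U L _ hx σ σ (Fin (m + 1)) (e * D) Γ y
    (fun n => w n • Fin.snoc (α := fun _ => L) (S.z n) 1) (fun n => y n ^ (e * (D + 1))) hΓ hp.1
    fun s => by
      have h7 := (hp.2 _ (e * (D + 1)) ((isHomogeneous_monomial _ (Finsupp.degree_single _ _)).sub
        (IsHomogeneous.sum _ _ _ fun j _ => by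
          rw [mul_add, mul_one, add_comm]; exact (hξ.hom j).mul (hΓ s j)))).mpr (hΓ' s)
      rw [map_sub, sub_eq_zero, ← X_pow_eq_monomial, map_pow, aeval_X, map_sum, ← map_pow] at h7
      refine h7.trans (Finset.sum_congr rfl fun j _ => ?_)
      rw [map_mul, hb, mul_comm]
  refine T20.lo_mono key ((hy.and hw0).mono fun n hn => ?_)
  rw [Height.logHeight_pow, Height.logHeight_smul_eq_logHeight _ hn.2, hn.1.ht]
  push_cast
  linarith

end T24

theorem st_EBU2 (hS : St_SEQ) (hE : St_EB2) : St_EBU2 := by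
  intro L σ _ _ _ _ B g hg C U x hx xs hxs hp e D ξ hξ a h0 h1
  refine ⟨T24.hsop_ne (B.gprime _) hp hξ 0, ?_⟩
  obtain ⟨S, w, rfl, rfl, hw, hb, key⟩ := T24.core hS B (g + 1) U x hx xs hxs hp e D ξ hξ
  have h2 := (T20.toU_eq.mp (h0.trans (hb 0))).and (T20.toU_eq.mp (h1.trans (hb 1)))
  cases g with
  | zero =>
    refine T20.lo_mono key ((h2.and hw).mono fun n hn => ?_)
    have : a n = w n • Fin.snoc (α := fun _ => L) (S.z n) 1 := by
      funext j
      fin_cases j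
      · exact hn.1.1
      · exact hn.1.2
    rw [this, Height.logHeight_smul_eq_logHeight _ hn.2]
  | succ g =>
    have h3 : Lo S.U (fun n => B.ht (S.x n)) fun n =>
        Height.logHeight (Fin.snoc (α := fun _ => L) (S.z n) 1) -
          Height.logHeight ![S.z n 0, S.z n 1] := fun ε hε =>
      (hE L σ B g hg C S ε hε).mono fun n hn => by linarith
    refine T20.lo_mono (T20.lo_add key h3) ((h2.and hw).mono fun n hn => ?_)
    have : a n = w n • ![S.z n 0, S.z n 1] := by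
      funext j
      fin_cases j
      · exact hn.1.1
      · exact hn.1.2
    rw [this, Height.logHeight_smul_eq_logHeight _ hn.2]
    linarith

end D4C
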