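import Pool.Agent.Lib.D4C.B_CHART

/-! l1 norms of polynomials, majorants of substitutions. -/

namespace D4C

open MvPolynomial

namespace T83

variable {L τ : Type} [Field L] (v : AbsoluteValue L ℝ)

theorem sum_le_l1 (F : MvPolynomial τ L) (s : Finset (τ →₀ ℕ)) :
    ∑ d ∈ s, v (coeff d F) ≤ l1 v F := by
  classical
  rw [← Finset.sum_filter_of_ne (p := fun d => d ∈ F.support)
    fun d _ h => mem_support_iff.2 fun e => h (by rw [e, map_zero])]
  exact Finset.sum_le_sum_of_subset_of_nonneg (fun d h => (Finset.mem_filter.1 h).2)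
    fun _ _ _ => v.nonneg _

theorem l1_nonneg (F : MvPolynomial τ L) : 0 ≤ l1 v F := Finset.sum_nonneg fun _ _ => v.nonneg _

theorem mj_l1 (F : MvPolynomial τ L) : Mj v 1 (F : MvPowerSeries τ L) (l1 v F) := fun s => by
  simpa using sum_le_l1 v F s

theorem l1_le {F : MvPolynomial τ L} {a : ℝ} (h : Mj v 1 (F : MvPowerSeries τ L) a) :
    l1 v F ≤ a := by simpa [l1] using h F.support

theorem l1_add (F G : MvPolynomial τ L) : l1 v (F + G) ≤ l1 v F + l1 v G :=
  l1_le v (coe_add F G ▸ (mj_l1 v F).add zero_le_one v.add_le (mj_l1 v G))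

theorem l1_mul (F G : MvPolynomial τ L) : l1 v (F * G) ≤ l1 v F * l1 v G :=
  l1_le v (coe_mul F G ▸ (mj_l1 v F).vmul zero_le_one (mj_l1 v G))

theorem l1_zero : l1 v (0 : MvPolynomial τ L) = 0 := by simp [l1]

theorem l1_monomial (d : τ →₀ ℕ) (c : L) : l1 v (monomial d c) = v c := by
  classical
  by_cases h : c = 0 <;> simp [l1, support_monomial, h]

theorem l1_sum {ι : Type} (s : Finset ι) (F : ι → MvPolynomial τ L) :
    l1 v (∑ i ∈ s, F i) ≤ ∑ i ∈ s, l1 v (F i) :=
  Finset.le_sum_of_subadditive (l1 v) (l1_zero v).le (l1_add v) s F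

theorem l1_le_card {F : MvPolynomial τ L} {A : Finset L} (h : ∀ d ∈ F.support, coeff d F ∈ A) :
    l1 v F ≤ F.support.card * hv v A := by
  rw [← nsmul_eq_mul]
  exact Finset.sum_le_card_nsmul _ _ _ fun d hd => le_hv v (h d hd)

theorem l1_rename {τ' : Type} (f : τ → τ') (F : MvPolynomial τ L) :
    l1 v (rename f F) ≤ l1 v F := by
  conv_lhs => rw [F.as_sum, map_sum]
  refine (l1_sum v _ _).trans_eq (Finset.sum_congr rfl fun d _ => ?_)
  rw [rename_monomial, l1_monomial]

theorem card_support_le [Fintype τ] {F : MvPolynomial τ L} {D : ℕ} (h : ∀ d ∈ F.support, ∀ i, d i ≤ D) :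
    F.support.card ≤ (D + 1) ^ Fintype.card τ := by
  classical
  refine (Finset.card_le_card_of_injOn (t := Fintype.piFinset fun _ : τ => Finset.range (D + 1))
    (fun d : τ →₀ ℕ => ⇑d) (fun d hd => ?_) fun _ _ _ _ e => DFunLike.coe_injective e).trans_eq (by simp)
  simpa [Nat.lt_succ_iff] using h d hd

theorem l1_smp [Fintype τ] {D1 : ℕ} {A : Finset L} {F : MvPolynomial τ L} (h : SmP D1 A F) :
    l1 v F ≤ (D1 + 1) ^ Fintype.card τ * hv v A := by
  refine (l1_le_card v fun d hd => (h.2 d).resolve_left (mem_support_iff.1 hd)).trans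
    (mul_le_mul_of_nonneg_right ?_ (zero_le_one.trans (one_le_hv v A)))
  exact_mod_cast card_support_le fun d hd i =>
    ((monomial_le_degreeOf i hd).trans (degreeOf_le_totalDegree F i)).trans h.1

variable {v}

/-- majorant of a substitution -/
theorem mj_subst {ρ : Type} {r r' M : ℝ} (hr : 0 ≤ r) {a : τ → MvPowerSeries ρ L}
    (ha : MvPowerSeries.HasSubst a) (hm : ∀ b, Mj v r (a b) r') {f : MvPowerSeries τ L}
    (hf : Mj v r' f M) : Mj v r (MvPowerSeries.subst a f) M := fun s => by
  classical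
  let T := s.biUnion fun d => (MvPowerSeries.coeff_subst_finite ha f d).toFinset
  have pr : ∀ (J : τ →₀ ℕ) (S : Finset τ), Mj v r (∏ b ∈ S, a b ^ J b) (r' ^ ∑ b ∈ S, J b) :=
    fun J S => by
      induction S using Finset.induction_on with
      | empty => simpa using (Mj.pow hr (f := (0 : MvPowerSeries ρ L)) (a := 0) (v := v)
          (fun s => by simp) 0)
      | insert b S hb ih =>
        rw [Finset.prod_insert hb, Finset.sum_insert hb, pow_add]
        exact ((hm b).pow hr _).vmul hr ih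
  have h1 := mj_sum hr T fun J _ => (mj_monomial hr v.nonneg v.map_zero 0
    (MvPowerSeries.coeff J f)).vmul hr (pr J J.support)
  refine le_trans (le_of_eq (Finset.sum_congr rfl fun d hd => ?_)) ((h1 s).trans
    (le_trans (le_of_eq (Finset.sum_congr rfl fun J _ => by simp [Finsupp.degree_apply])) (hf T)))
  rw [MvPowerSeries.coeff_subst ha, finsum_eq_sum_of_support_subset _ (s := T) fun J hJ =>
    Finset.mem_coe.2 (Finset.mem_biUnion.2 ⟨d, hd, (Set.Finite.mem_toFinset _).2 hJ⟩),
    map_sum (MvPowerSeries.coeff d)]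
  simp [Finsupp.prod]

theorem geom_sum_le [Fintype τ] {q : ℝ} (h0 : 0 ≤ q) (h1 : q ≤ 1 / 2) (s : Finset (τ →₀ ℕ)) :
    ∑ J ∈ s, q ^ J.degree ≤ 2 ^ Fintype.card τ := by
  classical
  let N := s.sup Finsupp.degree + 1
  calc ∑ J ∈ s, q ^ J.degree = ∑ J ∈ s.image (fun J : τ →₀ ℕ => ⇑J), ∏ b, q ^ J b := by
        rw [Finset.sum_image DFunLike.coe_injective.injOn]
        exact Finset.sum_congr rfl fun J _ => by
          rw [Finsupp.degree_eq_sum, Finset.prod_pow_eq_pow_sum]
    _ ≤ ∑ J ∈ Fintype.piFinset fun _ : τ => Finset.range N, ∏ b, q ^ J b := by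
        refine Finset.sum_le_sum_of_subset_of_nonneg (fun J hJ => ?_) fun _ _ _ => by positivity
        obtain ⟨J, hJ', rfl⟩ := Finset.mem_image.1 hJ
        exact Fintype.mem_piFinset.2 fun b => Finset.mem_range.2 (Nat.lt_succ_of_le
          ((Finsupp.le_degree b J).trans (Finset.le_sup (f := Finsupp.degree) hJ')))
    _ = ∏ _b : τ, ∑ k ∈ Finset.range N, q ^ k := (Finset.prod_univ_sum _ _).symm
    _ ≤ 2 ^ Fintype.card τ := by
        rw [Finset.prod_const, Finset.card_univ]
        refine pow_le_pow_left₀ (by positivity) (le_trans (Finset.sum_le_sum fun k _ =>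
          pow_le_pow_left₀ h0 h1 k) (sum_geometric_two_le N)) _

end T83

end D4C
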