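import Pool.Agent.Lib.D4C.BlueE
import Pool.Agent.Lib.D4C.T83L1

/-! Elimination of one integral variable by the resultant with `Y - Φ`. -/

namespace D4C

open MvPolynomial

namespace T54E

section det

variable {D : Type} [CommRing D]

theorem prod_filt (Q : D → ℕ → Prop) (h1 : Q 1 0)
    (hm : ∀ f g a b, Q f a → Q g b → Q (f * g) (a + b)) {α : Type} (s : Finset α) (f : α → D)
    (t : α → ℕ) (h : ∀ i, Q (f i) (t i)) : Q (∏ i ∈ s, f i) (∑ i ∈ s, t i) := by
  classical
  induction s using Finset.induction_on with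
  | empty => simpa using h1
  | insert a s ha ih =>
    rw [Finset.prod_insert ha, Finset.sum_insert ha]
    exact hm _ _ _ _ (h a) ih

theorem det_filt (Q : D → ℕ → Prop) (h0 : ∀ a, Q 0 a) (h1 : Q 1 0)
    (hm : ∀ f g a b, Q f a → Q g b → Q (f * g) (a + b))
    (ha : ∀ f g a, Q f a → Q g a → Q (f + g) a) (hn : ∀ f a, Q f a → Q (-f) a)
    {k : ℕ} (M : Matrix (Fin k) (Fin k) D) (t : Fin k → ℕ) (h : ∀ i j, Q (M i j) (t j)) :
    Q M.det (∑ i, t i) := by
  rw [Matrix.det_apply]
  refine Finset.sum_induction _ (fun f => Q f (∑ i, t i)) (fun f g => ha f g _) (h0 _)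
    fun σ _ => ?_
  have h2 := prod_filt Q h1 hm Finset.univ (fun i => M (σ i) i) t fun i => h _ _
  rcases Int.units_eq_one_or (Equiv.Perm.sign σ) with h3 | h3 <;> rw [h3]
  · simpa using h2
  · simpa using hn _ _ h2

theorem sylv {β : Type} (Q : D → β → Prop) (f g : Polynomial D) (p q : ℕ) (a b : β)
    (h0 : Q 0 a) (h0' : Q 0 b) (hg : ∀ k, Q (g.coeff k) a) (hf : ∀ k, Q (f.coeff k) b)
    (i j : Fin (p + q)) :
    Q (Polynomial.sylvester f g p q i j)
      (Fin.addCases (motive := fun _ => β) (fun _ => a) (fun _ => b) j) := by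
  induction j using Fin.addCases with
  | left j =>
    simp only [Polynomial.sylvester, Matrix.of_apply, Fin.addCases_left]
    split_ifs
    · exact hg _
    · exact h0
  | right j =>
    simp only [Polynomial.sylvester, Matrix.of_apply, Fin.addCases_right]
    split_ifs
    · exact hf _
    · exact h0'

theorem res_filt (Q : D → ℕ → Prop) (h0 : ∀ a, Q 0 a) (h1 : Q 1 0)
    (hm : ∀ f g a b, Q f a → Q g b → Q (f * g) (a + b))
    (ha : ∀ f g a, Q f a → Q g a → Q (f + g) a) (hn : ∀ f a, Q f a → Q (-f) a)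
    (f g : Polynomial D) (p q a b : ℕ) (hg : ∀ k, Q (g.coeff k) a) (hf : ∀ k, Q (f.coeff k) b) :
    Q (f.resultant g p q) (p * a + q * b) := by
  have := det_filt Q h0 h1 hm ha hn _ _ (sylv Q f g p q a b (h0 _) (h0 _) hg hf)
  simpa [Fin.sum_univ_add, Polynomial.resultant] using this

end det

variable {L ι : Type} [Field L] (v : AbsoluteValue L ℝ) {x : ℝ}

/-- weighted norm on polynomials in one more variable -/
noncomputable def Nm (x : ℝ) (F : Polynomial (MvPolynomial ι L)) : ℝ :=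
  ∑ r ∈ F.support, l1 v (F.coeff r) * x ^ r

theorem Nm_eq (F : Polynomial (MvPolynomial ι L)) {s : Finset ℕ} (h : F.support ⊆ s) :
    Nm v x F = ∑ r ∈ s, l1 v (F.coeff r) * x ^ r :=
  Finset.sum_subset h fun r _ hr => by
    rw [Polynomial.notMem_support_iff.1 hr, T83.l1_zero, zero_mul]

theorem Nm_zero : Nm v x (0 : Polynomial (MvPolynomial ι L)) = 0 := by simp [Nm]

theorem Nm_nonneg (hx : 0 ≤ x) (F : Polynomial (MvPolynomial ι L)) : 0 ≤ Nm v x F :=
  Finset.sum_nonneg fun _ _ => mul_nonneg (T83.l1_nonneg v _) (pow_nonneg hx _)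

theorem Nm_add (hx : 0 ≤ x) (F G : Polynomial (MvPolynomial ι L)) :
    Nm v x (F + G) ≤ Nm v x F + Nm v x G := by
  rw [Nm_eq v (F + G) (s := F.support ∪ G.support) Polynomial.support_add,
    Nm_eq v F (s := F.support ∪ G.support) Finset.subset_union_left,
    Nm_eq v G (s := F.support ∪ G.support) Finset.subset_union_right, ← Finset.sum_add_distrib]
  refine Finset.sum_le_sum fun r _ => ?_
  rw [Polynomial.coeff_add, ← add_mul]
  exact mul_le_mul_of_nonneg_right (T83.l1_add v _ _) (pow_nonneg hx _)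

theorem Nm_sum (hx : 0 ≤ x) {α : Type} (s : Finset α) (F : α → Polynomial (MvPolynomial ι L)) :
    Nm v x (∑ i ∈ s, F i) ≤ ∑ i ∈ s, Nm v x (F i) :=
  Finset.le_sum_of_subadditive (Nm v x) (Nm_zero v).le (Nm_add v hx) s F

theorem Nm_mono (k : ℕ) (a : MvPolynomial ι L) :
    Nm v x (Polynomial.monomial k a) = l1 v a * x ^ k := by
  rw [Nm_eq v _ (Polynomial.support_monomial_subset k a), Finset.sum_singleton,
    Polynomial.coeff_monomial_same]

theorem l1_neg (a : MvPolynomial ι L) : l1 v (-a) = l1 v a := by simp [l1]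

theorem l1_one : l1 v (1 : MvPolynomial ι L) = 1 :=
  (T83.l1_monomial v (0 : ι →₀ ℕ) (1 : L)).trans v.map_one

theorem Nm_neg (F : Polynomial (MvPolynomial ι L)) : Nm v x (-F) = Nm v x F := by
  simp [Nm, l1_neg]

theorem Nm_mul (hx : 0 ≤ x) (F G : Polynomial (MvPolynomial ι L)) :
    Nm v x (F * G) ≤ Nm v x F * Nm v x G := by
  rw [Polynomial.mul_eq_sum_sum]
  conv_rhs => rw [Nm, Nm, Finset.sum_mul_sum]
  refine (Nm_sum v hx _ _).trans (Finset.sum_le_sum fun i _ => ?_)
  rw [Polynomial.sum_def]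
  refine (Nm_sum v hx _ _).trans (Finset.sum_le_sum fun j _ => ?_)
  rw [Nm_mono, pow_add, mul_mul_mul_comm]
  exact mul_le_mul_of_nonneg_right (T83.l1_mul v _ _) (mul_nonneg (pow_nonneg hx _) (pow_nonneg hx _))

theorem Nm_one : Nm v x (1 : Polynomial (MvPolynomial ι L)) = 1 := by
  rw [← Polynomial.monomial_zero_one, Nm_mono, l1_one, pow_zero, one_mul]

theorem coeff_le_Nm (hx : 0 ≤ x) (F : Polynomial (MvPolynomial ι L)) (r : ℕ) :
    l1 v (F.coeff r) * x ^ r ≤ Nm v x F := by
  rw [Nm_eq v F (s := insert r F.support) (Finset.subset_insert _ _)]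
  exact Finset.single_le_sum (f := fun r => l1 v (F.coeff r) * x ^ r)
    (fun _ _ => mul_nonneg (T83.l1_nonneg v _) (pow_nonneg hx _)) (Finset.mem_insert_self _ _)

theorem Nm_prod (hx : 0 ≤ x) {α : Type} (s : Finset α) (F : α → Polynomial (MvPolynomial ι L))
    (w : α → ℝ) (h : ∀ i, Nm v x (F i) ≤ w i) : Nm v x (∏ i ∈ s, F i) ≤ ∏ i ∈ s, w i := by
  classical
  induction s using Finset.induction_on with
  | empty => simp [Nm_one]
  | insert a s ha ih =>
    rw [Finset.prod_insert ha, Finset.prod_insert ha]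
    exact (Nm_mul v hx _ _).trans
      (mul_le_mul (h a) ih (Nm_nonneg v hx _) ((Nm_nonneg v hx _).trans (h a)))

theorem Nm_res (hx : 0 ≤ x) (f g : Polynomial (Polynomial (MvPolynomial ι L))) (p q : ℕ)
    {a b : ℝ} (hg : ∀ k, Nm v x (g.coeff k) ≤ a) (hf : ∀ k, Nm v x (f.coeff k) ≤ b) :
    Nm v x (f.resultant g p q) ≤ (p + q).factorial * (a ^ p * b ^ q) := by
  have a0 : 0 ≤ a := (Nm_nonneg v hx _).trans (hg 0)
  have b0 : 0 ≤ b := (Nm_nonneg v hx _).trans (hf 0)
  have h := sylv (fun F w => Nm v x F ≤ w) f g p q a b ((Nm_zero v).trans_le a0)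
    ((Nm_zero v).trans_le b0) hg hf
  rw [Polynomial.resultant, Matrix.det_apply]
  refine (Nm_sum v hx _ _).trans ?_
  refine (Finset.sum_le_card_nsmul _ _ (a ^ p * b ^ q) fun σ _ => ?_).trans_eq ?_
  · have h2 := Nm_prod v hx Finset.univ (fun i => Polynomial.sylvester f g p q (σ i) i) _
      fun i => h (σ i) i
    simp only [Fin.prod_univ_add, Fin.addCases_left, Fin.addCases_right, Finset.prod_const,
      Finset.card_univ, Fintype.card_fin] at h2
    rw [← Fin.prod_univ_add fun i => Polynomial.sylvester f g p q (σ i) i] at h2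
    rcases Int.units_eq_one_or (Equiv.Perm.sign σ) with h3 | h3 <;> rw [h3]
    · simpa using h2
    · simpa [Nm_neg] using h2
  · rw [Finset.card_univ, Fintype.card_perm, Fintype.card_fin, nsmul_eq_mul]

section chi

variable {A : Type} [CommRing A]

/-- the polynomial `Y - Φ` -/
noncomputable def gY (Φ : Polynomial A) : Polynomial (Polynomial A) :=
  Polynomial.C Polynomial.X - Φ.map Polynomial.C

/-- the resultant of `P` and `Y - Φ` -/
noncomputable def chi (P Φ : Polynomial A) (b : ℕ) : Polynomial A :=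
  (P.map Polynomial.C).resultant (gY Φ) P.natDegree b

theorem gY_coeff (Φ : Polynomial A) (k : ℕ) :
    (gY Φ).coeff k = (if k = 0 then Polynomial.X else 0) - Polynomial.C (Φ.coeff k) := by
  rw [gY, Polynomial.coeff_sub, Polynomial.coeff_C, Polynomial.coeff_map]

theorem eval_chi {S : Type} [CommRing S] (e : A →+* S) (y : S) (P Φ : Polynomial A) (b : ℕ) :
    ((chi P Φ b).map e).eval y =
      (P.map e).resultant (Polynomial.C y - Φ.map e) P.natDegree b := by
  have hc : (Polynomial.eval₂RingHom e y).comp Polynomial.C = e := RingHom.ext fun a => by simp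
  rw [Polynomial.eval_map, ← Polynomial.coe_eval₂RingHom, chi, ← Polynomial.resultant_map_map, gY,
    Polynomial.map_sub, Polynomial.map_map, Polynomial.map_map, hc, Polynomial.map_C,
    Polynomial.coe_eval₂RingHom, Polynomial.eval₂_X]

theorem deg_sub {S : Type} [CommRing S] (e : A →+* S) (y : S) {Φ : Polynomial A} {b : ℕ}
    (h : Φ.natDegree ≤ b) : (Polynomial.C y - Φ.map e).natDegree ≤ b :=
  (Polynomial.natDegree_sub_le _ _).trans
    (max_le (by simp) (Polynomial.natDegree_map_le.trans h))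

theorem chi_root {S : Type} [CommRing S] [Nontrivial S] (e : A →+* S) (t : S) {P Φ : Polynomial A}
    {b : ℕ} (hP : P.Monic) (hb : Φ.natDegree ≤ b) (ht : P.eval₂ e t = 0) :
    ((chi P Φ b).map e).eval (Φ.eval₂ e t) = 0 := by
  have hn : P.natDegree ≠ 0 := fun h => by
    rw [Polynomial.eq_one_of_monic_natDegree_zero hP h, Polynomial.eval₂_one] at ht
    exact one_ne_zero ht
  obtain ⟨p, q, -, -, h⟩ := Polynomial.exists_mul_add_mul_eq_C_resultant (P.map e)
    (Polynomial.C (Φ.eval₂ e t) - Φ.map e) Polynomial.natDegree_map_le (deg_sub e _ hb) (Or.inl hn)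
  have := congrArg (Polynomial.eval t) h
  rw [eval_chi]
  simpa [Polynomial.eval_map, ht] using this.symm

theorem chi_ne {S : Type} [CommRing S] [IsDomain S] (e : A →+* S) {P Φ : Polynomial A}
    {b : ℕ} (hP : P.Monic) (hb : Φ.natDegree ≤ b) : (chi P Φ b).map e ≠ 0 := by
  classical
  intro h0
  let K := AlgebraicClosure (FractionRing S)
  let e' : A →+* K := (algebraMap S K).comp e
  have h1 : (chi P Φ b).map e' = 0 := by
    rw [← Polynomial.map_map, h0, Polynomial.map_zero]
  obtain ⟨y, hy⟩ := Infinite.exists_notMem_finset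
    (((P.map e').roots.map (Φ.map e').eval).toFinset)
  have h2 := eval_chi e' y P Φ b
  rw [h1, Polynomial.eval_zero, ← hP.natDegree_map e', Polynomial.resultant_eq_prod_eval _ _ _
    (deg_sub e' y hb) (IsAlgClosed.splits _), (hP.map e').leadingCoeff, one_pow, one_mul] at h2
  obtain ⟨a, ha, h3⟩ := Multiset.mem_map.1 (Multiset.prod_eq_zero_iff.1 h2.symm)
  refine hy (Multiset.mem_toFinset.2 (Multiset.mem_map.2 ⟨a, ha, ?_⟩))
  rw [Polynomial.eval_sub, Polynomial.eval_C] at h3
  exact (sub_eq_zero.1 h3).symm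

theorem chi_deg (P Φ : Polynomial A) (b : ℕ) : (chi P Φ b).natDegree ≤ P.natDegree := by
  have := res_filt (fun (F : Polynomial A) d => F.natDegree ≤ d) (fun a => by simp) (by simp)
    (fun f g a b hf hg => Polynomial.natDegree_mul_le.trans (add_le_add hf hg))
    (fun f g a hf hg => (Polynomial.natDegree_add_le _ _).trans (max_le hf hg))
    (fun f a hf => by rwa [Polynomial.natDegree_neg]) (P.map Polynomial.C) (gY Φ) P.natDegree b 1 0
    (fun k => by
      rw [gY_coeff]
      refine (Polynomial.natDegree_sub_le _ _).trans (max_le ?_ (by simp))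
      split_ifs
      · exact Polynomial.natDegree_X_le
      · simp)
    (fun k => by simp)
  simpa [chi] using this

end chi

theorem chi_degreeOf (P Φ : Polynomial (MvPolynomial ι L)) (b : ℕ) (a : ι) (dΦ dP : ℕ)
    (hΦ : ∀ l, degreeOf a (Φ.coeff l) ≤ dΦ) (hP : ∀ l, degreeOf a (P.coeff l) ≤ dP) (r : ℕ) :
    degreeOf a ((chi P Φ b).coeff r) ≤ P.natDegree * dΦ + b * dP := by
  classical
  have hC : ∀ (u : MvPolynomial ι L) d, degreeOf a u ≤ d → ∀ r,
      degreeOf a ((Polynomial.C u).coeff r) ≤ d := fun u d h r => by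
    rw [Polynomial.coeff_C]
    split_ifs
    · exact h
    · simp
  refine res_filt (fun (F : Polynomial (MvPolynomial ι L)) d => ∀ r, degreeOf a (F.coeff r) ≤ d)
    (fun a r => by simp) (fun r => by simpa using hC 1 0 (by simp) r)
    (fun f g a b hf hg r => ?_) (fun f g a hf hg r => ?_) (fun f a hf r => ?_)
    (P.map Polynomial.C) (gY Φ) P.natDegree b dΦ dP (fun k r => ?_) (fun k r => ?_) r
  · rw [Polynomial.coeff_mul]
    refine (degreeOf_sum_le _ _ _).trans (Finset.sup_le fun p _ => ?_)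
    exact (degreeOf_mul_le _ _ _).trans (add_le_add (hf _) (hg _))
  · rw [Polynomial.coeff_add]
    exact (degreeOf_add_le _ _ _).trans (max_le (hf r) (hg r))
  · rw [Polynomial.coeff_neg, degreeOf_neg]
    exact hf r
  · rw [gY_coeff, sub_eq_add_neg, Polynomial.coeff_add, Polynomial.coeff_neg]
    refine (degreeOf_add_le _ _ _).trans (max_le ?_ (by rw [degreeOf_neg]; exact hC _ _ (hΦ k) r))
    split_ifs
    · rw [Polynomial.coeff_X]
      split_ifs <;> simp
    · simp
  · rw [Polynomial.coeff_map]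
    exact hC _ _ (hP k) r

theorem chi_norm (P Φ : Polynomial (MvPolynomial ι L)) (b : ℕ) {nΦ nP : ℝ} (h0 : 0 < nΦ)
    (hΦ : ∀ l, l1 v (Φ.coeff l) ≤ nΦ) (hP : ∀ l, l1 v (P.coeff l) ≤ nP) :
    Nm v nΦ (chi P Φ b) ≤ (P.natDegree + b).factorial * ((2 * nΦ) ^ P.natDegree * nP ^ b) := by
  have hC : ∀ u : MvPolynomial ι L, Nm v nΦ (Polynomial.C u) = l1 v u := fun u => by
    rw [← Polynomial.monomial_zero_left, Nm_mono, pow_zero, mul_one]
  refine Nm_res v h0.le _ _ _ _ (fun k => ?_) fun k => ?_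
  · rw [gY_coeff, sub_eq_add_neg, two_mul]
    refine (Nm_add v h0.le _ _).trans (add_le_add ?_ (by rw [Nm_neg, hC]; exact hΦ k))
    split_ifs
    · rw [← Polynomial.monomial_one_one_eq_X, Nm_mono, l1_one, one_mul, pow_one]
    · rw [Nm_zero]
      exact h0.le
  · rw [Polynomial.coeff_map, hC]
    exact hP k

end T54E

theorem st_ELIM : St_ELIM := by
  intro L ι S _ _ _ _ _ Φ P ev t b hP hb ht hΦ
  have hne := T54E.chi_ne ev.toRingHom (Φ := Φ) hP hb
  have hr := T54E.chi_root ev.toRingHom t hP hb ht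
  obtain ⟨q, hq, hq'⟩ := Polynomial.exists_eq_pow_rootMultiplicity_mul_and_not_dvd _ hne 0
  generalize Polynomial.rootMultiplicity 0 ((T54E.chi P Φ b).map ev.toRingHom) = m at hq
  rw [Polynomial.C_0, sub_zero] at hq hq'
  have hc : ev ((T54E.chi P Φ b).coeff m) = q.coeff 0 := by
    have h : ((T54E.chi P Φ b).map ev.toRingHom).coeff (0 + m) = q.coeff 0 := by
      rw [hq, Polynomial.coeff_X_pow_mul]
    rw [zero_add, Polynomial.coeff_map] at h
    exact h
  have hq0 : q.coeff 0 ≠ 0 := fun h => hq' (Polynomial.X_dvd_iff.2 h)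
  have hm : m ≤ P.natDegree := by
    refine le_trans (Polynomial.le_natDegree_of_ne_zero fun h => hq0 ?_) (T54E.chi_deg P Φ b)
    rw [← hc, h, map_zero]
  refine ⟨(T54E.chi P Φ b).coeff m, P.natDegree - m, Nat.sub_le _ _, hc ▸ hq0, ?_,
    fun a dΦ dP h1 h2 => T54E.chi_degreeOf P Φ b a dΦ dP h1 h2 m, fun v nΦ nP h0 _ h1 h2 => ?_⟩
  · rw [hq, Polynomial.eval_mul, Polynomial.eval_pow, Polynomial.eval_X, mul_eq_zero,
      or_iff_right (pow_ne_zero _ hΦ)] at hr
    have := Polynomial.sub_dvd_eval_sub (Polynomial.eval₂ ev.toRingHom t Φ) 0 q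
    rw [sub_zero, hr, zero_sub, dvd_neg, ← Polynomial.coeff_zero_eq_eval_zero] at this
    rwa [hc]
  · have h3 := (T54E.coeff_le_Nm v h0.le _ m).trans (T54E.chi_norm v P Φ b h0 h1 h2)
    refine le_of_mul_le_mul_right (h3.trans_eq ?_) (pow_pos h0 m)
    obtain ⟨j, hj⟩ := Nat.exists_eq_add_of_le hm
    rw [show P.natDegree - m = j by omega, mul_pow]
    generalize (((P.natDegree + b).factorial : ℕ) : ℝ) = z
    generalize (2 : ℝ) ^ P.natDegree = u
    rw [hj]
    ring

end D4C
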