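import Pool.Agent.Lib.D4C.T83Psi

/-! Normal Taylor coefficients as polynomials. -/

namespace D4C

open MvPolynomial T83

namespace T83

variable {L : Type} [Field L]

/-- series all of whose coefficients have weight at most `n` -/
noncomputable def WP (ρ L : Type) [Field L] {τ : Type} (w : τ → ℕ) (n : ℕ) :
    Submodule L (MvPowerSeries ρ (MvPolynomial τ L)) where
  carrier := {f | ∀ J, MvPowerSeries.coeff J f ∈ WS L w n}
  add_mem' := fun h k J => add_mem (h J) (k J)
  zero_mem' := fun _ => zero_mem _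
  smul_mem' := fun c _ h J => Submodule.smul_mem _ c (h J)

theorem C_mem_WP {ρ τ : Type} {w : τ → ℕ} {n : ℕ} {F : MvPolynomial τ L} (h : F ∈ WS L w n) :
    MvPowerSeries.C F ∈ WP ρ L w n := fun J => by
  classical
  rw [MvPowerSeries.coeff_C]
  split_ifs
  exacts [h, zero_mem _]

instance WP_gm (ρ : Type) {τ : Type} (w : τ → ℕ) : SetLike.GradedMonoid (WP ρ L w) where
  one_mem := C_mem_WP (SetLike.one_mem_graded _)
  mul_mem := fun a b F G hF hG J => by
    classical
    rw [MvPowerSeries.coeff_mul]
    exact Submodule.sum_mem _ fun p _ => SetLike.mul_mem_graded (hF _) (hG _)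

theorem WP_mono (ρ : Type) {τ : Type} (w : τ → ℕ) : Monotone (WP ρ L w) :=
  fun _ _ h _ k J => WS_mono w h (k J)

theorem hv_mono (v : AbsoluteValue L ℝ) {A A' : Finset L} (h : A ⊆ A') : hv v A ≤ hv v A' :=
  Finset.prod_le_prod_of_subset_of_one_le h (fun _ _ => zero_le_one.trans (le_max_left _ _))
    fun _ _ _ => le_max_left _ _

theorem degree_bw {σ : Type} {F : MvPolynomial (σ ⊕ σ) L} {b : ℕ}
    (h : F.IsWeightedHomogeneous (bw σ) (b, b)) : ∀ d ∈ F.support, d.degree = 2 * b := fun d hd => by
  have e : d.degree = (Finsupp.weight (bw σ) d).1 + (Finsupp.weight (bw σ) d).2 := by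
    clear hd
    induction d using Finsupp.induction_linear with
    | zero => simp
    | add f g hf hg => simp only [map_add, hf, hg, Prod.fst_add, Prod.snd_add]; ring
    | single s n => rcases s with s | s <;> simp [Finsupp.weight_single, bw]
  rw [e, h (mem_support_iff.1 hd), two_mul]

theorem gau_l1 {ρ τ τ' : Type} (v : AbsoluteValue L ℝ) {r : ℝ} (hr : 0 ≤ r)
    {x : τ → MvPowerSeries ρ (MvPolynomial τ' L)} {s : τ → ℝ} {F : MvPolynomial τ L} {M : ℝ}
    (hx : ∀ a, Mj (l1 v) r (x a) (s a)) (hM : ∀ d ∈ F.support, d.prod (fun a n => s a ^ n) ≤ M) :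
    Mj (l1 v) r (aeval x F) (l1 v F * M) :=
  st_GAU L _ v (Mj (l1 v) r) (fun _ _ _ => Mj.mono) (fun _ _ _ _ h k => h.add hr (l1_add v) k)
    (fun _ _ _ _ h k _ _ => h.mul hr (l1_nonneg v) (l1_zero v) (l1_add v) (l1_mul v) k)
    (fun c => by
      simpa [← l1_monomial v (0 : τ' →₀ ℕ) c, MvPowerSeries.algebraMap_apply] using
        mj_monomial (ρ := ρ) hr (l1_nonneg v) (l1_zero v) 0 (C c : MvPolynomial τ' L))
    τ x s F M (fun a => (hx a).nonneg) hx hM

end T83

theorem st_EXP : St_EXP := by
  intro L σ _ _ _ B g C m D1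
  classical
  obtain ⟨c0, h0, hτ⟩ := st_MTAU L σ B g C
  let ca := ∑ a, ∑ i, (B.A a i).support.card
  let A1 := C.A ∪ Finset.univ.biUnion fun a => Finset.univ.biUnion fun i => (B.A a i).coeffs
  refine ⟨c0 + ca + (D1 + 1) ^ (m + 1), 2 * (D1 + 1) * (2 * B.β) + 1, A1, by omega,
    fun K c μ ι φ A hι hφ => ?_⟩
  let τ' : Fin K → σ → PS (Fin K × Fin c) L := fun i =>
    tauV C fun b => ∑ j, if ι i j = b then MvPowerSeries.X (i, j) else 0
  let Y : Fin K → σ → MvPowerSeries (Fin K × Fin c) (AA L K m) := fun i => ev2 (B.A (μ i))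
    (fun a => MvPowerSeries.C (toA i (φ i a))) fun a => MvPowerSeries.map (algebraMap L _) (τ' i a)
  refine ⟨fun J => (MvPowerSeries.coeff J).restrictScalars L ∘ₗ
    (aeval fun s : Fin K × σ => Y s.1 s.2).toLinearMap, fun z η F q J => ?_,
    fun F δ hF J => ⟨fun d hd i => ?_, fun v => ?_⟩⟩
  · rw [← coeff_Psi]
    refine congrArg _ ?_
    show _ = MvPowerSeries.coeff J (MvPowerSeries.mapAlgHom (evA z η) (aeval _ F))
    rw [Gam, evB, ← aeval_map_alg, ← aeval_map_alg]
    refine congrArg (fun x => MvPowerSeries.coeff J (aeval x F)) (funext fun ⟨i, a⟩ => ?_)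
    rw [blk_eq]
    let f : PS (Fin m ⊕ Fin c) L →ₐ[L] MvPowerSeries (Fin K × Fin c) (PS (Fin K × Fin m) L) :=
      Psi.comp (MvPowerSeries.rename (Prod.mk i))
    refine (congrFun (ev2_map f _ _ _) a).symm.trans (Eq.trans ?_ (congrFun (ev2_map
      (MvPowerSeries.mapAlgHom (σ := Fin K × Fin c) (evA z η)) _ _ _) a))
    refine congrArg₂ (ev2 _ · · a) (funext fun s => ?_) (funext fun s => ?_)
    · let f' : AA L K m →ₐ[L] MvPowerSeries (Fin K × Fin c) (AA L K m) :=
        IsScalarTower.toAlgHom L _ _
      show _ = MvPowerSeries.mapAlgHom (evA z η) (f' (toA i (φ i s)))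
      rw [map_evZT, toA, map_evZT, map_evZT]
      have e : ∀ x, MvPowerSeries.mapAlgHom (evA z η) (f' x) = Psi (MvPowerSeries.rename
          (fun x => (x.1, Sum.inl x.2)) (evA z η x)) := fun x => by
        rw [Psi_inl]
        exact MvPowerSeries.map_C _ _
      refine congrArg₂ (evZT · · _) (funext fun j => ?_) ?_
      · rw [e]
        simp [f, evA]
      · rw [e, evA, aeval_X, ← Function.comp_def MvPowerSeries.X, ← MvPowerSeries.rename_eq_subst]
        simp [f, blk_eq, Function.comp_def]
    · have hs : ∀ {ρ : Type} (e : Fin c → ρ), MvPowerSeries.HasSubst fun b =>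
          ∑ j, if ι i j = b then (MvPowerSeries.X (e j) : PS ρ L) else 0 := fun e =>
        MvPowerSeries.hasSubst_of_constantCoeff_zero fun b => by
          rw [map_sum]
          exact Finset.sum_eq_zero fun j _ => by split_ifs <;> simp
      rw [MvPowerSeries.mapAlgHom_apply, MvPowerSeries.map_map, AlgHom.comp_algebraMap, ← Psi_inr,
        AlgHom.comp_apply, tauV, rename_subst (a := inc L (ι i)) (hs _)]
      simp only [τ', tauV]
      rw [rename_subst (hs _)]
      simp [inc, apply_ite (MvPowerSeries.rename _)]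
  · have := fil_aeval (WP _ L fun x : Fin K × Option (Fin m) => if x.1 = i then 1 else 0)
      (WP_mono _ _) (x := fun s : Fin K × σ => Y s.1 s.2) (F := F)
      (r := fun s => if s.1 = i then 2 * (D1 + 1) * (2 * B.β) + 1 else 0)
      (fun s => fil_aeval _ (WP_mono _ _) (r := fun _ => if s.1 = i then 2 * (D1 + 1) else 0)
        (fun t => ?_) fun d hd => ?_) (fun d hd => by rw [weight_blk, hF d hd i]) J hd
    · simpa [weight_blk] using this
    · rcases t with t | t
      · refine C_mem_WP (WS_mono _ ?_ (toA_mem s.1 (hφ _ t).1 (fun l => ((hφ _ t).2 l).1)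
          (a := if s.1 = i then 1 else 0) (fun _ => le_rfl) le_rfl))
        split_ifs <;> omega
      · exact fun J => WS_mono _ (Nat.zero_le _) (SetLike.algebraMap_mem_graded _ _)
    · rw [Finsupp.weight_apply, Finsupp.sum, ← Finset.sum_smul, ← Finsupp.degree_apply,
        degree_bw (B.A_hom _ _) d hd]
      split_ifs <;> simp [mul_comm]
  · have H1 := one_le_hv v A1
    have H2 := fun i => one_le_hv v (A i)
    have H4 := fun i => zero_le_one.trans (H2 i)
    have H3 := one_le_hv v C.A
    have key : ∀ (n : ℕ) (A' : Finset L), n ≤ c0 + ca + (D1 + 1) ^ (m + 1) → A' ⊆ A1 →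
        n * hv v A' ≤ ((c0 + ca + (D1 + 1) ^ (m + 1) : ℕ) : ℝ) * hv v A1 := fun n A' h k =>
      mul_le_mul (by exact_mod_cast h) (hv_mono v k) (zero_le_one.trans (one_le_hv v _))
        (Nat.cast_nonneg _)
    have hb : 2 * B.β + 1 ≤ 2 * (D1 + 1) * (2 * B.β) + 1 := by nlinarith
    generalize ((c0 + ca + (D1 + 1) ^ (m + 1) : ℕ) : ℝ) * hv v A1 = M at key ⊢
    generalize 2 * (D1 + 1) * (2 * B.β) + 1 = b at hb ⊢
    have M1 : 1 ≤ M := by simpa [hv] using key 1 ∅ (by omega) (by simp)
    have p0 : (0 : ℝ) < c0 * hv v C.A := by positivity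
    have p1 := key c0 C.A (by omega) Finset.subset_union_left
    have hY : ∀ s : Fin K × σ, Mj (l1 v) (c0 * hv v C.A)⁻¹ (Y s.1 s.2) ((M * hv v (A s.1)) ^ b) :=
      fun ⟨i, a⟩ => by
        have q1 := one_le_mul_of_one_le_of_one_le M1 (H2 i)
        have q2 : M ≤ M * hv v (A i) := le_mul_of_one_le_right (by positivity) (H2 i)
        refine (gau_l1 v (by positivity) (s := fun _ => M * hv v (A i))
          (M := (M * hv v (A i)) ^ (2 * B.β)) (fun t => ?_) fun d hd => ?_).mono ?_
        · rcases t with t | t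
          · refine (mj_monomial (by positivity) (l1_nonneg v) (l1_zero v) 0 _).mono ?_
            rw [map_zero, pow_zero, mul_one]
            refine (l1_toA_sm v i (hφ i t)).trans (mul_le_mul_of_nonneg_right ?_ (H4 i))
            simpa [hv] using key ((D1 + 1) ^ (m + 1)) ∅ (by omega) (by simp)
          · refine fun s => le_trans (le_of_eq (Finset.sum_congr rfl fun d _ => ?_))
              ((hτ v _ c (ι i) (Prod.mk i) (hι i) (Prod.mk_right_injective i) t s).trans
                (p1.trans q2))
            exact congrArg (· * _) (l1_monomial v 0 _)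
        · rw [Finsupp.prod, Finset.prod_pow_eq_pow_sum, ← Finsupp.degree_apply,
            degree_bw (B.A_hom _ _) d hd]
        · refine le_trans ?_ (pow_le_pow_right₀ q1 hb)
          rw [pow_succ']
          refine mul_le_mul_of_nonneg_right (((l1_le_card v (A := A1) fun d hd => ?_).trans
            (key _ _ ?_ subset_rfl)).trans q2) (by positivity)
          · simp only [A1, Finset.mem_union, Finset.mem_biUnion, Finset.mem_univ, true_and]
            exact Or.inr ⟨_, _, coeff_mem_coeffs d (mem_support_iff.1 hd)⟩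
          · have : _ ≤ ca := (Finset.single_le_sum (f := fun i' => (B.A (μ i) i').support.card)
              (fun _ _ => Nat.zero_le _) (Finset.mem_univ a)).trans (Finset.single_le_sum
              (f := fun a => ∑ i, (B.A a i).support.card) (fun _ _ => Nat.zero_le _)
              (Finset.mem_univ _))
            exact this.trans (by omega)
    have := (gau_l1 v (by positivity) (F := F) (M := ∏ i, (M * hv v (A i)) ^ (b * δ i)) hY
      fun d hd => le_of_eq ?_).coeff_le J
    · rw [inv_pow, mul_inv_le_iff₀ (by positivity)] at this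
      refine this.trans ((mul_le_mul_of_nonneg_left (pow_le_pow_left₀ p0.le p1 _)
        (mul_nonneg (l1_nonneg v F) (Finset.prod_nonneg fun i _ => by have := H4 i; positivity))).trans_eq ?_)
      simp only [mul_pow, Finset.prod_mul_distrib]
      rw [Finset.prod_pow_eq_pow_sum, Finset.mul_sum, pow_add]
      ring
    · rw [Finsupp.prod_fintype _ _ (by simp), Fintype.prod_prod_type]
      refine Finset.prod_congr rfl fun i _ => ?_
      simp only
      rw [Finset.prod_pow_eq_pow_sum, ← pow_mul, ← hF d hd i, Finsupp.degree_eq_sum]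
      rfl

end D4C
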