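import Pool.Agent.Lib.D4C.T1a
import Pool.Agent.Lib.D4C.T83L1

/-! Degrees and norms of the auxiliary forms. -/

namespace D4C

open MvPolynomial T83

namespace T1

variable {L τ : Type} [Field L] (v : AbsoluteValue L ℝ)

theorem hv_mono {A A' : Finset L} (h : A ⊆ A') : hv v A ≤ hv v A' :=
  Finset.prod_le_prod_of_subset_of_one_le h (fun _ _ => by positivity) fun _ _ _ => le_max_left _ _

theorem bdd_fam {ι : Type} [Finite ι] (f : ι → AbsoluteValue L ℝ → ℝ)
    (h : ∀ j, ∃ (c : ℕ) (A : Finset L), ∀ v, f j v ≤ c * hv v A) :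
    ∃ (c : ℕ) (A : Finset L), 1 ≤ c ∧ ∀ j v, f j v ≤ c * hv v A := by
  classical
  have := Fintype.ofFinite ι
  choose c A h using h
  refine ⟨Finset.univ.sup c + 1, Finset.univ.biUnion A, by omega, fun j v => (h j v).trans ?_⟩
  refine mul_le_mul ?_ (hv_mono v (Finset.subset_biUnion_of_mem A (Finset.mem_univ j)))
    (zero_le_one.trans (one_le_hv v _)) (Nat.cast_nonneg _)
  exact_mod_cast (Finset.le_sup (f := c) (Finset.mem_univ j)).trans (Nat.le_succ _)

theorem bdd_l1 (F : MvPolynomial τ L) : ∃ (c : ℕ) (A : Finset L), ∀ v, l1 v F ≤ c * hv v A :=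
  ⟨_, F.coeffs, fun v => l1_le_card v fun d hd => coeff_mem_coeffs d (mem_support_iff.1 hd)⟩

theorem l1_one : l1 v (1 : MvPolynomial τ L) = 1 := by
  rw [← map_one v, ← l1_monomial v (0 : τ →₀ ℕ) 1]; rfl

theorem l1_X (s : τ) : l1 v (X s : MvPolynomial τ L) = 1 := by
  rw [← map_one v, ← l1_monomial v (Finsupp.single s 1) 1]; rfl

theorem l1_prod {ι : Type} (s : Finset ι) {F : ι → MvPolynomial τ L} {a : ι → ℝ}
    (h : ∀ i ∈ s, l1 v (F i) ≤ a i) : l1 v (∏ i ∈ s, F i) ≤ ∏ i ∈ s, a i := by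
  classical
  induction s using Finset.induction_on with
  | empty => simp [l1_one]
  | insert i s hi ih =>
    rw [Finset.prod_insert hi, Finset.prod_insert hi]
    have h1 := h i (Finset.mem_insert_self _ _)
    exact (l1_mul v _ _).trans (mul_le_mul h1 (ih fun j hj => h j (Finset.mem_insert_of_mem hj))
      (l1_nonneg v _) ((l1_nonneg v _).trans h1))

theorem l1_pow {F : MvPolynomial τ L} {a : ℝ} (h : l1 v F ≤ a) (n : ℕ) : l1 v (F ^ n) ≤ a ^ n := by
  simpa using l1_prod v (Finset.range n) (F := fun _ => F) (a := fun _ => a) fun _ _ => h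

theorem l1_smul (c : L) (F : MvPolynomial τ L) : l1 v (c • F) ≤ v c * l1 v F := by
  rw [smul_eq_C_mul, ← l1_monomial v (0 : τ →₀ ℕ) c]; exact l1_mul v _ _

theorem l1_lin {τ' : Type} (f : MvPolynomial τ L →ₗ[L] MvPolynomial τ' L) (F : MvPolynomial τ L)
    {M : ℝ} (h : ∀ d ∈ F.support, l1 v (f (monomial d 1)) ≤ M) : l1 v (f F) ≤ l1 v F * M := by
  conv_lhs => rw [F.as_sum, map_sum]
  refine (l1_sum v _ _).trans ?_
  rw [l1, Finset.sum_mul]
  refine Finset.sum_le_sum fun d hd => ?_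
  have : monomial d (coeff d F) = coeff d F • monomial d (1 : L) := by simp [smul_monomial]
  rw [this, map_smul]
  exact (l1_smul v _ _).trans (mul_le_mul_of_nonneg_left (h d hd) (v.nonneg _))

theorem l1_aeval {τ' : Type} {x : τ → MvPolynomial τ' L} {R M : ℝ} (hx : ∀ s, l1 v (x s) ≤ R)
    {F : MvPolynomial τ L} (hM : ∀ d ∈ F.support, R ^ d.degree ≤ M) :
    l1 v (aeval x F) ≤ l1 v F * M := by
  refine l1_lin v (aeval x).toLinearMap F fun d hd => le_trans ?_ (hM d hd)
  rw [AlgHom.toLinearMap_apply, aeval_monomial, map_one, one_mul, Finsupp.prod,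
    Finsupp.degree_apply, ← Finset.prod_pow_eq_pow_sum]
  exact l1_prod v _ fun s _ => l1_pow v (hx s) _

variable {σ : Type} [Fintype σ] [DecidableEq σ] {B : Pkg L σ} {g : ℕ}

theorem l1_om (C : Chart B g) {M : ℝ} (h1 : l1 v C.den ≤ M) (h2 : ∀ a, l1 v (C.num a) ≤ M) (n : ℕ)
    (α : Fin g → Fin (n + 1)) : l1 v (om C n α) ≤ M ^ (g * n) := by
  have e : ∑ a, (α a).val ≤ g * n := by
    calc ∑ a, (α a).val ≤ ∑ _a : Fin g, n := Finset.sum_le_sum fun a _ => Nat.lt_succ_iff.1 (α a).2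
      _ = g * n := by simp
  refine (l1_mul v _ _).trans ((mul_le_mul (l1_pow v h1 _)
    (l1_prod v _ fun a _ => l1_pow v (h2 a) _) (l1_nonneg v _)
    (pow_nonneg ((l1_nonneg v _).trans h1) _)).trans_eq ?_)
  rw [Finset.prod_pow_eq_pow_sum, ← pow_add, Nat.sub_add_cancel e]

theorem l1_Wv {M : ℝ} (h1 : 1 ≤ M) (h2 : ∀ a s, l1 v (B.A a s) ≤ M) {k : ℕ}
    (Λ : Fin (k + 1) → Fin B.nl) (i : Fin (k + 1)) (s : σ) : l1 v (Wv B Λ i s) ≤ M := by
  unfold Wv
  split_ifs
  · rwa [l1_X]
  · refine (l1_aeval v (R := 1) (M := 1) (fun t => ?_) fun _ _ => by simp).trans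
      (by rw [mul_one]; exact h2 _ _)
    cases t <;> exact (l1_X v _).le

end T1

open T1

theorem st_FDEG : St_FDEG := by
  intro L σ _ _ _ B g C k N r c A
  obtain ⟨c2, A2, hc2, hb⟩ := bdd_fam (L := L) (ι := Option (Option (Fin g) ⊕ Fin B.nl × σ))
    (fun j v => j.elim (c * hv v A) (Sum.elim (fun j => l1 v (j.elim C.den C.num))
      fun j => l1 v (B.A j.1 j.2))) (by
      rintro (_ | j | j)
      · exact ⟨c, A, fun v => le_rfl⟩
      · exact bdd_l1 _
      · exact bdd_l1 _)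
  set c1 := C.dg * g + k * (B.β * (C.dg * g)) + B.β * (C.dg * g) with hc1
  refine ⟨c2, (k + 1) * (g + C.dg * g + (c1 + r)), A2, hc2, ?_⟩
  intro T d κ es n s Dm hN hT hd hκ hs hn hD Λ ω
  constructor
  · have h1 := mh_prod_rename (F := fun i => monomial (s i (ω.1 i)) (1 : L)) (n := es)
      fun i => isHomogeneous_monomial 1 (hs i _)
    have h2 := MH.mul h1 (mh_Dop (fun i γ => (hD i γ).1) (GU C T d Λ ω.2))
    unfold eL
    convert h2 using 1
    funext i
    rw [Pi.add_apply, ← hn i, mul_add N]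
  · intro v
    set M : ℝ := c2 * hv v A2
    have hM : 1 ≤ M := one_le_mul_of_one_le_of_one_le (by exact_mod_cast hc2) (one_le_hv v _)
    have h1 : l1 v (∏ i, rename (Prod.mk i) (monomial (s i (ω.1 i)) (1 : L))) ≤ 1 := by
      refine (l1_prod v _ (a := fun _ => 1) fun i _ => ?_).trans_eq (by simp)
      rw [rename_monomial, l1_monomial, map_one]
    have h2 : l1 v (GU C T d Λ ω.2) ≤ ∏ i : Fin (k + 1), M ^ (g * dd T d i + C.dg * (g * dd T d i)) := by
      refine l1_prod v _ fun i _ => ?_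
      refine (l1_aeval v (l1_Wv v hM (fun a s => hb (some (.inr (a, s))) v) Λ i)
        (M := M ^ (C.dg * (g * dd T d i))) fun μ hμ => ?_).trans ?_
      · have := om_hom C _ (ω.2 i) (mem_support_iff.1 hμ)
        rw [Finsupp.degree_eq_weight_one]
        exact (congrArg (M ^ ·) this).le
      · rw [pow_add]
        exact mul_le_mul_of_nonneg_right (l1_om v C (hb (some (.inl none)) v)
          (fun a => hb (some (.inl (some a))) v) _ _) (by positivity)
    have h3 := l1_lin v (Dop Dm) (GU C T d Λ ω.2) (M := ∏ i, M ^ (4 ^ κ i * (n i + r)))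
      fun μ _ => by
        rw [Dop_monomial, one_smul]
        refine l1_prod v _ fun i _ => (l1_rename v _ _).trans (((hD i _).2 v).trans ?_)
        exact pow_le_pow_left₀ (mul_nonneg (Nat.cast_nonneg _) (zero_le_one.trans (one_le_hv v _)))
          (hb none v) _
    refine (l1_mul v _ _).trans ((mul_le_of_le_one_left (l1_nonneg v _) h1).trans (h3.trans ?_))
    refine (mul_le_mul_of_nonneg_right h2 (by positivity)).trans ?_
    rw [← Finset.prod_mul_distrib]
    simp only [← pow_add]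
    rw [Finset.prod_pow_eq_pow_sum]
    refine pow_le_pow_right₀ hM ((Finset.sum_le_card_nsmul _ _
      ((g + C.dg * g + (c1 + r)) * (T * d * 4 ^ κ 0)) fun i _ => ?_).trans_eq (by simp [mul_assoc]))
    have e1 : d ≤ T * d := Nat.le_mul_of_pos_left _ hT
    have e2 : dd T d i ≤ T * d := by unfold dd; split_ifs <;> omega
    have e3 : n i ≤ c1 * (T * d) := by
      refine (Nat.le_mul_of_pos_left _ hN).trans ((hn i).trans_le ?_)
      have := Nat.mul_le_mul_left (C.dg * g) e1
      unfold nn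
      split_ifs <;> rw [hc1] <;> nlinarith [Nat.zero_le (B.β * (C.dg * g) * (T * d)),
        Nat.zero_le (k * (B.β * (C.dg * g)) * (T * d)), Nat.zero_le (C.dg * g * (T * d))]
    have e4 : 4 ^ κ i ≤ 4 ^ κ 0 := Nat.pow_le_pow_right (by norm_num) (hκ i)
    have e5 : T * d ≤ T * d * 4 ^ κ 0 := Nat.le_mul_of_pos_right _ (by positivity)
    have e6 : n i + r ≤ (c1 + r) * (T * d) := by
      have : r ≤ r * (T * d) := Nat.le_mul_of_pos_right _ (by omega)
      rw [add_mul]; omega
    have e7 := Nat.mul_le_mul e4 e6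
    have e8 := Nat.mul_le_mul_left (g + C.dg * g) (e2.trans e5)
    nlinarith

end D4C
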