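import Pool.Agent.Lib.D4C.Iface

/-! Zariski closures of subgroups of rational points. -/

namespace D4C.T39

open MvPolynomial

variable {κ σ : Type} [Field κ]

/-- A polynomial over an algebra that vanishes on a set of rational points lies in the
extension of the vanishing ideal. -/
theorem mem_map_van {R : Type} [CommRing R] [Algebra κ R] (S : Set (σ → κ))
    (G : MvPolynomial σ R) (h : ∀ t ∈ S, eval (fun i => algebraMap κ R (t i)) G = 0) :
    G ∈ (vanishingIdeal κ S).map (MvPolynomial.map (algebraMap κ R)) := by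
  classical
  let b := Module.Basis.ofVectorSpace κ R
  let P : _ → MvPolynomial σ κ := fun i => ∑ d ∈ G.support, monomial d (b.coord i (coeff d G))
  let s := G.support.biUnion fun d => (b.repr (coeff d G)).support
  have h1 : G = ∑ i ∈ s, C (b i) * MvPolynomial.map (algebraMap κ R) (P i) := by
    simp only [P, map_sum, map_monomial, Finset.mul_sum, C_mul_monomial]
    rw [Finset.sum_comm]
    conv_lhs => rw [G.as_sum]
    refine Finset.sum_congr rfl fun d hd => ?_
    rw [← map_sum]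
    congr 1
    conv_lhs => rw [← b.linearCombination_repr (coeff d G), Finsupp.linearCombination_apply,
      Finsupp.sum_of_support_subset _ (s := s) (Finset.subset_biUnion_of_mem
        (fun d => (b.repr (coeff d G)).support) hd) _ (by simp)]
    exact Finset.sum_congr rfl fun i _ => by rw [Algebra.smul_def, mul_comm]; rfl
  rw [h1]
  refine Ideal.sum_mem _ fun i _ => Ideal.mul_mem_left _ _ (Ideal.mem_map_of_mem _ ?_)
  rw [mem_vanishingIdeal_iff]
  intro t ht
  have h2 := congrArg (b.coord i) (h t ht)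
  rw [eval_eq, map_sum, map_zero] at h2
  rw [← h2]
  simp only [P, map_sum, aeval_monomial]
  refine Finset.sum_congr rfl fun d _ => ?_
  simp only [← map_pow, ← map_prod]
  rw [mul_comm (coeff d G), ← Algebra.smul_def (∏ x ∈ d.support, t x ^ d x), map_smul, smul_eq_mul,
    mul_comm]
  rfl

theorem eval_eq_zero_of_van {R : Type} [CommRing R] [Algebra κ R] (S : Set (σ → κ))
    (G : MvPolynomial σ R) (h : ∀ t ∈ S, eval (fun i => algebraMap κ R (t i)) G = 0)
    {y : σ → R} (hy : Zr (vanishingIdeal κ S) y) : eval y G = 0 := by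
  refine (Ideal.map_le_iff_le_comap (K := RingHom.ker (eval y))).mpr (fun F hF => ?_)
    (mem_map_van S G h)
  rw [Ideal.mem_comap, RingHom.mem_ker, eval_map, ← aeval_def]
  exact hy F hF

theorem isHom_van [Infinite κ] {S : Set (σ → κ)} (h : ∀ t ∈ S, ∀ c : κ, c ≠ 0 → c • t ∈ S) :
    IsHom (vanishingIdeal κ S) := by
  intro F hF n
  rw [mem_vanishingIdeal_iff] at hF ⊢
  intro t ht
  by_cases hn : F.totalDegree < n
  · rw [homogeneousComponent_eq_zero _ _ hn, map_zero]
  let p : Polynomial κ := ∑ k ∈ Finset.range (F.totalDegree + 1),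
    Polynomial.monomial k (aeval t (homogeneousComponent k F))
  have h1 : p = 0 := by
    refine Polynomial.eq_zero_of_infinite_isRoot p
      ((Set.finite_singleton (0 : κ)).infinite_compl.mono fun c hc => ?_)
    have h2 := hF _ (h t ht c hc)
    rw [← sum_homogeneousComponent F, map_sum] at h2
    change Polynomial.eval c p = 0
    rw [← h2, Polynomial.eval_finsetSum]
    refine Finset.sum_congr rfl fun k _ => ?_
    rw [Polynomial.eval_monomial, aeval_smul_hom (homogeneousComponent_isHomogeneous k F), mul_comm]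
  have h3 := congrArg (Polynomial.coeff · n) h1
  simpa [p, Polynomial.coeff_monomial, Nat.lt_succ_iff, not_lt.mp hn] using h3

theorem zr_of_forms {J : Ideal (MvPolynomial σ κ)} (hJ : IsHom J) {R : Type} [CommRing R]
    [Algebra κ R] {x : σ → R}
    (h : ∀ F ∈ J, ∀ n, F.IsHomogeneous n → aeval x F = 0) : Zr J x := by
  intro F hF
  rw [← sum_homogeneousComponent F, map_sum]
  exact Finset.sum_eq_zero fun n _ => h _ (hJ F hF n) n (homogeneousComponent_isHomogeneous n F)

theorem le_of_pgen {J q : Ideal (MvPolynomial σ κ)} (hJ : IsHom J) {Ω : Type} [Field Ω]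
    [Algebra κ Ω] {x : σ → Ω} (hx : PGen q x) (h : Zr J x) : J ≤ q := by
  intro F hF
  rw [← sum_homogeneousComponent F]
  exact q.sum_mem fun n _ =>
    (hx.2 _ n (homogeneousComponent_isHomogeneous n F)).mp (h _ (hJ F hF n))

theorem ext_self (I : Ideal (MvPolynomial σ κ)) : ext I κ = I := by
  unfold ext
  rw [Algebra.algebraMap_self, show MvPolynomial.map (RingHom.id κ) = RingHom.id (MvPolynomial σ κ)
    from RingHom.ext map_id, Ideal.map_id]

attribute [local instance] MvPolynomial.gradedAlgebra in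
theorem isHom_minimal {J q : Ideal (MvPolynomial σ κ)} (hJ : IsHom J) (hq : q ∈ J.minimalPrimes) :
    IsHom q := by
  have h1 : J ≤ (q.homogeneousCore (homogeneousSubmodule σ κ)).toIdeal := by
    rw [← (isHom_iff.mp hJ).toIdeal_homogeneousCore_eq_self]
    exact Ideal.homogeneousCore_mono _ hq.1.2
  have h2 := Ideal.toIdeal_homogeneousCore_le (homogeneousSubmodule σ κ) q
  rw [isHom_iff, le_antisymm (hq.2 ⟨hq.1.1.homogeneousCore, h1⟩ h2) h2 ]
  exact HomogeneousIdeal.isHomogeneous _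

variable [Fintype σ] [DecidableEq σ] (B : Pkg κ σ)

theorem prime_I : B.I.IsPrime := ext_self B.I ▸ B.gprime κ

theorem exists_isDim (hD : St_DIM) : ∃ g, B.IsDim g := by
  obtain ⟨⟨n, hn⟩, -, h3⟩ := hD κ σ B.I (prime_I B)
  have h1 : B.I < RingHom.ker (aeval (0 : σ → κ) : MvPolynomial σ κ →ₐ[κ] κ) := by
    refine lt_of_le_of_ne (fun F hF => ?_) fun h => B.o_ne (funext fun i => ?_)
    · simpa using B.o_mem.smul B.hom 0 F hF
    · simpa using B.o_mem (X i) (by rw [h, RingHom.mem_ker]; simp)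
  have h2 := h3 _ (RingHom.ker_isPrime _) h1
  rw [hn] at h2
  cases n with
  | zero => simp at h2
  | succ g => exact ⟨g, hn⟩

/-- The cone over a set of points. -/
def cone (T : Set (B.Pt κ)) : Set (σ → κ) := {x | ∃ p ∈ T, B.Rep p x}

variable {B}

theorem zr_cone {T : Set (B.Pt κ)} {x : σ → κ} (hx : x ∈ cone B T) :
    Zr (vanishingIdeal κ (cone B T)) x := fun _ hF => mem_vanishingIdeal_iff.mp hF x hx

theorem isHom_cone [Infinite κ] (T : Set (B.Pt κ)) : IsHom (vanishingIdeal κ (cone B T)) :=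
  isHom_van fun _ ⟨p, hp, hx⟩ _ hc => ⟨p, hp, hx.smul (isUnit_iff_ne_zero.mpr hc)⟩

theorem le_cone (T : Set (B.Pt κ)) : B.I ≤ vanishingIdeal κ (cone B T) :=
  fun F hF => mem_vanishingIdeal_iff.mpr fun _ ⟨_, _, hx⟩ => hx.zr F hF

theorem o_cone (T : AddSubgroup (B.Pt κ)) : Zr (vanishingIdeal κ (cone B T)) B.o :=
  zr_cone ⟨0, T.zero_mem, Pkg.rep_zero⟩

theorem neg_cone (T : AddSubgroup (B.Pt κ)) (R : Type) [CommRing R] [Algebra κ R] (x : σ → R)
    (hx : Zr (vanishingIdeal κ (cone B T)) x) : Zr (vanishingIdeal κ (cone B T)) (x ∘ B.π) := by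
  intro F hF
  rw [← aeval_rename]
  refine hx _ (mem_vanishingIdeal_iff.mpr ?_)
  rintro t ⟨p, hp, ht⟩
  rw [aeval_rename]
  exact zr_cone ⟨-p, T.neg_mem hp, ht.neg⟩ F hF

theorem add_cone [Infinite κ] (T : AddSubgroup (B.Pt κ)) (R : Type) [CommRing R] [Algebra κ R]
    (x y : σ → R) (hx : Zr (vanishingIdeal κ (cone B T)) x)
    (hy : Zr (vanishingIdeal κ (cone B T)) y) (a : Fin B.nl) :
    Zr (vanishingIdeal κ (cone B T)) (ev2 (B.A a) x y) := by
  intro F hF
  have key : ∀ (x : σ → R) (y : σ → R), eval y (aeval (ev2 (B.A a) (fun i => C (x i)) X) F) =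
      aeval (ev2 (B.A a) x y) F := by
    intro x y
    have h1 := aeval_map_alg ((aeval y : MvPolynomial σ R →ₐ[R] R).restrictScalars κ)
      (ev2 (B.A a) (fun i => C (x i)) X) F
    rw [← ev2_map] at h1
    simpa using h1.symm
  rw [← key]
  refine eval_eq_zero_of_van _ _ ?_ hy
  rintro t ⟨q, hq, ht⟩
  rw [key]
  have h1 := aeval_map_alg (aeval x : MvPolynomial σ κ →ₐ[κ] R)
    (ev2 (B.A a) X fun i => C (t i)) F
  rw [← ev2_map] at h1
  simp only [aeval_X, aeval_C] at h1
  rw [h1]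
  refine hx _ (mem_vanishingIdeal_iff.mpr ?_)
  rintro s ⟨p, hp, hs⟩
  have h2 := aeval_map_alg (aeval s : MvPolynomial σ κ →ₐ[κ] κ)
    (ev2 (B.A a) X fun i => C (t i)) F
  rw [← ev2_map] at h2
  simp only [aeval_X, aeval_C, Algebra.algebraMap_self, RingHom.id_apply] at h2
  obtain ⟨w, hw⟩ := Pkg.exists_rep (p + q)
  obtain ⟨c, hc⟩ := hs.law_eq_smul ht hw a
  rw [← h2, hc]
  exact (zr_cone ⟨_, T.add_mem hp hq, hw⟩).smul (isHom_cone _) c F hF

theorem zr_rep {J : Ideal (MvPolynomial σ κ)} (hJ : IsHom J) {R : Type} [CommRing R] [Algebra κ R]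
    {p : B.Pt R} {x y : σ → R} (hx : B.Rep p x) (hy : B.Rep p y) (h : Zr J x) : Zr J y := by
  obtain ⟨c, rfl⟩ := (hx.par hy).exists_smul hx.uni
  exact h.smul hJ c

/-- The points on the closure of a subgroup form a subgroup. -/
def clos [Infinite κ] (T : AddSubgroup (B.Pt κ)) (Ω : Type) [Field Ω] [Algebra κ Ω] :
    AddSubgroup (B.Pt Ω) where
  carrier := {p | ∃ x, B.Rep p x ∧ Zr (vanishingIdeal κ (cone B T)) x}
  add_mem' := by
    rintro p q ⟨x, hx, hx'⟩ ⟨y, hy, hy'⟩
    obtain ⟨a, ha⟩ := hx.exists_add hy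
    exact ⟨_, ha, add_cone T Ω x y hx' hy' a⟩
  zero_mem' := ⟨_, Pkg.rep_zero, (o_cone T).map (Algebra.ofId κ Ω)⟩
  neg_mem' := by
    rintro p ⟨x, hx, hx'⟩
    exact ⟨_, hx.neg, neg_cone T Ω x hx'⟩

/-- Elements killed by a power of two. -/
def tors2 (G : Type) [AddCommGroup G] : AddSubgroup G where
  carrier := {p | ∃ j : ℕ, 2 ^ j • p = 0}
  add_mem' := by
    rintro p q ⟨i, hi⟩ ⟨j, hj⟩
    refine ⟨i + j, ?_⟩
    rw [smul_add, pow_add, mul_smul, mul_smul, hj, smul_comm, hi]
    simp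
  zero_mem' := ⟨0, smul_zero _⟩
  neg_mem' := by
    rintro p ⟨i, hi⟩
    exact ⟨i, by rw [smul_neg, hi, neg_zero]⟩

end D4C.T39
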