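import Pool.Agent.Lib.D4C.BlueF
import Pool.Agent.Lib.D4C.B_DIM
import Pool.Agent.Lib.D4C.B_LOC
import Pool.Agent.Lib.D4C.T39a

/-! Fibres of doubling. -/

namespace D4C

open MvPolynomial

namespace T73

variable {L σ : Type} [Field L] [Fintype σ] [DecidableEq σ] {B : Pkg L σ} {Ω : Type} [Field Ω]
  [Algebra L Ω]

/-- the coordinate ratios of all halves of a point lie in one finite set of algebraic elements -/
theorem key (D : Dbl B) {q : B.Pt Ω} {y : σ → Ω} (hy : B.Rep q y) :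
    ∃ S : Set Ω, S.Finite ∧ (∀ z ∈ S, IsAlgebraic (rat L y) z) ∧
      ∀ (p : B.Pt Ω) (x : σ → Ω), B.Rep p x → 2 • p = q → ∀ i j, x i / x j ∈ S := by
  obtain ⟨k, hk⟩ := hy.uni
  let K := rat L y
  let Ω' := AlgebraicClosure Ω
  let f : Ω →ₐ[L] Ω' := IsScalarTower.toAlgHom L Ω Ω'
  let y' : σ → K := fun i => ⟨y i / y k, IntermediateField.subset_adjoin _ _ ⟨(i, k), rfl⟩⟩
  let P : σ → Polynomial K := fun i => Polynomial.X ^ D.s +
    ∑ j ∈ Finset.range D.s, Polynomial.C (aeval y' (D.b i j)) * Polynomial.X ^ j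
  have hP : ∀ i, P i ≠ 0 := fun i => (Polynomial.monic_X_pow_add (by
    rw [Finset.sum_range]
    exact Polynomial.degree_sum_fin_lt _)).ne_zero
  have hN : 0 < 4 * D.N := by have := D.N_pos; omega
  refine ⟨{z | ∃ i j, ∃ a ∈ (P i).rootSet Ω', ∃ b ∈ (P j).rootSet Ω',
    algebraMap Ω Ω' z ^ (4 * D.N) = a / b}, ?_, ?_, ?_⟩
  · refine Set.Finite.of_finite_image (f := algebraMap Ω Ω') ?_
      (algebraMap Ω Ω').injective.injOn
    refine Set.Finite.subset (Set.finite_iUnion fun i => Set.finite_iUnion fun j =>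
      ((P i).rootSet_finite Ω').biUnion fun a _ => ((P j).rootSet_finite Ω').biUnion fun b _ =>
        (Polynomial.nthRoots (4 * D.N) (a / b)).finite_toSet) ?_
    rintro _ ⟨z, ⟨i, j, a, ha, b, hb, h⟩, rfl⟩
    simp only [Set.mem_iUnion]
    exact ⟨i, j, a, ha, b, hb, (Polynomial.mem_nthRoots hN).mpr h⟩
  · rintro z ⟨i, j, a, ha, b, hb, h⟩
    have h1 : IsAlgebraic K a := ⟨P i, hP i, (Polynomial.mem_rootSet'.mp ha).2⟩
    have h2 : IsAlgebraic K b := ⟨P j, hP j, (Polynomial.mem_rootSet'.mp hb).2⟩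
    have h3 : IsAlgebraic K (algebraMap Ω Ω' z ^ (4 * D.N)) := by
      rw [h, div_eq_mul_inv]
      exact h1.mul h2.inv
    exact (isAlgebraic_algebraMap_iff (algebraMap Ω Ω').injective).mp (h3.of_pow hN)
  · rintro p x hx rfl i j
    have h1 : B.Rep (2 • B.map f p) fun i => f (y i / y k) := by
      rw [← map_nsmul]
      have := (hy.smul hk.inv).map f
      simpa only [Pi.smul_apply, smul_eq_mul, div_eq_inv_mul] using this
    obtain ⟨t, ht, -, h2⟩ := D.pt Ω' _ _ _ (hx.map f) h1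
    have h3 : ∀ i, f (x i) ^ (4 * D.N) / t ∈ (P i).rootSet Ω' := fun i => by
      rw [Polynomial.mem_rootSet_of_ne (hP i)]
      have h4 : ∀ j, algebraMap K Ω' (aeval y' (D.b i j)) =
          aeval (fun i => f (y i / y k)) (D.b i j) := fun j =>
        (aeval_map_alg (IsScalarTower.toAlgHom L K Ω') y' _).symm
      simp only [P, map_add, map_pow, map_sum, map_mul, Polynomial.aeval_X, Polynomial.aeval_C, h4]
      apply mul_left_cancel₀ (pow_ne_zero D.s ht)
      rw [mul_zero, ← h2 i, mul_add, Finset.mul_sum]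
      congr 1
      · rw [div_pow, mul_div_cancel₀ _ (pow_ne_zero _ ht)]
      · refine Finset.sum_congr rfl fun j hj => ?_
        obtain ⟨c, hc⟩ := Nat.exists_eq_add_of_le (Finset.mem_range.mp hj).le
        rw [hc, Nat.add_sub_cancel_left, pow_add, div_pow]
        field_simp
    refine ⟨i, j, _, h3 i, _, h3 j, ?_⟩
    rw [div_div_div_cancel_right₀ ht, map_div₀, div_pow]
    rfl

theorem trdeg_le {E F : IntermediateField L Ω} (h : ∀ z ∈ E, IsAlgebraic F z) :
    Algebra.trdeg L E ≤ Algebra.trdeg L F := by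
  have h1 := trdeg_add_eq L F (A := algebraicClosure F Ω)
  rw [trdeg_eq_zero (R := F), add_zero] at h1
  rw [h1]
  exact trdeg_le_of_injective (IntermediateField.inclusion
    (show E ≤ (algebraicClosure F Ω).restrictScalars L from fun z hz =>
      mem_algebraicClosure_iff.mpr (h z hz))) (IntermediateField.inclusion_injective _)

omit [Fintype σ] [DecidableEq σ] in
theorem alg_rat {x : σ → Ω} {F : Type} [Field F] [Algebra L F] [Algebra F Ω] [IsScalarTower L F Ω]
    (h : ∀ i j, IsAlgebraic F (x i / x j)) : ∀ z ∈ rat L x, IsAlgebraic F z := by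
  intro z hz
  have : rat L x ≤ (algebraicClosure F Ω).restrictScalars L :=
    IntermediateField.adjoin_le_iff.mpr (by
      rintro _ ⟨ij, rfl⟩
      exact mem_algebraicClosure_iff.mpr (h _ _))
  exact mem_algebraicClosure_iff.mp (this hz)

theorem pgen {x y : σ → Ω} (hy : y ≠ 0) (hz : Zr B.I y)
    (h : ∀ i j, IsAlgebraic (rat L y) (x i / x j)) (hx : PGen B.I x) : PGen B.I y := by
  have h1 : loc L x = B.I := le_antisymm (T39.le_of_pgen (T51.isHom_loc x) hx (T51.zr_loc x))
    (T39.le_of_pgen B.hom (T51.pgen_loc hx.1)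
      (T39.zr_of_forms B.hom fun F hF n hn => (hx.2 F n hn).mpr hF))
  have h2 : B.I ≤ loc L y := T39.le_of_pgen B.hom (T51.pgen_loc hy) hz
  have h3 : B.I = loc L y := by
    by_contra hne
    have h4 := (st_DIM L σ B.I (T39.prime_I B)).2.2 _ (T51.prime_loc y) (lt_of_le_of_ne h2 hne)
    rw [← h1, T51.cd_loc hy, T51.cd_loc hx.1] at h4
    exact absurd h4 (not_lt.mpr (add_le_add_left (trdeg_le (alg_rat h)) 1))
  rw [h3]
  exact T51.pgen_loc hy

theorem fibre (D : Dbl B) (q : B.Pt Ω) : {p : B.Pt Ω | 2 • p = q}.Finite := by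
  obtain ⟨S, hS, -, h⟩ := key D (B.rep_rp q)
  refine Set.Finite.of_finite_image (f := fun p (ij : σ × σ) => B.rp p ij.1 / B.rp p ij.2)
    ((Set.Finite.pi' fun _ => hS).subset ?_) ?_
  · rintro _ ⟨p, hp, rfl⟩ ij
    exact h p _ (B.rep_rp p) hp _ _
  · intro p _ p' _ hpp
    obtain ⟨k, hk⟩ := (B.rep_rp p).uni
    have h1 : ∀ i, B.rp p i / B.rp p k = B.rp p' i / B.rp p' k := fun i => congrFun hpp (i, k)
    have h2 : B.rp p' k ≠ 0 := fun h0 => by
      have := h1 k
      rw [h0, div_zero, div_self hk.ne_zero] at this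
      exact one_ne_zero this
    refine (B.rep_rp p).eq (B.rep_rp p') fun i j => ?_
    have a1 := (div_eq_div_iff hk.ne_zero h2).mp (h1 i)
    have a2 := (div_eq_div_iff hk.ne_zero h2).mp (h1 j)
    apply mul_left_cancel₀ h2
    linear_combination B.rp p' j * a1 - B.rp p' i * a2

theorem finite_tors (D : Dbl B) (j : ℕ) : {p : B.Pt Ω | 2 ^ j • p = 0}.Finite := by
  induction j with
  | zero => simp
  | succ j ih =>
    refine (ih.biUnion fun q _ => fibre D q).subset fun p hp => ?_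
    simp only [Set.mem_iUnion]
    refine ⟨2 • p, ?_, rfl⟩
    show 2 ^ j • 2 • p = 0
    rw [← mul_nsmul', ← pow_succ]
    exact hp

theorem alg_tors (D : Dbl B) (j : ℕ) : ∀ (p : B.Pt Ω) (x : σ → Ω), B.Rep p x → 2 ^ j • p = 0 →
    ∀ i k, IsAlgebraic L (x i / x k) := by
  induction j with
  | zero =>
    intro p x hx hp i k
    rw [pow_zero, one_smul] at hp
    subst hp
    obtain ⟨c, rfl⟩ := (Pkg.rep_zero.par hx).exists_smul Pkg.o_uni
    rw [Pi.smul_apply, Pi.smul_apply, smul_eq_mul, smul_eq_mul,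
      mul_div_mul_left _ _ hx.uni.isUnit_of_smul.ne_zero, ← map_div₀]
    exact isAlgebraic_algebraMap _
  | succ j ih =>
    intro p x hx hp i k
    have h1 := ih (2 • p) _ (B.rep_rp _) (by rw [← mul_nsmul', ← pow_succ]; exact hp)
    obtain ⟨S, -, h2, h3⟩ := key D (B.rep_rp (2 • p))
    have : Algebra.IsAlgebraic L (rat L (B.rp (2 • p))) := ⟨fun z =>
      (isAlgebraic_algebraMap_iff Subtype.val_injective).mp (alg_rat h1 z.1 z.2)⟩
    exact (h2 _ (h3 p x hx rfl i k)).restrictScalars L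

end T73

theorem st_FIB (hI : St_INT2) : St_FIB := by
  intro L σ _ _ _ _ B Ω _ _
  obtain ⟨D⟩ := hI L σ B
  refine ⟨fun p x y hx hy => ?_, T73.finite_tors D, fun κ _ _ _ f j p hp => ?_⟩
  · obtain ⟨S, -, h2, h3⟩ := T73.key D hy
    have h := fun i j => h2 _ (h3 p x hx rfl i j)
    exact ⟨h, T73.pgen (uni_iff_ne_zero.mp hy.uni) hy.zr h⟩
  · obtain ⟨k, hk⟩ := (B.rep_rp p).uni
    have h1 : ∀ i, ∃ z, f z = B.rp p i / B.rp p k := fun i =>
      (T73.alg_tors D j p _ (B.rep_rp p) hp i k).isIntegral.mem_range_algHom_of_minpoly_splits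
        (IsAlgClosed.splits _) f
    choose z hz using h1
    have h2 : B.Rep p fun i => f (z i) := by
      simp only [hz, div_eq_inv_mul]
      exact (B.rep_rp p).smul hk.inv
    have h3 : Uni z := uni_iff_ne_zero.mpr fun h0 =>
      uni_iff_ne_zero.mp h2.uni (funext fun i => by simp [h0])
    have h4 : Zr B.I z := fun F hF => f.injective (by
      rw [map_zero]
      exact (aeval_map_alg f z F).symm.trans (h2.zr F hF))
    exact ⟨B.pt z h3 h4, ((Pkg.rep_pt z h3 h4).map f).eq h2 (Par.refl _)⟩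

end D4C
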