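import Pool.Agent.Lib.D4C.T1a

namespace D4C

theorem st_FVAL : St_FVAL := by
  intro L σ _ _ _ B g C k T d κ s Dm hM Ω _ _ p x u w hx hu h0
  choose E hE using fun i => (hM i).2 Ω (p i) (x i) (u i) (hx i) (hu i)
  exact ⟨E, hE, fun Λ lam h ω => T1.evB_eL C T d κ s Dm hE h0 Λ h ω⟩

end D4C
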