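import Pool.Agent.Lib.D4C.BlueF
import Pool.Agent.Lib.D4C.B_LOC
import Pool.Agent.Lib.D4C.B_DIM

set_option linter.unusedSectionVars false

namespace D4C

open MvPolynomial

namespace T88

variable {κ σ F Ω : Type} [Field κ] [Field F] [Field Ω] [Algebra κ F] [Algebra κ Ω]

theorem par_div {a b : σ → Ω} (h : Par a b) (ha : a ≠ 0) (hb : b ≠ 0) (i j : σ) :
    a i / a j = b i / b j := by
  obtain ⟨c, rfl⟩ := h.exists_smul (uni_iff_ne_zero.mpr ha)
  have hc : c ≠ 0 := by
    rintro rfl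
    exact hb (zero_smul _ _)
  simp only [Pi.smul_apply, smul_eq_mul]
  rw [mul_div_mul_left _ _ hc]

theorem par_of_div {a b : σ → Ω} (ha : a ≠ 0) (hb : b ≠ 0)
    (h : ∀ i j, a i / a j = b i / b j) : Par a b := by
  obtain ⟨k, hk⟩ := Function.ne_iff.mp ha
  have hk : a k ≠ 0 := hk
  have hk' : b k ≠ 0 := by
    intro h0
    have := h k k
    rw [div_self hk, h0, div_zero] at this
    exact one_ne_zero this
  intro i j
  have h1 := (div_eq_div_iff hk hk').mp (h i k)
  have h2 := (div_eq_div_iff hk hk').mp (h j k)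
  apply mul_left_cancel₀ hk'
  linear_combination b j * h1 - b i * h2

theorem mem_rat (x : σ → F) (i j : σ) : x i / x j ∈ rat κ x :=
  IntermediateField.subset_adjoin _ _ ⟨(i, j), rfl⟩

theorem eq_on_rat {x : σ → F} (f g : F →ₐ[κ] Ω) (h : ∀ i j, f (x i / x j) = g (x i / x j))
    {a : F} (ha : a ∈ rat κ x) : f a = g a := by
  unfold rat at ha
  induction ha using IntermediateField.adjoin_induction with
  | mem a ha =>
    obtain ⟨ij, rfl⟩ := ha
    exact h _ _
  | algebraMap c => rw [f.commutes, g.commutes]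
  | add a b _ _ h1 h2 => rw [map_add, map_add, h1, h2]
  | inv a _ h1 => rw [map_inv₀, map_inv₀, h1]
  | mul a b _ _ h1 h2 => rw [map_mul, map_mul, h1, h2]

variable [Fintype σ] [DecidableEq σ] {B : Pkg κ σ}

theorem map_eq_iff {p : B.Pt F} {x : σ → F} (hx : B.Rep p x) (f g : F →ₐ[κ] Ω) :
    B.map f p = B.map g p ↔ ∀ i j, f (x i / x j) = g (x i / x j) := by
  have h1 := uni_iff_ne_zero.mp (hx.map f).uni
  have h2 := uni_iff_ne_zero.mp (hx.map g).uni
  simp only [map_div₀]
  exact ⟨fun h => par_div ((hx.map f).par (h ▸ hx.map g)) h1 h2,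
    fun h => (hx.map f).eq (hx.map g) (par_of_div h1 h2 h)⟩

theorem map_cst (f : F →ₐ[κ] Ω) (t : B.Pt κ) :
    B.map f (B.map (Algebra.ofId κ F) t) = B.map (Algebra.ofId κ Ω) t := by
  rw [Pkg.map_map, Subsingleton.elim (f.comp (Algebra.ofId κ F)) (Algebra.ofId κ Ω)]

theorem exists_def {p : B.Pt F} {x : σ → F} (hx : B.Rep p x) :
    ∃ q : B.Pt (rat κ x), B.map (rat κ x).val q = p := by
  obtain ⟨k, hk⟩ := Function.ne_iff.mp (uni_iff_ne_zero.mp hx.uni)
  have hk : x k ≠ 0 := hk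
  let z : σ → rat κ x := fun i => ⟨x i / x k, mem_rat x i k⟩
  have h1 : (fun i => (rat κ x).val (z i)) = (x k)⁻¹ • x := by
    funext i
    simp only [Pi.smul_apply, smul_eq_mul]
    exact div_eq_inv_mul _ _
  have h2 := hx.smul (c := (x k)⁻¹) (isUnit_iff_ne_zero.mpr (inv_ne_zero hk))
  have hu : Uni z := ⟨k, isUnit_iff_ne_zero.mpr fun h => by
    have h3 : x k / x k = 0 := congrArg Subtype.val h
    rw [div_self hk] at h3
    exact one_ne_zero h3⟩
  have hz : Zr B.I z := fun G hG => (rat κ x).val.toRingHom.injective (by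
    change (rat κ x).val _ = (rat κ x).val 0
    rw [← aeval_map_alg, h1, map_zero]
    exact h2.zr G hG)
  refine ⟨B.pt z hu hz, ((Pkg.rep_pt z hu hz).map _).eq h2 ?_⟩
  rw [h1]
  exact Par.refl _

theorem rat_le {E : IntermediateField κ F} (q : B.Pt E) {x : σ → F}
    (hx : B.Rep (B.map E.val q) x) : rat κ x ≤ E := by
  have h1 := (B.rep_rp q).map E.val
  refine IntermediateField.adjoin_le_iff.mpr ?_
  rintro _ ⟨ij, rfl⟩
  change x ij.1 / x ij.2 ∈ E
  rw [par_div (hx.par h1) (uni_iff_ne_zero.mp hx.uni) (uni_iff_ne_zero.mp h1.uni)]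
  exact E.div_mem (B.rp q ij.1).2 (B.rp q ij.2).2

/-- translation by a constant point is induced by an endomorphism of the function field -/
theorem exists_tr (hG : St_GPT) {p : B.Pt F} {x : σ → F} (hx : B.Rep p x) (hg : PGen B.I x)
    (ht : rat κ x = ⊤) (t : B.Pt κ) :
    ∃ τ : F →ₐ[κ] F, B.map τ p = p + B.map (Algebra.ofId κ F) t := by
  obtain ⟨x', hx'⟩ := Pkg.exists_rep (p + B.map (Algebra.ofId κ F) t)
  have h0 := uni_iff_ne_zero.mp hx'.uni
  obtain ⟨q, hq⟩ := exists_def hx'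
  have h1 : rat κ x' = rat κ x := by
    refine le_antisymm (ht ▸ le_top) (rat_le (q - B.map (Algebra.ofId κ _) t) ?_)
    rwa [map_sub, hq, map_cst, add_sub_cancel_right]
  have h2 := (hG.eq κ σ F B.I x B.hom hg).1
  have h3 : B.I ≤ loc κ x' := fun G h => (T51.mem_loc_iff x' G).mpr fun n =>
    hx'.zr _ (B.hom G h n)
  have h4 : cd (loc κ x') = cd B.I := by
    rw [← h2, T51.cd_loc h0, T51.cd_loc hg.1]
    exact congrArg (fun E : IntermediateField κ F => Algebra.trdeg κ E + 1) h1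
  have h5 : B.I = loc κ x' := by
    by_contra h
    exact ((st_DIM κ σ B.I (h2 ▸ T51.prime_loc x)).2.2 _ (T51.prime_loc x')
      (lt_of_le_of_ne h3 h)).ne h4
  obtain ⟨e, he⟩ := hG.iso κ σ F F B.I x x' hg (h5 ▸ T51.pgen_loc h0)
  let ι : F →ₐ[κ] rat κ x := (AlgHom.id κ F).codRestrict (rat κ x).toSubalgebra fun a => by
    rw [ht]; trivial
  let τ : F →ₐ[κ] F := (rat κ x').val.comp (e.toAlgHom.comp ι)
  refine ⟨τ, (hx.map τ).eq hx' (par_of_div (uni_iff_ne_zero.mp (hx.map τ).uni) h0 fun i j => ?_)⟩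
  rw [← map_div₀]
  exact he i j (mem_rat x i j)

end T88

open T88 in
theorem st_GAL (hF : St_FIB) (hG : St_GPT) : St_GAL := by
  intro κ σ _ _ _ _ _ B F _ _ p x y hx hy hg ht
  have halg := ((hF κ σ B F).1 p x y hx hy).1
  have hfin : FiniteDimensional (rat κ y) F := by
    have h1 : IntermediateField.adjoin (rat κ y) (Set.range fun ij : σ × σ => x ij.1 / x ij.2)
        = ⊤ := by
      rw [eq_top_iff]
      intro a _
      have h2 : rat κ x ≤ (IntermediateField.adjoin (rat κ y)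
          (Set.range fun ij : σ × σ => x ij.1 / x ij.2)).restrictScalars κ :=
        IntermediateField.adjoin_le_iff.mpr (IntermediateField.subset_adjoin _ _)
      exact h2 (ht ▸ IntermediateField.mem_top)
    have h2 := IntermediateField.finiteDimensional_adjoin (K := rat κ y)
      (S := Set.range fun ij : σ × σ => x ij.1 / x ij.2) (by
        rintro _ ⟨ij, rfl⟩
        exact (halg _ _).isIntegral)
    rw [h1] at h2
    exact IntermediateField.topEquiv.toLinearEquiv.finiteDimensional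
  refine ⟨hfin, ?_⟩
  let Ω := AlgebraicClosure F
  let ι : F →ₐ[κ] Ω := IsScalarTower.toAlgHom κ F Ω
  let c : κ →ₐ[κ] Ω := Algebra.ofId κ Ω
  have hc := Pkg.map_injective (B := B) c c.toRingHom.injective
  have : CharZero (rat κ y) := algebraRat.charZero _
  have key : ∀ φ : F →ₐ[rat κ y] Ω, ∃ t : {t : B.Pt κ | 2 • t = 0},
      B.map (φ.restrictScalars κ) p = B.map ι p + B.map c t := by
    intro φ
    have h1 : 2 • (B.map (φ.restrictScalars κ) p - B.map ι p) = 0 := by
      rw [nsmul_sub, ← map_nsmul, ← map_nsmul, sub_eq_zero, map_eq_iff hy]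
      exact fun i j => φ.commutes ⟨_, mem_rat y i j⟩
    obtain ⟨t, h2⟩ := (hF κ σ B Ω).2.2 κ c 1 _ (by rwa [pow_one])
    refine ⟨⟨t, hc ?_⟩, by rw [h2, add_sub_cancel]⟩
    rw [map_nsmul, h2, h1, map_zero]
  choose Ψ hΨ using key
  rw [← AlgHom.natCard_of_splits (rat κ y) F Ω fun _ => IsAlgClosed.splits _,
    ← Nat.card_coe_set_eq]
  refine Nat.card_eq_of_bijective Ψ ⟨fun φ φ' h => ?_, fun t => ?_⟩
  · have h1 := hΨ φ
    rw [h, ← hΨ φ', map_eq_iff hx] at h1
    exact AlgHom.ext fun a => eq_on_rat _ _ h1 (ht ▸ IntermediateField.mem_top)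
  · obtain ⟨τ, hτ⟩ := exists_tr hG hx hg ht t.1
    have h1 : B.map τ (2 • p) = B.map (AlgHom.id κ F) (2 • p) := by
      rw [Pkg.map_id', map_nsmul, hτ, nsmul_add, ← map_nsmul, show 2 • t.1 = 0 from t.2, map_zero,
        add_zero]
    rw [map_eq_iff hy] at h1
    let φ : F →ₐ[rat κ y] Ω :=
      { (ι.comp τ).toRingHom with
        commutes' := fun a => congrArg ι (eq_on_rat _ _ h1 a.2) }
    refine ⟨φ, Subtype.ext (hc (add_left_cancel (a := B.map ι p) ?_))⟩
    rw [← hΨ φ, show φ.restrictScalars κ = ι.comp τ from rfl, ← Pkg.map_map, hτ, map_add,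
      map_cst]

end D4C
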