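import Pool.Agent.Lib.D4C.BlueU

/-! RATL: translation by a rational point does not raise the transcendence degree. -/

namespace D4C

open MvPolynomial

theorem st_RATL (hL : St_LOC) : St_RATL := by
  intro L σ _ _ _ B F Ω _ _ _ _ _ _ p b y y' hy hy'
  have n1 := uni_iff_ne_zero.1 hy.uni
  have n2 := uni_iff_ne_zero.1 hy'.uni
  rw [(hL F σ Ω y n1).2.2.2.2, (hL F σ Ω y' n2).2.2.2.2]
  obtain ⟨i, hi⟩ := Function.ne_iff.1 n1
  obtain ⟨x, hx⟩ := Pkg.exists_rep p
  obtain ⟨a, ha⟩ := (hx.map (IsScalarTower.toAlgHom L F Ω)).exists_add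
    (hy.smul (isUnit_iff_ne_zero.2 (inv_ne_zero hi)))
  obtain ⟨c, hc⟩ := (ha.par hy').exists_smul ha.uni
  have hc0 : c ≠ 0 := fun h => n2 (by rw [hc, h, zero_smul])
  refine add_le_add_left (trdeg_le_of_injective (IntermediateField.inclusion
    (IntermediateField.adjoin_le_iff.2 ?_)) (IntermediateField.inclusion_injective _)) 1
  have key : ∀ G : MvPolynomial (σ ⊕ σ) L, aeval (Sum.elim
      (fun j => IsScalarTower.toAlgHom L F Ω (x j)) ((y i)⁻¹ • y)) G ∈
      IntermediateField.adjoin F (Set.range fun ij : σ × σ => y ij.1 / y ij.2) := fun G => by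
    induction G using MvPolynomial.induction_on with
    | C r =>
      rw [algHom_C, IsScalarTower.algebraMap_apply L F Ω]
      exact IntermediateField.algebraMap_mem _ _
    | add _ _ h1 h2 => rw [map_add]; exact add_mem h1 h2
    | mul_X _ s h1 =>
      rw [map_mul, aeval_X]
      refine mul_mem h1 ?_
      cases s with
      | inl j => exact IntermediateField.algebraMap_mem _ _
      | inr j => exact IntermediateField.subset_adjoin _ _ ⟨(j, i), div_eq_inv_mul _ _⟩
  rintro _ ⟨⟨j, l⟩, rfl⟩
  simp only [hc, Pi.smul_apply, smul_eq_mul, mul_div_mul_left _ _ hc0]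
  exact div_mem (key _) (key _)

end D4C
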