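import Pool.Agent.Lib.D4C.B_GLUE
import Pool.Agent.Lib.D4C.B_RATL
import Pool.Agent.Lib.D4C.B_LOC
import Pool.Agent.Lib.D4C.B_DIM

namespace D4C

open MvPolynomial

namespace T85

lemma aeval_mem_if {L F Ω τ : Type} [Field L] [Field F] [Field Ω] [Algebra L F] [Algebra L Ω]
    [Algebra F Ω] [IsScalarTower L F Ω] (K : IntermediateField F Ω) {x : τ → Ω}
    (hx : ∀ s, x s ∈ K) (G : MvPolynomial τ L) : aeval x G ∈ K := by
  induction G using MvPolynomial.induction_on with
  | C r =>
    rw [algHom_C, IsScalarTower.algebraMap_apply L F Ω]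
    exact K.algebraMap_mem _
  | add _ _ h1 h2 => rw [map_add]; exact add_mem h1 h2
  | mul_X _ s h1 => rw [map_mul, aeval_X]; exact mul_mem h1 (hx s)

lemma algInd_X (ρ F : Type) [Field F] :
    AlgebraicIndependent F fun a : ρ => (MvPowerSeries.X a : PS ρ F) := by
  rw [algebraicIndependent_iff_injective_aeval]
  have : (aeval fun a : ρ => (MvPowerSeries.X a : PS ρ F)) =
      (coeToMvPowerSeries.algHom F : MvPolynomial ρ F →ₐ[F] PS ρ F) :=
    algHom_ext fun a => by simp
  rw [this]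
  intro p q h
  simpa using h

lemma gen1 {L σ : Type} [Field L] [Fintype σ] [DecidableEq σ] {B : Pkg L σ} {g : ℕ}
    (hg : B.IsDim g) (C : Chart B g) {F Ω : Type} [Field F] [Algebra L F] [Field Ω] [Algebra L Ω]
    [Algebra F Ω] [IsScalarTower L F Ω] (φ : PS (Fin g) F →ₐ[F] Ω) (hφ : Function.Injective φ)
    {p : B.Pt F} {y : σ → PS (Fin g) F} (h : RepAt C p MvPowerSeries.X y) {G : MvPolynomial σ F}
    {n : ℕ} (hG : G.IsHomogeneous n) (h0 : aeval y G = 0) : G ∈ ext B.I F := by
  obtain ⟨q, hq, hy⟩ := h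
  have hy' := hy.map (φ.restrictScalars L)
  have hq' := hq.map (φ.restrictScalars L)
  set y' : σ → Ω := fun i => φ.restrictScalars L (y i) with e1
  set t : σ → Ω := fun i => φ.restrictScalars L (tauV C MvPowerSeries.X i) with e2
  have n1 := uni_iff_ne_zero.1 hy'.uni
  have n2 := uni_iff_ne_zero.1 hq'.uni
  have h1 : cd (loc F t) ≤ cd (loc F y') := st_RATL st_LOC L σ B F Ω (-p) _ y' t hy' (by
    have : B.map (φ.restrictScalars L) (cst B (Fin g) p) =
        B.map (IsScalarTower.toAlgHom L F Ω) p := by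
      unfold cst
      rw [Pkg.map_map]
      congr 2
      exact AlgHom.ext fun c => φ.commutes c
    rwa [map_add, map_neg, this, neg_add_cancel_left])
  have h2 : ((g + 1 : ℕ) : Cardinal) ≤ cd (loc F t) := by
    rw [(st_LOC F σ Ω t n2).2.2.2.2, Nat.cast_succ]
    refine add_le_add_left ?_ 1
    obtain ⟨k, hk⟩ := Function.ne_iff.1 n2
    obtain ⟨-, -, h3, h4⟩ := tau1 C (a := (MvPowerSeries.X : Fin g → PS (Fin g) F)) (by simp)
    set K := IntermediateField.adjoin F (Set.range fun ij : σ × σ => t ij.1 / t ij.2)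
    have m1 : ∀ s, ((t k)⁻¹ • t) s ∈ K := fun s =>
      IntermediateField.subset_adjoin _ _ ⟨(s, k), div_eq_inv_mul _ _⟩
    have m2 : ∀ b, φ (MvPowerSeries.X b) ∈ K := fun b => by
      have := div_mem (aeval_mem_if K m1 (C.num b)) (aeval_mem_if K m1 C.den)
      rwa [aeval_smul_hom (C.num_hom b), aeval_smul_hom C.den_hom,
        mul_div_mul_left _ _ (pow_ne_zero _ (inv_ne_zero hk)), e2, aeval_map_alg, aeval_map_alg,
        h4, map_mul, mul_div_cancel_right₀ _ (h3.map _).ne_zero] at this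
    have h5 : AlgebraicIndependent F fun b => (⟨_, m2 b⟩ : K) :=
      AlgebraicIndependent.of_comp K.val ((algInd_X (Fin g) F).map' hφ)
    simpa using h5.cardinalMk_le_trdeg
  have h6 : ext B.I F ≤ loc F y' := fun H hH =>
    Ideal.sum_mem (loc F y') (fun m _ => ((st_LOC F σ Ω y' n1).2.2.1.2 _ m
      (homogeneousComponent_isHomogeneous m H)).1
        (zr_ext.2 hy'.zr _ (B.hom.ext H hH m))) |> (sum_homogeneousComponent H ▸ ·)
  have h7 : cd (ext B.I F) = (g + 1 : ℕ) := by
    have hp : B.I.IsPrime := by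
      have e : (map (algebraMap L L) : MvPolynomial σ L →+* _) = RingHom.id _ :=
        RingHom.ext fun f => map_id f
      have := B.gprime L
      rwa [ext, e, Ideal.map_id] at this
    exact ((st_DIM L σ B.I hp).2.1 F (B.gprime F)).trans hg
  have h8 : ext B.I F = loc F y' := by
    by_contra hne
    exact absurd (h7 ▸ (st_DIM F σ _ (B.gprime F)).2.2 _ (st_LOC F σ Ω y' n1).2.1
      (lt_of_le_of_ne h6 hne)) (not_lt.2 (h2.trans h1))
  rw [h8]
  refine ((st_LOC F σ Ω y' n1).2.2.1.2 G n hG).1 ?_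
  exact (aeval_map_alg φ y G).trans (by rw [h0, map_zero])

end T85

theorem st_GEN1 : St_GEN1 := fun _ _ _ _ _ _ g hg C F _ _ _ _ h _ _ hG h0 =>
  T85.gen1 hg C (IsScalarTower.toAlgHom F _ (FractionRing (PS (Fin g) F)))
    (IsFractionRing.injective _ _) h hG h0

end D4C
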