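import Pool.Agent.Lib.D4C.B_TAU
import Pool.Agent.Lib.D4C.T1a

namespace D4C

open MvPolynomial

namespace T85

variable {L σ : Type} [Field L] [Fintype σ] [DecidableEq σ] {B : Pkg L σ} {g : ℕ}

/-- the parametrisation commutes with local algebra maps -/
lemma rep_map (C : Chart B g) {ρ ρ' F F' : Type} [Field F] [Algebra L F] [Field F'] [Algebra L F']
    (φ : PS ρ F →ₐ[L] PS ρ' F')
    (hφ : ∀ f, MvPowerSeries.constantCoeff f = 0 → MvPowerSeries.constantCoeff (φ f) = 0)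
    {a : Fin g → PS ρ F} (h : ∀ b, MvPowerSeries.constantCoeff (a b) = 0) {q : B.Pt (PS ρ F)}
    (hq : B.Rep q (tauV C a)) : B.Rep (B.map φ q) (tauV C fun b => φ (a b)) := by
  obtain ⟨-, h2, -, h4⟩ := tau1 C h
  obtain ⟨⟨q', hq'⟩, h2', -, h4'⟩ := tau1 C fun b => hφ _ (h b)
  have h5 : (fun i => MvPowerSeries.constantCoeff (φ (tauV C a i))) =
      fun i => algebraMap L F' (B.o i) := funext fun i => by
    have := hφ (tauV C a i - algebraMap L _ (B.o i)) (by simp [h2, MvPowerSeries.algebraMap_apply])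
    rw [map_sub, φ.commutes, map_sub, sub_eq_zero] at this
    simp [this, MvPowerSeries.algebraMap_apply]
  have e : B.map φ q = q' := C.inj _ _ q' _ _ (res_zero (hq.map φ) (by rw [h5]; exact Par.refl _))
    (res_zero hq' (by rw [funext h2']; exact Par.refl _)) (hq.map φ) hq' fun b => by
      rw [h4', aeval_map_alg, aeval_map_alg, h4, map_mul, mul_right_comm, mul_assoc]
  exact e ▸ hq'

lemma map_cst {ρ ρ' F : Type} [Field F] [Algebra L F] (φ : PS ρ F →ₐ[F] PS ρ' F) (p : B.Pt F) :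
    B.map (φ.restrictScalars L) (cst B ρ p) = cst B ρ' p := by
  unfold cst
  rw [Pkg.map_map]
  congr 2
  ext1 c
  exact φ.commutes c

lemma repAt_map {C : Chart B g} {ρ ρ' F : Type} [Field F] [Algebra L F]
    (φ : PS ρ F →ₐ[F] PS ρ' F)
    (hφ : ∀ f, MvPowerSeries.constantCoeff f = 0 → MvPowerSeries.constantCoeff (φ f) = 0)
    {a : Fin g → PS ρ F} (h : ∀ b, MvPowerSeries.constantCoeff (a b) = 0) {p : B.Pt F}
    {y : σ → PS ρ F} (hy : RepAt C p a y) : RepAt C p (fun b => φ (a b)) fun i => φ (y i) := by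
  obtain ⟨q, hq, hy⟩ := hy
  refine ⟨_, rep_map C (φ.restrictScalars L) hφ h hq, ?_⟩
  have := hy.map (φ.restrictScalars L)
  rwa [map_add, map_cst] at this

/-- two representatives differ by a unit -/
lemma repAt_unit {C : Chart B g} {ρ F : Type} [Field F] [Algebra L F] {a : Fin g → PS ρ F}
    {p : B.Pt F} {y y' : σ → PS ρ F} (hy : RepAt C p a y) (hy' : RepAt C p a y') :
    ∃ c : PS ρ F, IsUnit c ∧ y' = c • y := by
  obtain ⟨q, hq, hy⟩ := hy
  obtain ⟨q', hq', hy'⟩ := hy'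
  obtain rfl := hq.eq hq' (Par.refl _)
  obtain ⟨c, rfl⟩ := (hy.par hy').exists_smul hy.uni
  exact ⟨c, hy'.uni.isUnit_of_smul, rfl⟩

lemma exists_repAt (C : Chart B g) {ρ F : Type} [Field F] [Algebra L F] {a : Fin g → PS ρ F}
    (h : ∀ b, MvPowerSeries.constantCoeff (a b) = 0) (p : B.Pt F) : ∃ y, RepAt C p a y := by
  obtain ⟨⟨q, hq⟩, -⟩ := tau1 C h
  obtain ⟨y, hy⟩ := Pkg.exists_rep (cst B ρ p + q)
  exact ⟨y, q, hq, hy⟩

lemma repAt_blk {C : Chart B g} {κ ρ F : Type} [Finite ρ] [Field F] [Algebra L F] (i : κ)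
    {a : Fin g → PS ρ F} (h : ∀ b, MvPowerSeries.constantCoeff (a b) = 0) {p : B.Pt F}
    {y : σ → PS ρ F} (hy : RepAt C p a y) :
    RepAt C p (fun b => blk i (a b)) fun s => blk i (y s) := by
  simpa only [blkA_apply] using
    repAt_map (blkA F i) (fun f hf => by rw [blkA_apply, cc_blk, hf]) h hy

end T85

open T85 in
theorem st_GLUE : St_GLUE := by
  intro L σ _ _ _ B g C κ ρ _ _ _ x th y1 y0 h0 h1 h2 F δ hF
  have hc : ∀ s : κ × Fin g, MvPowerSeries.constantCoeff (blk s.1 (th s.1 s.2)) = 0 :=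
    fun s => (cc_blk _ _).trans (h0 _ _)
  have hs := MvPowerSeries.hasSubst_of_constantCoeff_zero hc
  have k2 := fun i => repAt_map (MvPowerSeries.substAlgHom hs)
    (fun f hf => by rw [MvPowerSeries.substAlgHom_apply, cc_subst hs hc, hf, map_zero])
    (fun b => by simp) (h2 i)
  simp only [MvPowerSeries.substAlgHom_X] at k2
  choose c hc1 hc2 using fun i => repAt_unit (k2 i) (repAt_blk i (h0 i) (h1 i))
  refine ⟨∏ i, c i ^ δ i, unit_iff.1 (IsUnit.prod_univ_iff.2 fun i => (hc1 i).pow _), ?_⟩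
  rw [← MvPowerSeries.substAlgHom_apply hs, ← T1.evB_map, ← T1.evB_smul hF]
  exact congrArg (evB · F) (funext hc2)

end D4C
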