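import Pool.Agent.Lib.D4C.BlueF
import Pool.Agent.Lib.D4C.B_LOC
import Pool.Agent.Lib.D4C.B_VAN
import Pool.Agent.Lib.D4C.B_DIM

/-! Generic points and isomorphisms of function fields. -/

namespace D4C

open MvPolynomial

namespace T13

variable {k σ Ω Ω' : Type} [Field k] [Field Ω] [Algebra k Ω] [Field Ω'] [Algebra k Ω']

theorem exists_alg {A B C : Type} [CommRing A] [CommRing B] [CommRing C] [Algebra k A]
    [Algebra k B] [Algebra k C] (f : A →ₐ[k] B) (g : A →ₐ[k] C) (hf : Function.Surjective f)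
    (hg : Function.Surjective g) (h : ∀ a, f a = 0 ↔ g a = 0) :
    ∃ e : B ≃ₐ[k] C, ∀ a, e (f a) = g a := by
  have hk : RingHom.ker f = RingHom.ker g := Ideal.ext h
  refine ⟨(Ideal.quotientKerAlgEquivOfSurjective hf).symm.trans
    ((Ideal.quotientEquivAlgOfEq k hk).trans (Ideal.quotientKerAlgEquivOfSurjective hg)),
    fun a => ?_⟩
  rw [AlgEquiv.trans_apply, Ideal.quotientKerAlgEquivOfSurjective_symm_apply]
  rfl

/-- evaluation with values in the algebra generated by the tuple -/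
noncomputable def evA (k : Type) [Field k] [Algebra k Ω] (u : σ → Ω) :
    MvPolynomial σ k →ₐ[k] Algebra.adjoin k (Set.range u) :=
  (aeval u).codRestrict _ fun F => by
    rw [Algebra.adjoin_range_eq_range_aeval]; exact ⟨F, rfl⟩

theorem evA_coe (u : σ → Ω) (F : MvPolynomial σ k) : (evA k u F : Ω) = aeval u F := rfl

theorem evA_surj (u : σ → Ω) : Function.Surjective (evA k u) := by
  rintro ⟨a, ha⟩
  rw [Algebra.adjoin_range_eq_range_aeval] at ha
  obtain ⟨F, rfl⟩ := ha
  exact ⟨F, rfl⟩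

open scoped IntermediateField.algebraAdjoinAdjoin in
/-- two tuples with the same algebraic relations generate isomorphic fields -/
theorem exists_equiv (u : σ → Ω) (v : σ → Ω')
    (h : ∀ F : MvPolynomial σ k, aeval u F = 0 ↔ aeval v F = 0) (E : IntermediateField k Ω)
    (E' : IntermediateField k Ω') (hE : E = IntermediateField.adjoin k (Set.range u))
    (hE' : E' = IntermediateField.adjoin k (Set.range v)) :
    ∃ e : E ≃ₐ[k] E', ∀ i (hi : u i ∈ E), (e ⟨u i, hi⟩ : Ω') = v i := by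
  subst hE hE'
  obtain ⟨e0, he⟩ := exists_alg (evA k u) (evA k v) (evA_surj u) (evA_surj v) fun F => by
    rw [Subtype.ext_iff, Subtype.ext_iff, evA_coe, evA_coe]
    exact h F
  refine ⟨IsFractionRing.algEquivOfAlgEquiv e0, fun i hi => ?_⟩
  have h2 : (⟨u i, hi⟩ : IntermediateField.adjoin k (Set.range u)) =
      algebraMap (Algebra.adjoin k (Set.range u)) _ (evA k u (X i)) :=
    Subtype.ext (aeval_X u i).symm
  rw [h2, IsFractionRing.algEquivOfAlgEquiv_algebraMap, he]
  exact aeval_X v i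

/-- homogenisation with respect to one variable -/
noncomputable def hz (j : σ) (F : MvPolynomial σ k) : MvPolynomial σ k :=
  ∑ n ∈ Finset.range (F.totalDegree + 1), X j ^ (F.totalDegree - n) * homogeneousComponent n F

theorem hz_hom (j : σ) (F : MvPolynomial σ k) : (hz j F).IsHomogeneous F.totalDegree := by
  refine IsHomogeneous.sum _ _ _ fun n hn => ?_
  have := (isHomogeneous_X_pow (R := k) j (F.totalDegree - n)).mul
    (homogeneousComponent_isHomogeneous n F)
  rwa [Nat.sub_add_cancel (Nat.lt_succ_iff.mp (Finset.mem_range.mp hn))] at this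

theorem hz_zero {x : σ → Ω} {j : σ} (hj : x j ≠ 0) (F : MvPolynomial σ k) :
    aeval x (hz j F) = 0 ↔ aeval (fun i => x i / x j) F = 0 := by
  have h1 : x = x j • fun i => x i / x j := funext fun i => by
    simp [mul_div_cancel₀ _ hj]
  have h2 : aeval (fun i => x i / x j) (hz j F) = aeval (fun i => x i / x j) F := by
    conv_rhs => rw [← sum_homogeneousComponent F]
    simp [hz, div_self hj]
  conv_lhs => rw [h1]
  rw [aeval_smul_hom (hz_hom j F), h2, mul_eq_zero, or_iff_right (pow_ne_zero _ hj)]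

theorem rat_eq {x : σ → Ω} {j : σ} (hj : x j ≠ 0) :
    rat k x = IntermediateField.adjoin k (Set.range fun i => x i / x j) := by
  refine le_antisymm (IntermediateField.adjoin_le_iff.mpr ?_)
    (IntermediateField.adjoin.mono _ _ _ ?_)
  · rintro _ ⟨⟨a, b⟩, rfl⟩
    change x a / x b ∈ _
    rw [← div_div_div_cancel_right₀ hj (x a) (x b)]
    exact div_mem (IntermediateField.subset_adjoin _ _ ⟨a, rfl⟩)
      (IntermediateField.subset_adjoin _ _ ⟨b, rfl⟩)
  · rintro _ ⟨a, rfl⟩
    exact ⟨(a, j), rfl⟩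

theorem iso {q : Ideal (MvPolynomial σ k)} {x : σ → Ω} {y : σ → Ω'} (hx : PGen q x)
    (hy : PGen q y) : ∃ e : rat k x ≃ₐ[k] rat k y, ∀ (i j : σ) (h : x i / x j ∈ rat k x),
      (e ⟨x i / x j, h⟩ : Ω') = y i / y j := by
  obtain ⟨j, hj⟩ := Function.ne_iff.mp hx.1
  have hj' : y j ≠ 0 := fun h => hj <| by
    simpa using (hx.2 _ _ (isHomogeneous_X k j)).mpr
      ((hy.2 _ _ (isHomogeneous_X k j)).mp (by simpa using h))
  obtain ⟨e, he⟩ := exists_equiv (k := k) (fun i => x i / x j) (fun i => y i / y j)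
    (fun F => by rw [← hz_zero hj, ← hz_zero hj', hx.2 _ _ (hz_hom j F), hy.2 _ _ (hz_hom j F)])
    _ _ (rat_eq hj) (rat_eq hj')
  refine ⟨e, fun a b h => ?_⟩
  have m : ∀ i, x i / x j ∈ rat k x := fun i => IntermediateField.subset_adjoin _ _ ⟨(i, j), rfl⟩
  have h1 : (⟨x a / x b, h⟩ : rat k x) = ⟨_, m a⟩ / ⟨_, m b⟩ :=
    Subtype.ext (div_div_div_cancel_right₀ hj (x a) (x b)).symm
  rw [h1, map_div₀, IntermediateField.coe_div, he, he, div_div_div_cancel_right₀ hj']

theorem ex (q : Ideal (MvPolynomial σ k)) [q.IsPrime] (h : ∃ i, X i ∉ q) :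
    ∃ (Ω : Type) (_ : Field Ω) (_ : Algebra k Ω) (_ : IsAlgClosed Ω) (x : σ → Ω),
      x ≠ 0 ∧ ∀ F, aeval x F = 0 ↔ F ∈ q := by
  let f : (MvPolynomial σ k ⧸ q) →ₐ[k] AlgebraicClosure (FractionRing (MvPolynomial σ k ⧸ q)) :=
    (IsScalarTower.toAlgHom k (FractionRing (MvPolynomial σ k ⧸ q)) _).comp
      (IsScalarTower.toAlgHom k _ _)
  have hf : Function.Injective f :=
    (algebraMap (FractionRing (MvPolynomial σ k ⧸ q)) _).injective.comp
      (IsFractionRing.injective (MvPolynomial σ k ⧸ q) _)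
  have key : ∀ F : MvPolynomial σ k,
      aeval (fun i => f (Ideal.Quotient.mkₐ k q (X i))) F = 0 ↔ F ∈ q := fun F => by
    rw [aeval_map_alg, aeval_map_alg, aeval_X_left_apply, map_eq_zero_iff f hf]
    exact Ideal.Quotient.eq_zero_iff_mem
  refine ⟨_, inferInstance, inferInstance, inferInstance, _, fun h0 => ?_, key⟩
  obtain ⟨i, hi⟩ := h
  exact hi ((key _).mp (by rw [aeval_X]; exact congrFun h0 i))

theorem comp_map (n : ℕ) (G : MvPolynomial σ k) :
    homogeneousComponent n (MvPolynomial.map (algebraMap k Ω) G) =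
      MvPolynomial.map (algebraMap k Ω) (homogeneousComponent n G) := by
  ext d
  simp only [coeff_homogeneousComponent, coeff_map]
  split_ifs <;> simp

theorem pts (T : Set (σ → k)) (F : MvPolynomial σ Ω) (d : ℕ) (hF : F.IsHomogeneous d)
    (h : ∀ x ∈ T, aeval (fun i => algebraMap k Ω (x i)) F = 0) :
    F ∈ ext (Ideal.span {G : MvPolynomial σ k | (∃ n, G.IsHomogeneous n) ∧
      ∀ x ∈ T, aeval x G = 0}) Ω := by
  obtain ⟨ι, b, s, G, hb, e⟩ := T51.exists_decomp (κ := k) F
  have e' : F = ∑ i ∈ s, C (b i) *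
      MvPolynomial.map (algebraMap k Ω) (homogeneousComponent d (G i)) := by
    have := congrArg (homogeneousComponent d) e
    rw [homogeneousComponent_of_mem hF, if_pos rfl, map_sum] at this
    simpa only [homogeneousComponent_C_mul, comp_map] using this
  rw [e'] at h ⊢
  refine Ideal.sum_mem _ fun i hi => Ideal.mul_mem_left _ _ (Ideal.mem_map_of_mem _
    (Ideal.subset_span ⟨⟨d, homogeneousComponent_isHomogeneous d _⟩, fun x hx => ?_⟩))
  have h1 := h x hx
  rw [aeval_eq_eval, T51.eval_decomp] at h1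
  exact linearIndependent_iff'.mp hb s _ h1 i hi

end T13

theorem st_GPT : St_GPT where
  ctr _ _ _ _ _ _ _ _ h := T51.map_mem_ext_iff.mp h
  ex _ _ _ _ q _ h := T13.ex q h
  eq k _ _ _ _ _ _ q x hq hx := by
    have h : loc k x = q := le_antisymm
      (Ideal.span_le.mpr fun F ⟨⟨n, hn⟩, h0⟩ => (hx.2 F n hn).mp h0)
      fun F hF => (T51.mem_loc_iff x F).mpr fun n =>
        (hx.2 _ n (homogeneousComponent_isHomogeneous n F)).mpr (hq F hF n)
    exact ⟨h, h ▸ T51.zr_loc x⟩
  iso _ _ _ _ _ _ _ _ _ _ _ _ _ hx hy := T13.iso hx hy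
  pts _ _ _ _ _ _ T F d hF h := T13.pts T F d hF h

end D4C
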