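import Pool.Agent.Lib.D4C.Iface
import Pool.Agent.Lib.G1.Chev

namespace D4C

theorem st_PLACE : St_PLACE := by
  intro K Ω _ _ _ A φ
  obtain ⟨O, f, h1, h2, h3, h4, h5⟩ := G1.blockChev K Ω A φ
  have f1 : f 1 = 1 := by simpa using h2 1
  have f0 : f 0 = 0 := by simpa using h2 0
  let ψ : O →+* Ω :=
    { toFun := fun b => f b
      map_one' := f1
      map_zero' := f0
      map_mul' := fun a b => h4 _ a.2 _ b.2
      map_add' := fun a b => h3 _ a.2 _ b.2 }
  refine ⟨O, fun a ha => h1 a ha, ψ, fun a => h2 a, fun b => ⟨fun hb hu => ?_, fun hb => ?_⟩⟩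
  · exact (hu.map ψ).ne_zero hb
  · by_contra hn
    have hi : (b : K)⁻¹ ∈ O := h5 _ b.2 hn
    have hb0 : (b : K) ≠ 0 := fun h => hn (by
      change f b = 0
      rw [h, f0])
    exact hb (IsUnit.of_mul_eq_one (⟨_, hi⟩ : O) (Subtype.ext (mul_inv_cancel₀ hb0)))

end D4C
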