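import Pool.Agent.Lib.D4C.BlueF
import Pool.Agent.Lib.D4C.B_PLACE

/-! GSP: a point specialises to every point of its locus. -/

namespace D4C

open MvPolynomial

namespace T66

theorem dehom {k σ K : Type} [Field k] [Field K] [Algebra k K] {x : σ → K} {i : σ} (h : x i ≠ 0)
    (F : MvPolynomial σ k) :
    aeval x (∑ n ∈ Finset.range (F.totalDegree + 1),
      X i ^ (F.totalDegree - n) * homogeneousComponent n F) =
      x i ^ F.totalDegree * aeval (fun j => (x i)⁻¹ * x j) F := by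
  conv_rhs => rw [← sum_homogeneousComponent F]
  rw [map_sum, map_sum, sum_homogeneousComponent, Finset.mul_sum]
  refine Finset.sum_congr rfl fun n hn => ?_
  rw [map_mul, map_pow, aeval_X, show (fun j => (x i)⁻¹ * x j) = (x i)⁻¹ • x from rfl,
    aeval_smul_hom (homogeneousComponent_isHomogeneous n F),
    pow_sub₀ _ h (Nat.lt_succ_iff.1 (Finset.mem_range.1 hn)), inv_pow, mul_assoc]

end T66

theorem st_GSP : St_GSP := by
  intro k K Ω σ _ _ _ _ _ _ _ x y _ hy hz
  obtain ⟨i, hi⟩ := Function.ne_iff.1 hy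
  have hx : x i ≠ 0 := fun h => hi (by
    simpa using hz (X i) (Ideal.subset_span ⟨⟨1, isHomogeneous_X _ _⟩, by simpa using h⟩))
  let f : MvPolynomial σ k →+* K := (aeval fun j => (x i)⁻¹ * x j).toRingHom
  let g : MvPolynomial σ k →+* Ω := (aeval fun j => (y i)⁻¹ * y j).toRingHom
  have hk : RingHom.ker f.rangeRestrict ≤ RingHom.ker g := fun F hF => by
    have h1 := hz _ (Ideal.subset_span ⟨⟨F.totalDegree, IsHomogeneous.sum _ _ _ fun n hn => by
      simpa [Nat.sub_add_cancel (Nat.lt_succ_iff.1 (Finset.mem_range.1 hn))] using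
        (isHomogeneous_X_pow i (F.totalDegree - n)).mul (homogeneousComponent_isHomogeneous n F)⟩,
      (T66.dehom hx F).trans (mul_eq_zero_of_right _ (congrArg Subtype.val hF))⟩)
    rw [T66.dehom hi] at h1
    exact (mul_eq_zero.1 h1).resolve_left (pow_ne_zero _ hi)
  obtain ⟨O, h, ψ, h1, h2⟩ := st_PLACE K Ω f.range
    (f.rangeRestrict.liftOfSurjective f.rangeRestrict_surjective ⟨g, hk⟩)
  have h3 : ∀ F, ψ ⟨f F, h ⟨F, rfl⟩⟩ = g F := fun F =>
    (h1 (f.rangeRestrict F)).trans (RingHom.liftOfRightInverse_comp_apply ..)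
  have h4 : ∀ a : k, f (C a) = algebraMap k K a := fun a => by simp [f]
  have h5 : ∀ j, g (X j) = (y i)⁻¹ * y j := fun j => by simp [g]
  refine ⟨⟨O, fun a => h4 a ▸ h ⟨C a, rfl⟩, ψ, fun a => ?_, h2⟩, fun j => ⟨f (X j), h ⟨X j, rfl⟩⟩,
    fun e => ?_, fun a b => ?_, fun a b => ?_⟩
  · simpa [h4, g] using h3 (C a)
  · simpa [h3, h5, inv_mul_cancel₀ hi] using congrFun e i
  · simp only [f, AlgHom.toRingHom_eq_coe, RingHom.coe_coe, aeval_X]
    ring
  · simp only [h3, h5]
    ring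

end D4C
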