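import Pool.Agent.Lib.D4C.BlueF

/-! Calculus of the largest valuation of a coordinate vector. -/

namespace D4C

namespace T44

section one

variable {K ι ι' : Type} [Field K]

/-- every coordinate of `x` is zero or an `O`-multiple of a coordinate of `y` -/
def Dom (O : ValuationSubring K) (x : ι → K) (y : ι' → K) : Prop :=
  ∀ i, x i = 0 ∨ ∃ j, ∃ r ∈ O, x i = r * y j

theorem val_le_iff (O : ValuationSubring K) (a b : K) :
    O.valuation a ≤ O.valuation b ↔ ∃ r ∈ O, a = r * b := by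
  rw [O.valuation_le_iff]
  exact ⟨fun ⟨r, h⟩ => ⟨r, r.2, h.symm⟩, fun ⟨r, hr, h⟩ => ⟨⟨r, hr⟩, h.symm⟩⟩

theorem Dom.mono {O O' : ValuationSubring K} (h : O ≤ O') {x : ι → K} {y : ι' → K}
    (hd : Dom O x y) : Dom O' x y := fun i =>
  (hd i).imp id fun ⟨j, r, hr, e⟩ => ⟨j, r, h hr, e⟩

theorem dom_ext {K' : Type} [Field K'] (f : K →+* K') (O' : ValuationSubring K') (x : ι → K)
    (y : ι' → K) : Dom O' (fun i => f (x i)) (fun j => f (y j)) ↔ Dom (O'.comap f) x y := by
  refine forall_congr' fun i => ⟨?_, ?_⟩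
  · rintro (h | ⟨j, r, hr, e⟩)
    · exact Or.inl ((map_eq_zero f).mp h)
    · by_cases hy : y j = 0
      · left
        simpa [hy] using e
      · refine Or.inr ⟨j, x i / y j, ?_, (div_mul_cancel₀ _ hy).symm⟩
        have e' : f (x i) = r * f (y j) := e
        rw [ValuationSubring.mem_comap, map_div₀, e',
          mul_div_cancel_right₀ _ ((map_ne_zero f).mpr hy)]
        exact hr
  · rintro (h | ⟨j, r, hr, e⟩)
    · left
      simp [h]
    · exact Or.inr ⟨j, f r, hr, by simp [e]⟩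

theorem dom_comp {k Ω : Type} [Field k] [Field Ω] [Algebra k K] [Algebra k Ω] (P : Plc k K Ω)
    (O' : ValuationSubring Ω) (x : ι → P.O) (y : ι' → P.O) (hy : ∃ j, P.ψ (y j) ≠ 0) :
    Dom (P.comp O') (fun i => (x i : K)) (fun j => (y j : K)) ↔
      Dom O' (fun i => P.ψ (x i)) fun j => P.ψ (y j) := by
  have key : ∀ i j, P.ψ (y j) ≠ 0 → ∀ r ∈ O', P.ψ (x i) = r * P.ψ (y j) →
      ∃ r ∈ P.comp O', (x i : K) = r * (y j : K) := by
    intro i j hj r hr e
    have hu : IsUnit (y j) := by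
      by_contra hu
      exact hj ((P.ker _).mpr hu)
    obtain ⟨w, hw⟩ := hu.exists_left_inv
    have h1 : x i = x i * w * y j := by rw [mul_assoc, hw, mul_one]
    refine ⟨((x i * w : P.O) : K), (P.mem_comp O' _).mpr ⟨(x i * w).2, ?_⟩, congrArg Subtype.val h1⟩
    have h2 : P.ψ (x i * w) * P.ψ (y j) = r * P.ψ (y j) := by rw [← map_mul, ← h1, e]
    have h3 : P.ψ (x i * w) = r := mul_right_cancel₀ hj h2
    exact h3 ▸ hr
  refine forall_congr' fun i => ⟨?_, ?_⟩
  · rintro (h | ⟨j, r, hr, e⟩)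
    · left
      have : x i = 0 := Subtype.ext h
      simp [this]
    · obtain ⟨h1, h2⟩ := (P.mem_comp O' r).mp hr
      have : x i = ⟨r, h1⟩ * y j := Subtype.ext e
      exact Or.inr ⟨j, _, h2, by simp only [this, map_mul]⟩
  · intro h
    by_cases h0 : P.ψ (x i) = 0
    · obtain ⟨j, hj⟩ := hy
      exact Or.inr ⟨j, key i j hj 0 O'.zero_mem (by rw [h0, zero_mul])⟩
    · obtain ⟨j, r, hr, e⟩ := h.resolve_left h0
      have e' : P.ψ (x i) = r * P.ψ (y j) := e
      exact Or.inr ⟨j, key i j (fun hj => h0 (by rw [e', hj, mul_zero])) r hr e'⟩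

variable [Fintype ι] [Fintype ι']

theorem le_gv (O : ValuationSubring K) (x : ι → K) (i : ι) : O.valuation (x i) ≤ gv O x :=
  Finset.le_sup (f := fun i => O.valuation (x i)) (Finset.mem_univ i)

theorem gv_le {O : ValuationSubring K} {x : ι → K} {g : O.ValueGroup}
    (h : ∀ i, O.valuation (x i) ≤ g) : gv O x ≤ g := Finset.sup_le fun i _ => h i

theorem gv_zero (O : ValuationSubring K) : gv O (0 : ι → K) = 0 :=
  le_antisymm (gv_le fun _ => by simp) zero_le

theorem att (O : ValuationSubring K) (x : ι → K) (hx : x ≠ 0) :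
    ∃ i, x i ≠ 0 ∧ gv O x = O.valuation (x i) ∧ ∀ j, x j / x i ∈ O := by
  obtain ⟨i0, h0⟩ := Function.ne_iff.mp hx
  obtain ⟨i, -, hi⟩ := Finset.exists_max_image Finset.univ (fun i => O.valuation (x i))
    ⟨i0, Finset.mem_univ _⟩
  have h1 : ∀ j, ∃ r ∈ O, x j = r * x i := fun j => (val_le_iff O _ _).mp (hi j (Finset.mem_univ _))
  have h2 : x i ≠ 0 := by
    intro h
    obtain ⟨r, -, e⟩ := h1 i0
    exact h0 (by rw [e, h, mul_zero]; rfl)
  refine ⟨i, h2, le_antisymm (gv_le fun j => hi j (Finset.mem_univ _)) (le_gv O x i), fun j => ?_⟩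
  obtain ⟨r, hr, e⟩ := h1 j
  rw [e, mul_div_cancel_right₀ _ h2]
  exact hr

theorem gv_smul (O : ValuationSubring K) (c : K) (x : ι → K) :
    gv O (c • x) = O.valuation c * gv O x := by
  apply le_antisymm
  · refine gv_le fun i => ?_
    rw [Pi.smul_apply, smul_eq_mul, map_mul]
    exact mul_le_mul_right (le_gv O x i) _
  · by_cases hx : x = 0
    · rw [hx, gv_zero, mul_zero]
      exact zero_le
    · obtain ⟨i, -, hi, -⟩ := att O x hx
      rw [hi, ← map_mul]
      exact le_gv O (c • x) i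

theorem gv_le_iff (O : ValuationSubring K) (x : ι → K) (y : ι' → K) :
    gv O x ≤ gv O y ↔ Dom O x y := by
  constructor
  · intro h i
    have h1 := (le_gv O x i).trans h
    by_cases hy : y = 0
    · left
      rw [hy, gv_zero] at h1
      exact O.valuation.zero_iff.mp (le_antisymm h1 zero_le)
    · obtain ⟨j, -, hj, -⟩ := att O y hy
      rw [hj] at h1
      exact Or.inr ⟨j, (val_le_iff O _ _).mp h1⟩
  · intro h
    refine gv_le fun i => ?_
    rcases h i with h0 | ⟨j, hj⟩
    · rw [h0, map_zero]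
      exact zero_le
    · exact ((val_le_iff O _ _).mpr hj).trans (le_gv O y j)

theorem le_iff (O : ValuationSubring K) (c : K) (x : ι → K) (y : ι' → K) (hy : y ≠ 0) :
    O.valuation c * gv O x ≤ gv O y ↔ ∃ j, ∀ i, ∃ r ∈ O, c * x i = r * y j := by
  rw [← gv_smul]
  constructor
  · intro h
    obtain ⟨j, -, hj, -⟩ := att O y hy
    exact ⟨j, fun i => (val_le_iff O _ _).mp (hj ▸ (le_gv O (c • x) i).trans h)⟩
  · rintro ⟨j, hj⟩
    exact gv_le fun i => ((val_le_iff O _ _).mpr (hj i)).trans (le_gv O y j)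

end one

section two

variable {K σ : Type} [Field K] [Fintype σ] {r s : ℕ}

theorem gv_prod (O : ValuationSubring K) (a : Fin r → σ → K) :
    ∏ i, gv O (a i) = gv O fun j : Fin r → σ => ∏ i, a i (j i) := by
  apply le_antisymm
  · by_cases h : ∃ i, a i = 0
    · obtain ⟨i, hi⟩ := h
      rw [Finset.prod_eq_zero (Finset.mem_univ i) (by rw [hi, gv_zero])]
      exact zero_le
    · choose j _ hj _ using fun i => att O (a i) fun hi => h ⟨i, hi⟩
      rw [Finset.prod_congr rfl fun i _ => hj i, ← map_prod]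
      exact le_gv O (fun j : Fin r → σ => ∏ i, a i (j i)) j
  · refine gv_le fun j => ?_
    rw [map_prod]
    exact Finset.prod_le_prod' fun i _ => le_gv O (a i) (j i)

theorem lhs_eq (O : ValuationSubring K) (c : K) (a : Fin r → σ → K) :
    O.valuation c * ∏ i, gv O (a i) = gv O fun j : Fin r → σ => c * ∏ i, a i (j i) := by
  rw [gv_prod, ← gv_smul]
  rfl

theorem leF_iff (O : ValuationSubring K) (c : K) (a : Fin r → σ → K) (b : Fin s → σ → K) :
    LeF O c a b ↔ Dom O (fun j : Fin r → σ => c * ∏ i, a i (j i))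
      fun j : Fin s → σ => ∏ i, b i (j i) := by
  rw [LeF, lhs_eq, gv_prod, gv_le_iff]

theorem eqF_iff (O : ValuationSubring K) (c : K) (a : Fin r → σ → K) (b : Fin s → σ → K) :
    EqF O c a b ↔ Dom O (fun j : Fin r → σ => c * ∏ i, a i (j i))
      (fun j : Fin s → σ => ∏ i, b i (j i)) ∧ Dom O (fun j : Fin s → σ => ∏ i, b i (j i))
        fun j : Fin r → σ => c * ∏ i, a i (j i) := by
  rw [EqF, lhs_eq, gv_prod, le_antisymm_iff, gv_le_iff, gv_le_iff]

omit [Fintype σ] in
theorem exists_prod_ne {a : Fin r → σ → K} (h : ∀ i, a i ≠ 0) :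
    ∃ j : Fin r → σ, ∏ i, a i (j i) ≠ 0 := by
  choose j hj using fun i => Function.ne_iff.mp (h i)
  exact ⟨j, Finset.prod_ne_zero_iff.mpr fun i _ => hj i⟩

end two

end T44

open T44

theorem st_GV : St_GV where
  le_iff := fun _ _ _ _ _ _ O c x y hy => le_iff O c x y hy
  att := fun _ _ _ _ O x hx => att O x hx
  smul := fun _ _ _ _ O c x => gv_smul O c x
  prod := fun _ _ _ _ _ O a => gv_prod O a
  mono := fun _ _ _ _ _ _ O O' c a b h => by
    simp only [leF_iff, eqF_iff]
    exact ⟨fun h1 => h1.mono h, fun h1 => ⟨h1.1.mono h, h1.2.mono h⟩⟩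
  ext := fun _ _ _ _ _ _ _ _ f O' c a b => by
    simp only [leF_iff, eqF_iff, ← map_prod, ← map_mul, dom_ext, and_self]
  comp := fun k K Ω σ _ _ _ _ _ _ r s P O' c a b ha hb => by
    obtain ⟨ja, hja⟩ := exists_prod_ne ha
    obtain ⟨jb, hjb⟩ := exists_prod_ne hb
    have h1 := dom_comp P O' (fun j : Fin r → σ => c * ∏ i, a i (j i))
      (fun j : Fin s → σ => ∏ i, b i (j i)) ⟨jb, by rw [map_prod]; exact hjb⟩
    have h2 := fun hc : P.ψ c ≠ 0 => dom_comp P O' (fun j : Fin s → σ => ∏ i, b i (j i))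
      (fun j : Fin r → σ => c * ∏ i, a i (j i))
      ⟨ja, by rw [map_mul, map_prod]; exact mul_ne_zero hc hja⟩
    simp only [map_mul, map_prod, MulMemClass.coe_mul, SubmonoidClass.coe_finsetProd] at h1 h2
    simp only [leF_iff, eqF_iff]
    exact ⟨h1, fun hc => and_congr h1 (h2 hc)⟩

end D4C
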