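import Pool.Agent.Lib.D4C.Iface

/-! Row CONE of the d4c56 blueprint: many points in a narrow cone. -/

namespace D4C

open Filter

namespace T32

/-- Northcott property for the points of a package -/
theorem northcott {L σ : Type} [Field L] [NumberField L] [Fintype σ] [DecidableEq σ]
    (B : Pkg L σ) (b : ℝ) : {p : B.Pt L | B.ht p ≤ b}.Finite := by
  classical
  have hT : {x : σ → L | ∀ i, x i ∈ {a : L | Height.logHeight₁ a ≤ b}}.Finite :=
    Set.Finite.pi' fun _ => NumberField.finite_setOfPred_logHeight₁_le L b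
  refine (hT.image fun x => if h : Uni x ∧ Zr B.I x then B.pt x h.1 h.2 else 0).subset ?_
  intro p hp
  obtain ⟨x, hx⟩ := Pkg.exists_rep p
  obtain ⟨k, hk⟩ := hx.uni
  have hy : B.Rep p ((x k)⁻¹ • x) := hx.smul hk.inv
  have hk1 : ((x k)⁻¹ • x) k = 1 := by simp [hk.ne_zero]
  refine ⟨(x k)⁻¹ • x, fun i => ?_, ?_⟩
  · have h1 := Height.logHeight_comp_le ![i, k] ((x k)⁻¹ • x)
    have h2 : ((x k)⁻¹ • x) ∘ ![i, k] = ![((x k)⁻¹ • x) i, 1] := by
      funext j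
      fin_cases j
      · rfl
      · exact hk1
    rw [h2, ← hy.ht] at h1
    show Height.logHeight₁ _ ≤ b
    rw [Height.logHeight₁_eq_logHeight]
    exact h1.trans hp
  · obtain ⟨hu, hz, h⟩ := hy
    show (if h : _ ∧ _ then B.pt _ h.1 h.2 else 0) = p
    rw [dif_pos ⟨hu, hz⟩]
    exact h.symm

/-- a finitely generated group maps onto a lattice with finite boxes -/
theorem lattice (G : Type) [AddCommGroup G] (hG : AddGroup.FG G) :
    ∃ (r : ℕ) (φ : G →+ (Fin r → ℤ)), Function.Surjective φ ∧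
      ∀ R : ℤ, {p : G | ∀ i, |φ p i| ≤ R}.Finite := by
  classical
  obtain ⟨r, ι, _, p, hp, e, ⟨f⟩⟩ := AddCommGroup.equiv_free_prod_directSum_zmod G
  have hne : ∀ i, NeZero (p i ^ e i) := fun i => ⟨pow_ne_zero _ (hp i).ne_zero⟩
  have hfin : Finite (DirectSum ι fun i => ZMod (p i ^ e i)) :=
    Finite.of_equiv _ (DFinsupp.equivFunOnFintype (β := fun i => ZMod (p i ^ e i))).symm
  let φ : G →+ (Fin r → ℤ) := AddMonoidHom.mk' (fun g i => (f g).1 i) fun a b => by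
    funext i
    simp
  refine ⟨r, φ, fun a => ⟨f.symm (Finsupp.equivFunOnFinite.symm a, 0), ?_⟩, fun R => ?_⟩
  · funext i
    simp [φ]
  · have hT : {a : Fin r → ℤ | ∀ i, a i ∈ Set.Icc (-R) R}.Finite :=
      Set.Finite.pi' fun _ => Set.finite_Icc _ _
    have hT2 := hT.prod (Set.finite_univ (α := DirectSum ι fun i => ZMod (p i ^ e i)))
    refine (hT2.image fun a => f.symm (Finsupp.equivFunOnFinite.symm a.1, a.2)).subset ?_
    intro g hg
    refine ⟨(φ g, (f g).2), ⟨fun i => abs_le.mp (hg i), trivial⟩, ?_⟩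
    apply f.injective
    simp only [AddEquiv.apply_symm_apply]
    refine Prod.ext ?_ rfl
    ext i
    simp [φ]

section abs

variable {G : Type} [AddCommGroup G] {r : ℕ} {φ : G →+ (Fin r → ℤ)}

/-- division with remainder -/
theorem divide (hs : Function.Surjective φ) (p : G) (a : ℕ) :
    ∃ d : G, (∀ i, φ d i = φ p i / 2 ^ a) ∧ ∀ i, φ (p - 2 ^ a • d) i = φ p i % 2 ^ a := by
  obtain ⟨d, hd⟩ := hs fun i => φ p i / 2 ^ a
  refine ⟨d, fun i => by rw [hd], fun i => ?_⟩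
  rw [map_sub, map_nsmul, hd, Pi.sub_apply, Pi.smul_apply, nsmul_eq_mul, Int.emod_def]
  push_cast
  rfl

theorem abs_emod_le (x : ℤ) (a : ℕ) : |x % 2 ^ a| ≤ 2 ^ a := by
  have h : (0 : ℤ) < 2 ^ a := by positivity
  rw [abs_of_nonneg (Int.emod_nonneg _ h.ne')]
  exact (Int.emod_lt_of_pos _ h).le

theorem abs_ediv_le {x : ℤ} {a t : ℕ} (hx : |x| ≤ 2 ^ (a + t)) : |x / 2 ^ a| ≤ 2 ^ t := by
  have h : (0 : ℤ) < 2 ^ a := by positivity
  rw [abs_le] at hx ⊢
  rw [pow_add] at hx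
  constructor
  · rw [Int.le_ediv_iff_mul_le h]
    nlinarith [hx.1]
  · apply Int.ediv_le_of_le_mul h
    nlinarith [hx.2]

theorem le_abs_ediv {x : ℤ} {a t : ℕ} (hx : 2 ^ (a + t) ≤ |x|) : 2 ^ t ≤ |x / 2 ^ a| := by
  have h : (0 : ℤ) < 2 ^ a := by positivity
  rw [pow_add] at hx
  rcases le_abs'.mp hx with h1 | h1
  · refine le_abs'.mpr (Or.inl ?_)
    apply Int.ediv_le_of_le_mul h
    nlinarith
  · refine le_abs'.mpr (Or.inr ?_)
    rw [Int.le_ediv_iff_mul_le h]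
    nlinarith

variable {H : G → ℝ} {β : ℝ}

/-- quadratic upper bound -/
theorem upper (hs : Function.Surjective φ) (hf : ∀ R : ℤ, {p : G | ∀ i, |φ p i| ≤ R}.Finite)
    (hβ : 1 ≤ β) (hadd : ∀ p q, H (p + q) ≤ β * (H p + H q))
    (hdbl : ∀ (κ : ℕ) p, H (2 ^ κ • p) ≤ 2 * 4 ^ κ * H p) :
    ∃ K : ℝ, 1 ≤ K ∧ ∀ (m : ℕ) (p : G), (∀ i, |φ p i| ≤ 2 ^ m) → H p ≤ K * 4 ^ m := by
  obtain ⟨t, ht⟩ : ∃ t : ℕ, 2 * β < 4 ^ t := pow_unbounded_of_one_lt _ (by norm_num)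
  have ht0 : 0 < t := by
    rcases Nat.eq_zero_or_pos t with h | h
    · rw [h] at ht
      norm_num at ht
      linarith
    · exact h
  obtain ⟨M0, hM0⟩ := ((hf (2 ^ t)).image H).bddAbove
  obtain ⟨M, hM1, hM⟩ : ∃ M : ℝ, 1 ≤ M ∧ ∀ p : G, (∀ i, |φ p i| ≤ 2 ^ t) → H p ≤ M :=
    ⟨max 1 M0, le_max_left _ _, fun p hp => (hM0 ⟨p, hp, rfl⟩).trans (le_max_right _ _)⟩
  have key : ∀ (J : ℕ) (p : G), (∀ i, |φ p i| ≤ 2 ^ (t * J + t)) →
      H p ≤ 4 * β * M * 4 ^ (t * J) := by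
    intro J
    induction J with
    | zero =>
      intro p hp
      simp only [mul_zero, zero_add, pow_zero, mul_one] at hp ⊢
      have := hM p hp
      nlinarith
    | succ J ih =>
      intro p hp
      obtain ⟨d, hd, hr⟩ := divide hs p (t * (J + 1))
      have h1 : H d ≤ M := hM d fun i => by rw [hd]; exact abs_ediv_le (hp i)
      have h2 := ih (p - 2 ^ (t * (J + 1)) • d) fun i => by
        rw [hr]
        exact abs_emod_le _ _
      have h3 := hadd (2 ^ (t * (J + 1)) • d) (p - 2 ^ (t * (J + 1)) • d)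
      rw [add_sub_cancel] at h3
      have h4 := hdbl (t * (J + 1)) d
      have h5 : (4 : ℝ) ^ (t * (J + 1)) = 4 ^ (t * J) * 4 ^ t := by rw [mul_add, mul_one, pow_add]
      rw [h5] at h4 ⊢
      have h6 : (0 : ℝ) < 4 ^ (t * J) := by positivity
      set X : ℝ := 4 ^ (t * J)
      set Y : ℝ := 4 ^ t
      have h7 : H (2 ^ (t * (J + 1)) • d) ≤ 2 * (X * Y) * M :=
        h4.trans (mul_le_mul_of_nonneg_left h1 (by positivity))
      have h8 : 4 * β * M * X ≤ 2 * (X * Y) * M := by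
        have : 0 ≤ (Y - 2 * β) * (X * M) := mul_nonneg (by linarith) (by positivity)
        nlinarith
      calc H p ≤ β * (2 * (X * Y) * M + 2 * (X * Y) * M) :=
            h3.trans (mul_le_mul_of_nonneg_left (by linarith) (by linarith))
        _ = 4 * β * M * (X * Y) := by ring
  refine ⟨4 * β * M, by nlinarith, fun m p hp => ?_⟩
  have h1 : m ≤ t * (m / t) + t := by
    have := Nat.div_add_mod m t
    have := Nat.mod_lt m ht0
    omega
  refine (key (m / t) p fun i => (hp i).trans (pow_le_pow_right₀ (by norm_num) h1)).trans ?_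
  exact mul_le_mul_of_nonneg_left (pow_le_pow_right₀ (by norm_num) (Nat.mul_div_le m t))
    (by positivity)

/-- quadratic lower bound -/
theorem lower (hs : Function.Surjective φ) (hβ : 1 ≤ β) {C K : ℝ}
    (hadd : ∀ p q, H (p + q) ≤ β * (H p + H q)) (hneg : ∀ p, H (-p) = H p)
    (hlow : ∀ (κ : ℕ) p, 4 ^ κ * (H p - C) ≤ H (2 ^ κ • p)) (hN : ∀ b, {p | H p ≤ b}.Finite)
    (hK : ∀ (m : ℕ) (p : G), (∀ i, |φ p i| ≤ 2 ^ m) → H p ≤ K * 4 ^ m) :
    ∃ (j : ℕ) (c : ℝ), 0 < c ∧ ∀ (m : ℕ) (p : G), j ≤ m → (∃ i, 2 ^ m ≤ |φ p i|) →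
      c * 4 ^ m ≤ H p := by
  obtain ⟨R, hR⟩ := ((hN (C + β * K + 1)).image fun p => ∑ i, |φ p i|).bddAbove
  obtain ⟨j, hj⟩ : ∃ j : ℕ, R < 2 ^ j := pow_unbounded_of_one_lt _ (by norm_num)
  refine ⟨j, 1 / (β * 4 ^ j), by positivity, fun m p hm ⟨i, hi⟩ => ?_⟩
  obtain ⟨a, rfl⟩ : ∃ a, m = a + j := ⟨m - j, by omega⟩
  obtain ⟨d, hd, hr⟩ := divide hs p a
  have h1 : C + β * K + 1 < H d := by
    by_contra hc
    have h2 : ∑ i, |φ d i| ≤ R := hR ⟨d, not_lt.mp hc, rfl⟩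
    have h3 : |φ d i| ≤ ∑ i, |φ d i| :=
      Finset.single_le_sum (f := fun i => |φ d i|) (fun _ _ => abs_nonneg _) (Finset.mem_univ i)
    have h4 := le_abs_ediv hi
    rw [← hd] at h4
    linarith
  have h2 := hK a (p - 2 ^ a • d) fun i => by
    rw [hr]
    exact abs_emod_le _ _
  have h3 := hadd p (-(p - 2 ^ a • d))
  rw [hneg, neg_sub, add_sub_cancel] at h3
  have h4 := hlow a d
  have h5 : (0 : ℝ) < 4 ^ a := by positivity
  have h6 : (4 : ℝ) ^ a ≤ β * H p := by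
    have h7 : 4 ^ a * (β * K + 1) ≤ 4 ^ a * (H d - C) :=
      mul_le_mul_of_nonneg_left (by linarith) h5.le
    have h8 : β * H (p - 2 ^ a • d) ≤ β * (K * 4 ^ a) :=
      mul_le_mul_of_nonneg_left h2 (by linarith)
    nlinarith
  rw [pow_add, div_mul_eq_mul_div, div_le_iff₀ (by positivity)]
  have h9 : (0 : ℝ) < 4 ^ j := by positivity
  nlinarith

end abs

/-- the cone lemma for an abstract height -/
theorem cone {G : Type} [AddCommGroup G] (hG : AddGroup.FG G) (h : G → ℝ) (β C : ℝ) (hβ : 1 ≤ β)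
    (hC : 0 ≤ C) (h0 : ∀ p, 0 ≤ h p) (hneg : ∀ p, h (-p) = h p)
    (hadd : ∀ p q, h (p + q) ≤ β * h p + β * h q + C)
    (hdbl : ∀ (κ : ℕ) p, |h (2 ^ κ • p) - 4 ^ κ * h p| ≤ C * 4 ^ κ)
    (hN : ∀ b, {p | h p ≤ b}.Finite) :
    ∃ C : ℝ, 1 ≤ C ∧ ∀ (U : Ultrafilter ℕ) (x : ℕ → G),
    Tendsto (fun n => h (x n)) U atTop → ∀ (k ρ : ℕ) (θ : ℝ), 0 < θ → ∀ S ∈ U,
    ∃ n κ : Fin (k + 1) → ℕ, (∀ i, n i ∈ S) ∧ (∀ i j, i < j → ρ * 4 ^ κ j ≤ 4 ^ κ i) ∧ ∀ i,
      h (2 ^ κ i • x (n i) - 2 ^ κ 0 • x (n 0)) ≤ θ * (4 ^ κ 0 * h (x (n 0))) ∧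
      4 ^ κ 0 * h (x (n 0)) ≤ C * (4 ^ κ i * h (x (n i))) ∧
      4 ^ κ i * h (x (n i)) ≤ C * (4 ^ κ 0 * h (x (n 0))) := by
  classical
  obtain ⟨r, φ, hs, hf⟩ := lattice G hG
  have hadd' : ∀ p q, h (p + q) + C ≤ β * ((h p + C) + (h q + C)) := fun p q => by
    have := hadd p q
    nlinarith
  obtain ⟨K, hK1, hK⟩ := upper (H := fun p => h p + C) hs hf hβ hadd' fun κ p => by
    have h1 := (abs_le.mp (hdbl κ p)).2
    have h2 : (1 : ℝ) ≤ 4 ^ κ := one_le_pow₀ (by norm_num)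
    have h3 := h0 p
    nlinarith [mul_nonneg (sub_nonneg.mpr h2) hC, mul_nonneg (zero_le_one.trans h2) h3]
  obtain ⟨j, c, hc, hL⟩ := lower (H := fun p => h p + C) (C := 2 * C) hs hβ hadd'
    (fun p => by rw [hneg]) (fun κ p => by
      have h1 := (abs_le.mp (hdbl κ p)).1
      nlinarith) (fun b => (hN (b - C)).subset fun p hp => by
        simp only [Set.mem_ofPred_eq] at hp ⊢
        linarith) hK
  refine ⟨max 1 (8 * K / c), le_max_left _ _, fun U x hx k ρ θ hθ S hS => ?_⟩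
  -- scale of a point
  have hsc : ∀ p : G, ∃ m : ℕ, (∀ i, |φ p i| ≤ 2 ^ (m + 1)) ∧ (m = 0 ∨ ∃ i, 2 ^ m ≤ |φ p i|) := by
    intro p
    have hex : ∃ m : ℕ, ∀ i, |φ p i| ≤ 2 ^ (m + 1) := by
      obtain ⟨m, hm⟩ : ∃ m : ℕ, ∑ i, |φ p i| < 2 ^ m := pow_unbounded_of_one_lt _ (by norm_num)
      refine ⟨m, fun i => ?_⟩
      have h3 : |φ p i| ≤ ∑ i, |φ p i| :=
        Finset.single_le_sum (f := fun i => |φ p i|) (fun _ _ => abs_nonneg _) (Finset.mem_univ i)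
      have h4 : (2 : ℤ) ^ m ≤ 2 ^ (m + 1) := pow_le_pow_right₀ (by norm_num) (Nat.le_succ m)
      linarith
    refine ⟨Nat.find hex, Nat.find_spec hex, ?_⟩
    rcases Nat.eq_zero_or_pos (Nat.find hex) with h1 | h1
    · exact Or.inl h1
    · have h2 := Nat.find_min hex (Nat.sub_one_lt_of_lt h1)
      rw [Nat.sub_add_cancel h1] at h2
      push Not at h2
      obtain ⟨i, hi⟩ := h2
      exact Or.inr ⟨i, hi.le⟩
  choose m hm1 hm2 using hsc
  have hup : ∀ p, h p ≤ 4 * K * 4 ^ m p := fun p => by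
    have := hK _ p (hm1 p)
    simp only [pow_succ] at this
    linarith
  have hmt : ∀ b : ℕ, ∀ᶠ n in U, b ≤ m (x n) := fun b => by
    filter_upwards [hx.eventually_gt_atTop (4 * K * 4 ^ b)] with n hn
    by_contra hb
    have h1 : (4 : ℝ) ^ m (x n) ≤ 4 ^ b := pow_le_pow_right₀ (by norm_num) (not_le.mp hb).le
    have h2 := hup (x n)
    nlinarith
  obtain ⟨e, he⟩ : ∃ e : ℕ, 2 * K / (θ * c) < 4 ^ e := pow_unbounded_of_one_lt _ (by norm_num)
  obtain ⟨j', hj'⟩ : ∃ e : ℕ, 2 * C / c < 4 ^ e := pow_unbounded_of_one_lt _ (by norm_num)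
  have hlo : ∀ p, j + j' + 1 ≤ m p → c / 2 * 4 ^ m p ≤ h p := fun p hp => by
    have h1 := hL (m p) p (by omega) ((hm2 p).resolve_left (by omega))
    have h2 : (4 : ℝ) ^ j' ≤ 4 ^ m p := pow_le_pow_right₀ (by norm_num) (by omega)
    rw [div_lt_iff₀ hc] at hj'
    nlinarith
  -- pigeonhole on the leading digits
  have hbox : {a : Fin r → ℤ | ∀ i, a i ∈ Set.Icc (-(2 : ℤ) ^ (e + 1)) (2 ^ (e + 1))}.Finite :=
    Set.Finite.pi' fun _ => Set.finite_Icc _ _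
  have hev : ∀ᶠ n in U, ∃ a ∈ {a : Fin r → ℤ | ∀ i, a i ∈ Set.Icc (-(2 : ℤ) ^ (e + 1))
      (2 ^ (e + 1))}, ∀ i, φ (x n) i / 2 ^ (m (x n) - e) = a i := by
    filter_upwards [hmt e] with n hn
    refine ⟨_, fun i => abs_le.mp (abs_ediv_le ?_), fun _ => rfl⟩
    have h1 := hm1 (x n) i
    rwa [show m (x n) + 1 = m (x n) - e + (e + 1) by omega] at h1
  obtain ⟨a, -, ha⟩ := (Ultrafilter.eventually_exists_mem_iff hbox).mp hev
  have hch : ∀ b : ℕ, ∃ n, n ∈ S ∧ (∀ i, φ (x n) i / 2 ^ (m (x n) - e) = a i) ∧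
      e + j + j' + 1 ≤ m (x n) ∧ b ≤ m (x n) := fun b =>
    ((Filter.eventually_mem_set.mpr hS).and (ha.and ((hmt _).and (hmt b)))).exists
  choose f hfS hfa hfe hfb using hch
  let s : ℕ → ℕ := fun i => Nat.rec (f 0) (fun _ n => f (m (x n) + ρ)) i
  have hs' : ∀ i, ∃ b, s i = f b := fun i => by
    cases i with
    | zero => exact ⟨_, rfl⟩
    | succ i => exact ⟨_, rfl⟩
  have hstep : ∀ i, m (x (s i)) + ρ ≤ m (x (s (i + 1))) := fun i => hfb _
  have hlt : ∀ i i', i < i' → m (x (s i)) + ρ ≤ m (x (s i')) := fun i i' hi => by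
    induction i', hi using Nat.le_induction with
    | base => exact hstep i
    | succ n _ ih =>
      have := hstep n
      omega
  have hle : ∀ i : Fin (k + 1), m (x (s i)) ≤ m (x (s k)) := fun i => by
    rcases (Nat.lt_succ_iff.mp i.2).lt_or_eq with h1 | h1
    · have := hlt _ _ h1
      omega
    · rw [h1]
  set M := m (x (s k)) with hM
  have hbd : ∀ i : Fin (k + 1), c / 2 * 4 ^ M ≤ 4 ^ (M - m (x (s i))) * h (x (s i)) ∧
      4 ^ (M - m (x (s i))) * h (x (s i)) ≤ 4 * K * 4 ^ M := fun i => by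
    have h1 : (4 : ℝ) ^ M = 4 ^ (M - m (x (s i))) * 4 ^ m (x (s i)) := by
      rw [← pow_add, Nat.sub_add_cancel (hle i)]
    obtain ⟨b, hb⟩ := hs' i
    have h2 := hlo (x (s i)) (by have := hfe b; rw [hb]; omega)
    have h3 := hup (x (s i))
    have h4 : (0 : ℝ) < 4 ^ (M - m (x (s i))) := by positivity
    rw [h1]
    constructor <;> nlinarith
  have hcmp : ∀ i i' : Fin (k + 1), 4 ^ (M - m (x (s i))) * h (x (s i)) ≤
      max 1 (8 * K / c) * (4 ^ (M - m (x (s i'))) * h (x (s i'))) := fun i i' => by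
    have h1 := (hbd i).2
    have h2 := (hbd i').1
    have h3 : 0 ≤ c / 2 * 4 ^ M := by positivity
    calc _ ≤ 8 * K / c * (c / 2 * 4 ^ M) := by
          rw [show 8 * K / c * (c / 2 * 4 ^ M) = 4 * K * 4 ^ M by field_simp; ring]
          exact h1
      _ ≤ _ := mul_le_mul (le_max_right _ _) h2 h3 (zero_le_one.trans (le_max_left _ _))
  refine ⟨fun i => s i, fun i => M - m (x (s i)), fun i => ?_, fun i i' hi => ?_,
    fun i => ⟨?_, hcmp 0 i, hcmp i 0⟩⟩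
  · obtain ⟨b, hb⟩ := hs' i
    show s i ∈ S
    rw [hb]
    exact hfS b
  · have h1 := hlt i i' hi
    have h2 := hle i'
    show ρ * 4 ^ (M - m (x (s i'))) ≤ 4 ^ (M - m (x (s i)))
    calc ρ * 4 ^ (M - m (x (s i'))) ≤ 4 ^ ρ * 4 ^ (M - m (x (s i'))) :=
          Nat.mul_le_mul_right _ (Nat.lt_pow_self (by norm_num)).le
      _ ≤ _ := by
          rw [← pow_add]
          exact Nat.pow_le_pow_right (by norm_num) (by omega)
  · have hrem : ∀ (i : Fin (k + 1)) l, ∃ w : ℤ, 0 ≤ w ∧ w ≤ 2 ^ (M - e) ∧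
        φ (2 ^ (M - m (x (s i))) • x (s i)) l = 2 ^ (M - e) * a l + w := fun i l => by
      obtain ⟨b, hb⟩ := hs' i
      have h1 : φ (x (s i)) l / 2 ^ (m (x (s i)) - e) = a l := by rw [hb]; exact hfa b l
      have h2 : e ≤ m (x (s i)) := by have := hfe b; rw [hb]; omega
      have h3 := hle i
      have h4 : (2 : ℤ) ^ (M - e) = 2 ^ (M - m (x (s i))) * 2 ^ (m (x (s i)) - e) := by
        rw [← pow_add]
        congr 1
        omega
      have h5 : (0 : ℤ) < 2 ^ (m (x (s i)) - e) := by positivity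
      have h6 : (0 : ℤ) < 2 ^ (M - m (x (s i))) := by positivity
      refine ⟨2 ^ (M - m (x (s i))) * (φ (x (s i)) l % 2 ^ (m (x (s i)) - e)),
        mul_nonneg h6.le (Int.emod_nonneg _ h5.ne'), ?_, ?_⟩
      · rw [h4]
        exact mul_le_mul_of_nonneg_left (Int.emod_lt_of_pos _ h5).le h6.le
      · rw [map_nsmul, h4, ← h1, Int.emod_def, Pi.smul_apply, nsmul_eq_mul]
        push_cast
        ring
    have h1 := hK (M - e) (2 ^ (M - m (x (s i))) • x (s i) -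
        2 ^ (M - m (x (s (0 : Fin (k + 1))))) • x (s (0 : Fin (k + 1)))) fun l => by
      obtain ⟨w, hw0, hw1, hw⟩ := hrem i l
      obtain ⟨w', hw0', hw1', hw'⟩ := hrem 0 l
      rw [map_sub, Pi.sub_apply, hw, hw', abs_le]
      constructor <;> linarith
    have h2 := (hbd 0).1
    have h3 : e ≤ M := by
      obtain ⟨b, hb⟩ := hs' k
      have := hfe b
      rw [hM, hb]
      omega
    have h4 : (4 : ℝ) ^ M = 4 ^ (M - e) * 4 ^ e := by rw [← pow_add, Nat.sub_add_cancel h3]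
    rw [div_lt_iff₀ (by positivity)] at he
    have h5 : (0 : ℝ) < 4 ^ (M - e) := by positivity
    have h6 : K * 4 ^ (M - e) ≤ θ * (c / 2 * 4 ^ M) := by
      rw [h4]
      nlinarith
    have h7 := mul_le_mul_of_nonneg_left h2 hθ.le
    simp only at h1 ⊢
    linarith

end T32

theorem st_CONE (hHT : St_HT) (hMW : St_MW) : St_CONE := by
  intro L σ _ _ _ _ B
  obtain ⟨C, hC, hneg, hadd, hdbl⟩ := hHT L σ B
  exact T32.cone (hMW L σ B) B.ht B.β C (by exact_mod_cast B.β_pos) hC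
    (fun p => Height.logHeight_nonneg _) hneg hadd hdbl (T32.northcott B)

end D4C
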