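import Pool.Agent.Lib.D4C.BlueU
import Pool.Agent.Lib.D4C.B_CONE

/-! Rows HDIV and MWR of the d4c56 blueprint: division in the Mordell-Weil group. -/

namespace D4C

namespace T32

theorem scale {r : ℕ} (a : Fin r → ℤ) :
    ∃ m : ℕ, (∀ i, |a i| ≤ 2 ^ (m + 1)) ∧ (m = 0 ∨ ∃ i, 2 ^ m ≤ |a i|) := by
  classical
  have hex : ∃ m : ℕ, ∀ i, |a i| ≤ 2 ^ (m + 1) := by
    obtain ⟨m, hm⟩ : ∃ m : ℕ, ∑ i, |a i| < 2 ^ m := pow_unbounded_of_one_lt _ (by norm_num)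
    refine ⟨m, fun i => ?_⟩
    have h3 : |a i| ≤ ∑ i, |a i| :=
      Finset.single_le_sum (f := fun i => |a i|) (fun _ _ => abs_nonneg _) (Finset.mem_univ i)
    have h4 : (2 : ℤ) ^ m ≤ 2 ^ (m + 1) := pow_le_pow_right₀ (by norm_num) (Nat.le_succ m)
    linarith
  refine ⟨Nat.find hex, Nat.find_spec hex, ?_⟩
  rcases Nat.eq_zero_or_pos (Nat.find hex) with h1 | h1
  · exact Or.inl h1
  · have h2 := Nat.find_min hex (Nat.sub_one_lt_of_lt h1)
    rw [Nat.sub_add_cancel h1] at h2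
    push Not at h2
    obtain ⟨i, hi⟩ := h2
    exact Or.inr ⟨i, hi.le⟩

theorem le_abs_nsmul {N : ℕ} (hN : 1 ≤ N) (a : ℤ) : |a| ≤ |N • a| := by
  have h1 : (1 : ℤ) ≤ N := by exact_mod_cast hN
  rw [nsmul_eq_mul, abs_mul, Nat.abs_cast]
  nlinarith [abs_nonneg a]

theorem hdiv {G : Type} [AddCommGroup G] (hG : AddGroup.FG G) (h : G → ℝ) (β C : ℝ) (hβ : 1 ≤ β)
    (hC : 0 ≤ C) (h0 : ∀ p, 0 ≤ h p) (hneg : ∀ p, h (-p) = h p)
    (hadd : ∀ p q, h (p + q) ≤ β * h p + β * h q + C)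
    (hdbl : ∀ (κ : ℕ) p, |h (2 ^ κ • p) - 4 ^ κ * h p| ≤ C * 4 ^ κ)
    (hN : ∀ b, {p | h p ≤ b}.Finite) :
    ∃ C : ℝ, 0 ≤ C ∧ ∀ N : ℕ, 1 ≤ N → ∀ p, h p ≤ C * (h (N • p) + 1) := by
  obtain ⟨r, φ, hs, hf⟩ := lattice G hG
  have hadd' : ∀ p q, h (p + q) + C ≤ β * ((h p + C) + (h q + C)) := fun p q => by
    have := hadd p q
    nlinarith
  obtain ⟨K, hK1, hK⟩ := upper (H := fun p => h p + C) hs hf hβ hadd' fun κ p => by
    have h1 := (abs_le.mp (hdbl κ p)).2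
    have h2 : (1 : ℝ) ≤ 4 ^ κ := one_le_pow₀ (by norm_num)
    have h3 := h0 p
    nlinarith [mul_nonneg (sub_nonneg.mpr h2) hC, mul_nonneg (zero_le_one.trans h2) h3]
  obtain ⟨j, c, hc, hL⟩ := lower (H := fun p => h p + C) (C := 2 * C) hs hβ hadd'
    (fun p => by rw [hneg]) (fun κ p => by
      have h1 := (abs_le.mp (hdbl κ p)).1
      nlinarith) (fun b => (hN (b - C)).subset fun p hp => by
        simp only [Set.mem_ofPred_eq] at hp ⊢
        linarith) hK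
  refine ⟨4 * K / c * (1 + C) + 4 * K * 4 ^ j, by positivity, fun N hN1 p => ?_⟩
  obtain ⟨m, hm1, hm2⟩ := scale (φ p)
  have h1 := hK _ p hm1
  simp only [pow_succ] at h1
  have h2 := h0 (N • p)
  have h3 : 0 ≤ 4 * K / c := by positivity
  have h4 : (0 : ℝ) ≤ 4 * K * 4 ^ j := by positivity
  rcases le_or_gt m j with hj | hj
  · have h5 : (4 : ℝ) ^ m ≤ 4 ^ j := pow_le_pow_right₀ (by norm_num) hj
    have h6 : 0 ≤ 4 * K / c * (1 + C) := by positivity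
    nlinarith [mul_nonneg h6 h2, mul_nonneg h4 h2]
  · obtain ⟨i, hi⟩ := hm2.resolve_left (by omega)
    have h5 := hL m (N • p) hj.le ⟨i, hi.trans (by rw [map_nsmul]; exact le_abs_nsmul hN1 _)⟩
    have h6 : K * (4 ^ m * 4) = 4 * K / c * (c * 4 ^ m) := by field_simp
    have h7 := mul_le_mul_of_nonneg_left h5 h3
    nlinarith [mul_nonneg h4 h2, mul_nonneg (mul_nonneg h3 hC) h2]

end T32

theorem st_HDIV (hHT : St_HT) (hMW : St_MW) : St_HDIV := by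
  intro L σ _ _ _ _ B N hN
  obtain ⟨C, hC, hneg, hadd, hdbl⟩ := hHT L σ B
  obtain ⟨C', h1, h2⟩ := T32.hdiv (hMW L σ B) B.ht B.β C (by exact_mod_cast B.β_pos) hC
    (fun p => Height.logHeight_nonneg _) hneg hadd hdbl (T32.northcott B)
  exact ⟨C', h1, h2 N hN⟩

theorem st_MWR : St_MWR := by
  intro Γ _ hΓ Γ' N hN
  classical
  obtain ⟨r, φ, hs, hf⟩ := T32.lattice Γ hΓ
  obtain ⟨r', ψ, -, hf'⟩ := T32.lattice (Γ ⧸ Γ')
    (AddGroup.fg_of_surjective (f := QuotientAddGroup.mk' Γ') (QuotientAddGroup.mk'_surjective Γ'))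
  obtain ⟨R, hR⟩ := ((hf N).image fun p => ∑ i, |ψ (QuotientAddGroup.mk' Γ' p) i|).bddAbove
  refine ⟨(hf N).toFinset ∪ ((hf' R).image Quotient.out).toFinset, fun x y hxy => ?_⟩
  obtain ⟨d, hd⟩ := hs fun i => φ y i / N
  have hN0 : (0 : ℤ) < N := by exact_mod_cast hN
  have h1 : ∀ i, |φ (y - N • d) i| ≤ N := fun i => by
    rw [map_sub, map_nsmul, hd, Pi.sub_apply, Pi.smul_apply, nsmul_eq_mul, ← Int.emod_def,
      abs_of_nonneg (Int.emod_nonneg _ hN0.ne')]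
    exact (Int.emod_lt_of_pos _ hN0).le
  have h2 : N • QuotientAddGroup.mk' Γ' (x - d) = QuotientAddGroup.mk' Γ' (y - N • d) := by
    rw [← map_nsmul, ← sub_eq_zero, ← map_sub, smul_sub, sub_sub_sub_cancel_right]
    exact (QuotientAddGroup.eq_zero_iff _).mpr hxy
  refine ⟨d, y - N • d, by simpa using Or.inl h1, (QuotientAddGroup.mk' Γ' (x - d)).out, ?_,
    by abel, ?_⟩
  · refine Finset.mem_union_right _ ((Set.Finite.mem_toFinset _).mpr ⟨_, fun i => ?_, rfl⟩)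
    refine (T32.le_abs_nsmul hN _).trans ?_
    rw [← Pi.smul_apply, ← map_nsmul, h2]
    exact (Finset.single_le_sum (f := fun i => |ψ (QuotientAddGroup.mk' Γ' (y - N • d)) i|)
      (fun _ _ => abs_nonneg _) (Finset.mem_univ i)).trans (hR ⟨_, h1, rfl⟩)
  · rw [← QuotientAddGroup.eq_iff_sub_mem]
    exact (QuotientAddGroup.out_eq' _).symm

end D4C
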