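import Pool.Agent.Lib.D4C.BlueE
import Pool.Agent.Lib.D4C.T83L1

/-! Growth of the branch through a simple root. -/

namespace D4C

open MvPowerSeries T83

namespace T60

variable {ρ L : Type} [Field L] {v : AbsoluteValue L ℝ} {r : ℝ}

theorem mj_C (hr : 0 ≤ r) (x : L) : Mj v r (C x : MvPowerSeries ρ L) (v x) := by
  simpa using mj_monomial (ρ := ρ) hr v.nonneg v.map_zero 0 x

theorem mj_nat (hr : 0 ≤ r) (n : ℕ) : Mj v r (n : MvPowerSeries ρ L) n := by
  induction n with
  | zero => intro s; simp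
  | succ n ih => simpa using ih.add hr v.add_le (mj_C hr 1)

theorem mj_neg {f : MvPowerSeries ρ L} {a : ℝ} (h : Mj v r f a) : Mj v r (-f) a := fun s => by
  simpa using h s

theorem mj_rad (hr : 0 ≤ r) (h1 : r ≤ 1) {f : MvPowerSeries ρ L} {a : ℝ} (h : Mj v 1 f a) (k : ℕ)
    (hk : k ≤ 1) (h0 : k = 1 → constantCoeff f = 0) : Mj v r f (a * r ^ k) := fun s => by
  refine le_trans ?_ (mul_le_mul_of_nonneg_right (h s) (pow_nonneg hr k))
  rw [Finset.sum_mul]
  refine Finset.sum_le_sum fun d _ => ?_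
  rw [one_pow, mul_one]
  by_cases c : k ≤ d.degree
  · exact mul_le_mul_of_nonneg_left (pow_le_pow_of_le_one hr h1 c) (v.nonneg _)
  · rw [(Finsupp.degree_eq_zero_iff d).1 (by omega), coeff_zero_eq_constantCoeff_apply,
      h0 (by omega)]
    simp

theorem mj_aeval {τ : Type} (a : τ → MvPowerSeries ρ L) {b : ℝ} (hb : 1 ≤ b)
    (h : ∀ j, Mj v 1 (a j) b) (F : MvPolynomial τ L) {D : ℕ} (hD : F.totalDegree ≤ D) :
    Mj v 1 (MvPolynomial.aeval a F) (l1 v F * b ^ D) := by
  classical
  rw [MvPolynomial.aeval_def, MvPolynomial.eval₂_eq, l1, Finset.sum_mul]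
  refine mj_sum zero_le_one _ fun d hd => (mj_C zero_le_one _).vmul zero_le_one (Mj.mono ?_
    (pow_le_pow_right₀ hb ((MvPolynomial.le_totalDegree hd).trans hD)))
  rw [Finsupp.sum, ← Finset.prod_pow_eq_pow_sum]
  induction d.support using Finset.induction_on with
  | empty => simpa using mj_C (ρ := ρ) (v := v) zero_le_one 1
  | insert i s hi ih =>
    rw [Finset.prod_insert hi, Finset.prod_insert hi]
    exact ((h i).pow zero_le_one _).vmul zero_le_one ih

theorem cc_eval (Q : Polynomial (MvPowerSeries ρ L)) {f : MvPowerSeries ρ L}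
    (hf : constantCoeff f = 0) : constantCoeff (Q.eval f) = constantCoeff (Q.coeff 0) := by
  rw [← Polynomial.eval₂_id, Polynomial.hom_eval₂, hf, Polynomial.eval₂_at_zero]
  rfl

theorem mj_fix (Q : Polynomial (MvPowerSeries ρ L)) (h0 : constantCoeff (Q.coeff 0) = 0)
    (h1 : constantCoeff (Q.coeff 1) = 0) {y : MvPowerSeries ρ L} (y0 : constantCoeff y = 0)
    (hy : Q.eval y = y) {D : ℕ} (hD : Q.natDegree < D) {M W : ℝ} (hM : ∀ k, Mj v 1 (Q.coeff k) M)
    (hW : D * M ≤ W) (W1 : 1 ≤ W) : Mj v (W⁻¹ ^ 2) y W⁻¹ := by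
  obtain ⟨η, e0, e1, e2⟩ := exists_fix Q h0 h1
  obtain rfl : y = η := by
    obtain ⟨c, hc⟩ := Polynomial.exists_mul_sq_add_linear_part_eq_eval_add Q η (y - η)
    rw [add_sub_cancel, hy, e1] at hc
    have e : (y - η) * (1 - (c * (y - η) + Q.derivative.eval η)) = 0 := by linear_combination -hc
    refine sub_eq_zero.1 ((mul_eq_zero.1 e).resolve_right fun h => ?_)
    have := congrArg constantCoeff h
    rw [map_sub, map_add, map_mul, map_sub, y0, e0, cc_eval _ e0,
      Polynomial.coeff_derivative] at this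
    simp [h1] at this
  have a0 : 0 < W⁻¹ := by positivity
  have a1 : W⁻¹ ≤ 1 := inv_le_one_of_one_le₀ W1
  have r0 : 0 ≤ W⁻¹ ^ 2 := by positivity
  have r1 : W⁻¹ ^ 2 ≤ 1 := pow_le_one₀ a0.le a1
  have it : ∀ n, Mj v (W⁻¹ ^ 2) ((fun f => Q.eval f)^[n] 0) W⁻¹ := fun n => by
    induction n with
    | zero => intro s; simpa using a0.le
    | succ n ih =>
      rw [Function.iterate_succ_apply', Polynomial.eval_eq_sum_range' hD]
      refine (mj_sum (a := fun _ => M * W⁻¹ ^ 2) r0 _ fun k _ => ((mj_rad r0 r1 (hM k)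
        (if k < 2 then 1 else 0) (by split_ifs <;> simp) fun h => ?_).vmul r0
          (ih.pow r0 k)).mono ?_).mono ?_
      · split_ifs at h with c
        interval_cases k
        exacts [h0, h1]
      · rw [mul_assoc, ← pow_mul, ← pow_add]
        exact mul_le_mul_of_nonneg_left (pow_le_pow_of_le_one a0.le a1 (by split_ifs <;> omega))
          (hM 0).nonneg
      · rw [Finset.sum_const, Finset.card_range, nsmul_eq_mul, ← mul_assoc]
        calc _ ≤ W * W⁻¹ ^ 2 := mul_le_mul_of_nonneg_right hW r0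
          _ = W⁻¹ := by field_simp
  intro s
  refine le_trans (le_of_eq (Finset.sum_congr rfl fun d hd => ?_)) (it (s.sup Finsupp.degree + 1) s)
  have := coeff_of_lt_order (d := d) (lt_of_lt_of_le (by
    exact_mod_cast Nat.lt_succ_of_le (Finset.le_sup (f := Finsupp.degree) hd))
    (e2 (s.sup Finsupp.degree + 1)))
  rw [map_sub, sub_eq_zero] at this
  rw [this]

theorem cc_ev {m : ℕ} (z : Fin m → L) (f : MvPowerSeries (Fin m) L) (q : ZT L m) :
    constantCoeff (evZT (fun j => C (z j) + X j) f q) = evZT z (constantCoeff f) q :=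
  (map_evZT (ccA _ L) _ f q).trans (by simp [ccA_apply])

end T60

open T60 in
theorem st_HENB : St_HENB := by
  intro m D1
  refine ⟨(D1 + 2) * (1 + (D1 + 1) ^ (m + 1) * 4 ^ D1), (2 * D1 + 2) * 2, Nat.succ_le_of_lt
    (by positivity), by omega, fun L _ P A z t p η hP hb hp v => ?_⟩
  classical
  obtain ⟨H, hH⟩ : ∃ H, H = hv v (bigA A z t p) := ⟨_, rfl⟩
  have H1 : 1 ≤ H := hH ▸ one_le_hv v _
  have hz : ∀ j, v (z j) ≤ H := fun j => hH ▸ le_hv v (by simp [bigA])
  have ht : v t ≤ H := hH ▸ le_hv v (by simp [bigA])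
  have hp' : v p ≤ H := hH ▸ le_hv v (by simp [bigA])
  let P' := P.map (MvPolynomial.aeval fun j => (C (z j) + X j : PS (Fin m) L)).toRingHom
  have d1 : P'.natDegree ≤ D1 := Polynomial.natDegree_map_le.trans hP.1
  have b1 : ∀ l, Mj v 1 (P'.coeff l) ((D1 + 1) ^ m * H * (2 * H) ^ D1) := fun l => by
    rw [Polynomial.coeff_map]
    refine (mj_aeval _ (b := 2 * H) (by linarith) (fun j => ((mj_C zero_le_one (z j)).add
      zero_le_one v.add_le (mj_monomial zero_le_one v.nonneg v.map_zero (Finsupp.single j 1)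
        1)).mono (by simp; linarith [hz j])) _ (hP.2 l).1).mono
      (mul_le_mul_of_nonneg_right ?_ (by positivity))
    have := l1_smp v (A := bigA A z t p) (F := P.coeff l) ⟨(hP.2 l).1, fun d =>
      ((hP.2 l).2 d).imp_right fun h => by simp [bigA, h]⟩
    rwa [Fintype.card_fin, ← hH] at this
  have b2 : ∀ k, Mj v 1 ((Polynomial.taylor (C t) P').coeff k)
      ((D1 + 1) * (2 ^ D1 * ((D1 + 1) ^ m * H * (2 * H) ^ D1) * H ^ D1)) := fun k => by
    rw [Polynomial.taylor_coeff, Polynomial.eval_eq_sum_range' (n := D1 + 1) (Nat.lt_succ_of_le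
      ((Polynomial.natDegree_hasseDeriv_le _ _).trans ((Nat.sub_le _ _).trans d1)))]
    refine (mj_sum (a := fun _ => 2 ^ D1 * ((D1 + 1) ^ m * H * (2 * H) ^ D1) * H ^ D1) zero_le_one
      _ fun n hn => Mj.vmul zero_le_one ?_ (((mj_C zero_le_one t).pow zero_le_one n).mono
        ((pow_le_pow_left₀ (v.nonneg _) ht n).trans (pow_le_pow_right₀ H1
          (Nat.lt_succ_iff.1 (Finset.mem_range.1 hn)))))).mono (by simp)
    rw [Polynomial.hasseDeriv_coeff]
    by_cases c : n + k ≤ D1
    · refine ((mj_nat zero_le_one _).mono ?_).vmul zero_le_one (b1 _)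
      exact_mod_cast (Nat.choose_le_two_pow _ _).trans (Nat.pow_le_pow_right two_pos c)
    · rw [Polynomial.coeff_eq_zero_of_natDegree_lt (by omega), mul_zero]
      intro s
      simp only [map_zero, zero_mul, Finset.sum_const_zero]
      positivity
  obtain ⟨c, hc⟩ : ∃ c : ℝ, c = (D1 + 2) * (1 + (D1 + 1) ^ (m + 1) * 4 ^ D1) := ⟨_, rfl⟩
  have c2 : 2 ≤ c := by
    have : (0 : ℝ) ≤ (D1 + 1) ^ (m + 1) * 4 ^ D1 := by positivity
    have : (0 : ℝ) ≤ D1 := by positivity
    nlinarith
  have cH : 1 ≤ c * H := by nlinarith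
  have W1 : 1 ≤ (c * H) ^ (2 * D1 + 2) := one_le_pow₀ cH
  have key := mj_fix (v := v) (Polynomial.X - Polynomial.C (C p) * Polynomial.taylor (C t) P')
    (by
      have := cc_ev z η P
      rw [hb.2, hb.1, map_zero] at this
      rw [Polynomial.coeff_sub, Polynomial.coeff_C_mul, Polynomial.taylor_coeff_zero, ← evZT_eq,
        map_sub, map_mul, cc_ev, constantCoeff_C, constantCoeff_C, ← this]
      simp)
    (by
      rw [Polynomial.coeff_sub, Polynomial.coeff_C_mul, Polynomial.taylor_coeff_one,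
        Polynomial.derivative_map, ← evZT_eq, map_sub, map_mul, cc_ev, constantCoeff_C,
        constantCoeff_C, mul_comm, hp]
      simp)
    (y := η - C t) (by simp [hb.1]) (by
      rw [Polynomial.eval_sub, Polynomial.eval_mul, Polynomial.taylor_eval_sub, ← evZT_eq, hb.2]
      simp)
    (D := D1 + 2) (Nat.lt_succ_of_le ((Polynomial.natDegree_sub_le _ _).trans (max_le (by simp)
      ((Polynomial.natDegree_C_mul_le _ _).trans (by rw [Polynomial.natDegree_taylor]; omega)))))
    (fun k => by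
      rw [Polynomial.coeff_sub, Polynomial.coeff_C_mul, sub_eq_add_neg]
      refine Mj.add (a := 1) zero_le_one v.add_le ?_
        (mj_neg (((mj_C zero_le_one p).mono hp').vmul zero_le_one (b2 k)))
      rw [Polynomial.coeff_X]
      split_ifs
      · simpa using mj_C (v := v) zero_le_one 1
      · intro s; simp)
    (W := (c * H) ^ (2 * D1 + 2)) (by
      have a : 1 ≤ H ^ (2 * D1 + 2) := one_le_pow₀ H1
      have b : c ≤ c ^ (2 * D1 + 2) := le_self_pow₀ (by linarith) (by omega)
      rw [mul_pow c]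
      refine le_trans ?_ (mul_le_mul_of_nonneg_right b (by positivity))
      rw [hc, show (4 : ℝ) ^ D1 = 2 ^ D1 * 2 ^ D1 by rw [← mul_pow]; norm_num,
        mul_assoc ((D1 : ℝ) + 2)]
      push_cast
      refine mul_le_mul_of_nonneg_left ?_ (by positivity)
      rw [add_mul (1 : ℝ), one_mul]
      exact add_le_add a (le_of_eq (by ring))) W1
  have r0 : 0 ≤ ((c * H) ^ (2 * D1 + 2))⁻¹ ^ 2 := by positivity
  have := ((mj_C r0 t).add r0 v.add_le key).mono
    (b := (c * H) ^ ((2 * D1 + 2) * 2)) (by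
      have a := inv_le_one_of_one_le₀ W1
      have b : c * H ≤ (c * H) ^ ((2 * D1 + 2) * 2) := le_self_pow₀ cH (by omega)
      nlinarith)
  rw [add_sub_cancel, inv_pow, ← pow_mul, hc, hH] at this
  push_cast
  exact this

end D4C
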