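import Pool.Agent.Lib.D4C.Iface
import Pool.Agent.Lib.GEL51.Ext

namespace D4C

theorem st_HEXT : St_HEXT := fun L L' _ _ _ _ _ _ _ x => GEL51.logHeight_algebraMap L L' x

end D4C
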