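import Pool.Agent.Lib.D4C.B_FDEG

/-! Height of a linear combination of forms. -/

namespace D4C

open MvPolynomial T83

namespace T1

variable {L τ : Type} [Field L] (v : AbsoluteValue L ℝ)

theorem sn_nn {ι : Type} (x : ι → L) : 0 ≤ sn v x := Real.iSup_nonneg fun _ => v.nonneg _

theorem l1_comb {I : Type} [Fintype I] {e : I → MvPolynomial τ L} (cf : I → L) {M : ℝ}
    (h : ∀ ω, l1 v (e ω) ≤ M) : l1 v (∑ ω, cf ω • e ω) ≤ Fintype.card I * (sn v cf * M) := by
  refine (l1_sum v _ _).trans ?_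
  rw [← nsmul_eq_mul, ← Finset.card_univ]
  exact Finset.sum_le_card_nsmul _ _ _ fun ω _ => (l1_smul v _ _).trans
    (mul_le_mul (le_sn v cf ω) (h ω) (l1_nonneg v _) (sn_nn v _))

theorem hA_nn [NumberField L] (A : Finset L) : 0 ≤ hA A :=
  Finset.sum_nonneg fun a _ => Height.zero_le_logHeight₁ a

theorem cf_ne {F : MvPolynomial τ L} (h : F ≠ 0) : (fun d : F.support => coeff d.1 F) ≠ 0 := by
  obtain ⟨d, hd⟩ := support_nonempty.2 h
  exact Function.ne_iff.2 ⟨⟨d, hd⟩, mem_support_iff.1 hd⟩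

end T1

open T1

theorem st_HF (hLG : St_LG) : St_HF := by
  intro L _ _ c2 A2
  have l0 : 0 ≤ Real.log c2 := Real.log_natCast_nonneg _
  have a0 := hA_nn A2
  have f0 : (0 : ℝ) ≤ Module.finrank ℚ L := Nat.cast_nonneg _
  refine ⟨Module.finrank ℚ L * (1 + Real.log c2) + hA A2, by positivity, ?_⟩
  intro τ I _ e cf E hc hcf he
  have l1' : 0 ≤ Real.log (Fintype.card I) := Real.log_natCast_nonneg _
  have e0 : (0 : ℝ) ≤ E := Nat.cast_nonneg _
  by_cases h0 : ∑ ω, cf ω • e ω = 0
  · have := Height.logHeight_nonneg cf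
    rw [h0, hP, show (fun d : (0 : MvPolynomial τ L).support => coeff d.1 (0 : MvPolynomial τ L)) = 0
      from rfl, Height.logHeight_zero]
    positivity
  obtain ⟨ω0, -⟩ := Function.ne_iff.1 hcf
  have hI : (1 : ℝ) ≤ Fintype.card I := by exact_mod_cast Fintype.card_pos_iff.2 ⟨ω0⟩
  have hc' : (1 : ℝ) ≤ c2 := by exact_mod_cast hc
  have := hLG L _ Empty Empty I _ cf (fun q => q.elim) (fun _ => 0) (fun _ => 0)
    (Fintype.card I * c2 ^ E) Unit (fun _ => A2) (fun _ => E) 1 (cf_ne h0) hcf (fun q => q.elim)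
    (one_le_mul_of_one_le_of_one_le hI (one_le_pow₀ hc')) one_ne_zero fun v => by
      simp only [Finset.univ_eq_empty, Finset.prod_empty, mul_one, map_one, Finset.univ_unique,
        Finset.prod_singleton]
      have h1 := l1_comb v cf fun ω => he ω v
      refine Real.iSup_le (fun d => le_trans ?_ (h1.trans_eq (by rw [mul_pow]; ring)))
        ((l1_nonneg v _).trans (h1.trans_eq (by rw [mul_pow]; ring)))
      simpa using sum_le_l1 v _ {d.1}
  simp only [Finset.univ_eq_empty, Finset.sum_empty, add_zero, Finset.univ_unique,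
    Finset.sum_singleton] at this
  rw [Real.log_mul (by positivity) (by positivity), Real.log_pow] at this
  unfold hP
  nlinarith [mul_nonneg f0 e0, mul_nonneg a0 l1', mul_nonneg (mul_nonneg f0 l0) l1']

end D4C
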