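import Pool.Agent.Lib.D4C.BlueF

/-! The degree over a system of parameters depends only on its valuations. -/

namespace D4C

open MvPolynomial Filter

namespace T94

section val

variable {k F : Type} [Field k] [Field F] [Algebra k F] {m : ℕ}

/-- the vector `(1, z)` -/
def ow {R : Type} [One R] (z : Fin m → R) : Option (Fin m) → R := fun o => o.elim 1 z

theorem le_gv {ι : Type} [Fintype ι] (O : ValuationSubring F) (x : ι → F) (i : ι) :
    O.valuation (x i) ≤ gv O x :=
  Finset.le_sup (f := fun i => O.valuation (x i)) (Finset.mem_univ i)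

theorem gv_ow (O : ValuationSubring F) (z : Fin m → F) : gv O (ow z) = max 1 (gv O z) := by
  apply le_antisymm
  · refine Finset.sup_le fun o _ => ?_
    cases o with
    | none => simp [ow]
    | some j => exact le_max_of_le_right (le_gv O z j)
  · refine max_le ?_ (Finset.sup_le fun j _ => le_gv O (ow z) (some j))
    simpa [ow] using le_gv O (ow z) none

theorem one_le_gv (O : ValuationSubring F) (z : Fin m → F) : 1 ≤ gv O (ow z) := by
  rw [gv_ow]; exact le_max_left _ _

theorem val_aeval (O : ValuationSubring F) (hO : Ov k O) (z : Fin m → F)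
    (p : MvPolynomial (Fin m) k) (n : ℕ) (hp : p.totalDegree ≤ n) :
    O.valuation (aeval z p) ≤ gv O (ow z) ^ n := by
  rw [aeval_def, eval₂_eq']
  refine Valuation.map_sum_le _ fun d hd => ?_
  rw [map_mul, map_prod]
  have h1 : O.valuation (algebraMap k F (coeff d p)) ≤ 1 := (O.valuation_le_one_iff _).2 (hO _)
  have h2 : ∏ i, O.valuation (z i ^ d i) ≤ ∏ i, gv O (ow z) ^ d i :=
    Finset.prod_le_prod' fun i _ => by
      rw [map_pow]; exact pow_le_pow_left' (le_gv O (ow z) (some i)) _
  have h3 : ∑ i, d i ≤ n := by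
    have := le_totalDegree hd
    rw [Finsupp.sum_fintype _ _ fun _ => rfl] at this
    exact this.trans hp
  rw [Finset.prod_pow_eq_pow_sum] at h2
  calc _ ≤ 1 * gv O (ow z) ^ (∑ i, d i) := mul_le_mul' h1 h2
    _ ≤ _ := by rw [one_mul]; exact pow_le_pow_right' (one_le_gv O z) h3

theorem root_le (O : ValuationSubring F) (γ : O.ValueGroup) (hγ : 1 ≤ γ) (y : F) (s : ℕ)
    (a : ℕ → F) (ha : ∀ j < s, O.valuation (a j) ≤ γ)
    (h : y ^ s + ∑ j ∈ Finset.range s, a j * y ^ j = 0) : O.valuation y ≤ γ := by
  by_contra hy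
  push Not at hy
  have h1 : 1 < O.valuation y := hγ.trans_lt hy
  have h0 : 0 < O.valuation y := zero_lt_one.trans h1
  have h2 : O.valuation (∑ j ∈ Finset.range s, a j * y ^ j) < O.valuation y ^ s := by
    refine Valuation.map_sum_lt _ (pow_pos h0 s).ne' fun j hj => ?_
    have hj' := Finset.mem_range.1 hj
    rw [map_mul, map_pow]
    calc _ < O.valuation y * O.valuation y ^ j :=
          mul_lt_mul_of_pos_right ((ha j hj').trans_lt hy) (pow_pos h0 j)
      _ = O.valuation y ^ (j + 1) := (pow_succ' _ _).symm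
      _ ≤ _ := pow_le_pow_right' h1.le hj'
  rw [eq_neg_of_add_eq_zero_right h, Valuation.map_neg, map_pow] at h2
  exact lt_irrefl _ h2

theorem transfer {Ω : Type} [Field Ω] (σ : F →+* Ω) (O : ValuationSubring Ω) (z : Fin m → F)
    (g : F) (N : ℕ) (h : (O.comap σ).valuation g ≤ gv (O.comap σ) (ow z) ^ N) :
    O.valuation (σ g) ≤ gv O (fun o => σ (ow z o)) ^ N := by
  obtain ⟨i, _, hi⟩ := Finset.exists_mem_eq_sup (Finset.univ : Finset (Option (Fin m)))
    Finset.univ_nonempty fun i => (O.comap σ).valuation (ow z i)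
  have hi' : gv (O.comap σ) (ow z) = (O.comap σ).valuation (ow z i) := hi
  rw [hi', ← map_pow, ValuationSubring.valuation_le_iff] at h
  obtain ⟨r, hr⟩ := h
  have h1 : O.valuation (σ r) ≤ 1 := (O.valuation_le_one_iff _).2 r.2
  rw [← hr, map_mul, map_mul, map_pow, map_pow]
  calc _ ≤ 1 * gv O (fun o => σ (ow z o)) ^ N :=
        mul_le_mul' h1 (pow_le_pow_left' (le_gv O (fun o => σ (ow z o)) i) _)
    _ = _ := one_mul _

open scoped IntermediateField.algebraAdjoinAdjoin in
theorem den (z : Fin m → F) [FiniteDimensional (IntermediateField.adjoin k (Set.range z)) F]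
    (x : F) : ∃ d : IntermediateField.adjoin k (Set.range z), d ≠ 0 ∧ ∃ C : ℕ,
      ∀ O : ValuationSubring F, Ov k O → O.valuation (d • x) ≤ gv O (ow z) ^ C := by
  have h1 : IsAlgebraic (IntermediateField.adjoin k (Set.range z)) x :=
    Algebra.IsAlgebraic.isAlgebraic x
  have h2 : IsAlgebraic (Algebra.adjoin k (Set.range z)) x :=
    (IsFractionRing.isAlgebraic_iff _ (IntermediateField.adjoin k (Set.range z)) F).2 h1
  obtain ⟨y, hy, P, hP, hPx⟩ := h2.exists_integral_multiple
  have h3 : ∀ j, ∃ p : MvPolynomial (Fin m) k, aeval z p = (P.coeff j : F) := fun j => by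
    have := (P.coeff j).2
    simp only [Algebra.adjoin_range_eq_range_aeval] at this
    exact this
  choose p hp using h3
  refine ⟨algebraMap _ _ y, fun h => hy (FaithfulSMul.algebraMap_injective _ _ (h.trans
    (map_zero _).symm)), (Finset.range P.natDegree).sup fun j => (p j).totalDegree,
    fun O hO => ?_⟩
  rw [algebraMap_smul]
  refine root_le O _ (one_le_pow_of_one_le' (one_le_gv O z) _) _ P.natDegree
    (fun j => (P.coeff j : F)) (fun j hj => ?_) ?_
  · rw [← hp]
    exact val_aeval O hO z _ _
      (Finset.le_sup (f := fun j => (p j).totalDegree) (Finset.mem_range.2 hj))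
  · rw [Polynomial.eval₂_eq_sum_range, Finset.sum_range_succ, hP.coeff_natDegree, map_one,
      one_mul, add_comm] at hPx
    exact hPx

theorem bdd_basis (z : Fin m → F)
    [FiniteDimensional (IntermediateField.adjoin k (Set.range z)) F] :
    ∃ (b : Module.Basis (Fin (Module.finrank (IntermediateField.adjoin k (Set.range z)) F))
      (IntermediateField.adjoin k (Set.range z)) F) (C : ℕ),
      ∀ i, ∀ O : ValuationSubring F, Ov k O → O.valuation (b i) ≤ gv O (ow z) ^ C := by
  let b := Module.finBasis (IntermediateField.adjoin k (Set.range z)) F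
  choose d hd C hC using fun i => den (k := k) z (b i)
  refine ⟨b.isUnitSMul fun i => (hd i).isUnit, Finset.univ.sup C, fun i O hO => ?_⟩
  rw [Module.Basis.isUnitSMul_apply]
  exact (hC i O hO).trans
    (pow_le_pow_right' (one_le_gv O z) (Finset.le_sup (Finset.mem_univ i)))

end val

section poly

variable {k : Type} [Field k] {m : ℕ}

theorem deg_ow (c : MvPolynomial (Option (Fin m)) k) :
    (aeval (ow (X : Fin m → MvPolynomial (Fin m) k)) c).totalDegree ≤ c.totalDegree := by
  rw [aeval_def, eval₂_eq']
  refine (totalDegree_finsetSum _ _).trans (Finset.sup_le fun d hd => ?_)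
  refine (totalDegree_mul _ _).trans ?_
  rw [algebraMap_eq, totalDegree_C, zero_add]
  refine (totalDegree_finsetProd _ _).trans ?_
  have h3 := le_totalDegree hd
  rw [Finsupp.sum_fintype _ _ fun _ => rfl] at h3
  refine le_trans (Finset.sum_le_sum fun o _ => ?_) h3
  refine (totalDegree_pow _ _).trans ?_
  cases o with
  | none => simp [ow]
  | some j => simp [ow]

theorem deg_pow (p : MvPolynomial (Fin m) k) (hp : p ≠ 0) (s : ℕ) :
    (p ^ s).totalDegree = s * p.totalDegree := by
  induction s with
  | zero => simp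
  | succ s ih => rw [pow_succ, totalDegree_mul_of_isDomain (pow_ne_zero _ hp) hp, ih]; ring

theorem deg_root (p : MvPolynomial (Fin m) k) (N s : ℕ) (hs : 1 ≤ s)
    (q : ℕ → MvPolynomial (Fin m) k) (hq : ∀ j < s, (q j).totalDegree ≤ N * (s - j))
    (h : p ^ s + ∑ j ∈ Finset.range s, q j * p ^ j = 0) : p.totalDegree ≤ N := by
  by_contra hN
  push Not at hN
  have hp : p ≠ 0 := by rintro rfl; simp at hN
  have h1 : (∑ j ∈ Finset.range s, q j * p ^ j).totalDegree < s * p.totalDegree := by
    refine (totalDegree_finsetSum _ _).trans_lt ?_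
    refine (Finset.sup_lt_iff (Nat.mul_pos hs (by omega))).2 fun j hj => ?_
    have hj' := Finset.mem_range.1 hj
    refine (totalDegree_mul _ _).trans_lt ?_
    have h2 := hq j hj'
    have h3 := totalDegree_pow p j
    obtain ⟨r, rfl⟩ := Nat.exists_eq_add_of_lt hj'
    have h4 : j + r + 1 - j = r + 1 := by omega
    rw [h4] at h2
    nlinarith
  rw [eq_neg_of_add_eq_zero_right h, totalDegree_neg, deg_pow p hp] at h1
  exact lt_irrefl _ h1

theorem rank_le (k : Type) [Field k] (m n : ℕ) :
    Module.finrank k (restrictTotalDegree (Fin m) k n) ≤ (n + 1) ^ m := by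
  obtain ⟨b, hb⟩ : ∃ b : (Fin m → Fin (n + 1)) → MvPolynomial (Fin m) k, ∀ f,
      b f = monomial (Finsupp.equivFunOnFinite.symm fun i => (f i : ℕ)) 1 := ⟨_, fun _ => rfl⟩
  have h1 : restrictTotalDegree (Fin m) k n ≤ Submodule.span k (Set.range b) := by
    intro p hp
    rw [mem_restrictTotalDegree] at hp
    rw [p.as_sum]
    refine Submodule.sum_mem _ fun d hd => ?_
    have h2 : (monomial d (coeff d p) : MvPolynomial (Fin m) k) = coeff d p • monomial d 1 := by
      rw [smul_monomial, smul_eq_mul, mul_one]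
    rw [h2]
    refine Submodule.smul_mem _ _ (Submodule.subset_span ?_)
    have h3 : ∀ i, d i < n + 1 := fun i => by
      have h4 := le_totalDegree hd
      rw [Finsupp.sum_fintype _ _ fun _ => rfl] at h4
      have h5 : d i ≤ ∑ i, d i :=
        Finset.single_le_sum (f := fun i => d i) (fun _ _ => Nat.zero_le _) (Finset.mem_univ i)
      omega
    refine ⟨fun i => ⟨d i, h3 i⟩, ?_⟩
    rw [hb]
    exact congrArg (fun e => monomial e (1 : k)) (Finsupp.equivFunOnFinite_symm_coe d)
  have : Module.Finite k (Submodule.span k (Set.range b)) :=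
    Module.Finite.span_of_finite k (Set.finite_range b)
  have h6 : Module.finrank k (Submodule.span k (Set.range b))
      ≤ Fintype.card (Fin m → Fin (n + 1)) := finrank_range_le_card b
  rw [Fintype.card_fun, Fintype.card_fin, Fintype.card_fin] at h6
  exact (Submodule.finrank_mono h1).trans h6

theorem rank_pos (k : Type) [Field k] (m n : ℕ) :
    0 < Module.finrank k (restrictTotalDegree (Fin m) k n) := by
  rw [Module.finrank_pos_iff_exists_ne_zero]
  refine ⟨⟨1, by rw [mem_restrictTotalDegree]; simp⟩, fun h => ?_⟩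
  exact one_ne_zero (congrArg Subtype.val h)

theorem growth (D : ℕ → ℕ) (m C a a' : ℕ) (h0 : 0 < D 0) (h1 : ∀ n, D n ≤ (n + 1) ^ m)
    (h : ∀ n, a * D n ≤ a' * D (n + C)) : a ≤ a' := by
  by_contra hlt
  push Not at hlt
  have h2 : ∀ j, a ^ j ≤ a' ^ j * D (j * C) := by
    intro j
    induction j with
    | zero => rw [pow_zero, pow_zero, zero_mul, one_mul]; exact h0
    | succ j ih =>
      calc a ^ (j + 1) = a ^ j * a := pow_succ _ _
        _ ≤ a' ^ j * D (j * C) * a := Nat.mul_le_mul_right _ ih
        _ = a' ^ j * (a * D (j * C)) := by ring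
        _ ≤ a' ^ j * (a' * D (j * C + C)) := Nat.mul_le_mul_left _ (h _)
        _ = _ := by rw [add_mul, one_mul]; ring
  have ha : 0 < a' := by
    by_contra h3
    have h4 : a' = 0 := by omega
    have := h2 1
    rw [h4] at this hlt
    simp at this
    omega
  have haR : (0 : ℝ) < a' := by exact_mod_cast ha
  have hr : (1 : ℝ) < a / a' := by
    rw [one_lt_div haR]; exact_mod_cast hlt
  have hc : (0 : ℝ) < 1 / (C + 1) ^ m := by positivity
  obtain ⟨j, hj1, hj⟩ := ((eventually_ge_atTop 1).and
    ((tendsto_pow_const_div_const_pow_of_one_lt m hr).eventually (gt_mem_nhds hc))).exists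
  have h5 : a ^ j ≤ a' ^ j * (j ^ m * (C + 1) ^ m) := by
    refine (h2 j).trans (Nat.mul_le_mul_left _ ((h1 _).trans ?_))
    rw [← mul_pow]
    exact Nat.pow_le_pow_left (by nlinarith) _
  have h6 : (a : ℝ) ^ j ≤ a' ^ j * (j ^ m * (C + 1) ^ m) := by exact_mod_cast h5
  rw [div_lt_div_iff₀ (by positivity) (by positivity), div_pow, one_mul,
    lt_div_iff₀ (by positivity)] at hj
  linarith

end poly

section main

variable {k F : Type} [Field k] [Field F] [Algebra k F] {m : ℕ}

theorem aeval_ow {Ω : Type} [Field Ω] [Algebra k Ω] (z : Fin m → Ω)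
    (c : MvPolynomial (Option (Fin m)) k) :
    aeval z (aeval (ow (X : Fin m → MvPolynomial (Fin m) k)) c) = aeval (ow z) c := by
  have : (aeval z).comp (aeval (ow (X : Fin m → MvPolynomial (Fin m) k))) = aeval (ow z) := by
    refine MvPolynomial.algHom_ext fun o => ?_
    cases o with
    | none => simp [ow]
    | some j => simp [ow]
  exact DFunLike.congr_fun this c

theorem poly_of_bound (hH : St_HINT) (z : Fin m → F) (hz : AlgebraicIndependent k z)
    (u : IntermediateField.adjoin k (Set.range z)) (N : ℕ) (Ω : Type) [Field Ω] [Algebra k Ω]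
    (φ : F →ₐ[k] Ω) (h : ∀ O : ValuationSubring Ω, Ov k O →
      O.valuation (φ u) ≤ gv O (fun o => φ (ow z o)) ^ N) :
    ∃ p : MvPolynomial (Fin m) k, p.totalDegree ≤ N ∧ aeval z p = (u : F) := by
  obtain ⟨s, c, hs, hc, he⟩ := hH k Ω (Option (Fin m)) _ _ N h
  let q : ℕ → MvPolynomial (Fin m) k := fun j => aeval (ow X) (c j)
  have hq : ∀ j, φ (aeval z (q j)) = aeval (fun o => φ (ow z o)) (c j) := fun j => by
    rw [aeval_ow, ← AlgHom.comp_apply, comp_aeval]
  have he' : (u : F) ^ s + ∑ j ∈ Finset.range s, aeval z (q j) * (u : F) ^ j = 0 := by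
    apply φ.toRingHom.injective
    simp only [AlgHom.toRingHom_eq_coe, RingHom.coe_coe, map_add, map_pow, map_sum, map_mul,
      map_zero, hq]
    exact he
  let ψ : FractionRing (MvPolynomial (Fin m) k) →+* F :=
    (algebraMap (IntermediateField.adjoin k (Set.range z)) F).comp hz.aevalEquivField.toRingHom
  have hψ : ∀ a, ψ (algebraMap (MvPolynomial (Fin m) k) _ a) = aeval z a := fun a =>
    hz.aevalEquivField_algebraMap_apply_coe a
  obtain ⟨y, hy⟩ := hz.aevalEquivField.surjective u
  have hy' : ψ y = (u : F) := congrArg Subtype.val hy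
  have hint : IsIntegral (MvPolynomial (Fin m) k) y := by
    refine ⟨Polynomial.X ^ s + ∑ j ∈ Finset.range s, Polynomial.C (q j) * Polynomial.X ^ j,
      Polynomial.monic_X_pow_add ?_, ?_⟩
    · refine (Polynomial.degree_sum_le _ _).trans_lt ((Finset.sup_lt_iff (WithBot.bot_lt_coe s)).2
        fun j hj => (Polynomial.degree_C_mul_X_pow_le _ _).trans_lt ?_)
      exact WithBot.coe_lt_coe.2 (Finset.mem_range.1 hj)
    · apply ψ.injective
      simp only [Polynomial.eval₂_add, Polynomial.eval₂_finsetSum, Polynomial.eval₂_mul,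
        Polynomial.eval₂_C, Polynomial.eval₂_X_pow, map_add, map_pow, map_sum, map_mul, map_zero,
        hψ, hy']
      exact he'
  obtain ⟨p, hp⟩ := IsIntegrallyClosed.isIntegral_iff.1 hint
  have hpu : aeval z p = (u : F) := by rw [← hψ, hp, hy']
  refine ⟨p, deg_root p N s hs q (fun j hj => (deg_ow _).trans (hc j hj).totalDegree_le) ?_, hpu⟩
  apply algebraicIndependent_iff_injective_aeval.1 hz
  simp only [map_add, map_pow, map_sum, map_mul, map_zero, hpu]
  exact he'

theorem trace_poly [CharZero k] (hH : St_HINT) (z : Fin m → F) (hz : AlgebraicIndependent k z)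
    [FiniteDimensional (IntermediateField.adjoin k (Set.range z)) F] (g : F) (N : ℕ)
    (h : ∀ O : ValuationSubring F, Ov k O → O.valuation g ≤ gv O (ow z) ^ N) :
    ∃ p : MvPolynomial (Fin m) k, p.totalDegree ≤ N ∧
      aeval z p = (Algebra.trace (IntermediateField.adjoin k (Set.range z)) F g : F) := by
  have : CharZero (IntermediateField.adjoin k (Set.range z)) :=
    algebraRat.charZero _
  refine poly_of_bound hH z hz _ N (AlgebraicClosure F) (IsScalarTower.toAlgHom k F _)
    fun O hO => ?_
  have h1 := trace_eq_sum_embeddings (K := IntermediateField.adjoin k (Set.range z))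
    (AlgebraicClosure F) (x := g)
  have h2 : IsScalarTower.toAlgHom k F (AlgebraicClosure F)
      (Algebra.trace (IntermediateField.adjoin k (Set.range z)) F g : F) = _ := h1
  rw [h2]
  refine Valuation.map_sum_le _ fun σ _ => ?_
  have h3 : ∀ x : IntermediateField.adjoin k (Set.range z),
      σ (x : F) = IsScalarTower.toAlgHom k F (AlgebraicClosure F) (x : F) := fun x => σ.commutes x
  have h4 : Ov k (O.comap (σ : F →+* AlgebraicClosure F)) := fun a => by
    have := h3 (algebraMap k _ a)
    have h5 : σ (algebraMap k F a) = algebraMap k (AlgebraicClosure F) a :=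
      this.trans ((IsScalarTower.toAlgHom k F (AlgebraicClosure F)).commutes a)
    show σ (algebraMap k F a) ∈ O
    rw [h5]
    exact hO a
  have h5 := transfer (σ : F →+* AlgebraicClosure F) O z g N (h _ h4)
  have h6 : (fun o => (σ : F →+* AlgebraicClosure F) (ow z o))
      = fun o => IsScalarTower.toAlgHom k F (AlgebraicClosure F) (ow z o) := by
    funext o
    cases o with
    | none => simp [ow]
    | some j => exact h3 ⟨z j, IntermediateField.subset_adjoin k _ ⟨j, rfl⟩⟩
  rw [h6] at h5
  exact h5

end main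

end T94

open T94 in
theorem st_HFA (hH : St_HINT) : St_HFA := by
  intro k F _ _ _ _ m z z' t hz hz' hf hf' ht
  obtain ⟨b, C, hb⟩ := bdd_basis (k := k) z
  obtain ⟨b', C', hb'⟩ := bdd_basis (k := k) z'
  have ht0 : t ≠ 0 := by
    rintro rfl
    have := ht ⊤ fun _ => ValuationSubring.mem_top _
    rw [map_zero, zero_mul] at this
    exact absurd ((le_max_left _ _).trans this.le) (not_le.2 zero_lt_one)
  have : CharZero (IntermediateField.adjoin k (Set.range z')) := algebraRat.charZero _
  refine growth (fun n => Module.finrank k (restrictTotalDegree (Fin m) k n)) m (C + C') _ _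
    (rank_pos k m 0) (rank_le k m) fun n => ?_
  let S : Submodule k F :=
    (restrictTotalDegree (Fin m) k (n + (C + C'))).map (aeval z').toLinearMap
  let G : (Fin (Module.finrank (IntermediateField.adjoin k (Set.range z)) F) →
      restrictTotalDegree (Fin m) k n) →ₗ[k] F :=
    ∑ i, (LinearMap.mulRight k (b i)) ∘ₗ (aeval z).toLinearMap ∘ₗ
      (restrictTotalDegree (Fin m) k n).subtype ∘ₗ LinearMap.proj i
  have hG : ∀ p, G p = ∑ i, aeval z (p i : MvPolynomial (Fin m) k) * b i := fun p => by
    simp [G]
  let T : Fin (Module.finrank (IntermediateField.adjoin k (Set.range z')) F) → F →ₗ[k] F :=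
    fun l => (IntermediateField.adjoin k (Set.range z')).val.toLinearMap ∘ₗ
      ((Algebra.trace (IntermediateField.adjoin k (Set.range z')) F).restrictScalars k) ∘ₗ
        LinearMap.mulRight k ((t ^ (n + C))⁻¹ * b' l)
  have hT : ∀ l x, T l x = (Algebra.trace (IntermediateField.adjoin k (Set.range z')) F
      (x * ((t ^ (n + C))⁻¹ * b' l)) : F) := fun l x => rfl
  have hmem : ∀ l p, (T l ∘ₗ G) p ∈ S := by
    intro l p
    obtain ⟨q, hq, hq'⟩ := trace_poly hH z' hz' (G p * ((t ^ (n + C))⁻¹ * b' l)) (n + (C + C'))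
      fun O hO => by
        have h1 : O.valuation (G p) ≤ gv O (ow z) ^ (n + C) := by
          rw [hG]
          refine Valuation.map_sum_le _ fun i _ => ?_
          rw [map_mul, pow_add]
          exact mul_le_mul' (val_aeval O hO z _ n ((mem_restrictTotalDegree _ _ _).1 (p i).2))
            (hb i O hO)
        have h2 : gv O (ow z) = O.valuation t * gv O (ow z') := by
          rw [gv_ow, gv_ow]; exact ht O hO
        have h3 : O.valuation t ^ (n + C) ≠ 0 :=
          pow_ne_zero _ ((Valuation.ne_zero_iff _).2 ht0)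
        rw [h2, mul_pow] at h1
        rw [map_mul, map_mul, map_inv₀, map_pow]
        calc _ ≤ O.valuation t ^ (n + C) * gv O (ow z') ^ (n + C) *
              ((O.valuation t ^ (n + C))⁻¹ * gv O (ow z') ^ C') :=
              mul_le_mul' h1 (mul_le_mul' le_rfl (hb' l O hO))
          _ = _ := by
              rw [mul_mul_mul_comm, mul_inv_cancel₀ h3, one_mul, ← pow_add, add_assoc]
    exact ⟨q, (mem_restrictTotalDegree _ _ _).2 hq, hq'⟩
  let Ψ := LinearMap.pi fun l => LinearMap.codRestrict S (T l ∘ₗ G) (hmem l)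
  have hΨ : Function.Injective Ψ := by
    rw [injective_iff_map_eq_zero]
    intro p hp
    have h1 : ∀ l, Algebra.trace (IntermediateField.adjoin k (Set.range z')) F
        (G p * (t ^ (n + C))⁻¹ * b' l) = 0 := fun l => by
      have h2 : T l (G p) = 0 := congrArg Subtype.val (congrFun hp l)
      rw [hT] at h2
      rw [mul_assoc]
      exact Subtype.ext h2
    have h2 : G p * (t ^ (n + C))⁻¹ = 0 := by
      refine (traceForm_nondegenerate (IntermediateField.adjoin k (Set.range z')) F).1 _
        fun y => ?_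
      have h3 : Algebra.traceForm (IntermediateField.adjoin k (Set.range z')) F
          (G p * (t ^ (n + C))⁻¹) = 0 := b'.ext fun l => by
        rw [Algebra.traceForm_apply]; exact h1 l
      rw [h3]; rfl
    have h3 : G p = 0 := (mul_eq_zero.1 h2).resolve_right (inv_ne_zero (pow_ne_zero _ ht0))
    have h4 : ∀ q : MvPolynomial (Fin m) k,
        aeval z q ∈ IntermediateField.adjoin k (Set.range z) := fun q =>
      IntermediateField.algebra_adjoin_le_adjoin k _
        (by rw [Algebra.adjoin_range_eq_range_aeval]; exact ⟨q, rfl⟩)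
    have h5 := Fintype.linearIndependent_iff.1 b.linearIndependent
      (fun i => ⟨aeval z (p i : MvPolynomial (Fin m) k), h4 _⟩) (by rw [hG] at h3; exact h3)
    funext i
    apply Subtype.ext
    apply algebraicIndependent_iff_injective_aeval.1 hz
    rw [Pi.zero_apply, ZeroMemClass.coe_zero, map_zero]
    exact congrArg Subtype.val (h5 i)
  have h6 := LinearMap.finrank_le_finrank_of_injective hΨ
  rw [Module.finrank_pi_fintype, Module.finrank_pi_fintype] at h6
  simp only [Finset.sum_const, Finset.card_univ, Fintype.card_fin, smul_eq_mul] at h6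
  exact h6.trans (Nat.mul_le_mul_left _ (Submodule.finrank_map_le _ _))

end D4C
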