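import Pool.Agent.Lib.D4C.BlueE

/-! d4c block HIB: the low parts of the reduced forms can be dropped. -/

set_option linter.unusedVariables false

namespace D4C

open MvPolynomial

namespace T49

theorem hiP_zero {g : ℕ} {σ L : Type} [Field L] (q : MvPolynomial (Fin (g + 2 + 1) ⊕ σ) L) :
    hiP 0 q = q := by
  unfold hiP
  rw [Finset.filter_true_of_mem fun _ _ => Nat.zero_le _]
  exact (as_sum q).symm

theorem hiP_split {g : ℕ} {σ L : Type} [Field L] (m0 n r0 : ℕ)
    (s : Finset (Fin (g + 2 + 1) ⊕ σ →₀ ℕ))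
    (hs : ∀ ε, ε ∈ s ↔ (fl ε).degree = n ∧ (fr ε).degree = r0 ∧ o2 ε < m0)
    (q : MvPolynomial (Fin (g + 2 + 1) ⊕ σ) L)
    (hq : ∀ ε ∈ q.support, (fl ε).degree = n ∧ (fr ε).degree = r0) :
    q = hiP m0 q + ∑ ε ∈ s, coeff ε q • monomial ε (1 : L) := by
  classical
  have h1 : ∑ ε ∈ s, coeff ε q • monomial ε (1 : L) =
      ∑ ε ∈ q.support.filter fun ε => ¬ m0 ≤ o2 ε, monomial ε (coeff ε q) := by
    symm
    have e : ∀ ε, (monomial ε (coeff ε q) : MvPolynomial (Fin (g + 2 + 1) ⊕ σ) L) =
        coeff ε q • monomial ε (1 : L) := by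
      intro ε
      rw [smul_monomial, smul_eq_mul, mul_one]
    simp only [e]
    apply Finset.sum_subset
    · intro ε hε
      rw [Finset.mem_filter] at hε
      exact (hs ε).2 ⟨(hq ε hε.1).1, (hq ε hε.1).2, by omega⟩
    · intro ε hε hn
      have h2 := ((hs ε).1 hε).2.2
      have h3 : ε ∉ q.support := fun h => hn (Finset.mem_filter.2 ⟨h, by omega⟩)
      rw [notMem_support_iff.1 h3, zero_smul]
  rw [h1]
  unfold hiP
  rw [Finset.sum_filter_add_sum_filter_not]
  exact as_sum q

theorem map_mon {σ L R S : Type} [Field L] [Fintype σ] [CommRing R] [CommRing S] [Algebra L R]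
    [Algebra L S] (f : R →ₐ[L] S) (x : σ → R) (γ : σ →₀ ℕ) :
    f (mon x γ) = mon (fun a => f (x a)) γ := by
  unfold mon
  simp only [map_prod, map_pow]

theorem zr_map {σ L R S : Type} [Field L] [CommRing R] [CommRing S] [Algebra L R]
    [Algebra L S] (f : R →ₐ[L] S) (I : Ideal (MvPolynomial σ L)) (x : σ → R) (h : Zr I x) :
    Zr I fun a => f (x a) := by
  intro F hF
  have h1 := congrArg f (h F hF)
  rw [map_zero] at h1
  rw [← h1]
  exact (congrArg (fun φ : MvPolynomial σ L →ₐ[L] S => φ F) (comp_aeval x f)).symm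

/-- a term in which the block `j` is a killing functional vanishes -/
theorem van_term (hTN : St_TN) {L σ R : Type} [Field L] [Fintype σ] [DecidableEq σ]
    [CommRing R] [IsDomain R] [Algebra L R] (B : Pkg L σ) {k : ℕ}
    (F : MvPolynomial (Fin (k + 1) × σ) L) (δ : Fin (k + 1) → ℕ) (hF : MH δ F) (j : Fin (k + 1))
    (hj : j ≠ 0) (f : (σ →₀ ℕ) → L) (hv : VanAt B F j f) (x : σ → R) (hx : x ≠ 0)
    (hz : Zr B.I x) (t : R) (ht : t ≠ 0) (T : Fin (k + 1) → (σ →₀ ℕ) → R)
    (hT : ∀ γ, γ.degree = δ 0 → mon x γ = t * T 0 γ) :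
    Tn L (Function.update T j fun γ => algebraMap L R (f γ)) F = 0 := by
  classical
  let ι : R →ₐ[L] FractionRing R := IsScalarTower.toAlgHom L R (FractionRing R)
  have hι : Function.Injective ι := IsFractionRing.injective R (FractionRing R)
  apply hι
  rw [map_zero, (hTN L (Fin (k + 1)) σ R).2.2.2.2.1 (FractionRing R) ι]
  have ht' : ι t ≠ 0 := fun h => ht (hι (by rw [h, map_zero]))
  let T1 : Fin (k + 1) → (σ →₀ ℕ) → FractionRing R :=
    fun i γ => ι (Function.update T j (fun γ => algebraMap L R (f γ)) i γ)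
  have h6 := (hTN L (Fin (k + 1)) σ (FractionRing R)).2.2.2.2.2.1 T1
    (Function.update T1 0 (mon fun a => ι (x a))) (Function.update 1 0 (ι t)⁻¹) δ F hF (by
      intro i γ hγ
      by_cases hi : i = 0
      · subst hi
        simp only [T1, Function.update_self, Function.update_of_ne hj.symm]
        rw [← map_mon, hT γ hγ, map_mul, ← mul_assoc, inv_mul_cancel₀ ht', one_mul]
      · simp only [Function.update_of_ne hi, Pi.one_apply, one_mul])
  have h0 : Tn L (Function.update T1 0 (mon fun a => ι (x a))) F = 0 := by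
    apply hv (FractionRing R) (fun a => ι (x a))
    · intro h
      apply hx
      funext a
      apply hι
      rw [Pi.zero_apply, map_zero]
      exact congrFun h a
    · exact zr_map ι _ x hz
    · intro γ
      rw [Function.update_self]
    · intro γ
      rw [Function.update_of_ne hj]
      simp only [T1, Function.update_self]
      exact ι.commutes (f γ)
  change Tn L T1 F = 0
  rw [h6, h0, mul_zero]

end T49

open T49 in
theorem st_HIB (hTN : St_TN) (hPHB : St_PHB) (hCNB : St_CNB) (hBLK : St_BLK) : St_HIB := by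
  intro L σ _ _ _ B g e D D1 k V r0 n mm Kb F hK hF hm0 hvan
  classical
  choose fb hinj hfb hX hc using (hBLK (Fin (k + 1)) (Fin (g + 2)) L).1
  obtain ⟨hP1, hP2⟩ := hPHB L σ B (g + 2) e D D1
  have : IsDomain (PS (Fin (k + 1) × Fin (g + 2)) L) := NoZeroDivisors.to_isDomain _
  let E : Fin (k + 1) → MvPolynomial (Fin (g + 2 + 1) ⊕ σ) L →ₐ[L]
      PS (Fin (k + 1) × Fin (g + 2)) L :=
    fun i => (fb i).comp ((V i).ev.comp (phiOf (V i).W))
  have hE : ∀ i q, blk i ((V i).ev (phiOf (V i).W q)) = E i q := fun i q => (hfb i _).symm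
  let Tm : Finset (Fin (k + 1)) → Fin (k + 1) → (σ →₀ ℕ) → PS (Fin (k + 1) × Fin (g + 2)) L :=
    fun s i γ => if i ∈ s then E i (hiP (mm i) (Kb i γ)) else E i (Kb i γ)
  have hT0 : ∀ s γ, Tm s 0 γ = E 0 (Kb 0 γ) := by
    intro s γ
    simp only [Tm, hm0, hiP_zero, ite_self]
  obtain ⟨hz, hu, -, hθ, hmon⟩ := hP1 (V 0)
  have hx : (fun a => fb 0 ((V 0).X a)) ≠ 0 := by
    obtain ⟨a, ha⟩ := hu
    intro h
    exact (ha.map (fb 0)).ne_zero (congrFun h a)
  have ht : fb 0 ((V 0).ev (V 0).W.θ) ^ n 0 ≠ 0 := by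
    apply pow_ne_zero
    intro h
    apply hθ
    rw [← hc 0, h, map_zero]
  have key : ∀ s, Tn L (Tm s) F = Tn L (Tm ∅) F := by
    intro s
    induction s using Finset.induction_on with
    | empty => rfl
    | insert j s hjs ih =>
      rw [← ih]
      by_cases hj : j = 0
      · congr 2
        funext i γ
        by_cases hi : i = j
        · rw [hi, hj, hT0, hT0]
        · simp only [Tm, Finset.mem_insert, hi, false_or]
      · obtain ⟨sl, hsl, -⟩ := (hCNB σ).2 g (n j) (r0 j) (mm j)
        let f : Option (Fin (g + 2 + 1) ⊕ σ →₀ ℕ) → (σ →₀ ℕ) →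
            PS (Fin (k + 1) × Fin (g + 2)) L := fun o γ =>
          o.elim (E j (hiP (mm j) (Kb j γ))) fun ε => algebraMap L _ (coeff ε (Kb j γ))
        let y : Option (Fin (g + 2 + 1) ⊕ σ →₀ ℕ) → PS (Fin (k + 1) × Fin (g + 2)) L := fun o =>
          o.elim 1 fun ε => E j (monomial ε 1)
        have h6 := (hTN L (Fin (k + 1)) σ (PS (Fin (k + 1) × Fin (g + 2)) L)).2.2.2.2.2.1 (Tm s)
          (Function.update (Tm s) j fun γ => ∑ o ∈ Finset.insertNone sl, f o γ * y o) 1
          (fun i => r0 i + e * n i) F hF (by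
            intro i γ hγ
            rw [Pi.one_apply, one_mul]
            by_cases hi : i = j
            · subst hi
              rw [Function.update_self, Finset.sum_insertNone]
              simp only [Tm, if_neg hjs, f, y, Option.elim, mul_one]
              conv_lhs => rw [hiP_split (mm i) (n i) (r0 i) sl hsl (Kb i γ) ((hK i).deg γ hγ)]
              rw [map_add, map_sum]
              simp only [map_smul]
              simp only [Algebra.smul_def]
            · rw [Function.update_of_ne hi])
        rw [h6, (hTN L (Fin (k + 1)) σ (PS (Fin (k + 1) × Fin (g + 2)) L)).2.2.2.2.2.2.1,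
          Finset.sum_insertNone]
        have hz0 : ∑ ε ∈ sl, Tn L (Function.update (Tm s) j (f (some ε))) F * y (some ε) = 0 := by
          apply Finset.sum_eq_zero
          intro ε hε
          obtain ⟨h1, h2, h3⟩ := (hsl ε).1 hε
          have := van_term hTN B F _ hF j hj _ (hvan j hj ε h1 h2 h3) _ hx
            (zr_map (fb 0) _ _ hz) _ ht (Tm s) (by
              intro γ hγ
              rw [← map_mon, hmon (r0 0) (n 0) (Kb 0) (hK 0) γ hγ, map_mul, map_pow, hT0]
              rfl)
          have e2 : f (some ε) = fun γ => algebraMap L _ (coeff ε (Kb j γ)) := rfl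
          rw [e2, this, zero_mul]
        rw [hz0, add_zero]
        simp only [Pi.one_apply, Finset.prod_const_one, one_mul, y, Option.elim, mul_one]
        congr 2
        funext i γ
        by_cases hi : i = j
        · subst hi
          simp only [Function.update_self, Tm, Finset.mem_insert_self, if_true, f, Option.elim]
        · simp only [Function.update_of_ne hi, Tm, Finset.mem_insert, hi, false_or]
  have h1 : evV V (GB V Kb F) = Tn L (Tm ∅) F := by
    unfold GB
    rw [(hTN L (Fin (k + 1)) σ (AA L (k + 1) (g + 2))).2.2.2.2.1 _ (evV V)]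
    congr 2
    funext i γ
    rw [(hP2 (k + 1) V).1, hE]
    simp only [Tm, Finset.notMem_empty, if_false]
  rw [h1, ← key Finset.univ]
  congr 2
  funext i γ
  rw [hE]
  simp only [Tm, Finset.mem_univ, if_true]

end D4C
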