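import Pool.Agent.Lib.D4C.BlueF

/-! d4c56 block HINT: a valuative bound gives a homogeneous integral equation. -/

namespace D4C

open MvPolynomial

namespace T76

variable {k K ι : Type} [Field k] [Field K] [Algebra k K]

theorem coeff_scale (w : ι → K) (P : MvPolynomial ι k) (d : ℕ) :
    (aeval (fun i => Polynomial.C (w i) * Polynomial.X) P : Polynomial K).coeff d =
      aeval w (homogeneousComponent d P) := by
  classical
  induction P using MvPolynomial.induction_on' with
  | monomial α a =>
    have h1 : (aeval (fun i => Polynomial.C (w i) * Polynomial.X) (monomial α a) : Polynomial K) =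
        Polynomial.C (aeval w (monomial α a)) * Polynomial.X ^ α.degree := by
      rw [aeval_monomial, aeval_monomial, map_mul, Polynomial.algebraMap_apply, mul_assoc]
      congr 1
      simp only [Finsupp.prod, mul_pow, Finset.prod_mul_distrib, map_prod, map_pow,
        Finset.prod_pow_eq_pow_sum, Finsupp.degree_apply]
    rw [h1, Polynomial.coeff_C_mul_X_pow,
      homogeneousComponent_of_mem (isHomogeneous_monomial a rfl)]
    split_ifs <;> simp
  | add P Q hP hQ => simp only [map_add, Polynomial.coeff_add, hP, hQ]

end T76

theorem st_HINT : St_HINT := by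
  classical
  intro k K ι _ _ _ _ w u m h
  let L := FractionRing (Polynomial K)
  let ψ : MvPolynomial ι k →+* Polynomial K :=
    (aeval (fun i => Polynomial.C (w i) * Polynomial.X) : MvPolynomial ι k →ₐ[k] Polynomial K)
  let a : Polynomial K →+* L := algebraMap (Polynomial K) L
  have ha : Function.Injective a := IsFractionRing.injective _ _
  let φ : MvPolynomial ι k →+* L := a.comp ψ
  let z : Polynomial K := Polynomial.C u * Polynomial.X ^ m
  have hz : a z ∈ (integralClosure (Subring.closure (φ.range : Set L)) L).toSubring := by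
    rw [← iInf_valuationSubring_superset, Subring.mem_iInf]
    rintro ⟨V, hV⟩
    let O : ValuationSubring K := V.comap (a.comp Polynomial.C)
    have hO : Ov k O := fun c => by
      have := hV ⟨C c, rfl⟩
      simpa [O, φ, ψ, ValuationSubring.mem_comap] using this
    obtain ⟨y, hy1, hy2⟩ : ∃ y : K, gv O w = O.valuation y ∧
        a (Polynomial.C y * Polynomial.X) ∈ V := by
      rcases (Finset.univ : Finset ι).eq_empty_or_nonempty with h0 | h0
      · exact ⟨0, by rw [gv, h0, map_zero]; rfl, by simp⟩
      · obtain ⟨i, -, hi⟩ := Finset.exists_mem_eq_sup _ h0 fun i => O.valuation (w i)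
        refine ⟨w i, hi, ?_⟩
        have := hV ⟨X i, rfl⟩
        simpa [φ, ψ] using this
    have h1 := h O hO
    rw [hy1, ← map_pow, ValuationSubring.valuation_le_iff] at h1
    obtain ⟨b, hb⟩ := h1
    have e : z = Polynomial.C (b : K) * (Polynomial.C y * Polynomial.X) ^ m := by
      simp only [z, ← hb, map_mul, map_pow, mul_pow, mul_assoc]
    show a z ∈ V
    rw [e, map_mul, map_pow]
    exact V.mul_mem _ _ b.2 (pow_mem hy2 m)
  obtain ⟨p, hp, hp0⟩ : IsIntegral (Subring.closure (φ.range : Set L)) (a z) := hz
  have hc : ∀ j, ∃ P, φ P = (p.coeff j : L) := fun j =>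
    (Subring.closure_le (t := φ.range)).2 subset_rfl (p.coeff j).2
  choose P hP using hc
  have h2 : z ^ p.natDegree + ∑ j ∈ Finset.range p.natDegree, ψ (P j) * z ^ j = 0 := by
    apply ha
    rw [Polynomial.eval₂_eq_sum_range, Finset.sum_range_succ, hp.coeff_natDegree] at hp0
    rw [map_zero, ← hp0, map_add, map_sum, map_pow, map_one, one_mul, add_comm]
    congr 1
    refine Finset.sum_congr rfl fun j _ => ?_
    rw [map_mul, map_pow]
    congr 1
    exact hP j
  have h3 : u ^ p.natDegree + ∑ j ∈ Finset.range p.natDegree,
      aeval w (homogeneousComponent (m * (p.natDegree - j)) (P j)) * u ^ j = 0 := by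
    have := congrArg (fun q => Polynomial.coeff q (m * p.natDegree)) h2
    simp only [z, mul_pow, ← map_pow, ← pow_mul, Polynomial.coeff_add, Polynomial.finsetSum_coeff,
      Polynomial.coeff_C_mul_X_pow, if_true, Polynomial.coeff_zero] at this
    rw [← this]
    congr 1
    refine Finset.sum_congr rfl fun j hj => ?_
    have e : m * p.natDegree = m * (p.natDegree - j) + m * j := by
      rw [← mul_add, Nat.sub_add_cancel (Finset.mem_range.1 hj).le]
    rw [e, ← mul_assoc, Polynomial.coeff_mul_X_pow, Polynomial.coeff_mul_C, ← T76.coeff_scale]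
    rfl
  refine ⟨p.natDegree, fun j => homogeneousComponent (m * (p.natDegree - j)) (P j), ?_,
    fun j _ => homogeneousComponent_isHomogeneous _ _, h3⟩
  by_contra h4
  have h5 : p.natDegree = 0 := by omega
  rw [h5] at h3
  simp at h3

end D4C
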