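import Pool.Agent.Lib.D4C.BlueU

/-! d4c block HSPAN: homogeneous elements of an ideal spanned by forms of one degree. -/

namespace D4C

open MvPolynomial

namespace T45

theorem hc_mul_add {k σ : Type} [Field k] (c f : MvPolynomial σ k) (d n : ℕ)
    (hf : f.IsHomogeneous d) :
    homogeneousComponent (n + d) (c * f) = homogeneousComponent n c * f := by
  let _ := MvPolynomial.gradedAlgebra (σ := σ) (R := k)
  rw [← decomposition.decompose'_apply, ← decomposition.decompose'_apply]
  exact DirectSum.coe_decompose_mul_add_of_right_mem (homogeneousSubmodule σ k) (a := c) (i := n) hf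

theorem isHom_span {k σ ι : Type} [Field k] (f : ι → MvPolynomial σ k) (d : ℕ)
    (hf : ∀ u, (f u).IsHomogeneous d) : IsHom (Ideal.span (Set.range f)) := by
  let _ := MvPolynomial.gradedAlgebra (σ := σ) (R := k)
  intro F hF n
  refine homogeneousComponent_mem_of_mem
    (Ideal.homogeneous_span (homogeneousSubmodule σ k) _ ?_) hF n
  rintro _ ⟨u, rfl⟩
  exact ⟨d, hf u⟩

end T45

theorem st_HSPAN : St_HSPAN := by
  intro k σ ι _ _ f d hf
  refine ⟨T45.isHom_span f d hf, fun G n hG hm => ?_⟩
  obtain ⟨c, hc⟩ := Ideal.mem_span_range_iff_exists_fun.mp hm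
  refine ⟨fun u => homogeneousComponent n (c u),
    fun u => homogeneousComponent_isHomogeneous n _, ?_⟩
  rw [← homogeneousComponent_eq_self hG, ← hc, map_sum]
  exact Finset.sum_congr rfl fun u _ => T45.hc_mul_add _ _ d n (hf u)

end D4C
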