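import Pool.Agent.Lib.D4C.BlueE

namespace D4C

open MvPolynomial Height

namespace T51

variable {L : Type} [Field L] {δ : Type}

/-- families of numbers whose height is bounded by a multiple of `H` -/
noncomputable def smS (L : Type) [Field L] [NumberField L] (H : δ → ℝ) (hH : ∀ d, 1 ≤ H d) :
    Subalgebra L (δ → L) where
  carrier := {f | ∃ C : ℝ, 0 ≤ C ∧ ∀ d, logHeight₁ (f d) ≤ C * H d}
  mul_mem' := fun ⟨C, hC, h⟩ ⟨C', hC', h'⟩ => ⟨C + C', add_nonneg hC hC', fun d =>
    (logHeight₁_mul_le _ _).trans (by linarith [h d, h' d])⟩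
  add_mem' := fun ⟨C, hC, h⟩ ⟨C', hC', h'⟩ => by
    have h2 : 0 ≤ (totalWeight L : ℝ) * Real.log 2 := by positivity
    refine ⟨totalWeight L * Real.log 2 + C + C', by positivity, fun d =>
      (logHeight₁_add_le _ _).trans ?_⟩
    linarith [h d, h' d, le_mul_of_one_le_right h2 (hH d)]
  algebraMap_mem' := fun c => ⟨logHeight₁ c, zero_le_logHeight₁ c, fun d =>
    le_mul_of_one_le_right (zero_le_logHeight₁ c) (hH d)⟩

/-- families of dual numbers with both parts in `S` -/
def dualS (S : Subalgebra L (δ → L)) : Subalgebra L (δ → DualNumber L) where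
  carrier := {f | (fun d => (f d).fst) ∈ S ∧ (fun d => (f d).snd) ∈ S}
  mul_mem' := fun {a b} h h' => ⟨S.mul_mem h.1 h'.1, by
    simp only [Pi.mul_apply, DualNumber.snd_mul]
    exact S.add_mem (S.mul_mem h.1 h'.2) (S.mul_mem h.2 h'.1)⟩
  add_mem' := fun h h' => ⟨S.add_mem h.1 h'.1, S.add_mem h.2 h'.2⟩
  algebraMap_mem' := fun c => ⟨S.algebraMap_mem c, S.zero_mem⟩

theorem dn_mem {S : Subalgebra L (δ → L)} {a b : δ → L} (ha : a ∈ S) (hb : b ∈ S) :
    (fun d => dn (a d) (b d)) ∈ dualS S := by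
  constructor
  · simpa [dn] using ha
  · simpa [dn] using hb

variable {R : Type} [CommRing R] [Algebra L R] {T : Subalgebra L (δ → R)}

theorem aeval_mem {τ : Type} {x : δ → τ → R} (hx : ∀ s, (fun d => x d s) ∈ T)
    (F : MvPolynomial τ L) : (fun d => aeval (x d) F) ∈ T := by
  induction F using MvPolynomial.induction_on with
  | C a => simp only [aeval_C]; exact T.algebraMap_mem a
  | add p q hp hq => simp only [map_add]; exact T.add_mem hp hq
  | mul_X p s hp => simp only [map_mul, aeval_X]; exact T.mul_mem hp (hx s)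

/-- a family of polynomials of bounded degree with coefficients in `S` -/
def SmF (S : Subalgebra L (δ → L)) {m : ℕ} (D1 : ℕ) (q : δ → ZT L m) : Prop :=
  (∀ d, (q d).natDegree ≤ D1) ∧ (∀ d l, ((q d).coeff l).totalDegree ≤ D1) ∧
    ∀ l ν, (fun d => coeff ν ((q d).coeff l)) ∈ S

theorem SmF.derivative {S : Subalgebra L (δ → L)} {m D1 : ℕ} {q : δ → ZT L m} (h : SmF S D1 q) :
    SmF S D1 fun d => Polynomial.derivative (q d) := by
  have e : ∀ d l, (Polynomial.derivative (q d)).coeff l = ((l : L) + 1) • (q d).coeff (l + 1) :=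
    fun d l => by rw [Polynomial.coeff_derivative, smul_eq_C_mul, mul_comm]; simp
  refine ⟨fun d => (Polynomial.natDegree_derivative_le _).trans ((Nat.sub_le _ _).trans (h.1 d)),
    fun d l => ?_, fun l ν => ?_⟩
  · rw [e]
    exact (totalDegree_smul_le _ _).trans (h.2.1 d _)
  · simp only [e, coeff_smul]
    exact S.smul_mem (h.2.2 _ ν) _

theorem evZT_mem {S : Subalgebra L (δ → L)} (hT : ∀ f ∈ S, (fun d => algebraMap L R (f d)) ∈ T)
    {m D1 : ℕ} {q : δ → ZT L m} (h : SmF S D1 q) {z : δ → Fin m → R} {t : δ → R}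
    (hz : ∀ j, (fun d => z d j) ∈ T) (ht : t ∈ T) : (fun d => evZT (z d) (t d) (q d)) ∈ T := by
  have e : (fun d => evZT (z d) (t d) (q d)) = ∑ l ∈ Finset.range (D1 + 1),
      (∑ ν ∈ (Finsupp.finite_of_degree_le (σ := Fin m) D1).toFinset,
        (fun d => algebraMap L R (coeff ν ((q d).coeff l))) * ∏ j, (fun d => z d j) ^ ν j) *
          t ^ l := by
    funext d
    refine (Polynomial.eval₂_eq_sum_range' _ (Nat.lt_succ_of_le (h.1 d)) _).trans ?_
    simp only [Finset.sum_apply, Pi.mul_apply, Finset.prod_apply, Pi.pow_apply]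
    refine Finset.sum_congr rfl fun l _ => congrArg (· * t d ^ l) ?_
    change aeval (z d) ((q d).coeff l) = _
    rw [aeval_def, eval₂_eq']
    refine Finset.sum_subset (fun ν hν => ?_) fun ν _ hν => ?_
    · rw [Set.Finite.mem_toFinset]
      exact (le_totalDegree hν).trans (h.2.1 d l)
    · rw [notMem_support_iff.mp hν, map_zero, zero_mul]
  rw [e]
  exact T.sum_mem fun l _ => T.mul_mem (T.sum_mem fun ν _ => T.mul_mem (hT _ (h.2.2 l ν))
    (T.prod_mem fun j _ => T.pow_mem (hz j) _)) (T.pow_mem ht _)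

theorem le_hA [NumberField L] {A : Finset L} {a : L} (h : a ∈ A) : logHeight₁ a ≤ hA A :=
  Finset.single_le_sum (f := fun a => logHeight₁ a) (fun a _ => zero_le_logHeight₁ a) h

end T51

open T51 in
theorem st_HTM (hZ : St_HTZ) (hE : St_HENS) : St_HTM := by
  intro L σ _ _ _ _ B g m e D D1 C
  classical
  obtain ⟨C1, hC1, h1⟩ := hZ L σ B m e D D1
  have hH : ∀ V : Lv B m e D D1, 1 ≤ B.ht V.x + hA V.A + 1 := fun V => by
    have h2 : 0 ≤ B.ht V.x := logHeight_nonneg _
    have h3 : 0 ≤ hA V.A := Finset.sum_nonneg fun a _ => zero_le_logHeight₁ a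
    linarith
  let S := smS L _ hH
  have hq : ∀ q : Lv B m e D D1 → ZT L m, (∀ V, SmQ D1 V.A (q V)) → SmF S D1 q := fun q h =>
    ⟨fun V => (h V).1, fun V l => ((h V).2 l).1, fun l ν => ⟨1, zero_le_one, fun V => by
      have h2 : 0 ≤ B.ht V.x := logHeight_nonneg _
      rcases ((h V).2 l).2 ν with h3 | h3
      · simp only [h3, logHeight₁_zero]
        linarith [hH V]
      · linarith [le_hA h3]⟩⟩
  have hP := hq _ fun V => V.small.P
  have hφ := fun i => hq _ fun V => V.small.φ i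
  have hz : ∀ j, (fun V : Lv B m e D D1 => V.z j) ∈ S := fun j => ⟨C1, hC1, fun V =>
    (le_hA (by simp [Lv.A', bigA])).trans (h1 V).2.1⟩
  have ht : (fun V : Lv B m e D D1 => V.t) ∈ S := ⟨C1, hC1, fun V =>
    (le_hA (by simp [Lv.A', bigA])).trans (h1 V).2.1⟩
  have hT : ∀ f ∈ S, (fun d => algebraMap L (DualNumber L) (f d)) ∈ dualS S := fun f hf =>
    ⟨hf, S.zero_mem⟩
  have key : ∀ (a : Fin B.nl) (b : Fin g) (j : Fin m),
      (fun V : Lv B m e D D1 => tm C a V.W.P V.W.φ V.z V.t b j) ∈ S := fun a b j => by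
    refine (aeval_mem (T := dualS S) (fun i => aeval_mem (fun s => ?_) _) (C.num b)).2
    cases s with
    | inl s =>
      refine evZT_mem hT (hφ s) (fun l => dn_mem (hz l) ?_) (dn_mem ht (S.neg_mem
        (evZT_mem hT hP (fun l => dn_mem (hz l) ?_) (dn_mem ht S.zero_mem)).2))
      · split_ifs
        · exact evZT_mem (fun f hf => hf) hP.derivative hz ht
        · exact S.zero_mem
      · split_ifs
        · exact S.one_mem
        · exact S.zero_mem
    | inr s => exact dn_mem (evZT_mem (fun f hf => hf) (hφ _) hz ht) S.zero_mem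
  choose c hc hc' using key
  refine ⟨∑ a, ∑ b, ∑ j, c a b j, Finset.sum_nonneg fun a _ => Finset.sum_nonneg fun b _ =>
    Finset.sum_nonneg fun j _ => hc a b j, fun W A x z t a hAt hW b j => ?_⟩
  obtain ⟨η, hη⟩ := hE L m W.P z t hAt.root fun h => hAt.Δ_ne (by
    obtain ⟨u, hu⟩ := hAt.ok.sep
    have h2 := congrArg (evZT z t) hu
    rw [map_sub, map_mul, map_mul, h, hAt.root, zero_mul, zero_mul, zero_sub, neg_eq_zero] at h2
    exact (Polynomial.aevalTower_C _ _ _).symm.trans h2)
  let V : Lv B m e D D1 := ⟨W, z, t, A, x, η, hAt.ok, hW, hAt.root, hAt.Δ_ne, hAt.rep, hη⟩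
  refine (hc' a b j V).trans (mul_le_mul_of_nonneg_right ?_ (zero_le_one.trans (hH V)))
  refine le_trans ?_ (Finset.single_le_sum (f := fun a => ∑ b, ∑ j, c a b j) (fun a _ =>
    Finset.sum_nonneg fun b _ => Finset.sum_nonneg fun j _ => hc a b j) (Finset.mem_univ a))
  refine le_trans ?_ (Finset.single_le_sum (f := fun b => ∑ j, c a b j) (fun b _ =>
    Finset.sum_nonneg fun j _ => hc a b j) (Finset.mem_univ b))
  exact Finset.single_le_sum (f := fun j => c a b j) (fun j _ => hc a b j) (Finset.mem_univ j)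

end D4C
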