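import Pool.Agent.Lib.D4C.BlueE
import Pool.Agent.Lib.D4C.T83L1

/-! Heights of the parameters of a point on a presented variety. -/

namespace D4C

open MvPolynomial T83

namespace T62

variable {L : Type} [Field L] (v : AbsoluteValue L ℝ)

theorem v_aeval {τ : Type} (F : MvPolynomial τ L) (w : τ → L) {K : ℝ}
    (h : ∀ d ∈ F.support, ∏ i ∈ d.support, v (w i) ^ d i ≤ K) : v (aeval w F) ≤ l1 v F * K := by
  conv_lhs => rw [F.as_sum, map_sum]
  refine (v.sum_le _ _).trans ?_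
  rw [l1, Finset.sum_mul]
  refine Finset.sum_le_sum fun d hd => ?_
  rw [aeval_monomial, map_mul, Finsupp.prod, map_prod]
  refine mul_le_mul_of_nonneg_left ?_ (v.nonneg _)
  simpa only [map_pow] using h d hd

theorem prod_le {τ : Type} (w : τ → L) {M : ℝ} (h : ∀ i, v (w i) ≤ M) (d : τ →₀ ℕ) :
    ∏ i ∈ d.support, v (w i) ^ d i ≤ M ^ d.degree := by
  rw [Finsupp.degree_apply, ← Finset.prod_pow_eq_pow_sum]
  exact Finset.prod_le_prod (fun _ _ => pow_nonneg (v.nonneg _) _) fun i _ =>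
    pow_le_pow_left₀ (v.nonneg _) (h i) _

theorem v_hom {τ : Type} [Fintype τ] {F : MvPolynomial τ L} {e D1 : ℕ} {A : Finset L}
    (hF : F.IsHomogeneous e) (hs : SmP D1 A F) (w : τ → L) (hw : w ≠ 0) :
    v (aeval w F) ≤ (D1 + 1) ^ Fintype.card τ * hv v A * sn v w ^ e := by
  obtain ⟨i, -, hi⟩ := exists_sn v hw
  refine (v_aeval v F w (K := sn v w ^ e) fun d hd => ?_).trans
    (mul_le_mul_of_nonneg_right (l1_smp v hs) (pow_nonneg (hi ▸ v.nonneg _) _))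
  have hd' : d.degree = e := by
    have := hF (mem_support_iff.mp hd)
    rwa [Finsupp.degree_eq_weight_one]
  exact hd' ▸ prod_le v w (le_sn v w) d

theorem v_smp {τ : Type} [Fintype τ] {F : MvPolynomial τ L} {D1 : ℕ} {A : Finset L}
    (hs : SmP D1 A F) (w : τ → L) {M : ℝ} (h1 : 1 ≤ M) (h : ∀ i, v (w i) ≤ M) :
    v (aeval w F) ≤ (D1 + 1) ^ Fintype.card τ * hv v A * M ^ D1 := by
  refine (v_aeval v F w (K := M ^ D1) fun d hd => ?_).trans
    (mul_le_mul_of_nonneg_right (l1_smp v hs) (by positivity))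
  exact (prod_le v w h d).trans (pow_le_pow_right₀ h1 ((le_totalDegree hd).trans hs.1))

theorem v_smq {m D1 : ℕ} {A : Finset L} {q : ZT L m} (hs : SmQ D1 A q) (z : Fin m → L) (t : L)
    {M : ℝ} (h1 : 1 ≤ M) (h : ∀ i, v (z i) ≤ M) (ht : v t ≤ M) :
    v (evZT z t q) ≤ (D1 + 1) ^ (m + 1) * hv v A * M ^ (2 * D1) := by
  have h0 := one_le_hv v A
  conv_lhs => rw [q.as_sum_range' (D1 + 1) (Nat.lt_succ_of_le hs.1), map_sum]
  refine (v.sum_le _ _).trans ((Finset.sum_le_card_nsmul _ _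
    ((D1 + 1) ^ m * hv v A * M ^ D1 * M ^ D1) fun l hl => ?_).trans_eq ?_)
  · rw [← Polynomial.C_mul_X_pow_eq_monomial, map_mul, map_pow, evZT_C, evZT_X, map_mul, map_pow]
    have := v_smp v (hs.2 l) z h1 h
    rw [Fintype.card_fin] at this
    exact mul_le_mul this ((pow_le_pow_left₀ (v.nonneg _) ht _).trans
      (pow_le_pow_right₀ h1 (Nat.lt_succ_iff.1 (Finset.mem_range.1 hl)))) (by positivity)
      (by positivity)
  · rw [Finset.card_range, nsmul_eq_mul]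
    push_cast
    ring

theorem hv_union [DecidableEq L] (A B : Finset L) : hv v (A ∪ B) ≤ hv v A * hv v B := by
  have := Finset.prod_union_inter (s₁ := A) (s₂ := B) (f := fun a => max 1 (v a))
  unfold hv
  rw [← this]
  exact le_mul_of_one_le_right (zero_le_one.trans (one_le_hv v _)) (one_le_hv v _)

theorem hv_bigA {m : ℕ} (A : Finset L) (z : Fin m → L) (t p : L) {M : ℝ} (h1 : 1 ≤ M)
    (h : ∀ i, v (z i) ≤ M) (ht : v t ≤ M) :
    hv v (bigA A z t p) ≤ hv v A * M ^ (m + 1) * max 1 (v p) := by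
  classical
  have h0 := one_le_hv v A
  have e1 : hv v (Finset.univ.image z) ≤ M ^ m := by
    refine (Finset.prod_le_prod (g := fun _ => M) (fun _ _ => by positivity) fun a ha => ?_).trans
      (Finset.prod_const M ▸ pow_le_pow_right₀ h1 (Finset.card_image_le.trans (by simp)))
    obtain ⟨i, -, rfl⟩ := Finset.mem_image.1 ha
    exact max_le h1 (h i)
  have e2 : hv v {t, p} ≤ M * max 1 (v p) := by
    rw [Finset.insert_eq]
    refine (hv_union v _ _).trans ?_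
    simp only [hv, Finset.prod_singleton]
    exact mul_le_mul_of_nonneg_right (max_le h1 ht) (by positivity)
  have e3 : bigA A z t p = A ∪ Finset.univ.image z ∪ {t, p} := by
    unfold bigA
    congr!
  rw [e3]
  refine (hv_union v _ _).trans ((mul_le_mul ((hv_union v _ _).trans
    (mul_le_mul_of_nonneg_left e1 (by positivity))) e2 (zero_le_one.trans (one_le_hv v _))
    (by positivity)).trans_eq (by ring))

variable {σ : Type} [Fintype σ] [DecidableEq σ] {B : Pkg L σ} {m e D D1 : ℕ} (V : Lv B m e D D1)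

theorem th_ne : evZT V.z V.t V.W.θ ≠ 0 := fun h => V.Δ_ne <| by
  have := evZT_of_dvd V.root V.ok.θ_inv
  rw [map_mul, h, zero_mul, evZT_C] at this
  exact this.symm

theorem xi_val (j : Fin (m + 1)) : aeval (fun i => evZT V.z V.t (V.W.φ i)) (V.W.ξ j) =
    V.Z j * evZT V.z V.t V.W.θ := by
  have := evZT_of_dvd V.root (V.ok.ξ_eq j)
  rw [map_mul, ← aeval_map_alg] at this
  rw [this]
  congr 1
  refine Fin.lastCases ?_ (fun j => ?_) j
  · simp [zv, Lv.Z]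
  · simp [zv, Lv.Z, evZT_C]

theorem eta_val : aeval (fun i => evZT V.z V.t (V.W.φ i)) V.W.η = V.t * evZT V.z V.t V.W.θ := by
  have := evZT_of_dvd V.root V.ok.η_eq
  rwa [map_mul, ← aeval_map_alg, evZT_X] at this

theorem Z_ne : V.Z ≠ 0 := Function.ne_iff.2 ⟨Fin.last m, by simp [Lv.Z]⟩

theorem x_ne : (fun i => evZT V.z V.t (V.W.φ i)) ≠ 0 := uni_iff_ne_zero.1 V.rep.uni

theorem loc1 : sn v V.Z * v (evZT V.z V.t V.W.θ) ≤
    (D1 + 1) ^ Fintype.card σ * (hv v V.A * sn v (fun i => evZT V.z V.t (V.W.φ i)) ^ e) := by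
  obtain ⟨j, -, hj⟩ := exists_sn v (Z_ne V)
  rw [hj, ← map_mul, ← xi_val, ← mul_assoc]
  exact v_hom v (V.ok.ξ_hom j) (V.small.ξ j) _ (x_ne V)

theorem loc2 : hv v V.A' * v (aeval V.z V.W.Δ * evZT V.z V.t V.W.θ ^ (m + 1 + 2 * D1)) ≤
    (D1 + 1) ^ (m + 1) * ((D1 + 1) ^ Fintype.card σ) ^ (m + 1 + 2 * D1) *
      (hv v V.A ^ (m + 1 + 2 * D1 + 2) *
        sn v (fun i => evZT V.z V.t (V.W.φ i)) ^ (e * (m + 1 + 2 * D1))) := by
  set K : ℝ := (D1 + 1) ^ Fintype.card σ * hv v V.A *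
    sn v (fun i => evZT V.z V.t (V.W.φ i)) ^ e with hK
  have hθ := v.pos (th_ne V)
  have hΔ := v.pos V.Δ_ne
  have h0 := one_le_hv v V.A
  have hZ : ∀ j, v (V.Z j) ≤ K / v (evZT V.z V.t V.W.θ) := fun j => by
    rw [le_div_iff₀ hθ, ← map_mul, ← xi_val]
    exact v_hom v (V.ok.ξ_hom j) (V.small.ξ j) _ (x_ne V)
  have ht : v V.t ≤ K / v (evZT V.z V.t V.W.θ) := by
    rw [le_div_iff₀ hθ, ← map_mul, ← eta_val]
    exact v_hom v V.ok.η_hom V.small.η _ (x_ne V)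
  have h1 : 1 ≤ K / v (evZT V.z V.t V.W.θ) := by simpa [Lv.Z] using hZ (Fin.last m)
  have hz : ∀ j, v (V.z j) ≤ K / v (evZT V.z V.t V.W.θ) := fun j => by
    simpa [Lv.Z] using hZ j.castSucc
  set M := K / v (evZT V.z V.t V.W.θ) with hM
  have e1 := hv_bigA v V.A V.z V.t (evZT V.z V.t V.W.π' / aeval V.z V.W.Δ) h1 hz ht
  have e2 : max 1 (v (evZT V.z V.t V.W.π' / aeval V.z V.W.Δ)) * v (aeval V.z V.W.Δ) ≤
      (D1 + 1) ^ (m + 1) * hv v V.A * M ^ (2 * D1) := by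
    rw [max_mul_of_nonneg _ _ hΔ.le, one_mul, ← map_mul, div_mul_cancel₀ _ V.Δ_ne]
    refine max_le ((v_smp v V.small.Δ V.z h1 hz).trans ?_) (v_smq v V.small.π' V.z V.t h1 hz ht)
    rw [Fintype.card_fin]
    have : (1 : ℝ) ≤ D1 + 1 := by simp
    gcongr
    · omega
    · omega
  have e3 : M * v (evZT V.z V.t V.W.θ) = K := div_mul_cancel₀ _ hθ.ne'
  calc hv v V.A' * v (aeval V.z V.W.Δ * evZT V.z V.t V.W.θ ^ (m + 1 + 2 * D1))
      ≤ hv v V.A * M ^ (m + 1) * max 1 (v (evZT V.z V.t V.W.π' / aeval V.z V.W.Δ)) *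
        v (aeval V.z V.W.Δ * evZT V.z V.t V.W.θ ^ (m + 1 + 2 * D1)) :=
        mul_le_mul_of_nonneg_right e1 (v.nonneg _)
    _ = hv v V.A * M ^ (m + 1) * v (evZT V.z V.t V.W.θ) ^ (m + 1 + 2 * D1) *
        (max 1 (v (evZT V.z V.t V.W.π' / aeval V.z V.W.Δ)) * v (aeval V.z V.W.Δ)) := by
        rw [map_mul, map_pow]; ring
    _ ≤ hv v V.A * M ^ (m + 1) * v (evZT V.z V.t V.W.θ) ^ (m + 1 + 2 * D1) *
        ((D1 + 1) ^ (m + 1) * hv v V.A * M ^ (2 * D1)) :=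
        mul_le_mul_of_nonneg_left e2 (by positivity)
    _ = (D1 + 1) ^ (m + 1) * hv v V.A ^ 2 * (M * v (evZT V.z V.t V.W.θ)) ^ (m + 1 + 2 * D1) := by
        rw [mul_pow]; ring
    _ = _ := by
        rw [e3, hK, mul_pow, mul_pow, ← pow_mul (sn v _)]; ring

end T62

open T62 in
theorem st_HTZ (hAD : St_AD) : St_HTZ := by
  intro L σ _ _ _ _ B m e D D1
  obtain ⟨a1, a2, a3, a4, a5, -, a7, -⟩ := hAD L
  have hD : (1 : ℝ) ≤ D1 + 1 := by simp
  have c0 : (1 : ℝ) ≤ (D1 + 1) ^ Fintype.card σ := one_le_pow₀ hD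
  have c1 : (1 : ℝ) ≤ (D1 + 1) ^ (m + 1) * ((D1 + 1) ^ Fintype.card σ) ^ (m + 1 + 2 * D1) :=
    one_le_mul_of_one_le_of_one_le (one_le_pow₀ hD) (one_le_pow₀ c0)
  have l0 := mul_nonneg (Nat.cast_nonneg (α := ℝ) (Module.finrank ℚ L)) (Real.log_nonneg c0)
  have l1 := mul_nonneg (Nat.cast_nonneg (α := ℝ) (Module.finrank ℚ L)) (Real.log_nonneg c1)
  set k0 := (Module.finrank ℚ L : ℝ) * Real.log ((D1 + 1) ^ Fintype.card σ)
  set k1 := (Module.finrank ℚ L : ℝ) *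
    Real.log ((D1 + 1) ^ (m + 1) * ((D1 + 1) ^ Fintype.card σ) ^ (m + 1 + 2 * D1))
  have n1 : (0 : ℝ) ≤ (m + 1 + 2 * D1 + 2 : ℕ) := Nat.cast_nonneg _
  have n2 : (0 : ℝ) ≤ (e * (m + 1 + 2 * D1) : ℕ) := Nat.cast_nonneg _
  refine ⟨1 + k0 + k1 + (m + 1 + 2 * D1 + 2 : ℕ) + (e * (m + 1 + 2 * D1) : ℕ), by positivity,
    fun V => ?_⟩
  have hx := a1 σ _ (x_ne V)
  rw [← V.rep.ht] at hx
  have p1 : 0 ≤ B.ht V.x := Height.logHeight_nonneg _
  have p2 : 0 ≤ hA V.A := Finset.sum_nonneg fun _ _ => Height.zero_le_logHeight₁ _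
  refine ⟨?_, ?_, ?_⟩
  · have := a7 _ _ _ _ _ (a4 _ _ _ _ (a1 _ _ (Z_ne V)) (a3 _ (th_ne V)))
      (a4 _ _ _ _ (a2 V.A) (a5 _ _ e hx)) c0 fun v => loc1 v V
    nlinarith [mul_nonneg l0 p2, mul_nonneg l1 p2, mul_nonneg n1 p2, mul_nonneg n2 p2]
  · have := a7 _ _ _ _ _ (a4 _ _ _ _ (a2 V.A')
      (a3 _ (mul_ne_zero V.Δ_ne (pow_ne_zero (m + 1 + 2 * D1) (th_ne V)))))
      (a4 _ _ _ _ (a5 _ _ _ (a2 V.A)) (a5 _ _ _ hx)) c1 fun v => loc2 v V
    nlinarith [mul_nonneg l0 p2, mul_nonneg l1 p2, mul_nonneg n1 p2, mul_nonneg n2 p2,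
      mul_nonneg l0 p1, mul_nonneg l1 p1, mul_nonneg n1 p1, mul_nonneg n2 p1]
  · have := T83.evZT_of_dvd V.root V.ok.sep
    rw [map_mul, T83.evZT_C] at this
    rw [← mul_div_assoc, this, div_self V.Δ_ne]

end D4C
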