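import Pool.Agent.Lib.D4C.BlueE
import Pool.Agent.Lib.D4C.T83L1
import Pool.Agent.Lib.D4P91.Nv

/-! The index theorem on a product of presented varieties. -/

set_option linter.unusedSectionVars false

namespace D4C

open MvPolynomial

namespace T47

variable {L : Type} [Field L]

section sp

variable {τ : Type} [DecidableEq τ] (x : τ) (G : MvPolynomial τ L)

/-- a polynomial as a polynomial in one of the variables -/
noncomputable def sp : Polynomial (MvPolynomial τ L) :=
  ∑ d ∈ G.support, Polynomial.monomial (d x) (monomial (d.erase x) (coeff d G))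

lemma sp_eval {S : Type} [CommRing S] [Algebra L S] (ev : MvPolynomial τ L →ₐ[L] S) :
    Polynomial.eval₂ ev.toRingHom (ev (X x)) (sp x G) = ev G := by
  conv_rhs => rw [G.as_sum, map_sum]
  rw [sp, Polynomial.eval₂_finsetSum]
  refine Finset.sum_congr rfl fun d _ => ?_
  rw [Polynomial.eval₂_monomial]
  change ev _ * _ = _
  rw [← map_pow, ← map_mul, X_pow_eq_monomial, monomial_mul, mul_one, Finsupp.erase_add_single]

lemma sp_deg : (sp x G).natDegree ≤ degreeOf x G :=
  Polynomial.natDegree_sum_le_of_forall_le _ _ fun _ hd =>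
    (Polynomial.natDegree_monomial_le _).trans (monomial_le_degreeOf x hd)

lemma sp_coeff (l : ℕ) : (sp x G).coeff l =
    ∑ d ∈ G.support, monomial (d.erase x) (if d x = l then coeff d G else 0) := by
  rw [sp, Polynomial.finsetSum_coeff]
  refine Finset.sum_congr rfl fun d _ => ?_
  rw [Polynomial.coeff_monomial]
  split_ifs <;> simp

lemma sp_degOf (a : τ) (l : ℕ) :
    degreeOf a ((sp x G).coeff l) ≤ if a = x then 0 else degreeOf a G := by
  rw [sp_coeff]
  refine (degreeOf_sum_le _ _ _).trans (Finset.sup_le fun d hd => degreeOf_le_iff.2 fun e he => ?_)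
  obtain rfl := Finset.mem_singleton.1 (support_monomial_subset he)
  rw [Finsupp.erase_apply]
  split_ifs
  exacts [le_rfl, monomial_le_degreeOf a hd]

lemma sp_l1 (v : AbsoluteValue L ℝ) (l : ℕ) : l1 v ((sp x G).coeff l) ≤ l1 v G := by
  rw [sp_coeff]
  refine (T83.l1_sum v _ _).trans (Finset.sum_le_sum fun d _ => ?_)
  rw [T83.l1_monomial]
  split_ifs <;> simp

end sp

lemma sum_deg {K m c : ℕ} {b : Fin K → ℕ} {G : AA L K m} (h : ∀ x, degreeOf x G ≤ c * b x.1) :
    ∑ x, degreeOf x G ≤ c * (m + 1) * ∑ i, b i := by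
  refine (Finset.sum_le_sum fun x _ => h x).trans_eq ?_
  rw [Fintype.sum_prod_type, Finset.mul_sum]
  exact Finset.sum_congr rfl fun i _ => by simp; ring

lemma ev_toA {K m : ℕ} {P : ZT L m} {z : Fin K → Fin m → L} {t : L} {η : Fin K → PS (Fin m) L}
    (i : Fin K) (h : IsBranch P (z i) t (η i)) : evA z η (toA i P) = 0 := by
  have hs : MvPowerSeries.HasSubst fun a : Fin m =>
      (MvPowerSeries.X (i, a) : PS (Fin K × Fin m) L) :=
    MvPowerSeries.hasSubst_of_constantCoeff_zero fun _ => by simp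
  have := congrArg (MvPowerSeries.substAlgHom (R := L) hs) h.2
  rw [T83.map_evZT, map_zero] at this
  rw [toA, T83.map_evZT, ← this]
  congr 2
  · funext j
    rw [map_add, MvPowerSeries.substAlgHom_X, MvPowerSeries.c_eq_algebraMap, AlgHom.commutes,
      evA, aeval_X]
    rfl
  · rw [evA, aeval_X, MvPowerSeries.substAlgHom_apply]
    rfl

variable [NumberField L]

lemma hP_bd (hA : St_AD) {τ τ' : Type} [Fintype τ'] {G : MvPolynomial τ L} {F : MvPolynomial τ' L}
    (hG : G ≠ 0) (hF : F ≠ 0) {g : AbsoluteValue L ℝ → ℝ} {B n0 : ℝ} (hg : Ad g B) (j : ℕ) {D : ℕ}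
    (hD : ∑ a, degreeOf a F ≤ D) (hn : 1 ≤ n0) (h : ∀ v, l1 v G ≤ n0 * l1 v F ^ j * g v) :
    hP G ≤ j * hP F + B + Module.finrank ℚ L * (Real.log n0 + j * D) := by
  obtain ⟨a1, -, -, a4, a5, -, -, a8⟩ := hA L
  have h0 : (fun d : F.support => coeff d.1 F) ≠ 0 := by
    obtain ⟨d, hd⟩ := support_nonempty.2 hF
    exact fun e => mem_support_iff.1 hd (congrFun e ⟨d, hd⟩)
  have := a8 τ G _ _ (n0 * 2 ^ (D * j)) hG (a4 _ _ _ _ (a5 _ _ j (a1 _ _ h0)) hg)
    (one_le_mul_of_one_le_of_one_le hn (one_le_pow₀ one_le_two)) fun v => (h v).trans (by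
      have a : l1 v F ≤ 2 ^ D * sn v fun d : F.support => coeff d.1 F := D4P91.l1_le_nv v F hD
      have := T83.l1_nonneg v F
      have := hg.pos v
      calc _ ≤ n0 * (2 ^ D * sn v fun d : F.support => coeff d.1 F) ^ j * g v := by gcongr
        _ = _ := by rw [mul_pow, ← pow_mul]; ring)
  refine this.trans (add_le_add le_rfl (mul_le_mul_of_nonneg_left ?_ (by positivity)))
  rw [Real.log_mul (by positivity) (by positivity), Real.log_pow]
  have : Real.log 2 ≤ 1 := by have := Real.log_two_lt_d9; linarith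
  have := mul_le_mul_of_nonneg_left this (show (0 : ℝ) ≤ (D * j : ℕ) by positivity)
  push_cast at *
  linarith

/-- the invariant of the elimination -/
def Inv {K m : ℕ} (ev : AA L K m →ₐ[L] PS (Fin K × Fin m) L) (g : PS (Fin K × Fin m) L)
    (b : Fin K → ℕ) (c : ℕ) (H : ℝ) (s : Finset (Fin K)) (G : AA L K m) : Prop :=
  ev G ≠ 0 ∧ g ∣ ev G ∧ (∀ x, degreeOf x G ≤ c * x.2.elim 1 fun _ => b x.1) ∧
    (∀ j ∈ s, degreeOf (j, none) G = 0) ∧ hP G ≤ H

variable (L) in
lemma step (hA : St_AD) (hE : St_ELIM) (K m D1 c : ℕ) {h : ℝ} (h0 : 0 ≤ h) :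
    ∃ (c' : ℕ) (h' : ℝ), 0 ≤ h' ∧ ∀ (ev : AA L K m →ₐ[L] PS (Fin K × Fin m) L) g b (U : ℝ) s G i
      (P : ZT L m) (A : Finset L), (∀ i, 1 ≤ b i) → (∑ i, b i : ℕ) ≤ U → D4C.hA A ≤ U → P.Monic →
      SmQ D1 A P → ev (toA i P) = 0 → Inv ev g b c (h * U) s G →
      ∃ G', Inv ev g b c' (h' * U) (insert i s) G' := by
  set n0 : ℝ := (D1 + c).factorial * 2 ^ D1 * ((D1 + 1) ^ m) ^ c with hn0
  have n1 : 1 ≤ n0 := by
    rw [hn0]
    exact_mod_cast Nat.succ_le_of_lt (by positivity)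
  have n2 := Real.log_nonneg n1
  refine ⟨2 * D1 * c, D1 * h + c + Module.finrank ℚ L * (Real.log n0 + D1 * (c * (m + 1))),
    by positivity, fun ev g b U s G i P A hb hU hAU hm hs hP0 ⟨i1, i2, i3, i4, i5⟩ => ?_⟩
  have hG : G ≠ 0 := by rintro rfl; exact i1 (map_zero _)
  let f : MvPolynomial (Fin m) L →ₐ[L] AA L K m := rename fun j => (i, some j)
  have e1 := sp_eval (i, none) G ev
  have : IsDomain (PS (Fin K × Fin m) L) := NoZeroDivisors.to_isDomain _
  obtain ⟨G', j, j1, j2, j3, j4, j5⟩ := hE L _ _ (sp (i, none) G) (P.map f.toRingHom) ev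
    (ev (X (i, none))) c (hm.map _) ((sp_deg _ _).trans (by simpa using i3 (i, none)))
    (by
      rw [← hP0, toA, T83.map_evZT, Polynomial.eval₂_map]
      change _ = Polynomial.eval₂ _ _ _
      congr 1
      ext <;> simp [f]) (e1 ▸ i1)
  have d1 : (P.map f.toRingHom).natDegree ≤ D1 := Polynomial.natDegree_map_le.trans hs.1
  have d2 : ∀ (x : Fin K × Option (Fin m)) l, degreeOf x ((P.map f.toRingHom).coeff l) ≤
      D1 * x.2.elim 0 fun _ => 1 := by
    rintro ⟨k, _ | a⟩ l <;> rw [Polynomial.coeff_map]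
    · refine (not_not.1 fun e => ?_ : degreeOf _ _ = 0).le
      obtain ⟨a, -, e⟩ := mem_vars_rename _ _ (mem_vars_iff_degreeOf_ne_zero.2 e)
      simp at e
    · exact (degreeOf_le_totalDegree _ _).trans ((totalDegree_rename_le _ _).trans
        (by simpa using (hs.2 l).1))
  have hG' : G' ≠ 0 := by rintro rfl; exact j2 (map_zero _)
  refine ⟨G', j2, i2.trans (e1 ▸ j3), fun x => ?_, fun k hk => ?_, ?_⟩
  · refine (j4 x _ _ (fun l => (sp_degOf _ _ _ l).trans (ite_le_sup _ _ _)) (d2 x)).trans ?_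
    have a := Nat.mul_le_mul d1 (i3 x)
    have a' : (x.2.elim 0 fun _ => 1) ≤ x.2.elim 1 fun _ => b x.1 := by
      obtain ⟨k, _ | a⟩ := x
      exacts [zero_le_one, hb k]
    have a'' := Nat.mul_le_mul_left (c * D1) a'
    rw [Nat.zero_max]
    linarith
  · refine Nat.le_zero.1 ((j4 (k, none) 0 _ (fun l => (sp_degOf _ _ _ l).trans ?_)
      (d2 _)).trans_eq (by simp))
    split_ifs with e
    · rfl
    · exact (i4 k ((Finset.mem_insert.1 hk).resolve_left fun e' => e (by rw [e']))).le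
  · have a := hP_bd hA hG' hG ((hA L).2.2.2.2.1 _ _ c ((hA L).2.1 A)) j
      (sum_deg (c := c) (b := b) fun x => (i3 x).trans (Nat.mul_le_mul_left _ (by
        obtain ⟨k, _ | a⟩ := x
        exacts [hb k, le_rfl]))) n1 fun v => by
      have p1 := T83.one_le_hv v A
      have p2 := T83.l1_nonneg v G
      refine (j5 v (l1 v G) ((D1 + 1) ^ m * hv v A)
        ((D4P91.nv_pos v hG).trans_le (D4P91.nv_le_l1 v G))
        (one_le_mul_of_one_le_of_one_le (one_le_pow₀ (by simp)) p1) (sp_l1 _ _ v) fun l => by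
          rw [Polynomial.coeff_map]
          exact (T83.l1_rename v _ _).trans (by simpa using T83.l1_smp v (hs.2 l))).trans ?_
      calc _ ≤ (D1 + c).factorial * 2 ^ D1 * l1 v G ^ j * ((D1 + 1) ^ m * hv v A) ^ c := by
            gcongr
            exact one_le_two
        _ = _ := by rw [hn0, mul_pow]; ring
    have j6 : (j : ℝ) ≤ D1 := by exact_mod_cast j1.trans d1
    have u1 : (1 : ℝ) ≤ U := le_trans (by
      exact_mod_cast (hb i).trans (Finset.single_le_sum (fun _ _ => Nat.zero_le _)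
        (Finset.mem_univ i))) hU
    have p3 : 0 ≤ hP G := D4P91.hP_nonneg G
    calc _ ≤ _ := a
      _ ≤ D1 * (h * U) + c * U + Module.finrank ℚ L *
          (Real.log n0 * U + D1 * (c * (m + 1) * U)) := by
        rw [Nat.cast_mul, Nat.cast_mul, Nat.cast_succ]
        gcongr
        exact le_mul_of_one_le_right n2 u1
      _ = _ := by ring

variable (L) in
lemma elim_all (hR : St_REDU) (hA : St_AD) (hE : St_ELIM) (K m D1 : ℕ) (s : Finset (Fin K)) :
    ∃ (c : ℕ) (h : ℝ), 0 ≤ h ∧ ∀ (ev : AA L K m →ₐ[L] PS (Fin K × Fin m) L) b (U : ℝ) G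
      (P : Fin K → ZT L m) (A : Fin K → Finset L), (∀ i, 1 ≤ b i) → (∑ i, b i : ℕ) ≤ U →
      hP G + ∑ i, b i * D4C.hA (A i) ≤ U → (∀ i, (P i).Monic ∧ SmQ D1 (A i) (P i)) →
      (∀ i, ev (toA i (P i)) = 0) → BD b G → ev G ≠ 0 → ∃ G', Inv ev (ev G) b c (h * U) s G' := by
  induction s using Finset.induction_on with
  | empty =>
    have n2 : 0 ≤ Real.log (D1 + 1) := Real.log_nonneg (by simp)
    refine ⟨D1 + 1, 1 + Module.finrank ℚ L * ((m + 1) * Real.log (D1 + 1) + (m + 1)),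
      by positivity, fun ev b U G P A hb hU hH hP h0 hG hne => ?_⟩
    obtain ⟨red, r1, r2⟩ := hR L K m D1 P A hP
    obtain ⟨r2, r3⟩ := r2 G b hG
    have e := r1 _ ev h0 G
    refine ⟨red G, e ▸ hne, e ▸ dvd_rfl, ?_, by simp, ?_⟩
    · rintro ⟨k, _ | a⟩ <;> refine degreeOf_le_iff.2 fun d hd => ?_
      exacts [(r2 d hd k).1.trans (by simp), (r2 d hd k).2 a]
    have a := hP_bd hA (G := red G) (F := G) (fun e' => hne (by rw [← e, e', map_zero]))
      (by rintro rfl; exact hne (map_zero _))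
      ((hA L).2.2.2.2.2.1 _ Finset.univ _ _ fun i _ => (hA L).2.2.2.2.1 _ _ (b i) ((hA L).2.1 (A i)))
      1 (sum_deg (c := 1) (b := b) fun x => degreeOf_le_iff.2 fun d hd => by
        simpa using (Finsupp.le_degree x.2 (d.curry x.1)).trans (hG d hd x.1))
      (n0 := ((D1 + 1) ^ (m + 1)) ^ ∑ i, b i) (one_le_pow₀ (one_le_pow₀ (by simp))) fun v =>
        (r3 v).trans_eq (by
          simp only [mul_pow, Finset.prod_mul_distrib, Finset.prod_pow_eq_pow_sum]; ring)
    rw [Real.log_pow, Real.log_pow, Nat.cast_mul, Nat.cast_mul, Nat.cast_succ m] at a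
    calc _ ≤ _ := a
      _ ≤ U + Module.finrank ℚ L * (U * ((m + 1) * Real.log (D1 + 1)) + (m + 1) * U) := by
        simp only [Nat.cast_one, one_mul]
        gcongr
      _ = _ := by ring
  | insert i s _ ih =>
    obtain ⟨c, h, h0, ih⟩ := ih
    obtain ⟨c', h', h1, st⟩ := step L hA hE K m D1 c h0
    refine ⟨c', h', h1, fun ev b U G P A hb hU hH hP he hG hne => ?_⟩
    obtain ⟨G', hG'⟩ := ih ev b U G P A hb hU hH hP he hG hne
    refine st ev _ b U s G' i (P i) (A i) hb hU ?_ (hP i).1 (hP i).2 (he i) hG'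
    have p : ∀ j, 0 ≤ D4C.hA (A j) := fun j =>
      Finset.sum_nonneg fun _ _ => Height.zero_le_logHeight₁ _
    have a := Finset.single_le_sum (f := fun j => b j * D4C.hA (A j))
      (fun j _ => mul_nonneg (Nat.cast_nonneg _) (p j)) (Finset.mem_univ i)
    have a' := le_mul_of_one_le_left (p i) (show (1 : ℝ) ≤ b i by exact_mod_cast hb i)
    have p3 : 0 ≤ D4C.hP G := D4P91.hP_nonneg G
    linarith

end T47

open T47 in
theorem st_IDX (hR : St_REDU) (hE : St_ELIM) (hL : St_PL) (hA : St_AD) : St_IDX := by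
  intro L _ _ K m D1 s hs
  obtain ⟨c, h, h0, H⟩ := elim_all L hR hA hE K m D1 Finset.univ
  obtain ⟨ρ, D0, C, C0, hL⟩ := hL L (Fin K × Fin m) (s / (c + 1)) (by positivity)
  refine ⟨ρ + 2, D0, C * (h * (K + 1) + (c + 1)), by positivity,
    fun w P A z t η G b S HH hw hρ hP hS hG hb hwb hH hne hord => ?_⟩
  have p3 : 0 ≤ D4C.hP G := D4P91.hP_nonneg G
  have p4 : 0 ≤ ∑ i, b i * D4C.hA (A i) := Finset.sum_nonneg fun i _ => mul_nonneg
    (Nat.cast_nonneg _) (Finset.sum_nonneg fun _ _ => Height.zero_le_logHeight₁ _)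
  have p5 : 0 ≤ HH := by linarith
  have b1 : ∀ i, (b i : ℝ) ≤ S := fun i =>
    (le_mul_of_one_le_left (Nat.cast_nonneg _) (by exact_mod_cast hw i)).trans (hwb i)
  have b2 : ((∑ i, b i : ℕ) : ℝ) ≤ K * S := by
    simpa using Finset.sum_le_card_nsmul _ _ _ fun i (_ : i ∈ Finset.univ) => b1 i
  have k0 : (0 : ℝ) ≤ K := Nat.cast_nonneg _
  obtain ⟨G', i1, ⟨u, i2⟩, i3, i4, i5⟩ := H (evA z η) b ((K + 1) * (HH + S)) G P A hb
    (by nlinarith) (by nlinarith) (fun i => ⟨(hP i).1, (hP i).2.1⟩)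
    (fun i => ev_toA i (hP i).2.2) hG hne
  have fi : Function.Injective fun x : Fin K × Fin m => (x.1, some x.2) := by
    rintro ⟨a, b⟩ ⟨c, d⟩ e
    simpa using e
  obtain ⟨Φ, rfl⟩ := exists_rename_eq_of_vars_subset_range G' _ fi (by
    rintro ⟨k, _ | a⟩ e
    exacts [absurd (i4 k (Finset.mem_univ _)) (mem_vars_iff_degreeOf_ne_zero.1 e), ⟨(k, a), rfl⟩])
  have hΦ : Φ ≠ 0 := by rintro rfl; simp at i1
  have lt : StrictMono w := fun i j e => by have := hρ i j e; have := hw i; nlinarith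
  have e : evA z η (rename (fun x : Fin K × Fin m => (x.1, some x.2)) Φ) =
      (aeval (fun a => X a + MvPolynomial.C (z a.1 a.2)) Φ : MvPolynomial (Fin K × Fin m) L) := by
    refine AlgHom.congr_fun (show (evA z η).comp (rename _) = (coeToMvPowerSeries.algHom L).comp
      (aeval _) from algHom_ext fun a => ?_) Φ
    simp [evA, add_comm]
  obtain ⟨a0, Q, q1, q2, q3, q4, q5⟩ := hL (fun a => w a.1) (fun a => z a.1 a.2) Φ ((c + 1) * S)
    (h * ((K + 1) * (HH + S))) (fun a => hw a.1)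
    (fun a b e => le_trans (Nat.mul_le_mul_right _ (by omega)) (hρ _ _ (lt.lt_iff_lt.1 e))) hΦ
    (by positivity)
    (fun a => by
      have a1 : (degreeOf a Φ : ℝ) ≤ c * b a.1 := by
        exact_mod_cast (degreeOf_rename_of_injective fi a).symm.trans_le (i3 _)
      have := mul_le_mul_of_nonneg_left a1 (Nat.cast_nonneg (w a.1))
      have := mul_le_mul_of_nonneg_left (hwb a.1) (Nat.cast_nonneg c)
      linarith)
    ((D4P91.hP_rename fi hΦ).symm.trans_le i5) fun J hJ => by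
      rw [← coeff_coe, ← e, i2, MvPowerSeries.coeff_mul] at hJ
      obtain ⟨p, hp, h1⟩ := Finset.exists_ne_zero_of_sum_ne_zero hJ
      rw [← mul_assoc, div_mul_cancel₀ _ (by positivity), ← Finset.HasAntidiagonal.mem_antidiagonal.1 hp, map_add]
      exact (hord _ (left_ne_zero_of_mul h1)).trans (by exact_mod_cast Nat.le_add_right _ _)
  have gi : Function.Injective (Prod.mk a0.1 : Fin m → Fin K × Fin m) := Prod.mk_right_injective _
  obtain ⟨Q, rfl⟩ := exists_rename_eq_of_vars_subset_range Q _ gi fun a ha =>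
    ⟨a.2, by rw [← lt.injective (q2 a ha)]⟩
  have hQ : Q ≠ 0 := by rintro rfl; simp at q1
  refine ⟨a0.1, Q, hQ, le_trans ?_ q3, by rwa [aeval_rename] at q4, ?_⟩
  · have := totalDegree_rename_le Prod.snd (rename (Prod.mk a0.1) Q)
    rwa [rename_rename, show Prod.snd ∘ Prod.mk a0.1 = id from rfl, rename_id_apply] at this
  have q6 : D4C.hP (rename (Prod.mk a0.1) Q) = D4C.hP Q := D4P91.hP_rename gi hQ
  have q7 : 0 ≤ D4C.hP Q := D4P91.hP_nonneg Q
  rw [q6] at q5
  calc _ ≤ D4C.hP Q * ((c + 1) * S) := by gcongr; exact le_mul_of_one_le_left hS.le (by simp)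
    _ ≤ _ := q5
    _ ≤ C * w a0.1 * (h * ((K + 1) * (HH + S)) + (c + 1) * (HH + S)) := by gcongr; linarith
    _ = _ := by ring

end D4C
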