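import Pool.Agent.Lib.D4C.BlueF

/-! The doubling relation over the function field. -/

set_option linter.unusedSectionVars false

namespace D4C

open MvPolynomial

namespace T58

theorem ext1 (hGV : St_GV) {K K' σ : Type} [Field K] [Field K'] [Fintype σ] (f : K →+* K')
    (O' : ValuationSubring K') (c : K) (w x : σ → K) (N M : ℕ) :
    (O'.valuation (f c) * gv O' (fun l => f (w l)) ^ N = gv O' (fun l => f (x l)) ^ M) ↔
      (O'.comap f).valuation c * gv (O'.comap f) w ^ N = gv (O'.comap f) x ^ M := by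
  have h := (hGV.ext K K' σ N M f O' c (fun _ => w) fun _ => x).2
  simpa only [EqF, Finset.prod_const, Finset.card_univ, Fintype.card_fin] using h

theorem prod_rel {K : Type} [Field K] (O : ValuationSubring K) (g h : O.ValueGroup)
    (s : Multiset K) (hs : ∀ r ∈ s, O.valuation r * g = h) :
    O.valuation s.prod * g ^ s.card = h ^ s.card := by
  induction s using Multiset.induction_on with
  | empty => simp
  | cons a s ih =>
    rw [Multiset.prod_cons, Multiset.card_cons, map_mul, pow_succ, pow_succ,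
      ← ih fun r hr => hs r (Multiset.mem_cons_of_mem hr), ← hs a (Multiset.mem_cons_self a s)]
    ac_rfl

theorem norm_step (hGV : St_GV) (hP : St_PL2) {L F σ : Type} [Field L] [Field F] [Algebra L F]
    [Fintype σ] (w x : σ → F) (c : AlgebraicClosure F) (hc : c ≠ 0)
    (h : ∀ O : ValuationSubring (AlgebraicClosure F), Ov L O →
      O.valuation c * gv O (fun l => algebraMap F _ (w l)) ^ 1 =
        gv O (fun l => algebraMap F _ (x l)) ^ 4) :
    ∃ (N : ℕ) (t : F), 1 ≤ N ∧ t ≠ 0 ∧ ∀ O : ValuationSubring F, Ov L O →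
      O.valuation t * gv O w ^ N = gv O x ^ (4 * N) := by
  have ha : IsAlgebraic F c := Algebra.IsAlgebraic.isAlgebraic c
  have hi : IsIntegral F c := ha.isIntegral
  set P := (minpoly F c).map (algebraMap F (AlgebraicClosure F)) with hPdef
  have hm : P.Monic := (minpoly.monic hi).map _
  have hs : P.Splits := IsAlgClosed.splits P
  have hd : P.natDegree = (minpoly F c).natDegree := Polynomial.natDegree_map _
  refine ⟨(minpoly F c).natDegree, (minpoly F c).coeff 0, minpoly.natDegree_pos hi,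
    minpoly.coeff_zero_ne_zero hi hc, fun O hO => ?_⟩
  obtain ⟨O', rfl⟩ := hP.up F (AlgebraicClosure F) (algebraMap F _) O
  have hO' : Ov L O' := fun a => by
    rw [IsScalarTower.algebraMap_apply L F (AlgebraicClosure F)]
    exact hO a
  rw [← ext1 hGV]
  have h1 : ∀ r ∈ P.roots, O'.valuation r * gv O' (fun l => algebraMap F _ (w l)) =
      gv O' (fun l => algebraMap F _ (x l)) ^ 4 := by
    intro r hr
    have hr' : Polynomial.aeval r (minpoly F c) = 0 := by
      rw [Polynomial.aeval_def, ← Polynomial.eval_map]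
      exact Polynomial.isRoot_of_mem_roots hr
    obtain ⟨g, rfl⟩ := minpoly.exists_algEquiv_of_root' ha hr'
    have h2 := (ext1 hGV (g : AlgebraicClosure F →+* AlgebraicClosure F) O' c _ _ 1 4).2
      (h _ fun a => by
        rw [ValuationSubring.mem_comap, IsScalarTower.algebraMap_apply L F (AlgebraicClosure F)]
        simpa using hO a)
    simpa using h2
  have h3 := prod_rel O' _ _ _ h1
  rw [← hs.natDegree_eq_card_roots, hd, ← pow_mul] at h3
  rw [← h3, ← Polynomial.coeff_map, ← hPdef, hs.coeff_zero_eq_prod_roots_of_monic hm]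
  simp

theorem rat_ratio {L σ Ω : Type} [Field L] [Field Ω] [Algebra L Ω] (x : σ → Ω) {t : Ω}
    (ht : t ∈ rat L x) : ∃ (d : ℕ) (U V : MvPolynomial σ L), U.IsHomogeneous d ∧
      V.IsHomogeneous d ∧ aeval x V ≠ 0 ∧ t * aeval x V = aeval x U := by
  have h0 : ∃ (d : ℕ) (U V : MvPolynomial σ L), U.IsHomogeneous d ∧
      V.IsHomogeneous d ∧ aeval x V ≠ 0 ∧ 0 * aeval x V = aeval x U :=
    ⟨0, 0, 1, isHomogeneous_zero _ _ _, isHomogeneous_one _ _, by simp, by simp⟩
  induction ht using IntermediateField.adjoin_induction with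
  | mem t ht =>
    obtain ⟨⟨i, j⟩, rfl⟩ := ht
    by_cases hj : x j = 0
    · simpa only [hj, div_zero] using h0
    · exact ⟨1, X i, X j, isHomogeneous_X _ _, isHomogeneous_X _ _, by simpa using hj,
        by simp [hj]⟩
  | algebraMap a => exact ⟨0, C a, 1, isHomogeneous_C _ _, isHomogeneous_one _ _, by simp, by simp⟩
  | add s t _ _ hs ht =>
    obtain ⟨d, U, V, a1, a2, a3, a4⟩ := hs
    obtain ⟨d', U', V', b1, b2, b3, b4⟩ := ht
    refine ⟨d + d', U * V' + V * U', V * V', (a1.mul b2).add (a2.mul b1), a2.mul b2,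
      by simp [a3, b3], ?_⟩
    rw [map_add, map_mul, map_mul, map_mul, ← a4, ← b4]
    ring
  | inv t _ ht =>
    obtain ⟨d, U, V, a1, a2, a3, a4⟩ := ht
    by_cases h : t = 0
    · simpa only [h, inv_zero] using h0
    · refine ⟨d, V, U, a2, a1, a4 ▸ mul_ne_zero h a3, ?_⟩
      rw [← a4, inv_mul_cancel_left₀ h]
  | mul s t _ _ hs ht =>
    obtain ⟨d, U, V, a1, a2, a3, a4⟩ := hs
    obtain ⟨d', U', V', b1, b2, b3, b4⟩ := ht
    refine ⟨d + d', U * U', V * V', a1.mul b1, a2.mul b2, by simp [a3, b3], ?_⟩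
    rw [map_mul, map_mul, ← a4, ← b4]
    ring

theorem dbl_step (hD : St_DBL) (hGV : St_GV) {L σ Ω : Type} [Field L] [CharZero L] [Fintype σ]
    [DecidableEq σ] (B : Pkg L σ) [Field Ω] [IsAlgClosed Ω] [Algebra L Ω] (x : σ → Ω)
    (hx : x ≠ 0) (hz : Zr B.I x) (a : Fin B.nl) (ha : ev2 (B.A a) x x ≠ 0) :
    ∃ c : Ω, c ≠ 0 ∧ ∀ O : ValuationSubring Ω, Ov L O →
      O.valuation c * gv O (ev2 (B.A a) x x) ^ 1 = gv O x ^ 4 := by
  have hp := Pkg.rep_pt (B := B) x (uni_iff_ne_zero.mpr hx) hz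
  set p := B.pt x (uni_iff_ne_zero.mpr hx) hz
  have h2 : B.Rep (2 • p) (ev2 (B.A a) x x) := by
    rw [two_nsmul]
    exact hp.add hp (uni_iff_ne_zero.mpr ha)
  obtain ⟨c, hc, h⟩ := hD L σ B Ω p
  obtain ⟨α, hα⟩ := (h2.par (B.rep_rp _)).exists_smul h2.uni
  obtain ⟨β, hβ⟩ := (hp.par (B.rep_rp _)).exists_smul hp.uni
  have hα0 : α ≠ 0 := (hα ▸ (B.rep_rp (2 • p)).uni : Uni (α • _)).isUnit_of_smul.ne_zero
  have hβ0 : β ≠ 0 := (hβ ▸ (B.rep_rp p).uni : Uni (β • _)).isUnit_of_smul.ne_zero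
  refine ⟨c * α / β ^ 4, div_ne_zero (mul_ne_zero hc hα0) (pow_ne_zero _ hβ0), fun O hO => ?_⟩
  have h1 := h O hO
  simp only [EqF, Fin.prod_univ_succ, Fin.prod_univ_zero, Matrix.cons_val_zero,
    Matrix.cons_val_succ, mul_one, hα, hβ, hGV.smul] at h1
  have hv : O.valuation β ≠ 0 := by simpa using hβ0
  rw [map_div₀, map_mul, map_pow, pow_one, div_mul_eq_mul_div, div_eq_iff (pow_ne_zero _ hv),
    mul_assoc, h1]
  simp only [pow_succ, pow_zero, one_mul]
  ac_rfl

end T58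

open T58 in
theorem st_INT1 (hD : St_DBL) (hG : St_GPT) (hGV : St_GV) (hP : St_PL2) : St_INT1 := by
  intro L σ _ _ _ _ B
  have hpr : B.I.IsPrime := by
    have h := B.gprime L
    have h1 : (MvPolynomial.map (algebraMap L L) : MvPolynomial σ L →+* _) = RingHom.id _ :=
      RingHom.ext fun F => MvPolynomial.map_id F
    rwa [ext, h1, Ideal.map_id] at h
  obtain ⟨i₁, hi₁⟩ := Function.ne_iff.mp B.o_ne
  obtain ⟨Ω, _, _, _, x, hx0, hx⟩ := hG.ex L σ B.I hpr
    ⟨i₁, fun h => hi₁ (by simpa using B.o_mem _ h)⟩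
  have hgen : PGen B.I x := ⟨hx0, fun F _ _ => hx F⟩
  obtain ⟨i₀, hi₀⟩ := Function.ne_iff.mp hx0
  have hi₀ : x i₀ ≠ 0 := hi₀
  have hmem : ∀ i, x i / x i₀ ∈ rat L x := fun i =>
    IntermediateField.subset_adjoin _ _ ⟨(i, i₀), rfl⟩
  set x₀ : σ → rat L x := fun i => ⟨x i / x i₀, hmem i⟩ with hx₀
  have hcoe : ∀ F : MvPolynomial σ L, ((aeval x₀ F : rat L x) : Ω) = aeval ((x i₀)⁻¹ • x) F := by
    intro F
    have h := aeval_map_alg (rat L x).val x₀ F
    refine h.symm.trans ?_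
    congr 2
    funext i
    simp [hx₀, div_eq_inv_mul]
  have hz₀ : Zr B.I x₀ := fun F hF => Subtype.ext (by
    rw [hcoe]
    exact Zr.smul B.hom (fun G hG => (hx G).2 hG) _ F hF)
  have hn₀ : x₀ ≠ 0 := fun h => by
    have := congrArg Subtype.val (congrFun h i₀)
    simp [hx₀, hi₀] at this
  obtain ⟨a, ha⟩ := B.complete (rat L x) x₀ x₀ hz₀ hz₀ hn₀ hn₀
  have hne : ∀ {K : Type} [Field K] (f : rat L x →+* K) (y : σ → rat L x), y ≠ 0 →
      (fun i => f (y i)) ≠ 0 := fun f y hy =>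
    uni_iff_ne_zero.mp ((uni_iff_ne_zero.mpr hy).map f)
  let ι := IsScalarTower.toAlgHom L (rat L x) (AlgebraicClosure (rat L x))
  obtain ⟨c, hc, h⟩ := dbl_step hD hGV B (fun i => ι (x₀ i)) (hne ι.toRingHom _ hn₀) (hz₀.map ι) a
    (by rw [ev2_map]; exact hne ι.toRingHom _ ha)
  rw [ev2_map] at h
  obtain ⟨N, t, hN, ht, hrel⟩ := norm_step hGV hP (L := L) (ev2 (B.A a) x₀ x₀) x₀ c hc h
  obtain ⟨d, U, V, hU, hV, hV0, hUV⟩ := rat_ratio x t.2
  have hU0 : aeval x U ≠ 0 := hUV ▸ mul_ne_zero (fun h => ht (Subtype.ext h)) hV0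
  have hUV₀ : t * aeval x₀ V = aeval x₀ U := Subtype.ext (by
    rw [IntermediateField.coe_mul, hcoe, hcoe, aeval_smul_hom hU, aeval_smul_hom hV, ← hUV]
    ring)
  have hX : ∀ n : ℕ, (X i₀ ^ n : MvPolynomial σ L).IsHomogeneous n := fun n => by
    simpa using (isHomogeneous_X L i₀).pow n
  refine ⟨N, d + 4 * N, d + 2 * B.β * N, a, U * X i₀ ^ (4 * N), V * X i₀ ^ (2 * B.β * N), hN,
    hU.mul (hX _), hV.mul (hX _), by ring, fun h => ?_, fun h => ?_, fun K _ _ y hy => ?_⟩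
  · have := (hx _).2 h
    simp [hU0, hi₀] at this
  · have := (hx _).2 h
    simp [hV0, hi₀] at this
  obtain ⟨e, he⟩ := hG.iso L σ Ω K B.I x y hgen hy
  let f : rat L x →ₐ[L] K := (rat L y).val.comp e
  have hy₀ : y i₀ ≠ 0 := fun h => hi₀ (by
    simpa using (hx _).2 ((hy.2 (X i₀) 1 (isHomogeneous_X _ _)).1 (by simpa using h)))
  set z : σ → K := fun i => f (x₀ i) with hz
  have hyz : y = y i₀ • z := funext fun i => by
    have : z i = y i / y i₀ := he i i₀ (hmem i)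
    rw [Pi.smul_apply, this, smul_eq_mul, mul_div_cancel₀ _ hy₀]
  obtain ⟨c, hy₀, hyz⟩ : ∃ c : K, c ≠ 0 ∧ y = c • z := ⟨_, hy₀, hyz⟩
  have hzi : z i₀ = 1 := by
    have : x₀ i₀ = 1 := Subtype.ext (div_self hi₀)
    simp only [hz, this, map_one]
  have hw : ev2 (B.A a) z z = fun i => f (ev2 (B.A a) x₀ x₀ i) := ev2_map f _ _ _
  rw [hyz, B.ev2_smul]
  refine ⟨smul_ne_zero (mul_ne_zero (pow_ne_zero _ hy₀) (pow_ne_zero _ hy₀))
    (hw ▸ hne f.toRingHom _ ha), fun O hO => ?_⟩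
  have h1 := (ext1 hGV f.toRingHom O t (ev2 (B.A a) x₀ x₀) x₀ N (4 * N)).2 (hrel _ fun b => by
    rw [ValuationSubring.mem_comap]
    simpa using hO b)
  have h2 : O.valuation (f t) * gv O (ev2 (B.A a) z z) ^ N = gv O z ^ (4 * N) := by
    rw [hw]
    exact h1
  have h3 : aeval z U = f t * aeval z V := by
    rw [hz, aeval_map_alg, aeval_map_alg, ← map_mul, hUV₀]
  rw [hGV.smul, hGV.smul, map_mul, map_mul (aeval _), aeval_smul_hom hU, aeval_smul_hom hV, h3,
    mul_pow _ (gv O z), ← h2]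
  simp only [map_pow, aeval_X, Pi.smul_apply, hzi, smul_eq_mul, mul_one, map_mul, mul_pow,
    ← pow_mul, two_mul, add_mul, pow_add]
  generalize O.valuation c ^ (4 * N) = A
  generalize O.valuation c ^ (B.β * N) = C
  ac_rfl

end D4C
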