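import Pool.Agent.Lib.D4C.BlueF
import Pool.Agent.Lib.D4C.B_PLACE

/-! Two-sided integrality data for doubling. -/

set_option linter.unusedSectionVars false

namespace D4C

open MvPolynomial

namespace T67

section rel

variable {L σ : Type} [Field L] [Fintype σ]

theorem hom_tot {F : MvPolynomial (σ ⊕ σ) L} {m n : ℕ}
    (hF : F.IsWeightedHomogeneous (bw σ) (m, n)) : F.IsHomogeneous (m + n) := by
  have key : ∀ d : σ ⊕ σ →₀ ℕ, Finsupp.weight (1 : σ ⊕ σ → ℕ) d =
      (Finsupp.weight (bw σ) d).1 + (Finsupp.weight (bw σ) d).2 := by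
    intro d
    induction d using Finsupp.induction_linear with
    | zero => simp
    | add f g hf hg =>
      rw [map_add, map_add, hf, hg, Prod.fst_add, Prod.snd_add, add_add_add_comm]
    | single s k =>
      rw [Finsupp.weight_single, Finsupp.weight_single]
      cases s <;> simp [bw]
  intro d hd
  rw [key, hF hd]

theorem prod_smul {R : Type} [CommRing R] (c : R) (y : σ → R) (γ : σ →₀ ℕ) :
    ∏ i, (c • y) i ^ γ i = c ^ γ.degree * ∏ i, y i ^ γ i := by
  simp only [Pi.smul_apply, smul_eq_mul, mul_pow, Finset.prod_mul_distrib]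
  rw [Finset.prod_pow_eq_pow_sum, Finsupp.degree_eq_sum]

/-- a monic relation can be padded to any larger degree -/
theorem pad {K ι : Type} [Field K] [Algebra L K] (w : ι → K) (u : K) (m : ℕ)
    (h : ∃ (s : ℕ) (c : ℕ → MvPolynomial ι L), 1 ≤ s ∧
      (∀ j, j < s → (c j).IsHomogeneous (m * (s - j))) ∧
      u ^ s + ∑ j ∈ Finset.range s, aeval w (c j) * u ^ j = 0) :
    ∀ᶠ s in Filter.atTop, ∃ c : ℕ → MvPolynomial ι L,
      (∀ j, j < s → (c j).IsHomogeneous (m * (s - j))) ∧
      u ^ s + ∑ j ∈ Finset.range s, aeval w (c j) * u ^ j = 0 := by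
  obtain ⟨s, c, -, hc, he⟩ := h
  refine Filter.eventually_atTop.mpr ⟨s, fun s' hs' => ?_⟩
  induction s', hs' using Nat.le_induction with
  | base => exact ⟨c, hc, he⟩
  | succ n _ ih =>
    obtain ⟨c', hc', he'⟩ := ih
    refine ⟨fun j => Nat.casesOn j 0 c', fun j hj => ?_, ?_⟩
    · cases j with
      | zero => exact isHomogeneous_zero _ _ _
      | succ j =>
        rw [Nat.add_sub_add_right]
        exact hc' j (by omega)
    · rw [Finset.sum_range_succ']
      simp only [Nat.rec_zero, map_zero, zero_mul, add_zero, pow_succ, ← mul_assoc]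
      rw [← Finset.sum_mul, ← add_mul, he', zero_mul]

variable (N s : ℕ) (V : MvPolynomial σ L) (U : (σ →₀ ℕ) → MvPolynomial σ L)
  (a : (σ →₀ ℕ) → ℕ → MvPolynomial σ L) (b : σ → ℕ → MvPolynomial σ L)

/-- the relations of `Dbl` over an arbitrary algebra -/
def Rel {R : Type} [CommRing R] [Algebra L R] (x y : σ → R) (t : R) : Prop :=
  (∀ γ : σ →₀ ℕ, γ.degree = N → aeval x V * (t * ∏ i, y i ^ γ i) = aeval x (U γ) ∧
    (t * ∏ i, y i ^ γ i) ^ s +
      ∑ j ∈ Finset.range s, aeval x (a γ j) * (t * ∏ i, y i ^ γ i) ^ j = 0) ∧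
  ∀ i, (x i ^ (4 * N)) ^ s +
    ∑ j ∈ Finset.range s, t ^ (s - j) * aeval y (b i j) * (x i ^ (4 * N)) ^ j = 0

variable {N s V U a b} {R R' : Type} [CommRing R] [Algebra L R] [CommRing R'] [Algebra L R']

theorem Rel.map (f : R →ₐ[L] R') {x y : σ → R} {t : R} (h : Rel N s V U a b x y t) :
    Rel N s V U a b (fun i => f (x i)) (fun i => f (y i)) (f t) := by
  refine ⟨fun γ hγ => ⟨?_, ?_⟩, fun i => ?_⟩
  · simpa only [map_mul, map_prod, map_pow, ← aeval_map_alg] using congrArg f (h.1 γ hγ).1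
  · simpa only [map_mul, map_prod, map_pow, map_add, map_sum, map_zero, ← aeval_map_alg]
      using congrArg f (h.1 γ hγ).2
  · simpa only [map_mul, map_prod, map_pow, map_add, map_sum, map_zero, ← aeval_map_alg]
      using congrArg f (h.2 i)

theorem Rel.of_map (f : R →ₐ[L] R') (hf : Function.Injective f) {x y : σ → R} {t : R}
    (h : Rel N s V U a b (fun i => f (x i)) (fun i => f (y i)) (f t)) : Rel N s V U a b x y t := by
  refine ⟨fun γ hγ => ⟨hf ?_, hf ?_⟩, fun i => hf ?_⟩
  · simpa only [map_mul, map_prod, map_pow, ← aeval_map_alg] using (h.1 γ hγ).1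
  · simpa only [map_mul, map_prod, map_pow, map_add, map_sum, map_zero, ← aeval_map_alg]
      using (h.1 γ hγ).2
  · simpa only [map_mul, map_prod, map_pow, map_add, map_sum, map_zero, ← aeval_map_alg]
      using h.2 i

theorem Rel.smul (hb : ∀ i j, j < s → (b i j).IsHomogeneous (N * (s - j))) {x y : σ → R}
    {t c : R} (h : Rel N s V U a b x (c • y) t) : Rel N s V U a b x y (t * c ^ N) := by
  refine ⟨fun γ hγ => ?_, fun i => ?_⟩
  · have := h.1 γ hγ
    rwa [prod_smul, hγ, ← mul_assoc t] at this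
  · rw [← h.2 i]
    congr 1
    refine Finset.sum_congr rfl fun j hj => ?_
    rw [aeval_smul_hom (hb i j (Finset.mem_range.mp hj)), mul_pow, ← pow_mul, mul_assoc (t ^ _)]

end rel

section val

variable {K σ : Type} [Field K] [Fintype σ] (O : ValuationSubring K)

theorem le_gv (x : σ → K) (i : σ) : O.valuation (x i) ≤ gv O x :=
  Finset.le_sup (f := fun i => O.valuation (x i)) (Finset.mem_univ i)

theorem gv_att {x : σ → K} (hx : x ≠ 0) : ∃ i, gv O x = O.valuation (x i) := by
  obtain ⟨k, -⟩ := Function.ne_iff.mp hx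
  obtain ⟨i, -, hi⟩ := Finset.exists_mem_eq_sup Finset.univ ⟨k, Finset.mem_univ k⟩
    fun i => O.valuation (x i)
  exact ⟨i, hi⟩

theorem gv_uni {y : σ → O} (hy : Uni y) (c : K) :
    gv O (c • fun i => (y i : K)) = O.valuation c := by
  obtain ⟨k, hk⟩ := hy
  apply le_antisymm
  · refine Finset.sup_le fun i _ => ?_
    simp only [Pi.smul_apply, smul_eq_mul, map_mul]
    exact mul_le_of_le_one_right' (O.valuation_le_one _)
  · refine le_trans (le_of_eq ?_) (le_gv O _ k)
    simp only [Pi.smul_apply, smul_eq_mul, map_mul]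
    rw [(O.valuation_eq_one_iff _).mp hk, mul_one]

theorem val_prod_le (w : σ → K) (γ : σ →₀ ℕ) :
    O.valuation (∏ i, w i ^ γ i) ≤ gv O w ^ γ.degree := by
  rw [map_prod, Finsupp.degree_eq_sum, ← Finset.prod_pow_eq_pow_sum]
  refine Finset.prod_le_prod' fun i _ => ?_
  rw [map_pow]
  exact pow_le_pow_left' (le_gv O w i) _

end val

variable {L σ : Type} [Field L] [Fintype σ] [DecidableEq σ] (B : Pkg L σ)

theorem prime_I : B.I.IsPrime := by
  have h := B.gprime L
  have e : ext B.I L = B.I := by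
    unfold ext
    have : MvPolynomial.map (σ := σ) (algebraMap L L) = RingHom.id _ :=
      RingHom.ext fun F => MvPolynomial.map_id F
    rw [this, Ideal.map_id]
  rwa [e] at h

/-- the data at a generic point -/
theorem generic (hH : St_HINT) {N dU dV : ℕ} {a₀ : Fin B.nl} {U V : MvPolynomial σ L}
    (hU : U.IsHomogeneous dU) (hd : dU + 2 * B.β * N = dV + 4 * N)
    {K : Type} [Field K] [Algebra L K] {x : σ → K} (hV : aeval x V ≠ 0)
    (hw : ev2 (B.A a₀) x x ≠ 0)
    (hO : ∀ O : ValuationSubring K, Ov L O →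
      O.valuation (aeval x U / aeval x V) * gv O (ev2 (B.A a₀) x x) ^ N = gv O x ^ (4 * N)) :
    ∃ (s : ℕ) (U' : (σ →₀ ℕ) → MvPolynomial σ L) (a : (σ →₀ ℕ) → ℕ → MvPolynomial σ L)
      (b : σ → ℕ → MvPolynomial σ L), 1 ≤ s ∧ (∀ γ, (U' γ).IsHomogeneous (dV + 4 * N)) ∧
      (∀ γ j, j < s → (a γ j).IsHomogeneous (4 * N * (s - j))) ∧
      (∀ i j, j < s → (b i j).IsHomogeneous (N * (s - j))) ∧
      Rel N s V U' a b x (ev2 (B.A a₀) x x) (aeval x U / aeval x V) := by
  classical
  set w := ev2 (B.A a₀) x x with hwd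
  set τ := aeval x U / aeval x V with hτ
  have h1 := (Set.Finite.eventually_all (l := Filter.atTop) (Finsupp.finite_of_degree_eq (σ := σ) N)).mpr
    fun γ (hγ : γ.degree = N) => pad (L := L) x (τ * ∏ i, w i ^ γ i) (4 * N)
      (hH L K σ x _ _ fun O hL => by
        rw [← hO O hL, map_mul, ← hγ]
        exact mul_le_mul_right (val_prod_le O w γ) _)
  have h2 := Filter.eventually_all.mpr fun i : σ =>
    pad (L := L) (fun l => τ * w l ^ N) (x i ^ (4 * N)) 1
      (hH L K σ _ _ _ fun O hL => by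
        obtain ⟨k, hk⟩ := gv_att O hw
        refine le_trans ?_ (le_of_le_of_eq (le_gv O (fun l => τ * w l ^ N) k) (pow_one _).symm)
        rw [map_mul, map_pow, map_pow, ← hk, hO O hL]
        exact pow_le_pow_left' (le_gv O x i) _)
  obtain ⟨s, ⟨hs1, hs2⟩, hs⟩ := ((h1.and h2).and (Filter.eventually_ge_atTop 1)).exists
  choose! a ha ha' using hs1
  choose c hc hc' using hs2
  refine ⟨s, fun γ => if γ.degree = N then U * ∏ i, ev2 (B.A a₀) X X i ^ γ i else 0,
    fun γ j => if γ.degree = N then a γ j else 0,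
    fun i j => aeval (fun l => (X l ^ N : MvPolynomial σ L)) (c i j), hs, fun γ => ?_,
    fun γ j hj => ?_, fun i j hj => ?_, fun γ hγ => ⟨?_, ?_⟩, fun i => ?_⟩
  · beta_reduce
    split_ifs with hγ
    · have h3 : ∀ i, (ev2 (B.A a₀) (X : σ → MvPolynomial σ L) X i).IsHomogeneous (2 * B.β) := by
        intro i
        have := (hom_tot (B.A_hom a₀ i)).aeval (Sum.elim (X : σ → MvPolynomial σ L) X) (n := 1)
          (by rintro (l | l) <;> exact isHomogeneous_X _ _)
        rwa [one_mul, ← two_mul] at this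
      have h4 := IsHomogeneous.prod Finset.univ _ _ fun i _ => (h3 i).pow (γ i)
      rw [← Finset.mul_sum, ← Finsupp.degree_eq_sum, hγ] at h4
      exact hd ▸ hU.mul h4
    · exact isHomogeneous_zero _ _ _
  · beta_reduce
    split_ifs with hγ
    · exact ha γ hγ j hj
    · exact isHomogeneous_zero _ _ _
  · have := (hc i j hj).aeval (fun l => (X l ^ N : MvPolynomial σ L))
      fun l => isHomogeneous_X_pow l N
    rwa [one_mul] at this
  · have h5 : ∀ i, aeval x (ev2 (B.A a₀) (X : σ → MvPolynomial σ L) X i) = w i := by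
      intro i
      have := congrFun (ev2_map (aeval x : MvPolynomial σ L →ₐ[L] K) (B.A a₀) X X) i
      simpa only [aeval_X] using this.symm
    simp only [if_pos hγ, map_mul, map_prod, map_pow, h5]
    rw [← mul_assoc, hτ, mul_div_cancel₀ _ hV]
  · simp only [if_pos hγ]
    exact ha' γ hγ
  · rw [← hc' i]
    congr 1
    refine Finset.sum_congr rfl fun j hj => ?_
    have h6 := aeval_smul_hom (hc i j (Finset.mem_range.mp hj)) τ fun l => w l ^ N
    rw [one_mul] at h6
    rw [← aeval_map_alg]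
    simp only [map_pow, aeval_X]
    rw [← h6]
    rfl

end T67

open T67 in
theorem st_INT2 (h1 : St_INT1) (hH : St_HINT) : St_INT2 := by
  intro L σ _ _ _ _ B
  obtain ⟨N, dU, dV, a₀, U, V, hN, hU, hV, hd, hUI, hVI, hg⟩ := h1 L σ B
  have hp := prime_I B
  let R := MvPolynomial σ L ⧸ B.I
  have : IsDomain R := Ideal.Quotient.isDomain B.I
  let K := FractionRing R
  let f : R →ₐ[L] K := IsScalarTower.toAlgHom L R K
  have hf : Function.Injective f := IsFractionRing.injective R K
  let xb : σ → R := fun i => Ideal.Quotient.mkₐ L B.I (X i)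
  have hxb : ∀ F, aeval xb F = Ideal.Quotient.mkₐ L B.I F := fun F => by
    rw [aeval_map_alg, aeval_X_left_apply]
  have hz : Zr B.I xb := fun F hF => by
    rw [hxb]
    exact Ideal.Quotient.eq_zero_iff_mem.mpr hF
  let x : σ → K := fun i => f (xb i)
  have hx : ∀ F, aeval x F = 0 ↔ F ∈ B.I := fun F => by
    rw [aeval_map_alg, map_eq_zero_iff f hf, hxb]
    exact Ideal.Quotient.eq_zero_iff_mem
  have hx0 : x ≠ 0 := fun h => B.o_ne (funext fun i => by
    have := B.o_mem (X i) ((hx _).mp (by rw [aeval_X, h]; rfl))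
    rwa [aeval_X] at this)
  obtain ⟨hw, hO⟩ := hg K x ⟨hx0, fun F _ _ => hx F⟩
  have hV0 : aeval x V ≠ 0 := fun h => hVI ((hx _).mp h)
  have hO' : ∀ O : ValuationSubring K, Ov L O →
      O.valuation (aeval x U / aeval x V) * gv O (ev2 (B.A a₀) x x) ^ N = gv O x ^ (4 * N) := by
    intro O hL
    have h0 : O.valuation (aeval x V) ≠ 0 := by rwa [Ne, map_eq_zero]
    rw [map_div₀, div_mul_eq_mul_div, hO O hL, mul_div_cancel_left₀ _ h0]
  obtain ⟨s, U', a, b, hs, hU', ha, hb, hR⟩ := generic B hH hU hd hV0 hw hO'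
  refine ⟨⟨N, s, dV, hN, hs, V, U', a, b, hV, hVI, hU', ha, hb, ?_⟩⟩
  intro Ω _ _ _ p x' y' hp' hy'
  let g : R →ₐ[L] Ω := Ideal.Quotient.liftₐ B.I (aeval x') hp'.zr
  have hg' : ∀ i, g (xb i) = x' i := fun i => aeval_X _ i
  let e : R ≃+* (f : R →+* K).range := RingEquiv.ofBijective (f : R →+* K).rangeRestrict
    ⟨fun u v h => hf (congrArg Subtype.val h), RingHom.rangeRestrict_surjective _⟩
  obtain ⟨O, hA, ψ, hψ, hk⟩ := st_PLACE K Ω _ ((g : R →+* Ω).comp e.symm.toRingHom)
  have hmem : ∀ r : R, f r ∈ O := fun r => hA ⟨r, rfl⟩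
  have hψ' : ∀ r : R, ψ ⟨f r, hmem r⟩ = g r := fun r => by
    have := hψ (e r)
    exact this.trans (congrArg g (e.symm_apply_apply r))
  have hL : Ov L O := fun c => by
    rw [← f.commutes]
    exact hmem _
  let _ : Algebra L O := ((algebraMap L K).codRestrict O hL).toAlgebra
  let ι : O →ₐ[L] K := { O.subtype with commutes' := fun _ => rfl }
  let j : R →ₐ[L] O :=
    { (f : R →+* K).codRestrict O hmem with commutes' := fun c => Subtype.ext (f.commutes c) }
  let φ : O →ₐ[L] Ω :=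
    AlgHom.mk ψ fun c => by
      rw [← g.commutes, ← hψ', ← j.commutes]
      rfl
  have hφ : ∀ r, φ (j r) = g r := hψ'
  have huni : ∀ y : σ → O, Uni (fun i => φ (y i)) → Uni y := fun y ⟨k, hy⟩ =>
    ⟨k, by_contra fun h => hy.ne_zero ((hk _).mpr h)⟩
  let xo : σ → O := fun i => j (xb i)
  have hxo : (fun i => φ (xo i)) = x' := funext fun i => (hφ _).trans (hg' i)
  obtain ⟨a₁, ha₁⟩ := hp'.exists_add hp'
  rw [← two_nsmul] at ha₁
  let z : σ → O := ev2 (B.A a₁) xo xo
  have hzφ : (fun i => φ (z i)) = ev2 (B.A a₁) x' x' := by rw [← ev2_map, hxo]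
  have hzu : Uni z := huni z (hzφ ▸ ha₁.uni)
  obtain ⟨c, hc⟩ := (B.compat O xo xo (hz.map j) (hz.map j) a₁ a₀).exists_smul hzu
  have hwc : ev2 (B.A a₀) x x = (c : K) • fun i => (z i : K) := by
    have := ev2_map ι (B.A a₀) xo xo
    rw [hc] at this
    exact this
  have hv := hO' O hL
  have hx1 : gv O x = 1 := by
    have := gv_uni O (huni xo (hxo ▸ hp'.uni)) 1
    rwa [one_smul, map_one] at this
  rw [hwc, gv_uni O hzu, hx1, one_pow, ← map_pow, ← map_mul] at hv
  let t : O := ⟨_, (O.valuation_le_one_iff _).mp hv.le⟩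
  have ht : IsUnit t := (O.valuation_eq_one_iff _).mpr hv
  rw [hwc] at hR
  have hR1 : Rel N s V U' a b xo z t := Rel.of_map ι Subtype.val_injective (hR.smul hb)
  have hR2 := hR1.map φ
  obtain ⟨d, hd'⟩ := (hy'.par ha₁).exists_smul hy'.uni
  have hd0 : IsUnit d := Uni.isUnit_of_smul (hd' ▸ ha₁.uni)
  rw [hxo, hzφ, hd'] at hR2
  exact ⟨_, mul_ne_zero (ht.map φ).ne_zero (pow_ne_zero N hd0.ne_zero), hR2.smul hb⟩

end D4C
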