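import Pool.Agent.Lib.D4C.T84K

/-! Row KEYB: the main inequality of step B. -/

namespace D4C

open MvPolynomial

namespace T84

theorem sn_pos {σ L : Type} [Field L] [Fintype σ] (v : AbsoluteValue L ℝ) {x : σ → L}
    (hx : x ≠ 0) : 0 < sn v x := by
  obtain ⟨i, hi, e⟩ := T83.exists_sn v hx
  rw [e]
  exact v.pos hi

theorem Z_ne {L σ : Type} [Field L] [Fintype σ] [DecidableEq σ] {B : Pkg L σ} {m e D D1 : ℕ}
    (V : Lv B m e D D1) : V.Z ≠ 0 := fun h => by
  have := congrFun h (Fin.last m)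
  simp [Lv.Z] at this

/-- the local bound -/
theorem loc_bound (hTN : St_TN) (hTNC : St_TNC) {L κ σ ρ : Type} [Field L] [Fintype κ]
    [DecidableEq κ] [Fintype σ] [Fintype ρ] (v : AbsoluteValue L ℝ)
    (f : κ → (σ →₀ ℕ) → PS ρ L) (F : MvPolynomial (κ × σ) L) (J : κ × ρ →₀ ℕ) (δ : κ → ℕ)
    (hF : MH δ F) (a b : κ → ℝ) (ha : ∀ i, 0 < a i) (hb : ∀ i, 0 ≤ b i)
    (h : ∀ i γ, γ.degree = δ i → v (MvPowerSeries.coeff (J.curry i) (f i γ)) * a i ≤ b i) :
    v (MvPowerSeries.coeff J (Tn L (fun i γ => blk i (f i γ)) F)) * ∏ i, a i ≤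
      l1 v F * ∏ i, b i := by
  rw [hTNC]
  have h8 := (hTN L κ σ L).2.2.2.2.2.2.2 v (fun x r => v x ≤ r) (fun _ _ _ h h' => h.trans h')
    (fun _ _ _ _ h h' => (v.add_le _ _).trans (add_le_add h h'))
    (fun _ _ _ _ h h' h0 _ => by rw [map_mul]; exact mul_le_mul h h' (v.nonneg _) h0)
    (fun _ => le_rfl) (fun i γ => MvPowerSeries.coeff (J.curry i) (f i γ)) (fun i => b i / a i) δ F
    hF (fun i => div_nonneg (hb i) (ha i).le) fun i γ hγ => (le_div_iff₀ (ha i)).2 (h i γ hγ)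
  refine (mul_le_mul_of_nonneg_right h8 (Finset.prod_nonneg fun i _ => (ha i).le)).trans
    (le_of_eq ?_)
  rw [mul_assoc, ← Finset.prod_mul_distrib]
  congr 1
  exact Finset.prod_congr rfl fun i _ => div_mul_cancel₀ _ (ha i).ne'

end T84

theorem st_KEYB (hPHB : St_PHB) (hHIB : St_HIB) (hTRM : St_TRM) (hRELB : St_RELB) (hUPB : St_UPB)
    (hHTZ : St_HTZ) (hAPB : St_APB) (hTN : St_TN) (hTNC : St_TNC) (hAD : St_AD) (hBLK : St_BLK) :
    St_KEYB := by
  intro L σ _ _ _ _ B g C e D D1 k c2 A2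
  obtain ⟨cT, N, hcT, hT⟩ := hTRM σ g D1
  obtain ⟨cA, hcA, hA'⟩ := hAPB σ (g + 2) D1
  obtain ⟨CH, hCH, hH⟩ := hHTZ L σ B (g + 2) e D D1
  obtain ⟨C9, hC9, hU⟩ := hUPB L σ B
  obtain ⟨ad1, ad2, -, ad4, ad5, ad6, -, -⟩ := hAD L
  set dg : ℝ := (Module.finrank ℚ L : ℝ) with hdg
  have hdg0 : 0 ≤ dg := Nat.cast_nonneg _
  have l2 : 0 ≤ Real.log c2 := Real.log_natCast_nonneg _
  have lT : 0 ≤ Real.log cT := Real.log_natCast_nonneg _
  have hcA1 : (1 : ℝ) ≤ cA := by exact_mod_cast hcA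
  have hcT1 : (1 : ℝ) ≤ cT := by exact_mod_cast hcT
  have lA : 0 ≤ Real.log (cA * 2) := Real.log_nonneg (by linarith)
  have hA2 := T84.hA_nonneg A2
  obtain ⟨M1, hM1⟩ : ∃ M : ℝ, M = hA A2 + dg * Real.log c2 := ⟨_, rfl⟩
  obtain ⟨M2, hM2⟩ : ∃ M : ℝ, M = C9 * ((k + 1) * (C.dg * (g + 2))) := ⟨_, rfl⟩
  obtain ⟨M4, hM4⟩ : ∃ M : ℝ, M = 1 + CH + dg * Real.log (cA * 2) := ⟨_, rfl⟩
  obtain ⟨M5, hM5⟩ : ∃ M : ℝ,
    M = e + CH + N * ((e * (D + 1) : ℕ) + 1) * (CH + dg * Real.log cT) := ⟨_, rfl⟩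
  have p1 : 0 ≤ M1 := by rw [hM1]; positivity
  have p2 : 0 ≤ M2 := by rw [hM2]; positivity
  have p4 : 0 ≤ M4 := by rw [hM4]; positivity
  have p5 : 0 ≤ M5 := by rw [hM5]; positivity
  refine ⟨M1 + M2 + dg + M4 + M5, by positivity, ?_⟩
  intro d E κ r0 n mm w s Dm V Kb c Λ J hc2 he hc hm0 hr0 hz hmul hgood hred hF hvan hne hlow hw
  obtain ⟨F, hFd⟩ : ∃ F : (Fin (k + 1) → Fin B.nl) → MvPolynomial (Fin (k + 1) × σ) L,
    ∀ Λ', F Λ' = ∑ ω, c ω • eL C 1 d κ s Dm Λ' ω := ⟨_, fun _ => rfl⟩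
  have hMH : ∀ Λ', MH (fun i => r0 i + e * n i) (F Λ') := fun Λ' => by
    rw [hFd]
    exact T1.mh_sum _ fun ω _ => T1.MH.smul (hF Λ' ω).1 _
  obtain ⟨P1, P2⟩ := hPHB L σ B (g + 2) e D D1
  choose bf bf1 bf2 bf3 bf4 using (hBLK (Fin (k + 1)) (Fin (g + 2)) L).1
  obtain ⟨u, w', lam, hu, hw', hl, hrel⟩ := hRELB L σ B (g + 2) C k 1 d κ s Dm
    (Fin (k + 1) × Fin (g + 2)) (fun i => (V i).x) (fun i a => blk i ((V i).X a)) hmul fun i => by
      obtain ⟨q1, -, q3, -⟩ := P1 (V i)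
      simp only [← bf2, bf4, q3]
      exact ⟨q1.map (bf i), (V i).rep⟩
  have hlam : ∀ i, MvPowerSeries.constantCoeff (lam i (Λ i)) ≠ 0 := fun i h =>
    hgood u hu i (by rw [hl, h, zero_smul])
  have hΘ : (∏ i, blk i ((V i).ev (V i).W.θ) ^ n i :
      PS (Fin (k + 1) × Fin (g + 2)) L) ≠ 0 := by
    refine Finset.prod_ne_zero_iff.2 fun i _ => pow_ne_zero _ fun h => (P1 (V i)).2.2.2.1 ?_
    rw [← bf4 i, bf2, h, map_zero]
  have hrel2 : ∀ Λ', MvPowerSeries.coeff J (evV V (GB V Kb (F Λ'))) *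
        ∏ i ∈ Finset.univ.erase 0,
          MvPowerSeries.constantCoeff (lam i (Λ i)) ^ (C.dg * ((g + 2) * (1 * d))) =
      MvPowerSeries.coeff J (evV V (GB V Kb (F Λ))) * ∏ i ∈ Finset.univ.erase 0,
          MvPowerSeries.constantCoeff (lam i (Λ' i)) ^ (C.dg * ((g + 2) * (1 * d))) := by
    intro Λ'
    have h1 := hrel c Λ Λ'
    rw [← hFd, ← hFd, (P2 _ V).2 r0 n Kb _ hred (hMH Λ), (P2 _ V).2 r0 n Kb _ hred (hMH Λ'),
      mul_assoc, mul_assoc] at h1
    have h2 := T84.coeff_rel (J := J) hw (by rw [hFd]; exact hlow) (by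
      rw [map_prod]
      exact Finset.prod_ne_zero_iff.2 fun i _ => by
        rw [map_pow]; exact pow_ne_zero _ (hlam i)) (mul_left_cancel₀ hΘ h1)
    simpa only [map_prod, map_pow] using h2
  have hcard : (1 : ℝ) ≤ Fintype.card (Idx (g + 2) k 1 d κ) := by
    obtain ⟨ω, -⟩ := Function.ne_iff.1 hc
    exact_mod_cast Fintype.card_pos_iff.2 ⟨ω⟩
  have hc21 : (1 : ℝ) ≤ c2 := by exact_mod_cast hc2
  have hn0 : ∀ i, (1 : ℝ) ≤ (cA * 2) ^ n i * cT ^ (N * ((J.curry i).degree + r0 i)) := fun i =>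
    one_le_mul_of_one_le_of_one_le (one_le_pow₀ (by linarith)) (one_le_pow₀ hcT1)
  have key := hU (Fin (k + 1)) (Finset.univ.erase 0) (C.dg * ((g + 2) * (1 * d)))
    (fun i => 2 ^ κ i • (V i).x) (fun _ => -(2 ^ κ 0 • (V 0).x)) u (fun _ => u 0 ∘ B.π) w'
    (fun i l => MvPowerSeries.constantCoeff (lam i l)) Λ
    (fun Λ' => MvPowerSeries.coeff J (evV V (GB V Kb (F Λ')))) _ _ _ _
    (Fintype.card (Idx (g + 2) k 1 d κ) * c2 ^ E *
      ∏ i, (((cA : ℝ) * 2) ^ n i * (cT : ℝ) ^ (N * ((J.curry i).degree + r0 i))))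
    (fun i => ⟨hu i, (hu 0).neg, by rw [← sub_eq_add_neg]; exact hw' i⟩) hl (fun i _ => hlam i)
    (by rw [hFd]; exact hne) hrel2
    (ad6 _ Finset.univ _ _ fun i _ => ad4 _ _ _ _
      (ad5 _ _ (J.curry i).degree (ad1 _ _ (hz i))) (ad5 _ _ (mm i) (ad1 _ _ (T84.Z_ne (V i)))))
    (ad4 _ _ _ _ (ad4 _ _ _ _ (ad1 _ _ hc) (ad5 _ _ E (ad2 A2)))
      (ad6 _ Finset.univ _ _ fun i _ => ad4 _ _ _ _ (ad4 _ _ _ _ (ad4 _ _ _ _
        (ad5 _ _ (n i) (ad2 (V i).A)) (ad5 _ _ (mm i) (ad1 _ _ (hz i))))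
        (ad5 _ _ (n i + (J.curry i).degree) (ad1 _ _ (T84.Z_ne (V i)))))
        (ad5 _ _ (N * ((J.curry i).degree + r0 i)) (ad2 (V i).A'))))
    (one_le_mul_of_one_le_of_one_le (one_le_mul_of_one_le_of_one_le hcard (one_le_pow₀ hc21))
      (Finset.prod_induction _ (fun t : ℝ => 1 ≤ t)
        (fun _ _ => one_le_mul_of_one_le_of_one_le) le_rfl fun i _ => hn0 i))
    (fun v Λ' => by
      have hhv := fun A : Finset L => (zero_lt_one.trans_le (T83.one_le_hv v A))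
      have ha := fun i => T84.sn_pos v (hz i)
      have hb := fun i => T84.sn_pos v (T84.Z_ne (V i))
      rw [hHIB L σ B g e D D1 k V r0 n mm Kb _ hred (hMH Λ') hm0 (by rw [hFd]; exact hvan Λ')]
      refine (T84.loc_bound hTN hTNC v _ _ J _ (hMH Λ') _
        (fun i => (cA * hv v (V i).A) ^ n i * 2 ^ n i * sn v ![(V i).z 0, (V i).z 1] ^ mm i *
          sn v (V i).Z ^ (n i + (J.curry i).degree) *
          (cT * hv v (V i).A') ^ (N * ((J.curry i).degree + r0 i)))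
        (fun i => mul_pos (pow_pos (ha i) _) (pow_pos (hb i) _))
        (fun i => by have := ha i; have := hb i; have := hhv (V i).A; have := hhv (V i).A'
                     positivity) fun i γ hγ => ?_).trans ?_
      · rw [← mul_assoc]
        refine (hT L B e D (V i) (n i) (r0 i) (mm i) _ (J.curry i) v (hz i) fun ε hε => ?_).trans ?_
        · obtain ⟨h1, h2⟩ := T84.mem_hiP hε
          exact ⟨((hred i).deg γ hγ ε h1).1, ((hred i).deg γ hγ ε h1).2, h2⟩
        · have := ha i; have := hb i; have := hhv (V i).A'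
          have h3 := (T84.l1_hiP v (mm i) (Kb i γ)).trans
            ((hA' L B e D).1 (V i) _ _ _ (hred i) v γ hγ)
          gcongr
      · have h4 := T84.l1_comb v c _ fun ω => (hF Λ' ω).2 v
        rw [← hFd] at h4
        refine (mul_le_mul_of_nonneg_right h4 (Finset.prod_nonneg fun i _ => by
          have := ha i; have := hb i; have := hhv (V i).A; have := hhv (V i).A'
          positivity)).trans (le_of_eq ?_)
        simp only [mul_pow, Finset.prod_mul_distrib]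
        ring)
  rw [Real.log_mul (by positivity) (Finset.prod_ne_zero_iff.2 fun i _ => by positivity),
    Real.log_mul (by positivity) (by positivity), Real.log_pow,
    Real.log_prod fun i _ => by positivity] at key
  simp only [T84.ht_neg, ← sub_eq_add_neg] at key
  have hsum : ∑ i, (mm i * (Height.logHeight (V i).Z - Height.logHeight ![(V i).z 0, (V i).z 1]) +
        (n i * hA (V i).A + mm i * Height.logHeight ![(V i).z 0, (V i).z 1] +
          (n i + (J.curry i).degree : ℕ) * Height.logHeight (V i).Z +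
          (N * ((J.curry i).degree + r0 i) : ℕ) * hA (V i).A') +
        dg * Real.log ((cA * 2 : ℝ) ^ n i * cT ^ (N * ((J.curry i).degree + r0 i)))) ≤
      ∑ i, (((J.curry i).degree * Height.logHeight ![(V i).z 0, (V i).z 1] +
          mm i * Height.logHeight (V i).Z) + (e * n i : ℕ) * B.ht (V i).x +
        M4 * (n i * (hA (V i).A + 1)) +
        M5 * (((J.curry i).degree + 1) * (B.ht (V i).x + hA (V i).A + 1))) := by
    refine Finset.sum_le_sum fun i _ => ?_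
    have := T84.per_block (n := n i) (j := (J.curry i).degree) (r0 := r0 i)
      (R := (e * (D + 1) : ℕ)) (N := N) (e := e) (Nat.cast_nonneg _) (Nat.cast_nonneg _)
      (Nat.cast_nonneg _) (by exact_mod_cast hr0 i) (Nat.cast_nonneg _) (Nat.cast_nonneg _) hCH
      (T84.ht_nonneg (V i).x) (T84.hA_nonneg (V i).A)
      (Height.logHeight_nonneg ![(V i).z 0, (V i).z 1]) lT lA hdg0 (hH (V i)).1 (hH (V i)).2.1
    rw [← hM4, ← hM5] at this
    rw [Real.log_mul (by positivity) (by positivity), Real.log_pow, Real.log_pow]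
    push_cast
    linarith
  rw [Finset.sum_add_distrib, Finset.sum_add_distrib, ← Finset.mul_sum] at hsum
  conv at hsum =>
    rhs
    rw [Finset.sum_add_distrib, Finset.sum_add_distrib, Finset.sum_add_distrib, ← Finset.mul_sum,
      ← Finset.mul_sum]
  have q2 : C9 * (((Finset.univ.erase (0 : Fin (k + 1))).card : ℝ) *
      (C.dg * ((g + 2) * (1 * d)) : ℕ)) ≤ M2 * d := by
    have : ((Finset.univ.erase (0 : Fin (k + 1))).card : ℝ) ≤ k + 1 := by
      have := Finset.card_le_univ (Finset.univ.erase (0 : Fin (k + 1)))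
      rw [Fintype.card_fin] at this
      exact_mod_cast this
    rw [hM2]
    calc _ ≤ C9 * ((k + 1) * (C.dg * ((g + 2) * (1 * d)) : ℕ)) := by gcongr
      _ = _ := by push_cast; ring
  have x1 : (0 : ℝ) ≤ E := Nat.cast_nonneg _
  have x2 : (0 : ℝ) ≤ d := Nat.cast_nonneg _
  have x3 : 0 ≤ Real.log (Fintype.card (Idx (g + 2) k 1 d κ)) := Real.log_nonneg hcard
  have x4 : 0 ≤ ∑ i, n i * (hA (V i).A + 1) := Finset.sum_nonneg fun i _ => by
    have := T84.hA_nonneg (V i).A; positivity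
  have x5 : 0 ≤ ∑ i, (((J.curry i).degree : ℝ) + 1) * (B.ht (V i).x + hA (V i).A + 1) :=
    Finset.sum_nonneg fun i _ => by
      have := T84.hA_nonneg (V i).A; have := T84.ht_nonneg (V i).x; positivity
  generalize ∑ i, n i * (hA (V i).A + 1) = X4 at *
  generalize ∑ i, (((J.curry i).degree : ℝ) + 1) * (B.ht (V i).x + hA (V i).A + 1) = X5 at *
  generalize Real.log (Fintype.card (Idx (g + 2) k 1 d κ)) = X3 at *
  have y1 : M1 * E ≤ M1 * (E + d + X3 + X4 + X5) := mul_le_mul_of_nonneg_left (by linarith) p1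
  have y2 : M2 * d ≤ M2 * (E + d + X3 + X4 + X5) := mul_le_mul_of_nonneg_left (by linarith) p2
  have y3 : dg * X3 ≤ dg * (E + d + X3 + X4 + X5) := mul_le_mul_of_nonneg_left (by linarith) hdg0
  have y4 : M4 * X4 ≤ M4 * (E + d + X3 + X4 + X5) := mul_le_mul_of_nonneg_left (by linarith) p4
  have y5 : M5 * X5 ≤ M5 * (E + d + X3 + X4 + X5) := mul_le_mul_of_nonneg_left (by linarith) p5
  have y6 : M1 * E = E * hA A2 + dg * (E * Real.log c2) := by rw [hM1]; ring
  linarith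

end D4C
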