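import Pool.Agent.Lib.D4C.Iface

namespace D4C

open MvPolynomial TrivSqZeroExt

namespace T51

variable {L Ω τ : Type} [Field L] [Field Ω] [Algebra L Ω]

theorem fst_aeval (x : τ → DualNumber Ω) (F : MvPolynomial τ L) :
    (aeval x F).fst = aeval (fun s => (x s).fst) F := by
  induction F using MvPolynomial.induction_on with
  | C a => rw [aeval_C, aeval_C]; rfl
  | add p q hp hq => rw [map_add, map_add, fst_add, hp, hq]
  | mul_X p s hp => rw [map_mul, map_mul, fst_mul, hp, aeval_X, aeval_X]

/-- the first order part of a polynomial expression is additive in the tangent vector -/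
theorem snd_aeval_add (x y z : τ → DualNumber Ω) (h1 : ∀ s, (y s).fst = (x s).fst)
    (h2 : ∀ s, (z s).fst = (x s).fst) (h3 : ∀ s, (x s).snd = (y s).snd + (z s).snd)
    (F : MvPolynomial τ L) : (aeval x F).snd = (aeval y F).snd + (aeval z F).snd := by
  induction F using MvPolynomial.induction_on with
  | C a =>
    have : (algebraMap L (DualNumber Ω) a).snd = 0 := rfl
    simp only [aeval_C, this, add_zero]
  | add p q hp hq => simp only [map_add, snd_add, hp, hq]; ring
  | mul_X p s hp =>
    simp only [map_mul, aeval_X, DualNumber.snd_mul, hp, h1, h2, h3, fst_aeval]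
    ring

theorem uni_of_fst {σ : Type} {x y : σ → DualNumber Ω} (h : ∀ i, (y i).fst = (x i).fst)
    (hx : Uni x) : Uni y := by
  obtain ⟨k, hk⟩ := hx
  refine ⟨k, ?_⟩
  rw [isUnit_iff_isUnit_fst] at hk ⊢
  rwa [h]

end T51

open T51 in
theorem st_KER : St_KER := by
  intro L σ _ _ _ B Ω _ _ p q u v hp hq
  set o : σ → Ω := fun i => algebraMap L Ω (B.o i) with ho
  set x : σ → DualNumber Ω := fun i => inl (o i) + inr (u i) with hx
  set y : σ → DualNumber Ω := fun i => inl (o i) + inr (v i) with hy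
  set o' : σ → DualNumber Ω := fun i => algebraMap L (DualNumber Ω) (B.o i) with ho'
  have x1 : ∀ i, (x i).fst = o i := fun i => by simp [hx]
  have x2 : ∀ i, (x i).snd = u i := fun i => by simp [hx]
  have y1 : ∀ i, (y i).fst = o i := fun i => by simp [hy]
  have y2 : ∀ i, (y i).snd = v i := fun i => by simp [hy]
  have o1 : ∀ i, (o' i).fst = o i := fun i => rfl
  have o2 : ∀ i, (o' i).snd = 0 := fun i => rfl
  obtain ⟨a, ha⟩ := hp.exists_add hq
  obtain ⟨c, hc⟩ := Pkg.Rep.law_eq_smul hp Pkg.rep_zero (by rw [add_zero]; exact hp) a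
  obtain ⟨d, hd⟩ := Pkg.Rep.law_eq_smul Pkg.rep_zero hq (by rw [zero_add]; exact hq) a
  have e1 : ∀ i, (ev2 (B.A a) x o' i).fst = (ev2 (B.A a) x y i).fst := fun i => by
    unfold ev2
    rw [fst_aeval, fst_aeval]
    refine congrArg (fun w => aeval w (B.A a i)) (funext fun s => ?_)
    cases s <;> simp [x1, y1, o1]
  have e2 : ∀ i, (ev2 (B.A a) o' y i).fst = (ev2 (B.A a) x y i).fst := fun i => by
    unfold ev2
    rw [fst_aeval, fst_aeval]
    refine congrArg (fun w => aeval w (B.A a i)) (funext fun s => ?_)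
    cases s <;> simp [x1, y1, o1]
  have e3 : ∀ i, (ev2 (B.A a) x y i).snd = (ev2 (B.A a) x o' i).snd + (ev2 (B.A a) o' y i).snd :=
    fun i => by
      unfold ev2
      refine snd_aeval_add _ _ _ (fun s => ?_) (fun s => ?_) (fun s => ?_) _ <;>
        cases s <;> simp [x1, y1, o1, o2]
  have c1 : ∀ i, (ev2 (B.A a) x y i).fst = c.fst * o i := fun i => by
    rw [← e1, show ev2 (B.A a) x o' = c • x from hc, Pi.smul_apply, smul_eq_mul, fst_mul, x1]
  have d1 : ∀ i, (ev2 (B.A a) x y i).fst = d.fst * o i := fun i => by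
    rw [← e2, show ev2 (B.A a) o' y = d • y from hd, Pi.smul_apply, smul_eq_mul, fst_mul, y1]
  have hcd : d.fst = c.fst := by
    obtain ⟨k, hk⟩ : Uni o := Pkg.o_uni
    exact mul_right_cancel₀ hk.ne_zero ((d1 k).symm.trans (c1 k))
  have c2 : ∀ i, (ev2 (B.A a) x y i).snd = c.fst * (u i + v i) + (c.snd + d.snd) * o i :=
    fun i => by
      rw [e3, show ev2 (B.A a) x o' = c • x from hc, show ev2 (B.A a) o' y = d • y from hd]
      simp only [Pi.smul_apply, smul_eq_mul, DualNumber.snd_mul, x1, x2, y1, y2, hcd]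
      ring
  refine ha.of_par (uni_of_fst (x := x) (fun i => by simp [x1, ho]) hp.uni) fun i j => ?_
  refine TrivSqZeroExt.ext ?_ ?_
  · simp only [fst_mul, c1, fst_add, fst_inl, fst_inr, add_zero, ho]
    ring
  · simp only [DualNumber.snd_mul, c1, c2, fst_add, fst_inl, fst_inr, add_zero, snd_add, snd_inl,
      snd_inr, zero_add, ho]
    ring

end D4C
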