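import Pool.Agent.Lib.D4C.B_ZIND
import Pool.Agent.Lib.D4C.B_KER

/-! Row KILL of the d4c56 blueprint: a killed tangent space forces a proper subgroup. -/

namespace D4C

open MvPolynomial TrivSqZeroExt

namespace T32

theorem homog {k : Type} [Field k] {m : ℕ} (Q : MvPolynomial (Fin m) k) :
    ∃ (H : MvPolynomial (Fin (m + 1)) k) (N : ℕ), H.IsHomogeneous N ∧
      ∀ (R : Type) [CommRing R] [Algebra k R] (y : Fin (m + 1) → R) (z : Fin m → R),
        (∀ j, y j.castSucc = z j * y (Fin.last m)) →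
        aeval y H = y (Fin.last m) ^ N * aeval z Q := by
  refine ⟨∑ n ∈ Finset.range (Q.totalDegree + 1), rename Fin.castSucc
    (homogeneousComponent n Q) * X (Fin.last m) ^ (Q.totalDegree - n), Q.totalDegree,
    IsHomogeneous.sum _ _ _ fun n hn => ?_, fun R _ _ y z hz => ?_⟩
  · have h2 : n ≤ Q.totalDegree := Nat.lt_succ_iff.mp (Finset.mem_range.mp hn)
    have h3 := ((homogeneousComponent_isHomogeneous n Q).rename_isHomogeneous
      (f := Fin.castSucc)).mul (isHomogeneous_X_pow (Fin.last m) (Q.totalDegree - n))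
    rwa [Nat.add_sub_cancel' h2] at h3
  · rw [show aeval z Q = aeval z (∑ n ∈ Finset.range (Q.totalDegree + 1),
      homogeneousComponent n Q) by rw [sum_homogeneousComponent], map_sum, map_sum, Finset.mul_sum]
    refine Finset.sum_congr rfl fun n hn => ?_
    have h1 : y ∘ Fin.castSucc = y (Fin.last m) • z := funext fun j => by
      simp [hz j, mul_comm]
    have h2 : n ≤ Q.totalDegree := Nat.lt_succ_iff.mp (Finset.mem_range.mp hn)
    rw [map_mul, map_pow, aeval_X, aeval_rename, h1,
      aeval_smul_hom (homogeneousComponent_isHomogeneous n Q), mul_right_comm, ← pow_add,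
      Nat.add_sub_cancel' h2]

theorem evZT_map {R S S' : Type} [CommRing R] [CommRing S] [CommRing S'] [Algebra R S]
    [Algebra R S'] {m : ℕ} (r : S →ₐ[R] S') (z : Fin m → S) (t : S) (a : ZT R m) :
    evZT (fun j => r (z j)) (r t) a = r (evZT z t a) := by
  have : evZT (fun j => r (z j)) (r t) = r.comp (evZT z t) := by
    apply Polynomial.algHom_ext'
    · ext j
      simp [evZT]
    · simp [evZT]
  rw [this, AlgHom.comp_apply]

theorem mapZT_id {R : Type} [CommRing R] {m : ℕ} (a : ZT R m) : mapZT (RingHom.id R) m a = a := by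
  unfold mapZT
  rw [show MvPolynomial.map (RingHom.id R) = RingHom.id (MvPolynomial (Fin m) R) from
    RingHom.ext map_id, Polynomial.mapRingHom_id, RingHom.id_apply]

theorem snd_aeval_sum {L Ω τ ι : Type} [Field L] [Field Ω] [Algebra L Ω] [Fintype ι] (μ : ι → Ω)
    (x : τ → DualNumber Ω) (y : ι → τ → DualNumber Ω) (h1 : ∀ a s, (y a s).fst = (x s).fst)
    (h3 : ∀ s, (x s).snd = ∑ a, μ a * (y a s).snd) (F : MvPolynomial τ L) :
    (aeval x F).snd = ∑ a, μ a * (aeval (y a) F).snd := by
  induction F using MvPolynomial.induction_on with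
  | C a =>
    have : (algebraMap L (DualNumber Ω) a).snd = 0 := rfl
    simp only [aeval_C, this, mul_zero, Finset.sum_const_zero]
  | add p q hp hq => simp only [map_add, snd_add, hp, hq, mul_add, Finset.sum_add_distrib]
  | mul_X p s hp =>
    simp only [map_mul, aeval_X, DualNumber.snd_mul, hp, h1, h3, T51.fst_aeval, Finset.mul_sum,
      Finset.sum_mul, ← Finset.sum_add_distrib]
    exact Finset.sum_congr rfl fun a _ => by ring

/-- linear combination of derivations -/
noncomputable def lc {k Ω ι : Type} [Field k] [Field Ω] [Algebra k Ω] [Fintype ι] (μ : ι → Ω)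
    (ψ : ι → Ω →ₐ[k] DualNumber Ω) (h : ∀ a x, (ψ a x).fst = x) : Ω →ₐ[k] DualNumber Ω where
  toFun x := dn x (∑ a, μ a * (ψ a x).snd)
  map_one' := TrivSqZeroExt.ext (by simp [dn]) (by simp [dn])
  map_mul' x y := TrivSqZeroExt.ext (by simp [dn]) (by
    simp only [dn, map_mul, DualNumber.snd_mul, h, snd_add, snd_inl, snd_inr, zero_add, fst_add,
      fst_inl, fst_inr, add_zero, Finset.mul_sum, Finset.sum_mul, ← Finset.sum_add_distrib]
    exact Finset.sum_congr rfl fun a _ => by ring)
  map_zero' := TrivSqZeroExt.ext (by simp [dn]) (by simp [dn])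
  map_add' x y := TrivSqZeroExt.ext (by simp [dn]) (by
    simp [dn, mul_add, Finset.sum_add_distrib])
  commutes' c := TrivSqZeroExt.ext (by simp [dn, TrivSqZeroExt.algebraMap_eq_inl'])
    (by simp [dn, TrivSqZeroExt.algebraMap_eq_inl'])

theorem hom_diag {L σ : Type} [Field L] {A : MvPolynomial (σ ⊕ σ) L} {m n : ℕ}
    (hA : A.IsWeightedHomogeneous (bw σ) (m, n)) (π : σ → σ) :
    (aeval (Sum.elim X fun i => X (π i)) A : MvPolynomial σ L).IsHomogeneous (m + n) := by
  classical
  have key : ∀ d : σ ⊕ σ →₀ ℕ, (d.prod fun s k =>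
      (Sum.elim X (fun i => X (π i)) s : MvPolynomial σ L) ^ k).IsHomogeneous
        ((Finsupp.weight (bw σ) d).1 + (Finsupp.weight (bw σ) d).2) := by
    intro d
    induction d using Finsupp.induction_linear with
    | zero => simpa using isHomogeneous_one σ L
    | add f g hf hg =>
      rw [Finsupp.prod_add_index' (by simp) (by intros; rw [pow_add]), map_add, Prod.fst_add,
        Prod.snd_add, add_add_add_comm]
      exact hf.mul hg
    | single s k =>
      rw [Finsupp.prod_single_index (by simp), Finsupp.weight_single]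
      cases s with
      | inl i => simpa [bw] using isHomogeneous_X_pow (R := L) i k
      | inr i => simpa [bw] using isHomogeneous_X_pow (R := L) (π i) k
  rw [A.as_sum, map_sum]
  refine IsHomogeneous.sum _ _ _ fun d hd => ?_
  have h1 := key d
  rw [hA (mem_support_iff.mp hd)] at h1
  rw [aeval_monomial]
  simpa using (isHomogeneous_C σ (coeff d A)).mul h1

variable {L σ : Type} [Field L] [Fintype σ] [DecidableEq σ] {B : Pkg L σ} {g : ℕ}

/-- the chart functions are independent at a generic point -/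
theorem ind_chart (hT : St_TAU) (C : Chart B g) {k Ω : Type} [Field k] [Field Ω] [Algebra L k]
    [Algebra L Ω] [Algebra k Ω] [IsScalarTower L k Ω] {w : σ → Ω} (hw : PGen (ext B.I k) w) :
    aeval w C.den ≠ 0 ∧ AlgebraicIndependent k fun b => aeval w (C.num b) / aeval w C.den := by
  obtain ⟨⟨q, hq⟩, -, hu, hn⟩ := (hT L σ B g C (Fin g) k).1 MvPowerSeries.X
    fun b => MvPowerSeries.constantCoeff_X b
  have hz : Zr (ext B.I k) (tauV C (MvPowerSeries.X : Fin g → PS (Fin g) k)) := zr_ext.mpr hq.zr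
  have hd : aeval w C.den ≠ 0 := fun h0 => hu.ne_zero (by
    rw [← aeval_map_tower (L' := k)] at h0 ⊢
    exact hz _ ((hw.2 _ _ (C.den_hom.map _)).mp h0))
  refine ⟨hd, algebraicIndependent_iff.mpr fun Q hQ => ?_⟩
  obtain ⟨H, N, hH, h1⟩ := homog Q
  let ξ : Fin (g + 1) → MvPolynomial σ k := Fin.snoc (α := fun _ => MvPolynomial σ k)
    (fun b => MvPolynomial.map (algebraMap L k) (C.num b)) (MvPolynomial.map (algebraMap L k) C.den)
  have hξ : ∀ j, (ξ j).IsHomogeneous C.dg := fun j => by
    induction j using Fin.lastCases with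
    | last => simpa [ξ] using C.den_hom.map _
    | cast j => simpa [ξ] using (C.num_hom j).map _
  have h2 := h1 Ω (fun j => aeval w (ξ j)) (fun b => aeval w (C.num b) / aeval w C.den) fun b => by
    simp only [ξ, Fin.snoc_castSucc, Fin.snoc_last, aeval_map_tower, div_mul_cancel₀ _ hd]
  rw [hQ, mul_zero, aeval_map_alg] at h2
  have h3 := hz _ ((hw.2 _ _ (hH.aeval ξ hξ)).mp h2)
  rw [← aeval_map_alg, h1 _ _ MvPowerSeries.X fun b => by
    simp only [ξ, Fin.snoc_castSucc, Fin.snoc_last, aeval_map_tower, hn]] at h3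
  simp only [ξ, Fin.snoc_last, aeval_map_tower] at h3
  have h4 : (aeval MvPowerSeries.X : MvPolynomial (Fin g) k →ₐ[k] PS (Fin g) k) =
      coeToMvPowerSeries.algHom k := algHom_ext fun b => by simp
  rw [(hu.pow N).mul_right_eq_zero, h4] at h3
  simpa using h3

end T32

open T32 in
theorem st_KILL (hTAN : St_TAN) (hTMN : St_TMN) (hLGD : St_LGD) (hDER : St_DER) (hTAU : St_TAU) :
    St_KILL := by
  intro L σ _ _ _ _ B g C κ _ _ m e D q W a l hW hq hle ⟨s, hs⟩ hl hK k Ω _ _ _ _ _ _ _ _ _ _ j p p'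
    w hp hp' hw hgen
  have : IsScalarTower L κ Ω := IsScalarTower.of_algebraMap_eq fun c => by
    rw [IsScalarTower.algebraMap_apply L k Ω, IsScalarTower.algebraMap_apply L κ k,
      ← IsScalarTower.algebraMap_apply κ k Ω]
  have : CharZero k := charZero_of_injective_algebraMap (algebraMap L k).injective
  obtain ⟨a', ha'⟩ := hw.exists_add hw.neg
  let v : (Ω →ₐ[k] DualNumber Ω) → Fin g → Ω := fun ψ b =>
    (aeval (ev2 (B.A a') (fun i => ψ (w i)) fun i => dn (w (B.π i)) 0) (C.num b)).snd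
  have key : ∀ ψ : Ω →ₐ[k] DualNumber Ω, (∀ x, (ψ x).fst = x) →
      ∑ b, v ψ b * algebraMap κ Ω (l b) = 0 ∧ (v ψ = 0 → Par (fun i => (ψ (w i)).snd) w) := by
    intro ψ hψ
    obtain ⟨lg, hlg⟩ := hLGD L σ B g C Ω (ψ.restrictScalars L) hψ
    have hA : ∀ r : B.Pt Ω, (∃ x, B.Rep r x ∧ PGen q x) →
        ∑ b, lg r b * algebraMap κ Ω (l b) = 0 := by
      rintro r ⟨x, hx, hx'⟩
      obtain ⟨z, t, -, -, -, hP, -, hP', ⟨c, hc, hφ⟩, hker⟩ := st_ZIND κ σ Ω m e D q W x hW hq hx'
      have hr : B.Rep r fun i => evZT z t (W.φ i) := hφ ▸ hx.smul (isUnit_iff_ne_zero.mpr hc)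
      have h1 : ev2 (B.A a) x (x ∘ B.π) s ≠ 0 := fun h0 => hs (by
        refine (hx'.2 _ _ ((hom_diag (B.A_hom a s) B.π).map _)).mp ?_
        rw [aeval_map_tower, ← h0]
        have h2 := congrFun (ev2_map (aeval x : MvPolynomial σ L →ₐ[L] Ω) (B.A a) X
          fun i => X (B.π i)) s
        simp only [aeval_X] at h2
        exact h2.symm)
      have h2 : ev2 (B.A a) (fun i => evZT z t (W.φ i)) ((fun i => evZT z t (W.φ i)) ∘ B.π) ≠ 0 := by
        rw [hφ, show (c • x) ∘ B.π = c • (x ∘ B.π) from rfl, B.ev2_smul]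
        exact smul_ne_zero (mul_ne_zero (pow_ne_zero _ hc) (pow_ne_zero _ hc))
          fun h0 => h1 (congrFun h0 s)
      obtain ⟨hden, h3⟩ := (hlg r _ hr).1 a h2
      have h4 : ∀ Q : ZT κ m, evZT (fun j => ψ (z j)) (ψ t) Q = ψ (evZT z t Q) :=
        evZT_map (ψ.restrictScalars κ) z t
      have h5 := hTAN L σ B g C a κ Ω m W.P W.φ (fun j => ψ (z j)) (ψ t) (by rw [h4, hP, map_zero])
      simp only [hψ, h4] at h5
      have h6 : ∀ j, ∑ b, tm C a W.P W.φ z t b j * algebraMap κ Ω (l b) = 0 := fun j => by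
        have h7 := (hker _).mpr (hK j)
        rw [map_sum] at h7
        rw [← h7]
        refine Finset.sum_congr rfl fun b _ => ?_
        have h8 := (hTMN L σ B g C a κ κ (ZT κ m) Ω (RingHom.id κ) ((evZT z t).restrictScalars L)
          (fun r => (evZT z t).commutes r) m (fun i => Polynomial.C (X i)) Polynomial.X).2
          W.P W.φ b j
        simp only [mapZT_id, AlgHom.restrictScalars_apply] at h8
        rw [map_smul, h8, Algebra.smul_def, mul_comm]
        simp [evZT]
      apply mul_left_cancel₀ (mul_ne_zero hP' hden)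
      rw [mul_zero, Finset.mul_sum]
      calc _ = ∑ b, ∑ j, (ψ (z j)).snd * (tm C a W.P W.φ z t b j * algebraMap κ Ω (l b)) := by
            refine Finset.sum_congr rfl fun b _ => ?_
            have h7 := (h5 hr.zr b).2 hP'
            have h8 := h3 b
            simp only [AlgHom.restrictScalars_apply] at h8
            rw [← h8] at h7
            simp only [← mul_assoc, ← Finset.sum_mul, ← h7]
            ring
        _ = 0 := by
            rw [Finset.sum_comm]
            simp only [← Finset.mul_sum, h6, mul_zero, Finset.sum_const_zero]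
    have hB : ∑ b, lg (∑ i, (p i - p' i)) b * algebraMap κ Ω (l b) = 0 := by
      simp only [map_sum, map_sub, Finset.sum_apply, Pi.sub_apply, Finset.sum_mul, sub_mul]
      rw [Finset.sum_comm]
      refine Finset.sum_eq_zero fun i _ => ?_
      rw [Finset.sum_sub_distrib, hA _ (hp i), hA _ (hp' i), sub_zero]
    obtain ⟨h1, h2⟩ := hlg _ w hw
    obtain ⟨hden, h3⟩ := h1 a' (uni_iff_ne_zero.mp ha'.uni)
    have h4 : ∀ b, v ψ b = lg (∑ i, (p i - p' i)) b * aeval (ev2 (B.A a') w (w ∘ B.π)) C.den :=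
      fun b => (h3 b).symm
    refine ⟨?_, fun h0 => h2 (funext fun b => ?_)⟩
    · simp only [h4, mul_right_comm _ (aeval (ev2 (B.A a') w (w ∘ B.π)) C.den), ← Finset.sum_mul]
      rw [hB, zero_mul]
    · exact (mul_eq_zero.mp ((h4 b).symm.trans (congrFun h0 b))).resolve_right hden
  obtain ⟨hd, hind⟩ := ind_chart hTAU C hgen
  choose ψ hψ hψ' using fun b : Fin g => hDER k Ω _ _ hind (Pi.single b 1)
  obtain ⟨μ, hμ, hM⟩ := Matrix.exists_vecMul_eq_zero_iff.mpr
    (Matrix.exists_mulVec_eq_zero_iff.mp ⟨fun b => algebraMap κ Ω (l b),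
      fun h0 => hl (funext fun b => (algebraMap κ Ω).injective
        ((congrFun h0 b).trans (map_zero _).symm)),
      funext fun a => (key (ψ a) (hψ a)).1⟩ : (Matrix.of fun a b => v (ψ a) b).det = 0)
  have h1 : ∀ x, (lc μ ψ hψ x).fst = x := fun x => by simp [lc, dn]
  have h2 : ∀ x, (lc μ ψ hψ x).snd = ∑ a, μ a * (ψ a x).snd := fun x => by simp [lc, dn]
  have h3 : v (lc μ ψ hψ) = 0 := funext fun b => by
    have h4 : ∀ y y' : σ → DualNumber Ω, aeval (ev2 (B.A a') y y') (C.num b) =
        aeval (Sum.elim y y') (aeval (B.A a') (C.num b) : MvPolynomial (σ ⊕ σ) L) :=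
      fun y y' => aeval_map_alg _ _ _
    refine Eq.trans ?_ (congrFun hM b)
    simp only [v, h4, Matrix.vecMul, dotProduct, Matrix.of_apply]
    refine snd_aeval_sum μ _ (fun a => Sum.elim (fun i => ψ a (w i)) fun i => dn (w (B.π i)) 0)
      (fun a s => ?_) (fun s => ?_) _
    · cases s <;> simp [h1, hψ]
    · cases s <;> simp [h2, dn]
  obtain ⟨c, hc⟩ := ((key _ h1).2 h3).symm.exists_smul hw.uni
  let ι : Ω →ₐ[L] DualNumber Ω := (inlAlgHom Ω Ω Ω).restrictScalars L
  have h4 : (fun i => lc μ ψ hψ (w i)) = dn 1 c • fun i => ι (w i) := funext fun i =>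
    TrivSqZeroExt.ext (by simp [h1, dn, ι]) (by simpa [dn, ι] using congrFun hc i)
  have h5 : ∀ G : MvPolynomial σ L, G.IsHomogeneous C.dg →
      lc μ ψ hψ (aeval w G) = dn 1 c ^ C.dg * ι (aeval w G) := fun G hG => by
    have h6 := aeval_map_alg ((lc μ ψ hψ).restrictScalars L) w G
    simp only [AlgHom.restrictScalars_apply] at h6
    rw [← h6, h4, aeval_smul_hom hG, aeval_map_alg]
  refine hμ (funext fun b => ?_)
  have h6 : lc μ ψ hψ (aeval w (C.num b) / aeval w C.den) =
      ι (aeval w (C.num b) / aeval w C.den) := by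
    have hu : IsUnit (lc μ ψ hψ (aeval w C.den)) := (isUnit_iff_ne_zero.mpr hd).map _
    apply hu.mul_right_cancel
    rw [← map_mul, div_mul_cancel₀ _ hd, h5 _ (C.num_hom b), h5 _ C.den_hom, mul_left_comm,
      ← map_mul, div_mul_cancel₀ _ hd]
  have h7 := congrArg TrivSqZeroExt.snd h6
  simpa [h2, hψ', ι, Pi.single_apply] using h7

end D4C
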