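import Pool.Agent.Lib.D4C.BlueA
import Pool.Agent.Lib.GEL51.Gelfond

namespace D4C

open Height Height.AdmissibleAbsValues

namespace T51

variable {L : Type} [Field L] [NumberField L]

/-- product over all places -/
noncomputable def ad (f : AbsoluteValue L ℝ → ℝ) : ℝ :=
  (archAbsVal.map f).prod * ∏ᶠ v : nonarchAbsVal (K := L), f v.1

/-- equal to one at almost all places -/
def Fs (f : AbsoluteValue L ℝ → ℝ) : Prop :=
  (fun v : nonarchAbsVal (K := L) => f v.1).HasFiniteMulSupport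

theorem Fs.mul {f g : AbsoluteValue L ℝ → ℝ} (hf : Fs f) (hg : Fs g) : Fs fun v => f v * g v :=
  Function.HasFiniteMulSupport.mul hf hg

theorem fs_one : Fs fun _ : AbsoluteValue L ℝ => (1 : ℝ) := Function.hasFiniteMulSupport_one

theorem ad_one : ad (fun _ : AbsoluteValue L ℝ => (1 : ℝ)) = 1 := by simp [ad]

theorem ad_mul {f g : AbsoluteValue L ℝ → ℝ} (hf : Fs f) (hg : Fs g) :
    ad (fun v => f v * g v) = ad f * ad g := by
  unfold ad
  rw [Multiset.prod_map_mul, finprod_mul_distrib hf hg]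
  ring

theorem ad_prod {ι : Type} (s : Finset ι) {f : ι → AbsoluteValue L ℝ → ℝ} (hf : ∀ i, Fs (f i)) :
    Fs (fun v => ∏ i ∈ s, f i v) ∧ ad (fun v => ∏ i ∈ s, f i v) = ∏ i ∈ s, ad (f i) := by
  classical
  induction s using Finset.induction_on with
  | empty => exact ⟨fs_one, ad_one⟩
  | insert j s hj ih =>
    simp only [Finset.prod_insert hj]
    exact ⟨(hf j).mul ih.1, by rw [ad_mul (hf j) ih.1, ih.2]⟩

theorem ad_pow {f : AbsoluteValue L ℝ → ℝ} (hf : Fs f) (n : ℕ) :
    Fs (fun v => f v ^ n) ∧ ad (fun v => f v ^ n) = ad f ^ n := by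
  simpa using ad_prod (Finset.range n) (f := fun _ => f) fun _ => hf

theorem ad_le {f g : AbsoluteValue L ℝ → ℝ} (hf : Fs f) (hg : Fs g) {c : ℝ} (h0 : ∀ v, 0 ≤ f v)
    (h1 : ∀ v, f v ≤ c * g v) 
    (h2 : ∀ v : AbsoluteValue L ℝ, IsNonarchimedean v → f v ≤ g v) :
    ad f ≤ c ^ Module.finrank ℚ L * ad g := by
  unfold ad
  rw [← mul_assoc, ← NumberField.totalWeight_eq_finrank]
  have e : c ^ totalWeight L * (archAbsVal.map g).prod =
      ((archAbsVal (K := L)).map fun v => c * g v).prod := by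
    rw [Multiset.prod_map_mul, Multiset.map_const', Multiset.prod_replicate]
    rfl
  rw [e]
  refine mul_le_mul (Multiset.prod_map_le_prod_map₀ _ _ (fun v _ => h0 v) fun v _ => h1 v)
    (finprod_le_finprod hf (fun v => h0 v) hg fun v => h2 v (isNonarchimedean _ v.2))
    (finprod_nonneg fun v => h0 v) (Multiset.prod_map_nonneg fun v _ => (h0 v).trans (h1 v))

theorem fs_sn {ι : Type} [Finite ι] {x : ι → L} (hx : x ≠ 0) : Fs fun v => sn v x :=
  GEL51.finite_iSup hx

theorem ad_sn {ι : Type} {x : ι → L} (hx : x ≠ 0) : ad (fun v => sn v x) = mulHeight x :=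
  (mulHeight_eq hx).symm

theorem fs_abs {γ : L} (h : γ ≠ 0) : Fs fun v => v γ := hasFiniteMulSupport h

theorem ad_abs {γ : L} (h : γ ≠ 0) : ad (fun v => v γ) = 1 := product_formula h

theorem fs_max (a : L) : Fs fun v => max 1 (v a) := by
  by_cases h : a = 0
  · simpa [h] using fs_one
  · refine Set.Finite.subset (fs_abs h) fun v hv h1 => hv ?_
    change max 1 (v.1 a) = 1
    rw [show v.1 a = 1 from h1, max_self]

theorem ad_max (a : L) : ad (fun v => max 1 (v a)) = mulHeight₁ a := by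
  simp only [mulHeight₁_eq, max_comm (1 : ℝ)]
  rfl

theorem ad_hv (A : Finset L) : Fs (fun v => hv v A) ∧ ad (fun v => hv v A) = Real.exp (hA A) := by
  have := ad_prod A (f := fun a v => max 1 (v a)) fs_max
  refine ⟨this.1, this.2.trans ?_⟩
  rw [hA, Real.exp_sum]
  exact Finset.prod_congr rfl fun a _ => by
    rw [ad_max, logHeight₁_eq_log_mulHeight₁, Real.exp_log (mulHeight₁_pos a)]

omit [NumberField L] in
/-- powers of a nonarchimedean absolute value -/
noncomputable def vpow (v : AbsoluteValue L ℝ) (hv : IsNonarchimedean v) (k : ℕ) :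
    AbsoluteValue L ℝ where
  toFun x := v x ^ (k + 1)
  map_mul' x y := by rw [map_mul, mul_pow]
  nonneg' x := pow_nonneg (v.nonneg x) _
  eq_zero' x := by simp
  add_le' x y := by
    refine (pow_le_pow_left₀ (v.nonneg _) (hv x y) _).trans ?_
    have h1 := pow_nonneg (v.nonneg x) (k + 1)
    have h2 := pow_nonneg (v.nonneg y) (k + 1)
    rcases max_choice (v x) (v y) with h | h <;> rw [h] <;> linarith

omit [NumberField L] in
theorem sn_nonneg {ι : Type} (v : AbsoluteValue L ℝ) (x : ι → L) : 0 ≤ sn v x :=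
  Real.iSup_nonneg fun _ => v.nonneg _

omit [NumberField L] in
theorem hv_nonneg (v : AbsoluteValue L ℝ) (A : Finset L) : 0 ≤ hv v A :=
  Finset.prod_nonneg fun _ _ => zero_le_one.trans (le_max_left _ _)

omit [NumberField L] in
theorem sn_vpow {ι : Type} [Finite ι] (v : AbsoluteValue L ℝ) (h : IsNonarchimedean v) (k : ℕ)
    (x : ι → L) : sn (vpow v h k) x = sn v x ^ (k + 1) := by
  exact (Real.iSup_pow_of_ne_zero (fun i => v.nonneg (x i)) (Nat.succ_ne_zero k)).symm

omit [NumberField L] in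
theorem hv_vpow (v : AbsoluteValue L ℝ) (h : IsNonarchimedean v) (k : ℕ) (A : Finset L) :
    hv (vpow v h k) A = hv v A ^ (k + 1) := by
  unfold hv
  rw [← Finset.prod_pow]
  refine Finset.prod_congr rfl fun a _ => ?_
  change max 1 (v a ^ (k + 1)) = _
  rcases le_total 1 (v a) with h1 | h1
  · rw [max_eq_right h1, max_eq_right (one_le_pow₀ h1)]
  · rw [max_eq_left h1, max_eq_left (pow_le_one₀ (v.nonneg a) h1), one_pow]

theorem le_of_pow_le {x y c : ℝ} (hy : 0 ≤ y) (h : ∀ k : ℕ, x ^ (k + 1) ≤ c * y ^ (k + 1)) :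
    x ≤ y := by
  by_contra! hn
  rcases hy.eq_or_lt with rfl | hy
  · have := h 0
    simp only [zero_add, pow_one, mul_zero] at this
    exact absurd hn (not_lt.mpr this)
  · have h1 : 1 < x / y := (one_lt_div hy).mpr hn
    obtain ⟨k, hk⟩ := pow_unbounded_of_one_lt c h1
    have h2 := h k
    rw [← div_le_iff₀ (pow_pos hy _), ← div_pow] at h2
    exact absurd (hk.trans_le (pow_le_pow_right₀ h1.le (Nat.le_succ k))) (not_lt.mpr h2)

end T51

open T51 in
theorem st_LG : St_LG := by
  intro L _ _ ι Q ι' ι'' _ _ _ _ a b y e f n0 P _ A E γ ha hb hy hn hγ h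
  have hf := ad_prod Finset.univ (f := fun q v => sn v (y q) ^ f q)
    fun q => (ad_pow (fs_sn (hy q)) _).1
  have he := ad_prod Finset.univ (f := fun q v => sn v (y q) ^ e q)
    fun q => (ad_pow (fs_sn (hy q)) _).1
  have hE := ad_prod Finset.univ (f := fun p v => hv v (A p) ^ E p)
    fun p => (ad_pow (ad_hv (A p)).1 _).1
  have h1 := ad_le (c := n0) ((fs_sn ha).mul hf.1)
    ((((fs_abs hγ).mul (fs_sn hb)).mul he.1).mul hE.1)
    (fun v => mul_nonneg (sn_nonneg _ _) (Finset.prod_nonneg fun q _ => pow_nonneg (sn_nonneg _ _) _))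
    (fun v => (h v).trans (le_of_eq (by ring))) fun v hv' => by
      refine le_of_pow_le (c := n0) (mul_nonneg (mul_nonneg (mul_nonneg (v.nonneg _) (sn_nonneg _ _))
        (Finset.prod_nonneg fun q _ => pow_nonneg (sn_nonneg _ _) _))
        (Finset.prod_nonneg fun q _ => pow_nonneg (hv_nonneg _ _) _)) fun k => ?_
      have h2 := h (vpow v hv' k)
      simp only [sn_vpow, hv_vpow, ← pow_mul, mul_comm (k + 1)] at h2
      simp only [mul_pow, ← Finset.prod_pow, ← pow_mul]
      refine h2.trans (le_of_eq ?_)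
      change n0 * v γ ^ (k + 1) * _ * _ * _ = _
      ring
  rw [ad_mul (fs_sn ha) hf.1, ad_mul (((fs_abs hγ).mul (fs_sn hb)).mul he.1) hE.1,
    ad_mul ((fs_abs hγ).mul (fs_sn hb)) he.1, ad_mul (fs_abs hγ) (fs_sn hb), hf.2, he.2, hE.2,
    ad_abs hγ, ad_sn ha, ad_sn hb] at h1
  simp only [fun q n => (ad_pow (fs_sn (hy q)) n).2, fun q => ad_sn (hy q),
    fun p n => (ad_pow (ad_hv (A p)).1 n).2, fun p => (ad_hv (A p)).2] at h1
  have e1 : ∀ {τ : Type} [Finite τ] (x : τ → L), mulHeight x = Real.exp (logHeight x) :=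
    fun x => (Real.exp_log (mulHeight_pos x)).symm
  rw [← Real.exp_log (zero_lt_one.trans_le hn)] at h1
  simp only [e1, ← Real.exp_nat_mul, ← Real.exp_sum, ← Real.exp_add, one_mul] at h1
  have h2 := Real.exp_le_exp.mp h1
  linarith

end D4C
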