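import Pool.Agent.Lib.D4C.B_TMN
import Pool.Agent.Lib.D4C.B_KER

/-! d4c56, block LGD: the logarithmic derivative. -/

namespace D4C

open MvPolynomial TrivSqZeroExt

namespace T21u

variable {L σ : Type} [Field L] [Fintype σ] [DecidableEq σ] {B : Pkg L σ} {g : ℕ}

theorem num_o (C : Chart B g) (b : Fin g) : aeval B.o (C.num b) = 0 := by
  let cc : MvPowerSeries (Fin g) L →ₐ[L] L :=
    { MvPowerSeries.constantCoeff with commutes' := fun _ => rfl }
  have h := congrArg cc (C.coord b)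
  rw [map_mul, ← aeval_map_alg] at h
  have h1 : (fun i => cc (C.τ i)) = B.o := funext C.τ_o
  have h2 : cc (MvPowerSeries.X b) = 0 := MvPowerSeries.constantCoeff_X b
  rwa [h1, h2, zero_mul] at h

variable {Ω : Type} [Field Ω] [Algebra L Ω]

/-- the tangent vector `o + eps u` -/
def tv (B : Pkg L σ) (u : σ → Ω) : σ → DualNumber Ω :=
  fun i => inl (algebraMap L Ω (B.o i)) + inr (u i)

theorem fst_tv (u : σ → Ω) (i : σ) : (tv B u i).fst = algebraMap L Ω (B.o i) := by simp [tv]

theorem snd_tv (u : σ → Ω) (i : σ) : (tv B u i).snd = u i := by simp [tv]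

theorem fst_aeval_tv (u : σ → Ω) (F : MvPolynomial σ L) :
    (aeval (tv B u) F).fst = algebraMap L Ω (aeval B.o F) := by
  rw [T51.fst_aeval]
  simp only [fst_tv]
  exact aeval_map_alg (Algebra.ofId L Ω) B.o F

theorem exists_tv (q : B.Pt (DualNumber Ω)) (hq : B.map (fstHom L Ω Ω) q = 0) :
    ∃ u, B.Rep q (tv B u) := by
  obtain ⟨y, hy⟩ := Pkg.exists_rep q
  have h1 := hy.map (fstHom L Ω Ω)
  rw [hq] at h1
  obtain ⟨c, hc⟩ := (h1.par Pkg.rep_zero).exists_smul h1.uni
  have hu : IsUnit c := Uni.isUnit_of_smul (hc ▸ Pkg.o_uni)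
  have h2 := hy.smul (c := (inl c : DualNumber Ω)) (isUnit_iff_isUnit_fst.mpr hu)
  refine ⟨fun i => (((inl c : DualNumber Ω) • y) i).snd, ?_⟩
  have h3 : tv B (fun i => (((inl c : DualNumber Ω) • y) i).snd) = (inl c : DualNumber Ω) • y := by
    funext i
    refine TrivSqZeroExt.ext ?_ (snd_tv _ i)
    rw [fst_tv, congrFun hc i]
    simp
  rwa [h3]

theorem val_eq (C : Chart B g) {q : B.Pt (DualNumber Ω)} {y : σ → DualNumber Ω} {u : σ → Ω}
    (hy : B.Rep q y) (hu : B.Rep q (tv B u)) : (aeval y C.den).fst ≠ 0 ∧ ∀ b,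
      (aeval (tv B u) (C.num b)).snd / algebraMap L Ω (aeval B.o C.den) * (aeval y C.den).fst =
        (aeval y (C.num b)).snd := by
  obtain ⟨c, rfl⟩ := (hu.par hy).exists_smul hu.uni
  have hc : (c ^ C.dg).fst ≠ 0 :=
    (isUnit_iff_isUnit_fst.mp (hy.uni.isUnit_of_smul.pow _)).ne_zero
  have hd : algebraMap L Ω (aeval B.o C.den) ≠ 0 := (map_ne_zero _).mpr C.den_o
  rw [aeval_smul_hom C.den_hom, fst_mul, fst_aeval_tv]
  refine ⟨mul_ne_zero hc hd, fun b => ?_⟩
  rw [aeval_smul_hom (C.num_hom b), DualNumber.snd_mul, fst_aeval_tv, num_o, map_zero, mul_zero,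
    add_zero]
  field_simp

end T21u

open T21u in
theorem st_LGD : St_LGD := by
  intro L σ _ _ _ B g C Ω _ _ ψ hψ
  let δ : B.Pt Ω →+ B.Pt (DualNumber Ω) := B.map ψ - B.map (inlAlgHom L Ω Ω)
  have hδ : ∀ p, δ p = B.map ψ p + -B.map (inlAlgHom L Ω Ω) p := fun p => sub_eq_add_neg _ _
  have h0 : ∀ p, B.map (fstHom L Ω Ω) (δ p) = 0 := fun p => by
    have e1 : (fstHom L Ω Ω).comp ψ = AlgHom.id L Ω := AlgHom.ext hψ
    have e2 : (fstHom L Ω Ω).comp (inlAlgHom L Ω Ω) = AlgHom.id L Ω := AlgHom.ext fun _ => rfl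
    rw [hδ, map_add, map_neg, Pkg.map_map, Pkg.map_map, e1, e2, add_neg_cancel]
  choose u hu using fun p => exists_tv (δ p) (h0 p)
  have hd : algebraMap L Ω (aeval B.o C.den) ≠ 0 := (map_ne_zero _).mpr C.den_o
  let lg : B.Pt Ω →+ (Fin g → Ω) := AddMonoidHom.mk'
    (fun p b => (aeval (tv B (u p)) (C.num b)).snd / algebraMap L Ω (aeval B.o C.den))
    fun p q => by
      funext b
      have h1 : B.Rep (δ (p + q)) (tv B (u p + u q)) := by
        rw [map_add]
        exact st_KER L σ B Ω _ _ (u p) (u q) (hu p) (hu q)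
      have h2 := (val_eq C h1 (hu (p + q))).2 b
      rw [fst_aeval_tv, T51.snd_aeval_add (tv B (u p + u q)) (tv B (u p)) (tv B (u q))
        (fun s => by rw [fst_tv, fst_tv]) (fun s => by rw [fst_tv, fst_tv])
        (fun s => by rw [snd_tv, snd_tv, snd_tv]; rfl)] at h2
      rw [Pi.add_apply, ← add_div, ← h2, mul_div_cancel_right₀ _ hd]
  have hlg : ∀ p b, lg p b =
      (aeval (tv B (u p)) (C.num b)).snd / algebraMap L Ω (aeval B.o C.den) := fun _ _ => rfl
  refine ⟨lg, fun p x hx => ⟨fun a ha => ?_, fun h => ?_⟩⟩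
  · have e1 : (fun i => dn (x (B.π i)) 0) = (fun i => inlAlgHom L Ω Ω (x i)) ∘ B.π := by
      funext i
      simp [dn]
    have e2 : (fun i => (ev2 (B.A a) (fun i => ψ (x i)) (fun i => dn (x (B.π i)) 0) i).fst) =
        ev2 (B.A a) x (x ∘ B.π) := by
      have := ev2_map (fstHom L Ω Ω) (B.A a) (fun i => ψ (x i)) fun i => dn (x (B.π i)) 0
      simp only [fstHom_apply, hψ, fst_dn] at this
      exact this.symm
    have h1 : B.Rep (δ p) (ev2 (B.A a) (fun i => ψ (x i)) fun i => dn (x (B.π i)) 0) := by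
      have hu' : Uni (ev2 (B.A a) (fun i => ψ (x i)) fun i => dn (x (B.π i)) 0) := by
        obtain ⟨k, hk⟩ := Function.ne_iff.mp ha
        exact ⟨k, isUnit_iff_isUnit_fst.mpr (isUnit_iff_ne_zero.mpr
          (by rw [congrFun e2 k]; exact hk))⟩
      rw [e1] at hu' ⊢
      rw [hδ]
      exact (hx.map ψ).add (hx.map (inlAlgHom L Ω Ω)).neg hu'
    have h2 := val_eq C h1 (hu p)
    rw [T51.fst_aeval, e2] at h2
    exact h2
  · have h1 : ∀ b, aeval (tv B (u p)) (C.num b) = 0 := fun b => by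
      refine TrivSqZeroExt.ext (by rw [fst_aeval_tv, num_o, map_zero]; rfl) ?_
      have := congrFun h b
      rw [hlg, Pi.zero_apply, div_eq_zero_iff] at this
      exact this.resolve_right hd
    have h2 : B.map (res L (DualNumber Ω)) (δ p) = 0 := by
      have e : (fun i => res L (DualNumber Ω) (tv B (u p) i)) =
          fun i => algebraMap L _ (B.o i) := by
        funext i
        have e1 : res L (DualNumber Ω) (inr (u p i)) = 0 := by
          rw [← mul_self_eq_zero, ← map_mul, inr_mul_inr, map_zero]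
        rw [tv, map_add, e1, add_zero]
        exact (res L (DualNumber Ω)).commutes _
      have := (hu p).map (res L (DualNumber Ω))
      rw [e] at this
      exact this.eq Pkg.rep_zero (Par.refl _)
    have h3 : δ p = 0 := C.inj (DualNumber Ω) (δ p) 0 _ _ h2 (map_zero _) (hu p) Pkg.rep_zero
      fun b => by
        have e := aeval_map_alg (Algebra.ofId L (DualNumber Ω)) B.o (C.num b)
        rw [num_o, map_zero] at e
        rw [h1, zero_mul]
        exact (mul_eq_zero_of_left e _).symm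
    have h4 : B.map ψ p = B.map (inlAlgHom L Ω Ω) p := sub_eq_zero.mp h3
    have h5 := (hx.map ψ).par (h4 ▸ hx.map (inlAlgHom L Ω Ω))
    intro i j
    have := congrArg snd (h5 i j)
    simpa [DualNumber.snd_mul] using this

end D4C
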