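import Pool.Agent.Lib.D4C.B_LOS

/-! Row LIFT: a presentation over a subfield of the ultrapower at finite level. -/

namespace D4C

open MvPolynomial Filter

namespace T10

section nat
variable {R S σ : Type} [CommRing R] [CommRing S] (f : R →+* S) {m : ℕ}

theorem mapZT_C (p : MvPolynomial (Fin m) R) :
    mapZT f m (Polynomial.C p) = Polynomial.C (MvPolynomial.map f p) := Polynomial.map_C _

theorem mapZT_X : mapZT f m Polynomial.X = Polynomial.X := Polynomial.map_X _

theorem mapZT_der (p : ZT R m) :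
    mapZT f m (Polynomial.derivative p) = Polynomial.derivative (mapZT f m p) :=
  (Polynomial.derivative_map _ _).symm

theorem mapZT_zv (j : Fin (m + 1)) : mapZT f m (zv R m j) = zv S m j := by
  unfold zv
  induction j using Fin.lastCases with
  | last => simp only [Fin.snoc_last, map_one]
  | cast j => simp only [Fin.snoc_castSucc, mapZT_C, map_X]

theorem mapZT_aeval (φ : σ → ZT R m) (F : MvPolynomial σ R) :
    mapZT f m (aeval φ F) = aeval (fun i => mapZT f m (φ i)) (MvPolynomial.map f F) := by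
  induction F using MvPolynomial.induction_on with
  | C a =>
    rw [map_C, aeval_C, aeval_C, Polynomial.algebraMap_apply, Polynomial.algebraMap_apply,
      mapZT_C, algebraMap_eq, algebraMap_eq, map_C]
  | add p q hp hq => simp only [map_add, hp, hq]
  | mul_X p i hp => simp only [map_mul, hp, aeval_X, map_X]

theorem hom_of_support {p : MvPolynomial σ R} {q : MvPolynomial σ S} {n : ℕ}
    (h : p.support ⊆ q.support) (hq : q.IsHomogeneous n) : p.IsHomogeneous n :=
  fun _ hd => hq (mem_support_iff.1 (h (mem_support_iff.2 hd)))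

theorem degree_le_of_support {p : Polynomial R} {q : Polynomial S} (h : p.support ⊆ q.support) :
    p.degree ≤ q.degree := Finset.max_mono h

theorem supp_mapZT (p : ZT R m) : (mapZT f m p).support ⊆ p.support :=
  Polynomial.support_map_subset _ _

end nat

variable {U : Ultrafilter ℕ} {L : Type} [Field L]

theorem dvd_transfer {κ : Type} [CommRing κ] (ι : κ →+* Ul U L) {m : ℕ} {P G : ZT (ℕ → L) m}
    {P0 G0 : ZT κ m} (hP : mapZT (toU U).toRingHom m P = mapZT ι m P0)
    (hG : mapZT (toU U).toRingHom m G = mapZT ι m G0) (h : P0 ∣ G0) :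
    ∀ᶠ n in U, mapZT (lv L n) m P ∣ mapZT (lv L n) m G := by
  obtain ⟨Q0, rfl⟩ := h
  obtain ⟨Q, hQ, -⟩ := exists_liftZT (toU U).toRingHom m (mapZT ι m Q0) fun _ _ => toU_surj _
  have h0 : mapZT (toU U).toRingHom m (G - P * Q) = 0 := by
    rw [map_sub, map_mul, hP, hG, hQ, map_mul, sub_self]
  refine ((mapZT_eq_zero_iff m _).1 h0).mono fun n hn => ⟨mapZT (lv L n) m Q, ?_⟩
  rwa [map_sub, map_mul, sub_eq_zero] at hn

section small
variable [DecidableEq L] (K : (ℕ → L) → Prop)

/-- values at level `n` of a finite set of sequences -/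
noncomputable def lvS (A : Finset (Subtype K)) (n : ℕ) : Finset L :=
  (A.map (Function.Embedding.subtype K)).image fun a => a n

theorem ev_smP {τ : Type} (p : MvPolynomial τ (ℕ → L)) (hp : ∀ d, K (coeff d p)) :
    ∀ᶠ x : ℕ × Finset (Subtype K) in atTop,
      ∀ n, SmP x.1 (lvS K x.2 n) (MvPolynomial.map (lv L n) p) := by
  classical
  filter_upwards [eventually_ge_atTop
    (p.totalDegree, p.support.image fun d => (⟨coeff d p, hp d⟩ : Subtype K))] with x hx n
  refine ⟨(Finset.sup_mono (support_map_subset _ _)).trans hx.1, fun d => ?_⟩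
  rw [coeff_map]
  by_cases hd : d ∈ p.support
  · exact Or.inr (Finset.mem_image.2 ⟨coeff d p, Finset.mem_map.2
      ⟨_, hx.2 (Finset.mem_image_of_mem _ hd), rfl⟩, rfl⟩)
  · rw [notMem_support_iff.1 hd, map_zero]
    exact Or.inl rfl

theorem ev_smQ {m : ℕ} (p : ZT (ℕ → L) m) (hp : ∀ l d, K (coeff d (p.coeff l))) :
    ∀ᶠ x : ℕ × Finset (Subtype K) in atTop, ∀ n, SmQ x.1 (lvS K x.2 n) (mapZT (lv L n) m p) := by
  filter_upwards [eventually_ge_atTop (p.natDegree, (∅ : Finset (Subtype K))),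
    (eventually_all_finset p.support).2 fun l _ => ev_smP K (p.coeff l) (hp l)] with x hx h n
  refine ⟨Polynomial.natDegree_map_le.trans hx.1, fun l => ?_⟩
  rw [mapZT_coeff]
  by_cases hl : l ∈ p.support
  · exact h l hl n
  · rw [Polynomial.notMem_support_iff.1 hl, map_zero]
    exact ⟨by simp, fun d => Or.inl (coeff_zero d)⟩

end small

theorem fin_deg {σ : Type} [Fintype σ] (N : ℕ) : {ν : σ →₀ ℕ | ν.degree = N}.Finite :=
  (Finsupp.finite_of_degree_le N).subset fun _ h => le_of_eq h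

end T10

open T10 in
theorem st_LIFT : St_LIFT := by
  intro U L σ _ _ _ κ m e D q W hW
  classical
  let ι := algebraMap κ (Ul U L)
  have lP : ∀ {τ : Type} (p : MvPolynomial τ κ), ∃ r : MvPolynomial τ (ℕ → L),
      MvPolynomial.map (toU U).toRingHom r = MvPolynomial.map ι p ∧ r.support ⊆ p.support ∧
        ∀ d, toU U (coeff d r) ∈ κ := fun p => by
    obtain ⟨r, h1, h2⟩ := exists_lift (toU U).toRingHom (MvPolynomial.map ι p) fun _ => toU_surj _
    refine ⟨r, h1, h2.trans (support_map_subset _ _), fun d => ?_⟩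
    have := congrArg (coeff d) h1
    rw [coeff_map, coeff_map] at this
    exact (congrArg (· ∈ κ) this).mpr (coeff d p).2
  have lQ : ∀ p : ZT κ m, ∃ r : ZT (ℕ → L) m,
      mapZT (toU U).toRingHom m r = mapZT ι m p ∧ r.support ⊆ p.support ∧
        ∀ l d, toU U (coeff d (r.coeff l)) ∈ κ := fun p => by
    obtain ⟨r, h1, h2, -⟩ := exists_liftZT (toU U).toRingHom m (mapZT ι m p) fun _ _ => toU_surj _
    refine ⟨r, h1, h2.trans (supp_mapZT _ _), fun l d => ?_⟩
    have := congrArg (fun t : ZT (Ul U L) m => coeff d (t.coeff l)) h1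
    simp only [mapZT_coeff, coeff_map] at this
    exact (congrArg (· ∈ κ) this).mpr (coeff d (p.coeff l)).2
  choose a a1 a2 a3 using lP (τ := σ)
  choose b b1 b2 b3 using lP (τ := Fin m)
  choose c c1 c2 c3 using lQ
  let V : Raw (ℕ → L) σ m :=
    ⟨fun j => a (W.ξ j), a W.η, c W.P, fun i => c (W.φ i), c W.θ, c W.θ', c W.π', b W.Δ,
      fun ν j => a (W.H ν j), fun ν => c (W.ψ ν)⟩
  have hV : V.map (toU U).toRingHom = W.map ι := by
    simp only [Raw.map, V, a1, b1, c1]
  have tr : ∀ (E : ∀ (R : Type) [CommRing R], Raw R σ m → ZT R m),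
      (∀ (R S : Type) [CommRing R] [CommRing S] (f : R →+* S) (Y : Raw R σ m),
        mapZT f m (E R Y) = E S (Y.map f)) → W.P ∣ E κ W →
      ∀ᶠ n in U, (V.map (lv L n)).P ∣ E L (V.map (lv L n)) := fun E hE h => by
    refine (dvd_transfer ι (c1 W.P) (G := E _ V) (by rw [hE, hE, hV]) h).mono fun n hn => ?_
    rwa [hE] at hn
  have hm : ∀ᶠ n in U, (V.map (lv L n)).P.Monic ∧
      (V.map (lv L n)).P.natDegree = W.P.natDegree := by
    have h0 : MvPolynomial.map (toU U).toRingHom ((c W.P).coeff W.P.natDegree - 1) = 0 := by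
      rw [map_sub, ← mapZT_coeff, c1, mapZT_coeff, hW.monic.coeff_natDegree, map_one, map_one,
        sub_self]
    refine ((map_eq_zero_iff' _).1 h0).mono fun n hn => ?_
    rw [map_sub, map_one, sub_eq_zero, ← mapZT_coeff] at hn
    have hle : (mapZT (lv L n) m (c W.P)).natDegree ≤ W.P.natDegree :=
      Polynomial.natDegree_le_natDegree (degree_le_of_support ((supp_mapZT _ _).trans (c2 _)))
    exact ⟨Polynomial.monic_of_natDegree_le_of_coeff_eq_one _ hle hn,
      Polynomial.natDegree_eq_of_le_of_coeff_ne_zero hle (hn.trans_ne one_ne_zero)⟩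
  have hh : ∀ (n : ℕ) {p : MvPolynomial σ κ} {N : ℕ}, p.IsHomogeneous N →
      (MvPolynomial.map (lv L n) (a p)).IsHomogeneous N := fun n _ _ h =>
    (hom_of_support (a2 _) h).map _
  have hok : ∀ᶠ n in U, (V.map (lv L n)).Ok (⊥ : Ideal (MvPolynomial σ L)) e D := by
    filter_upwards [hm,
      eventually_all.2 fun j => tr (fun R _ Y => aeval Y.φ (Y.ξ j) - zv R m j * Y.θ)
        (fun R S _ _ f Y => by rw [map_sub, map_mul, mapZT_aeval, mapZT_zv]; rfl) (hW.ξ_eq j),
      tr (fun R _ Y => aeval Y.φ Y.η - Polynomial.X * Y.θ)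
        (fun R S _ _ f Y => by rw [map_sub, map_mul, mapZT_aeval, mapZT_X]; rfl) hW.η_eq,
      (eventually_all_finite (fin_deg (e * (D + 1)))).2 fun ν hν =>
        tr (fun R _ Y => aeval Y.φ (monomial ν (1 : R) - ∑ j, Y.ξ j * Y.H ν j))
          (fun R S _ _ f Y => by
            rw [mapZT_aeval, map_sub, map_monomial, map_one, map_sum]
            simp only [map_mul]
            rfl) (hW.ns ν hν),
      (eventually_all_finite (fin_deg (e * D))).2 fun ν hν =>
        tr (fun R _ Y => Polynomial.C Y.Δ * aeval Y.φ (monomial ν (1 : R)) - Y.θ ^ D * Y.ψ ν)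
          (fun R S _ _ f Y => by
            rw [map_sub, map_mul, map_mul, map_pow, mapZT_aeval, mapZT_C, map_monomial, map_one]
            rfl) (hW.red ν hν),
      tr (fun R _ Y => Y.θ * Y.θ' - Polynomial.C Y.Δ)
        (fun R S _ _ f Y => by rw [map_sub, map_mul, mapZT_C]; rfl) hW.θ_inv,
      tr (fun R _ Y => Polynomial.derivative Y.P * Y.π' - Polynomial.C Y.Δ)
        (fun R S _ _ f Y => by rw [map_sub, map_mul, mapZT_C, mapZT_der]; rfl) hW.sep]
      with n h0 h1 h2 h3 h4 h5 h6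
    refine ⟨fun j => hh n (hW.ξ_hom j), hh n hW.η_hom, fun ν j hν => hh n (hW.H_hom ν j hν), h0.1,
      fun F hF => ?_, h1, h2, h3, h4, fun ν hν => ?_, h5, h6⟩
    · rw [Ideal.mem_bot.1 hF, map_zero]
      exact dvd_zero _
    · rw [Polynomial.degree_eq_natDegree h0.1.ne_zero, h0.2,
        ← Polynomial.degree_eq_natDegree hW.monic.ne_zero]
      exact (degree_le_of_support ((supp_mapZT _ _).trans (c2 _))).trans_lt (hW.ψ_deg ν hν)
  let K : (ℕ → L) → Prop := fun s => toU U s ∈ κ
  have hsm : ∀ᶠ x : ℕ × Finset (Subtype K) in atTop,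
      ∀ n, (V.map (lv L n)).Small e D x.1 (lvS K x.2 n) := by
    filter_upwards [eventually_all.2 fun j => ev_smP K _ (a3 (W.ξ j)), ev_smP K _ (a3 W.η),
      ev_smQ K _ (c3 W.P), eventually_all.2 fun i => ev_smQ K _ (c3 (W.φ i)), ev_smQ K _ (c3 W.θ),
      ev_smQ K _ (c3 W.θ'), ev_smQ K _ (c3 W.π'), ev_smP K _ (b3 W.Δ),
      (eventually_all_finite (fin_deg (e * (D + 1)))).2 fun ν _ =>
        eventually_all.2 fun j => ev_smP K _ (a3 (W.H ν j)),
      (eventually_all_finite (fin_deg (e * D))).2 fun ν _ => ev_smQ K _ (c3 (W.ψ ν))]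
      with x h1 h2 h3 h4 h5 h6 h7 h8 h9 h10 n
    exact ⟨fun j => h1 j n, h2 n, h3 n, fun i => h4 i n, h5 n, h6 n, h7 n, h8 n,
      fun ν j hν => h9 ν hν j n, fun ν hν => h10 ν hν n⟩
  obtain ⟨⟨D1, A⟩, hA⟩ := hsm.exists
  refine ⟨V, D1, A.map (Function.Embedding.subtype K), hV, fun s hs => ?_, ?_,
    fun g g' hg hg' => ?_⟩
  · obtain ⟨t, -, rfl⟩ := Finset.mem_map.1 hs
    exact t.2
  · filter_upwards [hok, hm] with n h1 h2
    exact ⟨h1, hA n, h2.2⟩
  · refine (dvd_transfer ι (c1 W.P) (G := aeval V.φ g') ?_ (hW.mem g hg)).mono fun n hn => ?_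
    · rw [mapZT_aeval, mapZT_aeval, hg']
      simp only [V, c1]
      rfl
    · rwa [mapZT_aeval] at hn

end D4C
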