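import Pool.Agent.Lib.D4C.B_TAU

/-! Local parameters of the ambient variety along a presented subvariety. -/

namespace D4C

open MvPolynomial

namespace T98

theorem map_evZT {L S S' : Type} [Field L] [CommRing S] [CommRing S'] [Algebra L S] [Algebra L S']
    {m : ℕ} (f : S →ₐ[L] S') (z : Fin m → S) (t : S) (Q : ZT L m) :
    f (evZT z t Q) = evZT (fun j => f (z j)) (f t) Q := by
  have : f.comp (evZT z t) = evZT (fun j => f (z j)) (f t) := by
    refine Polynomial.algHom_ext' (MvPolynomial.algHom_ext fun j => ?_) ?_ <;> simp [evZT]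
  exact DFunLike.congr_fun this Q

theorem lin_sum {ρ F ι : Type} [Field F] (s : Finset ι) (f : ι → PS ρ F) (r : ρ) :
    lin (∑ i ∈ s, f i) r = ∑ i ∈ s, lin (f i) r := map_sum _ _ _

theorem cc_inc (L : Type) [Field L] {g m c : ℕ} (ι : Fin c → Fin g) (b : Fin g) :
    MvPowerSeries.constantCoeff (inc L (m := m) ι b) = 0 := by
  rw [inc, map_sum]
  refine Finset.sum_eq_zero fun j _ => ?_
  split_ifs <;> simp

theorem lin_inc (L : Type) [Field L] {g m c : ℕ} (ι : Fin c → Fin g) (b : Fin g) :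
    lin (inc L (m := m) ι b) = Sum.elim (fun _ => 0) fun j => if ι j = b then 1 else 0 := by
  funext r
  have h : ∀ j, lin (if ι j = b then MvPowerSeries.X (Sum.inr j) else 0 :
      PS (Fin m ⊕ Fin c) L) r = if r = Sum.inr j then (if ι j = b then 1 else 0) else 0 := by
    intro j
    by_cases h : ι j = b
    · rw [if_pos h, if_pos h, T85.lin_X]
    · rw [if_neg h, if_neg h, ite_self]
      exact map_zero _
  rw [inc, lin_sum]
  simp only [h]
  cases r <;> simp

end T98

open T85 T98 in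
theorem st_LOC2 (hT : St_TAN) : St_LOC2 := by
  intro L σ _ _ _ B g m c C W e D x z t a μ ι η hA hη hμ
  have hs : MvPowerSeries.HasSubst
      fun j : Fin m => (MvPowerSeries.X (Sum.inl j) : PS (Fin m ⊕ Fin c) L) :=
    MvPowerSeries.hasSubst_of_constantCoeff_zero fun _ => by simp
  set Z : Fin m → PS (Fin m ⊕ Fin c) L :=
    fun j => MvPowerSeries.C (z j) + MvPowerSeries.X (Sum.inl j) with hZ
  set θ : PS (Fin m ⊕ Fin c) L := MvPowerSeries.subst
    (fun j : Fin m => (MvPowerSeries.X (Sum.inl j) : PS (Fin m ⊕ Fin c) L)) η with hθ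
  have hZ0 : ∀ j, MvPowerSeries.constantCoeff (Z j) = z j := fun j => by simp [hZ]
  have hθ0 : MvPowerSeries.constantCoeff θ = t := by
    rw [hθ, cc_subst hs (fun _ => by simp), hη.1]
    rfl
  have hP : evZT Z θ W.P = 0 := by
    have h1 := congrArg (MvPowerSeries.substAlgHom (R := L) hs) hη.2
    rw [map_evZT, map_zero, MvPowerSeries.substAlgHom_apply] at h1
    rw [← h1]
    congr 2
    funext j
    rw [map_add, MvPowerSeries.substAlgHom_X]
    exact congrArg (· + MvPowerSeries.X (Sum.inl j))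
      ((MvPowerSeries.substAlgHom (R := L) hs).commutes (z j)).symm
  have hc : ∀ Q, MvPowerSeries.constantCoeff (evZT Z θ Q) = evZT z t Q := fun Q => by
    rw [← ccA_apply L, map_evZT]
    simp only [ccA_apply, hZ0, hθ0]
  have hy : ∃ p : B.Pt (PS (Fin m ⊕ Fin c) L), B.Rep p fun i => evZT Z θ (W.φ i) := by
    refine ⟨_, Pkg.rep_pt _ ?_ fun F hF => ?_⟩
    · obtain ⟨k, hk⟩ := hA.rep.uni
      exact ⟨k, unit_iff.2 (by rw [hc]; exact hk.ne_zero)⟩
    · obtain ⟨Q, hQ⟩ := hA.ok.mem F hF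
      rw [aeval_map_alg, hQ, map_mul, hP, zero_mul]
  obtain ⟨p, hp⟩ := hy
  have uni : ∀ {v : σ → PS (Fin m ⊕ Fin c) L}, (fun i => ccA L (v i)) ≠ 0 → Uni v := fun h => by
    obtain ⟨k, hk⟩ := Function.ne_iff.mp h
    exact ⟨k, unit_iff.2 hk⟩
  have hx : B.Rep (cst B (Fin m ⊕ Fin c) x) fun i => MvPowerSeries.C (evZT z t (W.φ i)) :=
    hA.rep.map (IsScalarTower.toAlgHom L L _)
  set w := ev2 (B.A a) (fun i => evZT Z θ (W.φ i))
    ((fun i => MvPowerSeries.C (evZT z t (W.φ i))) ∘ B.π) with hw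
  have hw0 : (fun i => ccA L (w i)) =
      ev2 (B.A a) (fun i => evZT z t (W.φ i)) fun i => evZT z t (W.φ (B.π i)) := by
    rw [hw, ← ev2_map]
    simp only [ccA_apply, hc, Function.comp_apply, MvPowerSeries.constantCoeff_C]
  have h1 : B.Rep (p + -cst B (Fin m ⊕ Fin c) x) w := hp.add hx.neg (uni (hw0 ▸ hA.law))
  have h2 : B.Rep (x + -x) fun i => ccA L (w i) :=
    hw0 ▸ hA.rep.add hA.rep.neg (uni_iff_ne_zero.mpr hA.law)
  rw [add_neg_cancel] at h2
  obtain ⟨a1, b1, b2, b3, b4⟩ := tau2 C h1 (h2.par Pkg.rep_zero)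
  obtain ⟨⟨q, hq⟩, d2, -, -⟩ := tau1 C (cc_inc L (m := m) ι)
  have z0 : ∀ {r : B.Pt (PS (Fin m ⊕ Fin c) L)} {s : Fin g → PS (Fin m ⊕ Fin c) L},
      (∀ b, MvPowerSeries.constantCoeff (s b) = 0) → B.Rep r (tauV C s) →
      B.map (ccA L) r = 0 := fun h hr => (hr.map (ccA L)).eq Pkg.rep_zero (by
        simp only [ccA_apply, (tau1 C h).2.1]
        exact Par.refl _)
  obtain ⟨v, hv⟩ := Pkg.exists_rep (p + -cst B (Fin m ⊕ Fin c) x + q)
  have h3 := hv.map (ccA L)
  rw [map_add, z0 b1 b2, z0 (cc_inc L ι) hq, add_zero] at h3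
  obtain ⟨th, f1, f2, -⟩ := tau2 C hv (h3.par Pkg.rep_zero)
  have hPT : evZT z t (Polynomial.derivative W.P) ≠ 0 := fun h => hA.Δ_ne (by
    obtain ⟨Q, hQ⟩ := hA.ok.sep
    have := congrArg (evZT z t) hQ
    rw [map_sub, map_mul, map_mul, h, hA.root, zero_mul, zero_mul, zero_sub, neg_eq_zero] at this
    simpa [evZT] using this)
  have hd := unit_iff.1 b3
  refine ⟨th, (evZT z t (Polynomial.derivative W.P) *
    MvPowerSeries.constantCoeff (aeval w C.den))⁻¹, inv_ne_zero (mul_ne_zero hPT hd), f1,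
    ⟨_, f2, ?_⟩, fun b => funext fun r => ?_⟩
  · rw [← add_assoc, add_comm p, add_neg_cancel_left]
    refine hp.add hq (uni ?_)
    rw [← ev2_map]
    simp only [ccA_apply, hc, d2]
    exact hμ
  · have e1 : (fun j => (jet L r (Z j)).fst) = z := funext fun j => by rw [jet_fst, hZ0]
    have e2 : (jet L r θ).fst = t := by rw [jet_fst, hθ0]
    have k := hT L σ B g C a L L m W.P W.φ (fun j => jet L r (Z j)) (jet L r θ)
      (by rw [← map_evZT, hP, map_zero]) (by rw [e1, e2]; exact hA.rep.zr) b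
    rw [e1, e2] at k
    have e3 : ev2 (B.A a) (fun i => evZT (fun j => jet L r (Z j)) (jet L r θ) (W.φ i))
        (fun i => dn (evZT z t (W.φ (B.π i))) 0) = fun i => jet L r (w i) := by
      rw [hw, ← ev2_map]
      simp only [map_evZT, Function.comp_apply]
      simp only [jet_apply, MvPowerSeries.constantCoeff_C, lin_C]
    have k2 := k.2 hPT
    rw [e3, aeval_map_alg, jet_snd, b4, lin_mul, b1, zero_mul, zero_add] at k2
    simp only [jet_snd, hZ, lin_add, lin_C, lin_X, zero_add] at k2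
    have k3 : lin (a1 b) r = (evZT z t (Polynomial.derivative W.P) *
        MvPowerSeries.constantCoeff (aeval w C.den))⁻¹ * ∑ j, (if r = Sum.inl j then 1 else 0) *
          tm C a W.P W.φ z t b j := by
      rw [← k2]
      field_simp
    rw [tau3 C b1 (cc_inc L ι) f1 b2 hq f2, k3, lin_inc]
    cases r <;> simp

end D4C
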