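import Pool.Agent.Lib.D4C.BlueA

namespace D4C

open MvPolynomial

namespace T85

variable {τ τ' L : Type} [CommRing L]

/-- weighted order at least `n` -/
def Od (W : τ → ℕ) (n : ℕ) (f : MvPowerSeries τ L) : Prop :=
  ∀ d, Finsupp.weight W d < n → MvPowerSeries.coeff d f = 0

variable {W : τ → ℕ} {W' : τ' → ℕ}

lemma od_iff {n : ℕ} {f : MvPowerSeries τ L} : Od W n f ↔ (n : ℕ∞) ≤ f.weightedOrder W :=
  ⟨MvPowerSeries.nat_le_weightedOrder W, fun h d hd =>
    MvPowerSeries.coeff_eq_zero_of_lt_weightedOrder W (lt_of_lt_of_le (by exact_mod_cast hd) h)⟩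

lemma Od.zero (f : MvPowerSeries τ L) : Od W 0 f := fun _ h => absurd h (Nat.not_lt_zero _)

lemma od_zero (n : ℕ) : Od W n (0 : MvPowerSeries τ L) := fun _ _ => by simp

lemma Od.mono {n m : ℕ} {f : MvPowerSeries τ L} (h : Od W n f) (hm : m ≤ n) : Od W m f :=
  fun d hd => h d (hd.trans_le hm)

lemma Od.add {n : ℕ} {f g : MvPowerSeries τ L} (h : Od W n f) (h' : Od W n g) : Od W n (f + g) :=
  fun d hd => by rw [map_add, h d hd, h' d hd, add_zero]

lemma Od.sub {n : ℕ} {f g : MvPowerSeries τ L} (h : Od W n f) (h' : Od W n g) : Od W n (f - g) :=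
  fun d hd => by rw [map_sub, h d hd, h' d hd, sub_zero]

lemma Od.mul {n m : ℕ} {f g : MvPowerSeries τ L} (h : Od W n f) (h' : Od W m g) :
    Od W (n + m) (f * g) := by
  rw [od_iff] at *
  exact (by push_cast; exact add_le_add h h' : _ ≤ _).trans (MvPowerSeries.le_weightedOrder_mul W)

lemma Od.mul_left {n : ℕ} {g : MvPowerSeries τ L} (f : MvPowerSeries τ L) (h : Od W n g) :
    Od W n (f * g) := by simpa using (Od.zero f).mul h

lemma od_sum {ι : Type} {n : ℕ} (s : Finset ι) {f : ι → MvPowerSeries τ L}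
    (h : ∀ i ∈ s, Od W n (f i)) : Od W n (∑ i ∈ s, f i) := fun d hd => by
  rw [map_sum]
  exact Finset.sum_eq_zero fun i hi => h i hi d hd

lemma od_hom {n : ℕ} {Ψ : MvPolynomial τ L} (h : Ψ.IsWeightedHomogeneous W n) :
    Od W n (Ψ : MvPowerSeries τ L) := fun d hd => by
  rw [coeff_coe]
  exact h.coeff_eq_zero d hd.ne

lemma od_one (hW : ∀ s, 1 ≤ W s) {f : MvPowerSeries τ L}
    (h : MvPowerSeries.constantCoeff f = 0) : Od W 1 f := fun d hd => by
  have : d = 0 := by
    ext s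
    by_contra hs
    have := Finsupp.le_weight_of_ne_zero' W hs
    have := hW s
    omega
  rw [this, MvPowerSeries.coeff_zero_eq_constantCoeff_apply, h]

lemma Od.subst {S : Type} [CommRing S] [Algebra L S] {a : τ → MvPowerSeries τ' S}
    (ha : MvPowerSeries.HasSubst a) (h : ∀ s, Od W' (W s) (a s)) {n : ℕ} {f : MvPowerSeries τ L}
    (hf : Od W n f) : Od W' n (MvPowerSeries.subst a f) := by
  rw [od_iff]
  refine le_trans ?_ (MvPowerSeries.le_weightedOrder_subst W' ha f)
  refine le_iInf₂ fun d hd => ?_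
  have h1 : n ≤ Finsupp.weight W d := not_lt.1 fun h => hd (hf d h)
  refine (Nat.cast_le.2 h1).trans ?_
  simp only [Finsupp.weight_apply, Finsupp.sum, Nat.cast_sum, Function.comp_apply]
  refine Finset.sum_le_sum fun s _ => ?_
  rw [smul_eq_mul, nsmul_eq_mul, Nat.cast_mul]
  exact mul_le_mul_right (od_iff.1 (h s)) _

/-- same leading part in weight `n` -/
structure Cg (W : τ → ℕ) (n : ℕ) (f g : MvPowerSeries τ L) : Prop where
  r : Od W n g
  d : Od W (n + 1) (f - g)

lemma Cg.l {n : ℕ} {f g : MvPowerSeries τ L} (h : Cg W n f g) : Od W n f := by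
  simpa using (h.d.mono n.le_succ).add h.r

lemma Cg.mul {n m : ℕ} {f g f' g' : MvPowerSeries τ L} (h : Cg W n f g) (h' : Cg W m f' g') :
    Cg W (n + m) (f * f') (g * g') := by
  refine ⟨h.r.mul h'.r, ?_⟩
  have e : f * f' - g * g' = (f - g) * f' + g * (f' - g') := by ring
  rw [e]
  exact ((h.d.mul h'.l).mono (by omega)).add ((h.r.mul h'.d).mono (by omega))

lemma cg_refl (f : MvPowerSeries τ L) : Cg W 0 f f := ⟨Od.zero _, by simpa using od_zero _⟩

lemma Cg.pow {n : ℕ} {f g : MvPowerSeries τ L} (h : Cg W n f g) (k : ℕ) :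
    Cg W (k * n) (f ^ k) (g ^ k) := by
  induction k with
  | zero => simpa using cg_refl 1
  | succ k ih => rw [pow_succ, pow_succ, Nat.succ_mul]; exact ih.mul h

lemma cg_aeval {a b : τ → MvPowerSeries τ' L} (h : ∀ s, Cg W' (W s) (a s) (b s)) {n : ℕ}
    {Ψ : MvPolynomial τ L} (hΨ : Ψ.IsWeightedHomogeneous W n) :
    Od W' (n + 1) (aeval a Ψ - aeval b Ψ) := by
  classical
  have key : ∀ (d : τ →₀ ℕ) (t : Finset τ), Cg W' (∑ s ∈ t, d s * W s) (∏ s ∈ t, a s ^ d s)
      (∏ s ∈ t, b s ^ d s) := fun d t => by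
    induction t using Finset.induction_on with
    | empty => simpa using cg_refl 1
    | insert s t hs ih =>
      rw [Finset.sum_insert hs, Finset.prod_insert hs, Finset.prod_insert hs]
      exact ((h s).pow _).mul ih
  rw [Ψ.as_sum, map_sum, map_sum, ← Finset.sum_sub_distrib]
  refine od_sum _ fun d hd => ?_
  rw [aeval_monomial, aeval_monomial, ← mul_sub]
  have := (key d d.support).d
  have e : ∑ s ∈ d.support, d s * W s = n := by
    rw [← hΨ (mem_support_iff.1 hd), Finsupp.weight_apply]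
    rfl
  rw [e] at this
  exact this.mul_left _

lemma hom_aeval {l : τ → MvPolynomial τ' L} (h : ∀ s, (l s).IsWeightedHomogeneous W' (W s)) {n : ℕ}
    {Ψ : MvPolynomial τ L} (hΨ : Ψ.IsWeightedHomogeneous W n) :
    (aeval l Ψ).IsWeightedHomogeneous W' n := by
  rw [Ψ.as_sum, map_sum]
  refine IsWeightedHomogeneous.sum _ _ _ fun d hd => ?_
  rw [aeval_monomial, ← hΨ (mem_support_iff.1 hd), Finsupp.weight_apply]
  exact (IsWeightedHomogeneous.prod _ _ _ fun s _ => (h s).pow _).C_mul _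

/-- lowest form, for any weight -/
structure Lw (W : τ → ℕ) (f : MvPowerSeries τ L) (ν : ℕ) (Ψ : MvPolynomial τ L) : Prop where
  ne : Ψ ≠ 0
  hom : Ψ.IsWeightedHomogeneous W ν
  d : Od W (ν + 1) (f - (Ψ : MvPowerSeries τ L))

lemma Lw.od {f : MvPowerSeries τ L} {ν : ℕ} {Ψ : MvPolynomial τ L} (h : Lw W f ν Ψ) : Od W ν f :=
  (Cg.mk (od_hom h.hom) h.d).l

lemma lw_iff {f : MvPowerSeries τ L} {ν : ℕ} {Ψ : MvPolynomial τ L} : Lw W f ν Ψ ↔ Ψ ≠ 0 ∧
    (∀ d, Finsupp.weight W d < ν → MvPowerSeries.coeff d f = 0) ∧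
    ∀ d, coeff d Ψ = if Finsupp.weight W d = ν then MvPowerSeries.coeff d f else 0 := by
  constructor
  · intro h
    refine ⟨h.ne, h.od, fun d => ?_⟩
    split_ifs with hd
    · have := h.d d (by omega)
      rw [map_sub, coeff_coe, sub_eq_zero] at this
      exact this.symm
    · exact h.hom.coeff_eq_zero d hd
  · rintro ⟨h1, h2, h3⟩
    refine ⟨h1, fun d hd => ?_, fun d hd => ?_⟩
    · by_contra h
      exact hd (by rw [h3, if_neg h])
    · rw [map_sub, coeff_coe, h3]
      split_ifs with h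
      · exact sub_self _
      · rw [h2 d (by omega), sub_zero]

lemma exists_lw [Finite τ] (hW : ∀ s, 1 ≤ W s) {f : MvPowerSeries τ L} (hf : f ≠ 0) :
    ∃ ν Ψ, Lw W f ν Ψ := by
  classical
  have h1 := (MvPowerSeries.ne_zero_iff_weightedOrder_finite W).1 hf
  obtain ⟨⟨d0, hd0, hd1⟩, h2⟩ := (MvPowerSeries.weightedOrder_eq_nat W).1 h1.symm
  have h3 : ∀ d, coeff d (∑ e ∈ (Finsupp.finite_of_nat_weight_eq W
      (fun s => Nat.one_le_iff_ne_zero.1 (hW s)) (f.weightedOrder W).toNat).toFinset,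
      monomial e (MvPowerSeries.coeff e f)) =
      if Finsupp.weight W d = (f.weightedOrder W).toNat then MvPowerSeries.coeff d f else 0 := by
    intro d
    simp [coeff_sum, coeff_monomial]
  refine ⟨_, _, lw_iff.2 ⟨fun h => hd0 ?_, h2, h3⟩⟩
  have := h3 d0
  rwa [h, if_pos hd1, coeff_zero, eq_comm] at this

lemma Lw.subst [Finite τ] {a : τ → MvPowerSeries τ' L} (ha : MvPowerSeries.HasSubst a)
    {l : τ → MvPolynomial τ' L} (hl : ∀ s, (l s).IsWeightedHomogeneous W' (W s))
    (h : ∀ s, Od W' (W s + 1) (a s - (l s : MvPowerSeries τ' L)))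
    (hi : ∀ Ψ : MvPolynomial τ L, aeval l Ψ = 0 → Ψ = 0)
    {f : MvPowerSeries τ L} {ν : ℕ} {Ψ : MvPolynomial τ L} (hf : Lw W f ν Ψ) :
    Lw W' (MvPowerSeries.subst a f) ν (aeval l Ψ) := by
  have hc : ∀ s, Cg W' (W s) (a s) (l s) := fun s => ⟨od_hom (hl s), h s⟩
  refine ⟨fun h0 => hf.ne (hi _ h0), hom_aeval hl hf.hom, ?_⟩
  have e1 : ((aeval l Ψ : MvPolynomial τ' L) : MvPowerSeries τ' L) =
      aeval (fun s => (l s : MvPowerSeries τ' L)) Ψ :=
    comp_aeval_apply l (coeToMvPowerSeries.algHom L) Ψ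
  have e : MvPowerSeries.subst a f - ((aeval l Ψ : MvPolynomial τ' L) : MvPowerSeries τ' L) =
      MvPowerSeries.subst a (f - (Ψ : MvPowerSeries τ L)) +
        (aeval a Ψ - aeval (fun s => (l s : MvPowerSeries τ' L)) Ψ) := by
    rw [MvPowerSeries.subst_sub ha, MvPowerSeries.subst_coe, e1]
    ring
  rw [e]
  exact (Od.subst ha (fun s => (hc s).l) hf.d).add (cg_aeval hc hf.hom)

/-- a series without constant term agrees with its linear part to second order -/
lemma od_lin {ρ F : Type} [Fintype ρ] [Field F] {f : PS ρ F}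
    (hf : MvPowerSeries.constantCoeff f = 0) {k : ℕ} (hk : 1 ≤ k) :
    Od (fun _ => k) (k + 1)
      (f - ((∑ r, C (lin f r) * X r : MvPolynomial ρ F) : MvPowerSeries ρ F)) := by
  classical
  intro d hd
  have h1 : d.degree ≤ 1 := by
    have : Finsupp.weight (fun _ : ρ => k) d = d.degree * k := by
      simp [Finsupp.weight_apply, Finsupp.degree_apply, Finsupp.sum, Finset.sum_mul]
    rw [this] at hd
    by_contra h
    have : 2 * k ≤ d.degree * k := Nat.mul_le_mul_right _ (by omega)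
    omega
  rw [map_sub, coeff_coe, coeff_sum, sub_eq_zero]
  simp only [coeff_C_mul, coeff_X]
  rcases Nat.le_one_iff_eq_zero_or_eq_one.1 h1 with h | h
  · rw [(Finsupp.degree_eq_zero_iff d).1 h, MvPowerSeries.coeff_zero_eq_constantCoeff_apply, hf]
    simp
  · obtain ⟨r, rfl⟩ := (Finsupp.sum_eq_one_iff d).1 h
    simp [Finsupp.single_left_inj, lin]

lemma exists_linv {ρ ρ' F : Type} [Fintype ρ'] [DecidableEq ρ] [Field F] {M : ρ → ρ' → F}
    (h : LinearIndependent F M) :
    ∃ N : ρ' → ρ → F, ∀ b b', ∑ r, M b r * N r b' = if b = b' then 1 else 0 := by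
  classical
  obtain ⟨g, hg⟩ := LinearMap.exists_leftInverse_of_injective (Finsupp.linearCombination F M)
    (LinearMap.ker_eq_bot.2 h)
  refine ⟨fun r b' => g (Pi.single r 1) b', fun b b' => ?_⟩
  have h1 : g (M b) = Finsupp.single b 1 := by
    simpa using LinearMap.congr_fun hg (Finsupp.single b 1)
  have h2 : M b = ∑ r, M b r • (Pi.single r 1 : ρ' → F) := by
    ext r
    simp [Finset.sum_apply, Pi.single_apply]
  rw [← Finsupp.single_apply, ← h1]
  conv_rhs => rw [h2]
  simp [map_sum, Finsupp.finsetSum_apply]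

lemma linS_inj {κ ρ ρ' F : Type} [Fintype ρ] [Fintype ρ'] [Field F] {M : κ → ρ → ρ' → F}
    (h : ∀ i, LinearIndependent F (M i)) (Ψ : MvPolynomial (κ × ρ) F) (h0 : linS M Ψ = 0) :
    Ψ = 0 := by
  classical
  choose N hN using fun i => exists_linv (h i)
  have : (linS N).comp (linS M) = AlgHom.id F _ := by
    refine algHom_ext fun x => ?_
    simp only [linS, AlgHom.comp_apply, aeval_X, map_sum, map_mul, aeval_C, algebraMap_eq,
      Finset.mul_sum, AlgHom.id_apply, ← mul_assoc]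
    rw [Finset.sum_comm]
    simp only [← C_mul, ← Finset.sum_mul, ← map_sum, hN]
    simp [apply_ite C]
  rw [← AlgHom.id_apply (R := F) Ψ, ← this, AlgHom.comp_apply, h0, map_zero]

lemma hs_blk {κ ρ F : Type} [Finite ρ] [Field F] (i : κ) :
    MvPowerSeries.HasSubst fun a : ρ => (MvPowerSeries.X (i, a) : PS (κ × ρ) F) :=
  MvPowerSeries.hasSubst_of_constantCoeff_zero fun _ => by simp

/-- `blk` as an algebra map -/
noncomputable def blkA {κ ρ : Type} (F : Type) [Finite ρ] [Field F] (i : κ) :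
    PS ρ F →ₐ[F] PS (κ × ρ) F := MvPowerSeries.substAlgHom (hs_blk i)

lemma blkA_apply {κ ρ F : Type} [Finite ρ] [Field F] (i : κ) (f : PS ρ F) :
    blkA F i f = blk i f := MvPowerSeries.substAlgHom_apply _ _

lemma blk_X {κ ρ F : Type} [Finite ρ] [Field F] (i : κ) (a : ρ) :
    blk i (MvPowerSeries.X a : PS ρ F) = MvPowerSeries.X (i, a) :=
  MvPowerSeries.subst_X (hs_blk i) a

lemma cc_subst {S : Type} [CommRing S] [Algebra L S] {a : τ → MvPowerSeries τ' S}
    (ha : MvPowerSeries.HasSubst a) (h : ∀ s, MvPowerSeries.constantCoeff (a s) = 0)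
    (f : MvPowerSeries τ L) : MvPowerSeries.constantCoeff (MvPowerSeries.subst a f) =
      algebraMap L S (MvPowerSeries.constantCoeff f) := by
  have h1 := MvPowerSeries.constantCoeff_subst_eq_zero ha h
    (f := f - algebraMap L _ (MvPowerSeries.constantCoeff f))
    (by simp [MvPowerSeries.algebraMap_apply])
  rw [← MvPowerSeries.substAlgHom_apply ha, map_sub, AlgHom.commutes, map_sub, sub_eq_zero,
    MvPowerSeries.substAlgHom_apply] at h1
  rw [h1]
  simp [MvPowerSeries.algebraMap_apply]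

lemma cc_blk {κ ρ F : Type} [Finite ρ] [Field F] (i : κ) (f : PS ρ F) :
    MvPowerSeries.constantCoeff (blk i f) = MvPowerSeries.constantCoeff f :=
  cc_subst (hs_blk i) (fun _ => by simp) f

end T85

open T85 in
theorem st_LOW : St_LOW := by
  intro κ ρ ρ' L _ _ _ _ _ w hw
  refine ⟨fun f hf => ?_, fun f u ν Ψ h hu => ?_, fun f ν Ψ a h ha hi => ?_⟩
  · obtain ⟨ν, Ψ, h⟩ := exists_lw (W := fun x : κ × ρ => w x.1) (fun x => hw x.1) hf
    exact ⟨ν, Ψ, lw_iff.1 h⟩
  · have h' : Lw (fun x : κ × ρ => w x.1) f ν Ψ := lw_iff.2 h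
    refine (lw_iff (W := fun x : κ × ρ => w x.1)).1 ⟨mul_ne_zero (by simpa using hu) h'.ne,
      h'.hom.C_mul _, ?_⟩
    have e : u * f - ((C (MvPowerSeries.constantCoeff u) * Ψ : MvPolynomial (κ × ρ) L) :
        PS (κ × ρ) L) = (u - MvPowerSeries.C (MvPowerSeries.constantCoeff u)) * f +
          MvPowerSeries.C (MvPowerSeries.constantCoeff u) * (f - (Ψ : PS (κ × ρ) L)) := by
      rw [coe_mul, coe_C]
      ring
    rw [e]
    exact (((od_one (fun x : κ × ρ => hw x.1) (by simp)).mul h'.od).mono (by omega)).add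
      (h'.d.mul_left _)
  · have h' : Lw (fun x : κ × ρ => w x.1) f ν Ψ := lw_iff.2 h
    refine (lw_iff (W := fun x : κ × ρ' => w x.1)).1 (h'.subst
      (MvPowerSeries.hasSubst_of_constantCoeff_zero fun x => (cc_blk _ _).trans (ha _ _))
      (fun x => IsWeightedHomogeneous.sum _ _ _ fun r _ =>
        (isWeightedHomogeneous_X L (fun x : κ × ρ' => w x.1) (x.1, r)).C_mul _)
      (fun x => ?_) (linS_inj hi))
    have := Od.subst (W' := fun x : κ × ρ' => w x.1) (hs_blk (F := L) x.1)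
      (fun r => by
        simpa using od_hom (isWeightedHomogeneous_X L (fun x : κ × ρ' => w x.1) (x.1, r)))
      (od_lin (ha x.1 x.2) (hw x.1))
    rw [MvPowerSeries.subst_sub (hs_blk _), MvPowerSeries.subst_coe] at this
    have e : ((∑ r, C (lin (a x.1 x.2) r) * X (x.1, r) : MvPolynomial (κ × ρ') L) :
        PS (κ × ρ') L) = aeval (fun r => (MvPowerSeries.X (x.1, r) : PS (κ × ρ') L))
          (∑ r, C (lin (a x.1 x.2) r) * X r : MvPolynomial ρ' L) := by
      rw [← coeToMvPowerSeries.ringHom_apply]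
      simp [map_sum, MvPowerSeries.algebraMap_apply]
    rw [e]
    exact this

open T85 in
theorem st_SINJ : St_SINJ := by
  intro ρ ρ' L _ _ _ a ha hi f hf
  by_contra h0
  obtain ⟨ν, Ψ, h⟩ := exists_lw (W := fun _ : ρ => 1) (fun _ => le_rfl) h0
  have h1 := h.subst (W' := fun _ : ρ' => 1) (MvPowerSeries.hasSubst_of_constantCoeff_zero ha)
    (l := fun b => ∑ r, C (lin (a b) r) * X r)
    (fun b => IsWeightedHomogeneous.sum _ _ _ fun r _ =>
      (isWeightedHomogeneous_X L (fun _ : ρ' => 1) r).C_mul _)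
    (fun b => od_lin (ha b) le_rfl) fun Ψ h => by
      apply rename_injective (Prod.mk ()) (Prod.mk_right_injective _)
      rw [map_zero]
      refine linS_inj (M := fun _ b => lin (a b)) (fun _ => hi) _ ?_
      have := congrArg (rename (Prod.mk ())) h
      rw [map_zero, comp_aeval_apply] at this
      rw [← this, linS, aeval_rename]
      simp [Function.comp_def, map_sum]
  rw [hf] at h1
  refine h1.ne (MvPolynomial.ext _ _ fun d => ?_)
  simpa using (lw_iff.1 h1).2.2 d

end D4C
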