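import Pool.Agent.Lib.D4C.BlueF

set_option autoImplicit false

namespace D4C

open MvPolynomial

namespace T19

lemma eval_mk {κ τ : Type} [Field κ] {F : MvPolynomial τ κ} {d : ℕ} (hF : F.IsHomogeneous d)
    (v : τ → κ) (h : v ≠ 0) : eval (Projectivization.mk κ v h).rep F = 0 ↔ eval v F = 0 := by
  obtain ⟨a, ha⟩ := Projectivization.exists_smul_eq_mk_rep κ v h
  have t := aeval_smul_hom (R := κ) hF (a : κ) v
  rw [aeval_eq_eval, aeval_eq_eval] at t
  rw [← ha, Units.smul_def, t, mul_eq_zero]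
  exact or_iff_right (pow_ne_zero _ a.ne_zero)

lemma eval_cmp {κ σ τ : Type} [Field κ] (N : τ → MvPolynomial σ κ) (F : MvPolynomial τ κ)
    (x : σ → κ) : eval x (aeval N F) = eval (fun i => eval x (N i)) F := by
  have t := aeval_map_alg (L := κ) (aeval x : MvPolynomial σ κ →ₐ[κ] κ) N F
  simpa only [aeval_eq_eval] using t.symm

end T19

open T19 in
theorem st_LP : St_LP := by
  intro κ σ τ _ X φ hφ
  choose m N hN h0 h1 using hφ
  have key : ∀ (p q : X) (F : MvPolynomial τ κ) (d : ℕ), F.IsHomogeneous d →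
      (fun i => eval q.1.rep (N p i)) ≠ 0 →
      (eval (φ q).rep F = 0 ↔ eval q.1.rep (aeval (N p) F) = 0) := by
    intro p q F d hF h
    rw [h1 p q h, eval_mk hF, eval_cmp]
  have van : ∀ (p q : X) (F : MvPolynomial τ κ) (d : ℕ), F.IsHomogeneous d →
      eval (φ q).rep F = 0 → ∀ i, eval q.1.rep (N p i * aeval (N p) F) = 0 := by
    intro p q F d hF h i
    rw [map_mul]
    by_cases hz : (fun i => eval q.1.rep (N p i)) = 0
    · rw [show eval q.1.rep (N p i) = 0 from congrFun hz i, zero_mul]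
    · rw [(key p q F d hF hz).1 h, mul_zero]
  have non : ∀ (p : X) (F : MvPolynomial τ κ) (d : ℕ), F.IsHomogeneous d →
      (∀ i, eval p.1.rep (N p i * aeval (N p) F) = 0) → eval (φ p).rep F = 0 := by
    intro p F d hF h
    obtain ⟨i, hi⟩ := Function.ne_iff.mp (h0 p)
    have t := h i
    rw [map_mul] at t
    exact (key p p F d hF (h0 p)).2 ((mul_eq_zero.1 t).resolve_left hi)
  have hom : ∀ (p : X) (F : MvPolynomial τ κ) (d : ℕ), F.IsHomogeneous d → ∀ i,
      (N p i * aeval (N p) F).IsHomogeneous (m p + m p * d) :=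
    fun p F d hF i => (hN p i).mul (hF.aeval (N p) (hN p))
  constructor
  · rintro ⟨T0, a1, a2⟩ S ⟨T, b1, rfl⟩
    refine ⟨T0 ∪ {G | ∃ p i, ∃ F ∈ T, G = N p i * aeval (N p) F}, ?_, ?_⟩
    · rintro G (hG | ⟨p, i, F, hF, rfl⟩)
      · exact a1 G hG
      · obtain ⟨d, hd⟩ := b1 F hF
        exact ⟨_, hom p F d hd i⟩
    · ext q
      constructor
      · rintro ⟨q, hq, rfl⟩ G (hG | ⟨p, i, F, hF, rfl⟩)
        · have t : q.1 ∈ {p : Projectivization κ (σ → κ) | ∀ F ∈ T0, eval p.rep F = 0} :=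
            a2 ▸ q.2
          exact t G hG
        · obtain ⟨d, hd⟩ := b1 F hF
          exact van p q F d hd (hq F hF) i
      · intro hq
        have hX : q ∈ X := by
          rw [a2]; exact fun G hG => hq G (Or.inl hG)
        refine ⟨⟨q, hX⟩, fun F hF => ?_, rfl⟩
        obtain ⟨d, hd⟩ := b1 F hF
        exact non ⟨q, hX⟩ F d hd fun i => hq _ (Or.inr ⟨⟨q, hX⟩, i, F, hF, rfl⟩)
  · rintro S ⟨⟨_, p0, hp0, rfl⟩, hS⟩
    refine ⟨⟨φ p0, p0, hp0, rfl⟩, fun F G d e hF hG h => ?_⟩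
    by_contra hc
    rw [not_or] at hc
    obtain ⟨c1, c2⟩ := hc
    apply c1
    rintro _ ⟨p, hp, rfl⟩
    refine non p F d hF fun i => ?_
    by_contra c3
    apply c2
    rintro _ ⟨q, hq, rfl⟩
    refine non q G e hG fun j => ?_
    rcases hS _ _ _ _ (hom p F d hF i) (hom q G e hG j) (by
      rintro _ ⟨r, hr, rfl⟩
      have t := h _ ⟨r, hr, rfl⟩
      rw [map_mul] at t ⊢
      rcases mul_eq_zero.1 t with t | t
      · rw [van p r F d hF t i, zero_mul]
      · rw [van q r G e hG t j, mul_zero]) with t | t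
    · exact absurd (t _ ⟨p, hp, rfl⟩) c3
    · exact t _ ⟨q, hq, rfl⟩

end D4C
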