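import Pool.Agent.Lib.D4C.BlueA
import Pool.Agent.Lib.D4C.T83L1

/-! The tools MAJ, GAU, L1, HENS, MTAU. -/

namespace D4C

open MvPolynomial T83

theorem st_MAJ : St_MAJ := fun _ _ _ _ _ hr h0 hz ha hm =>
  ⟨fun _ _ _ _ h k => ⟨Mj.add hr.le ha h k, Mj.mul hr.le h0 hz ha hm h k⟩,
    fun x s => by simpa using mj_monomial hr.le h0 hz 0 x s, fun _ _ d h => Mj.coeff_le h d⟩

theorem st_GAU : St_GAU := by
  intro L R _ _ _ v Bd h1 h2 h3 h4 τ x r F M hr hx hM
  classical
  have pw : ∀ s n, Bd (x s ^ n) (r s ^ n) := fun s n => by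
    induction n with
    | zero => simpa using h4 1
    | succ n ih => rw [pow_succ, pow_succ]; exact h3 _ _ _ _ ih (hx s) (pow_nonneg (hr s) _) (hr s)
  have pr : ∀ (d : τ →₀ ℕ) (S : Finset τ), Bd (∏ s ∈ S, x s ^ d s) (∏ s ∈ S, r s ^ d s) :=
    fun d S => by
      induction S using Finset.induction_on with
      | empty => simpa using h4 1
      | insert s S hs ih =>
        rw [Finset.prod_insert hs, Finset.prod_insert hs]
        exact h3 _ _ _ _ (pw s _) ih (pow_nonneg (hr s) _)
          (Finset.prod_nonneg fun s _ => pow_nonneg (hr s) _)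
  have sm : ∀ S : Finset (τ →₀ ℕ), S ⊆ F.support →
      Bd (∑ d ∈ S, aeval x (monomial d (coeff d F))) ((∑ d ∈ S, v (coeff d F)) * M) :=
    fun S hS => by
      induction S using Finset.induction_on with
      | empty => simpa using h4 0
      | insert d S hd ih =>
        rw [Finset.sum_insert hd, Finset.sum_insert hd, add_mul, aeval_monomial]
        refine h2 _ _ _ _ (h1 _ _ _ (h3 _ _ _ _ (h4 _) (pr d _) (v.nonneg _)
          (Finset.prod_nonneg fun s _ => pow_nonneg (hr s) _)) ?_)
          (ih ((Finset.subset_insert _ _).trans hS))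
        exact mul_le_mul_of_nonneg_left (hM d (hS (Finset.mem_insert_self _ _))) (v.nonneg _)
  have := sm _ subset_rfl
  rwa [← map_sum, ← F.as_sum] at this

theorem st_L1 : St_L1 := fun _ _ v _ =>
  ⟨fun F G => ⟨l1_add v F G, l1_mul v F G⟩, l1_monomial v,
    fun F d => by simpa using sum_le_l1 v F {d},
    fun _ => l1_le_card v fun d hd => coeff_mem_coeffs d (mem_support_iff.1 hd),
    fun _ => l1_rename v, fun _ _ _ h => l1_smp v h⟩

theorem st_HENS : St_HENS := by
  intro L _ g P z0 t0 hP hu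
  let sh : ZT L g →ₐ[L] ZT L g := evZT (fun j => Polynomial.C (C (z0 j) + X j))
    (Polynomial.X + Polynomial.C (C t0))
  set u := evZT z0 t0 P.derivative
  have cR : ∀ k, constantCoeff ((sh P).coeff k) =
      (Polynomial.taylor t0 (P.map (aeval z0).toRingHom)).coeff k := fun k => by
    have := AlgHom.congr_fun (zt_ext
      (f := (Polynomial.mapAlgHom (aeval fun _ => (0 : L))).comp sh)
      (g := (Polynomial.aeval (Polynomial.X + Polynomial.C t0)).comp
        (Polynomial.mapAlgHom (aeval z0))) (fun j => by simp [sh, evZT_C])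
      (by simp [sh, evZT_X])) P
    rw [Polynomial.taylor_apply, Polynomial.comp_eq_aeval]
    refine Eq.trans ?_ (congrArg (Polynomial.coeff · k) this)
    simp
  obtain ⟨η0, e0, e1, -⟩ := bounded_root (Polynomial.X - Polynomial.C (C u⁻¹) * sh P)
    (by
      rw [Polynomial.coeff_sub, Polynomial.coeff_C_mul, map_sub, map_mul, cR,
        Polynomial.taylor_coeff_zero, ← evZT_eq, hP]
      simp)
    (by
      rw [Polynomial.coeff_sub, Polynomial.coeff_C_mul, map_sub, map_mul, cR,
        Polynomial.taylor_coeff_one, Polynomial.derivative_map, ← evZT_eq]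
      simpa [sub_eq_zero] using (inv_mul_cancel₀ hu).symm)
  refine ⟨η0 + MvPowerSeries.C t0, by simp [e0], ?_⟩
  rw [map_sub, map_mul, evZT_X, evZT_C, sub_eq_self, aeval_C, map_evZT] at e1
  simpa [evZT_C, evZT_X, MvPowerSeries.algebraMap_apply] using
    ((inv_ne_zero hu).isUnit.map _).mul_right_eq_zero.1 e1

theorem st_MTAU : St_MTAU := by
  intro L σ _ _ _ B g C
  refine ⟨2 ^ (g + 1) * C.c + 1, by omega, fun v ρ _ n ι e hι _ i => ?_⟩
  have H1 := one_le_hv v C.A
  have g1 : (1 : ℝ) ≤ 2 ^ g := one_le_pow₀ one_le_two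
  have c0 : (0 : ℝ) ≤ C.c := Nat.cast_nonneg _
  set M : ℝ := ((2 ^ (g + 1) * C.c + 1 : ℕ) : ℝ) * hv v C.A with hM
  have hM' : 2 ^ g * (2 * (C.c * hv v C.A)) < M := by
    rw [hM]; push_cast; rw [pow_succ]; nlinarith
  have p0 : 0 ≤ C.c * hv v C.A := by positivity
  have M0 : 0 < M := lt_of_le_of_lt (by positivity) hM'
  have r0 : 0 ≤ M⁻¹ := by positivity
  refine mj_subst r0 (MvPowerSeries.hasSubst_of_constantCoeff_zero fun b => ?_) (r' := M⁻¹)
    (fun b => ?_) fun s => ?_
  · rw [map_sum]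
    exact Finset.sum_eq_zero fun j _ => by split_ifs <;> simp
  · by_cases h : ∃ j, ι j = b
    · obtain ⟨j, rfl⟩ := h
      simp only [hι.eq_iff, Finset.sum_ite_eq', Finset.mem_univ, if_true]
      simpa [MvPowerSeries.X] using mj_monomial r0 v.nonneg v.map_zero (Finsupp.single (e j) 1) 1
    · rw [Finset.sum_eq_zero fun j _ => if_neg fun k => h ⟨j, k⟩]
      intro s
      simpa using M0.le
  · refine (Finset.sum_le_sum (g := fun J => C.c * hv v C.A * (C.c * hv v C.A * M⁻¹) ^ J.degree)
      fun J _ => ?_).trans ?_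
    · rw [mul_pow, ← mul_assoc, ← pow_succ']
      exact mul_le_mul_of_nonneg_right (C.bound v J i) (pow_nonneg r0 _)
    · rw [← Finset.mul_sum]
      have := geom_sum_le (q := C.c * hv v C.A * M⁻¹) (by positivity) (by
        rw [mul_inv_le_iff₀ M0]; nlinarith) s
      rw [Fintype.card_fin] at this
      nlinarith [mul_le_mul_of_nonneg_left this p0]

end D4C
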