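import Pool.Agent.Lib.D4C.BlueF
import Pool.Agent.Lib.D4C.B_LAW

/-! Multiplication by a power of two on forms, by iterating the doubling step. -/

namespace D4C

open MvPolynomial

namespace T54

variable {L τ : Type} [Field L] (v : AbsoluteValue L ℝ)

theorem l1_eq_sum (F : MvPolynomial τ L) {s : Finset (τ →₀ ℕ)} (h : F.support ⊆ s) :
    l1 v F = ∑ d ∈ s, v (coeff d F) :=
  Finset.sum_subset h fun d _ hd => by rw [notMem_support_iff.1 hd, map_zero]

theorem l1_nonneg (F : MvPolynomial τ L) : 0 ≤ l1 v F := Finset.sum_nonneg fun _ _ => v.nonneg _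

theorem l1_zero : l1 v (0 : MvPolynomial τ L) = 0 := by simp [l1]

theorem l1_add (F G : MvPolynomial τ L) : l1 v (F + G) ≤ l1 v F + l1 v G := by
  classical
  rw [l1_eq_sum v (F + G) (s := F.support ∪ G.support) support_add,
    l1_eq_sum v F (s := F.support ∪ G.support) Finset.subset_union_left,
    l1_eq_sum v G (s := F.support ∪ G.support) Finset.subset_union_right, ← Finset.sum_add_distrib]
  exact Finset.sum_le_sum fun d _ => by rw [coeff_add]; exact v.add_le _ _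

theorem l1_smul (c : L) (F : MvPolynomial τ L) : l1 v (c • F) = v c * l1 v F := by
  rw [l1_eq_sum v (c • F) (s := F.support) support_smul, l1, Finset.mul_sum]
  exact Finset.sum_congr rfl fun d _ => by rw [coeff_smul, smul_eq_mul, map_mul]

theorem l1_sum {ι : Type} (s : Finset ι) (F : ι → MvPolynomial τ L) :
    l1 v (∑ i ∈ s, F i) ≤ ∑ i ∈ s, l1 v (F i) :=
  Finset.le_sum_of_subadditive (l1 v) (l1_zero v).le (l1_add v) s F

theorem l1_mono1 (d : τ →₀ ℕ) : l1 v (monomial d (1 : L)) = 1 := by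
  classical
  simp [l1, support_monomial]

theorem aeval_mono [Fintype τ] {Ω : Type} [Field Ω] [Algebra L Ω] (x : τ → Ω) (d : τ →₀ ℕ)
    (c : L) : aeval x (monomial d c) = algebraMap L Ω c * ∏ i, x i ^ d i := by
  rw [aeval_monomial, Finsupp.prod_fintype _ _ fun i => pow_zero _]

variable {σ : Type} [Fintype σ] [DecidableEq σ]

theorem gen_pow (hF : St_FIB) [CharZero L] (B : Pkg L σ) {Ω : Type} [Field Ω] [Algebra L Ω]
    (p : B.Pt Ω) {x : σ → Ω} (hx : B.Rep p x) (hg : PGen B.I x) (κ : ℕ) :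
    ∀ w, B.Rep (2 ^ κ • p) w → PGen B.I w := by
  induction κ with
  | zero =>
    intro w hw
    rw [pow_zero, one_smul] at hw
    obtain ⟨c, rfl⟩ := (hx.par hw).exists_smul hx.uni
    have hc : c ≠ 0 := hw.uni.isUnit_of_smul.ne_zero
    refine ⟨uni_iff_ne_zero.1 hw.uni, fun F n hn => ?_⟩
    rw [aeval_smul_hom hn, mul_eq_zero, or_iff_right (pow_ne_zero _ hc)]
    exact hg.2 F n hn
  | succ κ ih =>
    intro w hw
    obtain ⟨u, hu⟩ := Pkg.exists_rep (2 ^ κ • p)
    rw [pow_succ', mul_smul] at hw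
    exact (((hF L σ B Ω).1 _ u w hu hw).2) (ih u hu)

theorem iter (hF : St_FIB) [CharZero L] (B : Pkg L σ) {N r c : ℕ} {A : Finset L} (hc : 1 ≤ c)
    (D1 : ℕ → (σ →₀ ℕ) → MvPolynomial σ L)
    (h1 : ∀ n γ, (D1 n γ).IsHomogeneous (N * (4 * n + r)) ∧
      ∀ v : AbsoluteValue L ℝ, l1 v (D1 n γ) ≤ (c * hv v A) ^ (n + r))
    (h2 : ∀ n (Ω : Type) [Field Ω] [Algebra L Ω] (p : B.Pt Ω) (x y : σ → Ω), B.Rep p x →
      B.Rep (2 • p) y → ∃ E : Ω, (PGen B.I x → E ≠ 0) ∧ ∀ γ, γ.degree = N * n →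
        aeval x (D1 n γ) = E * ∏ i, y i ^ γ i)
    {i0 : σ} (hi : (X i0 : MvPolynomial σ L) ∉ B.I) (κ : ℕ) : ∀ n t : ℕ,
    ∃ Dm : (σ →₀ ℕ) → MvPolynomial σ L,
      (∀ γ, (Dm γ).IsHomogeneous (4 ^ κ * (N * (n + r)) + t) ∧ ∀ v : AbsoluteValue L ℝ,
        l1 v (Dm γ) * (c * hv v A) ^ n ≤ (c * hv v A) ^ (4 ^ κ * (n + r))) ∧
      ∀ (Ω : Type) [Field Ω] [Algebra L Ω] (p : B.Pt Ω) (x y : σ → Ω), B.Rep p x →
        B.Rep (2 ^ κ • p) y → ∃ E : Ω, (PGen B.I x → E ≠ 0) ∧ ∀ γ, γ.degree = N * n →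
          aeval x (Dm γ) = E * ∏ i, y i ^ γ i := by
  have H : ∀ v : AbsoluteValue L ℝ, (1 : ℝ) ≤ c * hv v A := fun v =>
    one_le_mul_of_one_le_of_one_le (by exact_mod_cast hc) (T83.one_le_hv v A)
  induction κ with
  | zero =>
    intro n t
    refine ⟨fun γ => if γ.degree = N * n then monomial (γ + Finsupp.single i0 (N * r + t)) 1
      else 0, fun γ => ⟨?_, fun v => ?_⟩, fun Ω _ _ p x y hx hy => ?_⟩
    · beta_reduce
      split_ifs with h
      · refine isHomogeneous_monomial _ ?_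
        rw [map_add, h, Finsupp.degree_single]
        ring
      · exact isHomogeneous_zero _ _ _
    · have : (c * hv v A) ^ n ≤ (c * hv v A) ^ (4 ^ 0 * (n + r)) :=
        pow_le_pow_right₀ (H v) (by omega)
      beta_reduce
      split_ifs with h
      · rw [l1_mono1, one_mul]
        exact this
      · rw [l1_zero, zero_mul]
        exact pow_nonneg (zero_le_one.trans (H v)) _
    · rw [pow_zero, one_smul] at hy
      obtain ⟨e, rfl⟩ := (hy.par hx).exists_smul hy.uni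
      have he : e ≠ 0 := hx.uni.isUnit_of_smul.ne_zero
      refine ⟨(e • y) i0 ^ (N * r + t) * e ^ (N * n), fun hg => ?_, fun γ hγ => ?_⟩
      · refine mul_ne_zero (pow_ne_zero _ fun h0 => hi ?_) (pow_ne_zero _ he)
        exact (hg.2 _ 1 (isHomogeneous_X L i0)).1 (by rw [aeval_X]; exact h0)
      · simp only [if_pos hγ]
        rw [monomial_add_single, map_mul, map_pow, aeval_X,
          aeval_smul_hom (isHomogeneous_monomial (1 : L) hγ), aeval_mono, map_one, one_mul]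
        ring
  | succ κ ih =>
    intro n t
    obtain ⟨D, d1, d2⟩ := ih (4 * n + r) (4 ^ κ * (N * (2 * r)) + t)
    refine ⟨fun γ => ∑ d ∈ (D1 n γ).support, coeff d (D1 n γ) • D d, fun γ => ⟨?_, fun v => ?_⟩,
      fun Ω _ _ p x y hx hy => ?_⟩
    · refine IsHomogeneous.sum _ _ _ fun d _ => ?_
      have e : 4 ^ (κ + 1) * (N * (n + r)) + t =
          4 ^ κ * (N * (4 * n + r + r)) + (4 ^ κ * (N * (2 * r)) + t) := by ring
      rw [e]
      exact (homogeneousSubmodule σ L _).smul_mem _ (d1 d).1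
    · set M : ℝ := c * hv v A
      have M0 : 0 ≤ M := zero_le_one.trans (H v)
      have s1 : l1 v (∑ d ∈ (D1 n γ).support, coeff d (D1 n γ) • D d) * M ^ (4 * n + r) ≤
          l1 v (D1 n γ) * M ^ (4 ^ κ * (4 * n + r + r)) := by
        refine (mul_le_mul_of_nonneg_right (l1_sum v _ _) (pow_nonneg M0 _)).trans ?_
        rw [Finset.sum_mul, l1, Finset.sum_mul]
        refine Finset.sum_le_sum fun d _ => ?_
        rw [l1_smul, mul_assoc]
        exact mul_le_mul_of_nonneg_left ((d1 d).2 v) (v.nonneg _)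
      have s2 := s1.trans (mul_le_mul_of_nonneg_right ((h1 n γ).2 v) (pow_nonneg M0 _))
      have Mp : 0 < M ^ (n + r) := pow_pos (zero_lt_one.trans_le (H v)) _
      have s3 : l1 v (∑ d ∈ (D1 n γ).support, coeff d (D1 n γ) • D d) * M ^ (3 * n) ≤
          M ^ (4 ^ κ * (4 * n + r + r)) := by
        refine le_of_mul_le_mul_left ?_ Mp
        refine le_trans (le_of_eq ?_) s2
        ring
      refine le_trans (mul_le_mul_of_nonneg_left (pow_le_pow_right₀ (H v) (by omega))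
        (l1_nonneg v _)) (s3.trans (pow_le_pow_right₀ (H v) ?_))
      rw [pow_succ, mul_assoc]
      exact Nat.mul_le_mul_left _ (by omega)
    · obtain ⟨w, hw⟩ := Pkg.exists_rep (2 ^ κ • p)
      rw [pow_succ', mul_smul] at hy
      obtain ⟨E, e1, e2⟩ := d2 Ω p x w hx hw
      obtain ⟨E', f1, f2⟩ := h2 n Ω _ w y hw hy
      refine ⟨E * E', fun hg => mul_ne_zero (e1 hg) (f1 (gen_pow hF B p hx hg κ w hw)),
        fun γ hγ => ?_⟩
      rw [mul_assoc, ← f2 γ hγ, map_sum]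
      conv_rhs => rw [(D1 n γ).as_sum, map_sum, Finset.mul_sum]
      refine Finset.sum_congr rfl fun d hd => ?_
      have hd' : d.degree = N * (4 * n + r) := by
        have := (h1 n γ).1 (mem_support_iff.mp hd)
        rwa [Finsupp.degree_eq_weight_one]
      rw [map_smul, e2 d hd', aeval_mono, Algebra.smul_def]
      ring

end T54

theorem st_MUL (hM : St_MUL1) (hF : St_FIB) (hG : St_GPT) : St_MUL := by
  intro L σ _ _ _ _ B
  obtain ⟨N, r, c, A, hN, -, hc, h⟩ := hM L σ B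
  choose D1 h1 h2 using h
  have pr : B.I.IsPrime := by
    have := B.gprime L
    have e : ext B.I L = B.I := by
      unfold ext
      rw [Algebra.algebraMap_self]
      have : (MvPolynomial.map (RingHom.id L) : MvPolynomial σ L →+* MvPolynomial σ L) =
          RingHom.id _ := RingHom.ext fun F => map_id F
      rw [this, Ideal.map_id]
    rwa [e] at this
  obtain ⟨i0, hi0⟩ := Function.ne_iff.mp B.o_ne
  have hi : (X i0 : MvPolynomial σ L) ∉ B.I := fun h => hi0 (by simpa using B.o_mem _ h)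
  obtain ⟨Ω, _, _, _, x, hx0, hx⟩ := hG.ex L σ B.I pr ⟨i0, hi⟩
  have hg : PGen B.I x := ⟨hx0, fun F _ _ => hx F⟩
  have rx := Pkg.rep_pt (B := B) x (uni_iff_ne_zero.2 hx0) fun F hF => (hx F).2 hF
  refine ⟨N, r, c, A, hN, fun κ n => ?_⟩
  obtain ⟨D, d1, d2⟩ := T54.iter hF B hc D1 h1 h2 hi κ n 0
  refine ⟨D, fun γ => ⟨(d1 γ).1, fun v => le_trans ?_ ((d1 γ).2 v)⟩, ?_,
    fun Ω' _ _ p x' y hx' hy => ?_⟩
  · refine le_mul_of_one_le_right (T54.l1_nonneg v _) (one_le_pow₀ ?_)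
    exact one_le_mul_of_one_le_of_one_le (by exact_mod_cast hc) (T83.one_le_hv v A)
  · obtain ⟨y, hy⟩ := Pkg.exists_rep (2 ^ κ • B.pt x _ _)
    obtain ⟨E, e1, e2⟩ := d2 Ω _ x y rx hy
    obtain ⟨j, hj⟩ := Function.ne_iff.mp (uni_iff_ne_zero.1 hy.uni)
    refine ⟨Finsupp.single j (N * n), Finsupp.degree_single _ _, fun hD => ?_⟩
    have := e2 _ (Finsupp.degree_single j (N * n))
    rw [(hx _).2 hD] at this
    refine mul_ne_zero (e1 hg) (Finset.prod_ne_zero_iff.2 fun i _ => ?_) this.symm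
    by_cases hij : j = i
    · subst hij
      exact pow_ne_zero _ hj
    · rw [Finsupp.single_eq_of_ne (Ne.symm hij), pow_zero]
      exact one_ne_zero
  · obtain ⟨E, -, e2⟩ := d2 Ω' p x' y hx' hy
    exact ⟨E, e2⟩

end D4C
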