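import Pool.Agent.Lib.D4C.BlueF
import Pool.Agent.Lib.D4C.B_FDEG

/-! One doubling step on forms of degree `N n`. -/

namespace D4C

open MvPolynomial

namespace T26

variable {L σ : Type} [Field L]

theorem powers {V U : MvPolynomial σ L} {a : ℕ → MvPolynomial σ L} {dV m s : ℕ} (hs : 1 ≤ s)
    (hV : V.IsHomogeneous dV) (hU : U.IsHomogeneous (dV + m))
    (ha : ∀ j, j < s → (a j).IsHomogeneous (m * (s - j))) {M : AbsoluteValue L ℝ → ℝ}
    (h1 : ∀ v, 1 ≤ M v) (bV : ∀ v, l1 v V ≤ M v) (bU : ∀ v, l1 v U ≤ M v)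
    (ba : ∀ v j, j < s → l1 v (a j) ≤ M v) (k : ℕ) :
    ∃ Q : MvPolynomial σ L, Q.IsHomogeneous (m * k + (s - 1) * dV) ∧
      (∀ v, l1 v Q ≤ (s * M v) ^ (k + s)) ∧
      ∀ (Ω : Type) [Field Ω] [Algebra L Ω] (x : σ → Ω) (T : Ω), aeval x V * T = aeval x U →
        T ^ s + ∑ j ∈ Finset.range s, aeval x (a j) * T ^ j = 0 →
        aeval x Q = aeval x V ^ (s - 1) * T ^ k := by
  have hM : ∀ v, M v ≤ s * M v := fun v =>
    le_mul_of_one_le_left (zero_le_one.trans (h1 v)) (by exact_mod_cast hs)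
  induction k using Nat.strong_induction_on with
  | _ k ih =>
  by_cases hk : k < s
  · obtain ⟨e, he⟩ : ∃ e, s - 1 = k + e := ⟨s - 1 - k, by omega⟩
    refine ⟨U ^ k * V ^ e, ?_, fun v => ?_, fun Ω _ _ x T h _ => ?_⟩
    · have := (hU.pow k).mul (hV.pow e)
      convert this using 1
      rw [he]; ring
    · refine (T83.l1_mul v _ _).trans ((mul_le_mul (T1.l1_pow v ((bU v).trans (hM v)) k)
        (T1.l1_pow v ((bV v).trans (hM v)) e) (T83.l1_nonneg v _)
        (pow_nonneg (zero_le_one.trans ((h1 v).trans (hM v))) _)).trans ?_)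
      rw [← pow_add]
      exact pow_le_pow_right₀ ((h1 v).trans (hM v)) (by omega)
    · rw [map_mul, map_pow, map_pow, ← h, he]; ring
  · obtain ⟨e, rfl⟩ : ∃ e, k = e + s := ⟨k - s, by omega⟩
    choose! Q q1 q2 q3 using ih
    refine ⟨∑ j ∈ Finset.range s, C (-1) * (a j * Q (e + j)), ?_, fun v => ?_,
      fun Ω _ _ x T h h' => ?_⟩
    · refine IsHomogeneous.sum _ _ _ fun j hj => ?_
      have hj' := Finset.mem_range.1 hj
      have := (isHomogeneous_C σ (-1 : L)).mul ((ha j hj').mul (q1 (e + j) (by omega)))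
      convert this using 1
      obtain ⟨d, rfl⟩ : ∃ d, s = j + d := ⟨s - j, by omega⟩
      rw [Nat.add_sub_cancel_left]; ring
    · have M1 := (h1 v).trans (hM v)
      refine (T83.l1_sum v _ _).trans ((Finset.sum_le_card_nsmul _ _
        (M v * (s * M v) ^ (e + s + (s - 1))) fun j hj => ?_).trans (le_of_eq ?_))
      · have hj' := Finset.mem_range.1 hj
        rw [← smul_eq_C_mul]
        refine (T1.l1_smul v _ _).trans ?_
        rw [v.map_neg, map_one, one_mul]
        exact (T83.l1_mul v _ _).trans (mul_le_mul (ba v j hj') ((q2 (e + j) (by omega) v).trans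
          (pow_le_pow_right₀ M1 (by omega))) (T83.l1_nonneg v _) (zero_le_one.trans (h1 v)))
      · rw [Finset.card_range, nsmul_eq_mul, show e + s + s = e + s + (s - 1) + 1 by omega, pow_succ]
        ring
    · rw [map_sum, pow_add, eq_neg_of_add_eq_zero_left h', mul_neg, mul_neg, Finset.mul_sum,
        Finset.mul_sum, ← Finset.sum_neg_distrib]
      refine Finset.sum_congr rfl fun j hj => ?_
      rw [map_mul, map_mul, q3 (e + j) (by have := Finset.mem_range.1 hj; omega) Ω x T h h', aeval_C,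
        map_neg, map_one]
      ring

theorem split {N : ℕ} {S : Finset (σ →₀ ℕ)} (hS : ∀ γ : σ →₀ ℕ, γ.degree = N → γ ∈ S) (n : ℕ) :
    ∀ γ : σ →₀ ℕ, γ.degree = N * n →
      ∃ k : (σ →₀ ℕ) → ℕ, ∑ d ∈ S, k d = n ∧ γ = ∑ d ∈ S, k d • d := by
  classical
  induction n with
  | zero =>
    intro γ h
    exact ⟨fun _ => 0, by simp, by simpa using (Finsupp.degree_eq_zero_iff γ).1 h⟩
  | succ n ih =>
    intro γ h
    obtain ⟨g, hg, hN⟩ := Finsupp.exists_le_degree_eq γ N (by rw [h]; nlinarith)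
    obtain ⟨γ', rfl⟩ := exists_add_of_le hg
    obtain ⟨k, k1, k2⟩ := ih γ' (by rw [map_add, hN] at h; linarith)
    refine ⟨fun d => k d + if d = g then 1 else 0, ?_, ?_⟩
    · simp [Finset.sum_add_distrib, k1, hS g hN]
    · simp [add_smul, Finset.sum_add_distrib, ← k2, hS g hN, add_comm]

end T26

theorem st_MUL1 (hI : St_INT2) : St_MUL1 := by
  classical
  intro L σ _ _ _ _ B
  obtain ⟨D⟩ := hI L σ B
  obtain ⟨i0, hi0⟩ := Function.ne_iff.mp B.o_ne
  have hi : (X i0 : MvPolynomial σ L) ∉ B.I := fun h => hi0 (by simpa using B.o_mem _ h)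
  set S : Finset (σ →₀ ℕ) := (Finsupp.finite_of_degree_eq D.N).toFinset with hS
  have mS : ∀ γ : σ →₀ ℕ, γ ∈ S ↔ γ.degree = D.N := fun γ => by simp [hS]
  obtain ⟨c, A, hc, hb⟩ := T1.bdd_fam (ι := Option (S × Option (Fin D.s)))
    (fun j v => l1 v (j.elim D.V fun z => z.2.elim (D.U z.1) fun i => D.a z.1 i))
    fun j => T1.bdd_l1 _
  have h1 : ∀ v : AbsoluteValue L ℝ, (1 : ℝ) ≤ c * hv v A := fun v =>
    one_le_mul_of_one_le_of_one_le (by exact_mod_cast hc) (T83.one_le_hv v A)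
  have hQ := fun (d : σ →₀ ℕ) (hd : d ∈ S) (k : ℕ) => T26.powers D.s_pos D.V_hom (D.U_hom d)
    (D.a_hom d) h1 (hb none) (hb (some (⟨d, hd⟩, none)))
    (fun v j hj => hb (some (⟨d, hd⟩, some ⟨j, hj⟩)) v) k
  choose! Q q1 q2 q3 using hQ
  set e : ℕ := S.card * ((D.s - 1) * D.dV) with he
  set r : ℕ := e + S.card * D.s + 1 with hr
  obtain ⟨pad, hpad⟩ : ∃ pad, D.N * r = e + pad :=
    exists_add_of_le ((show e ≤ r by omega).trans (Nat.le_mul_of_pos_left _ D.N_pos))
  refine ⟨D.N, r, D.s * c, A, D.N_pos, by omega, Nat.mul_pos D.s_pos hc, fun n => ?_⟩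
  choose! k k1 k2 using T26.split (fun γ h => (mS γ).2 h) n
  have M1 : ∀ v : AbsoluteValue L ℝ, (1 : ℝ) ≤ D.s * (c * hv v A) := fun v =>
    one_le_mul_of_one_le_of_one_le (by exact_mod_cast D.s_pos) (h1 v)
  refine ⟨fun γ => if γ.degree = D.N * n then X i0 ^ pad * ∏ d ∈ S, Q d (k γ d) else 0,
    fun γ => ⟨?_, fun v => ?_⟩, fun Ω _ _ p x y hx hy => ?_⟩
  · beta_reduce
    split_ifs with h
    · have := ((isHomogeneous_X L i0).pow pad).mul
        (IsHomogeneous.prod S _ _ fun d hd => q1 d hd (k γ d))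
      convert this using 1
      rw [Finset.sum_add_distrib, ← Finset.mul_sum, k1 γ h, Finset.sum_const, smul_eq_mul, ← he,
        mul_add, hpad]
      ring
    · exact isHomogeneous_zero _ _ _
  · have cs : ((D.s * c : ℕ) : ℝ) * hv v A = D.s * (c * hv v A) := by push_cast; ring
    rw [cs]
    beta_reduce
    split_ifs with h
    · refine (T83.l1_mul v _ _).trans ((mul_le_of_le_one_left (T83.l1_nonneg v _)
        (by simpa using T1.l1_pow v (T1.l1_X v i0).le pad)).trans
        ((T1.l1_prod v S fun d hd => q2 d hd (k γ d) v).trans ?_))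
      rw [Finset.prod_pow_eq_pow_sum, Finset.sum_add_distrib, k1 γ h, Finset.sum_const, smul_eq_mul]
      exact pow_le_pow_right₀ (M1 v) (by omega)
    · rw [T83.l1_zero]
      exact pow_nonneg (zero_le_one.trans (M1 v)) _
  · let Ω' := AlgebraicClosure Ω
    let f : Ω →ₐ[L] Ω' := IsScalarTower.toAlgHom L Ω Ω'
    have inj : Function.Injective f := (algebraMap Ω Ω').injective
    obtain ⟨t, ht, h2, -⟩ := D.pt Ω' _ _ _ (hx.map f) (by rw [← map_nsmul]; exact hy.map f)
    have key : ∀ γ : σ →₀ ℕ, γ.degree = D.N * n →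
        f (aeval x (X i0 ^ pad * ∏ d ∈ S, Q d (k γ d))) =
          f (x i0 ^ pad * aeval x D.V ^ ((D.s - 1) * S.card)) * t ^ n * f (∏ i, y i ^ γ i) := by
      intro γ h
      have e1 : ∏ i, y i ^ γ i = ∏ d ∈ S, (∏ i, y i ^ d i) ^ k γ d := by
        conv_lhs => rw [k2 γ h]
        simp only [Finsupp.coe_finset_sum, Finset.sum_apply, Finsupp.smul_apply, smul_eq_mul,
          ← Finset.prod_pow_eq_pow_sum, ← Finset.prod_pow, ← pow_mul, mul_comm]
        exact Finset.prod_comm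
      rw [← aeval_map_alg f, map_mul, map_pow, aeval_X, map_prod, Finset.prod_congr rfl fun d hd =>
        q3 d hd (k γ d) Ω' _ _ (h2 d ((mS d).1 hd)).1 (h2 d ((mS d).1 hd)).2, e1]
      simp only [map_mul, map_pow, map_prod, mul_pow, Finset.prod_mul_distrib, Finset.prod_const,
        Finset.prod_pow_eq_pow_sum, k1 γ h, aeval_map_alg f, ← pow_mul]
      ring
    obtain ⟨j, hj⟩ := Function.ne_iff.mp (uni_iff_ne_zero.1 hy.uni)
    have d0 : (Finsupp.single j (D.N * n)).degree = D.N * n := Finsupp.degree_single _ _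
    have y0 : ∏ i, y i ^ Finsupp.single j (D.N * n) i ≠ 0 := by
      refine Finset.prod_ne_zero_iff.2 fun i _ => ?_
      by_cases hij : j = i
      · subst hij
        exact pow_ne_zero _ hj
      · rw [Finsupp.single_eq_of_ne (Ne.symm hij), pow_zero]
        exact one_ne_zero
    obtain ⟨E, hE⟩ : ∃ E : Ω, f E = f (x i0 ^ pad * aeval x D.V ^ ((D.s - 1) * S.card)) * t ^ n :=
      ⟨_ / ∏ i, y i ^ Finsupp.single j (D.N * n) i, by rw [map_div₀, key _ d0, mul_div_cancel_right₀ _ ((map_ne_zero f).2 y0)]⟩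
    refine ⟨E, fun hg h0 => ?_, fun γ h => inj ?_⟩
    · rw [h0, map_zero] at hE
      refine mul_ne_zero ((map_ne_zero f).2 (mul_ne_zero (pow_ne_zero _ fun h => hi ?_)
        (pow_ne_zero _ fun h => D.V_not ((hg.2 _ _ D.V_hom).1 h)))) (pow_ne_zero _ ht) hE.symm
      exact (hg.2 _ 1 (isHomogeneous_X L i0)).1 (by rw [aeval_X]; exact h)
    · simp only [if_pos h]
      rw [key γ h, map_mul f E, hE]

end D4C
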