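import Mathlib

/-! d4c56 blueprint, definitions.  An abelian variety is handled as a package of polynomial
identities (`Pkg`); its points over any local algebra form a group (`Pkg.Pt`). -/

set_option linter.unusedSectionVars false

namespace D4C

open MvPolynomial

/-- bidegree weight on two blocks of variables -/
def bw (σ : Type) : σ ⊕ σ → ℕ × ℕ := Sum.elim (fun _ => (1, 0)) (fun _ => (0, 1))

/-- `x` is killed by the ideal `I` -/
def Zr {L σ : Type} [Field L] (I : Ideal (MvPolynomial σ L)) {R : Type} [CommRing R] [Algebra L R]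
    (x : σ → R) : Prop := ∀ F ∈ I, aeval x F = 0

/-- proportional vectors -/
def Par {σ R : Type} [CommRing R] (x y : σ → R) : Prop := ∀ i j, x i * y j = x j * y i

/-- a vector with a unit coordinate -/
def Uni {σ R : Type} [CommRing R] (x : σ → R) : Prop := ∃ i, IsUnit (x i)

/-- value of a tuple of polynomials in two blocks -/
noncomputable def ev2 {L σ : Type} [Field L] (A : σ → MvPolynomial (σ ⊕ σ) L) {R : Type}
    [CommRing R] [Algebra L R] (x y : σ → R) : σ → R := fun i => aeval (Sum.elim x y) (A i)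

/-- extension of an ideal to a bigger field -/
noncomputable def ext {L σ : Type} [Field L] (I : Ideal (MvPolynomial σ L)) (Ω : Type) [Field Ω]
    [Algebra L Ω] : Ideal (MvPolynomial σ Ω) := I.map (MvPolynomial.map (algebraMap L Ω))

/-- homogeneous ideal (elementary form) -/
def IsHom {L σ : Type} [Field L] (I : Ideal (MvPolynomial σ L)) : Prop :=
  ∀ F ∈ I, ∀ n, homogeneousComponent n F ∈ I

/-- abelian variety with negation a permutation of the coordinates -/
structure Pkg (L : Type) [Field L] (σ : Type) [Fintype σ] [DecidableEq σ] where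
  I : Ideal (MvPolynomial σ L)
  hom : IsHom I
  gprime : ∀ (Ω : Type) [Field Ω] [Algebra L Ω], (ext I Ω).IsPrime
  o : σ → L
  o_ne : o ≠ 0
  o_mem : Zr I o
  π : Equiv.Perm σ
  nl : ℕ
  β : ℕ
  β_pos : 1 ≤ β
  A : Fin nl → σ → MvPolynomial (σ ⊕ σ) L
  A_hom : ∀ a i, (A a i).IsWeightedHomogeneous (bw σ) (β, β)
  complete : ∀ (Ω : Type) [Field Ω] [Algebra L Ω] (x y : σ → Ω), Zr I x → Zr I y → x ≠ 0 → y ≠ 0 →
    ∃ a, ev2 (A a) x y ≠ 0
  neg_mem : ∀ (R : Type) [CommRing R] [Algebra L R] (x : σ → R), Zr I x → Zr I (x ∘ π)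
  add_mem : ∀ (R : Type) [CommRing R] [Algebra L R] (x y : σ → R), Zr I x → Zr I y →
    ∀ a, Zr I (ev2 (A a) x y)
  compat : ∀ (R : Type) [CommRing R] [Algebra L R] (x y : σ → R), Zr I x → Zr I y →
    ∀ a b, Par (ev2 (A a) x y) (ev2 (A b) x y)
  comm : ∀ (R : Type) [CommRing R] [Algebra L R] (x y : σ → R), Zr I x → Zr I y →
    ∀ a b, Par (ev2 (A a) x y) (ev2 (A b) y x)
  assoc : ∀ (R : Type) [CommRing R] [Algebra L R] (x y z : σ → R), Zr I x → Zr I y → Zr I z →
    ∀ a b c d, Par (ev2 (A a) (ev2 (A b) x y) z) (ev2 (A c) x (ev2 (A d) y z))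
  zero : ∀ (R : Type) [CommRing R] [Algebra L R] (x : σ → R), Zr I x →
    ∀ a, Par (ev2 (A a) (fun i => algebraMap L R (o i)) x) x
  neg : ∀ (R : Type) [CommRing R] [Algebra L R] (x : σ → R), Zr I x →
    ∀ a, Par (ev2 (A a) (x ∘ π) x) (fun i => algebraMap L R (o i))

section basic

variable {σ R : Type} [CommRing R]

theorem Par.refl (x : σ → R) : Par x x := fun _ _ => mul_comm _ _

theorem Par.symm {x y : σ → R} (h : Par x y) : Par y x := fun i j => by
  rw [mul_comm, mul_comm (y j)]; exact (h i j).symm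

theorem Par.trans {x y z : σ → R} (h : Par x y) (hy : Uni y) (h' : Par y z) : Par x z := by
  obtain ⟨k, hk⟩ := hy
  intro i j
  apply hk.mul_left_cancel
  calc y k * (x i * z j) = x i * (y k * z j) := by ring
    _ = x i * (y j * z k) := by rw [h' k j]
    _ = (x i * y j) * z k := by ring
    _ = (x j * y i) * z k := by rw [h i j]
    _ = x j * (y i * z k) := by ring
    _ = x j * (y k * z i) := by rw [h' k i]
    _ = y k * (x j * z i) := by ring

/-- a vector proportional to a unimodular one is a multiple of it -/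
theorem Par.exists_smul {x y : σ → R} (h : Par x y) (hx : Uni x) : ∃ c : R, y = c • x := by
  obtain ⟨k, u, hu⟩ := hx
  refine ⟨y k * ↑u⁻¹, funext fun j => ?_⟩
  have := h k j
  rw [← hu] at this
  simp only [Pi.smul_apply, smul_eq_mul]
  calc y j = ↑u⁻¹ * (↑u * y j) := by rw [← mul_assoc]; simp
    _ = y k * ↑u⁻¹ * x j := by rw [this]; ring

theorem par_smul (c : R) (x : σ → R) : Par x (c • x) := fun i j => by
  simp only [Pi.smul_apply, smul_eq_mul]; ring

theorem Uni.isUnit_of_smul {c : R} {x : σ → R} (h : Uni (c • x)) : IsUnit c := by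
  obtain ⟨k, hk⟩ := h
  exact isUnit_of_mul_isUnit_left hk

theorem Uni.smul {c : R} {x : σ → R} (hc : IsUnit c) (h : Uni x) : Uni (c • x) := by
  obtain ⟨k, hk⟩ := h
  exact ⟨k, hc.mul hk⟩

theorem uni_iff_ne_zero {Ω : Type} [Field Ω] {x : σ → Ω} : Uni x ↔ x ≠ 0 := by
  constructor
  · rintro ⟨k, hk⟩ h
    exact hk.ne_zero (congrFun h k)
  · intro h
    obtain ⟨k, hk⟩ := Function.ne_iff.mp h
    exact ⟨k, isUnit_iff_ne_zero.mpr hk⟩

theorem Uni.map {R' F : Type} [CommRing R'] [FunLike F R R'] [RingHomClass F R R'] (f : F)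
    {x : σ → R} (h : Uni x) : Uni (fun i => f (x i)) := by
  obtain ⟨k, hk⟩ := h
  exact ⟨k, hk.map f⟩

theorem Par.map {R' F : Type} [CommRing R'] [FunLike F R R'] [RingHomClass F R R'] (f : F)
    {x y : σ → R} (h : Par x y) : Par (fun i => f (x i)) (fun i => f (y i)) := fun i j => by
  rw [← map_mul, ← map_mul, h i j]

variable {L : Type} [Field L] [Algebra L R]

theorem aeval_map_alg {τ R' : Type} [CommRing R'] [Algebra L R'] (f : R →ₐ[L] R') (x : τ → R)
    (F : MvPolynomial τ L) : aeval (fun i => f (x i)) F = f (aeval x F) := by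
  rw [← AlgHom.comp_apply, comp_aeval]

theorem Zr.map {R' : Type} [CommRing R'] [Algebra L R'] (f : R →ₐ[L] R')
    {I : Ideal (MvPolynomial σ L)} {x : σ → R} (h : Zr I x) : Zr I (fun i => f (x i)) :=
  fun F hF => by rw [aeval_map_alg, h F hF, map_zero]

theorem ev2_map {R' : Type} [CommRing R'] [Algebra L R'] (f : R →ₐ[L] R')
    (A : σ → MvPolynomial (σ ⊕ σ) L) (x y : σ → R) :
    ev2 A (fun i => f (x i)) (fun i => f (y i)) = fun i => f (ev2 A x y i) := by
  funext i
  unfold ev2
  rw [← aeval_map_alg]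
  congr 2
  funext s
  cases s <;> rfl

theorem aeval_smul_hom {F : MvPolynomial σ L} {n : ℕ} (hF : F.IsHomogeneous n) (c : R)
    (x : σ → R) : aeval (c • x) F = c ^ n * aeval x F := by
  classical
  conv_lhs => rw [F.as_sum]
  conv_rhs => rw [F.as_sum]
  rw [map_sum, map_sum, Finset.mul_sum]
  refine Finset.sum_congr rfl fun d hd => ?_
  have hd' : d.degree = n := by
    have := hF (mem_support_iff.mp hd)
    rwa [Finsupp.degree_eq_weight_one]
  rw [aeval_monomial, aeval_monomial]
  simp only [Pi.smul_apply, smul_eq_mul, mul_pow, Finsupp.prod, Finset.prod_mul_distrib]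
  rw [Finset.prod_pow_eq_pow_sum, ← hd', Finsupp.degree_apply]
  ring

theorem Zr.smul {I : Ideal (MvPolynomial σ L)} (hI : IsHom I) {x : σ → R} (h : Zr I x) (c : R) :
    Zr I (c • x) := by
  intro F hF
  rw [← sum_homogeneousComponent F, map_sum]
  refine Finset.sum_eq_zero fun n _ => ?_
  rw [aeval_smul_hom (homogeneousComponent_isHomogeneous n F), h _ (hI F hF n), mul_zero]

theorem aeval_smul_bihom {F : MvPolynomial (σ ⊕ σ) L} {m n : ℕ}
    (hF : F.IsWeightedHomogeneous (bw σ) (m, n)) (c c' : R) (x y : σ → R) :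
    aeval (Sum.elim (c • x) (c' • y)) F = c ^ m * c' ^ n * aeval (Sum.elim x y) F := by
  classical
  have key : ∀ d : σ ⊕ σ →₀ ℕ, (d.prod fun s k => (Sum.elim (c • x) (c' • y) s) ^ k) =
      c ^ (Finsupp.weight (bw σ) d).1 * c' ^ (Finsupp.weight (bw σ) d).2 *
        d.prod fun s k => (Sum.elim x y s) ^ k := by
    intro d
    induction d using Finsupp.induction_linear with
    | zero => simp
    | add f g hf hg =>
      rw [Finsupp.prod_add_index' (by simp) (by intros; rw [pow_add]),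
        Finsupp.prod_add_index' (by simp) (by intros; rw [pow_add]), hf, hg, map_add]
      simp only [Prod.fst_add, Prod.snd_add, pow_add]
      ring
    | single s k =>
      rw [Finsupp.prod_single_index (by simp), Finsupp.prod_single_index (by simp),
        Finsupp.weight_single]
      cases s <;> simp [bw, mul_pow]
  conv_lhs => rw [F.as_sum]
  conv_rhs => rw [F.as_sum]
  rw [map_sum, map_sum, Finset.mul_sum]
  refine Finset.sum_congr rfl fun d hd => ?_
  rw [aeval_monomial, aeval_monomial, key, hF (mem_support_iff.mp hd)]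
  ring

end basic

namespace Pkg

variable {L : Type} [Field L] {σ : Type} [Fintype σ] [DecidableEq σ] (B : Pkg L σ)

theorem ev2_smul {R : Type} [CommRing R] [Algebra L R] (a : Fin B.nl) (c c' : R) (x y : σ → R) :
    ev2 (B.A a) (c • x) (c' • y) = (c ^ B.β * c' ^ B.β) • ev2 (B.A a) x y := by
  funext i
  simp only [ev2, Pi.smul_apply, smul_eq_mul]
  exact aeval_smul_bihom (B.A_hom a i) c c' x y

/-- homogeneous coordinates of a point with values in `R` -/
def Vec (R : Type) [CommRing R] [Algebra L R] : Type := {x : σ → R // Uni x ∧ Zr B.I x}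

/-- proportionality of coordinate vectors -/
def rel (R : Type) [CommRing R] [Algebra L R] : Setoid (B.Vec R) where
  r x y := Par x.1 y.1
  iseqv := ⟨fun x => Par.refl x.1, fun h => h.symm, fun {_ y _} h h' => h.trans y.2.1 h'⟩

/-- points with values in `R` -/
def Pt (R : Type) [CommRing R] [Algebra L R] : Type := Quotient (B.rel R)

variable {R : Type} [CommRing R] [Algebra L R]

/-- the point with coordinates `x` -/
def pt (x : σ → R) (hu : Uni x) (hz : Zr B.I x) : B.Pt R := Quotient.mk (B.rel R) ⟨x, hu, hz⟩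

/-- `x` is a coordinate vector of `p` -/
def Rep (p : B.Pt R) (x : σ → R) : Prop := ∃ hu hz, p = B.pt x hu hz

variable {B}

theorem pt_eq_pt {x y : σ → R} {hu hz hu' hz'} : B.pt x hu hz = B.pt y hu' hz' ↔ Par x y :=
  ⟨fun h => Quotient.exact h, fun h => Quotient.sound h⟩

theorem rep_pt (x : σ → R) (hu : Uni x) (hz : Zr B.I x) : B.Rep (B.pt x hu hz) x := ⟨hu, hz, rfl⟩

theorem exists_rep (p : B.Pt R) : ∃ x, B.Rep p x := by
  obtain ⟨⟨x, hu, hz⟩, rfl⟩ := Quotient.exists_rep p
  exact ⟨x, hu, hz, rfl⟩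

theorem Rep.uni {p : B.Pt R} {x : σ → R} (h : B.Rep p x) : Uni x := h.1

theorem Rep.zr {p : B.Pt R} {x : σ → R} (h : B.Rep p x) : Zr B.I x := h.2.1

theorem Rep.par {p : B.Pt R} {x y : σ → R} (h : B.Rep p x) (h' : B.Rep p y) : Par x y := by
  obtain ⟨hu, hz, rfl⟩ := h
  obtain ⟨hu', hz', h⟩ := h'
  exact pt_eq_pt.mp h

theorem Rep.eq {p q : B.Pt R} {x y : σ → R} (h : B.Rep p x) (h' : B.Rep q y) (hp : Par x y) :
    p = q := by
  obtain ⟨hu, hz, rfl⟩ := h
  obtain ⟨hu', hz', rfl⟩ := h'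
  exact pt_eq_pt.mpr hp

theorem Rep.of_par {p : B.Pt R} {x y : σ → R} (h : B.Rep p x) (hy : Uni y) (hp : Par x y) :
    B.Rep p y := by
  obtain ⟨c, rfl⟩ := hp.exists_smul h.uni
  obtain ⟨hu, hz, rfl⟩ := h
  exact ⟨hy, hz.smul B.hom c, pt_eq_pt.mpr hp⟩

theorem Rep.smul {p : B.Pt R} {x : σ → R} (h : B.Rep p x) {c : R} (hc : IsUnit c) :
    B.Rep p (c • x) := h.of_par (h.uni.smul hc) (par_smul c x)

theorem o_uni [Nontrivial R] : Uni (fun i => algebraMap L R (B.o i)) :=
  (uni_iff_ne_zero.mpr B.o_ne).map (algebraMap L R)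

theorem o_zr : Zr B.I (fun i => algebraMap L R (B.o i)) := B.o_mem.map (Algebra.ofId L R)

variable [IsLocalRing R]

theorem exists_law {x y : σ → R} (hx : Uni x) (hx' : Zr B.I x) (hy : Uni y) (hy' : Zr B.I y) :
    ∃ a, Uni (ev2 (B.A a) x y) := by
  let f : R →ₐ[L] IsLocalRing.ResidueField R := IsScalarTower.toAlgHom L R _
  obtain ⟨a, ha⟩ := B.complete (IsLocalRing.ResidueField R) _ _ (hx'.map f) (hy'.map f)
    (uni_iff_ne_zero.mp (hx.map f)) (uni_iff_ne_zero.mp (hy.map f))
  rw [ev2_map] at ha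
  obtain ⟨k, hk⟩ := Function.ne_iff.mp ha
  refine ⟨a, k, ?_⟩
  by_contra hn
  exact hk ((IsLocalRing.residue_eq_zero_iff _).mpr hn)

/-- sum of two coordinate vectors by a law that does not degenerate -/
noncomputable def addV (x y : B.Vec R) : B.Vec R :=
  ⟨ev2 (B.A (exists_law x.2.1 x.2.2 y.2.1 y.2.2).choose) x.1 y.1,
    (exists_law x.2.1 x.2.2 y.2.1 y.2.2).choose_spec, B.add_mem R _ _ x.2.2 y.2.2 _⟩

theorem par_law {x x' y y' : σ → R} (hx : Uni x) (hx' : Zr B.I x) (hy : Uni y) (hy' : Zr B.I y)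
    (h : Par x x') (h' : Par y y') (a b : Fin B.nl) :
    Par (ev2 (B.A a) x y) (ev2 (B.A b) x' y') := by
  obtain ⟨c, rfl⟩ := h.exists_smul hx
  obtain ⟨c', rfl⟩ := h'.exists_smul hy
  rw [B.ev2_smul]
  intro i j
  have := B.compat R x y hx' hy' a b i j
  simp only [Pi.smul_apply, smul_eq_mul]
  linear_combination (c ^ B.β * c' ^ B.β) * this

noncomputable instance : Add (B.Pt R) :=
  ⟨Quotient.map₂ addV fun x _ h y _ h' => par_law x.2.1 x.2.2 y.2.1 y.2.2 h h' _ _⟩

instance : Zero (B.Pt R) := ⟨B.pt _ o_uni o_zr⟩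

instance : Neg (B.Pt R) :=
  ⟨Quotient.map (fun x => ⟨x.1 ∘ B.π, by
      obtain ⟨k, hk⟩ := x.2.1
      exact ⟨B.π.symm k, by simpa using hk⟩, B.neg_mem R _ x.2.2⟩)
    fun _ _ h i j => h (B.π i) (B.π j)⟩

theorem rep_zero : B.Rep (0 : B.Pt R) (fun i => algebraMap L R (B.o i)) := rep_pt _ _ _

theorem Rep.neg {p : B.Pt R} {x : σ → R} (h : B.Rep p x) : B.Rep (-p) (x ∘ B.π) := by
  obtain ⟨⟨k, hk⟩, hz, rfl⟩ := h
  exact ⟨⟨B.π.symm k, by simpa using hk⟩, B.neg_mem R _ hz, rfl⟩

theorem Rep.add {p q : B.Pt R} {x y : σ → R} (h : B.Rep p x) (h' : B.Rep q y) {a : Fin B.nl}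
    (ha : Uni (ev2 (B.A a) x y)) : B.Rep (p + q) (ev2 (B.A a) x y) := by
  obtain ⟨hu, hz, rfl⟩ := h
  obtain ⟨hu', hz', rfl⟩ := h'
  exact ⟨ha, B.add_mem R _ _ hz hz' a, Quotient.sound (B.compat R x y hz hz' _ _)⟩

theorem Rep.exists_add {p q : B.Pt R} {x y : σ → R} (h : B.Rep p x) (h' : B.Rep q y) :
    ∃ a, B.Rep (p + q) (ev2 (B.A a) x y) := by
  obtain ⟨a, ha⟩ := exists_law h.uni h.zr h'.uni h'.zr
  exact ⟨a, h.add h' ha⟩

/-- every law gives a multiple of the coordinates of the sum -/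
theorem Rep.law_eq_smul {p q : B.Pt R} {x y w : σ → R} (h : B.Rep p x) (h' : B.Rep q y)
    (hw : B.Rep (p + q) w) (a : Fin B.nl) : ∃ c : R, ev2 (B.A a) x y = c • w := by
  obtain ⟨b, hb⟩ := h.exists_add h'
  exact (((hw.par hb).trans hb.uni (B.compat R x y h.zr h'.zr b a))).exists_smul hw.uni

noncomputable instance : AddCommGroup (B.Pt R) :=
  { AddGroup.ofLeftAxioms
      (fun p q r => by
        obtain ⟨x, hx⟩ := exists_rep p
        obtain ⟨y, hy⟩ := exists_rep q
        obtain ⟨z, hz⟩ := exists_rep r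
        obtain ⟨b, hb⟩ := hx.exists_add hy
        obtain ⟨a, ha⟩ := hb.exists_add hz
        obtain ⟨d, hd⟩ := hy.exists_add hz
        obtain ⟨c, hc⟩ := hx.exists_add hd
        exact ha.eq hc (B.assoc R x y z hx.zr hy.zr hz.zr a b c d))
      (fun p => by
        obtain ⟨x, hx⟩ := exists_rep p
        obtain ⟨a, ha⟩ := rep_zero.exists_add hx
        exact ha.eq hx (B.zero R x hx.zr a))
      (fun p => by
        obtain ⟨x, hx⟩ := exists_rep p
        obtain ⟨a, ha⟩ := hx.neg.exists_add hx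
        exact ha.eq rep_zero (B.neg R x hx.zr a)) with
    add_comm := fun p q => by
      obtain ⟨x, hx⟩ := exists_rep p
      obtain ⟨y, hy⟩ := exists_rep q
      obtain ⟨a, ha⟩ := hx.exists_add hy
      obtain ⟨b, hb⟩ := hy.exists_add hx
      exact ha.eq hb (B.comm R x y hx.zr hy.zr a b) }

variable {R' : Type} [CommRing R'] [Algebra L R'] [IsLocalRing R']

/-- the map on points given by an algebra map, as a function -/
def mapFun (f : R →ₐ[L] R') : B.Pt R → B.Pt R' :=
  Quotient.map (fun x => ⟨fun i => f (x.1 i), x.2.1.map f, x.2.2.map f⟩) fun _ _ h => Par.map f h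

theorem Rep.mapFun (f : R →ₐ[L] R') {p : B.Pt R} {x : σ → R} (h : B.Rep p x) :
    B.Rep (Pkg.mapFun f p) (fun i => f (x i)) := by
  obtain ⟨hu, hz, rfl⟩ := h
  exact ⟨hu.map f, hz.map f, rfl⟩

variable (B) in
/-- the homomorphism on points given by an algebra map -/
noncomputable def map (f : R →ₐ[L] R') : B.Pt R →+ B.Pt R' :=
  AddMonoidHom.mk' (mapFun f) fun p q => by
    obtain ⟨x, hx⟩ := exists_rep p
    obtain ⟨y, hy⟩ := exists_rep q
    obtain ⟨a, ha⟩ := hx.exists_add hy
    have h1 := ha.mapFun f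
    rw [← ev2_map] at h1
    exact h1.eq ((hx.mapFun f).add (hy.mapFun f) h1.uni) (Par.refl _)

theorem Rep.map (f : R →ₐ[L] R') {p : B.Pt R} {x : σ → R} (h : B.Rep p x) :
    B.Rep (B.map f p) (fun i => f (x i)) := h.mapFun f

theorem map_map {R'' : Type} [CommRing R''] [Algebra L R''] [IsLocalRing R''] (f : R →ₐ[L] R')
    (f' : R' →ₐ[L] R'') (p : B.Pt R) : B.map f' (B.map f p) = B.map (f'.comp f) p := by
  obtain ⟨x, hx⟩ := exists_rep p
  exact ((hx.map f).map f').eq (hx.map (f'.comp f)) (Par.refl _)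

theorem map_id' (p : B.Pt R) : B.map (AlgHom.id L R) p = p := by
  obtain ⟨x, hx⟩ := exists_rep p
  exact (hx.map _).eq hx (Par.refl _)

theorem map_injective (f : R →ₐ[L] R') (hf : Function.Injective f) :
    Function.Injective (B.map f) := by
  intro p q h
  obtain ⟨x, hx⟩ := exists_rep p
  obtain ⟨y, hy⟩ := exists_rep q
  have h1 := (hx.map f).par (h ▸ hy.map f)
  exact hx.eq hy fun i j => hf (by simpa only [map_mul] using h1 i j)

end Pkg

section bc

variable {L σ : Type} [Field L] {L' : Type} [Field L'] [Algebra L L'] {R : Type} [CommRing R]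
  [Algebra L R] [Algebra L' R] [IsScalarTower L L' R]

theorem aeval_map_tower {τ : Type} (x : τ → R) (F : MvPolynomial τ L) :
    aeval x (MvPolynomial.map (algebraMap L L') F) = aeval x F := aeval_map_algebraMap L' x F

theorem zr_ext {I : Ideal (MvPolynomial σ L)} {x : σ → R} : Zr (ext I L') x ↔ Zr I x := by
  constructor
  · intro h F hF
    rw [← aeval_map_tower (L' := L')]
    exact h _ (Ideal.mem_map_of_mem _ hF)
  · intro h F hF
    have : ext I L' ≤ RingHom.ker (aeval x : MvPolynomial σ L' →ₐ[L'] R) := by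
      unfold ext
      rw [Ideal.map_le_iff_le_comap]
      intro G hG
      rw [Ideal.mem_comap, RingHom.mem_ker, aeval_map_tower]
      exact h G hG
    exact this hF

theorem ev2_ext (A : σ → MvPolynomial (σ ⊕ σ) L) (x y : σ → R) :
    ev2 (fun i => MvPolynomial.map (algebraMap L L') (A i)) x y = ev2 A x y :=
  funext fun _ => aeval_map_tower _ _

theorem ext_ext (I : Ideal (MvPolynomial σ L)) (Ω : Type) [Field Ω] [Algebra L Ω] [Algebra L' Ω]
    [IsScalarTower L L' Ω] : ext (ext I L') Ω = ext I Ω := by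
  unfold ext
  rw [Ideal.map_map]
  congr 1
  refine RingHom.ext fun F => ?_
  rw [RingHom.comp_apply, MvPolynomial.map_map, ← IsScalarTower.algebraMap_eq]

attribute [local instance] MvPolynomial.gradedAlgebra

theorem isHom_iff {I : Ideal (MvPolynomial σ L)} :
    IsHom I ↔ I.IsHomogeneous (homogeneousSubmodule σ L) := by
  have key : ∀ (F : MvPolynomial σ L) (n : ℕ),
      (DirectSum.decompose (homogeneousSubmodule σ L) F n : MvPolynomial σ L) =
        homogeneousComponent n F := fun F n => MvPolynomial.decomposition.decompose'_apply F n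
  constructor
  · intro h n F hF
    rw [key]
    exact h F hF n
  · intro h F hF n
    rw [← key]
    exact h n hF

theorem IsHom.ext {I : Ideal (MvPolynomial σ L)} (hI : IsHom I) : IsHom (ext I L') := by
  have h1 : D4C.ext I L' = Ideal.span ((MvPolynomial.map (algebraMap L L')) ''
      {F | F ∈ I ∧ ∃ n, F.IsHomogeneous n}) := by
    apply le_antisymm
    · unfold D4C.ext
      rw [Ideal.map_le_iff_le_comap]
      intro F hF
      rw [Ideal.mem_comap, ← sum_homogeneousComponent F, map_sum]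
      exact Ideal.sum_mem _ fun n _ => Ideal.subset_span
        ⟨_, ⟨hI F hF n, n, homogeneousComponent_isHomogeneous n F⟩, rfl⟩
    · rw [Ideal.span_le]
      rintro _ ⟨F, hF, rfl⟩
      exact Ideal.mem_map_of_mem _ hF.1
  rw [isHom_iff, h1]
  apply Ideal.homogeneous_span
  rintro _ ⟨F, ⟨_, n, hn⟩, rfl⟩
  exact ⟨n, hn.map _⟩

end bc

namespace Pkg

variable {L : Type} [Field L] {σ : Type} [Fintype σ] [DecidableEq σ] (B : Pkg L σ)

/-- base change -/
noncomputable def bc (L' : Type) [Field L'] [Algebra L L'] : Pkg L' σ where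
  I := ext B.I L'
  hom := B.hom.ext
  gprime := fun Ω _ _ => by
    let _ : Algebra L Ω := ((algebraMap L' Ω).comp (algebraMap L L')).toAlgebra
    have : IsScalarTower L L' Ω := IsScalarTower.of_algebraMap_eq' rfl
    rw [ext_ext]
    exact B.gprime Ω
  o := fun i => algebraMap L L' (B.o i)
  o_ne := uni_iff_ne_zero.mp B.o_uni
  o_mem := zr_ext.mpr B.o_zr
  π := B.π
  nl := B.nl
  β := B.β
  β_pos := B.β_pos
  A := fun a i => MvPolynomial.map (algebraMap L L') (B.A a i)
  A_hom := fun a i d hd => B.A_hom a i fun h => hd (by rw [coeff_map, h, map_zero])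
  complete := fun Ω _ _ x y hx hy hx0 hy0 => by
    let _ : Algebra L Ω := ((algebraMap L' Ω).comp (algebraMap L L')).toAlgebra
    have : IsScalarTower L L' Ω := IsScalarTower.of_algebraMap_eq' rfl
    simp only [ev2_ext]
    exact B.complete Ω x y (zr_ext.mp hx) (zr_ext.mp hy) hx0 hy0
  neg_mem := fun R _ _ x hx => by
    let _ : Algebra L R := ((algebraMap L' R).comp (algebraMap L L')).toAlgebra
    have : IsScalarTower L L' R := IsScalarTower.of_algebraMap_eq' rfl
    exact zr_ext.mpr (B.neg_mem R x (zr_ext.mp hx))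
  add_mem := fun R _ _ x y hx hy a => by
    let _ : Algebra L R := ((algebraMap L' R).comp (algebraMap L L')).toAlgebra
    have : IsScalarTower L L' R := IsScalarTower.of_algebraMap_eq' rfl
    rw [ev2_ext]
    exact zr_ext.mpr (B.add_mem R x y (zr_ext.mp hx) (zr_ext.mp hy) a)
  compat := fun R _ _ x y hx hy a b => by
    let _ : Algebra L R := ((algebraMap L' R).comp (algebraMap L L')).toAlgebra
    have : IsScalarTower L L' R := IsScalarTower.of_algebraMap_eq' rfl
    simp only [ev2_ext]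
    exact B.compat R x y (zr_ext.mp hx) (zr_ext.mp hy) a b
  comm := fun R _ _ x y hx hy a b => by
    let _ : Algebra L R := ((algebraMap L' R).comp (algebraMap L L')).toAlgebra
    have : IsScalarTower L L' R := IsScalarTower.of_algebraMap_eq' rfl
    simp only [ev2_ext]
    exact B.comm R x y (zr_ext.mp hx) (zr_ext.mp hy) a b
  assoc := fun R _ _ x y z hx hy hz a b c d => by
    let _ : Algebra L R := ((algebraMap L' R).comp (algebraMap L L')).toAlgebra
    have : IsScalarTower L L' R := IsScalarTower.of_algebraMap_eq' rfl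
    simp only [ev2_ext]
    exact B.assoc R x y z (zr_ext.mp hx) (zr_ext.mp hy) (zr_ext.mp hz) a b c d
  zero := fun R _ _ x hx a => by
    let _ : Algebra L R := ((algebraMap L' R).comp (algebraMap L L')).toAlgebra
    have : IsScalarTower L L' R := IsScalarTower.of_algebraMap_eq' rfl
    rw [ev2_ext]
    exact B.zero R x (zr_ext.mp hx) a
  neg := fun R _ _ x hx a => by
    let _ : Algebra L R := ((algebraMap L' R).comp (algebraMap L L')).toAlgebra
    have : IsScalarTower L L' R := IsScalarTower.of_algebraMap_eq' rfl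
    rw [ev2_ext]
    exact B.neg R x (zr_ext.mp hx) a

/-- `J` is the ideal of an abelian subvariety -/
structure IsSub (J : Ideal (MvPolynomial σ L)) : Prop where
  le : B.I ≤ J
  hom : IsHom J
  gprime : ∀ (Ω : Type) [Field Ω] [Algebra L Ω], (ext J Ω).IsPrime
  o_mem : Zr J B.o
  neg_mem : ∀ (R : Type) [CommRing R] [Algebra L R] (x : σ → R), Zr J x → Zr J (x ∘ B.π)
  add_mem : ∀ (R : Type) [CommRing R] [Algebra L R] (x y : σ → R), Zr J x → Zr J y →
    ∀ a, Zr J (ev2 (B.A a) x y)

theorem IsSub.zr {B : Pkg L σ} {J : Ideal (MvPolynomial σ L)} (h : B.IsSub J) {R : Type}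
    [CommRing R] [Algebra L R] {x : σ → R} (hx : Zr J x) : Zr B.I x := fun F hF => hx F (h.le hF)

/-- the package of an abelian subvariety -/
def sub (J : Ideal (MvPolynomial σ L)) (h : B.IsSub J) : Pkg L σ where
  I := J
  hom := h.hom
  gprime := h.gprime
  o := B.o
  o_ne := B.o_ne
  o_mem := h.o_mem
  π := B.π
  nl := B.nl
  β := B.β
  β_pos := B.β_pos
  A := B.A
  A_hom := B.A_hom
  complete := fun Ω _ _ x y hx hy => B.complete Ω x y (h.zr hx) (h.zr hy)
  neg_mem := h.neg_mem
  add_mem := h.add_mem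
  compat := fun R _ _ x y hx hy => B.compat R x y (h.zr hx) (h.zr hy)
  comm := fun R _ _ x y hx hy => B.comm R x y (h.zr hx) (h.zr hy)
  assoc := fun R _ _ x y z hx hy hz => B.assoc R x y z (h.zr hx) (h.zr hy) (h.zr hz)
  zero := fun R _ _ x hx => B.zero R x (h.zr hx)
  neg := fun R _ _ x hx => B.neg R x (h.zr hx)

variable {R : Type} [CommRing R] [Algebra L R] [IsLocalRing R]

/-- transfer of points between two packages, given that coordinates and laws agree -/
noncomputable def transfer {L' : Type} [Field L'] [Algebra L' R] (B' : Pkg L' σ)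
    (hz : ∀ x : σ → R, Zr B.I x → Zr B'.I x)
    (hA : ∀ (a : Fin B.nl) (x y : σ → R), ∃ a', ev2 (B.A a) x y = ev2 (B'.A a') x y) :
    B.Pt R →+ B'.Pt R :=
  AddMonoidHom.mk' (Quotient.map (fun x => ⟨x.1, x.2.1, hz _ x.2.2⟩) fun _ _ h => h) fun p q => by
    have key : ∀ (p : B.Pt R) x, B.Rep p x → B'.Rep (Quotient.map (sa := B.rel R) (sb := B'.rel R)
        (fun x => ⟨x.1, x.2.1, hz _ x.2.2⟩) (fun _ _ h => h) p) x := by
      rintro p x ⟨hu, hx, rfl⟩
      exact ⟨hu, hz _ hx, rfl⟩
    obtain ⟨x, hx⟩ := exists_rep p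
    obtain ⟨y, hy⟩ := exists_rep q
    obtain ⟨a, ha⟩ := hx.exists_add hy
    obtain ⟨a', ha'⟩ := hA a x y
    rw [ha'] at ha
    exact (key _ _ ha).eq ((key _ _ hx).add (key _ _ hy) ha.uni) (Par.refl _)

theorem Rep.transfer {B : Pkg L σ} {L' : Type} [Field L'] [Algebra L' R] {B' : Pkg L' σ} {hz hA}
    {p : B.Pt R} {x : σ → R} (h : B.Rep p x) : B'.Rep (B.transfer B' hz hA p) x := by
  obtain ⟨hu, hx, rfl⟩ := h
  exact ⟨hu, hz _ hx, rfl⟩

theorem transfer_injective {L' : Type} [Field L'] [Algebra L' R] (B' : Pkg L' σ) (hz hA) :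
    Function.Injective (B.transfer (R := R) B' hz hA) := by
  intro p q h
  obtain ⟨x, hx⟩ := exists_rep p
  obtain ⟨y, hy⟩ := exists_rep q
  exact hx.eq hy ((hx.transfer (hz := hz) (hA := hA)).par (h ▸ hy.transfer))

/-- inclusion of the points of an abelian subvariety -/
noncomputable def incl (J : Ideal (MvPolynomial σ L)) (h : B.IsSub J) :
    (B.sub J h).Pt R →+ B.Pt R :=
  (B.sub J h).transfer B (fun _ hx => h.zr hx) fun a _ _ => ⟨a, rfl⟩

/-- points of `B` as points of the base change -/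
noncomputable def toBc (L' : Type) [Field L'] [Algebra L L'] [Algebra L' R]
    [IsScalarTower L L' R] : B.Pt R →+ (B.bc L').Pt R :=
  B.transfer (B.bc L') (fun _ hx => zr_ext.mpr hx) fun a x y => ⟨a, (ev2_ext _ x y).symm⟩

/-- points of the base change as points of `B` -/
noncomputable def ofBc (L' : Type) [Field L'] [Algebra L L'] [Algebra L' R]
    [IsScalarTower L L' R] : (B.bc L').Pt R →+ B.Pt R :=
  (B.bc L').transfer B (fun _ hx => zr_ext.mp hx) fun a x y => ⟨a, ev2_ext _ x y⟩

/-- dimension -/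
def IsDim (g : ℕ) : Prop := Algebra.trdeg L (MvPolynomial σ L ⧸ B.I) = (g + 1 : ℕ)

/-- height of a rational point, relative to `L` -/
noncomputable def ht [Height.AdmissibleAbsValues L] (p : B.Pt L) : ℝ :=
  Height.logHeight (exists_rep p).choose

theorem Rep.ht [Height.AdmissibleAbsValues L] {B : Pkg L σ} {p : B.Pt L} {x : σ → L}
    (h : B.Rep p x) : B.ht p = Height.logHeight x := by
  have h0 := (exists_rep p).choose_spec
  obtain ⟨c, hc⟩ := (h0.par h).exists_smul h0.uni
  have hu := h.uni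
  rw [hc] at hu
  unfold Pkg.ht
  conv_rhs => rw [hc]
  rw [Height.logHeight_smul_eq_logHeight _ hu.isUnit_of_smul.ne_zero]

end Pkg

end D4C
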