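import Pool.Agent.Lib.helper22.Val
import Pool.Agent.Lib.D4C.Defs

/-! Valuation and Kummer tools for the weak Mordell-Weil theorem. -/

namespace D4C

namespace T39

open MvPolynomial NumberField IsDedekindDomain

section val

variable {K Γ : Type} [Field K] [LinearOrderedCommGroupWithZero Γ] (v : Valuation K Γ)

/-- pairs of congruent integral elements -/
def cg : Subring (K × K) where
  carrier := {z | v z.1 ≤ 1 ∧ v (z.1 - z.2) < 1}
  zero_mem' := by simp
  one_mem' := by simp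
  add_mem' := fun {a b} ha hb => ⟨v.map_add_le ha.1 hb.1, by
    rw [Prod.fst_add, Prod.snd_add, add_sub_add_comm]; exact v.map_add_lt ha.2 hb.2⟩
  neg_mem' := fun {a} ha => ⟨by simpa using ha.1, by
    rw [Prod.fst_neg, Prod.snd_neg, neg_sub_neg, v.map_sub_swap]; exact ha.2⟩
  mul_mem' := fun {a b} ha hb => ⟨by rw [Prod.fst_mul, map_mul]; exact mul_le_one' ha.1 hb.1, by
    have h : v b.2 ≤ 1 := by
      rw [← sub_sub_cancel b.1 b.2]; exact v.map_sub_le hb.1 hb.2.le
    rw [Prod.fst_mul, Prod.snd_mul,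
      show a.1 * b.1 - a.2 * b.2 = a.1 * (b.1 - b.2) + (a.1 - a.2) * b.2 by ring]
    refine v.map_add_lt ?_ ?_ <;> rw [map_mul]
    · exact (mul_le_of_le_one_left' ha.1).trans_lt hb.2
    · exact (mul_le_of_le_one_right' h).trans_lt ha.2⟩

variable {v}

theorem cg_self {a : K} (h : v a ≤ 1) : (a, a) ∈ cg v := ⟨h, by simp⟩

theorem cg_one {a b : K} (h : (a, b) ∈ cg v) (ha : v a = 1) : v b = 1 := by
  rw [← sub_sub_cancel a b, v.map_sub_eq_of_lt_left (ha ▸ h.2), ha]

theorem cg_aeval {L τ : Type} [Field L] [Algebra L K] {F : MvPolynomial τ L}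
    (hF : ∀ d, v (algebraMap L K (coeff d F)) ≤ 1) {x y : τ → K} (h : ∀ k, (x k, y k) ∈ cg v) :
    (aeval x F, aeval y F) ∈ cg v := by
  have h1 : aeval (fun k => (x k, y k)) F = (aeval x F, aeval y F) := Prod.ext
    (aeval_map_alg (AlgHom.fst L K K) (fun k => (x k, y k)) F).symm
    (aeval_map_alg (AlgHom.snd L K K) (fun k => (x k, y k)) F).symm
  rw [← h1, aeval_def]
  exact eval₂_mem (fun d _ => cg_self (hF d)) h

theorem v_int {b : K} (h : IsIntegral ℤ b) : v b ≤ 1 :=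
  (Valuation.integer.integers v).mem_of_integral h.tower_top

/-- Two embeddings which are congruent on the integers are congruent on the valuation ring. -/
theorem cg_emb {M : Type} [Field M] [NumberField M] (f g : M →+* K)
    (h : ∀ b : 𝓞 M, v (f b - g b) < 1) (z : M) (hz : v (f z) ≤ 1) : (f z, g z) ∈ cg v := by
  have h0 : ∀ b : 𝓞 M, v (f b) ≤ 1 := fun b => v_int (b.isIntegral_coe.map_of_comp_eq
    (RingHom.id ℤ) f (RingHom.ext_int _ _))
  have h1 : ∃ n d : 𝓞 M, z * d = n ∧ v (f d) = 1 := by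
    let q : Ideal (𝓞 M) :=
      { carrier := {b | v (f b) < 1}
        add_mem' := fun ha hb => by
          simp only [Set.mem_ofPred_eq, map_add]; exact v.map_add_lt ha hb
        zero_mem' := by simp
        smul_mem' := fun c b hb => by
          simp only [Set.mem_ofPred_eq, smul_eq_mul, map_mul]
          exact (mul_le_of_le_one_left' (h0 c)).trans_lt hb }
    have hq : ∀ b : 𝓞 M, b ∉ q → v (f b) = 1 := fun b hb => (h0 b).antisymm (not_lt.mp hb)
    by_cases hb : q = ⊥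
    · obtain ⟨n, d, hd, rfl⟩ := IsFractionRing.div_surjective (A := 𝓞 M) z
      have hd0 := nonZeroDivisors.ne_zero hd
      exact ⟨n, d, div_mul_cancel₀ _ (by simpa using hd0), hq d (by rwa [hb])⟩
    have hp : q.IsPrime := ⟨(Ideal.ne_top_iff_one q).mpr (show ¬ v (f (1 : 𝓞 M)) < 1 by simp),
      fun {a b} hab => by
        by_contra hn
        rw [not_or] at hn
        have : v (f (a * b : 𝓞 M)) < 1 := hab
        simp only [map_mul] at this
        rw [hq a hn.1, hq b hn.2, one_mul] at this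
        exact this.ne rfl⟩
    obtain ⟨n, d, h2 | h2⟩ :=
      (⟨q, hp, hb⟩ : HeightOneSpectrum (𝓞 M)).exists_primeCompl_mul_eq_or_mul_eq z
    · exact ⟨n, d, h2, hq _ d.2⟩
    · refine ⟨d, n, h2, ?_⟩
      have h3 := congrArg (fun t => v (f t)) h2
      simp only [map_mul] at h3
      exact eq_one_of_one_le_mul_right hz (h0 n) (h3.trans (hq _ d.2)).ge
  obtain ⟨n, d, h2, h3⟩ := h1
  have h4 := cg_one ⟨h0 d, h d⟩ h3
  refine ⟨hz, ?_⟩
  have h5 : (f z - g z) * g d = f z * (g d - f d) + (f n - g n) := by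
    rw [← h2, map_mul, map_mul]; ring
  rw [show v (f z - g z) = v ((f z - g z) * g d) by rw [map_mul, h4, mul_one], h5]
  refine v.map_add_lt ?_ (h n)
  rw [map_mul, v.map_sub_swap]
  exact (mul_le_of_le_one_left' hz).trans_lt (h d)

end val

/-- Independence of characters modulo a prime. -/
theorem exists_unit {K M E : Type} [Field K] [Field M] [NumberField M] [Fintype E] [Nonempty E]
    (O : ValuationSubring K) (f : E → M →+* K) (ε : E → ℤ) (hε : ∀ e, ε e = 1 ∨ ε e = -1)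
    (h : ∀ e e', (∀ b : 𝓞 M, O.valuation (f e b - f e' b) < 1) → e = e') :
    ∃ b : M, O.valuation (∑ e, ε e * f e b) = 1 := by
  have h0 : ∀ e (b : 𝓞 M), f e b ∈ O := fun e b => (O.valuation_le_one_iff _).mp
    (v_int (b.isIntegral_coe.map_of_comp_eq (RingHom.id ℤ) (f e) (RingHom.ext_int _ _)))
  let φ : E → 𝓞 M →+* O := fun e => ((f e).comp (algebraMap (𝓞 M) M)).codRestrict O (h0 e)
  let ψ : E → 𝓞 M →* IsLocalRing.ResidueField O := fun e => (IsLocalRing.residue O).comp (φ e)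
  have h1 : Function.Injective ψ := fun e e' he => h e e' fun b => by
    have h2 : IsLocalRing.residue O (φ e b - φ e' b) = 0 := by
      rw [map_sub, sub_eq_zero]; exact DFunLike.congr_fun he b
    exact (O.valuation_lt_one_iff _).mp ((IsLocalRing.residue_eq_zero_iff _).mp h2)
  have h2 := Fintype.linearIndependent_iff.mp
    ((linearIndependent_monoidHom (𝓞 M) (IsLocalRing.ResidueField O)).comp ψ h1) fun e => ε e
  by_contra hn
  obtain ⟨e⟩ := ‹Nonempty E›
  have h3 := h2 (funext fun b => ?_) e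
  · rcases hε e with h4 | h4 <;> simp [h4] at h3
  have h4 : ((∑ e, ε e * φ e b : O) : K) = ∑ e, ε e * f e b := by
    push_cast
    rfl
  have h5 := (O.valuation_lt_one_or_eq_one (∑ e, ε e * φ e b)).resolve_right
    fun h => hn ⟨b, h4 ▸ h⟩
  have h6 := (IsLocalRing.residue_eq_zero_iff _).mpr ((O.valuation_lt_one_iff _).mpr h5)
  simpa [ψ] using h6

variable {L K : Type} [Field L] [NumberField L] [Field K] [Algebra L K]

/-- a valuation ring above a prime -/
theorem exists_above (p : HeightOneSpectrum (𝓞 L)) : ∃ O : ValuationSubring K,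
    ∀ a : L, O.valuation (algebraMap L K a) = 1 ↔ p.valuation L a = 1 := by
  obtain ⟨O, h, hl⟩ := IsLocalRing.exists_factor_valuationRing
    ((algebraMap L K).comp (p.valuation L).valuationSubring.subtype)
  have h1 : ∀ a : L, p.valuation L a ≤ 1 → O.valuation (algebraMap L K a) ≤ 1 := fun a ha =>
    (O.valuation_le_one_iff _).mpr (h ⟨a, ha⟩)
  have h2 : ∀ a : L, p.valuation L a < 1 → O.valuation (algebraMap L K a) ≠ 1 := fun a ha hn => by
    have := hl.map_nonunit ⟨a, ha.le⟩ ((O.valuation_eq_one_iff ⟨_, h ⟨a, ha.le⟩⟩).mpr hn)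
    exact ha.ne ((Valuation.valuationSubring.integers _).one_of_isUnit this)
  refine ⟨O, fun a => ⟨fun ha => ?_, fun ha => (h1 a ha.le).antisymm ?_⟩⟩
  · rcases lt_trichotomy (p.valuation L a) 1 with h3 | h3 | h3
    · exact absurd ha (h2 a h3)
    · exact h3
    · exact absurd (by simp [ha]) (h2 a⁻¹ (by rw [map_inv₀]; exact inv_lt_one_of_one_lt₀ h3))
  · have h3 := h1 a⁻¹ (by simp [ha])
    have h4 : a ≠ 0 := fun h => by simp [h] at ha
    rwa [map_inv₀, map_inv₀, inv_le_one₀ (by simpa [zero_lt_iff] using h4)] at h3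

theorem finite_bad {A : Set L} (hA : A.Finite) :
    {p : HeightOneSpectrum (𝓞 L) | ∃ a ∈ A, a ≠ 0 ∧ p.valuation L a ≠ 1}.Finite := by
  refine (hA.biUnion fun a _ => (HeightOneSpectrum.Support.finite (𝓞 L) a).union
    (HeightOneSpectrum.Support.finite (𝓞 L) a⁻¹)).subset ?_
  rintro p ⟨a, ha, h0, h1⟩
  refine Set.mem_biUnion ha ?_
  rcases lt_or_gt_of_ne h1 with h | h
  · refine Or.inr (show 1 < p.valuation L a⁻¹ from ?_)
    rw [map_inv₀]
    exact (one_lt_inv₀ (by simpa [zero_lt_iff] using h0)).mpr h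
  · exact Or.inl h

/-- Kummer theory: finitely many quadratic characters are unramified outside a finite set. -/
theorem kummer [IsGalois L K] {A : Set L} (hA : A.Finite) : ∃ R : Set K, R.Finite ∧
    ∀ ε : (K ≃ₐ[L] K) → ℤ, (∀ ρ, ε ρ = 1 ∨ ε ρ = -1) →
      (∀ O : ValuationSubring K, (∀ a ∈ A, a ≠ 0 → O.valuation (algebraMap L K a) = 1) →
        ∃ c : K, O.valuation c = 1 ∧ ∀ ρ, ρ c = ε ρ * c) →
      ∃ s ∈ R, s ≠ 0 ∧ ∀ ρ, ρ s = ε ρ * s := by
  obtain ⟨R, hR, h1⟩ := Pool.Agent.Lib.helper22.Val.selmer_finite _ (finite_bad hA) two_pos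
  refine ⟨⋃ r ∈ R, {s | s ^ 2 = algebraMap L K r}, hR.biUnion fun r _ => ?_, fun ε hε h => ?_⟩
  · refine (Polynomial.nthRoots 2 (algebraMap L K r)).finite_toSet.subset fun s hs => ?_
    exact (Polynomial.mem_nthRoots two_pos).mpr hs
  have h2 : ∀ c c' : K, (∀ ρ : K ≃ₐ[L] K, ρ c = ε ρ * c) → (∀ ρ : K ≃ₐ[L] K, ρ c' = ε ρ * c') →
      ∃ a, algebraMap L K a = c * c' := fun c c' hc hc' =>
    (InfiniteGalois.mem_range_algebraMap_iff_fixed _).mpr fun ρ => by
      rw [map_mul, hc, hc']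
      rcases hε ρ with h | h <;> simp [h]
  have h3 : ∀ a : K, a ≠ 0 → (⊤ : ValuationSubring K).valuation a = 1 := fun a ha =>
    ((⊤ : ValuationSubring K).valuation_eq_one_iff ⟨a, trivial⟩).mp
      (IsUnit.of_mul_eq_one ⟨a⁻¹, trivial⟩ (Subtype.ext (mul_inv_cancel₀ ha)))
  obtain ⟨c, hc, hc'⟩ := h ⊤ fun a _ ha => h3 _ (by simpa using ha)
  have hc0 : c ≠ 0 := fun h => by simp [h] at hc
  obtain ⟨a, ha⟩ := h2 c c hc' hc'
  have ha0 : a ≠ 0 := fun h => mul_ne_zero hc0 hc0 (by rw [← ha, h, map_zero])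
  obtain ⟨r, hr, b, hb⟩ := h1 a ha0 fun p hp => by
    obtain ⟨O, hO⟩ := exists_above (K := K) p
    obtain ⟨d, hd, hd'⟩ := h O fun a ha h0 => (hO a).mpr (by_contra fun hn => hp ⟨a, ha, h0, hn⟩)
    obtain ⟨u, hu⟩ := h2 d d hd' hd'
    obtain ⟨w, hw⟩ := h2 c d hc' hd'
    have h4 := (hO u).mp (by rw [hu, map_mul, hd, one_mul])
    have h5 : a * u = w ^ 2 := (algebraMap L K).injective (by
      rw [map_mul, map_pow, ha, hu, hw]; ring)
    have h6 := congrArg (fun t => WithZero.log (p.valuation L t)) h5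
    simp only [map_mul, h4, mul_one, map_pow, WithZero.log_pow] at h6
    exact ⟨_, by rw [h6, nsmul_eq_mul]⟩
  have hb0 : algebraMap L K b ≠ 0 := fun h => ha0 (by
    rw [hb, (map_eq_zero _).mp h]; simp)
  refine ⟨c / algebraMap L K b, Set.mem_biUnion hr ?_, div_ne_zero hc0 hb0, fun ρ => ?_⟩
  · rw [Set.mem_ofPred_eq, div_pow, sq c, ← ha, hb, map_mul, map_pow,
      mul_div_cancel_right₀ _ (pow_ne_zero _ hb0)]
  · rw [map_div₀, hc', AlgEquiv.commutes, mul_div_assoc]

/-- signs on the elements of order two -/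
theorem exists_sign {G : Type} [AddCommGroup G] (t : G) : ∃ χ : G → ℤ,
    (∀ s, χ s = 1 ∨ χ s = -1) ∧ (∀ r s, 2 • r = 0 → 2 • s = 0 → χ (r + s) = χ r * χ s) ∧
      (2 • t = 0 → t ≠ 0 → χ t = -1) := by
  classical
  by_cases ht : 2 • t = 0 ∧ t ≠ 0
  swap
  · exact ⟨fun _ => 1, fun _ => Or.inl rfl, fun _ _ _ _ => rfl, fun h h' => absurd ⟨h, h'⟩ ht⟩
  let T : AddSubgroup G := (nsmulAddMonoidHom 2).ker
  let _ : Module (ZMod 2) T := AddCommGroup.zmodModule fun x => Subtype.ext x.2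
  obtain ⟨φ, hφ⟩ : ∃ φ : Module.Dual (ZMod 2) T, φ ⟨t, ht.1⟩ ≠ 0 := by
    by_contra hn
    exact ht.2 (congrArg Subtype.val ((Module.forall_dual_apply_eq_zero_iff (ZMod 2)
      (⟨t, ht.1⟩ : T)).mp (by simpa using hn)))
  have h1 : ∀ x y : ZMod 2, (if x + y = 0 then 1 else -1 : ℤ) =
      (if x = 0 then 1 else -1) * if y = 0 then 1 else -1 := by decide
  refine ⟨fun s => if h : s ∈ T then (if φ ⟨s, h⟩ = 0 then 1 else -1) else 1, fun s => ?_,
    fun r s (hr : r ∈ T) (hs : s ∈ T) => ?_, fun (h : t ∈ T) _ => ?_⟩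
  · dsimp only
    split_ifs <;> simp
  · simp only [dif_pos hr, dif_pos hs, dif_pos (T.add_mem hr hs)]
    rw [← h1, ← map_add]
    rfl
  · simp only [dif_pos h, if_neg hφ]

end T39

end D4C
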