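import Pool.Agent.Lib.D4C.BlueF
import Pool.Agent.Lib.D4C.T39b

/-! The Mordell-Weil theorem for packages. -/

namespace D4C

open MvPolynomial NumberField

namespace T39

variable {L σ : Type} [Field L] [Fintype σ] [DecidableEq σ] (B : Pkg L σ)

/-- completeness of the laws on the antidiagonal, as an identity -/
theorem cert (K : Type) [Field K] [Algebra L K] (i : σ) :
    ∃ G : Fin B.nl × σ → MvPolynomial σ L, ∀ x : σ → K, Zr B.I x → x i = 1 →
      ∑ s, aeval x (G s) * ev2 (B.A s.1) (x ∘ B.π) x s.2 = 1 := by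
  let b : Ideal (MvPolynomial σ L) :=
    { carrier := {P | ∀ x : σ → K, Zr B.I x → x i = 1 → aeval x P = 0}
      add_mem' := fun h h' x a c => by rw [map_add, h x a c, h' x a c, add_zero]
      zero_mem' := fun _ _ _ => map_zero _
      smul_mem' := fun _ _ h x a c => by rw [smul_eq_mul, map_mul, h x a c, mul_zero] }
  let D : Fin B.nl × σ → MvPolynomial σ L := fun s => ev2 (B.A s.1) (X ∘ B.π) X s.2
  have hD : ∀ {R : Type} [CommRing R] [Algebra L R] (f : MvPolynomial σ L →ₐ[L] R) s,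
      ev2 (B.A s.1) ((fun k => f (X k)) ∘ B.π) (fun k => f (X k)) s.2 = f (D s) :=
    fun f s => congrFun (ev2_map f (B.A s.1) (X ∘ B.π) X) s.2
  have aux : ∀ (Ω : Type) [Field Ω] [Algebra L Ω] (f : MvPolynomial σ L →ₐ[L] Ω),
      (∀ P ∈ b, f P = 0) → ¬ ∀ s, f (D s) = 0 := fun Ω _ _ f hb h0 => by
    have z : Zr B.I fun k => f (X k) := fun F hF => by
      rw [aeval_map_alg, aeval_X_left_apply]
      exact hb _ fun x a _ => a F hF
    have nz : f (X i) = 1 := by
      have := hb (X i - 1) fun x _ c => by simp [c]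
      rwa [map_sub, map_one, sub_eq_zero] at this
    obtain ⟨a, ha⟩ := B.complete _ _ _ (B.neg_mem _ _ z) z
      (fun h => by simpa [nz] using congrFun h (B.π.symm i)) fun h => by
        simpa [nz] using congrFun h i
    exact ha (funext fun l => (hD f (a, l)).trans (h0 _))
  have top : Ideal.span (Set.range D) ⊔ b = ⊤ := by
    by_contra hne
    obtain ⟨m, hm, hle⟩ := Ideal.exists_le_maximal _ hne
    let _ := Ideal.Quotient.field m
    exact aux _ (Ideal.Quotient.mkₐ L m) (fun P h => Ideal.Quotient.eq_zero_iff_mem.2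
      (hle (le_sup_right (b := b) h))) fun s => Ideal.Quotient.eq_zero_iff_mem.2
      (hle (le_sup_left (b := b) (Ideal.subset_span ⟨s, rfl⟩)))
  obtain ⟨s, hs, t, ht, e⟩ := Submodule.mem_sup.1 ((Ideal.eq_top_iff_one _).1 top)
  obtain ⟨G, rfl⟩ := Ideal.mem_span_range_iff_exists_fun.1 hs
  refine ⟨G, fun x a c => ?_⟩
  have := congrArg (aeval x) e
  rw [map_add, ht x a c, add_zero, map_sum, map_one] at this
  simpa only [map_mul, ← hD (aeval x), aeval_X] using this

variable {K : Type} [Field K] [Algebra L K]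

/-- congruent points do not differ by a given nonzero rational point -/
theorem sep_red (T : B.Pt L) : ∃ A : Set L, A.Finite ∧ ∀ O : ValuationSubring K,
    (∀ a ∈ A, a ≠ 0 → O.valuation (algebraMap L K a) = 1) → ∀ (p p' : B.Pt K) (x x' : σ → K) (i : σ),
      B.Rep p x → B.Rep p' x' → x i = 1 → (∀ k, (x k, x' k) ∈ cg O.valuation) →
      p' - p = B.map (Algebra.ofId L K) T → T = 0 := by
  classical
  choose G hG using cert B K
  obtain ⟨t, ht⟩ := Pkg.exists_rep T
  refine ⟨(⋃ i, ⋃ s, ((G i s).coeffs : Set L)) ∪ (⋃ a, ⋃ k, ((B.A a k).coeffs : Set L)) ∪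
    Set.range B.o ∪ Set.range t ∪ Set.range fun ij : σ × σ => t ij.1 * B.o ij.2 - t ij.2 * B.o ij.1,
    Set.toFinite _, fun O hO p p' x x' i hx hx' hi hc hT => ?_⟩
  have h1 : ∀ {τ : Type} (F : MvPolynomial τ L), (∀ a ∈ F.coeffs, a ≠ 0 →
      O.valuation (algebraMap L K a) = 1) → ∀ d, O.valuation (algebraMap L K (coeff d F)) ≤ 1 :=
    fun F hF d => by
      by_cases h : coeff d F = 0
      · simp [h]
      · exact (hF _ (coeff_mem_coeffs d h) h).le
  have h2 : ∀ a k, (ev2 (B.A a) (x ∘ B.π) x k, ev2 (B.A a) (x ∘ B.π) x' k) ∈ cg O.valuation :=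
    fun a k => cg_aeval (h1 _ fun c hc => hO c (by
      simp only [Set.mem_union, Set.mem_iUnion]; exact .inl (.inl (.inl (.inr ⟨a, k, hc⟩)))))
      (by rintro (l | l); exacts [cg_self (hc _).1, hc l])
  obtain ⟨a, k, h3⟩ : ∃ a k, O.valuation (ev2 (B.A a) (x ∘ B.π) x k) = 1 := by
    by_contra hn
    push Not at hn
    have h3 := O.valuation.map_sum_lt (s := Finset.univ) (g := 1) one_ne_zero
      (f := fun s => aeval x (G i s) * ev2 (B.A s.1) (x ∘ B.π) x s.2) fun s _ => by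
        rw [map_mul]
        refine (mul_le_of_le_one_left' (cg_aeval (h1 _ fun c hc => hO c ?_) hc).1).trans_lt
          ((h2 _ _).1.lt_of_ne (hn _ _))
        simp only [Set.mem_union, Set.mem_iUnion]
        exact .inl (.inl (.inl (.inl ⟨i, s, hc⟩)))
    rw [hG i x hx.zr hi, map_one] at h3
    exact h3.ne rfl
  obtain ⟨c, hc1⟩ := hx.neg.law_eq_smul hx (by rw [neg_add_cancel]; exact Pkg.rep_zero) a
  obtain ⟨c', hc2⟩ := hx.neg.law_eq_smul hx'
    (by rw [neg_add_eq_sub, hT]; exact ht.map (Algebra.ofId L K)) a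
  have h4 := cg_one (h2 a k) h3
  replace h2 := h2 a
  simp only [hc1, hc2, Pi.smul_apply, smul_eq_mul, Algebra.ofId_apply] at h2 h3 h4
  have h5 : ∀ (c : K) (y : L), O.valuation (c * algebraMap L K y) = 1 →
      (y ≠ 0 → O.valuation (algebraMap L K y) = 1) → O.valuation c = 1 := fun c y h h' => by
    rwa [map_mul, h' fun h0 => by simp [h0] at h, mul_one] at h
  have h6 := h5 _ _ h3 (hO _ (by simp))
  have h7 := h5 _ _ h4 (hO _ (by simp))
  refine ht.eq Pkg.rep_zero fun i j => sub_eq_zero.mp (by_contra fun hn => ?_)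
  have h8 := hO _ (Or.inr ⟨(i, j), rfl⟩) hn
  have h9 := ((cg _).sub_mem ((cg _).mul_mem (h2 j) (cg_self (h2 i).1)) ((cg _).mul_mem (h2 i)
    (cg_self (h2 j).1))).2
  simp only [Prod.mk_mul_mk, Prod.mk_sub_mk] at h9
  refine h9.ne (Eq.trans (congrArg _ ?_)
    (show O.valuation (c * c' * algebraMap L K (t i * B.o j - t j * B.o i)) = 1 by
      rw [map_mul, map_mul, h6, h7, one_mul, one_mul]; exact h8))
  simp only [map_sub, map_mul]
  ring

variable {B}

theorem descend {M : Type} [Field M] [Algebra L M] (f : M →ₐ[L] K) {p : B.Pt K} {x : σ → K}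
    (hx : B.Rep p x) (h : ∀ i, ∃ y, f y = x i) :
    ∃ (q : B.Pt M) (y : σ → M), B.Rep q y ∧ B.map f q = p ∧ ∀ i, f (y i) = x i := by
  choose y hy using h
  obtain rfl : x = fun i => f (y i) := funext fun i => (hy i).symm
  have hu : Uni y := uni_iff_ne_zero.mpr fun h =>
    uni_iff_ne_zero.mp hx.uni (funext fun i => by simp [h])
  have hz : Zr B.I y := fun F hF => f.injective (by
    rw [map_zero]; exact (aeval_map_alg f y F).symm.trans (hx.zr F hF))
  exact ⟨B.pt y hu hz, y, Pkg.rep_pt _ _ _, ((Pkg.rep_pt y hu hz).map f).eq hx (Par.refl _), hy⟩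

theorem exists_norm (p : B.Pt K) : ∃ x i, B.Rep p x ∧ x i = 1 := by
  obtain ⟨x, hx⟩ := Pkg.exists_rep p
  obtain ⟨i, hi⟩ := hx.uni
  exact ⟨_, i, hx.smul hi.inv, by simp [hi.ne_zero]⟩

theorem map_ofId {M : Type} [Field M] [Algebra L M] (f : M →ₐ[L] K) (p : B.Pt L) :
    B.map f (B.map (Algebra.ofId L M) p) = B.map (Algebra.ofId L K) p := by
  rw [Pkg.map_map, Subsingleton.elim (f.comp _) (Algebra.ofId L K)]

/-- the unramified Kummer element at one place -/
theorem local_elt [NumberField L] [IsGalois L K] (O : ValuationSubring K)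
    (h2 : ∀ t : B.Pt K, 2 • t = 0 → ∃ T : B.Pt L, B.map (Algebra.ofId L K) T = t)
    (hO : ∀ T : B.Pt L, 2 • T = 0 → ∀ (p p' : B.Pt K) (x x' : σ → K) (i : σ),
      B.Rep p x → B.Rep p' x' → x i = 1 → (∀ k, (x k, x' k) ∈ cg O.valuation) →
      p' - p = B.map (Algebra.ofId L K) T → T = 0)
    (χ : B.Pt K → ℤ) (hχ : ∀ s, χ s = 1 ∨ χ s = -1)
    (hχ' : ∀ r s, 2 • r = 0 → 2 • s = 0 → χ (r + s) = χ r * χ s)
    {P : B.Pt L} {Q : B.Pt K} (hQ : 2 • Q = B.map (Algebra.ofId L K) P) :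
    ∃ c : K, O.valuation c = 1 ∧
      ∀ ρ : K ≃ₐ[L] K, ρ c = χ (B.map (ρ : K →ₐ[L] K) Q - Q) * c := by
  classical
  obtain ⟨q, i0, hq, hi0⟩ := exists_norm Q
  let M := IntermediateField.adjoin L (Set.range q)
  have : FiniteDimensional L M :=
    IntermediateField.finiteDimensional_adjoin fun x _ => Algebra.IsIntegral.isIntegral x
  have : NumberField M := NumberField.of_module_finite L M
  obtain ⟨Q', y, hy, h3, h4⟩ := descend M.val hq fun i =>
    ⟨⟨q i, IntermediateField.subset_adjoin _ _ ⟨i, rfl⟩⟩, rfl⟩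
  have hinj : Function.Injective (B.map (Algebra.ofId L K)) :=
    Pkg.map_injective _ (algebraMap L K).injective
  have h5 : 2 • Q' = B.map (Algebra.ofId L M) P := Pkg.map_injective M.val M.val.injective (by
    rw [map_nsmul, h3, map_ofId, hQ])
  have h6 : ∀ e : M →ₐ[L] K, 2 • B.map e Q' = B.map (Algebra.ofId L K) P := fun e => by
    rw [← map_nsmul, h5, map_ofId]
  have hy0 : y i0 = 1 := M.val.injective (by simpa [hi0] using h4 i0)
  have : Nonempty (M →ₐ[L] K) := ⟨M.val⟩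
  obtain ⟨b, hb⟩ := exists_unit O (fun e : M →ₐ[L] K => (e : M →+* K))
    (fun e => χ (B.map e Q' - Q)) (fun _ => hχ _) fun e e' h => by
      have : Nonempty σ := ⟨i0⟩
      obtain ⟨i, hi⟩ := Finite.exists_max fun i => O.valuation (e (y i))
      have h7 : e (y i) ≠ 0 := fun h => by simpa [h, hy0] using hi i0
      have h8 : y i ≠ 0 := fun h => h7 (by rw [h, map_zero])
      have h9 := hy.smul (isUnit_iff_ne_zero.mpr (inv_ne_zero h8))
      obtain ⟨T, hT⟩ := h2 (B.map e' Q' - B.map e Q') (by rw [smul_sub, h6, h6, sub_self])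
      have h10 := hO T (hinj (by rw [map_nsmul, hT, smul_sub, h6, h6, sub_self, map_zero])) _ _ _ _
        i (h9.map e) (h9.map e') (by simp [h8]) (fun k => cg_emb (e : M →+* K) e' h _ (by
          simp only [Pi.smul_apply, smul_eq_mul, map_mul, map_inv₀, RingHom.coe_coe]
          exact inv_mul_le_one_of_le₀ (hi k) zero_le)) hT.symm
      rw [h10, map_zero, eq_comm, sub_eq_zero] at hT
      refine IntermediateField.adjoin_algHom_ext L ?_
      rintro _ ⟨k, rfl⟩
      have h11 := ((hy.map e').par (hT ▸ hy.map e)) i0 k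
      have h12 : y k = ⟨q k, IntermediateField.subset_adjoin _ _ ⟨k, rfl⟩⟩ := Subtype.ext (h4 k)
      simpa [hy0, h12] using h11
  refine ⟨_, hb, fun ρ => ?_⟩
  have h7 : ∀ e : M →ₐ[L] K, 2 • (B.map e Q' - Q) = 0 := fun e => by rw [smul_sub, h6, hQ, sub_self]
  have h8 : 2 • (B.map (ρ : K →ₐ[L] K) Q - Q) = 0 := by
    rw [smul_sub, ← map_nsmul, hQ, map_ofId, sub_self]
  have h9 := (AlgEquiv.arrowCongr (AlgEquiv.refl (A₁ := M)) ρ).sum_comp
    fun e : M →ₐ[L] K => (χ (B.map e Q' - Q) : K) * (e : M →+* K) b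
  rw [map_sum, ← h9, Finset.mul_sum]
  refine Finset.sum_congr rfl fun e _ => ?_
  obtain ⟨T, hT⟩ := h2 _ (h7 e)
  have h10 : B.map ((ρ : K →ₐ[L] K).comp e) Q' - Q =
      (B.map e Q' - Q) + (B.map (ρ : K →ₐ[L] K) Q - Q) := by
    have := map_ofId (ρ : K →ₐ[L] K) T
    rw [hT, map_sub, Pkg.map_map] at this
    rw [← this]
    abel
  change _ = _ * ((χ (B.map ((ρ : K →ₐ[L] K).comp e) Q' - Q) : K) * ρ (e b))
  rw [h10, hχ' _ _ (h7 e) h8, map_mul, map_intCast]
  rcases hχ (B.map (ρ : K →ₐ[L] K) Q - Q) with h | h <;> simp [h]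

/-- weak Mordell-Weil theorem -/
theorem weak [NumberField L] [IsGalois L K] (h1 : ∀ p : B.Pt K, ∃ q : B.Pt K, 2 • q = p)
    (h2 : ∀ t : B.Pt K, 2 • t = 0 → ∃ T : B.Pt L, B.map (Algebra.ofId L K) T = t)
    (h3 : {t : B.Pt L | 2 • t = 0}.Finite) :
    ∃ s : Set (B.Pt L), s.Finite ∧ ∀ p : B.Pt L, ∃ r ∈ s, ∃ q, p = r + 2 • q := by
  classical
  have : CharZero K := charZero_of_injective_algebraMap (algebraMap L K).injective
  choose A hA hA' using sep_red B (K := K)
  obtain ⟨R, hR, h4⟩ := kummer (K := K) (h3.biUnion fun T _ => hA T)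
  choose χ hχ hχ' hχ'' using exists_sign (G := B.Pt K)
  choose Q hQ using fun p : B.Pt L => h1 (B.map (Algebra.ofId L K) p)
  choose Φ hΦ hΦ0 hΦ' using fun (p T : B.Pt L) => h4
    (fun ρ => χ (B.map (Algebra.ofId L K) T) (B.map (ρ : K →ₐ[L] K) (Q p) - Q p)) (fun _ => hχ _ _)
    fun O hO => local_elt O h2 (fun T hT => hA' T O fun a ha => hO a (Set.mem_biUnion hT ha))
      _ (hχ _) (hχ' _) (hQ p)
  have hinj : Function.Injective (B.map (Algebra.ofId L K)) :=
    Pkg.map_injective _ (algebraMap L K).injective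
  have key : ∀ p p' : B.Pt L, (∀ T, 2 • T = 0 → Φ p T = Φ p' T) → ∃ q, p = p' + 2 • q := by
    intro p p' h
    have h5 : ∀ (ρ : K ≃ₐ[L] K) p, 2 • (B.map (ρ : K →ₐ[L] K) (Q p) - Q p) = 0 := fun ρ p => by
      rw [smul_sub, ← map_nsmul, hQ, map_ofId, sub_self]
    have h6 : ∀ ρ : K ≃ₐ[L] K, B.map (ρ : K →ₐ[L] K) (Q p - Q p') = Q p - Q p' := fun ρ => by
      have h7 : 2 • (B.map (ρ : K →ₐ[L] K) (Q p) - Q p - (B.map (ρ : K →ₐ[L] K) (Q p') - Q p')) =
          0 := by rw [smul_sub, h5, h5, sub_self]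
      obtain ⟨T, hT⟩ := h2 _ h7
      have h8 := hΦ' p T ρ
      rw [h T (hinj (by rw [map_nsmul, hT, h7, map_zero])), hΦ', mul_left_inj' (hΦ0 _ _),
        Int.cast_inj, ← sub_add_cancel (B.map (ρ : K →ₐ[L] K) (Q p) - Q p)
          (B.map (ρ : K →ₐ[L] K) (Q p') - Q p'), hχ' _ _ _ h7 (h5 ρ p'), ← hT] at h8
      by_contra hn
      rw [hχ'' _ (hT ▸ h7) fun h => hn (by
        rw [hT, sub_sub_sub_comm, sub_eq_zero] at h; rw [map_sub, h])] at h8
      rcases hχ (B.map (Algebra.ofId L K) T) (B.map (ρ : K →ₐ[L] K) (Q p') - Q p') with h | h <;>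
        simp [h] at h8
    obtain ⟨x, i, hx, hi⟩ := exists_norm (Q p - Q p')
    obtain ⟨q, -, -, hq, -⟩ := descend (Algebra.ofId L K) hx fun k =>
      (InfiniteGalois.mem_range_algebraMap_iff_fixed _).mpr fun ρ => by
        have := (hx.par (h6 ρ ▸ hx.map (ρ : K →ₐ[L] K))) i k
        simp only [hi, map_one, one_mul, mul_one] at this
        exact this
    exact ⟨q, hinj (by rw [map_add, map_nsmul, hq, smul_sub, hQ, hQ, add_sub_cancel])⟩
  let Ψ : B.Pt L → {t : B.Pt L | 2 • t = 0} → K := fun p T => Φ p T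
  have := h3.to_subtype
  have h5 : (Set.range Ψ).Finite :=
    (Set.Finite.pi' fun _ => hR).subset (by rintro _ ⟨p, rfl⟩ T; exact hΦ p T)
  refine ⟨_, h5.image (Function.invFun Ψ), fun p => ⟨_, ⟨_, ⟨p, rfl⟩, rfl⟩, key _ _ fun T hT => ?_⟩⟩
  exact (congrFun (Function.invFun_eq ⟨p, rfl⟩ : Ψ (Function.invFun Ψ (Ψ p)) = Ψ p) ⟨T, hT⟩).symm

/-- descent -/
theorem fg_of_weak [NumberField L] (hH : St_HT) (hN : St_NORTH) {s : Set (B.Pt L)} (hs : s.Finite)
    (h : ∀ p : B.Pt L, ∃ r ∈ s, ∃ q, p = r + 2 • q) : AddGroup.FG (B.Pt L) := by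
  have h1 : ∀ n : ℕ, ∃ s : Set (B.Pt L), s.Finite ∧ ∀ p : B.Pt L, ∃ r ∈ s, ∃ q,
      p = r + 2 ^ n • q := fun n => by
    induction n with
    | zero => exact ⟨{0}, Set.toFinite _, fun p => ⟨0, rfl, p, by simp⟩⟩
    | succ n ih =>
      obtain ⟨s', hs', ih⟩ := ih
      refine ⟨_, hs'.image2 (fun a b => a + 2 ^ n • b) hs, fun p => ?_⟩
      obtain ⟨r, hr, q, rfl⟩ := ih p
      obtain ⟨r', hr', q', rfl⟩ := h q
      exact ⟨_, ⟨r, hr, r', hr', rfl⟩, q', by rw [smul_add, add_assoc, pow_succ, mul_smul]⟩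
  obtain ⟨s', hs', h2⟩ := h1 B.β
  obtain ⟨C, hC, h3, h4, h5⟩ := hH L σ B
  obtain ⟨c, hc⟩ := (hs'.image B.ht).bddAbove
  have : Northcott (B.ht : B.Pt L → ℝ) := ⟨hN L σ B⟩
  refine AddGroup.fg_of_descent (f := nsmulAddMonoidHom (2 ^ B.β)) (h := B.ht) (a := B.β)
    (b := 4 ^ B.β) (c := B.β * |c| + C + C * 4 ^ B.β) ?_ (by positivity) ?_ hs' ?_ ?_ ?_
  · rintro U _ ⟨x, hx, rfl⟩
    exact U.nsmul_mem hx _
  · exact_mod_cast Nat.lt_pow_self (by norm_num : 1 < 4)
  · refine Set.eq_univ_of_forall fun p => ?_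
    obtain ⟨r, hr, q, rfl⟩ := h2 p
    exact ⟨r, hr, _, ⟨q, rfl⟩, rfl⟩
  · intro g hg x
    have h6 := h4 (g + x) (-g)
    rw [add_neg_cancel_comm, h3] at h6
    have h7 : (B.β : ℝ) * B.ht g ≤ B.β * |c| :=
      mul_le_mul_of_nonneg_left ((hc ⟨g, hg, rfl⟩).trans (le_abs_self c)) (by positivity)
    have : 0 ≤ C * 4 ^ B.β := by positivity
    linarith
  · intro x
    have h6 := (abs_le.mp (h5 B.β x)).1
    have : 0 ≤ (B.β : ℝ) * |c| := by positivity
    change _ ≤ B.ht (2 ^ B.β • x)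
    linarith

end T39

open T39 in
theorem st_MW (hO : St_ONTO) (hF : St_FIB) (hH : St_HT) (hN : St_NORTH) : St_MW := by
  intro L σ _ _ _ _ B
  let K := AlgebraicClosure L
  choose x hx using fun p : B.Pt K => Pkg.exists_rep p
  have h1 := ((hF L σ B K).2.1 1).biUnion fun p _ => Set.finite_range (x p)
  let M := IntermediateField.adjoin L (⋃ p ∈ {p : B.Pt K | 2 ^ 1 • p = 0}, Set.range (x p))
  have := h1.to_subtype
  have : FiniteDimensional L M :=
    IntermediateField.finiteDimensional_adjoin fun x _ => Algebra.IsIntegral.isIntegral x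
  have : NumberField M := NumberField.of_module_finite L M
  obtain ⟨s, hs, h2⟩ := weak (B := B.bc M) (K := K) (hO M σ _ K) (fun t ht => by
    obtain ⟨y, hy⟩ := Pkg.exists_rep t
    have h3 := hx (B.ofBc M t)
    obtain ⟨q, -, -, hq, -⟩ := descend (Algebra.ofId M K)
      (hy.of_par h3.uni (Pkg.Rep.par hy.transfer h3)) fun i =>
      ⟨⟨_, IntermediateField.subset_adjoin _ _ (Set.mem_biUnion (x := B.ofBc M t)
        (by rw [Set.mem_ofPred_eq, ← map_nsmul, pow_one, ht, map_zero]) ⟨i, rfl⟩)⟩, rfl⟩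
    exact ⟨q, hq⟩) ((hF M σ _ M).2.1 1)
  have h3 := Module.Finite.iff_addGroup_fg.mpr (fg_of_weak hH hN hs h2)
  have h4 : Function.Injective (B.toBc M : B.Pt M →+ (B.bc M).Pt M) :=
    Pkg.transfer_injective _ _ _ _
  exact Module.Finite.iff_addGroup_fg.mp (Module.Finite.of_injective
    ((B.toBc M).comp (B.map (Algebra.ofId L M))).toIntLinearMap
    (h4.comp (Pkg.map_injective _ (algebraMap L M).injective)))

end D4C
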