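import Pool.Agent.Lib.D4C.BlueF

/-! A finite complete system of formulas for the negation. -/

namespace D4C

open MvPolynomial

theorem st_NEG0 : St_NEG0 := by
  intro κ σ _ _ A
  classical
  choose m N hN h0 hneg using A.neg_loc
  have fg : (Submodule.span (MvPolynomial σ κ)
      (Set.range fun s : A.carrier × σ => N s.1 s.2)).FG := IsNoetherian.noetherian _
  obtain ⟨T, hT, e⟩ := (Submodule.fg_span_iff_fg_span_finset_subset _).1 fg
  have ex : ∀ g : T, ∃ s : A.carrier × σ, N s.1 s.2 = g := fun g => hT g.2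
  choose s hs using ex
  let M := Finset.univ.sup fun g : T => m (s g).1
  let φ := (Fintype.equivFin (T × σ)).symm
  refine ⟨Fintype.card (T × σ), M,
    fun a i => X (φ a).2 ^ (M - m (s (φ a).1).1) * N (s (φ a).1).1 i, fun a i => ?_, fun p => ⟨?_, fun a => ?_⟩⟩
  · have h1 : m (s (φ a).1).1 ≤ M :=
      Finset.le_sup (f := fun g : T => m (s g).1) (Finset.mem_univ _)
    have := ((isHomogeneous_X κ (φ a).2).pow (M - m (s (φ a).1).1)).mul (hN (s (φ a).1).1 i)
    rwa [one_mul, Nat.sub_add_cancel h1] at this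
  · obtain ⟨i, hi⟩ := Function.ne_iff.1 (h0 p)
    obtain ⟨j, hj⟩ := Function.ne_iff.1 p.1.rep_nonzero
    have hm : N p i ∈ Submodule.span (MvPolynomial σ κ) (T : Set (MvPolynomial σ κ)) :=
      e ▸ Submodule.subset_span ⟨(p, i), rfl⟩
    have : ∃ g : T, eval p.1.rep (g : MvPolynomial σ κ) ≠ 0 := by
      by_contra hc
      push Not at hc
      have le : Submodule.span (MvPolynomial σ κ) (T : Set (MvPolynomial σ κ)) ≤
          RingHom.ker (eval p.1.rep) := Submodule.span_le.2 fun g hg => hc ⟨g, hg⟩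
      exact hi (le hm)
    obtain ⟨g, hg⟩ := this
    refine ⟨φ.symm (g, j), Function.ne_iff.2 ⟨(s g).2, ?_⟩⟩
    simp only [Equiv.apply_symm_apply, map_mul, map_pow, eval_X, hs, Pi.zero_apply]
    exact mul_ne_zero (pow_ne_zero _ hj) hg
  · intro i j
    by_cases h : (fun i => eval p.1.rep (N (s (φ a).1).1 i)) = 0
    · simp only [map_mul]
      rw [show eval p.1.rep (N (s (φ a).1).1 i) = 0 from congrFun h i,
        show eval p.1.rep (N (s (φ a).1).1 j) = 0 from congrFun h j]
      simp
    · obtain ⟨c, hc⟩ := Projectivization.exists_smul_eq_mk_rep κ _ h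
      rw [hneg _ p h, ← hc]
      simp only [map_mul, Pi.smul_apply, Units.smul_def, smul_eq_mul]
      ring

end D4C
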