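import Pool.Agent.Lib.D4C.T1b

/-! Independence of the auxiliary forms. -/

set_option linter.unusedSectionVars false

namespace D4C

open MvPolynomial T85

namespace T1

variable {L σ : Type} [Field L] [Fintype σ] [DecidableEq σ] {B : Pkg L σ} {g : ℕ}
  {F : Type} [Field F] [Algebra L F]

theorem om_tau (C : Chart B g) {ρ : Type} {a : Fin g → PS ρ F}
    (h : ∀ b, MvPowerSeries.constantCoeff (a b) = 0) (n : ℕ) (α : Fin g → Fin (n + 1)) :
    aeval (tauV C a) (om C n α) = aeval (tauV C a) C.den ^ (g * n) * ∏ b, a b ^ (α b).val := by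
  have e : ∑ a, (α a).val ≤ g * n := by
    calc ∑ a, (α a).val ≤ ∑ _a : Fin g, n := Finset.sum_le_sum fun a _ => Nat.lt_succ_iff.1 (α a).2
      _ = g * n := by simp
  simp only [om, map_mul, map_pow, map_prod, (tau1 C h).2.2.2, mul_pow, Finset.prod_mul_distrib]
  rw [Finset.prod_pow_eq_pow_sum]
  conv_rhs => rw [← Nat.sub_add_cancel e, pow_add]
  ring

theorem indep_om (C : Chart B g) {κ : Type} [Fintype κ] [DecidableEq κ] {n : κ → ℕ}
    (c : (∀ i, Fin g → Fin (n i + 1)) → L)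
    (h : ∑ α, c α • ∏ i, aeval (tauV C fun b => (MvPowerSeries.X (i, b) : PS (κ × Fin g) F))
      (om C (n i) (α i)) = 0) : c = 0 := by
  let d : (∀ i, Fin g → Fin (n i + 1)) → κ × Fin g →₀ ℕ := fun α =>
    Finsupp.equivFunOnFinite.symm fun x => (α x.1 x.2).val
  have hd : Function.Injective d := fun α α' e => funext fun i => funext fun b =>
    Fin.ext (DFunLike.congr_fun e (i, b))
  have h0 : ∀ (i : κ) (b : Fin g),
      MvPowerSeries.constantCoeff (MvPowerSeries.X (i, b) : PS (κ × Fin g) F) = 0 := by simp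
  have e : ∀ α, ∏ i, ∏ b, (MvPowerSeries.X (i, b) : PS (κ × Fin g) F) ^ (α i b).val =
      MvPowerSeries.monomial (d α) 1 := fun α => by
    rw [MvPowerSeries.monomial_one_eq, Finsupp.prod_fintype _ _ (by simp), Fintype.prod_prod_type]
    rfl
  simp only [om_tau C (h0 _), Finset.prod_mul_distrib, e, ← mul_smul_comm, ← Finset.mul_sum] at h
  rw [IsUnit.mul_right_eq_zero (IsUnit.prod_univ_iff.2 fun i => (tau1 C (h0 i)).2.2.1.pow _)] at h
  funext α
  have := congrArg (MvPowerSeries.coeff (d α)) h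
  rw [map_sum, Finset.sum_eq_single α, map_zero, ← algebraMap_smul F, map_smul,
    MvPowerSeries.coeff_monomial_same, smul_eq_mul, mul_one] at this
  · exact (map_eq_zero _).1 this
  · intro α' _ hα
    rw [← algebraMap_smul F, map_smul, MvPowerSeries.coeff_monomial_ne (hd.ne hα.symm), smul_zero]
  · simp

/-- coordinate vectors of a block -/
def eb (F : Type) [Field F] (g : ℕ) {κ : Type} [DecidableEq κ] (i : κ) :
    Fin g → κ × Fin g → F := fun b r => if r = (i, b) then 1 else 0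

theorem lg_X (C : Chart B g) {κ : Type} [DecidableEq κ] (i : κ) {τ : B.Pt (PS (κ × Fin g) F)}
    (h : B.Rep τ (tauV C fun b => MvPowerSeries.X (i, b))) : Lg C τ (eb F g i) :=
  ⟨_, fun b => by simp, h, fun b => funext fun r => lin_X _ _⟩

/-- linear parts of the differences -/
def tri (F : Type) [Field F] (g : ℕ) {k : ℕ} (κ : Fin (k + 1) → ℕ) (i : Fin (k + 1)) :
    Fin g → Fin (k + 1) × Fin g → F := 2 ^ κ i • eb F g i - if i = 0 then 0 else 2 ^ κ 0 • eb F g 0

theorem indep_tri [CharZero F] {k : ℕ} (κ : Fin (k + 1) → ℕ) :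
    LinearIndependent F fun x : Fin (k + 1) × Fin g => tri F g κ x.1 x.2 := by
  unfold tri
  rw [Fintype.linearIndependent_iff]
  intro t ht
  have h1 : ∀ x : Fin (k + 1) × Fin g, x.1 ≠ 0 → t x = 0 := fun x hx => by
    have := congrFun ht x
    have e : ∀ b, x ≠ (0, b) := fun b h => hx (congrArg Prod.fst h)
    rw [Finset.sum_apply, Finset.sum_eq_single x] at this
    · simpa [hx, eb, e] using this
    · intro x' _ h
      by_cases h' : x'.1 = 0 <;> simp [h', eb, e, h.symm]
    · simp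
  intro x
  by_cases hx : x.1 = 0
  · have := congrFun ht x
    rw [Finset.sum_apply, Finset.sum_eq_single x] at this
    · rw [if_pos hx] at this
      simpa [eb] using this
    · intro x' _ h
      by_cases h' : x'.1 = 0
      · rw [if_pos h']
        simp [eb, h.symm]
      · simp [h1 x' h']
    · simp
  · exact h1 x hx

theorem key_eq {R K : Type} [CommRing R] [Algebra L R] [Field K] [Algebra L K] (ι : R →ₐ[L] K)
    (hι : Function.Injective ι) (C : Chart B g) {k : ℕ} (T d : ℕ) (κ : Fin (k + 1) → ℕ)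
    (s : ∀ i : Fin (k + 1), Fin (4 ^ (g * κ i)) → σ →₀ ℕ)
    (Dm : Fin (k + 1) → (σ →₀ ℕ) → MvPolynomial σ L) {x u w : Fin (k + 1) → σ → R}
    {E : Fin (k + 1) → K} (hE : ∀ i γ, γ.degree = nn C k T d i →
      aeval (fun a => ι (x i a)) (Dm i γ) = E i * ∏ a, ι (u i a) ^ γ a) (E0 : ∀ i, E i ≠ 0)
    (h0 : w 0 = u 0) (Λ : Fin (k + 1) → Fin B.nl) {lam : Fin (k + 1) → R}
    (h : ∀ i, i ≠ 0 → ev2 (B.A (Λ i)) (u i) (u 0 ∘ B.π) = lam i • w i)
    (lam0 : ∀ i, i ≠ 0 → lam i ≠ 0) {c : Idx g k T d κ → L}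
    (h1 : evB x (∑ ω, c ω • eL C T d κ s Dm Λ ω) = 0) :
    ∑ l : ∀ i, Fin (4 ^ (g * κ i)), (∏ i, ∏ a, x i a ^ s i (l i) a) *
      ∑ α, c (l, α) • ∏ i, aeval (w i) (om C (dd T d i) (α i)) = 0 := by
  have h2 := evB_eL C T d κ s Dm (w := fun i a => ι (w i a)) hE (by simp only [h0]) Λ
    (lam := fun i => ι (lam i)) fun i hi => by
      have := ev2_map ι (B.A (Λ i)) (u i) (u 0 ∘ B.π)
      rw [h i hi] at this
      refine Eq.trans this (funext fun a => ?_)
      simp
  have h3 : (∏ i, E i) * ∏ i ∈ Finset.univ.erase 0, ι (lam i) ^ (C.dg * (g * (T * d))) ≠ 0 :=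
    mul_ne_zero (Finset.prod_ne_zero_iff.2 fun i _ => E0 i)
      (Finset.prod_ne_zero_iff.2 fun i hi => pow_ne_zero _
        ((map_ne_zero_iff _ hι).2 (lam0 _ (Finset.ne_of_mem_erase hi))))
  apply hι
  apply mul_left_cancel₀ h3
  rw [map_zero, mul_zero, ← map_zero ι, ← h1, ← evB_map]
  unfold evB at h2 ⊢
  rw [map_sum, map_sum, Fintype.sum_prod_type, Finset.mul_sum]
  refine Finset.sum_congr rfl fun l _ => ?_
  rw [Finset.mul_sum, map_sum, Finset.mul_sum]
  refine Finset.sum_congr rfl fun α _ => ?_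
  rw [map_smul, h2]
  simp only [map_smul, map_mul, map_prod, map_pow, aeval_map_alg, mul_smul_comm]
  congr 1
  ring

theorem last_step [CharZero F] (hG : St_GENK) (hg : B.IsDim g) (C : Chart B g) {k : ℕ}
    (κ n : Fin (k + 1) → ℕ) {p : Fin (k + 1) → B.Pt F}
    {τ : Fin (k + 1) → B.Pt (PS (Fin (k + 1) × Fin g) F)}
    (hτ : ∀ i, B.Rep (τ i) (tauV C fun b => MvPowerSeries.X (i, b)))
    {w : Fin (k + 1) → σ → PS (Fin (k + 1) × Fin g) F}
    (hw0 : B.Rep (cst B _ (p 0) + 2 ^ κ 0 • τ 0) (w 0))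
    (hw : ∀ i, i ≠ 0 →
      B.Rep (cst B _ (p i) + 2 ^ κ i • τ i + -(cst B _ (p 0) + 2 ^ κ 0 • τ 0)) (w i))
    {c : (∀ i, Fin g → Fin (n i + 1)) → L}
    (h : ∑ α, c α • ∏ i, aeval (w i) (om C (n i) (α i)) = 0) : c = 0 := by
  have eH : ∀ z : Fin (k + 1) → σ → PS (Fin (k + 1) × Fin g) F,
      evB z (∑ α, c α • ∏ i, rename (Prod.mk i) (om C (n i) (α i))) =
        ∑ α, c α • ∏ i, aeval (z i) (om C (n i) (α i)) := fun z => by
    have := fun i G => evB_rename z i (L := L) G
    unfold evB at this ⊢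
    simp only [map_sum, map_smul, map_prod, this]
  have h1 : ∀ i, Lg C (2 ^ κ i • τ i - if i = 0 then 0 else 2 ^ κ 0 • τ 0) (tri F g κ i) :=
    fun i => Lg.sub ((lg_X C i (hτ i)).nsmul (2 ^ κ i)) (by
      split_ifs
      exacts [lg_zero, (lg_X C 0 (hτ 0)).nsmul (2 ^ κ 0)])
  have h2 : ∀ i, B.Rep (cst B _ (p i - if i = 0 then 0 else p 0) +
      (2 ^ κ i • τ i - if i = 0 then 0 else 2 ^ κ 0 • τ 0)) (w i) := fun i => by
    split_ifs with hi
    · subst hi; rwa [sub_zero, sub_zero]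
    · have := hw i hi
      rwa [← sub_eq_add_neg, add_sub_add_comm, ← map_sub] at this
  have h3 : MH (fun i => C.dg * (g * n i)) (∑ α : ∀ i, Fin g → Fin (n i + 1),
      c α • ∏ i, rename (Prod.mk i) (om C (n i) (α i))) :=
    mh_sum _ fun α _ => MH.smul (mh_prod_rename fun i => om_hom C _ (α i)) _
  have h4 := van_of_lg hG hg C h1 (indep_tri κ) h2 h3 ((eH _).trans h) fun i => (hτ i).zr
  exact indep_om (F := F) C c ((eH _).symm.trans h4)

end T1

open T1

theorem st_NONVAN (hG : St_GENK) : St_NONVAN := by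
  intro L σ _ _ _ _ B g hg C k T d κ es δ s Dm x Λ y hM hD hS hL hH hy c hc
  let F := AlgebraicClosure L
  let R := PS (Fin (k + 1) × Fin g) F
  let ι : R →ₐ[L] FractionRing R := IsScalarTower.toAlgHom L R _
  have hι : Function.Injective ι := IsFractionRing.injective R _
  let f : L →ₐ[L] F := Algebra.ofId L F
  choose b ys hb hys hdet using fun i => (hS i).2
  choose τ hτ using fun i : Fin (k + 1) => (tau1 C (a := fun b => (MvPowerSeries.X (i, b) : R))
    fun b => by simp).1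
  have cτ : ∀ i, B.map (ccA L) (τ i) = 0 := fun i => cc_tau C (fun b => by simp) (hτ i)
  choose y' hy' cy' using fun i j => exists_rep_cc
    (q := cst B _ (B.map f (x i) + b i j) + τ i) (z := ys i j)
    (by rw [map_add, cc_cst, cτ, add_zero]; exact hys i j)
  have hU : ∀ i j, 2 ^ κ i • (cst B _ (B.map f (x i) + b i j) + τ i) =
      cst B _ (B.map f (2 ^ κ i • x i)) + 2 ^ κ i • τ i := fun i j => by
    rw [smul_add, ← map_nsmul, smul_add, hb, add_zero, ← map_nsmul]
  choose u0 hu0 using fun i => Pkg.exists_rep (2 ^ κ i • x i)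
  choose u hu cu using fun i => exists_rep_cc
    (q := cst B _ (B.map f (2 ^ κ i • x i)) + 2 ^ κ i • τ i) (z := fun a => f (u0 i a))
    (by
      rw [map_add, cc_cst, map_nsmul (B.map (ccA L (F := F))), cτ, nsmul_zero, add_zero]
      exact (hu0 i).map f)
  choose w hw using fun i => Pkg.exists_rep (cst B _ (B.map f (2 ^ κ i • x i)) + 2 ^ κ i • τ i +
    -(cst B _ (B.map f (2 ^ κ 0 • x 0)) + 2 ^ κ 0 • τ 0))
  choose lam hlam using fun i => (hu i).law_eq_smul (hu 0).neg (hw i) (Λ i)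
  have lam0 : ∀ i, lam i ≠ 0 := fun i e => hL u0 hu0 i (funext fun a => by
    have h1 := congrFun (ev2_map (ccA L) (B.A (Λ i)) (u i) (u 0 ∘ B.π)) a
    rw [hlam i, e, zero_smul, Pi.zero_apply, map_zero] at h1
    have h2 := congrFun (ev2_map f (B.A (Λ i)) (u0 i) (u0 0 ∘ B.π)) a
    simp only [ccA_apply, Function.comp_apply, cu] at h1
    exact (map_eq_zero f).1 (h2.symm.trans h1))
  have hdet' : ∀ i, IsUnit (Matrix.of fun l j => ∏ a, y' i j a ^ s i l a).det := fun i => by
    have : (MvPowerSeries.constantCoeff : R →+* F).mapMatrix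
        (Matrix.of fun l j => ∏ a, y' i j a ^ s i l a) =
        Matrix.of fun l j => ∏ a, ys i j a ^ s i l a := by
      ext l j
      simp [cy']
    rw [unit_iff, RingHom.map_det, this]
    exact hdet i
  funext ⟨l, α⟩
  refine congrFun (last_step hG hg C κ (dd T d) (p := fun i => B.map f (2 ^ κ i • x i)) hτ
    (w := Function.update w 0 (u 0))
    (by simpa only [Function.update_self] using hu 0) (fun i hi => by simpa only [Function.update_of_ne hi] using hw i)
    (c := fun α => c (l, α)) (tensor_inv _ hdet' (fun l => ∑ α, c (l, α) •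
      ∏ i, aeval (Function.update w 0 (u 0) i) (om C (dd T d i) (α i))) (fun j => ?_) l)) α
  choose E hE using fun i => (hM i).2 _ _ _ _ ((hy' i (j i)).map ι)
    (by rw [← map_nsmul, hU]; exact (hu i).map ι)
  refine key_eq ι hι C T d κ s Dm hE (fun i e => ?_) (by simp) Λ (lam := lam)
    (fun i hi => by simpa only [Function.update_of_ne hi] using hlam i) (fun i _ => lam0 i)
    (genk hG hg C hy (mh_sum _ fun ω _ => MH.smul (hH ω) (c ω)) hc fun i => (hy' i (j i)).zr)
  obtain ⟨γ, h1, h2⟩ := (hM i).1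
  obtain ⟨n, hn⟩ := hD i γ
  refine h2 (mem_of_rep hG hg C (fun i => ⟨τ i, hτ i, hy' i (j i)⟩) hn i (hι ?_))
  rw [← aeval_map_alg, hE i γ h1, e, zero_mul, map_zero]

end D4C
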