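import Pool.Agent.Lib.D4C.BlueF
import Pool.Agent.Lib.D4C.B_CONE

/-! Row NORTH of the d4c56 blueprint. -/

namespace D4C

theorem st_NORTH : St_NORTH := fun _ _ _ _ _ _ B C => T32.northcott B C

end D4C
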