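import Pool.Agent.Lib.D4C.BlueF

/-! d4c row NRM -/

namespace D4C

open MvPolynomial

namespace T30

theorem val_one_iff {K : Type} [Field K] (O : ValuationSubring K) (a : K) :
    O.valuation a = 1 ↔ a ≠ 0 ∧ a ∈ O ∧ a⁻¹ ∈ O := by
  constructor
  · intro h
    refine ⟨fun h0 => by simp [h0] at h, (O.valuation_le_one_iff a).mp h.le,
      (O.valuation_le_one_iff _).mp ?_⟩
    rw [map_inv₀, h, inv_one]
  · rintro ⟨h0, h1, h2⟩
    have h3 := (O.valuation_le_one_iff _).mpr h2
    have h4 : O.valuation a ≠ 0 := by simpa using h0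
    rw [map_inv₀, inv_le_one₀ (zero_lt_iff.mpr h4)] at h3
    exact le_antisymm ((O.valuation_le_one_iff a).mpr h1) h3

theorem le_gv {K ι : Type} [Field K] [Fintype ι] (O : ValuationSubring K) (x : ι → K) (i : ι) :
    O.valuation (x i) ≤ gv O x :=
  Finset.le_sup (f := fun i => O.valuation (x i)) (Finset.mem_univ i)

theorem gv_one {K ι : Type} [Field K] [Fintype ι] (O : ValuationSubring K) (x : ι → K)
    (h : gv O x = 1) : (∀ i, x i ∈ O) ∧ ∃ i, O.valuation (x i) = 1 := by
  refine ⟨fun i => (O.valuation_le_one_iff _).mp (h ▸ le_gv O x i), ?_⟩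
  rcases (Finset.univ : Finset ι).eq_empty_or_nonempty with he | hne
  · unfold gv at h
    rw [he, Finset.sup_empty] at h
    exact absurd (show (0 : O.ValueGroup) = 1 from h) (by simp)
  · obtain ⟨i, -, hi⟩ := Finset.exists_mem_eq_sup _ hne fun i => O.valuation (x i)
    exact ⟨i, hi.symm.trans h⟩

theorem gauss_one {κ F Ω₀ K : Type} [Field κ] [Field F] [Field Ω₀] [Field K] [Algebra κ F]
    [Algebra κ Ω₀] [Algebra κ K] [Algebra F K] [Algebra Ω₀ K] [IsScalarTower κ F K]
    [IsScalarTower κ Ω₀ K] (w : ValuationSubring Ω₀) (W V : ValuationSubring K) (hw : Ov κ w)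
    (hG : IsGauss κ F w W) (hV : ∀ c : Ω₀, algebraMap Ω₀ K c ∈ V ↔ c ∈ w) (s : K)
    (hs : s ∈ AddSubmonoid.closure {t : K | ∃ c ∈ w, ∃ f : F, algebraMap F K f ∈ V ∧
      t = algebraMap Ω₀ K c * algebraMap F K f}) (h1 : V.valuation s = 1) :
    W.valuation s = 1 := by
  classical
  have hκ : ∀ a : κ, algebraMap κ K a ∈ V := fun a => by
    rw [IsScalarTower.algebraMap_apply κ Ω₀ K]; exact (hV _).mpr (hw a)
  let M : Submodule κ F :=
    { carrier := {f | algebraMap F K f ∈ V}
      add_mem' := fun {a b} ha hb => by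
        simp only [Set.mem_ofPred_eq, map_add] at *; exact V.add_mem _ _ ha hb
      zero_mem' := by simp only [Set.mem_ofPred_eq, map_zero]; exact V.zero_mem
      smul_mem' := fun c {a} ha => by
        simp only [Set.mem_ofPred_eq] at *
        rw [Algebra.smul_def, map_mul, ← IsScalarTower.algebraMap_apply]
        exact V.mul_mem _ _ (hκ c) ha }
  let b := Module.Basis.ofVectorSpace κ M
  have key : ∃ g : Module.Basis.ofVectorSpaceIndex κ M →₀ Ω₀, (∀ k, g k ∈ w) ∧
      s = g.sum fun k c => algebraMap Ω₀ K c * algebraMap F K (b k : F) := by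
    clear h1
    induction hs using AddSubmonoid.closure_induction with
    | mem t ht =>
      obtain ⟨c, hc, f, hf, rfl⟩ := ht
      refine ⟨(b.repr ⟨f, hf⟩).mapRange (fun r => c * algebraMap κ Ω₀ r) (by simp),
        fun k => w.mul_mem _ _ hc (hw _), ?_⟩
      rw [Finsupp.sum_mapRange_index (by simp)]
      have h2 : f = ((b.repr ⟨f, hf⟩).sum fun k r => r • (b k : F)) := by
        have h3 := congrArg (M.subtype) (b.linearCombination_repr ⟨f, hf⟩)
        rw [Finsupp.linearCombination_apply, map_finsuppSum] at h3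
        exact h3.symm
      conv_lhs => rw [h2]
      rw [map_finsuppSum, Finsupp.mul_sum]
      refine Finsupp.sum_congr fun k _ => ?_
      rw [Algebra.smul_def, map_mul, map_mul, ← IsScalarTower.algebraMap_apply,
        ← IsScalarTower.algebraMap_apply, mul_assoc]
    | zero => exact ⟨0, fun _ => w.zero_mem, by simp⟩
    | add x y _ _ hx hy =>
      obtain ⟨g, hg, rfl⟩ := hx
      obtain ⟨g', hg', rfl⟩ := hy
      exact ⟨g + g', fun k => w.add_mem _ _ (hg k) (hg' k),
        (Finsupp.sum_add_index' (by simp) (by intros; rw [map_add, add_mul])).symm⟩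
  obtain ⟨g, hg, hs'⟩ := key
  let e := g.support.equivFin.symm
  have hs2 : s = ∑ j, algebraMap Ω₀ K (g (e j)) * algebraMap F K (b (e j) : F) := by
    rw [hs', Finsupp.sum, ← Finset.sum_coe_sort]
    exact (Equiv.sum_comp e fun k : g.support =>
      algebraMap Ω₀ K (g k) * algebraMap F K (b k : F)).symm
  have hli : LinearIndependent κ fun j => (b (e j) : F) :=
    (b.linearIndependent.map' M.subtype (Submodule.ker_subtype M)).comp (fun j => (e j).1)
      (Subtype.val_injective.comp e.injective)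
  rw [hs2, hG.val _ _ _ hli]
  refine le_antisymm (Finset.sup_le fun j _ =>
    (W.valuation_le_one_iff _).mpr ((hG.ovr _).mpr (hg _))) ?_
  by_contra hlt
  have h3 : V.valuation s < 1 := by
    rw [hs2]
    refine Valuation.map_sum_lt _ one_ne_zero fun j _ => ?_
    rw [map_mul]
    have h4 : V.valuation (algebraMap Ω₀ K (g (e j))) < 1 := by
      refine lt_of_le_of_ne ((V.valuation_le_one_iff _).mpr ((hV _).mpr (hg _))) fun h => hlt ?_
      obtain ⟨h0, -, h2⟩ := (val_one_iff V _).mp h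
      rw [← map_inv₀, hV, ← hG.ovr, map_inv₀] at h2
      rw [← (val_one_iff W _).mpr ⟨h0, (hG.ovr _).mpr (hg _), h2⟩]
      exact le_gv W (fun j => algebraMap Ω₀ K (g (e j))) j
    exact lt_of_le_of_lt (mul_le_of_le_one_right' ((V.valuation_le_one_iff _).mpr (b (e j)).2)) h4
  exact absurd h1 h3.ne

theorem aeval_mem {κ F Ω₀ K σ : Type} [Field κ] [Field F] [Field Ω₀] [Field K]
    [Algebra κ Ω₀] [Algebra κ K] [Algebra F K] [Algebra Ω₀ K]
    [IsScalarTower κ Ω₀ K] (w : ValuationSubring Ω₀) (V : ValuationSubring K) (hw : Ov κ w)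
    (xr : σ → F) (cr : σ → Ω₀) (hx : ∀ i, algebraMap F K (xr i) ∈ V) (hc : ∀ i, cr i ∈ w)
    (P : MvPolynomial (σ ⊕ σ) κ) :
    aeval (Sum.elim (fun l => algebraMap F K (xr l)) fun l => algebraMap Ω₀ K (cr l)) P ∈
      AddSubmonoid.closure {t : K | ∃ c ∈ w, ∃ f : F, algebraMap F K f ∈ V ∧
        t = algebraMap Ω₀ K c * algebraMap F K f} := by
  induction P using MvPolynomial.induction_on with
  | C a =>
    refine AddSubmonoid.subset_closure ⟨algebraMap κ Ω₀ a, hw a, 1, by simp [V.one_mem], ?_⟩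
    rw [aeval_C, map_one, mul_one, ← IsScalarTower.algebraMap_apply]
  | add p q hp hq => rw [map_add]; exact AddSubmonoid.add_mem _ hp hq
  | mul_X p l hp =>
    rw [map_mul, aeval_X]
    generalize aeval (Sum.elim (fun l => algebraMap F K (xr l))
      fun l => algebraMap Ω₀ K (cr l)) p = s at hp
    induction hp using AddSubmonoid.closure_induction with
    | mem t ht =>
      obtain ⟨c, hc', f, hf, rfl⟩ := ht
      refine AddSubmonoid.subset_closure ?_
      rcases l with l | l
      · refine ⟨c, hc', f * xr l, by rw [map_mul]; exact V.mul_mem _ _ hf (hx l), ?_⟩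
        rw [map_mul, Sum.elim_inl, mul_assoc]
      · refine ⟨c * cr l, w.mul_mem _ _ hc' (hc l), f, hf, ?_⟩
        rw [map_mul, Sum.elim_inr, mul_right_comm]
    | zero => rw [zero_mul]; exact AddSubmonoid.zero_mem _
    | add x y _ _ hx hy => rw [add_mul]; exact AddSubmonoid.add_mem _ hx hy

end T30

theorem st_NRM (_hGV : St_GV) : St_NRM := by
  intro κ σ _ _ _ B F Ω₀ K _ _ _ _ _ _ _ _ _ _ w W V hw hG hV x c xr cr hx hc h1 h2
  obtain ⟨hxV, i₁, hi₁⟩ := T30.gv_one V _ h1
  obtain ⟨hcw, i₂, hi₂⟩ := T30.gv_one w _ h2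
  have hκ : ∀ a : κ, algebraMap κ K a ∈ V := fun a => by
    rw [IsScalarTower.algebraMap_apply κ Ω₀ K]; exact (hV _).mpr (hw a)
  let _ : Algebra κ V := ((algebraMap κ K).codRestrict V hκ).toAlgebra
  let f : V →ₐ[κ] K := { V.subtype with commutes' := fun _ => rfl }
  have hf : Function.Injective f := Subtype.val_injective
  let xV : σ → V := fun i => ⟨algebraMap F K (xr i), hxV i⟩
  let cV : σ → V := fun i => ⟨algebraMap Ω₀ K (cr i), (hV _).mpr (hcw i)⟩
  have hX := hx.map (IsScalarTower.toAlgHom κ F K)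
  have hC := hc.map (IsScalarTower.toAlgHom κ Ω₀ K)
  have hz : ∀ y : σ → V, Zr B.I (fun i => f (y i)) → Zr B.I y := fun y hy G hG' =>
    hf (by rw [← aeval_map_alg, hy G hG', map_zero])
  have hu₁ : Uni xV := ⟨i₁, (V.valuation_eq_one_iff _).mpr hi₁⟩
  have hu₂ : Uni cV := by
    obtain ⟨h0, h3, h4⟩ := (T30.val_one_iff w _).mp hi₂
    refine ⟨i₂, (V.valuation_eq_one_iff _).mpr ((T30.val_one_iff V _).mpr
      ⟨(map_ne_zero (algebraMap Ω₀ K)).mpr h0, (hV _).mpr h3, ?_⟩)⟩
    change (algebraMap Ω₀ K (cr i₂))⁻¹ ∈ V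
    rw [← map_inv₀]; exact (hV _).mpr h4
  obtain ⟨a, i, hi⟩ := Pkg.exists_law hu₁ (hz xV hX.zr) hu₂ (hz cV hC.zr)
  have he : ev2 (B.A a) (fun l => algebraMap F K (xr l)) (fun l => algebraMap Ω₀ K (cr l)) =
      fun i => f (ev2 (B.A a) xV cV i) := ev2_map f (B.A a) xV cV
  have hv : V.valuation (ev2 (B.A a) (fun l => algebraMap F K (xr l))
      (fun l => algebraMap Ω₀ K (cr l)) i) = 1 := by
    rw [he]; exact (V.valuation_eq_one_iff _).mp hi
  refine ⟨a, i, hX.add hC ⟨i, ?_⟩, hv, ?_⟩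
  · exact isUnit_iff_ne_zero.mpr ((T30.val_one_iff V _).mp hv).1
  · exact T30.gauss_one w W V hw hG hV _ (T30.aeval_mem w V hw xr cr hxV hcw _) hv

end D4C
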