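import Pool.Agent.Lib.D4C.BlueE
import Pool.Agent.Lib.D4C.T1a

/-! The auxiliary form does not vanish at the formal point. -/

namespace D4C

open MvPolynomial

namespace T39

variable {L : Type} [Field L]

theorem map_evZT' {m : ℕ} {S S' : Type} [CommRing S] [CommRing S'] [Algebra L S] [Algebra L S']
    (f : S →ₐ[L] S') (z : Fin m → S) (t : S) (q : ZT L m) :
    f (evZT z t q) = evZT (fun j => f (z j)) (f t) q :=
  AlgHom.congr_fun (Polynomial.algHom_ext' (f := f.comp (evZT z t))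
    (g := evZT (fun j => f (z j)) (f t)) (MvPolynomial.algHom_ext fun j => by simp [evZT])
    (by simp [evZT])) q

/-- renaming of the variables of a series -/
noncomputable def ren {ρ ρ' : Type} [Finite ρ] (e : ρ → ρ') : PS ρ L →ₐ[L] PS ρ' L :=
  MvPowerSeries.substAlgHom (a := fun j => (MvPowerSeries.X (e j) : PS ρ' L))
    (MvPowerSeries.hasSubst_of_constantCoeff_zero fun _ => by simp)

theorem ren_apply {ρ ρ' : Type} [Finite ρ] (e : ρ → ρ') (f : PS ρ L) :
    ren e f = MvPowerSeries.subst (fun j => (MvPowerSeries.X (e j) : PS ρ' L)) f :=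
  MvPowerSeries.substAlgHom_apply _ _

theorem blk_eq {κ ρ : Type} [Finite ρ] (i : κ) (f : PS ρ L) : blk i f = ren (Prod.mk i) f :=
  (ren_apply _ _).symm

theorem ren_X {ρ ρ' : Type} [Finite ρ] (e : ρ → ρ') (j : ρ) :
    ren e (MvPowerSeries.X j : PS ρ L) = MvPowerSeries.X (e j) :=
  MvPowerSeries.substAlgHom_X _ _

theorem ren_ren {ρ ρ' ρ'' : Type} [Finite ρ] [Finite ρ'] (e : ρ → ρ') (e' : ρ' → ρ'') (f : PS ρ L) :
    ren e' (ren e f) = ren (e' ∘ e) f := by
  rw [ren_apply, ren_apply, ren_apply, MvPowerSeries.subst_comp_subst_apply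
    (MvPowerSeries.hasSubst_of_constantCoeff_zero fun _ => by simp)
    (MvPowerSeries.hasSubst_of_constantCoeff_zero fun _ => by simp)]
  simp only [← ren_apply, ren_X, Function.comp_apply]

variable {σ : Type} [Fintype σ] [DecidableEq σ] {B : Pkg L σ} {g e D D1 : ℕ}

theorem x1_eq (C : Chart B g) (V : Lv B g e D D1) (hz : Zr B.I V.X) (hu : Uni V.X) (μ : Fin B.nl)
    (ι : Fin 0 → Fin g) : ∃ lam : PS (Fin g ⊕ Fin 0) L,
      X1 C μ ι V.W.φ V.z V.η = lam • fun a => ren Sum.inl (V.X a) := by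
  have h1 := (Pkg.rep_pt _ hu hz).map (ren (Sum.inl : Fin g → Fin g ⊕ Fin 0))
  obtain ⟨lam, h⟩ := h1.law_eq_smul Pkg.rep_zero (by rw [add_zero]; exact h1) μ
  refine ⟨lam, Eq.trans ?_ h⟩
  unfold X1
  rw [show tauV C (inc L ι) = fun a => algebraMap L (PS (Fin g ⊕ Fin 0) L) (B.o a) from
    funext fun a => ?_]
  · refine congrArg (fun x => ev2 (B.A μ) x _) (funext fun a => ?_)
    rw [Lv.X, Lv.ev, map_evZT', ren_apply]
    refine congrArg (fun x => evZT x _ _) (funext fun j => ?_)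
    rw [map_add, ren_X]
    exact congrArg (· + _) ((ren _).commutes (V.z j)).symm
  · rw [tauV, show inc L ι = 0 from funext fun b => by simp [inc],
      MvPowerSeries.subst_zero_eq_C_constantCoeff, C.τ_o]
    rfl

end T39

open T39 T1 in
theorem st_NZB (hT : St_TAU) (hR : St_RANK) (hL : St_LOC2) (hG : St_GLUE) (hW : St_LOW)
    (hN : St_NONVAN) (hP : St_PHB) : St_NZB := by
  intro L σ _ _ _ _ B g hg C e D D1 k T d κ es δ s Dm V Λ h1 h2 h3 h4 h5 c h6
  have hF : MH δ (∑ ω, c ω • eL C T d κ s Dm Λ ω) := mh_sum _ fun ω _ => MH.smul (h5 ω) _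
  choose a ha using fun i => Pkg.exists_law (V i).rep.uni (V i).rep.zr (V i).rep.neg.uni
    (V i).rep.neg.zr
  choose μ hμ using fun i => B.complete L _ _ (V i).rep.zr B.o_mem
    (uni_iff_ne_zero.mp (V i).rep.uni) B.o_ne
  have hAt : ∀ i, At B (V i).W e D (V i).x (V i).z (V i).t (a i) := fun i =>
    ⟨(V i).ok, (V i).root, (V i).Δ_ne, (V i).rep, uni_iff_ne_zero.mp (ha i)⟩
  choose ι _ hι using fun i => hR L σ B g g 0 rfl C _ e D _ _ _ _ (hAt i)
  choose th γ hγ t1 t2 t3 using fun i =>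
    hL L σ B g g 0 C _ e D _ _ _ _ (μ i) (ι i) _ (hAt i) (V i).br (hμ i)
  have h7 : ∀ i, ∃ y, RepAt C (V i).x (fun b => (MvPowerSeries.X (i, b) :
      PS (Fin (k + 1) × Fin g) L)) y := fun i => by
    obtain ⟨q, hq⟩ := ((hT L σ B g C (Fin (k + 1) × Fin g) L).1
      (fun b => MvPowerSeries.X (i, b)) fun _ => by simp).1
    obtain ⟨y, hy⟩ := Pkg.exists_rep (cst B _ (V i).x + q)
    exact ⟨y, q, hq, hy⟩
  choose y0 hy0 using h7
  refine hN L σ B g hg C k T d κ es δ s Dm _ Λ y0 h1 h2 h3 h4 h5 hy0 c (by_contra fun hn => ?_)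
  obtain ⟨u, hu, h8⟩ := hG L σ B g C _ _ _ th _ y0 t1 t2 hy0 _ δ hF
  choose lam hlam using fun i => x1_eq C (V i) ((hP L σ B g e D D1).1 (V i)).1
    ((hP L σ B g e D D1).1 (V i)).2.1 (μ i) (ι i)
  have h9 : (fun i a => blk i (X1 C (μ i) (ι i) (V i).W.φ (V i).z (V i).η a)) =
      fun i => ren (Prod.mk i) (lam i) • fun a =>
        ren (Prod.map id Sum.inl) (blk i ((V i).X a)) := by
    funext i a
    rw [hlam, blk_eq, Pi.smul_apply, Pi.smul_apply, blk_eq, smul_eq_mul, smul_eq_mul, map_mul,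
      ren_ren, ren_ren]
    rfl
  rw [h9, evB_smul hF, evB_map, h6, map_zero, mul_zero, eq_comm, mul_eq_zero] at h8
  obtain ⟨w1, -, w3⟩ := hW (Fin (k + 1)) (Fin g) (Fin g ⊕ Fin 0) L (fun _ => 1) fun _ => le_rfl
  obtain ⟨ν, Ψ, hΨ⟩ := w1 _ hn
  have h10 := w3 _ ν Ψ th hΨ t1 fun i => by simpa only [t3] using hι i _ (hγ i)
  rw [h8.resolve_left fun h => hu (by rw [h, map_zero])] at h10
  exact h10.1 (MvPolynomial.ext _ _ fun d => by simpa using h10.2.2 d)

end D4C
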