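import Pool.Agent.Lib.D4C.BlueF

namespace D4C

open MvPolynomial

theorem st_ONTO (hF : St_FIB) (hG : St_GPT) (hS : St_GSP) (hR : St_RHO) : St_ONTO := by
  intro L σ _ _ _ _ B Ω _ _ _ p
  have hI : ext B.I L = B.I := by
    rw [ext, Algebra.algebraMap_self, show (map (RingHom.id L) : MvPolynomial σ L →+* _) =
      RingHom.id _ from RingHom.ext map_id, Ideal.map_id]
  obtain ⟨i, hi⟩ := Function.ne_iff.mp B.o_ne
  obtain ⟨K, _, _, _, x, hx0, hx⟩ := hG.ex L σ B.I (hI ▸ B.gprime L)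
    ⟨i, fun h => hi (by simpa using B.o_mem _ h)⟩
  let q : B.Pt K := B.pt x (uni_iff_ne_zero.mpr hx0) fun F h => (hx F).mpr h
  have h1 := ((hF L σ B K).1 q x _ (Pkg.rep_pt _ _ _) (B.rep_rp _)).2 ⟨hx0, fun F _ _ => hx F⟩
  obtain ⟨P, hP⟩ := hS L K Ω σ (B.rp (2 • q)) (B.rp p) h1.1
    (uni_iff_ne_zero.mp (B.rep_rp p).uni) ((hG.eq L σ K B.I _ B.hom h1).1.symm ▸ (B.rep_rp p).zr)
  obtain ⟨ρ, h2, -⟩ := hR L σ B L K Ω P
  exact ⟨ρ q, (map_nsmul ρ 2 q).symm.trans ((h2 _ _).mp hP)⟩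

end D4C
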