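import Pool.Agent.Lib.D4C.T59a

/-! The order at the point is not much bigger than the normal order. -/

namespace D4C

open MvPolynomial

theorem st_ORDA (hI : St_IDX) (hE : St_EXP) (hLG : St_LG) : St_ORDA := by
  intro L σ _ _ _ _ B g C K m D1 s hs
  classical
  obtain ⟨c1, b1, A1, hc1, hexp⟩ := hE L σ B g C m D1
  have hb : (0 : ℝ) < b1 + 1 := by positivity
  obtain ⟨ρ, D0, CI, hCI, hidx⟩ := hI L K m D1 (s / (b1 + 1)) (div_pos hs hb)
  have hlc : 0 ≤ Real.log c1 := Real.log_nonneg (by exact_mod_cast hc1)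
  have hA1 := T59.hA_nonneg A1
  set r : ℝ := (Module.finrank ℚ L : ℝ) with hr
  have hr0 : 0 ≤ r := Nat.cast_nonneg _
  set C2 : ℝ := r * Fintype.card σ * K + (r * Real.log c1 + hA A1) * (1 + b1 * K) with hC2
  have hC20 : 0 ≤ C2 := by positivity
  refine ⟨ρ, D0, CI * (3 + C2), by positivity, ?_⟩
  intro c μ ι P φ A w δ z t η F S HH hι hφ hP' hw hρ hF hS hδ hwδ hH hne
  obtain ⟨G, hG1, hG2⟩ := hexp K c μ ι φ A hι hφ
  have hex : ∃ n, ∃ q J, MvPowerSeries.coeff (comb q J) (Gam C μ ι φ z η F) ≠ 0 ∧ wt w J = n := by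
    obtain ⟨d, hd⟩ : ∃ d, MvPowerSeries.coeff d (Gam C μ ι φ z η F) ≠ 0 := by
      by_contra hc
      exact hne (MvPowerSeries.ext fun d => by simpa using not_exists.1 hc d)
    obtain ⟨q, J, rfl⟩ := T59.exists_comb d
    exact ⟨_, q, J, hd, rfl⟩
  obtain ⟨q0, J, hq0, hJ⟩ := Nat.find_spec hex
  have hmin : ∀ q J, MvPowerSeries.coeff (comb q J) (Gam C μ ι φ z η F) ≠ 0 →
      Nat.find hex ≤ wt w J := fun q J h => Nat.find_min' hex ⟨q, J, h, rfl⟩
  generalize Nat.find hex = ν0 at hJ hmin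
  by_cases hq : ∃ q, MvPowerSeries.coeff (comb q J) (Gam C μ ι φ z η F) ≠ 0 ∧
      (wt w q : ℝ) ≤ s * (S + ν0)
  · obtain ⟨q, h1, h2⟩ := hq
    exact Or.inr ⟨ν0, hmin, q, J, h1, hJ, h2⟩
  left
  have hF0 : F ≠ 0 := by
    rintro rfl
    exact hne (map_zero _)
  have hev : evA z η (G J F) ≠ 0 := fun h => hq0 (by rw [hG1, h, map_zero])
  have hG0 : G J F ≠ 0 := fun h => hev (by rw [h, map_zero])
  obtain ⟨hbd, hl1⟩ := hG2 F δ hF J
  have hν : (0 : ℝ) ≤ ν0 := Nat.cast_nonneg _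
  have hsum : ∑ i, (δ i : ℝ) ≤ K * S := by
    have : ∑ i, (δ i : ℝ) ≤ ∑ _i : Fin K, S := Finset.sum_le_sum fun i _ =>
      le_trans (le_mul_of_one_le_left (Nat.cast_nonneg _) (by exact_mod_cast hw i)) (hwδ i)
    simpa using this
  have hsA : 0 ≤ ∑ i, (δ i : ℝ) * hA (A i) :=
    Finset.sum_nonneg fun i _ => mul_nonneg (Nat.cast_nonneg _) (T59.hA_nonneg _)
  have hF1 := T59.hP_nonneg F
  have hE1 : ((J.degree + b1 * ∑ i, δ i : ℕ) : ℝ) ≤ (1 + b1 * K) * (S + ν0) := by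
    have h1 : (J.degree : ℝ) ≤ ν0 := by exact_mod_cast hJ ▸ T59.degree_le_wt hw J
    have h2 := mul_le_mul_of_nonneg_left hsum (Nat.cast_nonneg (α := ℝ) b1)
    have h3 : (0 : ℝ) ≤ b1 * K * ν0 := by positivity
    push_cast
    nlinarith
  have hht : hP (G J F) ≤ hP F + b1 * ∑ i, (δ i : ℝ) * hA (A i) + C2 * (S + ν0) := by
    have h1 := T59.hP_le hLG (P := Option (Fin K)) hG0 hF0
      (n := (c1 : ℝ) ^ (J.degree + b1 * ∑ i, δ i)) (one_le_pow₀ (by exact_mod_cast hc1))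
      (fun p => p.elim A1 A) (fun p => p.elim (J.degree + b1 * ∑ i, δ i) fun i => b1 * δ i)
      fun v => by
        rw [Fintype.prod_option]
        refine (hl1 v).trans (le_of_eq ?_)
        simp only [Option.elim, mul_pow, mul_assoc]
    rw [Fintype.sum_option, Real.log_pow] at h1
    simp only [Option.elim] at h1
    have h2 := T59.log_card_le (F := F) (δ := δ) fun d hd i => (hF d hd i).le
    have h3 : ∑ i, ((b1 * δ i : ℕ) : ℝ) * hA (A i) = b1 * ∑ i, (δ i : ℝ) * hA (A i) := by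
      rw [Finset.mul_sum]
      exact Finset.sum_congr rfl fun i _ => by push_cast; ring
    have h4 : Real.log F.support.card ≤ Fintype.card σ * K * (S + ν0) := by
      refine h2.trans ?_
      rw [mul_assoc]
      refine mul_le_mul_of_nonneg_left (hsum.trans ?_) (Nat.cast_nonneg _)
      exact mul_le_mul_of_nonneg_left (by linarith) (Nat.cast_nonneg _)
    have h5 := mul_le_mul_of_nonneg_left h4 hr0
    have h6 := mul_le_mul_of_nonneg_left hE1 (show 0 ≤ r * Real.log c1 + hA A1 by positivity)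
    rw [h3, ← hr] at h1
    rw [hC2]
    nlinarith
  have hHH : 0 ≤ HH := by linarith
  obtain ⟨i, Q, hQ0, hQd, hQz, hQ⟩ := hidx w P A z t η (G J F) (fun i => (b1 + 1) * δ i)
    ((b1 + 1) * (S + ν0)) (2 * (b1 + 1) * HH + C2 * (S + ν0)) hw hρ hP' (by positivity)
    (fun d hd i => (hbd d hd i).trans (Nat.mul_le_mul_right _ (Nat.le_succ _)))
    (fun i => Nat.mul_pos (Nat.succ_pos _) (hδ i))
    (fun i => by
      have := mul_le_mul_of_nonneg_left ((hwδ i).trans (le_add_of_nonneg_right hν)) hb.le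
      push_cast
      linarith)
    (by
      have h3 : ∑ i, (((b1 + 1) * δ i : ℕ) : ℝ) * hA (A i) =
          (b1 + 1) * ∑ i, (δ i : ℝ) * hA (A i) := by
        rw [Finset.mul_sum]
        exact Finset.sum_congr rfl fun i _ => by push_cast; ring
      have h4 := mul_le_mul_of_nonneg_left hH (show (0 : ℝ) ≤ 2 * (b1 + 1) by positivity)
      have h5 : (0 : ℝ) ≤ b1 * hP F := by positivity
      rw [h3]
      nlinarith)
    hev fun q h => by
      rw [← hG1] at h
      have h1 := not_le.1 fun h' => hq ⟨q, h, h'⟩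
      have h2 : s / (b1 + 1) * ((b1 + 1) * (S + ν0)) = s * (S + ν0) := by field_simp
      rw [h2]
      exact h1.le
  refine ⟨i, Q, hQ0, hQd, hQz, ?_⟩
  have hw0 : 0 ≤ CI * w i := by positivity
  have hSν : 0 < (b1 + 1 : ℝ) * (S + ν0) := by positivity
  refine le_of_mul_le_mul_right ?_ hSν
  have h1 := mul_le_mul_of_nonneg_right hQ hS.le
  have h2 : (2 * (b1 + 1) * HH + C2 * (S + ν0) + (b1 + 1) * (S + ν0)) * S ≤
      (3 + C2) * (HH + S) * ((b1 + 1) * (S + ν0)) := by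
    have a1 : 0 ≤ (b1 + 1 : ℝ) * HH * ν0 := by positivity
    have a2 : 0 ≤ (b1 + 1 : ℝ) * HH * S := by positivity
    have a3 : 0 ≤ C2 * HH * ((b1 + 1) * (S + ν0)) := by positivity
    have a4 : 0 ≤ C2 * S * (b1 * (S + ν0)) := by positivity
    have a5 : 0 ≤ S * ((b1 + 1) * (S + ν0)) := by positivity
    nlinarith
  have h3 := mul_le_mul_of_nonneg_left h2 hw0
  nlinarith

end D4C
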