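import Pool.Agent.Lib.D4C.BlueE

/-! d4c56 blueprint, block PHB: the formal point and the reduced forms. -/

set_option linter.unusedVariables false

namespace D4C

open MvPolynomial

namespace T3

/-- the constant term as an algebra map -/
noncomputable def phbCC (ρ L : Type) [Field L] : PS ρ L →ₐ[L] L :=
  { (MvPowerSeries.constantCoeff : PS ρ L →+* L) with
    commutes' := fun c => by simp [MvPowerSeries.algebraMap_apply] }

theorem phbCC_apply {ρ L : Type} [Field L] (p : PS ρ L) :
    phbCC ρ L p = MvPowerSeries.constantCoeff p := rfl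

theorem phb_evZT_C {R : Type} [CommRing R] {m : ℕ} {S : Type} [CommRing S] [Algebra R S]
    (z : Fin m → S) (t : S) (p : MvPolynomial (Fin m) R) :
    evZT z t (Polynomial.C p) = aeval z p := by
  simp [evZT]

theorem phb_evZT_X {R : Type} [CommRing R] {m : ℕ} {S : Type} [CommRing S] [Algebra R S]
    (z : Fin m → S) (t : S) : evZT (R := R) z t Polynomial.X = t := by
  simp [evZT]

theorem phb_comp {R : Type} [CommRing R] {m : ℕ} {S S' : Type} [CommRing S] [Algebra R S]
    [CommRing S'] [Algebra R S'] (f : S →ₐ[R] S') (z : Fin m → S) (t : S) (q : ZT R m) :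
    f (evZT z t q) = evZT (fun j => f (z j)) (f t) q := by
  induction q using Polynomial.induction_on' with
  | add p q hp hq => simp only [map_add, hp, hq]
  | monomial n a =>
    rw [← Polynomial.C_mul_X_pow_eq_monomial]
    simp only [map_mul, map_pow, phb_evZT_C, phb_evZT_X]
    congr 1
    rw [← AlgHom.comp_apply, comp_aeval]

theorem phb_scale {L α β R : Type} [Field L] [Fintype α] [Fintype β] [CommRing R] [Algebra L R]
    (a : α → R) (x : β → R) (t : R) (n : ℕ) (k : MvPolynomial (α ⊕ β) L)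
    (hk : ∀ ε ∈ k.support, (fl ε).degree = n) :
    aeval (Sum.elim (fun j => a j * t) x) k = t ^ n * aeval (Sum.elim a x) k := by
  conv_lhs => rw [k.as_sum]
  conv_rhs => rw [k.as_sum]
  rw [map_sum, map_sum, Finset.mul_sum]
  refine Finset.sum_congr rfl fun ε hε => ?_
  have hn : ∑ j, ε (Sum.inl j) = n := by
    rw [← hk ε hε, Finsupp.degree_eq_sum]
    rfl
  rw [aeval_monomial, aeval_monomial, Finsupp.prod_fintype _ _ (by simp),
    Finsupp.prod_fintype _ _ (by simp), Fintype.prod_sum_type, Fintype.prod_sum_type]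
  simp only [Sum.elim_inl, Sum.elim_inr, mul_pow, Finset.prod_mul_distrib,
    Finset.prod_pow_eq_pow_sum, hn]
  ring

section lv
variable {L σ : Type} [Field L] [Fintype σ] [DecidableEq σ] {B : Pkg L σ} {m e D D1 : ℕ}

theorem phb_kill (V : Lv B m e D D1) {q : ZT L m} (h : V.W.P ∣ q) : V.ev q = 0 := by
  obtain ⟨r, rfl⟩ := h
  have h0 : V.ev V.W.P = 0 := V.br.2
  rw [map_mul, h0, zero_mul]

theorem phb_aeval (V : Lv B m e D D1) (F : MvPolynomial σ L) :
    V.ev (aeval V.W.φ F) = aeval V.X F := by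
  rw [← AlgHom.comp_apply, comp_aeval]
  rfl

theorem phb_cc (V : Lv B m e D D1) (q : ZT L m) :
    MvPowerSeries.constantCoeff (V.ev q) = evZT V.z V.t q := by
  have h := phb_comp (phbCC (Fin m) L)
    (fun j => MvPowerSeries.C (V.z j) + MvPowerSeries.X j) V.η q
  simp only [phbCC_apply, map_add, MvPowerSeries.constantCoeff_C, MvPowerSeries.constantCoeff_X,
    add_zero, V.br.1] at h
  exact h

theorem phb_red (V : Lv B m e D D1) (r0 n : ℕ)
    (K : (σ →₀ ℕ) → MvPolynomial (Fin (m + 1) ⊕ σ) L) (hK : IsRed V.W.ξ V.W.H e D r0 n K)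
    (γ : σ →₀ ℕ) (hγ : γ.degree = r0 + e * n) :
    mon V.X γ = V.ev V.W.θ ^ n * V.ev (phiOf V.W (K γ)) := by
  have h1 := hK.val (PS (Fin m) L) V.X (fun ν hν => by
    rw [← phb_aeval]
    exact phb_kill V (V.ok.ns ν hν)) γ hγ
  have h2 : (fun j => aeval V.X (V.W.ξ j)) = fun j => V.ev (zv L m j) * V.ev V.W.θ := by
    funext j
    have := phb_kill V (V.ok.ξ_eq j)
    rw [map_sub, phb_aeval, map_mul] at this
    exact sub_eq_zero.1 this
  rw [h1, h2, phb_scale _ _ _ n _ fun ε hε => (hK.deg γ hγ ε hε).1]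
  congr 1
  rw [phiOf, ← AlgHom.comp_apply, comp_aeval]
  congr 2
  funext s
  cases s <;> rfl

end lv

end T3

open T3 in
theorem st_PHB (hTN : St_TN) (hBLK : St_BLK) : St_PHB := by
  intro L σ _ _ _ B m e D D1
  refine ⟨fun V => ⟨fun F hF => ?_, ?_, fun a => phb_cc V _, ?_, phb_red V⟩, fun K V => ?_⟩
  · rw [← phb_aeval]
    exact phb_kill V (V.ok.mem F hF)
  · obtain ⟨⟨i, hi⟩, -⟩ := V.rep
    refine ⟨i, ?_⟩
    rw [MvPowerSeries.isUnit_iff_constantCoeff]
    have := phb_cc V (V.W.φ i)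
    rw [Lv.X, this]
    exact hi
  · rw [phb_cc]
    intro h0
    obtain ⟨r, hr⟩ := V.ok.θ_inv
    have := congrArg (evZT V.z V.t) hr
    rw [map_sub, map_mul, map_mul, h0, V.root, zero_mul, zero_mul, phb_evZT_C, zero_sub,
      neg_eq_zero] at this
    exact V.Δ_ne this
  · choose f hinj hf hX hc using (hBLK (Fin K) (Fin m) L).1
    have hA : ∀ i q, evV V (toA i q) = blk i ((V i).ev q) := by
      intro i q
      rw [← hf, Lv.ev, phb_comp (f i), toA, phb_comp (evV V)]
      congr 2
      · funext j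
        have hC : f i (MvPowerSeries.C ((V i).z j)) = MvPowerSeries.C ((V i).z j) := by
          have := (f i).commutes ((V i).z j)
          simpa [MvPowerSeries.algebraMap_apply] using this
        simp [evV, evA, hX, hC]
      · simp [evV, evA, hf]
    refine ⟨hA, fun r0 n Kb F hK hF => ?_⟩
    obtain ⟨-, -, t3, -, -, t6, -⟩ := hTN L (Fin K) σ (PS (Fin K × Fin m) L)
    obtain ⟨-, -, -, -, t5', -⟩ := hTN L (Fin K) σ (AA L K m)
    rw [t3, GB, t5' _ (evV V)]
    refine t6 _ _ _ _ F hF fun i γ hγ => ?_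
    rw [hA, ← hf, ← hf, ← map_pow, ← map_mul, ← phb_red (V i) (r0 i) (n i) (Kb i) (hK i) γ hγ]
    simp only [mon, map_prod, map_pow]
    simp only [hf]

end D4C
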