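import Pool.Agent.Lib.D4C.BlueF

/-! A finite complete system of addition laws of one bidegree. -/

namespace D4C

open MvPolynomial

namespace T14

theorem whom_pow {κ τ M : Type} [Field κ] [AddCommMonoid M] {w : τ → M} {F : MvPolynomial τ κ}
    {d : M} (hF : F.IsWeightedHomogeneous w d) (n : ℕ) :
    (F ^ n).IsWeightedHomogeneous w (n • d) := by
  induction n with
  | zero => simpa using isWeightedHomogeneous_one κ w
  | succ k ih => rw [pow_succ, succ_nsmul]; exact ih.mul hF

end T14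

theorem st_PK0 : St_PK0 := by
  intro κ σ _ _ A
  classical
  choose m n N hN h0 hadd using fun s : A.carrier × A.carrier => A.add_loc s.1 s.2
  have fg : (Submodule.span (MvPolynomial (σ ⊕ σ) κ)
      (Set.range fun s : (A.carrier × A.carrier) × σ => N s.1 s.2)).FG :=
    IsNoetherian.noetherian _
  obtain ⟨T, hT, e⟩ := (Submodule.fg_span_iff_fg_span_finset_subset _).1 fg
  have ex : ∀ g : T, ∃ s : (A.carrier × A.carrier) × σ, N s.1 s.2 = g := fun g => hT g.2
  choose s hs using ex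
  let M := (Finset.univ.sup fun g : T => m (s g).1 + n (s g).1) + 1
  let φ := (Fintype.equivFin (T × σ × σ)).symm
  refine ⟨Fintype.card (T × σ × σ), M,
    fun a i => X (Sum.inl (φ a).2.1) ^ (M - m (s (φ a).1).1) *
      X (Sum.inr (φ a).2.2) ^ (M - n (s (φ a).1).1) * N (s (φ a).1).1 i,
    Nat.le_add_left _ _, fun a i => ?_, fun p q => ⟨?_, fun a => ?_⟩⟩
  · have h1 : m (s (φ a).1).1 + n (s (φ a).1).1 ≤ M :=
      (Finset.le_sup (f := fun g : T => m (s g).1 + n (s g).1) (Finset.mem_univ _)).trans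
        (Nat.le_succ _)
    have a1 := T14.whom_pow (isWeightedHomogeneous_X κ (bw σ) (Sum.inl (φ a).2.1))
      (M - m (s (φ a).1).1)
    have a2 := T14.whom_pow (isWeightedHomogeneous_X κ (bw σ) (Sum.inr (φ a).2.2))
      (M - n (s (φ a).1).1)
    have a3 : (N (s (φ a).1).1 i).IsWeightedHomogeneous (bw σ)
      (m (s (φ a).1).1, n (s (φ a).1).1) := hN (s (φ a).1).1 i
    have := (a1.mul a2).mul a3
    convert this using 1
    simp only [bw, Sum.elim_inl, Sum.elim_inr, Prod.smul_mk, smul_eq_mul, Prod.mk_add_mk,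
      Prod.mk.injEq]
    omega
  · obtain ⟨i, hi⟩ := Function.ne_iff.1 (h0 (p, q))
    obtain ⟨j, hj⟩ := Function.ne_iff.1 p.1.rep_nonzero
    obtain ⟨k, hk⟩ := Function.ne_iff.1 q.1.rep_nonzero
    have hm : N (p, q) i ∈ Submodule.span (MvPolynomial (σ ⊕ σ) κ)
        (T : Set (MvPolynomial (σ ⊕ σ) κ)) :=
      e ▸ Submodule.subset_span ⟨((p, q), i), rfl⟩
    have : ∃ g : T, eval (Sum.elim p.1.rep q.1.rep) (g : MvPolynomial (σ ⊕ σ) κ) ≠ 0 := by
      by_contra hc
      push Not at hc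
      have le : Submodule.span (MvPolynomial (σ ⊕ σ) κ) (T : Set (MvPolynomial (σ ⊕ σ) κ)) ≤
          RingHom.ker (eval (Sum.elim p.1.rep q.1.rep)) :=
        Submodule.span_le.2 fun g hg => hc ⟨g, hg⟩
      exact hi (le hm)
    obtain ⟨g, hg⟩ := this
    refine ⟨φ.symm (g, j, k), Function.ne_iff.2 ⟨(s g).2, ?_⟩⟩
    simp only [ev2, aeval_eq_eval, Equiv.apply_symm_apply, map_mul, map_pow, eval_X, hs,
      Pi.zero_apply, Sum.elim_inl, Sum.elim_inr]
    exact mul_ne_zero (mul_ne_zero (pow_ne_zero _ hj) (pow_ne_zero _ hk)) hg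
  · intro i j
    by_cases h : (fun i => eval (Sum.elim p.1.rep q.1.rep) (N (s (φ a).1).1 i)) = 0
    · simp only [ev2, aeval_eq_eval, map_mul]
      rw [show eval (Sum.elim p.1.rep q.1.rep) (N (s (φ a).1).1 i) = 0 from congrFun h i,
        show eval (Sum.elim p.1.rep q.1.rep) (N (s (φ a).1).1 j) = 0 from congrFun h j]
      simp
    · obtain ⟨c, hc⟩ := Projectivization.exists_smul_eq_mk_rep κ _ h
      rw [hadd _ p q h, ← hc]
      simp only [ev2, aeval_eq_eval, map_mul, Pi.smul_apply, Units.smul_def, smul_eq_mul]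
      ring

end D4C
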