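import Pool.Agent.Lib.D4C.BlueF
import Pool.Agent.Lib.D4C.B_VAN

/-! The package of a symmetric abelian variety. -/

set_option linter.unusedSectionVars false

namespace D4C

open MvPolynomial

namespace T72

variable {κ σ : Type} [Field κ]

theorem ae (x : σ → κ) (F : MvPolynomial σ κ) : aeval x F = eval x F := rfl

/-- restriction of a polynomial to the line through `x` -/
noncomputable def onLine (x : σ → κ) : MvPolynomial σ κ →ₐ[κ] Polynomial κ :=
  aeval fun i => Polynomial.C (x i) * Polynomial.X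

theorem eval_onLine (x : σ → κ) (t : κ) (F : MvPolynomial σ κ) :
    (onLine x F).eval t = aeval (t • x) F := by
  have h := aeval_map_alg (Polynomial.aeval t : Polynomial κ →ₐ[κ] κ)
    (fun i => Polynomial.C (x i) * Polynomial.X) F
  rw [Polynomial.coe_aeval_eq_eval] at h
  rw [onLine, ← h]
  congr 2
  funext i
  rw [Polynomial.eval_mul, Polynomial.eval_C, Polynomial.eval_X, mul_comm]
  rfl

theorem onLine_hom (x : σ → κ) {F : MvPolynomial σ κ} {n : ℕ} (hF : F.IsHomogeneous n) :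
    onLine x F = Polynomial.monomial n (aeval x F) := by
  have h := aeval_smul_hom (R := Polynomial κ) hF Polynomial.X fun i => Polynomial.C (x i)
  have h2 := aeval_map_alg (Algebra.ofId κ (Polynomial κ)) x F
  simp only [Algebra.ofId_apply, Polynomial.algebraMap_eq] at h2
  rw [h2] at h
  rw [← Polynomial.C_mul_X_pow_eq_monomial, mul_comm, ← h, onLine]
  congr 2
  funext i
  exact mul_comm _ _

theorem coeff_onLine (x : σ → κ) (F : MvPolynomial σ κ) (n : ℕ) :
    (onLine x F).coeff n = aeval x (homogeneousComponent n F) := by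
  conv_lhs => rw [← sum_homogeneousComponent F, map_sum, Polynomial.finsetSum_coeff]
  simp only [onLine_hom x (homogeneousComponent_isHomogeneous _ F), Polynomial.coeff_monomial]
  rw [Finset.sum_ite_eq']
  split_ifs with h
  · rfl
  · rw [homogeneousComponent_eq_zero, map_zero]
    simpa using h

/-- the ideal of the cone over the variety -/
noncomputable def idl (A : AbVar κ σ) : Ideal (MvPolynomial σ κ) :=
  ⨅ p : A.carrier, RingHom.ker (onLine p.1.rep)

theorem mem_idl {A : AbVar κ σ} {F : MvPolynomial σ κ} :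
    F ∈ idl A ↔ ∀ p : A.carrier, onLine p.1.rep F = 0 := by
  simp [idl, RingHom.mem_ker]

theorem mem_idl_hom {A : AbVar κ σ} {F : MvPolynomial σ κ} {n : ℕ} (hF : F.IsHomogeneous n) :
    F ∈ idl A ↔ ∀ p ∈ A.carrier, eval p.rep F = 0 := by
  rw [mem_idl]
  simp only [onLine_hom _ hF, Polynomial.monomial_eq_zero_iff]
  exact ⟨fun h p hp => h ⟨p, hp⟩, fun h p => h p.1 p.2⟩

theorem idl_hom (A : AbVar κ σ) : IsHom (idl A) := fun F hF n => by
  rw [mem_idl_hom (homogeneousComponent_isHomogeneous n F)]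
  intro p hp
  have h := coeff_onLine p.rep F n
  rw [mem_idl.mp hF ⟨p, hp⟩, Polynomial.coeff_zero] at h
  exact h.symm

theorem exists_comp {A : AbVar κ σ} {F : MvPolynomial σ κ} (h : F ∉ idl A) :
    ∃ n, ¬ ∀ p ∈ A.carrier, eval p.rep (homogeneousComponent n F) = 0 := by
  by_contra! hn
  refine h (mem_idl.mpr fun p => Polynomial.ext fun n => ?_)
  rw [coeff_onLine, ae, hn n p.1 p.2, Polynomial.coeff_zero]

theorem idl_prime (A : AbVar κ σ) : (idl A).IsPrime := by
  refine ⟨fun h => ?_, fun {F G} h => ?_⟩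
  · have h1 : (1 : MvPolynomial σ κ) ∈ idl A := h ▸ Submodule.mem_top
    simpa using mem_idl.mp h1 0
  · by_contra! hn
    obtain ⟨a, ha⟩ := exists_comp hn.1
    obtain ⟨b, hb⟩ := exists_comp hn.2
    have := A.irred.2 _ _ a b (homogeneousComponent_isHomogeneous a F)
      (homogeneousComponent_isHomogeneous b G) fun p hp => by
        have h1 := mem_idl.mp h ⟨p, hp⟩
        rw [map_mul, mul_eq_zero] at h1
        rw [map_mul, ← ae, ← ae, ← coeff_onLine, ← coeff_onLine]
        rcases h1 with h1 | h1 <;> simp [h1]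
    exact this.elim ha hb

/-- `x` is a multiple of the coordinates of `p` -/
def On {A : AbVar κ σ} (p : A.carrier) (x : σ → κ) : Prop := ∃ c : κ, x = c • p.1.rep

theorem uni_rep (p : Projectivization κ (σ → κ)) : Uni p.rep := uni_iff_ne_zero.mpr p.rep_nonzero

theorem On.self {A : AbVar κ σ} (p : A.carrier) : On p p.1.rep := ⟨1, (one_smul _ _).symm⟩

theorem On.zr {A : AbVar κ σ} {p : A.carrier} {x : σ → κ} (h : On p x) : Zr (idl A) x := by
  obtain ⟨c, rfl⟩ := h
  intro F hF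
  rw [← eval_onLine, mem_idl.mp hF p, Polynomial.eval_zero]

theorem exists_on {A : AbVar κ σ} {x : σ → κ} (h : Zr (idl A) x) : ∃ p : A.carrier, On p x := by
  by_cases hx : x = 0
  · exact ⟨0, 0, by rw [hx, zero_smul]⟩
  · obtain ⟨T, hT, hA⟩ := A.closed
    obtain ⟨u, hu⟩ := Projectivization.exists_smul_eq_mk_rep κ x hx
    refine ⟨⟨Projectivization.mk κ x hx, ?_⟩, (u⁻¹ : κˣ), ?_⟩
    · rw [hA]
      intro F hF
      obtain ⟨d, hd⟩ := hT F hF
      have h1 : F ∈ idl A := (mem_idl_hom hd).mpr fun p hp => by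
        rw [hA] at hp
        exact hp F hF
      rw [← hu, ← ae, Units.smul_def, aeval_smul_hom hd, h F h1, mul_zero]
    · show x = _ • (Projectivization.mk κ x hx).rep
      rw [← hu, Units.smul_def, smul_smul]
      simp

theorem On.par {A : AbVar κ σ} {p : A.carrier} {x y : σ → κ} (h : On p x) (h' : On p y) :
    Par x y := by
  obtain ⟨c, rfl⟩ := h
  obtain ⟨c', rfl⟩ := h'
  intro i j
  simp only [Pi.smul_apply, smul_eq_mul]
  ring

theorem On.neg {A : AbVar κ σ} {π : Equiv.Perm σ}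
    (hπ : ∀ z : A.carrier, Par (-z).1.rep (z.1.rep ∘ π)) {p : A.carrier} {x : σ → κ}
    (h : On p x) : On (-p) (x ∘ π) := by
  obtain ⟨c, rfl⟩ := h
  obtain ⟨c', h'⟩ := (hπ p).exists_smul (uni_rep _)
  refine ⟨c * c', ?_⟩
  rw [← smul_smul, ← h']
  rfl

theorem ev2_smul' {S : σ → MvPolynomial (σ ⊕ σ) κ} {β : ℕ}
    (hS : ∀ i, (S i).IsWeightedHomogeneous (bw σ) (β, β)) (c c' : κ) (x y : σ → κ) :
    ev2 S (c • x) (c' • y) = (c ^ β * c' ^ β) • ev2 S x y := by
  funext i
  simp only [ev2, Pi.smul_apply, smul_eq_mul]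
  exact aeval_smul_bihom (hS i) c c' x y

theorem On.add {A : AbVar κ σ} {S : σ → MvPolynomial (σ ⊕ σ) κ} {β : ℕ}
    (hS : ∀ i, (S i).IsWeightedHomogeneous (bw σ) (β, β))
    (hA : ∀ p q : A.carrier, Par (ev2 S p.1.rep q.1.rep) (p + q).1.rep) {p q : A.carrier}
    {x y : σ → κ} (h : On p x) (h' : On q y) : On (p + q) (ev2 S x y) := by
  obtain ⟨c, rfl⟩ := h
  obtain ⟨c', rfl⟩ := h'
  obtain ⟨d, hd⟩ := (hA p q).symm.exists_smul (uni_rep _)
  exact ⟨c ^ β * c' ^ β * d, by rw [ev2_smul' hS, hd, smul_smul]⟩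

/-- expressions in three points with values in any algebra -/
abbrev Ex (κ σ τ : Type) [Field κ] : Type 1 :=
  ∀ (R : Type) [CommRing R] [Algebra κ R], (σ → R) → (σ → R) → (σ → R) → τ → R

/-- compatibility with algebra maps -/
def Ex.Nat {τ : Type} (U : Ex κ σ τ) : Prop :=
  ∀ (R R' : Type) [CommRing R] [Algebra κ R] [CommRing R'] [Algebra κ R'] (f : R →ₐ[κ] R')
    (x y z : σ → R), U R' (fun i => f (x i)) (fun i => f (y i)) (fun i => f (z i)) =
      fun i => f (U R x y z i)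

variable [IsAlgClosed κ] [Fintype σ]

theorem van3 {τ : Type} {I : Ideal (MvPolynomial σ κ)} (hI : I.IsRadical) {U : Ex κ σ τ}
    (hU : U.Nat) (h : ∀ x y z : σ → κ, Zr I x → Zr I y → Zr I z → U κ x y z = 0)
    (R : Type) [CommRing R] [Algebra κ R] (x y z : σ → R) (hx : Zr I x) (hy : Zr I y)
    (hz : Zr I z) : U R x y z = 0 := by
  funext t
  let ev : (σ → R) → MvPolynomial σ R →ₐ[κ] R := fun w => (aeval w).restrictScalars κ
  have e0 : ∀ w F, eval w F = ev w F := fun w F => rfl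
  have eC : ∀ (w u : σ → R), (fun i => ev w (C (u i))) = u := fun w u => by
    funext i
    simp [ev]
  have eX : ∀ w : σ → R, (fun i => ev w (X i)) = w := fun w => by
    funext i
    simp [ev]
  have e1 : ∀ w y z, eval w (U _ X (fun i => C (y i)) (fun i => C (z i)) t) = U R w y z t :=
    fun w y z => by rw [e0, ← congrFun (hU _ _ (ev w) _ _ _) t, eC, eC, eX]
  have e2 : ∀ w x z, eval w (U _ (fun i => C (x i)) X (fun i => C (z i)) t) = U R x w z t :=
    fun w y z => by rw [e0, ← congrFun (hU _ _ (ev w) _ _ _) t, eC, eC, eX]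
  have e3 : ∀ w x y, eval w (U _ (fun i => C (x i)) (fun i => C (y i)) X t) = U R x y w t :=
    fun w y z => by rw [e0, ← congrFun (hU _ _ (ev w) _ _ _) t, eC, eC, eX]
  rw [← e1]
  refine st_VAN κ σ R I hI _ (fun x0 hx0 => ?_) x hx
  rw [e1, ← e2]
  refine st_VAN κ σ R I hI _ (fun y0 hy0 => ?_) y hy
  rw [e2, ← e3]
  refine st_VAN κ σ R I hI _ (fun z0 hz0 => ?_) z hz
  rw [e3]
  have := congrFun (hU κ R (Algebra.ofId κ R) x0 y0 z0) t
  rw [h x0 y0 z0 hx0 hy0 hz0, Pi.zero_apply, map_zero] at this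
  exact this

theorem par3 {A : AbVar κ σ} {U V : Ex κ σ σ} (hU : U.Nat) (hV : V.Nat)
    (h : ∀ (p q r : A.carrier) (x y z : σ → κ), On p x → On q y → On r z →
      ∃ s : A.carrier, On s (U κ x y z) ∧ On s (V κ x y z))
    (R : Type) [CommRing R] [Algebra κ R] (x y z : σ → R) (hx : Zr (idl A) x)
    (hy : Zr (idl A) y) (hz : Zr (idl A) z) : Par (U R x y z) (V R x y z) := by
  intro i j
  have := van3 (τ := Unit) (idl_prime A).isRadical
    (U := fun R _ _ x y z _ => U R x y z i * V R x y z j - U R x y z j * V R x y z i)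
    (fun R R' _ _ _ _ f x y z => by
      funext _
      simp only [hU R R' f, hV R R' f, map_sub, map_mul])
    (fun x y z hx hy hz => by
      obtain ⟨p, hp⟩ := exists_on hx
      obtain ⟨q, hq⟩ := exists_on hy
      obtain ⟨r, hr⟩ := exists_on hz
      obtain ⟨s, h1, h2⟩ := h p q r x y z hp hq hr
      funext _
      exact sub_eq_zero.mpr (h1.par h2 i j)) R x y z hx hy hz
  exact sub_eq_zero.mp (congrFun this ())

theorem zr3 {A : AbVar κ σ} {U : Ex κ σ σ} (hU : U.Nat)
    (h : ∀ (p q r : A.carrier) (x y z : σ → κ), On p x → On q y → On r z →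
      ∃ s : A.carrier, On s (U κ x y z))
    (R : Type) [CommRing R] [Algebra κ R] (x y z : σ → R) (hx : Zr (idl A) x)
    (hy : Zr (idl A) y) (hz : Zr (idl A) z) : Zr (idl A) (U R x y z) := by
  intro F hF
  have := van3 (τ := Unit) (idl_prime A).isRadical
    (U := fun R _ _ x y z _ => aeval (U R x y z) F)
    (fun R R' _ _ _ _ f x y z => by
      funext _
      simp only [hU R R' f, aeval_map_alg])
    (fun x y z hx hy hz => by
      obtain ⟨p, hp⟩ := exists_on hx
      obtain ⟨q, hq⟩ := exists_on hy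
      obtain ⟨r, hr⟩ := exists_on hz
      obtain ⟨s, h1⟩ := h p q r x y z hp hq hr
      funext _
      exact h1.zr F hF) R x y z hx hy hz
  exact congrFun this ()

theorem complete {A : AbVar κ σ} {nl β : ℕ} {S : Fin nl → σ → MvPolynomial (σ ⊕ σ) κ}
    (hS : ∀ a i, (S a i).IsWeightedHomogeneous (bw σ) (β, β))
    (hc : ∀ p q : A.carrier, ∃ a, ev2 (S a) p.1.rep q.1.rep ≠ 0)
    (Ω : Type) [Field Ω] [Algebra κ Ω] (x y : σ → Ω) (hx : Zr (idl A) x) (hy : Zr (idl A) y)
    (hx0 : x ≠ 0) (hy0 : y ≠ 0) : ∃ a, ev2 (S a) x y ≠ 0 := by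
  by_contra! hn
  obtain ⟨i, hi⟩ := Function.ne_iff.mp hx0
  obtain ⟨j, hj⟩ := Function.ne_iff.mp hy0
  let J : Ideal (MvPolynomial (σ ⊕ σ) κ) := RingHom.ker (aeval (R := κ) (Sum.elim x y))
  have hJ : J.IsRadical := (RingHom.ker_isPrime _).isRadical
  have : X (Sum.inl i) * X (Sum.inr j) ∈ J := T51.mem_of_vanish hJ fun w hw => by
    have z1 : Zr (idl A) (w ∘ Sum.inl) := fun F hF => by
      rw [← aeval_rename]
      refine hw _ (RingHom.mem_ker.mpr ?_)
      rw [aeval_rename]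
      exact hx F hF
    have z2 : Zr (idl A) (w ∘ Sum.inr) := fun F hF => by
      rw [← aeval_rename]
      refine hw _ (RingHom.mem_ker.mpr ?_)
      rw [aeval_rename]
      exact hy F hF
    obtain ⟨p, c, hp⟩ := exists_on z1
    obtain ⟨q, c', hq⟩ := exists_on z2
    obtain ⟨a, ha⟩ := hc p q
    have h0 : ev2 (S a) (w ∘ Sum.inl) (w ∘ Sum.inr) = 0 := by
      funext k
      rw [ev2, Sum.elim_comp_inl_inr]
      exact hw _ (RingHom.mem_ker.mpr (congrFun (hn a) k))
    rw [hp, hq, ev2_smul' (hS a), smul_eq_zero_iff_left ha, mul_eq_zero] at h0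
    have h1 := congrFun hp i
    have h2 := congrFun hq j
    simp only [Function.comp_apply, Pi.smul_apply, smul_eq_mul] at h1 h2
    rw [map_mul, aeval_X, aeval_X, h1, h2]
    rcases h0 with h0 | h0 <;> simp [pow_eq_zero_iff'.mp h0 |>.1]
  rw [RingHom.mem_ker, map_mul, aeval_X, aeval_X] at this
  exact mul_ne_zero hi hj this

section pkg

variable [DecidableEq σ] {A : AbVar κ σ} {π : Equiv.Perm σ} {nl β : ℕ}
  {S : Fin nl → σ → MvPolynomial (σ ⊕ σ) κ}

theorem natS (S : σ → MvPolynomial (σ ⊕ σ) κ) {U V : Ex κ σ σ} (hU : U.Nat) (hV : V.Nat) :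
    Ex.Nat (κ := κ) (σ := σ) fun R _ _ x y z => ev2 S (U R x y z) (V R x y z) :=
  fun R R' _ _ _ _ f x y z => by
    show ev2 S _ _ = _
    rw [hU R R' f, hV R R' f, ev2_map]

theorem nat1 : Ex.Nat (κ := κ) (σ := σ) fun _ _ _ x _ _ => x := fun _ _ _ _ _ _ _ _ _ _ => rfl

theorem nat2 : Ex.Nat (κ := κ) (σ := σ) fun _ _ _ _ y _ => y := fun _ _ _ _ _ _ _ _ _ _ => rfl

theorem nat3 : Ex.Nat (κ := κ) (σ := σ) fun _ _ _ _ _ z => z := fun _ _ _ _ _ _ _ _ _ _ => rfl

theorem natP (π : Equiv.Perm σ) : Ex.Nat (κ := κ) (σ := σ) fun _ _ _ x _ _ => x ∘ π :=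
  fun _ _ _ _ _ _ _ _ _ _ => rfl

theorem natO (o : σ → κ) :
    Ex.Nat (κ := κ) (σ := σ) fun R _ _ _ _ _ i => algebraMap κ R (o i) :=
  fun _ _ _ _ _ _ f _ _ _ => funext fun i => (f.commutes (o i)).symm

/-- the package -/
noncomputable def pkg (hπ : ∀ z : A.carrier, Par (-z).1.rep (z.1.rep ∘ π)) (hβ : 1 ≤ β)
    (hS : ∀ a i, (S a i).IsWeightedHomogeneous (bw σ) (β, β))
    (hc : ∀ p q : A.carrier, ∃ a, ev2 (S a) p.1.rep q.1.rep ≠ 0)
    (add : ∀ a {p q : A.carrier} {x y : σ → κ}, On p x → On q y →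
      On (p + q) (ev2 (S a) x y)) : Pkg κ σ where
  I := idl A
  hom := idl_hom A
  gprime := st_IRR κ σ _ (idl_prime A)
  o := (0 : A.carrier).1.rep
  o_ne := Projectivization.rep_nonzero _
  o_mem := (On.self 0).zr
  π := π
  nl := nl
  β := β
  β_pos := hβ
  A := S
  A_hom := hS
  complete := complete hS hc
  neg_mem R _ _ x hx :=
    zr3 (natP π) (fun _ _ _ _ _ _ h _ _ => ⟨_, h.neg hπ⟩) R x x x hx hx hx
  add_mem R _ _ x y hx hy a :=
    zr3 (natS (S a) nat1 nat2) (fun _ _ _ _ _ _ h h' _ => ⟨_, add a h h'⟩) R x y x hx hy hx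
  compat R _ _ x y hx hy a b := par3 (natS (S a) nat1 nat2) (natS (S b) nat1 nat2)
    (fun _ _ _ _ _ _ h h' _ => ⟨_, add a h h', add b h h'⟩) R x y x hx hy hx
  comm R _ _ x y hx hy a b := par3 (natS (S a) nat1 nat2) (natS (S b) nat2 nat1)
    (fun p q _ _ _ _ h h' _ => ⟨p + q, add a h h', by
      rw [add_comm p q]
      exact add b h' h⟩) R x y x hx hy hx
  assoc R _ _ x y z hx hy hz a b c d :=
    par3 (natS (S a) (natS (S b) nat1 nat2) nat3) (natS (S c) nat1 (natS (S d) nat2 nat3))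
      (fun p q r _ _ _ h h' h'' => ⟨p + q + r, add a (add b h h') h'', by
        rw [add_assoc p q r]
        exact add c h (add d h' h'')⟩) R x y z hx hy hz
  zero R _ _ x hx a := par3 (natS (S a) (natO _) nat1) nat1
    (fun p _ _ _ _ _ h _ _ => ⟨0 + p, add a (On.self 0) h, by
      rw [zero_add]
      exact h⟩) R x x x hx hx hx
  neg R _ _ x hx a := par3 (natS (S a) (natP π) nat1) (natO _)
    (fun p _ _ _ _ _ h _ _ => ⟨-p + p, add a (h.neg hπ) h, by
      rw [neg_add_cancel]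
      exact On.self 0⟩) R x x x hx hx hx

end pkg

end T72

open T72 in
theorem st_PK1 (h0 : St_PK0) : St_PK1 := by
  intro κ σ _ _ _ _ A π hπ
  obtain ⟨nl, β, S, hβ, hS, hA⟩ := h0 κ σ A
  have add : ∀ a {p q : A.carrier} {x y : σ → κ}, On p x → On q y → On (p + q) (ev2 (S a) x y) :=
    fun a _ _ _ _ h h' => On.add (hS a) (fun p q => (hA p q).2 a) h h'
  let B : Pkg κ σ := pkg hπ hβ hS (fun p q => (hA p q).1) add
  let f : A.carrier → B.Pt κ := fun p => B.pt p.1.rep (uni_rep _) (On.self p).zr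
  have hf : ∀ p, B.Rep (f p) p.1.rep := fun p => Pkg.rep_pt _ _ _
  have hadd : ∀ p q, f (p + q) = f p + f q := fun p q => by
    obtain ⟨a, ha⟩ := (hf p).exists_add (hf q)
    exact (hf _).eq ha ((hA p q).2 a).symm
  refine ⟨B, AddEquiv.ofBijective (AddMonoidHom.mk' f hadd) ⟨fun p q h => ?_, fun P => ?_⟩, hf⟩
  · have h' : f p = f q := h
    obtain ⟨c, hc⟩ := ((hf p).par (h' ▸ hf q)).exists_smul (uni_rep _)
    apply Subtype.ext
    rw [← p.1.mk_rep, ← q.1.mk_rep, eq_comm, Projectivization.mk_eq_mk_iff']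
    exact ⟨c, hc.symm⟩
  · obtain ⟨x, hx⟩ := Pkg.exists_rep P
    obtain ⟨p, hp⟩ := exists_on (A := A) hx.zr
    exact ⟨p, (hf p).eq hx ((On.self p).par hp)⟩

end D4C
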