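import Pool.Agent.Lib.D4C.BlueF
import Pool.Agent.Lib.D4C.B_DESC

/-! A package is defined over a finite extension. -/

namespace D4C

open MvPolynomial TensorProduct

namespace T16

variable {k κ σ : Type} [Field k] [Field κ] [Algebra k κ]

theorem par_desc {R : Type} [CommRing R] [Algebra k R] {x y : σ → R}
    (h : Par (fun i => ((1 : κ) ⊗ₜ[k] x i : κ ⊗[k] R)) fun i => (1 : κ) ⊗ₜ[k] y i) : Par x y := by
  intro i j
  apply Algebra.TensorProduct.includeRight_injective (A := κ) (algebraMap k κ).injective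
  rw [map_mul, map_mul]
  exact h i j

theorem ev2_tensor {R : Type} [CommRing R] [Algebra k R] (A : σ → MvPolynomial (σ ⊕ σ) k)
    (x y : σ → R) :
    ev2 (fun i => MvPolynomial.map (algebraMap k κ) (A i))
      (fun i => ((1 : κ) ⊗ₜ[k] x i : κ ⊗[k] R)) (fun i => (1 : κ) ⊗ₜ[k] y i) =
      fun i => (1 : κ) ⊗ₜ[k] ev2 A x y i := by
  rw [ev2_ext]
  exact ev2_map (Algebra.TensorProduct.includeRight (R := k) (A := κ)) A x y

theorem const_tensor {R : Type} [CommRing R] [Algebra k R] (c : k) :
    algebraMap κ (κ ⊗[k] R) (algebraMap k κ c) = (1 : κ) ⊗ₜ[k] algebraMap k R c := by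
  rw [← IsScalarTower.algebraMap_apply]
  exact ((Algebra.TensorProduct.includeRight (R := k) (A := κ) (B := R)).commutes c).symm

variable [Fintype σ] [DecidableEq σ] [Algebra.IsAlgebraic k κ]

/-- descent of a package whose data come from the small field -/
theorem desc (B : Pkg κ σ)
    (hE : ext (B.I.comap (MvPolynomial.map (algebraMap k κ))) κ = B.I) (o : σ → k)
    (ho : ∀ i, algebraMap k κ (o i) = B.o i) (A : Fin B.nl → σ → MvPolynomial (σ ⊕ σ) k)
    (hA : ∀ a i, MvPolynomial.map (algebraMap k κ) (A a i) = B.A a i) :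
    ∃ (B' : Pkg k σ) (e : B.Pt κ ≃+ B'.Pt κ), ∀ p x, B.Rep p x ↔ B'.Rep (e p) x := by
  set J : Ideal (MvPolynomial σ k) := B.I.comap (MvPolynomial.map (algebraMap k κ)) with hJ
  have hA' : ∀ a, B.A a = fun i => MvPolynomial.map (algebraMap k κ) (A a i) :=
    fun a => funext fun i => (hA a i).symm
  have hz : ∀ (R : Type) [CommRing R] [Algebra k R] (x : σ → R),
      Zr B.I (fun i => ((1 : κ) ⊗ₜ[k] x i : κ ⊗[k] R)) ↔ Zr J x := fun R _ _ x => by
    rw [← hE]
    exact T83.zr_tensor
  have hev : ∀ (R : Type) [CommRing R] [Algebra k R] (a : Fin B.nl) (x y : σ → R),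
      ev2 (B.A a) (fun i => ((1 : κ) ⊗ₜ[k] x i : κ ⊗[k] R)) (fun i => (1 : κ) ⊗ₜ[k] y i) =
        fun i => (1 : κ) ⊗ₜ[k] ev2 (A a) x y i := fun R _ _ a x y => by
    rw [hA']
    exact ev2_tensor _ x y
  have hot : ∀ (R : Type) [CommRing R] [Algebra k R],
      (fun i => algebraMap κ (κ ⊗[k] R) (B.o i)) =
        fun i => (1 : κ) ⊗ₜ[k] algebraMap k R (o i) := fun R _ _ => funext fun i => by
    rw [← ho, const_tensor]
  let B' : Pkg k σ :=
    { I := J
      hom := fun F hF n => by
        show MvPolynomial.map (algebraMap k κ) _ ∈ B.I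
        rw [T83.map_hc]
        exact B.hom _ hF n
      gprime := fun Ω _ _ => T83.gprime_desc (κ := κ) J (hE.symm ▸ B.gprime) Ω
      o := o
      o_ne := fun h => B.o_ne (funext fun i => by rw [← ho, h]; simp)
      o_mem := fun F hF => by
        apply (algebraMap k κ).injective
        have h := B.o_mem _ hF
        rw [aeval_map_tower, ← funext ho] at h
        rw [map_zero, ← h]
        exact (aeval_map_alg (Algebra.ofId k κ) _ F).symm
      π := B.π
      nl := B.nl
      β := B.β
      β_pos := B.β_pos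
      A := A
      A_hom := fun a i d hd => B.A_hom a i (by
        rw [← hA, coeff_map]
        exact (map_ne_zero _).mpr hd)
      complete := fun Ω _ _ x y hx hy hx0 hy0 => by
        let f : κ →ₐ[k] AlgebraicClosure Ω := IsAlgClosed.lift
        let _ : Algebra κ (AlgebraicClosure Ω) := f.toRingHom.toAlgebra
        have : IsScalarTower k κ (AlgebraicClosure Ω) :=
          IsScalarTower.of_algebraMap_eq fun x => (f.commutes x).symm
        let g : Ω →ₐ[k] AlgebraicClosure Ω := IsScalarTower.toAlgHom k Ω _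
        obtain ⟨a, ha⟩ := B.complete (AlgebraicClosure Ω) (fun i => g (x i)) (fun i => g (y i))
          (by rw [← hE]; exact zr_ext.mpr (hx.map g)) (by rw [← hE]; exact zr_ext.mpr (hy.map g))
          (uni_iff_ne_zero.mp ((uni_iff_ne_zero.mpr hx0).map g))
          (uni_iff_ne_zero.mp ((uni_iff_ne_zero.mpr hy0).map g))
        have hne : ev2 (A a) x y ≠ 0 := by
          intro h
          apply ha
          rw [hA', ev2_ext, ev2_map, h]
          funext i
          simp
        exact ⟨a, hne⟩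
      neg_mem := fun R _ _ x hx => by
        have h := B.neg_mem _ _ ((hz R x).2 hx)
        exact (hz R (x ∘ B.π)).1 h
      add_mem := fun R _ _ x y hx hy a => (hz R _).1 (by
        rw [← hev]
        exact B.add_mem _ _ _ ((hz R x).2 hx) ((hz R y).2 hy) a)
      compat := fun R _ _ x y hx hy a b => par_desc (k := k) (κ := κ) (by
        rw [← hev, ← hev]
        exact B.compat _ _ _ ((hz R x).2 hx) ((hz R y).2 hy) a b)
      comm := fun R _ _ x y hx hy a b => par_desc (k := k) (κ := κ) (by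
        rw [← hev, ← hev]
        exact B.comm _ _ _ ((hz R x).2 hx) ((hz R y).2 hy) a b)
      assoc := fun R _ _ x y z hx hy hz' a b c d => par_desc (k := k) (κ := κ) (by
        rw [← hev, ← hev, ← hev, ← hev]
        exact B.assoc _ _ _ _ ((hz R x).2 hx) ((hz R y).2 hy) ((hz R z).2 hz') a b c d)
      zero := fun R _ _ x hx a => par_desc (k := k) (κ := κ) (by
        rw [← hev, ← hot]
        exact B.zero _ _ ((hz R x).2 hx) a)
      neg := fun R _ _ x hx a => par_desc (k := k) (κ := κ) (by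
        rw [← hev, ← hot]
        exact B.neg _ _ ((hz R x).2 hx) a) }
  have z1 : ∀ x : σ → κ, Zr B.I x ↔ Zr B'.I x := fun x => by
    rw [← hE]
    exact zr_ext
  have a1 : ∀ (a : Fin B.nl) (x y : σ → κ), ev2 (B.A a) x y = ev2 (B'.A a) x y := fun a x y => by
    rw [hA']
    exact ev2_ext _ x y
  let f : B.Pt κ →+ B'.Pt κ := B.transfer B' (fun x => (z1 x).1) fun a x y => ⟨a, a1 a x y⟩
  let g : B'.Pt κ →+ B.Pt κ := B'.transfer B (fun x => (z1 x).2) fun a x y => ⟨a, (a1 a x y).symm⟩
  have hf : ∀ p x, B.Rep p x → B'.Rep (f p) x := fun p x h => h.transfer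
  have hg : ∀ p x, B'.Rep p x → B.Rep (g p) x := fun p x h => h.transfer
  have gf : ∀ p, g (f p) = p := fun p => by
    obtain ⟨x, hx⟩ := Pkg.exists_rep p
    exact (hg _ _ (hf _ _ hx)).eq hx (Par.refl _)
  have fg : ∀ p, f (g p) = p := fun p => by
    obtain ⟨x, hx⟩ := Pkg.exists_rep p
    exact (hf _ _ (hg _ _ hx)).eq hx (Par.refl _)
  have hb : ∀ p x, B'.Rep (f p) x → B.Rep p x := fun p x h => by
    have h' := hg _ _ h
    rwa [gf] at h'
  let e : B.Pt κ ≃+ B'.Pt κ :=
    AddMonoidHom.toAddEquiv f g (AddMonoidHom.ext gf) (AddMonoidHom.ext fg)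
  exact ⟨B', e, fun p x => ⟨hf p x, hb p x⟩⟩

end T16

theorem st_PK2 : St_PK2 := by
  intro K κ σ _ _ _ _ _ _ B T
  classical
  obtain ⟨S, hS⟩ := (IsNoetherian.noetherian B.I : B.I.FG)
  let C : Finset κ := (T ∪ Finset.univ.image B.o) ∪ (S.biUnion coeffs ∪
    Finset.univ.biUnion fun ai : Fin B.nl × σ => coeffs (B.A ai.1 ai.2))
  let L := IntermediateField.adjoin K (C : Set κ)
  have hC : ∀ c ∈ C, c ∈ L := fun c hc => IntermediateField.subset_adjoin _ _ (Finset.mem_coe.2 hc)
  have : Algebra.IsAlgebraic L κ := Algebra.IsAlgebraic.tower_top (K := K) L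
  have hE : ext (B.I.comap (MvPolynomial.map (algebraMap L κ))) κ = B.I := by
    refine le_antisymm Ideal.map_comap_le ?_
    conv_lhs => rw [← hS]
    rw [Ideal.span_le]
    intro F hF
    obtain ⟨G, rfl⟩ : F ∈ Set.range (MvPolynomial.map (algebraMap L κ)) := by
      rw [mem_range_map_iff_coeffs_subset]
      exact fun c hc => ⟨⟨c, hC c (Finset.mem_union_right _ (Finset.mem_union_left _
        (Finset.mem_biUnion.2 ⟨F, hF, hc⟩)))⟩, rfl⟩
    exact Ideal.mem_map_of_mem _ (show MvPolynomial.map _ G ∈ B.I from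
      hS ▸ Ideal.subset_span hF)
  have hA : ∀ a i, B.A a i ∈ Set.range (MvPolynomial.map (algebraMap L κ)) := fun a i => by
    rw [mem_range_map_iff_coeffs_subset]
    exact fun c hc => ⟨⟨c, hC c (Finset.mem_union_right _ (Finset.mem_union_right _
      (Finset.mem_biUnion.2 ⟨(a, i), Finset.mem_univ _, hc⟩)))⟩, rfl⟩
  choose A hA using hA
  refine ⟨L, IntermediateField.finiteDimensional_adjoin fun x _ =>
    (Algebra.IsAlgebraic.isAlgebraic x).isIntegral,
    fun a ha => hC a (Finset.mem_union_left _ (Finset.mem_union_left _ ha)), ?_⟩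
  exact T16.desc B hE (fun i => ⟨B.o i, hC _ (Finset.mem_union_left _ (Finset.mem_union_right _
    (Finset.mem_image_of_mem _ (Finset.mem_univ i))))⟩) (fun _ => rfl) A hA

end D4C
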