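import Pool.Agent.Lib.D4C.BlueE
import Pool.Agent.Lib.D4P91.Elm

/-! The product lemma. -/

open MvPolynomial Height Height.AdmissibleAbsValues

namespace D4P91

variable {L : Type*} [Field L] [NumberField L] {ι ι' : Type*}

/-- Conclusion of the product lemma. -/
def Out (w : ι → ℕ) (x : ι → L) (r : ℝ) (D0 : ℕ) (C : ℝ) : Prop :=
  ∃ (a0 : ι) (Q : MvPolynomial ι L), Q ≠ 0 ∧ (∀ a ∈ Q.vars, w a = w a0) ∧ Q.totalDegree ≤ D0 ∧
    eval x Q = 0 ∧ hP Q ≤ C * w a0 * r

lemma Out.rename {f : ι → ι'} (hf : Function.Injective f) {w : ι' → ℕ} {x : ι' → L} {r C : ℝ}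
    {D0 : ℕ} (h : Out (w ∘ f) (x ∘ f) r D0 C) : Out w x r D0 C := by
  obtain ⟨a0, Q, h0, h1, h2, h3, h4⟩ := h
  refine ⟨f a0, MvPolynomial.rename f Q, fun h5 => h0 (rename_injective f hf (by simpa using h5)),
    fun a ha => ?_, (totalDegree_rename_le _ _).trans h2, by rwa [eval_rename], ?_⟩
  · obtain ⟨b, hb, rfl⟩ := mem_vars_rename f Q ha
    exact h1 b hb
  · rwa [hP_rename hf h0]

lemma Out.mono {w : ι → ℕ} {x : ι → L} {r r' C C' : ℝ} {D0 D0' : ℕ} (h : Out w x r D0 C)
    (hD : D0 ≤ D0') (hC : C * r ≤ C' * r') : Out w x r' D0' C' := by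
  obtain ⟨a0, Q, h0, h1, h2, h3, h4⟩ := h
  refine ⟨a0, Q, h0, h1, h2.trans hD, h3, h4.trans ?_⟩
  nlinarith [mul_le_mul_of_nonneg_left hC (Nat.cast_nonneg (α := ℝ) (w a0))]

/-- The product lemma for the index set `ι`. -/
def PLs (L : Type*) [Field L] [NumberField L] (ι : Type*) : Prop :=
  ∀ σ : ℝ, 0 < σ → ∃ (ρ D0 : ℕ) (C : ℝ), 0 ≤ C ∧ ∀ (w : ι → ℕ) (x : ι → L)
    (Φ : MvPolynomial ι L) (S HH : ℝ), (∀ a, 1 ≤ w a) → (∀ a b, w a < w b → ρ * w a ≤ w b) →
    Hyp w x Φ S HH σ → Out w x ((HH + S) / S) D0 C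

lemma PLs.equiv (h : PLs L ι) (e : ι' ≃ ι) : PLs L ι' := fun σ hσ => by
  obtain ⟨ρ, D0, C, hC, h1⟩ := h σ hσ
  refine ⟨ρ, D0, C, hC, fun w x Φ S HH hw hρ hy => ?_⟩
  refine Out.rename e.symm.injective (h1 _ _ (MvPolynomial.rename e Φ) S HH (fun a => hw _)
    (fun a b => hρ _ _) (Hyp.rename e ?_))
  simpa [Function.comp_assoc] using hy

theorem pls_fin (n : ℕ) : PLs L (Fin n) := by
  induction n with
  | zero =>
    intro σ hσ
    refine ⟨0, 0, 0, le_rfl, fun w x Φ S HH hw _ hy => ?_⟩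
    obtain ⟨G, S', -, ⟨a, -⟩, -⟩ := factor_step hy hw hσ
    exact a.elim0
  | succ n ih =>
    intro σ hσ
    have htw : (0 : ℝ) ≤ totalWeight L := Nat.cast_nonneg _
    set σ1 := min (σ / (2 * ((n + 1 : ℕ) + 1 + 2 * totalWeight L * (n + 1 : ℕ)))) 1 with hσ1
    have h1 : 0 < σ1 := lt_min (by positivity) one_pos
    obtain ⟨ρ, D0, C, hC, hi⟩ := ih (σ1 ^ 2 / 32) (by positivity)
    set c : ℝ := 4 * totalWeight L * (n + 1) with hc
    have hc0 : 0 ≤ c := by positivity
    set q := ⌈2 / σ1⌉₊ with hq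
    have hq1 : 2 ≤ σ1 * q := by
      have := Nat.le_ceil (2 / σ1)
      rwa [div_le_iff₀ h1, mul_comm] at this
    refine ⟨max ρ q, max D0 ((n + 1) * q), max (C * (c + 2)) q, le_max_of_le_right q.cast_nonneg,
      fun w x Φ S HH hw hρ hy => ?_⟩
    obtain ⟨G, S', hG, hv, hy1⟩ := factor_step hy hw hσ
    set r := (HH + S) / S with hr
    have hr1 : 1 ≤ r := by
      rw [hr, le_div_iff₀ hy.pos]; linarith [(hP_nonneg Φ).trans hy.ht]
    have hS' := hy1.pos
    have hy2 : Hyp w x G S' (S' * r) σ1 :=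
      { hy1 with ord := hy1.ord.mono (mul_le_mul_of_nonneg_right (min_le_left _ _) hS'.le) }
    obtain ⟨X0, hX, hmin⟩ := Finset.exists_min_image G.vars w hv
    by_cases hA : σ1 * S' < 2 * w X0
    · have hA1 : S' < q * w X0 := by
        have a1 : (0 : ℝ) ≤ w X0 := Nat.cast_nonneg _
        have a2 : σ1 * S' < σ1 * (q * w X0) := by nlinarith
        exact lt_of_mul_lt_mul_left a2 h1.le
      have hA2 : ∀ a, w a * degreeOf a G < q * w X0 := fun a => by
        exact_mod_cast (hy2.deg a).trans_lt hA1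
      refine ⟨X0, G, hy2.ne, fun a ha => le_antisymm (not_lt.1 fun hl => ?_) (hmin a ha), ?_,
        hy2.ord.eval_eq (mul_pos h1 hS'), ?_⟩
      · have a1 := Nat.pos_of_ne_zero (mem_vars_iff_degreeOf_ne_zero.1 ha)
        have a2 := (Nat.mul_le_mul_right _ (le_max_right ρ q)).trans (hρ _ _ hl)
        nlinarith [hA2 a]
      · refine le_max_of_le_right (Finset.sup_le fun d hd => ?_)
        rw [Finsupp.sum_fintype _ _ fun _ => rfl]
        have := Finset.sum_le_card_nsmul Finset.univ (fun a => d a) q fun a _ => by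
          refine (monomial_le_degreeOf a hd).trans ?_
          by_cases ha : a ∈ G.vars
          · have a1 := (Nat.mul_le_mul_right (degreeOf a G) (hmin a ha)).trans_lt (hA2 a)
            rw [mul_comm] at a1
            exact (lt_of_mul_lt_mul_right a1 (Nat.zero_le _)).le
          · rw [not_not.1 (mt mem_vars_iff_degreeOf_ne_zero.2 ha)]; exact Nat.zero_le _
        simpa using this
      · refine hy2.ht.trans (mul_le_mul_of_nonneg_right (hA1.le.trans ?_) (by linarith))
        exact mul_le_mul_of_nonneg_right (le_max_right _ _) (Nat.cast_nonneg _)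
    · set e := Equiv.swap X0 0 with he
      have hy3 : Hyp (w ∘ e) (x ∘ e) (MvPolynomial.rename e G) S' (S' * r) σ1 :=
        Hyp.rename e (by simpa [Function.comp_def, he] using hy2)
      have hd : degreeOf 0 (MvPolynomial.rename e G) ≠ 0 := by
        have := degreeOf_rename_of_injective (p := G) e.injective X0
        rw [he, Equiv.swap_apply_left] at this
        rw [he, this]
        exact mem_vars_iff_degreeOf_ne_zero.1 hX
      obtain ⟨m, R, hm, hy4⟩ := elim_step hy3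
        ((MulEquiv.prime_iff (renameEquiv L e).toMulEquiv).2 hG) (fun a => hw _) h1
        (min_le_right _ _) hd (by simpa [he] using not_lt.1 hA)
      have hm0 : (0 : ℝ) < m := by exact_mod_cast hm
      have ho := hi _ _ R _ _ (fun a => hw _) (fun a b hab =>
        (Nat.mul_le_mul_right _ (le_max_left ρ q)).trans (hρ _ _ hab)) hy4
      refine Out.rename e.injective (Out.rename (Fin.succ_injective n)
        (ho.mono (le_max_left _ _) ?_))
      have a1 : (m * (S' * r + c * S') + m * S') / (m * S') = r + c + 1 := by field_simp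
      rw [a1]
      refine le_trans ?_ (mul_le_mul_of_nonneg_right (le_max_left _ _) (by linarith))
      rw [mul_assoc]
      exact mul_le_mul_of_nonneg_left (by nlinarith) hC

end D4P91

theorem D4C.st_PL : D4C.St_PL := by
  intro L _ _ ι _ s hs
  obtain ⟨ρ, D0, C, hC, h⟩ := (D4P91.pls_fin (L := L) _).equiv (Fintype.equivFin ι) s hs
  refine ⟨ρ, D0, C, hC, fun w x Φ S HH hw hρ h0 hS hd hh ho => ?_⟩
  obtain ⟨a0, Q, h1, h2, h3, h4, h5⟩ := h w x Φ S HH hw hρ ⟨h0, hS, hd, hh, ho⟩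
  refine ⟨a0, Q, h1, h2, h3, by rwa [aeval_eq_eval], ?_⟩
  rw [← mul_div_assoc, le_div_iff₀ hS] at h5
  exact h5
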