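import Pool.Agent.Lib.D4C.BlueF

/-! Degree over the powers of a transcendence basis. -/

namespace D4C

open IntermediateField Module

namespace T39

variable {k F : Type} [Field k] [Field F] [Algebra k F]

theorem finrank_pow_one {t : F} (ht : Transcendental k t) (n : ℕ) :
    finrank (adjoin k {t ^ n}) F = n * finrank (adjoin k {t}) F := by
  let φ : RatFunc k →ₐ[k] F :=
    (adjoin k {t}).val.comp (RatFunc.algEquivOfTranscendental t ht : RatFunc k →ₐ[k] _)
  have h1 : φ RatFunc.X = t := RatFunc.algEquivOfTranscendental_X t ht
  have h2 := relfinrank_map_map (adjoin k {(RatFunc.X : RatFunc k) ^ n}) (adjoin k {RatFunc.X}) φ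
  rw [adjoin_map, adjoin_map, Set.image_singleton, Set.image_singleton, map_pow, h1,
    RatFunc.adjoin_X, relfinrank_top_right, RatFunc.finrank_eq_max_natDegree,
    ← RatFunc.algebraMap_X, ← map_pow, RatFunc.num_algebraMap, RatFunc.denom_algebraMap,
    Polynomial.natDegree_X_pow, Polynomial.natDegree_one, max_eq_left n.zero_le] at h2
  rw [← relfinrank_mul_finrank_top (A := adjoin k {t ^ n}) (B := adjoin k {t})
    (adjoin_simple_le_iff.mpr (pow_mem (mem_adjoin_simple_self k t) n)), h2]

theorem ind_pow {ι : Type} {z : ι → F} (hz : AlgebraicIndependent k z) (e : ι → ℕ)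
    (he : ∀ j, 1 ≤ e j) : AlgebraicIndependent k fun j => z j ^ e j := by
  simpa using hz.polynomial_aeval_of_transcendental (f := fun j => Polynomial.X ^ e j)
    fun j => (Polynomial.transcendental_X k).pow (he j)

theorem finrank_update {ι : Type} [DecidableEq ι] {z : ι → F} (hz : AlgebraicIndependent k z)
    (j : ι) (n : ℕ) : finrank (adjoin k (Set.range (Function.update z j (z j ^ n)))) F =
      n * finrank (adjoin k (Set.range z)) F := by
  have h1 : ∀ a, adjoin k (Set.range (Function.update z j a)) =
      (adjoin (adjoin k (z '' {j}ᶜ)) {a}).restrictScalars k := fun a => by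
    rw [adjoin_adjoin_left, ← Set.image_univ, ← Set.compl_union_self {j}, Set.image_union,
      Set.image_singleton, Function.update_self,
      Set.image_congr (s := {j}ᶜ) (g := z) fun i hi => Function.update_of_ne hi a z]
  have h2 := h1 (z j)
  rw [Function.update_eq_self] at h2
  rw [h1, h2]
  exact finrank_pow_one (k := adjoin k (z '' {j}ᶜ)) (transcendental_adjoin_iff.mpr
    (hz.transcendental_adjoin (s := {j}ᶜ) (by simp))) n

end T39

open T39 in
theorem st_POW : St_POW := by
  intro k F _ _ _ m n z hn hz hF
  have key : ∀ s : Finset (Fin m), finrank (adjoin k (Set.range fun j =>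
      z j ^ (if j ∈ s then n else 1))) F = n ^ s.card * finrank (adjoin k (Set.range z)) F := by
    intro s
    induction s using Finset.induction_on with
    | empty =>
      rw [show (fun j => z j ^ (if j ∈ (∅ : Finset (Fin m)) then n else 1)) = z from
        funext fun j => by simp, Finset.card_empty, pow_zero, one_mul]
    | insert j s hj ih =>
      have h := finrank_update (ind_pow hz (fun j => if j ∈ s then n else 1)
        fun j => by split_ifs <;> omega) j n
      rw [ih, ← mul_assoc, ← pow_succ', ← Finset.card_insert_of_notMem hj] at h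
      rw [← h, show (fun i => z i ^ (if i ∈ insert j s then n else 1)) = Function.update
        (fun j => z j ^ (if j ∈ s then n else 1)) j ((z j ^ (if j ∈ s then n else 1)) ^ n) from
        funext fun i => ?_]
      by_cases hi : i = j
      · subst hi; simp [hj]
      · simp [hi]
  have h := key Finset.univ
  rw [show (fun j => z j ^ (if j ∈ Finset.univ then n else 1)) = fun j => z j ^ n from
    funext fun j => by simp, Finset.card_univ, Fintype.card_fin] at h
  exact ⟨ind_pow hz _ fun _ => hn, FiniteDimensional.of_finrank_pos
    (h ▸ mul_pos (pow_pos hn m) finrank_pos), h⟩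

end D4C
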