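import Pool.Agent.Lib.D4C.B_SM
import Pool.Agent.Lib.D4C.B_LG

/-! d4c56, block RAC: the small field is relatively algebraically closed. -/

namespace D4C

open Filter Height

namespace T21u

theorem root_loc {L : Type} [Field L] (v : AbsoluteValue L ℝ) {d : ℕ} (c : ℕ → L) (a : L)
    (h : ∑ i ∈ Finset.range (d + 1), c i * a ^ i + a ^ (d + 1) = 0) :
    max (v a) 1 ≤ ((d : ℝ) + 1) * ∏ p : Fin (d + 1), max 1 (v (c p)) := by
  have hM : (1 : ℝ) ≤ ∏ p : Fin (d + 1), max 1 (v (c p)) :=
    Finset.one_le_prod fun _ _ => le_max_left _ _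
  have hc : ∀ i, i < d + 1 → v (c i) ≤ ∏ p : Fin (d + 1), max 1 (v (c p)) := fun i hi => by
    rw [← Finset.mul_prod_erase _ _ (Finset.mem_univ (⟨i, hi⟩ : Fin (d + 1)))]
    exact (le_max_right 1 _).trans (le_mul_of_one_le_right (by positivity)
      (Finset.one_le_prod fun _ _ => le_max_left _ _))
  generalize ∏ p : Fin (d + 1), max 1 (v (c p)) = M at hM hc
  have hd : (0 : ℝ) ≤ d := Nat.cast_nonneg d
  have h1 : (1 : ℝ) ≤ (d + 1) * M := by nlinarith
  rcases le_or_gt (v a) 1 with ha | ha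
  · exact max_le (ha.trans h1) h1
  · refine max_le ?_ h1
    have hp : 0 < v a ^ d := by positivity
    refine le_of_mul_le_mul_right ?_ hp
    calc v a * v a ^ d = v (∑ i ∈ Finset.range (d + 1), c i * a ^ i) := by
          rw [← pow_succ', ← map_pow, eq_neg_of_add_eq_zero_left h, v.map_neg]
      _ ≤ ∑ i ∈ Finset.range (d + 1), v (c i * a ^ i) := v.sum_le _ _
      _ ≤ ∑ _i ∈ Finset.range (d + 1), M * v a ^ d := Finset.sum_le_sum fun i hi => by
          rw [map_mul, map_pow]
          have hi' := Finset.mem_range.mp hi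
          exact mul_le_mul (hc i hi') (pow_le_pow_right₀ ha.le (by omega)) (by positivity)
            (by linarith)
      _ = (d + 1) * M * v a ^ d := by
          rw [Finset.sum_const, Finset.card_range, nsmul_eq_mul]; push_cast; ring

theorem root_ht {L : Type} [Field L] [NumberField L] {d : ℕ} (c : ℕ → L) (a : L)
    (h : ∑ i ∈ Finset.range (d + 1), c i * a ^ i + a ^ (d + 1) = 0) :
    logHeight₁ a ≤ Module.finrank ℚ L * Real.log (d + 1) +
      ∑ p : Fin (d + 1), logHeight₁ (c p) := by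
  have hd : (0 : ℝ) ≤ d := Nat.cast_nonneg d
  have := st_LG L (Fin 2) Empty Unit Unit ![a, 1] (fun _ => 1) (fun _ _ => 1) (fun _ => 0)
    (fun _ => 0) (d + 1) (Fin (d + 1)) (fun p => {c p}) (fun _ => 1) 1
    (Function.ne_iff.mpr ⟨1, by simp⟩) (Function.ne_iff.mpr ⟨(), by simp⟩) (fun q => q.elim)
    (by linarith) one_ne_zero fun v => by
      have e : sn v ![a, 1] ≤ max (v a) 1 := ciSup_le (by simp [Fin.forall_fin_two])
      simpa [sn, hv] using e.trans (root_loc v c a h)
  simpa [hA, ← logHeight₁_eq_logHeight] using this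

end T21u

open T21u T20 in
theorem st_RAC : St_RAC := by
  intro U L _ _ H hH a ha
  obtain ⟨f, rfl⟩ := toU_surj a
  have hi := ha.isIntegral
  obtain ⟨d, hd⟩ : ∃ d, (minpoly (sm U L H) (toU U f)).natDegree = d + 1 :=
    Nat.exists_eq_succ_of_ne_zero (minpoly.natDegree_pos hi).ne'
  have h0 := minpoly.aeval (sm U L H) (toU U f)
  have h1 := (minpoly.monic hi).coeff_natDegree
  generalize minpoly (sm U L H) (toU U f) = P at hd h0 h1
  rw [Polynomial.aeval_def, Polynomial.eval₂_eq_sum_range, Finset.sum_range_succ, h1, map_one,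
    one_mul, hd] at h0
  choose c hc using fun i => toU_surj (P.coeff i).1
  have h2 : toU U (∑ i ∈ Finset.range (d + 1), c i * f ^ i + f ^ (d + 1)) = toU U 0 := by
    rw [map_zero, ← h0, map_add, map_sum, map_pow]
    simp only [map_mul, map_pow, hc]
    rfl
  refine (mem_sm hH).mpr (lo_mono (lo_add (lo_const hH (Module.finrank ℚ L * Real.log (d + 1)))
    (lo_sum hH Finset.univ (a := fun (p : Fin (d + 1)) n => logHeight₁ (c p n))
      fun p _ => (mem_sm hH).mp (hc p ▸ (P.coeff p).2))) ?_)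
  refine (toU_eq.mp h2).mono fun n hn => root_ht (fun i => c i n) (f n) ?_
  simpa only [Pi.add_apply, Finset.sum_apply, Pi.mul_apply, Pi.pow_apply, Pi.zero_apply] using hn

end D4C
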