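import Pool.Agent.Lib.D4C.BlueA

/-! The tangent matrix has full rank. -/

namespace D4C

open MvPolynomial

namespace T80

variable {L : Type} [Field L]

/-- independent columns are completed by coordinate vectors -/
theorem complete_rows {g m c : ℕ} (h : m + c = g) (T : Fin g → Fin m → L)
    (hT : ∀ cc : Fin m → L, (∀ b, ∑ j, cc j * T b j = 0) → ∀ j, cc j = 0) :
    ∃ ι : Fin c → Fin g, Function.Injective ι ∧ ∀ γ : L, γ ≠ 0 → LinearIndependent L
      fun b : Fin g => (Sum.elim (fun j => γ * T b j)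
        (fun j => if ι j = b then 1 else 0) : Fin m ⊕ Fin c → L) := by
  classical
  have h1 : LinearIndependent L (Matrix.of T).transpose.row :=
    Fintype.linearIndependent_iff.2 fun cc hcc => hT cc fun b => by
      simpa [Finset.sum_apply] using congrFun hcc b
  have h2 := h1.rank_matrix
  rw [Matrix.rank_transpose, Matrix.rank_eq_finrank_span_row, Fintype.card_fin] at h2
  obtain ⟨S, -, -, hsp, hli⟩ := exists_linearIndepOn_extension
    (linearIndepOn_empty L (Matrix.of T).row) (Set.empty_subset Set.univ)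
  have h3 : Fintype.card S = m := by
    rw [← finrank_span_eq_card hli]
    refine Eq.trans (congrArg (fun V : Submodule L (Fin m → L) => Module.finrank L V) ?_) h2
    refine le_antisymm (Submodule.span_mono ?_) (Submodule.span_le.2 ?_)
    · rintro _ ⟨b, rfl⟩
      exact ⟨b.1, rfl⟩
    · rw [← Set.image_univ, ← Set.image_eq_range]
      exact hsp
  have h4 : S.toFinsetᶜ.card = c := by
    rw [Finset.card_compl, Set.toFinset_card, h3, Fintype.card_fin]
    omega
  refine ⟨S.toFinsetᶜ.orderEmbOfFin h4, (S.toFinsetᶜ.orderEmbOfFin h4).injective, fun γ hγ =>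
    Fintype.linearIndependent_iff.2 fun l hl => ?_⟩
  have h5 : ∀ b, b ∉ S → l b = 0 := by
    intro b hb
    obtain ⟨j, rfl⟩ : b ∈ Set.range (S.toFinsetᶜ.orderEmbOfFin h4) := by
      rw [Finset.range_orderEmbOfFin]
      simpa using hb
    simpa [Finset.sum_apply] using congrFun hl (Sum.inr j)
  have h6 : ∑ b : S, l b • (Matrix.of T).row b = 0 := by
    funext j
    have h7 := congrFun hl (Sum.inl j)
    rw [Finset.sum_apply, ← Finset.sum_subset (Finset.subset_univ S.toFinset)
      fun b _ hb => by simp [h5 b (by simpa using hb)],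
      Finset.sum_subtype (p := fun b => b ∈ S) _ fun b => Set.mem_toFinset] at h7
    refine mul_left_cancel₀ hγ ?_
    rw [Finset.sum_apply, Finset.mul_sum, Pi.zero_apply, mul_zero]
    refine Eq.trans (Finset.sum_congr rfl fun b _ => ?_) h7
    simp [Matrix.row, mul_left_comm]
  intro b
  by_cases hb : b ∈ S
  · exact Fintype.linearIndependent_iff.1 hli (fun b => l b) h6 ⟨b, hb⟩
  · exact h5 b hb

section zt
variable {m : ℕ} {S S' : Type} [CommRing S] [CommRing S'] [Algebra L S] [Algebra L S']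

theorem ev_map (f : S →ₐ[L] S') (z : Fin m → S) (t : S) (q : ZT L m) :
    f (evZT z t q) = evZT (fun j => f (z j)) (f t) q :=
  AlgHom.congr_fun (Polynomial.algHom_ext' (f := f.comp (evZT z t))
    (g := evZT (fun j => f (z j)) (f t)) (MvPolynomial.algHom_ext fun j => by simp [evZT])
    (by simp [evZT])) q

theorem ev_dvd {z : Fin m → S} {t : S} {P a b : ZT L m} (h : evZT z t P = 0) (k : P ∣ a - b) :
    evZT z t a = evZT z t b := by
  obtain ⟨c, hc⟩ := k
  rw [← sub_eq_zero, ← map_sub, hc, map_mul, h, zero_mul]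

theorem ev_add (z : Fin m → S) (t u : S) (hu : u ^ 2 = 0) (q : ZT L m) :
    evZT z (t + u) q = evZT z t q + evZT z t (Polynomial.derivative q) * u := by
  have key : ∀ (s : S) (q : ZT L m), evZT z s q
      = (q.map (aeval z : MvPolynomial (Fin m) L →ₐ[L] S).toRingHom).eval s :=
    fun s q => (Polynomial.eval_map _ _).symm
  rw [key, key, key, Polynomial.eval_add_of_sq_eq_zero _ _ _ hu, Polynomial.derivative_map]

end zt

theorem dn_fst (a b : L) : (dn a b).fst = a := by simp [dn]

theorem dn_snd (a b : L) : (dn a b).snd = b := by simp [dn]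

theorem dn_zero (a : L) : dn a 0 = algebraMap L (DualNumber L) a := by
  simp [dn, TrivSqZeroExt.algebraMap_eq_inl]

theorem ev_fst {m : ℕ} (z : Fin m → DualNumber L) (t : DualNumber L) (q : ZT L m) :
    (evZT z t q).fst = evZT (fun j => (z j).fst) t.fst q :=
  ev_map (TrivSqZeroExt.fstHom L L L) z t q

theorem unit_of_fst {x : DualNumber L} (h : x.fst ≠ 0) : IsUnit x :=
  TrivSqZeroExt.isUnit_iff_isUnit_fst.2 (isUnit_iff_ne_zero.2 h)

/-- a root moves to first order along any direction -/
theorem lift_root {m : ℕ} {P : ZT L m} {z : Fin m → L} {t : L} (h : evZT z t P = 0)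
    (h' : evZT z t (Polynomial.derivative P) ≠ 0) (cc : Fin m → L) :
    ∃ u : L, evZT (fun j => dn (z j) (cc j)) (dn t u) P = 0 := by
  refine ⟨-(evZT (fun j => dn (z j) (cc j)) (dn t 0) P).snd / evZT z t (Polynomial.derivative P),
    ?_⟩
  have e : ∀ u : L, dn t u = dn t 0 + TrivSqZeroExt.inr u := fun u => by simp [dn]
  rw [e, ev_add _ _ _ (by rw [sq, TrivSqZeroExt.inr_mul_inr])]
  refine TrivSqZeroExt.ext ?_ ?_
  · simp [ev_fst, dn_fst, h]
  · simp only [TrivSqZeroExt.snd_add, DualNumber.snd_mul, TrivSqZeroExt.fst_inr,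
      TrivSqZeroExt.snd_inr, ev_fst, dn_fst, mul_zero, add_zero, TrivSqZeroExt.snd_zero]
    field_simp
    ring

variable {σ : Type} [Fintype σ] [DecidableEq σ] {B : Pkg L σ} {g : ℕ}

theorem num_o (C : Chart B g) (b : Fin g) : aeval B.o (C.num b) = 0 := by
  have h := congrArg MvPowerSeries.constantCoeff (C.coord b)
  rw [map_mul, MvPowerSeries.constantCoeff_X, zero_mul] at h
  let f : MvPowerSeries (Fin g) L →ₐ[L] L :=
    { MvPowerSeries.constantCoeff with commutes' := fun r => MvPowerSeries.constantCoeff_C r }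
  have h1 := aeval_map_alg f C.τ (C.num b)
  rw [show (fun i => f (C.τ i)) = B.o from funext C.τ_o] at h1
  exact h1.trans h

end T80

open T80 in
theorem st_RANK (hT : St_TAN) : St_RANK := by
  intro L σ _ _ _ B g m c hg C W e D x z t a hA
  refine complete_rows hg _ fun cc hcc j => ?_
  have hΔ : evZT z t (Polynomial.C W.Δ) ≠ 0 := by
    rw [evZT, Polynomial.aevalTower_C]
    exact hA.Δ_ne
  have hPT : evZT z t (Polynomial.derivative W.P) ≠ 0 := by
    rw [← ev_dvd hA.root hA.ok.sep, map_mul] at hΔ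
    exact left_ne_zero_of_mul hΔ
  have hθ : evZT z t W.θ ≠ 0 := by
    rw [← ev_dvd hA.root hA.ok.θ_inv, map_mul] at hΔ
    exact left_ne_zero_of_mul hΔ
  obtain ⟨u, hu⟩ := lift_root hA.root hPT cc
  have hN := hT L σ B g C a L L m W.P W.φ _ _ hu (by simpa only [dn_fst] using hA.rep.zr)
  simp only [dn_fst, dn_snd, dn_zero] at hN
  set zd : Fin m → DualNumber L := fun j => dn (z j) (cc j) with hzd
  set y : σ → DualNumber L := fun i => evZT zd (dn t u) (W.φ i) with hy
  have hf : ∀ q : ZT L m, (evZT zd (dn t u) q).fst = evZT z t q := fun q => by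
    simp only [ev_fst, hzd, dn_fst]
  have hyu : Uni y := by
    obtain ⟨i, hi⟩ := hA.rep.uni
    exact ⟨i, unit_of_fst (by rw [hy, hf]; exact hi.ne_zero)⟩
  have hyz : Zr B.I y := fun F hF => by
    rw [hy, aeval_map_alg, ev_dvd hu (b := 0) (by rw [sub_zero]; exact hA.ok.mem F hF), map_zero]
  have hx' := hA.rep.map (Algebra.ofId L (DualNumber L))
  have hw := (Pkg.rep_pt y hyu hyz).add hx'.neg (a := a) (by
    obtain ⟨i, hi⟩ := Function.ne_iff.1 hA.law
    refine ⟨i, unit_of_fst ?_⟩
    have h1 := congrFun (ev2_map (TrivSqZeroExt.fstHom L L L) (B.A a) y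
      ((fun i => Algebra.ofId L (DualNumber L) (evZT z t (W.φ i))) ∘ B.π)) i
    refine fun h => hi (Eq.trans ?_ (h1.trans h))
    congr 1
    exact funext fun i => (hf _).symm)
  have hres : B.map (res L (DualNumber L))
      (B.pt y hyu hyz + -B.map (Algebra.ofId L (DualNumber L)) x) = 0 := by
    rw [map_add, map_neg, add_neg_eq_zero]
    refine ((Pkg.rep_pt y hyu hyz).map _).eq (hx'.map _) ?_
    rw [show (fun i => res L (DualNumber L) (y i)) = fun i => res L (DualNumber L)
      (Algebra.ofId L (DualNumber L) (evZT z t (W.φ i))) from funext fun i => ?_]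
    · exact Par.refl _
    · rw [← sub_eq_zero, ← map_sub]
      refine (IsLocalRing.residue_eq_zero_iff _).2 fun h => ?_
      refine (TrivSqZeroExt.isUnit_iff_isUnit_fst.1 h).ne_zero ?_
      rw [TrivSqZeroExt.fst_sub, hy, hf]
      exact sub_self _
  have h0 := C.inj _ _ 0 _ _ hres (map_zero _) hw Pkg.rep_zero fun b => by
    have h1 : aeval (fun i => algebraMap L (DualNumber L) (B.o i)) (C.num b) = 0 := by
      exact (aeval_map_alg (Algebra.ofId L (DualNumber L)) _ _).trans (by rw [num_o, map_zero])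
    rw [h1, zero_mul]
    refine mul_eq_zero_of_left (TrivSqZeroExt.ext (hN b).1 ?_) _
    exact (mul_eq_zero.1 (((hN b).2 hPT).trans (hcc b))).resolve_left hPT
  rw [add_neg_eq_zero] at h0
  obtain ⟨r, hr⟩ := (hx'.par (h0 ▸ Pkg.rep_pt y hyu hyz)).exists_smul hx'.uni
  have key : ∀ k, evZT zd (dn t u) (zv L m k) * evZT zd (dn t u) W.θ
      = r ^ e * algebraMap L (DualNumber L) (evZT z t (zv L m k) * evZT z t W.θ) := by
    intro k
    rw [← map_mul, ← map_mul, ← ev_dvd hu (hA.ok.ξ_eq k), ← ev_dvd hA.root (hA.ok.ξ_eq k),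
      ← aeval_map_alg, ← aeval_map_alg, ← hy, hr, aeval_smul_hom (hA.ok.ξ_hom k)]
    exact congrArg _ (aeval_map_alg (Algebra.ofId L (DualNumber L)) _ _)
  have k1 := key (Fin.last m)
  have k2 := key j.castSucc
  simp only [zv, Fin.snoc_last, Fin.snoc_castSucc, map_one, one_mul, evZT,
    Polynomial.aevalTower_C, aeval_X] at k1 k2
  rw [map_mul, mul_left_comm, ← k1] at k2
  have k3 := (unit_of_fst (x := evZT zd (dn t u) W.θ) (by rw [hf]; exact hθ)).mul_right_cancel k2
  simpa [hzd, dn_snd, TrivSqZeroExt.algebraMap_eq_inl] using congrArg TrivSqZeroExt.snd k3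

end D4C
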