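import Pool.Agent.Lib.D4C.BlueE

/-! Row REDN of the d4c56 blueprint: iteration of the Nullstellensatz identity. -/

namespace D4C

open MvPolynomial

namespace T81

variable {L σ : Type} [Field L] [Fintype σ]

theorem aeval_mon {R : Type} [CommRing R] [Algebra L R] (x : σ → R) (ν : σ →₀ ℕ) (c : L) :
    aeval x (monomial ν c) = algebraMap L R c * mon x ν := by
  rw [aeval_monomial, Finsupp.prod_fintype _ _ fun _ => pow_zero _, mon]

theorem mon_add {R : Type} [CommRing R] (x : σ → R) (ν μ : σ →₀ ℕ) :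
    mon x (ν + μ) = mon x ν * mon x μ := by
  simp only [mon, Finsupp.add_apply, pow_add, Finset.prod_mul_distrib]

theorem l1_sum_le (hL : St_L1) {τ ι : Type} (v : AbsoluteValue L ℝ) (s : Finset ι)
    (F : ι → MvPolynomial τ L) : l1 v (∑ i ∈ s, F i) ≤ ∑ i ∈ s, l1 v (F i) :=
  Finset.le_sum_of_subadditive (l1 v) (by simp [l1]) (fun F G => ((hL L v τ).1 F G).1) s F

theorem red_zero (hL : St_L1) {m e D r0 : ℕ} (ξ : Fin (m + 1) → MvPolynomial σ L)
    (H : (σ →₀ ℕ) → Fin (m + 1) → MvPolynomial σ L) :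
    IsRed ξ H e D r0 0 fun ν => monomial (ν.mapDomain Sum.inr) 1 where
  deg := fun ν hν ε hε => by
    classical
    obtain rfl : ε = ν.mapDomain Sum.inr := by
      simpa [support_monomial] using hε
    have h1 : fl (ν.mapDomain (Sum.inr : σ → Fin (m + 1) ⊕ σ)) = 0 := by
      ext j
      simp [fl, Finsupp.mapDomain_of_notMem_range]
    have h2 : fr (ν.mapDomain (Sum.inr : σ → Fin (m + 1) ⊕ σ)) = ν :=
      Finsupp.comapDomain_mapDomain _ Sum.inr_injective ν
    rw [h1, h2]
    exact ⟨map_zero _, by simpa using hν⟩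
  norm := fun v b _ _ ν _ => by rw [(hL L v _).2.1, map_one, pow_zero]
  val := fun R _ _ x _ ν _ => by
    rw [← rename_monomial, aeval_rename, Sum.elim_comp_inr, aeval_mon, map_one, one_mul]

theorem red_succ (hL : St_L1) {m e D r0 n : ℕ} {ξ : Fin (m + 1) → MvPolynomial σ L}
    {H : (σ →₀ ℕ) → Fin (m + 1) → MvPolynomial σ L} (h0 : e * D ≤ r0)
    (hH : ∀ ν j, ν.degree = e * (D + 1) → (H ν j).IsHomogeneous (e * D))
    {K : (σ →₀ ℕ) → MvPolynomial (Fin (m + 1) ⊕ σ) L} (hK : IsRed ξ H e D r0 n K) :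
    ∃ K, IsRed ξ H e D r0 (n + 1) K := by
  classical
  have sp : ∀ ν : σ →₀ ℕ, ∃ a b : σ →₀ ℕ, ν.degree = r0 + e * (n + 1) →
      a + b = ν ∧ a.degree = e * (D + 1) ∧
        ∀ j, ∀ μ ∈ (H a j).support, (b + μ).degree = r0 + e * n := fun ν => by
    by_cases hν : ν.degree = r0 + e * (n + 1)
    · obtain ⟨a, ha, ha'⟩ := Finsupp.exists_le_degree_eq ν (e * (D + 1)) (by
        rw [hν, mul_add, mul_add]; omega)
      obtain ⟨b, rfl⟩ := exists_add_of_le ha
      refine ⟨a, b, fun _ => ⟨rfl, ha', fun j μ hμ => ?_⟩⟩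
      have h1 : μ.degree = e * D := by
        rw [Finsupp.degree_eq_weight_one]
        exact hH a j ha' (mem_support_iff.mp hμ)
      rw [map_add, ha', mul_add, mul_add] at hν
      rw [map_add, h1]
      omega
    · exact ⟨0, 0, fun h => absurd h hν⟩
  choose a b hab using sp
  refine ⟨fun ν => ∑ j, ∑ μ ∈ (H (a ν) j).support,
    X (Sum.inl j) * (C (coeff μ (H (a ν) j)) * K (b ν + μ)), fun ν hν ε hε => ?_,
    fun v β hβ hb ν hν => ?_, fun R _ _ x hx ν hν => ?_⟩
  · obtain ⟨-, -, h3⟩ := hab ν hν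
    obtain ⟨j, -, hj⟩ := Finset.mem_biUnion.mp (support_sum hε)
    obtain ⟨μ, hμ, hj⟩ := Finset.mem_biUnion.mp (support_sum hj)
    rw [support_X_mul, Finset.mem_map] at hj
    obtain ⟨ε', h4, rfl⟩ := hj
    rw [C_mul'] at h4
    obtain ⟨h5, h6⟩ := hK.deg _ (h3 j μ hμ) ε' (support_smul h4)
    have e1 : fl (addLeftEmbedding (Finsupp.single (Sum.inl j) 1) ε') =
        Finsupp.single j 1 + fl ε' := by
      ext i
      simp [fl, Finsupp.single_apply]
    have e2 : fr (addLeftEmbedding (Finsupp.single (Sum.inl j) 1) ε') = fr ε' := by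
      ext i
      simp [fr]
    rw [e1, e2, map_add, h5, Finsupp.degree_single, add_comm]
    exact ⟨rfl, h6⟩
  · obtain ⟨-, h2, h3⟩ := hab ν hν
    have hp : 0 ≤ β ^ n := pow_nonneg (zero_le_one.trans hβ) n
    calc _ ≤ ∑ j, l1 v (H (a ν) j) * β ^ n := by
          refine (l1_sum_le hL v _ _).trans (Finset.sum_le_sum fun j _ => ?_)
          refine (l1_sum_le hL v _ _).trans ?_
          rw [l1, Finset.sum_mul]
          refine Finset.sum_le_sum fun μ hμ => ((hL L v _).1 _ _).2.trans ?_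
          rw [X, (hL L v _).2.1, map_one, one_mul]
          refine ((hL L v _).1 _ _).2.trans ?_
          rw [C_apply, (hL L v _).2.1]
          exact mul_le_mul_of_nonneg_left (hK.norm v β hβ hb _ (h3 j μ hμ)) (v.nonneg _)
      _ ≤ β ^ (n + 1) := by
          rw [← Finset.sum_mul, pow_succ']
          exact mul_le_mul_of_nonneg_right (hb _ h2) hp
  · obtain ⟨h1, h2, h3⟩ := hab ν hν
    have h4 := hx _ h2
    rw [map_sub, aeval_mon, map_one, one_mul, sub_eq_zero, map_sum] at h4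
    conv_lhs => rw [← h1, mon_add, h4, Finset.sum_mul]
    rw [map_sum]
    refine Finset.sum_congr rfl fun j _ => ?_
    conv_lhs => rw [map_mul, (H (a ν) j).as_sum, map_sum, mul_assoc, Finset.sum_mul, Finset.mul_sum]
    rw [map_sum]
    refine Finset.sum_congr rfl fun μ hμ => ?_
    rw [map_mul, map_mul, aeval_X, aeval_C, ← hK.val R x hx _ (h3 j μ hμ), aeval_mon, mon_add,
      Sum.elim_inl]
    ring

end T81

theorem st_REDN (hL : St_L1) : St_REDN := by
  intro L σ _ _ m e D r0 n ξ H h hH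
  induction n with
  | zero => exact ⟨_, T81.red_zero hL ξ H⟩
  | succ n ih =>
    have h0 : e * D ≤ r0 := h.resolve_right (Nat.succ_ne_zero n)
    obtain ⟨K, hK⟩ := ih (Or.inl h0)
    exact T81.red_succ hL h0 hH hK

end D4C
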