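import Pool.Agent.Lib.D4C.BlueE
import Pool.Agent.Lib.D4C.B_FVAL

/-! d4c blueprint, row RELB: comparison of the expansions for different laws. -/

namespace D4C

open MvPolynomial

namespace T94

/-- the constant term as an algebra map -/
noncomputable def relb_cc (ρ L : Type) [Field L] : PS ρ L →ₐ[L] L :=
  { MvPowerSeries.constantCoeff (σ := ρ) (R := L) with
    commutes' := fun a => by
      change MvPowerSeries.constantCoeff (algebraMap L (MvPowerSeries ρ L) a) = a
      rw [MvPowerSeries.algebraMap_apply, MvPowerSeries.constantCoeff_C]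
      rfl }

theorem relb_cc_apply {ρ L : Type} [Field L] (f : PS ρ L) :
    relb_cc ρ L f = MvPowerSeries.constantCoeff f := rfl

theorem relb_uni {ρ L σ : Type} [Field L] {y : σ → PS ρ L}
    (h : Uni fun a => MvPowerSeries.constantCoeff (y a)) : Uni y := by
  obtain ⟨a, ha⟩ := h
  exact ⟨a, MvPowerSeries.isUnit_iff_constantCoeff.2 ha⟩

theorem relb_evB_sum {κ σ L R ι : Type} [Field L] [CommRing R] [Algebra L R] [Fintype ι]
    (x : κ → σ → R) (c : ι → L) (F : ι → MvPolynomial (κ × σ) L) :
    evB x (∑ ω, c ω • F ω) = ∑ ω, algebraMap L R (c ω) * evB x (F ω) := by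
  unfold evB
  rw [map_sum]
  exact Finset.sum_congr rfl fun ω _ => by rw [map_smul, Algebra.smul_def]

end T94

open T94 in
theorem st_RELB : St_RELB := by
  intro L σ _ _ _ B g C k T d κ s Dm ρ x y hM hy
  have hu : ∀ i, Uni (y i) := fun i => relb_uni (hy i).2.uni
  let p : Fin (k + 1) → B.Pt (PS ρ L) := fun i => B.pt (y i) (hu i) (hy i).1
  have hp : ∀ i, B.Rep (p i) (y i) := fun i => Pkg.rep_pt _ _ _
  have hpx : ∀ i, B.map (relb_cc ρ L) (p i) = x i := fun i =>
    ((hp i).map (relb_cc ρ L)).eq (hy i).2 (Par.refl _)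
  choose U hU using fun i => Pkg.exists_rep (2 ^ κ i • p i)
  choose W hW using fun i => Pkg.exists_rep (2 ^ κ i • p i - 2 ^ κ 0 • p 0)
  have hlam : ∀ i a, ∃ c : PS ρ L, ev2 (B.A a) (U i) (U 0 ∘ B.π) = c • W i := fun i a =>
    (hU i).law_eq_smul (hU 0).neg (by rw [← sub_eq_add_neg]; exact hW i) a
  choose lam hlam using hlam
  refine ⟨fun i a => relb_cc ρ L (U i a), fun i a => relb_cc ρ L (W i a), lam, fun i => ?_,
    fun i => ?_, fun i a => ?_, fun c Λ Λ' => ?_⟩
  · have := (hU i).map (relb_cc ρ L)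
    rwa [map_nsmul, hpx] at this
  · have := (hW i).map (relb_cc ρ L)
    rwa [map_sub, map_nsmul, map_nsmul, hpx, hpx] at this
  · have h1 := ev2_map (relb_cc ρ L) (B.A a) (U i) (U 0 ∘ B.π)
    rw [hlam i a] at h1
    refine Eq.trans h1 (funext fun t => ?_)
    simp only [Pi.smul_apply, smul_eq_mul, map_mul, relb_cc_apply]
  · let Ω := FractionRing (PS ρ L)
    let f : PS ρ L →ₐ[L] Ω := IsScalarTower.toAlgHom L (PS ρ L) Ω
    have hf : Function.Injective f := IsFractionRing.injective (PS ρ L) Ω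
    let w : Fin (k + 1) → σ → Ω :=
      Function.update (fun i a => f (W i a)) 0 fun a => f (U 0 a)
    obtain ⟨E, -, hE⟩ := st_FVAL L σ B g C k T d κ s Dm hM Ω (fun i => B.map f (p i))
      (fun i a => f (y i a)) (fun i a => f (U i a)) w (fun i => (hp i).map f)
      (fun i => by rw [← map_nsmul]; exact (hU i).map f) (Function.update_self _ _ _)
    have key : ∀ Λ : Fin (k + 1) → Fin B.nl, f (evB y (∑ ω, c ω • eL C T d κ s Dm Λ ω)) =
        (∑ ω : Idx g k T d κ, algebraMap L Ω (c ω) *
          ((∏ i, ∏ a, f (y i a) ^ s i (ω.1 i) a) * (∏ i, E i) *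
            ∏ i, aeval (w i) (om C (dd T d i) (ω.2 i)))) *
          f (∏ i ∈ Finset.univ.erase 0, lam i (Λ i) ^ (C.dg * (g * (T * d)))) := fun Λ => by
      rw [← T1.evB_map f, relb_evB_sum, Finset.sum_mul]
      refine Finset.sum_congr rfl fun ω _ => ?_
      rw [hE Λ (fun i => f (lam i (Λ i))) (fun i hi => ?_) ω, map_prod]
      · simp only [map_pow]
        ring
      · have h1 := ev2_map f (B.A (Λ i)) (U i) (U 0 ∘ B.π)
        rw [hlam i (Λ i)] at h1
        have h2 : w i = fun a => f (W i a) := Function.update_of_ne hi _ _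
        rw [h2]
        refine Eq.trans h1 (funext fun t => ?_)
        simp only [Pi.smul_apply, smul_eq_mul, map_mul]
    apply hf
    rw [map_mul, map_mul, key, key]
    ring

end D4C
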