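import Pool.Agent.Lib.D4C.BlueF
import Pool.Agent.Lib.D4C.B_RED

namespace D4C

open MvPolynomial

theorem st_RHO : St_RHO := by
  intro L σ _ _ _ B k K Ω _ _ _ _ _ _ _ _ _ _ P
  let _ : Algebra k P.O := ((algebraMap k K).codRestrict P.O.toSubring P.mem).toAlgebra
  let _ : Algebra L P.O := ((algebraMap k P.O).comp (algebraMap L k)).toAlgebra
  have : IsScalarTower L k P.O := IsScalarTower.of_algebraMap_eq' rfl
  have : IsScalarTower k P.O K := IsScalarTower.of_algebraMap_eq' rfl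
  have : IsScalarTower L P.O K := IsScalarTower.of_algebraMap_eq fun a =>
    IsScalarTower.algebraMap_apply L k K a
  let ψ : P.O →ₐ[k] Ω := { P.ψ with commutes' := P.alg }
  let e := AddEquiv.ofBijective _ (st_RED L σ B P.O K)
  let ρ : B.Pt K →+ B.Pt Ω := (B.map (ψ.restrictScalars L)).comp e.symm.toAddMonoidHom
  have h1 : ∀ p', ρ (B.map (IsScalarTower.toAlgHom L P.O K) p') = B.map (ψ.restrictScalars L) p' :=
    fun p' => congrArg (B.map (ψ.restrictScalars L)) (e.symm_apply_apply p')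
  have h3 : ∀ (p : B.Pt K) (x : σ → P.O), (B.Rep p fun i => (x i : K)) →
      (fun i => P.ψ (x i)) ≠ 0 → B.Rep (ρ p) fun i => P.ψ (x i) := fun p x hx h0 => by
    obtain ⟨i, hi⟩ := Function.ne_iff.mp h0
    have hu : Uni x := ⟨i, by_contra fun h => hi ((P.ker _).mpr h)⟩
    have hz : Zr B.I x := fun F hF => Subtype.ext
      ((aeval_map_alg (IsScalarTower.toAlgHom L P.O K) x F).symm.trans (hx.zr F hF))
    rw [hx.eq ((Pkg.rep_pt x hu hz).map (IsScalarTower.toAlgHom L P.O K)) (Par.refl _), h1]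
    exact (Pkg.rep_pt x hu hz).map _
  have h4 : ∀ p : B.Pt K, ∃ x : σ → P.O, (B.Rep p fun i => (x i : K)) ∧
      (fun i => P.ψ (x i)) ≠ 0 := fun p => by
    obtain ⟨p', rfl⟩ := (st_RED L σ B P.O K).2 p
    obtain ⟨x, hx⟩ := Pkg.exists_rep p'
    exact ⟨x, hx.map _, uni_iff_ne_zero.mp (hx.uni.map P.ψ)⟩
  refine ⟨ρ, fun p q => ⟨?_, ?_⟩, fun p => ?_, h3, fun q p hq hz => ?_⟩
  · rintro ⟨x, x0, x1, x2⟩
    refine (h3 p x ((B.rep_rp p).of_par (uni_iff_ne_zero.mpr fun h => x0 (funext fun i => ?_))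
      x1.symm) x0).eq (B.rep_rp q) x2
    rw [show x i = 0 from Subtype.ext (congrFun h i), map_zero]
    rfl
  · rintro rfl
    obtain ⟨x, hx, x0⟩ := h4 p
    exact ⟨x, x0, hx.par (B.rep_rp p), (h3 p x hx x0).par (B.rep_rp _)⟩
  · have a : IsScalarTower.toAlgHom L k K =
        (IsScalarTower.toAlgHom L P.O K).comp (IsScalarTower.toAlgHom L k P.O) :=
      AlgHom.ext fun _ => rfl
    have b : IsScalarTower.toAlgHom L k Ω =
        (ψ.restrictScalars L).comp (IsScalarTower.toAlgHom L k P.O) :=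
      AlgHom.ext fun c => (P.alg c).symm
    rw [a, b, ← Pkg.map_map, h1, Pkg.map_map]
  · obtain ⟨x, hx, x0⟩ := h4 p
    obtain ⟨c, hc⟩ := ((B.rep_rp p).par hx).exists_smul (B.rep_rp p).uni
    obtain ⟨c', hc'⟩ := ((h3 p x hx x0).par (B.rep_rp _)).exists_smul (uni_iff_ne_zero.mpr x0)
    have h5 : Zr q x := fun F hF => Subtype.ext
      ((aeval_map_alg (IsScalarTower.toAlgHom k P.O K) x F).symm.trans
        ((hc ▸ hz.smul hq c : Zr q fun i => (x i : K)) F hF))
    rw [hc']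
    exact (h5.map ψ).smul hq c'

end D4C
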