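import Pool.Agent.Lib.D4C.BlueF
import Pool.Agent.Lib.PK1.FF33

/-! Riemann's inequality. -/

open Pool.Agent.Lib.MP_e06174_ag Pool.Agent.Lib.MP_ba4752_ag Pool.Agent.Lib.PK1.FF Place Module
  IntermediateField

namespace D4C

namespace T47

variable {k F : Type} [Field k] [IsAlgClosed k] [Field F] [Algebra k F] {ξ : F}

/-- degree of a divisor -/
def dg (D : Place k F →₀ ℤ) : ℤ := D.sum fun _ a => a

omit [IsAlgClosed k] in
lemma dg_add (D E : Place k F →₀ ℤ) : dg (D + E) = dg D + dg E :=
  Finsupp.sum_add_index' (fun _ => rfl) fun _ _ _ => rfl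

omit [IsAlgClosed k] in
lemma dg_single (Q : Place k F) (a : ℤ) : dg (Finsupp.single Q a) = a :=
  Finsupp.sum_single_index rfl

omit [IsAlgClosed k] in
lemma dg_smul (n : ℕ) (D : Place k F →₀ ℤ) : dg (n • D) = n * dg D := by
  induction n with
  | zero => simp [dg]
  | succ n ih => rw [succ_nsmul, dg_add, ih]; push_cast; ring

omit [IsAlgClosed k] in
lemma dg_finsum (D : Place k F →₀ ℤ) : dg D = ∑ᶠ P, D P :=
  (finsum_eq_sum_of_support_subset _ (by simp)).symm

omit [IsAlgClosed k] in
lemma dg_mono {D E : Place k F →₀ ℤ} (h : D ≤ E) : dg D ≤ dg E := by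
  have : 0 ≤ dg (E - D) := Finset.sum_nonneg fun P _ => sub_nonneg.2 (h P)
  have e := dg_add D (E - D)
  rw [add_sub_cancel] at e
  omega

/-- divisor of a function -/
noncomputable def dv (h : IsCoord k ξ) (f : F) : Place k F →₀ ℤ :=
  Finsupp.ofSupportFinite (fun P => P.ord f) (finite_support' h f)

lemma dv_apply (h : IsCoord k ξ) (f : F) (P : Place k F) : dv h f P = P.ord f := rfl

lemma dg_dv (h : IsCoord k ξ) (f : F) : dg (dv h f) = 0 := (dg_finsum _).trans (finsum_ord h f)

/-- polar divisor of the coordinate -/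
noncomputable def pol (h : IsCoord k ξ) : Place k F →₀ ℤ :=
  Finsupp.ofSupportFinite (fun P => max (-P.ord ξ) 0)
    ((finite_pole h).subset fun P hP => by simpa using hP)

omit [IsAlgClosed k] in
lemma pol_apply (h : IsCoord k ξ) (P : Place k F) : pol h P = max (-P.ord ξ) 0 := rfl

lemma dg_pol (h : IsCoord k ξ) : dg (pol h) = finrank k⟮ξ⟯ F :=
  (dg_finsum _).trans (finsum_pole h)

omit [IsAlgClosed k] in
lemma LL_pol (h : IsCoord k ξ) (n : ℕ) : LL (n • pol h) = Wn k ξ n := by
  ext f
  refine forall_congr' fun P => ?_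
  rw [Finsupp.smul_apply, pol_apply, nsmul_eq_mul, ← mul_neg, ← min_neg_neg, neg_neg, neg_zero]

lemma fin_LL (h : IsCoord k ξ) (D : Place k F →₀ ℤ) : Module.Finite k (LL D) :=
  finiteDimensional h D.support D (LL D) (fun _ hz P _ => hz P) fun _ hz P hP => by
    simpa [Finsupp.notMem_support_iff.1 hP] using hz P

/-- multiplication by a function -/
lemma l_le (h : IsCoord k ξ) {f : F} (hf : f ≠ 0) {D E : Place k F →₀ ℤ}
    (hE : ∀ P, E P ≤ D P + P.ord f) : finrank k (LL E) ≤ finrank k (LL D) := by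
  have := fin_LL h D
  refine LinearMap.finrank_le_finrank_of_injective (f := (LinearMap.mulLeft k f).restrict
    (p := LL E) (q := LL D) fun g hg P => (ge_ord f).mul' (hg P) (by have := hE P; omega)) ?_
  exact fun a b e => Subtype.ext (mul_left_cancel₀ hf (congrArg Subtype.val e))

lemma l_succ (h : IsCoord k ξ) (D : Place k F →₀ ℤ) (Q : Place k F) :
    finrank k (LL (D + Finsupp.single Q 1)) ≤ finrank k (LL D) + 1 := by
  have := fin_LL h D
  have := fin_LL h (D + Finsupp.single Q 1)
  refine (finrank_le_succ h Q _ (LL (D + Finsupp.single Q 1)) fun g hg => hg Q).trans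
    (Nat.succ_le_succ (Submodule.finrank_mono fun g hg P => ?_))
  rcases eq_or_ne P Q with rfl | e
  · exact Ge.mono hg.2 (by simp)
  · simpa [Finsupp.single_eq_of_ne e] using hg.1 P

/-- `deg D - l(D)` is monotone -/
lemma r_mono (h : IsCoord k ξ) {D E : Place k F →₀ ℤ} (hE : D ≤ E) :
    dg D - finrank k (LL D) ≤ dg E - finrank k (LL E) := by
  obtain ⟨n, hn⟩ := Int.eq_ofNat_of_zero_le (sub_nonneg.2 (dg_mono hE))
  induction n using Nat.strong_induction_on generalizing D with
  | _ n ih => ?_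
  rcases hE.eq_or_lt with rfl | hlt
  · rfl
  obtain ⟨Q, hQ⟩ := (Finsupp.lt_def.1 hlt).2
  have h1 : D + Finsupp.single Q 1 ≤ E := fun P => by
    rcases eq_or_ne P Q with rfl | e
    · simpa using hQ
    · simpa [Finsupp.single_eq_of_ne e] using hE P
  have h2 := dg_mono h1
  have h3 := dg_add D (Finsupp.single Q 1)
  rw [dg_single] at h3
  have h4 := ih (n - 1) (by omega) h1 (by omega)
  have h5 := l_succ h D Q
  omega

/-- `deg D - l(D)` is monotone up to linear equivalence -/
lemma r_le (h : IsCoord k ξ) {f : F} (hf : f ≠ 0) {D E : Place k F →₀ ℤ}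
    (hE : ∀ P, D P ≤ E P + P.ord f) : dg D - finrank k (LL D) ≤ dg E - finrank k (LL E) := by
  have h1 := r_mono h (D := D) (E := E + dv h f) hE
  have h2 := l_le h (inv_ne_zero hf) (D := E + dv h f) (E := E) fun P => by simp [dv_apply]
  rw [dg_add, dg_dv] at h1
  omega

/-- every divisor is bounded by a multiple of the polar divisor, up to linear equivalence -/
lemma exists_le (h : IsCoord k ξ) (D : Place k F →₀ ℤ) :
    ∃ (f : F) (n : ℕ), f ≠ 0 ∧ ∀ P, D P ≤ n * pol h P + P.ord f := by
  induction D using Finsupp.induction_linear with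
  | zero => exact ⟨1, 0, one_ne_zero, by simp⟩
  | add D E h1 h2 =>
    obtain ⟨f, n, hf, h1⟩ := h1
    obtain ⟨g, m, hg, h2⟩ := h2
    refine ⟨f * g, n + m, mul_ne_zero hf hg, fun P => ?_⟩
    rw [P.ord_mul hf hg, Finsupp.add_apply]
    push_cast
    linarith [h1 P, h2 P]
  | single Q a =>
    obtain ⟨u, hu, h1, h2⟩ : ∃ u : F, u ≠ 0 ∧ (∀ P, 0 ≤ pol h P + P.ord u) ∧
        1 ≤ pol h Q + Q.ord u := by
      by_cases hQ : Q.ord ξ < 0
      · exact ⟨1, one_ne_zero, fun P => by simp [pol_apply], by simp [pol_apply]; omega⟩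
      obtain ⟨c, hc⟩ := exists_at h (P := Q) (z := ξ) (ge_of_le (by omega))
      have h0 := sub_const_ne_zero h.trans c
      refine ⟨_, h0, fun P => ?_, by have := hc.ord_pos h.trans; rw [pol_apply]; omega⟩
      have := (((ge_ord (p := P) ξ).mono (min_le_left _ 0)).sub
        ((ge_const c).mono (min_le_right _ _))).le h0
      rw [pol_apply]; omega
    refine ⟨u ^ a.toNat, a.toNat, pow_ne_zero _ hu, fun P => ?_⟩
    rw [ord_pow, ← mul_add]
    rcases eq_or_ne P Q with rfl | e
    · rw [Finsupp.single_eq_same]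
      exact (Int.self_le_toNat a).trans (le_mul_of_one_le_right (by positivity) h2)
    · rw [Finsupp.single_eq_of_ne e]
      exact mul_nonneg (by positivity) (h1 P)

end T47

open T47 in
theorem st_RIE1 : St_RIE1 := by
  intro k F _ _ _ _ ξ h D
  obtain ⟨f, n₀, hf, h1⟩ := exists_le h D
  refine ⟨fin_LL h D, n₀, fun n hn => ⟨LL_pol h n ▸ fin_LL h _, ?_⟩⟩
  have := r_le h hf (D := D) (E := n • pol h) fun P => (h1 P).trans (by
    rw [Finsupp.smul_apply, nsmul_eq_mul]
    gcongr
    exact le_max_right _ _)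
  rwa [dg_smul, dg_pol, LL_pol] at this

end D4C
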