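import Pool.Agent.Lib.D4C.BlueF
import Pool.Agent.Lib.PK1.FF33

set_option linter.unusedSectionVars false

namespace D4C

open Polynomial IntermediateField Module Pool.Agent.Lib.MP_e06174_ag
  Pool.Agent.Lib.MP_ba4752_ag Pool.Agent.Lib.PK1 Place

namespace T12

variable {K F : Type} [Field K] [IsAlgClosed K] [Field F] [Algebra K F] {t : F}

theorem wn_lower (h : IsCoord K t) (hf : ∀ n, Module.Finite K (Wn K t n)) :
    ∃ c : ℕ, ∀ M : ℕ, M * finrank K⟮t⟯ F ≤ finrank K (Wn K t (M + c)) := by
  classical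
  have hc := h
  obtain ⟨_, _, _, _, _, _, rfl, h0⟩ := h.setup
  set x := algebraMap K[X] F X with hx
  let b := Module.finBasis (RatFunc K) F
  choose q hq hq' using fun i => exists_multiple hc (b i)
  have h1 : LinearIndependent K[X] fun i => aeval x (q i) * b i := by
    refine LinearIndependent.restrict_scalars (K := RatFunc K) ?_ ?_
    · simpa [← Algebra.algebraMap_eq_smul_one] using IsFractionRing.injective K[X] (RatFunc K)
    · have := b.linearIndependent.units_smul fun i => Units.mk0
        (algebraMap K[X] (RatFunc K) (q i)) (by simpa using hq i)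
      have e : (fun i => aeval x (q i) * b i) = (fun i => Units.mk0
          (algebraMap K[X] (RatFunc K) (q i)) (by simpa using hq i)) • (b : _ → F) := by
        funext i
        simp [Units.smul_def, ← alg_eq_aeval, x, Algebra.smul_def,
          ← IsScalarTower.algebraMap_apply]
      rw [e]
      exact this
  let T := (FF.finite_pole hc).toFinset
  let c : Place K F → ℕ := fun p => ∑ i, (p.ord (aeval x (q i) * b i)).natAbs
  refine ⟨∑ p ∈ T, c p, fun M => ?_⟩
  have h2 := linearIndependent_smul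
    ((basisMonomials K).linearIndependent.comp (fun j : Fin M => (j : ℕ)) Fin.val_injective) h1
  have h3 := (finrank_span_eq_card h2).trans
    (show Fintype.card (Fin M × Fin (finrank (RatFunc K) F)) = M * finrank (RatFunc K) F by simp)
  rw [← h0, ← h3]
  have := hf (M + ∑ p ∈ T, c p)
  refine Submodule.finrank_mono (Submodule.span_le.2 ?_)
  rintro _ ⟨s, rfl⟩ p
  have e : (basisMonomials K ∘ fun j : Fin M => (j : ℕ)) s.1 • (aeval x (q s.2) * b s.2) =
      x ^ (s.1 : ℕ) * (aeval x (q s.2) * b s.2) := by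
    simp [Algebra.smul_def, ← X_pow_eq_monomial, x]
  beta_reduce
  rw [e]
  by_cases h5 : p.ord x < 0
  · refine (ge_ord _).mul' (ge_ord _) ?_
    have h6 : (p.ord (aeval x (q s.2) * b s.2)).natAbs ≤ c p :=
      Finset.single_le_sum (f := fun i => (p.ord (aeval x (q i) * b i)).natAbs)
        (fun _ _ => Nat.zero_le _) (Finset.mem_univ s.2)
    have h7 : c p ≤ ∑ p ∈ T, c p :=
      Finset.single_le_sum (f := c) (fun _ _ => Nat.zero_le _) (by simpa [T] using h5)
    have h8 : ((s.1 : ℕ) : ℤ) ≤ M := by have := s.1.2; omega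
    generalize ∑ p ∈ T, c p = C at h7 ⊢
    have h9 : -(C : ℤ) ≤ p.ord (aeval x (q s.2) * b s.2) := by omega
    have h10 : (0 : ℤ) ≤ C := by omega
    rw [ord_pow, min_eq_left h5.le]
    push_cast
    nlinarith
  · have h7 : p.Ge 0 x := ge_of_le (not_lt.1 h5)
    refine (h7.pow _).mul' (hq' s.2 p h7) ?_
    rw [min_eq_right (not_lt.1 h5)]
    simp

theorem deg_eq (D : Place K F →₀ ℤ) : D.sum (fun _ a => a) = ∑ᶠ Q, D Q := by
  rw [finsum_eq_sum_of_support_subset (s := D.support) _ fun Q hQ => by simpa using hQ]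
  rfl

theorem deg_add (D E : Place K F →₀ ℤ) :
    (D + E).sum (fun _ a => a) = D.sum (fun _ a => a) + E.sum (fun _ a => a) :=
  Finsupp.sum_add_index' (fun _ => rfl) fun _ _ _ => rfl

theorem pole_div (h : IsCoord K t) (n : ℕ) : ∃ D : Place K F →₀ ℤ, LL D = Wn K t n ∧
    D.sum (fun _ a => a) = n * finrank K⟮t⟯ F := by
  have hfin : (Function.support fun P : Place K F => (n : ℤ) * max (-P.ord t) 0).Finite :=
    (FF.finite_pole h).subset fun P hP => by
      by_contra h1
      simp only [Set.mem_ofPred_eq, not_lt] at h1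
      exact hP (by beta_reduce; rw [max_eq_right (by omega), mul_zero])
  refine ⟨Finsupp.ofSupportFinite _ hfin, ?_, ?_⟩
  · ext f
    refine forall_congr' fun Q => ?_
    rw [Finsupp.ofSupportFinite_coe]
    have : -((n : ℤ) * max (-Q.ord t) 0) = n * min (Q.ord t) 0 := by
      rcases le_total (Q.ord t) 0 with h1 | h1
      · rw [max_eq_left (by omega), min_eq_left h1]; ring
      · rw [max_eq_right (by omega), min_eq_right h1]; ring
    rw [this]
  · rw [deg_eq, Finsupp.ofSupportFinite_coe, ← FF.finsum_pole h, mul_finsum]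

end T12

open T12 in
theorem st_RIE2 (h1 : St_RIE1) : St_RIE2 := by
  intro k F _ _ _ _ ξ h
  classical
  have hfin : ∀ D : Place k F →₀ ℤ, Module.Finite k (LL D) := fun D => (h1 k F ξ h D).1
  choose P hP hP' using pole_div h
  obtain ⟨c, hc⟩ := wn_lower h fun n => hP n ▸ hfin (P n)
  let r : (Place k F →₀ ℤ) → ℤ := fun D => D.sum (fun _ a => a) - finrank k (LL D)
  have hr : ∀ n : ℕ, r (P n) = n * finrank k⟮ξ⟯ F - finrank k (Wn k ξ n) := fun n => by
    simp only [r, hP' n]
    rw [hP n]
  have hb : ∀ D, r D ≤ c * finrank k⟮ξ⟯ F := by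
    intro D
    obtain ⟨n0, h2⟩ := (h1 k F ξ h D).2
    have h3 := (h2 (n0 + c) (by omega)).2
    have h4 : ((n0 * finrank k⟮ξ⟯ F : ℕ) : ℤ) ≤ finrank k (Wn k ξ (n0 + c)) := by
      exact_mod_cast hc n0
    simp only [r]
    push_cast at h3 h4
    linarith
  obtain ⟨M, ⟨D0, hD0⟩, hM⟩ := Int.exists_greatest_of_bdd (P := fun z => ∃ D, r D = z)
    ⟨_, fun z ⟨D, hD⟩ => hD ▸ hb D⟩ ⟨_, 0, rfl⟩
  have hM' : ∀ D, r D ≤ M := fun D => hM _ ⟨D, rfl⟩
  have hex : ∃ l, ∃ A, r A = M ∧ finrank k (LL A) = l + 1 := by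
    obtain ⟨n0, h2⟩ := (h1 k F ξ h D0).2
    have h3 := (h2 n0 le_rfl).2
    have h4 : (1 : F) ∈ LL (P n0) := by
      rw [hP]
      intro Q
      refine ge_one.mono ?_
      have := min_le_right (Q.ord ξ) 0
      nlinarith [Int.natCast_nonneg n0]
    have := hfin (P n0)
    have h5 : finrank k (LL (P n0)) ≠ 0 := fun h6 =>
      one_ne_zero ((Submodule.finrank_eq_zero.1 h6 ▸ h4 : (1 : F) ∈ (⊥ : Submodule k F)))
    refine ⟨finrank k (LL (P n0)) - 1, P n0, le_antisymm (hM' _) ?_, by omega⟩
    rw [hr, ← hD0]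
    exact h3
  obtain ⟨A, hA, hl⟩ := Nat.find_spec hex
  have := hfin A
  obtain ⟨f, hf, hf0⟩ := (LL A).exists_mem_ne_zero_of_ne_bot fun h2 => by
    rw [h2, finrank_bot] at hl
    omega
  have hl0 : Nat.find hex = 0 := by
    by_contra h2
    have := FF.infinite_place h
    obtain ⟨Q, hQ⟩ := ((FF.finite_support h f).union A.hasFiniteSupport).exists_notMem
    simp only [Set.mem_union, Set.mem_ofPred_eq, Function.mem_support, not_or, not_not] at hQ
    have h3 : LL (A + Finsupp.single Q (-1)) < LL A := by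
      refine lt_of_le_of_ne (fun g hg Q' => (hg Q').mono ?_) fun h4 => ?_
      · rw [Finsupp.add_apply, Finsupp.single_apply]
        split_ifs <;> omega
      · have h5 : Q.Ge (-(A + Finsupp.single Q (-1) : Place k F →₀ ℤ) Q) f := (h4.symm ▸ hf :
          f ∈ LL (A + Finsupp.single Q (-1))) Q
        have := h5.le hf0
        rw [Finsupp.add_apply, Finsupp.single_eq_same, hQ.1, hQ.2] at this
        omega
    have h4 := Submodule.finrank_lt_finrank_of_lt h3
    have h5 := hM' (A + Finsupp.single Q (-1))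
    have h6 : r (A + Finsupp.single Q (-1)) = A.sum (fun _ a => a) - 1 -
        finrank k (LL (A + Finsupp.single Q (-1))) := by
      simp only [r, deg_add, Finsupp.sum_single_index]
      ring
    simp only [r] at hA
    exact Nat.find_min hex (show Nat.find hex - 1 < Nat.find hex by omega)
      ⟨A + Finsupp.single Q (-1), by omega, by omega⟩
  rw [hl0] at hl
  refine ⟨A + Finsupp.ofSupportFinite _ (FF.finite_support' h f), fun Q => ?_, fun g hg => ?_,
    fun n => ?_⟩
  · have := (hf Q).le hf0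
    rw [Finsupp.add_apply, Finsupp.ofSupportFinite_coe]
    omega
  · have h2 : g * f ∈ LL A := fun Q => (hg Q).mul' (ge_ord f) (by
      rw [Finsupp.add_apply, Finsupp.ofSupportFinite_coe]
      omega)
    obtain ⟨a, ha⟩ := (finrank_eq_one_iff_of_nonzero' (⟨f, hf⟩ : LL A)
      (fun h3 => hf0 (congrArg Subtype.val h3))).1 hl ⟨_, h2⟩
    have h3 : a • f = g * f := congrArg Subtype.val ha
    rw [Algebra.smul_def] at h3
    exact ⟨a, (mul_right_cancel₀ hf0 h3).symm⟩
  · rw [deg_add, deg_eq (Finsupp.ofSupportFinite _ _), Finsupp.ofSupportFinite_coe,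
      FF.finsum_ord h f, ← hr]
    have := hM' (P n)
    simp only [r] at hA this ⊢
    omega

end D4C
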