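import Pool.Agent.Lib.D4C.BlueF
import Pool.Agent.Lib.PK1.FF33

/-! The auxiliary function from the Riemann inequality in a constant field extension. -/

set_option linter.unusedSectionVars false

namespace D4C

open Pool.Agent.Lib.MP_e06174_ag Pool.Agent.Lib.PK1

namespace T4

theorem fam (hG : St_GV) {K σ : Type} [Field K] [Fintype σ] {r : ℕ} (O : ValuationSubring K)
    (a : Fin r → σ → K) (ha : ∀ i, a i ≠ 0) : ∃ ix : Fin r → σ, (∀ i, a i (ix i) ≠ 0) ∧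
      ∏ i, gv O (a i) = O.valuation (∏ i, a i (ix i)) := by
  choose ix h1 h2 _ using fun i => hG.att K σ O (a i) (ha i)
  exact ⟨ix, h1, by rw [map_prod]; exact Finset.prod_congr rfl fun i _ => h2 i⟩

theorem leF_of {K σ : Type} [Field K] [Fintype σ] {r : ℕ} (O : ValuationSubring K)
    (a b : Fin r → σ → K) (c α β : K) (hβ : β ≠ 0) (h1 : ∏ i, gv O (a i) = O.valuation α)
    (h2 : ∏ i, gv O (b i) = O.valuation β) (h : c * α / β ∈ O) : LeF O c a b := by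
  unfold LeF
  rw [h1, h2, ← map_mul, ValuationSubring.valuation_le_iff]
  exact ⟨⟨_, h⟩, div_mul_cancel₀ _ hβ⟩

theorem divis (hG : St_GV) {k K σ : Type} [Field k] [IsAlgClosed k] [Field K] [Algebra k K]
    [Fintype σ] {r : ℕ} {ξ : K} (hξ : IsCoord k ξ) (a : Fin r → σ → K) (ha : ∀ i, a i ≠ 0) :
    ∃ A : Place k K →₀ ℤ, ∀ P : Place k K, ∃ α : K, α ≠ 0 ∧ P.ord α = A P ∧
      ∏ i, gv P.O (a i) = P.O.valuation α := by
  choose ix h1 h2 using fun P : Place k K => fam hG P.O a ha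
  have hfin : (Function.support fun P : Place k K => P.ord (∏ i, a i (ix P i))).Finite := by
    refine (Set.finite_iUnion fun q : Fin r × σ => FF.finite_support hξ (a q.1 q.2)).subset ?_
    intro P hP
    rw [Function.mem_support, P.ord_prod _ _ fun i _ => h1 P i] at hP
    obtain ⟨i, _, hi⟩ := Finset.exists_ne_zero_of_sum_ne_zero hP
    exact Set.mem_iUnion.2 ⟨(i, ix P i), hi⟩
  exact ⟨Finsupp.ofSupportFinite _ hfin, fun P =>
    ⟨_, Finset.prod_ne_zero_iff.2 fun i _ => h1 P i, rfl, h2 P⟩⟩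

section

variable {κ F Ω₀ K : Type} [Field κ] [Field F] [Field Ω₀] [Field K] [Algebra κ F] [Algebra F K]
  [Algebra Ω₀ K]

theorem ge_up {Q : Place κ F} {P : Place Ω₀ K}
    (h : ∀ f : F, P.ord (algebraMap F K f) = Q.ord f) (n : ℤ) (f : F) :
    P.Ge n (algebraMap F K f) ↔ Q.Ge n f := by
  rw [Place.ge_iff', Place.ge_iff', h, map_eq_zero]

theorem rank_le (hC : Cmp κ F Ω₀ K) (ξ : F) (n : ℕ)
    (hd : ∀ P : Place Ω₀ K, (∃ Q : Place κ F, ∀ f : F, P.ord (algebraMap F K f) = Q.ord f) ∨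
      ∀ f : F, P.ord (algebraMap F K f) = 0)
    [Module.Finite Ω₀ (Wn Ω₀ (algebraMap F K ξ) n)] :
    Module.finrank κ (Wn κ ξ n) ≤ Module.finrank Ω₀ (Wn Ω₀ (algebraMap F K ξ) n) := by
  obtain ⟨f, hf⟩ := exists_linearIndependent_of_le_finrank (le_refl (Module.finrank κ (Wn κ ξ n)))
  have h1 := hC.ld _ _ (hf.map' (Wn κ ξ n).subtype (Submodule.ker_subtype _))
  have hm : ∀ i, algebraMap F K (f i) ∈ Wn Ω₀ (algebraMap F K ξ) n := by
    intro i P
    rcases hd P with ⟨Q, hQ⟩ | h0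
    · rw [hQ, ge_up hQ]
      exact (f i).2 Q
    · exact Place.ge_of_le (by rw [h0, h0]; simp)
  have h2 : LinearIndependent Ω₀ fun i =>
      (⟨algebraMap F K (f i), hm i⟩ : Wn Ω₀ (algebraMap F K ξ) n) :=
    LinearIndependent.of_comp (Wn Ω₀ (algebraMap F K ξ) n).subtype h1
  simpa using h2.fintype_card_le_finrank

theorem good (hG : St_GV) [IsAlgClosed Ω₀] {ξ : K} (hξ : IsCoord Ω₀ ξ)
    (up : Place κ F → Place Ω₀ K) (hup : ∀ Q f, (up Q).ord (algebraMap F K f) = Q.ord f)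
    (D : Place κ F →₀ ℤ) {σ : Type} [Fintype σ] {r : ℕ} (a b : Fin r → σ → K)
    (ha : ∀ i, a i ≠ 0) (hb : ∀ i, b i ≠ 0) (A B : Place Ω₀ K →₀ ℤ)
    (hA : ∀ P : Place Ω₀ K, ∃ α : K, α ≠ 0 ∧ P.ord α = A P ∧
      ∏ i, gv P.O (a i) = P.O.valuation α)
    (hB : ∀ P : Place Ω₀ K, ∃ α : K, α ≠ 0 ∧ P.ord α = B P ∧
      ∏ i, gv P.O (b i) = P.O.valuation α)
    (φ : K) (hφ : φ ∈ LL (A - B + D.mapDomain up)) : Good Ω₀ D φ a b := by
  intro v u hv hu
  by_cases ht : v = ⊤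
  · obtain ⟨ia, _, h1⟩ := fam hG v a ha
    obtain ⟨ib, h0, h2⟩ := fam hG v b hb
    refine leF_of v a b _ _ _ (Finset.prod_ne_zero_iff.2 fun i _ => h0 i) h1 h2 ?_
    rw [ht]
    exact ValuationSubring.mem_top _
  obtain ⟨P, rfl⟩ := FF.exists_place hξ v ht hv
  obtain ⟨α, _, a2, a3⟩ := hA P
  obtain ⟨β, b1, b2, b3⟩ := hB P
  refine leF_of P.O a b _ α β b1 a3 b3 ?_
  have hinj : Function.Injective up := fun Q Q' e =>
    Place.ext_ord fun x _ => by rw [← hup Q, ← hup Q', e]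
  have h1 : P.Ge (D.mapDomain up P) (algebraMap F K u) := by
    by_cases hr : P ∈ Set.range up
    · obtain ⟨Q, rfl⟩ := hr
      rw [Finsupp.mapDomain_apply hinj, ge_up (hup Q)]
      exact hu.2 Q fun f => by rw [Place.mem_O, ge_up (hup Q)]
    · rw [Finsupp.mapDomain_of_notMem_range _ _ hr]
      exact Place.mem_O.1 hu.1
  have h2 := hφ P
  have h3 : P.Ge (-B P) β⁻¹ := Place.ge_of_le (by rw [Place.ord_inv, b2])
  have h4 : P.Ge (A P) α := Place.ge_of_le a2.ge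
  rw [Place.mem_O, div_eq_mul_inv]
  refine (((h2.mul h1).mul h4).mul h3).mono ?_
  simp only [Finsupp.add_apply, Finsupp.sub_apply]
  omega

end

end T4

theorem st_RRX (h1 : St_RIE1) (h2 : St_RIE2) (hX : St_CX) (hG : St_GV) : St_RRX := by
  intro κ F Ω₀ K _ _ _ _ _ _ _ _ _ _ _ _ _ hC
  obtain ⟨ξ, hξ⟩ := hC.coord
  obtain ⟨c1, c2, c3⟩ := hX κ F Ω₀ K hC
  obtain ⟨hξ', hdeg⟩ := c1 ξ hξ
  obtain ⟨D, d1, d2, d3⟩ := h2 κ F ξ hξ
  choose up hup _ using c2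
  refine ⟨D, d1, d2, fun σ _ r a b ha hb => ?_⟩
  have key : ∀ A B : Place Ω₀ K →₀ ℤ, B.sum (fun _ m => m) ≤ A.sum (fun _ m => m) →
      ∃ φ : K, φ ≠ 0 ∧ φ ∈ LL (A - B + D.mapDomain up) := by
    intro A B hAB
    obtain ⟨_, n, hn⟩ := h1 Ω₀ K _ hξ' (A - B + D.mapDomain up)
    obtain ⟨hf, hle⟩ := hn n le_rfl
    have e1 : (A - B + D.mapDomain up).sum (fun _ m => m) =
        A.sum (fun _ m => m) - B.sum (fun _ m => m) + D.sum fun _ m => m := by
      rw [Finsupp.sum_add_index' (fun _ => rfl) fun _ _ _ => rfl,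
        Finsupp.sum_sub_index fun _ _ _ => rfl,
        Finsupp.sum_mapDomain_index (fun _ => rfl) fun _ _ _ => rfl]
    have e2 := T4.rank_le hC ξ n c3
    have e3 := d3 n
    have e4 : (n : ℤ) * Module.finrank (IntermediateField.adjoin Ω₀ {algebraMap F K ξ}) K ≤
        n * Module.finrank (IntermediateField.adjoin κ {ξ}) F :=
      mul_le_mul_of_nonneg_left (by exact_mod_cast hdeg) (Int.natCast_nonneg n)
    have e5 : LL (A - B + D.mapDomain up) ≠ ⊥ := by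
      intro e
      rw [e1, e, finrank_bot] at hle
      omega
    obtain ⟨φ, p1, p2⟩ := Submodule.exists_mem_ne_zero_of_ne_bot e5
    exact ⟨φ, p2, p1⟩
  obtain ⟨A, hA⟩ := T4.divis hG hξ' a ha
  obtain ⟨B, hB⟩ := T4.divis hG hξ' b hb
  rcases le_total (B.sum fun _ m => m) (A.sum fun _ m => m) with h | h
  · obtain ⟨φ, p1, p2⟩ := key A B h
    exact ⟨φ, p1, Or.inl (T4.good hG hξ' up hup D a b ha hb A B hA hB φ p2)⟩
  · obtain ⟨φ, p1, p2⟩ := key B A h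
    exact ⟨φ, p1, Or.inr (T4.good hG hξ' up hup D b a hb ha B A hB hA φ p2)⟩

end D4C
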