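import Pool.Agent.Lib.D4C.BlueA

/-! Monomials that separate finitely many points. -/

namespace D4C

open MvPolynomial

namespace T1

theorem sep_points {F σ : Type} [Field F] [Fintype σ] {n : ℕ} (y : Fin n → σ → F)
    (h : ∀ j j', j ≠ j' → ¬ Par (y j) (y j')) : ∃ s : Fin n → σ →₀ ℕ,
      (∀ l, (s l).degree = n - 1) ∧ (Matrix.of fun l j => ∏ i, y j i ^ s l i).det ≠ 0 := by
  classical
  let V : (σ →₀ ℕ) → Fin n → F := fun d j => ∏ i, y j i ^ d i
  let S := V '' {d | d.degree = n - 1}
  have hG : ∀ G : MvPolynomial σ F, G.IsHomogeneous (n - 1) →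
      (fun j => aeval (y j) G) ∈ Submodule.span F S := fun G hG => by
    have e : (fun j => aeval (y j) G) = ∑ d ∈ G.support, coeff d G • V d := by
      funext j
      conv_lhs => rw [G.as_sum, map_sum]
      rw [Finset.sum_apply]
      refine Finset.sum_congr rfl fun d _ => ?_
      rw [aeval_monomial, Finsupp.prod_fintype _ _ (by simp)]
      rfl
    rw [e]
    refine Submodule.sum_mem _ fun d hd => Submodule.smul_mem _ _ (Submodule.subset_span ⟨d, ?_, rfl⟩)
    have := hG (mem_support_iff.1 hd)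
    rw [Set.mem_setOf_eq, Finsupp.degree_eq_weight_one]
    exact this
  have hp : ∀ j j', ∃ l : MvPolynomial σ F, l.IsHomogeneous 1 ∧ aeval (y j') l = 0 ∧
      (j ≠ j' → aeval (y j) l ≠ 0) := fun j j' => by
    by_cases e : j = j'
    · exact ⟨0, isHomogeneous_zero _ _ _, map_zero _, fun h => absurd e h⟩
    obtain ⟨a, ha⟩ := not_forall.1 (h j j' e)
    obtain ⟨b, hb⟩ := not_forall.1 ha
    refine ⟨C (y j' b) * X a - C (y j' a) * X b, ((isHomogeneous_X F a).C_mul _).sub
      ((isHomogeneous_X F b).C_mul _), by simp [mul_comm], fun _ => ?_⟩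
    simpa [sub_eq_zero, mul_comm] using hb
  choose l hl h0 h1 using hp
  have top : ⊤ ≤ Submodule.span F S := by
    rw [← (Pi.basisFun F (Fin n)).span_eq, Submodule.span_le]
    rintro _ ⟨j, rfl⟩
    have hh := IsHomogeneous.prod (Finset.univ.erase j) (l j) (fun _ => 1) fun j' _ => hl j j'
    rw [Finset.sum_const, Finset.card_erase_of_mem (Finset.mem_univ _), Finset.card_fin,
      smul_eq_mul, mul_one] at hh
    have hc : aeval (y j) (∏ j' ∈ Finset.univ.erase j, l j j') ≠ 0 := by
      rw [map_prod]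
      exact Finset.prod_ne_zero_iff.2 fun j' hj => h1 j j' (Finset.ne_of_mem_erase hj).symm
    have := Submodule.smul_mem _ (aeval (y j) (∏ j' ∈ Finset.univ.erase j, l j j'))⁻¹ (hG _ hh)
    refine SetLike.mem_coe.2 (Eq.subst (motive := (· ∈ Submodule.span F S)) (Eq.symm ?_) this)
    funext j'
    rw [Pi.basisFun_apply, Pi.smul_apply, smul_eq_mul]
    by_cases e : j' = j
    · rw [e, Pi.single_eq_same, inv_mul_cancel₀ hc]
    · rw [Pi.single_eq_of_ne e, map_prod (aeval (R := F) (y j')),
        Finset.prod_eq_zero (f := fun x => aeval (y j') (l j x))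
          (Finset.mem_erase.2 ⟨e, Finset.mem_univ _⟩) (h0 j j'), mul_zero]
  obtain ⟨b, hb, hs, hi⟩ := exists_linearIndependent F S
  let e := (Module.Basis.mk hi (by rw [Subtype.range_coe_subtype, Set.setOf_mem_eq, hs]; exact top)).indexEquiv
    (Pi.basisFun F (Fin n))
  choose s hs1 hs2 using fun l : Fin n => hb (e.symm l).2
  refine ⟨s, hs1, ?_⟩
  have : LinearIndependent F (Matrix.of fun l j => ∏ i, y j i ^ s l i).row := by
    rw [show (Matrix.of fun l j => ∏ i, y j i ^ s l i).row = Subtype.val ∘ e.symm from funext hs2]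
    exact hi.comp e.symm e.symm.injective
  exact ((Matrix.isUnit_iff_isUnit_det _).1 (Matrix.linearIndependent_rows_iff_isUnit.1 this)).ne_zero

end T1

theorem st_SEP (hT : St_TORS) : St_SEP := by
  intro L σ _ _ _ _ B g hg κ p
  have h1 := (hT L σ B g hg (AlgebraicClosure L)).2 κ
  have hf := Set.finite_of_ncard_ne_zero (h1.trans_ne (by positivity))
  have := hf.fintype
  let e := Fintype.equivFinOfCardEq ((Nat.card_eq_fintype_card).symm.trans
    ((Nat.card_coe_set_eq _).trans h1))
  choose y hy using fun j => Pkg.exists_rep (B.map (Algebra.ofId L _) p + (e.symm j).1)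
  obtain ⟨s, hs, hd⟩ := T1.sep_points y fun j j' h hp =>
    h (e.symm.injective (Subtype.ext (add_left_cancel ((hy j).eq (hy j') hp))))
  exact ⟨_, s, hs, fun j => (e.symm j).1, y, fun j => (e.symm j).2, hy, hd⟩

end D4C
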