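import Pool.Agent.Lib.D4C.BlueU
import Pool.Agent.Lib.D4C.B_DATA
import Pool.Agent.Lib.D4C.B_GEN

/-! Row ZIND of the d4c56 blueprint: parameters of a generic point. -/

namespace D4C

open MvPolynomial

namespace T32

theorem loc_eq {k σ Ω : Type} [Field k] [Field Ω] [Algebra k Ω] {q : Ideal (MvPolynomial σ k)}
    (hq : IsHom q) {x : σ → Ω} (hx : PGen q x) : loc k x = q :=
  le_antisymm (T39.le_of_pgen (T51.isHom_loc x) hx (T51.zr_loc x))
    (T39.le_of_pgen hq (T51.pgen_loc hx.1) (zr_of_pgen hq hx))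

/-- ratios of forms that are independent modulo `q` are independent at a generic point -/
theorem ind_ratio {k σ Ω : Type} [Field k] [Field Ω] [Algebra k Ω] {q : Ideal (MvPolynomial σ k)}
    (hq : IsHom q) {x : σ → Ω} (hx : PGen q x) {m e : ℕ} {ξ : Fin (m + 1) → MvPolynomial σ k}
    (hξ : ∀ j, (ξ j).IsHomogeneous e)
    (hind : AlgebraicIndependent k fun j => Ideal.Quotient.mk q (ξ j)) {z : Fin m → Ω}
    (hz : ∀ j, aeval x (ξ j.castSucc) = z j * aeval x (ξ (Fin.last m))) :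
    AlgebraicIndependent k z := by
  have h1 : q = RingHom.ker (T51.cone k x) := (loc_eq hq hx).symm.trans
    (T51.loc_eq_ker (AlgHom.id k Ω) Function.injective_id x x 1 one_ne_zero (one_smul _ _).symm)
  let f : (MvPolynomial σ k ⧸ q) →ₐ[k] Polynomial Ω :=
    Ideal.Quotient.liftₐ q (T51.cone k x) fun a ha => by rw [h1] at ha; exact ha
  have hf : Function.Injective f := RingHom.lift_injective_of_ker_le_ideal q _ h1.ge
  let c : Ω →ₐ[k] Polynomial Ω := (Polynomial.CAlgHom : Ω →ₐ[Ω] Polynomial Ω).restrictScalars k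
  have h2 : ∀ j, f (Ideal.Quotient.mk q (ξ j)) = Polynomial.X ^ e * c (aeval x (ξ j)) := fun j =>
    (aeval_smul_hom (hξ j) (Polynomial.X : Polynomial Ω) fun i => c (x i)).trans
      (by rw [aeval_map_alg])
  have h3 := inj_dehom _ (fun j => c (z j)) (hind.map' hf) fun j => by
    simp only [Function.comp_apply, h2, hz j, map_mul]
    ring
  rw [algebraicIndependent_iff]
  intro Q hQ
  exact h3 (by rw [aeval_map_alg, hQ, map_zero, map_zero])

end T32

theorem st_ZIND : St_ZIND := by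
  intro k σ Ω _ _ _ _ m e D q W x hW hq hx
  have hxz := T32.zr_of_pgen hq hx
  have hs : aeval x (W.ξ (Fin.last m)) ≠ 0 := fun h0 => hW.hsop.ind.ne_zero (Fin.last m)
    (Ideal.Quotient.eq_zero_iff_mem.mpr ((hx.2 _ e (hW.hsop.hom _)).mp h0))
  let z : Fin m → Ω := fun j => aeval x (W.ξ j.castSucc) / aeval x (W.ξ (Fin.last m))
  let t : Ω := aeval x W.η / aeval x (W.ξ (Fin.last m))
  have hz : ∀ j, aeval x (W.ξ j.castSucc) = z j * aeval x (W.ξ (Fin.last m)) := fun j =>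
    (div_mul_cancel₀ _ hs).symm
  have hind := T32.ind_ratio hq hx hW.hsop.hom hW.hsop.ind hz
  obtain ⟨hP, hpar⟩ := hW.univ Ω x z t hxz (isUnit_iff_ne_zero.mpr hs) hz
    (div_mul_cancel₀ _ hs).symm
  have hΔ : aeval z W.Δ ≠ 0 := fun h0 => hW.Δ_ne (algebraicIndependent_iff.mp hind _ h0)
  have hdvd : ∀ R : ZT k m, W.P ∣ R → evZT z t R = 0 := by
    rintro _ ⟨R, rfl⟩
    rw [map_mul, hP, zero_mul]
  have hC : evZT z t (Polynomial.C W.Δ) = aeval z W.Δ := Polynomial.aevalTower_C _ _ _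
  obtain ⟨c, hc⟩ := hpar.symm.exists_smul (uni_iff_ne_zero.mpr hx.1)
  refine ⟨z, t, hs, hz, hind, hP, hΔ, fun h0 => hΔ ?_, ⟨c, ?_, hc⟩, fun R => ⟨fun hR => ?_, hdvd R⟩⟩
  · have h1 := hdvd _ hW.ok.sep
    rw [map_sub, map_mul, h0, hC, zero_mul, zero_sub, neg_eq_zero] at h1
    exact h1
  · rintro rfl
    have h1 := hdvd _ hW.ok.θ_inv
    have h2 := hdvd _ (hW.ok.ξ_eq (Fin.last m))
    rw [map_sub, ← aeval_map_alg, hc, aeval_smul_hom (hW.hsop.hom _),
      zero_pow (by have := hW.hsop.e_pos; omega), zero_mul, zero_sub, neg_eq_zero, zv,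
      Fin.snoc_last, one_mul] at h2
    rw [map_sub, map_mul, h2, hC, zero_mul, zero_sub, neg_eq_zero] at h1
    exact hΔ h1
  · let A := MvPolynomial (Fin m) k
    let _ : Algebra A Ω := (aeval z : A →ₐ[k] Ω).toRingHom.toAlgebra
    have : FaithfulSMul A Ω := (faithfulSMul_iff_algebraMap_injective A Ω).mpr hind
    have hti : IsIntegral A t := ⟨W.P, hW.ok.monic, hP⟩
    obtain ⟨u, hu⟩ : minpoly A t ∣ W.P := minpoly.isIntegrallyClosed_dvd hti hP
    have h1 : IsUnit u := (hW.irr.isUnit_or_isUnit hu).resolve_left (minpoly.not_isUnit A t)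
    rw [hu]
    exact h1.mul_right_dvd.mpr (minpoly.isIntegrallyClosed_dvd hti hR)

end D4C
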