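import Pool.Agent.Lib.D4C.B_LIFT
import Pool.Agent.Lib.D4C.B_TMN
import Pool.Agent.Lib.D4C.B_SM
import Pool.Agent.Lib.D4C.B_ZIND
import Pool.Agent.Lib.D4C.B_LOC

/-! Row SEQ: the sequence of presentations. -/

namespace D4C

open MvPolynomial Filter

namespace T10

variable {U : Ultrafilter ℕ} {L : Type} [Field L]

theorem ev_toU {κ : Type} [CommRing κ] [Algebra κ (Ul U L)] {m : ℕ} (z : ℕ → Fin m → L)
    (t : ℕ → L) {Q : ZT (ℕ → L) m} {Q0 : ZT κ m}
    (h : mapZT (toU U).toRingHom m Q = mapZT (algebraMap κ (Ul U L)) m Q0) :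
    (toU U fun n => evZT (z n) (t n) (mapZT (lv L n) m Q)) =
      evZT (fun j => toU U fun n => z n j) (toU U t) Q0 := by
  have h1 : (fun n => evZT (z n) (t n) (mapZT (lv L n) m Q)) =
      evZT (fun j n => z n j) t Q := funext fun n =>
    (T21u.evZT_nat (lv L n) (lv L n) (fun _ => rfl) (fun j n => z n j) t Q).symm
  have h2 := T21u.evZT_nat (toU U).toRingHom (toU U).toRingHom (fun _ => rfl)
    (fun j n => z n j) t Q
  have h3 := T21u.evZT_nat (algebraMap κ (Ul U L)) (RingHom.id (Ul U L)) (fun _ => rfl)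
    (fun j => toU U fun n => z n j) (toU U t) Q0
  rw [h1]
  exact h2.trans ((congrArg _ h).trans h3.symm)

theorem evZT_C' {R S : Type} [CommRing R] [CommRing S] [Algebra R S] {m : ℕ} (z : Fin m → S)
    (t : S) (p : MvPolynomial (Fin m) R) : evZT z t (Polynomial.C p) = aeval z p :=
  Polynomial.aevalTower_C _ _ _

theorem map_mem_loc {σ Ω : Type} [Field Ω] [Algebra L Ω] (κ : IntermediateField L Ω)
    {I : Ideal (MvPolynomial σ L)} (hI : IsHom I) {x : σ → Ω} (hx : Zr I x) {F : MvPolynomial σ L}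
    (hF : F ∈ I) : MvPolynomial.map (algebraMap L κ) F ∈ loc κ x := by
  rw [← sum_homogeneousComponent F, map_sum]
  refine Ideal.sum_mem _ fun n _ => Ideal.subset_span
    ⟨⟨n, (homogeneousComponent_isHomogeneous n F).map _⟩, ?_⟩
  rw [aeval_map_algebraMap]
  exact hx _ (hI F hF n)

end T10

open T10 in
theorem st_SEQ : St_SEQ := by
  intro L σ _ _ _ _ B U x hx xs hxs m e D W hW
  classical
  obtain ⟨x0, hx0, rfl⟩ := hxs
  have hu : Uni fun i => toU U fun n => x0 n i := uni_toU.2 (hx0.mono fun n hn => hn.uni)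
  have hz : Zr B.I fun i => toU U fun n => x0 n i :=
    (zr_toU tow_self).2 (hx0.mono fun n hn => hn.zr)
  obtain ⟨z, t, h1, h2, h3, h4, h5, -, ⟨c, hc, h7⟩, h8⟩ := st_ZIND _ σ (Ul U L) m e D _ W _ hW
    (T51.isHom_loc _) (T51.pgen_loc (uni_iff_ne_zero.1 hu))
  obtain ⟨zs, rfl⟩ := exists_seq z
  obtain ⟨ts, rfl⟩ := toU_surj t
  obtain ⟨V, D1, A, hV, hA, hok, hmem⟩ := st_LIFT U L σ _ m e D _ W hW.ok
  have eP : mapZT (toU U).toRingHom m V.P = mapZT (algebraMap _ (Ul U L)) m W.P :=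
    congrArg Raw.P hV
  have eφ : ∀ i, mapZT (toU U).toRingHom m (V.φ i) = mapZT (algebraMap _ (Ul U L)) m (W.φ i) :=
    fun i => congrFun (congrArg Raw.φ hV) i
  have eΔ : mapZT (toU U).toRingHom m (Polynomial.C V.Δ) =
      mapZT (algebraMap _ (Ul U L)) m (Polynomial.C W.Δ) := by
    rw [mapZT_C, mapZT_C]
    exact congrArg Polynomial.C (congrArg Raw.Δ hV)
  have g1 : ∀ᶠ n in U, ∀ F ∈ B.I, (V.map (lv L n)).P ∣ aeval (V.map (lv L n)).φ F := by
    obtain ⟨s, hs⟩ := (isNoetherianRing_iff_ideal_fg _).1 inferInstance B.I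
    have h0 : ∀ F ∈ s, ∀ᶠ n in U, (V.map (lv L n)).P ∣ aeval (V.map (lv L n)).φ F := by
      intro F hF
      refine (hmem _ (MvPolynomial.map (algebraMap L (ℕ → L)) F)
        (map_mem_loc _ B.hom hz (hs ▸ Ideal.subset_span hF)) ?_).mono fun n hn => ?_
      · rw [MvPolynomial.map_map, MvPolynomial.map_map]
        rfl
      · rw [MvPolynomial.map_map] at hn
        have : (lv L n).comp (algebraMap L (ℕ → L)) = RingHom.id L := rfl
        rwa [this, MvPolynomial.map_id] at hn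
    filter_upwards [(eventually_all_finset s).2 h0] with n hn F hF
    have : B.I ≤ (Ideal.span {(V.map (lv L n)).P}).comap (aeval (V.map (lv L n)).φ) := by
      rw [← hs]
      exact Ideal.span_le.2 fun G hG => Ideal.mem_span_singleton.2 (hn G hG)
    exact Ideal.mem_span_singleton.1 (this hF)
  have g2 : ∀ᶠ n in U, evZT (zs n) (ts n) (V.map (lv L n)).P = 0 :=
    toU_eq_zero.1 ((ev_toU zs ts eP).trans h4)
  have g3 : ∀ᶠ n in U, aeval (zs n) (V.map (lv L n)).Δ ≠ 0 := by
    have := ev_toU zs ts eΔ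
    simp only [mapZT_C, evZT_C'] at this
    exact toU_ne_zero.1 (this.trans_ne h5)
  have g4 : ∀ᶠ n in U, B.Rep (x n) fun i => evZT (zs n) (ts n) ((V.map (lv L n)).φ i) := by
    have e1 : (fun i => toU U fun n => evZT (zs n) (ts n) ((V.map (lv L n)).φ i)) =
        c • fun i => toU U fun n => x0 n i := (funext fun i => ev_toU zs ts (eφ i)).trans h7
    have u1 : Uni fun i => toU U fun n => evZT (zs n) (ts n) ((V.map (lv L n)).φ i) := by
      rw [e1]; exact hu.smul (isUnit_iff_ne_zero.2 hc)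
    have p1 : Par (fun i => toU U fun n => x0 n i)
        fun i => toU U fun n => evZT (zs n) (ts n) ((V.map (lv L n)).φ i) := by
      rw [e1]; exact par_smul _ _
    filter_upwards [hx0, uni_toU.1 u1, par_toU.1 p1] with n a1 a2 a3
    exact a1.of_par a2 a3
  refine ⟨⟨e, D, D1, hW.hsop.e_pos, U, x, fun n => V.map (lv L n), zs, ts,
    fun n => A.image fun a => a n, ?_, hx, ?_, st_GENU U L _ hx m zs h3⟩, V, rfl, rfl, hV,
    fun _ => rfl, h1, h2, ⟨c, hc, h7⟩, h8⟩
  · filter_upwards [hok, g1, g2, g3, g4] with n a1 a2 a3 a4 a5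
    exact ⟨{ a1.1 with mem := a2 }, a1.2.1, a3, a4, a5⟩
  · exact T20.lo_mono (T20.lo_sum hx A fun a ha => (T20.mem_sm hx).1 (hA a ha))
      (.of_forall fun n => Finset.sum_image_le_of_nonneg fun _ _ => Height.zero_le_logHeight₁ _)

end D4C
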