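import Pool.Agent.Lib.D4C.BlueU
import Pool.Agent.Lib.D4C.B_LOC
import Pool.Agent.Lib.D4C.B_VAN

/-! The exported form of the sharp bound. -/

namespace D4C

open MvPolynomial

namespace T57

theorem le_loc {k σ Ω : Type} [Field k] [Field Ω] [Algebra k Ω] {J : Ideal (MvPolynomial σ k)}
    (hJ : IsHom J) {y : σ → Ω} (hy : Zr J y) : J ≤ loc k y := fun F hF =>
  (T51.mem_loc_iff y F).2 fun n => hy _ (hJ F hF n)

variable {L κ σ : Type} [Field L] [Field κ] [Algebra L κ] [Fintype σ] [DecidableEq σ]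

/-- an abelian subvariety of positive dimension has a nonzero point -/
theorem exists_pt [IsAlgClosed κ] (hL : St_LOC) (B : Pkg L σ) {J : Ideal (MvPolynomial σ κ)}
    (hJ : (B.bc κ).IsSub J) (h2 : 2 ≤ cd J) :
    ∃ (b : B.Pt κ) (y : σ → κ), B.Rep b y ∧ Zr J y ∧ b ≠ 0 := by
  by_contra hn
  push Not at hn
  set o : σ → κ := fun i => algebraMap L κ (B.o i) with ho
  have hp : J.IsPrime := by
    have := hJ.gprime κ
    have hi : MvPolynomial.map (σ := σ) (RingHom.id κ) = RingHom.id _ :=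
      RingHom.ext MvPolynomial.map_id
    rwa [ext, Algebra.algebraMap_self, hi, Ideal.map_id] at this
  have hm : ∀ y : σ → κ, Zr J y → ∃ c : κ, y = c • o := fun y hy => by
    by_cases h0 : y = 0
    · exact ⟨0, by rw [h0, zero_smul]⟩
    · have hr := Pkg.rep_pt (B := B) y (uni_iff_ne_zero.2 h0) (zr_ext.1 (hJ.zr hy))
      have h1 := hn _ y hr hy
      rw [h1] at hr
      exact (Pkg.rep_zero.par hr).exists_smul B.o_uni
  have he : J = loc κ o := by
    refine le_antisymm (le_loc hJ.hom hJ.o_mem) (Ideal.span_le.2 ?_)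
    rintro F ⟨⟨n, hF⟩, h0⟩
    refine T51.mem_of_vanish hp.isRadical fun y hy => ?_
    obtain ⟨c, rfl⟩ := hm y hy
    rw [aeval_smul_hom hF, h0, mul_zero]
  have h1 := (hL κ σ κ o (uni_iff_ne_zero.1 B.o_uni)).2.2.2.2
  rw [he, h1, trdeg_eq_zero, zero_add] at h2
  norm_num at h2

/-- the pulled back form lies in the locus ideal -/
theorem pull_mem (B : Pkg L σ) {F : MvPolynomial σ L} {e : ℕ} (hF : F.IsHomogeneous e)
    {Ω : Type} [Field Ω] [Algebra L Ω] [Algebra κ Ω] [IsScalarTower L κ Ω] (a : Fin B.nl)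
    (x : σ → L) (y : σ → Ω)
    (h : aeval (ev2 (B.A a) (fun i => algebraMap L Ω (x i)) y) F = 0) :
    aeval (ev2 (B.A a) (fun i => algebraMap L (MvPolynomial σ κ) (x i)) X) F ∈ loc κ y := by
  rw [T51.loc_eq_ker (AlgHom.id κ Ω) Function.injective_id y y 1 one_ne_zero
    (one_smul _ _).symm, RingHom.mem_ker]
  have h1 := aeval_map_alg ((T51.cone κ y).restrictScalars L)
    (ev2 (B.A a) (fun i => algebraMap L (MvPolynomial σ κ) (x i)) X) F
  rw [← ev2_map] at h1
  have h2 := aeval_map_alg ((Polynomial.CAlgHom : Ω →ₐ[Ω] Polynomial Ω).restrictScalars L)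
    (ev2 (B.A a) (fun i => algebraMap L Ω (x i)) y) F
  rw [← ev2_map, h, map_zero] at h2
  have h3 := B.ev2_smul a (1 : Polynomial Ω) Polynomial.X
    (fun i => ((Polynomial.CAlgHom : Ω →ₐ[Ω] Polynomial Ω).restrictScalars L)
      (algebraMap L Ω (x i)))
    (fun i => ((Polynomial.CAlgHom : Ω →ₐ[Ω] Polynomial Ω).restrictScalars L) (y i))
  have h4 := congrArg (fun v => aeval v F) h3
  simp only [aeval_smul_hom hF, h2, mul_zero] at h4
  refine h1.symm.trans (Eq.trans (congrArg (fun v => aeval v F)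
    (congrArg₂ (ev2 (B.A a)) (funext fun i => ?_) (funext fun i => ?_))) h4)
  · rw [one_smul, AlgHom.commutes, AlgHom.commutes]
  · exact aeval_X _ i

end T57

theorem st_SHARP (hS : St_SH) (hL : St_LOC) (_hD : St_DIM) : St_SHARP := by
  intro L κ σ _ _ _ _ _ _ _ _ B r e f hf ε hε
  obtain ⟨C, JJ, hfin, hJ, h⟩ := hS L κ σ B r e f hf ε hε
  refine ⟨C, JJ, hfin, fun J hm => ⟨(hJ J hm).1, T57.exists_pt hL B (hJ J hm).1 (hJ J hm).2⟩,
    fun p x hx _ hq => h p x hx fun J hm Ω _ _ _ _ b y w hb hy hw h0 => ?_⟩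
  have hy0 : y ≠ 0 := uni_iff_ne_zero.1 hb.uni
  obtain ⟨l1, l2, -, l4, -⟩ := hL κ σ Ω y hy0
  refine hq J hm _ l2 l1 (T57.le_loc (hJ J hm).1.hom hy) ?_ fun b' y' w' hb' hy' hw' i => ?_
  · obtain ⟨i, hi⟩ := Function.ne_iff.1 hy0
    exact ⟨i, fun hX => hi (by simpa using l4 _ hX)⟩
  · obtain ⟨a, ha⟩ := (hx.map (Algebra.ofId L κ)).exists_add hb'
    obtain ⟨c, hc⟩ := (hx.map (Algebra.ofId L Ω)).law_eq_smul hb hw a
    have h1 : aeval (ev2 (B.A a) (fun i => algebraMap L Ω (x i)) y) (f i) = 0 := by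
      refine (congrArg (fun v => aeval v (f i)) hc).trans ?_
      simp only [aeval_smul_hom (hf i), h0 i, mul_zero]
    have h2 := hy' _ (T57.pull_mem (κ := κ) B (hf i) a x y h1)
    have h3 := aeval_map_alg ((aeval y' : MvPolynomial σ κ →ₐ[κ] κ).restrictScalars L)
      (ev2 (B.A a) (fun i => algebraMap L (MvPolynomial σ κ) (x i)) X) (f i)
    rw [← ev2_map] at h3
    have h4 : aeval (ev2 (B.A a) (fun i => Algebra.ofId L κ (x i)) y') (f i) = 0 := by
      refine Eq.trans (congrArg (fun v => aeval v (f i))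
        (congrArg₂ (ev2 (B.A a)) (funext fun j => ?_) (funext fun j => ?_))) (h3.trans h2)
      · rw [AlgHom.commutes]
        rfl
      · exact (aeval_X y' j).symm
    obtain ⟨c', hc'⟩ := (ha.par hw').exists_smul ha.uni
    rw [hc', aeval_smul_hom (hf i), h4, mul_zero]

end D4C
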