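import Pool.Agent.Lib.D4C.B_STR

/-! the structure theorem and step B in the ultrapower, with a chart -/

namespace D4C

open MvPolynomial Filter

/-- structure theorem, with a chart of the final package -/
def St_STR2 : Prop := ∀ (L σ : Type) [Field L] [NumberField L] [Fintype σ] [DecidableEq σ]
  (B : Pkg L σ) (U : Ultrafilter ℕ) (x : ℕ → B.Pt L), Tendsto (fun n => B.ht (x n)) U atTop →
  ∃ (L' : Type) (_ : Field L') (_ : NumberField L') (_ : Algebra L L') (B' : Pkg L' σ) (g : ℕ)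
    (x' : ℕ → B'.Pt L') (y : ℕ → B.Pt L') (xs : σ → Ul U L'), Dec B U x B' x' y ∧
    B'.IsDim (g + 1) ∧ Nonempty (Chart B' (g + 1)) ∧ UlRep B' U x' xs ∧
    PGen (ext B'.I (sm U L' fun n => B'.ht (x' n))) xs

/-- step B in the ultrapower, given a chart -/
def St_EBU2 : Prop := ∀ (L σ : Type) [Field L] [NumberField L] [Fintype σ] [DecidableEq σ]
  (B : Pkg L σ) (g : ℕ), B.IsDim (g + 1) → ∀ (_ : Chart B (g + 1)) (U : Ultrafilter ℕ)
  (x : ℕ → B.Pt L), Tendsto (fun n => B.ht (x n)) U atTop → ∀ (xs : σ → Ul U L), UlRep B U x xs →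
  PGen (ext B.I (sm U L fun n => B.ht (x n))) xs → ∀ (e D : ℕ)
  (ξ : Fin (g + 2) → MvPolynomial σ (sm U L fun n => B.ht (x n))),
  Hsop (ext B.I (sm U L fun n => B.ht (x n))) (g + 1) e D ξ → ∀ a : ℕ → Fin 2 → L,
  (toU U fun n => a n 0) = aeval xs (ξ 0) → (toU U fun n => a n 1) = aeval xs (ξ 1) →
  aeval xs (ξ 0) ≠ 0 ∧
    Lo U (fun n => B.ht (x n)) fun n => e * B.ht (x n) - Height.logHeight (a n)

open T48

theorem st_STR2 (hD : St_DIM) (hC : St_CHART) (h1 : St_STEP1) (h2 : St_STEP2) (hc : St_DECC)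
    (hh : St_DECH) (hL : St_LOC) (hR : St_RAC) (hS : St_SMP) : St_STR2 := by
  intro L σ _ _ _ _ B U x hx
  obtain ⟨g, hg⟩ := exists_dim hD hL B
  induction g using Nat.strong_induction_on generalizing L with
  | _ g ih =>
  obtain ⟨L₁, _, ⟨C⟩⟩ := hC L σ B g hg
  have : NumberField L₁ := NumberField.of_module_finite L L₁
  obtain ⟨⟨x₁, d₁⟩, hc'⟩ := hc L σ B U x hx L₁
  have hx₁ := (hh L σ B U x L₁ _ _ _ hx d₁).1
  have hg₁ : (B.bc L₁).IsDim g := ((hD L σ B.I (prime_I B)).2.1 L₁ (B.gprime _)).trans hg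
  choose z hz using fun n => Pkg.exists_rep (x₁ n)
  have hu : UlRep (B.bc L₁) U x₁ fun i => toU U fun n => z n i :=
    ⟨z, Eventually.of_forall hz, rfl⟩
  by_cases hp : PGen (ext (B.bc L₁).I (sm U L₁ fun n => (B.bc L₁).ht (x₁ n)))
    fun i => toU U fun n => z n i
  · cases g with
    | zero => exact absurd hp (not_pgen hD hL hR hS _ hg₁ U x₁ hx₁ _ hu)
    | succ g => exact ⟨L₁, _, _, _, _, g, x₁, _, _, d₁, hg₁, ⟨C⟩, hu, hp⟩
  obtain ⟨L₂, _, _, _, J, g', N, y, hJ, h3, h4, h5, h6, h7⟩ := h1 L₁ σ _ g hg₁ C U x₁ hx₁ _ hu hp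
  obtain ⟨x₂, y₂, d₂⟩ := h2 L₁ σ _ U x₁ hx₁ L₂ J hJ N y h5 h6 h7
  let _ : Algebra L L₂ := ((algebraMap L₁ L₂).comp (algebraMap L L₁)).toAlgebra
  have : IsScalarTower L L₁ L₂ := .of_algebraMap_eq' rfl
  obtain ⟨y₃, d₃⟩ := hc' _ _ _ L₂ _ _ _ d₁ d₂
  obtain ⟨L₃, _, _, _, B₃, g₃, x₃, y₄, xs, d₄, h8⟩ :=
    ih g' h4 L₂ _ x₂ (hh L σ B U x L₂ _ _ _ hx d₃).1 h3
  let _ : Algebra L L₃ := ((algebraMap L₂ L₃).comp (algebraMap L L₂)).toAlgebra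
  have : IsScalarTower L L₂ L₃ := .of_algebraMap_eq' rfl
  obtain ⟨y₅, d₅⟩ := (hc L σ B U x hx L₂).2 _ _ _ L₃ _ _ _ d₃ d₄
  exact ⟨L₃, _, _, _, B₃, g₃, x₃, y₅, xs, d₅, h8⟩

end D4C
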