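import Pool.Agent.Lib.D4C.B_LOS
import Pool.Agent.Lib.D4C.B_STR2

/-! SHU: the sharp bound along an ultrafilter. -/

namespace D4C

open MvPolynomial Filter

namespace T34

section alg

variable {L σ R : Type} [Field L] [CommRing R] [Algebra L R]

theorem hom_half {F : MvPolynomial (σ ⊕ σ) L} {m n : ℕ}
    (hF : F.IsWeightedHomogeneous (bw σ) (m, n)) (v : σ → R) :
    (aeval (Sum.elim X fun s => (C (v s) : MvPolynomial σ R)) F).IsHomogeneous m := by
  classical
  have key : ∀ d : σ ⊕ σ →₀ ℕ, (d.prod fun s k =>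
      (Sum.elim X (fun s => (C (v s) : MvPolynomial σ R)) s) ^ k).IsHomogeneous
        (Finsupp.weight (bw σ) d).1 := by
    intro d
    induction d using Finsupp.induction_linear with
    | zero => simpa using isHomogeneous_one σ R
    | add f g hf hg =>
      rw [Finsupp.prod_add_index' (by simp) (by intros; rw [pow_add]), map_add]
      exact hf.mul hg
    | single s k =>
      rw [Finsupp.prod_single_index (by simp), Finsupp.weight_single]
      cases s with
      | inl s => simpa [bw] using (isHomogeneous_X R s).pow k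
      | inr s => simpa [bw] using (isHomogeneous_C σ (v s)).pow k
  rw [F.as_sum, map_sum]
  refine IsHomogeneous.sum _ _ _ fun d hd => ?_
  rw [aeval_monomial]
  have h1 := key d
  rw [hF (mem_support_iff.mp hd)] at h1
  have h2 := (isHomogeneous_C σ (algebraMap L R (coeff d F))).mul h1
  rw [zero_add] at h2
  exact h2

variable [Fintype σ] [DecidableEq σ] (B : Pkg L σ) {r e : ℕ} (f : Fin r → MvPolynomial σ L)

theorem hom_pull (hf : ∀ i, (f i).IsHomogeneous e) (v : σ → R) (u : Fin B.nl × Fin r) :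
    (pullF B f v u).IsHomogeneous (B.β * e) :=
  (hf u.2).aeval _ fun s => hom_half (B.A_hom u.1 s) v

theorem core {Ω : Type} [CommRing Ω] [Algebra L Ω] [Algebra R Ω]
    (hc : ∀ a, algebraMap L Ω a = algebraMap R Ω (algebraMap L R a))
    (hf : ∀ i, (f i).IsHomogeneous e) (v : σ → R) (xs ws : σ → Ω) (lam : Fin B.nl → Ω)
    (hl : ∀ a, ev2 (B.A a) xs (fun s => algebraMap R Ω (v s)) = lam a • ws)
    (G : Fin B.nl × Fin r → MvPolynomial σ R) (s : σ) :
    aeval xs (∑ u, G u * pullF B f v u) * ws s ^ e =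
      ∑ i, aeval xs (∑ a, G (a, i) *
        (ev2 (B.A a) X (fun s => (C (v s) : MvPolynomial σ R)) s) ^ e) * aeval ws (f i) := by
  have tw : IsScalarTower L R Ω := IsScalarTower.of_algebraMap_eq hc
  have h1 : ∀ a, (fun s => aeval xs (ev2 (B.A a) X (fun s => (C (v s) : MvPolynomial σ R)) s))
      = lam a • ws := fun a => by
    have h := ev2_map ((aeval xs : MvPolynomial σ R →ₐ[R] Ω).restrictScalars L) (B.A a) X
      (fun s => (C (v s) : MvPolynomial σ R))
    simp only [AlgHom.restrictScalars_apply, aeval_X, aeval_C] at h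
    rw [← h]
    exact hl a
  have h2 : ∀ a i, aeval xs (pullF B f v (a, i)) = lam a ^ e * aeval ws (f i) := fun a i => by
    have h := aeval_map_alg ((aeval xs : MvPolynomial σ R →ₐ[R] Ω).restrictScalars L)
      (ev2 (B.A a) X (fun s => (C (v s) : MvPolynomial σ R))) (f i)
    simp only [AlgHom.restrictScalars_apply] at h
    rw [h1 a, aeval_smul_hom (hf i)] at h
    exact h.symm
  rw [map_sum, Fintype.sum_prod_type_right, Finset.sum_mul]
  refine Finset.sum_congr rfl fun i _ => ?_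
  rw [map_sum, Finset.sum_mul, Finset.sum_mul]
  refine Finset.sum_congr rfl fun a _ => ?_
  rw [map_mul, map_mul, map_pow, h2, congrFun (h1 a) s, Pi.smul_apply, smul_eq_mul]
  ring

end alg

/-- a small sequence of points has coordinates in the small field -/
theorem small_rep (hP : St_SMP) {L σ M : Type} [Field L] [Fintype σ] [DecidableEq σ] [Field M]
    [NumberField M] [Algebra L M] (B : Pkg L σ) (U : Ultrafilter ℕ) (H : ℕ → ℝ)
    (hH : Tendsto H U atTop) (y : ℕ → B.Pt M) (hy : Lo U H fun n => htM B (y n)) :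
    ∃ v : σ → sm U M H, UlRep B U y fun i => (v i).1 := by
  choose yr hyr using fun n => Pkg.exists_rep (y n)
  have h0 : (fun i => toU U fun n => yr n i) ≠ 0 :=
    uni_iff_ne_zero.1 (T10.uni_toU.2 (Eventually.of_forall fun n => (hyr n).uni))
  obtain ⟨c, v, hv⟩ := (hP σ U M H hH yr h0).1 (by simpa only [← htM_rep (hyr _)] using hy)
  obtain ⟨cs, rfl⟩ := T10.toU_surj c
  have hc : toU U cs ≠ 0 := fun h => h0 (by rw [hv, h, zero_smul])
  have hc' := T10.toU_ne_zero.1 hc
  refine ⟨v, fun n => (cs n)⁻¹ • yr n,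
    hc'.mono fun n hn => (hyr n).smul (isUnit_iff_ne_zero.2 (inv_ne_zero hn)), ?_⟩
  funext i
  apply mul_left_cancel₀ hc
  have h1 := congrFun hv i
  simp only [Pi.smul_apply, smul_eq_mul] at h1
  rw [← h1, ← map_mul]
  refine T10.toU_eq_iff.2 (hc'.mono fun n hn => ?_)
  simp only [Pi.mul_apply, Pi.smul_apply, smul_eq_mul]
  rw [mul_inv_cancel_left₀ hn]

end T34

theorem st_SHU (hSTR : St_STR2) (hSUBF : St_SUBF) (hCOD : St_COD) (hHSOP : St_HSOP)
    (hHSPAN : St_HSPAN) (hEBU : St_EBU2) (hBILU : St_BILU) (hSMP : St_SMP) (hDECH : St_DECH)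
    (hHEXT : St_HEXT) : St_SHU := by
  intro L κ σ _ _ _ _ _ _ _ B r e f hf U x xr hxr hT
  obtain ⟨L', _, _, _, B', g, x', y, xs, hD, hdim, ⟨Ch⟩, hxs, hgen⟩ := hSTR L σ B U x hT
  let _ : Algebra L' κ := (IsAlgClosed.lift : L' →ₐ[L] κ).toRingHom.toAlgebra
  have _ : IsScalarTower L L' κ :=
    IsScalarTower.of_algebraMap_eq fun a => ((IsAlgClosed.lift : L' →ₐ[L] κ).commutes a).symm
  obtain ⟨hJ, hcd⟩ := hSUBF L σ B L' κ B' (g + 1) hD.sub hdim
  refine ⟨_, hJ, by rw [hcd]; exact_mod_cast (by omega : 2 ≤ g + 1 + 1), fun hcod ε hε => ?_⟩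
  have hH0 : ∀ n, 0 ≤ B.ht (x n) := fun n => Height.logHeight_nonneg _
  rcases Nat.eq_zero_or_pos e with rfl | he
  · refine Eventually.of_forall fun n => ?_
    have h1 := Height.logHeight_nonneg fun i => aeval (xr n) (f i)
    have h2 := mul_nonneg hε.le (hH0 n)
    simp only [Nat.cast_zero, zero_mul]
    linarith
  obtain ⟨hT', c, hc, hcmp⟩ := hDECH L σ B U x L' B' x' y hT hD
  obtain ⟨v, hv⟩ := T34.small_rep hSMP B U _ hT' y fun δ hδ => by
    filter_upwards [hD.small (δ / c) (by positivity), hcmp] with n h1 h2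
    refine h1.trans ?_
    rw [div_mul_eq_mul_div, div_le_iff₀ hc]
    nlinarith [h2.1]
  let _ : Algebra L (sm U L' fun n => B'.ht (x' n)) :=
    ((algebraMap L' (sm U L' fun n => B'.ht (x' n))).comp (algebraMap L L')).toAlgebra
  have _ : IsScalarTower L L' (sm U L' fun n => B'.ht (x' n)) :=
    IsScalarTower.of_algebraMap_eq fun _ => rfl
  let _ : Algebra L (Ul U L') := ((algebraMap L' (Ul U L')).comp (algebraMap L L')).toAlgebra
  have tw : T10.Tow U L L' := fun _ => rfl
  have hpull := T34.hom_pull B f hf v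
  obtain ⟨hJh, hspan⟩ := hHSPAN _ σ _ (pullF B f v) _ hpull
  have hN : 1 ≤ B.β * e := Nat.mul_pos B.β_pos he
  obtain ⟨e1, D, ξ, hsop, hdvd, hξ⟩ := hHSOP _ σ (ext B'.I (sm U L' fun n => B'.ht (x' n)))
    (Ideal.span (Set.range (pullF B f v))) (g + 1) 2 (B.β * e) (B'.gprime _) B'.hom.ext hJh
    (hSUBF L σ B L' _ B' (g + 1) hD.sub hdim).2 hN fun q' hq h1 h2 => by
      exact_mod_cast hCOD L σ B r e f hf U x L' κ B' g x' y hD hdim hcod _ v hv q' hq h1
        fun u => h2 (Ideal.subset_span ⟨u, rfl⟩)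
  obtain ⟨k, rfl⟩ : ∃ k, e1 = k + B.β * e :=
    ⟨e1 - B.β * e, (Nat.sub_add_cancel (Nat.le_of_dvd hsop.e_pos hdvd)).symm⟩
  obtain ⟨G0, hG0, hξ0⟩ := hspan (ξ 0) k (hsop.hom 0) (hξ 0 (by simp))
  obtain ⟨G1, hG1, hξ1⟩ := hspan (ξ 1) k (hsop.hom 1) (hξ 1 (by simp))
  obtain ⟨a0, ha0⟩ := T10.toU_surj (aeval xs (ξ 0))
  obtain ⟨a1, ha1⟩ := T10.toU_surj (aeval xs (ξ 1))
  obtain ⟨hne, hE⟩ := hEBU L' σ B' g hdim Ch U x' hT' xs hxs hgen _ D ξ hsop
    (fun n => ![a0 n, a1 n]) ha0 ha1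
  obtain ⟨xr', hxr', rfl⟩ := hxs
  obtain ⟨vr, hvr, hvs⟩ := hv
  have hlam : ∀ᶠ n in U, ∃ l : Fin B.nl → L', ∀ a,
      ev2 (B.A a) (xr' n) (vr n) = l a • fun s => algebraMap L L' (xr n s) := by
    filter_upwards [hD.eq, hxr', hvr] with n h1 h2 h3
    have h4 := (hxr n).map (Algebra.ofId L L')
    rw [h1] at h4
    choose l hl using (hD.sub.rep h2).law_eq_smul h3 h4
    exact ⟨l, hl⟩
  obtain ⟨lam, hlam⟩ := hlam.choice
  have hcore := T34.core (R := sm U L' fun n => B'.ht (x' n)) B f (Ω := Ul U L') (fun _ => rfl) hf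
    v (fun i => toU U fun n => xr' n i) (fun s => toU U fun n => algebraMap L L' (xr n s))
    (fun a => toU U fun n => lam n a) fun a => by
      refine (congrArg _ hvs).trans ((T10.ev2_toU tw _ xr' vr).trans (funext fun s => ?_))
      rw [Pi.smul_apply, smul_eq_mul, ← map_mul]
      exact T10.toU_eq_iff.2 (hlam.mono fun n hn => congrFun (hn a) s)
  have hB := hBILU U L' _ hT' σ (Fin 2 × σ) (Fin r) (k + B.β * e)
    (fun u i => ∑ a, ![G0, G1] u.1 (a, i) * (ev2 (B.A a) X (fun s => C (v s)) u.2) ^ e) xr'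
    (fun n i => algebraMap L L' (aeval (xr n) (f i)))
    (fun n u => ![a0 n, a1 n] u.1 * ((fun s => algebraMap L L' (xr n s)) ^ e) u.2)
    (fun u i => IsHomogeneous.sum _ _ _ fun a _ => by
      refine IsHomogeneous.mul ?_ ((T34.hom_half (B.A_hom a u.2) v).pow e)
      obtain ⟨j, s⟩ := u
      fin_cases j
      · exact hG0 _
      · exact hG1 _)
    hgen.1 (by
      have h1 : ∀ i, (toU U fun n => algebraMap L L' (aeval (xr n) (f i))) =
          aeval (fun s => toU U fun n => algebraMap L L' (xr n s)) (f i) := fun i => by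
        rw [T10.aeval_toU tw (fun n s => algebraMap L L' (xr n s))]
        exact congrArg _ (funext fun n =>
          (aeval_map_alg (Algebra.ofId L L') (xr n) (f i)).symm)
      rintro ⟨j, s⟩
      simp only [h1]
      fin_cases j
      · refine Eq.trans ?_ (hcore G0 s)
        rw [← hξ0, ← ha0, ← map_pow, ← map_mul]
        rfl
      · refine Eq.trans ?_ (hcore G1 s)
        rw [← hξ1, ← ha1, ← map_pow, ← map_mul]
        rfl)
  rw [← ha0] at hne
  have hd : (1 : ℝ) ≤ Module.finrank L L' := by exact_mod_cast Module.finrank_pos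
  filter_upwards [hE (ε / (2 * c)) (by positivity), hB (ε / (2 * c)) (by positivity), hcmp, hxr',
    T10.toU_ne_zero.1 hne] with n h1 h2 h3 h4 h5
  have h6 : (fun s => algebraMap L L' (xr n s)) ≠ 0 :=
    uni_iff_ne_zero.1 ((hxr n).uni.map (algebraMap L L'))
  have h7 : ((fun s => algebraMap L L' (xr n s)) ^ e) ≠ 0 := fun h => h6 (funext fun s =>
    pow_eq_zero_iff he.ne' |>.1 (congrFun h s))
  rw [Height.logHeight_fun_mul_eq (x := ![a0 n, a1 n]) (fun h => h5 (congrFun h 0)) h7,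
    Height.logHeight_pow, hHEXT, hHEXT, ← (hxr n).ht, ← h4.ht] at h2
  have h8 : ε / (2 * c) * B'.ht (x' n) ≤ ε / 2 * B.ht (x n) := by
    refine (mul_le_mul_of_nonneg_left h3.2 (by positivity)).trans (le_of_eq ?_)
    field_simp
  have h9 := mul_nonneg hε.le (hH0 n)
  by_contra hlt
  have h10 := mul_le_mul_of_nonneg_right hd (h9.trans (not_le.1 hlt).le)
  linarith [not_le.1 hlt]

end D4C
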