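import Pool.Agent.Lib.D4C.BlueE

namespace D4C

open MvPolynomial

namespace T51

variable {L κ σ R : Type} [Field L] [Fintype κ] [CommRing R] [Algebra L R]

theorem Tn_monomial (T : κ → (σ →₀ ℕ) → R) (μ : κ × σ →₀ ℕ) (c : L) :
    Tn L T (monomial μ c) = c • ∏ i, T i (μ.curry i) := by
  have : (monomial μ c : MvPolynomial (κ × σ) L) = c • basisMonomials (κ × σ) L μ := by
    simp [smul_monomial]
  rw [this, map_smul, Tn, Module.Basis.constr_basis]

theorem Tn_eq (T : κ → (σ →₀ ℕ) → R) (F : MvPolynomial (κ × σ) L) :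
    Tn L T F = ∑ μ ∈ F.support, coeff μ F • ∏ i, T i (μ.curry i) := by
  conv_lhs => rw [F.as_sum, map_sum]
  exact Finset.sum_congr rfl fun μ _ => Tn_monomial T μ _

theorem Ln_monomial (T : (σ →₀ ℕ) → R) (μ : σ →₀ ℕ) (c : L) : Ln L T (monomial μ c) = c • T μ := by
  have : (monomial μ c : MvPolynomial σ L) = c • basisMonomials σ L μ := by
    simp [smul_monomial]
  rw [this, map_smul, Ln, Module.Basis.constr_basis]

theorem Ln_eq (T : (σ →₀ ℕ) → R) (F : MvPolynomial σ L) :
    Ln L T F = ∑ μ ∈ F.support, coeff μ F • T μ := by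
  conv_lhs => rw [F.as_sum, map_sum]
  exact Finset.sum_congr rfl fun μ _ => Ln_monomial T μ _

theorem curry_sum_mapDomain [DecidableEq κ] (d : κ → σ →₀ ℕ) (i : κ) :
    (∑ j, (d j).mapDomain (Prod.mk j)).curry i = d i := by
  ext a
  rw [Finsupp.curry_apply, Finsupp.finsetSum_apply, Finset.sum_eq_single i]
  · exact Finsupp.mapDomain_apply (Prod.mk_right_injective i) _ _
  · intro j _ hj
    exact Finsupp.mapDomain_of_notMem_range _ _ fun ⟨b, hb⟩ => hj (congrArg Prod.fst hb)
  · simp

theorem Tn_prod [DecidableEq κ] (T : κ → (σ →₀ ℕ) → R) (f : κ → MvPolynomial σ L) :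
    Tn L T (∏ i, rename (Prod.mk i) (f i)) = ∏ i, Ln L (T i) (f i) := by
  classical
  have e : ∀ i, rename (Prod.mk i) (f i) = ∑ d ∈ (f i).support,
      monomial (d.mapDomain (Prod.mk i)) (coeff d (f i)) := fun i => by
    conv_lhs => rw [(f i).as_sum, map_sum]
    simp only [rename_monomial]
  simp only [e, Ln_eq, Finset.prod_univ_sum, map_sum]
  refine Finset.sum_congr rfl fun d _ => ?_
  rw [← monomial_sum_prod, Tn_monomial, Finset.prod_smul]
  simp only [curry_sum_mapDomain]

end T51

open T51 in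
theorem st_TN : St_TN := by
  intro L κ σ R _ _ _ _ _ _
  refine ⟨Tn_prod, fun T s Dm G => ?_, fun x F => ?_, fun x F => ?_, fun R' _ _ f T F => ?_,
    fun T T' a δ F hF h => ?_, fun T j ι s f y F => ?_,
    fun v Bd h1 h2 h3 h4 T b δ F hF hb hT => ?_⟩
  · rw [Tn_eq _ G, Tn_eq _ G, Finset.mul_sum, map_sum]
    refine Finset.sum_congr rfl fun μ _ => ?_
    rw [mul_smul_comm, map_smul, ← Finset.prod_mul_distrib, ← Tn_prod]
    simp only [map_mul]
  · rw [Tn_eq, evB, aeval_def, eval₂_eq']
    refine Finset.sum_congr rfl fun μ _ => ?_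
    rw [Algebra.smul_def, Fintype.prod_prod_type]
    rfl
  · rw [Ln_eq, aeval_def, eval₂_eq']
    exact Finset.sum_congr rfl fun μ _ => by rw [Algebra.smul_def]; rfl
  · simp only [Tn_eq, map_sum, map_smul, map_prod]
  · rw [Tn_eq, Tn_eq, Finset.mul_sum]
    refine Finset.sum_congr rfl fun μ hμ => ?_
    rw [mul_smul_comm, ← Finset.prod_mul_distrib]
    exact congrArg _ (Finset.prod_congr rfl fun i _ => h i _ (hF μ hμ i))
  · have e : ∀ (g : (σ →₀ ℕ) → R) (μ : κ × σ →₀ ℕ), ∏ i, Function.update T j g i (μ.curry i) =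
        g (μ.curry j) * ∏ i ∈ Finset.univ.erase j, T i (μ.curry i) := fun g μ => by
      rw [← Finset.mul_prod_erase _ _ (Finset.mem_univ j), Function.update_self]
      exact congrArg _ (Finset.prod_congr rfl fun i hi => by
        rw [Function.update_of_ne (Finset.ne_of_mem_erase hi)])
    simp only [Tn_eq, e, Finset.sum_mul, Finset.smul_sum]
    rw [Finset.sum_comm]
    refine Finset.sum_congr rfl fun ε _ => Finset.sum_congr rfl fun μ _ => ?_
    rw [smul_mul_assoc, mul_right_comm]
  · have hp : ∀ μ ∈ F.support, ∀ s : Finset κ, Bd (∏ i ∈ s, T i (μ.curry i)) (∏ i ∈ s, b i) := by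
      intro μ hμ s
      induction s using Finset.induction_on with
      | empty => simpa using h4 1
      | insert i s hi ih =>
        rw [Finset.prod_insert hi, Finset.prod_insert hi]
        exact h3 _ _ _ _ (hT i _ (hF μ hμ i)) ih (hb i) (Finset.prod_nonneg fun i _ => hb i)
    have hs : ∀ s : Finset (κ × σ →₀ ℕ), s ⊆ F.support →
        Bd (∑ μ ∈ s, coeff μ F • ∏ i, T i (μ.curry i)) (∑ μ ∈ s, v (coeff μ F) * ∏ i, b i) := by
      classical
      intro s
      induction s using Finset.induction_on with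
      | empty => simpa using h4 0
      | insert μ s hμ ih =>
        intro hs
        rw [Finset.sum_insert hμ, Finset.sum_insert hμ, Algebra.smul_def]
        exact h2 _ _ _ _ (h3 _ _ _ _ (h4 _) (hp μ (hs (Finset.mem_insert_self _ _)) _) (v.nonneg _)
          (Finset.prod_nonneg fun i _ => hb i)) (ih ((Finset.subset_insert _ _).trans hs))
    rw [Tn_eq, l1, Finset.sum_mul]
    exact hs _ subset_rfl

end D4C
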