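import Pool.Agent.Lib.D4C.B_FDEG
import Pool.Agent.Lib.D4C.B_REDN
import Pool.Agent.Lib.D4C.B_TN

/-! Row SIEB of the d4c56 blueprint: solution of the equations of step B. -/

namespace D4C

open MvPolynomial T83 T1

namespace T19

/-- Siegel lemma for equations that involve one slice of the unknowns -/
theorem sieg_up (hS : St_SIEG) (hAD : St_AD) (L : Type) [Field L] [NumberField L] :
    ∃ C : ℝ, 0 ≤ C ∧ ∀ (I J : Type) [Fintype I] [Nonempty I] [Fintype J] (T E : J → Type)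
      [∀ j, Fintype (T j)] [∀ j, Fintype (E j)] (_ : ∀ j, T j) (up : ∀ j, I → T j → I)
      (co : ∀ j, E j → T j → L) (g : J → AbsoluteValue L ℝ → ℝ) (b : J → ℝ) (n0 H : ℝ),
      (∀ j ω t t', up j (up j ω t) t' = up j ω t') →
      (∀ j ω ω' t t', up j ω t = up j ω' t' → t = t') → 0 ≤ H → 1 ≤ n0 →
      (∀ j, Ad (g j) (b j)) → (∀ j, b j + Module.finrank ℚ L * Real.log n0 ≤ H) →
      (∀ j e t (v : AbsoluteValue L ℝ), v (co j e t) ≤ n0 * g j v) →
      (∀ j, 2 * Fintype.card J * Fintype.card (E j) ≤ Fintype.card (T j)) →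
      ∃ c : I → L, c ≠ 0 ∧ Height.logHeight c ≤ C * (H + Real.log (Fintype.card I) + 1) ∧
        ∀ j e ω, ∑ t, c (up j ω t) * co j e t = 0 := by
  classical
  obtain ⟨C, hC, h⟩ := hS L
  obtain ⟨a1, -, -, -, -, -, a7, -⟩ := hAD L
  refine ⟨C, hC, fun I J _ _ _ T E _ _ t0 up co g b n0 H h1 h2 hH hn hg hb hco hc => ?_⟩
  have hR : ∀ j, Fintype.card {ω : I // up j ω (t0 j) = ω} * Fintype.card (T j) ≤
      Fintype.card I := fun j => by
    rw [← Fintype.card_prod]
    refine Fintype.card_le_of_injective (fun p => up j p.1.1 p.2) ?_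
    rintro ⟨⟨ω, hω⟩, t⟩ ⟨⟨ω', hω'⟩, t'⟩ e
    obtain rfl := h2 j _ _ _ _ e
    obtain rfl : ω = ω' := by
      rw [← hω, ← hω', ← h1 j ω t, ← h1 j ω' t]
      exact congrArg (fun x => up j x (t0 j)) e
    rfl
  obtain ⟨c, c0, hc2, hc1⟩ := h (Σ j, E j × {ω : I // up j ω (t0 j) = ω}) I
    (fun r => Function.extend (up r.1 r.2.2.1) (co r.1 r.2.1) 0) H hH (by
      rcases Nat.eq_zero_or_pos (Fintype.card J) with h0 | h0
      · have := Fintype.card_eq_zero_iff.1 h0
        simp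
      · refine Nat.le_of_mul_le_mul_left ?_ h0
        rw [Fintype.card_sigma, Finset.mul_sum, Finset.mul_sum]
        refine (Finset.sum_le_card_nsmul _ _ (Fintype.card I) fun j _ => ?_).trans_eq (by simp)
        refine le_trans ?_ ((Nat.mul_le_mul_left _ (hc j)).trans (hR j))
        rw [Fintype.card_prod]
        exact le_of_eq (by ring)) Fintype.card_pos (by
      rintro ⟨j, e, ω⟩
      dsimp only
      by_cases h0 : Function.extend (up j ω.1) (co j e) 0 = 0
      · rw [h0, Height.logHeight_zero]; exact hH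
      · refine (a7 _ _ _ _ n0 (a1 I _ h0) (hg j) hn fun v => ?_).trans (hb j)
        have hp : 0 ≤ n0 * g j v := mul_nonneg (zero_le_one.trans hn) ((hg j).pos v).le
        refine Real.iSup_le (fun i => ?_) hp
        rw [Function.extend_def]
        split_ifs
        · exact hco _ _ _ _
        · rwa [Pi.zero_apply, map_zero])
  refine ⟨c, c0, hc1, fun j e ω => ?_⟩
  have hi : Function.Injective (up j (up j ω (t0 j))) := fun _ _ => h2 j _ _ _ _
  rw [← hc2 ⟨j, e, up j ω (t0 j), h1 j _ _ _⟩]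
  refine Fintype.sum_of_injective _ hi _ _ (fun i hi' => ?_) fun t => ?_
  · dsimp only
    rw [Function.extend_apply' _ _ _ hi', Pi.zero_apply, zero_mul]
  · dsimp only
    rw [hi.extend_apply, h1, mul_comm]

variable {L σ : Type} [Field L] [Fintype σ]

/-- the polynomial behind `Yv` -/
noncomputable def Yp (Q : MvPolynomial (σ ⊕ σ) L) (f : (σ →₀ ℕ) → L) : MvPolynomial σ L :=
  ∑ γ ∈ Q.support, monomial (fr γ) (coeff γ Q * f (fl γ))

theorem aeval_Yp {R : Type} [CommRing R] [Algebra L R] (Q : MvPolynomial (σ ⊕ σ) L)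
    (f : (σ →₀ ℕ) → L) (u : σ → R) :
    aeval u (Yp Q f) = Yv Q (fun γ => algebraMap L R (f γ)) u := by
  rw [Yp, map_sum, Yv]
  refine Finset.sum_congr rfl fun γ _ => ?_
  rw [T81.aeval_mon, map_mul, Algebra.smul_def, mul_assoc]

omit [Fintype σ] in
theorem l1_Yp (v : AbsoluteValue L ℝ) {Q : MvPolynomial (σ ⊕ σ) L} {f : (σ →₀ ℕ) → L} {M : ℝ}
    (h : ∀ γ ∈ Q.support, v (f (fl γ)) ≤ M) : l1 v (Yp Q f) ≤ l1 v Q * M := by
  refine (l1_sum v _ _).trans ?_
  rw [l1, Finset.sum_mul]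
  refine Finset.sum_le_sum fun γ hγ => ?_
  rw [l1_monomial, map_mul]
  exact mul_le_mul_of_nonneg_left (h γ hγ) (v.nonneg _)

omit [Fintype σ] in
theorem hom_Yp {Q : MvPolynomial (σ ⊕ σ) L} (f : (σ →₀ ℕ) → L) {n : ℕ}
    (h : ∀ γ ∈ Q.support, (fr γ).degree = n) : (Yp Q f).IsHomogeneous n :=
  IsHomogeneous.sum _ _ _ fun γ hγ => isHomogeneous_monomial _ (h γ hγ)

omit [Fintype σ] in
theorem deg_of_hom {F : MvPolynomial σ L} {n : ℕ} (hF : F.IsHomogeneous n) {μ : σ →₀ ℕ}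
    (hμ : μ ∈ F.support) : μ.degree = n := by
  rw [Finsupp.degree_eq_weight_one]
  exact hF (mem_support_iff.1 hμ)

section red
variable {m e D r0 n : ℕ} {ξ : Fin (m + 1) → MvPolynomial σ L}
  {H : (σ →₀ ℕ) → Fin (m + 1) → MvPolynomial σ L} {K : (σ →₀ ℕ) → MvPolynomial (Fin (m + 1) ⊕ σ) L}
  (hK : IsRed ξ H e D r0 n K) {F : MvPolynomial σ L} (hF : F.IsHomogeneous (r0 + e * n))
include hK hF

theorem red_supp {ε : Fin (m + 1) ⊕ σ →₀ ℕ} (h : coeff ε (Ln L K F) ≠ 0) :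
    (fl ε).degree = n ∧ (fr ε).degree = r0 := by
  rw [T51.Ln_eq, coeff_sum] at h
  obtain ⟨μ, hμ, h⟩ := Finset.exists_ne_zero_of_sum_ne_zero h
  rw [coeff_smul, smul_eq_mul] at h
  exact hK.deg μ (deg_of_hom hF hμ) ε (mem_support_iff.2 (right_ne_zero_of_mul h))

theorem red_l1 (v : AbsoluteValue L ℝ) {b : ℝ} (h1 : 1 ≤ b)
    (hb : ∀ ν, ν.degree = e * (D + 1) → ∑ j, l1 v (H ν j) ≤ b) :
    l1 v (Ln L K F) ≤ l1 v F * b ^ n :=
  l1_lin v _ F fun μ hμ => by
    rw [T51.Ln_monomial, one_smul]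
    exact hK.norm v b h1 hb μ (deg_of_hom hF hμ)

theorem red_val {R : Type} [CommRing R] [Algebra L R] (x : σ → R)
    (hx : ∀ ν, ν.degree = e * (D + 1) → aeval x (monomial ν (1 : L) - ∑ j, ξ j * H ν j) = 0) :
    aeval (Sum.elim (fun j => aeval x (ξ j)) x) (Ln L K F) = aeval x F := by
  conv_rhs => rw [F.as_sum, map_sum]
  rw [T51.Ln_eq, map_sum]
  refine Finset.sum_congr rfl fun μ hμ => ?_
  rw [map_smul, ← hK.val R x hx μ (deg_of_hom hF hμ), T81.aeval_mon, Algebra.smul_def]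

end red

theorem bdd_sum {ι τ : Type} [Fintype ι] (F : ι → MvPolynomial τ L) :
    ∃ (c : ℕ) (A : Finset L), ∀ v, ∑ j, l1 v (F j) ≤ c * hv v A := by
  obtain ⟨c, A, -, h⟩ := bdd_fam (fun j v => l1 v (F j)) fun j => bdd_l1 _
  refine ⟨Fintype.card ι * c, A, fun v => ?_⟩
  refine (Finset.sum_le_card_nsmul _ _ _ fun j _ => h j v).trans_eq ?_
  rw [nsmul_eq_mul, Finset.card_univ, Nat.cast_mul, mul_assoc]

theorem split_deg (e D N : ℕ) (he : 1 ≤ e) :
    ∃ r0 n, N = r0 + e * n ∧ (e * D ≤ r0 ∨ n = 0) ∧ r0 + 1 ≤ e * (D + 1) ∧ n ≤ N := by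
  rcases le_or_gt (e * D) N with h | h
  · have h1 := Nat.div_add_mod (N - e * D) e
    have h2 := Nat.mod_lt (N - e * D) he
    have h3 := Nat.div_le_self (N - e * D) e
    refine ⟨e * D + (N - e * D) % e, (N - e * D) / e, by omega, Or.inl (by omega), ?_, by omega⟩
    rw [mul_add]; omega
  · refine ⟨N, 0, by simp, Or.inr rfl, ?_, by omega⟩
    rw [mul_add]; omega

variable [DecidableEq σ] {B : Pkg L σ} {g : ℕ}

theorem l1_lawQ (v : AbsoluteValue L ℝ) (C : Chart B g) {M : ℝ} (h1 : l1 v C.den ≤ M)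
    (h2 : ∀ a, l1 v (C.num a) ≤ M) (h3 : ∀ a s, l1 v (B.A a s) ≤ M) (h4 : 1 ≤ M) (a : Fin B.nl)
    (n : ℕ) (α : Fin g → Fin (n + 1)) :
    l1 v (lawQ C a n α) ≤ M ^ (g * n) * M ^ (C.dg * (g * n)) := by
  refine (l1_aeval v (R := M) (M := M ^ (C.dg * (g * n))) (fun s => ?_) fun μ hμ => ?_).trans
    (mul_le_mul_of_nonneg_right (l1_om v C h1 h2 _ _) (by positivity))
  · refine (l1_aeval v (R := 1) (M := 1) (fun t => ?_) fun _ _ => by simp).trans
      (by rw [mul_one]; exact h3 _ _)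
    cases t <;> exact (l1_X v _).le
  · rw [deg_of_hom (om_hom C n α) hμ]

end T19

open T19

theorem st_SIEB (hH : St_HSOP) (hR : St_REDN) (hC : St_CNB) (hS : St_SIEG) (hAD : St_AD)
    (hT : St_TNG) : St_SIEB := by
  intro L σ _ _ _ _ B g hg C
  classical
  have hpr : B.I.IsPrime := by
    have h := B.gprime L
    have h1 : (MvPolynomial.map (algebraMap L L) : MvPolynomial σ L →+* _) = RingHom.id _ :=
      RingHom.ext fun F => MvPolynomial.map_id F
    rwa [ext, h1, Ideal.map_id] at h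
  obtain ⟨e, D, ξ, hs, -, -⟩ := hH L σ B.I ⊤ g 0 1 hpr B.hom (fun _ _ _ => trivial) hg le_rfl
    fun q hq _ h => absurd (top_le_iff.1 h) hq.ne_top
  choose! H hH1 hH2 using hs.ns
  have : Finite {ν : σ →₀ ℕ // ν.degree = e * (D + 1)} :=
    ((Finsupp.finite_of_degree_le (e * (D + 1))).subset fun _ h => le_of_eq h).to_subtype
  obtain ⟨c0, A0, hc0, hb⟩ := bdd_fam (L := L)
    (ι := (Option (Fin g) ⊕ Fin B.nl × σ) ⊕ {ν : σ →₀ ℕ // ν.degree = e * (D + 1)})
    (Sum.elim (Sum.elim (fun j v => l1 v (j.elim C.den C.num)) fun j v => l1 v (B.A j.1 j.2))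
      fun ν v => ∑ j, l1 v (H ν.1 j)) (by
      rintro ((j | j) | j)
      · exact bdd_l1 _
      · exact bdd_l1 _
      · exact bdd_sum _)
  obtain ⟨Cs, hCs, hsg⟩ := sieg_up hS hAD L
  obtain ⟨-, a2, -, a4, a5, -⟩ := hAD L
  set N1 := C.dg * g + B.β * (C.dg * g) with hN1
  set N := g + (g + C.dg * g) + N1 with hN
  set b := B.nl * (e * (D + 1)) ^ Fintype.card σ + N1 + 1 with hb0
  refine ⟨b, fun c2 A2 => ?_⟩
  have hA0 : ∀ A : Finset L, 0 ≤ hA A := fun A =>
    Finset.sum_nonneg fun _ _ => Height.zero_le_logHeight₁ _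
  set x : ℝ := N * hA A0 + Module.finrank ℚ L * (N * Real.log c0) with hx
  set y : ℝ := hA A2 + Module.finrank ℚ L * Real.log c2 with hy
  have hx0 : 0 ≤ x := by have := hA0 A0; have := Real.log_natCast_nonneg c0; positivity
  have hy0 : 0 ≤ y := by have := hA0 A2; have := Real.log_natCast_nonneg c2; positivity
  refine ⟨Cs * (1 + x + y), by positivity, fun k d E κ n τ Es Kf A hc2 hd hK hcnt => ?_⟩
  obtain ⟨r0, n', e1, e2, e3, e4⟩ := split_deg e D (N1 * d) hs.e_pos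
  obtain ⟨K, hK'⟩ := hR L σ g e D r0 n' ξ H e2 fun ν j h => hH1 ν h j
  obtain ⟨s, hs1, hs2⟩ := (hC σ).1 g n' r0
  have hdd : ∀ i : Fin (k + 1), dd 1 d i = d := fun i => by simp [dd]
  let T : {j : Fin (k + 1) // j ≠ 0} → Type := fun j => Fin (4 ^ (g * κ j.1)) ×
    (Fin g → Fin (dd 1 d j.1 + 1)) × (Fin g → Fin (dd 1 d (0 : Fin (k + 1)) + 1))
  let Q : ∀ j : {j : Fin (k + 1) // j ≠ 0}, τ → Fin B.nl → T j → MvPolynomial σ L :=
    fun j ε a t => om C _ t.2.2 * Yp (lawQ C a _ t.2.1) (Kf j.1 ε t.1)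
  have hL : ∀ (a : Fin B.nl) (n : ℕ) (α' : Fin g → Fin (n + 1)), ∀ γ ∈ (lawQ C a n α').support,
      (fl γ).degree = B.β * (C.dg * (g * n)) ∧ (fr γ).degree = B.β * (C.dg * (g * n)) :=
    fun a => (hT L σ L B g C 0 1 d (fun _ => a) fun _ _ => 0).2.1 a
  have hQ : ∀ j ε a t, (Q j ε a t).IsHomogeneous (r0 + e * n') := fun j ε a t => by
    have := (om_hom C _ t.2.2).mul (hom_Yp (Kf j.1 ε t.1) fun γ h => (hL a _ t.2.1 γ h).2)
    rwa [show C.dg * (g * dd 1 d (0 : Fin (k + 1))) + B.β * (C.dg * (g * dd 1 d j.1)) =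
      r0 + e * n' by rw [hdd, hdd, ← e1, hN1]; ring] at this
  set S : ℝ := ∑ j, n j * hA (A j) with hS0
  have hS1 : ∀ j, n j * hA (A j) ≤ S := fun j => Finset.single_le_sum
    (f := fun j => n j * hA (A j)) (fun j _ => mul_nonneg (Nat.cast_nonneg _) (hA0 _))
    (Finset.mem_univ j)
  have hS2 : 0 ≤ S := (mul_nonneg (Nat.cast_nonneg _) (hA0 _)).trans (hS1 0)
  have p0 : (1 : ℝ) ≤ c0 := by exact_mod_cast hc0
  have p2 : (1 : ℝ) ≤ c2 := by exact_mod_cast hc2
  have : Nonempty (Idx g k 1 d κ) := ⟨⟨fun _ => ⟨0, by positivity⟩, fun _ _ => 0⟩⟩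
  obtain ⟨c, c0', hc1, hc3⟩ := hsg (Idx g k 1 d κ) {j : Fin (k + 1) // j ≠ 0} T
    (fun j => Es j.1 × Fin B.nl × s) (fun _ => ⟨⟨0, by positivity⟩, fun _ => 0, fun _ => 0⟩)
    (fun j ω t => (Function.update ω.1 j.1 t.1,
      Function.update (Function.update ω.2 j.1 t.2.1) 0 t.2.2))
    (fun j q t => coeff q.2.2.1 (Ln L K (Q j q.1.1 q.2.1 t)))
    (fun j v => hv v A0 ^ (N * d) * (hv v A2 ^ E * hv v (A j.1) ^ n j.1))
    (fun j => (N * d : ℕ) * hA A0 + (E * hA A2 + n j.1 * hA (A j.1)))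
    (c0 ^ (N * d) * c2 ^ E) ((1 + x + y) * (E + d + S))
    (fun j ω t t' => by
      refine Prod.ext (Function.update_idem _ _ _) ?_
      dsimp only
      rw [Function.update_comm j.2.symm, Function.update_idem, Function.update_idem])
    (fun j ω ω' t t' h => by
      have h1 := congrFun (congrArg Prod.fst h) j.1
      have h2 := congrFun (congrArg Prod.snd h) j.1
      have h3 := congrFun (congrArg Prod.snd h) 0
      dsimp only at h1 h2 h3
      rw [Function.update_of_ne j.2, Function.update_of_ne j.2] at h2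
      simp only [Function.update_self] at h1 h2 h3
      exact Prod.ext h1 (Prod.ext h2 h3))
    (by positivity) (one_le_mul_of_one_le_of_one_le (one_le_pow₀ p0) (one_le_pow₀ p2))
    (fun j => a4 _ _ _ _ (a5 _ _ _ (a2 A0)) (a4 _ _ _ _ (a5 _ _ _ (a2 A2)) (a5 _ _ _ (a2 _))))
    (fun j => by
      rw [Real.log_mul (by positivity) (by positivity), Real.log_pow, Real.log_pow]
      have h1 : 0 ≤ (E : ℝ) + d + x * E + x * S + y * d + y * S := by positivity
      have h2 := hS1 j.1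
      push_cast
      have h3 : (N : ℝ) * d * hA A0 + (E * hA A2 + n j.1 * hA (A j.1)) +
          Module.finrank ℚ L * (N * d * Real.log c0 + E * Real.log c2) =
          x * d + y * E + n j.1 * hA (A j.1) := by rw [hx, hy]; ring
      rw [h3]
      linarith only [h1, h2])
    (fun j q t v => by
      have hM : 1 ≤ c0 * hv v A0 := one_le_mul_of_one_le_of_one_le p0 (one_le_hv v _)
      have b1 := hb (.inl (.inl none)) v
      have b2 := fun a => hb (.inl (.inl (some a))) v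
      have h1 := l1_om v C b1 b2 _ t.2.2
      have h2 := l1_lawQ v C b1 b2 (fun a s => hb (.inl (.inr (a, s))) v) hM q.2.1 _ t.2.1
      have h3 := l1_Yp v (Q := lawQ C q.2.1 _ t.2.1) (f := Kf j.1 q.1.1 t.1) fun γ h =>
        hK j.1 j.2 q.1.1 t.1 _ v (by rw [(hL _ _ _ γ h).1, nn, if_neg j.2, hdd, one_mul])
      have h4 := red_l1 hK' (hQ j q.1.1 q.2.1 t) v hM fun ν h => hb (.inr ⟨ν, h⟩) v
      have h5 := sum_le_l1 v (Ln L K (Q j q.1.1 q.2.1 t)) {q.2.2.1}
      rw [Finset.sum_singleton] at h5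
      have q2 := one_le_hv v A2
      have q3 := one_le_hv v (A j.1)
      have h6 := (l1_mul v _ _).trans (mul_le_mul h1 (h3.trans (mul_le_mul_of_nonneg_right h2
        (by positivity))) (l1_nonneg v _) (by positivity))
      refine (h5.trans (h4.trans (mul_le_mul h6 (pow_le_pow_right₀ hM e4) (by positivity)
        (by positivity)))).trans_eq ?_
      rw [hdd, hdd, hN]
      ring)
    (fun j => by
      have h1 : Fintype.card {j : Fin (k + 1) // j ≠ 0} = k := by simp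
      have h2 : Fintype.card (T j) = 4 ^ (g * κ j.1) * (d + 1) ^ (2 * g) := by
        simp [T, hdd, two_mul, pow_add]
      rw [h1, h2]
      refine le_trans ?_ (hcnt j.1 j.2)
      rw [Fintype.card_prod, Fintype.card_prod, Fintype.card_coe, Fintype.card_coe,
        Fintype.card_fin, ← mul_assoc]
      refine Nat.mul_le_mul_left _ ((Nat.mul_le_mul_left _ hs2).trans ?_)
      have h3 : n' + 1 ≤ b * d + 1 :=
        Nat.succ_le_succ (e4.trans (Nat.mul_le_mul_right _ (by omega)))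
      have h4 : B.nl * (r0 + 1) ^ Fintype.card σ ≤ b :=
        (Nat.mul_le_mul_left _ (Nat.pow_le_pow_left e3 _)).trans (by omega)
      exact le_trans (le_of_eq (by ring)) (Nat.mul_le_mul h4 (Nat.pow_le_pow_left h3 g)))
  refine ⟨c, c0', hc1.trans ?_, fun j hj ε hε a ω R _ _ u hu => ?_⟩
  · have h1 := Real.log_natCast_nonneg (Fintype.card (Idx g k 1 d κ))
    rw [mul_assoc]
    refine mul_le_mul_of_nonneg_left ?_ hCs
    have h2 : 0 ≤ (x + y) * (Real.log (Fintype.card (Idx g k 1 d κ)) + 1) := by positivity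
    linarith only [h2]
  · have hP : ∑ t : T ⟨j, hj⟩, c (Function.update ω.1 j t.1,
        Function.update (Function.update ω.2 j t.2.1) 0 t.2.2) • Ln L K (Q ⟨j, hj⟩ ε a t) = 0 := by
      ext ε'
      rw [coeff_sum, coeff_zero]
      by_cases h : ε' ∈ s
      · exact hc3 ⟨j, hj⟩ (⟨ε, hε⟩, a, ⟨ε', h⟩) ω
      · refine Finset.sum_eq_zero fun t _ => ?_
        rw [coeff_smul, not_not.1 fun h' => h ((hs1 _).2 (red_supp hK' (hQ _ ε a t) h')), smul_zero]
    have h := congrArg (aeval (Sum.elim (fun j => aeval u (ξ j)) u)) hP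
    rw [map_sum, map_zero] at h
    rw [← h, Fintype.sum_prod_type]
    refine Finset.sum_congr rfl fun l _ => ?_
    rw [Fintype.sum_prod_type]
    refine Finset.sum_congr rfl fun αj _ => Finset.sum_congr rfl fun α0 _ => ?_
    rw [map_smul, red_val hK' (hQ _ ε a _) u fun ν h => hu _ (hH2 ν h), map_mul, aeval_Yp]

end D4C
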