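import Pool.Agent.Lib.D4C.BlueA
import Pool.Agent.Lib.GEL51.Ext

namespace D4C

open Height NumberField

namespace T51

variable {L : Type} [Field L] [NumberField L]

theorem house_le_of_forall {α : L} {A : ℝ} (h : ∀ φ : L →+* ℂ, ‖φ α‖ ≤ A) : house α ≤ A :=
  (pi_norm_le_iff_of_nonempty _).mpr h

/-- a vector has an integral multiple whose house is at most the height -/
theorem exists_int_multiple {κ : Type} [Fintype κ] (x : κ → L) : ∃ (t : L) (y : κ → 𝓞 L), t ≠ 0 ∧
    (∀ j, (y j : L) = t * x j) ∧ ∀ j, house (y j : L) ≤ mulHeight x := by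
  classical
  by_cases hx : x = 0
  · refine ⟨1, 0, one_ne_zero, fun j => by simp [hx], fun j => house_le_of_forall fun φ => ?_⟩
    simp [hx]
  obtain ⟨k, hk⟩ := Function.ne_iff.mp hx
  have hk : x k ≠ 0 := hk
  have : Nonempty κ := ⟨k⟩
  obtain ⟨⟨b, hb⟩, hb'⟩ :=
    IsLocalization.exist_integer_multiples_of_finite (nonZeroDivisors (𝓞 L)) x
  choose z hz using hb'
  have hb0 : (b : L) ≠ 0 := by exact_mod_cast nonZeroDivisors.ne_zero hb
  have hz : ∀ j, (z j : L) = b * x j := fun j => (hz j).trans (Algebra.smul_def _ _)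
  have hzk : (z k : L) ≠ 0 := by rw [hz]; exact mul_ne_zero hb0 hk
  have hzk' : z k ≠ 0 := fun h => hzk (by rw [h]; rfl)
  have hz0 : z ≠ 0 := fun h => hzk' (congrFun h k)
  have e1 : mulHeight (fun j => (z j : L)) = mulHeight x := by
    rw [← mulHeight_smul_eq_mulHeight x hb0]
    exact congrArg mulHeight (funext hz)
  obtain ⟨D, hD⟩ : Ideal.span (Set.range z) ∣ Ideal.span {z k} :=
    Ideal.dvd_iff_le.mpr (Ideal.span_mono (Set.singleton_subset_iff.mpr ⟨k, rfl⟩))
  have hy : ∀ j, ∃ y : 𝓞 L, y * z k = z j * (Ideal.absNorm D : 𝓞 L) := fun j =>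
    Ideal.mem_span_singleton'.mp (hD ▸ Ideal.mul_mem_mul (Ideal.subset_span ⟨j, rfl⟩) D.absNorm_mem)
  choose y hy using hy
  have hy' : ∀ j, (y j : L) * z k = z j * (Ideal.absNorm D : L) := fun j => by
    exact_mod_cast congrArg (fun t : 𝓞 L => (t : L)) (hy j)
  have hN : Ideal.absNorm (Ideal.span {z k}) =
      Ideal.absNorm (Ideal.span (Set.range z)) * Ideal.absNorm D := by rw [hD, map_mul]
  have hN0 : Ideal.absNorm (Ideal.span {z k}) ≠ 0 := by
    rw [Ne, Ideal.absNorm_eq_zero_iff, Ideal.span_singleton_eq_bot]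
    exact hzk'
  have hI : (0 : ℝ) < Ideal.absNorm (Ideal.span (Set.range z)) := by
    exact_mod_cast Nat.pos_of_ne_zero (left_ne_zero_of_mul (hN ▸ hN0))
  have hD0 : (Ideal.absNorm D : L) ≠ 0 := by exact_mod_cast right_ne_zero_of_mul (hN ▸ hN0)
  have h1 := GEL51.mulHeight_int hz0
  have h2 := GEL51.mulHeight_int (x := fun _ : Unit => z k) fun h => hzk' (congrFun h ())
  rw [mulHeight_eq_one_of_subsingleton, Set.range_const, hN, mul_one, Nat.cast_mul] at h2
  simp only [ciSup_const] at h2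
  rw [e1] at h1
  refine ⟨Ideal.absNorm D / x k, y, div_ne_zero hD0 hk, fun j => ?_,
    fun j => house_le_of_forall fun φ => ?_⟩
  · have := hy' j
    rw [hz, hz] at this
    field_simp
    refine mul_left_cancel₀ hb0 ?_
    linear_combination this
  · have hp : ∀ ψ : L →+* ℂ, 0 < ‖ψ (z k)‖ := fun ψ => norm_pos_iff.mpr ((map_ne_zero ψ).mpr hzk)
    have hs : ∀ (ψ : L →+* ℂ) i, ‖ψ (z i)‖ ≤ ⨆ i, ‖ψ (z i)‖ := fun ψ i =>
      le_ciSup (f := fun i => ‖ψ (z i)‖) (Finite.bddAbove_range _) i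
    have h3 : ‖φ (y j)‖ * ‖φ (z k)‖ = ‖φ (z j)‖ * Ideal.absNorm D := by
      rw [← norm_mul, ← map_mul, hy', map_mul, norm_mul, map_natCast, Complex.norm_natCast]
    have h4 : ‖φ (z j)‖ * ∏ ψ ∈ Finset.univ.erase φ, ‖ψ (z k)‖ ≤ ∏ ψ : L →+* ℂ, ⨆ i, ‖ψ (z i)‖ := by
      rw [← Finset.mul_prod_erase _ _ (Finset.mem_univ φ)]
      exact mul_le_mul (hs φ j) (Finset.prod_le_prod (fun ψ _ => (hp ψ).le) fun ψ _ => hs ψ k)
        (Finset.prod_nonneg fun ψ _ => (hp ψ).le) ((norm_nonneg _).trans (hs φ j))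
    rw [← Finset.mul_prod_erase _ _ (Finset.mem_univ φ)] at h2
    have h5 : (0 : ℝ) < Ideal.absNorm D := by
      exact_mod_cast Nat.pos_of_ne_zero (right_ne_zero_of_mul (hN ▸ hN0))
    refine le_of_mul_le_mul_left (le_of_mul_le_mul_left ?_ h5) hI
    rw [h1]
    refine le_trans (le_of_eq ?_) (mul_le_mul_of_nonneg_left h4 h5.le)
    linear_combination ‖φ (y j)‖ * h2 + (∏ ψ ∈ Finset.univ.erase φ, ‖ψ (z k)‖) * h3

theorem mulHeight_le_house {κ : Type} [Fintype κ] {y : κ → 𝓞 L} (hy : y ≠ 0) {A : ℝ}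
    (h : ∀ j, house (y j : L) ≤ A) : mulHeight (fun j => (y j : L)) ≤ A ^ Module.finrank ℚ L := by
  obtain ⟨k, hk⟩ := Function.ne_iff.mp hy
  have : Nonempty κ := ⟨k⟩
  have h1 := GEL51.mulHeight_int hy
  have h2 : (1 : ℝ) ≤ Ideal.absNorm (Ideal.span (Set.range y)) := by
    rw [Nat.one_le_cast, Nat.one_le_iff_ne_zero, Ne, Ideal.absNorm_eq_zero_iff, Ideal.span_eq_bot]
    exact fun h => hk (h _ ⟨k, rfl⟩)
  refine (le_mul_of_one_le_left (mulHeight_pos _).le h2).trans (h1.le.trans ?_)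
  rw [← Embeddings.card L ℂ, ← Finset.card_univ, ← Finset.prod_const]
  exact Finset.prod_le_prod (fun φ _ => Real.iSup_nonneg fun _ => norm_nonneg _) fun φ _ =>
    ciSup_le fun j => (norm_embedding_le_house _ φ).trans (h j)

theorem siegel_house (L : Type) [Field L] [NumberField L] : ∃ c : ℝ, ∀ (α β : Type) [Fintype α]
    [Fintype β] (a : Matrix α β (𝓞 L)), a ≠ 0 → 0 < Fintype.card α →
    Fintype.card α < Fintype.card β → ∀ A : ℝ, (∀ k l, house (a k l : L) ≤ A) →
    ∃ ξ : β → 𝓞 L, ξ ≠ 0 ∧ a.mulVec ξ = 0 ∧ ∀ l, house (ξ l : L) ≤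
      c * (c * Fintype.card β * A) ^ ((Fintype.card α : ℝ) / (Fintype.card β - Fintype.card α)) := by
  classical
  exact ⟨_, fun α β _ _ a ha h0 h1 A hA =>
    house.exists_ne_zero_int_vec_house_le L a ha h0 h1 rfl hA rfl⟩

end T51

open T51 in
theorem st_SIEG : St_SIEG := by
  intro L _ _
  obtain ⟨c, hc⟩ := siegel_house L
  have hc1 : 1 ≤ |c| + 1 := by linarith [abs_nonneg c]
  have hl : 0 ≤ Real.log (|c| + 1) := Real.log_nonneg hc1
  refine ⟨Module.finrank ℚ L * (2 * Real.log (|c| + 1) + 1), by positivity,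
    fun ι κ _ _ M H hH h2 h0 hM => ?_⟩
  have hq : (1 : ℝ) ≤ Fintype.card κ := by exact_mod_cast h0
  have hq' : 0 ≤ Real.log (Fintype.card κ) := Real.log_nonneg hq
  choose t y ht hy hy' using fun i => exists_int_multiple (M i)
  by_cases ha : Matrix.of y = 0
  · have : Nonempty κ := Fintype.card_pos_iff.mp h0
    refine ⟨1, one_ne_zero, fun i => Finset.sum_eq_zero fun j _ => ?_, ?_⟩
    · have h3 := hy i j
      rw [show y i j = 0 from congrFun (congrFun ha i) j] at h3
      rw [(mul_eq_zero.mp h3.symm).resolve_left (ht i), zero_mul]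
    · rw [logHeight_one]
      positivity
  have hp : 0 < Fintype.card ι := by
    by_contra h
    have := Fintype.card_eq_zero_iff.mp (Nat.eq_zero_of_not_pos h)
    exact ha (Subsingleton.elim _ _)
  obtain ⟨ξ, h3, h4, h5⟩ := hc ι κ (Matrix.of y) ha hp (by omega) (Real.exp H) fun k l =>
    (hy' k l).trans ((Real.log_le_iff_le_exp (mulHeight_pos _)).mp (hM k))
  have hE : 1 ≤ Real.exp H := Real.one_le_exp hH
  have hB : 1 ≤ (|c| + 1) * Fintype.card κ * Real.exp H :=
    one_le_mul_of_one_le_of_one_le (one_le_mul_of_one_le_of_one_le hc1 hq) hE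
  have hpq : (2 * Fintype.card ι : ℝ) ≤ Fintype.card κ := by exact_mod_cast h2
  have hp' : (0 : ℝ) < Fintype.card ι := by exact_mod_cast hp
  have h6 : ∀ l, house (ξ l : L) ≤ (|c| + 1) * ((|c| + 1) * Fintype.card κ * Real.exp H) := by
    intro l
    refine (h5 l).trans ((le_abs_self _).trans ?_)
    rw [abs_mul]
    refine mul_le_mul (by linarith) ((Real.abs_rpow_le_abs_rpow _ _).trans ?_) (abs_nonneg _)
      (by linarith)
    refine (Real.rpow_le_rpow (abs_nonneg _) (?_ : _ ≤ (|c| + 1) * Fintype.card κ * Real.exp H)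
      (div_nonneg hp'.le (by linarith))).trans ?_
    · rw [abs_mul, abs_mul, Nat.abs_cast, abs_of_pos (Real.exp_pos H)]
      gcongr
      linarith
    · refine (Real.rpow_le_rpow_of_exponent_le hB ?_).trans (Real.rpow_one _).le
      rw [div_le_one (by linarith)]
      linarith
  refine ⟨fun l => (ξ l : L), fun h => h3 (funext fun l => ?_), fun i => ?_, ?_⟩
  · have : (ξ l : L) = 0 := congrFun h l
    change ξ l = 0
    exact_mod_cast this
  · refine mul_left_cancel₀ (ht i) ?_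
    have h7 : ∑ j, y i j * ξ j = 0 := congrFun h4 i
    have h8 := congrArg (algebraMap (𝓞 L) L) h7
    rw [map_sum, map_zero] at h8
    rw [mul_zero, Finset.mul_sum, ← h8]
    exact Finset.sum_congr rfl fun j _ => by rw [map_mul, ← mul_assoc, ← hy]
  · have h7 := Real.log_le_log (mulHeight_pos _) (mulHeight_le_house h3 h6)
    rw [Real.log_pow, Real.log_mul (by linarith) (by linarith),
      Real.log_mul (by positivity) (by positivity), Real.log_mul (by linarith) (by linarith),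
      Real.log_exp] at h7
    refine h7.trans ?_
    rw [mul_assoc]
    refine mul_le_mul_of_nonneg_left ?_ (Nat.cast_nonneg _)
    nlinarith [mul_nonneg hl hH, mul_nonneg hl hq']

end D4C
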