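import Pool.Agent.Lib.D4C.BlueF

/-! Divisor class relations specialise along places. -/

namespace D4C

namespace T98

variable {K σ : Type} [Field K] [Fintype σ]

theorem eqF_smul (hG : St_GV) {r s : ℕ} (O : ValuationSubring K) (c : K) (u : Fin r → K)
    (v : Fin s → K) (hv : ∀ j, v j ≠ 0) (a : Fin r → σ → K) (b : Fin s → σ → K) :
    EqF O c (fun i => u i • a i) (fun j => v j • b j) ↔
      EqF O (c * (∏ i, u i) / ∏ j, v j) a b := by
  have h0 : ∏ j, O.valuation (v j) ≠ 0 :=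
    Finset.prod_ne_zero_iff.mpr fun j _ => (Valuation.ne_zero_iff _).mpr (hv j)
  simp only [EqF, hG.smul, Finset.prod_mul_distrib, map_div₀, map_mul, map_prod]
  rw [div_mul_eq_mul_div, div_eq_iff h0, mul_assoc, mul_comm (∏ j, gv O (b j))]

variable {k Ω : Type} [Field k] [Field Ω] [Algebra k K] [Algebra k Ω]

theorem gv_one (P : Plc k K Ω) (x : σ → P.O) (hx : (fun i => P.ψ (x i)) ≠ 0) :
    gv P.O (fun i => (x i : K)) = 1 := by
  obtain ⟨i, hi⟩ := Function.ne_iff.mp hx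
  have hu : IsUnit (x i) := by
    by_contra h
    exact hi ((P.ker _).mpr h)
  refine le_antisymm (Finset.sup_le fun j _ => P.O.valuation_le_one (x j)) ?_
  rw [← (P.O.valuation_eq_one_iff (x i)).mp hu]
  exact Finset.le_sup (f := fun j => P.O.valuation (x j : K)) (Finset.mem_univ i)

omit [Fintype σ] in
theorem sp_smul (P : Plc k K Ω) {x : σ → K} {y : σ → Ω} (hx : x ≠ 0) (hy : y ≠ 0)
    (h : P.Sp x y) : ∃ (z : σ → P.O) (u : K) (w : Ω), (fun i => P.ψ (z i)) ≠ 0 ∧ u ≠ 0 ∧ w ≠ 0 ∧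
      x = u • (fun i => (z i : K)) ∧ y = w • fun i => P.ψ (z i) := by
  obtain ⟨z, h0, h1, h2⟩ := h
  have h3 : (fun i => (z i : K)) ≠ 0 := fun h => h0 (funext fun i => by
    have : z i = 0 := Subtype.ext (congrFun h i)
    rw [this, map_zero]; rfl)
  obtain ⟨u, hu⟩ := h1.exists_smul (uni_iff_ne_zero.mpr h3)
  obtain ⟨w, hw⟩ := h2.exists_smul (uni_iff_ne_zero.mpr h0)
  exact ⟨z, u, w, h0, fun h => hx (by rw [hu, h, zero_smul]),
    fun h => hy (by rw [hw, h, zero_smul]), hu, hw⟩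

end T98

theorem st_SPEC (hG : St_GV) : St_SPEC := by
  intro L σ _ _ _ B k K Ω _ _ _ _ _ _ _ _ _ _ P r s p q p' q' hp hq h
  obtain ⟨c, hc, h⟩ := h
  choose x u u' hx hu hu' ex ex' using fun i => T98.sp_smul P
    (uni_iff_ne_zero.mp (B.rep_rp (p i)).uni) (uni_iff_ne_zero.mp (B.rep_rp (p' i)).uni) (hp i)
  choose y v v' hy hv hv' ey ey' using fun j => T98.sp_smul P
    (uni_iff_ne_zero.mp (B.rep_rp (q j)).uni) (uni_iff_ne_zero.mp (B.rep_rp (q' j)).uni) (hq j)
  set d : K := c * (∏ i, u i) / ∏ j, v j with hd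
  have h1 : ∀ O : ValuationSubring K, Ov L O →
      EqF O d (fun i l => (x i l : K)) fun j l => (y j l : K) := fun O hO => by
    have := h O hO
    simp only [ex, ey] at this
    exact (T98.eqF_smul hG O c u v hv _ _).mp this
  have hL : Ov L P.O := fun a => by
    rw [IsScalarTower.algebraMap_apply L k K]
    exact P.mem _
  have h2 : P.O.valuation d = 1 := by
    have := h1 P.O hL
    simpa only [EqF, T98.gv_one P _ (hx _), T98.gv_one P _ (hy _), Finset.prod_const_one,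
      mul_one] using this
  have h3 : d ∈ P.O := (P.O.valuation_le_one_iff d).mp h2.le
  have h4 : P.ψ ⟨d, h3⟩ ≠ 0 := fun h0 =>
    (P.ker _).mp h0 ((P.O.valuation_eq_one_iff ⟨d, h3⟩).mpr h2)
  have h5 : ∏ i, u' i ≠ 0 := Finset.prod_ne_zero_iff.mpr fun i _ => hu' i
  have h6 : ∏ j, v' j ≠ 0 := Finset.prod_ne_zero_iff.mpr fun j _ => hv' j
  refine ⟨P.ψ ⟨d, h3⟩ * (∏ j, v' j) / ∏ i, u' i, div_ne_zero (mul_ne_zero h4 h6) h5,
    fun O' hO' => ?_⟩
  have h7 : Ov L (P.comp O') := fun a => by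
    rw [P.mem_comp, IsScalarTower.algebraMap_apply L k K]
    refine ⟨P.mem _, ?_⟩
    rw [P.alg, ← IsScalarTower.algebraMap_apply]
    exact hO' a
  have h8 := ((hG.comp k K Ω σ r s P O' ⟨d, h3⟩ x y hx hy).2 h4).mp (h1 _ h7)
  simp only [ex', ey']
  refine (T98.eqF_smul hG O' _ u' v' hv' _ _).mpr ?_
  rw [div_mul_cancel₀ _ h5, mul_div_cancel_right₀ _ h6]
  exact h8

end D4C
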