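import Pool.Agent.Lib.D4C.BlueF

/-! d4c56, block SS1: one-sided seesaw. -/

set_option linter.unusedSectionVars false

namespace D4C

open MvPolynomial

namespace T21

theorem gv_le_one {K ι : Type} [Field K] [Fintype ι] (O : ValuationSubring K) {x : ι → K}
    (h : ∀ i, x i ∈ O) : gv O x ≤ 1 :=
  Finset.sup_le fun i _ => (O.valuation_le_one_iff _).mpr (h i)

theorem le_gv {K ι : Type} [Field K] [Fintype ι] (O : ValuationSubring K) (x : ι → K) (i : ι) :
    O.valuation (x i) ≤ gv O x :=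
  Finset.le_sup (f := fun i => O.valuation (x i)) (Finset.mem_univ i)

theorem gv_eq_one {K ι : Type} [Field K] [Fintype ι] (O : ValuationSubring K) {x : ι → K}
    (h : ∀ i, x i ∈ O) {i : ι} (hi : O.valuation (x i) = 1) : gv O x = 1 :=
  le_antisymm (gv_le_one O h) (hi ▸ le_gv O x i)

theorem nrm (hG : St_GV) {E K σ : Type} [Field E] [Field K] [Fintype σ] (f : E →+* K)
    (V : ValuationSubring K) (y : σ → E) (hy : y ≠ 0) :
    ∃ c : E, c ≠ 0 ∧ (∀ j, f ((c • y) j) ∈ V) ∧ gv V (fun j => f ((c • y) j)) = 1 := by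
  have hy' : (fun j => f (y j)) ≠ 0 := by
    obtain ⟨k, hk⟩ := Function.ne_iff.mp hy
    exact Function.ne_iff.mpr ⟨k, fun h => hk (f.injective (by simpa using h))⟩
  obtain ⟨i, hi, -, hm⟩ := hG.att K σ V _ hy'
  have hi' : y i ≠ 0 := fun h => hi (by rw [h, map_zero])
  have hmem : ∀ j, f (((y i)⁻¹ • y) j) ∈ V := fun j => by
    have := hm j
    rwa [Pi.smul_apply, smul_eq_mul, map_mul, map_inv₀, mul_comm, ← div_eq_mul_inv]
  refine ⟨(y i)⁻¹, inv_ne_zero hi', hmem, gv_eq_one V hmem (i := i) ?_⟩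
  rw [Pi.smul_apply, smul_eq_mul, inv_mul_cancel₀ hi', map_one, map_one]

theorem aeval_mem {κ K τ : Type} [Field κ] [Field K] [Algebra κ K] (O : ValuationSubring K)
    (hO : Ov κ O) (x : τ → K) (hx : ∀ i, x i ∈ O) (P : MvPolynomial τ κ) : aeval x P ∈ O := by
  induction P using MvPolynomial.induction_on with
  | C a => rw [aeval_C]; exact hO a
  | add p q hp hq => rw [map_add]; exact add_mem hp hq
  | mul_X p i hp => rw [map_mul, aeval_X]; exact mul_mem hp (hx i)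

theorem lef_iff (hG : St_GV) {K σ : Type} [Field K] [Fintype σ] {r s : ℕ}
    (O : ValuationSubring K) (φ : K) (A : Fin r → σ → K) (B : Fin s → σ → K) (lam : Fin r → K)
    (mu : Fin s → K) (hmu : ∀ j, mu j ≠ 0) :
    LeF O φ (fun i => lam i • A i) (fun j => mu j • B j) ↔
      LeF O (φ * (∏ i, lam i) / ∏ j, mu j) A B := by
  have hm : O.valuation (∏ j, mu j) ≠ 0 :=
    (Valuation.ne_zero_iff _).mpr (Finset.prod_ne_zero_iff.mpr fun j _ => hmu j)
  unfold LeF
  simp only [hG.smul]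
  rw [Finset.prod_mul_distrib, Finset.prod_mul_distrib, ← map_prod, ← map_prod, map_div₀, map_mul,
    div_mul_eq_mul_div, div_le_iff₀ (zero_lt_iff.mpr hm), mul_assoc,
    mul_comm (∏ j, gv O (B j))]

theorem key (hG : St_GV) (hN : St_NRM) {κ σ : Type} [Field κ] [Fintype σ] [DecidableEq σ]
    (B : Pkg κ σ) {F Ω₀ K : Type} [Field F] [Field Ω₀] [Field K] [Algebra κ F] [Algebra κ Ω₀]
    [Algebra κ K] [Algebra F K] [Algebra Ω₀ K] [IsScalarTower κ F K] [IsScalarTower κ Ω₀ K]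
    {w : ValuationSubring Ω₀} {W V : ValuationSubring K} (hw : Ov κ w) (hW : IsGauss κ F w W)
    (hV : ∀ c : Ω₀, algebraMap Ω₀ K c ∈ V ↔ c ∈ w) {x : B.Pt F} {xr : σ → F} (hx : B.Rep x xr)
    (h1 : (gv V fun i => algebraMap F K (xr i)) = 1) (c : B.Pt Ω₀) (a : σ → K)
    (ha : B.Rep (B.tr K x c) a) :
    ∃ (A : σ → K) (lam : K) (l : σ), lam ≠ 0 ∧ a = lam • A ∧ V.valuation (A l) = 1 ∧
      W.valuation (A l) = 1 ∧ ∀ O : ValuationSubring K, (∀ i, algebraMap F K (xr i) ∈ O) →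
        (∀ e ∈ w, algebraMap Ω₀ K e ∈ O) → ∀ i, A i ∈ O := by
  obtain ⟨t, ht, hm, hg⟩ := nrm hG (RingHom.id Ω₀) w (B.rp c)
    (uni_iff_ne_zero.mp (B.rep_rp c).uni)
  obtain ⟨n, l, hr, hv, hw'⟩ := hN κ σ B F Ω₀ K w W V hw hW hV x c xr (t • B.rp c) hx
    ((B.rep_rp c).smul (isUnit_iff_ne_zero.mpr ht)) h1 hg
  obtain ⟨lam, hl⟩ := (hr.par ha).exists_smul hr.uni
  refine ⟨_, lam, l, ?_, hl, hv, hw', fun O hO hO' i => ?_⟩
  · rintro rfl
    exact uni_iff_ne_zero.mp ha.uni (by rw [hl, zero_smul])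
  · refine aeval_mem O (fun e => ?_) _ (fun u => ?_) _
    · rw [IsScalarTower.algebraMap_apply κ Ω₀ K]
      exact hO' _ (hw e)
    · cases u with
      | inl u => exact hO u
      | inr u => exact hO' _ (hm u)

end T21

open T21 in
theorem st_SS1 (hG : St_GV) (hN : St_NRM) (hC : St_CORE) : St_SS1 := by
  intro κ σ _ _ _ _ _ B F Ω₀ K _ _ _ _ _ _ _ _ _ _ hc w W V hw hW hV X hX r s x c d a b φ ha hb
    hv hle
  classical
  obtain ⟨t, ht, hm, hg⟩ := nrm hG (algebraMap F K) V (B.rp x)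
    (uni_iff_ne_zero.mp (B.rep_rp x).uni)
  have hx : B.Rep x (t • B.rp x) := (B.rep_rp x).smul (isUnit_iff_ne_zero.mpr ht)
  generalize t • B.rp x = xr at hm hg hx
  choose A lam l _ hA hAV hAW hAO using fun i => key hG hN B hw hW hV hx hg (c i) (a i) (ha i)
  choose A' mu l' hmu hA' hAV' hAW' hAO' using
    fun j => key hG hN B hw hW hV hx hg (d j) (b j) (hb j)
  obtain rfl : a = fun i => lam i • A i := funext hA
  obtain rfl : b = fun j => mu j • A' j := funext hA'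
  have hVw : ∀ e ∈ w, algebraMap Ω₀ K e ∈ V := fun e he => (hV e).mpr he
  have hWw : ∀ e ∈ w, algebraMap Ω₀ K e ∈ W := fun e he => (hW.ovr e).mpr he
  rw [lef_iff hG _ _ _ _ _ _ hmu] at hle ⊢
  simp only [lef_iff hG _ _ _ _ _ _ hmu] at hv
  generalize φ * (∏ i, lam i) / ∏ j, mu j = ψ at hle hv ⊢
  have up : ∀ O : ValuationSubring K, (∀ i, algebraMap F K (xr i) ∈ O) →
      (∀ e ∈ w, algebraMap Ω₀ K e ∈ O) → LeF O ψ A A' → ψ * ∏ i, A i (l i) ∈ O := by
    intro O h1 h2 h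
    rw [← O.valuation_le_one_iff, map_mul, map_prod]
    calc O.valuation ψ * ∏ i, O.valuation (A i (l i))
        ≤ O.valuation ψ * ∏ i, gv O (A i) :=
          mul_le_mul_right (Finset.prod_le_prod' fun i _ => le_gv O (A i) (l i)) _
      _ ≤ ∏ j, gv O (A' j) := h
      _ ≤ 1 := Finset.prod_le_one' fun j _ => gv_le_one O (hAO' j O h1 h2)
  have hin : ψ * ∏ i, A i (l i) ∈ V := by
    refine hC κ F Ω₀ K hc w W V hw hW hVw (X ∪ Finset.univ.image xr) (fun f hf => ?_) _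
      (up W (fun i => hW.triv _) hWw hle) fun v h1 h2 => ?_
    · rcases Finset.mem_union.mp hf with h | h
      · exact hX f h
      · obtain ⟨i, -, rfl⟩ := Finset.mem_image.mp h
        exact hm i
    · refine up v (fun i => h2 _ ?_) (fun e _ => h1 e)
        (hv v h1 fun f hf => h2 f (Finset.mem_union_left _ hf))
      exact Finset.mem_union_right _ (Finset.mem_image_of_mem _ (Finset.mem_univ i))
  rw [← V.valuation_le_one_iff, map_mul, map_prod, Finset.prod_eq_one fun i _ => hAV i,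
    mul_one] at hin
  unfold LeF
  rw [Finset.prod_eq_one fun i _ => gv_eq_one V (hAO i V hm hVw) (hAV i),
    Finset.prod_eq_one fun j _ => gv_eq_one V (hAO' j V hm hVw) (hAV' j), mul_one]
  exact hin

end D4C
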