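import Pool.Agent.Lib.D4C.T39a

/-! Rigidity of abelian subvarieties. -/

namespace D4C

open MvPolynomial

namespace T39

variable {κ σ : Type} [Field κ] [Fintype σ] [DecidableEq σ]

theorem exists_incl {B : Pkg κ σ} {J : Ideal (MvPolynomial σ κ)} (h : B.IsSub J) {R : Type}
    [CommRing R] [Algebra κ R] [IsLocalRing R] {p : B.Pt R} {x : σ → R} (hx : B.Rep p x)
    (hz : Zr J x) : ∃ q : (B.sub J h).Pt R, (B.sub J h).Rep q x ∧ B.incl J h q = p :=
  ⟨(B.sub J h).pt x hx.uni hz, Pkg.rep_pt _ _ _,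
    (Pkg.rep_pt (B := B.sub J h) x hx.uni hz).transfer.eq hx (Par.refl _)⟩

/-- The points killed by powers of two are dense. -/
theorem dense_tors (hT : St_TORS) (hG : St_GEN) (hD : St_DIM) [CharZero κ] [IsAlgClosed κ]
    (B : Pkg κ σ) : vanishingIdeal κ (cone B (tors2 (B.Pt κ))) = B.I := by
  classical
  by_contra hne
  set J := vanishingIdeal κ (cone B (tors2 (B.Pt κ))) with hJ
  have hlt : B.I < J := lt_of_le_of_ne (le_cone _) (Ne.symm hne)
  have hJh : IsHom J := isHom_cone _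
  obtain ⟨g, hg⟩ := exists_isDim B hD
  have hfin := J.finite_minimalPrimes_of_isNoetherianRing
  have key : ∀ q ∈ J.minimalPrimes, ∀ j : ℕ,
      4 ^ j * {p : B.Pt κ | 2 ^ j • p = 0 ∧ ∃ x, B.Rep p x ∧ Zr q x}.ncard ≤ 4 ^ (g * j) := by
    intro q hq j
    rcases Set.eq_empty_or_nonempty {p : B.Pt κ | 2 ^ j • p = 0 ∧ ∃ x, B.Rep p x ∧ Zr q x}
      with h0 | ⟨a, ha, xa, hxa, hxa'⟩
    · rw [h0]; simp
    obtain ⟨i, hi⟩ := hxa.uni
    obtain ⟨J', hs, h1, Ω, _, _, k, p, p', w, h2, h3, h4, h5⟩ := hG κ σ B q hq.1.1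
      (isHom_minimal hJh hq) (hlt.le.trans hq.1.2) ⟨i, fun h => hi.ne_zero (by simpa using hxa' _ h)⟩
    have h6 : ∀ (r : B.Pt Ω), (∃ x, B.Rep r x ∧ PGen q x) → r ∈ clos (tors2 (B.Pt κ)) Ω :=
      fun r ⟨x, hx, hx'⟩ => ⟨x, hx, zr_of_forms hJh fun F hF n hn => (hx'.2 F n hn).mpr (hq.1.2 hF)⟩
    obtain ⟨w', hw, hw'⟩ : ∑ i, (p i - p' i) ∈ clos (tors2 (B.Pt κ)) Ω :=
      sum_mem fun i _ => sub_mem (h6 _ (h2 i)) (h6 _ (h3 i))
    have h7 : B.I < J' := hlt.trans_le (le_of_pgen hJh h5 (zr_rep hJh hw h4 hw'))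
    obtain ⟨d, hd⟩ := exists_isDim (B.sub J' hs) hD
    have h8 := (hD κ σ B.I (prime_I B)).2.2 J' (prime_I (B.sub J' hs)) h7
    have h9 : d + 1 < g + 1 := by
      rw [show cd J' = (d + 1 : ℕ) from hd, show cd B.I = (g + 1 : ℕ) from hg] at h8
      exact_mod_cast h8
    have h10 := (hT κ σ (B.sub J' hs) d hd κ).2 j
    have h11 : {p : B.Pt κ | 2 ^ j • p = 0 ∧ ∃ x, B.Rep p x ∧ Zr q x} ⊆
        (fun r => B.incl J' hs r + a) '' {p | 2 ^ j • p = 0} := by
      rintro b ⟨hb, xb, hxb, hxb'⟩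
      obtain ⟨u, hu⟩ := Pkg.exists_rep (b - a)
      obtain ⟨r, -, hr⟩ := exists_incl hs hu (h1 κ b a xb xa u hxb hxa hxb' hxa' hu)
      have hinj : Function.Injective (B.incl J' hs : (B.sub J' hs).Pt κ →+ B.Pt κ) :=
        Pkg.transfer_injective _ _ _ _
      refine ⟨r, hinj ?_, by simp only [hr, sub_add_cancel]⟩
      rw [map_nsmul, hr, smul_sub, hb, ha, sub_zero, map_zero]
    have h12 := Set.finite_of_ncard_ne_zero (h10.trans_ne (by positivity))
    calc _ ≤ 4 ^ j * 4 ^ (d * j) := Nat.mul_le_mul_left _ ((Set.ncard_le_ncard h11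
          (h12.image _)).trans ((Set.ncard_image_le h12).trans h10.le))
      _ ≤ 4 ^ (g * j) := by
        rw [← pow_add]
        exact Nat.pow_le_pow_right (by norm_num) (by nlinarith)
  set s := hfin.toFinset.card with hs
  have h1 := (hT κ σ B g hg κ).2 s
  have h2 : {p : B.Pt κ | 2 ^ s • p = 0} ⊆ ⋃ q ∈ hfin.toFinset,
      {p : B.Pt κ | 2 ^ s • p = 0 ∧ ∃ x, B.Rep p x ∧ Zr q x} := by
    intro p hp
    obtain ⟨x, hx⟩ := Pkg.exists_rep p
    have := RingHom.ker_isPrime (aeval x : MvPolynomial σ κ →ₐ[κ] κ)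
    obtain ⟨q, hq, hq'⟩ := Ideal.exists_minimalPrimes_le
      (show J ≤ RingHom.ker (aeval x : MvPolynomial σ κ →ₐ[κ] κ) from zr_cone ⟨p, ⟨s, hp⟩, hx⟩)
    exact Set.mem_biUnion (hfin.mem_toFinset.mpr hq) ⟨hp, x, hx, hq'⟩
  have h3 := Set.finite_of_ncard_ne_zero (h1.trans_ne (by positivity))
  have h4 := (Set.ncard_le_ncard h2 (hfin.toFinset.finite_toSet.biUnion fun q _ =>
    h3.subset fun _ hp => hp.1)).trans (Finset.set_ncard_biUnion_le _ _)
  have h5 := Nat.mul_le_mul_left (4 ^ s) h4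
  rw [Finset.mul_sum, h1] at h5
  have h6 := h5.trans (Finset.sum_le_card_nsmul _ _ _ fun q hq => key q (hfin.mem_toFinset.mp hq) s)
  rw [smul_eq_mul, ← hs] at h6
  exact (Nat.lt_pow_self (by norm_num : 1 < 4)).not_ge
    (Nat.le_of_mul_le_mul_right h6 (by positivity))

end T39

open T39 in
theorem st_STD (hT : St_TORS) (hG : St_GEN) (hD : St_DIM) (hI : St_IRR) : St_STD := by
  intro κ κ' σ _ _ _ _ _ _ _ _ B J' hJ'
  have : CharZero κ' := charZero_of_injective_algebraMap (algebraMap κ κ').injective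
  let T : AddSubgroup (B.Pt κ) := (((tors2 _).map ((B.bc κ').incl J' hJ')).comap
    (B.toBc κ')).comap (B.map (Algebra.ofId κ κ'))
  have h1 : ∀ x ∈ cone B T, Zr J' fun i => algebraMap κ κ' (x i) := by
    rintro x ⟨p, ⟨r, -, hr⟩, hx⟩
    obtain ⟨y, hy⟩ := Pkg.exists_rep r
    exact zr_rep (B := B.bc κ') hJ'.hom (hr ▸ hy.transfer : (B.bc κ').Rep _ y)
      (hx.map (Algebra.ofId κ κ')).transfer hy.zr
  have h2 : J' ≤ ext (vanishingIdeal κ (cone B T)) κ' := fun F hF =>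
    mem_map_van _ F fun t ht => h1 t ht F hF
  have h3 : ext (vanishingIdeal κ (cone B T)) κ' ≤ J' := by
    refine le_of_le_of_eq (fun F hF => mem_vanishingIdeal_iff.mpr ?_)
      (dense_tors hT hG hD ((B.bc κ').sub J' hJ'))
    rintro y ⟨r, ⟨j, hj⟩, hy⟩
    obtain ⟨g, hg⟩ := exists_isDim B hD
    have a1 := (hT κ σ B g hg κ).2 j
    have a2 := (hT κ σ B g hg κ').2 j
    have a3 : B.map (Algebra.ofId κ κ') '' {p | 2 ^ j • p = 0} = {p | 2 ^ j • p = 0} := by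
      refine Set.eq_of_subset_of_ncard_le ?_ ?_
        (Set.finite_of_ncard_ne_zero (a2.trans_ne (by positivity)))
      · rintro _ ⟨p, hp, rfl⟩
        rw [Set.mem_ofPred_eq, ← map_nsmul, hp, map_zero]
      · rw [Set.ncard_image_of_injective _ (Pkg.map_injective _ (algebraMap κ κ').injective), a1, a2]
    obtain ⟨p, -, hp⟩ : B.ofBc κ' ((B.bc κ').incl J' hJ' r) ∈
        B.map (Algebra.ofId κ κ') '' {p | 2 ^ j • p = 0} := by
      rw [a3, Set.mem_ofPred_eq, ← map_nsmul, ← map_nsmul, hj, map_zero, map_zero]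
    obtain ⟨x, hx⟩ := Pkg.exists_rep p
    have a4 : B.Rep (B.map (Algebra.ofId κ κ') p) y := hp ▸ hy.transfer.transfer
    have a5 : x ∈ cone B T := ⟨p, ⟨r, ⟨j, hj⟩, hy.transfer.eq a4.transfer (Par.refl _)⟩, hx⟩
    obtain ⟨c, rfl⟩ := ((hx.map (Algebra.ofId κ κ')).par a4).exists_smul (hx.map _).uni
    exact (zr_ext.mpr ((zr_cone a5).map (Algebra.ofId κ κ'))).smul (isHom_cone _).ext c F hF
  have h4 : vanishingIdeal κ (cone B T) = J'.comap (MvPolynomial.map (algebraMap κ κ')) := by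
    refine le_antisymm (fun F hF => h3 (Ideal.mem_map_of_mem _ hF))
      fun F hF => mem_vanishingIdeal_iff.mpr fun x hx => (algebraMap κ κ').injective ?_
    have := h1 x hx _ hF
    rw [aeval_map_tower] at this
    rw [map_zero, ← this]
    exact (aeval_map_alg (Algebra.ofId κ κ') x F).symm
  have h5 : J'.IsPrime := prime_I ((B.bc κ').sub J' hJ')
  exact ⟨_, ⟨le_cone _, isHom_cone _, hI κ σ _ (h4 ▸ Ideal.comap_isPrime _ _), o_cone T,
    neg_cone T, add_cone T⟩, le_antisymm h3 h2⟩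

end D4C
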