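import Pool.Agent.Lib.D4C.B_STR
import Pool.Agent.Lib.D4C.B_LOS
import Pool.Agent.Lib.D4C.B_SM
import Pool.Agent.Lib.D4C.B_LOC

/-! a non generic sequence lies on a smaller subvariety, up to a multiple and small points -/

namespace D4C

open MvPolynomial Filter T48

namespace T78s

variable {L σ : Type} [Field L] [Fintype σ] [DecidableEq σ]

omit [DecidableEq σ] in
theorem le_loc {k Ω : Type} [Field k] [Field Ω] [Algebra k Ω] {I : Ideal (MvPolynomial σ k)}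
    (hI : IsHom I) {x : σ → Ω} (hx : x ≠ 0) (h : Zr I x) : I ≤ loc k x :=
  le_of_hom hI fun F n hF hm => ((st_LOC k σ Ω x hx).2.2.1.2 F n hF).mp (h F hm)

theorem core0 (hG : St_GEN) (hS : St_STD) (hK : St_KILL) (hV : St_VAN) [CharZero L] (B : Pkg L σ)
    {g : ℕ} (C : Chart B g) {κ : Type} [Field κ] [Algebra L κ] {m e D : ℕ}
    {q : Ideal (MvPolynomial σ κ)} {W : Raw κ σ m} {a : Fin B.nl} {l : Fin g → κ}
    (hW : Pres q W e D) (hq : IsHom q) (hle : ext B.I κ ≤ q)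
    (ha : ∃ s, MvPolynomial.map (algebraMap L κ) (diagLaw B a s) ∉ q) (hl : l ≠ 0)
    (hkill : Kills C a W l) (F k Ω : Type) [Field F] [IsAlgClosed F] [Field k] [IsAlgClosed k]
    [Field Ω] [Algebra L F] [Algebra L k] [Algebra κ k] [Algebra F k] [Algebra L Ω] [Algebra κ Ω]
    [Algebra F Ω] [Algebra k Ω] [IsScalarTower L κ k] [IsScalarTower L F k] [IsScalarTower L F Ω]
    [IsScalarTower κ k Ω] [IsScalarTower F k Ω] (p : B.Pt Ω) (X0 : σ → Ω) (hp : B.Rep p X0)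
    (hg : PGen q X0) :
    ∃ J : Ideal (MvPolynomial σ F), (B.bc F).IsSub J ∧ J ≠ ext B.I F ∧
      ∃ (y' : B.Pt Ω) (v : σ → k) (w : σ → Ω), B.Rep y' (fun i => algebraMap k Ω (v i)) ∧
        B.Rep (p - y') w ∧ Zr J w := by
  have : CharZero F := charZero_of_injective_algebraMap (algebraMap L F).injective
  obtain ⟨h1, h2, h3, h4, -⟩ := st_LOC k σ Ω X0 hg.1
  have hz2 : Zr ((B.bc F).bc k).I X0 := zr_ext.mpr (zr_ext.mpr hp.zr)
  have hle2 : ((B.bc F).bc k).I ≤ loc k X0 := le_loc ((B.bc F).bc k).hom hg.1 hz2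
  obtain ⟨i0, hi0⟩ := Function.ne_iff.mp hg.1
  have hX : X i0 ∉ loc k X0 := fun h => hi0 (by simpa using h4 _ h)
  obtain ⟨J2, hJ2, hc1, Ω', _, _, j, r, r', w', hr, hr', hw', hgen⟩ :=
    hG k σ ((B.bc F).bc k) (loc k X0) h2 h1 hle2 ⟨i0, hX⟩
  obtain ⟨J, hJ, rfl⟩ := hS F k σ (B.bc F) J2 hJ2
  refine ⟨J, hJ, fun hne => ?_, ?_⟩
  · let _ : Algebra L Ω' := ((algebraMap k Ω').comp (algebraMap L k)).toAlgebra
    let _ : Algebra κ Ω' := ((algebraMap k Ω').comp (algebraMap κ k)).toAlgebra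
    let _ : Algebra F Ω' := ((algebraMap k Ω').comp (algebraMap F k)).toAlgebra
    have := IsScalarTower.of_algebraMap_eq' (R := L) (S := k) (A := Ω') rfl
    have := IsScalarTower.of_algebraMap_eq' (R := κ) (S := k) (A := Ω') rfl
    have := IsScalarTower.of_algebraMap_eq' (R := F) (S := k) (A := Ω') rfl
    have := IsScalarTower.of_algebraMap_eq (R := L) (S := F) (A := Ω') fun c =>
      congrArg (algebraMap k Ω') (IsScalarTower.algebraMap_apply L F k c)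
    have key : ∀ t : ((B.bc F).bc k).Pt Ω', (∃ x, ((B.bc F).bc k).Rep t x ∧ PGen (loc k X0) x) →
        ∃ x, B.Rep (B.ofBc F ((B.bc F).ofBc k t)) x ∧ PGen q x := by
      rintro t ⟨x, hx, hx'⟩
      refine ⟨x, hx.transfer.transfer, hx'.1, fun G n hGn => ?_⟩
      rw [← aeval_map_tower (L' := k), hx'.2 _ n (hGn.map _), ← h3.2 _ n (hGn.map _),
        aeval_map_tower, hg.2 G n hGn]
    refine hK L σ B g C κ m e D q W a l hW hq hle ha hl hkill k Ω' j
      (fun i => B.ofBc F ((B.bc F).ofBc k (r i))) (fun i => B.ofBc F ((B.bc F).ofBc k (r' i))) w'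
      (fun i => key _ (hr i)) (fun i => key _ (hr' i)) ?_ ?_
    · have h5 : B.Rep (B.ofBc F ((B.bc F).ofBc k (∑ i, (r i - r' i)))) w' := hw'.transfer.transfer
      simpa only [map_sum, map_sub] using h5
    · rwa [hne, ext_ext] at hgen
  · have h5 : ∃ v : σ → k, Zr (loc k X0) v ∧ v i0 ≠ 0 := by
      by_contra hn
      push Not at hn
      exact hi0 (by
        simpa using hV k σ Ω (loc k X0) h2.isRadical (X i0)
          (fun y hy => by simp [hn y hy]) X0 h4)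
    obtain ⟨v, hv, hv0⟩ := h5
    have hv1 : Zr (loc k X0) fun i => algebraMap k Ω (v i) := hv.map (Algebra.ofId k Ω)
    have hv2 : Uni fun i => algebraMap k Ω (v i) :=
      (uni_iff_ne_zero.mpr (Function.ne_iff.mpr ⟨i0, hv0⟩)).map (algebraMap k Ω)
    have hy := Pkg.rep_pt (B := (B.bc F).bc k) _ hv2 fun G hG => hv1 G (hle2 hG)
    have hp2 := Pkg.rep_pt (B := (B.bc F).bc k) _ hp.uni hz2
    obtain ⟨w, hw⟩ := Pkg.exists_rep (((B.bc F).bc k).pt _ hp.uni hz2 -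
      ((B.bc F).bc k).pt _ hv2 fun G hG => hv1 G (hle2 hG))
    have h6 := hc1 Ω _ _ _ _ w hp2 hy h4 hv1 hw
    have h7 : B.Rep (B.ofBc F ((B.bc F).ofBc k _)) w := hw.transfer.transfer
    have h8 : B.Rep (B.ofBc F ((B.bc F).ofBc k _)) X0 := hp2.transfer.transfer
    rw [map_sub, map_sub, h8.eq hp (Par.refl _)] at h7
    exact ⟨_, v, w, hy.transfer.transfer, h7, zr_ext.mp h6⟩

theorem core (hG : St_GEN) (hS : St_STD) (hK : St_KILL) (hV : St_VAN) [CharZero L] (B : Pkg L σ)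
    {g : ℕ} (C : Chart B g) {κ : Type} [Field κ] [Algebra L κ] {m e D : ℕ}
    {q : Ideal (MvPolynomial σ κ)} {W : Raw κ σ m} {a : Fin B.nl} {l : Fin g → κ}
    (hW : Pres q W e D) (hq : IsHom q) (hle : ext B.I κ ≤ q)
    (ha : ∃ s, MvPolynomial.map (algebraMap L κ) (diagLaw B a s) ∉ q) (hl : l ≠ 0)
    (hkill : Kills C a W l) (F Ω : Type) [Field F] [IsAlgClosed F] [Field Ω] [IsAlgClosed Ω]
    [Algebra L F] [Algebra.IsAlgebraic L F] [Algebra L Ω] [Algebra κ Ω] [Algebra F Ω]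
    [IsScalarTower L κ Ω] [IsScalarTower L F Ω] (p : B.Pt Ω) (X0 : σ → Ω) (hp : B.Rep p X0)
    (hg : PGen q X0) :
    ∃ J : Ideal (MvPolynomial σ F), (B.bc F).IsSub J ∧ J ≠ ext B.I F ∧
      ∃ (y' : B.Pt Ω) (v w : σ → Ω), B.Rep y' v ∧ (∀ i, IsAlgebraic κ (v i)) ∧
        B.Rep (p - y') w ∧ Zr J w := by
  have := (algebraicClosure.isAlgClosure κ Ω).isAlgClosed
  have hm : ∀ c : F, algebraMap F Ω c ∈ algebraicClosure κ Ω := fun c =>
    mem_algebraicClosure_iff.mpr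
      (((Algebra.IsAlgebraic.isAlgebraic (R := L) c).algebraMap (A := Ω)).extendScalars
        (algebraMap L κ).injective)
  let _ : Algebra F (algebraicClosure κ Ω) :=
    ((algebraMap F Ω).codRestrict (algebraicClosure κ Ω) hm).toAlgebra
  have := IsScalarTower.of_algebraMap_eq (R := F) (S := algebraicClosure κ Ω) (A := Ω) fun _ => rfl
  have := IsScalarTower.of_algebraMap_eq (R := L) (S := F) (A := algebraicClosure κ Ω) fun c =>
    Subtype.ext (IsScalarTower.algebraMap_apply L F Ω c)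
  obtain ⟨J, h1, h2, y', v, w, h3, h4, h5⟩ :=
    core0 hG hS hK hV B C hW hq hle ha hl hkill F (algebraicClosure κ Ω) Ω p X0 hp hg
  exact ⟨J, h1, h2, y', _, w, h3, fun i => mem_algebraicClosure_iff.mp (v i).2, h4, h5⟩

/-- the map of ultrapowers given by a map of fields -/
noncomputable def gm (U : Ultrafilter ℕ) {M M' : Type} [Field M] [Field M'] (f : M →+* M') :
    Ul U M →+* Ul U M' where
  toFun := Germ.map f
  map_one' := Germ.coe_eq.mpr (.of_forall fun _ => f.map_one)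
  map_zero' := Germ.coe_eq.mpr (.of_forall fun _ => f.map_zero)
  map_mul' := fun a b => Germ.inductionOn₂ a b fun _ _ =>
    Germ.coe_eq.mpr (.of_forall fun _ => f.map_mul _ _)
  map_add' := fun a b => Germ.inductionOn₂ a b fun _ _ =>
    Germ.coe_eq.mpr (.of_forall fun _ => f.map_add _ _)

theorem gm_toU (U : Ultrafilter ℕ) {M M' : Type} [Field M] [Field M'] (f : M →+* M') (s : ℕ → M) :
    gm U f (toU U s) = toU U fun n => f (s n) := rfl

theorem gm_sm (hE : St_HEXT) {U : Ultrafilter ℕ} {H : ℕ → ℝ} (hH : Tendsto H U atTop) [NumberField L]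
    {L' : Type} [Field L'] [NumberField L'] [Algebra L L'] (a : sm U L H) :
    gm U (algebraMap L L') (algebraMap (sm U L H) (Ul U L) a) ∈ sm U L' H := by
  obtain ⟨a, ha⟩ := a
  obtain ⟨s, rfl⟩ := T10.toU_surj a
  change gm U (algebraMap L L') (toU U s) ∈ _
  rw [gm_toU, T20.mem_sm hH]
  refine T20.lo_mono (T20.lo_mul hH ((T20.mem_sm hH).mp ha) (Module.finrank L L').cast_nonneg)
    (.of_forall fun n => le_of_eq ?_)
  rw [Height.logHeight₁_eq_logHeight, Height.logHeight₁_eq_logHeight, ← hE L L' (Fin 2)]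
  congr 1
  funext i
  fin_cases i <;> simp

theorem fin (hT : St_TRACE) (hR : St_RAC) (hE : St_HEXT) [NumberField L] (B : Pkg L σ)
    (U : Ultrafilter ℕ) (x : ℕ → B.Pt L) {H : ℕ → ℝ} (hH : Tendsto H U atTop) (xr : ℕ → σ → L)
    (hxr : ∀ᶠ n in U, B.Rep (x n) (xr n)) (L' : Type) [Field L'] [NumberField L'] [Algebra L L']
    (J : Ideal (MvPolynomial σ L')) (hJ : (B.bc L').IsSub J) (Ω : Type) [Field Ω] [IsAlgClosed Ω]
    [Algebra L Ω] [Algebra L' Ω] [IsScalarTower L L' Ω] (j : Ul U L' →+* Ω)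
    (hj : ∀ a, algebraMap L' Ω a = j (algebraMap L' _ a)) (p y' : B.Pt Ω) (v w : σ → Ω)
    (hp : B.Rep p fun i => j (toU U fun n => algebraMap L L' (xr n i))) (hv : B.Rep y' v)
    (halg : ∀ i, ∃ P : Polynomial (sm U L H), P ≠ 0 ∧ Polynomial.eval₂
      (j.comp ((gm U (algebraMap L L')).comp (algebraMap (sm U L H) (Ul U L)))) (v i) P = 0)
    (hw : B.Rep (p - y') w) (hz : Zr J w) :
    ∃ (N : ℕ) (y : ℕ → B.Pt L'), 1 ≤ N ∧ Lo U H (fun n => htM B (y n)) ∧
      ∀ᶠ n in U, ∃ w, B.Rep (N • B.map (Algebra.ofId L L') (x n) - y n) w ∧ Zr J w := by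
  let _ : Algebra (Ul U L') Ω := j.toAlgebra
  have := IsScalarTower.of_algebraMap_eq (R := L') (S := Ul U L') (A := Ω) hj
  obtain ⟨ul, hs, -, hul⟩ := T10.ulp (B.bc L') U L' T10.tow_self
  obtain ⟨x', hx'⟩ : ∃ x' : ℕ → (B.bc L').Pt L',
      x' = fun n => B.toBc L' (B.map (Algebra.ofId L L') (x n)) := ⟨_, rfl⟩
  have h1 : (B.bc L').Rep (ul x') fun i => toU U fun n => algebraMap L L' (xr n i) :=
    (hul _ _).mp ⟨_, hxr.mono fun n hn => by
      rw [hx']; exact (hn.map (Algebra.ofId L L')).transfer, rfl⟩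
  have h2 : (B.bc L').Rep (B.toBc L' (p - y')) w := hw.transfer
  have h3 : (B.bc L').Rep (B.toBc L' p) _ := hp.transfer
  rw [map_sub, h3.eq (h1.map (IsScalarTower.toAlgHom L' (Ul U L') Ω)) (Par.refl _)] at h2
  obtain ⟨N, y, v0, w0, hN, h4, h5, h6⟩ := hT L' σ (B.bc L') J hJ (Ul U L') Ω (sm U L' H)
    (hR U L' H hH) (ul x') (B.toBc L' y') v w hv.transfer (fun i => by
      obtain ⟨P, hP, hP'⟩ := halg i
      refine ⟨P.map (((gm U (algebraMap L L')).comp (algebraMap (sm U L H) (Ul U L))).codRestrict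
        (sm U L' H) fun a => gm_sm hE hH a), Polynomial.map_ne_zero hP, ?_⟩
      rw [Polynomial.eval₂_map]
      exact hP') h2 hz
  obtain ⟨ys, rfl⟩ := hs y
  rw [← map_nsmul, ← map_sub] at h5
  obtain ⟨wn, h7, rfl⟩ := (hul _ _).mpr h5
  obtain ⟨yn, h8, h9⟩ := (hul _ _).mpr h4
  refine ⟨N, fun n => B.ofBc L' (ys n), hN, ?_, ?_⟩
  · refine T20.lo_mono ((st_SMP σ U L' H hH yn (h9 ▸ uni_iff_ne_zero.mp h4.uni)).mpr
      ⟨1, v0, by rw [one_smul, h9]⟩) (h8.mono fun n hn => le_of_eq ?_)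
    exact htM_rep hn.transfer
  · filter_upwards [h7, (T10.zr_toU T10.tow_self).mp h6, hxr] with n a1 a2 a3
    refine ⟨_, ?_, a2⟩
    have a4 : B.Rep (B.ofBc L' _) (wn n) := a1.transfer
    have a5 := a3.map (Algebra.ofId L L')
    have a6 : B.Rep (B.ofBc L' (B.toBc L' _)) _ := a5.transfer.transfer
    rwa [hx', Pi.sub_apply, Pi.smul_apply, map_sub, map_nsmul, a6.eq a5 (Par.refl _)] at a4

end T78s

open T78s in
theorem st_STEP1 (hD : St_DIM) (hH : St_HSOP) (hDA : St_DATA) (hEA : St_EAU) (hG : St_GEN)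
    (hS : St_STD) (hK : St_KILL) (hV : St_VAN) (hDE : St_DESC) (hT : St_TRACE) (hR : St_RAC)
    (hE : St_HEXT) : St_STEP1 := by
  intro L σ _ _ _ _ B g hg C U x hx xs hxs hnp
  obtain ⟨xr, hxr, hxe⟩ := id hxs
  have hz : Zr B.I xs := hxe ▸ (T10.zr_toU T10.tow_self).mpr (hxr.mono fun n hn => hn.zr)
  have hu : Uni xs := hxe ▸ T10.uni_toU.mpr (hxr.mono fun n hn => hn.uni)
  have h0 : xs ≠ 0 := uni_iff_ne_zero.mp hu
  have hdim : ∀ (M : Type) [Field M] [Algebra L M], cd (ext B.I M) = (g + 1 : ℕ) := fun M _ _ =>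
    ((hD L σ B.I (prime_I B)).2.1 M (B.gprime M)).trans hg
  obtain ⟨h1, h2, h3, -, h5⟩ := st_LOC (sm U L fun n => B.ht (x n)) σ (Ul U L) xs h0
  have hle := le_loc (B.hom.ext (L' := sm U L fun n => B.ht (x n))) h0 (zr_ext.mpr hz)
  have hlt := (hD _ σ _ (B.gprime _)).2.2 _ h2 (hle.lt_of_ne fun h => hnp (h ▸ h3))
  obtain ⟨n, hn⟩ := (hD _ σ _ h2).1
  have h6 : 1 ≤ n := by
    rw [hn] at h5
    exact_mod_cast le_add_self.trans h5.ge
  obtain ⟨m, rfl⟩ := Nat.exists_eq_add_of_le' h6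
  rw [hn, hdim] at hlt
  have hmg : m < g := by
    have : m + 1 < g + 1 := by exact_mod_cast hlt
    omega
  obtain ⟨e, D, ξ, hξ, -, -⟩ := hH _ σ _ ⊤ m 0 1 h2 h1 (fun _ _ _ => trivial) hn le_rfl
    fun q' hq' _ h => absurd (top_le_iff.mp h) hq'.ne_top
  obtain ⟨W, rfl, w1, w2, w3, w4⟩ := hDA _ σ _ m e D ξ h2 h1 hξ
  have hW : Pres _ W e D := ⟨hξ, w1, w2, w3, w4⟩
  obtain ⟨a, l, ha, hl, hkill⟩ := hEA L σ B g m hg hmg C U x hx xs hxs e D W hW
  obtain ⟨F, _, _, _, _⟩ : ∃ (F : Type) (_ : Field F) (_ : Algebra L F), IsAlgClosed F ∧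
    Algebra.IsAlgebraic L F := ⟨AlgebraicClosure L, _, _, inferInstance, inferInstance⟩
  obtain ⟨Ω, _, _, ⟨j⟩⟩ : ∃ (Ω : Type) (_ : Field Ω), IsAlgClosed Ω ∧ Nonempty (Ul U F →+* Ω) :=
    ⟨AlgebraicClosure (Ul U F), _, inferInstance, ⟨algebraMap _ _⟩⟩
  let _ : Algebra F Ω := (j.comp (algebraMap F (Ul U F))).toAlgebra
  let _ : Algebra L Ω := ((algebraMap F Ω).comp (algebraMap L F)).toAlgebra
  let _ : Algebra (Ul U L) Ω := (j.comp (gm U (algebraMap L F))).toAlgebra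
  have := IsScalarTower.of_algebraMap_eq' (R := L) (S := F) (A := Ω) rfl
  have := IsScalarTower.of_algebraMap_eq (R := L) (S := Ul U L) (A := Ω) fun _ => rfl
  have := IsScalarTower.of_algebraMap_eq (R := L) (S := sm U L fun n => B.ht (x n)) (A := Ω)
    fun _ => rfl
  have hp := (Pkg.rep_pt xs hu hz).map (IsScalarTower.toAlgHom L (Ul U L) Ω)
  have hgen : PGen (loc (sm U L fun n => B.ht (x n)) xs) fun i => algebraMap (Ul U L) Ω (xs i) :=
    ⟨uni_iff_ne_zero.mp hp.uni, fun G d hG => by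
      rw [← h3.2 G d hG, ← map_eq_zero_iff (algebraMap (Ul U L) Ω) (RingHom.injective _)]
      exact iff_of_eq (congrArg (· = 0) (aeval_map_alg
        (IsScalarTower.toAlgHom (sm U L fun n => B.ht (x n)) (Ul U L) Ω) xs G))⟩
  obtain ⟨J, hJ, hne, y', v, w, hv, halg, hw, hzw⟩ :=
    core hG hS hK hV B C hW h1 hle ha hl hkill F Ω _ _ hp hgen
  obtain ⟨L', _, J', hJ', rfl⟩ := hDE L F σ B J hJ
  have : NumberField L' := NumberField.of_module_finite L L'
  obtain ⟨g', hg'⟩ := exists_dim hD st_LOC ((B.bc L').sub J' hJ')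
  have hg2 : cd J' = (g' + 1 : ℕ) := hg'
  have hlt' := (hD _ σ _ (B.gprime L')).2.2 J' (prime_I ((B.bc L').sub J' hJ'))
    (hJ'.le.lt_of_ne fun h => hne (by rw [← h]; exact ext_ext _ _))
  rw [hg2, hdim] at hlt'
  have hgg : g' < g := by
    have : g' + 1 < g + 1 := by exact_mod_cast hlt'
    omega
  have := IsScalarTower.of_algebraMap_eq (R := L) (S := L') (A := Ω) fun _ => rfl
  have hc : (j.comp (gm U (algebraMap L' F))).comp ((gm U (algebraMap L L')).comp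
      (algebraMap (sm U L fun n => B.ht (x n)) (Ul U L))) = algebraMap _ Ω := by
    refine RingHom.ext fun c => ?_
    obtain ⟨c, hc⟩ := c
    obtain ⟨s, rfl⟩ := T10.toU_surj c
    rfl
  obtain ⟨N, y, hN, h7, h8⟩ := fin hT hR hE B U x hx xr hxr L' J' hJ' Ω
    (j.comp (gm U (algebraMap L' F))) (fun _ => rfl) _ y' v w (by subst hxe; exact hp) hv
    (fun i => by rw [hc]; exact halg i) hw (zr_ext.mp hzw)
  exact ⟨L', _, _, _, J', g', N, y, hJ', hg2, hgg, hN, h7, h8⟩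

end D4C
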