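import Pool.Agent.Lib.D4C.BlueU

/-! Block STEP2: the multiple is removed by the Mordell-Weil theorem. -/

namespace D4C

open MvPolynomial Filter

namespace T99

variable {L σ : Type} [Field L] [Fintype σ] [DecidableEq σ] (B : Pkg L σ) {L' : Type} [Field L']
  [Algebra L L']

theorem sub2_sub (J : Ideal (MvPolynomial σ L')) (h : (B.bc L').IsSub J) :
    Sub2 B ((B.bc L').sub J h) :=
  ⟨h.le, rfl, rfl, fun a => ⟨a, rfl⟩, fun a => ⟨a, rfl⟩⟩

theorem of_to (p : B.Pt L') : B.ofBc L' (B.toBc L' p) = p := by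
  obtain ⟨x, hx⟩ := Pkg.exists_rep p
  exact (hx.transfer.transfer).eq hx (Par.refl _)

theorem of_incl (J : Ideal (MvPolynomial σ L')) (h : (B.bc L').IsSub J)
    (p : ((B.bc L').sub J h).Pt L') :
    B.ofBc L' ((B.bc L').incl J h p) = (sub2_sub B J h).hom L' p := by
  obtain ⟨x, hx⟩ := Pkg.exists_rep p
  exact (hx.transfer.transfer).eq ((sub2_sub B J h).rep hx) (Par.refl _)

theorem mem_range (J : Ideal (MvPolynomial σ L')) (h : (B.bc L').IsSub J) {p : B.Pt L'}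
    {w : σ → L'} (hp : B.Rep p w) (hw : Zr J w) :
    B.toBc L' p ∈ ((B.bc L').incl (R := L') J h).range :=
  ⟨((B.bc L').sub J h).pt w hp.uni hw,
    (Pkg.rep_pt _ _ _).transfer.eq hp.transfer (Par.refl _)⟩

variable [NumberField L']

theorem htM_of (p : (B.bc L').Pt L') : htM B (B.ofBc L' p) = (B.bc L').ht p := by
  obtain ⟨x, hx⟩ := Pkg.exists_rep p
  rw [hx.ht]
  exact htM_rep hx.transfer

theorem ht_to (p : B.Pt L') : (B.bc L').ht (B.toBc L' p) = htM B p := by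
  rw [← htM_of, of_to]

theorem ht_nonneg {B1 : Pkg L' σ} (p : B1.Pt L') : 0 ≤ B1.ht p := Height.logHeight_nonneg _

end T99

open T99

theorem st_STEP2 (hMW : St_MW) (hR : St_MWR) (hD : St_HDIV) (hH : St_HT) : St_STEP2 := by
  intro L σ _ _ _ _ B U x hx L' _ _ _ J h N y hN hy hw
  obtain ⟨Φ, hΦ⟩ := hR _ (hMW L' σ (B.bc L')) ((B.bc L').incl (R := L') J h).range N hN
  obtain ⟨C1, hC1, hdiv⟩ := hD L' σ (B.bc L') N hN
  obtain ⟨C, hC, hneg, hadd, -⟩ := hH L' σ (B.bc L')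
  obtain ⟨M, hM⟩ : ∃ M, M = ∑ φ ∈ Φ, (B.bc L').ht φ := ⟨_, rfl⟩
  have hM0 : 0 ≤ M := hM ▸ Finset.sum_nonneg fun φ _ => ht_nonneg φ
  have hM1 : ∀ φ ∈ Φ, (B.bc L').ht φ ≤ M := fun φ hφ =>
    hM ▸ Finset.single_le_sum (fun φ _ => ht_nonneg φ) hφ
  obtain ⟨b, hb⟩ : ∃ b : ℝ, b = (B.bc L').β := ⟨_, rfl⟩
  have hb0 : 0 ≤ b := hb ▸ Nat.cast_nonneg _
  rw [← hb] at hadd
  obtain ⟨K1, hK1⟩ : ∃ K1, K1 = b * (C1 * b) + 1 := ⟨_, rfl⟩
  obtain ⟨K2, hK2⟩ : ∃ K2, K2 = b * (C1 * (b * M + C + 1)) + b * M + C := ⟨_, rfl⟩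
  have hK1p : 0 < K1 := by rw [hK1]; positivity
  have key : ∀ n, ∃ (x' : ((B.bc L').sub J h).Pt L') (y' : B.Pt L'),
      (∃ w, B.Rep (N • B.map (Algebra.ofId L L') (x n) - y n) w ∧ Zr J w) →
      B.map (Algebra.ofId L L') (x n) = (sub2_sub B J h).hom L' x' + y' ∧
        htM B y' ≤ K1 * htM B (y n) + K2 := by
    intro n
    by_cases hn : ∃ w, B.Rep (N • B.map (Algebra.ofId L L') (x n) - y n) w ∧ Zr J w
    · obtain ⟨w, hw1, hw2⟩ := hn
      have hm := mem_range B J h hw1 hw2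
      rw [map_sub, map_nsmul] at hm
      obtain ⟨y1, φ, hφ, φ', hφ', e1, x', e2⟩ := hΦ _ _ hm
      refine ⟨x', B.ofBc L' (y1 + φ'), fun _ => ⟨?_, ?_⟩⟩
      · rw [← of_incl, e2, ← map_add, ← of_to B (B.map (Algebra.ofId L L') (x n))]
        congr 1
        rw [of_to]
        abel
      · have a1 := hadd y1 φ'
        have a2 := hdiv y1
        have a3 := hadd (B.toBc L' (y n)) (-φ)
        have e3 : B.toBc L' (y n) + -φ = N • y1 := by rw [e1]; abel
        rw [e3, hneg, ht_to] at a3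
        have a4 := mul_le_mul_of_nonneg_left (hM1 φ hφ) hb0
        have a5 := mul_le_mul_of_nonneg_left (hM1 φ' hφ') hb0
        have a6 : (B.bc L').ht y1 ≤ C1 * (b * htM B (y n) + (b * M + C + 1)) :=
          a2.trans (mul_le_mul_of_nonneg_left (by linarith) hC1)
        have a7 := mul_le_mul_of_nonneg_left a6 hb0
        have a8 : 0 ≤ htM B (y n) := Height.logHeight_nonneg _
        rw [htM_of, hK1, hK2]
        nlinarith
    · exact ⟨0, 0, fun h' => absurd h' hn⟩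
  choose x' y' hk using key
  refine ⟨x', y', sub2_sub B J h, hw.mono fun n hn => (hk n hn).1, fun ε hε => ?_⟩
  filter_upwards [hw, hy (ε / 2 / K1) (by positivity), hx.eventually_ge_atTop (K2 / (ε / 2))]
    with n h1 h2 h3
  have a1 := mul_le_mul_of_nonneg_left h2 hK1p.le
  rw [← mul_assoc, mul_div_cancel₀ _ hK1p.ne'] at a1
  rw [div_le_iff₀ (by positivity)] at h3
  have := (hk n h1).2
  linarith

end D4C
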