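import Pool.Agent.Lib.D4C.BlueU

/-! SUBF: the subvariety after base change. -/

namespace D4C

open MvPolynomial

namespace T97

theorem ext_self {L σ : Type} [Field L] (I : Ideal (MvPolynomial σ L)) : ext I L = I := by
  unfold ext
  have h : (MvPolynomial.map (algebraMap L L) : MvPolynomial σ L →+* MvPolynomial σ L)
      = RingHom.id _ := RingHom.ext fun p => MvPolynomial.map_id p
  rw [h, Ideal.map_id]

end T97

theorem st_SUBF (hD : St_DIM) : St_SUBF := by
  intro L σ _ _ _ B L' F _ _ _ _ _ _ B' g h hg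
  have ho : (B.bc F).o = (B'.bc F).o := by
    funext i
    show algebraMap L F (B.o i) = algebraMap L' F (B'.o i)
    rw [h.o_eq]
    exact IsScalarTower.algebraMap_apply L L' F _
  have hπ : (B.bc F).π = (B'.bc F).π := h.π_eq.symm
  refine ⟨⟨?_, (B'.bc F).hom, (B'.bc F).gprime, ?_, ?_, ?_⟩, ?_⟩
  · show ext B.I F ≤ ext B'.I F
    rw [← ext_ext (L' := L') B.I F]
    exact Ideal.map_mono h.le
  · rw [ho]
    exact (B'.bc F).o_mem
  · intro R _ _ x hx
    rw [hπ]
    exact (B'.bc F).neg_mem R x hx
  · intro R _ _ x y hx hy a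
    obtain ⟨a', ha⟩ := h.law' a
    have hA : (B.bc F).A a = (B'.bc F).A a' := by
      funext i
      show MvPolynomial.map (algebraMap L F) (B.A a i)
        = MvPolynomial.map (algebraMap L' F) (B'.A a' i)
      rw [ha, MvPolynomial.map_map, ← IsScalarTower.algebraMap_eq]
    rw [hA]
    exact (B'.bc F).add_mem R x y hx hy a'
  · have hp : B'.I.IsPrime := T97.ext_self B'.I ▸ B'.gprime L'
    rw [(hD L' σ B'.I hp).2.1 F (B'.gprime F)]
    exact hg

end D4C
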