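import Pool.Agent.Lib.D4C.BlueF

/-! The points with trivial cube class are closed under sums. -/

namespace D4C

namespace T57

theorem cocycle {G : Type*} [CommGroupWithZero G] {u v w s a b c d e f g h x x' y z : G}
    (hv : v ≠ 0) (hx : x ≠ 0) (hx' : x' ≠ 0) (hz : z ≠ 0) (he : e ≠ 0) (hg : g ≠ 0)
    (h1 : u * (s * (x * (e * z))) = b * (f * g)) (h2 : v * (c * (x * (x' * z))) = a * (f * h))
    (h3 : w * (g * (x' * (y * z))) = e * (h * d)) :
    u * w / v * (s * (a * (y * z))) = b * (c * d) := by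
  rw [div_mul_eq_mul_div, div_eq_iff hv]
  refine mul_right_cancel₀ (mul_ne_zero hx (mul_ne_zero hx' (mul_ne_zero hz
    (mul_ne_zero he hg)))) ?_
  calc _ = u * (s * (x * (e * z))) * (w * (g * (x' * (y * z)))) * a := by ac_rfl
    _ = b * d * e * g * (a * (f * h)) := by rw [h1, h3]; ac_rfl
    _ = _ := by rw [← h2]; ac_rfl

end T57

theorem st_SUBG (hG : St_GV) : St_SUBG := by
  intro L σ _ _ _ B K _ _
  have nz : ∀ (O : ValuationSubring K) (p : B.Pt K), gv O (B.rp p) ≠ 0 := fun O p => by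
    obtain ⟨i, h1, h2, -⟩ := hG.att K σ O _ (uni_iff_ne_zero.1 (B.rep_rp p).uni)
    rw [h2]
    exact (Valuation.ne_zero_iff _).2 h1
  refine ⟨fun y z => ?_, fun x x' h h' y z => ?_⟩
  · obtain ⟨c, hc⟩ := ((B.rep_rp (0 : B.Pt K)).par Pkg.rep_zero).exists_smul (B.rep_rp 0).uni
    have hu : Uni (c • B.rp (0 : B.Pt K)) := hc ▸ B.o_uni
    refine ⟨c, hu.isUnit_of_smul.ne_zero, fun O hO => ?_⟩
    have h1 := hG.smul K σ O c (B.rp 0)
    obtain ⟨i, h2, h3, -⟩ := hG.att K σ O _ (uni_iff_ne_zero.1 (B.o_uni (R := K)))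
    have h4 : O.valuation (algebraMap L K (B.o i)) = 1 := by
      refine le_antisymm ((O.valuation_le_one_iff _).2 (hO _)) ?_
      have := (O.valuation_le_one_iff _).2 (hO (B.o i)⁻¹)
      rwa [map_inv₀, map_inv₀, inv_le_one₀ ((Valuation.pos_iff _).2 h2)] at this
    rw [← hc, h3, h4] at h1
    simp only [EqF, Fin.prod_univ_succ, Fin.prod_univ_zero, Matrix.cons_val_zero,
      Matrix.cons_val_succ, mul_one, zero_add]
    rw [mul_left_comm, ← mul_assoc (O.valuation c), ← h1, one_mul]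
    ac_rfl
  · obtain ⟨c1, n1, h1⟩ := h (x' + y) z
    obtain ⟨c2, n2, h2⟩ := h x' z
    obtain ⟨c3, n3, h3⟩ := h' y z
    refine ⟨c1 * c3 / c2, div_ne_zero (mul_ne_zero n1 n3) n2, fun O hO => ?_⟩
    have k1 := h1 O hO
    have k2 := h2 O hO
    have k3 := h3 O hO
    simp only [EqF, Fin.prod_univ_succ, Fin.prod_univ_zero, Matrix.cons_val_zero,
      Matrix.cons_val_succ, mul_one, ← add_assoc, map_div₀, map_mul] at k1 k2 k3 ⊢
    exact T57.cocycle ((Valuation.ne_zero_iff _).2 n2) (nz _ _) (nz _ _) (nz _ _) (nz _ _) (nz _ _)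
      k1 k2 k3

end D4C
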