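import Pool.Agent.Lib.D4C.BlueF

/-! Symmetrisation of a projective abelian variety: the embedding `p ↦ p ⊗ (-p)`. -/

namespace D4C

open MvPolynomial

namespace T62

variable {κ σ : Type} [Field κ]

/-- tensor product of two vectors -/
def tn (x y : σ → κ) : σ × σ → κ := fun ij => x ij.1 * y ij.2

theorem tn_ne {x y : σ → κ} : tn x y ≠ 0 ↔ x ≠ 0 ∧ y ≠ 0 := by
  constructor
  · intro h
    obtain ⟨ij, h⟩ := Function.ne_iff.1 h
    have h' := mul_ne_zero_iff.1 h
    exact ⟨Function.ne_iff.2 ⟨_, h'.1⟩, Function.ne_iff.2 ⟨_, h'.2⟩⟩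
  · rintro ⟨h1, h2⟩
    obtain ⟨i, hi⟩ := Function.ne_iff.1 h1
    obtain ⟨j, hj⟩ := Function.ne_iff.1 h2
    exact Function.ne_iff.2 ⟨(i, j), mul_ne_zero hi hj⟩

theorem tn_smul (a b : κ) (x y : σ → κ) : tn (a • x) (b • y) = (a * b) • tn x y := by
  funext ij
  simp only [tn, Pi.smul_apply, smul_eq_mul]
  ring

theorem ev_hom {F : MvPolynomial σ κ} {n : ℕ} (hF : F.IsHomogeneous n) (c : κ) (x : σ → κ) :
    eval (c • x) F = c ^ n * eval x F := aeval_smul_hom hF c x

theorem ev_bi {F : MvPolynomial (σ ⊕ σ) κ} {m n : ℕ}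
    (hF : F.IsWeightedHomogeneous (bw σ) (m, n)) (c c' : κ) (x y : σ → κ) :
    eval (Sum.elim (c • x) (c' • y)) F = c ^ m * c' ^ n * eval (Sum.elim x y) F :=
  aeval_smul_bihom hF c c' x y

theorem wh_rename {τ ρ M : Type} [AddCommMonoid M] {w : τ → M} {w' : ρ → M} (f : τ → ρ)
    (hf : ∀ t, w' (f t) = w t) {F : MvPolynomial τ κ} {m : M} (h : F.IsWeightedHomogeneous w m) :
    (rename f F).IsWeightedHomogeneous w' m := by
  classical
  have key : ∀ d : τ →₀ ℕ, Finsupp.weight w' (d.mapDomain f) = Finsupp.weight w d := by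
    intro d
    induction d using Finsupp.induction_linear with
    | zero => simp
    | add a b ha hb => rw [Finsupp.mapDomain_add, map_add, map_add, ha, hb]
    | single s k => rw [Finsupp.mapDomain_single, Finsupp.weight_single, Finsupp.weight_single, hf]
  rw [F.as_sum, map_sum]
  refine IsWeightedHomogeneous.sum _ _ _ fun d hd => ?_
  rw [rename_monomial]
  exact isWeightedHomogeneous_monomial _ _ _ (by rw [key, h (mem_support_iff.mp hd)])

theorem eq_mk {τ : Type} {p : Projectivization κ (τ → κ)} {v : τ → κ} {hv : v ≠ 0} :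
    p = Projectivization.mk κ v hv ↔ ∃ a : κ, a ≠ 0 ∧ p.rep = a • v := by
  conv_lhs => rw [← p.mk_rep]
  rw [Projectivization.mk_eq_mk_iff']
  constructor
  · rintro ⟨a, h⟩
    refine ⟨a, fun h0 => p.rep_nonzero ?_, h.symm⟩
    rw [← h, h0, zero_smul]
  · rintro ⟨a, -, h⟩
    exact ⟨a, h.symm⟩

variable (A : AbVar κ σ)

/-- the symmetric embedding -/
noncomputable def ph (p : A.carrier) : Projectivization κ (σ × σ → κ) :=
  Projectivization.mk κ (tn p.1.rep (-p).1.rep) (tn_ne.2 ⟨p.1.rep_nonzero, (-p).1.rep_nonzero⟩)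

theorem ph_rep (p : A.carrier) :
    ∃ a : κ, a ≠ 0 ∧ (ph A p).rep = a • tn p.1.rep (-p).1.rep := eq_mk.1 rfl

theorem ph_eq {p : A.carrier} {x y : σ → κ} {hx : x ≠ 0} {hy : y ≠ 0}
    (h1 : p.1 = Projectivization.mk κ x hx) (h2 : (-p).1 = Projectivization.mk κ y hy)
    {v : σ × σ → κ} (hv : v ≠ 0) {c : κ} (h : v = c • tn x y) :
    ph A p = Projectivization.mk κ v hv := by
  obtain ⟨a, ha, e1⟩ := eq_mk.1 h1
  obtain ⟨b, hb, e2⟩ := eq_mk.1 h2
  obtain ⟨d, hd, e3⟩ := ph_rep A p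
  have hc : c ≠ 0 := fun h0 => hv (by rw [h, h0, zero_smul])
  refine eq_mk.2 ⟨d * (a * b) * c⁻¹, by simp [ha, hb, hc, hd], ?_⟩
  rw [e3, e1, e2, tn_smul, h, smul_smul, smul_smul, mul_assoc _ c⁻¹, inv_mul_cancel₀ hc, mul_one]

theorem ph_inj : Function.Injective (ph A) := by
  intro p q h
  obtain ⟨a, ha, e1⟩ := ph_rep A p
  obtain ⟨b, hb, e2⟩ := ph_rep A q
  rw [h, e2] at e1
  obtain ⟨j, hj⟩ := Function.ne_iff.1 (-p).1.rep_nonzero
  have hj' : (-p).1.rep j ≠ 0 := hj
  apply Subtype.ext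
  rw [← p.1.mk_rep, ← q.1.mk_rep, Projectivization.mk_eq_mk_iff']
  refine ⟨b * (-q).1.rep j / (a * (-p).1.rep j), funext fun i => ?_⟩
  have := congrFun e1 (i, j)
  simp only [tn, Pi.smul_apply, smul_eq_mul] at this ⊢
  field_simp
  linear_combination this

theorem col (p : A.carrier) {a : κ} (h : (ph A p).rep = a • tn p.1.rep (-p).1.rep) (j : σ) :
    (ph A p).rep ∘ (fun i => (i, j)) = (a * (-p).1.rep j) • p.1.rep := by
  funext i
  simp only [h, tn, Function.comp, Pi.smul_apply, smul_eq_mul]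
  ring

theorem row (p : A.carrier) {a : κ} (h : (ph A p).rep = a • tn p.1.rep (-p).1.rep) (i : σ) :
    (ph A p).rep ∘ (fun j => (i, j)) = (a * p.1.rep i) • (-p).1.rep := by
  funext j
  simp only [h, tn, Function.comp, Pi.smul_apply, smul_eq_mul]
  ring

theorem ph_loc : LocPoly A.carrier (ph A) := by
  intro p
  obtain ⟨m, N, hN, h0, h⟩ := A.neg_loc p
  have e : ∀ x : σ → κ, (fun ij : σ × σ => eval x (X ij.1 * N ij.2)) =
      tn x fun j => eval x (N j) := fun x => by
    funext ij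
    simp [tn]
  refine ⟨1 + m, fun ij => X ij.1 * N ij.2, fun ij => (isHomogeneous_X κ _).mul (hN _), ?_,
    fun p' h' => ?_⟩
  · rw [e]
    exact tn_ne.2 ⟨p.1.rep_nonzero, h0⟩
  · have h2 := (tn_ne.1 (e p'.1.rep ▸ h')).2
    exact ph_eq A p'.1.mk_rep.symm (h p' h2) h' (c := 1) (by rw [e, one_smul])

theorem ph_closed : ZClosed (Set.range (ph A)) := by
  obtain ⟨T, hT, hA⟩ := A.closed
  have mem : ∀ p : Projectivization κ (σ → κ), p ∈ A.carrier ↔ ∀ F ∈ T, eval p.rep F = 0 :=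
    fun p => by rw [hA]; rfl
  refine ⟨{G | (∃ i j k l, G = X (i, j) * X (k, l) - X (i, l) * X (k, j)) ∨
      (∃ F ∈ T, ∃ j, G = rename (fun i => (i, j)) F) ∨
      ∃ (m : ℕ) (N : σ → MvPolynomial σ κ), (∀ i, (N i).IsHomogeneous m) ∧
        (∀ (p' : A.carrier) (h : (fun i => eval p'.1.rep (N i)) ≠ 0),
          (-p').1 = Projectivization.mk κ _ h) ∧ ∃ i j k l,
        G = X (i, k) * rename (fun i => (i, j)) (N l) - X (i, l) * rename (fun i => (i, j)) (N k)},
    ?_, Set.ext fun z => ⟨?_, fun hz => ?_⟩⟩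
  · rintro G (⟨i, j, k, l, rfl⟩ | ⟨F, hF, j, rfl⟩ | ⟨m, N, hN, -, i, j, k, l, rfl⟩)
    · exact ⟨1 + 1, ((isHomogeneous_X κ _).mul (isHomogeneous_X κ _)).sub
        ((isHomogeneous_X κ _).mul (isHomogeneous_X κ _))⟩
    · obtain ⟨d, hd⟩ := hT F hF
      exact ⟨d, hd.rename_isHomogeneous⟩
    · exact ⟨1 + m, ((isHomogeneous_X κ _).mul (hN _).rename_isHomogeneous).sub
        ((isHomogeneous_X κ _).mul (hN _).rename_isHomogeneous)⟩
  · rintro ⟨p, rfl⟩
    obtain ⟨a, ha, e⟩ := ph_rep A p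
    rintro G (⟨i, j, k, l, rfl⟩ | ⟨F, hF, j, rfl⟩ | ⟨m, N, hN, h, i, j, k, l, rfl⟩)
    · simp only [map_sub, map_mul, eval_X, e, tn, Pi.smul_apply, smul_eq_mul]
      ring
    · obtain ⟨d, hd⟩ := hT F hF
      rw [eval_rename, col A p e, ev_hom hd, (mem _).1 p.2 F hF, mul_zero]
    · rw [map_sub, map_mul, map_mul, eval_X, eval_X, eval_rename, eval_rename, col A p e,
        ev_hom (hN _), ev_hom (hN _), e]
      simp only [tn, Pi.smul_apply, smul_eq_mul]
      by_cases h0 : (fun i => eval p.1.rep (N i)) = 0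
      · rw [show eval p.1.rep (N l) = 0 from congrFun h0 l,
          show eval p.1.rep (N k) = 0 from congrFun h0 k]
        ring
      · obtain ⟨b, -, e'⟩ := eq_mk.1 (h p h0)
        rw [show (-p).1.rep k = b * eval p.1.rep (N k) from congrFun e' k,
          show (-p).1.rep l = b * eval p.1.rep (N l) from congrFun e' l]
        ring
  · obtain ⟨⟨i0, j0⟩, h0⟩ := Function.ne_iff.1 z.rep_nonzero
    have h0 : z.rep (i0, j0) ≠ 0 := h0
    have hx : z.rep ∘ (fun i => (i, j0)) ≠ 0 := Function.ne_iff.2 ⟨i0, h0⟩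
    have hy : z.rep ∘ (fun j => (i0, j)) ≠ 0 := Function.ne_iff.2 ⟨j0, h0⟩
    obtain ⟨a, ha, e⟩ := (eq_mk (p := Projectivization.mk κ _ hx) (hv := hx)).1 rfl
    have hp : Projectivization.mk κ _ hx ∈ A.carrier := (mem _).2 fun F hF => by
      obtain ⟨d, hd⟩ := hT F hF
      rw [e, ev_hom hd, ← eval_rename, hz _ (Or.inr (Or.inl ⟨F, hF, j0, rfl⟩)), mul_zero]
    obtain ⟨m, N, hN, hn, h⟩ := A.neg_loc ⟨_, hp⟩
    obtain ⟨b, hb, e'⟩ := eq_mk.1 (h _ hn)
    obtain ⟨l, hl⟩ := Function.ne_iff.1 hn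
    have par : ∀ k l, z.rep (i0, k) * eval (Projectivization.mk κ _ hx).rep (N l) =
        z.rep (i0, l) * eval (Projectivization.mk κ _ hx).rep (N k) := fun k l => by
      have := hz _ (Or.inr (Or.inr ⟨m, N, hN, h, i0, j0, k, l, rfl⟩))
      rw [map_sub, map_mul, map_mul, eval_X, eval_X, eval_rename, eval_rename] at this
      rw [e, ev_hom (hN _), ev_hom (hN _)]
      linear_combination a ^ m * this
    have hl : eval (Projectivization.mk κ _ hx).rep (N l) ≠ 0 := hl
    have hzl : z.rep (i0, l) ≠ 0 := fun h1 => by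
      have := par j0 l
      rw [h1, zero_mul] at this
      exact mul_ne_zero h0 hl this
    have h2 : (-(⟨_, hp⟩ : A.carrier)).1 = Projectivization.mk κ _ hy := by
      refine eq_mk.2 ⟨b * eval (Projectivization.mk κ _ hx).rep (N l) / z.rep (i0, l),
        by simp [hb, hl, hzl], funext fun k => ?_⟩
      rw [e']
      simp only [Pi.smul_apply, smul_eq_mul, Function.comp]
      field_simp
      linear_combination -par k l
    refine ⟨⟨_, hp⟩, ?_⟩
    rw [ph_eq A (p := ⟨_, hp⟩) rfl h2 z.rep_nonzero (c := (z.rep (i0, j0))⁻¹), z.mk_rep]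
    funext ⟨i, j⟩
    have := hz _ (Or.inl ⟨i, j, i0, j0, rfl⟩)
    simp only [map_sub, map_mul, eval_X] at this
    simp only [tn, Pi.smul_apply, smul_eq_mul, Function.comp]
    field_simp
    linear_combination this

/-- the embedding as a bijection onto its image -/
noncomputable def eqv : A.carrier ≃ Set.range (ph A) := Equiv.ofInjective _ (ph_inj A)

/-- the transported group law -/
@[reducible] noncomputable def grp : AddCommGroup (Set.range (ph A)) := (eqv A).symm.addCommGroup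

theorem eqv_add (p q : A.carrier) :
    letI := grp A; eqv A p + eqv A q = eqv A (p + q) := by
  show eqv A ((eqv A).symm (eqv A p) + (eqv A).symm (eqv A q)) = _
  rw [Equiv.symm_apply_apply, Equiv.symm_apply_apply]

theorem eqv_neg (p : A.carrier) :
    letI := grp A; -eqv A p = eqv A (-p) := by
  show eqv A (-(eqv A).symm (eqv A p)) = _
  rw [Equiv.symm_apply_apply]

theorem swap (p : A.carrier) (h : (ph A p).rep ∘ Equiv.prodComm σ σ ≠ 0) :
    ph A (-p) = Projectivization.mk κ _ h := by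
  obtain ⟨a, -, e⟩ := ph_rep A p
  refine ph_eq A (-p).1.mk_rep.symm (by rw [neg_neg]; exact p.1.mk_rep.symm) h (c := a) ?_
  funext ij
  simp only [e, tn, Function.comp, Pi.smul_apply, smul_eq_mul, Equiv.prodComm_apply, Prod.fst_swap,
    Prod.snd_swap]
  ring

theorem swap_ne (z : Projectivization κ (σ × σ → κ)) : z.rep ∘ Equiv.prodComm σ σ ≠ 0 := by
  obtain ⟨ij, h⟩ := Function.ne_iff.1 z.rep_nonzero
  exact Function.ne_iff.2 ⟨ij.swap, by simpa using h⟩

theorem law (p q : A.carrier) : ∃ (m n : ℕ) (S : σ × σ → MvPolynomial (σ × σ ⊕ σ × σ) κ),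
    (∀ i, (S i).IsWeightedHomogeneous (bw (σ × σ)) (m, n)) ∧
    (fun i => eval (Sum.elim (ph A p).rep (ph A q).rep) (S i)) ≠ 0 ∧
    ∀ (p' q' : A.carrier)
      (h : (fun i => eval (Sum.elim (ph A p').rep (ph A q').rep) (S i)) ≠ 0),
      ph A (p' + q') = Projectivization.mk κ _ h := by
  obtain ⟨m, n, S, hS, s0, s⟩ := A.add_loc p q
  obtain ⟨m', n', R, hR, r0, r⟩ := A.add_loc (-p) (-q)
  obtain ⟨i0, hi0⟩ := Function.ne_iff.1 p.1.rep_nonzero
  obtain ⟨i1, hi1⟩ := Function.ne_iff.1 q.1.rep_nonzero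
  obtain ⟨j0, hj0⟩ := Function.ne_iff.1 (-p).1.rep_nonzero
  obtain ⟨j1, hj1⟩ := Function.ne_iff.1 (-q).1.rep_nonzero
  have ev : ∀ (p' q' : A.carrier) (a b : κ), (ph A p').rep = a • tn p'.1.rep (-p').1.rep →
      (ph A q').rep = b • tn q'.1.rep (-q').1.rep →
      (fun ij : σ × σ => eval (Sum.elim (ph A p').rep (ph A q').rep)
        (rename (Sum.map (fun i => (i, j0)) fun i => (i, j1)) (S ij.1) *
          rename (Sum.map (fun j => (i0, j)) fun j => (i1, j)) (R ij.2))) =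
      ((a * (-p').1.rep j0) ^ m * (b * (-q').1.rep j1) ^ n *
        ((a * p'.1.rep i0) ^ m' * (b * q'.1.rep i1) ^ n')) •
        tn (fun i => eval (Sum.elim p'.1.rep q'.1.rep) (S i))
          fun j => eval (Sum.elim (-p').1.rep (-q').1.rep) (R j) := by
    intro p' q' a b ea eb
    funext ij
    rw [map_mul, eval_rename, eval_rename, Sum.elim_comp_map, Sum.elim_comp_map, col A p' ea,
      col A q' eb, row A p' ea, row A q' eb, ev_bi (hS _), ev_bi (hR _)]
    simp only [tn, Pi.smul_apply, smul_eq_mul]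
    ring
  refine ⟨m + m', n + n', fun ij => rename (Sum.map (fun i => (i, j0)) fun i => (i, j1)) (S ij.1) *
    rename (Sum.map (fun j => (i0, j)) fun j => (i1, j)) (R ij.2), fun ij => ?_, ?_,
    fun p' q' h => ?_⟩
  · exact (wh_rename _ (fun t => by cases t <;> rfl) (hS _)).mul
      (wh_rename _ (fun t => by cases t <;> rfl) (hR _))
  · obtain ⟨a, ha, ea⟩ := ph_rep A p
    obtain ⟨b, hb, eb⟩ := ph_rep A q
    rw [ev p q a b ea eb]
    exact smul_ne_zero (mul_ne_zero (mul_ne_zero (pow_ne_zero _ (mul_ne_zero ha hj0))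
      (pow_ne_zero _ (mul_ne_zero hb hj1))) (mul_ne_zero (pow_ne_zero _ (mul_ne_zero ha hi0))
      (pow_ne_zero _ (mul_ne_zero hb hi1)))) (tn_ne.2 ⟨s0, r0⟩)
  · obtain ⟨a, -, ea⟩ := ph_rep A p'
    obtain ⟨b, -, eb⟩ := ph_rep A q'
    have e := ev p' q' a b ea eb
    have h1 := tn_ne.1 (right_ne_zero_of_smul (e ▸ h))
    exact ph_eq A (s p' q' h1.1) (by rw [neg_add]; exact r (-p') (-q') h1.2) h e

/-- the symmetrised abelian variety -/
noncomputable def sym (hLP : St_LP) : AbVar κ (σ × σ) where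
  carrier := Set.range (ph A)
  closed := ph_closed A
  irred := by
    have := (hLP κ σ (σ × σ) A.carrier (ph A) (ph_loc A)).2 Set.univ
      (by rw [Set.image_univ, Subtype.range_coe]; exact A.irred)
    rwa [Set.image_univ] at this
  grp := grp A
  add_loc := fun z w => by
    obtain ⟨p, rfl⟩ := (eqv A).surjective z
    obtain ⟨q, rfl⟩ := (eqv A).surjective w
    obtain ⟨m, n, S, hS, s0, s⟩ := law A p q
    refine ⟨m, n, S, hS, s0, fun z' w' h => ?_⟩
    obtain ⟨p', rfl⟩ := (eqv A).surjective z'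
    obtain ⟨q', rfl⟩ := (eqv A).surjective w'
    rw [eqv_add]
    exact s p' q' h
  neg_loc := fun z => by
    have e : ∀ x : σ × σ → κ, (fun ij : σ × σ => eval x (X ij.swap)) = x ∘ Equiv.prodComm σ σ :=
      fun x => by funext ij; simp
    refine ⟨1, fun ij => X ij.swap, fun _ => isHomogeneous_X κ _, by rw [e]; exact swap_ne _,
      fun z' h => ?_⟩
    obtain ⟨p', rfl⟩ := (eqv A).surjective z'
    rw [eqv_neg]
    refine (swap A p' (swap_ne _)).trans ?_
    congr 1
    exact (e _).symm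

theorem par_sm {τ : Type} (a : κ) (v : τ → κ) : Par (a • v) v := fun i j => by
  simp only [Pi.smul_apply, smul_eq_mul]
  ring

end T62

open T62 in
theorem st_SYM (hLP : St_LP) : St_SYM := by
  intro κ σ _ A
  refine ⟨sym A hLP, { eqv A with map_add' := fun p q => (eqv_add A p q).symm }, fun p => ?_,
    fun z => ?_⟩
  · obtain ⟨a, -, e⟩ := ph_rep A p
    show Par (ph A p).rep (tn p.1.rep (-p).1.rep)
    exact e ▸ par_sm a _
  · obtain ⟨p, rfl⟩ := (eqv A).surjective z
    obtain ⟨a, -, e⟩ := eq_mk.1 (swap A p (swap_ne _))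
    have e2 := congrArg (fun z => z.1.rep) (eqv_neg A p)
    have e3 := e2.trans e
    exact e3.symm ▸ par_sm a ((ph A p).rep ∘ Equiv.prodComm σ σ)

end D4C
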