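import Pool.Agent.Lib.D4C.BlueU

/-! d4c56, block TAY: first order Taylor formula over dual numbers. -/

namespace D4C

open MvPolynomial

theorem st_TAY : St_TAY := by
  intro R S τ _ _ _ _ _ x G
  induction G using MvPolynomial.induction_on with
  | C a =>
    refine ⟨?_, ?_⟩
    · rw [aeval_C, aeval_C]; rfl
    · rw [aeval_C]
      simp only [pderiv_C, map_zero, zero_mul, Finset.sum_const_zero]
      rfl
  | add p q hp hq =>
    refine ⟨?_, ?_⟩
    · rw [map_add, map_add, TrivSqZeroExt.fst_add, hp.1, hq.1]
    · simp only [map_add, TrivSqZeroExt.snd_add, hp.2, hq.2, add_mul, Finset.sum_add_distrib]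
  | mul_X p i hp =>
    refine ⟨?_, ?_⟩
    · rw [map_mul, map_mul, TrivSqZeroExt.fst_mul, hp.1, aeval_X, aeval_X]
    · rw [map_mul, DualNumber.snd_mul, hp.1, hp.2, aeval_X]
      have h : ∀ s, aeval (fun s => (x s).fst) (pderiv s (p * X i)) * (x s).snd =
          aeval (fun s => (x s).fst) (pderiv s p) * (x s).snd * (x i).fst +
            if s = i then aeval (fun s => (x s).fst) p * (x i).snd else 0 := by
        intro s
        rw [pderiv_mul, map_add, map_mul, map_mul, aeval_X]
        by_cases hs : s = i
        · subst hs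
          rw [pderiv_X_self, map_one, if_pos rfl]; ring
        · rw [pderiv_X_of_ne (Ne.symm hs), map_zero, if_neg hs]; ring
      simp only [h]
      rw [Finset.sum_add_distrib, Finset.sum_ite_eq', if_pos (Finset.mem_univ i), Finset.sum_mul,
        add_comm]

end D4C
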