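import Pool.Agent.Lib.D4C.B_TAU
import Pool.Agent.Lib.D4C.B_TAY

namespace D4C

open MvPolynomial

namespace T85

section lin

variable {M ι : Type} [CommRing M] [Fintype ι]

/-- a linear relation between tangent vectors at the same point -/
def LinR (c0 : M) (c : ι → M) (x : DualNumber M) (y : ι → DualNumber M) : Prop :=
  (∀ k, (y k).fst = x.fst) ∧ c0 * x.snd = ∑ k, c k * (y k).snd

variable {c0 : M} {c : ι → M} {R : Type} [CommRing R] [Algebra R M]

lemma linR_aeval {τ : Type} [Fintype τ] {x : τ → DualNumber M} {y : ι → τ → DualNumber M}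
    (h : ∀ s, LinR c0 c (x s) fun k => y k s) (G : MvPolynomial τ R) :
    LinR c0 c (aeval x G) fun k => aeval (y k) G := by
  classical
  have e : ∀ k, (fun s => (y k s).fst) = fun s => (x s).fst := fun k => funext fun s => (h s).1 k
  refine ⟨fun k => by rw [(st_TAY R M τ _ G).1, (st_TAY R M τ _ G).1, e], ?_⟩
  simp only [(st_TAY R M τ _ G).2, e, Finset.mul_sum]
  rw [Finset.sum_comm]
  refine Finset.sum_congr rfl fun s _ => ?_
  rw [mul_left_comm, (h s).2, Finset.mul_sum]
  exact Finset.sum_congr rfl fun k _ => mul_left_comm _ _ _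

lemma evZT_opt {S : Type} [CommRing S] [Algebra R S] {m : ℕ} (z : Fin m → S) (t : S) (q : ZT R m) :
    evZT z t q = aeval (fun o : Option (Fin m) => o.elim t z) ((optionEquivLeft R _).symm q) := by
  have : (evZT z t).comp (optionEquivLeft R (Fin m)).toAlgHom =
      aeval fun o : Option (Fin m) => o.elim t z :=
    algHom_ext fun o => by cases o <;> simp [evZT]
  rw [← this]
  simp

lemma linR_evZT {m : ℕ} {z : Fin m → DualNumber M} {t : DualNumber M}
    {z' : ι → Fin m → DualNumber M} {t' : ι → DualNumber M}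
    (h : ∀ l, LinR c0 c (z l) fun k => z' k l) (h' : LinR c0 c t t') (q : ZT R m) :
    LinR c0 c (evZT z t q) fun k => evZT (z' k) (t' k) q := by
  simp only [evZT_opt]
  exact linR_aeval (fun o => by cases o <;> [exact h'; exact h _]) _

lemma fst_evZT {m : ℕ} (z : Fin m → DualNumber M) (t : DualNumber M) (q : ZT R m) :
    (evZT z t q).fst = evZT (fun l => (z l).fst) t.fst q := by
  rw [evZT_opt, evZT_opt, (st_TAY R M _ _ _).1]
  congr 2
  funext o
  cases o <;> rfl

lemma evZT_add {S : Type} [CommRing S] [Algebra R S] {m : ℕ} (z : Fin m → S) (t u : S)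
    (hu : u ^ 2 = 0) (q : ZT R m) :
    evZT z (t + u) q = evZT z t q + evZT z t (Polynomial.derivative q) * u := by
  have key : ∀ (s : S) (q : ZT R m), evZT z s q
      = (q.map (aeval z : MvPolynomial (Fin m) R →ₐ[R] S).toRingHom).eval s :=
    fun s q => (Polynomial.eval_map _ _).symm
  rw [key, key, key, Polynomial.eval_add_of_sq_eq_zero _ _ _ hu, Polynomial.derivative_map]

lemma snd_evZT {m : ℕ} (z : Fin m → DualNumber M) (t : DualNumber M) (q : ZT R m) :
    (evZT z t q).snd = ∑ j, (z j).snd *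
      (evZT (fun l => dn (z l).fst (if l = j then 1 else 0)) (dn t.fst 0) q).snd +
      evZT (fun l => (z l).fst) t.fst (Polynomial.derivative q) * t.snd := by
  have e : t = dn t.fst 0 + dn 0 t.snd := TrivSqZeroExt.ext (by simp) (by simp)
  have h := (linR_evZT (c0 := 1) (c := fun j => (z j).snd) (z := z) (t := dn t.fst 0)
    (z' := fun j l => dn (z l).fst (if l = j then 1 else 0)) (t' := fun _ => dn t.fst 0)
    (fun l => ⟨by simp, by simp⟩) ⟨by simp, by simp⟩ q).2
  conv_lhs => rw [e, evZT_add _ _ _ (TrivSqZeroExt.ext (by simp) (by simp))]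
  rw [← h]
  simp [fst_evZT]

end lin

lemma law_neg {L σ : Type} [Field L] [Fintype σ] [DecidableEq σ] (B : Pkg L σ) (a : Fin B.nl)
    {M : Type} [Field M] [Algebra L M] {x : σ → M} (hx : Zr B.I x) :
    ∃ c : M, ev2 (B.A a) x (x ∘ B.π) = c • fun i => algebraMap L M (B.o i) := by
  by_cases h : x = 0
  · refine ⟨0, ?_⟩
    have := B.ev2_smul a (0 : M) 0 x (x ∘ B.π)
    rw [zero_pow (Nat.one_le_iff_ne_zero.1 B.β_pos), zero_mul, zero_smul, zero_smul, zero_smul] at this
    rw [zero_smul, ← this, h]
    rfl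
  · have h1 := Pkg.rep_pt x (uni_iff_ne_zero.2 h) hx
    exact h1.law_eq_smul h1.neg (by rw [add_neg_cancel]; exact Pkg.rep_zero) a

end T85

open T85 in
theorem st_TAN : St_TAN := by
  intro L σ _ _ _ B g C a R M _ _ _ _ m P φ z t hP hz b
  refine ⟨?_, fun _ => ?_⟩
  · obtain ⟨c, hc⟩ := law_neg B a hz
    have e : (fun i => (ev2 (B.A a) (fun i => evZT z t (φ i))
        (fun i => dn (evZT (fun j => (z j).fst) t.fst (φ (B.π i))) 0) i).fst) =
        c • fun i => algebraMap L M (B.o i) := by
      rw [← hc]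
      funext i
      unfold ev2
      rw [T51.fst_aeval]
      congr 2
      funext s
      cases s <;> simp [fst_evZT]
    rw [T51.fst_aeval, e, aeval_smul_hom (C.num_hom b), num_o', mul_zero]
  · have h0 := snd_evZT z t P
    rw [hP, TrivSqZeroExt.snd_zero] at h0
    refine (linR_aeval (fun i => linR_aeval (fun s => ?_) _) _).2
    cases s with
    | inl s =>
      refine linR_evZT (fun l => ⟨by simp, by simp [mul_comm]⟩) ⟨by simp, ?_⟩ _
      simp only [dn_snd, mul_neg, Finset.sum_neg_distrib]
      linear_combination -h0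
    | inr s => exact ⟨by simp, by simp⟩

end D4C
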