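import Pool.Agent.Lib.D4C.B_LOW
import Pool.Agent.Lib.D4C.B_KER

namespace D4C

open MvPolynomial

namespace T85

section jets

variable (L : Type) {ρ F : Type} [Field L] [Field F] [Algebra L F]

/-- constant term as an algebra map -/
noncomputable def ccA : PS ρ F →ₐ[L] F :=
  { (MvPowerSeries.constantCoeff : PS ρ F →+* F) with
    commutes' := fun c => by simp [MvPowerSeries.algebraMap_apply] }

lemma ccA_apply (f : PS ρ F) : ccA L f = MvPowerSeries.constantCoeff f := rfl

variable {L}

lemma cc_aeval {τ : Type} (x : τ → PS ρ F) (G : MvPolynomial τ L) :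
    MvPowerSeries.constantCoeff (aeval x G) =
      aeval (fun s => MvPowerSeries.constantCoeff (x s)) G :=
  (aeval_map_alg (ccA L) x G).symm

lemma lin_mul (f f' : PS ρ F) (r : ρ) : lin (f * f') r =
    MvPowerSeries.constantCoeff f * lin f' r + lin f r * MvPowerSeries.constantCoeff f' := by
  classical
  unfold lin
  rw [MvPowerSeries.coeff_mul, Finsupp.antidiagonal_single, Finset.sum_map]
  simp [Finset.Nat.antidiagonal_succ]

lemma lin_add (f f' : PS ρ F) (r : ρ) : lin (f + f') r = lin f r + lin f' r := map_add _ _ _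

lemma lin_C (c : F) (r : ρ) : lin (MvPowerSeries.C c : PS ρ F) r = 0 := by
  classical
  simp [lin, MvPowerSeries.coeff_C]

lemma lin_X [DecidableEq ρ] (s r : ρ) : lin (MvPowerSeries.X s : PS ρ F) r =
    if r = s then 1 else 0 := by
  simp [lin, MvPowerSeries.coeff_X, Finsupp.single_left_inj]

@[simp] lemma dn_fst {S : Type} [CommRing S] (a b : S) : (dn a b).fst = a := by simp [dn]

@[simp] lemma dn_snd {S : Type} [CommRing S] (a b : S) : (dn a b).snd = b := by simp [dn]

variable (L)

/-- first order jet in the direction `r` -/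
noncomputable def jet (r : ρ) : PS ρ F →ₐ[L] DualNumber F where
  toFun f := dn (MvPowerSeries.constantCoeff f) (lin f r)
  map_one' := TrivSqZeroExt.ext (by simp) (by simpa using lin_C (1 : F) r)
  map_mul' f f' := TrivSqZeroExt.ext (by simp) (by simp [lin_mul])
  map_zero' := TrivSqZeroExt.ext (by simp) (by simp [lin])
  map_add' f f' := TrivSqZeroExt.ext (by simp) (by simp [lin_add])
  commutes' c := TrivSqZeroExt.ext (by simp [MvPowerSeries.algebraMap_apply]; rfl)
    (by simp [MvPowerSeries.algebraMap_apply, lin_C]; rfl)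

lemma jet_apply (r : ρ) (f : PS ρ F) :
    jet L r f = dn (MvPowerSeries.constantCoeff f) (lin f r) := rfl

@[simp] lemma jet_fst (r : ρ) (f : PS ρ F) : (jet L r f).fst = MvPowerSeries.constantCoeff f :=
  dn_fst _ _

@[simp] lemma jet_snd (r : ρ) (f : PS ρ F) : (jet L r f).snd = lin f r := dn_snd _ _

lemma unit_iff {f : PS ρ F} : IsUnit f ↔ MvPowerSeries.constantCoeff f ≠ 0 := by
  rw [MvPowerSeries.isUnit_iff_constantCoeff, isUnit_iff_ne_zero]

end jets

section chart

variable {L σ : Type} [Field L] [Fintype σ] [DecidableEq σ] {B : Pkg L σ} {g : ℕ}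

lemma num_o (C : Chart B g) (b : Fin g) : aeval B.o (C.num b) = 0 := by
  have := congrArg MvPowerSeries.constantCoeff (C.coord b)
  rw [cc_aeval, map_mul] at this
  simpa [C.τ_o] using this

lemma num_o' (C : Chart B g) (R : Type) [CommRing R] [Algebra L R] (b : Fin g) :
    aeval (fun i => algebraMap L R (B.o i)) (C.num b) = 0 := by
  have := aeval_map_alg (Algebra.ofId L R) B.o (C.num b)
  rw [num_o, map_zero] at this
  exact this

lemma den_o' (C : Chart B g) (R : Type) [CommRing R] [Algebra L R] :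
    IsUnit (aeval (fun i => algebraMap L R (B.o i)) C.den) := by
  have := aeval_map_alg (Algebra.ofId L R) B.o C.den
  exact this ▸ (isUnit_iff_ne_zero.2 C.den_o).map _

variable {ρ F : Type} [Field F] [Algebra L F]

lemma res_zero {q : B.Pt (PS ρ F)} {y : σ → PS ρ F} (hy : B.Rep q y)
    (h : Par (fun i => MvPowerSeries.constantCoeff (y i)) fun i => algebraMap L F (B.o i)) :
    B.map (res L (PS ρ F)) q = 0 := by
  refine (hy.map _).eq Pkg.rep_zero fun i j => ?_
  rw [← (res L (PS ρ F)).commutes, ← (res L (PS ρ F)).commutes, ← map_mul, ← map_mul,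
    ← sub_eq_zero, ← map_sub]
  refine (IsLocalRing.residue_eq_zero_iff _).2 fun hu => unit_iff.1 hu ?_
  have := h i j
  simpa [MvPowerSeries.algebraMap_apply, sub_eq_zero] using this

lemma tauV_eq (C : Chart B g) {a : Fin g → PS ρ F} (ha : MvPowerSeries.HasSubst a) :
    tauV C a = fun i => MvPowerSeries.substAlgHom ha (C.τ i) :=
  funext fun _ => (MvPowerSeries.substAlgHom_apply _ _).symm

lemma tau1 (C : Chart B g) {a : Fin g → PS ρ F}
    (h : ∀ b, MvPowerSeries.constantCoeff (a b) = 0) :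
    (∃ q : B.Pt (PS ρ F), B.Rep q (tauV C a)) ∧
    (∀ i, MvPowerSeries.constantCoeff (tauV C a i) = algebraMap L F (B.o i)) ∧
    IsUnit (aeval (tauV C a) C.den) ∧
    ∀ b, aeval (tauV C a) (C.num b) = a b * aeval (tauV C a) C.den := by
  have ha := MvPowerSeries.hasSubst_of_constantCoeff_zero h
  have h2 : ∀ i, MvPowerSeries.constantCoeff (tauV C a i) = algebraMap L F (B.o i) := fun i => by
    rw [← C.τ_o]
    exact cc_subst ha h _
  refine ⟨⟨_, Pkg.rep_pt _ ?_ ?_⟩, h2, ?_, fun b => ?_⟩
  · obtain ⟨k, hk⟩ : Uni fun i => algebraMap L F (B.o i) := Pkg.o_uni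
    exact ⟨k, unit_iff.2 (h2 k ▸ hk.ne_zero)⟩
  · rw [tauV_eq C ha]
    exact C.τ_zr.map _
  · rw [unit_iff, cc_aeval, funext h2]
    exact (den_o' C F).ne_zero
  · rw [tauV_eq C ha, aeval_map_alg, aeval_map_alg, C.coord, map_mul,
      MvPowerSeries.substAlgHom_X]

lemma tau2 (C : Chart B g) {q : B.Pt (PS ρ F)} {y : σ → PS ρ F} (hy : B.Rep q y)
    (h : Par (fun i => MvPowerSeries.constantCoeff (y i)) fun i => algebraMap L F (B.o i)) :
    ∃ a : Fin g → PS ρ F, (∀ b, MvPowerSeries.constantCoeff (a b) = 0) ∧ B.Rep q (tauV C a) ∧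
      IsUnit (aeval y C.den) ∧ ∀ b, aeval y (C.num b) = a b * aeval y C.den := by
  obtain ⟨c, hc⟩ := h.symm.exists_smul Pkg.o_uni
  have hc0 : IsUnit c := by
    have : Uni fun i => MvPowerSeries.constantCoeff (y i) := hy.uni.map (ccA L)
    rw [hc] at this
    exact this.isUnit_of_smul
  have hd : IsUnit (aeval y C.den) := by
    rw [unit_iff, cc_aeval, hc, aeval_smul_hom C.den_hom]
    exact ((hc0.pow _).mul (den_o' C F)).ne_zero
  obtain ⟨u, hu⟩ := hd
  have h0 : ∀ b, MvPowerSeries.constantCoeff (aeval y (C.num b) * (↑u⁻¹ : PS ρ F)) = 0 :=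
    fun b => by
      rw [map_mul, cc_aeval, hc, aeval_smul_hom (C.num_hom b), num_o', mul_zero, zero_mul]
  obtain ⟨⟨q', hq'⟩, h2, -, h4⟩ := tau1 C h0
  have e : q = q' := C.inj _ q q' _ _ (res_zero hy h)
    (res_zero hq' (by rw [funext h2]; exact Par.refl _)) hy hq' fun b => by
      rw [h4, ← hu, mul_right_comm, Units.inv_mul_cancel_right]
  exact ⟨_, h0, e ▸ hq', ⟨u, hu⟩, fun b => by rw [← hu, Units.inv_mul_cancel_right]⟩

lemma tau3 (C : Chart B g) {q q' : B.Pt (PS ρ F)} {a a' a'' : Fin g → PS ρ F}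
    (h : ∀ b, MvPowerSeries.constantCoeff (a b) = 0)
    (h' : ∀ b, MvPowerSeries.constantCoeff (a' b) = 0)
    (h'' : ∀ b, MvPowerSeries.constantCoeff (a'' b) = 0) (hq : B.Rep q (tauV C a))
    (hq' : B.Rep q' (tauV C a')) (hs : B.Rep (q + q') (tauV C a'')) (b : Fin g) (r : ρ) :
    lin (a'' b) r = lin (a b) r + lin (a' b) r := by
  have key : ∀ {a : Fin g → PS ρ F}, (∀ b, MvPowerSeries.constantCoeff (a b) = 0) →
      (fun i => jet L r (tauV C a i)) = (fun i => dn (algebraMap L F (B.o i)) (lin (tauV C a i) r)) ∧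
      aeval (fun i => jet L r (tauV C a i)) (C.num b) =
        dn 0 (lin (a b) r) * aeval (fun i => jet L r (tauV C a i)) C.den := fun {a} h => by
    obtain ⟨-, h2, -, h4⟩ := tau1 C h
    refine ⟨funext fun i => by rw [jet_apply, h2], ?_⟩
    rw [aeval_map_alg, aeval_map_alg, h4, map_mul, jet_apply, h]
  have hd := (den_o' C F).ne_zero
  have k1 := hq.map (jet L r)
  have k2 := hq'.map (jet L r)
  have k3 := hs.map (jet L r)
  rw [(key h).1] at k1
  rw [(key h').1] at k2
  have k4 := st_KER L σ B F _ _ _ _ k1 k2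
  rw [← map_add] at k4
  obtain ⟨c, hc⟩ := (k3.par k4).exists_smul k3.uni
  have e1 := T51.snd_aeval_add
    (fun i => dn (algebraMap L F (B.o i)) (lin (tauV C a i) r + lin (tauV C a' i) r))
    (fun i => jet L r (tauV C a i)) (fun i => jet L r (tauV C a' i))
    (fun i => by rw [congrFun (key h).1 i]; simp) (fun i => by rw [congrFun (key h').1 i]; simp)
    (fun i => by simp) (C.num b)
  have e2 : aeval (fun i => dn (algebraMap L F (B.o i)) (lin (tauV C a i) r + lin (tauV C a' i) r))
      (C.num b) = dn 0 (lin (a'' b) r) * aeval (fun i => dn (algebraMap L F (B.o i))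
        (lin (tauV C a i) r + lin (tauV C a' i) r)) C.den := by
    unfold dn at *
    rw [hc, aeval_smul_hom (C.num_hom b), aeval_smul_hom C.den_hom, (key h'').2]
    ring
  rw [e2, (key h).2, (key h').2, (key h).1, (key h').1] at e1
  simp only [DualNumber.snd_mul, dn_fst, dn_snd, zero_mul, zero_add, T51.fst_aeval] at e1
  exact mul_right_cancel₀ hd (by rw [add_mul]; exact e1)

end chart

end T85

open T85 in
theorem st_TAU : St_TAU := by
  intro L σ _ _ _ B g C ρ F _ _
  refine ⟨fun a h => tau1 C h, fun q y hy h => ?_,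
    fun q q' a a' a'' h h' h'' hq hq' hs => tau3 C h h' h'' hq hq' hs⟩
  obtain ⟨a, h1, h2, -⟩ := tau2 C hy h
  exact ⟨a, h1, h2⟩

end D4C
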