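import Pool.Agent.Lib.D4C.Iface

/-! Directional derivatives of polynomials, divided powers and their local sizes. -/

namespace D4C.T25

open Finset MvPolynomial

section general

variable {τ L : Type} [Field L]

/-- derivative in a constant direction -/
noncomputable def Dz (u : τ → L) : Derivation L (MvPolynomial τ L) (MvPolynomial τ L) :=
  mkDerivation L fun x => C (u x)

theorem Dz_X (u : τ → L) (x : τ) : Dz u (X x) = C (u x) := mkDerivation_X _ _ _

theorem Dz_C (u : τ → L) (c : L) : Dz u (C c) = 0 := derivation_C _ _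

theorem Dz_mul_X (u : τ → L) (p : MvPolynomial τ L) (x : τ) :
    Dz u (p * X x) = p * C (u x) + X x * Dz u p := by
  rw [Derivation.leibniz, Dz_X, smul_eq_mul, smul_eq_mul]

theorem Dz_comm (u v : τ → L) (p : MvPolynomial τ L) : Dz u (Dz v p) = Dz v (Dz u p) := by
  induction p using MvPolynomial.induction_on with
  | C c => rw [Dz_C, Dz_C, map_zero, map_zero]
  | add p q hp hq => simp only [map_add, hp, hq]
  | mul_X p x hp =>
    simp only [map_add, Derivation.leibniz, Dz_X, Dz_C, smul_eq_mul, hp]
    ring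

theorem Dz_add (u v : τ → L) (p : MvPolynomial τ L) : Dz (u + v) p = Dz u p + Dz v p := by
  have : Dz (u + v) = Dz u + Dz v := derivation_ext fun x => by simp [Dz_X]
  rw [this, Derivation.add_apply]

theorem Dz_smul (c : L) (u : τ → L) (p : MvPolynomial τ L) : Dz (c • u) p = c • Dz u p := by
  have : Dz (c • u) = c • Dz u := derivation_ext fun x => by simp [Dz_X, smul_eq_C_mul]
  rw [this, Derivation.smul_apply]

theorem it_inv {t : τ → L} {p : MvPolynomial τ L} (h : Dz t p = 0) (u : τ → L) (k : ℕ) :
    Dz t ((Dz u)^[k] p) = 0 := by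
  induction k with
  | zero => exact h
  | succ k ih => rw [Function.iterate_succ_apply', Dz_comm, ih, map_zero]

theorem it_congr {t u : τ → L} {p : MvPolynomial τ L} (h : Dz t p = 0) (k : ℕ) :
    (Dz (u + t))^[k] p = (Dz u)^[k] p := by
  induction k with
  | zero => rw [Function.iterate_zero_apply, Function.iterate_zero_apply]
  | succ k ih =>
    rw [Function.iterate_succ_apply', Function.iterate_succ_apply', ih, Dz_add, it_inv h, add_zero]

/-- translation along a direction with a parameter -/
noncomputable def Sh (u : τ → L) : MvPolynomial τ L →ₐ[L] Polynomial (MvPolynomial τ L) :=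
  aeval fun x => Polynomial.C (X x) + Polynomial.C (C (u x)) * Polynomial.X

theorem Sh_C (u : τ → L) (c : L) : Sh u (C c) = Polynomial.C (C c) := by
  simp [Sh]

theorem Sh_X (u : τ → L) (x : τ) :
    Sh u (X x) = Polynomial.C (X x) + Polynomial.C (C (u x)) * Polynomial.X := aeval_X _ _

theorem Sh_zero (u : τ → L) (p : MvPolynomial τ L) : (Sh u p).coeff 0 = p := by
  induction p using MvPolynomial.induction_on with
  | C c => rw [Sh_C, Polynomial.coeff_C_zero]
  | add p q hp hq => simp only [map_add, Polynomial.coeff_add, hp, hq]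
  | mul_X p x hp => simp [Sh_X, hp]

theorem Sh_der (u : τ → L) (p : MvPolynomial τ L) :
    Polynomial.derivative (Sh u p) = Sh u (Dz u p) := by
  induction p using MvPolynomial.induction_on with
  | C c => rw [Sh_C, Dz_C, map_zero, Polynomial.derivative_C]
  | add p q hp hq => simp only [map_add, hp, hq]
  | mul_X p x hp =>
    rw [Dz_mul_X, map_mul, Polynomial.derivative_mul, hp, map_add, map_mul, map_mul, Sh_C, Sh_X]
    simp only [map_add, Polynomial.derivative_C, Polynomial.derivative_C_mul_X, zero_add]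
    ring

theorem taylor (u : τ → L) (k : ℕ) : ∀ p : MvPolynomial τ L,
    (k.factorial : L) • (Sh u p).coeff k = (Dz u)^[k] p := by
  induction k with
  | zero => intro p; simp [Sh_zero]
  | succ k ih =>
    intro p
    rw [Function.iterate_succ_apply, ← ih, ← Sh_der, Polynomial.coeff_derivative,
      Nat.factorial_succ, smul_eq_C_mul, smul_eq_C_mul]
    simp only [Nat.cast_mul, Nat.cast_add, Nat.cast_one, map_mul, map_add, map_natCast, map_one]
    ring

theorem Sh_int {u : τ → L} (hu : ∀ x, IsIntegral ℤ (u x)) (d : τ →₀ ℕ) (k : ℕ) (e : τ →₀ ℕ) :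
    IsIntegral ℤ (coeff e ((Sh u (monomial d 1)).coeff k)) := by
  let f : integralClosure ℤ L →+* L := algebraMap _ _
  let F : Polynomial (MvPolynomial τ (integralClosure ℤ L)) →+* Polynomial (MvPolynomial τ L) :=
    Polynomial.mapRingHom (MvPolynomial.map f)
  have h : Sh u (monomial d 1) ∈ F.rangeS := by
    rw [Sh, aeval_monomial, map_one, one_mul]
    refine Subsemiring.prod_mem _ fun x _ => Subsemiring.pow_mem _ ?_ _
    exact ⟨Polynomial.C (X x) + Polynomial.C (C ⟨u x, hu x⟩) * Polynomial.X, by
      simp only [F, Polynomial.coe_mapRingHom, Polynomial.map_add, Polynomial.map_mul,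
        Polynomial.map_C, Polynomial.map_X, map_X, map_C]
      rfl⟩
  obtain ⟨G, hG⟩ := h
  rw [← hG, Polynomial.coe_mapRingHom, Polynomial.coeff_map, coeff_map]
  exact (coeff e (G.coeff k)).2

theorem Sh_nonarch (v : AbsoluteValue L ℝ) (hv : ∀ x y, v (x + y) ≤ max (v x) (v y))
    (h1 : ∀ x, IsIntegral ℤ x → v x ≤ 1) {u : τ → L} (hu : ∀ x, IsIntegral ℤ (u x))
    {p : MvPolynomial τ L} (hp : p ≠ 0) (k : ℕ) (e : τ →₀ ℕ) :
    ∃ d, v (coeff e ((Sh u p).coeff k)) ≤ v (coeff d p) := by
  classical
  obtain ⟨d, -, hd⟩ := exists_max_image p.support (fun d => v (coeff d p)) (support_nonempty.2 hp)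
  refine ⟨d, ?_⟩
  have key : ∀ s : Finset (τ →₀ ℕ), s ⊆ p.support →
      v (coeff e ((Sh u (∑ a ∈ s, monomial a (coeff a p))).coeff k)) ≤ v (coeff d p) := by
    intro s
    induction s using Finset.induction_on with
    | empty => intro _; simp
    | insert a s ha ih =>
      intro hs
      rw [sum_insert ha, map_add, Polynomial.coeff_add, coeff_add]
      refine (hv _ _).trans (max_le ?_ (ih ((subset_insert _ _).trans hs)))
      rw [← mul_one (coeff a p), ← smul_eq_mul, ← smul_monomial, map_smul, Polynomial.coeff_smul,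
        coeff_smul, smul_eq_mul, map_mul]
      exact (mul_le_of_le_one_right (v.nonneg _) (h1 _ (Sh_int hu a k e))).trans
        (hd a (hs (mem_insert_self _ _)))
  have := key _ (Subset.refl _)
  rwa [← p.as_sum] at this

theorem sum_shift (v : AbsoluteValue L ℝ) (p : MvPolynomial τ L) (x : τ) (s : Finset (τ →₀ ℕ)) :
    ∑ e ∈ s, v (coeff e (pderiv x p)) ≤ ∑ d ∈ p.support, v (coeff d p) * d x := by
  classical
  have h0 : ∀ d : τ →₀ ℕ, 0 ≤ v (coeff d p) * d x :=
    fun d => mul_nonneg (v.nonneg _) (Nat.cast_nonneg _)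
  calc _ ≤ ∑ e ∈ s, v (coeff (e + Finsupp.single x 1) p) * (e + Finsupp.single x 1 : τ →₀ ℕ) x := by
        refine sum_le_sum fun e _ => ?_
        rw [coeff_pderiv, map_mul]
        refine mul_le_mul_of_nonneg_left ?_ (v.nonneg _)
        have := v.apply_nat_le_self (e x + 1)
        simpa using this
    _ = ∑ d ∈ s.image (· + Finsupp.single x 1), v (coeff d p) * d x :=
        (sum_image (f := fun d : τ →₀ ℕ => v (coeff d p) * d x)
          fun a _ b _ h => add_right_cancel h).symm
    _ ≤ ∑ d ∈ s.image (· + Finsupp.single x 1) ∪ p.support, v (coeff d p) * d x :=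
        sum_le_sum_of_subset_of_nonneg subset_union_left fun d _ _ => h0 d
    _ = _ := (sum_subset subset_union_right fun d _ hd => by
        rw [notMem_support_iff.1 hd, map_zero, zero_mul]).symm

end general

variable {ι σ L : Type} [Field L] [Fintype ι] [DecidableEq ι] [Fintype σ]

/-- a vector placed in one block -/
def emb (i : ι) (z : σ → L) : ι × σ → L := fun x => if x.1 = i then z x.2 else 0

omit [Fintype ι] [Fintype σ] in
theorem emb_add (i : ι) (z z' : σ → L) : emb i (z + z') = emb i z + emb i z' := by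
  funext x
  by_cases h : x.1 = i <;> simp [emb, h]

omit [Fintype ι] [Fintype σ] in
theorem emb_smul (i : ι) (c : L) (z : σ → L) : emb i (c • z) = c • emb i z := by
  funext x
  by_cases h : x.1 = i <;> simp [emb, h]

omit [Fintype ι] in
theorem Dz_emb (i : ι) (z : σ → L) (p : MvPolynomial (ι × σ) L) :
    Dz (emb i z) p = ∑ a, z a • pderiv (i, a) p := by
  classical
  have hs : ∀ q : MvPolynomial (ι × σ) L, (∑ a, z a • pderiv (i, a) :
      Derivation L (MvPolynomial (ι × σ) L) (MvPolynomial (ι × σ) L)) q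
      = ∑ a, z a • pderiv (i, a) q := fun q => by
    induction (univ : Finset σ) using Finset.induction_on with
    | empty => simp
    | insert a s ha ih => rw [sum_insert ha, sum_insert ha, Derivation.add_apply, ih,
        Derivation.smul_apply]
  have : Dz (emb i z) = ∑ a, z a • pderiv (i, a) := derivation_ext fun x => by
    rw [Dz_X, hs]
    obtain ⟨j, b⟩ := x
    by_cases h : j = i
    · subst h
      rw [sum_eq_single b]
      · simp [emb, smul_eq_C_mul]
      · intro a _ ha
        simp [pderiv_X, ha.symm]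
      · simp
    · simp [emb, h, pderiv_X]
  rw [this, hs]

omit [Fintype ι] in
theorem deg_Dz {i : ι} {z : σ → L} {p : MvPolynomial (ι × σ) L} {e : ι × σ →₀ ℕ}
    (he : e ∈ (Dz (emb i z) p).support) :
    ∃ d ∈ p.support, ∀ j, ∑ a, d (j, a) = ∑ a, e (j, a) + Pi.single (M := fun _ => ℕ) i 1 j := by
  classical
  rw [Dz_emb, mem_support_iff, coeff_sum] at he
  obtain ⟨a, -, ha⟩ := exists_ne_zero_of_sum_ne_zero he
  refine ⟨e + Finsupp.single (i, a) 1, mem_support_iff.2 fun h => ha ?_, fun j => ?_⟩
  · rw [coeff_smul, coeff_pderiv, h, zero_mul, smul_zero]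
  · simp only [Finsupp.add_apply, sum_add_distrib, Finsupp.single_apply, Pi.single_apply,
      Prod.mk.injEq]
    by_cases h : i = j
    · simp [h]
    · simp [h, Ne.symm h]

omit [Fintype ι] in
theorem deg_it {i : ι} {z : σ → L} {p : MvPolynomial (ι × σ) L} {n : ι → ℕ}
    (hp : ∀ d ∈ p.support, ∀ j, ∑ a, d (j, a) = n j) (k : ℕ) :
    ∀ e ∈ ((Dz (emb i z))^[k] p).support, ∀ j,
      ∑ a, e (j, a) + Pi.single (M := fun _ => ℕ) i k j = n j := by
  induction k with
  | zero => simpa using hp
  | succ k ih =>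
    intro e he j
    rw [Function.iterate_succ_apply'] at he
    obtain ⟨d, hd, h⟩ := deg_Dz he
    rw [← ih d hd j, h j, Pi.single_add, Pi.add_apply]
    ring

omit [Fintype ι] in
theorem l1_Dz (v : AbsoluteValue L ℝ) {i : ι} {z : σ → L} {r : ℝ} (hr : 0 ≤ r)
    (hz : ∀ a, v (z a) ≤ r) {p : MvPolynomial (ι × σ) L} {n : ℕ}
    (hp : ∀ d ∈ p.support, ∑ a, d (i, a) = n) : l1 v (Dz (emb i z) p) ≤ r * n * l1 v p := by
  calc _ ≤ ∑ e ∈ (Dz (emb i z) p).support, ∑ a, r * v (coeff e (pderiv (i, a) p)) := by
        refine sum_le_sum fun e _ => ?_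
        rw [Dz_emb, coeff_sum]
        refine (v.sum_le _ _).trans (sum_le_sum fun a _ => ?_)
        rw [coeff_smul, smul_eq_mul, map_mul]
        exact mul_le_mul_of_nonneg_right (hz a) (v.nonneg _)
    _ ≤ ∑ a, r * ∑ d ∈ p.support, v (coeff d p) * d (i, a) := by
        rw [sum_comm]
        refine sum_le_sum fun a _ => ?_
        rw [← mul_sum]
        exact mul_le_mul_of_nonneg_left (sum_shift v p _ _) hr
    _ = _ := by
        rw [← mul_sum, sum_comm, mul_assoc, l1, mul_sum _ _ (n : ℝ)]
        congr 1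
        refine sum_congr rfl fun d hd => ?_
        rw [← mul_sum, ← hp d hd, mul_comm]
        simp

omit [Fintype ι] in
theorem l1_it (v : AbsoluteValue L ℝ) {i : ι} {z : σ → L} {r : ℝ} (hr : 0 ≤ r)
    (hz : ∀ a, v (z a) ≤ r) {p : MvPolynomial (ι × σ) L} {n : ι → ℕ}
    (hp : ∀ d ∈ p.support, ∀ j, ∑ a, d (j, a) = n j) (k : ℕ) :
    l1 v ((Dz (emb i z))^[k] p) ≤ r ^ k * (n i).descFactorial k * l1 v p := by
  induction k with
  | zero => simp
  | succ k ih =>
    rw [Function.iterate_succ_apply']
    refine (l1_Dz v hr hz (n := n i - k) fun d hd => ?_).trans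
      ((mul_le_mul_of_nonneg_left ih (by positivity)).trans (le_of_eq ?_))
    · have := deg_it hp k d hd i
      rw [Pi.single_eq_same] at this
      omega
    · rw [Nat.descFactorial_succ]
      push_cast
      ring

end D4C.T25
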