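import Pool.Agent.Lib.D4C.T25B
import Pool.Agent.Lib.D4C.T25C
import Pool.Agent.Lib.GEL51.Gelfond

/-! Heights of forms that are invariant under subspaces. -/

namespace D4C.T25

open Finset MvPolynomial Module NumberField

variable {ι σ L : Type} [Field L] [NumberField L] [Fintype ι] [DecidableEq ι] [Fintype σ]
  [DecidableEq σ]

omit [Fintype ι] in
theorem ne_top_of {i : ι} {T : Submodule L (σ → L)} {Ψ : MvPolynomial (ι × σ) L} (h0 : Ψ ≠ 0)
    {n : ℕ} (hn : n ≠ 0) (hd : ∀ d ∈ Ψ.support, ∑ a, d (i, a) = n)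
    (hT : ∀ t ∈ T, Dz (emb i t) Ψ = 0) : T ≠ ⊤ := by
  rintro rfl
  obtain ⟨d, h1⟩ := support_nonempty.2 h0
  obtain ⟨a, -, ha⟩ := exists_ne_zero_of_sum_ne_zero ((hd d h1).trans_ne hn)
  have h2 := hT (Pi.single a 1) trivial
  rw [Dz_emb, sum_eq_single a (fun b _ hb => by simp [hb]) (by simp), Pi.single_eq_same,
    one_smul] at h2
  have h3 := coeff_pderiv (i := (i, a)) Ψ (d - Finsupp.single (i, a) 1)
  rw [h2, coeff_zero, tsub_add_cancel_of_le
    (Finsupp.single_le_iff.2 (Nat.one_le_iff_ne_zero.2 ha))] at h3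
  exact mul_ne_zero (mem_support_iff.1 h1) (Nat.cast_add_one_ne_zero _) h3.symm

omit [Fintype ι] [DecidableEq σ] in
theorem step {i : ι} {T : Submodule L (σ → L)} {Ψ : MvPolynomial (ι × σ) L} (h0 : Ψ ≠ 0)
    {p : ι → ℕ} (hd : ∀ d ∈ Ψ.support, ∀ j, ∑ a, d (j, a) = p j)
    (hT : ∀ t ∈ T, Dz (emb i t) Ψ = 0) {M : ℕ} (hM : 1 ≤ M) {z : σ → L}
    (z1 : ∀ a, IsIntegral ℤ (z a))
    (z2 : ∀ w : InfinitePlace L, ∃ z' : σ → L, z - z' ∈ T ∧ ∀ a, M * w (z' a) ≤ 1) :
    ∃ (Φ : MvPolynomial (ι × σ) L) (k : ℕ) (q : ι → ℕ), Φ ≠ 0 ∧ p = q + Pi.single i k ∧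
      (∀ d ∈ Φ.support, ∀ j, ∑ a, d (j, a) = q j) ∧ Dz (emb i z) Φ = 0 ∧
      (∀ u, Dz u Ψ = 0 → Dz u Φ = 0) ∧
      (∀ (v : FinitePlace L) e, ∃ d, v (coeff e Φ) ≤ v (coeff d Ψ)) ∧
      ∀ w : InfinitePlace L, l1 w.1 Φ * M ^ k ≤ 2 ^ p i * l1 w.1 Ψ := by
  classical
  have hex : ∃ k, (Dz (emb i z))^[k + 1] Ψ = 0 := ⟨p i, by
    by_contra h
    obtain ⟨e, he⟩ := support_nonempty.2 h
    have := deg_it hd _ e he i
    rw [Pi.single_eq_same] at this
    omega⟩
  obtain ⟨k, k1, k2⟩ : ∃ k, (Dz (emb i z))^[k + 1] Ψ = 0 ∧ (Dz (emb i z))^[k] Ψ ≠ 0 := by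
    refine ⟨Nat.find hex, Nat.find_spec hex, ?_⟩
    rcases h : Nat.find hex with _ | k
    · rwa [Function.iterate_zero_apply]
    · exact Nat.find_min hex (by omega)
  have hf : (k.factorial : L) ≠ 0 := Nat.cast_ne_zero.2 k.factorial_ne_zero
  have ht := taylor (emb i z) k Ψ
  set Φ := (Sh (emb i z) Ψ).coeff k with hΦ
  have hs : Φ.support = ((Dz (emb i z))^[k] Ψ).support := by
    rw [← ht, support_smul_eq hf]
  have hz : ∀ u, Dz u ((Dz (emb i z))^[k] Ψ) = 0 → Dz u Φ = 0 := fun u h => by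
    rw [← ht, Derivation.map_smul] at h
    exact (smul_eq_zero.1 h).resolve_left hf
  obtain ⟨e, he⟩ := support_nonempty.2 k2
  refine ⟨Φ, k, fun j => ∑ a, e (j, a), fun h => k2 (by rw [← ht, h, smul_zero]),
    funext fun j => (deg_it hd k e he j).symm, fun d h j => ?_,
    hz _ (by rwa [Function.iterate_succ_apply'] at k1), fun u h => hz u (it_inv h _ k),
    fun v e => Sh_nonarch v.1 (FinitePlace.add_le v) (fun x hx => fin_le_one v hx) (fun x => ?_)
      h0 k e, fun w => ?_⟩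
  · exact add_right_cancel ((deg_it hd k d (hs ▸ h) j).trans (deg_it hd k e he j).symm)
  · unfold emb
    split_ifs
    · exact z1 _
    · exact isIntegral_zero
  · obtain ⟨z', a1, a2⟩ := z2 w
    have hM' : (0 : ℝ) < M := by exact_mod_cast hM
    have b1 : (Dz (emb i z))^[k] Ψ = (Dz (emb i z'))^[k] Ψ := by
      rw [← it_congr (u := emb i z') (hT _ a1), ← emb_add, add_sub_cancel]
    have b2 := l1_it w.1 (i := i) (z := z') (r := (M : ℝ)⁻¹) (by positivity)
      (fun a => by rw [← mul_one (M : ℝ)⁻¹, le_inv_mul_iff₀ hM']; exact a2 a) hd k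
    have b3 : l1 w.1 ((Dz (emb i z))^[k] Ψ) = k.factorial * l1 w.1 Φ := by
      rw [l1, l1, hs, mul_sum]
      refine sum_congr rfl fun d _ => ?_
      rw [← ht, coeff_smul, smul_eq_mul, map_mul]
      congr 1
      exact w.map_natCast _
    have b4 : ((p i).choose k : ℝ) ≤ 2 ^ p i := by exact_mod_cast Nat.choose_le_two_pow _ _
    have b5 : 0 ≤ l1 w.1 Ψ := sum_nonneg fun _ _ => w.1.nonneg _
    have b6 : (0 : ℝ) < k.factorial := by exact_mod_cast k.factorial_pos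
    rw [← b1, b3, Nat.descFactorial_eq_factorial_mul_choose, Nat.cast_mul, inv_pow, mul_assoc,
      le_inv_mul_iff₀ (pow_pos hM' k), mul_left_comm, mul_assoc] at b2
    rw [mul_comm]
    exact (le_of_mul_le_mul_left b2 b6).trans (mul_le_mul_of_nonneg_right b4 b5)

theorem core (M : ι → ℕ) (hM : ∀ i, 1 ≤ M i) (good : ι → Submodule L (σ → L) → Prop)
    (hg : ∀ i T T', T ≤ T' → good i T → good i T')
    (hz : ∀ i T, T ≠ ⊤ → good i T → ∃ z : σ → L, (∀ a, IsIntegral ℤ (z a)) ∧ z ∉ T ∧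
      ∀ w : InfinitePlace L, ∃ z' : σ → L, z - z' ∈ T ∧ ∀ a, M i * w (z' a) ≤ 1) (K : ℕ) :
    ∀ (κ : ι → ℕ) (T : ι → Submodule L (σ → L)) (p : ι → ℕ) (Ψ : MvPolynomial (ι × σ) L),
      ∑ i, κ i = K → (∀ i, Fintype.card σ ≤ finrank L (T i) + κ i) → (∀ i, good i (T i)) →
      Ψ ≠ 0 → (∀ d ∈ Ψ.support, ∀ j, ∑ a, d (j, a) = p j) →
      (∀ i, ∀ t ∈ T i, Dz (emb i t) Ψ = 0) →
      ∃ c : L, c ≠ 0 ∧ (∀ v : FinitePlace L, ∃ d, v c ≤ v (coeff d Ψ)) ∧
        ∀ w : InfinitePlace L, w c * ∏ i, (M i : ℝ) ^ p i ≤ 2 ^ (∑ i, p i * κ i) * l1 w.1 Ψ := by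
  induction K using Nat.strong_induction_on with
  | _ K ih =>
  intro κ T p Ψ hK hκ hgood h0 hd hT
  by_cases hp : ∀ i, p i = 0
  · obtain ⟨d, h1⟩ := support_nonempty.2 h0
    refine ⟨coeff d Ψ, mem_support_iff.1 h1, fun v => ⟨d, le_rfl⟩, fun w => ?_⟩
    simp only [hp, pow_zero, prod_const_one, mul_one, zero_mul, sum_const_zero, one_mul]
    exact single_le_sum (f := fun d => w.1 (coeff d Ψ)) (fun _ _ => w.1.nonneg _) h1
  push Not at hp
  obtain ⟨i, hi⟩ := hp
  have hne := ne_top_of h0 hi (fun d h => hd d h i) (hT i)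
  obtain ⟨z, z1, z2, z3⟩ := hz i _ hne (hgood i)
  obtain ⟨Φ, k, q, f0, f1, f2, f3, f4, f5, f6⟩ := step h0 hd (hT i) (hM i) z1 z3
  have hlt : finrank L (T i) < Fintype.card σ := by
    simpa using Submodule.finrank_lt hne
  obtain ⟨κ', rfl⟩ : ∃ κ', κ = κ' + Pi.single i 1 := ⟨κ - Pi.single i 1, funext fun j => by
    have := hκ i
    by_cases h : j = i
    · subst h
      simp only [Pi.add_apply, Pi.sub_apply, Pi.single_eq_same]
      omega
    · simp [h]⟩
  have hT' : ∀ j, T j ≤ Function.update T i (T i ⊔ Submodule.span L {z}) j := fun j => by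
    by_cases h : j = i
    · rw [h, Function.update_self]
      exact le_sup_left
    · rw [Function.update_of_ne h]
  obtain ⟨c, c0, c1, c2⟩ := ih (∑ j, κ' j) (by
      rw [← hK]
      simp [sum_add_distrib]) κ' (Function.update T i (T i ⊔ Submodule.span L {z})) q Φ rfl
    (fun j => by
      have := hκ j
      by_cases h : j = i
      · subst h
        have h1 : finrank L (T j) < finrank L (T j ⊔ Submodule.span L {z} : Submodule L _) :=
          Submodule.finrank_lt_finrank_of_lt (lt_of_le_of_ne le_sup_left fun e => z2 (by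
            rw [e]
            exact Submodule.mem_sup_right (Submodule.mem_span_singleton_self z)))
        rw [Function.update_self]
        simp only [Pi.add_apply, Pi.single_eq_same] at this
        omega
      · rw [Function.update_of_ne h]
        simpa [h] using this)
    (fun j => hg j _ _ (hT' j) (hgood j)) f0 f2 (fun j t ht => by
      by_cases h : j = i
      · subst h
        rw [Function.update_self] at ht
        obtain ⟨t0, a1, t1, a2, rfl⟩ := Submodule.mem_sup.1 ht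
        obtain ⟨b, rfl⟩ := Submodule.mem_span_singleton.1 a2
        rw [emb_add, emb_smul, Dz_add, Dz_smul, f3, f4 _ (hT j t0 a1), smul_zero, add_zero]
      · rw [Function.update_of_ne h] at ht
        exact f4 _ (hT j t ht))
  refine ⟨c, c0, fun v => ?_, fun w => ?_⟩
  · obtain ⟨e, he⟩ := c1 v
    obtain ⟨d, h⟩ := f5 v e
    exact ⟨d, he.trans h⟩
  have e1 : ∏ j, (M j : ℝ) ^ p j = (∏ j, (M j : ℝ) ^ q j) * M i ^ k := by
    rw [f1]
    simp only [Pi.add_apply, pow_add, prod_mul_distrib]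
    rw [prod_eq_single i (f := fun j => (M j : ℝ) ^ Pi.single (M := fun _ => ℕ) i k j)
      (fun j _ h => by simp [h]) (by simp), Pi.single_eq_same]
  have e2 : ∑ j, q j * κ' j + p i ≤ ∑ j, p j * (κ' + Pi.single i 1 : ι → ℕ) j := by
    simp only [Pi.add_apply, mul_add, sum_add_distrib]
    refine add_le_add (sum_le_sum fun j _ => Nat.mul_le_mul_right _ (by rw [f1]; simp)) ?_
    rw [sum_eq_single i (fun j _ h => by simp [h]) (by simp)]
    simp
  calc _ = w c * (∏ j, (M j : ℝ) ^ q j) * M i ^ k := by rw [e1, mul_assoc]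
    _ ≤ 2 ^ (∑ j, q j * κ' j) * l1 w.1 Φ * M i ^ k :=
        mul_le_mul_of_nonneg_right (c2 w) (by positivity)
    _ ≤ 2 ^ (∑ j, q j * κ' j) * (2 ^ p i * l1 w.1 Ψ) := by
        rw [mul_assoc]
        exact mul_le_mul_of_nonneg_left (f6 w) (by positivity)
    _ ≤ _ := by
        rw [← mul_assoc, ← pow_add]
        exact mul_le_mul_of_nonneg_right (pow_le_pow_right₀ one_le_two e2)
          (sum_nonneg fun _ _ => w.1.nonneg _)

/-- the product formula -/
theorem glob {τ : Type} {Ψ : MvPolynomial τ L} (h0 : Ψ ≠ 0) {c : L} (c0 : c ≠ 0) {A : ℝ}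
    (hA : 0 < A) (c1 : ∀ v : FinitePlace L, ∃ d, v c ≤ v (coeff d Ψ))
    (c2 : ∀ w : InfinitePlace L, w c * A ≤ ⨆ m : Ψ.support, w (coeff m.1 Ψ)) :
    finrank ℚ L * Real.log A ≤ hP Ψ := by
  rw [hP, Height.logHeight_eq_log_mulHeight, ← Real.log_pow]
  refine Real.log_le_log (pow_pos hA _) ?_
  rw [NumberField.mulHeight_eq (GEL51.coe_ne_zero h0), ← mul_one (A ^ _), ← prod_abs_eq_one c0,
    ← mul_assoc, ← InfinitePlace.sum_mult_eq, ← prod_pow_eq_pow_sum, ← prod_mul_distrib]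
  refine mul_le_mul (prod_le_prod (fun w _ => by positivity) fun w _ => ?_) ?_
    (finprod_nonneg fun v => apply_nonneg _ _) (prod_nonneg fun w _ =>
      pow_nonneg (Real.iSup_nonneg fun _ => apply_nonneg _ _) _)
  · rw [← mul_pow, mul_comm]
    exact pow_le_pow_left₀ (by positivity) (c2 w) _
  · refine finprod_le_finprod (FinitePlace.hasFiniteMulSupport c0) (fun v => apply_nonneg _ _)
      (GEL51.finite_iSup (GEL51.coe_ne_zero h0)) fun v => ?_
    obtain ⟨d, hd⟩ := c1 v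
    exact hd.trans (GEL51.le_iSup_coeff Ψ v.1 d)

/-- the lower bound for the height -/
theorem th (L : Type) [Field L] [NumberField L] (σ : Type) [Fintype σ] [DecidableEq σ] :
    ∃ c C : ℝ, 0 < c ∧ 0 ≤ C ∧
    ∀ (ι : Type) [Fintype ι] [DecidableEq ι] (T : ι → Submodule L (σ → L)) (μ : ι → ℝ)
      (p : ι → ℕ) (Ψ : MvPolynomial (ι × σ) L), Ψ ≠ 0 →
      (∀ d ∈ Ψ.support, ∀ i, ∑ a, d (i, a) = p i) →
      (∀ i, ∀ t ∈ T i, ∑ a, t a • pderiv (i, a) Ψ = 0) →
      (∀ i (l : σ → L), l ≠ 0 → (∀ t ∈ T i, ∑ a, l a * t a = 0) → μ i ≤ Height.logHeight l) →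
      ∑ i, p i * (c * μ i - C) ≤ hP Ψ := by
  obtain ⟨c, C, hc, hC, h⟩ := small_vec L σ
  have l2 : 0 ≤ Real.log 2 := Real.log_nonneg one_le_two
  refine ⟨c, C + finrank ℚ L * (2 * Fintype.card σ * Real.log 2), hc, by positivity, ?_⟩
  intro ι _ _ T μ p Ψ h0 hd hT hμ
  choose M m1 m2 m3 using h
  obtain ⟨a, a0, a1, a2⟩ := core (fun i => M (μ i)) (fun i => m1 _)
    (fun i T => ∀ l : σ → L, l ≠ 0 → (∀ t ∈ T, ∑ a, l a * t a = 0) → μ i ≤ Height.logHeight l)
    (fun i T T' hle h l l0 l1 => h l l0 fun t ht => l1 t (hle ht)) (fun i T => m3 _ T) _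
    (fun _ => Fintype.card σ) T p Ψ rfl (fun i => Nat.le_add_left _ _) hμ h0 hd
    fun i t ht => by rw [Dz_emb, hT i t ht]
  set n := ∑ i, p i * Fintype.card σ with hn
  have hM : ∀ i, (0 : ℝ) < M (μ i) := fun i => by exact_mod_cast m1 _
  have hcard : (Ψ.support.card : ℝ) ≤ 2 ^ n := by
    have h1 : ∑ x, degreeOf x Ψ ≤ n := by
      rw [Fintype.sum_prod_type]
      refine sum_le_sum fun i _ => ?_
      rw [mul_comm, ← smul_eq_mul, ← card_univ]
      refine sum_le_card_nsmul _ _ _ fun b _ => degreeOf_le_iff.2 fun d h => ?_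
      rw [← hd d h i]
      exact single_le_sum (f := fun a => d (i, a)) (fun _ _ => Nat.zero_le _) (mem_univ b)
    exact_mod_cast (GEL51.card_support_le Ψ).trans (Nat.pow_le_pow_right two_pos h1)
  refine le_trans ?_ (glob h0 a0 (A := (∏ i, (M (μ i) : ℝ) ^ p i) / (2 ^ n * 2 ^ n))
    (div_pos (prod_pos fun i _ => pow_pos (hM i) _) (by positivity)) a1 fun w => ?_)
  · rw [Real.log_div (prod_pos fun i _ => pow_pos (hM i) _).ne' (by positivity),
      Real.log_prod fun i _ => (pow_pos (hM i) _).ne', ← pow_add, Real.log_pow, hn]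
    push_cast
    rw [← two_mul, mul_sum, sum_mul, ← sum_sub_distrib, mul_sum]
    refine sum_le_sum fun i _ => ?_
    have := mul_le_mul_of_nonneg_left (m2 (μ i)) (Nat.cast_nonneg (α := ℝ) (p i))
    rw [Real.log_pow]
    linarith
  · rw [← mul_div_assoc, div_le_iff₀ (by positivity)]
    refine (a2 w).trans ?_
    have h1 : l1 w.1 Ψ ≤ 2 ^ n * ⨆ m : Ψ.support, w (coeff m.1 Ψ) := by
      refine le_trans ?_ (mul_le_mul_of_nonneg_right hcard
        (Real.iSup_nonneg fun _ => apply_nonneg _ _))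
      rw [l1, ← nsmul_eq_mul]
      exact sum_le_card_nsmul _ _ _ fun d _ => GEL51.le_iSup_coeff Ψ w.1 d
    exact (mul_le_mul_of_nonneg_left h1 (by positivity)).trans (le_of_eq (by ring))

end D4C.T25
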