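import Pool.Agent.Lib.D4C.BlueA
import Pool.Agent.Lib.D4C.T25D

/-! Heights of forms on quotients. -/

namespace D4C

theorem st_TH : St_TH := fun L _ _ g => T25.th L (Fin g)

end D4C
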