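import Pool.Agent.Lib.D4C.BlueE

/-! block TNC (helper6). -/

set_option linter.unusedVariables false

namespace D4C

open MvPolynomial

namespace T6

theorem tn_mono {L κ σ R : Type} [Field L] [Fintype κ] [CommRing R] [Algebra L R]
    (T : κ → (σ →₀ ℕ) → R) (μ : κ × σ →₀ ℕ) (c : L) :
    Tn L T (monomial μ c) = c • ∏ i, T i (μ.curry i) := by
  have h : (monomial μ c : MvPolynomial (κ × σ) L) = c • basisMonomials (κ × σ) L μ := by
    rw [coe_basisMonomials]
    simp [smul_monomial]
  rw [h, map_smul, Tn, Module.Basis.constr_basis]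

end T6

theorem st_TNC (hB : St_BLK) : St_TNC := by
  intro L κ σ ρ _ _ _ _ _ f F J
  induction F using MvPolynomial.induction_on' with
  | monomial μ c =>
    rw [T6.tn_mono, T6.tn_mono, map_smul, (hB κ ρ L).2 (fun i => f i (μ.curry i)) J]
  | add p q hp hq => rw [map_add, map_add, map_add, hp, hq]

end D4C
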