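import Pool.Agent.Lib.D4C.BlueE
import Pool.Agent.Lib.D4C.T1a

namespace D4C

open MvPolynomial

namespace T50

theorem fl_add_fr {α β : Type} (γ : α ⊕ β →₀ ℕ) :
    (fl γ).mapDomain Sum.inl + (fr γ).mapDomain Sum.inr = γ := by
  ext s
  rw [Finsupp.add_apply]
  cases s with
  | inl a =>
    rw [Finsupp.mapDomain_apply Sum.inl_injective, Finsupp.mapDomain_of_notMem_range _ _ (by simp)]
    rfl
  | inr b =>
    rw [Finsupp.mapDomain_apply Sum.inr_injective, Finsupp.mapDomain_of_notMem_range _ _ (by simp),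
      zero_add]
    rfl

theorem weight_bw {σ : Type} [Fintype σ] (γ : σ ⊕ σ →₀ ℕ) :
    Finsupp.weight (bw σ) γ = ((fl γ).degree, (fr γ).degree) := by
  rw [Finsupp.weight_apply, Finsupp.sum_fintype _ _ (by simp), Fintype.sum_sum_type,
    Finsupp.degree_eq_sum, Finsupp.degree_eq_sum]
  ext
  · simp [bw, Prod.fst_sum, fl]
  · simp [bw, Prod.snd_sum, fr]

theorem ln_monomial {L σ R : Type} [Field L] [CommRing R] [Algebra L R] (T : (σ →₀ ℕ) → R)
    (ν : σ →₀ ℕ) : Ln L T (monomial ν 1) = T ν := by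
  have : (monomial ν 1 : MvPolynomial σ L) = basisMonomials σ L ν := by simp
  rw [this, Ln, Module.Basis.constr_basis]

theorem rename_split {L σ τ : Type} [Field L] (f g : σ → τ) (Q : MvPolynomial (σ ⊕ σ) L) :
    rename (Sum.elim f g) Q = ∑ γ ∈ Q.support, coeff γ Q •
      (rename f (monomial (fl γ) (1 : L)) * rename g (monomial (fr γ) (1 : L))) := by
  conv_lhs => rw [Q.as_sum, map_sum]
  refine Finset.sum_congr rfl fun γ _ => ?_
  conv_lhs => rw [← fl_add_fr γ]
  rw [rename_monomial, rename_monomial, rename_monomial, monomial_mul, smul_monomial,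
    Finsupp.mapDomain_add, ← Finsupp.mapDomain_comp, ← Finsupp.mapDomain_comp, fl_add_fr]
  simp

theorem tn_blocks (h : St_TN) {L σ R : Type} [Field L] [Fintype σ] [DecidableEq σ] [CommRing R]
    [Algebra L R] {k : ℕ} (T : Fin (k + 1) → (σ →₀ ℕ) → R) (u : σ → R) (h0 : T 0 = mon u)
    (F : MvPolynomial σ L) (Q : Fin k → MvPolynomial (σ ⊕ σ) L) :
    Tn L T (rename (Prod.mk 0) F *
      ∏ j, rename (Sum.elim (Prod.mk (Fin.succ j)) (Prod.mk 0)) (Q j)) =
      aeval u F * ∏ j, Yv (Q j) (T j.succ) u := by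
  obtain ⟨h1, _, _, h4, _⟩ := h L (Fin (k + 1)) σ R
  simp only [rename_split, Yv]
  rw [Finset.prod_univ_sum, Finset.prod_univ_sum, Finset.mul_sum, Finset.mul_sum, map_sum]
  refine Finset.sum_congr rfl fun p _ => ?_
  have e := h1 T (Fin.cons (F * ∏ j, monomial (fr (p j)) (1 : L))
    fun j => monomial (fl (p j)) (1 : L))
  rw [Fin.prod_univ_succ, Fin.prod_univ_succ] at e
  simp only [Fin.cons_zero, Fin.cons_succ, ln_monomial, map_mul, map_prod] at e
  have hm : ∀ ν, aeval u (monomial ν (1 : L)) = mon u ν := fun ν => by rw [h4, ln_monomial]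
  rw [h0, ← h4] at e
  simp only [map_mul, map_prod, hm] at e
  rw [Finset.prod_smul, Finset.prod_smul, mul_smul_comm, mul_smul_comm, map_smul,
    Finset.prod_mul_distrib, Finset.prod_mul_distrib]
  congr 1
  rw [mul_comm (∏ j, rename (Prod.mk (Fin.succ j)) (monomial (fl (p j)) (1 : L))), ← mul_assoc, e]
  ring

end T50

theorem st_TNG (h : St_TN) : St_TNG := by
  intro L σ R _ _ _ _ _ B g C k T0 d Λ α
  refine ⟨T1.mh_GU C T0 d Λ α, fun a n α' γ hγ => ?_, fun T t u hT => ?_⟩
  · have h1 : ∀ s, (ev2 (B.A a) (fun s => (X (Sum.inl s) : MvPolynomial (σ ⊕ σ) L))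
        (fun s => X (Sum.inr (B.π s))) s).IsWeightedHomogeneous (bw σ) (B.β, B.β) := by
      intro s
      exact T1.wh_aeval (w := bw σ) (AddMonoidHom.id _) (B.A_hom a s)
        (x := Sum.elim (fun s => X (Sum.inl s)) fun s => X (Sum.inr (B.π s))) (fun r => by
          cases r with
          | inl r => exact isWeightedHomogeneous_X L (bw σ) (Sum.inl r)
          | inr r => exact isWeightedHomogeneous_X L (bw σ) (Sum.inr (B.π r)))
    have h2 := T1.wh_aeval (w := bw σ) (multiplesHom _ (B.β, B.β)) (T1.om_hom C n α')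
      (x := ev2 (B.A a) (fun s => (X (Sum.inl s) : MvPolynomial (σ ⊕ σ) L))
        (fun s => X (Sum.inr (B.π s)))) (fun s => by simpa using h1 s)
    have h3 := h2 (mem_support_iff.1 hγ)
    rw [T50.weight_bw] at h3
    simp only [multiplesHom_apply, Prod.smul_mk, smul_eq_mul, Prod.mk.injEq] at h3
    exact ⟨by rw [h3.1, mul_comm], by rw [h3.2, mul_comm]⟩
  · obtain ⟨_, _, _, _, _, h6, _⟩ := h L (Fin (k + 1)) σ R
    have e1 := h6 T (Function.update T 0 (mon u)) (Fin.cons t fun _ => 1) _ _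
      (T1.mh_GU C T0 d Λ α) (fun i => by
        refine Fin.cases (fun γ hγ => ?_) (fun j γ _ => ?_) i
        · simpa using hT γ hγ
        · simp)
    rw [e1, Fin.prod_univ_succ]
    simp only [Fin.cons_zero, Fin.cons_succ, Finset.prod_const_one, mul_one]
    have e2 : GU C T0 d Λ α = rename (Prod.mk 0) (om C (dd T0 d 0) (α 0)) *
        ∏ j : Fin k, rename (Sum.elim (Prod.mk (Fin.succ j)) (Prod.mk 0))
          (lawQ C (Λ j.succ) (dd T0 d j.succ) (α j.succ)) := by
      unfold GU
      rw [Fin.prod_univ_succ]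
      congr 1
      · rw [rename_eq_aeval]
        simp only [Wv, if_true]
        rfl
      · refine Finset.prod_congr rfl fun j _ => ?_
        unfold lawQ
        rw [← aeval_map_alg, ← ev2_map]
        simp [Wv]
    rw [e2, T50.tn_blocks h _ u (Function.update_self _ _ _), mul_assoc]
    congr 2
    rw [show (Finset.univ.erase (0 : Fin (k + 1))) = Finset.univ.map (Fin.succEmb k) by
      ext i
      refine Fin.cases ?_ (fun j => ?_) i <;> simp, Finset.prod_map]
    refine Finset.prod_congr rfl fun j _ => ?_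
    simp

end D4C
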