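import Pool.Agent.Lib.D4C.T25D

/-! Height of the top coefficient of a translate. -/

namespace D4C.T25

open Finset MvPolynomial Module NumberField

section adelic

variable {L : Type} [Field L] [NumberField L]

/-- the product of `F` over all places is `x` -/
def Has (F : AbsoluteValue L ℝ → ℝ) (x : ℝ) : Prop :=
  (∀ v, 0 ≤ F v) ∧ (fun v : FinitePlace L => F v.1).HasFiniteMulSupport ∧
    x = (∏ w : InfinitePlace L, F w.1 ^ w.mult) * ∏ᶠ v : FinitePlace L, F v.1

theorem has_one : Has (fun _ : AbsoluteValue L ℝ => 1) 1 :=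
  ⟨fun _ => zero_le_one, by simp [Function.HasFiniteMulSupport], by simp⟩

theorem Has.mul {F G : AbsoluteValue L ℝ → ℝ} {x y : ℝ} (h : Has F x) (h' : Has G y) :
    Has (fun v => F v * G v) (x * y) := by
  refine ⟨fun v => mul_nonneg (h.1 v) (h'.1 v),
    (h.2.1.union h'.2.1).subset (Function.mulSupport_mul _ _), ?_⟩
  rw [h.2.2, h'.2.2, finprod_mul_distrib h.2.1 h'.2.1]
  simp only [mul_pow, prod_mul_distrib]
  ring

theorem Has.pow {F : AbsoluteValue L ℝ → ℝ} {x : ℝ} (h : Has F x) (k : ℕ) :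
    Has (fun v => F v ^ k) (x ^ k) := by
  induction k with
  | zero => simpa using has_one
  | succ k ih => simpa only [pow_succ] using ih.mul h

theorem has_prod {α : Type} (s : Finset α) {F : α → AbsoluteValue L ℝ → ℝ} {x : α → ℝ}
    (h : ∀ a, Has (F a) (x a)) : Has (fun v => ∏ a ∈ s, F a v) (∏ a ∈ s, x a) := by
  classical
  induction s using Finset.induction_on with
  | empty => simpa using has_one
  | insert a s ha ih => simpa only [prod_insert ha] using (h a).mul ih

theorem has_max (z : L) : Has (fun v => max (v z) 1) (Height.mulHeight₁ z) := by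
  refine ⟨fun v => le_max_of_le_right zero_le_one, ?_, NumberField.mulHeight₁_eq z⟩
  by_cases h : z = 0
  · simp [h, Function.HasFiniteMulSupport]
  · refine (FinitePlace.hasFiniteMulSupport h).subset fun v hv e => hv ?_
    have : v.1 z = 1 := e
    simp [this]

theorem has_sup {τ : Type} {Ψ : MvPolynomial τ L} (h : Ψ ≠ 0) :
    Has (fun v => ⨆ m : Ψ.support, v (coeff m.1 Ψ)) (GEL51.mulH Ψ) :=
  ⟨fun v => Real.iSup_nonneg fun _ => v.nonneg _, GEL51.finite_iSup (GEL51.coe_ne_zero h),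
    NumberField.mulHeight_eq (GEL51.coe_ne_zero h)⟩

theorem Has.le {F G : AbsoluteValue L ℝ → ℝ} {x y N : ℝ} (h : Has F x) (h' : Has G y)
    (hN : 0 ≤ N) (h1 : ∀ w : InfinitePlace L, F w.1 ≤ N * G w.1)
    (h2 : ∀ v : FinitePlace L, F v.1 ≤ G v.1) : x ≤ N ^ finrank ℚ L * y := by
  rw [h.2.2, h'.2.2, ← mul_assoc, ← InfinitePlace.sum_mult_eq, ← prod_pow_eq_pow_sum,
    ← prod_mul_distrib]
  refine mul_le_mul (prod_le_prod (fun w _ => pow_nonneg (h.1 _) _) fun w _ => ?_)
    (finprod_le_finprod h.2.1 (fun v => h.1 _) h'.2.1 h2) (finprod_nonneg fun v => h.1 _)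
    (prod_nonneg fun w _ => mul_nonneg (pow_nonneg hN _) (pow_nonneg (h'.1 _) _))
  rw [← mul_pow]
  exact pow_le_pow_left₀ (h.1 _) (h1 w) _

end adelic

section general

variable {τ L : Type} [Field L]

theorem it_smul (c : L) (u : τ → L) (p : MvPolynomial τ L) (k : ℕ) :
    (Dz (c • u))^[k] p = c ^ k • (Dz u)^[k] p := by
  induction k with
  | zero => rw [Function.iterate_zero_apply, Function.iterate_zero_apply, pow_zero, one_smul]
  | succ k ih => rw [Function.iterate_succ_apply', Function.iterate_succ_apply', ih, Dz_smul,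
      Derivation.map_smul, smul_smul, pow_succ']

theorem Sh_mem (O : Subring L) {u : τ → L} (hu : ∀ x, u x ∈ O) (d : τ →₀ ℕ) (k : ℕ)
    (e : τ →₀ ℕ) : coeff e ((Sh u (monomial d 1)).coeff k) ∈ O := by
  let F : Polynomial (MvPolynomial τ O) →+* Polynomial (MvPolynomial τ L) :=
    Polynomial.mapRingHom (MvPolynomial.map O.subtype)
  have h : Sh u (monomial d 1) ∈ F.rangeS := by
    rw [Sh, aeval_monomial, map_one, one_mul]
    refine Subsemiring.prod_mem _ fun x _ => Subsemiring.pow_mem _ ?_ _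
    exact ⟨Polynomial.C (X x) + Polynomial.C (C ⟨u x, hu x⟩) * Polynomial.X, by
      simp only [F, Polynomial.coe_mapRingHom, Polynomial.map_add, Polynomial.map_mul,
        Polynomial.map_C, Polynomial.map_X, map_X, map_C]
      rfl⟩
  obtain ⟨G, hG⟩ := h
  rw [← hG, Polynomial.coe_mapRingHom, Polynomial.coeff_map, coeff_map]
  exact (coeff e (G.coeff k)).2

theorem Sh_le (v : AbsoluteValue L ℝ) (hv : ∀ x y, v (x + y) ≤ max (v x) (v y))
    {u : τ → L} (hu : ∀ x, v (u x) ≤ 1) (p : MvPolynomial τ L) {B : ℝ} (h0 : 0 ≤ B)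
    (hB : ∀ d, v (coeff d p) ≤ B) (k : ℕ) (e : τ →₀ ℕ) :
    v (coeff e ((Sh u p).coeff k)) ≤ B := by
  classical
  let O : Subring L :=
    { carrier := {x | v x ≤ 1}
      mul_mem' := fun {a b} ha hb => by
        rw [Set.mem_ofPred_eq, map_mul]
        exact mul_le_one₀ ha (v.nonneg _) hb
      one_mem' := (map_one v).le
      add_mem' := fun {a b} ha hb => (hv a b).trans (max_le ha hb)
      zero_mem' := (map_zero v).le.trans zero_le_one
      neg_mem' := fun {a} ha => (v.map_neg a).le.trans ha }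
  have key : ∀ s : Finset (τ →₀ ℕ),
      v (coeff e ((Sh u (∑ a ∈ s, monomial a (coeff a p))).coeff k)) ≤ B := by
    intro s
    induction s using Finset.induction_on with
    | empty => simpa using h0
    | insert a s ha ih =>
      rw [sum_insert ha, map_add, Polynomial.coeff_add, coeff_add]
      refine (hv _ _).trans (max_le ?_ ih)
      rw [← mul_one (coeff a p), ← smul_eq_mul, ← smul_monomial, map_smul, Polynomial.coeff_smul,
        coeff_smul, smul_eq_mul, map_mul]
      exact (mul_le_of_le_one_right (v.nonneg _) (Sh_mem O hu a k e)).trans (hB a)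
  have := key p.support
  rwa [← p.as_sum] at this

theorem Sh_le' [CharZero L] [Finite τ] (v : AbsoluteValue L ℝ)
    (hv : ∀ x y, v (x + y) ≤ max (v x) (v y)) {u : τ → L} {r : ℝ} (h1 : 1 ≤ r)
    (hu : ∀ x, v (u x) ≤ r) (p : MvPolynomial τ L) {B : ℝ} (h0 : 0 ≤ B)
    (hB : ∀ d, v (coeff d p) ≤ B) (k : ℕ) (e : τ →₀ ℕ) :
    v (coeff e ((Sh u p).coeff k)) ≤ r ^ k * B := by
  by_cases h : ∀ x, v (u x) ≤ 1
  · exact (Sh_le v hv h p h0 hB k e).trans (le_mul_of_one_le_left h0 (one_le_pow₀ h1))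
  push Not at h
  obtain ⟨x0, hx0⟩ := h
  have : Nonempty τ := ⟨x0⟩
  obtain ⟨y, hy⟩ := Finite.exists_max fun x => v (u x)
  have hp : 0 < v (u y) := zero_lt_one.trans (hx0.trans_le (hy x0))
  have hn : u y ≠ 0 := v.pos_iff.1 hp
  have hf : (k.factorial : L) ≠ 0 := Nat.cast_ne_zero.2 k.factorial_ne_zero
  have e1 : (Sh u p).coeff k = u y ^ k • (Sh ((u y)⁻¹ • u) p).coeff k := by
    refine smul_right_injective _ hf ?_
    simp only
    rw [smul_comm, taylor, taylor, ← it_smul, smul_inv_smul₀ hn]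
  rw [e1, coeff_smul, smul_eq_mul, map_mul, map_pow]
  refine mul_le_mul (pow_le_pow_left₀ hp.le (hu y) k) (Sh_le v hv (fun x => ?_) p h0 hB k e)
    (v.nonneg _) (by positivity)
  rw [Pi.smul_apply, smul_eq_mul, map_mul, map_inv₀, inv_mul_le_iff₀ hp, mul_one]
  exact hy x

end general

variable {ι σ L : Type} [Field L] [NumberField L] [Fintype ι] [DecidableEq ι] [Fintype σ]

omit [NumberField L] [DecidableEq ι] in
theorem card_supp {Ψ : MvPolynomial (ι × σ) L} {p : ι → ℕ}
    (hd : ∀ d ∈ Ψ.support, ∀ j, ∑ a, d (j, a) = p j) :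
    Ψ.support.card ≤ 2 ^ (Fintype.card σ * ∑ i, p i) := by
  refine (GEL51.card_support_le Ψ).trans (Nat.pow_le_pow_right two_pos ?_)
  rw [Fintype.sum_prod_type, mul_sum]
  refine sum_le_sum fun i _ => ?_
  rw [← smul_eq_mul, ← card_univ]
  refine sum_le_card_nsmul _ _ _ fun b _ => degreeOf_le_iff.2 fun d h => ?_
  rw [← hd d h i]
  exact single_le_sum (f := fun a => d (i, a)) (fun _ _ => Nat.zero_le _) (mem_univ b)

/-- the top coefficient of the translate in the direction `z` of the block `i` -/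
theorem top_step (i : ι) (z : σ → L) {Ψ : MvPolynomial (ι × σ) L} (h0 : Ψ ≠ 0) {p : ι → ℕ}
    (hd : ∀ d ∈ Ψ.support, ∀ j, ∑ a, d (j, a) = p j) :
    ∃ (Φ : MvPolynomial (ι × σ) L) (k : ℕ) (q : ι → ℕ), Φ ≠ 0 ∧ p = q + Pi.single i k ∧
      (∀ d ∈ Φ.support, ∀ j, ∑ a, d (j, a) = q j) ∧ Dz (emb i z) Φ = 0 ∧
      (∀ u, Dz u Ψ = 0 → Dz u Φ = 0) ∧ (k.factorial : L) • Φ = (Dz (emb i z))^[k] Ψ ∧
      hP Φ ≤ hP Ψ + k * ∑ a, Height.logHeight₁ (z a) +
        finrank ℚ L * ((Fintype.card σ + 1) * (∑ j, p j : ℕ) * Real.log 2) := by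
  classical
  have hex : ∃ k, (Dz (emb i z))^[k + 1] Ψ = 0 := ⟨p i, by
    by_contra h
    obtain ⟨e, he⟩ := support_nonempty.2 h
    have := deg_it hd _ e he i
    rw [Pi.single_eq_same] at this
    omega⟩
  obtain ⟨k, k1, k2⟩ : ∃ k, (Dz (emb i z))^[k + 1] Ψ = 0 ∧ (Dz (emb i z))^[k] Ψ ≠ 0 := by
    refine ⟨Nat.find hex, Nat.find_spec hex, ?_⟩
    rcases h : Nat.find hex with _ | k
    · rwa [Function.iterate_zero_apply]
    · exact Nat.find_min hex (by omega)
  have hf : (k.factorial : L) ≠ 0 := Nat.cast_ne_zero.2 k.factorial_ne_zero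
  have ht := taylor (emb i z) k Ψ
  set Φ := (Sh (emb i z) Ψ).coeff k with hΦ
  have hs : Φ.support = ((Dz (emb i z))^[k] Ψ).support := by
    rw [← ht, support_smul_eq hf]
  have hz : ∀ u, Dz u ((Dz (emb i z))^[k] Ψ) = 0 → Dz u Φ = 0 := fun u h => by
    rw [← ht, Derivation.map_smul] at h
    exact (smul_eq_zero.1 h).resolve_left hf
  have f0 : Φ ≠ 0 := fun h => k2 (by rw [← ht, h, smul_zero])
  obtain ⟨e, he⟩ := support_nonempty.2 k2
  refine ⟨Φ, k, fun j => ∑ a, e (j, a), f0, funext fun j => (deg_it hd k e he j).symm,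
    fun d h j => add_right_cancel ((deg_it hd k d (hs ▸ h) j).trans (deg_it hd k e he j).symm),
    hz _ (by rwa [Function.iterate_succ_apply'] at k1), fun u h => hz u (it_inv h _ k), ht, ?_⟩
  have r1 : ∀ v : AbsoluteValue L ℝ, 1 ≤ ∏ a, max (v (z a)) 1 :=
    fun v => one_le_prod fun a _ => le_max_right _ _
  have r2 : ∀ (v : AbsoluteValue L ℝ) a, v (z a) ≤ ∏ a, max (v (z a)) 1 := fun v a => by
    rw [← mul_prod_erase _ _ (mem_univ a)]
    exact (le_max_left _ _).trans (le_mul_of_one_le_right (le_max_of_le_right zero_le_one)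
      (one_le_prod fun a _ => le_max_right _ _))
  have hne : Nonempty Φ.support := (support_nonempty.2 f0).to_subtype
  have key := (has_sup f0).le (((has_prod univ fun a => has_max (z a)).pow k).mul (has_sup h0))
    (N := 2 ^ ((Fintype.card σ + 1) * ∑ j, p j)) (by positivity) (fun w => ciSup_le fun m => ?_)
    fun v => ciSup_le fun m => Sh_le' v.1 (FinitePlace.add_le v) (r1 v.1) (fun x => ?_) Ψ
      (Real.iSup_nonneg fun _ => v.1.nonneg _) (GEL51.le_iSup_coeff Ψ v.1) k _
  · have a1 : 0 < GEL51.mulH Φ := Height.mulHeight_pos _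
    have a2 : 0 < GEL51.mulH Ψ := Height.mulHeight_pos _
    have a3 : ∀ a, 0 < Height.mulHeight₁ (z a) := fun a => Height.mulHeight₁_pos _
    have a4 : 0 < ∏ a, Height.mulHeight₁ (z a) := prod_pos fun a _ => a3 a
    have := Real.log_le_log a1 key
    rw [Real.log_mul (by positivity) (by positivity), Real.log_mul (by positivity) a2.ne',
      Real.log_pow, Real.log_pow, Real.log_pow, Real.log_prod fun a _ => (a3 a).ne'] at this
    change hP Φ ≤ _ + (k * ∑ a, Height.logHeight₁ (z a) + hP Ψ) at this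
    push_cast at this ⊢
    linarith
  · have b2 := l1_it w.1 (i := i) (zero_le_one.trans (r1 w.1)) (r2 w.1) hd k
    have b3 : l1 w.1 ((Dz (emb i z))^[k] Ψ) = k.factorial * l1 w.1 Φ := by
      rw [l1, l1, hs, mul_sum]
      refine sum_congr rfl fun d _ => ?_
      rw [← ht, coeff_smul, smul_eq_mul, map_mul]
      congr 1
      exact w.map_natCast _
    have b4 : (p i).choose k * Ψ.support.card ≤ 2 ^ ((Fintype.card σ + 1) * ∑ j, p j) := by
      rw [add_mul, one_mul, pow_add, mul_comm]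
      exact Nat.mul_le_mul (card_supp hd) ((Nat.choose_le_two_pow _ _).trans
        (Nat.pow_le_pow_right two_pos (single_le_sum (fun _ _ => Nat.zero_le _) (mem_univ i))))
    have b5 : l1 w.1 Ψ ≤ Ψ.support.card * ⨆ m : Ψ.support, w.1 (coeff m.1 Ψ) := by
      rw [l1, ← nsmul_eq_mul]
      exact sum_le_card_nsmul _ _ _ fun d _ => GEL51.le_iSup_coeff Ψ w.1 d
    have b6 : (0 : ℝ) < k.factorial := by exact_mod_cast k.factorial_pos
    rw [b3, Nat.descFactorial_eq_factorial_mul_choose, Nat.cast_mul, mul_left_comm,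
      mul_assoc] at b2
    have b7 : 0 ≤ (∏ a, max (w.1 (z a)) 1) ^ k := pow_nonneg (zero_le_one.trans (r1 w.1)) k
    calc _ ≤ l1 w.1 Φ := single_le_sum (f := fun d => w.1 (coeff d Φ))
          (fun _ _ => w.1.nonneg _) m.2
      _ ≤ _ := le_of_mul_le_mul_left b2 b6
      _ ≤ (∏ a, max (w.1 (z a)) 1) ^ k * (p i).choose k *
          (Ψ.support.card * ⨆ m : Ψ.support, w.1 (coeff m.1 Ψ)) :=
          mul_le_mul_of_nonneg_left b5 (by positivity)
      _ = ((p i).choose k * Ψ.support.card : ℕ) *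
          ((∏ a, max (w.1 (z a)) 1) ^ k * ⨆ m : Ψ.support, w.1 (coeff m.1 Ψ)) := by
          push_cast
          ring
      _ ≤ _ := mul_le_mul_of_nonneg_right (by exact_mod_cast b4)
          (mul_nonneg b7 (Real.iSup_nonneg fun _ => w.1.nonneg _))
  · unfold emb
    split_ifs
    · exact r2 _ _
    · rw [map_zero]
      exact zero_le_one.trans (r1 _)

end D4C.T25
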