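import Pool.Agent.Lib.D4C.BlueA
import Pool.Agent.Lib.D4C.T25E

/-! Lower bound for the height of the lowest form. -/

namespace D4C

open Finset MvPolynomial Module

namespace T25

variable {κ ρ ρ' α β L : Type} [Field L]

theorem comb_inl (q : κ × α →₀ ℕ) (J : κ × β →₀ ℕ) (i : κ) (a : α) :
    comb q J (i, Sum.inl a) = q (i, a) := by
  rw [comb, Finsupp.add_apply, Finsupp.mapDomain_of_notMem_range J _ (by simp), add_zero]
  exact Finsupp.mapDomain_apply (f := fun x : κ × α => ((x.1, Sum.inl x.2) : κ × (α ⊕ β)))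
    (fun x y h => Prod.ext (Prod.mk.inj h).1 (Sum.inl.inj (Prod.mk.inj h).2)) q (i, a)

theorem comb_inr (q : κ × α →₀ ℕ) (J : κ × β →₀ ℕ) (i : κ) (b : β) :
    comb q J (i, Sum.inr b) = J (i, b) := by
  rw [comb, Finsupp.add_apply, Finsupp.mapDomain_of_notMem_range q _ (by simp), zero_add]
  exact Finsupp.mapDomain_apply (f := fun x : κ × β => ((x.1, Sum.inr x.2) : κ × (α ⊕ β)))
    (fun x y h => Prod.ext (Prod.mk.inj h).1 (Sum.inr.inj (Prod.mk.inj h).2)) J (i, b)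

theorem comb_add (q : κ × α →₀ ℕ) (J : κ × β →₀ ℕ) (i : κ) (a : α) :
    comb q J + Finsupp.single (i, Sum.inl a) 1 = comb (q + Finsupp.single (i, a) 1) J := by
  rw [comb, comb, Finsupp.mapDomain_add, Finsupp.mapDomain_single, add_right_comm]

theorem wt_sum [Fintype κ] [Fintype ρ] (w : κ → ℕ) (d : κ × ρ →₀ ℕ) :
    wt w d = ∑ i, w i * ∑ a, d (i, a) := by
  rw [wt, Finsupp.weight_eq_sum, Fintype.sum_prod_type]
  simp only [smul_eq_mul, mul_sum, mul_comm]

theorem weight_blk [Fintype κ] [DecidableEq κ] [Fintype ρ] (d : κ × ρ →₀ ℕ) (i : κ) :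
    Finsupp.weight (fun x : κ × ρ => (Pi.single x.1 1 : κ → ℕ)) d i = ∑ a, d (i, a) := by
  rw [Finsupp.weight_eq_sum, Fintype.sum_prod_type, Finset.sum_apply, sum_eq_single i]
  · simp
  · intro j _ h
    simp [h.symm]
  · simp

theorem linS_deg [Fintype κ] [DecidableEq κ] [Fintype ρ] [Fintype ρ'] (M : κ → ρ → ρ' → L)
    {F : MvPolynomial (κ × ρ) L} {e : κ × ρ' →₀ ℕ} (he : coeff e (linS M F) ≠ 0) :
    ∃ d ∈ F.support, ∀ i, ∑ a, d (i, a) = ∑ r, e (i, r) := by
  rw [F.as_sum, map_sum, coeff_sum] at he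
  obtain ⟨d, hd, h⟩ := exists_ne_zero_of_sum_ne_zero he
  refine ⟨d, hd, fun i => ?_⟩
  have : (linS M (monomial d (coeff d F))).IsWeightedHomogeneous
      (fun x : κ × ρ' => (Pi.single x.1 1 : κ → ℕ))
      (Finsupp.weight (fun x : κ × ρ => (Pi.single x.1 1 : κ → ℕ)) d) := by
    rw [linS, aeval_monomial, Finsupp.weight_apply]
    refine IsWeightedHomogeneous.C_mul (IsWeightedHomogeneous.prod _ _ _ fun x _ => ?_) _
    exact (IsWeightedHomogeneous.sum _ _ _ fun r _ =>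
      (isWeightedHomogeneous_X L _ (x.1, r)).C_mul _).pow _
  rw [← weight_blk, ← weight_blk, this h]

theorem linS_ne [Fintype ρ] [Fintype ρ'] {M : κ → ρ → ρ' → L}
    (h : ∀ i, LinearIndependent L (M i)) {Ψ : MvPolynomial (κ × ρ) L} (h0 : Ψ ≠ 0) :
    linS M Ψ ≠ 0 := by
  classical
  have hN : ∀ i, ∃ N : ρ' → ρ → L, ∀ b, ∑ r, M i b r • N r = Pi.single b 1 := fun i => by
    obtain ⟨f, hf⟩ := LinearMap.exists_leftInverse_of_injective
      (Fintype.linearCombination L (M i))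
      (LinearMap.ker_eq_bot.2 (linearIndependent_iff_injective_fintypeLinearCombination.1 (h i)))
    refine ⟨fun r => f (Pi.single r 1), fun b => ?_⟩
    have := LinearMap.congr_fun hf (Pi.single b 1)
    rw [LinearMap.comp_apply, Fintype.linearCombination_apply_single, one_smul,
      pi_eq_sum_univ' (M i b), map_sum] at this
    simpa using this
  choose N hN using hN
  have : (linS N).comp (linS M) = AlgHom.id L _ := algHom_ext fun x => by
    simp only [linS, AlgHom.comp_apply, aeval_X, map_sum, map_mul, aeval_C, algebraMap_eq,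
      AlgHom.id_apply]
    simp only [mul_sum, ← mul_assoc, ← C_mul]
    rw [sum_comm, sum_eq_single x.2]
    · rw [← sum_mul, ← map_sum, show ∑ r, M x.1 x.2 r * N x.1 r x.2 = 1 by
        simpa using congrFun (hN x.1 x.2) x.2, map_one, one_mul]
    · intro b _ hb
      rw [← sum_mul, ← map_sum, show ∑ r, M x.1 x.2 r * N x.1 r b = 0 by
        simpa [hb] using congrFun (hN x.1 x.2) b, map_zero, zero_mul]
    · simp
  intro e
  have h1 := AlgHom.congr_fun this Ψ
  rw [AlgHom.comp_apply, e, map_zero] at h1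
  exact h0 h1.symm

theorem linS_Dz [DecidableEq κ] [Fintype ρ'] (M : κ → ρ → ρ' → L) (i : κ) (r : ρ')
    (F : MvPolynomial (κ × ρ) L) :
    linS M (Dz (emb i fun b => M i b r) F) = pderiv (i, r) (linS M F) := by
  classical
  have hX : ∀ x : κ × ρ, pderiv (i, r) (linS M (X x)) = C (emb i (fun b => M i b r) x) := by
    intro x
    rw [linS, aeval_X, map_sum]
    simp only [pderiv_C_mul, pderiv_X, Pi.single_apply, Prod.mk.injEq, emb]
    by_cases h : x.1 = i
    · simp [h]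
    · simp [h]
  have hC : ∀ c : L, linS M (C c) = C c := fun c => by rw [linS, aeval_C, algebraMap_eq]
  induction F using MvPolynomial.induction_on with
  | C c => rw [Dz_C, map_zero, hC, pderiv_C]
  | add p q hp hq => simp only [map_add, hp, hq]
  | mul_X p x hp => rw [Dz_mul_X, map_add, map_mul, map_mul, map_mul, hp, hC, pderiv_mul, hX,
      add_comm, mul_comm (linS M (X x))]

/-- large normal order -/
def Ord [Fintype (α ⊕ β)] (w : κ → ℕ) (M : κ → ρ → α ⊕ β → L) (ν0 : ℕ)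
    (F : MvPolynomial (κ × ρ) L) : Prop :=
  ∀ q J, coeff (comb q J) (linS M F) ≠ 0 → ν0 ≤ wt w J

section ord
variable [Fintype α] [Fintype β] [DecidableEq κ] {w : κ → ℕ} {M : κ → ρ → α ⊕ β → L} {ν0 : ℕ}

omit [DecidableEq κ] in
theorem Ord.of_smul {F : MvPolynomial (κ × ρ) L} {c : L} (hc : c ≠ 0) (h : Ord w M ν0 (c • F)) :
    Ord w M ν0 F := fun q J e => h q J (by
  rw [map_smul, coeff_smul, smul_eq_mul]
  exact mul_ne_zero hc e)

theorem Ord.it {F : MvPolynomial (κ × ρ) L} (h : Ord w M ν0 F) {i : κ} {a : α} {c : L}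
    (hc : c ≠ 0) {z : ρ → L} (hz : ∀ b, M i b (Sum.inl a) = c * z b) (k : ℕ) :
    Ord w M ν0 ((Dz (emb i z))^[k] F) := by
  induction k with
  | zero => rwa [Function.iterate_zero_apply]
  | succ k ih =>
    refine Ord.of_smul hc fun q J e => ih (q + Finsupp.single (i, a) 1) J fun e' => e ?_
    rw [Function.iterate_succ_apply', ← Dz_smul, ← emb_smul,
      show c • z = fun b => M i b (Sum.inl a) from funext fun b => (hz b).symm, linS_Dz,
      coeff_pderiv, comb_add, e', zero_mul]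

variable [Fintype κ] [Fintype ρ]

theorem Ord.le {F : MvPolynomial (κ × ρ) L} (h : Ord w M ν0 F) (h0 : linS M F ≠ 0) {q : κ → ℕ}
    (hd : ∀ d ∈ F.support, ∀ i, ∑ a, d (i, a) = q i) : ν0 ≤ ∑ i, w i * q i := by
  obtain ⟨e, he⟩ := support_nonempty.2 h0
  obtain ⟨d, d1, d2⟩ := linS_deg M (mem_support_iff.1 he)
  have e1 : e = comb (Finsupp.equivFunOnFinite.symm fun x => e (x.1, Sum.inl x.2))
      (Finsupp.equivFunOnFinite.symm fun x => e (x.1, Sum.inr x.2)) := by
    ext ⟨i, a | b⟩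
    · rw [comb_inl]
      rfl
    · rw [comb_inr]
      rfl
  refine (h _ _ (e1 ▸ mem_support_iff.1 he)).trans ?_
  rw [wt_sum]
  refine sum_le_sum fun i _ => Nat.mul_le_mul_left _ ?_
  rw [← hd d d1 i, d2 i, Fintype.sum_sum_type]
  exact Nat.le_add_left _ _

theorem comp_ex [NumberField L] {Ψ : MvPolynomial (κ × ρ) L} (h0 : Ψ ≠ 0) (h : Ord w M ν0 Ψ) :
    ∃ (Φ : MvPolynomial (κ × ρ) L) (d0 : κ × ρ →₀ ℕ), d0 ∈ Ψ.support ∧ Φ ≠ 0 ∧
      (∀ d ∈ Φ.support, ∀ i, ∑ a, d (i, a) = ∑ a, d0 (i, a)) ∧ Ord w M ν0 Φ ∧ hP Φ ≤ hP Ψ := by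
  classical
  obtain ⟨d0, h1⟩ := support_nonempty.2 h0
  set W : κ × ρ → κ → ℕ := fun x => Pi.single x.1 1 with hW
  set Φ := weightedHomogeneousComponent W (Finsupp.weight W d0) Ψ with hΦ
  have hc : ∀ d, coeff d Φ = if Finsupp.weight W d = Finsupp.weight W d0 then coeff d Ψ else 0 :=
    fun d => coeff_weightedHomogeneousComponent _ _ d
  have hs : ∀ d ∈ Φ.support, Finsupp.weight W d = Finsupp.weight W d0 ∧ coeff d Φ = coeff d Ψ :=
    fun d hd => by
      have := mem_support_iff.1 hd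
      rw [hc] at this ⊢
      split_ifs at this ⊢ with e
      · exact ⟨e, rfl⟩
      · exact absurd rfl this
  have hd : ∀ d ∈ Φ.support, ∀ i, ∑ a, d (i, a) = ∑ a, d0 (i, a) := fun d hd i => by
    rw [← weight_blk, ← weight_blk, (hs d hd).1]
  refine ⟨Φ, d0, h1, fun e => mem_support_iff.1 h1 ?_, hd, fun q J e => h q J fun e' => ?_, ?_⟩
  · have := hc d0
    rw [e, if_pos rfl, coeff_zero] at this
    exact this.symm
  · obtain ⟨d, d1, d2⟩ := linS_deg M e
    obtain ⟨d', d3, d4⟩ := linS_deg M (F := Ψ - Φ) (e := comb q J) (by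
      rw [map_sub, coeff_sub, e', zero_sub]
      exact neg_ne_zero.2 e)
    refine mem_support_iff.1 d3 ?_
    rw [coeff_sub, hc, if_pos, sub_self]
    funext i
    rw [weight_blk, weight_blk, d4, ← d2, hd d d1]
  · have := Height.logHeight_comp_le (fun m : Φ.support => (⟨m.1, mem_support_iff.2
      ((hs m.1 m.2).2 ▸ mem_support_iff.1 m.2)⟩ : Ψ.support)) fun m : Ψ.support => coeff m.1 Ψ
    refine le_trans (le_of_eq ?_) this
    exact congrArg Height.logHeight (funext fun m => (hs m.1 m.2).2)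

theorem steps [NumberField L] {T : κ → ρ → α → L} {γ : κ → L} (hγ : ∀ i, γ i ≠ 0)
    (hM : ∀ i b a, M i b (Sum.inl a) = γ i * T i b a) {h : ℝ}
    (hT : ∀ i b a, Height.logHeight₁ (T i b a) ≤ h * w i) {Ψ : MvPolynomial (κ × ρ) L}
    (h0 : Ψ ≠ 0) {p : κ → ℕ} (hd : ∀ d ∈ Ψ.support, ∀ i, ∑ a, d (i, a) = p i)
    (ho : Ord w M ν0 Ψ) (s : Finset (κ × α)) :
    ∃ (Φ : MvPolynomial (κ × ρ) L) (q : κ → ℕ), Φ ≠ 0 ∧ q ≤ p ∧
      (∀ d ∈ Φ.support, ∀ i, ∑ a, d (i, a) = q i) ∧ Ord w M ν0 Φ ∧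
      (∀ x ∈ s, Dz (emb x.1 fun b => T x.1 b x.2) Φ = 0) ∧
      hP Φ ≤ hP Ψ + Fintype.card ρ * h * ((∑ i, w i * p i : ℕ) - (∑ i, w i * q i : ℕ)) +
        s.card * (finrank ℚ L * ((Fintype.card ρ + 1) * (∑ j, p j : ℕ) * Real.log 2)) := by
  classical
  induction s using Finset.induction_on with
  | empty => exact ⟨Ψ, p, h0, le_rfl, hd, ho, by simp, by simp⟩
  | insert x s hx ih =>
    obtain ⟨Φ, q, a1, a2, a3, a4, a5, a6⟩ := ih
    obtain ⟨Φ', k, q', b1, b2, b3, b4, b5, b6, b7⟩ := top_step x.1 (fun b => T x.1 b x.2) a1 a3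
    refine ⟨Φ', q', b1, le_trans (by rw [b2]; exact le_self_add) a2, b3,
      Ord.of_smul (Nat.cast_ne_zero.2 k.factorial_ne_zero)
        (b6 ▸ a4.it (hγ x.1) (fun b => hM x.1 b x.2) k), fun y hy => ?_, ?_⟩
    · rcases mem_insert.1 hy with rfl | hy
      · exact b4
      · exact b5 _ (a5 y hy)
    have e1 : ∑ i, w i * q i = ∑ i, w i * q' i + w x.1 * k := by
      rw [b2]
      simp only [Pi.add_apply, mul_add, sum_add_distrib]
      rw [sum_eq_single x.1 (f := fun i => w i * Pi.single (M := fun _ => ℕ) x.1 k i)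
        (fun j _ h => by simp [h]) (by simp), Pi.single_eq_same]
    have e2 : ∑ b, Height.logHeight₁ (T x.1 b x.2) ≤ Fintype.card ρ * (h * w x.1) := by
      rw [← nsmul_eq_mul, ← card_univ]
      exact sum_le_card_nsmul _ _ _ fun b _ => hT _ _ _
    have e3 : ((∑ j, q j : ℕ) : ℝ) ≤ (∑ j, p j : ℕ) := by
      exact_mod_cast sum_le_sum fun j _ => a2 j
    have e4 := mul_le_mul_of_nonneg_left e2 (Nat.cast_nonneg (α := ℝ) k)
    have e5 : (finrank ℚ L : ℝ) * ((Fintype.card ρ + 1) * (∑ j, q j : ℕ) * Real.log 2)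
        ≤ finrank ℚ L * ((Fintype.card ρ + 1) * (∑ j, p j : ℕ) * Real.log 2) := by
      have := Real.log_nonneg (one_le_two (α := ℝ))
      gcongr
    rw [e1, Nat.cast_add, Nat.cast_mul] at a6
    rw [card_insert_of_notMem hx, Nat.cast_add, Nat.cast_one]
    linarith

end ord

end T25

open T25 in
theorem st_TOP (hTH : St_TH) : St_TOP := by
  intro L _ _ g m c K _
  obtain ⟨c', C, hc, hC, H⟩ := hTH L g
  have l2 := Real.log_nonneg (one_le_two (α := ℝ))
  refine ⟨c', g + C + K * m * (finrank ℚ L * ((g + 1) * Real.log 2)), hc, by positivity, ?_⟩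
  intro w T γ ι Ψ ν ν0 μ h hw hγ hμ hh h0 hν hli ho hT hl
  obtain ⟨Ψ1, d0, a1, a2, a3, a4, a5⟩ := comp_ex (w := w) (ν0 := ν0) h0 ho
  obtain ⟨Φ, q, b1, b2, b3, b4, b5, b6⟩ := steps hγ (fun _ _ _ => rfl) hT a2 a3 a4 univ
  have c1 := b4.le (linS_ne hli b1) b3
  have c2 : ∑ i, w i * ∑ a, d0 (i, a) = ν := (wt_sum w d0).symm.trans (hν d0 a1)
  have c3 : ∑ i, w i * q i ≤ ν :=
    (sum_le_sum fun i _ => Nat.mul_le_mul_left _ (b2 i)).trans c2.le
  have c4 : ∑ i, ∑ a, d0 (i, a) ≤ ν :=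
    (sum_le_sum fun i _ => Nat.le_mul_of_pos_left _ (hw i)).trans c2.le
  have c5 : ∑ i, q i ≤ ν := (sum_le_sum fun i _ => b2 i).trans c4
  refine ⟨c1.trans c3, ?_⟩
  have c6 := H (Fin K) (fun i => Submodule.span L (Set.range fun j b => T i b j))
    (fun i => μ * w i) q Φ b1 b3 (fun i t ht => by
      rw [← Dz_emb]
      induction ht using Submodule.span_induction with
      | mem x hx =>
        obtain ⟨j, rfl⟩ := hx
        exact b5 (i, j) (mem_univ _)
      | zero => rw [← zero_smul L (0 : Fin g → L), emb_smul, Dz_smul, zero_smul]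
      | add x y _ _ hx hy => rw [emb_add, Dz_add, hx, hy, add_zero]
      | smul a x _ hx => rw [emb_smul, Dz_smul, hx, smul_zero])
    fun i l l0 l1 => hl i l l0 fun j => l1 _ (Submodule.subset_span ⟨j, rfl⟩)
  have e1 : ∑ i, (q i : ℝ) * (c' * (μ * w i) - C)
      = c' * μ * (∑ i, w i * q i : ℕ) - C * (∑ i, q i : ℕ) := by
    push_cast
    rw [mul_sum, mul_sum, ← sum_sub_distrib]
    exact sum_congr rfl fun i _ => by ring
  rw [c2, card_univ, Fintype.card_prod, Fintype.card_fin, Fintype.card_fin,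
    Fintype.card_fin] at b6
  have d1 : (ν0 : ℝ) ≤ (∑ i, w i * q i : ℕ) := by exact_mod_cast c1
  have d3 : ((∑ i, w i * q i : ℕ) : ℝ) ≤ ν := by exact_mod_cast c3
  have d4 : ((∑ i, ∑ a, d0 (i, a) : ℕ) : ℝ) ≤ ν := by exact_mod_cast c4
  have d5 : ((∑ i, q i : ℕ) : ℝ) ≤ ν := by exact_mod_cast c5
  rw [e1] at c6
  generalize ((∑ i, w i * q i : ℕ) : ℝ) = x at *
  generalize ((∑ i, ∑ a, d0 (i, a) : ℕ) : ℝ) = y at *
  have f0 : (0 : ℝ) ≤ ν := Nat.cast_nonneg _
  have f1 := mul_le_mul_of_nonneg_left d1 (mul_nonneg hc.le hμ)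
  have f2 := mul_le_mul_of_nonneg_left d5 hC
  have f3 : (g : ℝ) * h * (ν - x) ≤ g * (h * (ν - ν0)) := by
    rw [mul_assoc]
    gcongr
  have f4 : ((K * m : ℕ) : ℝ) * (finrank ℚ L * ((g + 1) * y * Real.log 2))
      ≤ K * m * (finrank ℚ L * ((g + 1) * Real.log 2)) * ν := by
    refine le_trans (le_of_eq (by push_cast; ring)) (mul_le_mul_of_nonneg_left d4
      (by positivity : (0 : ℝ) ≤ K * m * (finrank ℚ L * ((g + 1) * Real.log 2))))
  have f5 : 0 ≤ h * (ν - ν0) := mul_nonneg hh (by linarith)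
  have f6 : (0 : ℝ) ≤ K * m * (finrank ℚ L * ((g + 1) * Real.log 2)) := by positivity
  have f7 := mul_nonneg f6 f5
  have f8 := mul_nonneg hC f5
  have f9 := mul_nonneg (Nat.cast_nonneg (α := ℝ) g) f0
  linarith

end D4C
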