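import Pool.Agent.Lib.D4C.BlueF
import Pool.Agent.Lib.D4C.B_DIM
import Pool.Agent.Lib.D4C.T39a

/-! The number of points killed by a power of two. -/

namespace D4C

open MvPolynomial

namespace T20

/-- in a group where doubling is onto, the points killed by `2 ^ (j + 1)` split -/
theorem ncard_succ {G : Type} [AddCommGroup G] (h : ∀ p : G, ∃ q : G, 2 • q = p) (j : ℕ) :
    {p : G | 2 ^ (j + 1) • p = 0}.ncard =
      {p : G | 2 ^ j • p = 0}.ncard * {p : G | 2 • p = 0}.ncard := by
  choose s hs using h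
  rw [← Set.ncard_prod]
  refine Set.ncard_congr (fun p _ => (2 • p, p - s (2 • p))) ?_ ?_ ?_
  · intro p hp
    refine ⟨?_, ?_⟩
    · show 2 ^ j • 2 • p = 0
      rw [← mul_nsmul', ← pow_succ]
      exact hp
    · show 2 • (p - s (2 • p)) = 0
      rw [smul_sub, hs, sub_self]
  · intro p q _ _ hpq
    have h1 : 2 • p = 2 • q := congrArg Prod.fst hpq
    have h2 : p - s (2 • p) = q - s (2 • q) := congrArg Prod.snd hpq
    rw [h1] at h2
    exact sub_left_injective h2
  · rintro ⟨q, t⟩ ⟨hq, ht⟩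
    have hq' : 2 ^ j • q = 0 := hq
    have ht' : 2 • t = 0 := ht
    have h1 : 2 • (s q + t) = q := by rw [smul_add, hs, ht', add_zero]
    refine ⟨s q + t, ?_, ?_⟩
    · show 2 ^ (j + 1) • (s q + t) = 0
      rw [pow_succ, mul_nsmul', h1, hq']
    · show (2 • (s q + t), s q + t - s (2 • (s q + t))) = (q, t)
      rw [h1, add_sub_cancel_left]

/-- the count for all powers of two -/
theorem ncard_pow {G : Type} [AddCommGroup G] (h : ∀ p : G, ∃ q : G, 2 • q = p) (j : ℕ) :
    {p : G | 2 ^ j • p = 0}.ncard = {p : G | 2 • p = 0}.ncard ^ j := by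
  induction j with
  | zero => simp
  | succ j ih => rw [ncard_succ h, ih, pow_succ]

variable {L σ : Type} [Field L] [Fintype σ] [DecidableEq σ] (B : Pkg L σ)

/-- the dimension does not change under base change -/
theorem isDim_bc {g : ℕ} (hg : B.IsDim g) (Ω : Type) [Field Ω] [Algebra L Ω] :
    (B.bc Ω).IsDim g :=
  ((st_DIM L σ B.I (T39.prime_I B)).2.1 Ω (B.gprime Ω)).trans hg

/-- the points of order two of the base change -/
theorem ncard_bc (Ω : Type) [Field Ω] [Algebra L Ω] :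
    {t : B.Pt Ω | 2 • t = 0}.ncard = {t : (B.bc Ω).Pt Ω | 2 • t = 0}.ncard := by
  have hinj : Function.Injective (B.toBc Ω : B.Pt Ω →+ (B.bc Ω).Pt Ω) :=
    Pkg.transfer_injective _ _ _ _
  refine Set.ncard_congr (fun p _ => B.toBc Ω p) ?_ (fun p q _ _ h => hinj h) ?_
  · intro p hp
    have hp' : 2 • p = 0 := hp
    show 2 • B.toBc Ω p = 0
    rw [← map_nsmul, hp', map_zero]
  · intro q hq
    have hq' : 2 • q = 0 := hq
    obtain ⟨x, hx⟩ := Pkg.exists_rep q
    have h1 : B.toBc Ω (B.ofBc Ω q) = q := (hx.transfer.transfer).eq hx (Par.refl _)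
    refine ⟨B.ofBc Ω q, ?_, h1⟩
    show 2 • B.ofBc Ω q = 0
    rw [← map_nsmul, hq', map_zero]

end T20

theorem st_TORS (hT : St_T2) (hO : St_ONTO) : St_TORS := by
  intro L σ _ _ _ _ B g hg Ω _ _ _
  have : CharZero Ω := charZero_of_injective_algebraMap (algebraMap L Ω).injective
  refine ⟨hO L σ B Ω, fun j => ?_⟩
  rw [T20.ncard_pow (hO L σ B Ω), T20.ncard_bc, hT Ω σ (B.bc Ω) g (T20.isDim_bc B hg Ω), pow_mul]

end D4C
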