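import Pool.Agent.Lib.D4C.BlueU

set_option linter.unusedSectionVars false

namespace D4C

open MvPolynomial

namespace T12

variable {L σ : Type} [Field L] [Fintype σ] [DecidableEq σ] {B : Pkg L σ}
  {R R' : Type} [Field R] [Field R'] [Algebra L R] [Algebra L R']

theorem tr_zr_inj (f : R →ₐ[L] R') {J : Ideal (MvPolynomial σ L)} {u : σ → R}
    (h : Zr J (fun i => f (u i))) : Zr J u := fun F hF => by
  have := h F hF
  rw [aeval_map_alg] at this
  exact (map_eq_zero_iff f f.toRingHom.injective).mp this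

theorem tr_desc (f : R →ₐ[L] R') {p : B.Pt R'} {u : σ → R} (h : B.Rep p (fun i => f (u i))) :
    ∃ q, B.Rep q u ∧ B.map f q = p := by
  have hu : Uni u := by
    obtain ⟨k, hk⟩ := h.uni
    refine ⟨k, isUnit_iff_ne_zero.mpr fun h0 => hk.ne_zero ?_⟩
    simp only [h0, map_zero]
  have hq := Pkg.rep_pt (B := B) u hu (tr_zr_inj f h.zr)
  exact ⟨_, hq, (hq.map f).eq h (Par.refl _)⟩

theorem tr_zr_map (f : R →ₐ[L] R') {J : Ideal (MvPolynomial σ L)} (hJ : IsHom J) {p : B.Pt R}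
    {u : σ → R} {w : σ → R'} (hu : B.Rep p u) (hw : B.Rep (B.map f p) w) (hz : Zr J w) :
    Zr J u := by
  obtain ⟨c, hc⟩ := (hw.par (hu.map f)).exists_smul hw.uni
  apply tr_zr_inj f
  rw [hc]
  exact hz.smul hJ c

theorem tr_norm (p : B.Pt R) : ∃ x k, B.Rep p x ∧ x k = 1 := by
  obtain ⟨x, hx⟩ := Pkg.exists_rep p
  obtain ⟨k, hk⟩ := hx.uni
  refine ⟨(x k)⁻¹ • x, k, hx.smul (isUnit_iff_ne_zero.mpr (inv_ne_zero hk.ne_zero)), ?_⟩
  simp [hk.ne_zero]

theorem tr_aeval_mem {τ : Type} (A : Subalgebra L R) (x : τ → R) (hx : ∀ s, x s ∈ A)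
    (F : MvPolynomial τ L) : aeval x F ∈ A := by
  induction F using MvPolynomial.induction_on with
  | C a => simp
  | add p q hp hq => rw [map_add]; exact A.add_mem hp hq
  | mul_X p s hp => rw [map_mul, aeval_X]; exact A.mul_mem hp (hx s)

theorem tr_sum_alg {ι : Type} (A : Subalgebra L R) (s : Finset ι) (p : ι → B.Pt R)
    (h : ∀ i ∈ s, ∃ v, B.Rep (p i) v ∧ ∀ j, v j ∈ A) :
    ∃ v, B.Rep (∑ i ∈ s, p i) v ∧ ∀ j, v j ∈ A := by
  refine Finset.sum_induction p (fun q => ∃ v, B.Rep q v ∧ ∀ j, v j ∈ A) ?_ ?_ h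
  · rintro a b ⟨v, hv, hv'⟩ ⟨w, hw, hw'⟩
    obtain ⟨c, hc⟩ := hv.exists_add hw
    refine ⟨_, hc, fun j => tr_aeval_mem A _ (fun t => ?_) _⟩
    cases t with
    | inl t => exact hv' t
    | inr t => exact hw' t
  · exact ⟨_, Pkg.rep_zero, fun j => A.algebraMap_mem _⟩

theorem tr_sum_zr {ι : Type} {J : Ideal (MvPolynomial σ L)} (hJ : B.IsSub J) (s : Finset ι)
    (p : ι → B.Pt R) (h : ∀ i ∈ s, ∃ v, B.Rep (p i) v ∧ Zr J v) :
    ∃ v, B.Rep (∑ i ∈ s, p i) v ∧ Zr J v := by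
  refine Finset.sum_induction p (fun q => ∃ v, B.Rep q v ∧ Zr J v) ?_ ?_ h
  · rintro a b ⟨v, hv, hv'⟩ ⟨w, hw, hw'⟩
    obtain ⟨c, hc⟩ := hv.exists_add hw
    exact ⟨_, hc, hJ.add_mem R v w hv' hw' c⟩
  · exact ⟨_, Pkg.rep_zero, hJ.o_mem.map (Algebra.ofId L R)⟩

section gal

variable [Algebra R R'] [IsScalarTower L R R']

/-- a Galois automorphism as a map of algebras over the base -/
def trg (L : Type) [Field L] [Algebra L R] [Algebra L R'] [IsScalarTower L R R']
    (g : R' ≃ₐ[R] R') : R' →ₐ[L] R' := (g : R' →ₐ[R] R').restrictScalars L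

theorem tr_fixed [FiniteDimensional R R'] [IsGalois R R'] (p : B.Pt R')
    (h : ∀ g : R' ≃ₐ[R] R', B.map (trg L g) p = p) :
    ∃ q, B.map (IsScalarTower.toAlgHom L R R') q = p := by
  obtain ⟨x, k, hx, hk⟩ := tr_norm p
  have h1 : ∀ j, x j ∈ Set.range (algebraMap R R') := fun j => by
    rw [IsGalois.mem_range_algebraMap_iff_fixed]
    intro g
    have h2 := hx.map (trg L g)
    rw [h g] at h2
    have h3 := hx.par h2 k j
    simp only [hk, map_one, one_mul, mul_one] at h3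
    exact h3
  choose u hu using h1
  have h4 : B.Rep p (fun i => IsScalarTower.toAlgHom L R R' (u i)) := by
    have : (fun i => IsScalarTower.toAlgHom L R R' (u i)) = x := funext hu
    rw [this]
    exact hx
  obtain ⟨q, _, hq⟩ := tr_desc _ h4
  exact ⟨q, hq⟩

theorem tr_main [FiniteDimensional R R'] [IsGalois R R'] {J : Ideal (MvPolynomial σ L)}
    (hJ : B.IsSub J) (κ : IntermediateField L R) (hκ : ∀ a : R, IsAlgebraic κ a → a ∈ κ)
    (x : B.Pt R) (y' : B.Pt R') (v w : σ → R') (hv : B.Rep y' v) (hv' : ∀ i, IsIntegral κ (v i))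
    (hw : B.Rep (B.map (IsScalarTower.toAlgHom L R R') x - y') w) (hw' : Zr J w) :
    ∃ (N : ℕ) (y : B.Pt R) (v0 : σ → κ) (w0 : σ → R), 1 ≤ N ∧ B.Rep y (fun i => (v0 i).1) ∧
      B.Rep (N • x - y) w0 ∧ Zr J w0 := by
  classical
  set f := IsScalarTower.toAlgHom L R R' with hf
  obtain ⟨y, hy⟩ := tr_fixed (B := B) (R := R) (∑ g : R' ≃ₐ[R] R', B.map (trg L g) y') fun h => by
    rw [map_sum]
    simp only [Pkg.map_map]
    exact Equiv.sum_comp (Equiv.mulLeft h) fun g : R' ≃ₐ[R] R' => B.map (trg L g) y'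
  rw [← hf] at hy
  obtain ⟨u, hu, hu'⟩ := tr_sum_alg (B := B) ((integralClosure κ R').restrictScalars L)
    Finset.univ (fun g : R' ≃ₐ[R] R' => B.map (trg L g) y') fun g _ =>
      ⟨_, hv.map _, fun j => (hv' j).map ((g : R' →ₐ[R] R').restrictScalars κ)⟩
  obtain ⟨t, k, ht, hk⟩ := tr_norm y
  have h1 := ht.map f
  rw [hy] at h1
  have h2 : ∀ j, u j = f (t j) * u k := fun j => by
    have := h1.par hu k j
    simpa only [hk, map_one, one_mul] using this
  have h3 : u k ≠ 0 := by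
    obtain ⟨j, hj⟩ := hu.uni
    intro h0
    exact hj.ne_zero (by rw [h2 j, h0, mul_zero])
  have h4 : ∀ j, t j ∈ κ := fun j => by
    apply hκ
    rw [← isAlgebraic_algebraMap_iff (algebraMap R R').injective]
    have e : algebraMap R R' (t j) = u j * (u k)⁻¹ := by
      rw [h2 j, mul_assoc, mul_inv_cancel₀ h3, mul_one]
      rfl
    rw [e]
    have a1 : IsIntegral κ (u j) := hu' j
    have a2 : IsIntegral κ (u k) := hu' k
    exact (a1.mul a2.inv).isAlgebraic
  obtain ⟨w1, hw1, hw1'⟩ := tr_sum_zr (B := B) hJ Finset.univ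
    (fun g : R' ≃ₐ[R] R' => B.map (trg L g) (B.map f x - y')) fun g _ =>
      ⟨_, hw.map _, hw'.map _⟩
  have h5 : ∀ g : R' ≃ₐ[R] R', B.map (trg L g) (B.map f x) = B.map f x := fun g => by
    rw [Pkg.map_map]
    have : (trg L g).comp f = f := AlgHom.ext fun a => g.commutes a
    rw [this]
  have h6 : ∑ g : R' ≃ₐ[R] R', B.map (trg L g) (B.map f x - y') =
      B.map f (Fintype.card (R' ≃ₐ[R] R') • x - y) := by
    simp only [map_sub, h5, Finset.sum_sub_distrib, Finset.sum_const, Finset.card_univ, map_nsmul,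
      hy]
  rw [h6] at hw1
  obtain ⟨w0, hw0⟩ := Pkg.exists_rep (Fintype.card (R' ≃ₐ[R] R') • x - y)
  exact ⟨_, y, fun j => ⟨t j, h4 j⟩, w0, Fintype.card_pos, ht, hw0,
    tr_zr_map f hJ.hom hw0 hw1 hw1'⟩

end gal

end T12

open T12 in
theorem st_TRACE : St_TRACE := by
  intro L σ _ _ _ _ B J hJ E Ω _ _ _ _ _ _ _ κ hκ x y' v w hv hv' hw hw'
  classical
  have hint : ∀ i, IsIntegral κ (v i) := fun i => by
    obtain ⟨P, hP, hP'⟩ := hv' i
    exact IsAlgebraic.isIntegral ⟨P, hP, hP'⟩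
  have hintE : ∀ i, IsIntegral E (v i) := fun i => (hint i).tower_top
  let P : Polynomial E := ∏ i, minpoly E (v i)
  have hP : P ≠ 0 := Finset.prod_ne_zero_iff.mpr fun i _ => minpoly.ne_zero (hintE i)
  let E1 : IntermediateField E Ω := IntermediateField.adjoin E (P.rootSet Ω)
  have hs : P.IsSplittingField E E1 :=
    IntermediateField.adjoin_rootSet_isSplittingField (IsAlgClosed.splits _)
  have : CharZero E := charZero_of_injective_algebraMap (algebraMap L E).injective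
  have : FiniteDimensional E E1 := Polynomial.IsSplittingField.finiteDimensional E1 P
  have : Normal E E1 := Normal.of_isSplittingField P
  have : IsGalois E E1 := {}
  have hmem : ∀ i, v i ∈ E1 := fun i => by
    apply IntermediateField.subset_adjoin
    rw [Polynomial.mem_rootSet]
    refine ⟨hP, ?_⟩
    rw [map_prod]
    exact Finset.prod_eq_zero (Finset.mem_univ i) (minpoly.aeval E (v i))
  let f : E1 →ₐ[L] Ω := E1.val.restrictScalars L
  obtain ⟨y1, hy1, hy1'⟩ := tr_desc (B := B) f (p := y') (u := fun i => ⟨v i, hmem i⟩) hv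
  obtain ⟨w1, hw1⟩ := Pkg.exists_rep (B.map (IsScalarTower.toAlgHom L E E1) x - y1)
  refine tr_main hJ κ hκ x y1 _ w1 hy1 (fun i => ?_) hw1 (tr_zr_map f hJ.hom hw1 ?_ hw')
  · exact (isIntegral_algebraMap_iff (algebraMap E1 Ω).injective).mp (hint i)
  · rw [map_sub, hy1', Pkg.map_map]
    exact hw

end D4C
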