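import Pool.Agent.Lib.D4C.BlueE
import Pool.Agent.Lib.D4C.B_MAJ

/-! Coefficients of a form of high order in the first two variables. -/

namespace D4C

open MvPolynomial T83

namespace T38

variable {L : Type} [Field L] {v : AbsoluteValue L ℝ}

theorem hv_mono {A A' : Finset L} (h : A ⊆ A') : hv v A ≤ hv v A' := by
  classical
  unfold hv
  rw [← Finset.prod_sdiff h]
  exact le_mul_of_one_le_left (Finset.prod_nonneg fun _ _ => by positivity) (one_le_hv v _)

theorem mj_radius {ρ : Type} {r r' a : ℝ} {f : PS ρ L} (hr : 0 ≤ r) (h : r ≤ r')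
    (hf : Mj v r' f a) : Mj v r f a := fun s =>
  (Finset.sum_le_sum fun _ _ =>
    mul_le_mul_of_nonneg_left (pow_le_pow_left₀ hr h _) (v.nonneg _)).trans (hf s)

theorem mj_C {ρ : Type} {r : ℝ} (hr : 0 ≤ r) (c : L) :
    Mj v r (MvPowerSeries.C c : PS ρ L) (v c) := fun s => by
  simpa using mj_monomial hr v.nonneg v.map_zero 0 c s

theorem mj_shift {ρ : Type} {r : ℝ} (hr : 0 ≤ r) (c : L) (j : ρ) :
    Mj v r (MvPowerSeries.C c + MvPowerSeries.X j : PS ρ L) (v c + r) := by
  refine (mj_C hr c).add hr v.add_le ?_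
  simpa [MvPowerSeries.X] using mj_monomial hr v.nonneg v.map_zero (Finsupp.single j 1) (1 : L)

theorem mj_aeval {ρ τ : Type} {r : ℝ} (hr : 0 ≤ r) (x : τ → PS ρ L) (b : τ → ℝ)
    (F : MvPolynomial τ L) (M : ℝ) (hb : ∀ s, 0 ≤ b s) (hx : ∀ s, Mj v r (x s) (b s))
    (hM : ∀ d ∈ F.support, d.prod (fun s n => b s ^ n) ≤ M) :
    Mj v r (aeval x F) (l1 v F * M) :=
  st_GAU L (PS ρ L) v (Mj v r) (fun _ _ _ h k => h.mono k) (fun _ _ _ _ h k => h.add hr v.add_le k)
    (fun _ _ _ _ h k _ _ => h.vmul hr k) (fun c => mj_C hr c) τ x b F M hb hx hM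

/-- majorant of a small polynomial along the branch -/
theorem mj_small {m D1 : ℕ} {A : Finset L} {q : ZT L m} (hq : SmQ D1 A q) {r H R : ℝ} (hr : 0 ≤ r)
    (hH : 1 ≤ H) (hR : 1 ≤ R) (hA : hv v A ≤ H) {x : Fin m → PS (Fin m) L} {η : PS (Fin m) L}
    (hx : ∀ j, Mj v r (x j) (2 * H)) (hη : Mj v r η R) :
    Mj v r (evZT x η q) ((D1 + 1) * ((D1 + 1) ^ m * H * (2 * H) ^ D1 * R ^ D1)) := by
  rw [evZT_eq, Polynomial.eval_map, Polynomial.eval₂_eq_sum, Polynomial.sum_def]
  have h2 : (1 : ℝ) ≤ 2 * H := by linarith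
  have key : ∀ l ∈ q.support, Mj v r ((aeval x : MvPolynomial (Fin m) L →ₐ[L] _).toRingHom
      (q.coeff l) * η ^ l) ((D1 + 1) ^ m * H * (2 * H) ^ D1 * R ^ D1) := fun l hl => by
    have h1 := mj_aeval hr x (fun _ => 2 * H) (q.coeff l) ((2 * H) ^ D1) (fun _ => by linarith) hx
      fun d hd => by
        rw [Finsupp.prod, Finset.prod_pow_eq_pow_sum]
        exact pow_le_pow_right₀ h2 ((le_totalDegree hd).trans (hq.2 l).1)
    refine (h1.vmul hr (hη.pow hr l)).mono (mul_le_mul (mul_le_mul_of_nonneg_right ?_ (by positivity))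
      (pow_le_pow_right₀ hR ((Polynomial.le_natDegree_of_mem_supp l hl).trans hq.1))
      (by positivity) (by positivity))
    have := l1_smp v (hq.2 l)
    rw [Fintype.card_fin] at this
    exact this.trans (mul_le_mul_of_nonneg_left hA (by positivity))
  refine (mj_sum hr _ key).mono ?_
  rw [Finset.sum_const, nsmul_eq_mul]
  refine mul_le_mul_of_nonneg_right ?_ (by positivity)
  exact_mod_cast (Polynomial.card_supp_le_succ_natDegree q).trans (Nat.succ_le_succ hq.1)

/-- the weight of one monomial -/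
theorem prod_weight {g : ℕ} {σ : Type} [Fintype σ] (ε : Fin (g + 2 + 1) ⊕ σ →₀ ℕ) (b q M : ℝ) :
    ε.prod (fun s n => (Sum.elim (fun j : Fin (g + 2 + 1) => b * if j.val < 2 then q else 1)
      (fun _ : σ => M) s) ^ n) = b ^ (fl ε).degree * q ^ o2 ε * M ^ (fr ε).degree := by
  rw [Finsupp.prod_fintype _ _ (by simp), Fintype.prod_sum_type]
  simp only [Sum.elim_inl, Sum.elim_inr, mul_pow, Finset.prod_mul_distrib,
    Finset.prod_pow_eq_pow_sum, Finsupp.degree_eq_sum, fl, fr, Finsupp.comapDomain_apply]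
  congr 2
  rw [Fin.prod_univ_succ, Fin.prod_univ_succ, o2, pow_add, Finset.prod_eq_one, mul_one]
  · simp
  · intro i _
    rw [if_neg (by simp), one_pow]

end T38

open T38

theorem st_TRM (hH : St_HENB) : St_TRM := by
  intro σ _ _ g D1
  obtain ⟨c0, N0, hc0, hN0, hen⟩ := hH (g + 2) D1
  refine ⟨(D1 + 1) ^ (g + 3) * (2 * c0), 1 + D1 + N0 * D1 + N0, ?_, ?_⟩
  · exact Nat.mul_pos (by positivity) (by omega)
  intro L _ B e D V n r0 m0 k J v hz hk
  have hp : evZT V.z V.t (Polynomial.derivative V.W.P) *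
      (evZT V.z V.t V.W.π' / aeval V.z V.W.Δ) = 1 := by
    have := evZT_of_dvd V.root V.ok.sep
    rw [map_mul, evZT_C] at this
    rw [← mul_div_assoc, this, div_self V.Δ_ne]
  have hη : Mj v ((c0 * hv v V.A') ^ N0)⁻¹ V.η ((c0 * hv v V.A') ^ N0) :=
    hen L V.W.P V.A V.z V.t _ V.η V.small.P V.br hp v
  set H := hv v V.A' with hHd
  have H1 : 1 ≤ H := one_le_hv v _
  have hAH : hv v V.A ≤ H := hv_mono fun a ha => by
    simp only [Lv.A', bigA, Finset.mem_union]
    exact Or.inl (Or.inl ha)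
  have hzH : ∀ j, v (V.z j) ≤ H := fun j => le_hv v (by
    simp only [Lv.A', bigA, Finset.mem_union, Finset.mem_image]
    exact Or.inl (Or.inr ⟨j, Finset.mem_univ j, rfl⟩))
  have c1 : (1 : ℝ) ≤ c0 := by exact_mod_cast hc0
  set R := (c0 * H) ^ N0 with hR
  have cH : 1 ≤ c0 * H := one_le_mul_of_one_le_of_one_le c1 H1
  have R1 : 1 ≤ R := one_le_pow₀ cH
  set a := sn v ![V.z 0, V.z 1] with ha
  set b := sn v V.Z with hb
  have hZ : ∀ j, v (V.z j) ≤ b := fun j =>
    le_trans (by simp [Lv.Z]) (le_sn v V.Z j.castSucc)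
  have b1 : 1 ≤ b := le_trans (by simp [Lv.Z]) (le_sn v V.Z (Fin.last _))
  obtain ⟨i0, hi0, hai⟩ := exists_sn v hz
  have a0 : 0 < a := by rw [ha, hai]; exact v.pos hi0
  have ab : a ≤ b := by
    rw [ha, hai]
    fin_cases i0
    exacts [hZ 0, hZ 1]
  have b0 : 0 < b := by linarith
  set q := a / b with hq
  have q0 : 0 < q := div_pos a0 b0
  have q1 : q ≤ 1 := (div_le_one b0).2 ab
  have aq : a = b * q := by rw [hq]; field_simp
  have R0 : 0 < R := by linarith
  have i1 : R⁻¹ ≤ 1 := inv_le_one_of_one_le₀ R1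
  have i0' : 0 < R⁻¹ := inv_pos.2 R0
  have hr : 0 ≤ R⁻¹ * q := by positivity
  have rq : R⁻¹ * q ≤ q := mul_le_of_le_one_left q0.le i1
  have qa : q ≤ a := by rw [aq]; exact le_mul_of_one_le_left q0.le b1
  set M : ℝ := (D1 + 1) * ((D1 + 1) ^ (g + 2) * H * (2 * H) ^ D1 * R ^ D1) with hM
  have M0 : 0 ≤ M := by positivity
  have hX : ∀ s, Mj v (R⁻¹ * q) (V.ev (V.W.φ s)) M := fun s =>
    mj_small (V.small.φ s) hr H1 R1 hAH
      (fun j => (mj_shift hr _ j).mono (by linarith [hzH j]))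
      (mj_radius hr (mul_le_of_le_one_right i0'.le q1) hη)
  have hL : ∀ j : Fin (g + 2 + 1), Mj v (R⁻¹ * q) (V.ev (zv L (g + 2) j))
      (2 * b * if j.val < 2 then q else 1) := fun j => by
    refine Fin.lastCases ?_ (fun j => ?_) j
    · rw [if_neg (by simp)]
      simp only [zv, Fin.snoc_last, map_one]
      have := (mj_C (ρ := Fin (g + 2)) (v := v) hr (1 : L)).mono (b := 2 * b * 1)
        (by rw [map_one]; linarith)
      rwa [map_one] at this
    · simp only [zv, Fin.snoc_castSucc, Lv.ev, evZT_C, aeval_X, Fin.val_castSucc]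
      refine (mj_shift hr _ j).mono ?_
      split_ifs with h
      · have : v (V.z j) ≤ a := by
          obtain rfl | rfl : j = 0 ∨ j = 1 := by
            rcases j with ⟨_ | _ | j, hj⟩
            · exact Or.inl rfl
            · exact Or.inr rfl
            · exact absurd h (by simp)
          exacts [le_sn v ![V.z 0, V.z 1] 0, le_sn v ![V.z 0, V.z 1] 1]
        rw [mul_assoc, ← aq]
        linarith
      · linarith [hZ j]
  have main := (mj_aeval (v := v) hr (fun s => V.ev (Sum.elim (zv L (g + 2)) V.W.φ s))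
    (Sum.elim (fun j : Fin (g + 2 + 1) => 2 * b * if j.val < 2 then q else 1) fun _ : σ => M) k
    ((2 * b) ^ n * q ^ m0 * M ^ r0)
    (fun s => by
      rcases s with j | s
      · exact (hL j).nonneg
      · exact M0)
    (fun s => by
      rcases s with j | s
      · exact hL j
      · exact hX s)
    fun ε hε => by
      obtain ⟨h1, h2, h3⟩ := hk ε hε
      rw [prod_weight, h1, h2]
      exact mul_le_mul_of_nonneg_right (mul_le_mul_of_nonneg_left
        (pow_le_pow_of_le_one q0.le q1 h3) (by positivity)) (by positivity)).coeff_le J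
  rw [aeval_map_alg] at main
  set y := v (MvPowerSeries.coeff J (V.ev (phiOf V.W k))) with hy
  replace main : y * (R⁻¹ * q) ^ J.degree ≤ l1 v k * ((2 * b) ^ n * q ^ m0 * M ^ r0) := main
  set c : ℝ := (((D1 + 1) ^ (g + 3) * (2 * c0) : ℕ) : ℝ) with hc
  have hc' : c = (D1 + 1) ^ (g + 3) * (2 * c0) := by rw [hc]; push_cast; ring
  have d1 : (1 : ℝ) ≤ (D1 + 1) ^ (g + 3) := one_le_pow₀ (by linarith [Nat.cast_nonneg (α := ℝ) D1])
  have e1 : (c0 : ℝ) * H ≤ c * H := mul_le_mul_of_nonneg_right (by rw [hc']; nlinarith) (by linarith)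
  have e2 : 2 * H ≤ c * H := mul_le_mul_of_nonneg_right (by rw [hc']; nlinarith) (by linarith)
  have e3 : (D1 + 1) ^ (g + 3) * H ≤ c * H :=
    mul_le_mul_of_nonneg_right (by rw [hc']; nlinarith) (by linarith)
  have cH1 : 1 ≤ c * H := cH.trans e1
  have RR : R ≤ (c * H) ^ N0 := pow_le_pow_left₀ (by positivity) e1 _
  have hRN : R ≤ (c * H) ^ (1 + D1 + N0 * D1 + N0) := RR.trans (pow_le_pow_right₀ cH1 (by omega))
  have hMN : M ≤ (c * H) ^ (1 + D1 + N0 * D1 + N0) := by
    refine le_trans ?_ (pow_le_pow_right₀ cH1 (Nat.le_add_right (1 + D1 + N0 * D1) N0))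
    rw [pow_add, pow_add, pow_one, pow_mul]
    calc M = (D1 + 1) ^ (g + 3) * H * (2 * H) ^ D1 * R ^ D1 := by rw [hM]; ring
      _ ≤ _ := by gcongr
  have l0 := l1_nonneg v k
  calc y * a ^ J.degree * b ^ m0
      = y * (R⁻¹ * q) ^ J.degree * (R ^ J.degree * b ^ J.degree * b ^ m0) := by
        rw [aq, mul_pow, mul_pow, inv_pow]
        field_simp
    _ ≤ l1 v k * ((2 * b) ^ n * q ^ m0 * M ^ r0) * (R ^ J.degree * b ^ J.degree * b ^ m0) :=
        mul_le_mul_of_nonneg_right main (by positivity)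
    _ = l1 v k * 2 ^ n * a ^ m0 * b ^ (n + J.degree) * (R ^ J.degree * M ^ r0) := by
        rw [aq, mul_pow, mul_pow, pow_add]
        ring
    _ ≤ _ := by
        refine mul_le_mul_of_nonneg_left ?_ (by positivity)
        rw [pow_mul, pow_add]
        gcongr

end D4C
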