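import Pool.Agent.Lib.D4C.BlueF

/-! d4c block TVR: the Gauss extension of a rational place. -/

namespace D4C

open scoped TensorProduct

namespace T45

section loc

variable {T K F : Type} [CommRing T] [Field K] [Field F] (j : T →+* K) (Ψ : T →+* F)

/-- fractions whose denominator does not vanish under `Ψ` -/
def locS : Subring K where
  carrier := {a | ∃ p q : T, Ψ q ≠ 0 ∧ a * j q = j p}
  mul_mem' := by
    rintro a b ⟨p, q, hq, h⟩ ⟨p', q', hq', h'⟩
    refine ⟨p * p', q * q', by simp [hq, hq'], ?_⟩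
    rw [map_mul, map_mul, ← h, ← h']; ring
  one_mem' := ⟨1, 1, by simp, by simp⟩
  add_mem' := by
    rintro a b ⟨p, q, hq, h⟩ ⟨p', q', hq', h'⟩
    refine ⟨p * q' + p' * q, q * q', by simp [hq, hq'], ?_⟩
    rw [map_add, map_mul, map_mul, map_mul, ← h, ← h']; ring
  zero_mem' := ⟨0, 1, by simp, by simp⟩
  neg_mem' := by
    rintro a ⟨p, q, hq, h⟩
    exact ⟨-p, q, hq, by rw [map_neg, ← h]; ring⟩

theorem mem_locS (a : K) : a ∈ locS j Ψ ↔ ∃ p q : T, Ψ q ≠ 0 ∧ a * j q = j p := Iff.rfl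

theorem exists_psi (hj : Function.Injective j) : ∃ φ : locS j Ψ →+* F,
    ∀ (a : locS j Ψ) (p q : T), (a : K) * j q = j p → φ a * Ψ q = Ψ p := by
  have hex : ∀ a : locS j Ψ, ∃ p q : T, Ψ q ≠ 0 ∧ (a : K) * j q = j p := fun a => a.2
  choose P Q hQ hPQ using hex
  have key : ∀ (a : locS j Ψ) (p q : T), (a : K) * j q = j p →
      Ψ (P a) / Ψ (Q a) * Ψ q = Ψ p := by
    intro a p q h
    have h1 : P a * q = p * Q a := hj (by rw [map_mul, map_mul, ← h, ← hPQ a]; ring)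
    have h2 : Ψ (P a) * Ψ q = Ψ p * Ψ (Q a) := by rw [← map_mul, h1, map_mul]
    rw [div_mul_eq_mul_div, h2, mul_div_assoc, div_self (hQ a), mul_one]
  refine ⟨{ toFun := fun a => Ψ (P a) / Ψ (Q a)
            map_one' := ?_
            map_zero' := ?_
            map_mul' := ?_
            map_add' := ?_ }, key⟩
  · simpa using key 1 1 1 (by simp)
  · intro a b
    have h := key (a * b) (P a * P b) (Q a * Q b) (by
      rw [map_mul, map_mul, ← hPQ a, ← hPQ b, Subring.coe_mul]; ring)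
    rw [map_mul, map_mul] at h
    rw [div_mul_div_comm, eq_div_iff (mul_ne_zero (hQ a) (hQ b)), h]
  · simpa using key 0 0 1 (by simp)
  · intro a b
    have h := key (a + b) (P a * Q b + Q a * P b) (Q a * Q b) (by
      rw [map_add, map_mul, map_mul, map_mul, ← hPQ a, ← hPQ b, Subring.coe_add]; ring)
    rw [map_add, map_mul, map_mul, map_mul] at h
    rw [div_add_div _ _ (hQ a) (hQ b), eq_div_iff (mul_ne_zero (hQ a) (hQ b)), h]

end loc

section ten

variable {κ R F Ω₀ K : Type} [Field κ] [CommRing R] [Field F] [Field Ω₀] [Field K] [Algebra κ R]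
  [Algebra κ F] [Algebra κ Ω₀] [Algebra κ K] [Algebra F K] [Algebra Ω₀ K] [IsScalarTower κ F K]
  [IsScalarTower κ Ω₀ K]

/-- multiplication map of the tensor product -/
noncomputable def jj (F K : Type) [Field F] [Field K] [Algebra κ F] [Algebra κ K] [Algebra F K]
    [Algebra Ω₀ K] [IsScalarTower κ F K] [IsScalarTower κ Ω₀ K] (ι : R →ₐ[κ] Ω₀) :
    R ⊗[κ] F →ₐ[κ] K :=
  Algebra.TensorProduct.lift ((IsScalarTower.toAlgHom κ Ω₀ K).comp ι)
    (IsScalarTower.toAlgHom κ F K) fun _ _ => Commute.all _ _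

theorem jj_tmul (ι : R →ₐ[κ] Ω₀) (r : R) (f : F) :
    jj F K ι (r ⊗ₜ f) = algebraMap Ω₀ K (ι r) * algebraMap F K f := by
  simp [jj]

/-- reduction map of the tensor product -/
noncomputable def pp (F : Type) [Field F] [Algebra κ F] (ψ : R →ₐ[κ] κ) : R ⊗[κ] F →ₐ[κ] F :=
  Algebra.TensorProduct.lift ((Algebra.ofId κ F).comp ψ) (AlgHom.id κ F)
    fun _ _ => Commute.all _ _

theorem pp_tmul (ψ : R →ₐ[κ] κ) (r : R) (f : F) :
    pp F ψ (r ⊗ₜ f) = algebraMap κ F (ψ r) * f := by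
  simp [pp]

theorem jj_inj (h : Cmp κ F Ω₀ K) (ι : R →ₐ[κ] Ω₀) (hι : Function.Injective ι) :
    Function.Injective (jj F K ι) := by
  rw [injective_iff_map_eq_zero]
  intro x hx
  let e := Module.Basis.ofVectorSpace κ F
  let b := Algebra.TensorProduct.basis R e
  have hl := h.ld _ e e.linearIndependent
  have h1 : x = ∑ i ∈ (b.repr x).support, (b.repr x i) ⊗ₜ[κ] e i := by
    conv_lhs => rw [← b.linearCombination_repr x, Finsupp.linearCombination_apply, Finsupp.sum]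
    refine Finset.sum_congr rfl fun i _ => ?_
    simp [b, Algebra.TensorProduct.basis_apply, TensorProduct.smul_tmul']
  have h2 : ∑ i ∈ (b.repr x).support, ι (b.repr x i) • algebraMap F K (e i) = 0 := by
    rw [h1, map_sum] at hx
    rw [← hx]
    refine Finset.sum_congr rfl fun i _ => ?_
    rw [jj_tmul, Algebra.smul_def]
  have h3 := linearIndependent_iff'.mp hl _ _ h2
  rw [h1]
  refine Finset.sum_eq_zero fun i hi => ?_
  have : b.repr x i = 0 := hι (by rw [h3 i hi, map_zero])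
  rw [this, TensorProduct.zero_tmul]

theorem content {I : Type} (ι : R →ₐ[κ] Ω₀) (ψ : R →ₐ[κ] κ) (hι : Function.Injective ι)
    (s : Finset I) (f : I → F) (hf : LinearIndependent κ f) (c : I → Ω₀) (i₀ : I) (h₀ : i₀ ∈ s)
    (hc : c i₀ ≠ 0) (hs : ∀ i ∈ s, ∃ r : R, ι r = c i / c i₀) :
    ∃ p : R ⊗[κ] F, pp F ψ p ≠ 0 ∧
      ∑ i ∈ s, algebraMap Ω₀ K (c i) * algebraMap F K (f i) =
        algebraMap Ω₀ K (c i₀) * jj F K ι p := by
  choose! r hr using hs
  refine ⟨∑ i ∈ s, r i ⊗ₜ f i, ?_, ?_⟩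
  · intro h0
    rw [map_sum] at h0
    have h1 : ∑ i ∈ s, ψ (r i) • f i = 0 := by
      rw [← h0]
      refine Finset.sum_congr rfl fun i _ => ?_
      rw [pp_tmul, Algebra.smul_def]
    have h2 := linearIndependent_iff'.mp hf _ _ h1 i₀ h₀
    have h3 : r i₀ = 1 := hι (by rw [hr i₀ h₀, div_self hc, map_one])
    rw [h3, map_one] at h2
    exact one_ne_zero h2
  · rw [map_sum, Finset.mul_sum]
    refine Finset.sum_congr rfl fun i hi => ?_
    rw [jj_tmul, hr i hi, ← mul_assoc, ← map_mul, mul_div_cancel₀ _ hc]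

theorem span_rep (x : K) (hx : x ∈ Algebra.adjoin Ω₀ (Set.range (algebraMap F K))) :
    ∃ c : Module.Basis.ofVectorSpaceIndex κ F →₀ Ω₀,
      x = ∑ i ∈ c.support, algebraMap Ω₀ K (c i) *
        algebraMap F K (Module.Basis.ofVectorSpace κ F i) := by
  let e := Module.Basis.ofVectorSpace κ F
  have h1 : x ∈ Submodule.span Ω₀ (Set.range (algebraMap F K)) := by
    have h : x ∈ Subalgebra.toSubmodule (Algebra.adjoin Ω₀ (Set.range (algebraMap F K))) := hx
    rw [Algebra.adjoin_eq_span] at h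
    refine Submodule.span_mono ?_ h
    have : Submonoid.closure (Set.range (algebraMap F K)) ≤
        MonoidHom.mrange (algebraMap F K : F →* K) := Submonoid.closure_le.mpr fun _ h => h
    exact this
  have h2 : x ∈ Submodule.span Ω₀ (Set.range fun i => algebraMap F K (e i)) := by
    refine Submodule.span_le.mpr ?_ h1
    rintro _ ⟨f, rfl⟩
    rw [← e.linearCombination_repr f, Finsupp.linearCombination_apply, Finsupp.sum, map_sum]
    refine Submodule.sum_mem _ fun i _ => ?_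
    rw [Algebra.smul_def, map_mul, ← IsScalarTower.algebraMap_apply,
      IsScalarTower.algebraMap_apply κ Ω₀ K, ← Algebra.smul_def]
    exact Submodule.smul_mem _ _ (Submodule.subset_span ⟨i, rfl⟩)
  obtain ⟨c, hc⟩ := Finsupp.mem_span_range_iff_exists_finsupp.mp h2
  refine ⟨c, ?_⟩
  rw [← hc, Finsupp.sum]
  exact Finset.sum_congr rfl fun i _ => Algebra.smul_def _ _

end ten

theorem exists_top {Ω I : Type} [Field Ω] (O : ValuationSubring Ω) (s : Finset I) (c : I → Ω)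
    (h : ∃ i ∈ s, c i ≠ 0) : ∃ i₀ ∈ s, c i₀ ≠ 0 ∧ ∀ i ∈ s, c i / c i₀ ∈ O := by
  obtain ⟨i₁, h₁, hc₁⟩ := h
  obtain ⟨i₀, h₀, hm⟩ := s.exists_max_image (fun i => O.valuation (c i)) ⟨i₁, h₁⟩
  have hv : O.valuation (c i₀) ≠ 0 := fun h0 => by
    have := hm i₁ h₁
    rw [h0, le_zero_iff, map_eq_zero] at this
    exact hc₁ this
  refine ⟨i₀, h₀, fun h0 => hv (by rw [h0, map_zero]), fun i hi => ?_⟩
  rw [← O.valuation_le_one_iff, map_div₀, div_le_one₀ (zero_lt_iff.mpr hv)]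
  exact hm i hi

end T45

open T45 in
theorem st_TVR : St_TVR := by
  intro κ F Ω₀ K _ _ _ _ _ _ _ _ _ _ _ h P
  let _ : Algebra κ P.O := ((algebraMap κ Ω₀).codRestrict P.O P.mem).toAlgebra
  let ι : P.O →ₐ[κ] Ω₀ := { P.O.subtype with commutes' := fun _ => rfl }
  let ψ : P.O →ₐ[κ] κ := { P.ψ with commutes' := fun a => P.alg a }
  have hι : Function.Injective ι := Subtype.val_injective
  let j : P.O ⊗[κ] F →+* K := jj F K ι
  let Ψ : P.O ⊗[κ] F →+* F := pp F ψ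
  have hj : Function.Injective j := jj_inj h ι hι
  have jt : ∀ (r : P.O) (f : F), j (r ⊗ₜ f) = algebraMap Ω₀ K r * algebraMap F K f :=
    fun r f => jj_tmul ι r f
  have pt : ∀ (r : P.O) (f : F), Ψ (r ⊗ₜ f) = algebraMap κ F (P.ψ r) * f :=
    fun r f => pp_tmul ψ r f
  have jne : ∀ p, Ψ p ≠ 0 → j p ≠ 0 := fun p hp h0 =>
    hp (by rw [(injective_iff_map_eq_zero j).mp hj p h0, map_zero])
  have cont : ∀ {I : Type} (s : Finset I) (f : I → F), LinearIndependent κ f → ∀ c : I → Ω₀,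
      (∃ i ∈ s, c i ≠ 0) → ∃ i₀ ∈ s, c i₀ ≠ 0 ∧ (∀ i ∈ s, c i / c i₀ ∈ P.O) ∧ ∃ p, Ψ p ≠ 0 ∧
        ∑ i ∈ s, algebraMap Ω₀ K (c i) * algebraMap F K (f i) = algebraMap Ω₀ K (c i₀) * j p := by
    intro I s f hf c hc
    obtain ⟨i₀, h₀, hc₀, hs⟩ := exists_top P.O s c hc
    exact ⟨i₀, h₀, hc₀, hs, content ι ψ hι s f hf c i₀ h₀ hc₀ fun i hi => ⟨⟨_, hs i hi⟩, rfl⟩⟩
  have cont2 : ∀ x ∈ Algebra.adjoin Ω₀ (Set.range (algebraMap F K)), x ≠ 0 →
      ∃ c : Ω₀, c ≠ 0 ∧ ∃ p, Ψ p ≠ 0 ∧ x = algebraMap Ω₀ K c * j p := by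
    intro x hx hx0
    obtain ⟨c, rfl⟩ := span_rep (κ := κ) x hx
    obtain ⟨i₀, -, hc₀, -, p, hp, he⟩ := cont c.support _
      (Module.Basis.ofVectorSpace κ F).linearIndependent c (by
        by_contra hn
        push Not at hn
        exact hx0 (Finset.sum_eq_zero fun i hi => by rw [hn i hi, map_zero, zero_mul]))
    exact ⟨_, hc₀, p, hp, he⟩
  have cont3 : ∀ a : K, a ≠ 0 → ∃ c : Ω₀, c ≠ 0 ∧ ∃ p q, Ψ p ≠ 0 ∧ Ψ q ≠ 0 ∧
      a * j q = algebraMap Ω₀ K c * j p := by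
    intro a ha
    obtain ⟨x, hx, y, hy, hy0, rfl⟩ := h.gen a
    obtain ⟨c, hc, p, hp, rfl⟩ := cont2 x hx fun h0 => ha (by rw [h0, zero_div])
    obtain ⟨d, hd, q, hq, rfl⟩ := cont2 y hy hy0
    refine ⟨c / d, div_ne_zero hc hd, p, q, hp, hq, ?_⟩
    have h1 := jne q hq
    have h2 : algebraMap Ω₀ K d ≠ 0 := (map_ne_zero _).mpr hd
    rw [map_div₀]
    field_simp
  let W : ValuationSubring K :=
    { toSubring := locS j Ψ
      mem_or_inv_mem' := fun a => by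
        by_cases ha : a = 0
        · exact Or.inl (ha ▸ (locS j Ψ).zero_mem)
        obtain ⟨c, hc, p, q, hp, hq, he⟩ := cont3 a ha
        rcases P.O.mem_or_inv_mem c with h1 | h1
        · refine Or.inl ⟨((⟨c, h1⟩ : P.O) ⊗ₜ 1) * p, q, hq, ?_⟩
          rw [map_mul, jt, map_one, mul_one, he]
        · refine Or.inr ⟨((⟨c⁻¹, h1⟩ : P.O) ⊗ₜ 1) * q, p, hp, ?_⟩
          have h2 : algebraMap Ω₀ K c ≠ 0 := (map_ne_zero _).mpr hc
          rw [map_mul, jt, map_one, mul_one, map_inv₀, inv_mul_eq_iff_eq_mul₀ ha, mul_left_comm,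
            he, inv_mul_cancel_left₀ h2] }
  have memW : ∀ a : K, a ∈ W ↔ ∃ p q, Ψ q ≠ 0 ∧ a * j q = j p := fun a => Iff.rfl
  obtain ⟨φ, hφ⟩ := exists_psi j Ψ hj
  have jW : ∀ p, j p ∈ W := fun p => ⟨p, 1, by simp, by simp⟩
  have FW : Ov F W := fun f => by simpa [jt] using jW (1 ⊗ₜ f)
  have OW : ∀ c ∈ P.O, algebraMap Ω₀ K c ∈ W := fun c hc => by
    simpa [jt] using jW ((⟨c, hc⟩ : P.O) ⊗ₜ 1)
  have φO : ∀ (c : P.O) (hc : algebraMap Ω₀ K c ∈ W), φ ⟨_, hc⟩ = algebraMap κ F (P.ψ c) :=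
    fun c hc => by simpa [pt] using hφ ⟨_, hc⟩ (c ⊗ₜ 1) 1 (by simp [jt])
  have hker : ∀ b : W, φ b = 0 ↔ ¬ IsUnit b := by
    intro b
    refine ⟨fun hb hu => (hu.map φ).ne_zero hb, fun hb => ?_⟩
    by_contra hn
    obtain ⟨p, q, hq, he⟩ := (memW _).mp b.2
    have hp : Ψ p ≠ 0 := by
      rw [← hφ b p q he]
      exact mul_ne_zero hn hq
    have hb0 : (b : K) ≠ 0 := fun h0 => jne p hp (by rw [← he, h0, zero_mul])
    have hi : (b : K)⁻¹ ∈ W := ⟨q, p, hp, by rw [← he, inv_mul_cancel_left₀ hb0]⟩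
    exact hb (IsUnit.of_mul_eq_one (⟨_, hi⟩ : W) (Subtype.ext (mul_inv_cancel₀ hb0)))
  have vone : ∀ p, Ψ p ≠ 0 → W.valuation (j p) = 1 := by
    intro p hp
    have h1 : φ ⟨j p, jW p⟩ = Ψ p := by simpa using hφ ⟨j p, jW p⟩ p 1 (by simp)
    have h2 : IsUnit (⟨j p, jW p⟩ : W) := by
      by_contra hn
      exact hp (h1 ▸ (hker _).mpr hn)
    exact (W.valuation_eq_one_iff _).mp h2
  refine ⟨⟨W, FW, φ, fun f => ?_, hker⟩, ⟨FW, fun c => ⟨fun hc => ?_, OW c⟩, ?_⟩, φO, ?_⟩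
  · simpa [pt] using hφ ⟨_, FW f⟩ (1 ⊗ₜ f) 1 (by simp [jt])
  · by_contra hn
    have hi := (P.O.mem_or_inv_mem c).resolve_left hn
    have hc0 : c ≠ 0 := fun h0 => hn (h0 ▸ P.O.zero_mem)
    have h1 : P.ψ ⟨c⁻¹, hi⟩ = 0 := (P.ker _).mpr fun hu => by
      obtain ⟨b, hb⟩ := hu.exists_right_inv
      have h1 : c⁻¹ * b = 1 := congrArg Subtype.val hb
      have : c = b := by rw [eq_inv_of_mul_eq_one_right h1, inv_inv]
      exact hn (this ▸ b.2)
    have h2 := φO ⟨c⁻¹, hi⟩ (OW _ hi)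
    rw [h1, map_zero] at h2
    refine (hker _).mp h2 (IsUnit.of_mul_eq_one (⟨_, hc⟩ : W) (Subtype.ext ?_))
    change algebraMap Ω₀ K c⁻¹ * algebraMap Ω₀ K c = 1
    rw [← map_mul, inv_mul_cancel₀ hc0, map_one]
  · intro n f c hf
    change W.valuation _ = gv W _
    by_cases hc : ∃ i ∈ (Finset.univ : Finset (Fin n)), c i ≠ 0
    · obtain ⟨i₀, -, hc₀, hs, p, hp, he⟩ := cont Finset.univ f hf c hc
      rw [he, map_mul, vone p hp, mul_one]
      refine le_antisymm (Finset.le_sup (f := fun i => W.valuation (algebraMap Ω₀ K (c i)))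
        (Finset.mem_univ i₀)) (Finset.sup_le fun i hi => ?_)
      have h1 := (W.valuation_le_one_iff _).mpr (OW _ (hs i hi))
      have h2 : W.valuation (algebraMap Ω₀ K (c i₀)) ≠ 0 := by simpa using hc₀
      rwa [map_div₀, map_div₀, div_le_one₀ (zero_lt_iff.mpr h2)] at h1
    · push Not at hc
      have h0 : ∀ i, c i = 0 := fun i => hc i (Finset.mem_univ i)
      simp only [h0, map_zero, zero_mul, Finset.sum_const_zero, gv]
      exact le_antisymm zero_le (Finset.sup_le fun i _ => le_rfl)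
  · intro a
    change ∃ c : Ω₀, W.valuation a = W.valuation _
    by_cases ha : a = 0
    · exact ⟨0, by rw [ha, map_zero (algebraMap Ω₀ K)]⟩
    obtain ⟨c, -, p, q, hp, hq, he⟩ := cont3 a ha
    have h1 := congrArg W.valuation he
    rw [map_mul, map_mul, vone p hp, vone q hq, mul_one, mul_one] at h1
    exact ⟨c, h1⟩

end D4C
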