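import Pool.Agent.Lib.D4C.BlueE
import Pool.Agent.Lib.D4C.B_LAW

/-! Choice of the best laws at each place. -/

namespace D4C

open MvPolynomial

namespace T67

theorem sn_scale {σ L : Type} [Field L] (v : AbsoluteValue L ℝ) (c : L) (x : σ → L) :
    sn v (c • x) = v c * sn v x := by
  unfold sn
  rw [Real.mul_iSup_of_nonneg (v.nonneg c)]
  simp only [Pi.smul_apply, smul_eq_mul, map_mul]

theorem sn_nn {σ L : Type} [Field L] (v : AbsoluteValue L ℝ) (x : σ → L) : 0 ≤ sn v x :=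
  Real.iSup_nonneg fun _ => v.nonneg _

end T67

open T67 in
theorem st_UPB (hAD : St_AD) : St_UPB := by
  intro L σ _ _ _ _ B
  obtain ⟨c, A, hc⟩ := st_LAW L σ B
  obtain ⟨d1, d2, d3, d4, d5, d6, d7, -⟩ := hAD L
  set c' : ℝ := max (c : ℝ) 1 with hc'
  have hc1 : 1 ≤ c' := le_max_right _ _
  have hA0 : 0 ≤ hA A := Finset.sum_nonneg fun a _ => Height.zero_le_logHeight₁ a
  refine ⟨hA A + Module.finrank ℚ L * Real.log c', add_nonneg hA0
    (mul_nonneg (Nat.cast_nonneg _) (Real.log_nonneg hc1)), ?_⟩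
  intro ι _ s n1 p q u u' w lam Λ0 α f g a b n0 hrep hlam hl0 hα hrel hf hg hn0 hb
  have nu : ∀ i, u i ≠ 0 := fun i => uni_iff_ne_zero.mp (hrep i).1.uni
  have nu' : ∀ i, u' i ≠ 0 := fun i => uni_iff_ne_zero.mp (hrep i).2.1.uni
  have nw : ∀ i, w i ≠ 0 := fun i => uni_iff_ne_zero.mp (hrep i).2.2.uni
  have hF := d4 _ _ _ _ (d4 _ _ _ _ (d3 _ hα) (d6 ι s _ _ fun i _ => d5 _ _ n1
    (d4 _ _ _ _ (d5 _ _ B.β (d1 σ _ (nu i))) (d5 _ _ B.β (d1 σ _ (nu' i)))))) hf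
  have hG := d4 _ _ _ _ (d6 ι s _ _ fun i hi => d5 _ _ n1
    (d4 _ _ _ _ (d4 _ _ _ _ (d2 A) (d1 σ _ (nw i))) (d3 _ (hl0 i hi)))) hg
  have key := d7 _ _ _ _ (c' ^ (s.card * n1) * n0) hF hG
    (one_le_mul_of_one_le_of_one_le (one_le_pow₀ hc1) hn0) fun v => by
    choose Λ hΛ using fun i => hc v (u i) (u' i) (hrep i).1.zr (hrep i).2.1.zr (nu i) (nu' i)
    have h0 : 0 ≤ hv v A := zero_le_one.trans (T83.one_le_hv v A)
    have h1 : ∏ i ∈ s, (sn v (u i) ^ B.β * sn v (u' i) ^ B.β) ^ n1 ≤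
        ∏ i ∈ s, (c' * (hv v A * sn v (w i)) * v (lam i (Λ i))) ^ n1 := by
      refine Finset.prod_le_prod (fun i _ => pow_nonneg (mul_nonneg (pow_nonneg (sn_nn _ _) _)
        (pow_nonneg (sn_nn _ _) _)) _) fun i _ => pow_le_pow_left₀ (mul_nonneg
          (pow_nonneg (sn_nn _ _) _) (pow_nonneg (sn_nn _ _) _)) ((hΛ i).trans ?_) _
      rw [hlam, sn_scale]
      have h2 := mul_nonneg h0 (mul_nonneg (v.nonneg (lam i (Λ i))) (sn_nn v (w i)))
      have h3 := mul_le_mul_of_nonneg_right (le_max_left (c : ℝ) 1) h2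
      calc _ = (c : ℝ) * (hv v A * (v (lam i (Λ i)) * sn v (w i))) := by ring
        _ ≤ c' * (hv v A * (v (lam i (Λ i)) * sn v (w i))) := h3
        _ = _ := by ring
    have h4 := congrArg v (hrel Λ)
    simp only [map_mul, map_prod, map_pow] at h4
    have h5 : 0 ≤ c' ^ (s.card * n1) * ∏ i ∈ s, (hv v A * sn v (w i) * v (lam i (Λ0 i))) ^ n1 :=
      mul_nonneg (pow_nonneg (zero_le_one.trans hc1) _) (Finset.prod_nonneg fun i _ =>
        pow_nonneg (mul_nonneg (mul_nonneg h0 (sn_nn _ _)) (v.nonneg _)) _)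
    calc v (α Λ0) * (∏ i ∈ s, (sn v (u i) ^ B.β * sn v (u' i) ^ B.β) ^ n1) * f v
        ≤ v (α Λ0) * (∏ i ∈ s, (c' * (hv v A * sn v (w i)) * v (lam i (Λ i))) ^ n1) * f v :=
          mul_le_mul_of_nonneg_right (mul_le_mul_of_nonneg_left h1 (v.nonneg _)) (hf.pos v).le
      _ = c' ^ (s.card * n1) * (∏ i ∈ s, (hv v A * sn v (w i)) ^ n1) *
          (v (α Λ0) * ∏ i ∈ s, v (lam i (Λ i)) ^ n1) * f v := by
          simp only [mul_pow c', mul_pow (c' * _), Finset.prod_mul_distrib, Finset.prod_const]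
          rw [← pow_mul, mul_comm n1]
          ring
      _ = (c' ^ (s.card * n1) * ∏ i ∈ s, (hv v A * sn v (w i) * v (lam i (Λ0 i))) ^ n1) *
          (v (α Λ) * f v) := by
          rw [← h4]
          simp only [mul_pow (hv v A * _), Finset.prod_mul_distrib]
          ring
      _ ≤ (c' ^ (s.card * n1) * ∏ i ∈ s, (hv v A * sn v (w i) * v (lam i (Λ0 i))) ^ n1) *
          (n0 * g v) := mul_le_mul_of_nonneg_left (hb v Λ) h5
      _ = _ := by ring
  rw [Real.log_mul (pow_pos (zero_lt_one.trans_le hc1) _).ne' (zero_lt_one.trans_le hn0).ne',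
    Real.log_pow] at key
  have e : ∑ i ∈ s, (n1 : ℝ) * (B.β * B.ht (p i) + B.β * B.ht (q i) - B.ht (p i + q i)) =
      ∑ i ∈ s, (n1 : ℝ) * (B.β * Height.logHeight (u i) + B.β * Height.logHeight (u' i)) -
        ∑ i ∈ s, (n1 : ℝ) * (hA A + Height.logHeight (w i) + 0) + s.card * (n1 * hA A) := by
    rw [← nsmul_eq_mul, ← Finset.sum_const, ← Finset.sum_sub_distrib, ← Finset.sum_add_distrib]
    refine Finset.sum_congr rfl fun i _ => ?_
    rw [(hrep i).1.ht, (hrep i).2.1.ht, (hrep i).2.2.ht]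
    ring
  rw [e]
  push_cast at key
  linarith

end D4C
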