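import Pool.Agent.Lib.D4C.BlueE

set_option autoImplicit false

namespace D4C

open MvPolynomial

namespace T70

lemma avg {I X R : Type} [Fintype I] [Fintype X] [Nonempty X] [Field R] [CharZero R]
    (upd : I → X → I) (proj : I → X) (h1 : ∀ ω x, upd (upd ω x) (proj ω) = ω)
    (h2 : ∀ ω x, proj (upd ω x) = x) (G : I → R) (h : ∀ ω, ∑ x, G (upd ω x) = 0) :
    ∑ ω, G ω = 0 := by
  have inv : Function.Involutive fun p : I × X => (upd p.1 p.2, proj p.1) := by
    rintro ⟨ω, x⟩
    simp only [h1, h2]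
  have e := Equiv.sum_comp inv.toPerm fun p : I × X => G p.1
  simp only [Function.Involutive.coe_toPerm, Fintype.sum_prod_type, h, Finset.sum_const_zero,
    Finset.sum_const, Finset.card_univ, nsmul_eq_mul, ← Finset.mul_sum] at e
  exact (mul_eq_zero.1 e.symm).resolve_left (Nat.cast_ne_zero.2 Fintype.card_ne_zero)

lemma Ln_alg {L σ R : Type} [Field L] [CommRing R] [Algebra L R] (f : (σ →₀ ℕ) → L)
    (F : MvPolynomial σ L) :
    Ln L (fun γ => algebraMap L R (f γ)) F = algebraMap L R (Ln L f F) := by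
  have : Ln L (fun γ => algebraMap L R (f γ)) = (Algebra.linearMap L R).comp (Ln L f) := by
    apply (basisMonomials σ L).ext
    intro γ
    simp only [Ln, LinearMap.comp_apply, Module.Basis.constr_basis, Algebra.linearMap_apply]
  rw [this]
  rfl

end T70

theorem st_VANB (hTN : St_TN) (hTNG : St_TNG) : St_VANB := by
  intro L σ _ _ _ _ B g C k d κ s Dm c j f hj hM hE Λ Ω _ _ x0 T hx0 hz hT0 hTj
  classical
  have : CharZero Ω := charZero_of_injective_algebraMap (algebraMap L Ω).injective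
  obtain ⟨-, t2, -, t4, -⟩ := hTN L (Fin (k + 1)) σ Ω
  have hu := uni_iff_ne_zero.2 hx0
  obtain ⟨u, hu'⟩ := Pkg.exists_rep (2 ^ κ 0 • B.pt x0 hu hz)
  obtain ⟨E, hEm⟩ := hM.2 Ω _ x0 u (Pkg.rep_pt x0 hu hz) hu'
  have e0 : T 0 = mon x0 := funext hT0
  have ej : T j = fun γ => algebraMap L Ω (f γ) := funext hTj
  let Y : ∀ i : Fin (k + 1), Fin (4 ^ (g * κ i)) → (Fin g → Fin (dd 1 d i + 1)) → Ω :=
    fun i l α => Yv (lawQ C (Λ i) (dd 1 d i) α)
      (fun γ => Ln L (T i) (monomial (s i l) 1 * Dm i γ)) u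
  have val : ∀ ω : Idx g k 1 d κ, Tn L T (eL C 1 d κ s Dm Λ ω) =
      (aeval x0 (monomial (s 0 (ω.1 0)) (1 : L)) * E *
        ∏ i ∈ (Finset.univ.erase 0).erase j, Y i (ω.1 i) (ω.2 i)) *
      (aeval u (om C (dd 1 d (0 : Fin (k + 1))) (ω.2 0)) * Y j (ω.1 j) (ω.2 j)) := by
    intro ω
    have a1 := t2 T (fun i => monomial (s i (ω.1 i)) (1 : L)) Dm (GU C 1 d Λ ω.2)
    have a2 := (hTNG L σ Ω B g C k 1 d Λ ω.2).2.2
      (fun i γ => Ln L (T i) (monomial (s i (ω.1 i)) (1 : L) * Dm i γ))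
      (aeval x0 (monomial (s 0 (ω.1 0)) (1 : L)) * E) u (by
        intro γ hγ
        simp only [e0, ← t4, map_mul, hEm γ hγ, mon, mul_assoc])
    refine (a1.trans a2).trans ?_
    rw [← Finset.mul_prod_erase (Finset.univ.erase 0) _
      (Finset.mem_erase.2 ⟨hj, Finset.mem_univ j⟩)]
    ring
  simp only [map_sum, map_smul, val]
  refine T70.avg (X := Fin (4 ^ (g * κ j)) × (Fin g → Fin (dd 1 d j + 1)) ×
      (Fin g → Fin (dd 1 d (0 : Fin (k + 1)) + 1)))
    (fun ω x => (Function.update ω.1 j x.1,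
      Function.update (Function.update ω.2 j x.2.1) 0 x.2.2))
    (fun ω => (ω.1 j, ω.2 j, ω.2 0)) ?_ ?_ _ ?_
  · rintro ⟨a, b⟩ x
    simp only [Function.update_idem, Function.update_eq_self, Prod.mk.injEq, true_and]
    funext i
    by_cases h0 : i = 0
    · subst h0
      simp
    by_cases h1 : i = j
    · subst h1
      simp [Function.update_of_ne h0]
    · simp [Function.update_of_ne h0, Function.update_of_ne h1]
  · rintro ⟨a, b⟩ x
    simp [Function.update_of_ne hj]
  · intro ω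
    have h := hE (Λ j) ω Ω u hu'.zr
    have hp : ∀ (x : Fin (4 ^ (g * κ j))) (y : Fin g → Fin (dd 1 d j + 1))
        (z : Fin g → Fin (dd 1 d (0 : Fin (k + 1)) + 1)),
        ∏ i ∈ (Finset.univ.erase 0).erase j, Y i (Function.update ω.1 j x i)
          (Function.update (Function.update ω.2 j y) 0 z i) =
        ∏ i ∈ (Finset.univ.erase 0).erase j, Y i (ω.1 i) (ω.2 i) := by
      intro x y z
      refine Finset.prod_congr rfl fun i hi => ?_
      obtain ⟨h1, h2⟩ := Finset.mem_erase.1 hi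
      rw [Function.update_of_ne h1, Function.update_of_ne (Finset.mem_erase.1 h2).1,
        Function.update_of_ne h1]
    simp only [Fintype.sum_prod_type, hp, Function.update_self, Function.update_of_ne hj,
      Function.update_of_ne hj.symm, ← mul_smul_comm, ← Finset.mul_sum]
    simp only [Y, ej, T70.Ln_alg, mul_smul_comm]
    rw [h, mul_zero]

end D4C
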