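import Pool.Agent.Lib.D4C.M56B

/-! d4c56 final transfer, part C: the statement for abelian varieties in projective space. -/

namespace D4C

open MvPolynomial

/-- the final statement -/
def St_FINAL : Prop := ∀ (K : Type) [Field K] [NumberField K] (n : ℕ)
    (A : AbVar (AlgebraicClosure K) (Fin (n + 1))) (r d : ℕ)
    (f : Fin r → MvPolynomial (Fin (n + 1)) K), (∀ i, (f i).IsHomogeneous d) → ∀ ε : ℝ, 0 < ε →
    ∃ (C : ℝ) (BB : Set (AddSubgroup A.carrier)), BB.Finite ∧ (∀ B ∈ BB, A.IsSubvar B) ∧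
      ∀ (P : A.carrier) (x : Fin (n + 1) → K)
        (hx : (fun i => algebraMap K (AlgebraicClosure K) (x i)) ≠ 0),
        P.1 = Projectivization.mk (AlgebraicClosure K) _ hx → (fun i => eval x (f i)) ≠ 0 →
        (∀ B ∈ BB, CodimTwo ({p | ∀ i, aeval p.rep (f i) = 0} ∩ A.transl P B) (A.transl P B)) →
        (d - ε) * Height.logHeight x - C ≤ Height.logHeight fun i => eval x (f i)

namespace M56

/-- a symmetric model over a finite extension -/
theorem model (h1 : St_SYM) (h2 : St_PK1) (h3 : St_PK2) (h4 : St_NEG0) (K κ σ : Type) [Field K]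
    [Field κ] [IsAlgClosed κ] [Algebra K κ] [Algebra.IsAlgebraic K κ] [Fintype σ] [DecidableEq σ]
    (A : AbVar κ σ) : ∃ (L : IntermediateField K κ) (_ : FiniteDimensional K L)
      (A' : AbVar κ (σ × σ)) (e : A.carrier ≃+ A'.carrier) (B : Pkg L (σ × σ))
      (E : A'.carrier ≃+ B.Pt κ) (nl m : ℕ) (N : Fin nl → σ → MvPolynomial σ L),
      (∀ p, Par (e p).1.rep (sg A p)) ∧ (∀ z, B.Rep (E z) z.1.rep) ∧
      (∀ a i, (N a i).IsHomogeneous m) ∧ ∀ p : A.carrier,
        (∃ a, (fun i => aeval p.1.rep (N a i)) ≠ 0) ∧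
          ∀ a, Par (fun i => aeval p.1.rep (N a i)) (-p).1.rep := by
  classical
  obtain ⟨A', e, he, hn⟩ := h1 κ σ A
  obtain ⟨B0, e2, he2⟩ := h2 κ (σ × σ) A' _ hn
  obtain ⟨nl, m, N, hN, hN'⟩ := h4 κ σ A
  obtain ⟨L, hL, hT, B, e3, he3⟩ := h3 K κ (σ × σ) B0
    (Finset.univ.biUnion fun ai : Fin nl × σ => (N ai.1 ai.2).coeffs)
  have hl : ∀ a i, ∃ G : MvPolynomial σ L, MvPolynomial.map (algebraMap L κ) G = N a i := by
    intro a i
    refine ⟨∑ d ∈ (N a i).support.attach, monomial d.1 ⟨coeff d.1 (N a i), hT _ ?_⟩, ?_⟩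
    · exact Finset.mem_biUnion.mpr ⟨(a, i), Finset.mem_univ _,
        coeff_mem_coeffs _ (mem_support_iff.mp d.2)⟩
    · rw [map_sum]
      simp only [map_monomial]
      conv_rhs => rw [(N a i).as_sum, ← Finset.sum_attach]
      rfl
  choose G hG using hl
  have hv : ∀ a i (x : σ → κ), aeval x (G a i) = eval x (N a i) := fun a i x => by
    rw [← hG, ← ae, aeval_map_tower]
  refine ⟨L, hL, A', e, B, e2.trans e3, nl, m, G, he, fun z => (he3 _ _).mp (he2 z), ?_, ?_⟩
  · intro a i d hd
    apply hN a i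
    rw [← hG, coeff_map]
    exact (map_ne_zero _).mpr hd
  · intro p
    simp only [hv]
    exact hN' p

theorem arith {d ε m hx hx' hf C C' D : ℝ} (hε : 0 < ε) (hm : 0 ≤ m) (hD : 0 < D)
    (h1 : hx' ≤ C' + m * (D * hx))
    (h2 : (d - ε / (m + 1)) * (D * hx + hx') - C ≤ D * hf + d * hx') :
    (d - ε) * hx - (C + ε / (m + 1) * C') / D ≤ hf := by
  have e0 : 0 < ε / (m + 1) := by positivity
  have e1 : ε / (m + 1) * (m + 1) = ε := by field_simp
  generalize ε / (m + 1) = η at *
  have e2 : η * hx' ≤ η * (C' + m * (D * hx)) := mul_le_mul_of_nonneg_left h1 e0.le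
  rw [sub_le_iff_le_add, ← sub_le_iff_le_add', le_div_iff₀ hD, ← e1]
  nlinarith

theorem final (hLP : St_LP) (hD : St_DIM) (hS : St_SHARP) (h1 : St_SYM) (h2 : St_PK1)
    (h3 : St_PK2) (h4 : St_NEG0) (hH : St_HEXT) : St_FINAL := by
  classical
  intro K _ _ n A r d f hf ε hε
  obtain ⟨L, hL, A', e, B, E, nl, m, N, he, hE, hN, hN'⟩ :=
    model h1 h2 h3 h4 K (AlgebraicClosure K) (Fin (n + 1)) A
  have : NumberField L := NumberField.of_module_finite K L
  have : Algebra.IsAlgebraic L (AlgebraicClosure K) := Algebra.IsAlgebraic.tower_top (K := K) L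
  let ι := (Fintype.equivFin (Fin r × Fin (n + 1))).symm
  let f0 : Fin r × Fin (n + 1) → MvPolynomial (Fin (n + 1) × Fin (n + 1)) L := fun u =>
    rename (fun i => (i, u.2)) (MvPolynomial.map (algebraMap K L) (f u.1))
  have hf0 : ∀ (R : Type) [CommRing R] [Algebra K R] [Algebra L R] [IsScalarTower K L R]
      (x y : Fin (n + 1) → R) (u : Fin r × Fin (n + 1)),
      aeval (fun ij : Fin (n + 1) × Fin (n + 1) => x ij.1 * y ij.2) (f0 u) =
        aeval x (f u.1) * y u.2 ^ d := by
    intro R _ _ _ _ x y u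
    simp only [f0]
    rw [aeval_rename, aeval_map_tower, mul_comm, ← aeval_smul_hom (hf u.1)]
    congr 2
    funext i
    simp [mul_comm]
  have hh0 : ∀ u, (f0 u).IsHomogeneous d := fun u => ((hf u.1).map _).rename_isHomogeneous
  obtain ⟨C, BB, hfin, hBB, hb⟩ := layer1 hLP hD hS L (AlgebraicClosure K) _ A' B E hE _ d
    (f0 ∘ ι) (fun i => hh0 _) (ε / (m + 1)) (by positivity)
  have hC : ∀ a, ∃ C : ℝ, ∀ x : Fin (n + 1) → L,
      (Height.logHeight fun j => eval x (N a j)) ≤ C + m * Height.logHeight x :=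
    fun a => Height.logHeight_eval_le' (hN a)
  choose C1 hC1 using hC
  have iso := iso_sym hLP A A' e.toEquiv he
  have hcm : ∀ G : AddSubgroup A'.carrier, ((G.comap e.toAddMonoidHom : AddSubgroup A.carrier) :
      Set A.carrier) = e.toEquiv.symm '' (G : Set A'.carrier) := by
    intro G
    rw [Equiv.image_eq_preimage_symm]
    rfl
  refine ⟨(C + ε / (m + 1) * ∑ a, |C1 a|) / (Module.finrank K L : ℝ),
    (fun G : AddSubgroup A'.carrier => G.comap e.toAddMonoidHom) '' BB, hfin.image _, ?_, ?_⟩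
  · rintro _ ⟨G, hG, rfl⟩
    obtain ⟨g1, g2, g3⟩ := hBB G hG
    refine ⟨fun h => g1 ?_, ?_, ?_⟩
    · rw [eq_bot_iff]
      intro z hz
      have h5 : e.symm z ∈ G.comap e.toAddMonoidHom := by simpa using hz
      rw [show G.comap e.toAddMonoidHom = ⊥ from h, AddSubgroup.mem_bot] at h5
      simpa using h5
    · rw [transl_zero, hcm]
      exact iso.cl' _ g2
    · rw [transl_zero, hcm]
      exact iso.ir' _ g3
  · intro P x hx hP hfx hc
    have hx0 : x ≠ 0 := fun h => hx (by funext i; simp [h])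
    let xL : Fin (n + 1) → L := fun i => algebraMap K L (x i)
    have hxL : xL ≠ 0 := uni_iff_ne_zero.mp ((uni_iff_ne_zero.mpr hx0).map (algebraMap K L))
    have hxe : (fun i => algebraMap K (AlgebraicClosure K) (x i)) =
        fun i => algebraMap L (AlgebraicClosure K) (xL i) :=
      funext fun i => IsScalarTower.algebraMap_apply K L _ _
    obtain ⟨c, hc0, hcx⟩ := smul_of_par (par_of_eq_mk hP).symm hx P.1.rep_nonzero
    rw [hxe] at hcx
    obtain ⟨⟨a, ha⟩, hpar⟩ := hN' P
    let x' : Fin (n + 1) → L := fun j => eval xL (N a j)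
    have hx' : (fun i => aeval P.1.rep (N a i)) =
        c ^ m • fun i => algebraMap L (AlgebraicClosure K) (x' i) := by
      funext i
      rw [hcx, aeval_smul_hom (hN a i)]
      simp only [Pi.smul_apply, smul_eq_mul, x']
      rw [← ae]
      exact congrArg _ (aeval_map_alg (Algebra.ofId L (AlgebraicClosure K)) xL (N a i))
    have hx'0 : x' ≠ 0 := fun h => ha (by rw [hx', h]; funext i; simp)
    obtain ⟨c', -, hc'⟩ := smul_of_par (hpar a) ha (-P).1.rep_nonzero
    rw [hx', smul_smul] at hc'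
    let z : Fin (n + 1) × Fin (n + 1) → L := fun ij => xL ij.1 * x' ij.2
    have hz0 : z ≠ 0 := by
      obtain ⟨i, hi⟩ := Function.ne_iff.mp hxL
      obtain ⟨j, hj⟩ := Function.ne_iff.mp hx'0
      exact Function.ne_iff.mpr ⟨(i, j), mul_ne_zero hi hj⟩
    have hzp : Par (e P).1.rep fun ij => algebraMap L (AlgebraicClosure K) (z ij) := by
      refine (he P).trans (uni_iff_ne_zero.mpr (sg_ne A P)) ?_
      intro ij kl
      simp only [sg, z, map_mul]
      rw [hcx, hc']
      simp only [Pi.smul_apply, smul_eq_mul]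
      ring
    let fL : Fin r → L := fun i => algebraMap K L (eval x (f i))
    have hfL : fL ≠ 0 := uni_iff_ne_zero.mp ((uni_iff_ne_zero.mpr hfx).map (algebraMap K L))
    have hval : (fun i => aeval z ((f0 ∘ ι) i)) =
        (fun u : Fin r × Fin (n + 1) => fL u.1 * (x' ^ d) u.2) ∘ ι := by
      funext i
      simp only [Function.comp_apply, z]
      rw [hf0 L xL x']
      simp only [fL, Pi.pow_apply]
      rw [← ae]
      exact congrArg (· * _) (aeval_map_alg (Algebra.ofId K L) x (f _))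
    have hxd : x' ^ d ≠ 0 := by
      obtain ⟨j, hj⟩ := Function.ne_iff.mp hx'0
      exact Function.ne_iff.mpr ⟨j, pow_ne_zero d hj⟩
    have key := hb (e P) z hz0 hzp (by
      rw [hval]
      obtain ⟨i, hi⟩ := Function.ne_iff.mp hfL
      obtain ⟨j, hj⟩ := Function.ne_iff.mp hxd
      refine Function.ne_iff.mpr ⟨ι.symm (i, j), ?_⟩
      simp only [Function.comp_apply, Equiv.apply_symm_apply]
      exact mul_ne_zero hi hj) (fun G hG => by
      have c1 := hc _ ⟨G, hG, rfl⟩
      rw [transl_eq] at c1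
      have c2 := iso.cod (cod_of c1)
      have e1 : e.toEquiv '' (Equiv.addLeft P '' ((G.comap e.toAddMonoidHom :
          AddSubgroup A.carrier) : Set A.carrier)) = Equiv.addLeft (e P) '' (G : Set A'.carrier) := by
        ext w
        constructor
        · rintro ⟨_, ⟨b, hb, rfl⟩, rfl⟩
          exact ⟨e b, hb, (map_add e P b).symm⟩
        · rintro ⟨b, hb, rfl⟩
          exact ⟨_, ⟨e.symm b, by simpa using hb, rfl⟩, by simp⟩
      rw [Set.image_inter e.toEquiv.injective, e1] at c2
      refine c2.anti (Set.inter_subset_inter_left _ fun w hw => ?_)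
      obtain ⟨p, rfl⟩ := e.surjective w
      refine ⟨p, fun i => ?_, rfl⟩
      obtain ⟨j, hj⟩ := Function.ne_iff.mp (-p).1.rep_nonzero
      obtain ⟨c2, hc2, hc3⟩ := smul_of_par (he p).symm (sg_ne A p) (e p).1.rep_nonzero
      have h6 := hw (ι.symm (i, j))
      simp only [Function.comp_apply, Equiv.apply_symm_apply] at h6
      rw [hc3, aeval_smul_hom (hh0 _)] at h6
      have h7 := (mul_eq_zero.mp h6).resolve_left (pow_ne_zero _ hc2)
      unfold sg at h7
      rw [hf0] at h7
      exact (mul_eq_zero.mp h7).resolve_right (pow_ne_zero _ hj))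
    rw [hval, Height.logHeight_comp_equiv, Height.logHeight_fun_mul_eq hfL hxd,
      Height.logHeight_fun_mul_eq hxL hx'0, Height.logHeight_pow, hH K L _ x,
      hH K L _ fun i => eval x (f i)] at key
    have b1 := hC1 a xL
    rw [hH K L _ x] at b1
    have b2 : C1 a ≤ ∑ a, |C1 a| := (le_abs_self _).trans
      (Finset.single_le_sum (f := fun a => |C1 a|) (fun _ _ => abs_nonneg _) (Finset.mem_univ a))
    exact arith hε (Nat.cast_nonneg m) (by exact_mod_cast Module.finrank_pos)
      (b1.trans (by linarith)) key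

end M56

end D4C
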