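import Pool.Agent.Lib.D4C.BlueE
import Pool.Agent.Lib.D4C.B_LG

/-! Calculus of sums over all places. -/

namespace D4C

open Height Height.AdmissibleAbsValues

namespace T4

variable {L : Type} [Field L] [NumberField L]

theorem supp_log {f : AbsoluteValue L ℝ → ℝ} (h : ∀ v, 0 < f v) :
    (Function.support fun v : nonarchAbsVal (K := L) => Real.log (f v.1)) =
      Function.mulSupport fun v : nonarchAbsVal (K := L) => f v.1 := by
  ext v
  simp only [Function.mem_support, Function.mem_mulSupport, ne_eq]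
  refine not_congr ⟨fun e => ?_, fun e => by rw [e, Real.log_one]⟩
  exact Real.eq_one_of_pos_of_log_eq_zero (h _) e

theorem ad_pos {f : AbsoluteValue L ℝ → ℝ} (h : ∀ v, 0 < f v) : 0 < T51.ad f :=
  mul_pos (Multiset.prod_pos fun x hx => by
    obtain ⟨v, _, rfl⟩ := Multiset.mem_map.1 hx
    exact h v) (finprod_induction (fun x : ℝ => 0 < x) one_pos (fun _ _ => mul_pos) fun v => h _)

theorem log_ad {f : AbsoluteValue L ℝ → ℝ} (h : ∀ v, 0 < f v) : Real.log (T51.ad f) =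
    ((archAbsVal (K := L)).map fun v => Real.log (f v)).sum +
      ∑ᶠ v : nonarchAbsVal (K := L), Real.log (f v.1) := by
  have h1 : ∀ x ∈ (archAbsVal (K := L)).map f, x ≠ 0 := fun x hx => by
    obtain ⟨v, _, rfl⟩ := Multiset.mem_map.1 hx
    exact (h v).ne'
  have h2 : 0 < ∏ᶠ v : nonarchAbsVal (K := L), f v.1 :=
    finprod_induction (fun x : ℝ => 0 < x) one_pos (fun _ _ => mul_pos) fun v => h _
  unfold T51.ad
  rw [Real.log_mul (Multiset.prod_ne_zero fun h0 => h1 0 h0 rfl) h2.ne',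
    Real.log_finprod fun v => h _, Real.log_multiset_prod h1, Multiset.map_map]
  rfl

theorem mkAd {f : AbsoluteValue L ℝ → ℝ} {H : ℝ} (h : ∀ v, 0 < f v)
    (hp : ∀ (v w : AbsoluteValue L ℝ) (q : ℕ), 1 ≤ q → (∀ x, w x = v x ^ q) → f w = f v ^ q)
    (hf : T51.Fs f) (hH : Real.log (T51.ad f) = H) : Ad f H :=
  ⟨h, hp, by rw [supp_log h]; exact hf, by rw [← log_ad h, hH]⟩

theorem fs {f : AbsoluteValue L ℝ → ℝ} {H : ℝ} (h : Ad f H) : T51.Fs f := by
  have := h.fin
  rw [supp_log h.pos] at this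
  exact this

theorem lg {f : AbsoluteValue L ℝ → ℝ} {H : ℝ} (h : Ad f H) : Real.log (T51.ad f) = H := by
  rw [log_ad h.pos, h.sum]

theorem ad_sn {ι : Type} [Fintype ι] (x : ι → L) (hx : x ≠ 0) :
    Ad (fun v => sn v x) (logHeight x) := by
  refine mkAd (fun v => ?_) (fun v w q hq e => ?_) (T51.fs_sn hx)
    (by rw [T51.ad_sn hx, logHeight_eq_log_mulHeight])
  · obtain ⟨i, hi⟩ := Function.ne_iff.1 hx
    exact (v.pos hi).trans_le (Finite.le_ciSup_of_le (f := fun i => v (x i)) i le_rfl)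
  · unfold sn
    simp only [e]
    exact (Real.iSup_pow_of_ne_zero (fun i => v.nonneg (x i)) (by omega)).symm

theorem ad_hv (A : Finset L) : Ad (fun v => hv v A) (hA A) := by
  refine mkAd (fun v => Finset.prod_pos fun a _ => one_pos.trans_le (le_max_left _ _))
    (fun v w q hq e => ?_) (T51.ad_hv A).1 (by rw [(T51.ad_hv A).2, Real.log_exp])
  unfold hv
  rw [← Finset.prod_pow]
  refine Finset.prod_congr rfl fun a _ => ?_
  rw [e]
  rcases le_total 1 (v a) with h1 | h1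
  · rw [max_eq_right h1, max_eq_right (one_le_pow₀ h1)]
  · rw [max_eq_left h1, max_eq_left (pow_le_one₀ (v.nonneg a) h1), one_pow]

theorem ad_abs (a : L) (ha : a ≠ 0) : Ad (fun v => v a) 0 :=
  mkAd (fun v => v.pos ha) (fun _ _ _ _ e => e a) (T51.fs_abs ha)
    (by rw [T51.ad_abs ha, Real.log_one])

theorem ad_one : Ad (fun _ : AbsoluteValue L ℝ => (1 : ℝ)) 0 :=
  mkAd (fun _ => one_pos) (fun _ _ _ _ _ => (one_pow _).symm) T51.fs_one
    (by rw [T51.ad_one, Real.log_one])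

theorem ad_mul {f g : AbsoluteValue L ℝ → ℝ} {a b : ℝ} (hf : Ad f a) (hg : Ad g b) :
    Ad (fun v => f v * g v) (a + b) :=
  mkAd (fun v => mul_pos (hf.pos v) (hg.pos v))
    (fun v w q hq e => by rw [hf.pow v w q hq e, hg.pow v w q hq e, mul_pow])
    ((fs hf).mul (fs hg))
    (by rw [T51.ad_mul (fs hf) (fs hg), Real.log_mul (ad_pos hf.pos).ne' (ad_pos hg.pos).ne',
      lg hf, lg hg])

theorem ad_prod {ι : Type} (s : Finset ι) (f : ι → AbsoluteValue L ℝ → ℝ) (a : ι → ℝ)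
    (h : ∀ i ∈ s, Ad (f i) (a i)) : Ad (fun v => ∏ i ∈ s, f i v) (∑ i ∈ s, a i) := by
  classical
  induction s using Finset.induction_on with
  | empty => exact ad_one
  | insert j s hj ih =>
    simp only [Finset.prod_insert hj, Finset.sum_insert hj]
    exact ad_mul (h j (Finset.mem_insert_self _ _))
      (ih fun i hi => h i (Finset.mem_insert_of_mem hi))

theorem ad_pow {f : AbsoluteValue L ℝ → ℝ} {a : ℝ} (n : ℕ) (hf : Ad f a) :
    Ad (fun v => f v ^ n) (n * a) := by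
  simpa using ad_prod (Finset.range n) (fun _ => f) (fun _ => a) fun _ _ => hf

theorem ad_le {f g : AbsoluteValue L ℝ → ℝ} {a b n0 : ℝ} (hf : Ad f a) (hg : Ad g b)
    (hn : 1 ≤ n0) (h : ∀ v, f v ≤ n0 * g v) :
    a ≤ b + Module.finrank ℚ L * Real.log n0 := by
  have h0 : 0 < n0 := one_pos.trans_le hn
  have h1 := T51.ad_le (fs hf) (fs hg) (fun v => (hf.pos v).le) h fun v hv =>
    T51.le_of_pow_le (c := n0) (hg.pos v).le fun k => by
      rw [← hf.pow v (T51.vpow v hv k) (k + 1) (by omega) fun _ => rfl,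
        ← hg.pow v (T51.vpow v hv k) (k + 1) (by omega) fun _ => rfl]
      exact h _
  have h2 := Real.log_le_log (ad_pos hf.pos) h1
  rw [Real.log_mul (pow_pos h0 _).ne' (ad_pos hg.pos).ne', Real.log_pow, lg hf, lg hg] at h2
  linarith

theorem hP_le {τ : Type} (P : MvPolynomial τ L) {g : AbsoluteValue L ℝ → ℝ} {b n0 : ℝ}
    (hP0 : P ≠ 0) (hg : Ad g b) (hn : 1 ≤ n0) (h : ∀ v, l1 v P ≤ n0 * g v) :
    hP P ≤ b + Module.finrank ℚ L * Real.log n0 := by
  have hx : (fun d : P.support => MvPolynomial.coeff d.1 P) ≠ 0 := by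
    obtain ⟨d, hd⟩ := MvPolynomial.support_nonempty.2 hP0
    exact Function.ne_iff.2 ⟨⟨d, hd⟩, MvPolynomial.mem_support_iff.1 hd⟩
  refine ad_le (ad_sn _ hx) hg hn fun v => le_trans ?_ (h v)
  refine Real.iSup_le (fun d => ?_) (Finset.sum_nonneg fun _ _ => v.nonneg _)
  exact Finset.single_le_sum (f := fun d => v (MvPolynomial.coeff d P))
    (fun _ _ => v.nonneg _) d.2

end T4

theorem st_AD : St_AD := fun _ _ _ =>
  ⟨fun _ _ x hx => T4.ad_sn x hx, T4.ad_hv, T4.ad_abs, fun _ _ _ _ => T4.ad_mul,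
    fun _ _ n => T4.ad_pow n, fun _ => T4.ad_prod, fun _ _ _ _ _ => T4.ad_le,
    fun _ P _ _ _ => T4.hP_le P⟩

end D4C
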