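import Pool.Agent.Lib.D4C.BlueA

/-! Step A along an ultrafilter from step A for one tuple. -/

namespace D4C

open MvPolynomial Filter

theorem st_EA2 (hF : St_EAF) (hC : St_CONE) : St_EA2 := by
  intro L σ _ _ _ _ B g m hg hm C S a hAt ε hε
  obtain ⟨C1, hC1, hcone⟩ := hC L σ B
  obtain ⟨ρ, D0, θ, hθ, h1⟩ := hF L σ B g m hg hm C S.e S.D S.D1 ε C1 hε hC1
  obtain ⟨c0, hc0, hgen⟩ := S.gen D0
  obtain ⟨ε', H0, hε', h2⟩ := h1 c0 hc0
  by_contra hn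
  rw [← Ultrafilter.eventually_not] at hn
  have hall := hn.and (hAt.and (S.ok.and ((S.big.eventually_ge_atTop H0).and
    ((S.small ε' hε').and hgen))))
  obtain ⟨n, κ, hn1, hκ, hh⟩ := hcone S.U S.x S.big g ρ θ hθ _ hall
  obtain ⟨i, hi⟩ := h2 (fun i => S.x (n i)) (fun i => S.W (n i)) (fun i => S.z (n i))
    (fun i => S.t (n i)) (fun _ => a) (fun i => S.A (n i)) κ (fun i => (hn1 i).2.1)
    (fun i => (hn1 i).2.2.1.2.1) (fun i => (hn1 i).2.2.2.1) (fun i => (hn1 i).2.2.2.2.1)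
    (fun i => (hn1 i).2.2.2.2.2) hκ hh
  exact (hn1 i).1 hi

end D4C
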