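import Pool.Agent.Lib.D4C.B_GLUE
import Pool.Agent.Lib.D4C.B_BLK

/-! Generic points in several blocks. -/

namespace D4C

open MvPolynomial

namespace T80

variable {F R : Type} [Field F] [CommRing R] [Algebra F R]

theorem sum_zero_of_dual {ι : Type} (D : Finset ι) (a r : ι → R)
    (h : ∀ l : R →ₗ[F] F, ∑ d ∈ D, l (r d) • a d = 0) : ∑ d ∈ D, a d * r d = 0 := by
  classical
  let b := Module.Basis.ofVectorSpace F R
  have h1 : ∀ d ∈ D, a d * r d
      = ∑ k ∈ D.biUnion fun d => (b.repr (r d)).support, (b.coord k (r d) • a d) * b k := by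
    intro d hd
    conv_lhs => rw [← b.linearCombination_repr (r d), Finsupp.linearCombination_apply,
      Finsupp.sum_of_support_subset _ (Finset.subset_biUnion_of_mem
        (fun d => (b.repr (r d)).support) hd) _ (by simp), Finset.mul_sum]
    exact Finset.sum_congr rfl fun k _ => by rw [mul_smul_comm, smul_mul_assoc]; rfl
  rw [Finset.sum_congr rfl h1, Finset.sum_comm]
  exact Finset.sum_eq_zero fun k _ => by rw [← Finset.sum_mul, h, zero_mul]

/-- one block is replaced -/
theorem one_block {σ ρ ι : Type} [Fintype σ] (y : σ → PS ρ F) (x : σ → R) (n : ℕ)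
    (hg : ∀ H : MvPolynomial σ F, H.IsHomogeneous n → aeval y H = 0 → aeval x H = 0)
    (D : Finset ι) (e : ι → σ →₀ ℕ) (he : ∀ d ∈ D, (e d).degree = n) (r : ι → R)
    (h : ∀ J, ∑ d ∈ D, algebraMap F R (MvPowerSeries.coeff J (mon y (e d))) * r d = 0) :
    ∑ d ∈ D, mon x (e d) * r d = 0 := by
  refine sum_zero_of_dual (F := F) D _ r fun l => ?_
  have key : ∀ (S : Type) [CommRing S] [Algebra F S] (w : σ → S),
      aeval w (∑ d ∈ D, monomial (e d) (l (r d))) = ∑ d ∈ D, l (r d) • mon w (e d) := by
    intro S _ _ w
    rw [map_sum]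
    refine Finset.sum_congr rfl fun d _ => ?_
    rw [aeval_monomial, Finsupp.prod_fintype _ _ fun _ => pow_zero _, Algebra.smul_def, mon]
  rw [← key]
  refine hg _ (IsHomogeneous.sum _ _ _ fun d hd => isHomogeneous_monomial _ (he d hd)) ?_
  rw [key]
  ext J
  have h1 := congrArg l (h J)
  rw [map_sum, map_zero] at h1
  rw [map_sum, map_zero, ← h1]
  exact Finset.sum_congr rfl fun d _ => by
    rw [map_smul, ← Algebra.smul_def, map_smul, smul_eq_mul, smul_eq_mul, mul_comm]

theorem evB_sum {κ σ : Type} [Fintype κ] [Fintype σ] (x : κ → σ → R)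
    (G : MvPolynomial (κ × σ) F) :
    evB x G = ∑ d ∈ G.support, coeff d G • ∏ i, mon (x i) (d.curry i) := by
  conv_lhs => rw [G.as_sum, evB, map_sum]
  refine Finset.sum_congr rfl fun d _ => ?_
  rw [aeval_monomial, Finsupp.prod_fintype _ _ fun _ => pow_zero _, Algebra.smul_def,
    Fintype.prod_prod_type]
  rfl

end T80

theorem st_GENK (h1 : St_GEN1) : St_GENK := by
  intro L σ _ _ _ B g hg C F _ _ κ _ _ p y hy G δ hG h0 R _ _ _ _ x hx
  choose y0 hy0 using fun i => T85.exists_repAt C (a := (MvPowerSeries.X : Fin g → PS (Fin g) F))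
    (fun b => MvPowerSeries.constantCoeff_X b) (p i)
  have hb := fun i => T85.repAt_blk i (fun b => MvPowerSeries.constantCoeff_X b) (hy0 i)
  simp only [T85.blk_X] at hb
  choose c _ hc using fun i => T85.repAt_unit (hy i) (hb i)
  have h2 : evB (fun i s => blk i (y0 i s)) G = 0 := by
    rw [show (fun i s => blk i (y0 i s)) = fun i => c i • y i from funext hc, T1.evB_smul hG, h0,
      mul_zero]
  have key : ∀ (s : Finset κ) (J : κ → Fin g →₀ ℕ), ∑ d ∈ G.support, coeff d G • ∏ i,
      (if i ∈ s then mon (x i) (d.curry i)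
        else algebraMap F R (MvPowerSeries.coeff (J i) (mon (y0 i) (d.curry i)))) = 0 := by
    intro s
    induction s using Finset.induction_on with
    | empty =>
      intro J
      have h3 := congrArg (fun f => algebraMap F R (MvPowerSeries.coeff
        (Finsupp.equivFunOnFinite.symm fun q : κ × Fin g => J q.1 q.2) f)) h2
      simp only [T80.evB_sum, map_sum, map_zero] at h3
      rw [← h3]
      refine Finset.sum_congr rfl fun d _ => ?_
      have h4 : ∀ i, mon (fun s => blk i (y0 i s)) (d.curry i) = blk i (mon (y0 i) (d.curry i)) :=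
        fun i => by simp only [mon, ← T85.blkA_apply, map_prod, map_pow]
      simp only [h4, Finset.notMem_empty, if_false]
      have h5 : ∀ i, (Finsupp.equivFunOnFinite.symm fun q : κ × Fin g => J q.1 q.2).curry i = J i :=
        fun i => Finsupp.ext fun a => by rw [Finsupp.curry_apply]; rfl
      rw [map_smul, (st_BLK κ (Fin g) F).2, smul_eq_mul, map_mul, map_prod, Algebra.smul_def]
      simp only [h5]
    | insert j s hj ih =>
      intro J
      have h3 := T80.one_block (y0 j) (x j) (δ j)
        (fun H hH h => zr_ext.2 (hx j) H (h1 L σ B g hg C F (p j) (y0 j) (hy0 j) H _ hH h))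
        G.support (fun d => d.curry j) (fun d hd => hG d hd j)
        (fun d => coeff d G • ∏ i ∈ Finset.univ.erase j, (if i ∈ s then mon (x i) (d.curry i)
          else algebraMap F R (MvPowerSeries.coeff (J i) (mon (y0 i) (d.curry i))))) fun J' => by
          rw [← ih (Function.update J j J')]
          refine Finset.sum_congr rfl fun d _ => ?_
          rw [mul_smul_comm, ← Finset.mul_prod_erase _ _ (Finset.mem_univ j), if_neg hj,
            Function.update_self]
          congr 2
          exact Finset.prod_congr rfl fun i hi => by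
            rw [Function.update_of_ne (Finset.ne_of_mem_erase hi)]
      rw [← h3]
      refine Finset.sum_congr rfl fun d _ => ?_
      rw [mul_smul_comm, ← Finset.mul_prod_erase _ _ (Finset.mem_univ j),
        if_pos (Finset.mem_insert_self j s)]
      congr 2
      exact Finset.prod_congr rfl fun i hi => by
        simp only [Finset.mem_insert, Finset.ne_of_mem_erase hi, false_or]
  simpa [T80.evB_sum] using key Finset.univ 0

end D4C
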