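import Pool.Agent.Lib.D4C.BlueF
import Pool.Agent.Lib.D4C.B_LG
import Pool.Agent.Lib.D4C.B_LAW
import Pool.Agent.Lib.D4C.B_HEXT

/-! Heights under the group law. -/

namespace D4C

open MvPolynomial Height

namespace T93

variable {L : Type} [Field L]

/-- one constant for finitely many polynomials -/
theorem exists_cA {τ ι : Type} [Fintype ι] (G : ι → MvPolynomial τ L) :
    ∃ (c : ℝ) (A : Finset L), 1 ≤ c ∧ ∀ (v : AbsoluteValue L ℝ) (z : τ → L),
      (∀ s, v (z s) ≤ 1) → ∀ i, v (aeval z (G i)) ≤ c * hv v A := by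
  classical
  refine ⟨1 + ∑ i, ((G i).support.card : ℝ),
    Finset.univ.biUnion fun i => (G i).support.image fun d => coeff d (G i), ?_, ?_⟩
  · exact le_add_of_nonneg_right (Finset.sum_nonneg fun _ _ => Nat.cast_nonneg _)
  · intro v z hz i
    refine (T83.v_aeval_le v (fun d hd => ?_) hz).trans
      (mul_le_mul_of_nonneg_right ?_ (T51.hv_nonneg _ _))
    · exact Finset.mem_biUnion.2 ⟨i, Finset.mem_univ _, Finset.mem_image_of_mem _ hd⟩
    · exact (Finset.single_le_sum (f := fun i => ((G i).support.card : ℝ))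
        (fun _ _ => Nat.cast_nonneg _) (Finset.mem_univ i)).trans (by linarith)

theorem exists_norm {σ : Type} [Fintype σ] (v : AbsoluteValue L ℝ) {x : σ → L} (hx : x ≠ 0) :
    ∃ (c : L) (x' : σ → L), x = c • x' ∧ v c = sn v x ∧ ∀ s, v (x' s) ≤ 1 := by
  obtain ⟨i, hi, h⟩ := T83.exists_sn v hx
  refine ⟨x i, fun s => x s / x i, funext fun s => ?_, h.symm, fun s => ?_⟩
  · simp only [Pi.smul_apply, smul_eq_mul]
    field_simp
  · rw [map_div₀, div_le_one (v.pos hi), ← h]
    exact T83.le_sn v x s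

theorem root_le (w : AbsoluteValue L ℝ) {s : ℕ} (hs : 1 ≤ s) {X : L} {c : ℕ → L} {K M : ℝ}
    (hK : 1 ≤ K) (hM : 0 ≤ M) (hc : ∀ j, j < s → w (c j) ≤ K * M ^ (s - j))
    (h : X ^ s + ∑ j ∈ Finset.range s, c j * X ^ j = 0) : w X ≤ s * K * M := by
  by_contra! hn
  have hs' : (1 : ℝ) ≤ s := by exact_mod_cast hs
  have h1 : M ≤ s * K * M := le_mul_of_one_le_left hM (one_le_mul_of_one_le_of_one_le hs' hK)
  have hX : M ≤ w X := h1.trans hn.le
  have hX0 : 0 < w X := (hM.trans h1).trans_lt hn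
  obtain ⟨r, rfl⟩ : ∃ r, s = r + 1 := ⟨s - 1, by omega⟩
  have h2 : w X ^ (r + 1) ≤ ((r + 1 : ℕ) : ℝ) * (K * M * w X ^ r) := by
    rw [← map_pow, eq_neg_of_add_eq_zero_left h, AbsoluteValue.map_neg]
    refine (w.sum_le _ _).trans ?_
    rw [← nsmul_eq_mul]
    conv_rhs => rw [← Finset.card_range (r + 1)]
    refine Finset.sum_le_card_nsmul _ _ _ fun j hj => ?_
    have hj' := Finset.mem_range.1 hj
    obtain ⟨e, rfl⟩ : ∃ e, r = j + e := ⟨r - j, by omega⟩
    have h3 := hc j hj'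
    rw [show j + e + 1 - j = e + 1 by omega] at h3
    rw [map_mul, map_pow]
    calc w (c j) * w X ^ j ≤ K * M ^ (e + 1) * w X ^ j := by gcongr
      _ = K * M * (M ^ e * w X ^ j) := by ring
      _ ≤ K * M * (w X ^ e * w X ^ j) := by gcongr
      _ = _ := by ring
  have h4 : 0 < w X ^ r := pow_pos hX0 r
  rw [pow_succ] at h2
  nlinarith

variable [NumberField L] {σ : Type} [Fintype σ]

theorem lg3 {x y z : σ → L} (hx : x ≠ 0) (hy : y ≠ 0) (hz : z ≠ 0) {k m n : ℕ} {n0 : ℝ}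
    (h0 : 1 ≤ n0) {A : Finset L} {γ : L} (hγ : γ ≠ 0)
    (h : ∀ v : AbsoluteValue L ℝ,
      sn v z ^ k ≤ n0 * v γ * sn v x ^ m * sn v y ^ n * hv v A) :
    k * logHeight z ≤ Module.finrank ℚ L * Real.log n0 + m * logHeight x + n * logHeight y +
      hA A := by
  have h1 : (1 : Unit → L) ≠ 0 := one_ne_zero
  have := st_LG L Unit (Fin 3) σ Unit 1 1 ![z, x, y] ![0, m, n] ![k, 0, 0] n0 Unit (fun _ => A)
    (fun _ => 1) γ h1 h1 (fun q => by fin_cases q <;> assumption) h0 hγ fun v => by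
      simpa [Fin.prod_univ_three, sn, mul_assoc] using h v
  simpa [Fin.sum_univ_three, add_assoc] using this

/-- the same with the scaling factor in a finite extension -/
theorem lgx {L' : Type} [Field L'] [NumberField L'] [Algebra L L'] {x y : σ → L} (hx : x ≠ 0)
    (hy : y ≠ 0) {k m : ℕ} {n0 : ℝ} (h0 : 1 ≤ n0) {A : Finset L} {γ : L'} (hγ : γ ≠ 0)
    (h : ∀ (w : AbsoluteValue L' ℝ) (v : AbsoluteValue L ℝ), (∀ a, w (algebraMap L L' a) = v a) →
      sn v y ^ k ≤ n0 * w γ * sn v x ^ m * hv v A) :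
    k * logHeight y ≤ Module.finrank ℚ L * Real.log n0 + m * logHeight x + hA A := by
  have hi := (algebraMap L L').injective
  have hne : ∀ {x : σ → L}, x ≠ 0 → (fun i => algebraMap L L' (x i)) ≠ 0 := fun hx =>
    uni_iff_ne_zero.1 ((uni_iff_ne_zero.2 hx).map (algebraMap L L'))
  have h1 := lg3 (hne hx) (hne hx) (hne hy) (k := k) (m := m) (n := 0) h0
    (A := A.map ⟨_, hi⟩) hγ fun w => by
      have := h w (w.comp hi) fun _ => rfl
      rw [pow_zero, mul_one, hv, Finset.prod_map]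
      exact this
  have h2 : hA (A.map ⟨_, hi⟩) = Module.finrank L L' * hA A := by
    rw [hA, hA, Finset.sum_map, Finset.mul_sum]
    refine Finset.sum_congr rfl fun a _ => ?_
    rw [logHeight₁_eq_logHeight, logHeight₁_eq_logHeight, ← st_HEXT L L']
    congr 1
    funext i
    fin_cases i <;> simp
  have : FiniteDimensional L L' := Module.Finite.of_restrictScalars_finite ℚ L L'
  have h3 : (0 : ℝ) < Module.finrank L L' := by exact_mod_cast Module.finrank_pos
  rw [h2, st_HEXT L L', st_HEXT L L', ← Module.finrank_mul_finrank ℚ L L'] at h1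
  push_cast at h1
  refine le_of_mul_le_mul_left ?_ h3
  linarith

variable [DecidableEq σ] (B : Pkg L σ)

theorem ht_add : ∃ C : ℝ, ∀ p q : B.Pt L, B.ht (p + q) ≤ B.β * B.ht p + B.β * B.ht q + C := by
  obtain ⟨c, A, hc, hA'⟩ := exists_cA fun i : Fin B.nl × σ => B.A i.1 i.2
  refine ⟨Module.finrank ℚ L * Real.log c + hA A, fun p q => ?_⟩
  obtain ⟨x, hx⟩ := Pkg.exists_rep p
  obtain ⟨y, hy⟩ := Pkg.exists_rep q
  obtain ⟨a, ha⟩ := hx.exists_add hy
  have hx0 := uni_iff_ne_zero.1 hx.uni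
  have hy0 := uni_iff_ne_zero.1 hy.uni
  have hz0 := uni_iff_ne_zero.1 ha.uni
  have := lg3 hx0 hy0 hz0 (k := 1) (m := B.β) (n := B.β) hc (A := A) one_ne_zero fun v => by
    obtain ⟨i, -, hi⟩ := T83.exists_sn v hz0
    obtain ⟨cx, x', hx1, hx2, hx3⟩ := exists_norm v hx0
    obtain ⟨cy, y', hy1, hy2, hy3⟩ := exists_norm v hy0
    have h1 := hA' v (Sum.elim x' y') (fun s => by cases s <;> simp [hx3, hy3]) (a, i)
    rw [pow_one, hi, ← hx2, ← hy2, hx1, hy1, B.ev2_smul, Pi.smul_apply, smul_eq_mul, map_mul,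
      map_mul, map_pow, map_pow, map_one]
    calc _ ≤ v cx ^ B.β * v cy ^ B.β * (c * hv v A) := by
          gcongr
          exact h1
      _ = _ := by ring
  rw [ha.ht, hx.ht, hy.ht]
  push_cast at this
  linarith

omit [NumberField L] [DecidableEq σ] in
theorem hom_le {ι : Type} [Fintype ι] (G : ι → MvPolynomial σ L) :
    ∃ (c : ℝ) (A : Finset L), 1 ≤ c ∧ ∀ (v : AbsoluteValue L ℝ) (x : σ → L), x ≠ 0 →
      ∀ i n, (G i).IsHomogeneous n → v (aeval x (G i)) ≤ c * hv v A * sn v x ^ n := by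
  obtain ⟨c, A, hc, h⟩ := exists_cA G
  refine ⟨c, A, hc, fun v x hx i n hn => ?_⟩
  obtain ⟨cx, x', hx1, hx2, hx3⟩ := exists_norm v hx
  rw [← hx2, hx1, aeval_smul_hom hn, map_mul, map_pow, mul_comm]
  gcongr
  exact h v x' hx3 i

theorem ht_dbl (D : Dbl B) : ∃ C : ℝ, ∀ p : B.Pt L, |B.ht (2 • p) - 4 * B.ht p| ≤ C := by
  obtain ⟨c, A, hc, hA'⟩ := hom_le fun i : (σ × Fin D.s) ⊕ (σ × Fin D.s) =>
    i.elim (fun i => D.a (Finsupp.single i.1 D.N) i.2) fun i => D.b i.1 i.2
  have hs : (1 : ℝ) ≤ D.s := by exact_mod_cast D.s_pos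
  have hN : (1 : ℝ) ≤ D.N := by exact_mod_cast D.N_pos
  have hc' : 1 ≤ D.s * c := one_le_mul_of_one_le_of_one_le hs hc
  refine ⟨|Module.finrank ℚ L * Real.log (D.s * c) + hA A|, fun p => ?_⟩
  obtain ⟨x, hx⟩ := Pkg.exists_rep p
  obtain ⟨y, hy⟩ := Pkg.exists_rep (2 • p)
  have hx0 := uni_iff_ne_zero.1 hx.uni
  have hy0 := uni_iff_ne_zero.1 hy.uni
  let f := Algebra.ofId L (AlgebraicClosure L)
  obtain ⟨t, ht0, ha, hb⟩ := D.pt _ (B.map f p) _ _ (hx.map f) (map_nsmul (B.map f) 2 p ▸ hy.map f)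
  let L' := IntermediateField.adjoin L {t}
  have : FiniteDimensional L L' :=
    IntermediateField.adjoin.finiteDimensional (Algebra.IsIntegral.isIntegral t)
  have : NumberField L' := NumberField.of_module_finite L L'
  let t' : L' := ⟨t, IntermediateField.mem_adjoin_simple_self L t⟩
  have ht' : t' ≠ 0 := fun h => ht0 (congrArg Subtype.val h)
  have hf : ∀ a, algebraMap L' (AlgebraicClosure L) (algebraMap L L' a) = f a := fun _ => rfl
  have htt : algebraMap L' (AlgebraicClosure L) t' = t := rfl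
  have h1 := lgx hx0 hy0 (k := D.N) (m := 4 * D.N) hc' (A := A) (inv_ne_zero ht') fun w v hw => by
    obtain ⟨i, -, hi⟩ := T83.exists_sn v hy0
    have h2 := (ha (Finsupp.single i D.N) (Finsupp.degree_single _ _)).2
    rw [Finset.prod_eq_single i (fun j _ hj => by simp [Finsupp.single_eq_of_ne hj])
      (by simp), Finsupp.single_eq_same] at h2
    have h3 := root_le w D.s_pos (X := t' * algebraMap L L' (y i) ^ D.N)
      (c := fun j => algebraMap L L' (aeval x (D.a (Finsupp.single i D.N) j)))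
      (K := c * hv v A) (M := sn v x ^ (4 * D.N))
      (one_le_mul_of_one_le_of_one_le hc (T83.one_le_hv v A))
      (pow_nonneg (T51.sn_nonneg v x) _) (fun j hj => by
        rw [hw, ← pow_mul]
        exact hA' v x hx0 (Sum.inl (i, ⟨j, hj⟩)) _ (D.a_hom _ j hj)) (by
        apply (algebraMap L' (AlgebraicClosure L)).injective
        simp only [map_add, map_sum, map_mul, map_pow, hf, htt, map_zero, ← aeval_map_alg]
        exact h2)
    rw [map_mul, map_pow, hw, ← hi] at h3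
    have h4 := w.pos ht'
    rw [map_inv₀]
    refine le_of_mul_le_mul_left (h3.trans_eq ?_) h4
    field_simp
  have h2 := lgx hy0 hx0 (k := 4 * D.N) (m := D.N) hc' (A := A) ht' fun w v hw => by
    obtain ⟨i, -, hi⟩ := T83.exists_sn v hx0
    have h3 := root_le w D.s_pos (X := algebraMap L L' (x i) ^ (4 * D.N))
      (c := fun j => t' ^ (D.s - j) * algebraMap L L' (aeval y (D.b i j)))
      (K := c * hv v A) (M := w t' * sn v y ^ D.N)
      (one_le_mul_of_one_le_of_one_le hc (T83.one_le_hv v A))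
      (mul_nonneg (w.nonneg _) (pow_nonneg (T51.sn_nonneg v y) _)) (fun j hj => by
        rw [map_mul, map_pow, hw, mul_pow, ← pow_mul, mul_left_comm]
        gcongr
        exact hA' v y hy0 (Sum.inr (i, ⟨j, hj⟩)) _ (D.b_hom _ j hj)) (by
        apply (algebraMap L' (AlgebraicClosure L)).injective
        simp only [map_add, map_sum, map_mul, map_pow, hf, htt, map_zero, ← aeval_map_alg]
        exact hb i)
    rw [map_pow, hw, ← hi] at h3
    exact h3.trans_eq (by ring)
  rw [hy.ht, hx.ht]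
  push_cast at h1 h2
  have h5 := le_abs_self (Module.finrank ℚ L * Real.log (D.s * c) + hA A)
  have h6 := abs_nonneg (Module.finrank ℚ L * Real.log (D.s * c) + hA A)
  rw [abs_le]
  constructor <;> nlinarith

end T93

theorem st_HT (hI : St_INT2) : St_HT := by
  intro L σ _ _ _ _ B
  obtain ⟨D⟩ := hI L σ B
  obtain ⟨C1, h1⟩ := T93.ht_add B
  obtain ⟨C2, h2⟩ := T93.ht_dbl B D
  have h0 : 0 ≤ C2 := (abs_nonneg _).trans (h2 0)
  refine ⟨max C1 C2, le_max_of_le_right h0, fun p => ?_, fun p q => ?_, fun κ p => ?_⟩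
  · obtain ⟨x, hx⟩ := Pkg.exists_rep p
    rw [hx.neg.ht, hx.ht, logHeight_comp_equiv]
  · linarith [h1 p q, le_max_left C1 C2]
  · have key : |B.ht (2 ^ κ • p) - 4 ^ κ * B.ht p| ≤ C2 * (4 ^ κ - 1) := by
      induction κ with
      | zero => simp
      | succ n ih =>
        have h3 := h2 (2 ^ n • p)
        rw [smul_smul, ← pow_succ'] at h3
        rw [abs_le] at h3 ih ⊢
        rw [pow_succ (4 : ℝ)]
        constructor <;> nlinarith
    have h4 : (0 : ℝ) < 4 ^ κ := by positivity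
    nlinarith [le_max_right C1 C2]

end D4C
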