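import Pool.Agent.Lib.D4C.BlueF
import Pool.Agent.Lib.D4C.B_PLACE

/-! Existence and composition of places. -/

namespace D4C

namespace T59

theorem unit_iff {K : Type} [Field K] (O : ValuationSubring K) (b : O) :
    IsUnit b ↔ (b : K) ≠ 0 ∧ (b : K)⁻¹ ∈ O := by
  constructor
  · intro hu
    obtain ⟨c, hc⟩ := hu.exists_right_inv
    have h1 : (b : K) * c = 1 := congrArg Subtype.val hc
    exact ⟨left_ne_zero_of_mul_eq_one h1, eq_inv_of_mul_eq_one_right h1 ▸ c.2⟩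
  · rintro ⟨h0, hi⟩
    exact IsUnit.of_mul_eq_one (⟨_, hi⟩ : O) (Subtype.ext (mul_inv_cancel₀ h0))

/-- extension of places, with the elements that are sent to infinity -/
theorem place_ext {K Ω : Type} [Field K] [Field Ω] [IsAlgClosed Ω] (A : Subring K) (φ : A →+* Ω) :
    ∃ (O : ValuationSubring K) (h : A ≤ O.toSubring) (ψ : O →+* Ω),
      (∀ a : A, ψ ⟨a.1, h a.2⟩ = φ a) ∧ (∀ b : O, ψ b = 0 ↔ ¬ IsUnit b) ∧
      ∀ (x : K) (hx : x⁻¹ ∈ A), x ≠ 0 → φ ⟨x⁻¹, hx⟩ = 0 → x ∉ O := by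
  obtain ⟨O, h, ψ, h1, h2⟩ := st_PLACE K Ω A φ
  refine ⟨O, h, ψ, h1, h2, fun x hx h0 hφ hO => ?_⟩
  refine (h2 ⟨x⁻¹, h hx⟩).1 ((h1 ⟨x⁻¹, hx⟩).trans hφ) ((unit_iff O _).2 ⟨inv_ne_zero h0, ?_⟩)
  simpa using hO

theorem res_inv {K : Type} [Field K] (O : ValuationSubring K) {x : K} (hx : x ∉ O) (hi : x⁻¹ ∈ O) :
    IsLocalRing.residue O ⟨x⁻¹, hi⟩ = 0 := by
  rw [IsLocalRing.residue_eq_zero_iff]
  intro hu
  exact hx (by simpa using ((unit_iff O _).1 hu).2)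

theorem pl_min (k K : Type) [Field k] [IsAlgClosed k] [Field K] [Algebra k K]
    (V : ValuationSubring K) (hV : Ov k V) : ∃ P : Plc k K k, P.O ≤ V := by
  let j : k →+* V := (algebraMap k K).codRestrict V hV
  let f : k →+* IsLocalRing.ResidueField V := (IsLocalRing.residue V).comp j
  let e : k ≃+* f.range := RingEquiv.ofBijective f.rangeRestrict
    ⟨f.rangeRestrict.injective, f.rangeRestrict_surjective⟩
  let A' : Subring V := f.range.comap (IsLocalRing.residue V)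
  let e' := A'.equivMapOfInjective V.subtype Subtype.val_injective
  let φ : A'.map V.subtype →+* k := (e.symm : f.range →+* k).comp
    (((IsLocalRing.residue V).restrict A' f.range fun _ h => h).comp e'.symm.toRingHom)
  have hφ : ∀ (a : V) (c : k) (hc : f c = IsLocalRing.residue V a),
      φ ⟨a, ⟨a, ⟨c, hc⟩, rfl⟩⟩ = c := by
    intro a c hc
    have h1 : e'.symm ⟨a, ⟨a, ⟨c, hc⟩, rfl⟩⟩ = ⟨a, ⟨c, hc⟩⟩ := e'.symm_apply_eq.2 rfl
    change e.symm (((IsLocalRing.residue V).restrict A' f.range fun _ h => h) (e'.symm _)) = c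
    rw [h1]
    exact e.symm_apply_eq.2 (Subtype.ext hc.symm)
  obtain ⟨O, h, ψ, h1, h2, h3⟩ := place_ext _ φ
  have hm : ∀ c : k, algebraMap k K c ∈ A'.map V.subtype := fun c => ⟨j c, ⟨c, rfl⟩, rfl⟩
  refine ⟨⟨O, fun c => h (hm c), ψ, fun c => (h1 ⟨_, hm c⟩).trans (hφ (j c) c rfl), h2⟩, ?_⟩
  intro x hx
  by_contra hn
  have hi := (V.mem_or_inv_mem x).resolve_left hn
  have h0 : f 0 = IsLocalRing.residue V ⟨x⁻¹, hi⟩ := by rw [map_zero, res_inv V hn hi]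
  exact h3 x ⟨⟨x⁻¹, hi⟩, ⟨0, h0⟩, rfl⟩ (fun h => hn (h ▸ V.zero_mem)) (hφ ⟨x⁻¹, hi⟩ 0 h0) hx

theorem pl_inf (k K : Type) [Field k] [IsAlgClosed k] [Field K] [Algebra k K] (g : K)
    (hg : ∀ c : k, g ≠ algebraMap k K c) : ∃ P : Plc k K k, g ∉ P.O := by
  have ht : Transcendental k g⁻¹ := fun ha => by
    obtain ⟨c, hc⟩ := minpoly.mem_range_of_degree_eq_one k g
      (IsAlgClosed.degree_eq_one_of_irreducible k
        (minpoly.irreducible (IsAlgebraic.inv_iff.1 ha).isIntegral))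
    exact hg c hc.symm
  let e := Polynomial.algEquivOfTranscendental k g⁻¹ ht
  let φ : Algebra.adjoin k {g⁻¹} →ₐ[k] k := (Polynomial.aeval (0 : k)).comp e.symm.toAlgHom
  obtain ⟨O, h, ψ, h1, h2, h3⟩ := place_ext (Algebra.adjoin k {g⁻¹}).toSubring φ.toRingHom
  have hm : ∀ c : k, algebraMap k K c ∈ Algebra.adjoin k {g⁻¹} := fun c => algebraMap_mem _ c
  refine ⟨⟨O, fun c => h (hm c), ψ, fun c => (h1 ⟨_, hm c⟩).trans (φ.commutes c), h2⟩, ?_⟩
  refine h3 g (Algebra.self_mem_adjoin_singleton k _) (by simpa using hg 0) ?_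
  change Polynomial.aeval (0 : k) (e.symm ⟨g⁻¹, _⟩) = 0
  rw [Polynomial.algEquivOfTranscendental_symm_gen, Polynomial.aeval_X]

theorem pl_trans (k k' K Ω : Type) [Field k] [Field k'] [Field K] [Field Ω] [Algebra k k']
    [Algebra k K] [Algebra k' K] [IsScalarTower k k' K] [Algebra k Ω] (P : Plc k' K k')
    (P' : Plc k k' Ω) : ∃ Q : Plc k K Ω, Q.O = P.comp P'.O ∧ ∀ (a : Q.O) (h : (a : K) ∈ P.O)
      (h' : P.ψ ⟨a, h⟩ ∈ P'.O), Q.ψ a = P'.ψ ⟨P.ψ ⟨a, h⟩, h'⟩ := by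
  have h1 : ∀ a : P.comp P'.O, (a : K) ∈ P.O := fun a => ((P.mem_comp _ _).1 a.2).1
  let i1 : P.comp P'.O →+* P.O := (P.comp P'.O).subtype.codRestrict P.O h1
  have h2 : ∀ a : P.comp P'.O, P.ψ.comp i1 a ∈ P'.O := fun a => ((P.mem_comp _ _).1 a.2).2
  let i2 : P.comp P'.O →+* P'.O := (P.ψ.comp i1).codRestrict P'.O h2
  have h3 : ∀ c : k, algebraMap k K c ∈ P.O := fun c => by
    rw [IsScalarTower.algebraMap_apply k k' K]
    exact P.mem _
  have h4 : ∀ c : k, P.ψ ⟨_, h3 c⟩ = algebraMap k k' c := fun c => by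
    rw [← show P.ψ _ = algebraMap k k' c from P.alg (algebraMap k k' c)]
    congr 1
    exact Subtype.ext (IsScalarTower.algebraMap_apply k k' K c)
  have h5 : Ov k (P.comp P'.O) := fun c => (P.mem_comp _ _).2 ⟨h3 c, h4 c ▸ P'.mem c⟩
  refine ⟨⟨P.comp P'.O, h5, P'.ψ.comp i2, fun c => ?_, fun b => ⟨fun hb hu => ?_, fun hb => ?_⟩⟩,
    rfl, fun _ _ _ => rfl⟩
  · rw [← P'.alg c]
    exact congrArg P'.ψ (Subtype.ext (h4 c))
  · exact (hu.map _).ne_zero hb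
  · by_contra hn
    have hu : IsUnit (i2 b) := not_not.1 fun h => hn ((P'.ker _).2 h)
    obtain ⟨a1, a2⟩ := (unit_iff _ _).1 hu
    have hu' : IsUnit (i1 b) := not_not.1 fun h => a1 ((P.ker _).2 h)
    obtain ⟨b1, b2⟩ := (unit_iff _ _).1 hu'
    refine hb ((unit_iff _ _).2 ⟨b1, (P.mem_comp _ _).2 ⟨b2, ?_⟩⟩)
    have : P.ψ (i1 b) * P.ψ ⟨_, b2⟩ = 1 := by
      rw [← map_mul, ← map_one P.ψ]
      exact congrArg P.ψ (Subtype.ext (mul_inv_cancel₀ b1))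
    exact (eq_inv_of_mul_eq_one_right this).symm ▸ a2

theorem pl_up (K K' : Type) [Field K] [Field K'] (f : K →+* K') (O : ValuationSubring K) :
    ∃ O' : ValuationSubring K', O'.comap f = O := by
  let e := O.toSubring.equivMapOfInjective f f.injective
  let φ : O.toSubring.map f →+* AlgebraicClosure (IsLocalRing.ResidueField O) :=
    (algebraMap _ _).comp ((IsLocalRing.residue O).comp e.symm.toRingHom)
  obtain ⟨O', h, -, -, -, h3⟩ := place_ext _ φ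
  refine ⟨O', le_antisymm (fun x hx => ?_) fun x hx => h ⟨x, hx, rfl⟩⟩
  by_contra hn
  have hi := (O.mem_or_inv_mem x).resolve_left hn
  have hm : (f x)⁻¹ ∈ O.toSubring.map f := ⟨x⁻¹, hi, map_inv₀ f x⟩
  refine h3 (f x) hm (fun h => hn (f.injective (h.trans (map_zero f).symm) ▸ O.zero_mem)) ?_ hx
  have h1 : e.symm ⟨_, hm⟩ = ⟨x⁻¹, hi⟩ := e.symm_apply_eq.2 (Subtype.ext (map_inv₀ f x).symm)
  change algebraMap _ _ (IsLocalRing.residue O (e.symm ⟨_, hm⟩)) = 0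
  rw [h1]
  exact (congrArg _ (res_inv O hn hi)).trans (map_zero _)

end T59

theorem st_PL2 : St_PL2 := ⟨T59.pl_min, T59.pl_inf, T59.pl_trans, T59.pl_up⟩

end D4C
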