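import Pool.Agent.Lib.D4C.BlueU

/-! Row SH of the d4c56 blueprint. -/

namespace D4C

open MvPolynomial Filter

namespace T17

theorem countable_alg (L κ : Type) [Field L] [NumberField L] [Field κ] [Algebra L κ]
    [Algebra.IsAlgebraic L κ] : Countable κ := by
  have h1 := Algebra.IsAlgebraic.cardinalMk_le_max ℚ L
  have h2 := Algebra.IsAlgebraic.cardinalMk_le_max L κ
  rw [← Cardinal.mk_le_aleph0_iff]
  exact h2.trans (max_le (h1.trans (max_le Cardinal.mk_le_aleph0 le_rfl)) le_rfl)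

theorem enum_ideals (κ σ : Type) [Field κ] [Countable κ] [Finite σ] :
    ∃ J : ℕ → Ideal (MvPolynomial σ κ), Function.Surjective J := by
  have h0 : Countable (MvPolynomial σ κ) := by
    rw [← Cardinal.mk_le_aleph0_iff]
    exact MvPolynomial.cardinalMk_le_max.trans
      (max_le (max_le Cardinal.mk_le_aleph0 Cardinal.mk_le_aleph0) le_rfl)
  have h1 : Function.Surjective fun s : Finset (MvPolynomial σ κ) =>
      Ideal.span (s : Set (MvPolynomial σ κ)) := fun I => IsNoetherian.noetherian I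
  have h2 := h1.countable
  exact exists_surjective_nat _

end T17

theorem st_SH (hSHU : St_SHU) : St_SH := by
  intro L κ σ _ _ _ _ _ _ _ _ B r e f hf ε hε
  by_contra hcon
  have := T17.countable_alg L κ
  obtain ⟨J, hJ⟩ := T17.enum_ideals κ σ
  have h1 : ∀ n : ℕ, ∃ (p : B.Pt L) (x : σ → L), B.Rep p x ∧
      (∀ k ≤ n, (B.bc κ).IsSub (J k) ∧ 2 ≤ cd (J k) → Cod2 B f (J k) p) ∧
      (Height.logHeight fun i => aeval x (f i)) < (e - ε) * B.ht p - n := by
    intro n
    by_contra h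
    refine hcon ⟨n, {I | I ∈ J '' Set.Iic n ∧ (B.bc κ).IsSub I ∧ 2 ≤ cd I},
      ((Set.finite_Iic n).image J).subset fun I hI => hI.1, fun I hI => hI.2, fun p x hx hc => ?_⟩
    by_contra h'
    exact h ⟨p, x, hx, fun k hk hv => hc _ ⟨⟨k, hk, rfl⟩, hv⟩, not_le.1 h'⟩
  choose p x hx hc hlt using h1
  have hU : ((hyperfilter ℕ : Ultrafilter ℕ) : Filter ℕ) ≤ atTop := by
    rw [← Nat.cofinite_eq_atTop]; exact hyperfilter_le_cofinite
  have ht : Tendsto (fun n => B.ht (p n)) atTop atTop := by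
    have he : (0 : ℝ) < e + 1 := by positivity
    refine tendsto_atTop_mono (fun n => ?_) (tendsto_natCast_atTop_atTop.atTop_div_const he)
    have a1 := hlt n
    have a2 := Height.logHeight_nonneg fun i => aeval (x n) (f i)
    have a3 : 0 ≤ B.ht (p n) := Height.logHeight_nonneg _
    rw [div_le_iff₀ he]
    nlinarith
  obtain ⟨I, h2, h3, h4⟩ := hSHU L κ σ B r e f hf (hyperfilter ℕ) p x hx (ht.mono_left hU)
  obtain ⟨k, rfl⟩ := hJ I
  obtain ⟨n, hn⟩ := (h4 (((eventually_ge_atTop k).mono fun n hn => hc n k hn ⟨h2, h3⟩).filter_mono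
    hU) ε hε).exists
  have a1 := hlt n
  have a2 : (0 : ℝ) ≤ n := Nat.cast_nonneg n
  linarith

end D4C
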