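import Pool.Agent.Lib.D4C.BlueF
import Pool.Agent.Lib.D4C.B_LOC
import Pool.Agent.Lib.D4C.B_HSOP

/-! The number of points of order two. -/

namespace D4C

open MvPolynomial IntermediateField

namespace T60

variable {κ σ F : Type} [Field κ] [Fintype σ] [Field F] [Algebra κ F] (O : ValuationSubring F)

theorem le_gv (x : σ → F) (i : σ) : O.valuation (x i) ≤ gv O x :=
  Finset.le_sup (f := fun i => O.valuation (x i)) (Finset.mem_univ i)

theorem gv_att [Nonempty σ] (x : σ → F) : ∃ i, gv O x = O.valuation (x i) := by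
  obtain ⟨i, -, h⟩ := Finset.exists_mem_eq_sup Finset.univ Finset.univ_nonempty
    fun i => O.valuation (x i)
  exact ⟨i, h⟩

theorem hom_le (hO : Ov κ O) (x : σ → F) {G : MvPolynomial σ κ} {n : ℕ} (hG : G.IsHomogeneous n) :
    O.valuation (aeval x G) ≤ gv O x ^ n := by
  rw [G.as_sum, map_sum]
  refine Valuation.map_sum_le _ fun d hd => ?_
  have hd' : d.degree = n := by
    have := hG (mem_support_iff.mp hd)
    rwa [Finsupp.degree_eq_weight_one]
  rw [aeval_monomial, map_mul, ← hd', Finsupp.degree_apply, ← Finset.prod_pow_eq_pow_sum,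
    Finsupp.prod, map_prod]
  refine (mul_le_of_le_one_left' ((O.valuation_le_one_iff _).mpr (hO _))).trans
    (Finset.prod_le_prod' fun i _ => ?_)
  rw [map_pow]
  exact pow_le_pow_left' (le_gv O x i) _

theorem root_le {T : F} {s : ℕ} {c : ℕ → F} {R : O.ValueGroup}
    (h : T ^ s + ∑ j ∈ Finset.range s, c j * T ^ j = 0)
    (hc : ∀ j < s, O.valuation (c j) ≤ R ^ (s - j)) : O.valuation T ≤ R := by
  by_contra hR
  rw [not_le] at hR
  have h0 : 0 < O.valuation T := zero_le.trans_lt hR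
  have h1 : O.valuation (∑ j ∈ Finset.range s, c j * T ^ j) < O.valuation T ^ s := by
    refine Valuation.map_sum_lt _ (pow_pos h0 s).ne' fun j hj => ?_
    have hj := Finset.mem_range.mp hj
    rw [map_mul, map_pow, ← Nat.sub_add_cancel hj.le, pow_add]
    exact mul_lt_mul_of_pos_right ((hc j hj).trans_lt
      (pow_lt_pow_left₀ hR zero_le (Nat.sub_ne_zero_of_lt hj))) (pow_pos h0 j)
  rw [eq_neg_of_add_eq_zero_right h, Valuation.map_neg, map_pow] at h1
  exact h1.false

theorem gv_ratio {m : ℕ} (ζ : Fin (m + 1) → F) (h : ζ (Fin.last m) ≠ 0) (n : ℕ) :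
    max 1 (gv O fun j : Fin m => (ζ j.castSucc / ζ (Fin.last m)) ^ n) =
      (gv O ζ / O.valuation (ζ (Fin.last m))) ^ n := by
  have h0 : 0 < O.valuation (ζ (Fin.last m)) := zero_lt_iff.mpr (by simpa using h)
  apply le_antisymm
  · refine max_le (one_le_pow₀ ((one_le_div₀ h0).mpr (le_gv O ζ _))) (Finset.sup_le fun j _ => ?_)
    rw [map_pow, map_div₀]
    exact pow_le_pow_left' (div_le_div_of_nonneg_right (le_gv O ζ _) h0.le) _
  · obtain ⟨j, hj⟩ := gv_att O ζ
    rw [hj]
    induction j using Fin.lastCases with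
    | last => rw [div_self h0.ne', one_pow]; exact le_max_left _ _
    | cast j =>
      rw [← map_div₀, ← map_pow]
      exact (le_gv O (fun j : Fin m => (ζ j.castSucc / ζ (Fin.last m)) ^ n) j).trans
        (le_max_right _ _)

theorem gv_hsop (hO : Ov κ O) {q : Ideal (MvPolynomial σ κ)} {m e D : ℕ}
    {ξ : Fin (m + 1) → MvPolynomial σ κ} (H : Hsop q m e D ξ) {x : σ → F} (hx : x ≠ 0)
    (hz : Zr q x) : (gv O fun j => aeval x (ξ j)) = gv O x ^ e := by
  refine le_antisymm (Finset.sup_le fun j _ => hom_le O hO x (H.hom j)) ?_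
  obtain ⟨i0, h0⟩ := Function.ne_iff.mp hx
  have : Nonempty σ := ⟨i0⟩
  have h1 : 0 < gv O x := (zero_lt_iff.mpr (by simpa using h0)).trans_le (le_gv O x i0)
  obtain ⟨i, hi⟩ := gv_att O x
  obtain ⟨G, a, b⟩ := H.ns (Finsupp.single i (e * (D + 1))) (Finsupp.degree_single _ _)
  have c := hz _ b
  rw [map_sub, sub_eq_zero, ← X_pow_eq_monomial, map_pow, aeval_X, map_sum] at c
  refine le_of_mul_le_mul_right ?_ (pow_pos h1 (e * D))
  rw [← pow_add, add_comm, ← mul_add_one, hi, ← map_pow, c, ← hi]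
  refine Valuation.map_sum_le _ fun j _ => ?_
  rw [map_mul, map_mul]
  exact mul_le_mul' (le_gv O (fun j => aeval x (ξ j)) j) (hom_le O hO x (a j))

theorem fin_hsop {q : Ideal (MvPolynomial σ κ)} {m e D : ℕ} {ξ : Fin (m + 1) → MvPolynomial σ κ}
    (H : Hsop q m e D ξ) {x : σ → F} {i0 : σ} (h0 : x i0 = 1) (hz : Zr q x)
    (hl : aeval x (ξ (Fin.last m)) ≠ 0) (ht : rat κ x = ⊤) : FiniteDimensional (adjoin κ (Set.range
      fun j : Fin m => aeval x (ξ j.castSucc) / aeval x (ξ (Fin.last m)))) F := by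
  set E := adjoin κ (Set.range fun j : Fin m => aeval x (ξ j.castSucc) / aeval x (ξ (Fin.last m)))
  have hx : x ≠ 0 := fun h => by simp [h] at h0
  have h1 : ∀ i, IsIntegral E (x i ^ e / aeval x (ξ (Fin.last m))) := fun i => by
    have : x i ^ e / aeval x (ξ (Fin.last m)) ∈
        (integralClosure (Subring.closure (E : Set F)) F).toSubring := by
      rw [← iInf_valuationSubring_superset, Subring.mem_iInf]
      rintro ⟨V, hV⟩
      have a := gv_ratio V (fun j => aeval x (ξ j)) hl 1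
      simp only [pow_one] at a
      rw [gv_hsop V (fun c => hV (E.algebraMap_mem c)) H hx hz, max_eq_left (b := gv V _)
        (Finset.sup_le fun j _ => (V.valuation_le_one_iff _).mpr
          (hV (subset_adjoin κ _ (Set.mem_range_self j))))] at a
      refine (V.valuation_le_one_iff _).mp ?_
      rw [a, map_div₀, map_pow]
      exact div_le_div_of_nonneg_right (pow_le_pow_left' (le_gv V x i) _) zero_le
    rw [show Subring.closure (E : Set F) = E.toSubfield.toSubring from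
      Subring.closure_eq E.toSubfield.toSubring] at this
    exact this
  have h2 : ∀ i, IsIntegral E (x i) := fun i => by
    refine IsIntegral.of_pow H.e_pos ?_
    have := (h1 i).mul (h1 i0).inv
    rwa [h0, one_pow, one_div, inv_inv, div_mul_cancel₀ _ hl] at this
  have h3 := finiteDimensional_adjoin (K := E) (S := Set.range x) (by rintro _ ⟨i, rfl⟩; exact h2 i)
  have h4 : adjoin E (Set.range x) = ⊤ := by
    refine eq_top_iff.mpr fun a _ => ?_
    have : rat κ x ≤ (adjoin E (Set.range x)).restrictScalars κ := adjoin_le_iff.mpr (by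
      rintro _ ⟨ij, rfl⟩
      exact div_mem (subset_adjoin E _ ⟨ij.1, rfl⟩) (subset_adjoin E _ ⟨ij.2, rfl⟩))
    exact this (ht ▸ mem_top)
  rw [h4] at h3
  exact topEquiv.toLinearEquiv.finiteDimensional

theorem dbl_val [DecidableEq σ] {B : Pkg κ σ} (D : Dbl B) {p : B.Pt F} {x y : σ → F}
    (hx : B.Rep p x) (hy : B.Rep (2 • p) y) (hg : PGen B.I x) : ∃ t : F, t ≠ 0 ∧
      ∀ O : ValuationSubring F, Ov κ O → O.valuation t * gv O y ^ D.N = gv O x ^ (4 * D.N) := by
  let f := IsScalarTower.toAlgHom κ F (AlgebraicClosure F)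
  have hy' := hy.map f
  rw [map_nsmul] at hy'
  obtain ⟨t, t0, h1, h2⟩ := D.pt _ _ _ _ (hx.map f) hy'
  have e1 : ∀ (w : σ → F) (i : σ), ∏ l, w l ^ Finsupp.single i D.N l = w i ^ D.N := fun w i => by
    rw [Finset.prod_eq_single i (fun l _ h => by simp [h]) (by simp), Finsupp.single_eq_same]
  simp only [aeval_map_alg, ← map_pow, ← map_prod] at h1 h2
  obtain ⟨i0, h0⟩ := Function.ne_iff.mp (uni_iff_ne_zero.mp hy.uni)
  have : Nonempty σ := ⟨i0⟩
  have hV : aeval x D.V ≠ 0 := fun h => D.V_not ((hg.2 _ _ D.V_hom).mp h)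
  obtain ⟨t, rfl⟩ : ∃ t', f t' = t := by
    have a := (h1 _ (Finsupp.degree_single i0 D.N)).1
    rw [e1] at a
    refine ⟨aeval x (D.U (Finsupp.single i0 D.N)) / (aeval x D.V * y i0 ^ D.N), ?_⟩
    rw [map_div₀, ← a, div_eq_iff ((map_ne_zero f).mpr (mul_ne_zero hV (pow_ne_zero _ h0))),
      map_mul]
    ring
  simp only [← map_pow, ← map_mul, ← map_sum, ← map_add, map_eq_zero] at h1 h2
  refine ⟨t, fun h => t0 (by rw [h, map_zero]), fun O hO => le_antisymm ?_ ?_⟩
  · obtain ⟨i, hi⟩ := gv_att O y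
    rw [hi, ← map_pow, ← map_mul, ← e1]
    refine root_le O (h1 _ (Finsupp.degree_single i D.N)).2 fun j hj => ?_
    rw [← pow_mul]
    exact hom_le O hO x (D.a_hom _ j hj)
  · obtain ⟨i, hi⟩ := gv_att O x
    rw [hi, ← map_pow]
    refine root_le O (h2 i) fun j hj => ?_
    rw [map_mul, map_pow, mul_pow, ← pow_mul]
    exact mul_le_mul' le_rfl (hom_le O hO y (D.b_hom _ j hj))

theorem count (hHFA : St_HFA) (hPOW : St_POW) [CharZero κ] {g n : ℕ} (z : Fin g → F) (φ : F →ₐ[κ] F)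
    (t : F) (t0 : t ≠ 0) (hz : AlgebraicIndependent κ z)
    (hf : FiniteDimensional (adjoin κ (Set.range z)) F)
    (hφ : FiniteDimensional ((⊤ : IntermediateField κ F).map φ) F) (hn : 1 ≤ n)
    (hv : ∀ O : ValuationSubring F, Ov κ O → max 1 (gv O fun j => z j ^ n) =
      O.valuation t * max 1 (gv O fun j => φ (z j))) :
    Module.finrank ((⊤ : IntermediateField κ F).map φ) F = n ^ g := by
  obtain ⟨a1, a2, a3⟩ := hPOW κ F g n z hn hz hf
  have b1 : AlgebraicIndependent κ fun j => φ (z j) := hz.map' φ.injective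
  have b2 := relfinrank_mul_finrank_top (map_mono φ (le_top : adjoin κ (Set.range z) ≤ ⊤))
  rw [relfinrank_map_map, relfinrank_top_right, adjoin_map, ← Set.range_comp'] at b2
  have p1 : 0 < Module.finrank (adjoin κ (Set.range z)) F := Module.finrank_pos
  have b3 : FiniteDimensional (adjoin κ (Set.range fun j => φ (z j))) F :=
    Module.finite_of_finrank_pos (b2 ▸ mul_pos p1 Module.finrank_pos)
  have c1 := hHFA κ F g _ _ t a1 b1 a2 b3 hv
  have c2 := hHFA κ F g _ _ t⁻¹ b1 a1 b3 a2 fun O hO => by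
    rw [hv O hO, ← mul_assoc, ← map_mul, inv_mul_cancel₀ t0, map_one, one_mul]
  rw [a3, ← b2, mul_comm (n ^ g)] at c1 c2
  exact Nat.eq_of_mul_eq_mul_left p1 (le_antisymm c2 c1)

theorem exists_gen (hGPT : St_GPT) (q : Ideal (MvPolynomial σ κ)) (hp : q.IsPrime)
    (hX : ∃ i, X i ∉ q) : ∃ (F : Type) (_ : Field F) (_ : Algebra κ F) (x : σ → F) (i0 : σ),
      x i0 = 1 ∧ PGen q x ∧ rat κ x = ⊤ := by
  obtain ⟨Ω, _, _, -, w, w0, hw⟩ := hGPT.ex κ σ q hp hX
  obtain ⟨i0, h0⟩ := Function.ne_iff.mp w0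
  have h0 : w i0 ≠ 0 := h0
  let x : σ → rat κ w := fun i => ⟨w i / w i0, subset_adjoin _ _ ⟨(i, i0), rfl⟩⟩
  have x1 : x i0 = 1 := Subtype.ext (div_self h0)
  refine ⟨rat κ w, inferInstance, inferInstance, x, i0, x1, ⟨fun h => by simp [h] at x1,
    fun G n hG => ?_⟩, ?_⟩
  · rw [← hw, ← map_eq_zero (rat κ w).val, ← aeval_map_alg,
      show (fun i => (rat κ w).val (x i)) = (w i0)⁻¹ • w from funext fun i => div_eq_inv_mul _ _,
      aeval_smul_hom hG, mul_eq_zero, or_iff_right (pow_ne_zero _ (inv_ne_zero h0))]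
  · apply map_injective (rat κ w).val
    rw [← AlgHom.fieldRange_eq_map, fieldRange_val]
    refine (adjoin_map _ _ _).trans ?_
    rw [← Set.range_comp']
    refine congrArg (fun f => adjoin κ (Set.range f)) (funext fun ij => ?_)
    exact (map_div₀ _ _ _).trans (div_div_div_cancel_right₀ h0 _ _)

end T60

open T60 in
theorem st_T2 (hINT2 : St_INT2) (hHFA : St_HFA) (hPOW : St_POW) (hGAL : St_GAL) (hFIB : St_FIB)
    (hGPT : St_GPT) : St_T2 := by
  intro κ σ _ _ _ _ _ B g hg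
  have hp : B.I.IsPrime := by
    have := B.gprime κ
    rwa [ext, Algebra.algebraMap_self, show MvPolynomial.map (RingHom.id κ) =
      RingHom.id (MvPolynomial σ κ) from RingHom.ext map_id, Ideal.map_id] at this
  obtain ⟨F, _, _, x, i0, x1, xg, xt⟩ := exists_gen hGPT B.I hp (by
    obtain ⟨i, hi⟩ := Function.ne_iff.mp B.o_ne
    exact ⟨i, fun h => hi (by simpa using B.o_mem _ h)⟩)
  have x0 := xg.1
  obtain ⟨xl, xz⟩ := hGPT.eq κ σ F B.I x B.hom xg
  have hx := B.rep_pt x (uni_iff_ne_zero.mpr x0) xz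
  generalize B.pt x _ _ = p at hx
  have hy0 := B.rep_rp (2 • p)
  obtain ⟨e, he⟩ := hGPT.iso κ σ F F B.I x _ xg (((hFIB κ σ B F).1 p x _ hx hy0).2 xg)
  let φ : F →ₐ[κ] F := ((rat κ (B.rp (2 • p))).val.comp e.toAlgHom).comp
    ((equivOfEq xt).trans topEquiv).symm.toAlgHom
  have hφ : ∀ i, φ (x i) = B.rp (2 • p) i / B.rp (2 • p) i0 := fun i => by
    rw [← he i i0 (xt ▸ mem_top)]
    simp only [x1, div_one]
    rfl
  have hy : B.Rep (2 • p) fun i => φ (x i) := by
    have a := hφ i0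
    rw [x1, map_one] at a
    have b : B.rp (2 • p) i0 ≠ 0 := fun h => by simp [h] at a
    convert hy0.smul (isUnit_iff_ne_zero.mpr (inv_ne_zero b)) using 1
    exact funext fun i => (hφ i).trans (div_eq_inv_mul _ _)
  clear_value φ
  have yt : rat κ (fun i => φ (x i)) = (⊤ : IntermediateField κ F).map φ := by
    rw [← xt, rat, rat, adjoin_map, ← Set.range_comp']
    simp only [map_div₀]
  obtain ⟨c1, c2⟩ := hGAL κ σ B F p x _ hx hy xg xt
  rw [yt] at c1 c2
  obtain ⟨D⟩ := hINT2 κ σ B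
  obtain ⟨m, D', ξ, H, ⟨k, hk⟩, -⟩ := st_HSOP κ σ B.I B.I g 0 D.N hp B.hom B.hom hg D.N_pos
    fun q' _ h _ => by simpa using (T51.cd_anti h).trans_eq hg
  have hl : aeval x (ξ (Fin.last g)) ≠ 0 := fun h =>
    H.ind.ne_zero (Fin.last g) (Ideal.Quotient.eq_zero_iff_mem.mpr ((xg.2 _ _ (H.hom _)).mp h))
  have hf := fin_hsop H x1 xz hl xt
  obtain ⟨t, t0, ht⟩ := dbl_val D hx hy xg
  rw [← c2]
  refine count hHFA hPOW _ φ (t ^ k * φ (aeval x (ξ (Fin.last g))) / aeval x (ξ (Fin.last g)) ^ 4)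
    (by simp [t0, hl]) ?_ hf c1 (by norm_num) fun O hO => ?_
  · have := isAlgebraic_adjoin_iff_top.mp (Algebra.IsAlgebraic.of_finite (adjoin κ (Set.range
      fun j : Fin g => aeval x (ξ j.castSucc) / aeval x (ξ (Fin.last g)))) F)
    refine (Algebra.IsAlgebraic.isTranscendenceBasis_of_le_trdeg_of_finite κ _ ?_).1
    have a := (st_LOC κ σ F x x0).2.2.2.2
    rw [xl, show cd B.I = (g + 1 : ℕ) from hg, Nat.cast_add_one, Cardinal.add_one_inj] at a
    rw [Cardinal.mk_fin, a]
    exact ((equivOfEq xt).trans topEquiv).trdeg_eq.le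
  have hl' : aeval (fun i => φ (x i)) (ξ (Fin.last g)) ≠ 0 := by simpa [aeval_map_alg] using hl
  have a := gv_ratio O (fun j => aeval (fun i => φ (x i)) (ξ j)) hl' 1
  rw [gv_hsop O hO H (uni_iff_ne_zero.mp hy.uni) hy.zr] at a
  simp only [pow_one, aeval_map_alg, ← map_div₀ φ] at a hl'
  rw [gv_ratio O (fun j => aeval x (ξ j)) hl, gv_hsop O hO H x0 xz, a, hk, div_pow, ← pow_mul,
    show D.N * k * 4 = 4 * D.N * k by ring, pow_mul, ← ht O hO, map_div₀, map_mul, map_pow, map_pow,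
    mul_pow, pow_mul]
  have : O.valuation (φ (aeval x (ξ (Fin.last g)))) ≠ 0 := by simpa using hl
  field_simp

end D4C
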