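import Pool.Agent.Lib.D4C.BlueA
import Pool.Agent.Lib.D4C.B_LAW
import Pool.Agent.Lib.GEL51.Gelfond

/-! Small kit: combined exponents, heights of polynomials from local bounds. -/

namespace D4C

open MvPolynomial

namespace T59

section cmb

variable {κ α β : Type}

theorem comb_inl (q : κ × α →₀ ℕ) (J : κ × β →₀ ℕ) (i : κ) (a : α) :
    comb q J (i, Sum.inl a) = q (i, a) := by
  have h1 : Function.Injective fun x : κ × α => ((x.1, Sum.inl x.2) : κ × (α ⊕ β)) := by
    rintro ⟨a, b⟩ ⟨c, d⟩ h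
    simpa using h
  rw [comb, Finsupp.add_apply, Finsupp.mapDomain_apply h1 q (i, a),
    Finsupp.mapDomain_of_notMem_range _ _ (by simp), add_zero]

theorem comb_inr (q : κ × α →₀ ℕ) (J : κ × β →₀ ℕ) (i : κ) (b : β) :
    comb q J (i, Sum.inr b) = J (i, b) := by
  have h1 : Function.Injective fun x : κ × β => ((x.1, Sum.inr x.2) : κ × (α ⊕ β)) := by
    rintro ⟨a, b⟩ ⟨c, d⟩ h
    simpa using h
  rw [comb, Finsupp.add_apply, Finsupp.mapDomain_apply h1 J (i, b),
    Finsupp.mapDomain_of_notMem_range _ _ (by simp), zero_add]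

variable [Fintype κ] [Fintype α] [Fintype β]

theorem exists_comb (d : κ × (α ⊕ β) →₀ ℕ) : ∃ q J, comb q J = d := by
  refine ⟨Finsupp.equivFunOnFinite.symm fun x => d (x.1, Sum.inl x.2),
    Finsupp.equivFunOnFinite.symm fun x => d (x.1, Sum.inr x.2), ?_⟩
  ext ⟨i, a | b⟩
  · rw [comb_inl]; rfl
  · rw [comb_inr]; rfl

theorem wt_eq (w : κ → ℕ) (d : κ × α →₀ ℕ) : wt w d = ∑ i, w i * ∑ a, d (i, a) := by
  rw [wt, Finsupp.weight_eq_sum, Fintype.sum_prod_type]
  refine Finset.sum_congr rfl fun i _ => ?_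
  rw [Finset.mul_sum]
  exact Finset.sum_congr rfl fun a _ => by rw [smul_eq_mul, mul_comm]

theorem wt_comb (w : κ → ℕ) (q : κ × α →₀ ℕ) (J : κ × β →₀ ℕ) :
    wt w (comb q J) = wt w q + wt w J := by
  simp only [wt_eq, Fintype.sum_sum_type, comb_inl, comb_inr, mul_add, Finset.sum_add_distrib]

theorem degree_le_wt {w : κ → ℕ} (hw : ∀ i, 1 ≤ w i) (d : κ × α →₀ ℕ) : d.degree ≤ wt w d := by
  rw [wt_eq, Finsupp.degree_eq_sum, Fintype.sum_prod_type]
  exact Finset.sum_le_sum fun i _ => Nat.le_mul_of_pos_left _ (hw i)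

end cmb

section ht

variable {L : Type} [Field L]

theorem sn_le_l1 {τ : Type} (v : AbsoluteValue L ℝ) (G : MvPolynomial τ L) :
    sn v (fun d : G.support => coeff d.1 G) ≤ l1 v G :=
  Real.iSup_le (fun d => Finset.single_le_sum (f := fun d => v (coeff d G))
    (fun _ _ => v.nonneg _) d.2) (Finset.sum_nonneg fun _ _ => v.nonneg _)

theorem l1_le_sn {τ : Type} (v : AbsoluteValue L ℝ) (G : MvPolynomial τ L) :
    l1 v G ≤ G.support.card * sn v (fun d : G.support => coeff d.1 G) := by
  rw [l1, ← nsmul_eq_mul]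
  exact Finset.sum_le_card_nsmul _ _ _ fun d hd =>
    T83.le_sn v (fun d : G.support => coeff d.1 G) ⟨d, hd⟩

theorem hA_nonneg [NumberField L] (A : Finset L) : 0 ≤ hA A :=
  Finset.sum_nonneg fun _ _ => Height.zero_le_logHeight₁ _

theorem hP_nonneg [NumberField L] {τ : Type} (G : MvPolynomial τ L) : 0 ≤ hP G :=
  Height.logHeight_nonneg _

/-- height of a polynomial from local bounds -/
theorem hP_le (hLG : St_LG) [NumberField L] {τ τ' P : Type} [Fintype P] {G : MvPolynomial τ L}
    {F : MvPolynomial τ' L} (hG : G ≠ 0) (hF : F ≠ 0) {n : ℝ} (hn : 1 ≤ n) (A : P → Finset L)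
    (E : P → ℕ) (h : ∀ v : AbsoluteValue L ℝ, l1 v G ≤ l1 v F * n * ∏ p, hv v (A p) ^ E p) :
    hP G ≤ Module.finrank ℚ L * (Real.log F.support.card + Real.log n) + hP F +
      ∑ p, E p * hA (A p) := by
  have hc : (1 : ℝ) ≤ F.support.card := by
    exact_mod_cast Finset.card_pos.2 (support_nonempty.2 hF)
  have := hLG L G.support Empty Unit F.support (fun d => coeff d.1 G) (fun d => coeff d.1 F)
    (fun q => q.elim) (fun q => q.elim) (fun q => q.elim) (F.support.card * n) P A E 1
    (GEL51.coe_ne_zero hG) (GEL51.coe_ne_zero hF) (fun q => q.elim)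
    (one_le_mul_of_one_le_of_one_le hc hn) one_ne_zero fun v => by
      simp only [Finset.univ_eq_empty, Finset.prod_empty, mul_one, map_one]
      refine (sn_le_l1 v G).trans ((h v).trans ?_)
      refine mul_le_mul_of_nonneg_right ?_
        (Finset.prod_nonneg fun p _ => pow_nonneg (zero_le_one.trans (T83.one_le_hv _ _)) _)
      rw [mul_right_comm]
      exact mul_le_mul_of_nonneg_right (l1_le_sn v F) (zero_le_one.trans hn)
  rw [Real.log_mul (by positivity) (by positivity)] at this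
  simpa only [hP, Finset.univ_eq_empty, Finset.sum_empty, add_zero] using this

theorem log_card_le {κ σ : Type} [Fintype κ] [Fintype σ] {δ : κ → ℕ} {F : MvPolynomial (κ × σ) L}
    (h : BD δ F) : Real.log F.support.card ≤ Fintype.card σ * ∑ i, (δ i : ℝ) := by
  have h1 : ∑ x, degreeOf x F ≤ Fintype.card σ * ∑ i, δ i := by
    rw [Fintype.sum_prod_type, Finset.mul_sum]
    refine Finset.sum_le_sum fun i _ => ?_
    rw [← Finset.card_univ, ← smul_eq_mul]
    refine Finset.sum_le_card_nsmul _ _ _ fun a _ => degreeOf_le_iff.2 fun d hd => ?_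
    exact (Finsupp.le_degree a (d.curry i)).trans (h d hd i)
  have h2 : (F.support.card : ℝ) ≤ 2 ^ (Fintype.card σ * ∑ i, δ i) := by
    exact_mod_cast (GEL51.card_support_le F).trans (Nat.pow_le_pow_right two_pos h1)
  have h3 : Real.log 2 ≤ 1 := by linarith [Real.log_two_lt_d9]
  have h4 : (0 : ℝ) ≤ (Fintype.card σ * ∑ i, δ i : ℕ) := Nat.cast_nonneg _
  rcases Nat.eq_zero_or_pos F.support.card with h0 | h0
  · rw [h0, Nat.cast_zero, Real.log_zero]
    positivity
  · have := Real.log_le_log (by exact_mod_cast h0) h2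
    rw [Real.log_pow] at this
    have h5 := mul_le_of_le_one_right h4 h3
    push_cast at this h5
    exact this.trans h5

end ht

end T59

end D4C
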