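import Pool.Agent.Lib.D4C.B_HF
import Pool.Agent.Lib.D4C.B_TAU
import Pool.Agent.Lib.D4C.T59a

/-! Row UPP of the d4c56 blueprint: upper bound for the height of the lowest form. -/

namespace D4C

open MvPolynomial

namespace T81

open T83 T1 T85

section tools

theorem prod_erase0 {M : Type} [CommMonoid M] {k : ℕ} (f : Fin (k + 1) → M) :
    ∏ i ∈ Finset.univ.erase 0, f i = ∏ j : Fin k, f j.succ := by
  rw [← Finset.compl_singleton, ← Fin.image_succ_univ,
    Finset.prod_image fun _ _ _ _ h => Fin.succ_injective _ h]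

theorem sum_erase0 {k : ℕ} (f : Fin (k + 1) → ℝ) :
    ∑ i ∈ Finset.univ.erase 0, f i = ∑ j : Fin k, f j.succ := by
  rw [← Finset.compl_singleton, ← Fin.image_succ_univ,
    Finset.sum_image fun _ _ _ _ h => Fin.succ_injective _ h]

variable {L : Type} [Field L] (v : AbsoluteValue L ℝ)

theorem sn_smul {σ : Type} (c : L) (x : σ → L) : sn v (c • x) = v c * sn v x := by
  unfold sn
  rw [Real.mul_iSup_of_nonneg (v.nonneg c)]
  simp only [Pi.smul_apply, smul_eq_mul, map_mul]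

theorem sn_perm {σ : Type} (x : σ → L) (e : Equiv.Perm σ) : sn v (x ∘ e) = sn v x :=
  e.iSup_comp (g := fun i => v (x i))

theorem sn_pos {σ : Type} [Fintype σ] {x : σ → L} (hx : x ≠ 0) : 0 < sn v x := by
  obtain ⟨i, hi, h⟩ := exists_sn v hx
  rw [h]
  exact v.pos hi

variable {v}

theorem maj_r {ρ : Type} {r r' a : ℝ} {f : PS ρ L} (h : Maj v r f a) (h0 : 0 ≤ r') (h1 : r' ≤ r) :
    Maj v r' f a := fun s => le_trans (Finset.sum_le_sum fun _ _ =>
  mul_le_mul_of_nonneg_left (pow_le_pow_left₀ h0 h1 _) (v.nonneg _)) (h s)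

theorem maj_aeval (hM : St_MAJ) (hG : St_GAU) {ρ τ : Type} {r : ℝ} (hr : 0 < r) (x : τ → PS ρ L)
    (b : τ → ℝ) (F : MvPolynomial τ L) (M : ℝ) (hb : ∀ s, 0 ≤ b s) (hx : ∀ s, Maj v r (x s) (b s))
    (h : ∀ d ∈ F.support, d.prod (fun s n => b s ^ n) ≤ M) :
    Maj v r (aeval x F) (l1 v F * M) := by
  obtain ⟨h1, h2, -⟩ := hM ρ L v r hr v.nonneg v.map_zero v.add_le fun a b => (v.map_mul a b).le
  refine hG L (PS ρ L) v (fun f a => Maj v r f a) (fun f a b h hab s => (h s).trans hab)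
    (fun f f' a b h h' => (h1 f f' a b h h').1) (fun f f' a b h h' _ _ => (h1 f f' a b h h').2)
    (fun c => ?_) τ x b F M hb hx h
  rw [MvPowerSeries.algebraMap_apply]
  exact h2 c

theorem prod_bw {σ : Type} (a b : ℝ) (d : σ ⊕ σ →₀ ℕ) :
    (d.prod fun s n => Sum.elim (fun _ => a) (fun _ => b) s ^ n) =
      a ^ (Finsupp.weight (bw σ) d).1 * b ^ (Finsupp.weight (bw σ) d).2 := by
  induction d using Finsupp.induction_linear with
  | zero => simp
  | add f g hf hg =>
    rw [Finsupp.prod_add_index' (by simp) (by intros; rw [pow_add]), hf, hg, map_add]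
    simp only [Prod.fst_add, Prod.snd_add, pow_add]
    ring
  | single s k =>
    rw [Finsupp.prod_single_index (by simp), Finsupp.weight_single]
    cases s <;> simp [bw]

theorem prod_blk {κ σ : Type} [Fintype κ] [Fintype σ] [DecidableEq κ] (b : κ → ℝ)
    (d : κ × σ →₀ ℕ) : (d.prod fun s n => b s.1 ^ n) = ∏ i, b i ^ (d.curry i).degree := by
  rw [Finsupp.prod_fintype _ _ fun _ => pow_zero _, Fintype.prod_prod_type]
  refine Finset.prod_congr rfl fun i _ => ?_
  simp only [Finset.prod_pow_eq_pow_sum, Finsupp.degree_eq_sum, Finsupp.curry_apply]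

end tools

variable {L σ : Type} [Field L] [Fintype σ] [DecidableEq σ] {B : Pkg L σ} {g : ℕ}

theorem cc_cst {ρ : Type} (x : B.Pt L) : B.map (T85.ccA L) (cst B ρ x) = x := by
  unfold cst
  rw [Pkg.map_map]
  refine Eq.trans (congrArg (fun f => B.map f x) (AlgHom.ext fun a => ?_)) (Pkg.map_id' x)
  simp [T85.ccA_apply, MvPowerSeries.algebraMap_apply]

theorem cc_tau (C : Chart B g) {ρ : Type} {a : Fin g → PS ρ L}
    (h : ∀ b, MvPowerSeries.constantCoeff (a b) = 0) {q : B.Pt (PS ρ L)}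
    (hq : B.Rep q (tauV C a)) : B.map (T85.ccA L) q = 0 :=
  (hq.map (T85.ccA L)).eq Pkg.rep_zero (by
    simp only [T85.ccA_apply, (tau1 C h).2.1]
    exact Par.refl _)

/-- a representative of `x + tau` with a good majorant -/
theorem good_rep (hM : St_MAJ) (hG : St_GAU) (C : Chart B g) {ρ : Type} {a : Fin g → PS ρ L}
    (h : ∀ b, MvPowerSeries.constantCoeff (a b) = 0) {x : B.Pt L} {q : B.Pt (PS ρ L)}
    {y : σ → PS ρ L} (hq : B.Rep q (tauV C a)) (hy : B.Rep (cst B ρ x + q) y)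
    {v : AbsoluteValue L ℝ} {H : ℝ} (hH : 1 ≤ H)
    (hL : ∀ x y : σ → L, Zr B.I x → Zr B.I y → x ≠ 0 → y ≠ 0 →
      ∃ a, sn v x ^ B.β * sn v y ^ B.β ≤ H * sn v (ev2 (B.A a) x y))
    (hA : ∀ μ s, l1 v (B.A μ s) ≤ H) {xt : σ → L} (hxt : xt = fun s => T85.ccA L (y s))
    (hτ : ∀ s, Maj v H⁻¹ (tauV C a s) H) :
    ∃ u : PS ρ L, sn v xt ^ B.β * sn v B.o ^ B.β ≤ H * (v (T85.ccA L u) * sn v xt) ∧
      ∀ s, Maj v H⁻¹ ((u • y) s) (H ^ (B.β + 1) * sn v xt ^ B.β) := by
  have hr : 0 < H⁻¹ := inv_pos.2 (zero_lt_one.trans_le hH)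
  have h1 : B.Rep x xt := by
    have := hy.map (T85.ccA L)
    rwa [map_add, cc_cst, cc_tau C h hq, add_zero, ← hxt] at this
  obtain ⟨μ, hμ⟩ := hL xt B.o h1.zr B.o_mem (uni_iff_ne_zero.1 h1.uni) B.o_ne
  obtain ⟨u, hu⟩ := (h1.map (IsScalarTower.toAlgHom L L (PS ρ L))).law_eq_smul hq hy μ
  have h2 : ev2 (B.A μ) xt B.o = T85.ccA L u • xt := by
    have e := ev2_map (T85.ccA L : PS ρ L →ₐ[L] L) (B.A μ)
      (fun i => IsScalarTower.toAlgHom L L (PS ρ L) (xt i)) (tauV C a)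
    rw [hu] at e
    simp only [T85.ccA_apply, (tau1 C h).2.1, IsScalarTower.coe_toAlgHom',
      MvPowerSeries.algebraMap_apply, MvPowerSeries.constantCoeff_C, Algebra.algebraMap_self,
      RingHom.id_apply, Pi.smul_apply, smul_eq_mul, map_mul] at e
    subst hxt
    exact e
  refine ⟨u, by rwa [h2, sn_smul] at hμ, fun s => ?_⟩
  rw [← hu]
  obtain ⟨-, m2, -⟩ := hM ρ L v H⁻¹ hr v.nonneg v.map_zero v.add_le fun a b => (v.map_mul a b).le
  have h3 := maj_aeval hM hG hr
    (Sum.elim (fun i => IsScalarTower.toAlgHom L L (PS ρ L) (xt i)) (tauV C a))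
    (Sum.elim (fun _ => sn v xt) fun _ => H) (B.A μ s) (sn v xt ^ B.β * H ^ B.β)
    (fun s => by cases s; exacts [sn_nn v _, zero_le_one.trans hH]) (fun s => by
      cases s with
      | inl i =>
        intro t
        refine le_trans ?_ (le_sn v xt i)
        simpa [MvPowerSeries.algebraMap_apply] using m2 (xt i) t
      | inr i => exact hτ i) fun d hd => by
        rw [prod_bw, B.A_hom μ s (mem_support_iff.1 hd)]
  intro t
  refine (h3 t).trans ?_
  have := pow_nonneg (sn_nn v xt) B.β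
  have := pow_nonneg (zero_le_one.trans hH) B.β
  calc _ ≤ H * (sn v xt ^ B.β * H ^ B.β) := mul_le_mul_of_nonneg_right (hA μ s) (by positivity)
    _ = _ := by ring

omit [Fintype σ] [DecidableEq σ] in
theorem ev2_law {R S : Type} [CommRing R] [CommRing S] [Algebra L R] [Algebra L S]
    (f : R →ₐ[L] S) (P : σ → MvPolynomial (σ ⊕ σ) L) {x y w : σ → R} {e : σ → σ} {l : R}
    (h : ev2 P x (y ∘ e) = l • w) {x' y' w' : σ → S} (hx : x' = fun a => f (x a))
    (hy : y' = fun a => f (y a)) (hw : w' = fun a => f (w a)) :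
    ev2 P x' (y' ∘ e) = f l • w' := by
  subst hx hy hw
  refine (ev2_map f P x (y ∘ e)).trans ?_
  rw [h]
  funext a
  simp only [Pi.smul_apply, smul_eq_mul, map_mul]

/-- change of the laws -/
theorem law_change (hF : St_FVAL) (C : Chart B g) {k T d : ℕ} {κ : Fin (k + 1) → ℕ}
    (s : ∀ i : Fin (k + 1), Fin (4 ^ (g * κ i)) → σ →₀ ℕ)
    {Dm : Fin (k + 1) → (σ →₀ ℕ) → MvPolynomial σ L} (hD : ∀ i, IsMul B (κ i) (nn C k T d i) (Dm i))
    {ρ : Type} {p : Fin (k + 1) → B.Pt (PS ρ L)} {y u w : Fin (k + 1) → σ → PS ρ L}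
    (hy : ∀ i, B.Rep (p i) (y i)) (hu : ∀ i, B.Rep (2 ^ κ i • p i) (u i))
    {lam : Fin B.nl → Fin (k + 1) → PS ρ L}
    (hl : ∀ a i, ev2 (B.A a) (u i) (u 0 ∘ B.π) = lam a i • w i) (c : Idx g k T d κ → L)
    (Λ Λ' : Fin (k + 1) → Fin B.nl) :
    (∏ j : Fin k, lam (Λ' j.succ) j.succ ^ (C.dg * (g * (T * d)))) *
        evB y (∑ ω, c ω • eL C T d κ s Dm Λ ω) =
      (∏ j : Fin k, lam (Λ j.succ) j.succ ^ (C.dg * (g * (T * d)))) *
        evB y (∑ ω, c ω • eL C T d κ s Dm Λ' ω) := by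
  let K := FractionRing (PS ρ L)
  let f : PS ρ L →ₐ[L] K := IsScalarTower.toAlgHom L (PS ρ L) K
  have hf : Function.Injective f := IsFractionRing.injective (PS ρ L) K
  obtain ⟨E, -, hE⟩ := hF L σ B g C k T d κ s Dm hD K (fun i => B.map f (p i))
    (fun i a => f (y i a)) (fun i a => f (u i a))
    (Function.update (fun i a => f (w i a)) 0 fun a => f (u 0 a)) (fun i => (hy i).map f)
    (fun i => by rw [← map_nsmul]; exact (hu i).map f) (Function.update_self _ _ _)
  have key : ∀ (Λ : Fin (k + 1) → Fin B.nl) i, i ≠ 0 →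
      ev2 (B.A (Λ i)) (fun a => f (u i a)) ((fun a => f (u 0 a)) ∘ B.π) = f (lam (Λ i) i) •
        Function.update (fun i a => f (w i a)) 0 (fun a => f (u 0 a)) i := fun Λ i hi => by
    rw [Function.update_of_ne hi]
    exact ev2_law f _ (hl _ _) rfl rfl rfl
  unfold evB
  simp only [map_sum, map_smul, Finset.mul_sum]
  refine Finset.sum_congr rfl fun ω _ => ?_
  rw [mul_smul_comm, mul_smul_comm]
  congr 1
  apply hf
  have e1 := hE Λ _ (key Λ) ω
  have e2 := hE Λ' _ (key Λ') ω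
  rw [evB_map, prod_erase0] at e1 e2
  unfold evB at e1 e2
  simp only [map_mul, map_prod, map_pow]
  rw [e1, e2]
  ring

end T81

open T81 T83 T1 T85 in
theorem st_UPP (hF : St_FVAL) (hLaw : St_LAW) (hLG : St_LG) (hM : St_MAJ) (hMT : St_MTAU)
    (hG : St_GAU) (_hL : St_L1) (hLow : St_LOW) (_hT : St_TAU) : St_UPP := by
  intro L σ _ _ _ _ B g C k c2 A2
  obtain ⟨cL, AL, hL⟩ := hLaw L σ B
  obtain ⟨cτ, hc1, hτ⟩ := hMT L σ B g C
  obtain ⟨N, A, hN, hb⟩ := bdd_fam (L := L) (ι := Fin 3 ⊕ Fin B.nl × σ)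
    (Sum.elim ![fun v => c2 * hv v A2, fun v => cL * hv v AL, fun v => cτ * hv v C.A]
      fun s v => l1 v (B.A s.1 s.2)) (by
      rintro (j | s)
      · fin_cases j
        exacts [⟨c2, A2, fun _ => le_rfl⟩, ⟨cL, AL, fun _ => le_rfl⟩, ⟨cτ, C.A, fun _ => le_rfl⟩]
      · exact bdd_l1 _)
  have hN' : (1 : ℝ) ≤ N := by exact_mod_cast hN
  have l0 : 0 ≤ Real.log N := Real.log_nonneg hN'
  have a0 := hA_nn A
  have f0 : (0 : ℝ) ≤ Module.finrank ℚ L := Nat.cast_nonneg _
  refine ⟨Module.finrank ℚ L + (B.β + 2 + k * (C.dg * g) : ℕ) *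
    (Module.finrank ℚ L * Real.log N + hA A), by positivity, ?_⟩
  intro T d E κ δ w s Dm x Λ y c ν Ψ hc2 hw hD hΛ hFm hy hΨ
  choose q hq hy using hy
  have hX : ∀ i b, MvPowerSeries.constantCoeff
      (MvPowerSeries.X (i, b) : PS (Fin (k + 1) × Fin g) L) = 0 := fun i b => by simp
  obtain ⟨p, hp⟩ : ∃ p : Fin (k + 1) → B.Pt (PS (Fin (k + 1) × Fin g) L),
      ∀ i, p i = cst B _ (x i) + q i := ⟨_, fun _ => rfl⟩
  have hy' : ∀ i, B.Rep (p i) (y i) := fun i => (hp i).symm ▸ hy i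
  have hpx : ∀ i, B.map (T85.ccA L) (p i) = x i := fun i => by
    rw [hp, map_add, cc_cst, cc_tau C (hX i) (hq i), add_zero]
  choose u hu using fun i => Pkg.exists_rep (2 ^ κ i • p i)
  choose w' hw' using fun i => Pkg.exists_rep (B := B) (2 ^ κ i • p i + -((2 : ℕ) ^ κ 0 • p 0))
  choose lam hl using fun a i => (hu i).law_eq_smul (hu 0).neg (hw' i) a
  have ex : ∀ z : Fin (k + 1) → σ → PS (Fin (k + 1) × Fin g) L, ∃ zt : Fin (k + 1) → σ → L,
      ∀ i, zt i = fun a => T85.ccA L (z i a) := fun _ => ⟨_, fun _ => rfl⟩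
  obtain ⟨xt, hxt⟩ := ex y
  obtain ⟨ut, hut⟩ := ex u
  obtain ⟨wt', hwt⟩ := ex w'
  have rx : ∀ i, B.Rep (x i) (xt i) := fun i => by
    have := (hy' i).map (T85.ccA L)
    rwa [hpx, ← hxt] at this
  have ru : ∀ i, B.Rep (2 ^ κ i • x i) (ut i) := fun i => by
    have := (hu i).map (T85.ccA L)
    rwa [map_nsmul, hpx, ← hut] at this
  have rw' : ∀ i, B.Rep (2 ^ κ i • x i - 2 ^ κ 0 • x 0) (wt' i) := fun i => by
    have := (hw' i).map (T85.ccA L)
    rwa [map_add, map_neg, map_nsmul, map_nsmul, hpx i, hpx 0, ← sub_eq_add_neg, ← hwt] at this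
  have nx := fun i => uni_iff_ne_zero.1 (rx i).uni
  have nu := fun i => uni_iff_ne_zero.1 (ru i).uni
  have nw := fun i => uni_iff_ne_zero.1 (rw' i).uni
  have hlt : ∀ a i, ev2 (B.A a) (ut i) (ut 0 ∘ B.π) = T85.ccA L (lam a i) • wt' i := fun a i =>
    ev2_law (T85.ccA L) _ (hl a i) (hut i) (hut 0) (hwt i)
  set e' := C.dg * (g * (T * d)) with he'
  set V : PS (Fin (k + 1) × Fin g) L := ∏ j : Fin k, lam (Λ j.succ) j.succ ^ e' with hV
  have hγ : MvPowerSeries.constantCoeff V ≠ 0 := by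
    rw [hV, map_prod]
    refine Finset.prod_ne_zero_iff.2 fun j _ => ?_
    rw [map_pow]
    refine pow_ne_zero _ fun h0 => hΛ ut ru j.succ ?_
    rw [hlt, T85.ccA_apply, h0, zero_smul]
  have hc : c ≠ 0 := by
    rintro rfl
    refine hΨ.1 (MvPolynomial.ext _ _ fun d => ?_)
    rw [hΨ.2.2]
    simp [evB]
  obtain ⟨ω0, -⟩ := Function.ne_iff.1 hc
  have hI : (1 : ℝ) ≤ Fintype.card (Idx g k T d κ) := by
    exact_mod_cast Fintype.card_pos_iff.2 ⟨ω0⟩
  set tot : ℕ := E + (B.β + 1) * ∑ i, δ i + ν + k * e' + ∑ i, δ i with htot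
  have main := hLG L Ψ.support ((Fin (k + 1) ⊕ Fin (k + 1)) ⊕ (Fin k ⊕ Fin k ⊕ Fin k)) σ
    (Idx g k T d κ) (fun d => coeff d.1 Ψ) c
    (Sum.elim (Sum.elim xt fun _ => B.o)
      (Sum.elim (fun j => ut j.succ) (Sum.elim (fun _ => ut 0) fun j => wt' j.succ)))
    (Sum.elim (Sum.elim (fun i => B.β * δ i + δ i) fun _ => 0)
      (Sum.elim (fun _ => 0) (Sum.elim (fun _ => 0) fun _ => e')))
    (Sum.elim (Sum.elim (fun i => B.β * δ i) fun i => B.β * δ i)
      (Sum.elim (fun _ => B.β * e') (Sum.elim (fun _ => B.β * e') fun _ => 0)))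
    (Fintype.card (Idx g k T d κ) * N ^ tot) Unit (fun _ => A) (fun _ => tot)
    (MvPowerSeries.constantCoeff V) (cf_ne hΨ.1) hc
    (by rintro ((i | i) | j | j | j); exacts [nx i, B.o_ne, nu _, nu _, nw _])
    (one_le_mul_of_one_le_of_one_le hI (one_le_pow₀ hN')) hγ fun v => ?_
  · simp only [Fintype.sum_sum_type, Sum.elim_inl, Sum.elim_inr, Nat.cast_zero, zero_mul,
      Finset.sum_const_zero, add_zero, zero_add, Finset.univ_unique, Finset.sum_singleton,
      Nat.cast_add, add_mul, Finset.sum_add_distrib] at main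
    rw [Real.log_mul (by positivity) (by positivity), Real.log_pow] at main
    rw [sum_erase0]
    simp only [fun i => (rx i).ht, fun i => (ru i).ht, fun i => (rw' i).ht, mul_sub, mul_add,
      Finset.sum_sub_distrib, Finset.sum_add_distrib, ← mul_assoc]
    have h1 : 0 ≤ ∑ i, ((B.β * δ i : ℕ) : ℝ) * Height.logHeight B.o :=
      Finset.sum_nonneg fun i _ => mul_nonneg (Nat.cast_nonneg _) (Height.logHeight_nonneg _)
    have h2 : (tot : ℝ) ≤ (B.β + 2 + k * (C.dg * g) : ℕ) * (E + ∑ i, (δ i : ℝ) + T * d + ν) := by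
      have : tot ≤ (B.β + 2 + k * (C.dg * g)) * (E + ∑ i, δ i + T * d + ν) := by
        rw [htot, he']
        nlinarith [Nat.zero_le (B.β * E), Nat.zero_le (B.β * ν), Nat.zero_le (B.β * (T * d)),
          Nat.zero_le (k * (C.dg * g) * (E + ∑ i, δ i + ν))]
      exact_mod_cast this
    have l1' : 0 ≤ Real.log (Fintype.card (Idx g k T d κ)) := Real.log_nonneg hI
    have h3 : (0 : ℝ) ≤ E + ∑ i, (δ i : ℝ) + T * d + ν := by positivity
    have h4 := mul_le_mul_of_nonneg_right h2 (add_nonneg (mul_nonneg f0 l0) a0)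
    have h5 : (0 : ℝ) ≤ (B.β + 2 + k * (C.dg * g) : ℕ) *
        (Module.finrank ℚ L * Real.log N + hA A) * Real.log (Fintype.card (Idx g k T d κ)) := by
      positivity
    have h6 := mul_nonneg f0 h3
    simp only [Nat.cast_mul (B.β) e', mul_comm (B.β : ℝ) e'] at main
    unfold hP
    push_cast at h1 h4 h5 h6 main ⊢
    linarith
  · set H : ℝ := N * hv v A with hH
    have H1 : 1 ≤ H := one_le_mul_of_one_le_of_one_le hN' (one_le_hv v A)
    have H0 : 0 < H := zero_lt_one.trans_le H1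
    have b2 : c2 * hv v A2 ≤ H := hb (Sum.inl 0) v
    have bL : cL * hv v AL ≤ H := hb (Sum.inl 1) v
    have bτ : cτ * hv v C.A ≤ H := hb (Sum.inl 2) v
    have hL' : ∀ x y : σ → L, Zr B.I x → Zr B.I y → x ≠ 0 → y ≠ 0 →
        ∃ a, sn v x ^ B.β * sn v y ^ B.β ≤ H * sn v (ev2 (B.A a) x y) := fun x y h1 h2 h3 h4 =>
      (hL v x y h1 h2 h3 h4).imp fun a ha =>
        ha.trans (mul_le_mul_of_nonneg_right bL (sn_nn v _))
    choose Λ' hΛ' using fun i => hL' (ut i) (ut 0 ∘ B.π) (ru i).zr (ru 0).neg.zr (nu i)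
      (uni_iff_ne_zero.1 (ru 0).neg.uni)
    simp only [hlt, sn_smul, sn_perm] at hΛ'
    choose ui h1 h2 using fun i => good_rep hM hG C (hX i) (hq i) (hy i) H1 hL'
      (fun μ s => hb (Sum.inr (μ, s)) v) (hxt i) fun s t => by
        have h0 : (0 : ℝ) < cτ * hv v C.A :=
          mul_pos (by exact_mod_cast hc1) (zero_lt_one.trans_le (one_le_hv v _))
        have := hτ v (Fin (k + 1) × Fin g) g id (Prod.mk i) Function.injective_id
          (Prod.mk_right_injective i) s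
        simp only [id, Finset.sum_ite_eq', Finset.mem_univ, if_true] at this
        exact (maj_r this (inv_pos.2 H0).le (inv_anti₀ h0 bτ) t).trans bτ
    have so := sn_pos v B.o_ne
    have sx := fun i => sn_pos v (nx i)
    have su := fun i => sn_pos v (nu i)
    have sw := fun i => sn_pos v (nw i)
    set F' := ∑ ω, c ω • eL C T d κ s Dm Λ' ω with hF'
    have mF : MH δ F' := mh_sum _ fun ω _ => MH.smul (hFm Λ' ω).1 _
    have lF : l1 v F' ≤ Fintype.card (Idx g k T d κ) * (sn v c * H ^ E) :=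
      l1_comb v c fun ω => ((hFm Λ' ω).2 v).trans (pow_le_pow_left₀
        (mul_nonneg (Nat.cast_nonneg _) (zero_le_one.trans (one_le_hv v _))) b2 _)
    set G := evB (fun i => ui i • y i) F' with hGd
    have mG : Maj v H⁻¹ G (l1 v F' * ∏ i, (H ^ (B.β + 1) * sn v (xt i) ^ B.β) ^ δ i) :=
      maj_aeval hM hG (inv_pos.2 H0) _ (fun s => H ^ (B.β + 1) * sn v (xt s.1) ^ B.β) F' _
        (fun s => by have := sx s.1; positivity) (fun s => h2 s.1 s.2) fun d hd => by
          rw [prod_blk fun i => H ^ (B.β + 1) * sn v (xt i) ^ B.β]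
          simp only [mF d hd, le_refl]
    set U : PS (Fin (k + 1) × Fin g) L :=
      (∏ i, ui i ^ δ i) * ∏ j : Fin k, lam (Λ' j.succ) j.succ ^ e' with hU
    have vU : v (MvPowerSeries.constantCoeff U) = (∏ i, v (T85.ccA L (ui i)) ^ δ i) *
        ∏ j : Fin k, v (T85.ccA L (lam (Λ' j.succ) j.succ)) ^ e' := by
      simp only [hU, map_mul, map_prod, map_pow, T85.ccA_apply]
    have nU : MvPowerSeries.constantCoeff U ≠ 0 := by
      rw [← v.pos_iff, vU]
      refine mul_pos (Finset.prod_pos fun i _ => pow_pos ?_ _)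
        (Finset.prod_pos fun j _ => pow_pos ?_ _)
      · have := (mul_pos (pow_pos (sx i) _) (pow_pos so _)).trans_le (h1 i)
        exact (mul_pos_iff_of_pos_right (sx i)).1 ((mul_pos_iff_of_pos_left H0).1 this)
      · have := (mul_pos (pow_pos (su j.succ) _) (pow_pos (su 0) _)).trans_le (hΛ' j.succ)
        exact (mul_pos_iff_of_pos_right (sw j.succ)).1 ((mul_pos_iff_of_pos_left H0).1 this)
    obtain ⟨V', hV'⟩ := (unit_iff.2 hγ).exists_left_inv
    have cV : MvPowerSeries.constantCoeff V' * MvPowerSeries.constantCoeff V = 1 := by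
      rw [← map_mul, hV', map_one]
    have eG : G = V' * (U * evB y (∑ ω, c ω • eL C T d κ s Dm Λ ω)) := by
      rw [hGd, evB_smul mF, hU, mul_assoc, law_change hF C s hD hy' hu hl c Λ Λ', ← hF', ← he',
        ← hV, mul_left_comm V', ← mul_assoc V', hV', one_mul]
    have low := (hLow _ _ (Fin g) L w hw).2.1 _ V' _ _
      ((hLow _ _ (Fin g) L w hw).2.1 _ U _ _ hΨ nU) (left_ne_zero_of_mul_eq_one cV)
    rw [← eG] at low
    obtain ⟨⟨d0, hd0⟩, -, hsn⟩ := exists_sn v (cf_ne hΨ.1)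
    have wd : wt w d0 = ν := by
      by_contra h0
      exact mem_support_iff.1 hd0 (by rw [hΨ.2.2, if_neg h0])
    have e1 : v (coeff d0 Ψ) * v (MvPowerSeries.constantCoeff U) =
        v (MvPowerSeries.constantCoeff V) * v (MvPowerSeries.coeff d0 G) := by
      have := low.2.2 d0
      rw [if_pos wd, coeff_C_mul, coeff_C_mul] at this
      rw [← map_mul, ← map_mul, ← this]
      congr 1
      linear_combination (-(coeff d0 Ψ * MvPowerSeries.constantCoeff U)) * cV
    have e2 : v (MvPowerSeries.coeff d0 G) ≤ (Fintype.card (Idx g k T d κ) * (sn v c * H ^ E) *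
        ∏ i, (H ^ (B.β + 1) * sn v (xt i) ^ B.β) ^ δ i) * H ^ ν := by
      have h3 := mG {d0}
      rw [Finset.sum_singleton, inv_pow, mul_inv_le_iff₀ (pow_pos H0 _)] at h3
      have h4 : 0 ≤ ∏ i, (H ^ (B.β + 1) * sn v (xt i) ^ B.β) ^ δ i :=
        Finset.prod_nonneg fun i _ => by have := sx i; positivity
      refine h3.trans (mul_le_mul (mul_le_mul_of_nonneg_right lF h4)
        (pow_le_pow_right₀ H1 (wd ▸ T59.degree_le_wt hw d0)) (pow_pos H0 _).le ?_)
      have := sn_nn v c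
      positivity
    have p1 : ∏ i, (sn v (xt i) ^ B.β * sn v B.o ^ B.β) ^ δ i ≤
        ∏ i, (H * (v (T85.ccA L (ui i)) * sn v (xt i))) ^ δ i :=
      Finset.prod_le_prod (fun i _ => by have := sx i; positivity) fun i _ =>
        pow_le_pow_left₀ (by have := sx i; positivity) (h1 i) _
    have p2 : ∏ j : Fin k, (sn v (ut j.succ) ^ B.β * sn v (ut 0) ^ B.β) ^ e' ≤
        ∏ j : Fin k, (H * (v (T85.ccA L (lam (Λ' j.succ) j.succ)) * sn v (wt' j.succ))) ^ e' :=
      Finset.prod_le_prod (fun j _ => by have := su j.succ; have := su 0; positivity) fun j _ =>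
        pow_le_pow_left₀ (by have := su j.succ; have := su 0; positivity) (hΛ' j.succ) _
    have p3 := mul_le_mul_of_nonneg_left (mul_le_mul p1 p2
      (Finset.prod_nonneg fun j _ => by have := su j.succ; have := su 0; positivity)
      (Finset.prod_nonneg fun i _ => by have := sx i; positivity)) (v.nonneg (coeff d0 Ψ))
    have p4 : 0 ≤ (∏ i, sn v (xt i) ^ δ i) * (∏ j : Fin k, sn v (wt' j.succ) ^ e') *
        H ^ (k * e' + ∑ i, δ i) := by
      have := Finset.prod_nonneg fun i (_ : i ∈ Finset.univ) => (pow_pos (sx i) (δ i)).le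
      have := Finset.prod_nonneg fun (j : Fin k) (_ : j ∈ Finset.univ) =>
        (pow_pos (sw j.succ) e').le
      positivity
    have p5 := mul_le_mul_of_nonneg_right
      (mul_le_mul_of_nonneg_left e2 (v.nonneg (MvPowerSeries.constantCoeff V))) p4
    rw [← e1, vU] at p5
    rw [hsn]
    simp only [Fintype.prod_sum_type, Sum.elim_inl, Sum.elim_inr, pow_zero, Finset.prod_const_one,
      mul_one, one_mul, Finset.univ_unique, Finset.prod_singleton]
    simp only [mul_pow, Finset.prod_mul_distrib, ← pow_mul, Finset.prod_pow_eq_pow_sum,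
      Finset.sum_const, Finset.card_univ, Fintype.card_fin, smul_eq_mul, pow_add,
      ← Finset.mul_sum] at p3 p5 ⊢
    refine (p3.trans_eq ?_).trans (p5.trans_eq ?_)
    · ring
    · simp only [htot, hH, pow_add, mul_pow]
      ring

end D4C
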