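import Pool.Agent.Lib.D4C.M56C
import Pool.Agent.Lib.D4C.B_AD
import Pool.Agent.Lib.D4C.B_APB
import Pool.Agent.Lib.D4C.B_BLK
import Pool.Agent.Lib.D4C.B_CA
import Pool.Agent.Lib.D4C.B_CB3
import Pool.Agent.Lib.D4C.B_CBT
import Pool.Agent.Lib.D4C.B_CBW
import Pool.Agent.Lib.D4C.B_CEX
import Pool.Agent.Lib.D4C.B_CHART
import Pool.Agent.Lib.D4C.B_CMP
import Pool.Agent.Lib.D4C.B_CNB
import Pool.Agent.Lib.D4C.B_CNT
import Pool.Agent.Lib.D4C.B_COD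
import Pool.Agent.Lib.D4C.B_CONE
import Pool.Agent.Lib.D4C.B_CONS
import Pool.Agent.Lib.D4C.B_CORE
import Pool.Agent.Lib.D4C.B_CSUM
import Pool.Agent.Lib.D4C.B_CURVE
import Pool.Agent.Lib.D4C.B_CX
import Pool.Agent.Lib.D4C.B_DATA
import Pool.Agent.Lib.D4C.B_DBL
import Pool.Agent.Lib.D4C.B_DECC
import Pool.Agent.Lib.D4C.B_DECH
import Pool.Agent.Lib.D4C.B_DER
import Pool.Agent.Lib.D4C.B_DESC
import Pool.Agent.Lib.D4C.B_DIM
import Pool.Agent.Lib.D4C.B_DOWN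
import Pool.Agent.Lib.D4C.B_EA2
import Pool.Agent.Lib.D4C.B_EAF
import Pool.Agent.Lib.D4C.B_EAU
import Pool.Agent.Lib.D4C.B_EB2
import Pool.Agent.Lib.D4C.B_EBF
import Pool.Agent.Lib.D4C.B_EBU
import Pool.Agent.Lib.D4C.B_ELIM
import Pool.Agent.Lib.D4C.B_EXP
import Pool.Agent.Lib.D4C.B_FDEG
import Pool.Agent.Lib.D4C.B_FIB
import Pool.Agent.Lib.D4C.B_FVAL
import Pool.Agent.Lib.D4C.B_GAL
import Pool.Agent.Lib.D4C.B_GEN
import Pool.Agent.Lib.D4C.B_GEN1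
import Pool.Agent.Lib.D4C.B_GENK
import Pool.Agent.Lib.D4C.B_GLUE
import Pool.Agent.Lib.D4C.B_GPT
import Pool.Agent.Lib.D4C.B_GSP
import Pool.Agent.Lib.D4C.B_GV
import Pool.Agent.Lib.D4C.B_HDIV
import Pool.Agent.Lib.D4C.B_HENB
import Pool.Agent.Lib.D4C.B_HEXT
import Pool.Agent.Lib.D4C.B_HF
import Pool.Agent.Lib.D4C.B_HFA
import Pool.Agent.Lib.D4C.B_HIB
import Pool.Agent.Lib.D4C.B_HINT
import Pool.Agent.Lib.D4C.B_HSOP
import Pool.Agent.Lib.D4C.B_HSPAN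
import Pool.Agent.Lib.D4C.B_HT
import Pool.Agent.Lib.D4C.B_HTM
import Pool.Agent.Lib.D4C.B_HTZ
import Pool.Agent.Lib.D4C.B_IDX
import Pool.Agent.Lib.D4C.B_INT1
import Pool.Agent.Lib.D4C.B_INT2
import Pool.Agent.Lib.D4C.B_KEYB
import Pool.Agent.Lib.D4C.B_KILL
import Pool.Agent.Lib.D4C.B_LAW
import Pool.Agent.Lib.D4C.B_LG
import Pool.Agent.Lib.D4C.B_LGD
import Pool.Agent.Lib.D4C.B_LIFT
import Pool.Agent.Lib.D4C.B_LOC
import Pool.Agent.Lib.D4C.B_LOC2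
import Pool.Agent.Lib.D4C.B_LOS
import Pool.Agent.Lib.D4C.B_LOW
import Pool.Agent.Lib.D4C.B_LP
import Pool.Agent.Lib.D4C.B_MAJ
import Pool.Agent.Lib.D4C.B_MUL
import Pool.Agent.Lib.D4C.B_MUL1
import Pool.Agent.Lib.D4C.B_MW
import Pool.Agent.Lib.D4C.B_NEG0
import Pool.Agent.Lib.D4C.B_NONVAN
import Pool.Agent.Lib.D4C.B_NORTH
import Pool.Agent.Lib.D4C.B_NRM
import Pool.Agent.Lib.D4C.B_NZB
import Pool.Agent.Lib.D4C.B_ONTO
import Pool.Agent.Lib.D4C.B_ORDA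
import Pool.Agent.Lib.D4C.B_PHB
import Pool.Agent.Lib.D4C.B_PK0
import Pool.Agent.Lib.D4C.B_PK1
import Pool.Agent.Lib.D4C.B_PK2
import Pool.Agent.Lib.D4C.B_PL
import Pool.Agent.Lib.D4C.B_PL2
import Pool.Agent.Lib.D4C.B_POW
import Pool.Agent.Lib.D4C.B_RAC
import Pool.Agent.Lib.D4C.B_RANK
import Pool.Agent.Lib.D4C.B_RATL
import Pool.Agent.Lib.D4C.B_REDN
import Pool.Agent.Lib.D4C.B_REDU
import Pool.Agent.Lib.D4C.B_RELB
import Pool.Agent.Lib.D4C.B_RHO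
import Pool.Agent.Lib.D4C.B_RIE1
import Pool.Agent.Lib.D4C.B_RIE2
import Pool.Agent.Lib.D4C.B_RRX
import Pool.Agent.Lib.D4C.B_SEP
import Pool.Agent.Lib.D4C.B_SEQ
import Pool.Agent.Lib.D4C.B_SH
import Pool.Agent.Lib.D4C.B_SHARP
import Pool.Agent.Lib.D4C.B_SHU
import Pool.Agent.Lib.D4C.B_SIEB
import Pool.Agent.Lib.D4C.B_SIEG
import Pool.Agent.Lib.D4C.B_SM
import Pool.Agent.Lib.D4C.B_SPEC
import Pool.Agent.Lib.D4C.B_SS1
import Pool.Agent.Lib.D4C.B_STD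
import Pool.Agent.Lib.D4C.B_STEP1
import Pool.Agent.Lib.D4C.B_STEP2
import Pool.Agent.Lib.D4C.B_STR2
import Pool.Agent.Lib.D4C.B_SUBF
import Pool.Agent.Lib.D4C.B_SUBG
import Pool.Agent.Lib.D4C.B_SYM
import Pool.Agent.Lib.D4C.B_T2
import Pool.Agent.Lib.D4C.B_TAN
import Pool.Agent.Lib.D4C.B_TAU
import Pool.Agent.Lib.D4C.B_TH
import Pool.Agent.Lib.D4C.B_TMN
import Pool.Agent.Lib.D4C.B_TN
import Pool.Agent.Lib.D4C.B_TNC
import Pool.Agent.Lib.D4C.B_TNG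
import Pool.Agent.Lib.D4C.B_TOP
import Pool.Agent.Lib.D4C.B_TORS
import Pool.Agent.Lib.D4C.B_TRACE
import Pool.Agent.Lib.D4C.B_TRM
import Pool.Agent.Lib.D4C.B_TVR
import Pool.Agent.Lib.D4C.B_UPB
import Pool.Agent.Lib.D4C.B_UPP
import Pool.Agent.Lib.D4C.B_VAN
import Pool.Agent.Lib.D4C.B_VANB

/-! d4c56: assembly of all rows. -/

namespace D4C.All

theorem a_LP : St_LP := st_LP
theorem a_DIM : St_DIM := st_DIM
theorem a_HSOP : St_HSOP := st_HSOP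
theorem a_DATA : St_DATA := st_DATA
theorem a_CHART : St_CHART := st_CHART a_HSOP a_DATA
theorem a_SEQ : St_SEQ := st_SEQ
theorem a_GPT : St_GPT := st_GPT
theorem a_CMP : St_CMP := st_CMP a_GPT
theorem a_GSP : St_GSP := st_GSP
theorem a_PL2 : St_PL2 := st_PL2
theorem a_CBT : St_CBT := st_CBT a_GSP a_PL2
theorem a_RIE1 : St_RIE1 := st_RIE1
theorem a_RIE2 : St_RIE2 := st_RIE2 a_RIE1
theorem a_CX : St_CX := st_CX
theorem a_GV : St_GV := st_GV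
theorem a_RRX : St_RRX := st_RRX a_RIE1 a_RIE2 a_CX a_GV
theorem a_TVR : St_TVR := st_TVR
theorem a_NRM : St_NRM := st_NRM a_GV
theorem a_CORE : St_CORE := st_CORE
theorem a_SS1 : St_SS1 := st_SS1 a_GV a_NRM a_CORE
theorem a_CBW : St_CBW := st_CBW a_GV a_TVR a_SS1 a_NRM a_CORE
theorem a_RHO : St_RHO := st_RHO
theorem a_CB3 : St_CB3 := st_CB3 a_RRX a_CX a_CBW a_SS1 a_PL2 a_RHO a_GV
theorem a_CA : St_CA := st_CA a_GSP a_RHO a_PL2 a_TVR a_SS1 a_GV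
theorem a_SPEC : St_SPEC := st_SPEC a_GV
theorem a_CURVE : St_CURVE := st_CURVE a_GPT a_CMP a_CBT a_CB3 a_CA a_GSP a_RHO a_SPEC
theorem a_CEX : St_CEX := st_CEX
theorem a_CSUM : St_CSUM := st_CSUM a_CEX a_GPT a_GSP a_RHO
theorem a_SUBG : St_SUBG := st_SUBG a_GV
theorem a_DBL : St_DBL := st_DBL a_CURVE a_CSUM a_SUBG a_GV
theorem a_INT1 : St_INT1 := st_INT1 a_DBL a_GPT a_GV a_PL2
theorem a_HINT : St_HINT := st_HINT
theorem a_INT2 : St_INT2 := st_INT2 a_INT1 a_HINT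
theorem a_MUL1 : St_MUL1 := st_MUL1 a_INT2
theorem a_FIB : St_FIB := st_FIB a_INT2
theorem a_MUL : St_MUL := st_MUL a_MUL1 a_FIB a_GPT
theorem a_HT : St_HT := st_HT a_INT2
theorem a_HFA : St_HFA := st_HFA a_HINT
theorem a_POW : St_POW := st_POW
theorem a_GAL : St_GAL := st_GAL a_FIB a_GPT
theorem a_T2 : St_T2 := st_T2 a_INT2 a_HFA a_POW a_GAL a_FIB a_GPT
theorem a_ONTO : St_ONTO := st_ONTO a_FIB a_GPT a_GSP a_RHO
theorem a_TORS : St_TORS := st_TORS a_T2 a_ONTO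
theorem a_SEP : St_SEP := st_SEP a_TORS
theorem a_FDEG : St_FDEG := st_FDEG
theorem a_GEN1 : St_GEN1 := st_GEN1
theorem a_GENK : St_GENK := st_GENK a_GEN1
theorem a_NONVAN : St_NONVAN := st_NONVAN a_GENK
theorem a_FVAL : St_FVAL := st_FVAL
theorem a_LAW : St_LAW := st_LAW
theorem a_LG : St_LG := st_LG
theorem a_MAJ : St_MAJ := st_MAJ
theorem a_MTAU : St_MTAU := st_MTAU
theorem a_GAU : St_GAU := st_GAU
theorem a_L1 : St_L1 := st_L1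
theorem a_LOW : St_LOW := st_LOW
theorem a_TAU : St_TAU := st_TAU
theorem a_UPP : St_UPP := st_UPP a_FVAL a_LAW a_LG a_MAJ a_MTAU a_GAU a_L1 a_LOW a_TAU
theorem a_SIEG : St_SIEG := st_SIEG
theorem a_CONS : St_CONS := st_CONS a_SIEG a_LG
theorem a_REDU : St_REDU := st_REDU
theorem a_ELIM : St_ELIM := st_ELIM
theorem a_PL : St_PL := st_PL
theorem a_AD : St_AD := st_AD
theorem a_IDX : St_IDX := st_IDX a_REDU a_ELIM a_PL a_AD
theorem a_EXP : St_EXP := st_EXP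
theorem a_ORDA : St_ORDA := st_ORDA a_IDX a_EXP a_LG
theorem a_TH : St_TH := st_TH
theorem a_TOP : St_TOP := st_TOP a_TH
theorem a_CNT : St_CNT := st_CNT
theorem a_HF : St_HF := st_HF a_LG
theorem a_HENS : St_HENS := st_HENS
theorem a_TAN : St_TAN := st_TAN
theorem a_RANK : St_RANK := st_RANK a_TAN
theorem a_LOC2 : St_LOC2 := st_LOC2 a_TAN
theorem a_GLUE : St_GLUE := st_GLUE
theorem a_HTZ : St_HTZ := st_HTZ a_AD
theorem a_HTM : St_HTM := st_HTM a_HTZ a_HENS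
theorem a_EAF : St_EAF :=
  st_EAF a_MUL a_HT a_SEP a_FDEG a_NONVAN a_UPP a_CONS a_ORDA a_TOP a_CNT a_HF a_HENS a_RANK a_LOC2 a_GLUE a_LOW a_HTM a_TAU
theorem a_NORTH : St_NORTH := st_NORTH
theorem a_MW : St_MW := st_MW a_ONTO a_FIB a_HT a_NORTH
theorem a_CONE : St_CONE := st_CONE a_HT a_MW
theorem a_EA2 : St_EA2 := st_EA2 a_EAF a_CONE
theorem a_EAU : St_EAU := st_EAU a_SEQ a_EA2
theorem a_GEN : St_GEN := st_GEN
theorem a_IRR : St_IRR := st_IRR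
theorem a_STD : St_STD := st_STD a_TORS a_GEN a_DIM a_IRR
theorem a_TMN : St_TMN := st_TMN
theorem a_LGD : St_LGD := st_LGD
theorem a_DER : St_DER := st_DER
theorem a_KILL : St_KILL := st_KILL a_TAN a_TMN a_LGD a_DER a_TAU
theorem a_VAN : St_VAN := st_VAN
theorem a_DESC : St_DESC := st_DESC
theorem a_TRACE : St_TRACE := st_TRACE
theorem a_RAC : St_RAC := st_RAC
theorem a_HEXT : St_HEXT := st_HEXT
theorem a_STEP1 : St_STEP1 :=
  st_STEP1 a_DIM a_HSOP a_DATA a_EAU a_GEN a_STD a_KILL a_VAN a_DESC a_TRACE a_RAC a_HEXT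
theorem a_MWR : St_MWR := st_MWR
theorem a_HDIV : St_HDIV := st_HDIV a_HT a_MW
theorem a_STEP2 : St_STEP2 := st_STEP2 a_MW a_MWR a_HDIV a_HT
theorem a_DECH : St_DECH := st_DECH a_HT a_HEXT
theorem a_DECC : St_DECC := st_DECC a_DECH a_HT a_HEXT
theorem a_LOC : St_LOC := st_LOC
theorem a_SMP : St_SMP := st_SMP
theorem a_STR2 : St_STR2 := st_STR2 a_DIM a_CHART a_STEP1 a_STEP2 a_DECC a_DECH a_LOC a_RAC a_SMP
theorem a_SUBF : St_SUBF := st_SUBF a_DIM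
theorem a_LIFT : St_LIFT := st_LIFT
theorem a_LOS : St_LOS := st_LOS
theorem a_DOWN : St_DOWN := st_DOWN a_LIFT a_LOS
theorem a_RATL : St_RATL := st_RATL a_LOC
theorem a_COD : St_COD := st_COD a_DOWN a_LOC a_DIM a_RATL a_LOS a_SUBF
theorem a_HSPAN : St_HSPAN := st_HSPAN
theorem a_REDN : St_REDN := st_REDN a_L1
theorem a_CNB : St_CNB := st_CNB
theorem a_TN : St_TN := st_TN
theorem a_APB : St_APB := st_APB a_TN a_L1 a_GAU
theorem a_TNG : St_TNG := st_TNG a_TN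
theorem a_SIEB : St_SIEB := st_SIEB a_HSOP a_REDN a_CNB a_SIEG a_AD a_TNG
theorem a_VANB : St_VANB := st_VANB a_TN a_TNG
theorem a_BLK : St_BLK := st_BLK
theorem a_PHB : St_PHB := st_PHB a_TN a_BLK
theorem a_NZB : St_NZB := st_NZB a_TAU a_RANK a_LOC2 a_GLUE a_LOW a_NONVAN a_PHB
theorem a_HIB : St_HIB := st_HIB a_TN a_PHB a_CNB a_BLK
theorem a_HENB : St_HENB := st_HENB
theorem a_TRM : St_TRM := st_TRM a_HENB
theorem a_RELB : St_RELB := st_RELB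
theorem a_UPB : St_UPB := st_UPB a_AD
theorem a_TNC : St_TNC := st_TNC a_BLK
theorem a_KEYB : St_KEYB := st_KEYB a_PHB a_HIB a_TRM a_RELB a_UPB a_HTZ a_APB a_TN a_TNC a_AD a_BLK
theorem a_EBF : St_EBF :=
  st_EBF a_MUL a_SEP a_FDEG a_REDN a_CNB a_APB a_SIEB a_VANB a_NZB a_PHB a_IDX a_KEYB a_HT
theorem a_EB2 : St_EB2 := st_EB2 a_EBF a_CONE a_HENS
theorem a_EBU2 : St_EBU2 := st_EBU2 a_SEQ a_EB2
theorem a_BILU : St_BILU := st_BILU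
theorem a_SHU : St_SHU :=
  st_SHU a_STR2 a_SUBF a_COD a_HSOP a_HSPAN a_EBU2 a_BILU a_SMP a_DECH a_HEXT
theorem a_SH : St_SH := st_SH a_SHU
theorem a_SHARP : St_SHARP := st_SHARP a_SH a_LOC a_DIM
theorem a_SYM : St_SYM := st_SYM a_LP
theorem a_PK0 : St_PK0 := st_PK0
theorem a_PK1 : St_PK1 := st_PK1 a_PK0
theorem a_PK2 : St_PK2 := st_PK2
theorem a_NEG0 : St_NEG0 := st_NEG0

theorem final : St_FINAL := M56.final a_LP a_DIM a_SHARP a_SYM a_PK1 a_PK2 a_NEG0 a_HEXT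

end D4C.All
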