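import Pool.Agent.Lib.D4C.BlueU

namespace D4C

open MvPolynomial Filter

namespace T48

theorem le_of_hom {k σ : Type} [Field k] {I J : Ideal (MvPolynomial σ k)} (hI : IsHom I)
    (h : ∀ F n, F.IsHomogeneous n → F ∈ I → F ∈ J) : I ≤ J := fun F hF => by
  rw [← sum_homogeneousComponent F]
  exact Ideal.sum_mem _ fun n _ => h _ n (homogeneousComponent_isHomogeneous n F) (hI F hF n)

theorem prime_I {L σ : Type} [Field L] [Fintype σ] [DecidableEq σ] (B : Pkg L σ) :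
    B.I.IsPrime := by
  have := B.gprime L
  rwa [ext, Algebra.algebraMap_self, show (MvPolynomial.map (RingHom.id L) :
    MvPolynomial σ L →+* _) = RingHom.id _ from RingHom.ext map_id, Ideal.map_id] at this

theorem exists_dim (hD : St_DIM) (hL : St_LOC) {L σ : Type} [Field L] [Fintype σ] [DecidableEq σ]
    (B : Pkg L σ) : ∃ g, B.IsDim g := by
  obtain ⟨⟨n, hn⟩, -, h1⟩ := hD L σ B.I (prime_I B)
  obtain ⟨-, h2, h3, -, h4⟩ := hL L σ L B.o B.o_ne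
  have h5 : cd (loc L B.o) ≤ cd B.I := by
    rcases (le_of_hom B.hom fun F n hF h => (h3.2 F n hF).mp (B.o_mem F h)).eq_or_lt with h | h
    · rw [h]
    · exact (h1 _ h2 h).le
  rw [h4, hn] at h5
  have h6 : 1 ≤ n := by exact_mod_cast le_add_self.trans h5
  exact ⟨n - 1, hn.trans (by rw [Nat.sub_add_cancel h6])⟩

theorem not_pgen (hD : St_DIM) (hL : St_LOC) (hR : St_RAC) (hS : St_SMP) {L σ : Type} [Field L]
    [NumberField L] [Fintype σ] [DecidableEq σ] (B : Pkg L σ) (h0 : B.IsDim 0) (U : Ultrafilter ℕ)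
    (x : ℕ → B.Pt L) (hx : Tendsto (fun n => B.ht (x n)) U atTop) (xs : σ → Ul U L)
    (hxs : UlRep B U x xs) : ¬ PGen (ext B.I (sm U L fun n => B.ht (x n))) xs := fun h => by
  obtain ⟨h1, -, h2, -, h3⟩ := hL (sm U L fun n => B.ht (x n)) σ (Ul U L) xs h.1
  have h4 : loc (sm U L fun n => B.ht (x n)) xs = ext B.I _ := le_antisymm
    (le_of_hom h1 fun F n hF hm => (h.2 F n hF).mp ((h2.2 F n hF).mpr hm))
    (le_of_hom B.hom.ext fun F n hF hm => (h2.2 F n hF).mp ((h.2 F n hF).mpr hm))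
  rw [h4, (hD L σ B.I (prime_I B)).2.1 _ (B.gprime _), show cd B.I = _ from h0, Nat.cast_add,
    Nat.cast_one, Cardinal.add_one_inj, Nat.cast_zero, eq_comm, trdeg_eq_zero_iff] at h3
  obtain ⟨i, hi⟩ := Function.ne_iff.mp h.1
  have h5 (j) : xs j / xs i ∈ sm U L fun n => B.ht (x n) :=
    hR U L _ hx _ (IntermediateField.isAlgebraic_iff.mp
      (h3.isAlgebraic ⟨_, IntermediateField.subset_adjoin _ _ ⟨(j, i), rfl⟩⟩))
  obtain ⟨z, h6, rfl⟩ := hxs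
  have h7 := (hS σ U L _ hx z h.1).mpr ⟨_, fun j => ⟨_, h5 j⟩,
    funext fun j => (mul_div_cancel₀ _ hi).symm⟩ (1 / 2) (by norm_num)
  obtain ⟨n, ⟨h8, h9⟩, h10⟩ := ((h6.and h7).and (hx.eventually_ge_atTop 1)).exists
  have := h8.ht
  dsimp only at h9
  linarith

end T48

open T48

theorem st_STR (hD : St_DIM) (hC : St_CHART) (h1 : St_STEP1) (h2 : St_STEP2) (hc : St_DECC)
    (hh : St_DECH) (hL : St_LOC) (hR : St_RAC) (hS : St_SMP) : St_STR := by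
  intro L σ _ _ _ _ B U x hx
  obtain ⟨g, hg⟩ := exists_dim hD hL B
  induction g using Nat.strong_induction_on generalizing L with
  | _ g ih =>
  obtain ⟨L₁, _, ⟨C⟩⟩ := hC L σ B g hg
  have : NumberField L₁ := NumberField.of_module_finite L L₁
  obtain ⟨⟨x₁, d₁⟩, hc'⟩ := hc L σ B U x hx L₁
  have hx₁ := (hh L σ B U x L₁ _ _ _ hx d₁).1
  have hg₁ : (B.bc L₁).IsDim g := ((hD L σ B.I (prime_I B)).2.1 L₁ (B.gprime _)).trans hg
  choose z hz using fun n => Pkg.exists_rep (x₁ n)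
  have hu : UlRep (B.bc L₁) U x₁ fun i => toU U fun n => z n i :=
    ⟨z, Eventually.of_forall hz, rfl⟩
  by_cases hp : PGen (ext (B.bc L₁).I (sm U L₁ fun n => (B.bc L₁).ht (x₁ n)))
    fun i => toU U fun n => z n i
  · cases g with
    | zero => exact absurd hp (not_pgen hD hL hR hS _ hg₁ U x₁ hx₁ _ hu)
    | succ g => exact ⟨L₁, _, _, _, _, g, x₁, _, _, d₁, hg₁, hu, hp⟩
  obtain ⟨L₂, _, _, _, J, g', N, y, hJ, h3, h4, h5, h6, h7⟩ := h1 L₁ σ _ g hg₁ C U x₁ hx₁ _ hu hp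
  obtain ⟨x₂, y₂, d₂⟩ := h2 L₁ σ _ U x₁ hx₁ L₂ J hJ N y h5 h6 h7
  let _ : Algebra L L₂ := ((algebraMap L₁ L₂).comp (algebraMap L L₁)).toAlgebra
  have : IsScalarTower L L₁ L₂ := .of_algebraMap_eq' rfl
  obtain ⟨y₃, d₃⟩ := hc' _ _ _ L₂ _ _ _ d₁ d₂
  obtain ⟨L₃, _, _, _, B₃, g₃, x₃, y₄, xs, d₄, h8⟩ :=
    ih g' h4 L₂ _ x₂ (hh L σ B U x L₂ _ _ _ hx d₃).1 h3
  let _ : Algebra L L₃ := ((algebraMap L₂ L₃).comp (algebraMap L L₂)).toAlgebra
  have : IsScalarTower L L₂ L₃ := .of_algebraMap_eq' rfl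
  obtain ⟨y₅, d₅⟩ := (hc L σ B U x hx L₂).2 _ _ _ L₃ _ _ _ d₃ d₄
  exact ⟨L₃, _, _, _, B₃, g₃, x₃, y₅, xs, d₅, h8⟩

end D4C
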