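import Pool.Agent.Lib.D4C.Iface

/-! d4c56 blueprint, step A (writer 78). -/

set_option linter.unusedVariables false

namespace D4C

open MvPolynomial Filter

/-- power series ring -/
abbrev PS (ρ L : Type) : Type := MvPowerSeries ρ L

/-- degree `δ i` in the block `i` -/
def MH {κ σ L : Type} [Field L] (δ : κ → ℕ) (F : MvPolynomial (κ × σ) L) : Prop :=
  ∀ d ∈ F.support, ∀ i, (d.curry i).degree = δ i

/-- evaluation of a polynomial in blocks -/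
noncomputable def evB {κ σ L R : Type} [Field L] [CommRing R] [Algebra L R] (x : κ → σ → R)
    (F : MvPolynomial (κ × σ) L) : R := aeval (fun s : κ × σ => x s.1 s.2) F

/-- total height of a finite set of constants -/
noncomputable def hA {L : Type} [Field L] [Height.AdmissibleAbsValues L] (A : Finset L) : ℝ :=
  ∑ a ∈ A, Height.logHeight₁ a

/-- a series in one block of variables -/
noncomputable def blk {κ ρ L : Type} [Finite ρ] [Field L] (i : κ) (f : PS ρ L) : PS (κ × ρ) L :=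
  MvPowerSeries.subst (fun a : ρ => (MvPowerSeries.X (i, a) : PS (κ × ρ) L)) f

/-- linear coefficient -/
noncomputable def lin {ρ L : Type} [Field L] (f : PS ρ L) (r : ρ) : L :=
  MvPowerSeries.coeff (Finsupp.single r 1) f

section chart
variable {L σ : Type} [Field L] [Fintype σ] [DecidableEq σ] {B : Pkg L σ} {g : ℕ}

/-- the formal parametrisation at the parameters `a` -/
noncomputable def tauV (C : Chart B g) {ρ F : Type} [Field F] [Algebra L F]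
    (a : Fin g → PS ρ F) : σ → PS ρ F := fun i => MvPowerSeries.subst a (C.τ i)

/-- the constant point -/
noncomputable def cst (B : Pkg L σ) (ρ : Type) {F : Type} [Field F] [Algebra L F] :
    B.Pt F →+ B.Pt (PS ρ F) := B.map (IsScalarTower.toAlgHom L F (PS ρ F))

/-- `y` represents `p + tau (a)` -/
def RepAt (C : Chart B g) {ρ F : Type} [Field F] [Algebra L F] (p : B.Pt F) (a : Fin g → PS ρ F)
    (y : σ → PS ρ F) : Prop :=
  ∃ q : B.Pt (PS ρ F), B.Rep q (tauV C a) ∧ B.Rep (cst B ρ p + q) y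

/-- dual number `a + b eps` -/
def dn {S : Type} [CommRing S] (a b : S) : DualNumber S := TrivSqZeroExt.inl a + TrivSqZeroExt.inr b

/-- tangent matrix of the variety presented by `P`, `φ` at `(z, t)` in the invariant frame,
computed with the law `a`, up to a scalar -/
noncomputable def tm (C : Chart B g) (a : Fin B.nl) {R S : Type} [CommRing R] [CommRing S]
    [Algebra R S] [Algebra L S] {m : ℕ} (P : ZT R m) (φ : σ → ZT R m) (z : Fin m → S) (t : S)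
    (b : Fin g) (j : Fin m) : S :=
  (aeval (ev2 (B.A a)
      (fun i => evZT
        (fun l => dn (z l) (if l = j then evZT z t (Polynomial.derivative P) else 0))
        (dn t (-(evZT (fun l => dn (z l) (if l = j then 1 else 0)) (dn t 0) P).snd)) (φ i))
      fun i => dn (evZT z t (φ (B.π i))) 0) (C.num b)).snd

/-- monomial in the chart forms, of degree `dg * (g * n)` -/
noncomputable def om (C : Chart B g) (n : ℕ) (α : Fin g → Fin (n + 1)) : MvPolynomial σ L :=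
  C.den ^ (g * n - ∑ a, (α a).val) * ∏ a, C.num a ^ (α a).val

/-- degrees `d` in the first block, `T d` in the others -/
def dd {k : ℕ} (T d : ℕ) (i : Fin (k + 1)) : ℕ := if i = 0 then d else T * d

/-- `U 0` and the differences `U i - U 0` -/
noncomputable def Wv (B : Pkg L σ) {k : ℕ} (Λ : Fin (k + 1) → Fin B.nl) (i : Fin (k + 1)) :
    σ → MvPolynomial (Fin (k + 1) × σ) L :=
  if i = 0 then fun s => X (0, s)
  else ev2 (B.A (Λ i)) (fun s => X (i, s)) fun s => X (0, B.π s)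

/-- the form in `U 0, ..., U k` -/
noncomputable def GU (C : Chart B g) {k : ℕ} (T d : ℕ) (Λ : Fin (k + 1) → Fin B.nl)
    (α : ∀ i : Fin (k + 1), Fin g → Fin (dd T d i + 1)) : MvPolynomial (Fin (k + 1) × σ) L :=
  ∏ i, aeval (Wv B Λ i) (om C (dd T d i) (α i))

/-- degrees of `GU` -/
def nn (C : Chart B g) (k T d : ℕ) (i : Fin (k + 1)) : ℕ :=
  if i = 0 then C.dg * (g * d) + k * (B.β * (C.dg * (g * (T * d))))
  else B.β * (C.dg * (g * (T * d)))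

/-- the multiplication operators in all blocks -/
noncomputable def Dop {κ : Type} [Fintype κ] (Dm : κ → (σ →₀ ℕ) → MvPolynomial σ L) :
    MvPolynomial (κ × σ) L →ₗ[L] MvPolynomial (κ × σ) L :=
  (basisMonomials (κ × σ) L).constr L fun μ => ∏ i, rename (Prod.mk i) (Dm i (μ.curry i))

/-- index set of the auxiliary forms -/
abbrev Idx (g k T d : ℕ) (κ : Fin (k + 1) → ℕ) : Type :=
  (∀ i : Fin (k + 1), Fin (4 ^ (g * κ i))) × ∀ i : Fin (k + 1), Fin g → Fin (dd T d i + 1)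

/-- the auxiliary forms -/
noncomputable def eL (C : Chart B g) {k : ℕ} (T d : ℕ) (κ : Fin (k + 1) → ℕ)
    (s : ∀ i : Fin (k + 1), Fin (4 ^ (g * κ i)) → σ →₀ ℕ)
    (Dm : Fin (k + 1) → (σ →₀ ℕ) → MvPolynomial σ L) (Λ : Fin (k + 1) → Fin B.nl)
    (ω : Idx g k T d κ) : MvPolynomial (Fin (k + 1) × σ) L :=
  (∏ i, rename (Prod.mk i) (monomial (s i (ω.1 i)) (1 : L))) * Dop Dm (GU C T d Λ ω.2)

/-- what `St_MUL` says about the operator for `2 ^ κ` on forms of degree `n` -/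
def IsMul (B : Pkg L σ) (κ n : ℕ) (Dm : (σ →₀ ℕ) → MvPolynomial σ L) : Prop :=
  (∃ γ, γ.degree = n ∧ Dm γ ∉ B.I) ∧
    ∀ (Ω : Type) [Field Ω] [Algebra L Ω] (p : B.Pt Ω) (x y : σ → Ω), B.Rep p x →
      B.Rep (2 ^ κ • p) y → ∃ E : Ω, ∀ γ, γ.degree = n → aeval x (Dm γ) = E * ∏ i, y i ^ γ i

/-- the monomials `s` of degree `es` separate the translates of `p` by the `2 ^ κ` torsion -/
def Sep (B : Pkg L σ) (κ n es : ℕ) (p : B.Pt L) (s : Fin n → σ →₀ ℕ) : Prop :=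
  (∀ l, (s l).degree = es) ∧ ∃ (b : Fin n → B.Pt (AlgebraicClosure L))
    (y : Fin n → σ → AlgebraicClosure L), (∀ j, 2 ^ κ • b j = 0) ∧
    (∀ j, B.Rep (B.map (Algebra.ofId L _) p + b j) (y j)) ∧
    (Matrix.of fun l j => ∏ i, y j i ^ s l i).det ≠ 0

end chart

/-- the ring of the `z` and `T` variables of all blocks -/
abbrev AA (L : Type) [Field L] (K m : ℕ) : Type := MvPolynomial (Fin K × Option (Fin m)) L

/-- `L[z][T]` as the block `i` -/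
noncomputable def toA {L : Type} [Field L] {K m : ℕ} (i : Fin K) : ZT L m →ₐ[L] AA L K m :=
  evZT (fun j => X (i, some j)) (X (i, none))

/-- expansion at `z i`, with `T` replaced by the series `η i` -/
noncomputable def evA {L : Type} [Field L] {K m : ℕ} (z : Fin K → Fin m → L)
    (η : Fin K → PS (Fin m) L) : AA L K m →ₐ[L] PS (Fin K × Fin m) L :=
  aeval fun x => x.2.elim (blk x.1 (η x.1))
    fun j => MvPowerSeries.C (z x.1 j) + MvPowerSeries.X (x.1, j)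

/-- `η` is the root of `P (z + s, T)` with constant term `t` -/
def IsBranch {L : Type} [Field L] {m : ℕ} (P : ZT L m) (z : Fin m → L) (t : L)
    (η : PS (Fin m) L) : Prop :=
  MvPowerSeries.constantCoeff η = t ∧
    evZT (fun j => MvPowerSeries.C (z j) + MvPowerSeries.X j) η P = 0

/-- degree at most `b i` in the block `i` -/
def BD {κ σ L : Type} [Field L] (b : κ → ℕ) (F : MvPolynomial (κ × σ) L) : Prop :=
  ∀ d ∈ F.support, ∀ i, (d.curry i).degree ≤ b i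

/-- weight of an exponent -/
noncomputable def wt {κ ρ : Type} (w : κ → ℕ) (d : κ × ρ →₀ ℕ) : ℕ :=
  Finsupp.weight (fun x : κ × ρ => w x.1) d

/-- tangential and normal exponents put together -/
noncomputable def comb {κ α β : Type} (q : κ × α →₀ ℕ) (J : κ × β →₀ ℕ) : κ × (α ⊕ β) →₀ ℕ :=
  q.mapDomain (fun x => (x.1, Sum.inl x.2)) + J.mapDomain fun x => (x.1, Sum.inr x.2)

section local1
variable {L σ : Type} [Field L] [Fintype σ] [DecidableEq σ] {B : Pkg L σ} {g : ℕ}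

/-- normal parameters -/
noncomputable def inc (L : Type) [Field L] {g m c : ℕ} (ι : Fin c → Fin g) (b : Fin g) :
    PS (Fin m ⊕ Fin c) L := ∑ j, if ι j = b then MvPowerSeries.X (Sum.inr j) else 0

/-- `y (s) + tau (t')` in one block -/
noncomputable def X1 (C : Chart B g) {m c : ℕ} (μ : Fin B.nl) (ι : Fin c → Fin g)
    (φ : σ → ZT L m) (z : Fin m → L) (η : PS (Fin m) L) : σ → PS (Fin m ⊕ Fin c) L :=
  ev2 (B.A μ)
    (fun a => evZT (fun j => MvPowerSeries.C (z j) + MvPowerSeries.X (Sum.inl j))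
      (MvPowerSeries.subst
        (fun j : Fin m => (MvPowerSeries.X (Sum.inl j) : PS (Fin m ⊕ Fin c) L)) η) (φ a))
    (tauV C (inc L ι))

/-- expansion of `F` along the product of the varieties -/
noncomputable def Gam (C : Chart B g) {K m c : ℕ} (μ : Fin K → Fin B.nl)
    (ι : Fin K → Fin c → Fin g) (φ : Fin K → σ → ZT L m) (z : Fin K → Fin m → L)
    (η : Fin K → PS (Fin m) L) (F : MvPolynomial (Fin K × σ) L) :
    PS (Fin K × (Fin m ⊕ Fin c)) L :=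
  evB (fun i a => blk i (X1 C (μ i) (ι i) (φ i) (z i) (η i) a)) F

end local1

/-- `Ψ` is the lowest weighted homogeneous part of `f`, of weight `ν` -/
def IsLow {κ ρ L : Type} [Field L] (w : κ → ℕ) (f : PS (κ × ρ) L) (ν : ℕ)
    (Ψ : MvPolynomial (κ × ρ) L) : Prop :=
  Ψ ≠ 0 ∧ (∀ d, wt w d < ν → MvPowerSeries.coeff d f = 0) ∧
    ∀ d, coeff d Ψ = if wt w d = ν then MvPowerSeries.coeff d f else 0

/-- linear substitution block by block -/
noncomputable def linS {κ ρ ρ' L : Type} [Field L] [Fintype ρ'] (M : κ → ρ → ρ' → L) :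
    MvPolynomial (κ × ρ) L →ₐ[L] MvPolynomial (κ × ρ') L :=
  aeval fun x => ∑ r, C (M x.1 x.2 r) * X (x.1, r)

/-! ### tools -/

/-- local bounds for all absolute values give a height bound -/
def St_LG : Prop := ∀ (L : Type) [Field L] [NumberField L] (ι Q ι' ι'' : Type) [Fintype ι]
  [Fintype Q] [Fintype ι'] [Fintype ι''] (a : ι → L) (b : ι'' → L) (y : Q → ι' → L) (e f : Q → ℕ)
  (n0 : ℝ) (P : Type) [Fintype P] (A : P → Finset L) (E : P → ℕ) (γ : L), a ≠ 0 → b ≠ 0 →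
  (∀ q, y q ≠ 0) → 1 ≤ n0 → γ ≠ 0 →
  (∀ v : AbsoluteValue L ℝ, sn v a * ∏ q, sn v (y q) ^ f q ≤
    n0 * v γ * sn v b * (∏ q, sn v (y q) ^ e q) * ∏ p, hv v (A p) ^ E p) →
  Height.logHeight a + ∑ q, f q * Height.logHeight (y q) ≤ Module.finrank ℚ L * Real.log n0 +
    Height.logHeight b + ∑ q, e q * Height.logHeight (y q) + ∑ p, E p * hA (A p)

/-- Siegel lemma -/
def St_SIEG : Prop := ∀ (L : Type) [Field L] [NumberField L], ∃ C : ℝ, 0 ≤ C ∧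
  ∀ (ι κ : Type) [Fintype ι] [Fintype κ] (M : ι → κ → L) (H : ℝ), 0 ≤ H →
    2 * Fintype.card ι ≤ Fintype.card κ → 0 < Fintype.card κ →
    (∀ i, Height.logHeight (M i) ≤ H) → ∃ c : κ → L, c ≠ 0 ∧ (∀ i, ∑ j, M i j * c j = 0) ∧
      Height.logHeight c ≤ C * (H + Real.log (Fintype.card κ) + 1)

/-- Hensel lemma in power series -/
def St_HENS : Prop := ∀ (L : Type) [Field L] (m : ℕ) (P : ZT L m) (z : Fin m → L) (t : L),
  evZT z t P = 0 → evZT z t (Polynomial.derivative P) ≠ 0 → ∃ η, IsBranch P z t η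

/-- index theorem: ORD and PL -/
def St_IDX : Prop := ∀ (L : Type) [Field L] [NumberField L] (K m D1 : ℕ) (s : ℝ), 0 < s →
  ∃ (ρ D0 : ℕ) (C : ℝ), 0 ≤ C ∧ ∀ (w : Fin K → ℕ) (P : Fin K → ZT L m) (A : Fin K → Finset L)
    (z : Fin K → Fin m → L) (t : Fin K → L) (η : Fin K → PS (Fin m) L) (G : AA L K m)
    (b : Fin K → ℕ) (S HH : ℝ), (∀ i, 1 ≤ w i) → (∀ i j, i < j → ρ * w i ≤ w j) →
    (∀ i, (P i).Monic ∧ SmQ D1 (A i) (P i) ∧ IsBranch (P i) (z i) (t i) (η i)) → 0 < S → BD b G →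
    (∀ i, 1 ≤ b i) → (∀ i, (w i * b i : ℝ) ≤ S) → hP G + ∑ i, b i * hA (A i) ≤ HH → evA z η G ≠ 0 →
    (∀ q, MvPowerSeries.coeff q (evA z η G) ≠ 0 → s * S ≤ wt w q) →
    ∃ (i : Fin K) (Q : MvPolynomial (Fin m) L), Q ≠ 0 ∧ Q.totalDegree ≤ D0 ∧ aeval (z i) Q = 0 ∧
      hP Q * S ≤ C * w i * (HH + S)

/-- heights of forms on quotients -/
def St_TH : Prop := ∀ (L : Type) [Field L] [NumberField L] (g : ℕ), ∃ c C : ℝ, 0 < c ∧ 0 ≤ C ∧
  ∀ (ι : Type) [Fintype ι] [DecidableEq ι] (T : ι → Submodule L (Fin g → L)) (μ : ι → ℝ)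
    (p : ι → ℕ) (Ψ : MvPolynomial (ι × Fin g) L), Ψ ≠ 0 →
    (∀ d ∈ Ψ.support, ∀ i, ∑ a, d (i, a) = p i) →
    (∀ i, ∀ t ∈ T i, ∑ a, t a • pderiv (i, a) Ψ = 0) →
    (∀ i (l : Fin g → L), l ≠ 0 → (∀ t ∈ T i, ∑ a, l a * t a = 0) → μ i ≤ Height.logHeight l) →
    ∑ i, p i * (c * μ i - C) ≤ hP Ψ

/-- norm of a value: `N` is any ring seminorm style bound -/
def St_GAU : Prop := ∀ (L R : Type) [Field L] [CommRing R] [Algebra L R] (v : AbsoluteValue L ℝ)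
  (Bd : R → ℝ → Prop), (∀ f a b, Bd f a → a ≤ b → Bd f b) →
  (∀ f f' a b, Bd f a → Bd f' b → Bd (f + f') (a + b)) →
  (∀ f f' a b, Bd f a → Bd f' b → 0 ≤ a → 0 ≤ b → Bd (f * f') (a * b)) →
  (∀ c : L, Bd (algebraMap L R c) (v c)) →
  ∀ (τ : Type) (x : τ → R) (r : τ → ℝ) (F : MvPolynomial τ L) (M : ℝ), (∀ s, 0 ≤ r s) →
    (∀ s, Bd (x s) (r s)) → (∀ d ∈ F.support, d.prod (fun s n => r s ^ n) ≤ M) →
    Bd (aeval x F) (l1 v F * M)

/-- l1 norms: sums, products, substitution, small polynomials -/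
def St_L1 : Prop := ∀ (L : Type) [Field L] (v : AbsoluteValue L ℝ) (τ : Type),
  (∀ F G : MvPolynomial τ L, l1 v (F + G) ≤ l1 v F + l1 v G ∧ l1 v (F * G) ≤ l1 v F * l1 v G) ∧
  (∀ (d : τ →₀ ℕ) (c : L), l1 v (monomial d c) = v c) ∧
  (∀ (F : MvPolynomial τ L) (d : τ →₀ ℕ), v (coeff d F) ≤ l1 v F) ∧
  (∀ F : MvPolynomial τ L, l1 v F ≤ F.support.card * hv v F.coeffs) ∧
  (∀ (τ' : Type) (f : τ → τ') (F : MvPolynomial τ L), l1 v (rename f F) ≤ l1 v F) ∧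
  ∀ [Fintype τ] (D1 : ℕ) (A : Finset L) (F : MvPolynomial τ L), SmP D1 A F →
    l1 v F ≤ (D1 + 1) ^ Fintype.card τ * hv v A

/-- majorants of series with coefficients in a ring with a norm bound `N` -/
def Maj {ρ R : Type} [CommRing R] (N : R → ℝ) (r : ℝ) (f : PS ρ R) (a : ℝ) : Prop :=
  ∀ s : Finset (ρ →₀ ℕ), ∑ d ∈ s, N (MvPowerSeries.coeff d f) * r ^ d.degree ≤ a

/-- calculus of majorants -/
def St_MAJ : Prop := ∀ (ρ R : Type) [CommRing R] (N : R → ℝ) (r : ℝ), 0 < r → (∀ x, 0 ≤ N x) →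
  N 0 = 0 → (∀ x y, N (x + y) ≤ N x + N y) → (∀ x y, N (x * y) ≤ N x * N y) →
  (∀ f f' : PS ρ R, ∀ a b, Maj N r f a → Maj N r f' b →
    Maj N r (f + f') (a + b) ∧ Maj N r (f * f') (a * b)) ∧
  (∀ x : R, Maj N r (MvPowerSeries.C x : PS ρ R) (N x)) ∧
  ∀ (f : PS ρ R) a d, Maj N r f a → N (MvPowerSeries.coeff d f) * r ^ d.degree ≤ a

/-- majorant of the chart after an injective renaming of some of the variables (the other
variables are set to zero) -/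
def St_MTAU : Prop := ∀ (L σ : Type) [Field L] [Fintype σ] [DecidableEq σ] (B : Pkg L σ) (g : ℕ)
  (C : Chart B g), ∃ c : ℕ, 1 ≤ c ∧ ∀ (v : AbsoluteValue L ℝ) (ρ : Type) [DecidableEq ρ] (n : ℕ)
    (ι : Fin n → Fin g) (e : Fin n → ρ), Function.Injective ι → Function.Injective e → ∀ i,
    Maj v (c * hv v C.A)⁻¹
      (tauV C (fun b => ∑ j, if ι j = b then (MvPowerSeries.X (e j) : PS ρ L) else 0) i)
      (c * hv v C.A)

/-! ### local structure -/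

/-- the kernel of reduction is parametrised by the chart; linear parts add -/
def St_TAU : Prop := ∀ (L σ : Type) [Field L] [Fintype σ] [DecidableEq σ] (B : Pkg L σ) (g : ℕ)
  (C : Chart B g) (ρ F : Type) [Field F] [Algebra L F],
  (∀ a : Fin g → PS ρ F, (∀ b, MvPowerSeries.constantCoeff (a b) = 0) →
    (∃ q : B.Pt (PS ρ F), B.Rep q (tauV C a)) ∧
    (∀ i, MvPowerSeries.constantCoeff (tauV C a i) = algebraMap L F (B.o i)) ∧
    IsUnit (aeval (tauV C a) C.den) ∧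
    ∀ b, aeval (tauV C a) (C.num b) = a b * aeval (tauV C a) C.den) ∧
  (∀ (q : B.Pt (PS ρ F)) (y : σ → PS ρ F), B.Rep q y →
    Par (fun i => MvPowerSeries.constantCoeff (y i)) (fun i => algebraMap L F (B.o i)) →
    ∃ a : Fin g → PS ρ F, (∀ b, MvPowerSeries.constantCoeff (a b) = 0) ∧ B.Rep q (tauV C a)) ∧
  ∀ (q q' : B.Pt (PS ρ F)) (a a' a'' : Fin g → PS ρ F),
    (∀ b, MvPowerSeries.constantCoeff (a b) = 0) → (∀ b, MvPowerSeries.constantCoeff (a' b) = 0) →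
    (∀ b, MvPowerSeries.constantCoeff (a'' b) = 0) → B.Rep q (tauV C a) → B.Rep q' (tauV C a') →
    B.Rep (q + q') (tauV C a'') → ∀ b r, lin (a'' b) r = lin (a b) r + lin (a' b) r

/-- `p + tau (t)` is a generic point -/
def St_GEN1 : Prop := ∀ (L σ : Type) [Field L] [Fintype σ] [DecidableEq σ] (B : Pkg L σ) (g : ℕ),
  B.IsDim g → ∀ (C : Chart B g) (F : Type) [Field F] [Algebra L F] (p : B.Pt F)
  (y : σ → PS (Fin g) F), RepAt C p MvPowerSeries.X y → ∀ (G : MvPolynomial σ F) (n : ℕ),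
  G.IsHomogeneous n → aeval y G = 0 → G ∈ ext B.I F

/-- the same in several blocks -/
def St_GENK : Prop := ∀ (L σ : Type) [Field L] [Fintype σ] [DecidableEq σ] (B : Pkg L σ) (g : ℕ),
  B.IsDim g → ∀ (C : Chart B g) (F : Type) [Field F] [Algebra L F] (κ : Type) [Fintype κ]
  [DecidableEq κ] (p : κ → B.Pt F) (y : κ → σ → PS (κ × Fin g) F),
  (∀ i, RepAt C (p i) (fun b => MvPowerSeries.X (i, b)) (y i)) →
  ∀ (G : MvPolynomial (κ × σ) F) (δ : κ → ℕ), MH δ G → evB y G = 0 →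
  ∀ (R : Type) [CommRing R] [Algebra L R] [Algebra F R] [IsScalarTower L F R] (x : κ → σ → R),
    (∀ i, Zr B.I (x i)) → evB x G = 0

/-- separating monomials -/
def St_SEP : Prop := ∀ (L σ : Type) [Field L] [CharZero L] [Fintype σ] [DecidableEq σ]
  (B : Pkg L σ) (g : ℕ), B.IsDim g → ∀ (κ : ℕ) (p : B.Pt L),
  ∃ (es : ℕ) (s : Fin (4 ^ (g * κ)) → σ →₀ ℕ), Sep B κ (4 ^ (g * κ)) es p s

/-- lowest forms exist and transform by the linear part -/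
def St_LOW : Prop := ∀ (κ ρ ρ' L : Type) [Fintype κ] [DecidableEq κ] [Fintype ρ] [Fintype ρ']
  [Field L] (w : κ → ℕ), (∀ i, 1 ≤ w i) →
  (∀ f : PS (κ × ρ) L, f ≠ 0 → ∃ ν Ψ, IsLow w f ν Ψ) ∧
  (∀ (f u : PS (κ × ρ) L) ν Ψ, IsLow w f ν Ψ → MvPowerSeries.constantCoeff u ≠ 0 →
    IsLow w (u * f) ν (C (MvPowerSeries.constantCoeff u) * Ψ)) ∧
  ∀ (f : PS (κ × ρ) L) ν Ψ (a : κ → ρ → PS ρ' L), IsLow w f ν Ψ →
    (∀ i b, MvPowerSeries.constantCoeff (a i b) = 0) →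
    (∀ i, LinearIndependent L fun b => lin (a i b)) →
    IsLow w (MvPowerSeries.subst (fun x : κ × ρ => blk x.1 (a x.1 x.2)) f) ν
      (linS (fun i b => lin (a i b)) Ψ)

/-- substitution with independent linear parts is injective -/
def St_SINJ : Prop := ∀ (ρ ρ' L : Type) [Fintype ρ] [Fintype ρ'] [Field L] (a : ρ → PS ρ' L),
  (∀ b, MvPowerSeries.constantCoeff (a b) = 0) → (LinearIndependent L fun b => lin (a b)) →
  ∀ f : PS ρ L, MvPowerSeries.subst a f = 0 → f = 0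

/-- first order behaviour on the presented variety -/
def St_TAN : Prop := ∀ (L σ : Type) [Field L] [Fintype σ] [DecidableEq σ] (B : Pkg L σ) (g : ℕ)
  (C : Chart B g) (a : Fin B.nl) (R M : Type) [CommRing R] [Field M] [Algebra R M] [Algebra L M]
  (m : ℕ) (P : ZT R m) (φ : σ → ZT R m) (z : Fin m → DualNumber M) (t : DualNumber M),
  evZT z t P = 0 → Zr B.I (fun i => evZT (fun j => (z j).fst) t.fst (φ i)) →
  ∀ b, (aeval (ev2 (B.A a) (fun i => evZT z t (φ i))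
      fun i => dn (evZT (fun j => (z j).fst) t.fst (φ (B.π i))) 0) (C.num b)).fst = 0 ∧
    (evZT (fun j => (z j).fst) t.fst (Polynomial.derivative P) ≠ 0 →
      evZT (fun j => (z j).fst) t.fst (Polynomial.derivative P) *
        (aeval (ev2 (B.A a) (fun i => evZT z t (φ i))
          fun i => dn (evZT (fun j => (z j).fst) t.fst (φ (B.π i))) 0) (C.num b)).snd =
      ∑ j, (z j).snd * tm C a P φ (fun j => (z j).fst) t.fst b j)

/-- a point on a presented variety, with a good law for `x - x` -/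
structure At {L σ : Type} [Field L] [Fintype σ] [DecidableEq σ] (B : Pkg L σ) {m : ℕ}
    (W : Raw L σ m) (e D : ℕ) (x : B.Pt L) (z : Fin m → L) (t : L) (a : Fin B.nl) : Prop where
  ok : W.Ok B.I e D
  root : evZT z t W.P = 0
  Δ_ne : aeval z W.Δ ≠ 0
  rep : B.Rep x fun i => evZT z t (W.φ i)
  law : ev2 (B.A a) (fun i => evZT z t (W.φ i)) (fun i => evZT z t (W.φ (B.π i))) ≠ 0

/-- the tangent matrix has full rank and is completed by coordinate vectors -/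
def St_RANK : Prop := ∀ (L σ : Type) [Field L] [Fintype σ] [DecidableEq σ] (B : Pkg L σ)
  (g m c : ℕ), m + c = g → ∀ (C : Chart B g) (W : Raw L σ m) (e D : ℕ) (x : B.Pt L)
  (z : Fin m → L) (t : L) (a : Fin B.nl), At B W e D x z t a →
  ∃ ι : Fin c → Fin g, Function.Injective ι ∧ ∀ γ : L, γ ≠ 0 → LinearIndependent L
    fun b : Fin g => (Sum.elim (fun j => γ * tm C a W.P W.φ z t b j)
      (fun j => if ι j = b then 1 else 0) : Fin m ⊕ Fin c → L)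

/-- `y (s) + tau (t') = x + tau (th)` with the linear part of `th` -/
def St_LOC2 : Prop := ∀ (L σ : Type) [Field L] [Fintype σ] [DecidableEq σ] (B : Pkg L σ)
  (g m c : ℕ) (C : Chart B g) (W : Raw L σ m) (e D : ℕ) (x : B.Pt L) (z : Fin m → L) (t : L)
  (a μ : Fin B.nl) (ι : Fin c → Fin g) (η : PS (Fin m) L), At B W e D x z t a →
  IsBranch W.P z t η → ev2 (B.A μ) (fun i => evZT z t (W.φ i)) B.o ≠ 0 →
  ∃ (th : Fin g → PS (Fin m ⊕ Fin c) L) (γ : L), γ ≠ 0 ∧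
    (∀ b, MvPowerSeries.constantCoeff (th b) = 0) ∧ RepAt C x th (X1 C μ ι W.φ z η) ∧
    ∀ b, lin (th b) = Sum.elim (fun j => γ * tm C a W.P W.φ z t b j)
      fun j => if ι j = b then 1 else 0

/-- `Gam` is a unit times the expansion at `x` with the parameters substituted -/
def St_GLUE : Prop := ∀ (L σ : Type) [Field L] [Fintype σ] [DecidableEq σ] (B : Pkg L σ) (g : ℕ)
  (C : Chart B g) (κ ρ : Type) [Fintype κ] [DecidableEq κ] [Fintype ρ] (x : κ → B.Pt L)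
  (th : κ → Fin g → PS ρ L) (y1 : κ → σ → PS ρ L) (y0 : κ → σ → PS (κ × Fin g) L),
  (∀ i b, MvPowerSeries.constantCoeff (th i b) = 0) → (∀ i, RepAt C (x i) (th i) (y1 i)) →
  (∀ i, RepAt C (x i) (fun b => MvPowerSeries.X (i, b)) (y0 i)) →
  ∀ (F : MvPolynomial (κ × σ) L) (δ : κ → ℕ), MH δ F →
  ∃ u : PS (κ × ρ) L, MvPowerSeries.constantCoeff u ≠ 0 ∧
    evB (fun i a => blk i (y1 i a)) F =
      u * MvPowerSeries.subst (fun s : κ × Fin g => blk s.1 (th s.1 s.2)) (evB y0 F)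

/-- height of the tangent matrix -/
def St_HTM : Prop := ∀ (L σ : Type) [Field L] [NumberField L] [Fintype σ] [DecidableEq σ]
  (B : Pkg L σ) (g m e D D1 : ℕ) (C : Chart B g), ∃ C0 : ℝ, 0 ≤ C0 ∧ ∀ (W : Raw L σ m)
  (A : Finset L) (x : B.Pt L) (z : Fin m → L) (t : L) (a : Fin B.nl), At B W e D x z t a →
  W.Small e D D1 A → ∀ b j,
    Height.logHeight₁ (tm C a W.P W.φ z t b j) ≤ C0 * (B.ht x + hA A + 1)

/-! ### the auxiliary forms -/

/-- degrees and norms -/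
def St_FDEG : Prop := ∀ (L σ : Type) [Field L] [Fintype σ] [DecidableEq σ] (B : Pkg L σ) (g : ℕ)
  (C : Chart B g) (k N r c : ℕ) (A : Finset L), ∃ (c2 C2 : ℕ) (A2 : Finset L), 1 ≤ c2 ∧
  ∀ (T d : ℕ) (κ es n : Fin (k + 1) → ℕ) (s : ∀ i : Fin (k + 1), Fin (4 ^ (g * κ i)) → σ →₀ ℕ)
    (Dm : Fin (k + 1) → (σ →₀ ℕ) → MvPolynomial σ L), 1 ≤ N → 1 ≤ T → 1 ≤ d →
    (∀ i, κ i ≤ κ 0) → (∀ i l, (s i l).degree = es i) → (∀ i, N * n i = nn C k T d i) →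
    (∀ i γ, (Dm i γ).IsHomogeneous (4 ^ κ i * (N * (n i + r))) ∧
      ∀ v : AbsoluteValue L ℝ, l1 v (Dm i γ) ≤ (c * hv v A) ^ (4 ^ κ i * (n i + r))) →
    ∀ Λ ω, MH (fun i => es i + 4 ^ κ i * (nn C k T d i + N * r)) (eL C T d κ s Dm Λ ω) ∧
      ∀ v : AbsoluteValue L ℝ,
        l1 v (eL C T d κ s Dm Λ ω) ≤ (c2 * hv v A2) ^ (C2 * (T * d * 4 ^ κ 0))

/-- value of the auxiliary forms over a field -/
def St_FVAL : Prop := ∀ (L σ : Type) [Field L] [Fintype σ] [DecidableEq σ] (B : Pkg L σ) (g : ℕ)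
  (C : Chart B g) (k T d : ℕ) (κ : Fin (k + 1) → ℕ)
  (s : ∀ i : Fin (k + 1), Fin (4 ^ (g * κ i)) → σ →₀ ℕ)
  (Dm : Fin (k + 1) → (σ →₀ ℕ) → MvPolynomial σ L), (∀ i, IsMul B (κ i) (nn C k T d i) (Dm i)) →
  ∀ (Ω : Type) [Field Ω] [Algebra L Ω] (p : Fin (k + 1) → B.Pt Ω) (x u w : Fin (k + 1) → σ → Ω),
    (∀ i, B.Rep (p i) (x i)) → (∀ i, B.Rep (2 ^ κ i • p i) (u i)) → w 0 = u 0 →
    ∃ E : Fin (k + 1) → Ω,
      (∀ i γ, γ.degree = nn C k T d i → aeval (x i) (Dm i γ) = E i * ∏ a, u i a ^ γ a) ∧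
      ∀ (Λ : Fin (k + 1) → Fin B.nl) (lam : Fin (k + 1) → Ω),
        (∀ i, i ≠ 0 → ev2 (B.A (Λ i)) (u i) (u 0 ∘ B.π) = lam i • w i) → ∀ ω : Idx g k T d κ,
        evB x (eL C T d κ s Dm Λ ω) = (∏ i, ∏ a, x i a ^ s i (ω.1 i) a) * (∏ i, E i) *
          (∏ i ∈ Finset.univ.erase 0, lam i ^ (C.dg * (g * (T * d)))) *
          ∏ i, aeval (w i) (om C (dd T d i) (ω.2 i))

/-- the law `Λ i` is good at `(2 ^ κ i x i, - 2 ^ κ 0 x 0)` -/
def GoodL {L σ : Type} [Field L] [Fintype σ] [DecidableEq σ] (B : Pkg L σ) {k : ℕ}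
    (κ : Fin (k + 1) → ℕ) (x : Fin (k + 1) → B.Pt L) (Λ : Fin (k + 1) → Fin B.nl) : Prop :=
  ∀ u : Fin (k + 1) → σ → L, (∀ i, B.Rep (2 ^ κ i • x i) (u i)) →
    ∀ i, ev2 (B.A (Λ i)) (u i) (u 0 ∘ B.π) ≠ 0

/-- independence of the auxiliary forms -/
def St_NONVAN : Prop := ∀ (L σ : Type) [Field L] [CharZero L] [Fintype σ] [DecidableEq σ]
  (B : Pkg L σ) (g : ℕ), B.IsDim g → ∀ (C : Chart B g) (k T d : ℕ) (κ es δ : Fin (k + 1) → ℕ)
  (s : ∀ i : Fin (k + 1), Fin (4 ^ (g * κ i)) → σ →₀ ℕ)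
  (Dm : Fin (k + 1) → (σ →₀ ℕ) → MvPolynomial σ L) (x : Fin (k + 1) → B.Pt L)
  (Λ : Fin (k + 1) → Fin B.nl) (y : Fin (k + 1) → σ → PS (Fin (k + 1) × Fin g) L),
  (∀ i, IsMul B (κ i) (nn C k T d i) (Dm i)) → (∀ i γ, ∃ n, (Dm i γ).IsHomogeneous n) →
  (∀ i, Sep B (κ i) _ (es i) (x i) (s i)) → GoodL B κ x Λ →
  (∀ ω, MH δ (eL C T d κ s Dm Λ ω)) →
  (∀ i, RepAt C (x i) (fun b => MvPowerSeries.X (i, b)) (y i)) →
  ∀ c : Idx g k T d κ → L, evB y (∑ ω, c ω • eL C T d κ s Dm Λ ω) = 0 → c = 0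

/-- upper bound for the height of the lowest form -/
def St_UPP : Prop := ∀ (L σ : Type) [Field L] [NumberField L] [Fintype σ] [DecidableEq σ]
  (B : Pkg L σ) (g : ℕ) (C : Chart B g) (k c2 : ℕ) (A2 : Finset L), ∃ C3 : ℝ, 0 ≤ C3 ∧
  ∀ (T d E : ℕ) (κ δ w : Fin (k + 1) → ℕ) (s : ∀ i : Fin (k + 1), Fin (4 ^ (g * κ i)) → σ →₀ ℕ)
    (Dm : Fin (k + 1) → (σ →₀ ℕ) → MvPolynomial σ L) (x : Fin (k + 1) → B.Pt L)
    (Λ : Fin (k + 1) → Fin B.nl) (y : Fin (k + 1) → σ → PS (Fin (k + 1) × Fin g) L)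
    (c : Idx g k T d κ → L) (ν : ℕ) (Ψ : MvPolynomial (Fin (k + 1) × Fin g) L), 1 ≤ c2 →
    (∀ i, 1 ≤ w i) → (∀ i, IsMul B (κ i) (nn C k T d i) (Dm i)) → GoodL B κ x Λ →
    (∀ Λ' ω, MH δ (eL C T d κ s Dm Λ' ω) ∧
      ∀ v : AbsoluteValue L ℝ, l1 v (eL C T d κ s Dm Λ' ω) ≤ (c2 * hv v A2) ^ E) →
    (∀ i, RepAt C (x i) (fun b => MvPowerSeries.X (i, b)) (y i)) →
    IsLow w (evB y (∑ ω, c ω • eL C T d κ s Dm Λ ω)) ν Ψ →
    hP Ψ + ∑ i ∈ Finset.univ.erase 0, (C.dg * (g * (T * d)) : ℕ) *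
        (B.β * B.ht (2 ^ κ i • x i) + B.β * B.ht (2 ^ κ 0 • x 0) -
          B.ht (2 ^ κ i • x i - 2 ^ κ 0 • x 0)) ≤
      Height.logHeight c + ∑ i, δ i * B.ht (x i) +
        C3 * (E + ∑ i, δ i + T * d + ν + Real.log (Fintype.card (Idx g k T d κ)))

/-! ### construction -/

/-- normal Taylor coefficients as polynomials in `z`, `T` -/
def St_EXP : Prop := ∀ (L σ : Type) [Field L] [Fintype σ] [DecidableEq σ] (B : Pkg L σ) (g : ℕ)
  (C : Chart B g) (m D1 : ℕ), ∃ (c1 b1 : ℕ) (A1 : Finset L), 1 ≤ c1 ∧ ∀ (K c : ℕ)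
  (μ : Fin K → Fin B.nl) (ι : Fin K → Fin c → Fin g) (φ : Fin K → σ → ZT L m)
  (A : Fin K → Finset L), (∀ i, Function.Injective (ι i)) → (∀ i a, SmQ D1 (A i) (φ i a)) →
  ∃ G : (Fin K × Fin c →₀ ℕ) → MvPolynomial (Fin K × σ) L →ₗ[L] AA L K m,
    (∀ z η F q J, MvPowerSeries.coeff (comb q J) (Gam C μ ι φ z η F) =
      MvPowerSeries.coeff q (evA z η (G J F))) ∧
    ∀ (F : MvPolynomial (Fin K × σ) L) (δ : Fin K → ℕ), MH δ F → ∀ J,
      BD (fun i => b1 * δ i) (G J F) ∧ ∀ v : AbsoluteValue L ℝ,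
        l1 v (G J F) ≤ l1 v F * (c1 * hv v A1) ^ (J.degree + b1 * ∑ i, δ i) *
          ∏ i, hv v (A i) ^ (b1 * δ i)

/-- reduction modulo monic equations -/
def St_REDU : Prop := ∀ (L : Type) [Field L] (K m D1 : ℕ) (P : Fin K → ZT L m)
  (A : Fin K → Finset L), (∀ i, (P i).Monic ∧ SmQ D1 (A i) (P i)) →
  ∃ red : AA L K m →ₗ[L] AA L K m,
    (∀ (R : Type) [CommRing R] [Algebra L R] (f : AA L K m →ₐ[L] R),
      (∀ i, f (toA i (P i)) = 0) → ∀ G, f (red G) = f G) ∧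
    ∀ (G : AA L K m) (b : Fin K → ℕ), BD b G →
      (∀ d ∈ (red G).support, ∀ i, d (i, none) ≤ D1 ∧ ∀ j, d (i, some j) ≤ (D1 + 1) * b i) ∧
      ∀ v : AbsoluteValue L ℝ,
        l1 v (red G) ≤ l1 v G * ∏ i, ((D1 + 1) ^ (m + 1) * hv v (A i)) ^ b i

/-- construction of a form vanishing to high order in the normal directions -/
def St_CONS : Prop := ∀ (L σ : Type) [Field L] [NumberField L] [Fintype σ] [DecidableEq σ]
  (B : Pkg L σ) (g : ℕ) (C : Chart B g) (m D1 c2 : ℕ) (A2 : Finset L), ∃ (b : ℕ) (C4 : ℝ),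
  0 ≤ C4 ∧ ∀ (K c E S : ℕ) (μ : Fin K → Fin B.nl) (ι : Fin K → Fin c → Fin g)
    (P : Fin K → ZT L m) (φ : Fin K → σ → ZT L m) (A : Fin K → Finset L) (w δ n : Fin K → ℕ)
    (I : Type) [Fintype I] (e : I → MvPolynomial (Fin K × σ) L), 1 ≤ c2 →
    (∀ i, Function.Injective (ι i)) → (∀ i a, SmQ D1 (A i) (φ i a)) →
    (∀ i, (P i).Monic ∧ SmQ D1 (A i) (P i)) → (∀ i, 1 ≤ w i) → (∀ i, S ≤ w i * n i) →
    (∀ ω, MH δ (e ω) ∧ ∀ v : AbsoluteValue L ℝ, l1 v (e ω) ≤ (c2 * hv v A2) ^ E) →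
    2 * ∏ i, ((n i + 1) ^ c * (b * (b * δ i + 1) ^ m)) ≤ Fintype.card I →
    ∃ cf : I → L, cf ≠ 0 ∧ Height.logHeight cf ≤ C4 * (E + S + ∑ i, δ i +
        ∑ i, δ i * hA (A i) + Real.log (Fintype.card I) + 1) ∧
      ∀ (z : Fin K → Fin m → L) (t : Fin K → L) (η : Fin K → PS (Fin m) L),
        (∀ i, IsBranch (P i) (z i) (t i) (η i)) → ∀ q J, wt w J < S →
        MvPowerSeries.coeff (comb q J) (Gam C μ ι φ z η (∑ ω, cf ω • e ω)) = 0

/-- the order at the point is not much bigger than the normal order -/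
def St_ORDA : Prop := ∀ (L σ : Type) [Field L] [NumberField L] [Fintype σ] [DecidableEq σ]
  (B : Pkg L σ) (g : ℕ) (C : Chart B g) (K m D1 : ℕ) (s : ℝ), 0 < s →
  ∃ (ρ D0 : ℕ) (C5 : ℝ), 0 ≤ C5 ∧ ∀ (c : ℕ) (μ : Fin K → Fin B.nl) (ι : Fin K → Fin c → Fin g)
    (P : Fin K → ZT L m) (φ : Fin K → σ → ZT L m) (A : Fin K → Finset L) (w δ : Fin K → ℕ)
    (z : Fin K → Fin m → L) (t : Fin K → L) (η : Fin K → PS (Fin m) L)
    (F : MvPolynomial (Fin K × σ) L) (S HH : ℝ), (∀ i, Function.Injective (ι i)) →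
    (∀ i a, SmQ D1 (A i) (φ i a)) →
    (∀ i, (P i).Monic ∧ SmQ D1 (A i) (P i) ∧ IsBranch (P i) (z i) (t i) (η i)) →
    (∀ i, 1 ≤ w i) → (∀ i j, i < j → ρ * w i ≤ w j) → MH δ F → 0 < S →
    (∀ i, 1 ≤ δ i) → (∀ i, (w i * δ i : ℝ) ≤ S) → hP F + ∑ i, δ i * hA (A i) ≤ HH → Gam C μ ι φ z η F ≠ 0 →
    (∃ (i : Fin K) (Q : MvPolynomial (Fin m) L), Q ≠ 0 ∧ Q.totalDegree ≤ D0 ∧ aeval (z i) Q = 0 ∧
      hP Q * S ≤ C5 * w i * (HH + S)) ∨
    ∃ ν0 : ℕ, (∀ q J, MvPowerSeries.coeff (comb q J) (Gam C μ ι φ z η F) ≠ 0 → ν0 ≤ wt w J) ∧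
      ∃ q J, MvPowerSeries.coeff (comb q J) (Gam C μ ι φ z η F) ≠ 0 ∧ wt w J = ν0 ∧
        (wt w q : ℝ) ≤ s * (S + ν0)

/-- lower bound for the height of the lowest form -/
def St_TOP : Prop := ∀ (L : Type) [Field L] [NumberField L] (g m c K : ℕ), m + c = g →
  ∃ c' C6 : ℝ, 0 < c' ∧ 0 ≤ C6 ∧ ∀ (w : Fin K → ℕ) (T : Fin K → Fin g → Fin m → L)
    (γ : Fin K → L) (ι : Fin K → Fin c → Fin g) (Ψ : MvPolynomial (Fin K × Fin g) L) (ν ν0 : ℕ)
    (μ h : ℝ), (∀ i, 1 ≤ w i) → (∀ i, γ i ≠ 0) → 0 ≤ μ → 0 ≤ h → Ψ ≠ 0 →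
    (∀ d ∈ Ψ.support, wt w d = ν) →
    (∀ i, LinearIndependent L fun b : Fin g => (Sum.elim (fun j => γ i * T i b j)
      (fun j => if ι i j = b then 1 else 0) : Fin m ⊕ Fin c → L)) →
    (∀ q J, coeff (comb q J) (linS (fun i b => (Sum.elim (fun j => γ i * T i b j)
      (fun j => if ι i j = b then 1 else 0) : Fin m ⊕ Fin c → L)) Ψ) ≠ 0 → ν0 ≤ wt w J) →
    (∀ i b j, Height.logHeight₁ (T i b j) ≤ h * w i) →
    (∀ i (l : Fin g → L), l ≠ 0 → (∀ j, ∑ b, l b * T i b j = 0) → μ * w i ≤ Height.logHeight l) →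
    ν0 ≤ ν ∧ c' * μ * ν0 ≤ hP Ψ + C6 * (h * (ν - ν0) + ν)

/-- height of a linear combination of forms -/
def St_HF : Prop := ∀ (L : Type) [Field L] [NumberField L] (c2 : ℕ) (A2 : Finset L), ∃ C7 : ℝ,
  0 ≤ C7 ∧ ∀ (τ I : Type) [Fintype I] (e : I → MvPolynomial τ L) (cf : I → L) (E : ℕ), 1 ≤ c2 →
    cf ≠ 0 → (∀ ω (v : AbsoluteValue L ℝ), l1 v (e ω) ≤ (c2 * hv v A2) ^ E) →
    hP (∑ ω, cf ω • e ω) ≤ Height.logHeight cf + C7 * (E + Real.log (Fintype.card I))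

/-- the dimension count -/
def St_CNT : Prop := ∀ (g m c b b' s : ℕ), m + c = g → 1 ≤ c → ∃ T0 : ℕ, ∀ T, T0 ≤ T →
  ∀ (d : ℕ) (κ δ : Fin (g + 1) → ℕ), 1 ≤ d → (∀ i, δ i ≤ b' * (T * d * 4 ^ κ i)) →
    2 * ∏ i, ((s * d * 4 ^ κ i + 1) ^ c * (b * (b * δ i + 1) ^ m)) ≤
      Fintype.card (Idx g g T d κ) ∧
    ∀ i0 : ℕ, (∀ i, κ i ≤ i0) → 1 ≤ T →
      Real.log (Fintype.card (Idx g g T d κ)) ≤ 4 * (g + 1) ^ 2 * (T * d * 4 ^ i0)

/-- step A for one tuple of points -/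
def St_EAF : Prop := ∀ (L σ : Type) [Field L] [NumberField L] [Fintype σ] [DecidableEq σ]
  (B : Pkg L σ) (g m : ℕ), B.IsDim g → m < g → ∀ (C : Chart B g) (e D D1 : ℕ) (μ0 C1 : ℝ),
  0 < μ0 → 1 ≤ C1 → ∃ (ρ D0 : ℕ) (θ : ℝ), 0 < θ ∧ ∀ c0 : ℝ, 0 < c0 → ∃ ε H0 : ℝ, 0 < ε ∧
  ∀ (x : Fin (g + 1) → B.Pt L) (W : Fin (g + 1) → Raw L σ m) (z : Fin (g + 1) → Fin m → L)
    (t : Fin (g + 1) → L) (a : Fin (g + 1) → Fin B.nl) (A : Fin (g + 1) → Finset L)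
    (κ : Fin (g + 1) → ℕ), (∀ i, At B (W i) e D (x i) (z i) (t i) (a i)) →
    (∀ i, (W i).Small e D D1 (A i)) → (∀ i, H0 ≤ B.ht (x i)) →
    (∀ i, hA (A i) ≤ ε * B.ht (x i)) →
    (∀ i (Q : MvPolynomial (Fin m) L), Q ≠ 0 → Q.totalDegree ≤ D0 → aeval (z i) Q = 0 →
      c0 * B.ht (x i) ≤ hP Q) →
    (∀ i j, i < j → ρ * 4 ^ κ j ≤ 4 ^ κ i) →
    (∀ i, B.ht (2 ^ κ i • x i - 2 ^ κ 0 • x 0) ≤ θ * (4 ^ κ 0 * B.ht (x 0)) ∧
      4 ^ κ 0 * B.ht (x 0) ≤ C1 * (4 ^ κ i * B.ht (x i)) ∧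
      4 ^ κ i * B.ht (x i) ≤ C1 * (4 ^ κ 0 * B.ht (x 0))) →
    ∃ (i : Fin (g + 1)) (l : Fin g → L), l ≠ 0 ∧ Height.logHeight l ≤ μ0 * B.ht (x i) ∧
      ∀ j, ∑ b, l b * tm C (a i) (W i).P (W i).φ (z i) (t i) b j = 0

/-- step A -/
def St_EA2 : Prop := ∀ (L σ : Type) [Field L] [NumberField L] [Fintype σ] [DecidableEq σ]
  (B : Pkg L σ) (g m : ℕ), B.IsDim g → m < g → ∀ (C : Chart B g) (S : Seq B m) (a : Fin B.nl),
  (∀ᶠ n in S.U, At B (S.W n) S.e S.D (S.x n) (S.z n) (S.t n) a) → ∀ ε : ℝ, 0 < ε →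
  ∀ᶠ n in S.U, ∃ l : Fin g → L, l ≠ 0 ∧ Height.logHeight l ≤ ε * B.ht (S.x n) ∧
    ∀ j, ∑ b, l b * tm C a (S.W n).P (S.W n).φ (S.z n) (S.t n) b j = 0

end D4C
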