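import Mathlib

/-! Abelian varieties in projective space over an algebraically closed field. -/

namespace D4C

open MvPolynomial

variable {κ σ : Type} [Field κ]

/-- Zariski closed subset of projective space: the common zeros of a set of forms. -/
def ZClosed (S : Set (Projectivization κ (σ → κ))) : Prop :=
  ∃ T : Set (MvPolynomial σ κ), (∀ F ∈ T, ∃ d, F.IsHomogeneous d) ∧
    S = {p | ∀ F ∈ T, eval p.rep F = 0}

/-- Irreducible subset: nonempty, and if a product of two forms vanishes on it, one factor does. -/
def ZIrred (S : Set (Projectivization κ (σ → κ))) : Prop :=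
  S.Nonempty ∧ ∀ (F G : MvPolynomial σ κ) (d e : ℕ), F.IsHomogeneous d → G.IsHomogeneous e →
    (∀ p ∈ S, eval p.rep (F * G) = 0) → (∀ p ∈ S, eval p.rep F = 0) ∨ ∀ p ∈ S, eval p.rep G = 0

/-- `W` has codimension at least two in `T`: every irreducible closed subset of `W` is separated
from `T` by an irreducible closed set lying strictly between. -/
def CodimTwo (W T : Set (Projectivization κ (σ → κ))) : Prop :=
  ∀ V, ZClosed V → ZIrred V → V ⊆ W → ∃ V', ZClosed V' ∧ ZIrred V' ∧ V ⊂ V' ∧ V' ⊂ T

/-- An abelian variety in projective space: a closed irreducible set with a commutative group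
law whose addition and negation are morphisms, i.e. given near each point by forms. -/
structure AbVar (κ σ : Type) [Field κ] where
  carrier : Set (Projectivization κ (σ → κ))
  closed : ZClosed carrier
  irred : ZIrred carrier
  grp : AddCommGroup carrier
  add_loc : ∀ p q : carrier, ∃ (m n : ℕ) (S : σ → MvPolynomial (σ ⊕ σ) κ),
    (∀ i, (S i).IsWeightedHomogeneous (Sum.elim (fun _ => (1, 0)) fun _ => (0, 1)) (m, n)) ∧
    (fun i => eval (Sum.elim p.1.rep q.1.rep) (S i)) ≠ 0 ∧
    ∀ (p' q' : carrier) (h : (fun i => eval (Sum.elim p'.1.rep q'.1.rep) (S i)) ≠ 0),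
      (p' + q').1 = Projectivization.mk κ _ h
  neg_loc : ∀ p : carrier, ∃ (m : ℕ) (N : σ → MvPolynomial σ κ), (∀ i, (N i).IsHomogeneous m) ∧
    (fun i => eval p.1.rep (N i)) ≠ 0 ∧
    ∀ (p' : carrier) (h : (fun i => eval p'.1.rep (N i)) ≠ 0), (-p').1 = Projectivization.mk κ _ h

instance (A : AbVar κ σ) : AddCommGroup A.carrier := A.grp

/-- The translate `P + B` as a subset of projective space. -/
def AbVar.transl (A : AbVar κ σ) (P : A.carrier) (B : AddSubgroup A.carrier) :
    Set (Projectivization κ (σ → κ)) := {p | ∃ b ∈ B, p = (P + b).1}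

/-- `B` is an abelian subvariety of positive dimension: a nonzero closed irreducible subgroup. -/
def AbVar.IsSubvar (A : AbVar κ σ) (B : AddSubgroup A.carrier) : Prop :=
  B ≠ ⊥ ∧ ZClosed (A.transl 0 B) ∧ ZIrred (A.transl 0 B)

end D4C
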