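import Pool.Agent.Lib.D4C.Iface
import Pool.Agent.Lib.D4C.SDefs
import Pool.Agent.Lib.MP_e06174_ag.Curve

/-! d4c56 blueprint, foundations: theorem of the cube by valuations, doubling, torsion,
Mordell-Weil, passage from projective abelian varieties to packages. -/

set_option linter.unusedSectionVars false

namespace D4C

open MvPolynomial Filter Pool.Agent.Lib.MP_e06174_ag

/-! ### Valuations and places -/

/-- largest valuation of a coordinate -/
noncomputable def gv {K ι : Type} [Field K] [Fintype ι] (O : ValuationSubring K) (x : ι → K) :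
    O.ValueGroup := Finset.univ.sup fun i => O.valuation (x i)

/-- the valuation ring contains the image of `k` -/
def Ov (k : Type) {K : Type} [Field k] [Field K] [Algebra k K] (O : ValuationSubring K) : Prop :=
  ∀ a : k, algebraMap k K a ∈ O

/-- `|φ| ∏ |a i| ≤ ∏ |b j|` at `O` -/
def LeF {K σ : Type} [Field K] [Fintype σ] {r s : ℕ} (O : ValuationSubring K) (φ : K)
    (a : Fin r → σ → K) (b : Fin s → σ → K) : Prop :=
  O.valuation φ * ∏ i, gv O (a i) ≤ ∏ j, gv O (b j)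

/-- `|φ| ∏ |a i| = ∏ |b j|` at `O` -/
def EqF {K σ : Type} [Field K] [Fintype σ] {r s : ℕ} (O : ValuationSubring K) (φ : K)
    (a : Fin r → σ → K) (b : Fin s → σ → K) : Prop :=
  O.valuation φ * ∏ i, gv O (a i) = ∏ j, gv O (b j)

/-- a place of `K` over `k` with values in `Ω` -/
structure Plc (k K Ω : Type) [Field k] [Field K] [Field Ω] [Algebra k K] [Algebra k Ω] where
  O : ValuationSubring K
  mem : Ov k O
  ψ : O →+* Ω
  alg : ∀ a : k, ψ ⟨algebraMap k K a, mem a⟩ = algebraMap k Ω a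
  ker : ∀ b : O, ψ b = 0 ↔ ¬ IsUnit b

section plc

variable {k K Ω : Type} [Field k] [Field K] [Field Ω] [Algebra k K] [Algebra k Ω]

/-- composite of a place with a valuation ring of the value field -/
def Plc.comp (P : Plc k K Ω) (O' : ValuationSubring Ω) : ValuationSubring K where
  toSubring := (O'.toSubring.comap P.ψ).map P.O.subtype
  mem_or_inv_mem' := fun a => by
    have key : ∀ b : P.O, P.ψ b ∈ O' → (b : K) ∈ (O'.toSubring.comap P.ψ).map P.O.subtype :=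
      fun b hb => ⟨b, hb, rfl⟩
    by_cases ha : a ∈ P.O
    · by_cases h : P.ψ ⟨a, ha⟩ ∈ O'
      · exact Or.inl (key ⟨a, ha⟩ h)
      · have hu : IsUnit (⟨a, ha⟩ : P.O) := by
          by_contra hu
          exact h (by rw [(P.ker _).mpr hu]; exact O'.zero_mem)
        obtain ⟨b, hb⟩ := hu.exists_right_inv
        have h1 : a * b = 1 := congrArg Subtype.val hb
        have h2 : P.ψ ⟨a, ha⟩ * P.ψ b = 1 := by rw [← map_mul, hb, map_one]
        right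
        rw [← eq_inv_of_mul_eq_one_right h1]
        refine key b ?_
        rw [eq_inv_of_mul_eq_one_right h2]
        exact (O'.mem_or_inv_mem _).resolve_left h
    · have hi := (P.O.mem_or_inv_mem a).resolve_left ha
      right
      refine key ⟨a⁻¹, hi⟩ ?_
      rw [(P.ker _).mpr]
      · exact O'.zero_mem
      · intro hu
        obtain ⟨b, hb⟩ := hu.exists_right_inv
        have h1 : a⁻¹ * b = 1 := congrArg Subtype.val hb
        have : a = b := by rw [eq_inv_of_mul_eq_one_right h1, inv_inv]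
        exact ha (this ▸ b.2)

theorem Plc.mem_comp (P : Plc k K Ω) (O' : ValuationSubring Ω) (a : K) :
    a ∈ P.comp O' ↔ ∃ h : a ∈ P.O, P.ψ ⟨a, h⟩ ∈ O' :=
  ⟨fun ⟨b, hb, h⟩ => ⟨h ▸ b.2, by subst h; exact hb⟩, fun ⟨h, hb⟩ => ⟨⟨a, h⟩, hb, rfl⟩⟩

/-- the vector `x` specialises projectively to `y` -/
def Plc.Sp (P : Plc k K Ω) {σ : Type} (x : σ → K) (y : σ → Ω) : Prop :=
  ∃ x' : σ → P.O, (fun i => P.ψ (x' i)) ≠ 0 ∧ Par (fun i => (x' i : K)) x ∧
    Par (fun i => P.ψ (x' i)) y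

end plc

/-- `K` is the compositum of the function field `F / κ` with the constants `Ω₀` -/
structure Cmp (κ F Ω₀ K : Type) [Field κ] [Field F] [Field Ω₀] [Field K] [Algebra κ F]
    [Algebra F K] [Algebra Ω₀ K] : Prop where
  coord : ∃ ξ : F, IsCoord κ ξ
  ld : ∀ (ι : Type) (f : ι → F), LinearIndependent κ f →
    LinearIndependent Ω₀ fun i => algebraMap F K (f i)
  gen : ∀ a : K, ∃ p ∈ Algebra.adjoin Ω₀ (Set.range (algebraMap F K)),
    ∃ q ∈ Algebra.adjoin Ω₀ (Set.range (algebraMap F K)), q ≠ 0 ∧ a = p / q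

/-- `W` is the Gauss extension to `K`, trivial on `F`, of the valuation ring `w` of `Ω₀` -/
structure IsGauss (κ F : Type) {Ω₀ K : Type} [Field κ] [Field F] [Field Ω₀] [Field K] [Algebra κ F]
    [Algebra F K] [Algebra Ω₀ K] (w : ValuationSubring Ω₀) (W : ValuationSubring K) : Prop where
  triv : Ov F W
  ovr : ∀ c : Ω₀, algebraMap Ω₀ K c ∈ W ↔ c ∈ w
  val : ∀ (n : ℕ) (f : Fin n → F) (c : Fin n → Ω₀), LinearIndependent κ f →
    W.valuation (∑ i, algebraMap Ω₀ K (c i) * algebraMap F K (f i)) =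
      gv W fun i => algebraMap Ω₀ K (c i)

/-- `u` is integral at `v` and kills the divisor `D` there -/
def Kill {κ F K : Type} [Field κ] [Field F] [Field K] [Algebra κ F] [Algebra F K]
    (D : Place κ F →₀ ℤ) (v : ValuationSubring K) (u : F) : Prop :=
  algebraMap F K u ∈ v ∧
    ∀ Q : Place κ F, (∀ f : F, algebraMap F K f ∈ v ↔ Q.Ge 0 f) → Q.Ge (D Q) u

/-- `φ` lies in the space `L(ψ + D)` -/
def Good {κ F K σ : Type} (Ω₀ : Type) [Field κ] [Field F] [Field Ω₀] [Field K] [Algebra κ F]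
    [Algebra F K] [Algebra Ω₀ K] [Fintype σ] {r : ℕ} (D : Place κ F →₀ ℤ) (φ : K)
    (a b : Fin r → σ → K) : Prop :=
  ∀ (v : ValuationSubring K) (u : F), Ov Ω₀ v → Kill D v u → LeF v (φ * algebraMap F K u) a b

/-- Riemann-Roch space -/
def LL {k F : Type} [Field k] [Field F] [Algebra k F] (D : Place k F →₀ ℤ) : Submodule k F where
  carrier := {f | ∀ Q : Place k F, Q.Ge (-D Q) f}
  add_mem' := fun h h' Q => (h Q).add (h' Q)
  zero_mem' := fun _ => Place.ge_iff'.mpr (Or.inl rfl)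
  smul_mem' := fun c _ h Q => (h Q).smul c

/-- functions whose poles are at most `n` times the poles of `ξ` -/
def Wn (k : Type) {F : Type} [Field k] [Field F] [Algebra k F] (ξ : F) (n : ℕ) : Submodule k F where
  carrier := {f | ∀ Q : Place k F, Q.Ge (n * min (Q.ord ξ) 0) f}
  add_mem' := fun h h' Q => (h Q).add (h' Q)
  zero_mem' := fun _ => Place.ge_iff'.mpr (Or.inl rfl)
  smul_mem' := fun c _ h Q => (h Q).smul c

namespace Pkg

variable {L σ : Type} [Field L] [Fintype σ] [DecidableEq σ] (B : Pkg L σ)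

/-- chosen coordinates of a point -/
noncomputable def rp {R : Type} [CommRing R] [Algebra L R] (p : B.Pt R) : σ → R :=
  (exists_rep p).choose

theorem rep_rp {R : Type} [CommRing R] [Algebra L R] (p : B.Pt R) : B.Rep p (B.rp p) :=
  (exists_rep p).choose_spec

/-- the two families of points give the same divisor class -/
def Eqv {K : Type} [Field K] [Algebra L K] {r s : ℕ} (p : Fin r → B.Pt K) (q : Fin s → B.Pt K) :
    Prop := ∃ c : K, c ≠ 0 ∧ ∀ O : ValuationSubring K, Ov L O →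
      EqF O c (fun i => B.rp (p i)) fun j => B.rp (q j)

/-- the cube relation -/
def Cube {K : Type} [Field K] [Algebra L K] (x y z : B.Pt K) : Prop :=
  B.Eqv ![x + y + z, x, y, z] ![x + y, x + z, y + z]

/-- the point lies on the subvariety with ideal `q` -/
def On {R : Type} [CommRing R] [Algebra L R] (q : Ideal (MvPolynomial σ L)) (p : B.Pt R) : Prop :=
  Zr q (B.rp p)

/-- `p` specialises to `q` along the place -/
def Red {k K Ω : Type} [Field k] [Field K] [Field Ω] [Algebra k K] [Algebra k Ω] [Algebra L K]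
    [Algebra L Ω] (P : Plc k K Ω) (p : B.Pt K) (q : B.Pt Ω) : Prop := P.Sp (B.rp p) (B.rp q)

/-- `x + c` for `x` over `F` and `c` over `Ω₀` -/
noncomputable def tr {F Ω₀ : Type} (K : Type) [Field F] [Field Ω₀] [Field K] [Algebra L F]
    [Algebra L Ω₀] [Algebra L K] [Algebra F K] [Algebra Ω₀ K] [IsScalarTower L F K]
    [IsScalarTower L Ω₀ K] (x : B.Pt F) (c : B.Pt Ω₀) : B.Pt K :=
  B.map (IsScalarTower.toAlgHom L F K) x + B.map (IsScalarTower.toAlgHom L Ω₀ K) c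

end Pkg

/-- two-sided integrality of doubling -/
structure Dbl {L σ : Type} [Field L] [Fintype σ] [DecidableEq σ] (B : Pkg L σ) where
  N : ℕ
  s : ℕ
  dV : ℕ
  N_pos : 1 ≤ N
  s_pos : 1 ≤ s
  V : MvPolynomial σ L
  U : (σ →₀ ℕ) → MvPolynomial σ L
  a : (σ →₀ ℕ) → ℕ → MvPolynomial σ L
  b : σ → ℕ → MvPolynomial σ L
  V_hom : V.IsHomogeneous dV
  V_not : V ∉ B.I
  U_hom : ∀ γ, (U γ).IsHomogeneous (dV + 4 * N)
  a_hom : ∀ γ j, j < s → (a γ j).IsHomogeneous (4 * N * (s - j))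
  b_hom : ∀ i j, j < s → (b i j).IsHomogeneous (N * (s - j))
  pt : ∀ (Ω : Type) [Field Ω] [Algebra L Ω] [IsAlgClosed Ω] (p : B.Pt Ω) (x y : σ → Ω),
    B.Rep p x → B.Rep (2 • p) y → ∃ t : Ω, t ≠ 0 ∧
      (∀ γ : σ →₀ ℕ, γ.degree = N → aeval x V * (t * ∏ i, y i ^ γ i) = aeval x (U γ) ∧
        (t * ∏ i, y i ^ γ i) ^ s +
          ∑ j ∈ Finset.range s, aeval x (a γ j) * (t * ∏ i, y i ^ γ i) ^ j = 0) ∧
      ∀ i, (x i ^ (4 * N)) ^ s +
        ∑ j ∈ Finset.range s, t ^ (s - j) * aeval y (b i j) * (x i ^ (4 * N)) ^ j = 0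

/-- the field generated by the ratios of the coordinates -/
noncomputable def rat (k : Type) {σ Ω : Type} [Field k] [Field Ω] [Algebra k Ω] (x : σ → Ω) :
    IntermediateField k Ω :=
  IntermediateField.adjoin k (Set.range fun ij : σ × σ => x ij.1 / x ij.2)

/-! ### General tools -/

/-- calculus of `gv` -/
structure St_GV : Prop where
  le_iff : ∀ (K ι ι' : Type) [Field K] [Fintype ι] [Fintype ι'] (O : ValuationSubring K)
    (c : K) (x : ι → K) (y : ι' → K), y ≠ 0 →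
      (O.valuation c * gv O x ≤ gv O y ↔ ∃ j, ∀ i, ∃ r ∈ O, c * x i = r * y j)
  att : ∀ (K ι : Type) [Field K] [Fintype ι] (O : ValuationSubring K) (x : ι → K), x ≠ 0 →
    ∃ i, x i ≠ 0 ∧ gv O x = O.valuation (x i) ∧ ∀ j, x j / x i ∈ O
  smul : ∀ (K ι : Type) [Field K] [Fintype ι] (O : ValuationSubring K) (c : K) (x : ι → K),
    gv O (c • x) = O.valuation c * gv O x
  prod : ∀ (K σ : Type) [Field K] [Fintype σ] (r : ℕ) (O : ValuationSubring K)
    (a : Fin r → σ → K), ∏ i, gv O (a i) = gv O fun j : Fin r → σ => ∏ i, a i (j i)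
  mono : ∀ (K σ : Type) [Field K] [Fintype σ] (r s : ℕ) (O O' : ValuationSubring K) (c : K)
    (a : Fin r → σ → K) (b : Fin s → σ → K), O ≤ O' → (LeF O c a b → LeF O' c a b) ∧
      (EqF O c a b → EqF O' c a b)
  ext : ∀ (K K' σ : Type) [Field K] [Field K'] [Fintype σ] (r s : ℕ) (f : K →+* K')
    (O' : ValuationSubring K') (c : K) (a : Fin r → σ → K) (b : Fin s → σ → K),
      (LeF O' (f c) (fun i l => f (a i l)) (fun j l => f (b j l)) ↔ LeF (O'.comap f) c a b) ∧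
      (EqF O' (f c) (fun i l => f (a i l)) (fun j l => f (b j l)) ↔ EqF (O'.comap f) c a b)
  comp : ∀ (k K Ω σ : Type) [Field k] [Field K] [Field Ω] [Algebra k K] [Algebra k Ω] [Fintype σ]
    (r s : ℕ) (P : Plc k K Ω) (O' : ValuationSubring Ω) (c : P.O) (a : Fin r → σ → P.O)
    (b : Fin s → σ → P.O), (∀ i, (fun l => P.ψ (a i l)) ≠ 0) → (∀ j, (fun l => P.ψ (b j l)) ≠ 0) →
      (LeF (P.comp O') c (fun i l => (a i l : K)) (fun j l => (b j l : K)) ↔
        LeF O' (P.ψ c) (fun i l => P.ψ (a i l)) fun j l => P.ψ (b j l)) ∧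
      (P.ψ c ≠ 0 → (EqF (P.comp O') c (fun i l => (a i l : K)) (fun j l => (b j l : K)) ↔
        EqF O' (P.ψ c) (fun i l => P.ψ (a i l)) fun j l => P.ψ (b j l)))

/-- existence and composition of places -/
structure St_PL2 : Prop where
  min : ∀ (k K : Type) [Field k] [IsAlgClosed k] [Field K] [Algebra k K] (V : ValuationSubring K),
    Ov k V → ∃ P : Plc k K k, P.O ≤ V
  inf : ∀ (k K : Type) [Field k] [IsAlgClosed k] [Field K] [Algebra k K] (g : K),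
    (∀ c : k, g ≠ algebraMap k K c) → ∃ P : Plc k K k, g ∉ P.O
  trans : ∀ (k k' K Ω : Type) [Field k] [Field k'] [Field K] [Field Ω] [Algebra k k'] [Algebra k K]
    [Algebra k' K] [IsScalarTower k k' K] [Algebra k Ω] (P : Plc k' K k') (P' : Plc k k' Ω),
    ∃ Q : Plc k K Ω, Q.O = P.comp P'.O ∧ ∀ (a : Q.O) (h : (a : K) ∈ P.O)
      (h' : P.ψ ⟨a, h⟩ ∈ P'.O), Q.ψ a = P'.ψ ⟨P.ψ ⟨a, h⟩, h'⟩
  up : ∀ (K K' : Type) [Field K] [Field K'] (f : K →+* K') (O : ValuationSubring K),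
    ∃ O' : ValuationSubring K', O'.comap f = O

/-- specialisation of a point to any point of its locus -/
def St_GSP : Prop := ∀ (k K Ω σ : Type) [Field k] [Field K] [Field Ω] [IsAlgClosed Ω] [Algebra k K]
  [Algebra k Ω] [Fintype σ] (x : σ → K) (y : σ → Ω), x ≠ 0 → y ≠ 0 → Zr (loc k x) y →
  ∃ P : Plc k K Ω, P.Sp x y

/-- reduction of points along a place -/
def St_RHO : Prop := ∀ (L σ : Type) [Field L] [Fintype σ] [DecidableEq σ] (B : Pkg L σ)
  (k K Ω : Type) [Field k] [Field K] [Field Ω] [Algebra k K] [Algebra k Ω] [Algebra L k]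
  [Algebra L K] [Algebra L Ω] [IsScalarTower L k K] [IsScalarTower L k Ω] (P : Plc k K Ω),
  ∃ ρ : B.Pt K →+ B.Pt Ω, (∀ p q, B.Red P p q ↔ ρ p = q) ∧
    (∀ p : B.Pt k, ρ (B.map (IsScalarTower.toAlgHom L k K) p) =
      B.map (IsScalarTower.toAlgHom L k Ω) p) ∧
    (∀ (p : B.Pt K) (x : σ → P.O), (B.Rep p fun i => (x i : K)) → (fun i => P.ψ (x i)) ≠ 0 →
      B.Rep (ρ p) fun i => P.ψ (x i)) ∧
    ∀ (q : Ideal (MvPolynomial σ k)) (p : B.Pt K), IsHom q → Zr q (B.rp p) → Zr q (B.rp (ρ p))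

/-- divisor class relations specialise -/
def St_SPEC : Prop := ∀ (L σ : Type) [Field L] [Fintype σ] [DecidableEq σ] (B : Pkg L σ)
  (k K Ω : Type) [Field k] [Field K] [Field Ω] [Algebra k K] [Algebra k Ω] [Algebra L k]
  [Algebra L K] [Algebra L Ω] [IsScalarTower L k K] [IsScalarTower L k Ω] (P : Plc k K Ω)
  (r s : ℕ) (p : Fin r → B.Pt K) (q : Fin s → B.Pt K) (p' : Fin r → B.Pt Ω) (q' : Fin s → B.Pt Ω),
  (∀ i, B.Red P (p i) (p' i)) → (∀ j, B.Red P (q j) (q' j)) → B.Eqv p q → B.Eqv p' q'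

/-- generic points, contraction of extended ideals, isomorphism of function fields -/
structure St_GPT : Prop where
  ctr : ∀ (k k' σ : Type) [Field k] [Field k'] [Algebra k k'] (q : Ideal (MvPolynomial σ k))
    (F : MvPolynomial σ k), MvPolynomial.map (algebraMap k k') F ∈ ext q k' → F ∈ q
  ex : ∀ (k σ : Type) [Field k] [Fintype σ] (q : Ideal (MvPolynomial σ k)), q.IsPrime →
    (∃ i, X i ∉ q) → ∃ (Ω : Type) (_ : Field Ω) (_ : Algebra k Ω) (_ : IsAlgClosed Ω) (x : σ → Ω),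
      x ≠ 0 ∧ ∀ F, aeval x F = 0 ↔ F ∈ q
  eq : ∀ (k σ Ω : Type) [Field k] [Fintype σ] [Field Ω] [Algebra k Ω]
    (q : Ideal (MvPolynomial σ k)) (x : σ → Ω), IsHom q → PGen q x → loc k x = q ∧ Zr q x
  iso : ∀ (k σ Ω Ω' : Type) [Field k] [Fintype σ] [Field Ω] [Algebra k Ω] [Field Ω'] [Algebra k Ω']
    (q : Ideal (MvPolynomial σ k)) (x : σ → Ω) (y : σ → Ω'), PGen q x → PGen q y →
    ∃ e : rat k x ≃ₐ[k] rat k y, ∀ (i j : σ) (h : x i / x j ∈ rat k x),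
      (e ⟨x i / x j, h⟩ : Ω') = y i / y j
  pts : ∀ (κ κ' σ : Type) [Field κ] [Field κ'] [Algebra κ κ'] (T : Set (σ → κ))
    (F : MvPolynomial σ κ') (d : ℕ), F.IsHomogeneous d →
    (∀ x ∈ T, aeval (fun i => algebraMap κ κ' (x i)) F = 0) →
    F ∈ ext (Ideal.span {G : MvPolynomial σ κ | (∃ n, G.IsHomogeneous n) ∧
      ∀ x ∈ T, aeval x G = 0}) κ'

/-- a valuative bound gives a homogeneous integral equation -/
def St_HINT : Prop := ∀ (k K ι : Type) [Field k] [Field K] [Algebra k K] [Fintype ι] (w : ι → K)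
  (u : K) (m : ℕ), (∀ O : ValuationSubring K, Ov k O → O.valuation u ≤ gv O w ^ m) →
  ∃ (s : ℕ) (c : ℕ → MvPolynomial ι k), 1 ≤ s ∧ (∀ j, j < s → (c j).IsHomogeneous (m * (s - j))) ∧
    u ^ s + ∑ j ∈ Finset.range s, aeval w (c j) * u ^ j = 0

/-! ### Curves -/

/-- Riemann's inequality -/
def St_RIE1 : Prop := ∀ (k F : Type) [Field k] [IsAlgClosed k] [Field F] [Algebra k F] (ξ : F),
  IsCoord k ξ → ∀ D : Place k F →₀ ℤ, Module.Finite k (LL D) ∧ ∃ n₀ : ℕ, ∀ n, n₀ ≤ n →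
    Module.Finite k (Wn k ξ n) ∧ D.sum (fun _ a => a) - Module.finrank k (LL D) ≤
      n * Module.finrank (IntermediateField.adjoin k {ξ}) F - Module.finrank k (Wn k ξ n)

/-- a nonspecial effective divisor of degree the genus -/
def St_RIE2 : Prop := ∀ (k F : Type) [Field k] [IsAlgClosed k] [Field F] [Algebra k F] (ξ : F),
  IsCoord k ξ → ∃ D : Place k F →₀ ℤ, (∀ Q, 0 ≤ D Q) ∧
    (∀ f ∈ LL D, ∃ c : k, f = algebraMap k F c) ∧ ∀ n : ℕ,
      (n : ℤ) * Module.finrank (IntermediateField.adjoin k {ξ}) F - Module.finrank k (Wn k ξ n) ≤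
        D.sum (fun _ a => a) - 1

/-- places in a constant field extension -/
def St_CX : Prop := ∀ (κ F Ω₀ K : Type) [Field κ] [IsAlgClosed κ] [Field F] [Field Ω₀]
  [IsAlgClosed Ω₀] [Field K] [Algebra κ F] [Algebra κ Ω₀] [Algebra κ K] [Algebra F K] [Algebra Ω₀ K]
  [IsScalarTower κ F K] [IsScalarTower κ Ω₀ K], Cmp κ F Ω₀ K →
  (∀ ξ : F, IsCoord κ ξ → IsCoord Ω₀ (algebraMap F K ξ) ∧
    Module.finrank (IntermediateField.adjoin Ω₀ {algebraMap F K ξ}) K ≤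
      Module.finrank (IntermediateField.adjoin κ {ξ}) F) ∧
  (∀ Q : Place κ F, ∃! Q' : Place Ω₀ K, ∀ f : F, Q'.ord (algebraMap F K f) = Q.ord f) ∧
  ∀ Q' : Place Ω₀ K, (∃ Q : Place κ F, ∀ f : F, Q'.ord (algebraMap F K f) = Q.ord f) ∨
    ∀ f : F, Q'.ord (algebraMap F K f) = 0

/-- existence of the auxiliary function -/
def St_RRX : Prop := ∀ (κ F Ω₀ K : Type) [Field κ] [IsAlgClosed κ] [Field F] [Field Ω₀]
  [IsAlgClosed Ω₀] [Field K] [Algebra κ F] [Algebra κ Ω₀] [Algebra κ K] [Algebra F K] [Algebra Ω₀ K]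
  [IsScalarTower κ F K] [IsScalarTower κ Ω₀ K], Cmp κ F Ω₀ K →
  ∃ D : Place κ F →₀ ℤ, (∀ Q, 0 ≤ D Q) ∧ (∀ f ∈ LL D, ∃ c : κ, f = algebraMap κ F c) ∧
    ∀ (σ : Type) [Fintype σ] (r : ℕ) (a b : Fin r → σ → K), (∀ i, a i ≠ 0) → (∀ i, b i ≠ 0) →
      ∃ φ : K, φ ≠ 0 ∧ (Good Ω₀ D φ a b ∨ Good Ω₀ D φ b a)

/-- the Gauss extension of a rational place -/
def St_TVR : Prop := ∀ (κ F Ω₀ K : Type) [Field κ] [Field F] [Field Ω₀] [Field K] [Algebra κ F]
  [Algebra κ Ω₀] [Algebra κ K] [Algebra F K] [Algebra Ω₀ K] [IsScalarTower κ F K]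
  [IsScalarTower κ Ω₀ K], Cmp κ F Ω₀ K → ∀ P : Plc κ Ω₀ κ, ∃ Q : Plc F K F,
    IsGauss κ F P.O Q.O ∧
    (∀ (c : P.O) (h : algebraMap Ω₀ K c ∈ Q.O), Q.ψ ⟨_, h⟩ = algebraMap κ F (P.ψ c)) ∧
    ∀ a : K, ∃ c : Ω₀, Q.O.valuation a = Q.O.valuation (algebraMap Ω₀ K c)

/-- transfer of integrality -/
def St_CORE : Prop := ∀ (κ F Ω₀ K : Type) [Field κ] [CharZero κ] [IsAlgClosed κ] [Field F]
  [Field Ω₀] [Field K] [Algebra κ F] [Algebra κ Ω₀] [Algebra κ K] [Algebra F K] [Algebra Ω₀ K]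
  [IsScalarTower κ F K] [IsScalarTower κ Ω₀ K], Cmp κ F Ω₀ K →
  ∀ (w : ValuationSubring Ω₀) (W V : ValuationSubring K), Ov κ w → IsGauss κ F w W →
    (∀ c ∈ w, algebraMap Ω₀ K c ∈ V) → ∀ X : Finset F, (∀ f ∈ X, algebraMap F K f ∈ V) →
    ∀ a : K, a ∈ W →
      (∀ v : ValuationSubring K, Ov Ω₀ v → (∀ f ∈ X, algebraMap F K f ∈ v) → a ∈ v) → a ∈ V

/-- a law that is unimodular at `V` and at the Gauss valuation -/
def St_NRM : Prop := ∀ (κ σ : Type) [Field κ] [Fintype σ] [DecidableEq σ] (B : Pkg κ σ)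
  (F Ω₀ K : Type) [Field F] [Field Ω₀] [Field K] [Algebra κ F] [Algebra κ Ω₀] [Algebra κ K]
  [Algebra F K] [Algebra Ω₀ K] [IsScalarTower κ F K] [IsScalarTower κ Ω₀ K]
  (w : ValuationSubring Ω₀) (W V : ValuationSubring K), Ov κ w → IsGauss κ F w W →
  (∀ c : Ω₀, algebraMap Ω₀ K c ∈ V ↔ c ∈ w) → ∀ (x : B.Pt F) (c : B.Pt Ω₀) (xr : σ → F)
  (cr : σ → Ω₀), B.Rep x xr → B.Rep c cr → (gv V fun i => algebraMap F K (xr i)) = 1 →
  gv w cr = 1 → ∃ (a : Fin B.nl) (i : σ),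
    B.Rep (B.tr K x c)
      (ev2 (B.A a) (fun l => algebraMap F K (xr l)) fun l => algebraMap Ω₀ K (cr l)) ∧
    V.valuation (ev2 (B.A a) (fun l => algebraMap F K (xr l))
      (fun l => algebraMap Ω₀ K (cr l)) i) = 1 ∧
    W.valuation (ev2 (B.A a) (fun l => algebraMap F K (xr l))
      (fun l => algebraMap Ω₀ K (cr l)) i) = 1

/-- one-sided seesaw -/
def St_SS1 : Prop := ∀ (κ σ : Type) [Field κ] [CharZero κ] [IsAlgClosed κ] [Fintype σ]
  [DecidableEq σ] (B : Pkg κ σ) (F Ω₀ K : Type) [Field F] [Field Ω₀] [Field K] [Algebra κ F]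
  [Algebra κ Ω₀] [Algebra κ K] [Algebra F K] [Algebra Ω₀ K] [IsScalarTower κ F K]
  [IsScalarTower κ Ω₀ K], Cmp κ F Ω₀ K →
  ∀ (w : ValuationSubring Ω₀) (W V : ValuationSubring K), Ov κ w → IsGauss κ F w W →
  (∀ c : Ω₀, algebraMap Ω₀ K c ∈ V ↔ c ∈ w) → ∀ X : Finset F, (∀ f ∈ X, algebraMap F K f ∈ V) →
  ∀ (r s : ℕ) (x : B.Pt F) (c : Fin r → B.Pt Ω₀) (d : Fin s → B.Pt Ω₀) (a : Fin r → σ → K)
    (b : Fin s → σ → K) (φ : K), (∀ i, B.Rep (B.tr K x (c i)) (a i)) →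
    (∀ j, B.Rep (B.tr K x (d j)) (b j)) →
    (∀ v : ValuationSubring K, Ov Ω₀ v → (∀ f ∈ X, algebraMap F K f ∈ v) → LeF v φ a b) →
    LeF W φ a b → LeF V φ a b

/-- degeneration of the auxiliary function along a place where both families agree -/
def St_CBW : Prop := ∀ (κ σ : Type) [Field κ] [CharZero κ] [IsAlgClosed κ] [Fintype σ]
  [DecidableEq σ] (B : Pkg κ σ) (F Ω₀ K : Type) [Field F] [Field Ω₀] [Field K] [Algebra κ F]
  [Algebra κ Ω₀] [Algebra κ K] [Algebra F K] [Algebra Ω₀ K] [IsScalarTower κ F K]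
  [IsScalarTower κ Ω₀ K], Cmp κ F Ω₀ K →
  ∀ D : Place κ F →₀ ℤ, (∀ Q, 0 ≤ D Q) → (∀ f ∈ LL D, ∃ c : κ, f = algebraMap κ F c) →
  ∀ (r : ℕ) (x : B.Pt F) (c d : Fin r → B.Pt Ω₀) (a b : Fin r → σ → K) (φ : K), φ ≠ 0 →
    (∀ i, B.Rep (B.tr K x (c i)) (a i)) → (∀ i, B.Rep (B.tr K x (d i)) (b i)) →
    Good Ω₀ D φ a b → ∀ P : Plc κ Ω₀ κ, (∀ i, ∃ e : B.Pt κ, B.Red P (c i) e ∧ B.Red P (d i) e) →
    ∃ (Q : Plc F K F) (c₀ : Ω₀), IsGauss κ F P.O Q.O ∧ c₀ ≠ 0 ∧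
      EqF Q.O (φ * algebraMap Ω₀ K c₀) a b ∧
      (∀ Q₀ : Place κ F, EqF (Q.comp Q₀.O) (φ * algebraMap Ω₀ K c₀) a b ∧
        (∀ c' : Ω₀, algebraMap Ω₀ K c' ∈ Q.comp Q₀.O ↔ c' ∈ P.O) ∧
        ∀ f : F, algebraMap F K f ∈ Q.comp Q₀.O ↔ Q₀.Ge 0 f) ∧
      ∀ V : ValuationSubring K, (∀ c' : Ω₀, algebraMap Ω₀ K c' ∈ V ↔ c' ∈ P.O) →
        (∀ Q₀ : Place κ F, (∀ f : F, algebraMap F K f ∈ V ↔ Q₀.Ge 0 f) → D Q₀ = 0) →
        EqF V (φ * algebraMap Ω₀ K c₀) a b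

/-- choice of the degeneration -/
def St_CBT : Prop := ∀ (κ σ : Type) [Field κ] [IsAlgClosed κ] [Fintype σ] [DecidableEq σ]
  (B : Pkg κ σ) (k₁ Ω₀ : Type) [Field k₁] [IsAlgClosed k₁] [Field Ω₀] [Algebra κ k₁] [Algebra κ Ω₀]
  [Algebra k₁ Ω₀] [IsScalarTower κ k₁ Ω₀] (y : B.Pt k₁) (z : B.Pt Ω₀),
  Zr (loc κ (B.rp y)) B.o → (Zr (loc k₁ (B.rp z)) fun i => algebraMap κ k₁ (B.o i)) →
  (∃ P : Plc κ Ω₀ κ, B.Red P z 0) ∧ ∀ g : Ω₀, (∀ c : κ, g ≠ algebraMap κ Ω₀ c) →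
    ∃ P : Plc κ Ω₀ κ, g ∉ P.O ∧
      (B.Red P z 0 ∨ B.Red P (B.map (IsScalarTower.toAlgHom κ k₁ Ω₀) y) 0)

/-- the cube class is trivial on the curve over the big constant field -/
def St_CB3 : Prop := ∀ (κ σ : Type) [Field κ] [CharZero κ] [IsAlgClosed κ] [Fintype σ]
  [DecidableEq σ] (B : Pkg κ σ) (F Ω₀ K : Type) [Field F] [Field Ω₀] [IsAlgClosed Ω₀] [Field K]
  [Algebra κ F] [Algebra κ Ω₀] [Algebra κ K] [Algebra F K] [Algebra Ω₀ K] [IsScalarTower κ F K]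
  [IsScalarTower κ Ω₀ K], Cmp κ F Ω₀ K → ∀ (x : B.Pt F) (y z : B.Pt Ω₀),
  (∃ P : Plc κ Ω₀ κ, B.Red P z 0) → (∀ g : Ω₀, (∀ c : κ, g ≠ algebraMap κ Ω₀ c) →
    ∃ P : Plc κ Ω₀ κ, g ∉ P.O ∧ (B.Red P z 0 ∨ B.Red P y 0)) →
  ∃ φ : K, φ ≠ 0 ∧ ∀ v : ValuationSubring K, Ov Ω₀ v →
    EqF v φ (fun i => B.rp (B.tr K x (![y + z, 0] i))) fun i => B.rp (B.tr K x (![y, z] i))

/-- seesaw: from valuations trivial on the big constant field to all valuations -/
def St_CA : Prop := ∀ (κ σ : Type) [Field κ] [CharZero κ] [IsAlgClosed κ] [Fintype σ]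
  [DecidableEq σ] (B : Pkg κ σ) (F Ω₀ K : Type) [Field F] [Field Ω₀] [IsAlgClosed Ω₀] [Field K]
  [Algebra κ F] [Algebra κ Ω₀] [Algebra κ K] [Algebra F K] [Algebra Ω₀ K] [IsScalarTower κ F K]
  [IsScalarTower κ Ω₀ K], Cmp κ F Ω₀ K → ∀ (x : B.Pt F) (y z : B.Pt Ω₀) (φ : K), φ ≠ 0 →
  (Zr (loc Ω₀ fun i => algebraMap F K (B.rp x i)) fun i => algebraMap κ Ω₀ (B.o i)) →
  (∀ v : ValuationSubring K, Ov Ω₀ v →
    EqF v φ (fun i => B.rp (B.tr K x (![y + z, 0] i))) fun i => B.rp (B.tr K x (![y, z] i))) →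
  B.Cube (B.map (IsScalarTower.toAlgHom κ F K) x) (B.map (IsScalarTower.toAlgHom κ Ω₀ K) y)
    (B.map (IsScalarTower.toAlgHom κ Ω₀ K) z)

/-- function field of a curve and its constant extension -/
def St_CMP : Prop := ∀ (κ σ Ω₀ : Type) [Field κ] [IsAlgClosed κ] [Fintype σ] [Field Ω₀]
  [Algebra κ Ω₀] (q : Ideal (MvPolynomial σ κ)), q.IsPrime → IsHom q → cd q = 2 →
  ∃ (F K : Type) (_ : Field F) (_ : Field K) (_ : Algebra κ F) (_ : Algebra κ K) (_ : Algebra F K)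
    (_ : Algebra Ω₀ K) (_ : IsScalarTower κ F K) (_ : IsScalarTower κ Ω₀ K) (x : σ → F),
    Cmp κ F Ω₀ K ∧ PGen q x ∧ PGen (ext q Ω₀) fun i => algebraMap F K (x i)

/-- the cube relation when the first point lies on a curve through the origin -/
def St_CURVE : Prop := ∀ (κ σ : Type) [Field κ] [CharZero κ] [IsAlgClosed κ] [Fintype σ]
  [DecidableEq σ] (B : Pkg κ σ) (q : Ideal (MvPolynomial σ κ)), q.IsPrime → IsHom q → cd q = 2 →
  B.I ≤ q → Zr q B.o → ∀ (Ω : Type) [Field Ω] [IsAlgClosed Ω] [Algebra κ Ω] (x y z : B.Pt Ω),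
    B.On q x → B.Cube x y z

/-- a curve through a point that is not contained in a given hypersurface -/
def St_CEX : Prop := ∀ (κ σ : Type) [Field κ] [IsAlgClosed κ] [Fintype σ]
  (I : Ideal (MvPolynomial σ κ)) (o : σ → κ) (G : MvPolynomial σ κ) (d : ℕ), I.IsPrime → IsHom I →
  o ≠ 0 → Zr I o → G.IsHomogeneous d → G ∉ I → aeval o G = 0 →
  ∃ q : Ideal (MvPolynomial σ κ), q.IsPrime ∧ IsHom q ∧ cd q = 2 ∧ I ≤ q ∧ Zr q o ∧ G ∉ q

/-- every point is a sum of points on curves through the origin -/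
def St_CSUM : Prop := ∀ (κ σ : Type) [Field κ] [IsAlgClosed κ] [Fintype σ] [DecidableEq σ]
  (B : Pkg κ σ), ∃ (j : ℕ) (q : Fin j → Ideal (MvPolynomial σ κ)),
    (∀ i, (q i).IsPrime ∧ IsHom (q i) ∧ cd (q i) = 2 ∧ B.I ≤ q i ∧ Zr (q i) B.o) ∧
    ∀ (Ω : Type) [Field Ω] [IsAlgClosed Ω] [Algebra κ Ω] (p : B.Pt Ω),
      ∃ x : Fin j → B.Pt Ω, (∀ i, B.On (q i) (x i)) ∧ p = ∑ i, x i

/-- the points with trivial cube class are closed under sums -/
def St_SUBG : Prop := ∀ (L σ : Type) [Field L] [Fintype σ] [DecidableEq σ] (B : Pkg L σ)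
  (K : Type) [Field K] [Algebra L K], (∀ y z : B.Pt K, B.Cube 0 y z) ∧ ∀ x x' : B.Pt K,
    (∀ y z, B.Cube x y z) → (∀ y z, B.Cube x' y z) → ∀ y z, B.Cube (x + x') y z

/-- theorem of the cube, applied to doubling -/
def St_DBL : Prop := ∀ (L σ : Type) [Field L] [CharZero L] [Fintype σ] [DecidableEq σ]
  (B : Pkg L σ) (Ω : Type) [Field Ω] [IsAlgClosed Ω] [Algebra L Ω] (p : B.Pt Ω),
  B.Eqv ![2 • p] ![p, p, p, p]

/-! ### Doubling -/

/-- the doubling relation over the function field -/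
def St_INT1 : Prop := ∀ (L σ : Type) [Field L] [CharZero L] [Fintype σ] [DecidableEq σ]
  (B : Pkg L σ), ∃ (N dU dV : ℕ) (a : Fin B.nl) (U V : MvPolynomial σ L), 1 ≤ N ∧
    U.IsHomogeneous dU ∧ V.IsHomogeneous dV ∧ dU + 2 * B.β * N = dV + 4 * N ∧ U ∉ B.I ∧ V ∉ B.I ∧
    ∀ (K : Type) [Field K] [Algebra L K] (x : σ → K), PGen B.I x → ev2 (B.A a) x x ≠ 0 ∧
      ∀ O : ValuationSubring K, Ov L O → O.valuation (aeval x U) * gv O (ev2 (B.A a) x x) ^ N =
        O.valuation (aeval x V) * gv O x ^ (4 * N)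

/-- integrality data exist -/
def St_INT2 : Prop := ∀ (L σ : Type) [Field L] [CharZero L] [Fintype σ] [DecidableEq σ]
  (B : Pkg L σ), Nonempty (Dbl B)

/-- fibres of doubling -/
def St_FIB : Prop := ∀ (L σ : Type) [Field L] [CharZero L] [Fintype σ] [DecidableEq σ]
  (B : Pkg L σ) (Ω : Type) [Field Ω] [Algebra L Ω],
  (∀ (p : B.Pt Ω) (x y : σ → Ω), B.Rep p x → B.Rep (2 • p) y →
    (∀ i j, IsAlgebraic (rat L y) (x i / x j)) ∧ (PGen B.I x → PGen B.I y)) ∧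
  (∀ j : ℕ, {p : B.Pt Ω | 2 ^ j • p = 0}.Finite) ∧
  ∀ (κ : Type) [Field κ] [IsAlgClosed κ] [Algebra L κ] (f : κ →ₐ[L] Ω) (j : ℕ) (p : B.Pt Ω),
    2 ^ j • p = 0 → ∃ t : B.Pt κ, B.map f t = p

/-- one doubling step on forms of degree `N n` -/
def St_MUL1 : Prop := ∀ (L σ : Type) [Field L] [CharZero L] [Fintype σ] [DecidableEq σ]
  (B : Pkg L σ), ∃ (N r c : ℕ) (A : Finset L), 1 ≤ N ∧ 1 ≤ r ∧ 1 ≤ c ∧ ∀ n : ℕ,
    ∃ Dm : (σ →₀ ℕ) → MvPolynomial σ L,
      (∀ γ, (Dm γ).IsHomogeneous (N * (4 * n + r)) ∧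
        ∀ v : AbsoluteValue L ℝ, l1 v (Dm γ) ≤ (c * hv v A) ^ (n + r)) ∧
      ∀ (Ω : Type) [Field Ω] [Algebra L Ω] (p : B.Pt Ω) (x y : σ → Ω), B.Rep p x →
        B.Rep (2 • p) y → ∃ E : Ω, (PGen B.I x → E ≠ 0) ∧ ∀ γ, γ.degree = N * n →
          aeval x (Dm γ) = E * ∏ i, y i ^ γ i

/-- the degree over a system of parameters depends only on its valuations -/
def St_HFA : Prop := ∀ (k F : Type) [Field k] [CharZero k] [Field F] [Algebra k F] (m : ℕ)
  (z z' : Fin m → F) (t : F), AlgebraicIndependent k z → AlgebraicIndependent k z' →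
  FiniteDimensional (IntermediateField.adjoin k (Set.range z)) F →
  FiniteDimensional (IntermediateField.adjoin k (Set.range z')) F →
  (∀ O : ValuationSubring F, Ov k O → max 1 (gv O z) = O.valuation t * max 1 (gv O z')) →
  Module.finrank (IntermediateField.adjoin k (Set.range z)) F ≤
    Module.finrank (IntermediateField.adjoin k (Set.range z')) F

/-- degree over the powers of a transcendence basis -/
def St_POW : Prop := ∀ (k F : Type) [Field k] [Field F] [Algebra k F] (m n : ℕ) (z : Fin m → F),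
  1 ≤ n → AlgebraicIndependent k z →
  FiniteDimensional (IntermediateField.adjoin k (Set.range z)) F →
  AlgebraicIndependent k (fun j => z j ^ n) ∧
  FiniteDimensional (IntermediateField.adjoin k (Set.range fun j => z j ^ n)) F ∧
  Module.finrank (IntermediateField.adjoin k (Set.range fun j => z j ^ n)) F =
    n ^ m * Module.finrank (IntermediateField.adjoin k (Set.range z)) F

/-- the degree of doubling is the number of points of order two -/
def St_GAL : Prop := ∀ (κ σ : Type) [Field κ] [CharZero κ] [IsAlgClosed κ] [Fintype σ]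
  [DecidableEq σ] (B : Pkg κ σ) (F : Type) [Field F] [Algebra κ F] (p : B.Pt F) (x y : σ → F),
  B.Rep p x → B.Rep (2 • p) y → PGen B.I x → rat κ x = ⊤ →
  FiniteDimensional (rat κ y) F ∧ Module.finrank (rat κ y) F = {t : B.Pt κ | 2 • t = 0}.ncard

/-- the number of points of order two -/
def St_T2 : Prop := ∀ (κ σ : Type) [Field κ] [CharZero κ] [IsAlgClosed κ] [Fintype σ]
  [DecidableEq σ] (B : Pkg κ σ) (g : ℕ), B.IsDim g → {t : B.Pt κ | 2 • t = 0}.ncard = 4 ^ g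

/-- doubling is onto -/
def St_ONTO : Prop := ∀ (L σ : Type) [Field L] [CharZero L] [Fintype σ] [DecidableEq σ]
  (B : Pkg L σ) (Ω : Type) [Field Ω] [Algebra L Ω] [IsAlgClosed Ω] (p : B.Pt Ω),
  ∃ q : B.Pt Ω, 2 • q = p

/-! ### Mordell-Weil -/

/-- Nullstellensatz identity for the laws -/
def St_NS2 : Prop := ∀ (L σ : Type) [Field L] [Fintype σ] [DecidableEq σ] (B : Pkg L σ),
  ∃ (M : ℕ) (H : σ → σ → Fin B.nl → σ → MvPolynomial (σ ⊕ σ) L),
    (∀ i j a l, (H i j a l).IsWeightedHomogeneous (bw σ) (M, M)) ∧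
    ∀ (R : Type) [CommRing R] [Algebra L R] (x y : σ → R), Zr B.I x → Zr B.I y → ∀ i j,
      x i ^ (M + B.β) * y j ^ (M + B.β) =
        ∑ a, ∑ l, aeval (Sum.elim x y) (H i j a l) * ev2 (B.A a) x y l

/-- Northcott -/
def St_NORTH : Prop := ∀ (L σ : Type) [Field L] [NumberField L] [Fintype σ] [DecidableEq σ]
  (B : Pkg L σ) (C : ℝ), {p : B.Pt L | B.ht p ≤ C}.Finite

open NumberField IsDedekindDomain in
/-- inertia does not move a point by one of finitely many given points -/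
def St_INR : Prop := ∀ (L σ : Type) [Field L] [NumberField L] [Fintype σ] [DecidableEq σ]
  (B : Pkg L σ) (T : Set (B.Pt L)), T.Finite → ∃ S : Set (HeightOneSpectrum (𝓞 L)), S.Finite ∧
    ∀ (M : Type) [Field M] [NumberField M] [Algebra L M] (P : HeightOneSpectrum (𝓞 M)),
      (∀ v ∈ S, P.asIdeal.comap (algebraMap (𝓞 L) (𝓞 M)) ≠ v.asIdeal) → ∀ s : M ≃ₐ[L] M,
      (∀ a b : 𝓞 M, (b : M) = s a → b - a ∈ P.asIdeal) → ∀ (q : B.Pt M), ∀ t ∈ T,
        B.map (s : M →ₐ[L] M) q - q = B.map (Algebra.ofId L M) t → t = 0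

open NumberField IsDedekindDomain in
/-- a square root fixed by inertia has even valuation -/
def St_UNR : Prop := ∀ (L M : Type) [Field L] [NumberField L] [Field M] [NumberField M]
  [Algebra L M] [IsGalois L M] (a : L) (α : M), a ≠ 0 → α ^ 2 = algebraMap L M a →
  ∀ v : HeightOneSpectrum (𝓞 L), (∀ P : HeightOneSpectrum (𝓞 M),
    P.asIdeal.comap (algebraMap (𝓞 L) (𝓞 M)) = v.asIdeal → ∀ s : M ≃ₐ[L] M,
      (∀ a b : 𝓞 M, (b : M) = s a → b - a ∈ P.asIdeal) → s α = α) →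
  (2 : ℤ) ∣ WithZero.log (v.valuation L a)

/-- weak Mordell-Weil -/
def St_WMW : Prop := ∀ (L σ : Type) [Field L] [NumberField L] [Fintype σ] [DecidableEq σ]
  (B : Pkg L σ), (∀ t : B.Pt (AlgebraicClosure L), 2 • t = 0 →
    ∃ t' : B.Pt L, B.map (Algebra.ofId L _) t' = t) →
  (nsmulAddMonoidHom (α := B.Pt L) 2).range.FiniteIndex

/-! ### From projective abelian varieties to packages -/

/-- a map that is given by forms near each point -/
def LocPoly {κ σ τ : Type} [Field κ] (X : Set (Projectivization κ (σ → κ)))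
    (φ : X → Projectivization κ (τ → κ)) : Prop :=
  ∀ p : X, ∃ (m : ℕ) (N : τ → MvPolynomial σ κ), (∀ i, (N i).IsHomogeneous m) ∧
    (fun i => eval p.1.rep (N i)) ≠ 0 ∧
    ∀ (p' : X) (h : (fun i => eval p'.1.rep (N i)) ≠ 0), φ p' = Projectivization.mk κ _ h

/-- such maps are continuous -/
def St_LP : Prop := ∀ (κ σ τ : Type) [Field κ] (X : Set (Projectivization κ (σ → κ)))
  (φ : X → Projectivization κ (τ → κ)), LocPoly X φ →
  (ZClosed X → ∀ S, ZClosed S → ZClosed (Subtype.val '' (φ ⁻¹' S))) ∧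
  ∀ S : Set X, ZIrred (Subtype.val '' S) → ZIrred (φ '' S)

/-- symmetrisation -/
def St_SYM : Prop := ∀ (κ σ : Type) [Field κ] (A : AbVar κ σ),
  ∃ (A' : AbVar κ (σ × σ)) (e : A.carrier ≃+ A'.carrier),
    (∀ p, Par (e p).1.rep fun ij => p.1.rep ij.1 * (-p).1.rep ij.2) ∧
    ∀ z : A'.carrier, Par (-z).1.rep (z.1.rep ∘ Equiv.prodComm σ σ)

/-- a finite complete system of laws of one bidegree -/
def St_PK0 : Prop := ∀ (κ σ : Type) [Field κ] [Fintype σ] (A : AbVar κ σ),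
  ∃ (nl β : ℕ) (S : Fin nl → σ → MvPolynomial (σ ⊕ σ) κ), 1 ≤ β ∧
    (∀ a i, (S a i).IsWeightedHomogeneous (bw σ) (β, β)) ∧ ∀ p q : A.carrier,
      (∃ a, ev2 (S a) p.1.rep q.1.rep ≠ 0) ∧ ∀ a, Par (ev2 (S a) p.1.rep q.1.rep) (p + q).1.rep

/-- a finite complete system of formulas for the negation -/
def St_NEG0 : Prop := ∀ (κ σ : Type) [Field κ] [Fintype σ] (A : AbVar κ σ),
  ∃ (nl m : ℕ) (N : Fin nl → σ → MvPolynomial σ κ), (∀ a i, (N a i).IsHomogeneous m) ∧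
    ∀ p : A.carrier, (∃ a, (fun i => eval p.1.rep (N a i)) ≠ 0) ∧
      ∀ a, Par (fun i => eval p.1.rep (N a i)) (-p).1.rep

/-- the package of a symmetric abelian variety -/
def St_PK1 : Prop := ∀ (κ σ : Type) [Field κ] [IsAlgClosed κ] [Fintype σ] [DecidableEq σ]
  (A : AbVar κ σ) (π : Equiv.Perm σ), (∀ z : A.carrier, Par (-z).1.rep (z.1.rep ∘ π)) →
  ∃ (B : Pkg κ σ) (e : A.carrier ≃+ B.Pt κ), ∀ p, B.Rep (e p) p.1.rep

/-- descent of a package to a finite extension -/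
def St_PK2 : Prop := ∀ (K κ σ : Type) [Field K] [Field κ] [Algebra K κ] [Algebra.IsAlgebraic K κ]
  [Fintype σ] [DecidableEq σ] (B : Pkg κ σ) (T : Finset κ), ∃ (L : IntermediateField K κ),
    FiniteDimensional K L ∧ (∀ a ∈ T, a ∈ L) ∧ ∃ (B' : Pkg L σ) (e : B.Pt κ ≃+ B'.Pt κ),
      ∀ p x, B.Rep p x ↔ B'.Rep (e p) x

end D4C
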