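import Pool.Agent.Lib.D4C.BlueA

/-! d4c56 blueprint, ultrapower part and final theorem for packages (writer 78). -/

set_option linter.unusedVariables false

namespace D4C

open MvPolynomial Filter

/-- ultrapower -/
abbrev Ul (U : Ultrafilter ℕ) (L : Type) : Type := Filter.Germ (U : Filter ℕ) L

noncomputable instance algUl (U : Ultrafilter ℕ) (L : Type) [Field L] : Algebra L (Ul U L) :=
  ((Filter.Germ.coeRingHom (U : Filter ℕ)).comp (Pi.constRingHom ℕ L)).toAlgebra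

/-- the class of a sequence -/
noncomputable def toU (U : Ultrafilter ℕ) {L : Type} [Field L] : (ℕ → L) →ₐ[L] Ul U L :=
  { Filter.Germ.coeRingHom (U : Filter ℕ) with commutes' := fun _ => rfl }

/-- the `n`-th term of a sequence -/
def lv (L : Type) [Field L] (n : ℕ) : (ℕ → L) →+* L := Pi.evalRingHom (fun _ => L) n

/-- `α ≤ o (H)` along `U` -/
def Lo (U : Ultrafilter ℕ) (H α : ℕ → ℝ) : Prop := ∀ ε : ℝ, 0 < ε → ∀ᶠ n in U, α n ≤ ε * H n

/-- the field of elements of height `o (H)` -/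
noncomputable def sm (U : Ultrafilter ℕ) (L : Type) [Field L] [NumberField L] (H : ℕ → ℝ) :
    IntermediateField L (Ul U L) :=
  IntermediateField.adjoin L
    {a | ∃ f : ℕ → L, a = toU U f ∧ Lo U H fun n => Height.logHeight₁ (f n)}

/-- change of coefficients in `R[z][T]` -/
noncomputable def mapZT {R R' : Type} [CommRing R] [CommRing R'] (f : R →+* R') (m : ℕ) :
    ZT R m →+* ZT R' m := Polynomial.mapRingHom (MvPolynomial.map f)

/-- change of coefficients in a presentation -/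
noncomputable def Raw.map {R R' σ : Type} [CommRing R] [CommRing R'] {m : ℕ} (W : Raw R σ m)
    (f : R →+* R') : Raw R' σ m where
  ξ := fun j => MvPolynomial.map f (W.ξ j)
  η := MvPolynomial.map f W.η
  P := mapZT f m W.P
  φ := fun i => mapZT f m (W.φ i)
  θ := mapZT f m W.θ
  θ' := mapZT f m W.θ'
  π' := mapZT f m W.π'
  Δ := MvPolynomial.map f W.Δ
  H := fun ν j => MvPolynomial.map f (W.H ν j)
  ψ := fun ν => mapZT f m (W.ψ ν)

/-- everything `St_DATA` gives -/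
structure Pres {k σ : Type} [Field k] {m : ℕ} (q : Ideal (MvPolynomial σ k)) (W : Raw k σ m)
    (e D : ℕ) : Prop where
  hsop : Hsop q m e D W.ξ
  ok : W.Ok q e D
  Δ_ne : W.Δ ≠ 0
  irr : Irreducible W.P
  univ : ∀ (R : Type) [CommRing R] [Algebra k R] (x : σ → R) (z : Fin m → R) (t : R), Zr q x →
    IsUnit (aeval x (W.ξ (Fin.last m))) →
    (∀ j, aeval x (W.ξ j.castSucc) = z j * aeval x (W.ξ (Fin.last m))) →
    aeval x W.η = t * aeval x (W.ξ (Fin.last m)) →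
    evZT z t W.P = 0 ∧ Par (fun i => evZT z t (W.φ i)) x

section pts
variable {L σ : Type} [Field L] [Fintype σ] [DecidableEq σ]

/-- `xs` is the class of a sequence of coordinate vectors of the points `p n` -/
def UlRep (B : Pkg L σ) (U : Ultrafilter ℕ) {M : Type} [Field M] [Algebra L M] (p : ℕ → B.Pt M)
    (xs : σ → Ul U M) : Prop :=
  ∃ x : ℕ → σ → M, (∀ᶠ n in U, B.Rep (p n) (x n)) ∧ xs = fun i => toU U fun n => x n i

/-- height of a point over a finite extension, relative to that extension -/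
noncomputable def htM (B : Pkg L σ) {M : Type} [Field M] [Algebra L M]
    [Height.AdmissibleAbsValues M] (p : B.Pt M) : ℝ :=
  Height.logHeight (Pkg.exists_rep p).choose

theorem htM_rep {B : Pkg L σ} {M : Type} [Field M] [Algebra L M] [Height.AdmissibleAbsValues M]
    {p : B.Pt M} {x : σ → M} (h : B.Rep p x) : htM B p = Height.logHeight x := by
  have h0 := (Pkg.exists_rep p).choose_spec
  obtain ⟨c, hc⟩ := (h0.par h).exists_smul h0.uni
  have hu := h.uni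
  rw [hc] at hu
  unfold htM
  conv_rhs => rw [hc]
  rw [Height.logHeight_smul_eq_logHeight _ hu.isUnit_of_smul.ne_zero]

/-- `B'` is an abelian subvariety of `B` defined over the extension `L'` -/
structure Sub2 (B : Pkg L σ) {L' : Type} [Field L'] [Algebra L L'] (B' : Pkg L' σ) : Prop where
  le : ext B.I L' ≤ B'.I
  o_eq : B'.o = fun i => algebraMap L L' (B.o i)
  π_eq : B'.π = B.π
  law : ∀ a', ∃ a, B'.A a' = fun i => MvPolynomial.map (algebraMap L L') (B.A a i)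
  law' : ∀ a, ∃ a', B'.A a' = fun i => MvPolynomial.map (algebraMap L L') (B.A a i)

/-- points of the subvariety as points of the ambient variety -/
noncomputable def Sub2.hom {B : Pkg L σ} {L' : Type} [Field L'] [Algebra L L'] {B' : Pkg L' σ}
    (h : Sub2 B B') (R : Type) [CommRing R] [IsLocalRing R] [Algebra L R] [Algebra L' R]
    [IsScalarTower L L' R] : B'.Pt R →+ B.Pt R :=
  B'.transfer B (fun _ hx => zr_ext.mp fun F hF => hx F (h.le hF)) fun a' x y => by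
    obtain ⟨a, ha⟩ := h.law a'
    exact ⟨a, by rw [ha]; exact ev2_ext _ x y⟩

theorem Sub2.rep {B : Pkg L σ} {L' : Type} [Field L'] [Algebra L L'] {B' : Pkg L' σ}
    (h : Sub2 B B') {R : Type} [CommRing R] [IsLocalRing R] [Algebra L R] [Algebra L' R]
    [IsScalarTower L L' R] {p : B'.Pt R} {x : σ → R} (hp : B'.Rep p x) :
    B.Rep (h.hom R p) x := hp.transfer

/-- the common zeros of `f` on the translate of the subvariety `J` by `p` have codimension at
least two -/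
def Cod2 (B : Pkg L σ) {r : ℕ} (f : Fin r → MvPolynomial σ L) {F : Type} [Field F] [Algebra L F]
    (J : Ideal (MvPolynomial σ F)) (p : B.Pt L) : Prop :=
  ∀ (Ω : Type) [Field Ω] [Algebra L Ω] [Algebra F Ω] [IsScalarTower L F Ω] (b : B.Pt Ω)
    (y w : σ → Ω), B.Rep b y → Zr J y → B.Rep (B.map (Algebra.ofId L Ω) p + b) w →
    (∀ i, aeval w (f i) = 0) → cd (loc F y) + 2 ≤ cd J

/-- the form `A a s (X, - X)` -/
noncomputable def diagLaw (B : Pkg L σ) (a : Fin B.nl) (s : σ) : MvPolynomial σ L :=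
  ev2 (B.A a) X (fun i => X (B.π i)) s

/-- `l` kills the tangent space at the generic point of the presented variety -/
def Kills {B : Pkg L σ} {g : ℕ} (C : Chart B g) (a : Fin B.nl) {κ : Type} [Field κ] [Algebra L κ]
    {m : ℕ} (W : Raw κ σ m) (l : Fin g → κ) : Prop :=
  ∀ j, W.P ∣ ∑ b, l b • tm C a W.P W.φ (fun i => (Polynomial.C (X i) : ZT κ m)) Polynomial.X b j

end pts

/-! ### ultrapower kit -/

/-- membership in the small field -/
def St_SM : Prop := ∀ (U : Ultrafilter ℕ) (L : Type) [Field L] [NumberField L] (H : ℕ → ℝ),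
  Tendsto H U atTop → ∀ f : ℕ → L,
    toU U f ∈ sm U L H ↔ Lo U H fun n => Height.logHeight₁ (f n)

/-- the small field is relatively algebraically closed -/
def St_RAC : Prop := ∀ (U : Ultrafilter ℕ) (L : Type) [Field L] [NumberField L] (H : ℕ → ℝ),
  Tendsto H U atTop → ∀ a : Ul U L, IsAlgebraic (sm U L H) a → a ∈ sm U L H

/-- diagonal choice -/
def St_DIAG : Prop := ∀ (U : Ultrafilter ℕ) (L : Type) [Field L] [NumberField L] (H : ℕ → ℝ),
  Tendsto H U atTop → ∀ (ι : Type) [Fintype ι] (Φ : ℕ → (ι → L) → Prop),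
  (∀ n l (c : L), c ≠ 0 → Φ n l → Φ n (c • l)) →
  (∀ ε : ℝ, 0 < ε → ∀ᶠ n in U, ∃ l, l ≠ 0 ∧ Height.logHeight l ≤ ε * H n ∧ Φ n l) →
  ∃ l : ℕ → ι → L, (∀ᶠ n in U, Φ n (l n)) ∧ (∀ i, (toU U fun n => l n i) ∈ sm U L H) ∧
    ∃ i, (toU U fun n => l n i) = 1

/-- independence over the small field at finite level -/
def St_GENU : Prop := ∀ (U : Ultrafilter ℕ) (L : Type) [Field L] [NumberField L] (H : ℕ → ℝ),
  Tendsto H U atTop → ∀ (m : ℕ) (z : ℕ → Fin m → L),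
  AlgebraicIndependent (sm U L H) (fun j => toU U fun n => z n j) → ∀ D0 : ℕ, ∃ c : ℝ, 0 < c ∧
    ∀ᶠ n in U, ∀ Q : MvPolynomial (Fin m) L, Q ≠ 0 → Q.totalDegree ≤ D0 → aeval (z n) Q = 0 →
      c * H n ≤ hP Q

/-- transfer of polynomial identities -/
def St_LOS : Prop := ∀ (U : Ultrafilter ℕ) (L : Type) [Field L],
  Function.Surjective (toU U : (ℕ → L) → Ul U L) ∧
  (∀ f : ℕ → L, toU U f = 0 ↔ ∀ᶠ n in U, f n = 0) ∧
  (∀ (τ : Type) (q : MvPolynomial τ (ℕ → L)),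
    MvPolynomial.map (toU U).toRingHom q = 0 ↔ ∀ᶠ n in U, MvPolynomial.map (lv L n) q = 0) ∧
  (∀ (τ : Type) (p : MvPolynomial τ (Ul U L)), ∃ q : MvPolynomial τ (ℕ → L),
    MvPolynomial.map (toU U).toRingHom q = p ∧ q.support ⊆ p.support) ∧
  (∀ (m : ℕ) (q : ZT (ℕ → L) m),
    mapZT (toU U).toRingHom m q = 0 ↔ ∀ᶠ n in U, mapZT (lv L n) m q = 0) ∧
  ∀ (m : ℕ) (p : ZT (Ul U L) m), ∃ q : ZT (ℕ → L) m, mapZT (toU U).toRingHom m q = p ∧
    q.support ⊆ p.support ∧ ∀ l, (q.coeff l).support ⊆ (p.coeff l).support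

/-- points over the ultrapower; `M` is a field over `L` -/
def St_ULP : Prop := ∀ (L σ : Type) [Field L] [Fintype σ] [DecidableEq σ] (B : Pkg L σ)
  (U : Ultrafilter ℕ) (M : Type) [Field M] [Algebra L M] [Algebra L (Ul U M)]
  [IsScalarTower L M (Ul U M)], ∃ ul : (ℕ → B.Pt M) →+ B.Pt (Ul U M), Function.Surjective ul ∧
    (∀ p, ul p = 0 ↔ ∀ᶠ n in U, p n = 0) ∧ (∀ p xs, UlRep B U p xs ↔ B.Rep (ul p) xs)

/-- points of small height -/
def St_SMP : Prop := ∀ (σ : Type) [Fintype σ] (U : Ultrafilter ℕ) (M : Type) [Field M]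
  [NumberField M] (H : ℕ → ℝ), Tendsto H U atTop → ∀ x : ℕ → σ → M,
  (fun i => toU U fun n => x n i) ≠ 0 → ((Lo U H fun n => Height.logHeight (x n)) ↔
    ∃ (c : Ul U M) (y : σ → sm U M H), (fun i => toU U fun n => x n i) = c • fun i => (y i).1)

/-- heights of bilinear expressions with small coefficients -/
def St_BILU : Prop := ∀ (U : Ultrafilter ℕ) (L : Type) [Field L] [NumberField L] (H : ℕ → ℝ),
  Tendsto H U atTop → ∀ (σ ι ι' : Type) [Fintype σ] [Fintype ι] [Fintype ι'] (d : ℕ)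
  (Γ : ι → ι' → MvPolynomial σ (sm U L H)) (x : ℕ → σ → L) (b : ℕ → ι' → L) (c : ℕ → ι → L),
  (∀ u i, (Γ u i).IsHomogeneous d) → (fun s => toU U fun n => x n s) ≠ 0 →
  (∀ u, (toU U fun n => c n u) =
    ∑ i, aeval (fun s => toU U fun n => x n s) (Γ u i) * toU U fun n => b n i) →
  Lo U H fun n => Height.logHeight (c n) - (d * Height.logHeight (x n) + Height.logHeight (b n))

/-- a presentation over a subfield of the ultrapower at finite level -/
def St_LIFT : Prop := ∀ (U : Ultrafilter ℕ) (L σ : Type) [Field L] [Fintype σ] [DecidableEq L]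
  (κ : IntermediateField L (Ul U L)) (m e D : ℕ) (q : Ideal (MvPolynomial σ κ)) (W : Raw κ σ m),
  W.Ok q e D → ∃ (V : Raw (ℕ → L) σ m) (D1 : ℕ) (A : Finset (ℕ → L)),
    V.map (toU U).toRingHom = W.map (algebraMap κ (Ul U L)) ∧ (∀ a ∈ A, toU U a ∈ κ) ∧
    (∀ᶠ n in U, (V.map (lv L n)).Ok (⊥ : Ideal (MvPolynomial σ L)) e D ∧
      (V.map (lv L n)).Small e D D1 (A.image fun a => a n) ∧
      (V.map (lv L n)).P.natDegree = W.P.natDegree) ∧
    ∀ (g : MvPolynomial σ κ) (g' : MvPolynomial σ (ℕ → L)), g ∈ q →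
      MvPolynomial.map (toU U).toRingHom g' = MvPolynomial.map (algebraMap κ (Ul U L)) g →
      ∀ᶠ n in U, (V.map (lv L n)).P ∣ aeval (V.map (lv L n)).φ (MvPolynomial.map (lv L n) g')

/-- parameters of a generic point -/
def St_ZIND : Prop := ∀ (k σ Ω : Type) [Field k] [Fintype σ] [Field Ω] [Algebra k Ω] (m e D : ℕ)
  (q : Ideal (MvPolynomial σ k)) (W : Raw k σ m) (x : σ → Ω), Pres q W e D → IsHom q → PGen q x →
  ∃ (z : Fin m → Ω) (t : Ω), aeval x (W.ξ (Fin.last m)) ≠ 0 ∧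
    (∀ j, aeval x (W.ξ j.castSucc) = z j * aeval x (W.ξ (Fin.last m))) ∧
    AlgebraicIndependent k z ∧ evZT z t W.P = 0 ∧ aeval z W.Δ ≠ 0 ∧
    evZT z t (Polynomial.derivative W.P) ≠ 0 ∧
    (∃ c : Ω, c ≠ 0 ∧ (fun i => evZT z t (W.φ i)) = c • x) ∧
    ∀ R : ZT k m, evZT z t R = 0 ↔ W.P ∣ R

/-- the sequence of presentations -/
def St_SEQ : Prop := ∀ (L σ : Type) [Field L] [NumberField L] [Fintype σ] [DecidableEq σ]
  (B : Pkg L σ) (U : Ultrafilter ℕ) (x : ℕ → B.Pt L), Tendsto (fun n => B.ht (x n)) U atTop →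
  ∀ (xs : σ → Ul U L), UlRep B U x xs → ∀ (m e D : ℕ)
  (W : Raw (sm U L fun n => B.ht (x n)) σ m),
  Pres (loc (sm U L fun n => B.ht (x n)) xs) W e D →
  ∃ (S : Seq B m) (V : Raw (ℕ → L) σ m), S.U = U ∧ S.x = x ∧
    V.map (toU U).toRingHom = W.map (algebraMap _ (Ul U L)) ∧ (∀ n, S.W n = V.map (lv L n)) ∧
    aeval xs (W.ξ (Fin.last m)) ≠ 0 ∧
    (∀ j, aeval xs (W.ξ j.castSucc) = (toU U fun n => S.z n j) * aeval xs (W.ξ (Fin.last m))) ∧
    (∃ c : Ul U L, c ≠ 0 ∧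
      (fun i => evZT (fun j => toU U fun n => S.z n j) (toU U S.t) (W.φ i)) = c • xs) ∧
    ∀ R : ZT (sm U L fun n => B.ht (x n)) m,
      evZT (fun j => toU U fun n => S.z n j) (toU U S.t) R = 0 ↔ W.P ∣ R

/-- a point of large transcendence degree at finite level -/
def St_DOWN : Prop := ∀ (U : Ultrafilter ℕ) (L σ : Type) [Field L] [CharZero L] [Fintype σ]
  (κ : IntermediateField L (Ul U L)) (q : Ideal (MvPolynomial σ κ)) (m : ℕ), q.IsPrime → IsHom q →
  cd q = (m + 1 : ℕ) → ∀ (ι : Type) [Fintype ι] (g : ι → MvPolynomial σ κ)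
  (g' : ι → MvPolynomial σ (ℕ → L)), (∀ u, g u ∈ q) →
  (∀ u, MvPolynomial.map (toU U).toRingHom (g' u) =
    MvPolynomial.map (algebraMap κ (Ul U L)) (g u)) →
  ∀ᶠ n in U, ∀ (F : Type) [Field F] [Algebra L F], ∃ (Ω : Type) (_ : Field Ω) (_ : Algebra L Ω)
    (_ : Algebra F Ω) (_ : IsScalarTower L F Ω) (y : σ → Ω), y ≠ 0 ∧
    (∀ u, aeval y (MvPolynomial.map (lv L n) (g' u)) = 0) ∧ ((m + 1 : ℕ) : Cardinal) ≤ cd (loc F y)

/-! ### tangent spaces -/

/-- naturality of the tangent matrix -/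
def St_TMN : Prop := ∀ (L σ : Type) [Field L] [Fintype σ] [DecidableEq σ] (B : Pkg L σ) (g : ℕ)
  (C : Chart B g) (a : Fin B.nl) (R R' S S' : Type) [CommRing R] [CommRing R'] [CommRing S]
  [CommRing S'] [Algebra R S] [Algebra R' S'] [Algebra L S] [Algebra L S'] (f : R →+* R')
  (h : S →ₐ[L] S'), (∀ r, h (algebraMap R S r) = algebraMap R' S' (f r)) →
  ∀ (m : ℕ) (z : Fin m → S) (t : S),
    (∀ Q : ZT R m, h (evZT z t Q) = evZT (fun j => h (z j)) (h t) (mapZT f m Q)) ∧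
    ∀ (P : ZT R m) (φ : σ → ZT R m) b j, h (tm C a P φ z t b j) =
      tm C a (mapZT f m P) (fun i => mapZT f m (φ i)) (fun j => h (z j)) (h t) b j

/-- derivations with prescribed values -/
def St_DER : Prop := ∀ (k Ω ι : Type) [Field k] [CharZero k] [Field Ω] [Algebra k Ω] (t : ι → Ω),
  AlgebraicIndependent k t → ∀ c : ι → Ω, ∃ ψ : Ω →ₐ[k] DualNumber Ω,
    (∀ a, (ψ a).fst = a) ∧ ∀ i, (ψ (t i)).snd = c i

/-- logarithmic derivative: additive in the point, computed by any good law, faithful -/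
def St_LGD : Prop := ∀ (L σ : Type) [Field L] [Fintype σ] [DecidableEq σ] (B : Pkg L σ) (g : ℕ)
  (C : Chart B g) (Ω : Type) [Field Ω] [Algebra L Ω] (ψ : Ω →ₐ[L] DualNumber Ω),
  (∀ a, (ψ a).fst = a) → ∃ lg : B.Pt Ω →+ (Fin g → Ω), ∀ (p : B.Pt Ω) (x : σ → Ω), B.Rep p x →
    (∀ a : Fin B.nl, ev2 (B.A a) x (x ∘ B.π) ≠ 0 →
      aeval (ev2 (B.A a) x (x ∘ B.π)) C.den ≠ 0 ∧ ∀ b,
        lg p b * aeval (ev2 (B.A a) x (x ∘ B.π)) C.den =
          (aeval (ev2 (B.A a) (fun i => ψ (x i)) fun i => dn (x (B.π i)) 0) (C.num b)).snd) ∧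
    (lg p = 0 → Par (fun i => (ψ (x i)).snd) x)

/-- first order Taylor formula -/
def St_TAY : Prop := ∀ (R S τ : Type) [CommRing R] [CommRing S] [Algebra R S] [Fintype τ]
  [DecidableEq τ] (x : τ → DualNumber S) (G : MvPolynomial τ R),
  (aeval x G).fst = aeval (fun s => (x s).fst) G ∧
    (aeval x G).snd = ∑ s, aeval (fun s => (x s).fst) (pderiv s G) * (x s).snd

/-- sums of differences of generic points of a variety with killed tangent space are not
generic -/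
def St_KILL : Prop := ∀ (L σ : Type) [Field L] [CharZero L] [Fintype σ] [DecidableEq σ]
  (B : Pkg L σ) (g : ℕ) (C : Chart B g) (κ : Type) [Field κ] [Algebra L κ] (m e D : ℕ)
  (q : Ideal (MvPolynomial σ κ)) (W : Raw κ σ m) (a : Fin B.nl) (l : Fin g → κ), Pres q W e D →
  IsHom q → ext B.I κ ≤ q → (∃ s, MvPolynomial.map (algebraMap L κ) (diagLaw B a s) ∉ q) →
  l ≠ 0 → Kills C a W l → ∀ (k Ω : Type) [Field k] [Field Ω] [Algebra L k] [Algebra κ k]
  [Algebra L Ω] [Algebra κ Ω] [Algebra k Ω] [IsScalarTower L κ k] [IsScalarTower L k Ω]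
  [IsScalarTower κ k Ω] (j : ℕ) (p p' : Fin j → B.Pt Ω) (w : σ → Ω),
  (∀ i, ∃ x, B.Rep (p i) x ∧ PGen q x) → (∀ i, ∃ x, B.Rep (p' i) x ∧ PGen q x) →
  B.Rep (∑ i, (p i - p' i)) w → ¬ PGen (ext B.I k) w

/-- step A in the ultrapower -/
def St_EAU : Prop := ∀ (L σ : Type) [Field L] [NumberField L] [Fintype σ] [DecidableEq σ]
  (B : Pkg L σ) (g m : ℕ), B.IsDim g → m < g → ∀ (C : Chart B g) (U : Ultrafilter ℕ)
  (x : ℕ → B.Pt L), Tendsto (fun n => B.ht (x n)) U atTop → ∀ (xs : σ → Ul U L),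
  UlRep B U x xs → ∀ (e D : ℕ) (W : Raw (sm U L fun n => B.ht (x n)) σ m),
  Pres (loc (sm U L fun n => B.ht (x n)) xs) W e D →
  ∃ (a : Fin B.nl) (l : Fin g → sm U L fun n => B.ht (x n)),
    (∃ s, MvPolynomial.map (algebraMap L _) (diagLaw B a s) ∉
      loc (sm U L fun n => B.ht (x n)) xs) ∧ l ≠ 0 ∧ Kills C a W l

/-! ### structure theorem -/

/-- trace of an algebraic point -/
def St_TRACE : Prop := ∀ (L σ : Type) [Field L] [CharZero L] [Fintype σ] [DecidableEq σ]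
  (B : Pkg L σ) (J : Ideal (MvPolynomial σ L)), B.IsSub J → ∀ (E Ω : Type) [Field E] [Field Ω]
  [IsAlgClosed Ω] [Algebra L E] [Algebra L Ω] [Algebra E Ω] [IsScalarTower L E Ω]
  (κ : IntermediateField L E), (∀ a : E, IsAlgebraic κ a → a ∈ κ) →
  ∀ (x : B.Pt E) (y' : B.Pt Ω) (v w : σ → Ω), B.Rep y' v →
    (∀ i, ∃ P : Polynomial κ, P ≠ 0 ∧
      Polynomial.eval₂ ((algebraMap E Ω).comp (algebraMap κ E)) (v i) P = 0) →
    B.Rep (B.map (IsScalarTower.toAlgHom L E Ω) x - y') w → Zr J w →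
    ∃ (N : ℕ) (y : B.Pt E) (v0 : σ → κ) (w0 : σ → E), 1 ≤ N ∧ B.Rep y (fun i => (v0 i).1) ∧
      B.Rep (N • x - y) w0 ∧ Zr J w0

/-- division in a finitely generated group -/
def St_MWR : Prop := ∀ (Γ : Type) [AddCommGroup Γ], AddGroup.FG Γ → ∀ (Γ' : AddSubgroup Γ) (N : ℕ),
  1 ≤ N → ∃ Φ : Finset Γ, ∀ x y : Γ, N • x - y ∈ Γ' →
    ∃ y1 : Γ, ∃ φ ∈ Φ, ∃ φ' ∈ Φ, y = N • y1 + φ ∧ x - y1 - φ' ∈ Γ'

/-- height of a division point -/
def St_HDIV : Prop := ∀ (L σ : Type) [Field L] [NumberField L] [Fintype σ] [DecidableEq σ]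
  (B : Pkg L σ) (N : ℕ), 1 ≤ N → ∃ C : ℝ, 0 ≤ C ∧ ∀ p : B.Pt L, B.ht p ≤ C * (B.ht (N • p) + 1)

/-- a non generic sequence lies, up to a multiple and small points, on a smaller subvariety -/
def St_STEP1 : Prop := ∀ (L σ : Type) [Field L] [NumberField L] [Fintype σ] [DecidableEq σ]
  (B : Pkg L σ) (g : ℕ), B.IsDim g → ∀ (C : Chart B g) (U : Ultrafilter ℕ) (x : ℕ → B.Pt L),
  Tendsto (fun n => B.ht (x n)) U atTop → ∀ (xs : σ → Ul U L), UlRep B U x xs →
  ¬ PGen (ext B.I (sm U L fun n => B.ht (x n))) xs →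
  ∃ (L' : Type) (_ : Field L') (_ : NumberField L') (_ : Algebra L L')
    (J : Ideal (MvPolynomial σ L')) (g' N : ℕ) (y : ℕ → B.Pt L'), (B.bc L').IsSub J ∧
    cd J = (g' + 1 : ℕ) ∧ g' < g ∧ 1 ≤ N ∧ Lo U (fun n => B.ht (x n)) (fun n => htM B (y n)) ∧
    ∀ᶠ n in U, ∃ w, B.Rep (N • B.map (Algebra.ofId L L') (x n) - y n) w ∧ Zr J w

/-- decomposition of a sequence into points of a subvariety and small points -/
structure Dec {L σ : Type} [Field L] [NumberField L] [Fintype σ] [DecidableEq σ] (B : Pkg L σ)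
    (U : Ultrafilter ℕ) (x : ℕ → B.Pt L) {L' : Type} [Field L'] [NumberField L'] [Algebra L L']
    (B' : Pkg L' σ) (x' : ℕ → B'.Pt L') (y : ℕ → B.Pt L') : Prop where
  sub : Sub2 B B'
  eq : ∀ᶠ n in U, B.map (Algebra.ofId L L') (x n) = sub.hom L' (x' n) + y n
  small : Lo U (fun n => B.ht (x n)) fun n => htM B (y n)

/-- heights in a decomposition are comparable -/
def St_DECH : Prop := ∀ (L σ : Type) [Field L] [NumberField L] [Fintype σ] [DecidableEq σ]
  (B : Pkg L σ) (U : Ultrafilter ℕ) (x : ℕ → B.Pt L) (L' : Type) [Field L'] [NumberField L']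
  [Algebra L L'] (B' : Pkg L' σ) (x' : ℕ → B'.Pt L') (y : ℕ → B.Pt L'),
  Tendsto (fun n => B.ht (x n)) U atTop → Dec B U x B' x' y →
  Tendsto (fun n => B'.ht (x' n)) U atTop ∧ ∃ c : ℝ, 0 < c ∧
    ∀ᶠ n in U, B.ht (x n) ≤ c * B'.ht (x' n) ∧ B'.ht (x' n) ≤ c * B.ht (x n)

/-- the multiple is removed by the Mordell-Weil theorem -/
def St_STEP2 : Prop := ∀ (L σ : Type) [Field L] [NumberField L] [Fintype σ] [DecidableEq σ]
  (B : Pkg L σ) (U : Ultrafilter ℕ) (x : ℕ → B.Pt L), Tendsto (fun n => B.ht (x n)) U atTop →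
  ∀ (L' : Type) [Field L'] [NumberField L'] [Algebra L L'] (J : Ideal (MvPolynomial σ L'))
  (h : (B.bc L').IsSub J) (N : ℕ) (y : ℕ → B.Pt L'), 1 ≤ N →
  Lo U (fun n => B.ht (x n)) (fun n => htM B (y n)) →
  (∀ᶠ n in U, ∃ w, B.Rep (N • B.map (Algebra.ofId L L') (x n) - y n) w ∧ Zr J w) →
  ∃ x' y', Dec B U x ((B.bc L').sub J h) x' y'

/-- base change and composition of decompositions -/
def St_DECC : Prop := ∀ (L σ : Type) [Field L] [NumberField L] [Fintype σ] [DecidableEq σ]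
  (B : Pkg L σ) (U : Ultrafilter ℕ) (x : ℕ → B.Pt L), Tendsto (fun n => B.ht (x n)) U atTop →
  ∀ (L' : Type) [Field L'] [NumberField L'] [Algebra L L'],
  (∃ x', Dec B U x (B.bc L') x' fun _ => 0) ∧
  ∀ (B' : Pkg L' σ) (x' : ℕ → B'.Pt L') (y : ℕ → B.Pt L') (L'' : Type) [Field L'']
    [NumberField L''] [Algebra L' L''] [Algebra L L''] [IsScalarTower L L' L''] (B'' : Pkg L'' σ)
    (x'' : ℕ → B''.Pt L'') (y' : ℕ → B'.Pt L''), Dec B U x B' x' y → Dec B' U x' B'' x'' y' →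
    ∃ y'', Dec B U x B'' x'' y''

/-- structure theorem -/
def St_STR : Prop := ∀ (L σ : Type) [Field L] [NumberField L] [Fintype σ] [DecidableEq σ]
  (B : Pkg L σ) (U : Ultrafilter ℕ) (x : ℕ → B.Pt L), Tendsto (fun n => B.ht (x n)) U atTop →
  ∃ (L' : Type) (_ : Field L') (_ : NumberField L') (_ : Algebra L L') (B' : Pkg L' σ) (g : ℕ)
    (x' : ℕ → B'.Pt L') (y : ℕ → B.Pt L') (xs : σ → Ul U L'), Dec B U x B' x' y ∧
    B'.IsDim (g + 1) ∧ UlRep B' U x' xs ∧ PGen (ext B'.I (sm U L' fun n => B'.ht (x' n))) xs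

/-! ### the final theorem -/

/-- the subvariety over the algebraic closure -/
def St_SUBF : Prop := ∀ (L σ : Type) [Field L] [Fintype σ] [DecidableEq σ] (B : Pkg L σ)
  (L' F : Type) [Field L'] [Field F] [Algebra L L'] [Algebra L' F] [Algebra L F]
  [IsScalarTower L L' F] (B' : Pkg L' σ) (g : ℕ), Sub2 B B' → B'.IsDim g →
  (B.bc F).IsSub (ext B'.I F) ∧ cd (ext B'.I F) = (g + 1 : ℕ)

/-- translation by a rational point does not raise the transcendence degree -/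
def St_RATL : Prop := ∀ (L σ : Type) [Field L] [Fintype σ] [DecidableEq σ] (B : Pkg L σ)
  (F Ω : Type) [Field F] [Field Ω] [Algebra L F] [Algebra L Ω] [Algebra F Ω] [IsScalarTower L F Ω]
  (p : B.Pt F) (b : B.Pt Ω) (y y' : σ → Ω), B.Rep b y →
  B.Rep (B.map (IsScalarTower.toAlgHom L F Ω) p + b) y' → cd (loc F y') ≤ cd (loc F y)

/-- homogeneous elements of an ideal spanned by forms of one degree -/
def St_HSPAN : Prop := ∀ (k σ ι : Type) [Field k] [Fintype ι] (f : ι → MvPolynomial σ k) (d : ℕ),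
  (∀ u, (f u).IsHomogeneous d) → IsHom (Ideal.span (Set.range f)) ∧
    ∀ (G : MvPolynomial σ k) (n : ℕ), G.IsHomogeneous (n + d) → G ∈ Ideal.span (Set.range f) →
      ∃ c : ι → MvPolynomial σ k, (∀ u, (c u).IsHomogeneous n) ∧ G = ∑ u, c u * f u

/-- the forms `f i (A a (X, v))` -/
noncomputable def pullF {L σ : Type} [Field L] [Fintype σ] [DecidableEq σ] (B : Pkg L σ) {r : ℕ}
    (f : Fin r → MvPolynomial σ L) {R : Type} [CommRing R] [Algebra L R] (v : σ → R)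
    (u : Fin B.nl × Fin r) : MvPolynomial σ R :=
  aeval (ev2 (B.A u.1) X fun s => (C (v s) : MvPolynomial σ R)) (f u.2)

/-- codimension two passes to the small field -/
def St_COD : Prop := ∀ (L σ : Type) [Field L] [NumberField L] [Fintype σ] [DecidableEq σ]
  (B : Pkg L σ) (r e : ℕ) (f : Fin r → MvPolynomial σ L), (∀ i, (f i).IsHomogeneous e) →
  ∀ (U : Ultrafilter ℕ) (x : ℕ → B.Pt L) (L' F : Type) [Field L'] [NumberField L'] [Field F]
  [Algebra L L'] [Algebra L' F] [Algebra L F] [IsScalarTower L L' F] (B' : Pkg L' σ) (g : ℕ)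
  (x' : ℕ → B'.Pt L') (y : ℕ → B.Pt L'), Dec B U x B' x' y → B'.IsDim (g + 1) →
  (∀ᶠ n in U, Cod2 B f (ext B'.I F) (x n)) → ∀ (κ : IntermediateField L' (Ul U L'))
  [Algebra L κ] [IsScalarTower L L' κ] (v : σ → κ), UlRep B U y (fun i => (v i).1) →
  ∀ q' : Ideal (MvPolynomial σ κ), q'.IsPrime → ext B'.I κ ≤ q' → (∀ u, pullF B f v u ∈ q') →
    cd q' + 2 ≤ (g + 1 + 1 : ℕ)

/-- step B in the ultrapower: the first two parameters carry the full height -/
def St_EBU : Prop := ∀ (L σ : Type) [Field L] [NumberField L] [Fintype σ] [DecidableEq σ]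
  (B : Pkg L σ) (g : ℕ), B.IsDim (g + 1) → ∀ (U : Ultrafilter ℕ) (x : ℕ → B.Pt L),
  Tendsto (fun n => B.ht (x n)) U atTop → ∀ (xs : σ → Ul U L), UlRep B U x xs →
  PGen (ext B.I (sm U L fun n => B.ht (x n))) xs → ∀ (e D : ℕ)
  (ξ : Fin (g + 2) → MvPolynomial σ (sm U L fun n => B.ht (x n))),
  Hsop (ext B.I (sm U L fun n => B.ht (x n))) (g + 1) e D ξ → ∀ a : ℕ → Fin 2 → L,
  (toU U fun n => a n 0) = aeval xs (ξ 0) → (toU U fun n => a n 1) = aeval xs (ξ 1) →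
  aeval xs (ξ 0) ≠ 0 ∧
    Lo U (fun n => B.ht (x n)) fun n => e * B.ht (x n) - Height.logHeight (a n)

/-- the bound along an ultrafilter -/
def St_SHU : Prop := ∀ (L κ σ : Type) [Field L] [NumberField L] [Field κ] [IsAlgClosed κ]
  [Algebra L κ] [Fintype σ] [DecidableEq σ]
  (B : Pkg L σ) (r e : ℕ) (f : Fin r → MvPolynomial σ L), (∀ i, (f i).IsHomogeneous e) →
  ∀ (U : Ultrafilter ℕ) (x : ℕ → B.Pt L) (xr : ℕ → σ → L), (∀ n, B.Rep (x n) (xr n)) →
  Tendsto (fun n => B.ht (x n)) U atTop →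
  ∃ J : Ideal (MvPolynomial σ κ), (B.bc κ).IsSub J ∧ 2 ≤ cd J ∧
    ((∀ᶠ n in U, Cod2 B f J (x n)) → Lo U (fun n => B.ht (x n))
      fun n => e * B.ht (x n) - Height.logHeight fun i => aeval (xr n) (f i))

/-- the sharp bound for packages -/
def St_SH : Prop := ∀ (L κ σ : Type) [Field L] [NumberField L] [Field κ] [IsAlgClosed κ]
  [Algebra L κ] [Algebra.IsAlgebraic L κ] [Fintype σ] [DecidableEq σ]
  (B : Pkg L σ) (r e : ℕ) (f : Fin r → MvPolynomial σ L), (∀ i, (f i).IsHomogeneous e) →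
  ∀ ε : ℝ, 0 < ε → ∃ (C : ℝ) (JJ : Set (Ideal (MvPolynomial σ κ))), JJ.Finite ∧
    (∀ J ∈ JJ, (B.bc κ).IsSub J ∧ 2 ≤ cd J) ∧
    ∀ (p : B.Pt L) (x : σ → L), B.Rep p x → (∀ J ∈ JJ, Cod2 B f J p) →
      (e - ε) * B.ht p - C ≤ Height.logHeight fun i => aeval x (f i)

/-- the form exported to the projective statement -/
def St_SHARP : Prop := ∀ (L κ σ : Type) [Field L] [NumberField L] [Field κ] [IsAlgClosed κ]
  [Algebra L κ] [Algebra.IsAlgebraic L κ] [Fintype σ] [DecidableEq σ] (B : Pkg L σ) (r e : ℕ)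
  (f : Fin r → MvPolynomial σ L), (∀ i, (f i).IsHomogeneous e) → ∀ ε : ℝ, 0 < ε →
  ∃ (C : ℝ) (JJ : Set (Ideal (MvPolynomial σ κ))), JJ.Finite ∧
    (∀ J ∈ JJ, (B.bc κ).IsSub J ∧ ∃ (b : B.Pt κ) (y : σ → κ), B.Rep b y ∧ Zr J y ∧ b ≠ 0) ∧
    ∀ (p : B.Pt L) (x : σ → L), B.Rep p x → (fun i => aeval x (f i)) ≠ 0 →
      (∀ J ∈ JJ, ∀ q : Ideal (MvPolynomial σ κ), q.IsPrime → IsHom q → J ≤ q → (∃ i, X i ∉ q) →
        (∀ (b : B.Pt κ) (y w : σ → κ), B.Rep b y → Zr q y →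
          B.Rep (B.map (Algebra.ofId L κ) p + b) w → ∀ i, aeval w (f i) = 0) →
        cd q + 2 ≤ cd J) →
      (e - ε) * B.ht p - C ≤ Height.logHeight fun i => aeval x (f i)

end D4C
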