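import Pool.Agent.Lib.D4C.Defs

/-! d4c56 blueprint: interface statements between foundations (F), engine (E), ultrapower (U). -/

namespace D4C

open MvPolynomial Filter

/-- L1 norm of a polynomial -/
noncomputable def l1 {τ L : Type} [Field L] (v : AbsoluteValue L ℝ) (F : MvPolynomial τ L) : ℝ :=
  ∑ d ∈ F.support, v (coeff d F)

/-- local size of a finite set of constants -/
noncomputable def hv {L : Type} [Field L] (v : AbsoluteValue L ℝ) (A : Finset L) : ℝ :=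
  ∏ a ∈ A, max 1 (v a)

/-- sup norm of a vector -/
noncomputable def sn {σ L : Type} [Field L] (v : AbsoluteValue L ℝ) (x : σ → L) : ℝ :=
  ⨆ i, v (x i)

/-- projective height of the coefficient vector -/
noncomputable def hP {τ L : Type} [Field L] [Height.AdmissibleAbsValues L]
    (Q : MvPolynomial τ L) : ℝ := Height.logHeight fun d : Q.support => coeff d.1 Q

/-- `x` is a generic point of the projective variety with ideal `q` -/
def PGen {k σ : Type} [Field k] (q : Ideal (MvPolynomial σ k)) {Ω : Type} [Field Ω] [Algebra k Ω]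
    (x : σ → Ω) : Prop :=
  x ≠ 0 ∧ ∀ (F : MvPolynomial σ k) (n : ℕ), F.IsHomogeneous n → (aeval x F = 0 ↔ F ∈ q)

/-- ideal of the locus of a projective point over `k` -/
noncomputable def loc (k : Type) {σ : Type} [Field k] {Ω : Type} [Field Ω] [Algebra k Ω]
    (x : σ → Ω) : Ideal (MvPolynomial σ k) :=
  Ideal.span {F | (∃ n, F.IsHomogeneous n) ∧ aeval x F = 0}

/-- transcendence degree of the affine cone -/
noncomputable def cd {k σ : Type} [Field k] (q : Ideal (MvPolynomial σ k)) : Cardinal :=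
  Algebra.trdeg k (MvPolynomial σ k ⧸ q)

/-- homogeneous system of parameters of degree `e` modulo `q`, with the Nullstellensatz identity -/
structure Hsop {k σ : Type} [Field k] (q : Ideal (MvPolynomial σ k)) (m e D : ℕ)
    (ξ : Fin (m + 1) → MvPolynomial σ k) : Prop where
  e_pos : 1 ≤ e
  hom : ∀ j, (ξ j).IsHomogeneous e
  ind : AlgebraicIndependent k fun j => Ideal.Quotient.mk q (ξ j)
  ns : ∀ ν : σ →₀ ℕ, ν.degree = e * (D + 1) → ∃ H : Fin (m + 1) → MvPolynomial σ k,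
    (∀ j, (H j).IsHomogeneous (e * D)) ∧ monomial ν 1 - ∑ j, ξ j * H j ∈ q

/-- the ring `R[z][T]` -/
abbrev ZT (R : Type) [CommRing R] (m : ℕ) : Type := Polynomial (MvPolynomial (Fin m) R)

/-- evaluation `z ↦ z0`, `T ↦ t0` -/
noncomputable def evZT {R : Type} [CommRing R] {m : ℕ} {S : Type} [CommRing S] [Algebra R S]
    (z : Fin m → S) (t : S) : ZT R m →ₐ[R] S := Polynomial.aevalTower (aeval z) t

/-- the vector `(z_0, ..., z_(m-1), 1)` -/
noncomputable def zv (R : Type) [CommRing R] (m : ℕ) : Fin (m + 1) → ZT R m :=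
  Fin.snoc (α := fun _ => ZT R m) (fun j => Polynomial.C (X j)) 1

/-- presentation of an `m`-dimensional variety as a hypersurface finite over affine space -/
structure Raw (R : Type) [CommRing R] (σ : Type) (m : ℕ) where
  ξ : Fin (m + 1) → MvPolynomial σ R
  η : MvPolynomial σ R
  P : ZT R m
  φ : σ → ZT R m
  θ : ZT R m
  θ' : ZT R m
  π' : ZT R m
  Δ : MvPolynomial (Fin m) R
  H : (σ →₀ ℕ) → Fin (m + 1) → MvPolynomial σ R
  ψ : (σ →₀ ℕ) → ZT R m

/-- the identities of a presentation; `I` is the ideal of the ambient variety -/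
structure Raw.Ok {L R σ : Type} [Field L] [CommRing R] [Algebra L R] {m : ℕ} (W : Raw R σ m)
    (I : Ideal (MvPolynomial σ L)) (e D : ℕ) : Prop where
  ξ_hom : ∀ j, (W.ξ j).IsHomogeneous e
  η_hom : W.η.IsHomogeneous e
  H_hom : ∀ ν j, ν.degree = e * (D + 1) → (W.H ν j).IsHomogeneous (e * D)
  monic : W.P.Monic
  mem : ∀ F ∈ I, W.P ∣ aeval W.φ F
  ξ_eq : ∀ j, W.P ∣ aeval W.φ (W.ξ j) - zv R m j * W.θ
  η_eq : W.P ∣ aeval W.φ W.η - Polynomial.X * W.θ
  ns : ∀ ν, ν.degree = e * (D + 1) → W.P ∣ aeval W.φ (monomial ν (1 : R) - ∑ j, W.ξ j * W.H ν j)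
  red : ∀ ν, ν.degree = e * D →
    W.P ∣ Polynomial.C W.Δ * aeval W.φ (monomial ν (1 : R)) - W.θ ^ D * W.ψ ν
  ψ_deg : ∀ ν, ν.degree = e * D → (W.ψ ν).degree < W.P.degree
  θ_inv : W.P ∣ W.θ * W.θ' - Polynomial.C W.Δ
  sep : W.P ∣ Polynomial.derivative W.P * W.π' - Polynomial.C W.Δ

/-- degree at most `D1`, coefficients in `A` -/
def SmP {τ L : Type} [Field L] (D1 : ℕ) (A : Finset L) (p : MvPolynomial τ L) : Prop :=
  p.totalDegree ≤ D1 ∧ ∀ d, coeff d p = 0 ∨ coeff d p ∈ A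

/-- the same in `L[z][T]` -/
def SmQ {L : Type} [Field L] {m : ℕ} (D1 : ℕ) (A : Finset L) (q : ZT L m) : Prop :=
  q.natDegree ≤ D1 ∧ ∀ l, SmP D1 A (q.coeff l)

/-- all parts of a presentation are small -/
structure Raw.Small {L σ : Type} [Field L] {m : ℕ} (W : Raw L σ m) (e D D1 : ℕ) (A : Finset L) :
    Prop where
  ξ : ∀ j, SmP D1 A (W.ξ j)
  η : SmP D1 A W.η
  P : SmQ D1 A W.P
  φ : ∀ i, SmQ D1 A (W.φ i)
  θ : SmQ D1 A W.θ
  θ' : SmQ D1 A W.θ'
  π' : SmQ D1 A W.π'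
  Δ : SmP D1 A W.Δ
  H : ∀ ν j, ν.degree = e * (D + 1) → SmP D1 A (W.H ν j)
  ψ : ∀ ν, ν.degree = e * D → SmQ D1 A (W.ψ ν)

/-- a sequence of points with presentations of small height of `m`-dimensional varieties through
them, on which they are generic up to small height -/
structure Seq {L σ : Type} [Field L] [NumberField L] [Fintype σ] [DecidableEq σ] (B : Pkg L σ)
    (m : ℕ) where
  e : ℕ
  D : ℕ
  D1 : ℕ
  e_pos : 1 ≤ e
  U : Ultrafilter ℕ
  x : ℕ → B.Pt L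
  W : ℕ → Raw L σ m
  z : ℕ → Fin m → L
  t : ℕ → L
  A : ℕ → Finset L
  ok : ∀ᶠ n in U, (W n).Ok B.I e D ∧ (W n).Small e D D1 (A n) ∧ evZT (z n) (t n) (W n).P = 0 ∧
    aeval (z n) (W n).Δ ≠ 0 ∧ B.Rep (x n) fun i => evZT (z n) (t n) ((W n).φ i)
  big : Tendsto (fun n => B.ht (x n)) U atTop
  small : ∀ ε : ℝ, 0 < ε → ∀ᶠ n in U, ∑ a ∈ A n, Height.logHeight₁ a ≤ ε * B.ht (x n)
  gen : ∀ D0 : ℕ, ∃ c : ℝ, 0 < c ∧ ∀ᶠ n in U, ∀ Q : MvPolynomial (Fin m) L, Q ≠ 0 →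
    Q.totalDegree ≤ D0 → aeval (z n) Q = 0 → c * B.ht (x n) ≤ hP Q

/-- reduction to the residue field -/
noncomputable def res (L R : Type) [Field L] [CommRing R] [Algebra L R] [IsLocalRing R] :
    R →ₐ[L] IsLocalRing.ResidueField R := IsScalarTower.toAlgHom L R _

/-- etale coordinates `num a / den` at the origin and the formal parametrisation -/
structure Chart {L σ : Type} [Field L] [Fintype σ] [DecidableEq σ] (B : Pkg L σ) (g : ℕ) where
  dg : ℕ
  num : Fin g → MvPolynomial σ L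
  den : MvPolynomial σ L
  num_hom : ∀ a, (num a).IsHomogeneous dg
  den_hom : den.IsHomogeneous dg
  den_o : aeval B.o den ≠ 0
  τ : σ → MvPowerSeries (Fin g) L
  τ_zr : Zr B.I τ
  τ_o : ∀ i, MvPowerSeries.constantCoeff (τ i) = B.o i
  coord : ∀ a, aeval τ (num a) = MvPowerSeries.X a * aeval τ den
  inj : ∀ (R : Type) [CommRing R] [Algebra L R] [IsLocalRing R] (p q : B.Pt R) (x y : σ → R),
    B.map (res L R) p = 0 → B.map (res L R) q = 0 → B.Rep p x → B.Rep q y →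
    (∀ a, aeval x (num a) * aeval y den = aeval y (num a) * aeval x den) → p = q
  c : ℕ
  A : Finset L
  bound : ∀ (v : AbsoluteValue L ℝ) (J : Fin g →₀ ℕ) (i : σ),
    v (MvPowerSeries.coeff J (τ i)) ≤ (c * hv v A) ^ (J.degree + 1)

/-! ### Foundations, exported (writer 56) -/

/-- the locus of a point -/
def St_LOC : Prop := ∀ (k σ Ω : Type) [Field k] [Fintype σ] [Field Ω] [Algebra k Ω] (x : σ → Ω),
  x ≠ 0 → IsHom (loc k x) ∧ (loc k x).IsPrime ∧ PGen (loc k x) x ∧ Zr (loc k x) x ∧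
    cd (loc k x) = Algebra.trdeg k (IntermediateField.adjoin k
      (Set.range fun ij : σ × σ => x ij.1 / x ij.2)) + 1

/-- primes over an algebraically closed field stay prime -/
def St_IRR : Prop := ∀ (κ σ : Type) [Field κ] [IsAlgClosed κ] [Fintype σ]
  (q : Ideal (MvPolynomial σ κ)), q.IsPrime → ∀ (Ω : Type) [Field Ω] [Algebra κ Ω], (ext q Ω).IsPrime

/-- dimension: finite, invariant under base change, strictly monotone -/
def St_DIM : Prop := ∀ (k σ : Type) [Field k] [Fintype σ] (q : Ideal (MvPolynomial σ k)),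
  q.IsPrime → (∃ n : ℕ, cd q = n) ∧
    (∀ (Ω : Type) [Field Ω] [Algebra k Ω], (ext q Ω).IsPrime → cd (ext q Ω) = cd q) ∧
    ∀ q' : Ideal (MvPolynomial σ k), q'.IsPrime → q < q' → cd q' < cd q

/-- vanishing at all points over an algebraically closed field -/
def St_VAN : Prop := ∀ (κ σ R : Type) [Field κ] [IsAlgClosed κ] [Fintype σ] [CommRing R]
  [Algebra κ R] (J : Ideal (MvPolynomial σ κ)), J.IsRadical → ∀ F : MvPolynomial σ R,
  (∀ y : σ → κ, Zr J y → eval (fun i => algebraMap κ R (y i)) F = 0) →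
  ∀ y : σ → R, Zr J y → eval y F = 0

/-- extension of places -/
def St_PLACE : Prop := ∀ (K Ω : Type) [Field K] [Field Ω] [IsAlgClosed Ω] (A : Subring K)
  (φ : A →+* Ω), ∃ (O : ValuationSubring K) (h : A ≤ O.toSubring) (ψ : O →+* Ω),
    (∀ a : A, ψ ⟨a.1, h a.2⟩ = φ a) ∧ ∀ b : O, ψ b = 0 ↔ ¬ IsUnit b

/-- points over a valuation ring and over its fraction field -/
def St_RED : Prop := ∀ (L σ : Type) [Field L] [Fintype σ] [DecidableEq σ] (B : Pkg L σ)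
  (O K : Type) [CommRing O] [IsDomain O] [ValuationRing O] [Field K] [Algebra O K]
  [IsFractionRing O K] [Algebra L O] [Algebra L K] [IsScalarTower L O K],
  Function.Bijective (B.map (IsScalarTower.toAlgHom L O K))

/-- addition of tangent vectors at the origin -/
def St_KER : Prop := ∀ (L σ : Type) [Field L] [Fintype σ] [DecidableEq σ] (B : Pkg L σ)
  (Ω : Type) [Field Ω] [Algebra L Ω] (p q : B.Pt (DualNumber Ω)) (u v : σ → Ω),
  (B.Rep p fun i => TrivSqZeroExt.inl (algebraMap L Ω (B.o i)) + TrivSqZeroExt.inr (u i)) →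
  (B.Rep q fun i => TrivSqZeroExt.inl (algebraMap L Ω (B.o i)) + TrivSqZeroExt.inr (v i)) →
  B.Rep (p + q) fun i => TrivSqZeroExt.inl (algebraMap L Ω (B.o i)) + TrivSqZeroExt.inr (u i + v i)

/-- systems of parameters, the first `r` taken from `J`, degree divisible by `N` -/
def St_HSOP : Prop := ∀ (k σ : Type) [Field k] [Fintype σ] (q J : Ideal (MvPolynomial σ k))
  (m r N : ℕ), q.IsPrime → IsHom q → IsHom J → cd q = (m + 1 : ℕ) → 1 ≤ N →
  (∀ q' : Ideal (MvPolynomial σ k), q'.IsPrime → q ≤ q' → J ≤ q' → cd q' + r ≤ (m + 1 : ℕ)) →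
  ∃ e D ξ, Hsop q m e D ξ ∧ N ∣ e ∧ ∀ j : Fin (m + 1), j.val < r → ξ j ∈ J

/-- presentations exist -/
def St_DATA : Prop := ∀ (k σ : Type) [Field k] [CharZero k] [Fintype σ]
  (q : Ideal (MvPolynomial σ k)) (m e D : ℕ) (ξ : Fin (m + 1) → MvPolynomial σ k),
  q.IsPrime → IsHom q → Hsop q m e D ξ → ∃ W : Raw k σ m, W.ξ = ξ ∧ W.Ok q e D ∧ W.Δ ≠ 0 ∧
    Irreducible W.P ∧
    ∀ (R : Type) [CommRing R] [Algebra k R] (x : σ → R) (z : Fin m → R) (t : R), Zr q x →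
      IsUnit (aeval x (ξ (Fin.last m))) →
      (∀ j, aeval x (ξ j.castSucc) = z j * aeval x (ξ (Fin.last m))) →
      aeval x W.η = t * aeval x (ξ (Fin.last m)) →
      evZT z t W.P = 0 ∧ Par (fun i => evZT z t (W.φ i)) x

/-- multiplication by `2 ^ κ` on forms of degree `N n` -/
def St_MUL : Prop := ∀ (L σ : Type) [Field L] [CharZero L] [Fintype σ] [DecidableEq σ]
  (B : Pkg L σ), ∃ (N r c : ℕ) (A : Finset L), 1 ≤ N ∧ ∀ κ n : ℕ,
    ∃ Dm : (σ →₀ ℕ) → MvPolynomial σ L,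
      (∀ γ, (Dm γ).IsHomogeneous (4 ^ κ * (N * (n + r))) ∧
        ∀ v : AbsoluteValue L ℝ, l1 v (Dm γ) ≤ (c * hv v A) ^ (4 ^ κ * (n + r))) ∧
      (∃ γ, γ.degree = N * n ∧ Dm γ ∉ B.I) ∧
      ∀ (Ω : Type) [Field Ω] [Algebra L Ω] (p : B.Pt Ω) (x y : σ → Ω), B.Rep p x →
        B.Rep (2 ^ κ • p) y → ∃ E : Ω, ∀ γ, γ.degree = N * n →
          aeval x (Dm γ) = E * ∏ i, y i ^ γ i

/-- at every place some law is large -/
def St_LAW : Prop := ∀ (L σ : Type) [Field L] [Fintype σ] [DecidableEq σ] (B : Pkg L σ),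
  ∃ (c : ℕ) (A : Finset L), ∀ (v : AbsoluteValue L ℝ) (x y : σ → L), Zr B.I x → Zr B.I y →
    x ≠ 0 → y ≠ 0 → ∃ a, sn v x ^ B.β * sn v y ^ B.β ≤ c * hv v A * sn v (ev2 (B.A a) x y)

/-- heights under the group law -/
def St_HT : Prop := ∀ (L σ : Type) [Field L] [NumberField L] [Fintype σ] [DecidableEq σ]
  (B : Pkg L σ), ∃ C : ℝ, 0 ≤ C ∧ (∀ p : B.Pt L, B.ht (-p) = B.ht p) ∧
    (∀ p q : B.Pt L, B.ht (p + q) ≤ B.β * B.ht p + B.β * B.ht q + C) ∧
    ∀ (κ : ℕ) (p : B.Pt L), |B.ht (2 ^ κ • p) - 4 ^ κ * B.ht p| ≤ C * 4 ^ κ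

/-- doubling is onto and the number of points killed by `2 ^ j` -/
def St_TORS : Prop := ∀ (L σ : Type) [Field L] [CharZero L] [Fintype σ] [DecidableEq σ]
  (B : Pkg L σ) (g : ℕ), B.IsDim g → ∀ (Ω : Type) [Field Ω] [Algebra L Ω] [IsAlgClosed Ω],
    (∀ p : B.Pt Ω, ∃ q : B.Pt Ω, 2 • q = p) ∧
    ∀ j : ℕ, {p : B.Pt Ω | 2 ^ j • p = 0}.ncard = 4 ^ (g * j)

/-- Mordell-Weil -/
def St_MW : Prop := ∀ (L σ : Type) [Field L] [NumberField L] [Fintype σ] [DecidableEq σ]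
  (B : Pkg L σ), AddGroup.FG (B.Pt L)

/-- many points in a narrow cone -/
def St_CONE : Prop := ∀ (L σ : Type) [Field L] [NumberField L] [Fintype σ] [DecidableEq σ]
  (B : Pkg L σ), ∃ C : ℝ, 1 ≤ C ∧ ∀ (U : Ultrafilter ℕ) (x : ℕ → B.Pt L),
    Tendsto (fun n => B.ht (x n)) U atTop → ∀ (k ρ : ℕ) (θ : ℝ), 0 < θ → ∀ S ∈ U,
    ∃ n κ : Fin (k + 1) → ℕ, (∀ i, n i ∈ S) ∧ (∀ i j, i < j → ρ * 4 ^ κ j ≤ 4 ^ κ i) ∧ ∀ i,
      B.ht (2 ^ κ i • x (n i) - 2 ^ κ 0 • x (n 0)) ≤ θ * (4 ^ κ 0 * B.ht (x (n 0))) ∧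
      4 ^ κ 0 * B.ht (x (n 0)) ≤ C * (4 ^ κ i * B.ht (x (n i))) ∧
      4 ^ κ i * B.ht (x (n i)) ≤ C * (4 ^ κ 0 * B.ht (x (n 0)))

/-- a chart exists after a finite extension -/
def St_CHART : Prop := ∀ (L σ : Type) [Field L] [CharZero L] [Fintype σ] [DecidableEq σ]
  (B : Pkg L σ) (g : ℕ), B.IsDim g → ∃ L' : IntermediateField L (AlgebraicClosure L),
    FiniteDimensional L L' ∧ Nonempty (Chart (B.bc L') g)

/-- the abelian subvariety generated by the differences of points of a subvariety -/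
def St_GEN : Prop := ∀ (κ σ : Type) [Field κ] [IsAlgClosed κ] [Fintype σ] [DecidableEq σ]
  (B : Pkg κ σ) (q : Ideal (MvPolynomial σ κ)), q.IsPrime → IsHom q → B.I ≤ q → (∃ i, X i ∉ q) →
  ∃ J, B.IsSub J ∧
    (∀ (Ω : Type) [Field Ω] [Algebra κ Ω] (p p' : B.Pt Ω) (x x' w : σ → Ω), B.Rep p x →
      B.Rep p' x' → Zr q x → Zr q x' → B.Rep (p - p') w → Zr J w) ∧
    ∃ (Ω : Type) (_ : Field Ω) (_ : Algebra κ Ω) (j : ℕ) (p p' : Fin j → B.Pt Ω) (w : σ → Ω),
      (∀ i, ∃ x, B.Rep (p i) x ∧ PGen q x) ∧ (∀ i, ∃ x, B.Rep (p' i) x ∧ PGen q x) ∧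
      B.Rep (∑ i, (p i - p' i)) w ∧ PGen J w

/-- rigidity of abelian subvarieties -/
def St_STD : Prop := ∀ (κ κ' σ : Type) [Field κ] [CharZero κ] [IsAlgClosed κ] [Field κ']
  [IsAlgClosed κ'] [Algebra κ κ'] [Fintype σ] [DecidableEq σ] (B : Pkg κ σ)
  (J' : Ideal (MvPolynomial σ κ')), (B.bc κ').IsSub J' → ∃ J, B.IsSub J ∧ ext J κ' = J'

/-- an abelian subvariety is defined over a finite extension -/
def St_DESC : Prop := ∀ (L κ σ : Type) [Field L] [Field κ] [Algebra L κ] [Algebra.IsAlgebraic L κ]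
  [Fintype σ] [DecidableEq σ] (B : Pkg L σ) (J : Ideal (MvPolynomial σ κ)), (B.bc κ).IsSub J →
  ∃ L' : IntermediateField L κ, FiniteDimensional L L' ∧
    ∃ J' : Ideal (MvPolynomial σ L'), (B.bc L').IsSub J' ∧ ext J' κ = J

/-- heights in a finite extension -/
def St_HEXT : Prop := ∀ (L L' ι : Type) [Field L] [NumberField L] [Field L'] [NumberField L']
  [Algebra L L'] [Fintype ι] (x : ι → L),
  Height.logHeight (fun i => algebraMap L L' (x i)) = Module.finrank L L' * Height.logHeight x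

/-! ### Engine, exported (writer 91) -/

/-- step B -/
def St_EB : Prop := ∀ (L σ : Type) [Field L] [NumberField L] [Fintype σ] [DecidableEq σ]
  (B : Pkg L σ) (g : ℕ), B.IsDim (g + 2) → ∀ (S : Seq B (g + 2)) (ε : ℝ), 0 < ε → ∀ᶠ n in S.U,
    Height.logHeight (Fin.snoc (α := fun _ => L) (S.z n) 1) ≤
      Height.logHeight ![S.z n 0, S.z n 1] + ε * B.ht (S.x n)

/-- step A -/
def St_EA : Prop := ∀ (L σ : Type) [Field L] [NumberField L] [Fintype σ] [DecidableEq σ]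
  (B : Pkg L σ) (g m : ℕ), B.IsDim g → m < g → ∀ (C : Chart B g) (S : Seq B m) (ε : ℝ), 0 < ε →
  ∀ᶠ n in S.U, ∃ l : Fin g → L, l ≠ 0 ∧ Height.logHeight l ≤ ε * B.ht (S.x n) ∧
    ∀ (z : Fin m → DualNumber L) (t : DualNumber L) (y : B.Pt (DualNumber L))
      (w : σ → DualNumber L), (∀ j, (z j).fst = S.z n j) → t.fst = S.t n →
      evZT z t (S.W n).P = 0 → (B.Rep y fun i => evZT z t ((S.W n).φ i)) →
      B.Rep (y - B.map (Algebra.ofId L (DualNumber L)) (S.x n)) w →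
      ∑ a, l a • aeval w (C.num a) = 0

/-! ### Ultrapower part, exported (writer 78) -/

/-- the lower bound of Q1 for packages -/
def St_PQ : Prop := ∀ (L σ : Type) [Field L] [NumberField L] [Fintype σ] [DecidableEq σ]
  (B : Pkg L σ) (r e : ℕ) (f : Fin r → MvPolynomial σ L), (∀ i, (f i).IsHomogeneous e) →
  ∀ (U : Ultrafilter ℕ) (x : ℕ → B.Pt L) (xr : ℕ → σ → L), (∀ n, B.Rep (x n) (xr n)) →
  Tendsto (fun n => B.ht (x n)) U atTop → (∀ᶠ n in U, (fun i => aeval (xr n) (f i)) ≠ 0) →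
  (∀ ε : ℝ, 0 < ε → ∀ᶠ n in U,
    Height.logHeight (fun i => aeval (xr n) (f i)) ≤ ε * B.ht (x n)) →
  ∃ J : Ideal (MvPolynomial σ (AlgebraicClosure L)), (B.bc (AlgebraicClosure L)).IsSub J ∧
    (∃ (b : B.Pt (AlgebraicClosure L)) (y : σ → AlgebraicClosure L), B.Rep b y ∧ Zr J y ∧ b ≠ 0) ∧
    ∀ᶠ n in U, ∀ (b : B.Pt (AlgebraicClosure L)) (y w : σ → AlgebraicClosure L), B.Rep b y →
      Zr J y → B.Rep (B.map (Algebra.ofId L _) (x n) + b) w →
      Par (fun i => aeval w (f i)) fun i => algebraMap L _ (aeval (xr n) (f i))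

/-- the gcd bound for packages -/
def St_PG : Prop := ∀ (L σ : Type) [Field L] [NumberField L] [Fintype σ] [DecidableEq σ]
  (B : Pkg L σ) (r e : ℕ) (f : Fin r → MvPolynomial σ L), (∀ i, (f i).IsHomogeneous e) →
  (∀ q : Ideal (MvPolynomial σ L), q.IsPrime → B.I ≤ q → (∀ i, f i ∈ q) → cd q + 2 ≤ cd B.I) →
  ∀ (U : Ultrafilter ℕ) (x : ℕ → B.Pt L) (xr : ℕ → σ → L), (∀ n, B.Rep (x n) (xr n)) →
  Tendsto (fun n => B.ht (x n)) U atTop →
  (∀ (F : MvPolynomial σ L) (d : ℕ), F.IsHomogeneous d → F ∉ B.I →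
    ∀ᶠ n in U, aeval (xr n) F ≠ 0) →
  ∀ ε : ℝ, 0 < ε → ∀ᶠ n in U,
    (e - ε) * B.ht (x n) ≤ Height.logHeight fun i => aeval (xr n) (f i)

end D4C
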