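import Pool.Agent.Lib.D4C.BlueF

/-! d4c56 final transfer, part A: closed and irreducible subsets of a projective variety. -/

namespace D4C.M56

open MvPolynomial

variable {κ σ τ : Type} [Field κ]

/-- projective space -/
abbrev PP (κ σ : Type) [Field κ] : Type := Projectivization κ (σ → κ)

theorem rep_uni (p : PP κ σ) : Uni p.rep := uni_iff_ne_zero.mpr p.rep_nonzero

theorem eq_mk_of_par {p : PP κ σ} {y : σ → κ} (h : Par p.rep y) (hy : y ≠ 0) :
    p = Projectivization.mk κ y hy := by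
  obtain ⟨c, hc⟩ := h.symm.exists_smul (uni_iff_ne_zero.mpr hy)
  conv_lhs => rw [← p.mk_rep]
  exact (Projectivization.mk_eq_mk_iff' κ _ _ _ _).mpr ⟨c, hc.symm⟩

theorem par_of_eq_mk {p : PP κ σ} {y : σ → κ} {hy : y ≠ 0} (h : p = Projectivization.mk κ y hy) :
    Par p.rep y := by
  obtain ⟨c, hc⟩ := Projectivization.exists_smul_eq_mk_rep κ y hy
  rw [h, ← hc]
  exact (par_smul (c : κ) y).symm

theorem eq_of_par {p q : PP κ σ} (h : Par p.rep q.rep) : p = q :=
  (eq_mk_of_par h q.rep_nonzero).trans q.mk_rep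

theorem smul_of_par {x y : σ → κ} (h : Par x y) (hx : x ≠ 0) (hy : y ≠ 0) :
    ∃ c : κ, c ≠ 0 ∧ y = c • x := by
  obtain ⟨c, hc⟩ := h.exists_smul (uni_iff_ne_zero.mpr hx)
  refine ⟨c, ?_, hc⟩
  rintro rfl
  exact hy (by rw [hc, zero_smul])

/-- closed subset of `X` -/
def Cl {X : Set (PP κ σ)} (S : Set X) : Prop := ZClosed (Subtype.val '' S)

/-- irreducible subset of `X` -/
def Ir {X : Set (PP κ σ)} (S : Set X) : Prop := ZIrred (Subtype.val '' S)

/-- codimension two for subsets of `X` -/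
def Cod {X : Set (PP κ σ)} (W T : Set X) : Prop :=
  ∀ V : Set X, Cl V → Ir V → V ⊆ W → ∃ V' : Set X, Cl V' ∧ Ir V' ∧ V ⊂ V' ∧ V' ⊂ T

theorem Cod.anti {X : Set (PP κ σ)} {W W' T : Set X} (h : Cod W T) (hW : W' ⊆ W) : Cod W' T :=
  fun V h1 h2 h3 => h V h1 h2 (h3.trans hW)

theorem cod_of {X W : Set (PP κ σ)} {T : Set X}
    (h : CodimTwo (W ∩ Subtype.val '' T) (Subtype.val '' T)) : Cod (Subtype.val ⁻¹' W ∩ T) T := by
  intro V h1 h2 h3
  obtain ⟨V0, c1, c2, c3, c4⟩ := h _ h1 h2 (by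
    rintro _ ⟨v, hv, rfl⟩
    exact ⟨(h3 hv).1, v, (h3 hv).2, rfl⟩)
  have e : Subtype.val '' (Subtype.val ⁻¹' V0 : Set X) = V0 := by
    apply Set.image_preimage_eq_of_subset
    intro v hv
    obtain ⟨t, _, rfl⟩ := c4.1 hv
    exact ⟨t, rfl⟩
  refine ⟨Subtype.val ⁻¹' V0, ?_, ?_, ?_, ?_⟩
  · unfold Cl; rw [e]; exact c1
  · unfold Ir; rw [e]; exact c2
  · rw [← e] at c3
    exact ⟨(Set.image_subset_image_iff Subtype.val_injective).mp c3.1,
      fun hh => c3.2 (Set.image_mono hh)⟩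
  · rw [← e] at c4
    exact ⟨(Set.image_subset_image_iff Subtype.val_injective).mp c4.1,
      fun hh => c4.2 (Set.image_mono hh)⟩

/-- a bijection preserving closed and irreducible subsets -/
structure Iso {X : Set (PP κ σ)} {Y : Set (PP κ τ)} (e : X ≃ Y) : Prop where
  cl : ∀ S, Cl S → Cl (e '' S)
  ir : ∀ S, Ir S → Ir (e '' S)
  cl' : ∀ S, Cl S → Cl (e.symm '' S)
  ir' : ∀ S, Ir S → Ir (e.symm '' S)

theorem Iso.symm {X : Set (PP κ σ)} {Y : Set (PP κ τ)} {e : X ≃ Y} (h : Iso e) : Iso e.symm :=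
  ⟨h.cl', h.ir', h.cl, h.ir⟩

theorem cl_image (hLP : St_LP) {X : Set (PP κ σ)} {Y : Set (PP κ τ)} (hY : ZClosed Y) (e : X ≃ Y)
    (h2 : LocPoly Y fun p => (e.symm p).1) (S : Set X) (hS : Cl S) : Cl (e '' S) := by
  have := (hLP κ τ σ Y _ h2).1 hY _ hS
  have e1 : ((fun p => (e.symm p).1) ⁻¹' (Subtype.val '' S) : Set Y) = e '' S := by
    ext y
    constructor
    · rintro ⟨s, hs, h⟩
      exact ⟨s, hs, by rw [Subtype.val_injective h]; simp⟩
    · rintro ⟨s, hs, rfl⟩
      exact ⟨s, hs, by simp⟩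
  rwa [e1] at this

theorem ir_image (hLP : St_LP) {X : Set (PP κ σ)} {Y : Set (PP κ τ)} (e : X ≃ Y)
    (h1 : LocPoly X fun p => (e p).1) (S : Set X) (hS : Ir S) : Ir (e '' S) := by
  have := (hLP κ σ τ X _ h1).2 S hS
  unfold Ir
  rwa [Set.image_image]

theorem iso_of (hLP : St_LP) {X : Set (PP κ σ)} {Y : Set (PP κ τ)} (hX : ZClosed X)
    (hY : ZClosed Y) (e : X ≃ Y) (h1 : LocPoly X fun p => (e p).1)
    (h2 : LocPoly Y fun p => (e.symm p).1) : Iso e :=
  ⟨cl_image hLP hY e h2, ir_image hLP e h1, cl_image hLP hX e.symm h1, ir_image hLP e.symm h2⟩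

theorem Iso.cod {X : Set (PP κ σ)} {Y : Set (PP κ τ)} {e : X ≃ Y} (h : Iso e) {W T : Set X}
    (hc : Cod W T) : Cod (e '' W) (e '' T) := by
  intro V h1 h2 h3
  obtain ⟨V', c1, c2, c3, c4⟩ := hc (e.symm '' V) (h.cl' V h1) (h.ir' V h2) (by
    rintro _ ⟨v, hv, rfl⟩
    obtain ⟨w, hw, rfl⟩ := h3 hv
    simpa using hw)
  refine ⟨e '' V', h.cl _ c1, h.ir _ c2, ⟨?_, fun hh => c3.2 ?_⟩, Set.image_mono c4.1,
    fun hh => c4.2 ((Set.image_subset_image_iff e.injective).mp hh)⟩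
  · intro v hv
    exact ⟨e.symm v, c3.1 ⟨v, hv, rfl⟩, by simp⟩
  · intro v hv
    exact ⟨e v, hh ⟨v, hv, rfl⟩, by simp⟩

theorem hom_subst {F : MvPolynomial (σ ⊕ σ) κ} {m n : ℕ}
    (hF : F.IsWeightedHomogeneous (bw σ) (m, n)) (x : σ → κ) :
    (aeval (Sum.elim (fun s => C (x s)) X : σ ⊕ σ → MvPolynomial σ κ) F).IsHomogeneous n := by
  classical
  have key : ∀ d : σ ⊕ σ →₀ ℕ, (d.prod fun s k =>
      ((Sum.elim (fun s => C (x s)) X : σ ⊕ σ → MvPolynomial σ κ) s) ^ k).IsHomogeneous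
        (Finsupp.weight (bw σ) d).2 := by
    intro d
    induction d using Finsupp.induction_linear with
    | zero => simpa using isHomogeneous_one σ κ
    | add f g hf hg =>
      rw [Finsupp.prod_add_index' (by simp) (by intros; rw [pow_add]), map_add]
      exact hf.mul hg
    | single s k =>
      rw [Finsupp.prod_single_index (by simp), Finsupp.weight_single]
      cases s with
      | inl s =>
        have := (isHomogeneous_C σ (x s)).pow k
        simpa [bw] using this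
      | inr s =>
        have := (isHomogeneous_X κ s).pow k
        simpa [bw] using this
  rw [F.as_sum, map_sum]
  refine IsHomogeneous.sum _ _ _ fun d hd => ?_
  rw [aeval_monomial]
  have h1 := key d
  rw [hF (mem_support_iff.mp hd)] at h1
  have h2 := (isHomogeneous_C σ (coeff d F)).mul h1
  rw [zero_add] at h2
  exact h2

theorem eval_subst (F : MvPolynomial (σ ⊕ σ) κ) (x y : σ → κ) :
    eval y (aeval (Sum.elim (fun s => C (x s)) X : σ ⊕ σ → MvPolynomial σ κ) F) =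
      eval (Sum.elim x y) F := by
  have h := aeval_map_alg (aeval y : MvPolynomial σ κ →ₐ[κ] κ)
    (Sum.elim (fun s => C (x s)) X : σ ⊕ σ → MvPolynomial σ κ) F
  rw [← coe_aeval_eq_eval, ← coe_aeval_eq_eval]
  refine h.symm.trans ?_
  have : (fun i => (aeval y : MvPolynomial σ κ →ₐ[κ] κ)
      ((Sum.elim (fun s => C (x s)) X : σ ⊕ σ → MvPolynomial σ κ) i)) = Sum.elim x y := by
    funext s
    cases s <;> simp
  rw [this]
  rfl

theorem lp_add (A : AbVar κ σ) (P : A.carrier) : LocPoly A.carrier fun a => (P + a).1 := by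
  intro a
  obtain ⟨m, n, S, h1, h2, h3⟩ := A.add_loc P a
  refine ⟨n, fun i => aeval (Sum.elim (fun s => C (P.1.rep s)) X) (S i),
    fun i => hom_subst (h1 i) _, ?_, ?_⟩
  · simpa only [eval_subst] using h2
  · intro a' h
    have h' : (fun i => eval (Sum.elim P.1.rep a'.1.rep) (S i)) ≠ 0 := by
      simpa only [eval_subst] using h
    rw [show (fun a : A.carrier => (P + a).1) a' = (P + a').1 from rfl, h3 P a' h']
    simp only [eval_subst]

theorem iso_add (hLP : St_LP) (A : AbVar κ σ) (P : A.carrier) : Iso (Equiv.addLeft P) :=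
  iso_of hLP A.closed A.closed _ (lp_add A P) (lp_add A (-P))

/-- the symmetric coordinates of a point -/
noncomputable def sg (A : AbVar κ σ) (p : A.carrier) : σ × σ → κ :=
  fun ij => p.1.rep ij.1 * (-p).1.rep ij.2

theorem sg_ne (A : AbVar κ σ) (p : A.carrier) : sg A p ≠ 0 := by
  obtain ⟨i, hi⟩ := Function.ne_iff.mp p.1.rep_nonzero
  obtain ⟨j, hj⟩ := Function.ne_iff.mp (-p).1.rep_nonzero
  exact Function.ne_iff.mpr ⟨(i, j), mul_ne_zero hi hj⟩

theorem iso_sym (hLP : St_LP) (A : AbVar κ σ) (A' : AbVar κ (σ × σ)) (e : A.carrier ≃ A'.carrier)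
    (he : ∀ p, Par (e p).1.rep (sg A p)) : Iso e := by
  refine iso_of hLP A.closed A'.closed e ?_ ?_
  · intro p
    obtain ⟨m, N, h1, h2, h3⟩ := A.neg_loc p
    refine ⟨1 + m, fun ij => X ij.1 * N ij.2, fun ij => (isHomogeneous_X κ _).mul (h1 _), ?_, ?_⟩
    · obtain ⟨i, hi⟩ := Function.ne_iff.mp p.1.rep_nonzero
      obtain ⟨j, hj⟩ := Function.ne_iff.mp h2
      refine Function.ne_iff.mpr ⟨(i, j), ?_⟩
      simp only [map_mul, eval_X]
      exact mul_ne_zero hi hj
    · intro p' h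
      have h' : (fun i => eval p'.1.rep (N i)) ≠ 0 := by
        intro h0
        apply h
        funext ij
        simp only [map_mul, eval_X]
        rw [congrFun h0 ij.2]
        simp
      obtain ⟨c, _, hc⟩ := smul_of_par (par_of_eq_mk (h3 p' h')) (-p').1.rep_nonzero h'
      refine eq_mk_of_par ((he p').trans (uni_iff_ne_zero.mpr (sg_ne A p')) ?_) h
      intro ij kl
      simp only [map_mul, eval_X, sg]
      rw [congrFun hc ij.2, congrFun hc kl.2]
      simp only [Pi.smul_apply, smul_eq_mul]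
      ring
  · intro z
    obtain ⟨p, rfl⟩ := e.surjective z
    obtain ⟨j, hj⟩ := Function.ne_iff.mp (-p).1.rep_nonzero
    refine ⟨1, fun i => X (i, j), fun i => isHomogeneous_X κ _, ?_, ?_⟩
    · obtain ⟨i, hi⟩ := Function.ne_iff.mp p.1.rep_nonzero
      obtain ⟨c, hc0, hc⟩ := smul_of_par (he p).symm (sg_ne A p) (e p).1.rep_nonzero
      refine Function.ne_iff.mpr ⟨i, ?_⟩
      simp only [eval_X]
      rw [hc]
      exact mul_ne_zero hc0 (mul_ne_zero hi hj)
    · intro z' h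
      obtain ⟨p', rfl⟩ := e.surjective z'
      obtain ⟨c, _, hc⟩ := smul_of_par (he p').symm (sg_ne A p') (e p').1.rep_nonzero
      simp only [Equiv.symm_apply_apply]
      refine eq_mk_of_par ?_ h
      intro i k
      simp only [eval_X]
      rw [hc]
      simp only [Pi.smul_apply, smul_eq_mul, sg]
      ring

theorem transl_eq (A : AbVar κ σ) (P : A.carrier) (B : AddSubgroup A.carrier) :
    A.transl P B = Subtype.val '' (Equiv.addLeft P '' (B : Set A.carrier)) := by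
  ext p
  constructor
  · rintro ⟨b, hb, rfl⟩
    exact ⟨_, ⟨b, hb, rfl⟩, rfl⟩
  · rintro ⟨_, ⟨b, hb, rfl⟩, rfl⟩
    exact ⟨b, hb, rfl⟩

theorem transl_zero (A : AbVar κ σ) (B : AddSubgroup A.carrier) :
    A.transl 0 B = Subtype.val '' (B : Set A.carrier) := by
  ext p
  constructor
  · rintro ⟨b, hb, rfl⟩
    exact ⟨b, hb, by rw [zero_add]⟩
  · rintro ⟨b, hb, rfl⟩
    exact ⟨b, hb, by rw [zero_add]⟩

end D4C.M56
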