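import Pool.Agent.Lib.D4C.M56A
import Pool.Agent.Lib.D4C.BlueU

/-! d4c56 final transfer, part B: ideals and subsets, the bound for a symmetric model. -/

set_option linter.unusedSectionVars false

namespace D4C.M56

open MvPolynomial

variable {κ σ : Type} [Field κ]

theorem ae (x : σ → κ) (F : MvPolynomial σ κ) : aeval x F = eval x F := by
  rw [← coe_aeval_eq_eval]; rfl

theorem mem_of_hom {J q : Ideal (MvPolynomial σ κ)} (hJ : IsHom J)
    (h : ∀ F ∈ J, ∀ n, F.IsHomogeneous n → F ∈ q) : J ≤ q := by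
  intro F hF
  rw [← sum_homogeneousComponent F]
  exact Ideal.sum_mem _ fun n _ => h _ (hJ F hF n) n (homogeneousComponent_isHomogeneous n F)

theorem zr_of_hom {J : Ideal (MvPolynomial σ κ)} (hJ : IsHom J) {x : σ → κ}
    (h : ∀ F ∈ J, ∀ n, F.IsHomogeneous n → eval x F = 0) : Zr J x := by
  have := mem_of_hom (q := RingHom.ker (eval x)) hJ h
  intro F hF
  rw [ae]
  exact this hF

theorem ns [IsAlgClosed κ] [Fintype σ] {q : Ideal (MvPolynomial σ κ)} (hq : q.IsPrime)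
    (hh : IsHom q) (hi : ∃ i, X i ∉ q) {F : MvPolynomial σ κ} {n : ℕ} (hF : F.IsHomogeneous n)
    (h : ∀ p : PP κ σ, Zr q p.rep → eval p.rep F = 0) : F ∈ q := by
  obtain ⟨i, hi⟩ := hi
  have h1 : X i * F ∈ vanishingIdeal κ (zeroLocus κ q) := by
    intro y hy
    rw [map_mul, aeval_X]
    by_cases h0 : y = 0
    · rw [h0]; simp
    · obtain ⟨c, hc⟩ := Projectivization.exists_smul_eq_mk_rep κ y h0
      have h2 := h (Projectivization.mk κ y h0) (by
        rw [← hc]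
        exact Zr.smul hh hy (c : κ))
      rw [← hc, ← ae, Units.smul_def, aeval_smul_hom hF] at h2
      rw [(mul_eq_zero.mp h2).resolve_left (pow_ne_zero _ c.ne_zero), mul_zero]
  rw [vanishingIdeal_zeroLocus_eq_radical, hq.radical] at h1
  exact (hq.mem_or_mem h1).resolve_left hi

theorem zclosed_zr {q : Ideal (MvPolynomial σ κ)} (hh : IsHom q) :
    ZClosed {p : PP κ σ | Zr q p.rep} := by
  refine ⟨{F | F ∈ q ∧ ∃ n, F.IsHomogeneous n}, fun F hF => hF.2, ?_⟩
  ext p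
  constructor
  · intro hp F hF
    rw [← ae]
    exact hp F hF.1
  · intro hp
    exact zr_of_hom hh fun F hF n hn => hp F ⟨hF, n, hn⟩

theorem zirred_zr [IsAlgClosed κ] [Fintype σ] {q : Ideal (MvPolynomial σ κ)} (hq : q.IsPrime)
    (hh : IsHom q) (hi : ∃ i, X i ∉ q) : ZIrred {p : PP κ σ | Zr q p.rep} := by
  constructor
  · by_contra hn
    apply hq.ne_top
    rw [Ideal.eq_top_iff_one]
    exact ns hq hh hi (isHomogeneous_one σ κ) fun p hp => (hn ⟨p, hp⟩).elim
  · intro F G d e hF hG h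
    rcases hq.mem_or_mem (ns hq hh hi (hF.mul hG) h) with h1 | h1
    · exact Or.inl fun p hp => by rw [← ae]; exact hp F h1
    · exact Or.inr fun p hp => by rw [← ae]; exact hp G h1

/-- the ideal of a set of projective points -/
noncomputable def vI (V : Set (PP κ σ)) : Ideal (MvPolynomial σ κ) :=
  Ideal.span {F | (∃ n, F.IsHomogeneous n) ∧ ∀ z ∈ V, eval z.rep F = 0}

theorem vI_zr {V : Set (PP κ σ)} {z : PP κ σ} (hz : z ∈ V) : Zr (vI V) z.rep := by
  have : vI V ≤ RingHom.ker (eval z.rep) := Ideal.span_le.mpr fun F hF => hF.2 z hz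
  intro F hF
  rw [ae]
  exact this hF

attribute [local instance] MvPolynomial.gradedAlgebra

theorem vI_hom' (V : Set (PP κ σ)) : (vI V).IsHomogeneous (homogeneousSubmodule σ κ) := by
  apply Ideal.homogeneous_span
  rintro F ⟨⟨n, hn⟩, _⟩
  exact ⟨n, hn⟩

theorem vI_prime {V : Set (PP κ σ)} (hV : ZIrred V) : (vI V).IsPrime := by
  refine (vI_hom' V).isPrime_of_homogeneous_mem_or_mem ?_ ?_
  · obtain ⟨z, hz⟩ := hV.1
    intro h
    have := vI_zr hz 1 (h ▸ Submodule.mem_top)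
    simp at this
  · rintro F G ⟨d, hd⟩ ⟨e, he⟩ h
    rcases hV.2 F G d e hd he (fun p hp => by rw [← ae]; exact vI_zr hp _ h) with h1 | h1
    · exact Or.inl (Ideal.subset_span ⟨⟨d, hd⟩, h1⟩)
    · exact Or.inr (Ideal.subset_span ⟨⟨e, he⟩, h1⟩)

theorem mem_of_vI {V : Set (PP κ σ)} (hV : ZClosed V) {z : PP κ σ} (hz : Zr (vI V) z.rep) :
    z ∈ V := by
  obtain ⟨T, hT, rfl⟩ := hV
  intro F hF
  rw [← ae]
  exact hz F (Ideal.subset_span ⟨hT F hF, fun p hp => hp F hF⟩)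

theorem cd_chain (hD : St_DIM) [IsAlgClosed κ] [Fintype σ] {J q : Ideal (MvPolynomial σ κ)}
    (hJ : J.IsPrime) (hJh : IsHom J) (hq : q.IsPrime) (hh : IsHom q) (hi : ∃ i, X i ∉ q)
    {V : Set (PP κ σ)} (c1 : ZClosed V) (c2 : ZIrred V) (c3 : {p : PP κ σ | Zr q p.rep} ⊂ V)
    (c4 : V ⊂ {p : PP κ σ | Zr J p.rep}) : cd q + 2 ≤ cd J := by
  have p1 := vI_prime c2
  have l1 : J < vI V := by
    refine lt_of_le_of_ne (mem_of_hom hJh fun F hF n hn => Ideal.subset_span
      ⟨⟨n, hn⟩, fun z hz => by rw [← ae]; exact c4.1 hz F hF⟩) fun h => c4.2 fun z hz => ?_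
    exact mem_of_vI c1 (h ▸ hz)
  have l2 : vI V < q := by
    refine lt_of_le_of_ne (Ideal.span_le.mpr ?_) fun h => c3.2 fun z hz => ?_
    · rintro F ⟨⟨n, hn⟩, hF⟩
      exact ns hq hh hi hn fun p hp => hF p (c3.1 hp)
    · have := vI_zr hz
      rwa [h] at this
  obtain ⟨⟨a, ha⟩, -, h1⟩ := hD κ σ J hJ
  obtain ⟨⟨b, hb⟩, -, h2⟩ := hD κ σ _ p1
  obtain ⟨⟨c, hc⟩, -, -⟩ := hD κ σ q hq
  have h3 := h1 _ p1 l1
  have h4 := h2 _ hq l2
  rw [ha, hb] at h3
  rw [hb, hc] at h4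
  rw [ha, hc]
  have h5 : b < a := by exact_mod_cast h3
  have h6 : c < b := by exact_mod_cast h4
  have h7 : c + 2 ≤ a := by omega
  exact_mod_cast h7

theorem ext_self (J : Ideal (MvPolynomial σ κ)) : ext J κ = J := by
  unfold ext
  have : (MvPolynomial.map (algebraMap κ κ) : MvPolynomial σ κ →+* MvPolynomial σ κ) =
      RingHom.id _ := RingHom.ext fun F => map_id F
  rw [this, Ideal.map_id]

section model

variable {L : Type} [Field L] [Algebra L κ] [Fintype σ] [DecidableEq σ] {A : AbVar κ σ}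
  {B : Pkg L σ} {E : A.carrier ≃+ B.Pt κ}

/-- zeros of an ideal on `A` -/
def Zs (A : AbVar κ σ) (q : Ideal (MvPolynomial σ κ)) : Set A.carrier := {z | Zr q z.1.rep}

theorem img_Zs (hE : ∀ z, B.Rep (E z) z.1.rep) {q : Ideal (MvPolynomial σ κ)}
    (hq : ext B.I κ ≤ q) : Subtype.val '' Zs A q = {p : PP κ σ | Zr q p.rep} := by
  ext p
  constructor
  · rintro ⟨z, hz, rfl⟩
    exact hz
  · intro hp
    have h1 : Zr B.I p.rep := zr_ext.mp fun F hF => hp F (hq hF)
    have h2 := Pkg.rep_pt p.rep (rep_uni p) h1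
    have h3 := hE (E.symm (B.pt p.rep (rep_uni p) h1))
    rw [E.apply_symm_apply] at h3
    have h4 := eq_of_par (h3.par h2)
    exact ⟨E.symm (B.pt p.rep (rep_uni p) h1), by unfold Zs; rw [Set.mem_ofPred_eq, h4]; exact hp, h4⟩

theorem zs_iff (hE : ∀ z, B.Rep (E z) z.1.rep) {q : Ideal (MvPolynomial σ κ)} (hh : IsHom q)
    {z : A.carrier} {y : σ → κ} (hy : B.Rep (E z) y) : z ∈ Zs A q ↔ Zr q y := by
  constructor
  · intro h
    obtain ⟨c, rfl⟩ := ((hE z).par hy).exists_smul (hE z).uni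
    exact Zr.smul hh h c
  · intro h
    obtain ⟨c, hc⟩ := (hy.par (hE z)).exists_smul hy.uni
    unfold Zs
    rw [Set.mem_ofPred_eq, hc]
    exact Zr.smul hh h c

/-- the subgroup cut out by the ideal of an abelian subvariety -/
def sbg (hE : ∀ z, B.Rep (E z) z.1.rep) {J : Ideal (MvPolynomial σ κ)} (hJ : (B.bc κ).IsSub J) :
    AddSubgroup A.carrier where
  carrier := Zs A J
  zero_mem' := (zs_iff hE hJ.hom (by rw [map_zero]; exact Pkg.rep_zero)).mpr hJ.o_mem
  add_mem' := by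
    intro z w hz hw
    obtain ⟨a, ha⟩ := (hE z).exists_add (hE w)
    rw [← map_add] at ha
    refine (zs_iff hE hJ.hom ha).mpr ?_
    have := hJ.add_mem κ _ _ hz hw a
    rwa [show (B.bc κ).A a = fun i => MvPolynomial.map (algebraMap L κ) (B.A a i) from rfl,
      ev2_ext] at this
  neg_mem' := by
    intro z hz
    have h1 := (hE z).neg
    rw [← map_neg] at h1
    exact (zs_iff hE hJ.hom h1).mpr (hJ.neg_mem κ _ hz)

theorem sub_prime {J : Ideal (MvPolynomial σ κ)} (hJ : (B.bc κ).IsSub J) : J.IsPrime := by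
  have := hJ.gprime κ
  rwa [ext_self] at this

theorem sub_irr {J : Ideal (MvPolynomial σ κ)} (hJ : (B.bc κ).IsSub J) : ∃ i, X i ∉ J := by
  obtain ⟨i, hi⟩ := Function.ne_iff.mp (B.bc κ).o_ne
  exact ⟨i, fun h => hi (by simpa using hJ.o_mem _ h)⟩

end model

/-- the bound for an abelian variety with a package model -/
theorem layer1 (hLP : St_LP) (hD : St_DIM) (hS : St_SHARP) (L κ σ : Type) [Field L]
    [NumberField L] [Field κ] [IsAlgClosed κ] [Algebra L κ] [Algebra.IsAlgebraic L κ] [Fintype σ]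
    [DecidableEq σ] (A : AbVar κ σ) (B : Pkg L σ) (E : A.carrier ≃+ B.Pt κ)
    (hE : ∀ z, B.Rep (E z) z.1.rep) (r e : ℕ) (f : Fin r → MvPolynomial σ L)
    (hf : ∀ i, (f i).IsHomogeneous e) (ε : ℝ) (hε : 0 < ε) :
    ∃ (C : ℝ) (BB : Set (AddSubgroup A.carrier)), BB.Finite ∧
      (∀ G ∈ BB, G ≠ ⊥ ∧ Cl (G : Set A.carrier) ∧ Ir (G : Set A.carrier)) ∧
      ∀ (P : A.carrier) (x : σ → L), x ≠ 0 → Par P.1.rep (fun i => algebraMap L κ (x i)) →
        (fun i => aeval x (f i)) ≠ 0 →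
        (∀ G ∈ BB, Cod ({z | ∀ i, aeval z.1.rep (f i) = 0} ∩ Equiv.addLeft P '' (G : Set A.carrier))
          (Equiv.addLeft P '' (G : Set A.carrier))) →
        (e - ε) * Height.logHeight x - C ≤ Height.logHeight fun i => aeval x (f i) := by
  obtain ⟨C, JJ, hfin, hJJ, hb⟩ := hS L κ σ B r e f hf ε hε
  have : Finite JJ := hfin
  refine ⟨C, Set.range fun J : JJ => sbg hE (hJJ J.1 J.2).1, Set.finite_range _, ?_, ?_⟩
  · rintro _ ⟨⟨J, hJ⟩, rfl⟩
    obtain ⟨hs, b, y, h1, h2, h3⟩ := hJJ J hJ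
    refine ⟨fun h => h3 ?_, ?_, ?_⟩
    · have h4 : E.symm b ∈ sbg hE hs :=
        (zs_iff hE hs.hom (by rw [E.apply_symm_apply]; exact h1)).mpr h2
      rw [show sbg hE hs = ⊥ from h, AddSubgroup.mem_bot] at h4
      simpa using h4
    · show ZClosed (Subtype.val '' Zs A J)
      rw [img_Zs hE hs.le]
      exact zclosed_zr hs.hom
    · show ZIrred (Subtype.val '' Zs A J)
      rw [img_Zs hE hs.le]
      exact zirred_zr (sub_prime hs) hs.hom (sub_irr hs)
  · intro P x hx hP hfx hc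
    have hu : Uni x := uni_iff_ne_zero.mpr hx
    have hr : B.Rep (E P) fun i => algebraMap L κ (x i) := (hE P).of_par (hu.map _) hP
    have hz : Zr B.I x := fun F hF => by
      apply (algebraMap L κ).injective
      have := aeval_map_alg (Algebra.ofId L κ) x F
      rw [map_zero]
      exact this.symm.trans (hr.zr F hF)
    have hp := Pkg.rep_pt x hu hz
    have hmap : B.map (Algebra.ofId L κ) (B.pt x hu hz) = E P :=
      (hp.map (Algebra.ofId L κ)).eq hr (Par.refl _)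
    rw [← hp.ht]
    refine hb _ x hp hfx fun J hJ q hq hh hle hi hz0 => ?_
    have hs := (hJJ J hJ).1
    have h1 := (iso_add hLP A P).symm.cod (hc _ ⟨⟨J, hJ⟩, rfl⟩)
    rw [Equiv.symm_image_image] at h1
    have hqI : ext B.I κ ≤ q := le_trans hs.le hle
    obtain ⟨V, c1, c2, c3, c4⟩ := h1 (Zs A q)
      (by unfold Cl; rw [img_Zs hE hqI]; exact zclosed_zr hh)
      (by unfold Ir; rw [img_Zs hE hqI]; exact zirred_zr hq hh hi)
      (fun z hzq => ⟨P + z, ⟨fun i => hz0 (E z) _ _ (hE z) hzq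
        (by rw [hmap, ← map_add]; exact hE _) i, z, fun F hF => hzq F (hle hF), rfl⟩, by simp⟩)
    refine cd_chain hD (sub_prime hs) hs.hom hq hh hi c1 c2 ?_ ?_
    · rw [← img_Zs hE hqI]
      exact ⟨Set.image_mono c3.1,
        fun hh => c3.2 ((Set.image_subset_image_iff Subtype.val_injective).mp hh)⟩
    · rw [← img_Zs hE hs.le]
      exact ⟨Set.image_mono c4.1,
        fun hh => c4.2 ((Set.image_subset_image_iff Subtype.val_injective).mp hh)⟩

end D4C.M56
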