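import Pool.Agent.Lib.D4C.T1a
import Pool.Agent.Lib.D4C.B_TAU
import Pool.Agent.Lib.D4C.B_DIM

/-! d4c56: points over power series rings. -/

set_option linter.unusedSectionVars false

namespace D4C.T1

open MvPolynomial T85

theorem tensor_inv {R ι : Type} [CommRing R] [Fintype ι] [DecidableEq ι] {n : ι → ℕ}
    (S : ∀ i, Matrix (Fin (n i)) (Fin (n i)) R) (hS : ∀ i, IsUnit (S i).det)
    (G : (∀ i, Fin (n i)) → R) (h : ∀ j : ∀ i, Fin (n i), ∑ l, (∏ i, S i (l i) (j i)) * G l = 0)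
    (l0 : ∀ i, Fin (n i)) : G l0 = 0 := by
  have h1 : ∑ j : ∀ i, Fin (n i), (∏ i, (S i)⁻¹ (j i) (l0 i)) *
      ∑ l, (∏ i, S i (l i) (j i)) * G l = 0 := by simp [h]
  have h2 : ∀ l : ∀ i, Fin (n i), ∑ j : ∀ i, Fin (n i), (∏ i, (S i)⁻¹ (j i) (l0 i)) *
      ((∏ i, S i (l i) (j i)) * G l) = (∏ i, (S i * (S i)⁻¹) (l i) (l0 i)) * G l := fun l => by
    simp only [Matrix.mul_apply]
    rw [Finset.prod_univ_sum, Fintype.piFinset_univ, Finset.sum_mul]
    refine Finset.sum_congr rfl fun j _ => ?_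
    rw [Finset.prod_mul_distrib]; ring
  simp only [Finset.mul_sum] at h1
  rw [Finset.sum_comm, Finset.sum_congr rfl fun l _ => h2 l, Finset.sum_eq_single l0] at h1
  · simpa [Matrix.mul_nonsing_inv _ (hS _)] using h1
  · intro l _ hl
    obtain ⟨i, hi⟩ := Function.ne_iff.1 hl
    rw [Finset.prod_eq_zero (Finset.mem_univ i), zero_mul]
    rw [Matrix.mul_nonsing_inv _ (hS _), Matrix.one_apply_ne hi]
  · simp

variable {L σ : Type} [Field L] [Fintype σ] [DecidableEq σ] {B : Pkg L σ} {g : ℕ}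
  {ρ F : Type} [Field F] [Algebra L F]

theorem cc_cst (p : B.Pt F) : B.map (ccA L) (cst B ρ p) = p := by
  unfold cst
  rw [Pkg.map_map]
  convert Pkg.map_id' p
  ext c
  simp [ccA_apply, MvPowerSeries.algebraMap_apply]

theorem rep_cst {p : B.Pt F} {z : σ → F} (h : B.Rep p z) :
    B.Rep (cst B ρ p) fun a => MvPowerSeries.C (z a) := h.map _

theorem cc_tau (C : Chart B g) {q : B.Pt (PS ρ F)} {a : Fin g → PS ρ F}
    (ha : ∀ b, MvPowerSeries.constantCoeff (a b) = 0) (hq : B.Rep q (tauV C a)) :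
    B.map (ccA L) q = 0 :=
  (hq.map (ccA L)).eq Pkg.rep_zero (by
    rw [show (fun i => ccA L (tauV C a i)) = _ from funext (tau1 C ha).2.1]; exact Par.refl _)

theorem exists_rep_cc {q : B.Pt (PS ρ F)} {z : σ → F} (h : B.Rep (B.map (ccA L) q) z) :
    ∃ y, B.Rep q y ∧ ∀ a, MvPowerSeries.constantCoeff (y a) = z a := by
  obtain ⟨y, hy⟩ := Pkg.exists_rep q
  have h1 := hy.map (ccA L)
  obtain ⟨c, hc⟩ := (h1.par h).exists_smul h1.uni
  have hu : IsUnit c := (hc ▸ h.uni : Uni (c • _)).isUnit_of_smul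
  refine ⟨(MvPowerSeries.C c : PS ρ F) • y, hy.smul (hu.map _), fun a => ?_⟩
  rw [hc]
  simp [ccA_apply]

/-- `q` reduces to the origin and its parameters have the linear part `M` -/
def Lg (C : Chart B g) (q : B.Pt (PS ρ F)) (M : Fin g → ρ → F) : Prop :=
  ∃ a : Fin g → PS ρ F, (∀ b, MvPowerSeries.constantCoeff (a b) = 0) ∧ B.Rep q (tauV C a) ∧
    ∀ b, lin (a b) = M b

theorem exists_lg (C : Chart B g) {q : B.Pt (PS ρ F)} (h : B.map (ccA L) q = 0) :
    ∃ M, Lg C q M := by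
  obtain ⟨y, hy⟩ := Pkg.exists_rep q
  obtain ⟨a, h1, h2, -⟩ := tau2 C hy ((hy.map (ccA L)).par (h ▸ Pkg.rep_zero))
  exact ⟨_, a, h1, h2, fun _ => rfl⟩

variable {C : Chart B g}

theorem Lg.cc {q : B.Pt (PS ρ F)} {M : Fin g → ρ → F} (h : Lg C q M) : B.map (ccA L) q = 0 := by
  obtain ⟨a, h1, h2, -⟩ := h
  exact cc_tau C h1 h2

theorem Lg.eq_add {q q' : B.Pt (PS ρ F)} {M M' M'' : Fin g → ρ → F} (h : Lg C q M)
    (h' : Lg C q' M') (h'' : Lg C (q + q') M'') : M'' = M + M' := by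
  obtain ⟨a, h1, h2, h3⟩ := h
  obtain ⟨a', h1', h2', h3'⟩ := h'
  obtain ⟨a'', h1'', h2'', h3''⟩ := h''
  funext b r
  rw [Pi.add_apply, Pi.add_apply, ← h3, ← h3', ← h3'']
  exact tau3 C h1 h1' h1'' h2 h2' h2'' b r

theorem Lg.add {q q' : B.Pt (PS ρ F)} {M M' : Fin g → ρ → F} (h : Lg C q M) (h' : Lg C q' M') :
    Lg C (q + q') (M + M') := by
  obtain ⟨M'', h''⟩ := exists_lg C (q := q + q') (by rw [map_add, h.cc, h'.cc, add_zero])
  exact h.eq_add h' h'' ▸ h''

theorem lg_zero : Lg C (0 : B.Pt (PS ρ F)) 0 := by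
  obtain ⟨M, h⟩ := exists_lg C (q := (0 : B.Pt (PS ρ F))) (map_zero _)
  have := h.eq_add h (by rwa [add_zero])
  rwa [left_eq_add.1 this] at h

theorem Lg.nsmul {q : B.Pt (PS ρ F)} {M : Fin g → ρ → F} (h : Lg C q M) (n : ℕ) :
    Lg C (n • q) (n • M) := by
  induction n with
  | zero => simpa using lg_zero
  | succ n ih => rw [succ_nsmul, succ_nsmul]; exact ih.add h

theorem Lg.sub {q q' : B.Pt (PS ρ F)} {M M' : Fin g → ρ → F} (h : Lg C q M) (h' : Lg C q' M') :
    Lg C (q - q') (M - M') := by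
  obtain ⟨M'', h''⟩ := exists_lg C (q := q - q') (by rw [map_sub, h.cc, h'.cc, sub_zero])
  have := h''.eq_add h' (by rwa [sub_add_cancel])
  rwa [this, add_sub_cancel_right]

variable {κ : Type} [Fintype κ] [DecidableEq κ]

/-- `St_GENK` for forms over the ground field -/
theorem genk (hG : St_GENK) (hg : B.IsDim g) (C : Chart B g) {p : κ → B.Pt F}
    {y : κ → σ → PS (κ × Fin g) F} (hy : ∀ i, RepAt C (p i) (fun b => MvPowerSeries.X (i, b)) (y i))
    {G : MvPolynomial (κ × σ) L} {δ : κ → ℕ} (h : MH δ G) (h0 : evB y G = 0) {R : Type}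
    [CommRing R] [Algebra L R] [Algebra F R] [IsScalarTower L F R] {x : κ → σ → R}
    (hx : ∀ i, Zr B.I (x i)) : evB x G = 0 :=
  (aeval_map_tower (L' := F) _ G).symm.trans (hG L σ B g hg C F κ p y hy _ δ
    (fun d hd => h d (support_map_subset _ _ hd)) ((aeval_map_tower _ G).trans h0) R x hx)

theorem mem_of_rep (hG : St_GENK) (hg : B.IsDim g) (C : Chart B g) {p : κ → B.Pt F}
    {y : κ → σ → PS (κ × Fin g) F} (hy : ∀ i, RepAt C (p i) (fun b => MvPowerSeries.X (i, b)) (y i))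
    {G : MvPolynomial σ L} {n : ℕ} (h : G.IsHomogeneous n) (i : κ) (h0 : aeval (y i) G = 0) :
    G ∈ B.I := by
  have e : ∀ H : MvPolynomial σ F, aeval (fun a => Ideal.Quotient.mkₐ F (ext B.I F) (X a)) H =
      Ideal.Quotient.mk _ H := fun H => by
    rw [aeval_map_alg, aeval_X_left_apply]; rfl
  have := genk hG hg C hy (mh_rename h i) ((evB_rename y i G).trans h0)
    (x := fun _ a => Ideal.Quotient.mkₐ F (ext B.I F) (X a)) fun _ =>
      zr_ext.1 fun H hH => (e H).trans (Ideal.Quotient.eq_zero_iff_mem.2 hH)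
  rw [evB_rename, ← aeval_map_tower (L' := F), e] at this
  exact T51.map_mem_ext_iff.1 (Ideal.Quotient.eq_zero_iff_mem.1 this)

/-- a form that vanishes at points with independent linear parts vanishes on the product -/
theorem van_of_lg (hG : St_GENK) (hg : B.IsDim g) (C : Chart B g) {p : κ → B.Pt F}
    {q : κ → B.Pt (PS (κ × Fin g) F)} {M : κ → Fin g → κ × Fin g → F} (hq : ∀ i, Lg C (q i) (M i))
    (hM : LinearIndependent F fun x : κ × Fin g => M x.1 x.2) {w : κ → σ → PS (κ × Fin g) F}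
    (hw : ∀ i, B.Rep (cst B _ (p i) + q i) (w i)) {G : MvPolynomial (κ × σ) L} {δ : κ → ℕ}
    (h : MH δ G) (h0 : evB w G = 0) {R : Type} [CommRing R] [Algebra L R] [Algebra F R]
    [IsScalarTower L F R] {x : κ → σ → R} (hx : ∀ i, Zr B.I (x i)) : evB x G = 0 := by
  choose a h1 h2 h3 using hq
  choose τ hτ using fun i => (tau1 C (a := fun b => (MvPowerSeries.X (i, b) : PS (κ × Fin g) F))
    fun b => by simp).1
  choose y hy using fun i => Pkg.exists_rep (cst B _ (p i) + τ i)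
  have ha : MvPowerSeries.HasSubst fun x : κ × Fin g => a x.1 x.2 :=
    MvPowerSeries.hasSubst_of_constantCoeff_zero fun x => h1 _ _
  let Φ : PS (κ × Fin g) F →ₐ[L] PS (κ × Fin g) F :=
    (MvPowerSeries.substAlgHom (R := F) ha).restrictScalars L
  have e1 : ∀ i, B.map Φ (cst B _ (p i) + τ i) = cst B _ (p i) + q i := fun i => by
    rw [map_add]
    congr 1
    · unfold cst
      rw [Pkg.map_map]
      congr 2
      refine AlgHom.ext fun c => ?_
      exact (MvPowerSeries.substAlgHom (R := F) ha).commutes c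
    · refine ((hτ i).map Φ).eq (h2 i) ?_
      have : (fun s => Φ (tauV C (fun b => MvPowerSeries.X (i, b)) s)) = tauV C (a i) := by
        funext s
        show MvPowerSeries.substAlgHom (R := F) ha _ = _
        unfold tauV
        rw [MvPowerSeries.substAlgHom_apply, MvPowerSeries.subst_comp_subst_apply (hs_blk i) ha]
        simp only [MvPowerSeries.subst_X ha]
      rw [this]
      exact Par.refl _
  choose cu hcu using fun i => (((hw i).par (e1 i ▸ (hy i).map Φ))).exists_smul (hw i).uni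
  refine genk hG hg C (fun i => ⟨τ i, hτ i, hy i⟩) h ?_ hx
  refine st_SINJ _ _ F _ (fun x => h1 _ _) (by simpa only [h3] using hM) _ ?_
  rw [← MvPowerSeries.substAlgHom_apply ha]
  show Φ _ = 0
  rw [← evB_map, funext hcu, evB_smul h, h0, mul_zero]

end D4C.T1
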