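import Mathlib

/-! Linear algebra with absolute values: bounded elimination and a small orthogonal vector. -/

namespace D4C.T25

open Finset Module

variable {K σ : Type} [Field K] [Fintype σ] [DecidableEq σ]

/-- elimination along a subspace with bounded growth -/
theorem pivot (v : AbsoluteValue K ℝ) (k : ℕ) : ∀ T : Submodule K (σ → K), finrank K T = k →
    ∃ (π : (σ → K) →ₗ[K] (σ → K)) (S : Finset σ), S.card = k ∧ (∀ z, z - π z ∈ T) ∧
      (∀ z, ∀ j ∈ S, π z j = 0) ∧ (∀ t ∈ T, (∀ j ∈ S, t j = 0) → t = 0) ∧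
      ∀ (z : σ → K) (B : ℝ), (∀ i, v (z i) ≤ B) → ∀ i, v (π z i) ≤ 2 ^ k * B := by
  induction k with
  | zero =>
    intro T hT
    obtain rfl : T = ⊥ := Submodule.finrank_eq_zero.1 hT
    exact ⟨LinearMap.id, ∅, rfl, by simp, by simp, fun t ht _ => by simpa using ht,
      fun z B h i => by simpa using h i⟩
  | succ k ih =>
    intro T hT
    have hne : T ≠ ⊥ := by
      rintro rfl
      simp at hT
    obtain ⟨t, ht, t0⟩ := Submodule.exists_mem_ne_zero_of_ne_bot hne
    obtain ⟨i0, hi0⟩ := Function.ne_iff.1 t0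
    obtain ⟨j, -, hj⟩ := exists_max_image univ (fun i => v (t i)) ⟨i0, mem_univ _⟩
    have hvj : 0 < v (t j) := (v.pos hi0).trans_le (hj i0 (mem_univ _))
    have tj : t j ≠ 0 := v.pos_iff.1 hvj
    let π1 : (σ → K) →ₗ[K] (σ → K) :=
      LinearMap.id - ((t j)⁻¹ • LinearMap.proj j : (σ → K) →ₗ[K] K).smulRight t
    have e1 : ∀ z, π1 z = z - ((t j)⁻¹ * z j) • t := fun z => rfl
    have e2 : ∀ z, π1 z j = 0 := fun z => by
      rw [e1]
      simp only [Pi.sub_apply, Pi.smul_apply, smul_eq_mul]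
      field_simp
      ring
    let T' : Submodule K (σ → K) := T ⊓ LinearMap.ker (LinearMap.proj j)
    have hsup : T' ⊔ Submodule.span K {t} = T := by
      refine le_antisymm (sup_le inf_le_left ((Submodule.span_singleton_le_iff_mem _ _).2 ht))
        fun z hz => ?_
      have : z = π1 z + ((t j)⁻¹ * z j) • t := by rw [e1, sub_add_cancel]
      rw [this]
      refine Submodule.add_mem_sup ⟨?_, e2 z⟩ (Submodule.smul_mem _ _
        (Submodule.mem_span_singleton_self t))
      rw [e1]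
      exact T.sub_mem hz (T.smul_mem _ ht)
    have hinf : T' ⊓ Submodule.span K {t} = ⊥ := by
      rw [eq_bot_iff]
      rintro z ⟨⟨-, h1⟩, h2⟩
      obtain ⟨a, rfl⟩ := Submodule.mem_span_singleton.1 h2
      have : a * t j = 0 := h1
      rw [(mul_eq_zero.1 this).resolve_right tj, zero_smul]
      exact Submodule.zero_mem _
    have hr := Submodule.finrank_sup_add_finrank_inf_eq T' (Submodule.span K {t})
    rw [hsup, hinf, finrank_bot, finrank_span_singleton t0, hT] at hr
    obtain ⟨π, S, s1, s2, s3, s4, s5⟩ := ih T' (by omega)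
    have e3 : ∀ z, π z j = z j := fun z => by
      have : z j - π z j = 0 := (s2 z).2
      exact (sub_eq_zero.1 this).symm
    have hjS : j ∉ S := fun h => tj (by rw [← e3 t, s3 t j h])
    refine ⟨π ∘ₗ π1, insert j S, by rw [card_insert_of_notMem hjS, s1], fun z => ?_,
      fun z i hi => ?_, fun u hu h => ?_, fun z B h i => ?_⟩
    · have : z - (π ∘ₗ π1) z = ((t j)⁻¹ * z j) • t + (π1 z - π (π1 z)) := by
        rw [LinearMap.comp_apply, e1]
        abel
      rw [this]
      exact T.add_mem (T.smul_mem _ ht) (s2 _).1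
    · rcases mem_insert.1 hi with rfl | hi
      · rw [LinearMap.comp_apply, e3, e2]
      · exact s3 _ i hi
    · exact s4 u ⟨hu, h j (mem_insert_self _ _)⟩ fun i hi => h i (mem_insert_of_mem hi)
    · refine (s5 (π1 z) (2 * B) (fun a => ?_) i).trans (le_of_eq (by ring))
      rw [e1]
      simp only [Pi.sub_apply, Pi.smul_apply, smul_eq_mul]
      refine (v.sub_le_add _ _).trans ?_
      have h1 : v ((t j)⁻¹ * z j * t a) ≤ v (z j) := by
        rw [map_mul, map_mul, map_inv₀, mul_right_comm]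
        refine mul_le_of_le_one_left (v.nonneg _) ?_
        rw [inv_mul_le_iff₀ hvj, mul_one]
        exact hj a (mem_univ _)
      linarith [h a, h j]

/-- a vector of determinants orthogonal to a set that does not span -/
theorem orth (Z : Set (σ → K)) (hZ : Submodule.span K Z ≠ ⊤) :
    ∃ l : σ → K, l ≠ 0 ∧ (∀ z ∈ Z, ∑ a, l a * z a = 0) ∧
      ∀ a, ∃ M : Matrix σ σ K, l a = M.det ∧ ∀ i, M i ∈ Z ∨ ∃ b, M i = Pi.single b 1 := by
  classical
  have hex : ∃ n, ∃ M : Matrix σ σ K, M.det ≠ 0 ∧ (∀ i, M i ∈ Z ∨ ∃ b, M i = Pi.single b 1) ∧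
      (univ.filter fun i => M i ∉ Z).card = n :=
    ⟨_, 1, by simp, fun i => Or.inr ⟨i, by
      ext j
      simp [Matrix.one_apply, Pi.single_apply, eq_comm]⟩, rfl⟩
  obtain ⟨M, m1, m2, m3⟩ := Nat.find_spec hex
  obtain ⟨j, hj⟩ : ∃ j, M j ∉ Z := by
    by_contra hall
    push Not at hall
    refine hZ (eq_top_iff.2 fun x _ => ?_)
    obtain ⟨c, rfl⟩ := Matrix.vecMul_surjective_iff_isUnit.2
      ((Matrix.isUnit_iff_isUnit_det M).2 (isUnit_iff_ne_zero.2 m1)) x
    show M.vecMul c ∈ _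
    rw [Matrix.vecMul_eq_sum]
    exact Submodule.sum_mem _ fun i _ => Submodule.smul_mem _ _ (Submodule.subset_span (hall i))
  have lin : ∀ x : σ → K,
      ∑ a, (M.updateRow j (Pi.single a 1)).det * x a = (M.updateRow j x).det := by
    intro x
    simp only [← Matrix.cramer_transpose_apply]
    conv_rhs => rw [pi_eq_sum_univ' x, map_sum]
    simp [mul_comm]
  have hrow : ∀ x, (x ∈ Z ∨ ∃ b, x = Pi.single b 1) → ∀ i, M.updateRow j x i ∈ Z ∨
      ∃ b, M.updateRow j x i = Pi.single b 1 := by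
    intro x hx i
    by_cases e : i = j
    · rw [e, Matrix.updateRow_self]
      exact hx
    · rw [Matrix.updateRow_ne e]
      exact m2 i
  refine ⟨fun a => (M.updateRow j (Pi.single a 1)).det, fun e => m1 ?_, fun z hz => ?_,
    fun a => ⟨_, rfl, hrow _ (Or.inr ⟨a, rfl⟩)⟩⟩
  · have := lin (M j)
    rw [Matrix.updateRow_eq_self] at this
    rw [← this]
    exact sum_eq_zero fun a _ => by rw [show _ = (0 : K) from congrFun e a, zero_mul]
  · rw [lin]
    by_contra hd
    refine Nat.find_min hex (m := (univ.filter fun i => M.updateRow j z i ∉ Z).card) ?_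
      ⟨_, hd, hrow z (Or.inl hz), rfl⟩
    rw [← m3]
    refine card_lt_card ⟨fun i hi => ?_, fun h => ?_⟩
    · have h1 := (mem_filter.1 hi).2
      refine mem_filter.2 ⟨mem_univ _, ?_⟩
      by_cases e : i = j
      · rw [e]
        exact hj
      · rwa [Matrix.updateRow_ne e] at h1
    · have := (mem_filter.1 (h (mem_filter.2 ⟨mem_univ j, hj⟩))).2
      rw [Matrix.updateRow_self] at this
      exact this hz

open NumberField

variable {L : Type} [Field L] [NumberField L]

theorem fin_le_one (v : FinitePlace L) {x : L} (hx : IsIntegral ℤ x) : v x ≤ 1 := by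
  rw [← FinitePlace.norm_embedding_eq]
  exact FinitePlace.norm_le_one L v.maximalIdeal (⟨x, hx⟩ : 𝓞 L)

omit [DecidableEq σ] in
theorem height_int {l : σ → L} (h0 : l ≠ 0) (hi : ∀ a, IsIntegral ℤ (l a)) {B : ℝ}
    (hB : ∀ (w : InfinitePlace L) a, w (l a) ≤ B) :
    Height.logHeight l ≤ finrank ℚ L * Real.log B := by
  obtain ⟨a0, -⟩ := Function.ne_iff.1 h0
  have : Nonempty σ := ⟨a0⟩
  rw [Height.logHeight_eq_log_mulHeight, ← Real.log_pow]
  refine Real.log_le_log (Height.mulHeight_pos l) ?_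
  have h1 : ∏ v : InfinitePlace L, (⨆ i, v (l i)) ^ v.mult ≤ B ^ finrank ℚ L := by
    rw [← InfinitePlace.sum_mult_eq, ← prod_pow_eq_pow_sum]
    exact prod_le_prod (fun v _ => pow_nonneg (Real.iSup_nonneg fun _ => apply_nonneg _ _) _)
      fun v _ => pow_le_pow_left₀ (Real.iSup_nonneg fun _ => apply_nonneg _ _)
        (ciSup_le (hB v)) _
  have h2 : 0 ≤ (∏ᶠ v : FinitePlace L, ⨆ i, v (l i)) ∧ ∏ᶠ v : FinitePlace L, ⨆ i, v (l i) ≤ 1 :=
    finprod_induction (fun x : ℝ => 0 ≤ x ∧ x ≤ 1) ⟨zero_le_one, le_rfl⟩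
      (fun x y hx hy => ⟨mul_nonneg hx.1 hy.1, mul_le_one₀ hx.2 hy.1 hy.2⟩)
      fun v => ⟨Real.iSup_nonneg fun _ => apply_nonneg _ _, ciSup_le fun a => fin_le_one v (hi a)⟩
  rw [NumberField.mulHeight_eq h0]
  exact (mul_le_of_le_one_right (prod_nonneg fun v _ =>
    pow_nonneg (Real.iSup_nonneg fun _ => apply_nonneg _ _) _) h2.2).trans h1

/-- a small vector orthogonal to a set of small integral vectors -/
theorem small_orth (Z : Set (σ → L)) (hZ : Submodule.span L Z ≠ ⊤) {B : ℝ} (h1 : 1 ≤ B)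
    (hi : ∀ z ∈ Z, ∀ a, IsIntegral ℤ (z a))
    (hB : ∀ z ∈ Z, ∀ (w : InfinitePlace L) a, w (z a) ≤ B) :
    ∃ l : σ → L, l ≠ 0 ∧ (∀ z ∈ Submodule.span L Z, ∑ a, l a * z a = 0) ∧
      Height.logHeight l
        ≤ finrank ℚ L * Real.log ((Fintype.card σ).factorial * B ^ Fintype.card σ) := by
  obtain ⟨l, l0, l1, l2⟩ := orth Z hZ
  refine ⟨l, l0, fun z hz => ?_, height_int l0 (fun a => ?_) fun w a => ?_⟩
  · induction hz using Submodule.span_induction with
    | mem x hx => exact l1 x hx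
    | zero => simp
    | add x y _ _ hx hy => simp only [Pi.add_apply, mul_add, sum_add_distrib, hx, hy, add_zero]
    | smul c x _ hx =>
      simp only [Pi.smul_apply, smul_eq_mul, mul_left_comm _ c, ← mul_sum, hx, mul_zero]
  · obtain ⟨M, e, hM⟩ := l2 a
    rw [e]
    refine IsIntegral.det fun i j => ?_
    rcases hM i with h | ⟨b, h⟩
    · exact hi _ h j
    · rw [h, Pi.single_apply]
      split_ifs
      · exact isIntegral_one
      · exact isIntegral_zero
  · obtain ⟨M, e, hM⟩ := l2 a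
    rw [e, ← nsmul_eq_mul]
    refine Matrix.det_le (abv := w.1) fun i j => ?_
    rcases hM i with h | ⟨b, h⟩
    · exact hB _ h w j
    · rw [h, Pi.single_apply]
      split_ifs
      · rw [map_one]
        exact h1
      · rw [map_zero]
        linarith

end D4C.T25
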