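import Pool.Agent.Lib.D4C.T25A

/-! An integral vector that is small modulo a subspace of large height. -/

namespace D4C.T25

open Finset Module NumberField

variable {σ : Type} [Fintype σ] [DecidableEq σ] {L : Type} [Field L] [NumberField L]

theorem box (L : Type) [Field L] [NumberField L] : ∃ c0 : ℕ, 1 ≤ c0 ∧ ∀ R : ℕ, ∃ E : Finset L,
    E.card = R ^ finrank ℚ L ∧
      ∀ x ∈ E, IsIntegral ℤ x ∧ ∀ w : InfinitePlace L, w x ≤ c0 * R := by
  classical
  let b := integralBasis L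
  refine ⟨⌈∑ w : InfinitePlace L, ∑ k, w (b k)⌉₊ + 1, by omega, fun R =>
    ⟨(Fintype.piFinset fun _ => range R).image fun n => b.equivFun.symm fun k => (n k : ℚ),
      ?_, fun x hx => ?_⟩⟩
  · rw [card_image_of_injective, Fintype.card_piFinset, prod_const, card_range, card_univ,
      finrank_eq_card_basis b]
    intro n m h
    funext k
    exact_mod_cast congrFun (b.equivFun.symm.injective h) k
  · obtain ⟨n, hn, rfl⟩ := mem_image.1 hx
    rw [Basis.equivFun_symm_apply]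
    simp only [Nat.cast_smul_eq_nsmul]
    refine ⟨IsIntegral.sum _ fun k _ => IsIntegral.nsmul ?_ _, fun w => ?_⟩
    · rw [integralBasis_apply]
      exact RingOfIntegers.isIntegral_coe _
    · refine (w.1.sum_le _ _).trans ?_
      have h1 : ∀ k, w.1 (n k • b k) ≤ w (b k) * R := fun k => by
        rw [nsmul_eq_mul, map_mul, mul_comm]
        refine mul_le_mul_of_nonneg_left ((w.1.apply_nat_le_self _).trans ?_) (w.1.nonneg _)
        exact_mod_cast (mem_range.1 (Fintype.mem_piFinset.1 hn k)).le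
      refine (sum_le_sum fun k _ => h1 k).trans ?_
      rw [← sum_mul]
      refine mul_le_mul_of_nonneg_right ?_ (Nat.cast_nonneg R)
      refine (single_le_sum (f := fun w : InfinitePlace L => ∑ k, w (b k))
        (fun w _ => sum_nonneg fun k _ => apply_nonneg _ _) (mem_univ w)).trans
        ((Nat.le_ceil _).trans ?_)
      push_cast
      linarith

/-- one real coordinate for each complex embedding -/
noncomputable def rho (φ : L →+* ℂ) (y : L) : ℝ := (φ y).re + (φ y).im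

omit [NumberField L] in
theorem rho_le (φ : L →+* ℂ) (y : L) : |rho φ y| ≤ 2 * InfinitePlace.mk φ y := by
  have h1 := Complex.abs_re_le_norm (φ y)
  have h2 := Complex.abs_im_le_norm (φ y)
  rw [InfinitePlace.apply]
  exact (abs_add_le _ _).trans (by linarith)

omit [NumberField L] in
theorem le_of_rho (φ : L →+* ℂ) (x y : L) {M : ℝ} (hM : 0 ≤ M)
    (h1 : |M * rho φ x - M * rho φ y| < 1)
    (h2 : |M * rho (ComplexEmbedding.conjugate φ) x
      - M * rho (ComplexEmbedding.conjugate φ) y| < 1) :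
    M * InfinitePlace.mk φ (x - y) ≤ 1 := by
  rw [InfinitePlace.apply]
  refine (mul_le_mul_of_nonneg_left (Complex.norm_le_abs_re_add_abs_im _) hM).trans ?_
  simp only [rho, ComplexEmbedding.conjugate_coe_eq, Complex.conj_re, Complex.conj_im] at h1 h2
  rw [abs_lt] at h1 h2
  rw [map_sub, Complex.sub_re, Complex.sub_im]
  rcases abs_cases ((φ x).re - (φ y).re) with ⟨e, -⟩ | ⟨e, -⟩ <;>
    rcases abs_cases ((φ x).im - (φ y).im) with ⟨e', -⟩ | ⟨e', -⟩ <;> rw [e, e'] <;>
    linarith [h1.1, h1.2, h2.1, h2.2]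

theorem cell_count {c k k' g R M c0 : ℕ} (hc : c + k = g) (hk : k' < k) (hM : 1 ≤ M)
    (hR : ((4 * 2 ^ g * c0 + 1) * M) ^ g < R) :
    (2 * (M * (2 * (2 ^ g * (c0 * R)))) + 1) ^ c * R ^ k' < R ^ g := by
  have h0 : 0 < R := lt_of_le_of_lt (Nat.zero_le _) hR
  have h1 : 2 * (M * (2 * (2 ^ g * (c0 * R)))) + 1 ≤ (4 * 2 ^ g * c0 + 1) * M * R := by
    have := Nat.mul_pos hM h0
    nlinarith
  have h2 : ((4 * 2 ^ g * c0 + 1) * M) ^ c < R :=
    lt_of_le_of_lt (Nat.pow_le_pow_right (Nat.mul_pos (Nat.succ_pos _) hM) (by omega)) hR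
  calc _ ≤ ((4 * 2 ^ g * c0 + 1) * M * R) ^ c * R ^ k' :=
        Nat.mul_le_mul_right _ (Nat.pow_le_pow_left h1 _)
    _ = ((4 * 2 ^ g * c0 + 1) * M) ^ c * R ^ (c + k') := by rw [mul_pow, pow_add, mul_assoc]
    _ < R * R ^ (c + k') := Nat.mul_lt_mul_of_pos_right h2 (pow_pos h0 _)
    _ ≤ R ^ g := by
        rw [← pow_succ']
        exact Nat.pow_le_pow_right h0 (by omega)

theorem dirichlet (T : Submodule L (σ → L)) {M R c0 : ℕ} (hM : 1 ≤ M)
    (hR : ((4 * 2 ^ Fintype.card σ * c0 + 1) * M) ^ Fintype.card σ < R) {E : Finset L}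
    (hE : E.card = R ^ finrank ℚ L) (hb : ∀ x ∈ E, ∀ w : InfinitePlace L, w x ≤ c0 * R)
    (hT : Submodule.span L {z | z ∈ T ∧ ∃ x y : σ → L, (∀ a, x a ∈ E ∧ y a ∈ E) ∧ z = x - y}
      ≠ T) :
    ∃ x y : σ → L, (∀ a, x a ∈ E ∧ y a ∈ E) ∧ x - y ∉ T ∧
      ∀ w : InfinitePlace L, ∃ z' : σ → L, x - y - z' ∈ T ∧ ∀ a, M * w (z' a) ≤ 1 := by
  classical
  set T' := Submodule.span L
    {z | z ∈ T ∧ ∃ x y : σ → L, (∀ a, x a ∈ E ∧ y a ∈ E) ∧ z = x - y} with hT'
  have hlt : finrank L T' < finrank L T := Submodule.finrank_lt_finrank_of_lt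
    (lt_of_le_of_ne (Submodule.span_le.2 fun z hz => hz.1) hT)
  have hk : finrank L T ≤ Fintype.card σ := by simpa using T.finrank_le
  choose π S s1 s2 s3 s4 s5 using fun w : InfinitePlace L => pivot w.1 _ T rfl
  obtain ⟨-, S', r1, -, -, r4, -⟩ := pivot (AbsoluteValue.trivial : AbsoluteValue L ℝ) _ T' rfl
  set N : ℕ := M * (2 * (2 ^ Fintype.card σ * (c0 * R))) with hN
  obtain ⟨cl, -, hcl⟩ := exists_lt_card_fiber_of_mul_lt_card_of_maps_to
    (s := Fintype.piFinset fun _ : σ => E)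
    (t := Fintype.piFinset fun φ : L →+* ℂ => Fintype.piFinset fun a : σ =>
      if a ∈ S (InfinitePlace.mk φ) then ({0} : Finset ℤ) else Icc (-(N : ℤ)) N)
    (f := fun x φ a => ⌊(M : ℝ) * rho φ (π (InfinitePlace.mk φ) x a)⌋)
    (n := (R ^ finrank L T') ^ finrank ℚ L) (fun x hx => by
      refine Fintype.mem_piFinset.2 fun φ => Fintype.mem_piFinset.2 fun a => ?_
      split_ifs with h
      · simp [s3 _ x a h, rho]
      · have h1 := s5 (InfinitePlace.mk φ) x (c0 * R)
          (fun i => hb _ (Fintype.mem_piFinset.1 hx i) _) a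
        have h2 : (2 : ℝ) ^ finrank L T * (c0 * R) ≤ 2 ^ Fintype.card σ * (c0 * R) :=
          mul_le_mul_of_nonneg_right (pow_le_pow_right₀ one_le_two hk) (by positivity)
        have h3 : |(M : ℝ) * rho φ (π (InfinitePlace.mk φ) x a)| ≤ N := by
          rw [abs_mul, Nat.abs_cast, hN]
          push_cast
          exact mul_le_mul_of_nonneg_left ((rho_le _ _).trans
            (mul_le_mul_of_nonneg_left (h1.trans h2) zero_le_two)) (Nat.cast_nonneg M)
        rw [abs_le] at h3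
        refine mem_Icc.2 ⟨Int.le_floor.2 (by exact_mod_cast h3.1), ?_⟩
        exact_mod_cast (Int.floor_le _).trans h3.2) (by
      have h1 : ∀ φ : L →+* ℂ, (Fintype.piFinset fun a : σ =>
          if a ∈ S (InfinitePlace.mk φ) then ({0} : Finset ℤ) else Icc (-(N : ℤ)) N).card
          = (2 * N + 1) ^ (Fintype.card σ - finrank L T) := by
        intro φ
        have : (Icc (-(N : ℤ)) N).card = 2 * N + 1 := by
          rw [Int.card_Icc]
          omega
        simp only [Fintype.card_piFinset, apply_ite Finset.card, card_singleton, this]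
        rw [prod_ite, prod_const_one, one_mul, prod_const, ← s1 (InfinitePlace.mk φ),
          ← card_compl]
        congr 2
        ext a
        simp
      rw [Fintype.card_piFinset, Fintype.card_piFinset, prod_congr rfl fun φ _ => h1 φ,
        prod_const, prod_const, card_univ, card_univ, Embeddings.card, hE, ← mul_pow,
        pow_right_comm]
      exact Nat.pow_lt_pow_left (cell_count (by omega) hlt hM hR) finrank_pos.ne')
  obtain ⟨y, hy⟩ := card_pos.1 (lt_of_le_of_lt (Nat.zero_le _) hcl)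
  obtain ⟨x, hx, hxy⟩ : ∃ x ∈ (Fintype.piFinset fun _ : σ => E).filter fun x =>
      (fun φ a => ⌊(M : ℝ) * rho φ (π (InfinitePlace.mk φ) x a)⌋) = cl, x - y ∉ T := by
    by_contra hall
    push Not at hall
    refine absurd hcl (not_lt.2 (le_trans (card_le_card_of_injOn (fun x (j : S') => x j)
      (t := Fintype.piFinset fun _ => E) (fun x hx => ?_) fun x hx x' hx' e => ?_) ?_))
    · exact mem_coe.2 (Fintype.mem_piFinset.2 fun j =>
        Fintype.mem_piFinset.1 (mem_filter.1 (mem_coe.1 hx)).1 _)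
    · refine sub_eq_zero.1 (r4 _ (Submodule.subset_span ⟨?_, x, x', fun a =>
        ⟨Fintype.mem_piFinset.1 (mem_filter.1 (mem_coe.1 hx)).1 _,
          Fintype.mem_piFinset.1 (mem_filter.1 (mem_coe.1 hx')).1 _⟩, rfl⟩)
        fun j hj => sub_eq_zero.2 (congrFun e ⟨j, hj⟩))
      have := T.sub_mem (hall x hx) (hall x' hx')
      rwa [sub_sub_sub_cancel_right] at this
    · rw [Fintype.card_piFinset, prod_const, card_univ, Fintype.card_coe, r1, hE, pow_right_comm]
  obtain ⟨x1, x2⟩ := mem_filter.1 hx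
  obtain ⟨y1, y2⟩ := mem_filter.1 hy
  refine ⟨x, y, fun a => ⟨Fintype.mem_piFinset.1 x1 a, Fintype.mem_piFinset.1 y1 a⟩, hxy,
    fun w => ⟨π w (x - y), s2 w _, fun a => ?_⟩⟩
  have h1 := fun φ => Int.abs_sub_lt_one_of_floor_eq_floor
    (congrFun (congrFun (x2.trans y2.symm) φ) a)
  have h2 := le_of_rho w.embedding (π w x a) (π w y a) (Nat.cast_nonneg M)
    (by simpa only [InfinitePlace.mk_embedding] using h1 w.embedding)
    (by simpa only [InfinitePlace.mk_conjugate_eq, InfinitePlace.mk_embedding]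
      using h1 (ComplexEmbedding.conjugate w.embedding))
  rw [InfinitePlace.mk_embedding] at h2
  rwa [map_sub]

theorem small_of (T : Submodule L (σ → L)) (hT : T ≠ ⊤) {M c0 : ℕ} (hM : 1 ≤ M) (hc : 1 ≤ c0)
    (hE : ∀ R : ℕ, ∃ E : Finset L, E.card = R ^ finrank ℚ L ∧
      ∀ x ∈ E, IsIntegral ℤ x ∧ ∀ w : InfinitePlace L, w x ≤ c0 * R)
    (hl : ∀ l : σ → L, l ≠ 0 → (∀ t ∈ T, ∑ a, l a * t a = 0) →
      finrank ℚ L * Real.log (((Fintype.card σ).factorial *
        (4 * c0 * (4 * 2 ^ Fintype.card σ * c0 + 1) ^ Fintype.card σ) ^ Fintype.card σ : ℕ) *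
          (M : ℝ) ^ (Fintype.card σ * Fintype.card σ + 1)) < Height.logHeight l) :
    ∃ z : σ → L, (∀ a, IsIntegral ℤ (z a)) ∧ z ∉ T ∧
      ∀ w : InfinitePlace L, ∃ z' : σ → L, z - z' ∈ T ∧ ∀ a, M * w (z' a) ≤ 1 := by
  set g := Fintype.card σ with hg
  set Q := ((4 * 2 ^ g * c0 + 1) * M) ^ g with hQ
  have hQ0 : 0 < Q := pow_pos (Nat.mul_pos (Nat.succ_pos _) hM) _
  obtain ⟨E, e1, e2⟩ := hE (Q + 1)
  obtain ⟨x, y, h1, h2, h3⟩ := dirichlet T hM (Nat.lt_succ_self Q) e1 (fun x hx => (e2 x hx).2)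
    fun hsp => by
      have hB : 1 ≤ 2 * (c0 * (Q + 1)) := by nlinarith
      obtain ⟨l, l0, l1, l2⟩ := small_orth (B := ((2 * (c0 * (Q + 1)) : ℕ) : ℝ))
        {z | z ∈ T ∧ ∃ x y : σ → L, (∀ a, x a ∈ E ∧ y a ∈ E) ∧ z = x - y} (by rwa [hsp])
        (by exact_mod_cast hB)
        (by
          rintro _ ⟨-, x, y, h, rfl⟩ a
          exact (e2 _ (h a).1).1.sub (e2 _ (h a).2).1)
        (by
          rintro _ ⟨-, x, y, h, rfl⟩ w a
          refine (w.1.sub_le_add _ _).trans ?_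
          have a1 : w.1 (x a) ≤ _ := (e2 _ (h a).1).2 w
          have a2 : w.1 (y a) ≤ _ := (e2 _ (h a).2).2 w
          push_cast at a1 a2 ⊢
          linarith)
      rw [hsp] at l1
      refine absurd (hl l l0 l1) (not_lt.2 (l2.trans (mul_le_mul_of_nonneg_left
        (Real.log_le_log (by positivity) ?_) (Nat.cast_nonneg _))))
      have a1 : 2 * (c0 * (Q + 1)) ≤ 4 * c0 * (4 * 2 ^ g * c0 + 1) ^ g * M ^ g := by
        rw [mul_assoc (4 * c0), ← mul_pow, ← hQ]
        nlinarith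
      have a2 : g.factorial * (2 * (c0 * (Q + 1))) ^ g
          ≤ g.factorial * (4 * c0 * (4 * 2 ^ g * c0 + 1) ^ g) ^ g * M ^ (g * g + 1) := by
        rw [mul_assoc g.factorial]
        refine Nat.mul_le_mul_left _ ((Nat.pow_le_pow_left a1 g).trans ?_)
        rw [mul_pow _ (M ^ g), ← pow_mul]
        exact Nat.mul_le_mul_left _ (Nat.pow_le_pow_right hM (Nat.le_succ _))
      exact_mod_cast a2
  exact ⟨x - y, fun a => (e2 _ (h1 a).1).1.sub (e2 _ (h1 a).2).1, h2, h3⟩

/-- the small vector -/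
theorem small_vec (L : Type) [Field L] [NumberField L] (σ : Type) [Fintype σ] [DecidableEq σ] :
    ∃ c C : ℝ, 0 < c ∧ 0 ≤ C ∧ ∀ μ : ℝ, ∃ M : ℕ, 1 ≤ M ∧
      c * μ - C ≤ finrank ℚ L * Real.log M ∧ ∀ T : Submodule L (σ → L), T ≠ ⊤ →
      (∀ l : σ → L, l ≠ 0 → (∀ t ∈ T, ∑ a, l a * t a = 0) → μ ≤ Height.logHeight l) →
      ∃ z : σ → L, (∀ a, IsIntegral ℤ (z a)) ∧ z ∉ T ∧
        ∀ w : InfinitePlace L, ∃ z' : σ → L, z - z' ∈ T ∧ ∀ a, M * w (z' a) ≤ 1 := by
  obtain ⟨c0, hc, hE⟩ := box L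
  set c2 : ℕ := (Fintype.card σ).factorial *
    (4 * c0 * (4 * 2 ^ Fintype.card σ * c0 + 1) ^ Fintype.card σ) ^ Fintype.card σ with hc2
  have h2 : (1 : ℝ) ≤ c2 := by
    have : 0 < c2 := by positivity
    exact_mod_cast this
  set n : ℕ := Fintype.card σ * Fintype.card σ + 1 with hn
  have hn0 : (0 : ℝ) < n := by positivity
  have hd : (0 : ℝ) < finrank ℚ L := by exact_mod_cast finrank_pos
  have hl2 := Real.log_nonneg h2
  have hl3 : 0 ≤ Real.log 2 := Real.log_nonneg one_le_two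
  refine ⟨1 / n, finrank ℚ L * ((Real.log c2 + 1) / n + Real.log 2), by positivity,
    by positivity, fun μ => ?_⟩
  obtain ⟨u, hu⟩ : ∃ u : ℝ, μ = finrank ℚ L * (n * u + Real.log c2 + 1) :=
    ⟨(μ / finrank ℚ L - Real.log c2 - 1) / n, by field_simp; ring⟩
  have e : 1 / n * μ - finrank ℚ L * ((Real.log c2 + 1) / n + Real.log 2)
      = finrank ℚ L * (u - Real.log 2) := by
    rw [hu]
    field_simp
    ring
  rw [e]
  rcases lt_or_ge u 0 with h | h
  · refine ⟨1, le_rfl, mul_le_mul_of_nonneg_left (by simp only [Nat.cast_one, Real.log_one]; linarith)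
      hd.le, fun T hT _ => ?_⟩
    obtain ⟨j, hj⟩ : ∃ j, (Pi.single j 1 : σ → L) ∉ T := by
      by_contra hall
      push Not at hall
      refine hT (eq_top_iff.2 fun x _ => ?_)
      rw [pi_eq_sum_univ' x]
      exact T.sum_mem fun j _ => T.smul_mem _ (hall j)
    refine ⟨Pi.single j 1, fun a => ?_, hj, fun w => ⟨Pi.single j 1, by simp, fun a => ?_⟩⟩
    · rw [Pi.single_apply]
      split_ifs
      · exact isIntegral_one
      · exact isIntegral_zero
    · rw [Pi.single_apply]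
      split_ifs <;> simp
  · have h1 : 1 ≤ ⌊Real.exp u⌋₊ := Nat.le_floor (by simpa using h)
    have h3 : (1 : ℝ) ≤ ⌊Real.exp u⌋₊ := by exact_mod_cast h1
    refine ⟨⌊Real.exp u⌋₊, h1, mul_le_mul_of_nonneg_left ?_ hd.le, fun T hT hl =>
      small_of T hT h1 hc hE fun l l0 l1 => lt_of_lt_of_le ?_ (hl l l0 l1)⟩
    · rw [sub_le_iff_le_add, ← Real.log_mul (by positivity) two_ne_zero,
        Real.le_log_iff_exp_le (by positivity)]
      linarith [Nat.lt_floor_add_one (Real.exp u)]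
    · rw [hu, Real.log_mul (by positivity) (by positivity), Real.log_pow]
      refine mul_lt_mul_of_pos_left ?_ hd
      have h4 : Real.log ⌊Real.exp u⌋₊ ≤ u :=
        (Real.log_le_iff_le_exp (by positivity)).2 (Nat.floor_le (Real.exp_pos u).le)
      have := mul_le_mul_of_nonneg_left h4 hn0.le
      linarith

end D4C.T25
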