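import Pool.Agent.Lib.D4C.BlueA

/-! numerical lemmas for step A -/

namespace D4C.T78
open MvPolynomial Finset

theorem num1 {c0 H C1 C5 a3 a4 b' ε X w hx hQ HH : ℝ} (hc0 : 0 < c0) (hC1 : 1 ≤ C1) (hC5 : 0 ≤ C5)
    (ha3 : 0 ≤ a3) (ha4 : 0 ≤ a4) (hb : 1 ≤ b') (hε : 0 ≤ ε) (hX : 0 < X) (hw : 0 < w) (hH : 0 < H)
    (hgen : c0 * hx ≤ hQ) (hwH : w * H ≤ C1 * hx) (hHH : HH ≤ (a3 + a4 * ε * H) * X)
    (hQ0 : 0 ≤ hQ) (h : hQ * (b' * X) ≤ C5 * w * (HH + b' * X))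
    (h1 : C1 * C5 * a4 * ε ≤ c0 / 4) (h2 : C1 * C5 * (a3 + b') ≤ c0 * H / 4) : False := by
  have e1 : hQ * X ≤ C5 * w * (a3 + b' + a4 * ε * H) * X := by
    have : hQ * X ≤ hQ * (b' * X) := by
      apply mul_le_mul_of_nonneg_left _ hQ0; nlinarith
    have h3 : C5 * w * (HH + b' * X) ≤ C5 * w * ((a3 + a4 * ε * H) * X + b' * X) :=
      mul_le_mul_of_nonneg_left (by linarith) (by positivity)
    nlinarith
  have e2 : hQ ≤ C5 * w * (a3 + b' + a4 * ε * H) := le_of_mul_le_mul_right e1 hX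
  have e3 : c0 * (w * H) ≤ C1 * (C5 * w * (a3 + b' + a4 * ε * H)) := by
    calc c0 * (w * H) ≤ c0 * (C1 * hx) := mul_le_mul_of_nonneg_left hwH hc0.le
      _ = C1 * (c0 * hx) := by ring
      _ ≤ _ := mul_le_mul_of_nonneg_left (hgen.trans e2) (by linarith)
  have e4 : w * (c0 * H) ≤ w * (C1 * C5 * (a3 + b') + C1 * C5 * a4 * ε * H) := by nlinarith
  have e5 := le_of_mul_le_mul_left e4 hw
  have e6 : C1 * C5 * a4 * ε * H ≤ c0 / 4 * H := mul_le_mul_of_nonneg_right h1 hH.le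
  nlinarith [mul_pos hc0 hH]

theorem num2 {Γ H ν0 ν S0 s T s' b' hΨ K0 G a5 a6 ε C3 C6 h0 : ℝ} (hΓ : 0 < Γ) (hH : 0 < H)
    (hS0 : 1 ≤ S0) (hs : 1 ≤ s) (hT : 1 ≤ T) (hs' : 0 ≤ s') (hb : 0 ≤ b') (hG : 0 ≤ G)
    (ha5 : 0 ≤ a5) (ha6 : 0 ≤ a6) (hε : 0 ≤ ε) (hC3 : 0 ≤ C3) (hC6 : 0 ≤ C6) (hh0 : 0 ≤ h0)
    (hν0 : s * S0 ≤ ν0) (hν : ν ≤ ν0 + s' * (b' * (T * S0) + ν0))
    (htop : Γ * H * ν0 ≤ hΨ + C6 * (h0 * H * (ν - ν0) + ν))
    (hupp : hΨ ≤ 2 * G * (S0 * H) + K0 + (a5 + a6 * ε * H) * (T * S0) + C3 * ν)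
    (c1 : 2 * G ≤ Γ / 8 * s) (c2 : C6 * h0 * (s' * (b' * T + 1)) ≤ Γ / 8)
    (c3 : s' * (b' * T + 1) ≤ 1) (c4 : a6 * ε * T ≤ Γ / 8)
    (c5 : a5 * T + 2 * (C3 + C6) ≤ Γ / 8 * H) (c6 : K0 ≤ Γ / 8 * H * S0) : False := by
  have hS : S0 ≤ ν0 := by nlinarith
  have hν0p : 0 < ν0 := by linarith
  have e1 : ν - ν0 ≤ s' * (b' * T + 1) * ν0 := by
    have : b' * (T * S0) ≤ b' * T * ν0 := by
      rw [← mul_assoc]; exact mul_le_mul_of_nonneg_left hS (by positivity)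
    nlinarith
  have e2 : ν ≤ 2 * ν0 := by nlinarith
  have t1 : 2 * G * (S0 * H) ≤ Γ / 8 * H * ν0 := by
    calc 2 * G * (S0 * H) ≤ Γ / 8 * s * (S0 * H) :=
          mul_le_mul_of_nonneg_right c1 (by positivity)
      _ = Γ / 8 * H * (s * S0) := by ring
      _ ≤ _ := mul_le_mul_of_nonneg_left hν0 (by positivity)
  have t2 : K0 ≤ Γ / 8 * H * ν0 := c6.trans (mul_le_mul_of_nonneg_left hS (by positivity))
  have t3 : a6 * ε * H * (T * S0) ≤ Γ / 8 * H * ν0 := by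
    calc a6 * ε * H * (T * S0) = a6 * ε * T * (H * S0) := by ring
      _ ≤ Γ / 8 * (H * S0) := mul_le_mul_of_nonneg_right c4 (by positivity)
      _ = Γ / 8 * H * S0 := by ring
      _ ≤ _ := mul_le_mul_of_nonneg_left hS (by positivity)
  have t4 : a5 * (T * S0) + (C3 + C6) * ν ≤ Γ / 8 * H * ν0 := by
    have u1 : a5 * (T * S0) ≤ a5 * T * ν0 := by
      rw [← mul_assoc]; exact mul_le_mul_of_nonneg_left hS (by positivity)
    have u2 : (C3 + C6) * ν ≤ (C3 + C6) * (2 * ν0) := mul_le_mul_of_nonneg_left e2 (by positivity)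
    have u3 := mul_le_mul_of_nonneg_right c5 hν0p.le
    nlinarith
  have t5 : C6 * (h0 * H * (ν - ν0)) ≤ Γ / 8 * H * ν0 := by
    calc C6 * (h0 * H * (ν - ν0)) ≤ C6 * (h0 * H * (s' * (b' * T + 1) * ν0)) := by
          apply mul_le_mul_of_nonneg_left _ hC6
          exact mul_le_mul_of_nonneg_left e1 (by positivity)
      _ = C6 * h0 * (s' * (b' * T + 1)) * (H * ν0) := by ring
      _ ≤ Γ / 8 * (H * ν0) := mul_le_mul_of_nonneg_right c2 (by positivity)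
      _ = _ := by ring
  have : 0 < Γ / 8 * H * ν0 := by positivity
  nlinarith

/-- a small positive number -/
theorem exists_small (a b : ℝ) (ha : 0 ≤ a) (hb : 0 < b) : ∃ e : ℝ, 0 < e ∧ e ≤ 1 ∧ a * e ≤ b := by
  refine ⟨min 1 (b / (a + 1)), lt_min one_pos (by positivity), min_le_left _ _, ?_⟩
  calc a * min 1 (b / (a + 1)) ≤ (a + 1) * (b / (a + 1)) :=
        mul_le_mul (by linarith) (min_le_right _ _) (le_min zero_le_one (by positivity))
          (by linarith)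
    _ = b := by field_simp

variable {L σ : Type} [Field L] [Fintype σ] [DecidableEq σ] {B : Pkg L σ} {g : ℕ}

theorem dg_pos (C : Chart B g) (hg : 0 < g) : 1 ≤ C.dg := by
  by_contra h
  have h0 : C.dg = 0 := by omega
  have hn := C.num_hom ⟨0, hg⟩
  have hd := C.den_hom
  rw [h0] at hn hd
  obtain ⟨a, ha⟩ : ∃ a, C.num ⟨0, hg⟩ = MvPolynomial.C a :=
    ⟨_, totalDegree_eq_zero_iff_eq_C.mp (by simpa using hn.totalDegree_le)⟩
  obtain ⟨b, hb⟩ : ∃ b, C.den = MvPolynomial.C b :=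
    ⟨_, totalDegree_eq_zero_iff_eq_C.mp (by simpa using hd.totalDegree_le)⟩
  have h1 := C.coord ⟨0, hg⟩
  have h2 := C.den_o
  rw [ha, hb] at h1
  rw [hb] at h2
  simp only [aeval_C] at h1 h2
  have h3 := congrArg (MvPowerSeries.coeff (Finsupp.single (⟨0, hg⟩ : Fin g) 1)) h1
  rw [mul_comm, ← Algebra.smul_def, map_smul, MvPowerSeries.coeff_index_single_self_X] at h3
  rw [MvPowerSeries.algebraMap_apply, MvPowerSeries.coeff_C, if_neg (by simp)] at h3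
  apply h2
  simpa using h3.symm

theorem nn_le (C : Chart B g) (k T d : ℕ) (hT : 1 ≤ T) (i : Fin (k + 1)) :
    nn C k T d i ≤ C.dg * g * (1 + k * B.β + B.β) * (T * d) := by
  unfold nn
  have : d ≤ T * d := Nat.le_mul_of_pos_left d hT
  split_ifs
  · have h1 : C.dg * (g * d) ≤ C.dg * (g * (T * d)) := by gcongr
    nlinarith [Nat.zero_le (C.dg * g * B.β * (T * d))]
  · nlinarith [Nat.zero_le (C.dg * g * (T * d)), Nat.zero_le (C.dg * g * (k * B.β) * (T * d))]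

theorem nn_pos (C : Chart B g) (hg : 0 < g) (k T d : ℕ) (hT : 1 ≤ T) (hd : 1 ≤ d)
    (i : Fin (k + 1)) : 1 ≤ nn C k T d i := by
  have h1 := dg_pos C hg
  have h2 := B.β_pos
  unfold nn
  split_ifs
  · have : 0 < C.dg * (g * d) := by positivity
    omega
  · have : 0 < B.β * (C.dg * (g * (T * d))) := by positivity
    omega

theorem dvd_nn (C : Chart B g) (k T d N : ℕ) (h : N ∣ d) (i : Fin (k + 1)) : N ∣ nn C k T d i := by
  unfold nn
  split_ifs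
  · exact dvd_add ((h.mul_left _).mul_left _)
      ((((((h.mul_left _).mul_left _).mul_left _).mul_left _)).mul_left _)
  · exact ((((h.mul_left _).mul_left _).mul_left _).mul_left _)

theorem sum_nn (C : Chart B g) (k T d : ℕ) (u : Fin (k + 1) → ℝ) :
    ∑ i, (nn C k T d i : ℝ) * u i = (C.dg * g * d : ℝ) * u 0 +
      ∑ i ∈ univ.erase 0, ((C.dg * (g * (T * d)) : ℕ) : ℝ) * (B.β * u i + B.β * u 0) := by
  rw [← add_sum_erase univ _ (mem_univ (0 : Fin (k + 1)))]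
  have h1 : ∑ i ∈ univ.erase (0 : Fin (k + 1)), (nn C k T d i : ℝ) * u i =
      ∑ i ∈ univ.erase (0 : Fin (k + 1)), ((C.dg * (g * (T * d)) : ℕ) : ℝ) * (B.β * u i) :=
    sum_congr rfl fun i hi => by
      simp only [nn, if_neg (ne_of_mem_erase hi)]; push_cast; ring
  simp only [mul_add, sum_add_distrib, h1, sum_const, card_erase_of_mem (mem_univ _), card_univ,
    Fintype.card_fin, Nat.add_sub_cancel, nsmul_eq_mul]
  simp only [nn, if_true]; push_cast; ring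

theorem wt_comb {κ α β : Type} (w : κ → ℕ) (q : κ × α →₀ ℕ) (J : κ × β →₀ ℕ) :
    wt w (comb q J) = wt w q + wt w J := by
  unfold wt comb
  rw [map_add]
  congr 1 <;>
  · simp only [Finsupp.weight_apply]
    rw [Finsupp.sum_mapDomain_index (by simp) (by intros; simp [add_mul])]

theorem exists_good {k : ℕ} (κ : Fin (k + 1) → ℕ) (x : Fin (k + 1) → B.Pt L) :
    ∃ Λ, GoodL B κ x Λ := by
  choose u hu using fun i => Pkg.exists_rep (2 ^ κ i • x i)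
  choose Λ hΛ using fun i => (hu i).exists_add (hu 0).neg
  refine ⟨Λ, fun u' hu' i => ?_⟩
  obtain ⟨c, hc⟩ := ((hu i).par (hu' i)).exists_smul (hu i).uni
  obtain ⟨c0, hc0⟩ := ((hu 0).neg.par (hu' 0).neg).exists_smul (hu 0).neg.uni
  have h1 : IsUnit c := Uni.isUnit_of_smul (hc ▸ (hu' i).uni)
  have h2 : IsUnit c0 := Uni.isUnit_of_smul (hc0 ▸ (hu' 0).neg.uni)
  rw [hc0, hc, B.ev2_smul]
  exact uni_iff_ne_zero.mp ((hΛ i).uni.smul ((h1.pow _).mul (h2.pow _)))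

end D4C.T78
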