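import Pool.Agent.Lib.D4C.B_LAW

/-! Majorants of power series and a Hensel root with bounded coefficients. -/

namespace D4C.T83

open MvPowerSeries

/-- majorant at radius `r` -/
def Mj {ρ R : Type} [CommRing R] (N : R → ℝ) (r : ℝ) (f : MvPowerSeries ρ R) (a : ℝ) : Prop :=
  ∀ s : Finset (ρ →₀ ℕ), ∑ d ∈ s, N (coeff d f) * r ^ d.degree ≤ a

section gen
variable {ρ R : Type} [CommRing R] {N : R → ℝ} {r : ℝ} {f g : MvPowerSeries ρ R} {a b : ℝ}

theorem Mj.nonneg (h : Mj N r f a) : 0 ≤ a := by simpa using h ∅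

theorem Mj.mono (h : Mj N r f a) (k : a ≤ b) : Mj N r f b := fun s => (h s).trans k

theorem Mj.coeff_le (h : Mj N r f a) (d : ρ →₀ ℕ) : N (coeff d f) * r ^ d.degree ≤ a := by
  simpa using h {d}

theorem Mj.add (hr : 0 ≤ r) (ha : ∀ x y, N (x + y) ≤ N x + N y) (h : Mj N r f a)
    (k : Mj N r g b) : Mj N r (f + g) (a + b) := fun s => by
  refine le_trans ?_ (add_le_add (h s) (k s))
  rw [← Finset.sum_add_distrib]
  refine Finset.sum_le_sum fun d _ => ?_
  rw [map_add, ← add_mul]
  exact mul_le_mul_of_nonneg_right (ha _ _) (pow_nonneg hr _)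

theorem Mj.mul (hr : 0 ≤ r) (h0 : ∀ x, 0 ≤ N x) (hz : N 0 = 0)
    (ha : ∀ x y, N (x + y) ≤ N x + N y) (hm : ∀ x y, N (x * y) ≤ N x * N y) (h : Mj N r f a)
    (k : Mj N r g b) : Mj N r (f * g) (a * b) := fun s => by
  classical
  let T := s.biUnion fun d : ρ →₀ ℕ => Finset.HasAntidiagonal.antidiagonal d
  let F : (ρ →₀ ℕ) × (ρ →₀ ℕ) → ℝ := fun p =>
    N (coeff p.1 f) * r ^ p.1.degree * (N (coeff p.2 g) * r ^ p.2.degree)
  have F0 : ∀ p, 0 ≤ F p := fun p => by have := h0 (coeff p.1 f); have := h0 (coeff p.2 g); positivity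
  calc ∑ d ∈ s, N (coeff d (f * g)) * r ^ d.degree
      ≤ ∑ d ∈ s, ∑ p ∈ Finset.HasAntidiagonal.antidiagonal d, F p := by
        refine Finset.sum_le_sum fun d _ => ?_
        rw [coeff_mul]
        refine (mul_le_mul_of_nonneg_right (Finset.le_sum_of_subadditive N hz.le ha _ _)
          (pow_nonneg hr _)).trans ?_
        rw [Finset.sum_mul]
        refine Finset.sum_le_sum fun p hp => ?_
        rw [← Finset.HasAntidiagonal.mem_antidiagonal.1 hp, map_add, pow_add]
        exact (mul_le_mul_of_nonneg_right (hm _ _) (by positivity)).trans_eq (by simp only [F]; ring)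
    _ = ∑ p ∈ T, F p := (Finset.sum_biUnion fun d _ e _ hde => Finset.disjoint_left.2
        fun p h1 h2 => hde ((Finset.HasAntidiagonal.mem_antidiagonal.1 h1).symm.trans
          (Finset.HasAntidiagonal.mem_antidiagonal.1 h2))).symm
    _ ≤ ∑ p ∈ T.image Prod.fst ×ˢ T.image Prod.snd, F p :=
        Finset.sum_le_sum_of_subset_of_nonneg Finset.subset_product fun p _ _ => F0 p
    _ ≤ a * b := by
        simp only [Finset.sum_product, F]
        rw [← Finset.sum_mul_sum]
        exact mul_le_mul (h _) (k _) (Finset.sum_nonneg fun d _ =>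
          mul_nonneg (h0 _) (pow_nonneg hr _)) h.nonneg

theorem mj_monomial (hr : 0 ≤ r) (h0 : ∀ x, 0 ≤ N x) (hz : N 0 = 0) (e : ρ →₀ ℕ) (x : R) :
    Mj N r (monomial e x) (N x * r ^ e.degree) := fun s => by
  classical
  refine le_trans (Finset.sum_le_sum (g := fun d => if d = e then N x * r ^ e.degree else 0)
    fun d _ => ?_) ?_
  · rw [coeff_monomial]
    split_ifs with h <;> simp [h, hz]
  · rw [Finset.sum_ite_eq']
    split_ifs
    · rfl
    · exact mul_nonneg (h0 _) (pow_nonneg hr _)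

end gen

variable {ρ L : Type} [Field L] {v : AbsoluteValue L ℝ} {r : ℝ}

theorem mj_sum {ι : Type} (hr : 0 ≤ r) (s : Finset ι) {f : ι → MvPowerSeries ρ L} {a : ι → ℝ}
    (h : ∀ i ∈ s, Mj v r (f i) (a i)) : Mj v r (∑ i ∈ s, f i) (∑ i ∈ s, a i) := by
  classical
  induction s using Finset.induction_on with
  | empty => intro s; simp
  | insert i s hi ih =>
    rw [Finset.sum_insert hi, Finset.sum_insert hi]
    exact (h i (by simp)).add hr v.add_le (ih fun j hj => h j (by simp [hj]))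

theorem Mj.vmul (hr : 0 ≤ r) {f g : MvPowerSeries ρ L} {a b : ℝ} (h : Mj v r f a)
    (k : Mj v r g b) : Mj v r (f * g) (a * b) :=
  h.mul hr v.nonneg v.map_zero v.add_le (fun x y => (v.map_mul x y).le) k

theorem Mj.pow (hr : 0 ≤ r) {f : MvPowerSeries ρ L} {a : ℝ} (h : Mj v r f a) :
    ∀ n : ℕ, Mj v r (f ^ n) (a ^ n)
  | 0 => by simpa using mj_monomial (ρ := ρ) hr v.nonneg v.map_zero 0 (1 : L)
  | n + 1 => by rw [pow_succ, pow_succ]; exact (h.pow hr n).vmul hr h

theorem aeval_X_eq (p : MvPolynomial ρ L) :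
    MvPolynomial.aeval (X : ρ → MvPowerSeries ρ L) p = (p : MvPowerSeries ρ L) := by
  have : MvPolynomial.aeval (X : ρ → MvPowerSeries ρ L) =
      MvPolynomial.coeToMvPowerSeries.algHom (R := L) L := by
    ext1 i
    simp
  rw [this]
  simp

/-- majorant of a polynomial whose monomials have degree at least `k` -/
theorem mj_poly (hr : 0 ≤ r) (h1 : r ≤ 1) {A : Finset L} {p : MvPolynomial ρ L} (k : ℕ)
    (hA : p.coeffs ⊆ A) (hk : ∀ d ∈ p.support, k ≤ d.degree) :
    Mj v r (MvPolynomial.aeval (X : ρ → MvPowerSeries ρ L) p) (p.support.card * hv v A * r ^ k) := by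
  rw [aeval_X_eq]
  have e : (p : MvPowerSeries ρ L) = ∑ d ∈ p.support, monomial d (p.coeff d) := by
    conv_lhs => rw [p.as_sum, ← MvPolynomial.coeToMvPowerSeries.ringHom_apply, map_sum]
    simp
  rw [e]
  refine (mj_sum hr _ fun d _ => mj_monomial hr v.nonneg v.map_zero d _).mono ?_
  rw [mul_assoc, ← nsmul_eq_mul]
  refine Finset.sum_le_card_nsmul _ _ _ fun d hd => mul_le_mul (le_hv v (hA
    (MvPolynomial.coeff_mem_coeffs d (MvPolynomial.mem_support_iff.1 hd))))
    (pow_le_pow_of_le_one hr h1 (hk d hd)) (pow_nonneg hr _) (zero_le_one.trans (one_le_hv v A))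

theorem hv_sq (A : Finset L) : ∃ A' : Finset L, ∀ v : AbsoluteValue L ℝ, hv v A ^ 2 ≤ hv v A' := by
  classical
  refine ⟨A.powerset.image fun S => (∏ a ∈ S, a) ^ 2, fun v => le_trans (le_of_eq ?_) (le_hv v
    (Finset.mem_image_of_mem _ (Finset.mem_powerset.2 (A.filter_subset fun a => 1 ≤ v a))))⟩
  rw [map_pow, map_prod, Finset.prod_filter, hv]
  congr 1
  exact Finset.prod_congr rfl fun a _ => max_def _ _

/-- fixed point of a contracting polynomial -/
theorem exists_fix (Q : Polynomial (MvPowerSeries ρ L)) (h0 : constantCoeff (Q.coeff 0) = 0)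
    (h1 : constantCoeff (Q.coeff 1) = 0) : ∃ η : MvPowerSeries ρ L, constantCoeff η = 0 ∧
      Q.eval η = η ∧ ∀ n : ℕ, (n : ℕ∞) ≤ (η - (fun f => Q.eval f)^[n] 0).order := by
  have ce : ∀ (Q : Polynomial (MvPowerSeries ρ L)) f, constantCoeff f = 0 →
      constantCoeff (Q.eval f) = constantCoeff (Q.coeff 0) := fun Q f hf => by
    rw [← Polynomial.eval₂_id, Polynomial.hom_eval₂, hf, Polynomial.eval₂_at_zero]
    rfl
  have ctr : ∀ (n : ℕ) (f g : MvPowerSeries ρ L), constantCoeff f = 0 → constantCoeff g = 0 →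
      (n : ℕ∞) ≤ (f - g).order → ((n + 1 : ℕ) : ℕ∞) ≤ (Q.eval f - Q.eval g).order := by
    intro n f g hf hg h
    obtain ⟨c, hc⟩ := Polynomial.exists_mul_sq_add_linear_part_eq_eval_add Q g (f - g)
    have e : Q.eval f - Q.eval g = (f - g) * (c * (f - g) + Q.derivative.eval g) := by
      rw [add_sub_cancel] at hc
      rw [← hc]
      ring
    rw [e]
    refine le_trans ?_ le_order_mul
    push_cast
    refine add_le_add h (one_le_order_iff_constCoeff_eq_zero.2 ?_)
    rw [map_add, map_mul, map_sub, hf, hg, ce _ _ hg, Polynomial.coeff_derivative]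
    simp [h1]
  let u : ℕ → MvPowerSeries ρ L := fun n => (fun f => Q.eval f)^[n] 0
  have us : ∀ n, u (n + 1) = Q.eval (u n) := fun n => Function.iterate_succ_apply' _ _ _
  have u0 : ∀ n, constantCoeff (u n) = 0 := fun n => by
    induction n with
    | zero => exact map_zero _
    | succ n ih => rw [us, ce _ _ ih, h0]
  have st : ∀ n k : ℕ, (n : ℕ∞) ≤ (u (n + k) - u n).order := fun n k => by
    induction n with
    | zero => simp
    | succ n ih =>
      rw [Nat.add_right_comm, us, us]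
      exact ctr n _ _ (u0 _) (u0 _) ih
  let η : MvPowerSeries ρ L := fun d => coeff d (u (d.degree + 1))
  have hη : ∀ n : ℕ, (n : ℕ∞) ≤ (η - u n).order := fun n => nat_le_order fun d hd => by
    obtain ⟨k, rfl⟩ := Nat.exists_eq_add_of_le (Nat.succ_le_of_lt hd)
    have := coeff_of_lt_order (d := d) (lt_of_lt_of_le (by exact_mod_cast Nat.lt_succ_self _)
      (st (d.degree + 1) k))
    rw [map_sub, sub_eq_zero] at this ⊢
    exact this.symm
  have η0 : constantCoeff η = 0 := by
    have := one_le_order_iff_constCoeff_eq_zero.1 (by exact_mod_cast hη 1)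
    rwa [map_sub, u0, sub_zero] at this
  refine ⟨η, η0, MvPowerSeries.ext fun d => ?_, hη⟩
  have := coeff_of_lt_order (d := d) (lt_of_lt_of_le (by exact_mod_cast Nat.lt_succ_self _)
    (ctr d.degree _ _ η0 (u0 _) (hη _)))
  rw [map_sub, sub_eq_zero, ← us] at this
  exact this

theorem evZT_eq {R : Type} [CommRing R] {m : ℕ} {S : Type} [CommRing S] [Algebra R S]
    (z : Fin m → S) (t : S) (q : ZT R m) :
    evZT z t q = (q.map (MvPolynomial.aeval z : MvPolynomial (Fin m) R →ₐ[R] S).toRingHom).eval t := by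
  rw [Polynomial.eval_map]
  rfl

/-- number of monomials -/
noncomputable def cnt {m : ℕ} (q : ZT L m) : ℕ := ∑ k ∈ q.support, (q.coeff k).support.card

theorem mj_ev {m : ℕ} (hr : 0 ≤ r) (h1 : r ≤ 1) {A : Finset L} {q : ZT L m}
    (hA : ∀ k ∈ q.support, (q.coeff k).coeffs ⊆ A) {f : MvPowerSeries (Fin m) L} {a b : ℝ}
    (hf : Mj v r f a) (j : ℕ → ℕ) (hj : ∀ k, ∀ d ∈ (q.coeff k).support, j k ≤ d.degree)
    (hb : ∀ k, r ^ j k * a ^ k ≤ b) : Mj v r (evZT X f q) (cnt q * hv v A * b) := by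
  rw [evZT_eq, Polynomial.eval_map, Polynomial.eval₂_eq_sum, Polynomial.sum_def]
  refine (mj_sum hr _ fun k hk =>
    (mj_poly hr h1 (j k) (hA k hk) (hj k)).vmul hr (hf.pow hr k)).mono ?_
  rw [cnt, Nat.cast_sum, Finset.sum_mul, Finset.sum_mul]
  refine Finset.sum_le_sum fun k _ => ?_
  rw [mul_assoc]
  exact mul_le_mul_of_nonneg_left (hb k)
    (mul_nonneg (Nat.cast_nonneg _) (zero_le_one.trans (one_le_hv v A)))

/-- the root of `T = R (s, T)` and bounds for polynomial expressions in it -/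
theorem bounded_root {m : ℕ} (R : ZT L m) (h0 : MvPolynomial.constantCoeff (R.coeff 0) = 0)
    (h1 : MvPolynomial.constantCoeff (R.coeff 1) = 0) : ∃ η : MvPowerSeries (Fin m) L,
      constantCoeff η = 0 ∧ evZT X η R = η ∧ ∀ (ι : Type) [Fintype ι] (G : ι → ZT L m),
        ∃ (c : ℕ) (A : Finset L), ∀ (v : AbsoluteValue L ℝ) (J : Fin m →₀ ℕ) (i : ι),
          v (coeff J (evZT X η (G i))) ≤ (c * hv v A) ^ (J.degree + 1) := by
  classical
  have cc : ∀ k, MvPolynomial.constantCoeff (R.coeff k) = 0 → constantCoeff ((R.map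
      (MvPolynomial.aeval (X : Fin m → MvPowerSeries (Fin m) L)).toRingHom).coeff k) = 0 :=
    fun k h => by
      rw [Polynomial.coeff_map]
      show constantCoeff (MvPolynomial.aeval X _) = 0
      rw [aeval_X_eq, ← coeff_zero_eq_constantCoeff_apply, MvPolynomial.coeff_coe]
      exact h
  obtain ⟨η, e0, e1, e2⟩ := exists_fix _ (cc 0 h0) (cc 1 h1)
  simp only [← evZT_eq] at e1 e2
  refine ⟨η, e0, e1, fun ι _ G => ?_⟩
  let cf : ZT L m → Finset L := fun q => q.support.biUnion fun k => (q.coeff k).coeffs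
  let A := cf R ∪ Finset.univ.biUnion fun i => cf (G i)
  let c := 1 + cnt R + ∑ i, cnt (G i)
  obtain ⟨A', hA'⟩ := hv_sq A
  refine ⟨c ^ 2, A', fun v J i => ?_⟩
  have H1 := one_le_hv v A
  have c1 : (1 : ℝ) ≤ c := by exact_mod_cast (by omega : 1 ≤ c)
  set M : ℝ := c * hv v A with hM
  have M1 : 1 ≤ M := one_le_mul_of_one_le_of_one_le c1 H1
  have a0 : 0 < M⁻¹ := by positivity
  have a1 : M⁻¹ ≤ 1 := inv_le_one_of_one_le₀ M1
  have r0 : 0 ≤ M⁻¹ ^ 2 := by positivity
  have r1 : M⁻¹ ^ 2 ≤ 1 := pow_le_one₀ a0.le a1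
  have it : ∀ n, Mj v (M⁻¹ ^ 2) ((fun f => evZT X f R)^[n] 0) M⁻¹ := fun n => by
    induction n with
    | zero => intro s; simpa using a0.le
    | succ n ih =>
      rw [Function.iterate_succ_apply']
      refine (mj_ev r0 r1 (A := A) (fun k hk => (Finset.subset_biUnion_of_mem
        (fun k => (R.coeff k).coeffs) hk).trans Finset.subset_union_left) ih (fun k => if k < 2 then 1 else 0) (fun k d hd => ?_)
        (b := M⁻¹ ^ 2) fun k => ?_).mono ?_
      · split_ifs with h
        · refine Nat.one_le_iff_ne_zero.2 fun e => MvPolynomial.mem_support_iff.1 hd ?_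
          rw [(Finsupp.degree_eq_zero_iff d).1 e]
          interval_cases k
          exacts [h0, h1]
        · exact Nat.zero_le _
      · rw [← pow_mul, ← pow_add]
        exact pow_le_pow_of_le_one a0.le a1 (by split_ifs <;> omega)
      · have : (cnt R : ℝ) * hv v A ≤ M :=
          mul_le_mul_of_nonneg_right (by exact_mod_cast (by omega : cnt R ≤ c)) (by linarith)
        calc _ ≤ M * M⁻¹ ^ 2 := mul_le_mul_of_nonneg_right this r0
          _ = M⁻¹ := by field_simp
  have hη : Mj v (M⁻¹ ^ 2) η M⁻¹ := fun s => by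
    refine le_trans (le_of_eq (Finset.sum_congr rfl fun d hd => ?_)) (it (s.sup Finsupp.degree + 1) s)
    have := coeff_of_lt_order (d := d) (lt_of_lt_of_le (by
      exact_mod_cast Nat.lt_succ_of_le (Finset.le_sup (f := Finsupp.degree) hd))
      (e2 (s.sup Finsupp.degree + 1)))
    rw [map_sub, sub_eq_zero] at this
    rw [this]
  have hG := (mj_ev r0 r1 (A := A) (q := G i) (fun k hk => ((Finset.subset_biUnion_of_mem
    (fun k => ((G i).coeff k).coeffs) hk).trans
    (Finset.subset_biUnion_of_mem (fun i => cf (G i)) (Finset.mem_univ i))).trans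
      Finset.subset_union_right) hη (fun _ => 0) (fun _ _ _ => Nat.zero_le _) (b := 1)
    fun k => by simpa using pow_le_one₀ a0.le a1).coeff_le J
  have h2 : (cnt (G i) : ℝ) * hv v A * 1 ≤ M ^ 2 := by
    have : cnt (G i) ≤ c := (Finset.single_le_sum (f := fun i => cnt (G i))
      (fun _ _ => Nat.zero_le _) (Finset.mem_univ i)).trans (by omega)
    have : (cnt (G i) : ℝ) * hv v A ≤ M :=
      mul_le_mul_of_nonneg_right (by exact_mod_cast this) (by linarith)
    nlinarith
  have h3 : M ^ 2 ≤ ((c ^ 2 : ℕ) : ℝ) * hv v A' := by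
    rw [hM, mul_pow]
    push_cast
    exact mul_le_mul_of_nonneg_left (hA' v) (by positivity)
  refine le_trans ?_ (pow_le_pow_left₀ (by positivity) h3 _)
  have h4 := hG.trans h2
  rw [inv_pow, inv_pow, mul_inv_le_iff₀ (by positivity)] at h4
  rwa [pow_succ']

end D4C.T83
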