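import Pool.Agent.Lib.D4C.T83W

/-! Series in two groups of variables as iterated series. -/

namespace D4C.T83

open MvPowerSeries

variable {κ α β L : Type}

theorem comb_inl (q : κ × α →₀ ℕ) (J : κ × β →₀ ℕ) (i : κ) (a : α) :
    comb q J (i, Sum.inl a) = q (i, a) := by
  have := Finsupp.mapDomain_apply (f := fun x : κ × α => ((x.1, Sum.inl x.2) : κ × (α ⊕ β)))
    (fun x y h => by simpa [Prod.ext_iff] using h) q (i, a)
  rw [comb, Finsupp.add_apply, this, Finsupp.mapDomain_notin_range _ _ (by simp), add_zero]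

theorem comb_inr (q : κ × α →₀ ℕ) (J : κ × β →₀ ℕ) (i : κ) (a : β) :
    comb q J (i, Sum.inr a) = J (i, a) := by
  have := Finsupp.mapDomain_apply (f := fun x : κ × β => ((x.1, Sum.inr x.2) : κ × (α ⊕ β)))
    (fun x y h => by simpa [Prod.ext_iff] using h) J (i, a)
  rw [comb, Finsupp.add_apply, this, Finsupp.mapDomain_notin_range _ _ (by simp), zero_add]

theorem comb_add (q q' : κ × α →₀ ℕ) (J J' : κ × β →₀ ℕ) :
    comb q J + comb q' J' = comb (q + q') (J + J') := by
  ext ⟨i, a | a⟩ <;> simp [comb_inl, comb_inr]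

theorem comb_inj {q q' : κ × α →₀ ℕ} {J J' : κ × β →₀ ℕ} :
    comb q J = comb q' J' ↔ q = q' ∧ J = J' :=
  ⟨fun h => ⟨Finsupp.ext fun x => by rw [← comb_inl q J, h, comb_inl],
    Finsupp.ext fun x => by rw [← comb_inr q J, h, comb_inr]⟩, fun h => by rw [h.1, h.2]⟩

theorem comb_surj (d : κ × (α ⊕ β) →₀ ℕ) : ∃ q J, comb q J = d :=
  ⟨d.comapDomain (fun x : κ × α => (x.1, Sum.inl x.2)) fun x _ y _ h => by
      simpa [Prod.ext_iff] using h,
    d.comapDomain (fun x : κ × β => (x.1, Sum.inr x.2)) fun x _ y _ h => by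
      simpa [Prod.ext_iff] using h, by ext ⟨i, a | a⟩ <;> simp [comb_inl, comb_inr]⟩

variable [Field L]

/-- the iterated series -/
noncomputable def Psi : PS (κ × (α ⊕ β)) L →ₐ[L] MvPowerSeries (κ × β) (PS (κ × α) L) :=
  AlgHom.ofLinearMap
    { toFun := fun f J q => coeff (comb q J) f
      map_add' := fun _ _ => rfl
      map_smul' := fun _ _ => rfl }
    (by
      classical
      ext J q
      show coeff (comb q J) 1 = _
      rw [coeff_one, coeff_one, ← show comb (0 : κ × α →₀ ℕ) (0 : κ × β →₀ ℕ) = 0 by simp [comb]]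
      by_cases h : J = 0 <;> simp [comb_inj, h, coeff_one])
    fun f g => by
      classical
      ext J q
      show coeff (comb q J) (f * g) = _
      simp only [coeff_mul, map_sum]
      rw [← Finset.sum_product']
      refine (Finset.sum_bij (fun p _ => (comb p.2.1 p.1.1, comb p.2.2 p.1.2)) (fun p hp => ?_)
        (fun p _ p' _ e => ?_) (fun p hp => ?_) fun p _ => rfl).symm
      · simp only [Finset.mem_product, Finset.HasAntidiagonal.mem_antidiagonal] at hp ⊢
        rw [comb_add, hp.1, hp.2]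
      · simp only [Prod.ext_iff, comb_inj] at e ⊢
        tauto
      · obtain ⟨q1, J1, e1⟩ := comb_surj p.1
        obtain ⟨q2, J2, e2⟩ := comb_surj p.2
        rw [Finset.HasAntidiagonal.mem_antidiagonal, ← e1, ← e2, comb_add, comb_inj] at hp
        exact ⟨((J1, J2), q1, q2), by simp [hp], Prod.ext e1 e2⟩

theorem coeff_Psi (f : PS (κ × (α ⊕ β)) L) (q : κ × α →₀ ℕ) (J : κ × β →₀ ℕ) :
    coeff q (coeff J (Psi f)) = coeff (comb q J) f := rfl

variable [Finite κ] [Finite α] [Finite β]

theorem Psi_inl (f : PS (κ × α) L) :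
    Psi (β := β) (rename (fun x => (x.1, Sum.inl x.2)) f) = C f := by
  classical
  ext J q
  rw [coeff_Psi, coeff_C]
  split_ifs with h
  · have := coeff_embDomain_rename ⟨fun x : κ × α => ((x.1, Sum.inl x.2) : κ × (α ⊕ β)),
      fun x y h => by simpa [Prod.ext_iff] using h⟩ f q
    rw [Finsupp.embDomain_eq_mapDomain] at this
    simpa [h, comb] using this
  · refine coeff_rename_eq_zero _ _ fun ⟨q', e⟩ => h ((comb_inj (q' := q') (q := q)).1 ?_).2
    simpa [comb] using e.symm

theorem Psi_inr (f : PS (κ × β) L) :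
    Psi (α := α) (rename (fun x => (x.1, Sum.inr x.2)) f) = map (algebraMap L _) f := by
  classical
  ext J q
  rw [coeff_Psi, coeff_map, MvPowerSeries.algebraMap_apply, coeff_C]
  split_ifs with h
  · have := coeff_embDomain_rename ⟨fun x : κ × β => ((x.1, Sum.inr x.2) : κ × (α ⊕ β)),
      fun x y h => by simpa [Prod.ext_iff] using h⟩ f J
    rw [Finsupp.embDomain_eq_mapDomain] at this
    simpa [h, comb] using this
  · refine coeff_rename_eq_zero _ _ fun ⟨J', e⟩ => h ((comb_inj (J' := J') (J := J)).1 ?_).1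
    simpa [comb] using e.symm

omit [Finite κ] in
theorem blk_eq (i : κ) (f : PS α L) : blk i f = rename (Prod.mk i) f := (rename_eq_subst _ _).symm

omit [Finite κ] in
theorem rename_subst {a : β → PS α L} (ha : HasSubst a) (e : α → κ) (f : PS β L) :
    rename e (subst a f) = subst (fun b => rename e (a b)) f := by
  simp only [rename_eq_subst]
  exact subst_comp_subst_apply ha (HasSubst.X_comp e) f

end D4C.T83
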