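import Pool.Agent.Lib.D4C.B_MAJ

/-! Weight filtrations on polynomials, the block embedding `toA`. -/

namespace D4C

open MvPolynomial

namespace T83

theorem fil_aeval {L R τ : Type} [Field L] [CommRing R] [Algebra L R] (Φ : ℕ → Submodule L R)
    [SetLike.GradedMonoid Φ] (hm : Monotone Φ) {x : τ → R} {r : τ → ℕ} (hx : ∀ s, x s ∈ Φ (r s))
    {F : MvPolynomial τ L} {M : ℕ} (hM : ∀ d ∈ F.support, Finsupp.weight r d ≤ M) :
    aeval x F ∈ Φ M := by
  rw [F.as_sum, map_sum]
  refine Submodule.sum_mem _ fun d hd => hm (hM d hd) ?_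
  rw [aeval_monomial, ← Algebra.smul_def]
  exact Submodule.smul_mem _ _ (SetLike.prod_pow_mem_graded Φ r x d fun s _ => hx s)

variable {L τ : Type} [Field L]

/-- polynomials all of whose monomials have weight at most `n` -/
noncomputable def WS (L : Type) [Field L] (w : τ → ℕ) (n : ℕ) : Submodule L (MvPolynomial τ L) :=
  restrictSupport L {d | Finsupp.weight w d ≤ n}

theorem mem_WS {w : τ → ℕ} {n : ℕ} {F : MvPolynomial τ L} :
    F ∈ WS L w n ↔ ∀ d ∈ F.support, Finsupp.weight w d ≤ n := Iff.rfl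

theorem WS_mono (w : τ → ℕ) : Monotone (WS L w) := fun _ _ h _ k d hd => (k hd).trans h

instance WS_gm (w : τ → ℕ) : SetLike.GradedMonoid (WS L w) where
  one_mem := (monomial_mem_restrictSupport L).2 (Or.inl (by simp))
  mul_mem := fun a b F G hF hG => mem_WS.2 fun d hd => by
    classical
    obtain ⟨p, hp, q, hq, rfl⟩ := Finset.mem_add.1 (support_mul F G hd)
    rw [map_add]
    exact add_le_add (hF hp) (hG hq)

theorem X_mem_WS {w : τ → ℕ} {s : τ} {n : ℕ} (h : w s ≤ n) : (X s : MvPolynomial τ L) ∈ WS L w n :=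
  (monomial_mem_restrictSupport L).2 (Or.inl (by simpa [Finsupp.weight_single] using h))

theorem weight_blk {κ σ : Type} [DecidableEq κ] (d : κ × σ →₀ ℕ) (i : κ) (a : ℕ) :
    Finsupp.weight (fun x : κ × σ => if x.1 = i then a else 0) d = a * (d.curry i).degree := by
  induction d using Finsupp.induction_linear with
  | zero =>
    have : (0 : κ × σ →₀ ℕ).curry i = 0 := Finsupp.ext fun _ => rfl
    simp [this]
  | add f g hf hg =>
    have : (f + g).curry i = f.curry i + g.curry i := Finsupp.ext fun _ => rfl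
    rw [map_add, hf, hg, this, map_add, mul_add]
  | single s n =>
    rw [Finsupp.weight_single, Finsupp.curry_single]
    by_cases h : s.1 = i
    · subst h; simp [mul_comm]
    · simp [Finsupp.single_eq_of_ne (Ne.symm h), h]

variable {K m : ℕ}

theorem toA_eq (i : Fin K) {q : ZT L m} {N : ℕ} (h : q.natDegree ≤ N) : toA i q =
    ∑ l ∈ Finset.range (N + 1), rename (fun j => (i, some j)) (q.coeff l) * X (i, none) ^ l := by
  conv_lhs => rw [q.as_sum_range' _ (Nat.lt_succ_of_le h), map_sum]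
  refine Finset.sum_congr rfl fun l _ => ?_
  rw [← Polynomial.C_mul_X_pow_eq_monomial, map_mul, map_pow, toA, evZT_C, evZT_X, rename_eq_aeval]
  rfl

theorem toA_mem (i : Fin K) {q : ZT L m} {N D a b : ℕ} {w : Fin K × Option (Fin m) → ℕ}
    (h : q.natDegree ≤ N) (hD : ∀ l, (q.coeff l).totalDegree ≤ D) (ha : ∀ j, w (i, some j) ≤ a)
    (hb : w (i, none) ≤ b) : toA i q ∈ WS L w (a * D + b * N) := by
  rw [toA_eq i h]
  refine Submodule.sum_mem _ fun l hl => WS_mono w ?_ (SetLike.mul_mem_graded (i := a * D) ?_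
    (SetLike.pow_mem_graded l (X_mem_WS hb)))
  · have := Nat.mul_le_mul_left b (Nat.lt_succ_iff.1 (Finset.mem_range.1 hl))
    rw [smul_eq_mul, mul_comm l]
    omega
  · rw [rename_eq_aeval]
    refine fil_aeval _ (WS_mono w) (r := fun _ => a) (fun j => X_mem_WS (ha j)) fun d hd => ?_
    rw [Finsupp.weight_apply, Finsupp.sum, ← Finset.sum_smul, smul_eq_mul, mul_comm]
    exact Nat.mul_le_mul_left a ((le_totalDegree hd).trans (hD l))

variable (v : AbsoluteValue L ℝ)

theorem l1_X_pow (s : τ) (n : ℕ) : l1 v (X s ^ n : MvPolynomial τ L) = 1 := by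
  rw [X_pow_eq_monomial, l1_monomial, map_one]

theorem l1_toA (i : Fin K) {q : ZT L m} {N : ℕ} (h : q.natDegree ≤ N) :
    l1 v (toA i q) ≤ ∑ l ∈ Finset.range (N + 1), l1 v (q.coeff l) := by
  rw [toA_eq i h]
  refine (l1_sum v _ _).trans (Finset.sum_le_sum fun l _ => (l1_mul v _ _).trans ?_)
  rw [l1_X_pow, mul_one]
  exact l1_rename v _ _

theorem l1_toA_sm (i : Fin K) {q : ZT L m} {D : ℕ} {A : Finset L} (h : SmQ D A q) :
    l1 v (toA i q) ≤ (D + 1) ^ (m + 1) * hv v A := by
  refine (l1_toA v i h.1).trans ((Finset.sum_le_card_nsmul _ _ _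
    fun l _ => l1_smp v (h.2 l)).trans_eq ?_)
  simp [pow_succ]
  ring

theorem l1_one : l1 v (1 : MvPolynomial τ L) = 1 := by simpa using l1_monomial v (0 : τ →₀ ℕ) 1

theorem l1_prod {ι : Type} (s : Finset ι) (F : ι → MvPolynomial τ L) :
    l1 v (∏ i ∈ s, F i) ≤ ∏ i ∈ s, l1 v (F i) := by
  classical
  induction s using Finset.induction_on with
  | empty => simp [l1_one]
  | insert i s hi ih =>
    rw [Finset.prod_insert hi, Finset.prod_insert hi]
    exact (l1_mul v _ _).trans (mul_le_mul_of_nonneg_left ih (l1_nonneg v _))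

theorem l1_smul (c : L) (F : MvPolynomial τ L) : l1 v (c • F) ≤ v c * l1 v F := by
  rw [smul_eq_C_mul, ← l1_monomial v (0 : τ →₀ ℕ) c]
  exact l1_mul v _ _

theorem l1_sub (F G : MvPolynomial τ L) : l1 v (F - G) ≤ l1 v F + l1 v G := by
  rw [sub_eq_add_neg, ← neg_one_smul L G]
  refine (l1_add v _ _).trans (add_le_add le_rfl ((l1_smul v _ _).trans_eq (by simp)))

end T83

end D4C
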