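import Pool.Agent.Lib.D4C.BlueE
import Pool.Agent.Lib.D4C.T83L1
import Pool.Agent.Lib.D4C.T1a

/-! Tools for the row KEYB. -/

namespace D4C

open MvPolynomial

namespace T84

section low

variable {κ ρ L : Type} [Field L]

/-- no coefficient of weight less than `ν` -/
def LowW (w : κ → ℕ) (ν : ℕ) (f : PS (κ × ρ) L) : Prop :=
  ∀ J', wt w J' < ν → MvPowerSeries.coeff J' f = 0

theorem wt_add (w : κ → ℕ) (p q : κ × ρ →₀ ℕ) : wt w (p + q) = wt w p + wt w q := map_add _ _ _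

theorem wt_pos {w : κ → ℕ} (hw : ∀ i, 1 ≤ w i) {q : κ × ρ →₀ ℕ} (hq : q ≠ 0) : 1 ≤ wt w q := by
  obtain ⟨s, hs⟩ := Finsupp.ne_iff.1 hq
  have h1 : q s ≤ wt w q :=
    Finsupp.le_weight (fun x : κ × ρ => w x.1) (s := s) (by have := hw s.1; omega) q
  have h2 : q s ≠ 0 := hs
  omega

theorem LowW.mul {w : κ → ℕ} {ν : ℕ} {f : PS (κ × ρ) L} (h : LowW w ν f) (u : PS (κ × ρ) L) :
    LowW w ν (f * u) := by
  classical
  intro J' hJ
  rw [MvPowerSeries.coeff_mul]
  refine Finset.sum_eq_zero fun p hp => ?_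
  have := wt_add w p.1 p.2
  rw [Finset.HasAntidiagonal.mem_antidiagonal.1 hp] at this
  rw [h p.1 (by omega), zero_mul]

theorem LowW.coeff_mul {w : κ → ℕ} (hw : ∀ i, 1 ≤ w i) {J : κ × ρ →₀ ℕ} {f : PS (κ × ρ) L}
    (h : LowW w (wt w J) f) (u : PS (κ × ρ) L) :
    MvPowerSeries.coeff J (f * u) = MvPowerSeries.coeff J f * MvPowerSeries.constantCoeff u := by
  classical
  rw [MvPowerSeries.coeff_mul, Finset.sum_eq_single (J, 0)]
  · simp
  · intro p hp hne
    have h1 := Finset.HasAntidiagonal.mem_antidiagonal.1 hp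
    have h2 : p.2 ≠ 0 := fun e => hne (by
      rw [e, add_zero] at h1
      exact Prod.ext h1 e)
    have h3 := wt_add w p.1 p.2
    have h4 := wt_pos hw h2
    rw [h1] at h3
    rw [h p.1 (by omega), zero_mul]
  · intro hn
    exact absurd (Finset.HasAntidiagonal.mem_antidiagonal.2 (add_zero J)) hn

theorem coeff_rel {w : κ → ℕ} (hw : ∀ i, 1 ≤ w i) {J : κ × ρ →₀ ℕ} {f f' u u' : PS (κ × ρ) L}
    (h : LowW w (wt w J) f) (hu : MvPowerSeries.constantCoeff u ≠ 0) (e : f * u' = f' * u) :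
    MvPowerSeries.coeff J f' * MvPowerSeries.constantCoeff u =
      MvPowerSeries.coeff J f * MvPowerSeries.constantCoeff u' := by
  have h1 : LowW w (wt w J) f' := by
    have h2 := (h.mul u').mul u⁻¹
    rwa [e, mul_assoc, MvPowerSeries.mul_inv_cancel u hu, mul_one] at h2
  rw [← h1.coeff_mul hw, ← e, h.coeff_mul hw]

end low

section hi

variable {g : ℕ} {σ L : Type} [Field L]

theorem coeff_hiP (m0 : ℕ) (k : MvPolynomial (Fin (g + 2 + 1) ⊕ σ) L) (ε : Fin (g + 2 + 1) ⊕ σ →₀ ℕ) :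
    coeff ε (hiP m0 k) = if m0 ≤ o2 ε then coeff ε k else 0 := by
  classical
  rw [hiP, coeff_sum]
  simp only [coeff_monomial]
  rw [Finset.sum_ite_eq']
  by_cases h : m0 ≤ o2 ε
  · by_cases h' : ε ∈ k.support
    · simp [h, mem_support_iff.1 h']
    · simp [h, notMem_support_iff.1 h']
  · simp [h]

theorem mem_hiP {m0 : ℕ} {k : MvPolynomial (Fin (g + 2 + 1) ⊕ σ) L} {ε : Fin (g + 2 + 1) ⊕ σ →₀ ℕ}
    (h : ε ∈ (hiP m0 k).support) : ε ∈ k.support ∧ m0 ≤ o2 ε := by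
  rw [mem_support_iff, coeff_hiP] at h
  by_cases h' : m0 ≤ o2 ε
  · rw [if_pos h'] at h
    exact ⟨mem_support_iff.2 h, h'⟩
  · rw [if_neg h'] at h
    exact absurd rfl h

theorem l1_hiP (v : AbsoluteValue L ℝ) (m0 : ℕ) (k : MvPolynomial (Fin (g + 2 + 1) ⊕ σ) L) :
    l1 v (hiP m0 k) ≤ l1 v k := by
  refine le_trans (le_of_eq ?_) (T83.sum_le_l1 v k (hiP m0 k).support)
  refine Finset.sum_congr rfl fun ε hε => ?_
  rw [coeff_hiP, if_pos (mem_hiP hε).2]

end hi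

theorem l1_comb {L τ I : Type} [Field L] [Fintype I] (v : AbsoluteValue L ℝ) (c : I → L)
    (e : I → MvPolynomial τ L) {M : ℝ} (h : ∀ ω, l1 v (e ω) ≤ M) :
    l1 v (∑ ω, c ω • e ω) ≤ Fintype.card I * (sn v c * M) := by
  refine (T83.l1_sum v _ _).trans ?_
  rw [← nsmul_eq_mul, ← Finset.card_univ]
  refine Finset.sum_le_card_nsmul _ _ _ fun ω _ => ?_
  rw [smul_eq_C_mul]
  refine (T83.l1_mul v _ _).trans ?_
  rw [← monomial_zero', T83.l1_monomial]
  exact mul_le_mul (T83.le_sn v c ω) (h ω) (T83.l1_nonneg v _)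
    ((v.nonneg _).trans (T83.le_sn v c ω))

theorem hA_nonneg {L : Type} [Field L] [NumberField L] (A : Finset L) : 0 ≤ hA A :=
  Finset.sum_nonneg fun a _ => Height.zero_le_logHeight₁ a

theorem ht_nonneg {L σ : Type} [Field L] [NumberField L] [Fintype σ] [DecidableEq σ] {B : Pkg L σ}
    (p : B.Pt L) : 0 ≤ B.ht p := Height.logHeight_nonneg _

theorem ht_neg {L σ : Type} [Field L] [NumberField L] [Fintype σ] [DecidableEq σ] {B : Pkg L σ}
    (p : B.Pt L) : B.ht (-p) = B.ht p := by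
  obtain ⟨x, hx⟩ := Pkg.exists_rep p
  rw [hx.ht, hx.neg.ht]
  exact Height.logHeight_comp_equiv B.π x

/-- the share of one block in the final inequality -/
theorem per_block {n j r0 R N e CH ht hA ha hb hA' lA lT dg : ℝ} (hn : 0 ≤ n) (hj : 0 ≤ j)
    (hr : 0 ≤ r0) (hR : r0 ≤ R) (hN : 0 ≤ N) (he : 0 ≤ e) (hC : 0 ≤ CH) (h1 : 0 ≤ ht) (h2 : 0 ≤ hA)
    (h3 : 0 ≤ ha) (hT : 0 ≤ lT) (hlA : 0 ≤ lA) (hd : 0 ≤ dg) (hb' : hb ≤ e * ht + CH * (hA + 1))
    (hA'' : hA' ≤ CH * (ht + hA + 1)) :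
    n * hA + (n + j) * hb + N * (j + r0) * hA' + dg * (n * lA + N * (j + r0) * lT) ≤
      j * ha + e * n * ht + (1 + CH + dg * lA) * (n * (hA + 1)) +
        (e + CH + N * (R + 1) * (CH + dg * lT)) * ((j + 1) * (ht + hA + 1)) := by
  have a1 : n * hb ≤ e * n * ht + CH * (n * (hA + 1)) := by
    have := mul_le_mul_of_nonneg_left hb' hn
    linarith
  have a2 : j * hb ≤ (e + CH) * ((j + 1) * (ht + hA + 1)) := by
    have b1 : hb ≤ (e + CH) * (ht + hA + 1) := by nlinarith [mul_nonneg he h2, mul_nonneg hC h1]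
    have b2 : 0 ≤ (e + CH) * (ht + hA + 1) := by positivity
    nlinarith [mul_le_mul_of_nonneg_left b1 hj]
  have b3 : j + r0 ≤ (R + 1) * (j + 1) := by nlinarith [mul_nonneg (hr.trans hR) hj]
  have b4 : N * (j + r0) ≤ N * ((R + 1) * (j + 1)) := mul_le_mul_of_nonneg_left b3 hN
  have b5 : 0 ≤ N * (j + r0) := by positivity
  have a3 : N * (j + r0) * hA' ≤ N * (R + 1) * CH * ((j + 1) * (ht + hA + 1)) := by
    calc N * (j + r0) * hA' ≤ N * (j + r0) * (CH * (ht + hA + 1)) :=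
          mul_le_mul_of_nonneg_left hA'' b5
      _ ≤ N * ((R + 1) * (j + 1)) * (CH * (ht + hA + 1)) :=
          mul_le_mul_of_nonneg_right b4 (by positivity)
      _ = _ := by ring
  have a4 : dg * (N * (j + r0) * lT) ≤ N * (R + 1) * (dg * lT) * ((j + 1) * (ht + hA + 1)) := by
    calc dg * (N * (j + r0) * lT) = N * (j + r0) * (dg * lT * 1) := by ring
      _ ≤ N * ((R + 1) * (j + 1)) * (dg * lT * (ht + hA + 1)) :=
          mul_le_mul b4 (mul_le_mul_of_nonneg_left (by linarith) (by positivity)) (by positivity)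
            (b5.trans b4)
      _ = _ := by ring
  have a5 : dg * (n * lA) ≤ dg * lA * (n * (hA + 1)) := by
    have : 0 ≤ dg * lA * (n * hA) := by positivity
    linarith
  have a6 : 0 ≤ j * ha := by positivity
  linarith

end T84

end D4C
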