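import Pool.Agent.Lib.D4C.B_AD
import Pool.Agent.Lib.D4C.B_HF

/-! Small lemmas and the numerical inequalities for step B. -/

namespace D4C.T91

open MvPolynomial

theorem split (e D δ : ℕ) (he : 1 ≤ e) :
    ∃ n r0, r0 + e * n = δ ∧ (e * D ≤ r0 ∨ n = 0) ∧ r0 ≤ e * (D + 1) := by
  by_cases h : δ < e * D
  · exact ⟨0, δ, by simp, Or.inr rfl, by nlinarith⟩
  · obtain ⟨t, rfl⟩ := Nat.exists_eq_add_of_le (not_lt.1 h)
    have h1 := Nat.mod_add_div t e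
    have h2 := Nat.mod_lt t he
    exact ⟨t / e, e * D + t % e, by omega, Or.inl (Nat.le_add_right _ _), by
      rw [mul_add, mul_one]; omega⟩

theorem exists_good {L σ : Type} [Field L] [Fintype σ] [DecidableEq σ] (B : Pkg L σ) {k : ℕ}
    (κ : Fin (k + 1) → ℕ) (x : Fin (k + 1) → B.Pt L) : ∃ Λ, GoodL B κ x Λ := by
  choose u hu using fun i => Pkg.exists_rep (2 ^ κ i • x i)
  choose Λ hΛ using fun i => B.complete L (u i) (u 0 ∘ B.π) (hu i).zr (hu 0).neg.zr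
    (uni_iff_ne_zero.1 (hu i).uni) (uni_iff_ne_zero.1 (hu 0).neg.uni)
  refine ⟨Λ, fun u' hu' i h => hΛ i ?_⟩
  obtain ⟨c, hc⟩ := ((hu' i).par (hu i)).exists_smul (hu' i).uni
  obtain ⟨c', hc'⟩ := ((hu' 0).neg.par (hu 0).neg).exists_smul (hu' 0).neg.uni
  rw [hc', hc, B.ev2_smul, h, smul_zero]

theorem hP_X {L τ : Type} [Field L] [NumberField L] (j : τ) : hP (X j : MvPolynomial τ L) ≤ 0 := by
  simpa using T4.hP_le (X j : MvPolynomial τ L) (X_ne_zero j) T4.ad_one le_rfl fun v => by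
    rw [X, T83.l1_monomial]; simp

theorem sum_le {k : ℕ} {f : Fin (k + 1) → ℝ} {b : ℝ} (h : ∀ i, f i ≤ b) :
    ∑ i, f i ≤ (k + 1) * b := by
  simpa using Finset.sum_le_card_nsmul Finset.univ f b fun i _ => h i

theorem final {k : ℕ} {a b c : Fin (k + 1) → ℝ} {hc C10 R P Y u v u0 Ca Cr s : ℝ}
    (key : ∑ i, a i + ∑ i ∈ Finset.univ.erase 0, b i ≤ hc + ∑ i, c i + C10 * R)
    (h1 : ∀ i, i ≠ 0 → u * P - v * Y ≤ a i + b i - c i) (h0 : c 0 - a 0 ≤ u0 * P + Y)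
    (h2 : hc ≤ Ca * Y) (hR : R ≤ Cr * Y + s * P) (hC : 0 ≤ C10) :
    (k * u - u0 - C10 * s) * P ≤ (k * v + 1 + Ca + C10 * Cr) * Y := by
  rw [← Finset.add_sum_erase _ a (Finset.mem_univ 0),
    ← Finset.add_sum_erase _ c (Finset.mem_univ 0)] at key
  have h3 := Finset.card_nsmul_le_sum (Finset.univ.erase 0) (fun i => a i + b i - c i) _
    fun i hi => h1 i (Finset.ne_of_mem_erase hi)
  rw [Finset.sum_sub_distrib, Finset.sum_add_distrib, Finset.card_erase_of_mem (Finset.mem_univ _),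
    Finset.card_univ, Fintype.card_fin, Nat.add_sub_cancel, nsmul_eq_mul] at h3
  have h4 := mul_le_mul_of_nonneg_left hR hC
  linarith

theorem step {mm dz h p q d h0 t0 t1 t2 en η C1 Mm β n0 θ CH Y : ℝ} (hη : 0 < η) (hC : 0 < C1)
    (hM : 0 < Mm) (hβ : 0 ≤ β) (hn : 0 ≤ n0) (hCH : 0 ≤ CH) (hd : 0 ≤ d) (hm : 0 ≤ mm)
    (hh : 0 ≤ h) (h1 : η * h ≤ dz) (h2 : d * p ≤ (mm + 1) * Mm) (h3 : q * h0 ≤ C1 * (p * h))
    (h4 : h ≤ Y) (h5 : p * h - CH * p ≤ t1) (h6 : q * h0 - CH * q ≤ t0) (h7 : t2 ≤ θ * (q * h0))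
    (h8 : p ≤ q) (h9 : d * q ≤ Y) (h10 : en * h ≤ β * n0 * d * p * h + Y) :
    (η / (C1 * Mm) + β * n0 - θ * n0) * (d * q * h0) - (η + 2 * β * CH * n0 + 1) * Y ≤
      mm * dz + n0 * d * (β * t1 + β * t0 - t2) - en * h := by
  have a1 : η / (C1 * Mm) * (d * q * h0) ≤ η * ((mm + 1) * h) := by
    rw [div_mul_eq_mul_div, div_le_iff₀ (mul_pos hC hM), mul_assoc η]
    refine mul_le_mul_of_nonneg_left ?_ hη.le
    calc d * q * h0 = d * (q * h0) := by ring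
      _ ≤ d * (C1 * (p * h)) := mul_le_mul_of_nonneg_left h3 hd
      _ = d * p * (C1 * h) := by ring
      _ ≤ (mm + 1) * Mm * (C1 * h) := mul_le_mul_of_nonneg_right h2 (by positivity)
      _ = _ := by ring
  have a2 := mul_le_mul_of_nonneg_left h1 hm
  have a3 := mul_le_mul_of_nonneg_left h4 hη.le
  have a4 : β * (p * h) + β * (q * h0) - 2 * β * CH * q - θ * (q * h0) ≤ β * t1 + β * t0 - t2 := by
    have b1 := mul_le_mul_of_nonneg_left h5 hβ
    have b2 := mul_le_mul_of_nonneg_left h6 hβ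
    have b3 := mul_le_mul_of_nonneg_left h8 (mul_nonneg hβ hCH)
    linarith
  have a5 := mul_le_mul_of_nonneg_left a4 (mul_nonneg hn hd)
  have a6 := mul_le_mul_of_nonneg_left h9 (by positivity : 0 ≤ 2 * β * CH * n0)
  linarith

theorem alt {c0 h hQ bS X CI w HH Cb Y τ h0 C1 : ℝ} (hc : 0 < c0) (hh : 0 < h) (hX : 0 < X)
    (hb : 1 ≤ bS) (hCI : 0 ≤ CI) (hw : 0 ≤ w) (hCb : 0 ≤ Cb) (hτ : 0 < τ) (h1 : c0 * h ≤ hQ)
    (h2 : hQ * (bS * X) ≤ CI * w * (HH + bS * X)) (h3 : HH ≤ Cb * Y) (h4 : X ≤ Y)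
    (h5 : Y = τ * (X * h0)) (h6 : w * h0 ≤ C1 * h) (h7 : τ * (CI * (Cb + bS) * C1 + 1) ≤ c0) :
    False := by
  have a1 : c0 * h * X ≤ hQ * (bS * X) :=
    mul_le_mul h1 (le_mul_of_one_le_left hX.le hb) hX.le ((mul_pos hc hh).le.trans h1)
  have a2 : HH + bS * X ≤ (Cb + bS) * Y := by
    have := mul_le_mul_of_nonneg_left h4 (zero_le_one.trans hb)
    linarith
  have a3 := mul_le_mul_of_nonneg_left a2 (mul_nonneg hCI hw)
  have a4 := mul_le_mul_of_nonneg_left h6 (by positivity : 0 ≤ CI * (Cb + bS) * τ * X)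
  have a5 := mul_le_mul_of_nonneg_right h7 (mul_pos hh hX).le
  have a6 : 0 < τ * (h * X) := by positivity
  rw [h5] at a3
  linarith

/-- height of the reduced form -/
theorem hP_red {L τ τ' I : Type} [Field L] [NumberField L] [Fintype I] {k : ℕ}
    {e : I → MvPolynomial τ L} {c : I → L} {G : MvPolynomial τ' L} {c2 cA E : ℕ} {A2 : Finset L}
    {A : Fin (k + 1) → Finset L} {t : Fin (k + 1) → ℕ} (hG : G ≠ 0) (hc : c ≠ 0) (h2 : 1 ≤ c2)
    (hA1 : 1 ≤ cA) (he : ∀ ω (v : AbsoluteValue L ℝ), l1 v (e ω) ≤ (c2 * hv v A2) ^ E)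
    (h : ∀ v : AbsoluteValue L ℝ,
      l1 v G ≤ l1 v (∑ ω, c ω • e ω) * ∏ i, (cA * hv v (A i)) ^ t i) :
    hP G ≤ Height.logHeight c + E * hA A2 + ∑ i, t i * hA (A i) + Module.finrank ℚ L *
      (Real.log (Fintype.card I) + E * Real.log c2 + ∑ i, t i * Real.log cA) := by
  obtain ⟨ω0, -⟩ := Function.ne_iff.1 hc
  have hI : (1 : ℝ) ≤ Fintype.card I := by exact_mod_cast Fintype.card_pos_iff.2 ⟨ω0⟩
  have h2' : (1 : ℝ) ≤ c2 := by exact_mod_cast h2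
  have hA' : (1 : ℝ) ≤ cA := by exact_mod_cast hA1
  have h1 := T4.hP_le G hG (T4.ad_mul (T4.ad_mul (T4.ad_sn c hc) (T4.ad_pow E (T4.ad_hv A2)))
    (T4.ad_prod Finset.univ _ _ fun i _ => T4.ad_pow (t i) (T4.ad_hv (A i))))
    (n0 := Fintype.card I * c2 ^ E * ∏ i, (cA : ℝ) ^ t i)
    (one_le_mul_of_one_le_of_one_le (one_le_mul_of_one_le_of_one_le hI (one_le_pow₀ h2'))
      (Finset.one_le_prod fun i _ => one_le_pow₀ hA'))
    fun v => (h v).trans (by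
      refine (mul_le_mul_of_nonneg_right (T1.l1_comb v c fun ω => he ω v)
        (Finset.prod_nonneg fun i _ => pow_nonneg (mul_nonneg (Nat.cast_nonneg _)
          (zero_le_one.trans (T83.one_le_hv v _))) _)).trans_eq ?_
      simp only [mul_pow, Finset.prod_mul_distrib]
      ring)
  rw [Real.log_mul (by positivity) (by positivity), Real.log_mul (by positivity) (by positivity),
    Real.log_pow, Real.log_prod fun i _ => by positivity] at h1
  simpa only [Real.log_pow] using h1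

end D4C.T91
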